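import Pool.Agent.MP_92463a_gt.Defs

section

/-! Weierstrass data on the hyperelliptic curve `y² = t ∏ (t + b j) ∏ (a i - t)`:
Gauss map `G = y R(t)`, height differential `dt / t`. -/

open Set Complex Filter Metric
open scoped Topology ComplexConjugate ContDiff Manifold

noncomputable section

namespace Pool.Agent.MP_92463a_gt

/-- the point with horizontal part `z` and height `h` -/
def mk3 (z : ℂ) (h : ℝ) : E3 := !₂[z.re, z.im, h]

/-- the real linear map `v ↦ φ₁ v - conj (φ₂ v)` -/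
def wl (φ₁ φ₂ : ℂ) : ℂ →L[ℝ] ℂ :=
  ContinuousLinearMap.mul ℝ ℂ φ₁ -
    (conjCLE : ℂ →L[ℝ] ℂ).comp (ContinuousLinearMap.mul ℝ ℂ φ₂)

theorem wl_apply (φ₁ φ₂ v : ℂ) : wl φ₁ φ₂ v = φ₁ * v - conj (φ₂ * v) := by
  simp [wl]

theorem hasFDerivAt_wl {Φ₁ Φ₂ : ℂ → ℂ} {φ₁ φ₂ z : ℂ} (h₁ : HasDerivAt Φ₁ φ₁ z)
    (h₂ : HasDerivAt Φ₂ φ₂ z) : HasFDerivAt (fun w => Φ₁ w - conj (Φ₂ w)) (wl φ₁ φ₂) z := by
  have a := h₁.hasFDerivAt.restrictScalars ℝ
  have b := (conjCLE : ℂ →L[ℝ] ℂ).hasFDerivAt.comp z (h₂.hasFDerivAt.restrictScalars ℝ)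
  refine (a.sub b).congr_fderiv ?_
  ext v
  simp [wl_apply, mul_comm]

def sg (i : ℕ) : ℝ := (-1) ^ i

/-- the logarithm of `a - t` on the closed upper half plane -/
def lm (a : ℝ) (t : ℂ) : ℂ := log (t - a) - Real.pi * I

structure Dat where
  p : ℕ
  q : ℕ
  a : ℕ → ℝ
  b : ℕ → ℝ
  ρ : ℝ

namespace Dat

variable (D : Dat)

structure Ok : Prop where
  p_pos : 0 < D.p
  par : Even (D.p + D.q)
  ρ_pos : 0 < D.ρ
  a_pos : ∀ i < D.p, 0 < D.a i
  a_lt : ∀ i j, i < j → j < D.p → D.a i < D.a j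
  b_pos : ∀ j < D.q, 0 < D.b j
  b_gap : ∀ i j, i < j → j < D.q → 5 * D.b i < D.b j

def LG (t : ℂ) : ℂ :=
  Real.log D.ρ - log t / 2 + ∑ j ∈ Finset.range D.q, sg j * (3 / 2) * log (t + D.b j) -
    ∑ i ∈ Finset.range D.p, sg i * (1 / 2) * lm (D.a i) t

/-- the Gauss map on the closed upper half plane -/
def G (t : ℂ) : ℂ := exp (D.LG t)

/-- the branch of `y` on the closed upper half plane -/
def Y (t : ℂ) : ℂ :=
  exp ((log t + ∑ j ∈ Finset.range D.q, log (t + D.b j) +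
    ∑ i ∈ Finset.range D.p, lm (D.a i) t) / 2)

def P (t : ℂ) : ℂ :=
  t * (∏ j ∈ Finset.range D.q, (t + D.b j)) * ∏ i ∈ Finset.range D.p, (D.a i - t)

def R (t : ℂ) : ℂ :=
  D.ρ / t * (∏ j ∈ Finset.range D.q, if Even j then t + D.b j else ((t + D.b j) ^ 2)⁻¹) *
    ∏ i ∈ Finset.range D.p, if Even i then (D.a i - t)⁻¹ else 1

/-- finite ends -/
def IsE (t : ℂ) : Prop := t = 0 ∨ ∃ j < D.q, t = -D.b j

/-- points on the vertical axis -/
def IsA (t : ℂ) : Prop := ∃ i < D.p, t = D.a i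

/-- the quarter of the surface -/
def Q : Set ℂ := {t | 0 ≤ t.im ∧ ¬ D.IsE t}

/-- `X` is the horizontal part of the Weierstrass representation on the quarter -/
structure Pre (X : ℂ → ℂ) : Prop where
  cont : ContinuousOn X D.Q
  der : ∀ t : ℂ, 0 < t.im → HasFDerivAt X (wl (D.G t / t) (D.G t * t)⁻¹) t

/-- the period problem is solved -/
structure Sol (X : ℂ → ℂ) : Prop extends D.Pre X where
  im0 : ∀ x : ℝ, 0 < (D.P x).re → (X x).im = 0
  re0 : ∀ x : ℝ, (D.P x).re < 0 → (X x).re = 0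

/-- the coordinate of `X` that is constant along a boundary segment -/
def cst (X : ℂ → ℂ) (x : ℝ) : ℝ := if 0 < (D.P x).re then (X x).im else (X x).re

/-- the affine curve -/
abbrev C : Type := {z : ℂ × ℂ // z.2 ^ 2 = D.P z.1}

/-- the compact curve -/
abbrev N : Type := OnePoint D.C

open Classical in
def pt (t y : ℂ) : D.N := if h : y ^ 2 = D.P t then ((⟨(t, y), h⟩ : D.C) : D.N) else OnePoint.infty

def tt (z : D.N) : ℂ := z.elim 0 fun c => c.1.1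

def yy (z : D.N) : ℂ := z.elim 0 fun c => c.1.2

open Classical in
/-- the ends -/
def S : Finset D.N :=
  insert OnePoint.infty (insert (D.pt 0 0) ((Finset.range D.q).image fun j => D.pt (-D.b j) 0))

/-- the horizontal part of the surface at the point `(t, y)` of the curve -/
def Xg (X : ℂ → ℂ) (t y : ℂ) : ℂ :=
  if 0 ≤ t.im then y / D.Y t * X t else conj (conj y / D.Y (conj t) * X (conj t))

/-- the surface -/
def ff (X : ℂ → ℂ) (z : D.N) : E3 := mk3 (D.Xg X (D.tt z) (D.yy z)) (2 * Real.log ‖D.tt z‖)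

/-- local parameter `w ↦ (t₀ + w, h w)` -/
structure Par1 (t₀ : ℂ) (δ : ℝ) (h : ℂ → ℂ) : Prop where
  pos : 0 < δ
  hol : DifferentiableOn ℂ h (ball 0 δ)
  ne : ∀ w ∈ ball (0 : ℂ) δ, h w ≠ 0
  sq : ∀ w ∈ ball (0 : ℂ) δ, h w ^ 2 = D.P (t₀ + w)

/-- local parameter `w ↦ (x₀ + w², w h (w²))` at a finite branch point -/
structure Par2 (x₀ : ℂ) (δ : ℝ) (h : ℂ → ℂ) : Prop where
  pos : 0 < δ
  br : D.P x₀ = 0
  hol : DifferentiableOn ℂ h (ball 0 (δ ^ 2))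
  ne : ∀ s ∈ ball (0 : ℂ) (δ ^ 2), h s ≠ 0
  sq : ∀ s ∈ ball (0 : ℂ) (δ ^ 2), s * h s ^ 2 = D.P (x₀ + s)

/-- local parameter `w ↦ (w⁻², h (w²) / w ^ (p + q + 1))` at infinity -/
structure Par3 (δ : ℝ) (h : ℂ → ℂ) : Prop where
  pos : 0 < δ
  hol : DifferentiableOn ℂ h (ball 0 (δ ^ 2))
  ne : ∀ s ∈ ball (0 : ℂ) (δ ^ 2), h s ≠ 0
  sq : ∀ s ∈ ball (0 : ℂ) (δ ^ 2), s ≠ 0 → h s ^ 2 = s ^ (D.p + D.q + 1) * D.P s⁻¹

/-- the three kinds of charts -/
def Kind (e : OpenPartialHomeomorph D.N ℂ) (δ : ℝ) : Prop :=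
  (∃ t₀ h, D.Par1 t₀ δ h ∧ ∀ w ∈ ball (0 : ℂ) δ, e.symm w = D.pt (t₀ + w) (h w)) ∨
  (∃ x₀ h, D.Par2 x₀ δ h ∧ ∀ w ∈ ball (0 : ℂ) δ, e.symm w = D.pt (x₀ + w ^ 2) (w * h (w ^ 2))) ∨
  (∃ h, D.Par3 δ h ∧ e.symm 0 = OnePoint.infty ∧ ∀ w ∈ ball (0 : ℂ) δ, w ≠ 0 →
    e.symm w = D.pt (w ^ 2)⁻¹ (h (w ^ 2) / w ^ (D.p + D.q + 1)))

structure Atl where
  ch : D.N → OpenPartialHomeomorph D.N ℂ
  δ : D.N → ℝ
  tgt : ∀ z, (ch z).target = ball 0 (δ z)
  mem : ∀ z, z ∈ (ch z).source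
  ctr : ∀ z, ch z z = 0
  kind : ∀ z, D.Kind (ch z) (δ z)

variable {D}

@[reducible] def Atl.charted (A : D.Atl) : ChartedSpace ℂ D.N where
  atlas := range A.ch
  chartAt := A.ch
  mem_chart_source := A.mem
  chart_mem_atlas z := ⟨z, rfl⟩

end Dat

end Pool.Agent.MP_92463a_gt

end
end

section

open Set Complex Filter Metric
open scoped Topology ComplexConjugate ContDiff Manifold

noncomputable section

namespace Pool.Agent.MP_92463a_gt

namespace Dat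

variable {D : Dat}

theorem Alg_ne {t : ℂ} (ht : D.P t ≠ 0) :
    t ≠ 0 ∧ (∀ j ∈ Finset.range D.q, t + D.b j ≠ 0) ∧ ∀ i ∈ Finset.range D.p, D.a i - t ≠ 0 := by
  simp only [P, ne_eq, mul_eq_zero, Finset.prod_eq_zero_iff, not_or, not_exists, not_and] at ht
  exact ⟨ht.1.1, ht.1.2, ht.2⟩

theorem Alg_exp_lm {a : ℝ} {t : ℂ} (h : (a : ℂ) - t ≠ 0) : exp (lm a t) = a - t := by
  rw [lm, exp_sub, exp_pi_mul_I, exp_log (fun h' => h (by linear_combination -h'))]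
  ring

theorem Alg_log_cont : ContinuousOn log {z : ℂ | 0 ≤ z.im ∧ z ≠ 0} := by
  rintro z ⟨h1, h2⟩
  by_cases h : z ∈ slitPlane
  · exact (continuousAt_clog h).continuousWithinAt
  · rw [mem_slitPlane_iff, not_or, not_lt, not_not] at h
    have h3 : z.re < 0 := lt_of_le_of_ne h.1 fun h0 => h2 (Complex.ext h0 h.2)
    exact (continuousWithinAt_log_of_re_neg_of_im_zero h3 h.2).mono fun w hw => hw.1

theorem Alg_c0 : ContinuousOn log {t | 0 ≤ t.im ∧ D.P t ≠ 0} :=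
  Alg_log_cont.mono fun _ ht => ⟨ht.1, (Alg_ne ht.2).1⟩

theorem Alg_c1 {j : ℕ} (hj : j ∈ Finset.range D.q) :
    ContinuousOn (fun t : ℂ => log (t + D.b j)) {t | 0 ≤ t.im ∧ D.P t ≠ 0} :=
  Alg_log_cont.comp (by fun_prop) fun _ ht => ⟨by simpa using ht.1, (Alg_ne ht.2).2.1 j hj⟩

theorem Alg_c2 {i : ℕ} (hi : i ∈ Finset.range D.p) :
    ContinuousOn (lm (D.a i)) {t | 0 ≤ t.im ∧ D.P t ≠ 0} := by
  refine ContinuousOn.sub (Alg_log_cont.comp (by fun_prop) fun t ht => ⟨by simpa using ht.1, ?_⟩)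
    continuousOn_const
  exact fun h => (Alg_ne ht.2).2.2 i hi (by linear_combination -h)

theorem Alg_d1 (c : ℝ) {t : ℂ} (ht : 0 < t.im) :
    DifferentiableAt ℂ (fun t : ℂ => log (t + c)) t :=
  DifferentiableAt.clog (by fun_prop) (Or.inr (by simpa using ht.ne'))

theorem Alg_d2 (c : ℝ) {t : ℂ} (ht : 0 < t.im) : DifferentiableAt ℂ (lm c) t :=
  (DifferentiableAt.clog (f := fun t : ℂ => t - c) (by fun_prop)
    (Or.inr (by simpa using ht.ne'))).sub_const _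

theorem Alg_Y (t : ℂ) : D.Y t = exp (log t / 2) *
    (∏ j ∈ Finset.range D.q, exp (log (t + D.b j) / 2)) *
      ∏ i ∈ Finset.range D.p, exp (lm (D.a i) t / 2) := by
  rw [Y, add_div, add_div, Finset.sum_div, Finset.sum_div, exp_add, exp_add, exp_sum, exp_sum]

theorem Alg_half (z : ℂ) : exp (z / 2) ^ 2 = exp z := by
  rw [← exp_nat_mul]
  congr 1
  push_cast
  ring

theorem Alg_pow (z : ℂ) (n : ℕ) : exp ((n : ℂ) / 2 * z) = exp (z / 2) ^ n := by
  rw [← exp_nat_mul]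
  congr 1
  ring

theorem P_eq_zero {t : ℂ} : D.P t = 0 ↔ D.IsE t ∨ D.IsA t := by
  simp only [P, IsE, IsA, mul_eq_zero, Finset.prod_eq_zero_iff, Finset.mem_range,
    add_eq_zero_iff_eq_neg, sub_eq_zero, eq_comm (b := t)]

theorem P_finite : {t : ℂ | D.P t = 0}.Finite := by
  refine ((((Finset.range D.q).image fun j => -(D.b j : ℂ)).finite_toSet.insert 0).union
    ((Finset.range D.p).image fun i => (D.a i : ℂ)).finite_toSet).subset fun t ht => ?_
  rcases P_eq_zero.1 ht with (h | ⟨j, hj, h⟩) | ⟨i, hi, h⟩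
  · exact Or.inl (Or.inl h)
  · exact Or.inl (Or.inr (by simpa using ⟨j, hj, h.symm⟩))
  · exact Or.inr (by simpa using ⟨i, hi, h.symm⟩)

theorem P_conj (t : ℂ) : D.P (conj t) = conj (D.P t) := by
  simp [P]

theorem R_conj (t : ℂ) : D.R (conj t) = conj (D.R t) := by
  simp [R, apply_ite conj]

theorem P_im (x : ℝ) : (D.P x).im = 0 := by
  rw [← conj_eq_iff_im, ← P_conj, conj_ofReal]

theorem R_im (x : ℝ) : (D.R x).im = 0 := by
  rw [← conj_eq_iff_im, ← R_conj, conj_ofReal]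

theorem ne_of_im {t : ℂ} (ht : t.im ≠ 0) : D.P t ≠ 0 := by
  intro h
  rcases P_eq_zero.1 h with (h | ⟨j, -, h⟩) | ⟨i, -, h⟩ <;> exact ht (by simp [h])

theorem P_diff : Differentiable ℂ D.P := by
  unfold P
  fun_prop

theorem R_diff {t : ℂ} (ht : D.P t ≠ 0) : DifferentiableAt ℂ D.R t := by
  obtain ⟨h0, h1, h2⟩ := Alg_ne ht
  refine (DifferentiableAt.mul (by fun_prop (disch := assumption)) ?_).mul ?_
  · refine DifferentiableAt.fun_finsetProd fun j hj => ?_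
    split_ifs
    · fun_prop
    · exact DifferentiableAt.inv (by fun_prop) (pow_ne_zero _ (h1 j hj))
  · refine DifferentiableAt.fun_finsetProd fun i hi => ?_
    split_ifs
    · exact DifferentiableAt.inv (by fun_prop) (h2 i hi)
    · fun_prop

theorem Ok.R_ne (hD : D.Ok) {t : ℂ} (ht : D.P t ≠ 0) : D.R t ≠ 0 := by
  obtain ⟨h0, h1, h2⟩ := Alg_ne ht
  refine mul_ne_zero (mul_ne_zero (div_ne_zero (by exact_mod_cast hD.ρ_pos.ne') h0)
    (Finset.prod_ne_zero_iff.2 fun j hj => ?_)) (Finset.prod_ne_zero_iff.2 fun i hi => ?_)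
  · split_ifs
    · exact h1 j hj
    · exact inv_ne_zero (pow_ne_zero _ (h1 j hj))
  · split_ifs
    · exact inv_ne_zero (h2 i hi)
    · exact one_ne_zero

theorem Y_ne (t : ℂ) : D.Y t ≠ 0 := exp_ne_zero _

theorem G_ne (t : ℂ) : D.G t ≠ 0 := exp_ne_zero _

theorem Y_sq {t : ℂ} (ht : D.P t ≠ 0) : D.Y t ^ 2 = D.P t := by
  obtain ⟨h0, h1, h2⟩ := Alg_ne ht
  rw [Alg_Y, mul_pow, mul_pow, ← Finset.prod_pow, ← Finset.prod_pow, Alg_half, exp_log h0, P]
  congr 1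
  · congr 1
    exact Finset.prod_congr rfl fun j hj => by rw [Alg_half, exp_log (h1 j hj)]
  · exact Finset.prod_congr rfl fun i hi => by rw [Alg_half, Alg_exp_lm (h2 i hi)]

theorem Ok.G_eq (hD : D.Ok) {t : ℂ} (ht : D.P t ≠ 0) : D.G t = D.Y t * D.R t := by
  obtain ⟨h0, h1, h2⟩ := Alg_ne ht
  have e1 : ∀ j ∈ Finset.range D.q, exp (sg j * (3 / 2) * log (t + D.b j)) =
      exp (log (t + D.b j) / 2) * if Even j then t + D.b j else ((t + D.b j) ^ 2)⁻¹ := by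
    intro j hj
    have a1 := Alg_half (log (t + D.b j))
    have a2 := Alg_pow (log (t + D.b j)) 3
    have a3 := exp_ne_zero (log (t + D.b j) / 2)
    rw [exp_log (h1 j hj)] at a1
    push_cast at a2
    split_ifs with h
    · rw [sg, h.neg_one_pow, ofReal_one, one_mul, a2]
      linear_combination exp (log (t + D.b j) / 2) * a1
    · rw [sg, (Nat.not_even_iff_odd.1 h).neg_one_pow, ofReal_neg, ofReal_one, neg_one_mul, neg_mul,
        exp_neg, a2]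
      generalize exp (log (t + D.b j) / 2) = w at a1 a3
      rw [← a1]
      field_simp
  have e2 : ∀ i ∈ Finset.range D.p, exp (-(sg i * (1 / 2) * lm (D.a i) t)) =
      exp (lm (D.a i) t / 2) * if Even i then (D.a i - t)⁻¹ else 1 := by
    intro i hi
    have a1 := Alg_half (lm (D.a i) t)
    have a2 := Alg_pow (lm (D.a i) t) 1
    have a3 := exp_ne_zero (lm (D.a i) t / 2)
    rw [Alg_exp_lm (h2 i hi)] at a1
    push_cast at a2
    split_ifs with h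
    · rw [sg, h.neg_one_pow, ofReal_one, one_mul, exp_neg, a2]
      generalize exp (lm (D.a i) t / 2) = w at a1 a3
      rw [← a1]
      field_simp
    · rw [sg, (Nat.not_even_iff_odd.1 h).neg_one_pow, ofReal_neg, ofReal_one, neg_one_mul, neg_mul,
        neg_neg, a2, pow_one, mul_one]
  have e0 : exp (Real.log D.ρ - log t / 2) = exp (log t / 2) * (D.ρ / t) := by
    have a1 := Alg_half (log t)
    have a3 := exp_ne_zero (log t / 2)
    rw [exp_log h0] at a1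
    rw [exp_sub, ← ofReal_exp, Real.exp_log hD.ρ_pos]
    generalize exp (log t / 2) = w at a1 a3
    rw [← a1]
    field_simp
  rw [G, LG, sub_eq_add_neg _ (Finset.sum _ _), ← Finset.sum_neg_distrib, exp_add, exp_add, exp_sum,
    exp_sum, e0, Finset.prod_congr rfl e1, Finset.prod_congr rfl e2, Finset.prod_mul_distrib,
    Finset.prod_mul_distrib, Alg_Y, R]
  ring

theorem Y_diff {t : ℂ} (ht : 0 < t.im) : DifferentiableAt ℂ D.Y t := by
  refine DifferentiableAt.cexp (DifferentiableAt.div_const (DifferentiableAt.add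
    (DifferentiableAt.add (differentiableAt_log (Or.inr ht.ne')) ?_) ?_) _)
  · exact DifferentiableAt.fun_sum fun j _ => Alg_d1 _ ht
  · exact DifferentiableAt.fun_sum fun i _ => Alg_d2 _ ht

theorem G_diff {t : ℂ} (ht : 0 < t.im) : DifferentiableAt ℂ D.G t := by
  refine DifferentiableAt.cexp (DifferentiableAt.sub (DifferentiableAt.add
    (((differentiableAt_log (Or.inr ht.ne')).div_const _).const_sub _) ?_) ?_)
  · exact DifferentiableAt.fun_sum fun j _ => (Alg_d1 _ ht).const_mul _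
  · exact DifferentiableAt.fun_sum fun i _ => (Alg_d2 _ ht).const_mul _

theorem Y_cont : ContinuousOn D.Y {t | 0 ≤ t.im ∧ D.P t ≠ 0} := by
  refine ContinuousOn.cexp (ContinuousOn.div_const (ContinuousOn.add
    (ContinuousOn.add Alg_c0 ?_) ?_) _)
  · exact continuousOn_finsetSum _ fun j hj => Alg_c1 hj
  · exact continuousOn_finsetSum _ fun i hi => Alg_c2 hi

theorem G_cont : ContinuousOn D.G {t | 0 ≤ t.im ∧ D.P t ≠ 0} := by
  refine ContinuousOn.cexp (ContinuousOn.sub (ContinuousOn.add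
    (continuousOn_const.sub (Alg_c0.div_const _)) ?_) ?_)
  · exact continuousOn_finsetSum _ fun j hj => continuousOn_const.mul (Alg_c1 hj)
  · exact continuousOn_finsetSum _ fun i hi => continuousOn_const.mul (Alg_c2 hi)

theorem Y_im {x : ℝ} (hx : 0 < (D.P x).re) : (D.Y x).im = 0 := by
  have h := Y_sq (D := D) (t := x) (fun h => by simp [h] at hx)
  have h1 := congrArg Complex.re h
  have h2 := congrArg Complex.im h
  rw [P_im] at h2
  simp only [sq, mul_re, mul_im] at h1 h2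
  by_contra h0
  have h3 : (D.Y x).re = 0 := by
    have : (D.Y x).re * (D.Y x).im = 0 := by linarith
    exact (mul_eq_zero.1 this).resolve_right h0
  rw [h3] at h1
  nlinarith [mul_self_nonneg (D.Y x).im]

theorem Y_re {x : ℝ} (hx : (D.P x).re < 0) : (D.Y x).re = 0 := by
  have h := Y_sq (D := D) (t := x) (fun h => by simp [h] at hx)
  have h1 := congrArg Complex.re h
  have h2 := congrArg Complex.im h
  rw [P_im] at h2
  simp only [sq, mul_re, mul_im] at h1 h2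
  by_contra h0
  have h3 : (D.Y x).im = 0 := by
    have : (D.Y x).re * (D.Y x).im = 0 := by linarith
    exact (mul_eq_zero.1 this).resolve_left h0
  rw [h3] at h1
  nlinarith [mul_self_nonneg (D.Y x).re]

theorem Ok.not_E (hD : D.Ok) {t : ℂ} (ha : D.IsA t) : ¬ D.IsE t := by
  obtain ⟨i, hi, rfl⟩ := ha
  have h1 := hD.a_pos i hi
  rintro (h | ⟨j, hj, h⟩)
  · exact h1.ne' (by exact_mod_cast h)
  · have h2 := hD.b_pos j hj
    have h3 : D.a i = - D.b j := by exact_mod_cast h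
    linarith

theorem Ok.not_const (hD : D.Ok) (c t₀ : ℂ) : ¬ ∀ᶠ t in 𝓝 t₀, D.P t * D.R t ^ 2 = c := by
  intro h
  let Nm : ℂ → ℂ := fun t => (D.ρ : ℂ) ^ 2 *
    (∏ j ∈ Finset.range D.q, if Even j then (t + D.b j) ^ 3 else 1) *
      ∏ i ∈ Finset.range D.p, if Even i then 1 else (D.a i - t)
  let Dn : ℂ → ℂ := fun t => c * t *
    (∏ j ∈ Finset.range D.q, if Even j then 1 else (t + D.b j) ^ 3) *
      ∏ i ∈ Finset.range D.p, if Even i then (D.a i - t) else 1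
  have d1 : Differentiable ℂ Nm := by
    refine (Differentiable.const_mul ?_ _).mul ?_
    · refine Differentiable.fun_finsetProd fun j _ => ?_
      split_ifs <;> fun_prop
    · refine Differentiable.fun_finsetProd fun j _ => ?_
      split_ifs <;> fun_prop
  have d2 : Differentiable ℂ Dn := by
    refine (Differentiable.mul (by fun_prop) ?_).mul ?_
    · refine Differentiable.fun_finsetProd fun j _ => ?_
      split_ifs <;> fun_prop
    · refine Differentiable.fun_finsetProd fun j _ => ?_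
      split_ifs <;> fun_prop
  have key : ∀ t, D.P t ≠ 0 → D.P t * D.R t ^ 2 = c → Nm t = Dn t := by
    intro t ht hc
    obtain ⟨h0, h1, h2⟩ := Alg_ne ht
    have e1 : (∏ j ∈ Finset.range D.q, if Even j then (t + D.b j) ^ 3 else 1) =
        (∏ j ∈ Finset.range D.q, (t + D.b j)) *
        (∏ j ∈ Finset.range D.q, if Even j then t + D.b j else ((t + D.b j) ^ 2)⁻¹) ^ 2 *
        ∏ j ∈ Finset.range D.q, if Even j then 1 else (t + D.b j) ^ 3 := by
      rw [← Finset.prod_pow, ← Finset.prod_mul_distrib, ← Finset.prod_mul_distrib]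
      refine Finset.prod_congr rfl fun j hj => ?_
      have := h1 j hj
      split_ifs
      · ring
      · field_simp
    have e2 : (∏ i ∈ Finset.range D.p, if Even i then 1 else (D.a i - t)) =
        (∏ i ∈ Finset.range D.p, (D.a i - t)) *
        (∏ i ∈ Finset.range D.p, if Even i then (D.a i - t)⁻¹ else 1) ^ 2 *
        ∏ i ∈ Finset.range D.p, if Even i then (D.a i - t) else 1 := by
      rw [← Finset.prod_pow, ← Finset.prod_mul_distrib, ← Finset.prod_mul_distrib]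
      refine Finset.prod_congr rfl fun i hi => ?_
      have := h2 i hi
      split_ifs
      · field_simp
      · ring
    simp only [Nm, Dn]
    rw [e1, e2, ← hc, P, R]
    field_simp
  have hev : ∀ᶠ t in 𝓝[≠] t₀, Nm t = Dn t := by
    filter_upwards [nhdsWithin_le_nhds h,
      nhdsNE_le_cofinite t₀ (P_finite (D := D)).compl_mem_cofinite] with t h1 h2
    exact key t h2 h1
  have e := AnalyticOnNhd.eq_of_frequently_eq (fun z _ => d1.analyticAt z)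
    (fun z _ => d2.analyticAt z) hev.frequently
  have e0 := congrFun e 0
  simp only [Nm, Dn, mul_zero, zero_mul, zero_add, sub_zero] at e0
  refine mul_ne_zero (mul_ne_zero (pow_ne_zero _ (by exact_mod_cast hD.ρ_pos.ne'))
    (Finset.prod_ne_zero_iff.2 fun j hj => ?_)) (Finset.prod_ne_zero_iff.2 fun i hi => ?_) e0
  · split_ifs
    · exact pow_ne_zero _ (by exact_mod_cast (hD.b_pos j (Finset.mem_range.1 hj)).ne')
    · exact one_ne_zero
  · split_ifs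
    · exact one_ne_zero
    · exact_mod_cast (hD.a_pos i (Finset.mem_range.1 hi)).ne'

end Dat

end Pool.Agent.MP_92463a_gt

end
end

section

open Set Complex Filter Metric
open scoped Topology ComplexConjugate ContDiff Manifold

noncomputable section

namespace Pool.Agent.MP_92463a_gt

theorem Phase_prod {f : ℕ → ℝ} {k n : ℕ} (hk : k ≤ n) (h1 : ∀ i < k, f i < 0)
    (h2 : ∀ i, k ≤ i → i < n → 0 < f i) : 0 < sg k * ∏ i ∈ Finset.range n, f i := by
  have h3 : sg k * ∏ i ∈ Finset.range k, f i = ∏ i ∈ Finset.range k, -f i := by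
    rw [Finset.prod_neg, Finset.card_range, sg]
  rw [← Finset.prod_range_mul_prod_Ico f hk, ← mul_assoc, h3]
  exact mul_pos (Finset.prod_pos fun i hi => neg_pos.2 (h1 i (Finset.mem_range.1 hi)))
    (Finset.prod_pos fun i hi => h2 i (Finset.mem_Ico.1 hi).1 (Finset.mem_Ico.1 hi).2)

theorem Phase_sg (k : ℕ) : ∑ i ∈ Finset.range k, sg i = if Even k then 0 else 1 := by
  unfold sg
  exact neg_one_geom_sum

theorem Phase_sum {f : ℕ → ℝ} {c : ℝ} {k n : ℕ} (hk : k ≤ n) (h1 : ∀ i < k, f i = c)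
    (h2 : ∀ i, k ≤ i → i < n → f i = 0) :
    ∑ i ∈ Finset.range n, sg i * f i = (if Even k then 0 else 1) * c := by
  rw [← Finset.sum_range_add_sum_Ico _ hk, ← Phase_sg, Finset.sum_mul,
    Finset.sum_eq_zero (s := Finset.Ico k n) fun i hi => by
      rw [h2 i (Finset.mem_Ico.1 hi).1 (Finset.mem_Ico.1 hi).2, mul_zero], add_zero]
  exact Finset.sum_congr rfl fun i hi => by rw [h1 i (Finset.mem_range.1 hi)]

theorem Phase_ex {f : ℕ → ℝ} {y : ℝ} {n : ℕ} (h : ∀ i j, i < j → j < n → f i < f j)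
    (hy : ∀ i < n, f i ≠ y) : ∃ k ≤ n, (∀ i < k, f i < y) ∧ ∀ i, k ≤ i → i < n → y < f i := by
  induction n with
  | zero => exact ⟨0, le_rfl, fun i hi => absurd hi (Nat.not_lt_zero _),
      fun i _ hi => absurd hi (Nat.not_lt_zero _)⟩
  | succ n ih =>
    rcases lt_or_gt_of_ne (hy n (Nat.lt_succ_self n)) with hn | hn
    · refine ⟨n + 1, le_rfl, fun i hi => ?_, fun i h1 h2 => absurd h2 (not_lt.2 h1)⟩
      rcases (Nat.lt_succ_iff.1 hi).lt_or_eq with h1 | rfl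
      · exact (h i n h1 (Nat.lt_succ_self n)).trans hn
      · exact hn
    · obtain ⟨k, hk, h1, h2⟩ := ih (fun i j hij hj => h i j hij (by omega))
        fun i hi => hy i (by omega)
      refine ⟨k, by omega, h1, fun i h3 h4 => ?_⟩
      rcases (Nat.lt_succ_iff.1 h4).lt_or_eq with h5 | rfl
      · exact h2 i h3 h5
      · exact hn

theorem Phase_exp (z : ℂ) : exp z = exp (z.im * I) * (‖exp z‖ : ℂ) := by
  rw [norm_exp, ofReal_exp, ← exp_add, add_comm, re_add_im]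

namespace Dat

variable {D : Dat}

theorem Phase_P (D : Dat) (x : ℝ) : D.P x = ((x * (∏ j ∈ Finset.range D.q, (x + D.b j)) *
    ∏ i ∈ Finset.range D.p, (D.a i - x) : ℝ) : ℂ) := by
  simp only [P, ofReal_mul, ofReal_prod, ofReal_add, ofReal_sub]

theorem Phase_im (D : Dat) (x : ℝ) : (D.LG x).im = -arg x / 2 +
    ∑ j ∈ Finset.range D.q, sg j * (3 / 2 * arg ((x + D.b j : ℝ) : ℂ)) +
    ∑ i ∈ Finset.range D.p, sg i * (1 / 2 * (Real.pi - arg ((x - D.a i : ℝ) : ℂ))) := by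
  have h1 : ∀ (c d : ℝ) (z : ℂ), ((c : ℂ) * (d / 2) * z).im = c * (d / 2 * z.im) := fun c d z => by
    have : (c : ℂ) * (d / 2) = ((c * (d / 2) : ℝ) : ℂ) := by push_cast; ring
    rw [this, im_ofReal_mul, mul_assoc]
  have h3 := fun c => h1 c 3
  have h4 := fun c => h1 c 1
  simp only [ofReal_ofNat, ofReal_one] at h3 h4
  simp only [LG, sub_im, add_im, im_sum, h3, h4, lm, log_im, ofReal_im, div_ofNat_im,
    ofReal_add, ofReal_sub, im_ofReal_mul, I_im]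
  rw [sub_eq_add_neg _ (Finset.sum _ _), ← Finset.sum_neg_distrib]
  congr 1
  · ring
  · exact Finset.sum_congr rfl fun i _ => by ring

theorem Phase_ne {x : ℝ} (h0 : x ≠ 0) (hb : ∀ j < D.q, x + D.b j ≠ 0)
    (ha : ∀ i < D.p, D.a i - x ≠ 0) : D.P x ≠ 0 := by
  rw [Phase_P, ofReal_ne_zero]
  exact mul_ne_zero (mul_ne_zero h0 (Finset.prod_ne_zero_iff.2 fun j hj =>
    hb j (Finset.mem_range.1 hj))) (Finset.prod_ne_zero_iff.2 fun i hi =>
      ha i (Finset.mem_range.1 hi))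

theorem Ok.sign_pos (hD : D.Ok) {x : ℝ} {k : ℕ} (hx : 0 < x) (hk : k ≤ D.p)
    (h1 : ∀ i < k, D.a i < x) (h2 : ∀ i, k ≤ i → i < D.p → x < D.a i) :
    0 < sg k * (D.P x).re ∧ D.G x = (if Even k then 1 else I) * (‖D.G x‖ : ℂ) := by
  have hb : ∀ j < D.q, 0 < x + D.b j := fun j hj => add_pos hx (hD.b_pos j hj)
  constructor
  · rw [Phase_P, ofReal_re, mul_left_comm]
    exact mul_pos (mul_pos hx (Finset.prod_pos fun j hj => hb j (Finset.mem_range.1 hj)))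
      (Phase_prod hk (fun i hi => sub_neg.2 (h1 i hi)) fun i h3 h4 => sub_pos.2 (h2 i h3 h4))
  · have h3 : (D.LG x).im = (if Even k then 0 else 1) * (Real.pi / 2) := by
      rw [Phase_im, arg_ofReal_of_nonneg hx.le, Finset.sum_eq_zero fun j hj => by
        rw [arg_ofReal_of_nonneg (hb j (Finset.mem_range.1 hj)).le, mul_zero, mul_zero],
        Phase_sum (c := Real.pi / 2) hk (fun i hi => by
          rw [arg_ofReal_of_nonneg (sub_pos.2 (h1 i hi)).le]; ring) fun i h3 h4 => by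
          rw [arg_ofReal_of_neg (sub_neg.2 (h2 i h3 h4))]; ring]
      ring
    unfold G
    refine (Phase_exp _).trans ?_
    rw [h3]
    split_ifs
    · simp
    · simp

theorem Ok.sign_neg (hD : D.Ok) {x : ℝ} {k : ℕ} (hx : x < 0) (hk : k ≤ D.q)
    (h1 : ∀ j < k, D.b j < -x) (h2 : ∀ j, k ≤ j → j < D.q → -x < D.b j) :
    sg k * (D.P x).re < 0 ∧ D.G x = (if Even k then -I else -1) * (‖D.G x‖ : ℂ) := by
  have ha : ∀ i < D.p, 0 < D.a i - x := fun i hi => sub_pos.2 (hx.trans (hD.a_pos i hi))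
  constructor
  · rw [Phase_P, ofReal_re, ← mul_assoc, mul_left_comm]
    exact mul_neg_of_neg_of_pos (mul_neg_of_neg_of_pos hx
      (Phase_prod hk (fun j hj => by linarith [h1 j hj]) fun j h3 h4 => by linarith [h2 j h3 h4]))
      (Finset.prod_pos fun i hi => ha i (Finset.mem_range.1 hi))
  · have h3 : (D.LG x).im = -Real.pi / 2 + (if Even k then 0 else 1) * (3 / 2 * Real.pi) := by
      rw [Phase_im, arg_ofReal_of_neg hx, Finset.sum_eq_zero (s := Finset.range D.p) fun i hi => by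
        rw [arg_ofReal_of_neg (by linarith [ha i (Finset.mem_range.1 hi)]), sub_self, mul_zero,
          mul_zero],
        Phase_sum (c := 3 / 2 * Real.pi) hk (fun j hj => by
          rw [arg_ofReal_of_neg (by linarith [h1 j hj])]) fun j h3 h4 => by
          rw [arg_ofReal_of_nonneg (by linarith [h2 j h3 h4]), mul_zero], add_zero]
    unfold G
    refine (Phase_exp _).trans ?_
    rw [h3]
    congr 1
    split_ifs
    · rw [zero_mul, add_zero, ← exp_neg_pi_div_two_mul_I]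
      push_cast
      rfl
    · rw [← exp_pi_mul_I]
      congr 2
      push_cast
      ring

theorem Ok.exists_pos (hD : D.Ok) {x : ℝ} (hx : 0 < x) (hP : D.P x ≠ 0) :
    ∃ k ≤ D.p, (∀ i < k, D.a i < x) ∧ ∀ i, k ≤ i → i < D.p → x < D.a i := by
  refine Phase_ex hD.a_lt fun i hi h => hP ?_
  rw [Phase_P, Finset.prod_eq_zero (Finset.mem_range.2 hi) (sub_eq_zero.2 h), mul_zero,
    ofReal_zero]

theorem Ok.exists_neg (hD : D.Ok) {x : ℝ} (hx : x < 0) (hP : D.P x ≠ 0) :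
    ∃ k ≤ D.q, (∀ j < k, D.b j < -x) ∧ ∀ j, k ≤ j → j < D.q → -x < D.b j := by
  refine Phase_ex (fun i j hij hj => ?_) fun j hj h => hP ?_
  · linarith [hD.b_gap i j hij hj, hD.b_pos i (hij.trans hj)]
  · rw [Phase_P, Finset.prod_eq_zero (Finset.mem_range.2 hj) (by rw [h, add_neg_cancel]),
      mul_zero, zero_mul, ofReal_zero]

/-- two points of the same segment on the positive axis -/
theorem Ok.seg_pos (hD : D.Ok) {x x' : ℝ} {k : ℕ} (hx : 0 < x) (h1 : ∀ i < k, D.a i < x)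
    (h2 : ∀ i, k ≤ i → i < D.p → x' < D.a i) : ∀ s ∈ Icc x x', D.P s ≠ 0 := by
  intro s hs
  have h0 : 0 < s := hx.trans_le hs.1
  refine Phase_ne h0.ne' (fun j hj => (add_pos h0 (hD.b_pos j hj)).ne') fun i hi => ?_
  rcases lt_or_ge i k with h | h
  · exact (sub_neg.2 ((h1 i h).trans_le hs.1)).ne
  · exact (sub_pos.2 (hs.2.trans_lt (h2 i h hi))).ne'

/-- two points of the same segment on the negative axis -/
theorem Ok.seg_neg (hD : D.Ok) {x x' : ℝ} {k : ℕ} (hx : x' < 0) (h1 : ∀ j < k, D.b j < -x')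
    (h2 : ∀ j, k ≤ j → j < D.q → -x < D.b j) : ∀ s ∈ Icc x x', D.P s ≠ 0 := by
  intro s hs
  have h0 : s < 0 := hs.2.trans_lt hx
  refine Phase_ne h0.ne (fun j hj => ?_) fun i hi => (sub_pos.2 (h0.trans (hD.a_pos i hi))).ne'
  rcases lt_or_ge j k with h | h
  · exact ne_of_lt (by linarith [h1 j h, hs.2])
  · exact ne_of_gt (by linarith [h2 j h hj, hs.1])

end Dat

end Pool.Agent.MP_92463a_gt

end
end

section

open Set Complex Filter Metric
open scoped Topology ComplexConjugate ContDiff Manifold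

noncomputable section

namespace Pool.Agent.MP_92463a_gt

theorem Tool1_im {w : ℂ} (hw : w ∈ ball (0 : ℂ) 1) : 0 < (I * (1 + w) / (1 - w)).im := by
  rw [mem_ball_zero_iff] at hw
  have h1 : (1 : ℂ) - w ≠ 0 := by
    intro h
    rw [← sub_eq_zero.1 h] at hw
    simp at hw
  have h2 : normSq w < 1 := by
    rw [Complex.normSq_eq_norm_sq]
    nlinarith [norm_nonneg w]
  have h3 : 0 < normSq (1 - w) := normSq_pos.2 h1
  rw [normSq_apply] at h2
  rw [div_im, ← sub_div]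
  refine div_pos ?_ h3
  simp
  nlinarith

theorem prim_upper {f : ℂ → ℂ} (hf : DifferentiableOn ℂ f {t | 0 < t.im}) :
    ∃ F : ℂ → ℂ, ∀ t : ℂ, 0 < t.im → HasDerivAt F (f t) t := by
  have hne : ∀ w ∈ ball (0 : ℂ) 1, (1 : ℂ) - w ≠ 0 := by
    intro w hw h
    rw [← sub_eq_zero.1 h] at hw
    simp at hw
  have hg : DifferentiableOn ℂ (fun w => f (I * (1 + w) / (1 - w)) * (2 * I / (1 - w) ^ 2))
      (ball 0 1) := by
    refine DifferentiableOn.mul (hf.comp (DifferentiableOn.div (by fun_prop) (by fun_prop) hne)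
      fun w hw => Tool1_im hw) (DifferentiableOn.div (by fun_prop) (by fun_prop)
        fun w hw => pow_ne_zero _ (hne w hw))
  obtain ⟨G, hG⟩ := hg.isExactOn_ball
  refine ⟨fun t => G ((t - I) / (t + I)), fun t ht => ?_⟩
  have h0 : t + I ≠ 0 := by
    intro h
    have := congrArg im h
    simp at this
    linarith
  have hb : (t - I) / (t + I) ∈ ball (0 : ℂ) 1 := by
    rw [mem_ball_zero_iff, norm_div, div_lt_one (norm_pos_iff.2 h0),
      ← sq_lt_sq₀ (norm_nonneg _) (norm_nonneg _), ← Complex.normSq_eq_norm_sq,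
      ← Complex.normSq_eq_norm_sq, normSq_apply, normSq_apply]
    simp
    nlinarith
  have hc : HasDerivAt (fun t : ℂ => (t - I) / (t + I)) ((1 * (t + I) - (t - I) * 1) / (t + I) ^ 2)
      t := ((hasDerivAt_id t).sub_const I).div ((hasDerivAt_id t).add_const I) h0
  have e1 : 1 - (t - I) / (t + I) = 2 * I / (t + I) := by field_simp; ring
  have e2 : I * (1 + (t - I) / (t + I)) / (1 - (t - I) / (t + I)) = t := by
    rw [e1]; field_simp; ring
  refine ((hG _ hb).comp t hc).congr_deriv ?_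
  simp only
  rw [e2, e1]
  field_simp
  ring

theorem loc_sqrt {f : ℂ → ℂ} {y₀ : ℂ} (hf : AnalyticAt ℂ f 0) (h0 : y₀ ^ 2 = f 0) (hy : y₀ ≠ 0) :
    ∃ δ > 0, ∃ h : ℂ → ℂ, DifferentiableOn ℂ h (ball 0 δ) ∧ h 0 = y₀ ∧
      ∀ w ∈ ball (0 : ℂ) δ, h w ≠ 0 ∧ h w ^ 2 = f w := by
  have hf0 : f 0 ≠ 0 := h0 ▸ pow_ne_zero 2 hy
  have h1 : ∀ᶠ w in 𝓝 (0 : ℂ), f w / f 0 ∈ slitPlane := by
    have : ContinuousAt (fun w => f w / f 0) 0 := hf.continuousAt.div_const _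
    refine this.eventually (isOpen_slitPlane.mem_nhds ?_)
    simp only [div_self hf0]
    exact one_mem_slitPlane
  obtain ⟨δ, hδ, h⟩ := Metric.eventually_nhds_iff_ball.1 (h1.and hf.eventually_analyticAt)
  refine ⟨δ, hδ, fun w => y₀ * exp (log (f w / f 0) / 2), fun w hw => ?_, ?_, fun w hw => ⟨?_, ?_⟩⟩
  · refine DifferentiableAt.differentiableWithinAt ?_
    exact ((((h w hw).2.differentiableAt.div_const _).clog (h w hw).1).div_const 2).cexp.const_mul _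
  · simp [div_self hf0]
  · exact mul_ne_zero hy (exp_ne_zero _)
  · rw [mul_pow, h0, ← exp_nat_mul, Nat.cast_ofNat, mul_div_cancel₀ _ two_ne_zero,
      exp_log (slitPlane_ne_zero (h w hw).1), mul_div_cancel₀ _ hf0]

theorem sign_const {α : Type} [TopologicalSpace α] {s : Set α} (hs : IsPreconnected s)
    {u v : α → ℂ} (hu : ContinuousOn u s) (hv : ContinuousOn v s) (hne : ∀ x ∈ s, v x ≠ 0)
    (hsq : ∀ x ∈ s, u x ^ 2 = v x ^ 2) : (∀ x ∈ s, u x = v x) ∨ ∀ x ∈ s, u x = -v x :=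
  hs.eq_or_eq_neg_of_sq_eq hu hv (fun x hx => hsq x hx) fun {x} hx => hne x hx

theorem odd_prim {k : ℂ → ℂ} {δ : ℝ} (hδ : 0 < δ) (hk : DifferentiableOn ℂ k (ball 0 (δ ^ 2))) :
    ∃ Ψ : ℂ → ℂ, DifferentiableOn ℂ Ψ (ball 0 δ) ∧ Ψ 0 = 0 ∧
      (∀ w ∈ ball (0 : ℂ) δ, Ψ (-w) = -Ψ w) ∧
      ∀ w ∈ ball (0 : ℂ) δ, w ≠ 0 →
        HasDerivAt (fun v => -k 0 / v + Ψ v) (k (w ^ 2) / w ^ 2) w := by
  have hd : DifferentiableOn ℂ (dslope k 0) (ball 0 (δ ^ 2)) :=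
    (differentiableOn_dslope (ball_mem_nhds _ (by positivity))).2 hk
  have hg : DifferentiableOn ℂ (fun w : ℂ => dslope k 0 (w ^ 2)) (ball 0 δ) := by
    refine hd.comp (by fun_prop) fun w hw => ?_
    rw [mem_ball_zero_iff] at hw ⊢
    rw [norm_pow]
    exact pow_lt_pow_left₀ hw (norm_nonneg _) two_ne_zero
  obtain ⟨Ψ, h0, hΨ⟩ := hg.isExactOn_ball.with_val_at 0 0
  have hneg : ∀ w ∈ ball (0 : ℂ) δ, -w ∈ ball (0 : ℂ) δ := fun w hw => by simpa using hw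
  have hs : ∀ w ∈ ball (0 : ℂ) δ, HasDerivAt (fun v => Ψ (-v) + Ψ v) 0 w := by
    intro w hw
    refine (((hΨ _ (hneg w hw)).comp w (hasDerivAt_neg w)).add (hΨ w hw)).congr_deriv ?_
    simp
  refine ⟨Ψ, fun w hw => (hΨ w hw).differentiableAt.differentiableWithinAt, h0,
    fun w hw => ?_, fun w hw hw0 => ?_⟩
  · have := isOpen_ball.is_const_of_deriv_eq_zero (convex_ball (0 : ℂ) δ).isPreconnected
      (fun w hw => (hs w hw).differentiableAt.differentiableWithinAt)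
      (fun w hw => (hs w hw).deriv) hw (mem_ball_self hδ)
    simp only [neg_zero, h0, add_zero] at this
    exact eq_neg_of_add_eq_zero_left this
  · refine (((hasDerivAt_const w (-k 0)).div (hasDerivAt_id w) hw0).add (hΨ w hw)).congr_deriv ?_
    rw [dslope_of_ne _ (pow_ne_zero 2 hw0), slope_def_field]
    simp only [id]
    field_simp
    ring

theorem no_max {Φ : ℂ → ℂ} {w₀ : ℂ} (hΦ : AnalyticAt ℂ Φ w₀)
    (hm : IsLocalMax (fun w => (Φ w).re) w₀) : ∀ᶠ w in 𝓝 w₀, deriv Φ w = 0 := by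
  have h1 : IsLocalMax (norm ∘ fun w => exp (Φ w)) w₀ := by
    filter_upwards [hm] with w hw
    simp only [Function.comp, norm_exp]
    exact Real.exp_le_exp.2 hw
  have h2 := Complex.eventually_eq_of_isLocalMax_norm
    (hΦ.eventually_analyticAt.mono fun w hw => hw.differentiableAt.cexp) h1
  filter_upwards [h2.eventually_nhds, hΦ.eventually_analyticAt] with w hw ha
  have h3 : deriv (fun w => exp (Φ w)) w = 0 := by
    rw [Filter.EventuallyEq.deriv_eq (f := fun _ => exp (Φ w₀)) hw, deriv_const]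
  rw [ha.differentiableAt.hasDerivAt.cexp.deriv] at h3
  exact (mul_eq_zero.1 h3).resolve_left (exp_ne_zero _)

end Pool.Agent.MP_92463a_gt

end
end

section

open Set Complex Filter Metric
open scoped Topology ComplexConjugate ContDiff Manifold

noncomputable section

namespace Pool.Agent.MP_92463a_gt

namespace Dat

variable {D : Dat} {X : ℂ → ℂ}

theorem Sol.X_a (hD : D.Ok) (hX : D.Sol X) {t : ℂ} (ha : D.IsA t) : X t = 0 := by
  obtain ⟨i, hi, rfl⟩ := ha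
  have h0 := hD.a_pos i hi
  have hc : ContinuousAt (fun x : ℝ => X x) (D.a i) :=
    (hX.cont.comp continuous_ofReal.continuousOn (s := Ioi 0) fun x hx => ⟨le_rfl, by
      rintro (h | ⟨j, hj, h⟩)
      · exact (ne_of_gt hx) (ofReal_eq_zero.1 h)
      · have h1 : x = -D.b j := by exact_mod_cast h
        have := hD.b_pos j hj
        have : 0 < x := hx
        linarith⟩).continuousAt (Ioi_mem_nhds h0)
  have him : ∀ s : Set ℝ, (𝓝[s] D.a i).NeBot → (∀ᶠ x : ℝ in 𝓝[s] D.a i, 0 < (D.P x).re) →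
      (X (D.a i)).im = 0 := fun s _ h => tendsto_nhds_unique
    ((continuous_im.tendsto _).comp (hc.tendsto.mono_left (nhdsWithin_le_nhds (s := s))))
    (tendsto_const_nhds.congr' (h.mono fun x hx => (hX.im0 x hx).symm))
  have hre : ∀ s : Set ℝ, (𝓝[s] D.a i).NeBot → (∀ᶠ x : ℝ in 𝓝[s] D.a i, (D.P x).re < 0) →
      (X (D.a i)).re = 0 := fun s _ h => tendsto_nhds_unique
    ((continuous_re.tendsto _).comp (hc.tendsto.mono_left (nhdsWithin_le_nhds (s := s))))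
    (tendsto_const_nhds.congr' (h.mono fun x hx => (hX.re0 x hx).symm))
  have hle : ∀ j k, j ≤ k → k < D.p → D.a j ≤ D.a k := fun j k h hk =>
    h.eq_or_lt.elim (fun e => e ▸ le_rfl) fun h => (hD.a_lt j k h hk).le
  have hl : ∀ᶠ x : ℝ in 𝓝[<] D.a i, 0 < sg i * (D.P x).re := by
    have h1 : ∀ᶠ x : ℝ in 𝓝 (D.a i), ∀ j ∈ Finset.range i, D.a j < x :=
      (Finset.eventually_all _).2 fun j hj =>
        eventually_gt_nhds (hD.a_lt j i (Finset.mem_range.1 hj) hi)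
    filter_upwards [self_mem_nhdsWithin, h1.filter_mono nhdsWithin_le_nhds,
      (eventually_gt_nhds h0).filter_mono nhdsWithin_le_nhds] with x a1 a2 a3
    exact (hD.sign_pos a3 hi.le (fun j hj => a2 j (Finset.mem_range.2 hj))
      fun j hj hj' => lt_of_lt_of_le a1 (hle i j hj hj')).1
  have hr : ∀ᶠ x : ℝ in 𝓝[>] D.a i, 0 < sg (i + 1) * (D.P x).re := by
    have h1 : ∀ᶠ x : ℝ in 𝓝 (D.a i), ∀ j ∈ Finset.Ico (i + 1) D.p, x < D.a j :=
      (Finset.eventually_all _).2 fun j hj =>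
        eventually_lt_nhds (hD.a_lt i j (Finset.mem_Ico.1 hj).1 (Finset.mem_Ico.1 hj).2)
    filter_upwards [self_mem_nhdsWithin, h1.filter_mono nhdsWithin_le_nhds] with x a1 a2
    exact (hD.sign_pos (h0.trans a1) hi
      (fun j hj => lt_of_le_of_lt (hle j i (Nat.le_of_lt_succ hj) hi) a1)
      fun j hj hj' => a2 j (Finset.mem_Ico.2 ⟨hj, hj'⟩)).1
  simp only [sg, pow_succ] at hl hr
  rcases neg_one_pow_eq_or ℝ i with e | e <;> rw [e] at hl hr
  · exact Complex.ext (hre _ inferInstance (hr.mono fun x hx => by linarith))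
      (him _ inferInstance (hl.mono fun x hx => by linarith))
  · exact Complex.ext (hre _ inferInstance (hl.mono fun x hx => by linarith))
      (him _ inferInstance (hr.mono fun x hx => by linarith))

theorem Xg_neg (t y : ℂ) : D.Xg X t (-y) = -D.Xg X t y := by
  unfold Xg
  split_ifs <;> simp [neg_div]

theorem Xg_Y {t : ℂ} (ht : 0 ≤ t.im) : D.Xg X t (D.Y t) = X t := by
  rw [Xg, if_pos ht, div_self (Y_ne t), one_mul]

theorem Sol.Xg_conj (hD : D.Ok) (hX : D.Sol X) {t y : ℂ} (hy : y ^ 2 = D.P t) :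
    D.Xg X (conj t) (conj y) = conj (D.Xg X t y) := by
  rcases lt_trichotomy t.im 0 with h | h | h
  · rw [Xg, Xg, if_pos (by rw [conj_im]; linarith), if_neg h.not_ge, conj_conj]
  · obtain ⟨x, rfl⟩ : ∃ x : ℝ, t = x := ⟨t.re, Complex.ext rfl h⟩
    rw [conj_ofReal, Xg, Xg, if_pos h.ge, if_pos h.ge, map_mul, map_div₀]
    rcases lt_trichotomy (D.P x).re 0 with h1 | h1 | h1
    · have e1 : conj (D.Y x) = -D.Y x := Complex.ext (by simp [Y_re h1]) (by simp)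
      have e2 : conj (X x) = -X x := Complex.ext (by simp [hX.re0 x h1]) (by simp)
      rw [e1, e2]
      ring
    · have : y = 0 := pow_eq_zero_iff two_ne_zero |>.1 (hy.trans (Complex.ext h1 (P_im x)))
      simp [this]
    · rw [conj_eq_iff_im.2 (Y_im h1), conj_eq_iff_im.2 (hX.im0 x h1)]
  · rw [Xg, Xg, if_neg (by rw [conj_im]; linarith), if_pos h.le, conj_conj, conj_conj]

theorem Xg_sq {t y : ℂ} (hy : y ^ 2 = D.P t) : conj y ^ 2 = D.P (conj t) := by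
  rw [P_conj, ← hy, map_pow]

theorem Xg_isE {t : ℂ} (h : D.IsE (conj t)) : D.IsE t := by
  rcases h with h | ⟨j, hj, h⟩
  · exact Or.inl ((map_eq_zero _).1 h)
  · exact Or.inr ⟨j, hj, by rw [← conj_conj t, h, map_neg, conj_ofReal]⟩

theorem Xg_nrm (hD : D.Ok) (hX : D.Sol X) {t y : ℂ} (hy : y ^ 2 = D.P t) (hE : ¬ D.IsE t) :
    ‖y / D.Y t * X t‖ = ‖X t‖ := by
  by_cases hP : D.P t = 0
  · rw [hX.X_a hD ((P_eq_zero.1 hP).resolve_left hE), mul_zero]
  · rcases sq_eq_sq_iff_eq_or_eq_neg.1 (hy.trans (Y_sq hP).symm) with e | e <;>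
      simp [e, Y_ne]

theorem Sol.Xg_norm (hD : D.Ok) (hX : D.Sol X) {t y : ℂ} (hy : y ^ 2 = D.P t) (hE : ¬ D.IsE t) :
    ‖D.Xg X t y‖ = ‖X (if 0 ≤ t.im then t else conj t)‖ := by
  unfold Xg
  split_ifs with h
  · exact Xg_nrm hD hX hy hE
  · rw [norm_conj]
    exact Xg_nrm hD hX (Xg_sq hy) fun h => hE (Xg_isE h)

theorem Sol.Xg_cont (hD : D.Ok) (hX : D.Sol X) :
    ContinuousOn (fun z : ℂ × ℂ => D.Xg X z.1 z.2) {z | z.2 ^ 2 = D.P z.1 ∧ ¬ D.IsE z.1} := by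
  set S : Set (ℂ × ℂ) := {z | z.2 ^ 2 = D.P z.1 ∧ ¬ D.IsE z.1}
  have h1 : ContinuousOn (fun z : ℂ × ℂ => D.Xg X z.1 z.2) (S ∩ {z | 0 ≤ z.1.im}) := by
    refine ContinuousOn.congr (f := fun z : ℂ × ℂ => z.2 / D.Y z.1 * X z.1) (fun z hz => ?_)
      fun z hz => if_pos hz.2
    have hx : ContinuousWithinAt (fun z : ℂ × ℂ => X z.1) (S ∩ {z | 0 ≤ z.1.im}) z :=
      (hX.cont.comp continuousOn_fst fun z hz => ⟨hz.2, hz.1.2⟩) z hz
    by_cases hP : D.P z.1 = 0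
    · have h0 := hX.X_a hD ((P_eq_zero.1 hP).resolve_left hz.1.2)
      rw [ContinuousWithinAt, h0] at hx
      rw [ContinuousWithinAt, h0, mul_zero]
      rw [tendsto_zero_iff_norm_tendsto_zero] at hx ⊢
      exact hx.congr' (eventually_mem_nhdsWithin.mono fun u hu =>
        (Xg_nrm hD hX hu.1.1 hu.1.2).symm)
    · have hy : ContinuousWithinAt D.Y {t | 0 ≤ t.im} z.1 :=
        (Y_cont z.1 ⟨hz.2, hP⟩).mono_of_mem_nhdsWithin
          (inter_mem_nhdsWithin _ (P_diff.continuous.continuousAt.eventually_ne hP))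
      exact (continuousWithinAt_snd.div (hy.comp continuousWithinAt_fst fun u hu => hu.2)
        (Y_ne _)).mul hx
  have h2 : ContinuousOn (fun z : ℂ × ℂ => D.Xg X z.1 z.2) (S ∩ {z | z.1.im ≤ 0}) := by
    have hc : Continuous fun z : ℂ × ℂ => (conj z.1, conj z.2) := by fun_prop
    refine (continuous_conj.comp_continuousOn (h1.comp hc.continuousOn fun z hz =>
      ⟨⟨Xg_sq hz.1.1, fun h => hz.1.2 (Xg_isE h)⟩, ?_⟩)).congr fun z hz => ?_
    · have : z.1.im ≤ 0 := hz.2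
      change 0 ≤ (conj z.1).im
      rw [conj_im]
      linarith
    · simp only [Function.comp_apply]
      rw [hX.Xg_conj hD hz.1.1, conj_conj]
  have key : ∀ K : Set (ℂ × ℂ), IsClosed K →
      ContinuousOn (fun z : ℂ × ℂ => D.Xg X z.1 z.2) (S ∩ K) → ∀ z ∈ S,
      ContinuousWithinAt (fun z : ℂ × ℂ => D.Xg X z.1 z.2) (S ∩ K) z := fun K hK h z hz => by
    by_cases hz' : z ∈ K
    · exact h z ⟨hz, hz'⟩
    · exact continuousWithinAt_of_notMem_closure fun c =>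
        hz' (closure_minimal inter_subset_right hK c)
  intro z hz
  refine ((key _ (isClosed_le (by fun_prop) (by fun_prop)) h1 z hz).union
    (key _ (isClosed_le (by fun_prop) (by fun_prop)) h2 z hz)).mono fun u hu => ?_
  exact (le_total 0 u.1.im).imp (fun h => ⟨hu, h⟩) fun h => ⟨hu, h⟩

theorem Xg_up (hD : D.Ok) (hX : D.Pre X) {T Yl : ℂ → ℂ} {L : ℂ →L[ℝ] ℂ} {w : ℂ}
    (hT : HasFDerivAt T L w) (hY : ContinuousAt Yl w)
    (hsq : ∀ᶠ v in 𝓝 w, Yl v ^ 2 = D.P (T v)) (him : 0 < (T w).im) :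
    HasFDerivAt (fun v => Yl v / D.Y (T v) * X (T v))
      ((wl (Yl w * D.R (T w) / T w) (Yl w * D.R (T w) * T w)⁻¹).comp L) w := by
  have hu : ContinuousAt (fun v => Yl v / D.Y (T v)) w :=
    hY.div ((Y_diff him).continuousAt.comp hT.continuousAt) (Y_ne _)
  have h1 : ∀ᶠ v in 𝓝 w, (Yl v / D.Y (T v)) ^ 2 = 1 := by
    filter_upwards [hsq, continuousAt_const.eventually_lt
      (continuous_im.continuousAt.comp hT.continuousAt) him] with v a1 a2
    rw [div_pow, a1, Y_sq (ne_of_im a2.ne'), div_self (ne_of_im a2.ne')]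
  have h2 := h1.self_of_nhds
  obtain ⟨s, hs⟩ : ∃ s, s = Yl w / D.Y (T w) := ⟨_, rfl⟩
  have h3 : ∀ᶠ v in 𝓝 w, Yl v / D.Y (T v) ≠ -s := hu.eventually_ne (by
    rw [← hs] at h2 ⊢
    intro e
    have : s = 0 := by linear_combination e / 2
    simp [this] at h2)
  have h4 : Yl w * D.R (T w) = s * D.G (T w) := by
    rw [hD.G_eq (ne_of_im him.ne'), hs, ← mul_assoc, div_mul_cancel₀ _ (Y_ne _)]
  rw [← hs] at h2
  refine ((((hX.der _ him).comp w hT).const_mul s).congr_fderiv ?_).congr_of_eventuallyEq ?_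
  · refine ContinuousLinearMap.ext fun v => ?_
    rw [h4]
    rcases sq_eq_one_iff.1 h2 with e | e <;> simp [e, wl_apply, neg_div]
    ring
  · filter_upwards [h1, h3] with v a1 a2
    rw [(sq_eq_sq_iff_eq_or_eq_neg.1 (a1.trans h2.symm)).resolve_right a2]
    rfl

theorem Pre.Xg_der (hD : D.Ok) (hX : D.Pre X) {T Yl : ℂ → ℂ} {T' w : ℂ} (hT : HasDerivAt T T' w)
    (hY : ContinuousAt Yl w) (hsq : ∀ᶠ v in 𝓝 w, Yl v ^ 2 = D.P (T v)) (him : (T w).im ≠ 0) :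
    HasFDerivAt (fun v => D.Xg X (T v) (Yl v))
      (wl (Yl w * D.R (T w) / T w * T') ((Yl w * D.R (T w) * T w)⁻¹ * T')) w := by
  have hT' := hT.hasFDerivAt.restrictScalars ℝ
  rcases him.lt_or_gt with h | h
  · have h1 := Xg_up hD hX (T := fun v => conj (T v)) (Yl := fun v => conj (Yl v))
      ((conjCLE : ℂ →L[ℝ] ℂ).hasFDerivAt.comp w hT') (continuous_conj.continuousAt.comp hY)
      (hsq.mono fun v hv => Xg_sq hv) (by rw [conj_im]; linarith)
    have h2 := (conjCLE : ℂ →L[ℝ] ℂ).hasFDerivAt.comp w h1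
    refine (h2.congr_fderiv ?_).congr_of_eventuallyEq ?_
    · refine ContinuousLinearMap.ext fun v => ?_
      simp [wl_apply, R_conj]
      ring
    · filter_upwards [(continuous_im.continuousAt.comp hT.continuousAt).eventually_lt
        continuousAt_const h] with v hv
      exact if_neg (not_le.2 hv)
  · refine ((Xg_up hD hX hT' hY hsq h).congr_fderiv ?_).congr_of_eventuallyEq ?_
    · refine ContinuousLinearMap.ext fun v => ?_
      simp [wl_apply]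
      ring
    · filter_upwards [continuousAt_const.eventually_lt
        (continuous_im.continuousAt.comp hT.continuousAt) h] with v hv
      exact if_pos hv.le

end Dat

end Pool.Agent.MP_92463a_gt

end
end

section

open Set Complex Filter Metric
open scoped Topology ComplexConjugate ContDiff Manifold

noncomputable section

namespace Pool.Agent.MP_92463a_gt

namespace Dat

variable {D : Dat}

theorem par1 {t₀ y₀ : ℂ} (h0 : y₀ ^ 2 = D.P t₀) (hy : y₀ ≠ 0) :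
    ∃ δ h, D.Par1 t₀ δ h ∧ h 0 = y₀ := by
  have hd : Differentiable ℂ fun w => D.P (t₀ + w) :=
    P_diff.comp ((differentiable_const t₀).add differentiable_id)
  obtain ⟨δ, hδ, h, hh, hh0, hw⟩ :=
    loc_sqrt (f := fun w => D.P (t₀ + w)) (hd.analyticAt 0) (by simpa using h0) hy
  exact ⟨δ, h, ⟨hδ, hh, fun w hw' => (hw w hw').1, fun w hw' => (hw w hw').2⟩, hh0⟩

theorem par1_Y {x₀ : ℝ} (hx : D.P x₀ ≠ 0) :
    ∃ δ h, D.Par1 x₀ δ h ∧ (∀ w ∈ ball (0 : ℂ) δ, 0 ≤ w.im → h w = D.Y (x₀ + w)) ∧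
      ∀ w ∈ ball (0 : ℂ) δ, h (conj w) = (if 0 < (D.P x₀).re then 1 else -1) * conj (h w) := by
  obtain ⟨δ, h, H, h0⟩ := par1 (D := D) (Y_sq hx) (Y_ne _)
  have hz : (0 : ℂ) ∈ ball (0 : ℂ) δ := mem_ball_self H.pos
  have hP : ∀ w ∈ ball (0 : ℂ) δ, D.P (x₀ + w) ≠ 0 := fun w hw => by
    rw [← H.sq w hw]; exact pow_ne_zero _ (H.ne w hw)
  have hne0 : h 0 ≠ 0 := H.ne 0 hz
  refine ⟨δ, h, H, ?_, ?_⟩
  · have hconv : Convex ℝ (ball (0 : ℂ) δ ∩ {w : ℂ | 0 ≤ w.im}) :=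
      (convex_ball _ _).inter (convex_halfSpace_im_ge 0)
    have hv : ContinuousOn (fun w => D.Y (x₀ + w)) (ball (0 : ℂ) δ ∩ {w : ℂ | 0 ≤ w.im}) := by
      refine Y_cont.comp (continuous_const.add continuous_id).continuousOn fun w hw => ?_
      refine ⟨?_, hP w hw.1⟩
      simpa using hw.2
    rcases sign_const hconv.isPreconnected (H.hol.continuousOn.mono inter_subset_left) hv
      (fun w _ => Y_ne _) (fun w hw => by rw [H.sq w hw.1, Y_sq (hP w hw.1)]) with h1 | h1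
    · exact fun w hw hw' => h1 w ⟨hw, hw'⟩
    · exfalso
      have := h1 0 ⟨hz, by simp⟩
      rw [add_zero, ← h0] at this
      exact hne0 (by linear_combination this / 2)
  · have hc : ∀ w ∈ ball (0 : ℂ) δ, conj w ∈ ball (0 : ℂ) δ := fun w hw => by
      simpa using hw
    have hu : ContinuousOn (fun w => h (conj w)) (ball (0 : ℂ) δ) :=
      H.hol.continuousOn.comp continuous_conj.continuousOn hc
    have hv : ContinuousOn (fun w => conj (h w)) (ball (0 : ℂ) δ) :=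
      continuous_conj.comp_continuousOn H.hol.continuousOn
    have hsq : ∀ w ∈ ball (0 : ℂ) δ, h (conj w) ^ 2 = conj (h w) ^ 2 := fun w hw => by
      rw [H.sq _ (hc w hw), ← map_pow, H.sq w hw, ← P_conj]
      simp
    have key := sign_const (convex_ball (0 : ℂ) δ).isPreconnected hu hv
      (fun w hw => by simpa using H.ne w hw) hsq
    split_ifs with hp
    · have hi : conj (h 0) = h 0 := by
        rw [h0]; exact conj_eq_iff_im.2 (Y_im hp)
      rcases key with h1 | h1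
      · intro w hw
        rw [one_mul]; exact h1 w hw
      · exfalso
        have := h1 0 hz
        rw [map_zero, hi] at this
        exact hne0 (by linear_combination this / 2)
    · have hlt : (D.P x₀).re < 0 := by
        rcases lt_or_eq_of_le (not_lt.1 hp) with h2 | h2
        · exact h2
        · exact absurd (Complex.ext (by simpa using h2) (by simpa using P_im (D := D) x₀)) hx
      have hi : conj (h 0) = -h 0 := by
        rw [h0]
        exact Complex.ext (by simp [Y_re hlt]) (by simp)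
      rcases key with h1 | h1
      · exfalso
        have := h1 0 hz
        rw [map_zero, hi] at this
        exact hne0 (by linear_combination this / 2)
      · intro w hw
        rw [neg_one_mul]; exact h1 w hw

theorem sq_mem_ball {δ : ℝ} {w : ℂ} (hw : w ∈ ball (0 : ℂ) δ) : w ^ 2 ∈ ball (0 : ℂ) (δ ^ 2) := by
  rw [mem_ball_zero_iff] at hw ⊢
  rw [norm_pow]
  exact pow_lt_pow_left₀ hw (norm_nonneg _) two_ne_zero

theorem Par2.on {x₀ : ℂ} {δ : ℝ} {h : ℂ → ℂ} (H : D.Par2 x₀ δ h) {w : ℂ}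
    (hw : w ∈ ball (0 : ℂ) δ) :
    (w * h (w ^ 2)) ^ 2 = D.P (x₀ + w ^ 2) ∧ (w ≠ 0 → D.P (x₀ + w ^ 2) ≠ 0) := by
  have h1 := H.sq _ (sq_mem_ball hw)
  refine ⟨by rw [← h1]; ring, fun h0 => ?_⟩
  rw [← h1]
  exact mul_ne_zero (pow_ne_zero _ h0) (pow_ne_zero _ (H.ne _ (sq_mem_ball hw)))

theorem Par3.on {δ : ℝ} {h : ℂ → ℂ} (H : D.Par3 δ h) {w : ℂ} (hw : w ∈ ball (0 : ℂ) δ)
    (h0 : w ≠ 0) :
    (h (w ^ 2) / w ^ (D.p + D.q + 1)) ^ 2 = D.P (w ^ 2)⁻¹ ∧ D.P (w ^ 2)⁻¹ ≠ 0 := by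
  have h1 := H.sq _ (sq_mem_ball hw) (pow_ne_zero _ h0)
  have h2 : (h (w ^ 2) / w ^ (D.p + D.q + 1)) ^ 2 = D.P (w ^ 2)⁻¹ := by
    rw [div_pow, h1, ← pow_mul, ← pow_mul, mul_comm 2]
    field_simp
  refine ⟨h2, ?_⟩
  rw [← h2]
  exact pow_ne_zero _ (div_ne_zero (H.ne _ (sq_mem_ball hw)) (pow_ne_zero _ h0))

theorem Ok.par_b_ne (hD : D.Ok) {i j : ℕ} (hi : i < D.q) (hj : j < D.q) (hij : i ≠ j) :
    D.b i ≠ D.b j := by
  have h1 := hD.b_pos i hi
  have h2 := hD.b_pos j hj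
  rcases lt_or_gt_of_ne hij with h | h
  · have := hD.b_gap i j h hj
    intro e; linarith
  · have := hD.b_gap j i h hi
    intro e; linarith

theorem Ok.par_a_ne (hD : D.Ok) {i j : ℕ} (hi : i < D.p) (hj : j < D.p) (hij : i ≠ j) :
    D.a i ≠ D.a j := by
  rcases lt_or_gt_of_ne hij with h | h
  · exact (hD.a_lt i j h hj).ne
  · exact (hD.a_lt j i h hi).ne'

/-- the roots of `P` are simple -/
theorem Ok.par_simple (hD : D.Ok) {x₀ : ℂ} (hx : D.P x₀ = 0) :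
    ∃ f : ℂ → ℂ, Differentiable ℂ f ∧ f 0 ≠ 0 ∧ ∀ s, s * f s = D.P (x₀ + s) := by
  rcases P_eq_zero.1 hx with (rfl | ⟨j₀, hj₀, rfl⟩) | ⟨i₀, hi₀, rfl⟩
  · refine ⟨fun s => (∏ j ∈ Finset.range D.q, (s + D.b j)) * ∏ i ∈ Finset.range D.p, (D.a i - s),
      by fun_prop, ?_, fun s => by simp only [P, zero_add]; ring⟩
    refine mul_ne_zero (Finset.prod_ne_zero_iff.2 fun j hj => ?_)
      (Finset.prod_ne_zero_iff.2 fun i hi => ?_)
    · rw [zero_add]
      exact_mod_cast (hD.b_pos j (Finset.mem_range.1 hj)).ne'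
    · rw [sub_zero]
      exact_mod_cast (hD.a_pos i (Finset.mem_range.1 hi)).ne'
  · have hb := hD.b_pos j₀ hj₀
    refine ⟨fun s => (-D.b j₀ + s) *
        (∏ j ∈ (Finset.range D.q).erase j₀, (-D.b j₀ + s + D.b j)) *
        ∏ i ∈ Finset.range D.p, (D.a i - (-D.b j₀ + s)), by fun_prop, ?_, fun s => ?_⟩
    · refine mul_ne_zero (mul_ne_zero ?_ (Finset.prod_ne_zero_iff.2 fun j hj => ?_))
        (Finset.prod_ne_zero_iff.2 fun i hi => ?_)
      · rw [add_zero, neg_ne_zero]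
        exact_mod_cast hb.ne'
      · obtain ⟨h1, h2⟩ := Finset.mem_erase.1 hj
        have := hD.par_b_ne (Finset.mem_range.1 h2) hj₀ h1
        rw [add_zero, neg_add_eq_sub, sub_ne_zero]
        exact_mod_cast this
      · have := hD.a_pos i (Finset.mem_range.1 hi)
        rw [add_zero, sub_neg_eq_add]
        exact_mod_cast (add_pos this hb).ne'
    · simp only [P]
      rw [← Finset.mul_prod_erase _ _ (Finset.mem_range.2 hj₀)]
      ring
  · have ha := hD.a_pos i₀ hi₀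
    refine ⟨fun s => -((D.a i₀ + s) * (∏ j ∈ Finset.range D.q, (D.a i₀ + s + D.b j)) *
        ∏ i ∈ (Finset.range D.p).erase i₀, (D.a i - (D.a i₀ + s))), by fun_prop, ?_, fun s => ?_⟩
    · refine neg_ne_zero.2 (mul_ne_zero (mul_ne_zero ?_ (Finset.prod_ne_zero_iff.2 fun j hj => ?_))
        (Finset.prod_ne_zero_iff.2 fun i hi => ?_))
      · rw [add_zero]
        exact_mod_cast ha.ne'
      · have := hD.b_pos j (Finset.mem_range.1 hj)
        rw [add_zero]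
        exact_mod_cast (add_pos ha this).ne'
      · obtain ⟨h1, h2⟩ := Finset.mem_erase.1 hi
        have := hD.par_a_ne (Finset.mem_range.1 h2) hi₀ h1
        rw [add_zero, sub_ne_zero]
        exact_mod_cast this
    · simp only [P]
      rw [← Finset.mul_prod_erase _ (fun i => (D.a i : ℂ) - (D.a i₀ + s))
        (Finset.mem_range.2 hi₀)]
      ring

theorem par_quad (ε : ℝ) (hε : ε = 1 ∨ ε = -1) (δ : ℝ) :
    Convex ℝ {w : ℂ | w ∈ ball (0 : ℂ) δ ∧ w ≠ 0 ∧ 0 ≤ w.re ∧ 0 ≤ ε * w.im} := by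
  have e : {w : ℂ | w ∈ ball (0 : ℂ) δ ∧ w ≠ 0 ∧ 0 ≤ w.re ∧ 0 ≤ ε * w.im} =
      ball (0 : ℂ) δ ∩ {w : ℂ | 0 < w.re + ε * w.im ∧ 0 ≤ w.re ∧ 0 ≤ ε * w.im} := by
    ext w
    simp only [mem_ofPred_eq, mem_inter_iff]
    refine and_congr_right fun _ => ⟨fun ⟨h0, h1, h2⟩ => ⟨?_, h1, h2⟩,
      fun ⟨h0, h1, h2⟩ => ⟨?_, h1, h2⟩⟩
    · by_contra hc
      have a1 : w.re = 0 := by linarith
      have a2 : ε * w.im = 0 := by linarith
      have a3 : w.im = 0 := by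
        rcases hε with rfl | rfl <;> linarith
      exact h0 (Complex.ext a1 a3)
    · rintro rfl
      simp at h0
  rw [e]
  refine (convex_ball _ _).inter ?_
  intro x hx y hy a b ha hb hab
  obtain ⟨x1, x2, x3⟩ := hx
  obtain ⟨y1, y2, y3⟩ := hy
  simp only [mem_ofPred_eq, add_re, add_im, real_smul, mul_re, mul_im, ofReal_re, ofReal_im,
    zero_mul, sub_zero, add_zero]
  refine ⟨?_, by positivity, ?_⟩
  · have e1 : a * x.re + b * y.re + ε * (a * x.im + b * y.im) =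
        a * (x.re + ε * x.im) + b * (y.re + ε * y.im) := by ring
    rw [e1]
    rcases ha.eq_or_lt with h | h
    · have : b = 1 := by linarith
      rw [← h, this]; linarith
    · have := mul_pos h x1
      have := mul_nonneg hb y1.le
      linarith
  · have e1 : ε * (a * x.im + b * y.im) = a * (ε * x.im) + b * (ε * y.im) := by ring
    rw [e1]; positivity

theorem Ok.par2 (hD : D.Ok) {x₀ : ℂ} (hx : D.P x₀ = 0) :
    ∃ δ h, D.Par2 x₀ δ h ∧ ∀ w ∈ ball (0 : ℂ) δ, w ≠ 0 → 0 ≤ w.re → 0 ≤ w.im →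
      w * h (w ^ 2) = D.Y (x₀ + w ^ 2) := by
  obtain ⟨f, hf, hf0, hs⟩ := hD.par_simple hx
  obtain ⟨y₀, hy₀⟩ := IsAlgClosed.exists_pow_nat_eq (f 0) two_pos
  have hy : y₀ ≠ 0 := by
    rintro rfl
    exact hf0 (by simpa using hy₀.symm)
  obtain ⟨δ, hδ, h, hh, -, hw⟩ := loc_sqrt (hf.analyticAt 0) hy₀ hy
  have e : Real.sqrt δ ^ 2 = δ := Real.sq_sqrt hδ.le
  have H : D.Par2 x₀ (Real.sqrt δ) h :=
    ⟨Real.sqrt_pos.2 hδ, hx, by rwa [e], fun s hs' => (hw s (by rwa [e] at hs')).1,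
      fun s hs' => by rw [(hw s (by rwa [e] at hs')).2, hs]⟩
  have him : x₀.im = 0 := by
    by_contra hc
    exact ne_of_im hc hx
  have hu : ContinuousOn (fun w => w * h (w ^ 2))
      {w : ℂ | w ∈ ball (0 : ℂ) (Real.sqrt δ) ∧ w ≠ 0 ∧ 0 ≤ w.re ∧ 0 ≤ 1 * w.im} :=
    continuousOn_id.mul (H.hol.continuousOn.comp (continuous_pow 2).continuousOn
      fun w hw' => sq_mem_ball hw'.1)
  have hv : ContinuousOn (fun w => D.Y (x₀ + w ^ 2))
      {w : ℂ | w ∈ ball (0 : ℂ) (Real.sqrt δ) ∧ w ≠ 0 ∧ 0 ≤ w.re ∧ 0 ≤ 1 * w.im} := by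
    refine Y_cont.comp (continuous_const.add (continuous_pow 2)).continuousOn fun w hw' => ?_
    obtain ⟨h1, h2, h3, h4⟩ := hw'
    refine ⟨?_, (H.on h1).2 h2⟩
    rw [one_mul] at h4
    simp only [add_im, him, pow_two, mul_im, zero_add]
    positivity
  rcases sign_const (par_quad 1 (Or.inl rfl) (Real.sqrt δ)).isPreconnected hu hv
    (fun w _ => Y_ne _)
    (fun w hw' => by rw [(H.on hw'.1).1, Y_sq ((H.on hw'.1).2 hw'.2.1)]) with h1 | h1
  · exact ⟨_, h, H, fun w a b c d => h1 w ⟨a, b, c, by rwa [one_mul]⟩⟩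
  · refine ⟨Real.sqrt δ, fun s => -h s, ⟨H.pos, hx, H.hol.neg,
      fun s hs' => neg_ne_zero.2 (H.ne s hs'), fun s hs' => by rw [neg_sq]; exact H.sq s hs'⟩,
      fun w a b c d => ?_⟩
    have := h1 w ⟨a, b, c, by rwa [one_mul]⟩
    simp only at this ⊢
    linear_combination -this

theorem Ok.par3 (hD : D.Ok) :
    ∃ δ h, D.Par3 δ h ∧ ∀ w ∈ ball (0 : ℂ) δ, w ≠ 0 → 0 ≤ w.re → w.im ≤ 0 →
      h (w ^ 2) / w ^ (D.p + D.q + 1) = D.Y (w ^ 2)⁻¹ := by
  set f : ℂ → ℂ := fun s =>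
    (∏ j ∈ Finset.range D.q, (1 + D.b j * s)) * ∏ i ∈ Finset.range D.p, (D.a i * s - 1) with hfd
  have hf : Differentiable ℂ f := by rw [hfd]; fun_prop
  have hf0 : f 0 ≠ 0 := by simp [hfd]
  have hs : ∀ s : ℂ, s ≠ 0 → f s = s ^ (D.p + D.q + 1) * D.P s⁻¹ := fun s h0 => by
    have e1 : ∏ j ∈ Finset.range D.q, (1 + D.b j * s) =
        s ^ D.q * ∏ j ∈ Finset.range D.q, (s⁻¹ + D.b j) := by
      rw [← Finset.card_range D.q, ← Finset.prod_const, Finset.card_range,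
        ← Finset.prod_mul_distrib]
      exact Finset.prod_congr rfl fun j _ => by field_simp
    have e2 : ∏ i ∈ Finset.range D.p, (D.a i * s - 1) =
        s ^ D.p * ∏ i ∈ Finset.range D.p, (D.a i - s⁻¹) := by
      rw [← Finset.card_range D.p, ← Finset.prod_const, Finset.card_range,
        ← Finset.prod_mul_distrib]
      exact Finset.prod_congr rfl fun j _ => by field_simp
    simp only [hfd, P]
    rw [e1, e2]
    field_simp
    ring
  obtain ⟨y₀, hy₀⟩ := IsAlgClosed.exists_pow_nat_eq (f 0) two_pos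
  have hy : y₀ ≠ 0 := by
    rintro rfl
    exact hf0 (by simpa using hy₀.symm)
  obtain ⟨δ, hδ, h, hh, -, hw⟩ := loc_sqrt (hf.analyticAt 0) hy₀ hy
  have e : Real.sqrt δ ^ 2 = δ := Real.sq_sqrt hδ.le
  have H : D.Par3 (Real.sqrt δ) h :=
    ⟨Real.sqrt_pos.2 hδ, by rwa [e], fun s hs' => (hw s (by rwa [e] at hs')).1,
      fun s hs' h0 => by rw [(hw s (by rwa [e] at hs')).2, hs s h0]⟩
  have hu : ContinuousOn (fun w => h (w ^ 2) / w ^ (D.p + D.q + 1))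
      {w : ℂ | w ∈ ball (0 : ℂ) (Real.sqrt δ) ∧ w ≠ 0 ∧ 0 ≤ w.re ∧ 0 ≤ -1 * w.im} :=
    (H.hol.continuousOn.comp (continuous_pow 2).continuousOn
      fun w hw' => sq_mem_ball hw'.1).div (continuous_pow _).continuousOn
      fun w hw' => pow_ne_zero _ hw'.2.1
  have hv : ContinuousOn (fun w => D.Y (w ^ 2)⁻¹)
      {w : ℂ | w ∈ ball (0 : ℂ) (Real.sqrt δ) ∧ w ≠ 0 ∧ 0 ≤ w.re ∧ 0 ≤ -1 * w.im} := by
    refine Y_cont.comp ((continuous_pow 2).continuousOn.inv₀ fun w hw' => pow_ne_zero _ hw'.2.1)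
      fun w hw' => ?_
    obtain ⟨h1, h2, h3, h4⟩ := hw'
    refine ⟨?_, (H.on h1 h2).2⟩
    rw [inv_im]
    refine div_nonneg ?_ (normSq_nonneg _)
    simp only [pow_two, mul_im]
    nlinarith [mul_nonneg h3 h4]
  rcases sign_const (par_quad (-1) (Or.inr rfl) (Real.sqrt δ)).isPreconnected hu hv
    (fun w _ => Y_ne _)
    (fun w hw' => by rw [(H.on hw'.1 hw'.2.1).1, Y_sq (H.on hw'.1 hw'.2.1).2]) with h1 | h1
  · exact ⟨_, h, H, fun w a b c d => h1 w ⟨a, b, c, by linarith⟩⟩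
  · refine ⟨Real.sqrt δ, fun s => -h s, ⟨H.pos, H.hol.neg,
      fun s hs' => neg_ne_zero.2 (H.ne s hs'),
      fun s hs' h0 => by rw [neg_sq]; exact H.sq s hs' h0⟩, fun w a b c d => ?_⟩
    have := h1 w ⟨a, b, c, by linarith⟩
    simp only at this ⊢
    rw [neg_div, this, neg_neg]

end Dat

end Pool.Agent.MP_92463a_gt

end
end

section

open Set Complex Filter Metric
open scoped Topology ComplexConjugate ContDiff Manifold

noncomputable section

namespace Pool.Agent.MP_92463a_gt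

/-- holomorphic without zeros on `B` -/
def FormNz (B : Set ℂ) (f : ℂ → ℂ) : Prop := DifferentiableOn ℂ f B ∧ ∀ s ∈ B, f s ≠ 0

namespace FormNz

variable {B : Set ℂ} {f g : ℂ → ℂ}

theorem const {c : ℂ} (hc : c ≠ 0) : FormNz B fun _ => c :=
  ⟨differentiableOn_const c, fun _ _ => hc⟩

theorem mul (hf : FormNz B f) (hg : FormNz B g) : FormNz B fun s => f s * g s :=
  ⟨hf.1.mul hg.1, fun s hs => mul_ne_zero (hf.2 s hs) (hg.2 s hs)⟩

theorem inv (hf : FormNz B f) : FormNz B fun s => (f s)⁻¹ :=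
  ⟨hf.1.inv hf.2, fun s hs => inv_ne_zero (hf.2 s hs)⟩

theorem neg (hf : FormNz B f) : FormNz B fun s => -f s :=
  ⟨hf.1.neg, fun s hs => neg_ne_zero.2 (hf.2 s hs)⟩

theorem pow (hf : FormNz B f) (n : ℕ) : FormNz B fun s => f s ^ n :=
  ⟨hf.1.pow n, fun s hs => pow_ne_zero n (hf.2 s hs)⟩

theorem prod (T : Finset ℕ) {F : ℕ → ℂ → ℂ} (hF : ∀ i ∈ T, FormNz B (F i)) :
    FormNz B fun s => ∏ i ∈ T, F i s :=
  ⟨DifferentiableOn.fun_finsetProd fun i hi => (hF i hi).1,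
    fun s hs => Finset.prod_ne_zero_iff.2 fun i hi => (hF i hi).2 s hs⟩

end FormNz

namespace Dat

variable {D : Dat} {δ : ℝ} {h : ℂ → ℂ}

theorem Form_a_inj (hD : D.Ok) {i j : ℕ} (hi : i < D.p) (hj : j < D.p)
    (e : (D.a i : ℂ) = D.a j) : i = j := by
  have e' : D.a i = D.a j := by exact_mod_cast e
  rcases lt_trichotomy i j with l | l | l
  · exact absurd e' (hD.a_lt i j l hj).ne
  · exact l
  · exact absurd e' (hD.a_lt j i l hi).ne'

theorem Form_b_inj (hD : D.Ok) {i j : ℕ} (hi : i < D.q) (hj : j < D.q)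
    (e : -(D.b i : ℂ) = -D.b j) : i = j := by
  have e' : D.b i = D.b j := by exact_mod_cast neg_injective e
  have h1 := hD.b_pos i hi
  rcases lt_trichotomy i j with l | l | l
  · have := hD.b_gap i j l hj
    linarith
  · exact l
  · have := hD.b_gap j i l hi
    linarith

theorem Form_b_ne (hD : D.Ok) {j : ℕ} (hj : j < D.q) : -(D.b j : ℂ) ≠ 0 :=
  neg_ne_zero.2 (ofReal_ne_zero.2 (hD.b_pos j hj).ne')

variable {x₀ : ℂ}

theorem Form_lin (H : D.Par2 x₀ δ h) {c : ℂ} (hc : D.IsE c ∨ D.IsA c) (hne : x₀ ≠ c) :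
    FormNz (ball 0 (δ ^ 2)) fun s => x₀ + s - c := by
  refine ⟨by fun_prop, fun s hs e => ?_⟩
  have e' : x₀ + s = c := sub_eq_zero.1 e
  have h1 := H.sq s hs
  rw [e', P_eq_zero.2 hc] at h1
  rcases mul_eq_zero.1 h1 with h2 | h2
  · exact hne (by rw [← e', h2, add_zero])
  · exact pow_ne_zero 2 (H.ne s hs) h2

theorem Form_T (H : D.Par2 x₀ δ h) (hne : x₀ ≠ 0) :
    FormNz (ball 0 (δ ^ 2)) fun s => x₀ + s := by
  simpa only [sub_zero] using Form_lin H (Or.inl (Or.inl rfl)) hne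

theorem Form_B (H : D.Par2 x₀ δ h) (T : Finset ℕ) (hT : ∀ j ∈ T, j < D.q ∧ x₀ ≠ -D.b j) :
    FormNz (ball 0 (δ ^ 2)) fun s =>
      ∏ j ∈ T, if Even j then x₀ + s + D.b j else ((x₀ + s + D.b j) ^ 2)⁻¹ := by
  refine FormNz.prod T fun j hj => ?_
  have h1 : FormNz (ball 0 (δ ^ 2)) fun s => x₀ + s + D.b j := by
    simpa only [sub_neg_eq_add] using
      Form_lin H (Or.inl (Or.inr ⟨j, (hT j hj).1, rfl⟩)) (hT j hj).2
  by_cases e : Even j
  · simpa only [if_pos e] using h1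
  · simpa only [if_neg e] using (h1.pow 2).inv

theorem Form_A (H : D.Par2 x₀ δ h) (T : Finset ℕ) (hT : ∀ i ∈ T, i < D.p ∧ x₀ ≠ D.a i) :
    FormNz (ball 0 (δ ^ 2)) fun s =>
      ∏ i ∈ T, if Even i then (D.a i - (x₀ + s))⁻¹ else 1 := by
  refine FormNz.prod T fun i hi => ?_
  have h1 : FormNz (ball 0 (δ ^ 2)) fun s => D.a i - (x₀ + s) := by
    simpa only [neg_sub] using (Form_lin H (Or.inr ⟨i, (hT i hi).1, rfl⟩) (hT i hi).2).neg
  by_cases e : Even i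
  · simpa only [if_pos e] using h1.inv
  · simpa only [if_neg e] using FormNz.const one_ne_zero

theorem Form_rho (hD : D.Ok) (B : Set ℂ) : FormNz B fun _ => (D.ρ : ℂ) :=
  FormNz.const (ofReal_ne_zero.2 hD.ρ_pos.ne')

theorem Form_RA (hD : D.Ok) (H : D.Par2 x₀ δ h) (ha : D.IsA x₀) :
    ∃ U, FormNz (ball 0 (δ ^ 2)) U ∧
      ((∀ s, h s * D.R (x₀ + s) = U s * s⁻¹) ∨ ∀ s, h s * D.R (x₀ + s) = U s) := by
  have hE := hD.not_E ha
  obtain ⟨i, hi, e⟩ := ha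
  have h1 := (Form_T H fun e0 => hE (Or.inl e0)).inv
  have h2 := Form_B H (Finset.range D.q) fun j hj =>
    ⟨Finset.mem_range.1 hj, fun e0 => hE (Or.inr ⟨j, Finset.mem_range.1 hj, e0⟩)⟩
  have h3 := Form_A H ((Finset.range D.p).erase i) fun j hj =>
    ⟨Finset.mem_range.1 (Finset.mem_of_mem_erase hj), fun e0 => Finset.ne_of_mem_erase hj
      (Form_a_inj hD (Finset.mem_range.1 (Finset.mem_of_mem_erase hj)) hi (e0.symm.trans e))⟩
  have h4 := (FormNz.mul ⟨H.hol, H.ne⟩ ((((Form_rho hD _).mul h1).mul h2).mul h3))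
  by_cases ev : Even i
  · refine ⟨_, h4.neg, Or.inl fun s => ?_⟩
    rw [R, ← Finset.mul_prod_erase _ _ (Finset.mem_range.2 hi), if_pos ev, ← e,
      sub_add_cancel_left, inv_neg, div_eq_mul_inv]
    ring
  · refine ⟨_, h4, Or.inr fun s => ?_⟩
    rw [R, ← Finset.mul_prod_erase _ _ (Finset.mem_range.2 hi), if_neg ev, one_mul, div_eq_mul_inv]

theorem Form_R0 (hD : D.Ok) (H : D.Par2 0 δ h) :
    ∃ U, FormNz (ball 0 (δ ^ 2)) U ∧ ∀ s, h s * D.R (0 + s) = U s * s⁻¹ := by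
  have h2 := Form_B H (Finset.range D.q) fun j hj =>
    ⟨Finset.mem_range.1 hj, (Form_b_ne hD (Finset.mem_range.1 hj)).symm⟩
  have h3 := Form_A H (Finset.range D.p) fun j hj =>
    ⟨Finset.mem_range.1 hj, fun e0 => hD.not_E ⟨j, Finset.mem_range.1 hj, e0⟩ (Or.inl rfl)⟩
  refine ⟨_, FormNz.mul ⟨H.hol, H.ne⟩ (((Form_rho hD _).mul h2).mul h3), fun s => ?_⟩
  rw [R, div_eq_mul_inv, zero_add]
  ring

theorem Form_RB (hD : D.Ok) (H : D.Par2 x₀ δ h) {j : ℕ} (hj : j < D.q) (e : x₀ = -D.b j) :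
    ∃ U, FormNz (ball 0 (δ ^ 2)) U ∧
      ∀ s, h s * D.R (x₀ + s) = U s * if Even j then s else (s ^ 2)⁻¹ := by
  have h1 := (Form_T H (e ▸ Form_b_ne hD hj)).inv
  have h2 := Form_B H ((Finset.range D.q).erase j) fun i hi =>
    ⟨Finset.mem_range.1 (Finset.mem_of_mem_erase hi), fun e0 => Finset.ne_of_mem_erase hi
      (Form_b_inj hD (Finset.mem_range.1 (Finset.mem_of_mem_erase hi)) hj (e0.symm.trans e))⟩
  have h3 := Form_A H (Finset.range D.p) fun i hi =>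
    ⟨Finset.mem_range.1 hi, fun e0 => hD.not_E ⟨i, Finset.mem_range.1 hi, e0⟩ (Or.inr ⟨j, hj, e⟩)⟩
  refine ⟨_, FormNz.mul ⟨H.hol, H.ne⟩ ((((Form_rho hD _).mul h1).mul h2).mul h3), fun s => ?_⟩
  have e1 : x₀ + s + D.b j = s := by rw [e]; ring
  rw [R, ← Finset.mul_prod_erase _ _ (Finset.mem_range.2 hj), e1, div_eq_mul_inv]
  ring

end Dat

namespace Dat

variable {D : Dat} {δ : ℝ} {h : ℂ → ℂ}

theorem Par1.form (hD : D.Ok) {t₀ : ℂ} (H : D.Par1 t₀ δ h) :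
    DifferentiableOn ℂ (fun w => h w * D.R (t₀ + w) / (t₀ + w)) (ball 0 δ) ∧
    DifferentiableOn ℂ (fun w => (h w * D.R (t₀ + w) * (t₀ + w))⁻¹) (ball 0 δ) ∧
    ∀ w ∈ ball (0 : ℂ) δ, D.P (t₀ + w) ≠ 0 ∧ t₀ + w ≠ 0 ∧ D.R (t₀ + w) ≠ 0 := by
  have hP : ∀ w ∈ ball (0 : ℂ) δ, D.P (t₀ + w) ≠ 0 := fun w hw => by
    rw [← H.sq w hw]
    exact pow_ne_zero 2 (H.ne w hw)
  have hT : FormNz (ball 0 δ) fun w => t₀ + w :=
    ⟨by fun_prop, fun w hw e => hP w hw (P_eq_zero.2 (Or.inl (Or.inl e)))⟩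
  have hR : FormNz (ball 0 δ) fun w => D.R (t₀ + w) :=
    ⟨fun w hw => ((R_diff (hP w hw)).comp w (by fun_prop)).differentiableWithinAt,
      fun w hw => hD.R_ne (hP w hw)⟩
  have hU := FormNz.mul ⟨H.hol, H.ne⟩ hR
  exact ⟨hU.1.div hT.1 hT.2, (hU.mul hT).inv.1, fun w hw => ⟨hP w hw, hT.2 w hw, hR.2 w hw⟩⟩

theorem Par2.formA (hD : D.Ok) {x₀ : ℂ} (H : D.Par2 x₀ δ h) (ha : D.IsA x₀) :
    ∃ φ₁ φ₂ : ℂ → ℂ, DifferentiableOn ℂ φ₁ (ball 0 δ) ∧ DifferentiableOn ℂ φ₂ (ball 0 δ) ∧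
      (φ₁ 0 ≠ 0 ∨ φ₂ 0 ≠ 0) ∧
      (∀ w ∈ ball (0 : ℂ) δ, x₀ + w ^ 2 ≠ 0 ∧ φ₁ w * φ₂ w = (2 * w / (x₀ + w ^ 2)) ^ 2) ∧
      ∀ w ∈ ball (0 : ℂ) δ, w ≠ 0 →
        φ₁ w = w * h (w ^ 2) * D.R (x₀ + w ^ 2) / (x₀ + w ^ 2) * (2 * w) ∧
        φ₂ w = (w * h (w ^ 2) * D.R (x₀ + w ^ 2) * (x₀ + w ^ 2))⁻¹ * (2 * w) := by
  obtain ⟨U, hU, hR⟩ := Form_RA hD H ha
  have hT := Form_T H fun e0 => hD.not_E ha (Or.inl e0)
  have hsq : ∀ {f : ℂ → ℂ}, FormNz (ball 0 (δ ^ 2)) f → FormNz (ball 0 δ) fun w => f (w ^ 2) :=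
    fun hf => ⟨hf.1.comp (by fun_prop) fun w hw => sq_mem_ball hw,
      fun w hw => hf.2 _ (sq_mem_ball hw)⟩
  have hU' := hsq hU
  have hT' := hsq hT
  have h2 : FormNz (ball (0 : ℂ) δ) fun _ => (2 : ℂ) := FormNz.const two_ne_zero
  have h1 := h2.mul (hU'.mul hT'.inv)
  have h3 := h2.mul (hU'.mul hT').inv
  have hw2 : DifferentiableOn ℂ (fun w : ℂ => w ^ 2) (ball 0 δ) := by fun_prop
  rcases hR with hR | hR
  · refine ⟨_, _, h1.1, hw2.mul h3.1, Or.inl (h1.2 0 (mem_ball_self H.pos)), fun w hw => ?_,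
      fun w hw w0 => ?_⟩
    · have a1 := hU'.2 w hw
      have a2 := hT'.2 w hw
      refine ⟨a2, ?_⟩
      simp only [Pi.mul_apply]
      field_simp
    · have a1 := hU'.2 w hw
      have a2 := hT'.2 w hw
      simp only [Pi.mul_apply, mul_assoc w, hR]
      constructor <;> field_simp
  · refine ⟨_, _, hw2.mul h1.1, h3.1, Or.inr (h3.2 0 (mem_ball_self H.pos)), fun w hw => ?_,
      fun w hw w0 => ?_⟩
    · have a1 := hU'.2 w hw
      have a2 := hT'.2 w hw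
      refine ⟨a2, ?_⟩
      simp only [Pi.mul_apply]
      field_simp
    · have a1 := hU'.2 w hw
      have a2 := hT'.2 w hw
      simp only [Pi.mul_apply, mul_assoc w, hR]
      constructor <;> field_simp

theorem Par2.formE (hD : D.Ok) {x₀ : ℂ} (H : D.Par2 x₀ δ h) (he : D.IsE x₀) :
    ∃ k₁ k₂ : ℂ → ℂ, DifferentiableOn ℂ k₁ (ball 0 (δ ^ 2)) ∧
      DifferentiableOn ℂ k₂ (ball 0 (δ ^ 2)) ∧ (k₁ 0 ≠ 0 ∨ k₂ 0 ≠ 0) ∧ (x₀ = 0 → k₂ 0 = 0) ∧
      (∀ j < D.q, x₀ = -D.b j → (Even j → k₁ 0 = 0) ∧ (Odd j → k₂ 0 = 0)) ∧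
      ∀ w ∈ ball (0 : ℂ) δ, w ≠ 0 →
        k₁ (w ^ 2) / w ^ 2 = w * h (w ^ 2) * D.R (x₀ + w ^ 2) / (x₀ + w ^ 2) * (2 * w) ∧
        k₂ (w ^ 2) / w ^ 2 = (w * h (w ^ 2) * D.R (x₀ + w ^ 2) * (x₀ + w ^ 2))⁻¹ * (2 * w) := by
  have h2 : FormNz (ball (0 : ℂ) (δ ^ 2)) fun _ => (2 : ℂ) := FormNz.const two_ne_zero
  have h0 : (0 : ℂ) ∈ ball (0 : ℂ) (δ ^ 2) := mem_ball_self (pow_pos H.pos 2)
  rcases he with rfl | ⟨j, hj, e⟩
  · obtain ⟨U, hU, hR⟩ := Form_R0 hD H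
    refine ⟨fun s => 2 * U s, fun s => s * (2 * (U s)⁻¹), (h2.mul hU).1,
      differentiableOn_id.mul (h2.mul hU.inv).1, Or.inl ((h2.mul hU).2 0 h0),
      fun _ => zero_mul _, fun j hj e => absurd e.symm (Form_b_ne hD hj), fun w hw w0 => ?_⟩
    have a1 := hU.2 _ (sq_mem_ball hw)
    simp only [mul_assoc w, hR]
    rw [zero_add]
    constructor <;> field_simp
  · obtain ⟨U, hU, hR⟩ := Form_RB hD H hj e
    have hx : x₀ ≠ 0 := e ▸ Form_b_ne hD hj
    have hT := Form_T H hx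
    have h1 := h2.mul (hU.mul hT.inv)
    have h3 := h2.mul (hU.mul hT).inv
    have hw3 : DifferentiableOn ℂ (fun s : ℂ => s ^ 3) (ball 0 (δ ^ 2)) := by fun_prop
    have hi : ∀ i < D.q, x₀ = -D.b i → i = j := fun i hi e0 =>
      Form_b_inj hD hi hj (e0.symm.trans e)
    by_cases ev : Even j
    · refine ⟨fun s => s ^ 3 * (2 * (U s * (x₀ + s)⁻¹)), _, hw3.mul h1.1, h3.1,
        Or.inr (h3.2 0 h0), fun e0 => absurd e0 hx, fun i hi' e0 => ⟨fun _ => by simp, fun o => ?_⟩,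
        fun w hw w0 => ?_⟩
      · rw [hi i hi' e0] at o
        exact absurd ev (Nat.not_even_iff_odd.2 o)
      · have a1 := hU.2 _ (sq_mem_ball hw)
        have a2 := hT.2 _ (sq_mem_ball hw)
        simp only [mul_assoc w, hR, if_pos ev]
        constructor <;> field_simp
    · refine ⟨_, fun s => s ^ 3 * (2 * (U s * (x₀ + s))⁻¹), h1.1, hw3.mul h3.1,
        Or.inl (h1.2 0 h0), fun e0 => absurd e0 hx, fun i hi' e0 => ⟨fun o => ?_, fun _ => by simp⟩,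
        fun w hw w0 => ?_⟩
      · rw [hi i hi' e0] at o
        exact absurd o ev
      · have a1 := hU.2 _ (sq_mem_ball hw)
        have a2 := hT.2 _ (sq_mem_ball hw)
        simp only [mul_assoc w, hR, if_neg ev]
        constructor <;> field_simp

end Dat

end Pool.Agent.MP_92463a_gt

end
end

section

open Set Complex Filter Metric
open scoped Topology ComplexConjugate ContDiff Manifold

noncomputable section

namespace Pool.Agent.MP_92463a_gt

/-- the product over the negative branch points, at infinity -/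
def Form3_B (b : ℕ → ℝ) (q : ℕ) (s : ℂ) : ℂ :=
  ∏ j ∈ Finset.range q, if Even j then 1 + b j * s else ((1 + b j * s) ^ 2)⁻¹

/-- the product over the positive branch points, at infinity -/
def Form3_A (a : ℕ → ℝ) (p : ℕ) (s : ℂ) : ℂ :=
  ∏ i ∈ Finset.range p, if Even i then (a i * s - 1)⁻¹ else 1

theorem Form3_B_eq (b : ℕ → ℝ) {s : ℂ} (hs : s ≠ 0) (u : ℕ) :
    (∏ j ∈ Finset.range (2 * u), if Even j then s⁻¹ + b j else ((s⁻¹ + b j) ^ 2)⁻¹) =
      Form3_B b (2 * u) s * s ^ u ∧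
    (∏ j ∈ Finset.range (2 * u + 1), if Even j then s⁻¹ + b j else ((s⁻¹ + b j) ^ 2)⁻¹) =
      Form3_B b (2 * u + 1) s * s ^ u * s⁻¹ := by
  have h1 : ∀ j, s⁻¹ + b j = (1 + b j * s) * s⁻¹ := by
    intro j
    rw [add_mul, one_mul, mul_assoc, mul_inv_cancel₀ hs, mul_one]
  have step : ∀ u : ℕ,
      (∏ j ∈ Finset.range (2 * u), if Even j then s⁻¹ + b j else ((s⁻¹ + b j) ^ 2)⁻¹) =
        Form3_B b (2 * u) s * s ^ u →
      (∏ j ∈ Finset.range (2 * u + 1), if Even j then s⁻¹ + b j else ((s⁻¹ + b j) ^ 2)⁻¹) =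
        Form3_B b (2 * u + 1) s * s ^ u * s⁻¹ := by
    intro u hu
    rw [Finset.prod_range_succ, hu, Form3_B, Form3_B, Finset.prod_range_succ,
      if_pos (even_two_mul u), if_pos (even_two_mul u), h1]
    ring
  induction u with
  | zero => exact ⟨by simp [Form3_B], step 0 (by simp [Form3_B])⟩
  | succ u ih =>
    have ho : ¬ Even (2 * u + 1) := Nat.not_even_iff_odd.2 (odd_two_mul_add_one u)
    have h2 : (∏ j ∈ Finset.range (2 * (u + 1)),
        if Even j then s⁻¹ + b j else ((s⁻¹ + b j) ^ 2)⁻¹) =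
        Form3_B b (2 * (u + 1)) s * s ^ (u + 1) := by
      rw [show 2 * (u + 1) = 2 * u + 1 + 1 by ring, Finset.prod_range_succ, ih.2, Form3_B,
        Form3_B, Finset.prod_range_succ _ (2 * u + 1), if_neg ho, if_neg ho, h1, mul_pow, mul_inv,
        inv_pow, inv_inv]
      have h3 : s⁻¹ * s ^ 2 = s := by rw [pow_two, ← mul_assoc, inv_mul_cancel₀ hs, one_mul]
      generalize ((1 + (b (2 * u + 1) : ℂ) * s) ^ 2)⁻¹ = z
      linear_combination (∏ j ∈ Finset.range (2 * u + 1),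
        if Even j then 1 + b j * s else ((1 + b j * s) ^ 2)⁻¹) * s ^ u * z * h3
    exact ⟨h2, step _ h2⟩

theorem Form3_A_eq (a : ℕ → ℝ) {s : ℂ} (hs : s ≠ 0) (v : ℕ) :
    (∏ i ∈ Finset.range (2 * v), if Even i then (a i - s⁻¹)⁻¹ else 1) =
      Form3_A a (2 * v) s * s ^ v ∧
    (∏ i ∈ Finset.range (2 * v + 1), if Even i then (a i - s⁻¹)⁻¹ else 1) =
      Form3_A a (2 * v + 1) s * s ^ (v + 1) := by
  have h1 : ∀ i, (a i - s⁻¹)⁻¹ = (a i * s - 1)⁻¹ * s := by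
    intro i
    have h2 : a i - s⁻¹ = (a i * s - 1) * s⁻¹ := by
      rw [sub_mul, one_mul, mul_assoc, mul_inv_cancel₀ hs, mul_one]
    rw [h2, mul_inv, inv_inv]
  have step : ∀ v : ℕ,
      (∏ i ∈ Finset.range (2 * v), if Even i then (a i - s⁻¹)⁻¹ else 1) =
        Form3_A a (2 * v) s * s ^ v →
      (∏ i ∈ Finset.range (2 * v + 1), if Even i then (a i - s⁻¹)⁻¹ else 1) =
        Form3_A a (2 * v + 1) s * s ^ (v + 1) := by
    intro v hv
    rw [Finset.prod_range_succ, hv, Form3_A, Form3_A, Finset.prod_range_succ,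
      if_pos (even_two_mul v), if_pos (even_two_mul v), h1]
    ring
  induction v with
  | zero => exact ⟨by simp [Form3_A], step 0 (by simp [Form3_A])⟩
  | succ v ih =>
    have ho : ¬ Even (2 * v + 1) := Nat.not_even_iff_odd.2 (odd_two_mul_add_one v)
    have h2 : (∏ i ∈ Finset.range (2 * (v + 1)), if Even i then (a i - s⁻¹)⁻¹ else 1) =
        Form3_A a (2 * (v + 1)) s * s ^ (v + 1) := by
      rw [show 2 * (v + 1) = 2 * v + 1 + 1 by ring, Finset.prod_range_succ, ih.2, Form3_A,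
        Form3_A, Finset.prod_range_succ _ (2 * v + 1), if_neg ho, if_neg ho, mul_one, mul_one]
    exact ⟨h2, step _ h2⟩

/-- the unit part of `R` at infinity -/
def Form3_R (D : Dat) (s : ℂ) : ℂ := D.ρ * Form3_B D.b D.q s * Form3_A D.a D.p s

theorem Form3_R_eq {D : Dat} (hD : D.Ok) :
    ∃ m, D.p + D.q = 2 * m ∧ ∀ s : ℂ, s ≠ 0 →
      (Even D.q → D.R s⁻¹ = Form3_R D s * s ^ (m + 1)) ∧
      (Odd D.q → D.R s⁻¹ = Form3_R D s * s ^ m) := by
  obtain ⟨c, hc⟩ := hD.par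
  rcases Nat.even_or_odd' D.q with ⟨u, hu | hu⟩
  · have hp : D.p = 2 * (c - u) := by omega
    refine ⟨c - u + u, by omega, fun s hs => ⟨fun _ => ?_, fun h => ?_⟩⟩
    · rw [Dat.R, Form3_R, hp, hu, (Form3_B_eq D.b hs u).1, (Form3_A_eq D.a hs _).1,
        div_inv_eq_mul]
      ring
    · exact absurd h (by rw [hu]; exact Nat.not_odd_iff_even.2 (even_two_mul u))
  · have hp : D.p = 2 * (c - u - 1) + 1 := by omega
    refine ⟨c - u - 1 + u + 1, by omega, fun s hs => ⟨fun h => ?_, fun _ => ?_⟩⟩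
    · exact absurd h (by rw [hu]; exact Nat.not_even_iff_odd.2 (odd_two_mul_add_one u))
    · rw [Dat.R, Form3_R, hp, hu, (Form3_B_eq D.b hs u).2, (Form3_A_eq D.a hs _).2,
        div_inv_eq_mul]
      have h1 := mul_inv_cancel₀ hs
      generalize c - u - 1 = v
      linear_combination D.ρ * Form3_B D.b (2 * u + 1) s * Form3_A D.a (2 * v + 1) s *
        s ^ u * s ^ (v + 1) * h1

theorem Form3_fac {D : Dat} {δ : ℝ} {h : ℂ → ℂ} (H : D.Par3 δ h) {s : ℂ}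
    (hs : s ∈ ball (0 : ℂ) (δ ^ 2)) :
    (∀ j < D.q, 1 + D.b j * s ≠ 0) ∧ ∀ i < D.p, D.a i * s - 1 ≠ 0 := by
  by_cases h0 : s = 0
  · rw [h0]
    exact ⟨fun _ _ => by simp, fun _ _ => by simp⟩
  have h1 : D.P s⁻¹ ≠ 0 := by
    intro h2
    have h3 := H.sq s hs h0
    rw [h2, mul_zero] at h3
    exact H.ne s hs (pow_eq_zero_iff two_ne_zero |>.1 h3)
  rw [Dat.P] at h1
  obtain ⟨h2, h3⟩ := mul_ne_zero_iff.1 h1
  have h4 := Finset.prod_ne_zero_iff.1 (mul_ne_zero_iff.1 h2).2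
  have h5 := Finset.prod_ne_zero_iff.1 h3
  have h6 := inv_mul_cancel₀ h0
  constructor
  · intro j hj h7
    apply mul_ne_zero (h4 j (Finset.mem_range.2 hj)) h0
    linear_combination h7 + h6
  · intro i hi h7
    apply mul_ne_zero (h5 i (Finset.mem_range.2 hi)) h0
    linear_combination h7 - h6

theorem Form3_R_hol {D : Dat} {δ : ℝ} {h : ℂ → ℂ} (hD : D.Ok) (H : D.Par3 δ h) :
    DifferentiableOn ℂ (Form3_R D) (ball 0 (δ ^ 2)) ∧
      ∀ s ∈ ball (0 : ℂ) (δ ^ 2), Form3_R D s ≠ 0 := by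
  constructor
  · intro s hs
    obtain ⟨h1, h2⟩ := Form3_fac H hs
    refine DifferentiableAt.differentiableWithinAt ?_
    have hB : DifferentiableAt ℂ (Form3_B D.b D.q) s := by
      refine DifferentiableAt.fun_finsetProd fun j hj => ?_
      have h3 : DifferentiableAt ℂ (fun s : ℂ => 1 + D.b j * s) s := by fun_prop
      split_ifs
      · exact h3
      · exact (h3.pow 2).inv (pow_ne_zero _ (h1 j (Finset.mem_range.1 hj)))
    have hA : DifferentiableAt ℂ (Form3_A D.a D.p) s := by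
      refine DifferentiableAt.fun_finsetProd fun i hi => ?_
      have h3 : DifferentiableAt ℂ (fun s : ℂ => D.a i * s - 1) s := by fun_prop
      split_ifs
      · exact h3.inv (h2 i (Finset.mem_range.1 hi))
      · exact differentiableAt_const _
    exact ((differentiableAt_const _).mul hB).mul hA
  · intro s hs
    obtain ⟨h1, h2⟩ := Form3_fac H hs
    refine mul_ne_zero (mul_ne_zero (ofReal_ne_zero.2 hD.ρ_pos.ne') ?_) ?_
    · refine Finset.prod_ne_zero_iff.2 fun j hj => ?_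
      split_ifs
      · exact h1 j (Finset.mem_range.1 hj)
      · exact inv_ne_zero (pow_ne_zero _ (h1 j (Finset.mem_range.1 hj)))
    · refine Finset.prod_ne_zero_iff.2 fun i hi => ?_
      split_ifs
      · exact inv_ne_zero (h2 i (Finset.mem_range.1 hi))
      · exact one_ne_zero

theorem Dat.Par3.form {D : Dat} {δ : ℝ} {h : ℂ → ℂ} (hD : D.Ok) (H : D.Par3 δ h) :
    ∃ k₁ k₂ : ℂ → ℂ, DifferentiableOn ℂ k₁ (ball 0 (δ ^ 2)) ∧
      DifferentiableOn ℂ k₂ (ball 0 (δ ^ 2)) ∧ (Even D.q → k₁ 0 = 0) ∧ (Odd D.q → k₂ 0 = 0) ∧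
      ∀ w ∈ ball (0 : ℂ) δ, w ≠ 0 →
        k₁ (w ^ 2) / w ^ 2 =
          h (w ^ 2) / w ^ (D.p + D.q + 1) * D.R (w ^ 2)⁻¹ / (w ^ 2)⁻¹ * (-2 / w ^ 3) ∧
        k₂ (w ^ 2) / w ^ 2 =
          (h (w ^ 2) / w ^ (D.p + D.q + 1) * D.R (w ^ 2)⁻¹ * (w ^ 2)⁻¹)⁻¹ * (-2 / w ^ 3) := by
  obtain ⟨m, hm, hR⟩ := Form3_R_eq hD
  obtain ⟨h1, h2⟩ := Form3_R_hol hD H
  have h3 : DifferentiableOn ℂ (fun s => h s * Form3_R D s) (ball 0 (δ ^ 2)) := H.hol.mul h1
  have h4 : DifferentiableOn ℂ (fun s => (h s * Form3_R D s)⁻¹) (ball 0 (δ ^ 2)) :=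
    h3.inv fun s hs => mul_ne_zero (H.ne s hs) (h2 s hs)
  have h5 : ∀ w : ℂ, w ^ (D.p + D.q + 1) = (w ^ 2) ^ m * w := by
    intro w
    rw [hm, pow_succ, pow_mul]
  rcases Nat.even_or_odd D.q with hq | hq
  · refine ⟨fun s => -2 * (h s * Form3_R D s) * s, fun s => -2 * (h s * Form3_R D s)⁻¹,
      (h3.const_mul _).mul differentiableOn_id, h4.const_mul _, fun _ => mul_zero _,
      fun ho => absurd ho (Nat.not_odd_iff_even.2 hq), fun w hw h0 => ?_⟩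
    have h6 := H.ne _ (Dat.sq_mem_ball hw)
    have h7 := h2 _ (Dat.sq_mem_ball hw)
    have h8 : (w ^ 2) ^ m ≠ 0 := pow_ne_zero _ (pow_ne_zero _ h0)
    rw [(hR _ (pow_ne_zero 2 h0)).1 hq, h5, pow_succ _ m]
    generalize (w ^ 2) ^ m = z at h8
    constructor <;> field_simp
  · refine ⟨fun s => -2 * (h s * Form3_R D s), fun s => -2 * (h s * Form3_R D s)⁻¹ * s,
      h3.const_mul _, (h4.const_mul _).mul differentiableOn_id,
      fun he => absurd he (Nat.not_even_iff_odd.2 hq), fun _ => mul_zero _, fun w hw h0 => ?_⟩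
    have h6 := H.ne _ (Dat.sq_mem_ball hw)
    have h7 := h2 _ (Dat.sq_mem_ball hw)
    have h8 : (w ^ 2) ^ m ≠ 0 := pow_ne_zero _ (pow_ne_zero _ h0)
    rw [(hR _ (pow_ne_zero 2 h0)).2 hq, h5]
    generalize (w ^ 2) ^ m = z at h8
    constructor <;> field_simp

end Pool.Agent.MP_92463a_gt

end
end

section

open Set Complex Filter Metric
open scoped Topology ComplexConjugate ContDiff Manifold

noncomputable section

namespace Pool.Agent.MP_92463a_gt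

theorem Tool2_open {F : ℂ → ℂ} {V T : Set ℂ} (hV : IsOpen V) (hVc : Convex ℝ V) (hVT : V ⊆ T)
    (hT : T ⊆ closure V) (hc : ContinuousOn F T)
    (hd : ∀ w ∈ V, HasFDerivAt F (0 : ℂ →L[ℝ] ℂ) w) {x y : ℂ} (hx : x ∈ T) (hy : y ∈ T) :
    F x = F y := by
  obtain ⟨a, ha⟩ : V.Nonempty := closure_nonempty_iff.1 ⟨x, hT hx⟩
  have h1 : EqOn F (fun _ => F a) V := fun w hw =>
    hV.is_const_of_fderiv_eq_zero (𝕜 := ℝ) hVc.isPreconnected
      (fun z hz => (hd z hz).differentiableAt.differentiableWithinAt)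
      (fun z hz => (hd z hz).fderiv) hw ha
  have h2 := h1.of_subset_closure hc continuousOn_const hVT hT
  exact (h2 hx).trans (h2 hy).symm

theorem const_convex {F : ℂ → ℂ} {s : Set ℂ} (hs : Convex ℝ s) (hc : ContinuousOn F s)
    (hi : (interior s).Nonempty) (hd : ∀ w ∈ interior s, HasFDerivAt F (0 : ℂ →L[ℝ] ℂ) w) :
    ∃ k, ∀ w ∈ s, F w = k := by
  obtain ⟨a, ha⟩ := hi
  refine ⟨F a, fun w hw => Tool2_open isOpen_interior hs.interior interior_subset ?_ hc hd hw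
    (interior_subset ha)⟩
  rw [hs.closure_interior_eq_closure_of_nonempty_interior ⟨a, ha⟩]
  exact subset_closure

theorem Tool2_box {F : ℂ → ℂ} {δ : ℝ} {A B : Set ℝ} {U : Set ℂ} (hA : IsOpen A) (hB : IsOpen B)
    (hAc : Convex ℝ A) (hBc : Convex ℝ B) (hU : U ⊆ ball 0 δ)
    (hU' : ∀ w ∈ ball (0 : ℂ) δ, w.re ∈ A → w.im ∈ B → w ∈ U) (hc : ContinuousOn F U)
    (hd : ∀ w ∈ ball (0 : ℂ) δ, w.re ∈ A → w.im ∈ B → HasFDerivAt F (0 : ℂ →L[ℝ] ℂ) w)
    {x y : ℂ} (hx : x ∈ U) (hx1 : x.re ∈ closure A) (hx2 : x.im ∈ closure B)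
    (hy : y ∈ U) (hy1 : y.re ∈ closure A) (hy2 : y.im ∈ closure B) : F x = F y := by
  refine Tool2_open (V := ball 0 δ ∩ (A ×ℂ B)) (T := U ∩ (closure A ×ℂ closure B))
    (isOpen_ball.inter (hA.reProdIm hB))
    ((convex_ball 0 δ).inter ((hAc.linear_preimage reLm).inter (hBc.linear_preimage imLm)))
    (fun w hw => ⟨hU' w hw.1 hw.2.1 hw.2.2, subset_closure hw.2.1, subset_closure hw.2.2⟩)
    (fun w hw => isOpen_ball.inter_closure ⟨hU hw.1, ?_⟩) (hc.mono inter_subset_left)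
    (fun w hw => hd w hw.1 hw.2.1 hw.2.2) ⟨hx, hx1, hx2⟩ ⟨hy, hy1, hy2⟩
  rw [closure_reProdIm]
  exact hw.2

theorem const_line {F : ℂ → ℂ} {δ c : ℝ} (hc : ContinuousOn F (ball 0 δ))
    (hd : ∀ w ∈ ball (0 : ℂ) δ, w.im ≠ c → HasFDerivAt F (0 : ℂ →L[ℝ] ℂ) w) :
    ∃ k, ∀ w ∈ ball (0 : ℂ) δ, F w = k := by
  by_cases h : ∃ z ∈ ball (0 : ℂ) δ, z.im = c
  · obtain ⟨z, hz, hzc⟩ := h
    refine ⟨F z, fun w hw => ?_⟩
    rcases le_total c w.im with hw' | hw'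
    · exact Tool2_box isOpen_univ (isOpen_Ioi (a := c)) convex_univ (convex_Ioi c) subset_rfl
        (fun w hw _ _ => hw) hc (fun w hw _ h => hd w hw (ne_of_gt h)) hw (by simp)
        (by simpa using hw') hz (by simp) (by simp [hzc])
    · exact Tool2_box isOpen_univ (isOpen_Iio (a := c)) convex_univ (convex_Iio c) subset_rfl
        (fun w hw _ _ => hw) hc (fun w hw _ h => hd w hw (ne_of_lt h)) hw (by simp)
        (by simpa using hw') hz (by simp) (by simp [hzc])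
  · refine ⟨F 0, fun w hw => Tool2_open isOpen_ball (convex_ball 0 δ) subset_rfl subset_closure hc
      (fun z hz => hd z hz fun e => h ⟨z, hz, e⟩) hw (mem_ball_self (pos_of_mem_ball hw))⟩

theorem const_quad {F : ℂ → ℂ} {δ : ℝ} (hc : ContinuousOn F (ball 0 δ \ {0}))
    (hd : ∀ w ∈ ball (0 : ℂ) δ, w.re ≠ 0 → w.im ≠ 0 → HasFDerivAt F (0 : ℂ →L[ℝ] ℂ) w) :
    ∃ k, ∀ w ∈ ball (0 : ℂ) δ, w ≠ 0 → F w = k := by
  have key : ∀ {A B : Set ℝ}, IsOpen A → IsOpen B → Convex ℝ A → Convex ℝ B → (0 : ℝ) ∉ A →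
      (0 : ℝ) ∉ B → ∀ {x y : ℂ}, x ∈ ball (0 : ℂ) δ \ {0} → x.re ∈ closure A → x.im ∈ closure B →
      y ∈ ball (0 : ℂ) δ \ {0} → y.re ∈ closure A → y.im ∈ closure B → F x = F y := by
    intro A B hA hB hAc hBc hA0 hB0 x y hx hx1 hx2 hy hy1 hy2
    refine Tool2_box hA hB hAc hBc sdiff_subset (fun w hw h1 _ => ⟨hw, fun e => hA0 ?_⟩) hc
      (fun w hw h1 h2 => hd w hw (fun e => hA0 (e ▸ h1)) fun e => hB0 (e ▸ h2))
      hx hx1 hx2 hy hy1 hy2
    rw [mem_singleton_iff.1 e] at h1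
    exact h1
  refine ⟨F ((δ / 2 : ℝ) : ℂ), fun w hw hw0 => ?_⟩
  have hδ : 0 < δ := pos_of_mem_ball hw
  have hδ2 : 0 ≤ δ / 2 := by positivity
  have hm : ∀ z : ℂ, ‖z‖ = δ / 2 → z ∈ ball (0 : ℂ) δ \ {0} := fun z hz =>
    ⟨mem_ball_zero_iff.2 (by linarith), fun e => by
      rw [mem_singleton_iff.1 e, norm_zero] at hz
      linarith⟩
  have ha := hm ((δ / 2 : ℝ) : ℂ) (by rw [norm_real, Real.norm_of_nonneg hδ2])
  have hb := hm (((δ / 2 : ℝ) : ℂ) * I) (by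
    rw [norm_mul, norm_I, mul_one, norm_real, Real.norm_of_nonneg hδ2])
  have hb' := hm (-(((δ / 2 : ℝ) : ℂ) * I)) (by
    rw [norm_neg, norm_mul, norm_I, mul_one, norm_real, Real.norm_of_nonneg hδ2])
  have hw' : w ∈ ball (0 : ℂ) δ \ {0} := ⟨hw, hw0⟩
  have p0 : (0 : ℝ) ∉ Ioi (0 : ℝ) := fun h => lt_irrefl (0 : ℝ) h
  have n0 : (0 : ℝ) ∉ Iio (0 : ℝ) := fun h => lt_irrefl (0 : ℝ) h
  have pp := @key _ _ isOpen_Ioi isOpen_Ioi (convex_Ioi 0) (convex_Ioi 0) p0 p0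
  have pn := @key _ _ isOpen_Ioi isOpen_Iio (convex_Ioi 0) (convex_Iio 0) p0 n0
  have np := @key _ _ isOpen_Iio isOpen_Ioi (convex_Iio 0) (convex_Ioi 0) n0 p0
  have nn := @key _ _ isOpen_Iio isOpen_Iio (convex_Iio 0) (convex_Iio 0) n0 n0
  simp only [closure_Ioi, closure_Iio, mem_Ici, mem_Iic] at pp pn np nn
  have a1 : 0 ≤ ((δ / 2 : ℝ) : ℂ).re := by rw [ofReal_re]; exact hδ2
  have a2 : ((δ / 2 : ℝ) : ℂ).im = 0 := ofReal_im _
  have b1 : (((δ / 2 : ℝ) : ℂ) * I).re = 0 := by rw [mul_I_re, a2, neg_zero]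
  have b2 : 0 ≤ (((δ / 2 : ℝ) : ℂ) * I).im := by rw [mul_I_im]; exact a1
  have c1 : (-(((δ / 2 : ℝ) : ℂ) * I)).re = 0 := by rw [neg_re, b1, neg_zero]
  have c2 : (-(((δ / 2 : ℝ) : ℂ) * I)).im ≤ 0 := by rw [neg_im]; exact neg_nonpos.2 b2
  rcases le_total 0 w.re with h1 | h1 <;> rcases le_total 0 w.im with h2 | h2
  · exact pp hw' h1 h2 ha a1 a2.ge
  · exact pn hw' h1 h2 ha a1 a2.le
  · exact (np hw' h1 h2 hb b1.le b2).trans (pp hb b1.ge b2 ha a1 a2.ge)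
  · exact (nn hw' h1 h2 hb' c1.le c2).trans (pn hb' c1.ge c2 ha a1 a2.le)

theorem poly_growth {f : ℂ → ℂ} (hf : Differentiable ℂ f) (n : ℕ) {C r : ℝ}
    (hb : ∀ z : ℂ, r ≤ ‖z‖ → ‖f z‖ * ‖z‖ ≤ C * ‖z‖ ^ n) :
    ∃ c : ℕ → ℂ, ∀ z, f z = ∑ k ∈ Finset.range n, c k * z ^ k := by
  induction n generalizing f C r with
  | zero =>
    refine ⟨fun _ => 0, fun z => ?_⟩
    rw [Finset.sum_range_zero]
    refine hf.apply_eq_of_tendsto_cocompact z ?_
    have hn : Tendsto (fun z : ℂ => ‖z‖) (cocompact ℂ) atTop := tendsto_norm_cocompact_atTop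
    refine squeeze_zero_norm' ?_ (hn.const_div_atTop C)
    filter_upwards [hn.eventually_ge_atTop r, hn.eventually_gt_atTop 0] with w h1 h2
    have := hb w h1
    rw [pow_zero, mul_one] at this
    exact (le_div_iff₀ h2).2 this
  | succ n ih =>
    have hg : Differentiable ℂ (dslope f 0) :=
      differentiableOn_univ.1 ((differentiableOn_dslope univ_mem).2 hf.differentiableOn)
    have he : ∀ z, z * dslope f 0 z = f z - f 0 := fun z => by
      have := sub_smul_dslope f 0 z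
      rwa [sub_zero, smul_eq_mul] at this
    obtain ⟨c, hc⟩ := ih hg (C := C + ‖f 0‖) (r := max r 1) fun z hz => by
      have h1 : 1 ≤ ‖z‖ := (le_max_right _ _).trans hz
      have h2 := hb z ((le_max_left _ _).trans hz)
      rw [pow_succ, ← mul_assoc] at h2
      have h3 := le_of_mul_le_mul_right h2 (by linarith)
      have h4 : ‖f 0‖ ≤ ‖f 0‖ * ‖z‖ ^ n :=
        le_mul_of_one_le_right (norm_nonneg _) (one_le_pow₀ h1)
      rw [mul_comm, ← norm_mul, he, add_mul]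
      exact (norm_sub_le _ _).trans (add_le_add h3 h4)
    refine ⟨fun k => Nat.casesOn k (f 0) c, fun z => ?_⟩
    rw [Finset.sum_range_succ', pow_zero, mul_one, ← sub_eq_iff_eq_add]
    change f z - f 0 = ∑ k ∈ Finset.range n, c k * z ^ (k + 1)
    rw [← he, hc, Finset.mul_sum]
    exact Finset.sum_congr rfl fun k _ => by ring

theorem fill_finite {f : ℂ → ℂ} {s : Set ℂ} (hs : s.Finite) (hf : DifferentiableOn ℂ f sᶜ)
    (hb : ∀ x ∈ s, ∃ C : ℝ, ∀ᶠ z in 𝓝[≠] x, ‖f z‖ ≤ C) :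
    ∃ F : ℂ → ℂ, Differentiable ℂ F ∧ ∀ z ∉ s, F z = f z := by
  classical
  refine ⟨fun z => if z ∈ s then limUnder (𝓝[≠] z) f else f z, fun x => ?_,
    fun z hz => if_neg hz⟩
  by_cases hx : x ∈ s
  · obtain ⟨C, hC⟩ := hb x hx
    have h1 : (s \ {x})ᶜ ∈ 𝓝 x :=
      (hs.subset sdiff_subset).isClosed.isOpen_compl.mem_nhds fun h => h.2 rfl
    have h2 : {z | z ≠ x → ‖f z‖ ≤ C} ∈ 𝓝 x := eventually_nhdsWithin_iff.1 hC
    have h3 := inter_mem h1 h2
    have h4 := differentiableOn_update_limUnder_of_bddAbove (f := f) h3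
      (hf.mono fun z hz hzs => hz.1.1 ⟨hzs, hz.2⟩) ⟨C, by
        rintro _ ⟨z, hz, rfl⟩
        exact hz.1.2 hz.2⟩
    refine (h4.differentiableAt h3).congr_of_eventuallyEq ?_
    filter_upwards [h1] with z hz
    by_cases e : z = x
    · rw [e, if_pos hx, Function.update_self]
    · rw [if_neg fun h => hz ⟨h, e⟩, Function.update_of_ne e]
  · have h1 : sᶜ ∈ 𝓝 x := hs.isClosed.isOpen_compl.mem_nhds hx
    refine (hf.differentiableAt h1).congr_of_eventuallyEq ?_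
    filter_upwards [h1] with z hz
    exact if_neg hz

end Pool.Agent.MP_92463a_gt

end
end

section

open Set Complex Filter Metric
open scoped Topology ComplexConjugate ContDiff Manifold

noncomputable section

namespace Pool.Agent.MP_92463a_gt

namespace Dat

variable {D : Dat} {X : ℂ → ℂ} {δ : ℝ} {h : ℂ → ℂ}

theorem LF_notE {t : ℂ} (ht : D.P t ≠ 0) : ¬ D.IsE t := fun h => ht (P_eq_zero.2 (Or.inl h))

theorem LF_cont (hD : D.Ok) (hX : D.Sol X) {s : Set ℂ} {T Yl Φ₁ Φ₂ : ℂ → ℂ}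
    (hT : ContinuousOn T s) (hY : ContinuousOn Yl s) (h₁ : ContinuousOn Φ₁ s)
    (h₂ : ContinuousOn Φ₂ s) (hs : ∀ w ∈ s, Yl w ^ 2 = D.P (T w) ∧ ¬ D.IsE (T w)) :
    ContinuousOn (fun w => D.Xg X (T w) (Yl w) - (Φ₁ w - conj (Φ₂ w))) s :=
  ((hX.Xg_cont hD).comp (hT.prodMk hY) hs).sub (h₁.sub (continuous_conj.comp_continuousOn h₂))

theorem LF_der (hD : D.Ok) (hX : D.Sol X) {s : Set ℂ} (ho : IsOpen s) {T Yl Φ₁ Φ₂ : ℂ → ℂ}
    {T' w : ℂ} (hw : w ∈ s) (hT : HasDerivAt T T' w) (hY : ContinuousOn Yl s)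
    (hs : ∀ v ∈ s, Yl v ^ 2 = D.P (T v)) (him : (T w).im ≠ 0)
    (h₁ : HasDerivAt Φ₁ (Yl w * D.R (T w) / T w * T') w)
    (h₂ : HasDerivAt Φ₂ ((Yl w * D.R (T w) * T w)⁻¹ * T') w) :
    HasFDerivAt (fun v => D.Xg X (T v) (Yl v) - (Φ₁ v - conj (Φ₂ v))) (0 : ℂ →L[ℝ] ℂ) w := by
  have a := Pre.Xg_der hD hX.toPre hT (hY.continuousAt (ho.mem_nhds hw))
    (mem_of_superset (ho.mem_nhds hw) hs) him
  have b := a.sub (hasFDerivAt_wl h₁ h₂)
  rwa [sub_self] at b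

theorem Sol.lf1 (hD : D.Ok) (hX : D.Sol X) {t₀ : ℂ} (H : D.Par1 t₀ δ h) :
    ∃ Φ₁ Φ₂ : ℂ → ℂ, ∀ w ∈ ball (0 : ℂ) δ,
      HasDerivAt Φ₁ (h w * D.R (t₀ + w) / (t₀ + w)) w ∧
      HasDerivAt Φ₂ (h w * D.R (t₀ + w) * (t₀ + w))⁻¹ w ∧
      D.Xg X (t₀ + w) (h w) = Φ₁ w - conj (Φ₂ w) := by
  obtain ⟨f1, f2, f3⟩ := H.form hD
  obtain ⟨Φ₁, d1⟩ := f1.isExactOn_ball
  obtain ⟨Φ₂, d2⟩ := f2.isExactOn_ball
  have c1 : ContinuousOn Φ₁ (ball 0 δ) := fun w hw => (d1 w hw).continuousAt.continuousWithinAt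
  have c2 : ContinuousOn Φ₂ (ball 0 δ) := fun w hw => (d2 w hw).continuousAt.continuousWithinAt
  obtain ⟨k, hk⟩ := const_line (c := -t₀.im)
    (LF_cont hD hX (T := fun w => t₀ + w) (by fun_prop) H.hol.continuousOn c1 c2
      fun w hw => ⟨H.sq w hw, LF_notE (f3 w hw).1⟩) fun w hw him =>
    LF_der hD hX isOpen_ball (T := fun w => t₀ + w) hw ((hasDerivAt_id w).const_add t₀)
      H.hol.continuousOn H.sq (fun h0 => him (by rw [add_im] at h0; linarith))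
      (by rw [mul_one]; exact d1 w hw) (by rw [mul_one]; exact d2 w hw)
  refine ⟨fun w => Φ₁ w + k, Φ₂, fun w hw => ⟨(d1 w hw).add_const k, d2 w hw, ?_⟩⟩
  rw [← hk w hw]
  ring

theorem Sol.lfA (hD : D.Ok) (hX : D.Sol X) {x₀ : ℂ} (H : D.Par2 x₀ δ h) (ha : D.IsA x₀) :
    ∃ Φ₁ Φ₂ φ₁ φ₂ : ℂ → ℂ, (φ₁ 0 ≠ 0 ∨ φ₂ 0 ≠ 0) ∧ ∀ w ∈ ball (0 : ℂ) δ,
      HasDerivAt Φ₁ (φ₁ w) w ∧ HasDerivAt Φ₂ (φ₂ w) w ∧ x₀ + w ^ 2 ≠ 0 ∧
      φ₁ w * φ₂ w = (2 * w / (x₀ + w ^ 2)) ^ 2 ∧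
      D.Xg X (x₀ + w ^ 2) (w * h (w ^ 2)) = Φ₁ w - conj (Φ₂ w) := by
  obtain ⟨φ₁, φ₂, f1, f2, f3, f4, f5⟩ := H.formA hD ha
  obtain ⟨Φ₁, d1⟩ := f1.isExactOn_ball
  obtain ⟨Φ₂, d2⟩ := f2.isExactOn_ball
  have c1 : ContinuousOn Φ₁ (ball 0 δ) := fun w hw => (d1 w hw).continuousAt.continuousWithinAt
  have c2 : ContinuousOn Φ₂ (ball 0 δ) := fun w hw => (d2 w hw).continuousAt.continuousWithinAt
  have cY : ContinuousOn (fun w => w * h (w ^ 2)) (ball 0 δ) :=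
    continuousOn_id.mul (H.hol.continuousOn.comp (by fun_prop) fun w hw => sq_mem_ball hw)
  have hx : x₀.im = 0 := by
    obtain ⟨i, -, rfl⟩ := ha
    exact ofReal_im _
  have cF := LF_cont hD hX (T := fun w => x₀ + w ^ 2) (by fun_prop) cY c1 c2 fun w hw =>
    ⟨(H.on hw).1, by
      by_cases h0 : w = 0
      · rw [h0, zero_pow two_ne_zero, add_zero]
        exact hD.not_E ha
      · exact LF_notE ((H.on hw).2 h0)⟩
  obtain ⟨k, hk⟩ := const_quad (cF.mono sdiff_subset) fun w hw hre him => by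
    have h0 : w ≠ 0 := fun h0 => hre (by rw [h0, zero_re])
    have hT : HasDerivAt (fun w : ℂ => x₀ + w ^ 2) (2 * w) w := by
      simpa using (hasDerivAt_pow 2 w).const_add x₀
    refine LF_der hD hX isOpen_ball (T := fun w => x₀ + w ^ 2) hw hT cY (fun v hv => (H.on hv).1)
      ?_ ((f5 w hw h0).1 ▸ d1 w hw) ((f5 w hw h0).2 ▸ d2 w hw)
    rw [add_im, hx, zero_add, sq, mul_im]
    intro e
    rw [mul_comm w.im, ← two_mul] at e
    exact mul_ne_zero two_ne_zero (mul_ne_zero hre him) e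
  have hk' : ∀ w ∈ ball (0 : ℂ) δ,
      D.Xg X (x₀ + w ^ 2) (w * h (w ^ 2)) - (Φ₁ w - conj (Φ₂ w)) = k := fun w hw => by
    by_cases h0 : w = 0
    · subst h0
      have hb : ball (0 : ℂ) δ ∈ 𝓝 (0 : ℂ) := isOpen_ball.mem_nhds hw
      refine tendsto_nhds_unique ((cF.continuousAt hb).tendsto.mono_left
        (nhdsWithin_le_nhds (s := {0}ᶜ))) (tendsto_const_nhds.congr' ?_)
      filter_upwards [mem_nhdsWithin_of_mem_nhds hb, self_mem_nhdsWithin] with v h1 h2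
      exact (hk v h1 h2).symm
    · exact hk w hw h0
  refine ⟨fun w => Φ₁ w + k, Φ₂, φ₁, φ₂, f3, fun w hw =>
    ⟨(d1 w hw).add_const k, d2 w hw, (f4 w hw).1, (f4 w hw).2, ?_⟩⟩
  rw [← hk' w hw]
  ring

theorem Sol.lfE (hD : D.Ok) (hX : D.Sol X) (hδ : 0 < δ) {T T' Yl k₁ k₂ : ℂ → ℂ}
    (h₁ : DifferentiableOn ℂ k₁ (ball 0 (δ ^ 2))) (h₂ : DifferentiableOn ℂ k₂ (ball 0 (δ ^ 2)))
    (hY : ContinuousOn Yl (ball 0 δ \ {0}))
    (hw : ∀ w ∈ ball (0 : ℂ) δ, w ≠ 0 → HasDerivAt T (T' w) w ∧ Yl w ^ 2 = D.P (T w) ∧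
      D.P (T w) ≠ 0 ∧ T (-w) = T w ∧ Yl (-w) = -Yl w ∧ (w.re ≠ 0 → w.im ≠ 0 → (T w).im ≠ 0) ∧
      k₁ (w ^ 2) / w ^ 2 = Yl w * D.R (T w) / T w * T' w ∧
      k₂ (w ^ 2) / w ^ 2 = (Yl w * D.R (T w) * T w)⁻¹ * T' w) :
    Tendsto (fun w => D.Xg X (T w) (Yl w) - (-k₁ 0 / w - conj (-k₂ 0 / w))) (𝓝[≠] 0) (𝓝 0) := by
  obtain ⟨Ψ₁, a1, a2, a3, a4⟩ := odd_prim hδ h₁
  obtain ⟨Ψ₂, b1, b2, b3, b4⟩ := odd_prim hδ h₂
  have ho : IsOpen (ball (0 : ℂ) δ \ {0}) := isOpen_ball.sdiff isClosed_singleton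
  obtain ⟨k, hk⟩ := const_quad (δ := δ)
    (LF_cont hD hX (T := T) (Φ₁ := fun v => -k₁ 0 / v + Ψ₁ v) (Φ₂ := fun v => -k₂ 0 / v + Ψ₂ v)
      (fun w h => (hw w h.1 h.2).1.continuousAt.continuousWithinAt) hY
      (fun w h => (a4 w h.1 h.2).continuousAt.continuousWithinAt)
      (fun w h => (b4 w h.1 h.2).continuousAt.continuousWithinAt)
      fun w h => ⟨(hw w h.1 h.2).2.1, LF_notE (hw w h.1 h.2).2.2.1⟩) fun w hb hre him => by
    have h0 : w ≠ 0 := fun h0 => hre (by rw [h0, zero_re])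
    obtain ⟨e1, -, -, -, -, e6, e7, e8⟩ := hw w hb h0
    exact LF_der hD hX ho ⟨hb, h0⟩ e1 hY (fun v h => (hw v h.1 h.2).2.1) (e6 hre him)
      (e7 ▸ a4 w hb h0) (e8 ▸ b4 w hb h0)
  have hk0 : k = 0 := by
    have hb : ((δ / 2 : ℝ) : ℂ) ∈ ball (0 : ℂ) δ := by
      rw [mem_ball_zero_iff, norm_real, Real.norm_eq_abs, abs_of_pos (by positivity)]
      linarith
    have h0 : ((δ / 2 : ℝ) : ℂ) ≠ 0 := ofReal_ne_zero.2 (by positivity)
    generalize ((δ / 2 : ℝ) : ℂ) = w at hb h0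
    have e1 := hk w hb h0
    have e2 := hk (-w) (by rwa [mem_ball_zero_iff, norm_neg, ← mem_ball_zero_iff])
      (neg_ne_zero.2 h0)
    obtain ⟨-, -, -, e4, e5, -⟩ := hw w hb h0
    simp only [e4, e5, Xg_neg, a3 w hb, b3 w hb, div_neg, map_add, map_neg] at e1 e2
    linear_combination (-1 / 2 : ℂ) * (e1 + e2)
  have hb : ball (0 : ℂ) δ ∈ 𝓝 (0 : ℂ) := ball_mem_nhds 0 hδ
  have t1 : Tendsto Ψ₁ (𝓝 0) (𝓝 0) := by
    simpa [a2] using (a1.continuousOn.continuousAt hb).tendsto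
  have t2 : Tendsto Ψ₂ (𝓝 0) (𝓝 0) := by
    simpa [b2] using (b1.continuousOn.continuousAt hb).tendsto
  have t3 : Tendsto (fun w => Ψ₁ w - conj (Ψ₂ w)) (𝓝 0) (𝓝 0) := by
    simpa using t1.sub ((continuous_conj.tendsto 0).comp t2)
  refine (t3.mono_left nhdsWithin_le_nhds).congr' ?_
  filter_upwards [mem_nhdsWithin_of_mem_nhds hb, self_mem_nhdsWithin] with v h1 h2
  have e := hk v h1 h2
  rw [hk0, map_add] at e
  linear_combination -e

end Dat

end Pool.Agent.MP_92463a_gt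

end
end

section

open Set Complex Filter Metric
open scoped Topology ComplexConjugate ContDiff Manifold

noncomputable section

namespace Pool.Agent.MP_92463a_gt

theorem Ends3_lim {k : ℂ → ℂ} {δ : ℝ} (hδ : 0 < δ) (hk : DifferentiableOn ℂ k (ball 0 (δ ^ 2))) :
    Tendsto (fun w : ℝ => -k ((w : ℂ) ^ 2)) (𝓝[>] 0) (𝓝 (-k 0)) := by
  have h1 : ContinuousAt k 0 :=
    (hk.differentiableAt (ball_mem_nhds 0 (pow_pos hδ 2))).continuousAt
  have h2 : Tendsto (fun w : ℝ => (w : ℂ) ^ 2) (𝓝 0) (𝓝 0) := by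
    have h3 : Continuous fun w : ℝ => (w : ℂ) ^ 2 := by fun_prop
    simpa using h3.tendsto 0
  exact ((h1.tendsto.comp h2).neg).mono_left nhdsWithin_le_nhds

theorem Ends3_ev {D : Dat} (hD : D.Ok) {δ : ℝ} (hδ : 0 < δ) :
    ∀ᶠ w : ℝ in 𝓝[>] 0, 0 < w ∧ (w : ℂ) ∈ ball (0 : ℂ) δ ∧
      D.G ((w : ℂ) ^ 2)⁻¹ = (if Even D.p then 1 else I) * (‖D.G ((w : ℂ) ^ 2)⁻¹‖ : ℂ) := by
  have h1 : Tendsto (fun w : ℝ => (w ^ 2)⁻¹) (𝓝[>] 0) atTop := by
    refine tendsto_inv_nhdsGT_zero.comp (tendsto_nhdsWithin_iff.2 ⟨?_, ?_⟩)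
    · have h3 : Continuous fun w : ℝ => w ^ 2 := by fun_prop
      simpa using (h3.tendsto 0).mono_left nhdsWithin_le_nhds
    · filter_upwards [self_mem_nhdsWithin] with w hw
      exact pow_pos (mem_Ioi.1 hw) 2
  have h2 : ∀ᶠ w : ℝ in 𝓝[>] 0, ∀ i ∈ Finset.range D.p, D.a i < (w ^ 2)⁻¹ :=
    (eventually_all_finset _).2 fun i _ => h1.eventually (eventually_gt_atTop _)
  filter_upwards [Ioo_mem_nhdsGT hδ, h2] with w hw h3
  refine ⟨hw.1, ?_, ?_⟩
  · rw [mem_ball_zero_iff, norm_real, Real.norm_eq_abs, abs_of_pos hw.1]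
    exact hw.2
  · have h4 := (hD.sign_pos (x := (w ^ 2)⁻¹) (k := D.p) (inv_pos.2 (pow_pos hw.1 2)) le_rfl
      (fun i hi => h3 i (Finset.mem_range.2 hi)) fun i h5 h6 => absurd h6 (not_lt.2 h5)).2
    rwa [ofReal_inv, ofReal_pow] at h4

theorem Ends3_quad {c₁ c₂ v : ℂ} (h1 : c₁.re = 0) (h2 : 0 ≤ c₁.im) (h3 : c₂.im = 0)
    (h4 : 0 ≤ c₂.re) (h5 : 0 ≤ v.re) (h6 : 0 ≤ v.im) :
    (c₁ / v⁻¹ - conj (c₂ / v⁻¹)).re ≤ 0 ∧ 0 ≤ (c₁ / v⁻¹ - conj (c₂ / v⁻¹)).im := by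
  rw [div_inv_eq_mul, div_inv_eq_mul, sub_re, sub_im, conj_re, conj_im, mul_re, mul_re, mul_im,
    mul_im, h1, h3]
  have := mul_nonneg h2 h5
  have := mul_nonneg h2 h6
  have := mul_nonneg h4 h5
  have := mul_nonneg h4 h6
  constructor <;> linarith

theorem Ends3_sqrt {t : ℂ} (ht : 0 ≤ t.im) : ∃ v : ℂ, v ^ 2 = t ∧ 0 ≤ v.re ∧ 0 ≤ v.im := by
  refine ⟨t ^ (2⁻¹ : ℂ), cpow_ofNat_inv_pow t 2, ?_, ?_⟩
  · rw [cpow_inv_two_re]
    exact Real.sqrt_nonneg _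
  · rw [cpow_inv_two_im_eq_sqrt ht]
    exact Real.sqrt_nonneg _

theorem Dat.Sol.inf_sign {D : Dat} {X : ℂ → ℂ} (hD : D.Ok) (hX : D.Sol X) {ε : ℝ} (hε : 0 < ε) :
    ∃ r : ℝ, ∀ t ∈ D.Q, r < ‖t‖ → (X t).re < ε ∧ -ε < (X t).im := by
  obtain ⟨δ, h, H, hY⟩ := hD.par3
  obtain ⟨k₁, k₂, hk₁, hk₂, he, ho, hk⟩ := H.form hD
  have hodd : Odd (D.p + D.q + 1) := hD.par.add_one
  have hlim := hX.lfE hD H.pos (T := fun w => (w ^ 2)⁻¹) (T' := fun w => -2 / w ^ 3)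
    (Yl := fun w => h (w ^ 2) / w ^ (D.p + D.q + 1)) hk₁ hk₂ (by
      refine ContinuousOn.div ?_ (by fun_prop) fun w hw => pow_ne_zero _ hw.2
      exact H.hol.continuousOn.comp (by fun_prop) fun w hw => Dat.sq_mem_ball hw.1) (by
      intro w hw h0
      refine ⟨?_, (H.on hw h0).1, (H.on hw h0).2, by rw [neg_sq], ?_, ?_, hk w hw h0⟩
      · refine ((hasDerivAt_pow 2 w).inv (pow_ne_zero 2 h0)).congr_deriv ?_
        field_simp
        norm_num
        ring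
      · rw [neg_sq, hodd.neg_pow, div_neg]
      · intro h1 h2
        rw [inv_im, pow_two, mul_im]
        refine div_ne_zero (neg_ne_zero.2 ?_) (normSq_eq_zero.not.2 (mul_ne_zero h0 h0))
        rw [mul_comm w.im, ← two_mul]
        exact mul_ne_zero two_ne_zero (mul_ne_zero h1 h2))
  have hG : ∀ᶠ w : ℝ in 𝓝[>] 0, 0 < w ∧
      -k₁ ((w : ℂ) ^ 2) = 2 * w * ((if Even D.p then 1 else I) * (‖D.G ((w : ℂ) ^ 2)⁻¹‖ : ℂ)) ∧
      -k₂ ((w : ℂ) ^ 2) =
        2 * w * ((if Even D.p then 1 else I) * (‖D.G ((w : ℂ) ^ 2)⁻¹‖ : ℂ))⁻¹ := by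
    filter_upwards [Ends3_ev hD H.pos] with w ⟨hw0, hw, hG⟩
    have h0 : (w : ℂ) ≠ 0 := ofReal_ne_zero.2 hw0.ne'
    obtain ⟨h1, h2⟩ := hk w hw h0
    rw [hY w hw h0 (by rw [ofReal_re]; exact hw0.le) (by rw [ofReal_im]),
      ← hD.G_eq (H.on hw h0).2] at h1 h2
    rw [← hG]
    have h3 := D.G_ne ((w : ℂ) ^ 2)⁻¹
    generalize D.G ((w : ℂ) ^ 2)⁻¹ = g at h1 h2 h3
    rw [div_eq_iff (pow_ne_zero 2 h0)] at h1 h2
    refine ⟨hw0, ?_, ?_⟩
    · rw [h1]; field_simp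
    · rw [h2]; field_simp
  have hpq : Even D.p ↔ Even D.q := Nat.even_add.1 hD.par
  have c₁ : (-k₁ 0).re = 0 ∧ 0 ≤ (-k₁ 0).im := by
    rcases Nat.even_or_odd D.q with hq | hq
    · rw [he hq]; simp
    · have hp : ¬ Even D.p := fun hp => Nat.not_even_iff_odd.2 hq (hpq.1 hp)
      have hc : IsClosed {z : ℂ | z.re = 0 ∧ 0 ≤ z.im} :=
        (isClosed_eq continuous_re continuous_const).inter
          (isClosed_le continuous_const continuous_im)
      refine hc.mem_of_tendsto (Ends3_lim H.pos hk₁) ?_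
      filter_upwards [hG] with w ⟨hw0, h1, _⟩
      rw [h1, if_neg hp]
      have h2 : (2 : ℂ) * w * (I * (‖D.G ((w : ℂ) ^ 2)⁻¹‖ : ℂ)) =
          ((2 * w * ‖D.G ((w : ℂ) ^ 2)⁻¹‖ : ℝ) : ℂ) * I := by
        push_cast
        ring
      rw [h2, mul_I_re, mul_I_im, ofReal_re, ofReal_im, neg_zero]
      exact ⟨rfl, by positivity⟩
  have c₂ : (-k₂ 0).im = 0 ∧ 0 ≤ (-k₂ 0).re := by
    rcases Nat.even_or_odd D.q with hq | hq
    · have hc : IsClosed {z : ℂ | z.im = 0 ∧ 0 ≤ z.re} :=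
        (isClosed_eq continuous_im continuous_const).inter
          (isClosed_le continuous_const continuous_re)
      refine hc.mem_of_tendsto (Ends3_lim H.pos hk₂) ?_
      filter_upwards [hG] with w ⟨hw0, _, h1⟩
      rw [h1, if_pos (hpq.2 hq)]
      have h2 : (2 : ℂ) * w * (1 * (‖D.G ((w : ℂ) ^ 2)⁻¹‖ : ℂ))⁻¹ =
          ((2 * w * ‖D.G ((w : ℂ) ^ 2)⁻¹‖⁻¹ : ℝ) : ℂ) := by
        push_cast
        ring
      rw [h2, ofReal_re, ofReal_im]
      exact ⟨rfl, by positivity⟩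
    · rw [ho hq]; simp
  have hev := (Metric.tendsto_nhds.1 hlim ε hε).and
    (mem_nhdsWithin_of_mem_nhds (ball_mem_nhds (0 : ℂ) H.pos))
  obtain ⟨η, hη, hb⟩ := Metric.mem_nhdsWithin_iff.1 hev
  refine ⟨η⁻¹ ^ 2, fun t ht hr => ?_⟩
  obtain ⟨v, hv, hre, him⟩ := Ends3_sqrt ht.1
  have hv1 : η⁻¹ < ‖v‖ := by
    rw [← hv, norm_pow] at hr
    exact lt_of_pow_lt_pow_left₀ 2 (norm_nonneg v) hr
  have hv2 : 0 < ‖v‖ := (inv_pos.2 hη).trans hv1
  have h0 : v⁻¹ ≠ 0 := inv_ne_zero (norm_pos_iff.1 hv2)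
  obtain ⟨h1, h2⟩ := hb (a := v⁻¹) ⟨by
    rw [mem_ball_zero_iff, norm_inv]
    exact inv_lt_of_inv_lt₀ hη hv1, h0⟩
  have h3 : (v⁻¹ ^ 2)⁻¹ = t := by rw [inv_pow, inv_inv, hv]
  rw [hY _ h2 h0 (by rw [inv_re]; exact div_nonneg hre (normSq_nonneg v))
    (by rw [inv_im]; exact div_nonpos_of_nonpos_of_nonneg (neg_nonpos.2 him) (normSq_nonneg v)),
    h3, Dat.Xg_Y ht.1, dist_zero_right] at h1
  obtain ⟨h4, h5⟩ := Ends3_quad c₁.1 c₁.2 c₂.1 c₂.2 hre him
  generalize -k₁ 0 / v⁻¹ - conj (-k₂ 0 / v⁻¹) = z at h1 h4 h5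
  have h6 := abs_lt.1 ((abs_re_le_norm _).trans_lt h1)
  have h7 := abs_lt.1 ((abs_im_le_norm _).trans_lt h1)
  rw [sub_re] at h6
  rw [sub_im] at h7
  constructor <;> linarith [h6.2, h7.1]

end Pool.Agent.MP_92463a_gt

end
end

section

open Set Complex Filter Metric
open scoped Topology ComplexConjugate ContDiff Manifold

noncomputable section

namespace Pool.Agent.MP_92463a_gt

theorem PreEx_core {U φ : ℂ → ℂ} {δ : ℝ} (hδ : 0 < δ) {s : Set ℂ} (hs : IsOpen s)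
    (hc : Convex ℝ s) (hφ : DifferentiableOn ℂ φ (ball 0 δ))
    (hU : ∀ w ∈ ball (0 : ℂ) δ, w ∈ s → HasDerivAt U (φ w) w) :
    ∃ y, Tendsto U (𝓝[s] 0) (𝓝 y) := by
  obtain ⟨Φ, hΦ⟩ := hφ.isExactOn_ball
  have ho : IsOpen (ball (0 : ℂ) δ ∩ s) := isOpen_ball.inter hs
  have hp : IsPreconnected (ball (0 : ℂ) δ ∩ s) :=
    ((convex_ball (0 : ℂ) δ).inter hc).isPreconnected
  obtain ⟨k, hk⟩ := ho.exists_eq_add_of_deriv_eq (f := U) (g := Φ) hp
    (fun w hw => (hU w hw.1 hw.2).differentiableAt.differentiableWithinAt)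
    (fun w hw => (hΦ w hw.1).differentiableAt.differentiableWithinAt)
    (fun w hw => by rw [(hU w hw.1 hw.2).deriv, (hΦ w hw.1).deriv])
  refine ⟨Φ 0 + k, ?_⟩
  have h1 : Tendsto (fun w => Φ w + k) (𝓝[s] 0) (𝓝 (Φ 0 + k)) :=
    (((hΦ 0 (mem_ball_self hδ)).continuousAt.tendsto).add_const k).mono_left nhdsWithin_le_nhds
  refine h1.congr' ?_
  filter_upwards [self_mem_nhdsWithin, mem_nhdsWithin_of_mem_nhds (ball_mem_nhds (0 : ℂ) hδ)]
    with w h1 h2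
  exact (hk ⟨h2, h1⟩).symm

theorem PreEx_one {F f φ : ℂ → ℂ} (hF : ∀ t : ℂ, 0 < t.im → HasDerivAt F (f t) t) {x : ℂ}
    (hx : x.im = 0) {δ : ℝ} (hδ : 0 < δ) (hφ : DifferentiableOn ℂ φ (ball 0 δ))
    (he : ∀ w ∈ ball (0 : ℂ) δ, 0 < w.im → φ w = f (x + w)) :
    ∃ y, Tendsto F (𝓝[{t : ℂ | 0 < t.im}] x) (𝓝 y) := by
  obtain ⟨y, hy⟩ := PreEx_core (U := fun w => F (x + w)) hδ
    (isOpen_lt continuous_const continuous_im) (convex_halfSpace_im_gt 0) hφ (fun w hw hs => by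
      have h1 : 0 < (x + w).im := by
        have : 0 < w.im := hs
        simpa [hx] using this
      rw [he w hw hs]
      exact (hF _ h1).comp_const_add x w)
  refine ⟨y, ?_⟩
  have h2 : Tendsto (fun t : ℂ => t - x) (𝓝[{t : ℂ | 0 < t.im}] x)
      (𝓝[{t : ℂ | 0 < t.im}] 0) := by
    refine tendsto_nhdsWithin_iff.2 ⟨?_, ?_⟩
    · have : Tendsto (fun t : ℂ => t - x) (𝓝 x) (𝓝 (x - x)) :=
        (continuous_id.sub continuous_const).tendsto x
      rw [sub_self] at this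
      exact this.mono_left nhdsWithin_le_nhds
    · filter_upwards [self_mem_nhdsWithin] with t ht
      have : 0 < t.im := ht
      simpa [hx] using this
  refine (hy.comp h2).congr fun t => ?_
  simp

theorem PreEx_root (z : ℂ) : ∃ w : ℂ, w ^ 2 = z ∧ (0 < z.im → 0 < w.re ∧ 0 < w.im) := by
  obtain ⟨w, hw⟩ : ∃ w : ℂ, w ^ 2 = z := ⟨_, cpow_nat_inv_pow z two_ne_zero⟩
  have him : z.im = 2 * (w.re * w.im) := by
    rw [← hw, pow_two, mul_im]; ring
  by_cases h : 0 < w.re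
  · refine ⟨w, hw, fun hz => ⟨h, ?_⟩⟩
    have : 0 < w.re * w.im := by linarith
    exact (pos_iff_pos_of_mul_pos this).1 h
  · refine ⟨-w, by rw [neg_sq, hw], fun hz => ?_⟩
    have h0 : 0 < w.re * w.im := by linarith
    rcases mul_pos_iff.1 h0 with h1 | h1
    · exact absurd h1.1 h
    · simp only [neg_re, neg_im]
      exact ⟨by linarith [h1.1], by linarith [h1.2]⟩

theorem PreEx_two {F f φ : ℂ → ℂ} (hF : ∀ t : ℂ, 0 < t.im → HasDerivAt F (f t) t) {x : ℂ}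
    (hx : x.im = 0) {δ : ℝ} (hδ : 0 < δ) (hφ : DifferentiableOn ℂ φ (ball 0 δ))
    (he : ∀ w ∈ ball (0 : ℂ) δ, 0 < w.re → 0 < w.im → φ w = f (x + w ^ 2) * (2 * w)) :
    ∃ y, Tendsto F (𝓝[{t : ℂ | 0 < t.im}] x) (𝓝 y) := by
  obtain ⟨y, hy⟩ := PreEx_core (U := fun w => F (x + w ^ 2))
    (s := {w : ℂ | 0 < w.re} ∩ {w : ℂ | 0 < w.im}) hδ
    ((isOpen_lt continuous_const continuous_re).inter (isOpen_lt continuous_const continuous_im))
    ((convex_halfSpace_re_gt 0).inter (convex_halfSpace_im_gt 0)) hφ (fun w hw hs => by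
      have a1 : 0 < w.re := hs.1
      have a2 : 0 < w.im := hs.2
      have h1 : 0 < (x + w ^ 2).im := by
        rw [add_im, hx, pow_two, mul_im]
        positivity
      rw [he w hw a1 a2]
      have h2 : HasDerivAt (fun w : ℂ => x + w ^ 2) (2 * w) w := by
        simpa using (hasDerivAt_pow 2 w).const_add x
      exact (hF _ h1).comp w h2)
  refine ⟨y, ?_⟩
  choose σ hσ hσ' using PreEx_root
  have h2 : Tendsto (fun t : ℂ => σ (t - x)) (𝓝[{t : ℂ | 0 < t.im}] x)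
      (𝓝[{w : ℂ | 0 < w.re} ∩ {w : ℂ | 0 < w.im}] 0) := by
    refine tendsto_nhdsWithin_iff.2 ⟨?_, ?_⟩
    · rw [tendsto_zero_iff_norm_tendsto_zero]
      have h3 : Tendsto (fun t : ℂ => √‖t - x‖) (𝓝 x) (𝓝 (√‖x - x‖)) :=
        ((continuous_id.sub continuous_const).norm.sqrt).tendsto x
      rw [sub_self, norm_zero, Real.sqrt_zero] at h3
      refine (h3.mono_left nhdsWithin_le_nhds).congr fun t => ?_
      rw [← hσ (t - x), norm_pow, Real.sqrt_sq (norm_nonneg _), hσ]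
    · filter_upwards [self_mem_nhdsWithin] with t ht
      have : 0 < t.im := ht
      exact hσ' (t - x) (by simpa [hx] using this)
  refine (hy.comp h2).congr fun t => ?_
  simp [hσ]

theorem Dat.Ok.exists_pre {D : Dat} (hD : D.Ok) : ∃ X, D.Pre X := by
  have hne : ∀ t : ℂ, 0 < t.im → t ≠ 0 := fun t ht h => by simp [h] at ht
  obtain ⟨F₁, hF₁⟩ := prim_upper (f := fun t => D.G t / t) (fun t ht =>
    ((Dat.G_diff ht).div differentiableAt_id (hne t ht)).differentiableWithinAt)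
  obtain ⟨F₂, hF₂⟩ := prim_upper (f := fun t => (D.G t * t)⁻¹) (fun t ht =>
    (((Dat.G_diff ht).mul differentiableAt_id).inv
      (mul_ne_zero (Dat.G_ne t) (hne t ht))).differentiableWithinAt)
  have hop : IsOpen {t : ℂ | 0 < t.im} := isOpen_lt continuous_const continuous_im
  have hX : ∀ t : ℂ, 0 < t.im →
      HasFDerivAt (fun w => F₁ w - conj (F₂ w)) (wl (D.G t / t) (D.G t * t)⁻¹) t :=
    fun t ht => hasFDerivAt_wl (hF₁ t ht) (hF₂ t ht)
  have hlim : ∀ x ∈ D.Q, (∃ y, Tendsto F₁ (𝓝[{t : ℂ | 0 < t.im}] x) (𝓝 y)) ∧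
      ∃ y, Tendsto F₂ (𝓝[{t : ℂ | 0 < t.im}] x) (𝓝 y) := by
    intro x hx
    rcases hx.1.lt_or_eq with h | h
    · exact ⟨⟨_, (hF₁ x h).continuousAt.tendsto.mono_left nhdsWithin_le_nhds⟩,
        ⟨_, (hF₂ x h).continuousAt.tendsto.mono_left nhdsWithin_le_nhds⟩⟩
    have h' : x.im = 0 := h.symm
    by_cases hP : D.P x = 0
    · have ha : D.IsA x := (Dat.P_eq_zero.1 hP).resolve_left hx.2
      obtain ⟨δ, g, H, hg⟩ := hD.par2 hP
      obtain ⟨φ₁, φ₂, d₁, d₂, -, -, e⟩ := H.formA hD ha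
      have key : ∀ w ∈ ball (0 : ℂ) δ, 0 < w.re → 0 < w.im →
          w ≠ 0 ∧ w * g (w ^ 2) * D.R (x + w ^ 2) = D.G (x + w ^ 2) := by
        intro w hw a1 a2
        have h0 := hne w a2
        refine ⟨h0, ?_⟩
        rw [hg w hw h0 a1.le a2.le, hD.G_eq ((H.on hw).2 h0)]
      exact ⟨PreEx_two hF₁ h' H.pos d₁ fun w hw a1 a2 => by
          rw [(e w hw (key w hw a1 a2).1).1, (key w hw a1 a2).2],
        PreEx_two hF₂ h' H.pos d₂ fun w hw a1 a2 => by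
          rw [(e w hw (key w hw a1 a2).1).2, (key w hw a1 a2).2]⟩
    · have hxr : x = (x.re : ℂ) := by
        apply Complex.ext <;> simp [h']
      obtain ⟨δ, g, H, hg, -⟩ := Dat.par1_Y (D := D) (x₀ := x.re) (by rwa [← hxr])
      rw [← hxr] at H hg
      obtain ⟨d₁, d₂, e⟩ := H.form hD
      have key : ∀ w ∈ ball (0 : ℂ) δ, 0 < w.im → g w * D.R (x + w) = D.G (x + w) := by
        intro w hw a2
        rw [hg w hw a2.le, hD.G_eq (e w hw).1]
      exact ⟨PreEx_one hF₁ h' H.pos d₁ fun w hw a2 => by rw [key w hw a2],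
        PreEx_one hF₂ h' H.pos d₂ fun w hw a2 => by rw [key w hw a2]⟩
  refine ⟨extendFrom {t : ℂ | 0 < t.im} fun w => F₁ w - conj (F₂ w), ?_, ?_⟩
  · refine continuousOn_extendFrom ?_ ?_
    · intro x hx
      rw [closure_setOfPred_lt_im]
      exact hx.1
    · intro x hx
      obtain ⟨⟨y₁, h₁⟩, ⟨y₂, h₂⟩⟩ := hlim x hx
      exact ⟨y₁ - conj y₂, h₁.sub ((continuous_conj.tendsto y₂).comp h₂)⟩
  · intro t ht
    refine (hX t ht).congr_of_eventuallyEq ?_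
    filter_upwards [hop.mem_nhds ht] with w hw
    exact extendFrom_extends (fun v hv => (hX v hv).continuousAt.continuousWithinAt) w hw

end Pool.Agent.MP_92463a_gt

end
end

section

open Set Complex Filter Metric
open scoped Topology ComplexConjugate ContDiff Manifold

noncomputable section

namespace Pool.Agent.MP_92463a_gt

namespace Dat

variable {D : Dat} {X : ℂ → ℂ}

theorem Seg_memQ {t : ℂ} (h0 : 0 ≤ t.im) (hP : D.P t ≠ 0) : t ∈ D.Q :=
  ⟨h0, fun h => hP (P_eq_zero.2 (Or.inl h))⟩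

theorem Seg_ne {t : ℂ} (hP : D.P t ≠ 0) : t ≠ 0 :=
  fun h => hP (P_eq_zero.2 (Or.inl (Or.inl h)))

theorem Seg_cont₁ : ContinuousOn (fun t => D.G t / t) {t | 0 ≤ t.im ∧ D.P t ≠ 0} :=
  G_cont.div continuousOn_id fun _ ht => Seg_ne ht.2

theorem Seg_cont₂ : ContinuousOn (fun t => (D.G t * t)⁻¹) {t | 0 ≤ t.im ∧ D.P t ≠ 0} :=
  (G_cont.mul continuousOn_id).inv₀ fun t ht => mul_ne_zero (G_ne t) (Seg_ne ht.2)

theorem Seg_path (hX : D.Pre X) {a b : ℝ} (hab : a ≤ b) {γ γ' : ℝ → ℂ}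
    (hγ : ∀ θ ∈ Icc a b, HasDerivAt γ (γ' θ) θ) (hγ' : ContinuousOn γ' (Icc a b))
    (hin : ∀ θ ∈ Ioo a b, 0 < (γ θ).im)
    (hP : ∀ θ ∈ Icc a b, 0 ≤ (γ θ).im ∧ D.P (γ θ) ≠ 0) :
    X (γ b) - X (γ a) = ∫ θ in a..b,
      (D.G (γ θ) / γ θ * γ' θ - conj ((D.G (γ θ) * γ θ)⁻¹ * γ' θ)) := by
  have hc : ContinuousOn γ (Icc a b) := fun θ hθ => (hγ θ hθ).continuousAt.continuousWithinAt
  have h1 : ContinuousOn (fun θ => D.G (γ θ) / γ θ) (Icc a b) := Seg_cont₁.comp hc hP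
  have h2 : ContinuousOn (fun θ => (D.G (γ θ) * γ θ)⁻¹) (Icc a b) := Seg_cont₂.comp hc hP
  symm
  refine intervalIntegral.integral_eq_sub_of_hasDerivAt_of_le (f := fun θ => X (γ θ)) hab
    (hX.cont.comp hc fun θ hθ => Seg_memQ (hP θ hθ).1 (hP θ hθ).2) (fun θ hθ => ?_) ?_
  · have h3 := (hX.der (γ θ) (hin θ hθ)).comp_hasDerivAt θ (hγ θ (Ioo_subset_Icc_self hθ))
    rw [wl_apply] at h3
    exact h3
  · refine ContinuousOn.intervalIntegrable ?_
    rw [uIcc_of_le hab]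
    exact (h1.mul hγ').sub (continuous_conj.comp_continuousOn (h2.mul hγ'))

theorem Seg_lin (hX : D.Pre X) {x x' : ℝ} (hle : x ≤ x') (hP : ∀ s ∈ Icc x x', D.P s ≠ 0)
    (L : ℂ →L[ℝ] ℝ) (hL : ∀ s ∈ Icc x x', L (D.G s / s - conj (D.G s * s)⁻¹) = 0) :
    L (X x) = L (X x') := by
  have hm : ∀ (s : ℝ), s ∈ Icc x x' → ∀ ε : ℝ, 0 ≤ ((s : ℂ) + (|ε| : ℝ) * I).im ∧
      D.P ((s : ℂ) + (|ε| : ℝ) * I) ≠ 0 := by
    intro s hs ε
    have h1 : ((s : ℂ) + (|ε| : ℝ) * I).im = |ε| := by simp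
    refine ⟨by rw [h1]; exact abs_nonneg ε, ?_⟩
    by_cases h0 : |ε| = 0
    · rw [h0]
      simpa using hP s hs
    · exact ne_of_im (by rw [h1]; exact h0)
  let c : ℝ → ℝ := fun s => max x (min x' s)
  have hc : ∀ s, c s ∈ Icc x x' := fun s => ⟨le_max_left _ _, max_le hle (min_le_left _ _)⟩
  have hc' : ∀ s ∈ Icc x x', c s = s := fun s hs => by
    simp only [c]
    rw [min_eq_right hs.2, max_eq_right hs.1]
  let F : ℂ → ℂ := fun t => D.G t / t - conj (D.G t * t)⁻¹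
  have hF : ContinuousOn F {t | 0 ≤ t.im ∧ D.P t ≠ 0} :=
    Seg_cont₁.sub (continuous_conj.comp_continuousOn Seg_cont₂)
  have hg : Continuous (Function.uncurry fun (ε s : ℝ) => F ((c s : ℂ) + (|ε| : ℝ) * I)) := by
    refine hF.comp_continuous (f := fun z : ℝ × ℝ => (c z.2 : ℂ) + (|z.1| : ℝ) * I) ?_
      fun z => hm _ (hc _) _
    simp only [c]
    fun_prop
  have hΦ := intervalIntegral.continuous_parametric_intervalIntegral_of_continuous'
    (μ := MeasureTheory.volume) hg x x'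
  have hX' : ∀ s ∈ Icc x x', Continuous fun ε : ℝ => X ((s : ℂ) + (|ε| : ℝ) * I) := fun s hs =>
    hX.cont.comp_continuous (f := fun ε : ℝ => (s : ℂ) + (|ε| : ℝ) * I) (by fun_prop)
      fun ε => Seg_memQ (hm s hs ε).1 (hm s hs ε).2
  have hΨ := (hX' x' ⟨hle, le_rfl⟩).sub (hX' x ⟨le_rfl, hle⟩)
  have heq : EqOn (fun ε : ℝ => X ((x' : ℂ) + (|ε| : ℝ) * I) - X ((x : ℂ) + (|ε| : ℝ) * I))
      (fun ε : ℝ => ∫ s in x..x', F ((c s : ℂ) + (|ε| : ℝ) * I)) (Ioi 0) := by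
    intro ε hε
    have h1 := Seg_path hX hle (γ := fun s : ℝ => (s : ℂ) + (|ε| : ℝ) * I) (γ' := fun _ => 1)
      (fun θ _ => (ofRealCLM.hasDerivAt (x := θ)).add_const _) continuousOn_const
      (fun θ _ => by simpa using ne_of_gt hε) fun θ hθ => hm θ hθ ε
    refine h1.trans (intervalIntegral.integral_congr fun s hs => ?_)
    rw [uIcc_of_le hle] at hs
    simp only [F, hc' s hs, mul_one]
  have h0 := heq.closure hΨ hΦ (x := 0) (by rw [closure_Ioi]; exact mem_Ici.2 le_rfl)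
  simp only [abs_zero, ofReal_zero, zero_mul, add_zero] at h0
  have hi : IntervalIntegrable (fun s : ℝ => F (c s)) MeasureTheory.volume x x' := by
    have := (hg.comp (f := fun s : ℝ => ((0 : ℝ), s)) (by fun_prop)).intervalIntegrable
      (μ := MeasureTheory.volume) x x'
    simpa [Function.comp_def] using this
  have h2 := L.intervalIntegral_comp_comm hi
  rw [← h0, map_sub, intervalIntegral.integral_congr (g := fun _ => 0)] at h2
  · simp only [intervalIntegral.integral_zero] at h2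
    linarith
  · intro s hs
    rw [uIcc_of_le hle] at hs
    simp only [F, hc' s hs]
    exact hL s hs

theorem Seg_re_ne {s : ℝ} (h : D.P s ≠ 0) : (D.P s).re ≠ 0 :=
  fun h0 => h (Complex.ext h0 (P_im s))

theorem Seg_sign {x x' : ℝ} (hP : ∀ s ∈ Icc x x', D.P s ≠ 0) {s s' : ℝ} (hs : s ∈ Icc x x')
    (hs' : s' ∈ Icc x x') (h : 0 < (D.P s).re) : 0 < (D.P s').re := by
  by_contra h'
  have hc : Continuous fun u : ℝ => (D.P u).re :=
    continuous_re.comp (P_diff.continuous.comp continuous_ofReal)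
  obtain ⟨u, hu, h0⟩ := isPreconnected_Icc.intermediate_value hs' hs hc.continuousOn
    (show (0 : ℝ) ∈ Icc _ _ from ⟨not_lt.1 h', h.le⟩)
  exact Seg_re_ne (hP u hu) h0

theorem Pre.path (hD : D.Ok) (hX : D.Pre X) {γ γ' : ℝ → ℂ}
    (hγ : ∀ θ ∈ Icc 0 Real.pi, HasDerivAt γ (γ' θ) θ) (hγ' : ContinuousOn γ' (Icc 0 Real.pi))
    (hin : ∀ θ ∈ Ioo 0 Real.pi, 0 < (γ θ).im)
    (hP : ∀ θ ∈ Icc 0 Real.pi, 0 ≤ (γ θ).im ∧ D.P (γ θ) ≠ 0) :
    X (γ Real.pi) - X (γ 0) = ∫ θ in (0 : ℝ)..Real.pi,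
      (D.G (γ θ) / γ θ * γ' θ - conj ((D.G (γ θ) * γ θ)⁻¹ * γ' θ)) := by
  have _ := hD
  exact Seg_path hX Real.pi_pos.le hγ hγ' hin hP

theorem Pre.seg (hD : D.Ok) (hX : D.Pre X) {x x' : ℝ} (hle : x ≤ x')
    (hP : ∀ s ∈ Icc x x', D.P s ≠ 0) : D.cst X x = D.cst X x' := by
  have hx : x ∈ Icc x x' := ⟨le_rfl, hle⟩
  have hx' : x' ∈ Icc x x' := ⟨hle, le_rfl⟩
  by_cases h : 0 < (D.P x).re
  · rw [cst, cst, if_pos h, if_pos (Seg_sign hP hx hx' h)]
    refine Seg_lin hX hle hP imCLM fun s hs => ?_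
    have h1 : (D.G s).im = 0 := by
      rw [hD.G_eq (hP s hs), mul_im, Y_im (Seg_sign hP hx hs h), R_im]
      simp
    simp [div_im, inv_im, h1]
  · rw [cst, cst, if_neg h, if_neg fun h' => h (Seg_sign hP hx' hx h')]
    refine Seg_lin hX hle hP reCLM fun s hs => ?_
    have h2 : (D.P s).re < 0 :=
      lt_of_le_of_ne (not_lt.1 fun h' => h (Seg_sign hP hs hx h')) (Seg_re_ne (hP s hs))
    have h1 : (D.G s).re = 0 := by
      rw [hD.G_eq (hP s hs), mul_re, Y_re h2, R_im]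
      simp
    simp [div_re, inv_re, h1]

theorem Pre.sol (hX : D.Pre X)
    (hc : ∀ x x' : ℝ, D.P x ≠ 0 → D.P x' ≠ 0 → (0 < (D.P x).re ↔ 0 < (D.P x').re) →
      D.cst X x = D.cst X x') : ∃ X', D.Sol X' := by
  have hne : ∀ x : ℝ, (D.P x).re ≠ 0 → D.P x ≠ 0 := fun x h h0 => h (by rw [h0, zero_re])
  have h2 : ∃ c₂ : ℝ, ∀ x : ℝ, 0 < (D.P x).re → (X x).im = c₂ := by
    by_cases h : ∃ x : ℝ, 0 < (D.P x).re
    · obtain ⟨x₀, h₀⟩ := h
      refine ⟨(X x₀).im, fun x hx => ?_⟩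
      have := hc x x₀ (hne x hx.ne') (hne x₀ h₀.ne') (iff_of_true hx h₀)
      rwa [cst, cst, if_pos hx, if_pos h₀] at this
    · exact ⟨0, fun x hx => absurd ⟨x, hx⟩ h⟩
  have h1 : ∃ c₁ : ℝ, ∀ x : ℝ, (D.P x).re < 0 → (X x).re = c₁ := by
    by_cases h : ∃ x : ℝ, (D.P x).re < 0
    · obtain ⟨x₀, h₀⟩ := h
      refine ⟨(X x₀).re, fun x hx => ?_⟩
      have := hc x x₀ (hne x hx.ne) (hne x₀ h₀.ne) (iff_of_false hx.le.not_gt h₀.le.not_gt)
      rwa [cst, cst, if_neg hx.le.not_gt, if_neg h₀.le.not_gt] at this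
    · exact ⟨0, fun x hx => absurd ⟨x, hx⟩ h⟩
  obtain ⟨c₁, h1⟩ := h1
  obtain ⟨c₂, h2⟩ := h2
  refine ⟨fun t => X t - ((c₁ : ℂ) + c₂ * I), ⟨hX.cont.sub continuousOn_const,
    fun t ht => (hX.der t ht).sub_const _⟩, fun x hx => ?_, fun x hx => ?_⟩
  · simp [h2 x hx]
  · simp [h1 x hx]

end Dat

end Pool.Agent.MP_92463a_gt

end
end
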