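import Pool.Agent.Mg.F92463a.Gea0143
import Pool.Agent.Mg.F92463a.G6119f0

section

open Set Complex Filter Metric
open scoped Topology ComplexConjugate ContDiff Manifold

noncomputable section

namespace Pool.Agent.MP_92463a_gt

/-! Chains of levels and handles. -/

/-- a level `(U, D)` or a handle `(κ, ν)` -/
structure RC where
  H : Bool
  x : ℝ
  y : ℝ

namespace RC

variable (c : RC)

def flip : RC := if c.H then ⟨true, c.x, c.y⁻¹⟩ else ⟨false, c.y, c.x⟩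

def a1 : ℝ := if c.H then c.y⁻¹ else -c.y

def a2 : ℝ := if c.H then (c.x * c.y)⁻¹ else c.y ^ 2 / c.x

def lam : ℝ := if c.H then c.x⁻¹ else c.x * c.y

def Ps : Prop := 0 < c.x ∧ 0 < c.y

/-- the boxes of the cells far away -/
def Far : Prop :=
  if c.H then 0.45 ≤ c.x ∧ 0.8 ≤ c.y else
    0 < c.x ∧ 0 < c.y ∧ c.y ≤ 0.22 ∧ c.y ^ 2 ≤ 0.35 * c.x ∧ c.x * c.y ≤ 0.045

end RC

/-- the factor of `G²` coming from a chain -/
def Phi : List RC → ℂ → ℂ
  | [], _ => 1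
  | c :: l, z =>
    if c.H then (1 - c.a1 * z) / (1 - c.a2 * z) * Phi l (c.lam * z)
    else (1 - c.a1 * z) ^ 3 / (1 - c.a2 * z) / Phi l (c.lam * z)

/-- half its logarithm -/
def Tl : List RC → ℂ → ℂ
  | [], _ => 0
  | c :: l, z =>
    if c.H then (log (1 - c.a1 * z) - log (1 - c.a2 * z)) / 2 + Tl l (c.lam * z)
    else (3 * log (1 - c.a1 * z) - log (1 - c.a2 * z)) / 2 - Tl l (c.lam * z)

def lamP (l : List RC) : ℝ := (l.map RC.lam).prod

def aL : List RC → ℝ → List ℝ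
  | [], _ => []
  | c :: l, Λ =>
    if c.H then (Λ * c.a2)⁻¹ :: (Λ * c.a1)⁻¹ :: aL l (Λ * c.lam) else (Λ * c.a2)⁻¹ :: aL l (Λ * c.lam)

def bL : List RC → ℝ → List ℝ
  | [], _ => []
  | c :: l, Λ => if c.H then bL l (Λ * c.lam) else (Λ * c.y)⁻¹ :: bL l (Λ * c.lam)

def nA : List Bool → ℕ
  | [] => 0
  | H :: l => if H then nA l + 2 else nA l + 1

def nB : List Bool → ℕ
  | [] => 0
  | H :: l => if H then nB l else nB l + 1

/-- the Weierstrass data of a chain -/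
def dat (L : List RC) : Dat where
  p := nA (L.map RC.H)
  q := nB (L.map RC.H)
  a i := (aL L 1).getD i 1
  b j := (bL L 1).getD j 1
  ρ := Real.exp (∑ i ∈ Finset.range (nA (L.map RC.H)), sg i * Real.log ((aL L 1).getD i 1) / 2 -
    ∑ j ∈ Finset.range (nB (L.map RC.H)), sg j * 3 * Real.log ((bL L 1).getD j 1) / 2)

/-- the normalised square of the Gauss map at a waist; `dn` is the lower chain, reversed and
flipped -/
def ZZ (up dn : List RC) (s : ℂ) : ℂ := s⁻¹ * Phi up s / Phi dn s⁻¹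

def rf (l : List RC) : List RC := l.reverse.map RC.flip

/-- the ends are far apart; `g` bounds the last end below -/
def Gap : ℝ → List RC → Prop
  | _, [] => True
  | g, c :: l => if c.H then Gap (g / c.x) l else 5 * g * c.y < 1 ∧ Gap c.x l

def Good : List RC → Prop
  | [] => True
  | c :: l => c.Far ∧ (c.H = true → ∀ d ∈ l.head?, d.H = false) ∧ Good l

def Tail (t : Bool) (l : List RC) : Prop := (t = false → l = []) ∧ Good l

/-- all points of the chain `l` are smaller than `r` -/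
def Sm : List RC → ℝ → ℝ → Prop
  | [], _, _ => True
  | c :: l, Λ, r => |Λ * c.a1| < r ∧ |Λ * c.a2| < r ∧ Sm l (Λ * c.lam) r

/-- position of a point: inside, left of, right of the circle, near the origin -/
inductive Dp
  | ins
  | lef
  | rig
  | low
  deriving DecidableEq

/-- `j = 0`: above the cell of the link, `j = 1`: the cell itself; `f`: first point of the cell -/
def disp (zin kd : Bool) : ℕ → Bool → Bool → Dp
  | 0, H, f => if f && !H then .lef else .rig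
  | 1, H, f => if f then (if kd then .ins else if H then .rig else .lef) else
      (if kd && !H then .rig else .ins)
  | _ + 2, _, _ => if zin then .ins else .lef

def Dp.At : Dp → ℝ → ℝ → ℝ → Prop
  | .ins, e, u, v => v < e ∧ e < u
  | .lef, e, _, v => e < v
  | .rig, e, u, _ => u < e
  | .low, e, u, v => |e| < u ∧ |e| < |v|

def PosU (zin kd : Bool) (u v : ℝ) : ℕ → List RC → ℝ → Prop
  | _, [], _ => True
  | j, c :: l, Λ => (disp zin kd j c.H true).At (Λ * c.a1)⁻¹ u v ∧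
      (disp zin kd j c.H false).At (Λ * c.a2)⁻¹ u v ∧ PosU zin kd u v (j - 1) l (Λ * c.lam)

/-- the segments joined by the link `kd` of a cell of type `H` above the cells `pre` -/
def lsu (pre : List Bool) (H kd : Bool) : ℕ :=
  if kd then (if H then nA pre + 2 else nA pre) else nA pre + 1

def lsv (pre : List Bool) (H kd : Bool) : Sg :=
  if kd then (if H then (false, nA pre) else (true, nB pre + 1)) else (true, nB pre)

/-- the integrand of a link -/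
def fI (Γ : ℂ → ℂ) (c : ℝ) (w : ℂ) : ℂ := (Γ w + (Γ w)⁻¹) * (w / (c + w))

def Fv (Γ : ℂ → ℂ) (c R : ℝ) : ℝ := (Real.circleAverage (fI Γ c) 0 R).re

end Pool.Agent.MP_92463a_gt

end
end

section

/-! A checker for the periods of chains: exact arithmetic at the nodes of the trapezoidal rule. -/

namespace Pool.Agent.MP_92463a_gt

/-- the Gaussian integer `(a - b) + (c - d) i` -/
structure G4 where
  a : ℕ
  b : ℕ
  c : ℕ
  d : ℕ

namespace G4

noncomputable def val (z : G4) : ℂ := (((z.a : ℝ) - z.b : ℝ) : ℂ) + (((z.c : ℝ) - z.d : ℝ) : ℂ) * Complex.I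

def nat (n : ℕ) : G4 := ⟨n, 0, 0, 0⟩

def int (n : ℤ) : G4 := ⟨n.toNat, (-n).toNat, 0, 0⟩

def add (u v : G4) : G4 := ⟨Nat.add u.a v.a, Nat.add u.b v.b, Nat.add u.c v.c, Nat.add u.d v.d⟩

def neg (u : G4) : G4 := ⟨u.b, u.a, u.d, u.c⟩

def sub (u v : G4) : G4 := ⟨Nat.add u.a v.b, Nat.add u.b v.a, Nat.add u.c v.d, Nat.add u.d v.c⟩

def cj (u : G4) : G4 := ⟨u.a, u.b, u.d, u.c⟩

def sm (n : ℕ) (u : G4) : G4 := ⟨Nat.mul n u.a, Nat.mul n u.b, Nat.mul n u.c, Nat.mul n u.d⟩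

def nz (u : G4) : G4 := ⟨Nat.sub u.a u.b, Nat.sub u.b u.a, Nat.sub u.c u.d, Nat.sub u.d u.c⟩

/-- positive and negative part of the real part of a product -/
def rp (u v : G4) : ℕ :=
  Nat.add (Nat.add (Nat.mul u.a v.a) (Nat.mul u.b v.b)) (Nat.add (Nat.mul u.c v.d) (Nat.mul u.d v.c))

def rn (u v : G4) : ℕ :=
  Nat.add (Nat.add (Nat.mul u.a v.b) (Nat.mul u.b v.a)) (Nat.add (Nat.mul u.c v.c) (Nat.mul u.d v.d))

def mul (u v : G4) : G4 := nz ⟨rp u v, rn u v,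
  Nat.add (Nat.add (Nat.mul u.a v.c) (Nat.mul u.b v.d)) (Nat.add (Nat.mul u.c v.a) (Nat.mul u.d v.b)),
  Nat.add (Nat.add (Nat.mul u.a v.d) (Nat.mul u.b v.c)) (Nat.add (Nat.mul u.c v.b) (Nat.mul u.d v.a))⟩

def pw (u : G4) : ℕ → G4
  | 0 => nat 1
  | n + 1 => mul (pw u n) u

def dv (u : G4) (n : ℕ) : G4 :=
  ⟨Nat.div (Nat.sub u.a u.b) n, Nat.div (Nat.sub u.b u.a) n, Nat.div (Nat.sub u.c u.d) n,
    Nat.div (Nat.sub u.d u.c) n⟩

def ax (u : G4) : ℕ := Nat.add (Nat.sub u.a u.b) (Nat.sub u.b u.a)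

def ay (u : G4) : ℕ := Nat.add (Nat.sub u.c u.d) (Nat.sub u.d u.c)

/-- the square of the norm -/
def n2 (u : G4) : ℕ := Nat.add (Nat.mul u.ax u.ax) (Nat.mul u.ay u.ay)

/-- an upper bound of the norm -/
def nr (u : G4) : ℕ :=
  Nat.add (Nat.add u.ax (Nat.sub u.ay u.ax))
    (Nat.add (Nat.div (Nat.mul 5 (Nat.sub u.ax (Nat.sub u.ax u.ay))) 12) 1)

/-- `2 ^ k u / v`, rounded -/
def qt (k : ℕ) (u v : G4) : G4 := dv (sm (Nat.pow 2 k) (mul u v.cj)) v.n2

end G4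

def isqI (n : ℕ) : ℕ → ℕ → ℕ
  | 0, x => x
  | k + 1, x => isqI n k (Nat.shiftRight (Nat.add x (Nat.div n x)) 1)

/-- an approximate square root -/
def isq (n : ℕ) : ℕ := isqI n 7 (Nat.pow 2 (Nat.add (Nat.div (Nat.log2 n) 2) 1))

def csq2 (p : G4) (g : ℕ) : G4 := ⟨g, 0, Nat.div p.c (Nat.mul 2 g), Nat.div p.d (Nat.mul 2 g)⟩

def csq1 (p : G4) : G4 := csq2 p (isq (Nat.shiftRight (Nat.sub (Nat.add (isq p.n2) p.a) p.b) 1))

/-- an approximation of `2 ^ 64 √(N / D)` -/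
def csq (N D : G4) : G4 := csq1 (G4.qt 128 N D)

def sqOk (g N D : G4) : Bool :=
  Nat.blt g.b g.a && Nat.blt 0 D.n2 &&
    Nat.ble (Nat.mul (((g.mul g).mul D).sub (G4.sm (Nat.pow 2 128) N)).n2 (Nat.pow 2 64))
      (Nat.mul (Nat.pow (Nat.sub g.a g.b) 4) D.n2)

/-- a point `± en / ed` with exponent `± 1/2` or `± 3/2` -/
structure AN where
  en : ℕ
  ed : ℕ
  ng : Bool
  dp : Dp
  up : Bool
  cube : Bool
  kk : ℕ

/-- its values at a node -/
structure AO where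
  up : Bool
  cube : Bool
  ps : G4
  dl : G4
  w : G4
  r : ℕ

def AN.psi (a : AN) (S : G4) : G4 :=
  G4.nz (cond a.ng ((G4.sm a.ed S).add (G4.nat (Nat.shiftLeft a.en 52)))
    ((G4.sm a.ed S).sub (G4.nat (Nat.shiftLeft a.en 52))))

def AN.u1 (a : AN) (p : G4) : G4 :=
  (G4.sm (Nat.shiftLeft a.en 92) (cond a.ng p.cj p.cj.neg)).dv p.n2

def AN.uu (a : AN) (p : G4) : G4 :=
  match a.dp with
  | .low => a.u1 p
  | _ => (G4.nat (Nat.pow 2 40)).sub (a.u1 p)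

def AN.ww (a : AN) (u : G4) : G4 :=
  cond a.up (cond a.cube (G4.sm 3 u) u) (cond a.cube (G4.sm 3 u) u).neg

def AN.ev2 (a : AN) (S Om : G4) (ns : ℕ) (p : G4) : AO where
  up := a.up
  cube := a.cube
  ps := match a.dp with
    | .rig => p.neg
    | _ => p
  dl := match a.dp with
    | .ins => G4.sm a.en Om
    | .low => G4.sm a.ed S
    | _ => G4.nat (Nat.shiftLeft a.en 52)
  w := a.ww (a.uu p)
  r := Nat.add (Nat.div (Nat.mul a.kk ns) p.n2) 4194304

def AN.ev (S Om : G4) (ns : ℕ) (a : AN) : AO := a.ev2 S Om ns (a.psi S)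

/-- products of numerators and denominators -/
structure PS where
  np : G4
  dp : G4
  nm : G4
  dm : G4
  a : G4
  b : G4
  r : ℕ

def PS.step (o : AO) (s : PS) : PS :=
  cond o.up
    ⟨s.np.mul o.ps, s.dp.mul o.dl, s.nm, s.dm, cond o.cube (s.a.mul o.ps) s.a,
      cond o.cube (s.b.mul o.dl) s.b, Nat.add s.r o.r⟩
    ⟨s.np, s.dp, s.nm.mul o.ps, s.dm.mul o.dl, cond o.cube (s.a.mul o.dl) s.a,
      cond o.cube (s.b.mul o.ps) s.b, Nat.add s.r o.r⟩

/-- a box of cells: centre `(x, y)`, logarithmic half widths `hx / 2 ^ 40`, `hy / 2 ^ 40` -/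
structure CB where
  H : Bool
  x : ℚ
  y : ℚ
  hx : ℕ
  hy : ℕ
  deriving DecidableEq

/-- the linear part: total weight, coefficients, bound -/
structure DR where
  t : G4
  ds : List G4
  lam : ℕ

def DR.cons (hx hy : ℕ) (t dx dy : G4) (s : DR) : DR :=
  ⟨t, dx :: dy :: s.ds, Nat.add (Nat.add (Nat.mul dx.nr hx) (Nat.mul dy.nr hy)) s.lam⟩

def DR.step (b : CB) (w1 w2 : G4) (s : DR) : DR :=
  cond b.H (DR.cons b.hx b.hy ((w1.add w2).add s.t) (s.t.add w2).neg (w1.add w2).neg s)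
    (DR.cons b.hx b.hy ((w1.add w2).add s.t) (s.t.sub w2) (((w1.add w2).add s.t).add w2) s)

def dRec : List CB → List AO → DR
  | b :: l, o1 :: o2 :: m => DR.step b o1.w o2.w (dRec l m)
  | _, _ => ⟨G4.nat 0, [], 0⟩

/-- the data of a link that the nodes use -/
structure LN where
  c : G4
  R : ℕ
  zin : Bool
  np : ℕ
  nm : ℕ
  bu : List CB
  bd : List CB
  au : List AN
  ad : List AN
  tu : ℕ
  td : ℕ

/-- the result at a node, or the sum over the nodes -/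
structure NO where
  ok : Bool
  fp : ℕ
  fn : ℕ
  ju : List (ℕ × ℕ)
  jd : List (ℕ × ℕ)
  r : ℕ

def errN (gp gm : G4) (ρ σ : ℕ) : ℕ :=
  Nat.add (Nat.add (Nat.pow 2 62)
    (Nat.add (Nat.shiftRight (Nat.mul (Nat.mul (Nat.add gp.nr 2) 9) (Nat.mul σ σ)) 64) 1))
    (Nat.mul (Nat.add gm.nr 2)
      (Nat.add (Nat.add (Nat.shiftRight (Nat.mul 3 (Nat.mul σ (Nat.mul σ σ))) 124) 1) ρ))

def node5 (ok : Bool) (gp gm : G4) (du dd : DR) (ρ σ : ℕ) : NO where
  ok := ok && Nat.ble σ (Nat.pow 2 60)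
  fp := gp.a
  fn := gp.b
  ju := du.ds.map fun d => (gm.rp d, gm.rn d)
  jd := dd.ds.map fun d => (gm.rp d, gm.rn d)
  r := errN gp gm ρ σ

def node4 (ok : Bool) (Om a b den : G4) (du dd : DR) (ρ : ℕ) : NO :=
  node5 (ok && Nat.blt 0 den.n2) (G4.qt 40 (((a.mul a).add (b.mul b)).mul Om) den)
    (G4.qt 40 (((a.mul a).sub (b.mul b)).mul Om) den) du dd ρ
    (Nat.add (Nat.add (Nat.shiftRight (Nat.add du.lam dd.lam) 21) 1) ρ)

def node3 (ok : Bool) (S Om a b : G4) (du dd : DR) (ρ : ℕ) : NO :=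
  node4 ok Om a b ((a.mul b).mul S) du dd ρ

def rhoN (L : LN) (S : G4) (ns r : ℕ) : ℕ :=
  Nat.add (Nat.add r 1073741826) (Nat.add (Nat.shiftRight (Nat.mul L.tu ns) 52)
    (Nat.div (Nat.shiftLeft (Nat.mul L.td ns) 52) S.n2))

def node2 (L : LN) (S Om : G4) (ns : ℕ) (p : PS) (gp gm : G4) (du dd : DR) : NO :=
  node3 (sqOk gp p.np p.dp && sqOk gm p.nm p.dm) S Om
    (G4.sm (Nat.pow 2 (Nat.mul 52 L.nm)) ((gp.mul p.a).mul (Om.pw L.np)))
    (G4.sm (Nat.pow 2 (Nat.mul 52 L.np)) ((gm.mul p.b).mul (Om.pw L.nm))) du dd (rhoN L S ns p.r)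

def node1 (L : LN) (S Om : G4) (ns : ℕ) (p : PS) (ou od : List AO) : NO :=
  node2 L S Om ns p (csq p.np p.dp) (csq p.nm p.dm) (dRec L.bu ou) (dRec L.bd od)

def ps0 (zin : Bool) (S Om : G4) : PS :=
  ⟨G4.nat 1, G4.nat 1, S, cond zin Om (G4.nat (Nat.pow 2 52)), G4.nat 1, G4.nat 1, 0⟩

def node0 (L : LN) (S Om : G4) (ns : ℕ) (ou od : List AO) : NO :=
  node1 L S Om ns (ou.foldr PS.step (od.foldr PS.step (ps0 L.zin S Om))) ou od

def nodeS (L : LN) (S Om : G4) : NO :=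
  node0 L S Om S.nr (L.au.map (AN.ev S Om S.nr)) (L.ad.map (AN.ev S Om S.nr))

/-- the node `ω = R Z / 2 ^ 52` -/
def node (L : LN) (Z : G4) : NO := nodeS L (L.c.add (G4.sm L.R Z)).nz (G4.sm L.R Z)

def addP (p q : ℕ × ℕ) : ℕ × ℕ := (Nat.add p.1 q.1, Nat.add p.2 q.2)

def NO.add (s t : NO) : NO :=
  ⟨s.ok && t.ok, Nat.add s.fp t.fp, Nat.add s.fn t.fn, List.zipWith addP s.ju t.ju,
    List.zipWith addP s.jd t.jd, Nat.add s.r t.r⟩

def nodes (L : LN) : List G4 → NO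
  | [] => ⟨true, 0, 0, List.replicate (2 * L.bu.length) (0, 0), List.replicate (2 * L.bd.length) (0, 0), 0⟩
  | Z :: l => (node L Z).add (nodes L l)

/-! The conditions on a link that do not depend on the node. -/

namespace CB

variable (b : CB)

def flip : CB := if b.H then ⟨true, b.x, b.y⁻¹, b.hx, b.hy⟩ else ⟨false, b.y, b.x, b.hy, b.hx⟩

def a1 : ℚ := if b.H then b.y⁻¹ else -b.y

def a2 : ℚ := if b.H then (b.x * b.y)⁻¹ else b.y ^ 2 / b.x

def lam : ℚ := if b.H then b.x⁻¹ else b.x * b.y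

def h1 : ℕ := b.hy

def h2 : ℕ := if b.H then b.hx + b.hy else b.hx + 2 * b.hy

def hl : ℕ := if b.H then b.hx else b.hx + b.hy

end CB

/-- the factor `1 - al z`, with `log al` known up to `h / 2 ^ 40` -/
structure AQ where
  al : ℚ
  dp : Dp
  up : Bool
  cube : Bool
  h : ℕ

def atQ (f : ℕ → Bool → Bool → Dp) : ℕ → List CB → ℚ → ℕ → Bool → List AQ
  | _, [], _, _, _ => []
  | j, b :: l, Λ, h, ε => ⟨Λ * b.a1, f j b.H true, ε, !b.H, h + b.h1⟩ ::
      ⟨Λ * b.a2, f j b.H false, !ε, false, h + b.h2⟩ ::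
      atQ f (j - 1) l (Λ * b.lam) (h + b.hl) (if b.H then ε else !ε)

/-- the circles `|s - c| = r1, R, r2` -/
structure Ge where
  c : ℚ
  R : ℚ
  r1 : ℚ
  r2 : ℚ
  zin : Bool

/-- bound of `exp (h / 2 ^ 40) - 1` -/
def eh (h : ℕ) : ℚ := h / 2 ^ 40 + (h / 2 ^ 40) ^ 2

/-- bound of `arcsin z` -/
def az (z : ℚ) : ℚ := z + 3 / 5 * z ^ 3

def qs (x : ℚ) : ℚ := ((isq ⌈x * 2 ^ 40⌉₊ + 1 : ℕ) : ℚ) / 2 ^ 20

namespace Ge

variable (g : Ge)

/-- lower and upper bound of `|s|` on the circle of radius `r` -/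
def sl (r : ℚ) : ℚ := if g.zin then r - |g.c| else g.c - r

def sh (r : ℚ) : ℚ := |g.c| + r

def smin : ℚ := if g.zin then g.r1 - |g.c| else g.c - g.r2

def Rlo : ℚ := g.R * (1 - 1 / 2 ^ 30)

def Rhi : ℚ := g.R * (1 + 1 / 2 ^ 30)

def z0 : ℚ := if g.zin then |g.c| / g.Rlo else g.Rhi / g.c

end Ge

namespace AQ

variable (a : AQ) (g : Ge)

def e : ℚ := if a.dp = .low then a.al else a.al⁻¹

def dist : ℚ :=
  match a.dp with
  | .ins => g.r1 - |g.c - a.e|
  | .lef => g.c - a.e - g.r2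
  | .rig => a.e - g.c - g.r2
  | .low => g.smin - |a.e|

def um : ℚ :=
  match a.dp with
  | .ins => 1 + |a.e| / a.dist g
  | .low => |a.e| / a.dist g
  | _ => g.sh g.r2 / a.dist g

def xx : ℚ := a.um g * eh a.h

def ex : ℚ := if a.cube then 3 else 1

def kap : ℚ := a.ex / 4 * (a.h / 2 ^ 40) ^ 2 * (1 + eh a.h) / (1 - a.xx g) ^ 2

def zR : ℚ :=
  match a.dp with
  | .ins => |g.c - a.e| / g.Rlo
  | .low => |a.e| / min (g.sl g.Rlo) (g.sl g.Rhi)
  | _ => g.Rhi / |g.c - a.e|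

def ok : Bool :=
  decide (a.al ≠ 0 ∧ a.h ≤ 2 ^ 40 ∧ 0 < a.dist g ∧ a.xx g ≤ 1 / 2 ∧ a.zR g ≤ 47 / 50)

def lo (r : ℚ) : ℚ := if a.dp = .low then 1 - |a.e| / g.sl r else abs (r - |g.c - a.e|) / |a.e|

def hi (r : ℚ) : ℚ := if a.dp = .low then 1 + |a.e| / g.sl r else (r + |g.c - a.e|) / |a.e|

def pw (x : ℚ) : ℚ := if a.cube then x ^ 3 else x

/-- bounds of the factor and of its inverse on the circle of radius `r` -/
def bp (r : ℚ) : ℚ := a.pw (if a.up then a.hi g r else (a.lo g r)⁻¹)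

def bm (r : ℚ) : ℚ := a.pw (if a.up then (a.lo g r)⁻¹ else a.hi g r)

def an : AN :=
  ⟨a.e.num.natAbs, a.e.den, decide (a.e < 0), a.dp, a.up, a.cube,
    ⌈a.kap g * 2 ^ 60⌉₊ * a.e.num.natAbs * a.e.den * 2 ^ 52⟩

/-- the exponent of `ω` -/
def wn : ℤ := if a.dp = .ins then (if a.up then 1 else -1) * (if a.cube then 3 else 1) else 0

end AQ

/-- the data of a link: reference cell, centre and radii in units of `2 ^ (-12)`, exponent -/
structure LK where
  ref : ℕ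
  c : ℤ
  R : ℕ
  r1 : ℕ
  r2 : ℕ
  np : ℕ
  nm : ℕ

def LK.ge (k : LK) (zin : Bool) : Ge := ⟨k.c / 2 ^ 12, k.R / 2 ^ 12, k.r1 / 2 ^ 12, k.r2 / 2 ^ 12, zin⟩

/-- bound of the scale of the tail -/
def lamT (t : Bool) (l : List CB) : ℚ :=
  if t then (l.map CB.lam).prod * (1 + eh (l.map CB.hl).sum) else 0

def sbd (g : Ge) (as : List AQ) (lu ld : ℚ) : ℚ :=
  (as.map fun a => 3 / 4 * a.ex * a.xx g).sum + 6 * (lu * g.sh g.r2 + ld / g.smin)

def g2p (g : Ge) (as : List AQ) (r : ℚ) : ℚ := (as.map fun a => a.bp g r).prod / g.sl r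

def g2m (g : Ge) (as : List AQ) (r : ℚ) : ℚ := (as.map fun a => a.bm g r).prod * g.sh r

def mbd (g : Ge) (as : List AQ) (sb r : ℚ) : ℚ :=
  (qs (g2p g as r) + qs (g2m g as r)) * (1 - sb / 4)⁻¹ ^ 4 * (r / g.sl r)

def sqQ (x : ℚ) : Bool := decide (x ≤ qs x ^ 2)

def quad (g : Ge) (n : ℕ) (M1 M2 : ℚ) : ℚ :=
  M1 * ((g.r1 / g.R) ^ (2 * n) / (1 - (g.r1 / g.R) ^ (2 * n))) +
    M2 * ((g.R / g.r2) ^ (2 * n) / (1 - (g.R / g.r2) ^ (2 * n))) +
    3 * (M1 + M2) * (g.R / 2 ^ 38) / min (g.R - g.r1) (g.r2 - g.R)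

def linkOk (g : Ge) (k : LK) (as : List AQ) (hu hd : ℕ) (lu ld : ℚ) : Bool :=
  as.all (fun a => a.ok g) &&
  decide (0 < g.r1 ∧ g.r1 < g.Rlo ∧ g.Rhi < g.r2 ∧ 0 < g.smin ∧ g.z0 ≤ 47 / 50 ∧
    hu ≤ 2 ^ 40 ∧ hd ≤ 2 ^ 40 ∧ 16 * (lu * g.sh g.r2) ≤ 1 ∧ 16 * ld ≤ g.smin ∧
    sbd g as lu ld ≤ 2 ∧
    ((as.filter fun a => a.up).map fun a => az (a.zR g)).sum ≤ 31 / 10 ∧
    az g.z0 + ((as.filter fun a => !a.up).map fun a => az (a.zR g)).sum ≤ 31 / 10 ∧
    2 * ((k.np : ℤ) - k.nm) = (as.map AQ.wn).sum - (if g.zin then 1 else 0)) &&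
  sqQ (g2p g as g.r1) && sqQ (g2m g as g.r1) && sqQ (g2p g as g.r2) && sqQ (g2m g as g.r2)

/-- value, gradient and error of a link, in units of `1 / (n 2 ^ 81)` -/
structure Out where
  F : ℤ
  J : List ℤ
  r : ℕ
  deriving DecidableEq

def pz (p : ℕ × ℕ) : ℤ := (p.1 : ℤ) - p.2

/-- the gradient with respect to the lower cells, in the order of the chain -/
def unfl : List CB → List ℤ → List ℤ
  | b :: l, x :: y :: m => unfl l m ++ (if b.H then [x, -y] else [y, x])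
  | _, _ => []

def link3 (n : ℕ) (ok : Bool) (bd : List CB) (q : ℚ) (o : NO) : Option Out :=
  if ok && o.ok then
    some ⟨((o.fp : ℤ) - o.fn) * 2 ^ 41, unfl bd (o.jd.map pz) ++ o.ju.map pz,
      o.r / 2 ^ 19 + 1 + ⌈q * (n * 2 ^ 81)⌉₊⟩
  else none

def link2 (tb : List G4) (k : LK) (g : Ge) (bu bd : List CB) (au ad : List AQ) (lu ld : ℚ) :
    Option Out :=
  link3 tb.length (linkOk g k (au ++ ad) (bu.map CB.hl).sum (bd.map CB.hl).sum lu ld) bd
    (quad g tb.length (mbd g (au ++ ad) (sbd g (au ++ ad) lu ld) g.r1)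
      (mbd g (au ++ ad) (sbd g (au ++ ad) lu ld) g.r2))
    (nodes ⟨G4.int (k.c * 2 ^ 40), k.R, g.zin, k.np, k.nm, bu, bd, au.map fun a => a.an g,
      ad.map fun a => a.an g, ⌈6 * lu * 2 ^ 60⌉₊, ⌈6 * ld * 2 ^ 60⌉₊⟩ tb)

def link1 (tb : List G4) (tl tu : Bool) (j : ℕ) (zin kd : Bool) (k : LK) (bu bd : List CB) :
    Option Out :=
  link2 tb k (k.ge zin) bu bd (atQ (disp zin kd) j bu 1 0 true)
    (atQ (fun _ _ _ => .low) 0 bd 1 0 false) (lamT tu bu) (lamT tl bd)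

def cb0 : CB := ⟨false, 1, 1, 0, 0⟩

def zinB (cells : List CB) (m : ℕ) (kd : Bool) : Bool := !((cells.getD m cb0).H && kd)

/-- the link `kd` of the cell `m` -/
def linkOut (tb : List G4) (cells : List CB) (tl tu : Bool) (m : ℕ) (kd : Bool) (k : LK) :
    Option Out :=
  if k.ref ≤ m ∧ m < cells.length then
    link1 tb tl tu (m - k.ref + 1) (zinB cells m kd) kd k (cells.drop k.ref)
      ((cells.take k.ref).reverse.map CB.flip)
  else none

/-! Blocks. -/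

structure Blk where
  cells : List CB
  lo : ℕ
  cnt : ℕ
  tl : Bool
  tu : Bool
  lks : List LK
  outs : List Out
  A : List (List ℤ)

def hLs : List CB → List ℕ
  | [] => []
  | b :: l => b.hx :: b.hy :: hLs l

def comb (n : ℕ) : List ℤ → List Out → Out
  | a :: l, o :: m =>
    ⟨a * o.F + (comb n l m).F, List.zipWith (fun x y => a * x + y) o.J (comb n l m).J,
      a.natAbs * o.r + (comb n l m).r⟩
  | _, _ => ⟨0, List.replicate n 0, 0⟩

def rowOk (hs : List ℕ) (i : ℕ) (o : Out) : Bool :=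
  decide ((((o.F.natAbs + o.r) * 2 ^ 40 + (List.zipWith (fun x h => x.natAbs * h) o.J hs).sum : ℕ) : ℤ) <
    2 * o.J.getD i 0 * (hs.getD i 0 : ℕ))

def Blk.chk (B : Blk) : Bool :=
  decide (B.lo + B.cnt ≤ B.cells.length ∧ B.outs.length = 2 * B.cnt ∧ B.A.length = 2 * B.cnt) &&
  B.cells.all (fun b => decide (0 < b.x ∧ 0 < b.y)) &&
  B.outs.all (fun o => decide (o.J.length = 2 * B.cells.length)) &&
  B.A.all (fun a => decide (a.length = 2 * B.cnt)) &&
  (List.range (2 * B.cnt)).all fun i =>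
    rowOk (hLs B.cells) (2 * B.lo + i) (comb (2 * B.cells.length) (B.A.getD i []) B.outs)

def lk0 : LK := ⟨0, 0, 0, 0, 0, 0, 0⟩

def out0 : Out := ⟨0, [], 0⟩

/-- the `i`-th link of a block has the recorded output -/
def Blk.lk (B : Blk) (tb : List G4) (i : ℕ) : Bool :=
  decide (linkOut tb B.cells B.tl B.tu (B.lo + i / 2) (decide (i % 2 = 1)) (B.lks.getD i lk0) =
    some (B.outs.getD i out0))

/-- the box `b` lies in the box `b'` -/
def CB.sub (b b' : CB) : Bool :=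
  decide (b.H = b'.H ∧ b.hx ≤ b'.hx ∧ b.hy ≤ b'.hy ∧
    b.x ≤ b'.x * (1 + ((b'.hx - b.hx : ℕ) : ℚ) / 2 ^ 40) ∧ b'.x ≤ b.x * (1 + ((b'.hx - b.hx : ℕ) : ℚ) / 2 ^ 40) ∧
    b.y ≤ b'.y * (1 + ((b'.hy - b.hy : ℕ) : ℚ) / 2 ^ 40) ∧ b'.y ≤ b.y * (1 + ((b'.hy - b.hy : ℕ) : ℚ) / 2 ^ 40))

def CB.small (b : CB) : Bool := decide (0 < b.x ∧ 0 < b.y ∧ b.hx ≤ 2 ^ 33 ∧ b.hy ≤ 2 ^ 33)

def CB.far (b : CB) : Bool :=
  if b.H then decide (46 / 100 ≤ b.x ∧ 81 / 100 ≤ b.y)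
  else decide (b.y ≤ 217 / 1000 ∧ b.y ^ 2 ≤ 336 / 1000 * b.x ∧ b.x * b.y ≤ 44 / 1000)

/-- conditions on three consecutive boxes -/
def CB.gap1 (a b : CB) : Bool := !(a.H && b.H) && (a.H || b.H || decide (52 / 10 * a.x * b.y < 1))

def CB.gap2 (a b c : CB) : Bool := !b.H || decide (52 / 10 * a.x * c.y < b.x)

def finChk (l : List CB) : Bool :=
  l.all CB.small && ((List.range l.length).all fun m =>
    (decide (l.length ≤ m + 1) || (l.getD m cb0).gap1 (l.getD (m + 1) cb0)) &&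
    (decide (l.length ≤ m + 2) || (l.getD m cb0).gap2 (l.getD (m + 1) cb0) (l.getD (m + 2) cb0)))

end Pool.Agent.MP_92463a_gt

end

section

open Set Complex Filter Metric
open scoped Topology ComplexConjugate ContDiff Manifold

noncomputable section

namespace Pool.Agent.MP_92463a_gt

/-! The meaning of the data of the checker. -/

/-- a cell in a box, given by its logarithmic deviations from the centre -/
structure DC where
  b : CB
  ξ : ℝ
  ζ : ℝ

namespace DC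

variable (d : DC)

def cell : RC := ⟨d.b.H, d.b.x * Real.exp d.ξ, d.b.y * Real.exp d.ζ⟩

def Ok : Prop := 0 < d.b.x ∧ 0 < d.b.y ∧ |d.ξ| ≤ d.b.hx / 2 ^ 40 ∧ |d.ζ| ≤ d.b.hy / 2 ^ 40

def flip : DC := if d.b.H then ⟨d.b.flip, d.ξ, -d.ζ⟩ else ⟨d.b.flip, d.ζ, d.ξ⟩

def e1 : ℝ := if d.b.H then -d.ζ else d.ζ

def e2 : ℝ := if d.b.H then -d.ξ - d.ζ else 2 * d.ζ - d.ξ

def el : ℝ := if d.b.H then -d.ξ else d.ξ + d.ζ

end DC

def devL : List DC → List ℝ
  | [] => []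
  | d :: l => d.ξ :: d.ζ :: devL l

/-- the deviations of the points -/
def etas : List DC → ℝ → List ℝ
  | [], _ => []
  | d :: l, η => (η + d.e1) :: (η + d.e2) :: etas l (η + d.el)

def dotZ (J : List ℤ) (v : List ℝ) : ℝ := (List.zipWith (fun (a : ℤ) x => (a : ℝ) * x) J v).sum

def dotG (J : List G4) (v : List ℝ) : ℂ := (List.zipWith (fun (a : G4) (x : ℝ) => a.val * (x : ℂ)) J v).sum

def TabOk (tb : List G4) : Prop :=
  0 < tb.length ∧ ∀ (k : ℕ) (hk : k < tb.length),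
    ‖tb[k].val / 2 ^ 40 - exp (Real.pi * (2 * k + 1) / (2 * tb.length) * I)‖ ≤ 1 / 2 ^ 38

def pm (ε : Bool) (z : ℂ) : ℂ := if ε then z else z⁻¹

def pmS (ε : Bool) (z : ℂ) : ℂ := if ε then z else -z

def epsL : List CB → Bool → Bool
  | [], ε => ε
  | b :: l, ε => epsL l (if b.H then ε else !ε)

namespace Ge

variable (g : Ge)

structure Ok : Prop where
  r1_pos : 0 < g.r1
  r1_lt : g.r1 < g.Rlo
  r2_gt : g.Rhi < g.r2
  smin_pos : 0 < g.smin
  z0_le : g.z0 ≤ 47 / 50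

def Ann (w : ℂ) : Prop := (g.r1 : ℝ) ≤ ‖w‖ ∧ ‖w‖ ≤ (g.r2 : ℝ)

def Thin (w : ℂ) : Prop := (g.Rlo : ℝ) ≤ ‖w‖ ∧ ‖w‖ ≤ (g.Rhi : ℝ)

def phi0 (w : ℂ) : ℂ := if g.zin then (g.c + w) / w else g.c + w

end Ge

namespace AQ

variable (a : AQ)

/-- twice the exponent -/
def sx : ℝ := (if a.up then 1 else -1) * a.ex

def zz (s : ℂ) : ℂ := if a.dp = .low then s⁻¹ else s

def F0 (s : ℂ) : ℂ := 1 - a.al * a.zz s

def phi (g : Ge) (w : ℂ) : ℂ :=
  match a.dp with
  | .ins => (g.c + w - a.e) / (((|a.e| : ℚ) : ℂ) * w)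
  | .lef => (g.c + w - a.e) / ((|a.e| : ℚ) : ℂ)
  | .rig => -(g.c + w - a.e) / ((|a.e| : ℚ) : ℂ)
  | .low => (g.c + w - a.e) / (g.c + w)

def uu (s : ℂ) : ℂ := if a.dp = .low then -a.e / (s - a.e) else s / (s - a.e)

def lg (η : ℝ) (s : ℂ) : ℂ := log (1 + a.uu s * ((Real.exp η - 1 : ℝ) : ℂ))

def zp (z : ℂ) : ℂ := pm a.up (if a.cube then z ^ 3 else z)

/-- the true point -/
def et (η : ℝ) : ℝ := if a.dp = .low then a.al * Real.exp η else (a.al * Real.exp η)⁻¹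

end AQ

def L0 (g : Ge) (as : List AQ) (w : ℂ) : ℂ :=
  -log (g.phi0 w) / 2 + (as.map fun a => (a.sx : ℂ) / 2 * log (a.phi g w)).sum

def SSum (as : List AQ) (es : List ℝ) (s : ℂ) : ℂ :=
  (List.zipWith (fun (a : AQ) η => (a.sx : ℂ) / 2 * a.lg η s) as es).sum

def Gam0 (g : Ge) (k : LK) (as : List AQ) (w : ℂ) : ℂ := w ^ k.np / w ^ k.nm * exp (L0 g as w)

/-- a link in a chain: explicit cells above and (flipped) below the waist, tails -/
structure LC where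
  k : LK
  zin : Bool
  kd : Bool
  j : ℕ
  tl : Bool
  tu : Bool
  du : List DC
  dd : List DC
  tU : List RC
  tD : List RC

namespace LC

variable (C : LC)

def g : Ge := C.k.ge C.zin

def bu : List CB := C.du.map DC.b

def bd : List CB := C.dd.map DC.b

def au : List AQ := atQ (disp C.zin C.kd) C.j C.bu 1 0 true

def ad : List AQ := atQ (fun _ _ _ => .low) 0 C.bd 1 0 false

def as : List AQ := C.au ++ C.ad

def es : List ℝ := etas C.du 0 ++ etas C.dd 0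

def up : List RC := C.du.map DC.cell ++ C.tU

def dn : List RC := C.dd.map DC.cell ++ C.tD

def lu : ℚ := lamT C.tu C.bu

def ld : ℚ := lamT C.tl C.bd

def T (s : ℂ) : ℂ :=
  pmS (epsL C.bu true) (Tl C.tU (lamP (C.du.map DC.cell) * s)) +
    pmS (epsL C.bd false) (Tl C.tD (lamP (C.dd.map DC.cell) * s⁻¹))

def Gam (w : ℂ) : ℂ := Gam0 C.g C.k C.as w * exp (SSum C.as C.es (C.g.c + w) + C.T (C.g.c + w))

def sb : ℚ := sbd C.g C.as C.lu C.ld

def ln : LN :=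
  ⟨G4.int (C.k.c * 2 ^ 40), C.k.R, C.g.zin, C.k.np, C.k.nm, C.bu, C.bd, C.au.map fun a => a.an C.g,
    C.ad.map fun a => a.an C.g, ⌈6 * C.lu * 2 ^ 60⌉₊, ⌈6 * C.ld * 2 ^ 60⌉₊⟩

structure Ok : Prop where
  oku : ∀ d ∈ C.du, d.Ok
  okd : ∀ d ∈ C.dd, d.Ok
  tlu : Tail C.tu C.tU
  tld : Tail C.tl C.tD
  jle : C.j ≤ C.du.length
  ge : C.g.Ok
  at' : ∀ a ∈ C.as, a.ok C.g = true
  hu : (C.bu.map CB.hl).sum ≤ 2 ^ 40
  hd : (C.bd.map CB.hl).sum ≤ 2 ^ 40
  lu' : 16 * (C.lu * C.g.sh C.g.r2) ≤ 1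
  ld' : 16 * C.ld ≤ C.g.smin
  sb' : C.sb ≤ 2
  gp : ((C.as.filter fun a => a.up).map fun a => az (a.zR C.g)).sum ≤ 31 / 10
  gm : az C.g.z0 + ((C.as.filter fun a => !a.up).map fun a => az (a.zR C.g)).sum ≤ 31 / 10
  wn : 2 * ((C.k.np : ℤ) - C.k.nm) = (C.as.map AQ.wn).sum - (if C.g.zin then 1 else 0)
  sq : ∀ r, r = C.g.r1 ∨ r = C.g.r2 →
    g2p C.g C.as r ≤ qs (g2p C.g C.as r) ^ 2 ∧ g2m C.g C.as r ≤ qs (g2m C.g C.as r) ^ 2

end LC

/-- the products represent `P`, `M`, `C` -/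
structure PS.Rep (p : PS) (P M C : ℂ) : Prop where
  dp : p.dp.val ≠ 0
  dm : p.dm.val ≠ 0
  b : p.b.val ≠ 0
  np : p.np.val = P * p.dp.val
  nm : p.nm.val = M * p.dm.val
  a : p.a.val = C * p.b.val

/-- the output of a point represents the factor `φ` -/
structure AO.Rep (o : AO) (a : AQ) (φ : ℂ) : Prop where
  up : o.up = a.up
  cube : o.cube = a.cube
  ne : φ ≠ 0
  dl : o.dl.val ≠ 0
  ps : o.ps.val = φ * o.dl.val

def NO.ev (o : NO) (vu vd : List ℝ) : ℝ :=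
  ((o.fp : ℝ) - o.fn) / 2 ^ 40 + (dotZ (o.ju.map pz) vu + dotZ (o.jd.map pz) vd) / 2 ^ 81

/-- what is known about a link -/
structure LF (up dn : List RC) (zin kd : Bool) (j : ℕ) (c R F : ℝ) : Prop where
  R_pos : 0 < R
  u_pos : 0 < c + R
  v_sg : if zin then c - R < 0 else 0 < c - R
  pu : PosU zin kd (c + R) (c - R) j up 1
  sm : Sm dn 1 (min (c + R) |c - R|)
  ex : ∃ Γ : ℂ → ℂ, ContinuousOn Γ (sphere 0 R) ∧
    (∀ w ∈ sphere (0 : ℂ) R, Γ w ≠ 0 ∧ Γ w ^ 4 = ZZ up dn (c + w) ^ 2) ∧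
    0 < (Γ R).re ∧ (Γ R).im = 0 ∧ Fv Γ c R = F

def Blk.Ok (B : Blk) : Prop := B.chk = true ∧ ∃ tb, TabOk tb ∧ ∀ i < 2 * B.cnt, B.lk tb i = true

/-- a chain of `n` boxes covered by blocks -/
structure Cert (n : ℕ) (Bx : ℕ → CB) (blk : ℕ → Blk) (off : ℕ → ℕ) : Prop where
  n_pos : 0 < n
  box : ∀ m < n, (Bx m).small = true
  gap1 : ∀ m, m + 1 < n → (Bx m).gap1 (Bx (m + 1)) = true
  gap2 : ∀ m, m + 2 < n → (Bx m).gap2 (Bx (m + 1)) (Bx (m + 2)) = true
  ok : ∀ m < n, (blk m).Ok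
  fit : ∀ m < n, off m + (blk m).lo ≤ m ∧ m < off m + (blk m).lo + (blk m).cnt ∧
    off m + (blk m).cells.length ≤ n
  same : ∀ m < n, ∀ m', off m + (blk m).lo ≤ m' → m' < off m + (blk m).lo + (blk m).cnt →
    blk m' = blk m ∧ off m' = off m
  inn : ∀ m < n, (blk m).cells.getD (m - off m) cb0 = Bx m
  sub : ∀ m < n, ∀ j < (blk m).cells.length, (Bx (off m + j)).sub ((blk m).cells.getD j cb0) = true
  low : ∀ m < n, ((blk m).tl = false → off m = 0) ∧ ∀ i < off m, (Bx i).flip.far = true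
  upp : ∀ m < n, ((blk m).tu = false → off m + (blk m).cells.length = n) ∧
    ∀ i, off m + (blk m).cells.length ≤ i → i < n → (Bx i).far = true

section
variable (n : ℕ) (Bx : ℕ → CB) (blk : ℕ → Blk) (off : ℕ → ℕ)

def gx (x : Fin n × Bool → ℝ) (m : ℕ) (b : Bool) : ℝ := if h : m < n then x (⟨m, h⟩, b) else 0

def gC (x : Fin n × Bool → ℝ) (m : ℕ) : RC :=
  DC.cell ⟨Bx m, (Bx m).hx / 2 ^ 40 * gx n x m false, (Bx m).hy / 2 ^ 40 * gx n x m true⟩

def gL (x : Fin n × Bool → ℝ) (m : ℕ) : List RC := (List.range m).map (gC n Bx x)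

def gH (m : ℕ) : List Bool := (List.range m).map fun i => (Bx i).H

/-- the number of a link or a variable in its block -/
def gi (m : ℕ) (b : Bool) : ℕ := 2 * (m - off m - (blk m).lo) + b.toNat

def gk (m : ℕ) (b : Bool) : LK := (blk m).lks.getD (gi blk off m b) lk0

def gu (x : Fin n × Bool → ℝ) (m : ℕ) (b : Bool) : ℝ :=
  (((gk blk off m b).c : ℝ) / 2 ^ 12 + ((gk blk off m b).R : ℝ) / 2 ^ 12) /
    lamP (gL n Bx x (off m + (gk blk off m b).ref))

def gv (x : Fin n × Bool → ℝ) (m : ℕ) (b : Bool) : ℝ :=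
  (((gk blk off m b).c : ℝ) / 2 ^ 12 - ((gk blk off m b).R : ℝ) / 2 ^ 12) /
    lamP (gL n Bx x (off m + (gk blk off m b).ref))

def gsu (m : ℕ) (b : Bool) : ℕ := lsu (gH Bx m) (Bx m).H b

def gsv (m : ℕ) (b : Bool) : Sg := lsv (gH Bx m) (Bx m).H b

/-- the period of a link -/
def gLk (x : Fin n × Bool → ℝ) (m : ℕ) (b : Bool) : ℝ :=
  Lk (dat (gL n Bx x n)).F1 (dat (gL n Bx x n)).F2 (Sg.ty (false, gsu Bx m b))
    (gu n Bx blk off x m b) (gv n Bx blk off x m b)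

/-- what is known about a link of the chain -/
def gLF (x : Fin n × Bool → ℝ) (m : ℕ) (b : Bool) (F : ℝ) : Prop :=
  off m + (gk blk off m b).ref ≤ m ∧
    LF ((List.range' (off m + (gk blk off m b).ref) (n - (off m + (gk blk off m b).ref))).map
        (gC n Bx x)) (rf (gL n Bx x (off m + (gk blk off m b).ref))) (!((Bx m).H && b)) b
      (m - (off m + (gk blk off m b).ref) + 1) (((gk blk off m b).c : ℝ) / 2 ^ 12)
      (((gk blk off m b).R : ℝ) / 2 ^ 12) F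

def gA (i j : Fin n × Bool) : ℝ :=
  if off i.1 + (blk i.1).lo = off j.1 + (blk j.1).lo then
    ((((blk i.1).A.getD (gi blk off i.1 i.2) []).getD (gi blk off j.1 j.2) 0 : ℤ) : ℝ) *
      sg (gsu Bx j.1 j.2)
  else 0

end

end Pool.Agent.MP_92463a_gt

end
end

section

open Set Complex Filter Metric
open scoped Topology ComplexConjugate ContDiff Manifold

noncomputable section

namespace Pool.Agent.MP_92463a_gt

theorem aL_length (l : List RC) (Λ : ℝ) : (aL l Λ).length = nA (l.map RC.H) := by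
  induction l generalizing Λ with
  | nil => rfl
  | cons c l ih => cases h : c.H <;> simp [aL, nA, h, ih]

theorem bL_length (l : List RC) (Λ : ℝ) : (bL l Λ).length = nB (l.map RC.H) := by
  induction l generalizing Λ with
  | nil => rfl
  | cons c l ih => cases h : c.H <;> simp [bL, nB, h, ih]

theorem nA_append (l t : List Bool) : nA (l ++ t) = nA l + nA t := by
  induction l with
  | nil => simp [nA]
  | cons c l ih => cases c <;> simp [nA, ih] <;> omega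

theorem nB_append (l t : List Bool) : nB (l ++ t) = nB l + nB t := by
  induction l with
  | nil => simp [nB]
  | cons c l ih => cases c <;> simp [nB, ih, Nat.add_right_comm]

theorem lamP_append (l t : List RC) : lamP (l ++ t) = lamP l * lamP t := by simp [lamP]

theorem lamP_cons (c : RC) (l : List RC) : lamP (c :: l) = c.lam * lamP l := by simp [lamP]

theorem RC.Ps.lam_pos {c : RC} (h : c.Ps) : 0 < c.lam := by
  unfold RC.lam
  split_ifs
  · exact inv_pos.2 h.1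
  · exact mul_pos h.1 h.2

theorem lamP_pos {l : List RC} (h : ∀ c ∈ l, c.Ps) : 0 < lamP l := by
  refine List.prod_pos fun a ha => ?_
  obtain ⟨c, hc, rfl⟩ := List.mem_map.1 ha
  exact (h c hc).lam_pos

theorem aL_append (l t : List RC) (Λ : ℝ) : aL (l ++ t) Λ = aL l Λ ++ aL t (Λ * lamP l) := by
  induction l generalizing Λ with
  | nil => simp [aL, lamP]
  | cons c l ih => cases h : c.H <;> simp [aL, h, ih, lamP_cons, mul_assoc]

theorem bL_append (l t : List RC) (Λ : ℝ) : bL (l ++ t) Λ = bL l Λ ++ bL t (Λ * lamP l) := by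
  induction l generalizing Λ with
  | nil => simp [bL, lamP]
  | cons c l ih => cases h : c.H <;> simp [bL, h, ih, lamP_cons, mul_assoc]

theorem aL_pos {l : List RC} (h : ∀ c ∈ l, c.Ps) {Λ : ℝ} (h0 : 0 < Λ) :
    ∀ a ∈ aL l Λ, 0 < a := by
  induction l generalizing Λ with
  | nil => simp [aL]
  | cons c l ih =>
    obtain ⟨hx, hy⟩ := h c List.mem_cons_self
    have h1 := ih (fun d hd => h d (List.mem_cons_of_mem _ hd))
      (mul_pos h0 (h c List.mem_cons_self).lam_pos)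
    cases hc : c.H
    · simp only [aL, RC.a2, hc, Bool.false_eq_true, if_false, List.forall_mem_cons]
      exact ⟨by positivity, h1⟩
    · simp only [aL, RC.a1, RC.a2, hc, if_true, List.forall_mem_cons]
      exact ⟨by positivity, by positivity, h1⟩

theorem bL_pos {l : List RC} (h : ∀ c ∈ l, c.Ps) {Λ : ℝ} (h0 : 0 < Λ) :
    ∀ b ∈ bL l Λ, 0 < b := by
  induction l generalizing Λ with
  | nil => simp [bL]
  | cons c l ih =>
    obtain ⟨hx, hy⟩ := h c List.mem_cons_self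
    have h1 := ih (fun d hd => h d (List.mem_cons_of_mem _ hd))
      (mul_pos h0 (h c List.mem_cons_self).lam_pos)
    cases hc : c.H
    · simp only [bL, hc, Bool.false_eq_true, if_false, List.forall_mem_cons]
      exact ⟨by positivity, h1⟩
    · simp only [bL, hc, if_true]
      exact h1

/-- `z` or its inverse -/
def HdP1_pw (i : ℕ) (z : ℂ) : ℂ := if Even i then z else z⁻¹

theorem HdP1_zero (z : ℂ) : HdP1_pw 0 z = z := if_pos Even.zero

theorem HdP1_succ (i : ℕ) (z : ℂ) : HdP1_pw (i + 1) z = (HdP1_pw i z)⁻¹ := by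
  unfold HdP1_pw
  by_cases h : Even i <;> simp [Nat.even_add_one, h]

theorem HdP1_exp (i : ℕ) (z : ℂ) : exp (sg i * z) = HdP1_pw i (exp z) := by
  unfold HdP1_pw sg
  split_ifs with h
  · simp [h.neg_one_pow]
  · simp [(Nat.not_even_iff_odd.1 h).neg_one_pow, exp_neg]

theorem HdP1_phi (t : ℂ) (l : List RC) (Λ : ℝ) :
    (∏ j ∈ Finset.range (nB (l.map RC.H)), HdP1_pw j ((1 + t / ((bL l Λ).getD j 1 : ℝ)) ^ 3)) *
      ∏ i ∈ Finset.range (nA (l.map RC.H)), HdP1_pw i (1 - t / ((aL l Λ).getD i 1 : ℝ))⁻¹ =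
      Phi l (Λ * t) := by
  induction l generalizing Λ with
  | nil => simp [nA, nB, Phi]
  | cons c l ih =>
    have h1 := ih (Λ * c.lam)
    rw [show ((Λ * c.lam : ℝ) : ℂ) * t = c.lam * (Λ * t) by push_cast; ring] at h1
    cases hc : c.H
    · simp only [aL, bL, nA, nB, Phi, RC.a1, List.map_cons, hc, Bool.false_eq_true, if_false,
        Finset.prod_range_succ', List.getD_cons_succ, List.getD_cons_zero, HdP1_succ, HdP1_zero,
        Finset.prod_inv_distrib, ← h1, ofReal_inv, div_inv_eq_mul, ofReal_mul, ofReal_neg]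
      rw [div_eq_mul_inv, div_eq_mul_inv, mul_inv]
      ring
    · simp only [aL, bL, nA, nB, Phi, List.map_cons, hc, if_true,
        Finset.prod_range_succ', List.getD_cons_succ, List.getD_cons_zero, HdP1_succ, HdP1_zero,
        inv_inv, ← h1, ofReal_inv, div_inv_eq_mul, ofReal_mul]
      rw [div_eq_mul_inv]
      ring

theorem HdP1_getD {l : List ℝ} (h : ∀ a ∈ l, 0 < a) (i : ℕ) : 0 < l.getD i 1 := by
  rw [List.getD_eq_getElem?_getD]
  rcases hi : l[i]? with _ | a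
  · exact one_pos
  · exact h a (List.mem_of_getElem? hi)

theorem HdP1_sq (D : Dat) (ha : ∀ i, 0 < D.a i) (hb : ∀ j, 0 < D.b j)
    (hρ : D.ρ = Real.exp (∑ i ∈ Finset.range D.p, sg i * Real.log (D.a i) / 2 -
      ∑ j ∈ Finset.range D.q, sg j * 3 * Real.log (D.b j) / 2)) {t : ℂ} (ht : D.P t ≠ 0) :
    D.P t * D.R t ^ 2 = t⁻¹ * ((∏ j ∈ Finset.range D.q, HdP1_pw j ((1 + t / D.b j) ^ 3)) *
      ∏ i ∈ Finset.range D.p, HdP1_pw i (1 - t / D.a i)⁻¹) := by
  obtain ⟨h1, h2⟩ := mul_ne_zero_iff.1 ht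
  obtain ⟨h0, h1⟩ := mul_ne_zero_iff.1 h1
  have e : (D.ρ : ℂ) ^ 2 = (∏ i ∈ Finset.range D.p, HdP1_pw i (D.a i)) *
      ∏ j ∈ Finset.range D.q, HdP1_pw j ((D.b j : ℂ) ^ 3)⁻¹ := by
    rw [hρ, ofReal_exp, ← exp_nat_mul, ofReal_sub, mul_sub, sub_eq_add_neg, exp_add, ofReal_sum,
      ofReal_sum, Finset.mul_sum, Finset.mul_sum, ← Finset.sum_neg_distrib, exp_sum, exp_sum]
    congr 1
    · refine Finset.prod_congr rfl fun i _ => ?_
      conv_rhs => rw [← Real.exp_log (ha i), ofReal_exp, ← HdP1_exp]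
      congr 1
      push_cast
      ring
    · refine Finset.prod_congr rfl fun j _ => ?_
      conv_rhs => rw [← Real.exp_log (hb j), ofReal_exp, ← exp_nat_mul, ← exp_neg, ← HdP1_exp]
      congr 1
      push_cast
      ring
  have e1 : ∏ j ∈ Finset.range D.q, HdP1_pw j ((1 + t / D.b j) ^ 3) =
      ∏ j ∈ Finset.range D.q, HdP1_pw j ((D.b j : ℂ) ^ 3)⁻¹ * ((t + D.b j) *
        (if Even j then t + D.b j else ((t + D.b j) ^ 2)⁻¹) ^ 2) :=
    Finset.prod_congr rfl fun j hj => by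
      have h3 := Finset.prod_ne_zero_iff.1 h1 j hj
      have h4 : (D.b j : ℂ) ≠ 0 := ofReal_ne_zero.2 (hb j).ne'
      rw [show 1 + t / D.b j = (t + D.b j) / D.b j by field_simp; ring]
      unfold HdP1_pw
      split_ifs <;> field_simp
  have e2 : ∏ i ∈ Finset.range D.p, HdP1_pw i (1 - t / D.a i)⁻¹ =
      ∏ i ∈ Finset.range D.p, HdP1_pw i (D.a i) * ((D.a i - t) *
        (if Even i then (D.a i - t)⁻¹ else 1) ^ 2) :=
    Finset.prod_congr rfl fun i hi => by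
      have h3 := Finset.prod_ne_zero_iff.1 h2 i hi
      have h4 : (D.a i : ℂ) ≠ 0 := ofReal_ne_zero.2 (ha i).ne'
      rw [show 1 - t / D.a i = (D.a i - t) / D.a i by field_simp]
      unfold HdP1_pw
      split_ifs <;> field_simp
  rw [e1, e2, Dat.P, Dat.R, mul_pow, mul_pow, div_pow, e]
  simp only [Finset.prod_mul_distrib, Finset.prod_pow]
  field_simp

theorem dat_sq {L : List RC} (h : ∀ c ∈ L, c.Ps) {t : ℂ} (ht : (dat L).P t ≠ 0) :
    (dat L).P t * (dat L).R t ^ 2 = t⁻¹ * Phi L t := by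
  have h1 := HdP1_phi t L 1
  rw [ofReal_one, one_mul] at h1
  rw [← h1]
  exact HdP1_sq (dat L) (HdP1_getD (aL_pos h one_pos)) (HdP1_getD (bL_pos h one_pos)) rfl ht

end Pool.Agent.MP_92463a_gt

end
end

section

open Set Complex Filter Metric
open scoped Topology ComplexConjugate ContDiff Manifold

noncomputable section

namespace Pool.Agent.MP_92463a_gt

theorem HdC1_exp {S : ℂ} (h : ‖S‖ ≤ 1) :
    ‖exp S - (1 + S + S ^ 2 / 2 + S ^ 3 / 6 + S ^ 4 / 24)‖ ≤ ‖S‖ ^ 5 / 100 := by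
  have h1 := Complex.exp_bound h (n := 5) (by norm_num)
  simp only [Finset.sum_range_succ, Finset.sum_range_zero, Nat.factorial] at h1
  convert h1 using 2
  · push_cast
    ring
  · norm_num
    ring

theorem HdC1_ch {S : ℂ} {σ : ℝ} (h : ‖S‖ ≤ σ) (hσ : σ ≤ 1) :
    ‖(exp S + exp (-S)) / 2 - 1‖ ≤ 9 / 16 * σ ^ 2 ∧
      ‖(exp S - exp (-S)) / 2 - S‖ ≤ 3 / 16 * σ ^ 3 := by
  have h0 := norm_nonneg S
  have h1 := HdC1_exp (h.trans hσ)
  have h2 := HdC1_exp (S := -S) (by rw [norm_neg]; exact h.trans hσ)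
  rw [norm_neg] at h2
  generalize hA : exp S - (1 + S + S ^ 2 / 2 + S ^ 3 / 6 + S ^ 4 / 24) = A at h1
  generalize hB : exp (-S) - (1 + -S + (-S) ^ 2 / 2 + (-S) ^ 3 / 6 + (-S) ^ 4 / 24) = B at h2
  have p2 : ‖S‖ ^ 2 ≤ σ ^ 2 := pow_le_pow_left₀ h0 h 2
  have p3 : ‖S‖ ^ 3 ≤ σ ^ 3 := pow_le_pow_left₀ h0 h 3
  have p4 : ‖S‖ ^ 4 ≤ ‖S‖ ^ 2 := pow_le_pow_of_le_one h0 (h.trans hσ) (by norm_num)
  have p5 : ‖S‖ ^ 5 ≤ ‖S‖ ^ 2 := pow_le_pow_of_le_one h0 (h.trans hσ) (by norm_num)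
  have p6 : ‖S‖ ^ 5 ≤ ‖S‖ ^ 3 := pow_le_pow_of_le_one h0 (h.trans hσ) (by norm_num)
  have q2 : 0 ≤ ‖S‖ ^ 2 := by positivity
  have q3 : 0 ≤ ‖S‖ ^ 3 := by positivity
  constructor
  · have e : (exp S + exp (-S)) / 2 - 1 = S ^ 2 / 2 + S ^ 4 / 24 + (A + B) / 2 := by
      rw [← hA, ← hB]
      ring
    have b1 := norm_add₃_le (a := S ^ 2 / 2) (b := S ^ 4 / 24) (c := (A + B) / 2)
    have b2 := norm_add_le A B
    simp only [norm_div, norm_pow, Complex.norm_ofNat] at b1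
    rw [e]
    linarith
  · have e : (exp S - exp (-S)) / 2 - S = S ^ 3 / 6 + (A - B) / 2 := by
      rw [← hA, ← hB]
      ring
    have b1 := norm_add_le (S ^ 3 / 6) ((A - B) / 2)
    have b2 := norm_sub_le A B
    simp only [norm_div, norm_pow, Complex.norm_ofNat] at b1
    rw [e]
    linarith

theorem HdC1_e1 {t h : ℝ} (ht : |t| ≤ h) :
    |Real.exp t - 1| ≤ Real.exp h - 1 ∧ |Real.exp t - 1| ≤ |t| * Real.exp h := by
  have h0 := (abs_nonneg t).trans ht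
  have h1 := Real.add_one_le_exp t
  have h2 := Real.add_one_le_exp h
  have h3 := Real.exp_le_exp.2 (abs_le.1 ht).2
  rcases le_total 0 t with h4 | h4
  · have h5 := mul_le_mul_of_nonneg_right (Real.add_one_le_exp (-t)) (Real.exp_pos t).le
    rw [← Real.exp_add, neg_add_cancel, Real.exp_zero] at h5
    have h6 := mul_le_mul_of_nonneg_left h3 h4
    rw [abs_of_nonneg h4, abs_of_nonneg (by linarith)]
    exact ⟨by linarith, by linarith⟩
  · have h5 := Real.exp_le_one_iff.2 h4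
    rw [abs_of_nonpos h4] at ht ⊢
    have h6 := mul_le_mul_of_nonneg_left (show 1 ≤ Real.exp h by linarith) (neg_nonneg.2 h4)
    rw [abs_of_nonpos (by linarith)]
    exact ⟨by linarith, by linarith⟩

theorem node_exp {γ q S L gp gm : ℂ} {δ ρ σ : ℝ} (hγ : γ ≠ 0) (hp : ‖gp - (γ + γ⁻¹) * q‖ ≤ δ)
    (hm : ‖gm - (γ - γ⁻¹) * q‖ ≤ δ) (hS : ‖S - L‖ ≤ ρ) (hL : ‖L‖ + ρ ≤ σ) (hσ : σ ≤ 1) :
    |((γ * exp S + (γ * exp S)⁻¹) * q).re - gp.re - (gm * L).re| ≤
      2 * δ + (‖gp‖ + δ) * (9 / 16 * σ ^ 2) + (‖gm‖ + δ) * (3 / 16 * σ ^ 3 + ρ) := by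
  have l0 := norm_nonneg L
  have r0 := (norm_nonneg _).trans hS
  have d0 := (norm_nonneg _).trans hp
  have h1 : ‖S‖ ≤ σ := by
    have := norm_le_insert' S L
    linarith
  obtain ⟨c1, c2⟩ := HdC1_ch h1 hσ
  have n1 : ‖(γ + γ⁻¹) * q‖ ≤ ‖gp‖ + δ := by
    have := norm_le_insert gp ((γ + γ⁻¹) * q)
    linarith
  have n2 : ‖(γ - γ⁻¹) * q‖ ≤ ‖gm‖ + δ := by
    have := norm_le_insert gm ((γ - γ⁻¹) * q)
    linarith
  have e : (γ * exp S + (γ * exp S)⁻¹) * q - gp - gm * L =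
      -(gp - (γ + γ⁻¹) * q) + (γ + γ⁻¹) * q * ((exp S + exp (-S)) / 2 - 1) +
        ((γ - γ⁻¹) * q * (((exp S - exp (-S)) / 2 - S) + (S - L)) +
          -(gm - (γ - γ⁻¹) * q) * L) := by
    rw [mul_inv, ← exp_neg]
    ring
  rw [← sub_re, ← sub_re, e]
  refine (abs_re_le_norm _).trans (norm_add₃_le.trans ?_)
  have b1 := norm_add_le ((γ - γ⁻¹) * q * (((exp S - exp (-S)) / 2 - S) + (S - L)))
    (-(gm - (γ - γ⁻¹) * q) * L)
  have b2 := mul_le_mul n1 c1 (norm_nonneg _) ((norm_nonneg _).trans n1)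
  have b3 := mul_le_mul n2 ((norm_add_le _ _).trans (add_le_add c2 hS)) (norm_nonneg _)
    ((norm_nonneg _).trans n2)
  have b4 := mul_le_mul hm (show ‖L‖ ≤ 1 by linarith) l0 d0
  rw [norm_mul _ (_ + _), norm_mul _ L, norm_neg] at b1
  rw [norm_neg, norm_mul _ (_ - _)]
  linarith

theorem atom_log {u : ℂ} {η h E x : ℝ} (hη : |η| ≤ h) (hE : Real.exp h - 1 ≤ E) (hx : ‖u‖ * E ≤ x)
    (hx1 : x < 1) : ‖log (1 + u * ((Real.exp η - 1 : ℝ) : ℂ)) - u * η‖ ≤
      h ^ 2 / 2 * ‖u * (1 - u)‖ * (1 + E) / (1 - x) ^ 2 := by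
  have h0 := (abs_nonneg η).trans hη
  have hE0 : 0 ≤ E := by linarith [Real.add_one_le_exp h]
  have hx0 : 0 ≤ x := (mul_nonneg (norm_nonneg u) hE0).trans hx
  have hb : ∀ s ∈ Icc (0 : ℝ) 1, |s * η| ≤ s * h := fun s hs => by
    rw [abs_mul, abs_of_nonneg hs.1]
    exact mul_le_mul_of_nonneg_left hη hs.1
  have hb' : ∀ s ∈ Icc (0 : ℝ) 1, |s * η| ≤ h := fun s hs =>
    (hb s hs).trans (mul_le_of_le_one_left h0 hs.2)
  have hn : ∀ s ∈ Icc (0 : ℝ) 1, ‖u * ((Real.exp (s * η) - 1 : ℝ) : ℂ)‖ ≤ x := fun s hs => by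
    rw [norm_mul, Complex.norm_real, Real.norm_eq_abs]
    exact (mul_le_mul_of_nonneg_left ((HdC1_e1 (hb' s hs)).1.trans hE) (norm_nonneg u)).trans hx
  have hd : ∀ s ∈ Icc (0 : ℝ) 1, HasDerivAt
      (fun s : ℝ => log (1 + u * ((Real.exp (s * η) - 1 : ℝ) : ℂ)) - u * ((s * η : ℝ) : ℂ))
      (η * (u * (1 - u)) * ((Real.exp (s * η) - 1 : ℝ) : ℂ) /
        (1 + u * ((Real.exp (s * η) - 1 : ℝ) : ℂ))) s := fun s hs => by
    have hsl := mem_slitPlane_of_norm_lt_one ((hn s hs).trans_lt hx1)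
    have d1 : HasDerivAt (fun s : ℝ => s * η) η s := hasDerivAt_mul_const η
    have d2 := ((((d1.exp.sub_const 1).ofReal_comp.const_mul u).const_add 1).clog_real hsl).sub
      (d1.ofReal_comp.const_mul u)
    have hne := slitPlane_ne_zero hsl
    refine d2.congr_deriv ?_
    rw [div_sub' hne]
    congr 1
    push_cast
    ring
  have h1 : 0 < 1 - x := by linarith
  obtain ⟨M, hM⟩ : ∃ M, M = h ^ 2 / 2 * ‖u * (1 - u)‖ * (1 + E) / (1 - x) ^ 2 := ⟨_, rfl⟩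
  have key := image_norm_le_of_norm_deriv_right_le_deriv_boundary
    (fun s hs => (hd s hs).continuousAt.continuousWithinAt)
    (fun s hs => (hd s (Ico_subset_Icc_self hs)).hasDerivWithinAt)
    (B := fun s => M * s ^ 2) (B' := fun s => M * (2 * s)) (by simp)
    (fun s => by simpa using (hasDerivAt_pow 2 s).const_mul M) (fun s hs => by
      have hs' := Ico_subset_Icc_self hs
      have a1 : 1 - x ≤ ‖1 + u * ((Real.exp (s * η) - 1 : ℝ) : ℂ)‖ := by
        have := norm_le_add_norm_add (1 : ℂ) (u * ((Real.exp (s * η) - 1 : ℝ) : ℂ))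
        rw [norm_one] at this
        linarith [hn s hs']
      have a2 : |Real.exp (s * η) - 1| ≤ s * h * (1 + E) :=
        (HdC1_e1 (hb' s hs')).2.trans (mul_le_mul (hb s hs') (by linarith) (Real.exp_pos h).le
          (mul_nonneg hs.1 h0))
      have a3 : (1 - x) ^ 2 ≤ 1 - x := by nlinarith
      have s0 := hs.1
      rw [norm_div, norm_mul, norm_mul, Complex.norm_real, Complex.norm_real, Real.norm_eq_abs,
        Real.norm_eq_abs, hM, show h ^ 2 / 2 * ‖u * (1 - u)‖ * (1 + E) / (1 - x) ^ 2 * (2 * s) =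
          h * ‖u * (1 - u)‖ * (s * h * (1 + E)) / (1 - x) ^ 2 by ring]
      refine div_le_div₀ (by positivity) ?_ (by positivity) (a3.trans a1)
      gcongr) (right_mem_Icc.2 zero_le_one)
  simpa [hM] using key

theorem eh_bound {h : ℕ} (hh : h ≤ 2 ^ 40) {η : ℝ} (hη : |η| ≤ h / 2 ^ 40) :
    |Real.exp η - 1| ≤ (eh h : ℝ) ∧ Real.exp (h / 2 ^ 40) - 1 ≤ (eh h : ℝ) := by
  have h0 : (0 : ℝ) ≤ h / 2 ^ 40 := by positivity
  have h1 : (h / 2 ^ 40 : ℝ) ≤ 1 := by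
    rw [div_le_one (by positivity)]
    exact_mod_cast hh
  have h2 : Real.exp (h / 2 ^ 40) - 1 ≤ (eh h : ℝ) := by
    have := (abs_le.1 (Real.abs_exp_sub_one_sub_id_le ((abs_of_nonneg h0).trans_le h1))).2
    rw [eh]
    push_cast
    linarith
  exact ⟨(HdC1_e1 hη).1.trans h2, h2⟩

theorem exp_sb {x : ℝ} (hx : x ≤ 2) : Real.exp x ≤ (1 - x / 4)⁻¹ ^ 4 := by
  have h1 : Real.exp (x / 4) ≤ (1 - x / 4)⁻¹ := by
    rw [le_inv_comm₀ (Real.exp_pos _) (by linarith), ← Real.exp_neg]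
    linarith [Real.add_one_le_exp (-(x / 4))]
  have h2 := pow_le_pow_left₀ (Real.exp_pos _).le h1 4
  rwa [← Real.exp_nat_mul, show ((4 : ℕ) : ℝ) * (x / 4) = x by push_cast; ring] at h2

end Pool.Agent.MP_92463a_gt

end
end

section

open Set Complex Filter Metric
open scoped Topology ComplexConjugate ContDiff Manifold

noncomputable section

namespace Pool.Agent.MP_92463a_gt

namespace DC

variable {d : DC}

theorem flip_b : d.flip.b = d.b.flip := by
  unfold DC.flip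
  split_ifs <;> rfl

theorem flip_cell : d.flip.cell = d.cell.flip := by
  rcases d with ⟨⟨H, x, y, hx, hy⟩, ξ, ζ⟩
  cases H
  · simp [DC.flip, DC.cell, RC.flip, CB.flip]
  · simp [DC.flip, DC.cell, RC.flip, CB.flip, Real.exp_neg, mul_comm]

theorem Ok.flip (h : d.Ok) : d.flip.Ok := by
  rcases d with ⟨⟨H, x, y, hx, hy⟩, ξ, ζ⟩
  obtain ⟨h1, h2, h3, h4⟩ := h
  cases H
  · exact ⟨h2, h1, h4, h3⟩
  · exact ⟨h1, inv_pos.2 h2, h3, (abs_neg ζ).trans_le h4⟩

theorem Ok.ps (h : d.Ok) : d.cell.Ps :=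
  ⟨mul_pos (Rat.cast_pos.2 h.1) (Real.exp_pos _), mul_pos (Rat.cast_pos.2 h.2.1) (Real.exp_pos _)⟩

theorem cell_a1 : d.cell.a1 = d.b.a1 * Real.exp d.e1 := by
  rcases d with ⟨⟨H, x, y, hx, hy⟩, ξ, ζ⟩
  cases H
  · simp [DC.cell, RC.a1, CB.a1, DC.e1]
  · simp [DC.cell, RC.a1, CB.a1, DC.e1, Real.exp_neg, mul_comm]

theorem cell_a2 : d.cell.a2 = d.b.a2 * Real.exp d.e2 := by
  rcases d with ⟨⟨H, x, y, hx, hy⟩, ξ, ζ⟩
  cases H
  · simp only [DC.cell, RC.a2, CB.a2, DC.e2, Bool.false_eq_true, if_false, Real.exp_sub, two_mul,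
      Real.exp_add]
    push_cast
    ring
  · simp only [DC.cell, RC.a2, CB.a2, DC.e2, if_true, Real.exp_sub, Real.exp_neg]
    push_cast
    ring

theorem cell_lam : d.cell.lam = d.b.lam * Real.exp d.el := by
  rcases d with ⟨⟨H, x, y, hx, hy⟩, ξ, ζ⟩
  cases H
  · simp only [DC.cell, RC.lam, CB.lam, DC.el, Bool.false_eq_true, if_false, Real.exp_add]
    push_cast
    ring
  · simp only [DC.cell, RC.lam, CB.lam, DC.el, if_true, Real.exp_neg]
    push_cast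
    ring

theorem HdP3_e (h : d.Ok) : |d.e1| ≤ d.b.h1 / 2 ^ 40 ∧ |d.e2| ≤ d.b.h2 / 2 ^ 40 ∧
    |d.el| ≤ d.b.hl / 2 ^ 40 := by
  rcases d with ⟨⟨H, x, y, hx, hy⟩, ξ, ζ⟩
  obtain ⟨-, -, h3, h4⟩ := h
  simp only [abs_le] at h3 h4 ⊢
  cases H <;>
  · simp only [DC.e1, DC.e2, DC.el, CB.h1, CB.h2, CB.hl, Bool.false_eq_true, if_false, if_true]
    push_cast
    simp only [add_div, mul_div_assoc]
    refine ⟨⟨?_, ?_⟩, ⟨?_, ?_⟩, ?_, ?_⟩ <;> linarith [h3.1, h3.2, h4.1, h4.2]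

theorem HdP3_lam (h : d.Ok) : 0 < d.b.lam := by
  unfold CB.lam
  split_ifs
  · exact inv_pos.2 h.1
  · exact mul_pos h.1 h.2.1

theorem HdP3_m1 (d : DC) (Λ : ℚ) (η : ℝ) :
    Λ * Real.exp η * d.cell.a1 = (Λ * d.b.a1 : ℚ) * Real.exp (η + d.e1) := by
  rw [cell_a1, Real.exp_add]
  push_cast
  ring

theorem HdP3_m2 (d : DC) (Λ : ℚ) (η : ℝ) :
    Λ * Real.exp η * d.cell.a2 = (Λ * d.b.a2 : ℚ) * Real.exp (η + d.e2) := by
  rw [cell_a2, Real.exp_add]
  push_cast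
  ring

theorem HdP3_ml (d : DC) (Λ : ℚ) (η : ℝ) :
    Λ * Real.exp η * d.cell.lam = (Λ * d.b.lam : ℚ) * Real.exp (η + d.el) := by
  rw [cell_lam, Real.exp_add]
  push_cast
  ring

end DC

theorem atQ_length (f : ℕ → Bool → Bool → Dp) (j : ℕ) (l : List CB) (Λ : ℚ) (h : ℕ) (ε : Bool) :
    (atQ f j l Λ h ε).length = 2 * l.length := by
  induction l generalizing j Λ h ε with
  | nil => rfl
  | cons b l ih => simp only [atQ, List.length_cons, ih]; ring

theorem etas_length (l : List DC) (η : ℝ) : (etas l η).length = 2 * l.length := by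
  induction l generalizing η with
  | nil => rfl
  | cons b l ih => simp only [etas, List.length_cons, ih]; ring

theorem HdP3_add {η e : ℝ} {h k : ℕ} (h1 : |η| ≤ h / 2 ^ 40) (h2 : |e| ≤ k / 2 ^ 40) :
    |η + e| ≤ (h + k : ℕ) / 2 ^ 40 := by
  rw [Nat.cast_add, add_div]
  exact (abs_add_le _ _).trans (add_le_add h1 h2)

theorem etas_le (f : ℕ → Bool → Bool → Dp) (j : ℕ) {l : List DC} (hl : ∀ d ∈ l, d.Ok) (Λ : ℚ)
    (h : ℕ) (ε : Bool) {η : ℝ} (hη : |η| ≤ h / 2 ^ 40) :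
    List.Forall₂ (fun (a : AQ) (e : ℝ) => |e| ≤ a.h / 2 ^ 40) (atQ f j (l.map DC.b) Λ h ε)
      (etas l η) := by
  induction l generalizing j Λ h ε η with
  | nil => exact List.Forall₂.nil
  | cons d l ih =>
    obtain ⟨h1, h2, h3⟩ := DC.HdP3_e (hl d List.mem_cons_self)
    exact List.Forall₂.cons (HdP3_add hη h1) (List.Forall₂.cons (HdP3_add hη h2)
      (ih _ (fun e he => hl e (List.mem_cons_of_mem _ he)) _ _ _ (HdP3_add hη h3)))

theorem HdP3_lamP {l : List DC} (hl : ∀ d ∈ l, d.Ok) : ∃ η : ℝ,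
    |η| ≤ (((l.map DC.b).map CB.hl).sum : ℕ) / 2 ^ 40 ∧ 0 < ((l.map DC.b).map CB.lam).prod ∧
      lamP (l.map DC.cell) = (((l.map DC.b).map CB.lam).prod : ℚ) * Real.exp η := by
  induction l with
  | nil => exact ⟨0, by simp, by simp, by simp [lamP]⟩
  | cons d l ih =>
    obtain ⟨η, h1, h2, h3⟩ := ih fun e he => hl e (List.mem_cons_of_mem _ he)
    have hd := hl d List.mem_cons_self
    simp only [List.map_cons, List.sum_cons, List.prod_cons]
    refine ⟨d.el + η, HdP3_add (DC.HdP3_e hd).2.2 h1, mul_pos (DC.HdP3_lam hd) h2, ?_⟩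
    rw [lamP_cons, h3, DC.cell_lam, Real.exp_add, Rat.cast_mul]
    ring

theorem lamP_le {l : List DC} (hl : ∀ d ∈ l, d.Ok) (hh : ((l.map DC.b).map CB.hl).sum ≤ 2 ^ 40) :
    lamP (l.map DC.cell) ≤ (lamT true (l.map DC.b) : ℝ) := by
  obtain ⟨η, h1, h2, h3⟩ := HdP3_lamP hl
  have h4 := (abs_le.1 (eh_bound hh h1).1).2
  rw [h3, lamT, if_pos rfl, Rat.cast_mul, Rat.cast_add, Rat.cast_one]
  exact mul_le_mul_of_nonneg_left (by linarith) (Rat.cast_pos.2 h2).le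

theorem phi_atoms (f : ℕ → Bool → Bool → Dp) (j : ℕ) (l : List DC) (t : List RC) (Λ : ℚ) (h : ℕ)
    (ε : Bool) (η : ℝ) (z : ℂ) :
    pm ε (Phi (l.map DC.cell ++ t) (Λ * Real.exp η * z)) =
      (List.zipWith (fun (a : AQ) (e : ℝ) => a.zp (1 - a.al * Real.exp e * z))
        (atQ f j (l.map DC.b) Λ h ε) (etas l η)).prod *
      pm (epsL (l.map DC.b) ε) (Phi t (lamP (l.map DC.cell) * (Λ * Real.exp η * z))) := by
  induction l generalizing j Λ h ε η with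
  | nil => simp [atQ, etas, epsL, lamP]
  | cons d l ih =>
    have e1 : (d.cell.a1 : ℂ) * (Λ * Real.exp η * z) =
        (Λ * d.b.a1 : ℚ) * Real.exp (η + d.e1) * z := by
      have := congrArg Complex.ofReal (DC.HdP3_m1 d Λ η)
      simp only [Complex.ofReal_mul, Complex.ofReal_ratCast] at this
      rw [← this]
      ring
    have e2 : (d.cell.a2 : ℂ) * (Λ * Real.exp η * z) =
        (Λ * d.b.a2 : ℚ) * Real.exp (η + d.e2) * z := by
      have := congrArg Complex.ofReal (DC.HdP3_m2 d Λ η)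
      simp only [Complex.ofReal_mul, Complex.ofReal_ratCast] at this
      rw [← this]
      ring
    have e3 : (d.cell.lam : ℂ) * (Λ * Real.exp η * z) =
        (Λ * d.b.lam : ℚ) * Real.exp (η + d.el) * z := by
      have := congrArg Complex.ofReal (DC.HdP3_ml d Λ η)
      simp only [Complex.ofReal_mul, Complex.ofReal_ratCast] at this
      rw [← this]
      ring
    have hi := ih (j - 1) (Λ * d.b.lam) (h + d.b.hl) (if d.b.H then ε else !ε) (η + d.el)
    simp only [List.map_cons, List.cons_append, atQ, etas, List.zipWith_cons_cons, List.prod_cons,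
      epsL, Phi, lamP_cons, Complex.ofReal_mul]
    rw [mul_comm (d.cell.lam : ℂ) (lamP (l.map DC.cell) : ℂ), mul_assoc (lamP (l.map DC.cell) : ℂ),
      e1, e2, e3, mul_assoc (AQ.zp _ _), mul_assoc (AQ.zp _ _), ← hi]
    have hH : d.cell.H = d.b.H := rfl
    rw [hH]
    cases d.b.H <;> cases ε <;> simp [AQ.zp, pm, div_eq_mul_inv, mul_comm, mul_assoc]

theorem disp_ne (zin kd : Bool) (j : ℕ) (H f : Bool) : disp zin kd j H f ≠ .low := by
  rcases j with _ | _ | j <;> cases zin <;> cases kd <;> cases H <;> cases f <;> simp [disp]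

theorem atQ_dp (f : ℕ → Bool → Bool → Dp) (j : ℕ) (l : List CB) (Λ : ℚ) (h : ℕ) (ε : Bool) :
    ∀ a ∈ atQ f j l Λ h ε, ∃ i H b, a.dp = f i H b := by
  induction l generalizing j Λ h ε with
  | nil => simp [atQ]
  | cons c l ih =>
    intro a ha
    simp only [atQ, List.mem_cons] at ha
    rcases ha with rfl | rfl | ha
    · exact ⟨_, _, _, rfl⟩
    · exact ⟨_, _, _, rfl⟩
    · exact ih _ _ _ _ a ha

theorem posU_atoms (zin kd : Bool) (u v : ℝ) (j : ℕ) (l : List DC) (Λ : ℚ) (h : ℕ) (ε : Bool)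
    (η : ℝ) (ha : List.Forall₂ (fun (a : AQ) (e : ℝ) => a.dp.At (a.et e) u v)
      (atQ (disp zin kd) j (l.map DC.b) Λ h ε) (etas l η)) :
    PosU zin kd u v j (l.map DC.cell) (Λ * Real.exp η) := by
  induction l generalizing j Λ h ε η with
  | nil => trivial
  | cons d l ih =>
    simp only [List.map_cons, atQ, etas, List.forall₂_cons, AQ.et, if_neg (disp_ne _ _ _ _ _)] at ha
    simp only [List.map_cons, PosU, DC.HdP3_m1, DC.HdP3_m2, DC.HdP3_ml]
    exact ⟨ha.1, ha.2.1, ih _ _ _ _ _ ha.2.2⟩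

theorem sm_atoms (u v : ℝ) (j : ℕ) (l : List DC) (Λ : ℚ) (h : ℕ) (ε : Bool)
    (η : ℝ) (ha : List.Forall₂ (fun (a : AQ) (e : ℝ) => a.dp.At (a.et e) u v)
      (atQ (fun _ _ _ => .low) j (l.map DC.b) Λ h ε) (etas l η)) :
    Sm (l.map DC.cell) (Λ * Real.exp η) (min u |v|) := by
  induction l generalizing j Λ h ε η with
  | nil => trivial
  | cons d l ih =>
    simp only [List.map_cons, atQ, etas, List.forall₂_cons, AQ.et, if_true, Dp.At] at ha
    simp only [List.map_cons, Sm, DC.HdP3_m1, DC.HdP3_m2, DC.HdP3_ml]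
    exact ⟨lt_min ha.1.1 ha.1.2, lt_min ha.2.1.1 ha.2.1.2, ih _ _ _ _ _ ha.2.2⟩

end Pool.Agent.MP_92463a_gt

end
end

section

open Set Complex Filter Metric
open scoped Topology ComplexConjugate ContDiff Manifold

noncomputable section

namespace Pool.Agent.MP_92463a_gt

theorem HdTl2_han {c : RC} (h : c.Far) (hH : c.H = true) :
    0 < c.a1 ∧ c.a1 < 3 ∧ 0 < c.a2 ∧ c.a2 < 3 ∧ 0 < c.lam ∧ c.lam ≤ 8 := by
  simp only [RC.Far, RC.a1, RC.a2, RC.lam, hH, if_true] at h ⊢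
  obtain ⟨hx, hy⟩ := h
  have hx0 : 0 < c.x := by linarith
  have hy0 : 0 < c.y := by linarith
  refine ⟨by positivity, ?_, by positivity, ?_, by positivity, ?_⟩
  · rw [inv_lt_comm₀ hy0 (by norm_num)]
    linarith
  · rw [inv_lt_comm₀ (by positivity) (by norm_num)]
    nlinarith
  · rw [inv_le_comm₀ hx0 (by norm_num)]
    linarith

theorem HdTl2_lev {c : RC} (h : c.Far) (hH : c.H = false) :
    c.a1 < 0 ∧ -1 < c.a1 ∧ 0 < c.a2 ∧ c.a2 < 1 ∧ 0 < c.lam ∧ c.lam ≤ 1 / 8 := by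
  simp only [RC.Far, RC.a1, RC.a2, RC.lam, hH, Bool.false_eq_true, if_false] at h ⊢
  obtain ⟨hx, hy, h1, h2, h3⟩ := h
  refine ⟨by linarith, by linarith, by positivity, ?_, by positivity, by linarith⟩
  rw [div_lt_one hx]
  linarith

theorem HdTl2_sm {l : List RC} (h : Good l) {Λ r : ℝ} (h0 : 0 < Λ)
    (hr : 16 * Λ ≤ r ∨ (2 * Λ ≤ r ∧ ∀ d ∈ l.head?, d.H = false)) : Sm l Λ r := by
  induction l generalizing Λ with
  | nil => trivial
  | cons c l ih =>
    obtain ⟨hc, hn, hl⟩ := h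
    cases hH : c.H
    · obtain ⟨h1, h2, h3, h4, h5, h6⟩ := HdTl2_lev hc hH
      have h7 : 2 * Λ ≤ r := by
        rcases hr with hr | hr
        · linarith
        · exact hr.1
      refine ⟨abs_lt.2 ⟨by nlinarith, by nlinarith⟩, abs_lt.2 ⟨by nlinarith, by nlinarith⟩,
        ih hl (mul_pos h0 h5) (Or.inl (by nlinarith))⟩
    · obtain ⟨h1, h2, h3, h4, h5, h6⟩ := HdTl2_han hc hH
      have h7 : 16 * Λ ≤ r := hr.resolve_right fun hr => by simpa [hH] using hr.2 c rfl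
      refine ⟨abs_lt.2 ⟨by nlinarith, by nlinarith⟩, abs_lt.2 ⟨by nlinarith, by nlinarith⟩,
        ih hl (mul_pos h0 h5) (Or.inr ⟨by nlinarith, hn hH⟩)⟩

theorem HdTl2_lt {x r u : ℝ} (h0 : 0 < x) (h1 : |x| < r) (hu : r * |u| ≤ 1) : u < x⁻¹ := by
  rw [abs_of_pos h0] at h1
  by_contra hc
  have h2 : x⁻¹ ≤ |u| := (not_lt.1 hc).trans (le_abs_self u)
  have h3 : 0 < x⁻¹ := inv_pos.2 h0
  have h4 : x * x⁻¹ = 1 := mul_inv_cancel₀ h0.ne'
  nlinarith

theorem HdTl2_gt {x r v : ℝ} (h0 : x < 0) (h1 : |x| < r) (hv : r * |v| ≤ 1) : x⁻¹ < v := by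
  have h := HdTl2_lt (u := -v) (neg_pos.2 h0) (by rwa [abs_neg]) (by rwa [abs_neg])
  rwa [inv_neg, neg_lt_neg_iff] at h

theorem HdTl2_pos {l : List RC} (h : Good l) (zin kd : Bool) {Λ r u v : ℝ} (h0 : 0 < Λ)
    (hs : Sm l Λ r) (hu : r * |u| ≤ 1) (hv : r * |v| ≤ 1) : PosU zin kd u v 0 l Λ := by
  induction l generalizing Λ with
  | nil => trivial
  | cons c l ih =>
    obtain ⟨hc, -, hl⟩ := h
    obtain ⟨s1, s2, s3⟩ := hs
    cases hH : c.H
    · obtain ⟨h1, -, h3, -, h5, -⟩ := HdTl2_lev hc hH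
      refine ⟨?_, ?_, ih hl (mul_pos h0 h5) s3⟩
      · rw [hH]
        exact HdTl2_gt (mul_neg_of_pos_of_neg h0 h1) s1 hv
      · rw [hH]
        exact HdTl2_lt (mul_pos h0 h3) s2 hu
    · obtain ⟨h1, -, h3, -, h5, -⟩ := HdTl2_han hc hH
      refine ⟨?_, ?_, ih hl (mul_pos h0 h5) s3⟩
      · rw [hH]
        exact HdTl2_lt (mul_pos h0 h1) s1 hu
      · rw [hH]
        exact HdTl2_lt (mul_pos h0 h3) s2 hu

theorem HdTl2_exp {t : ℝ} {n : ℕ} (h : |t| ≤ n / 2 ^ 40) (hn : n ≤ 2 ^ 33) :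
    0.992 ≤ Real.exp t ∧ Real.exp t ≤ 1.008 := by
  have h1 : (n : ℝ) ≤ 2 ^ 33 := by exact_mod_cast hn
  have h2 : |t| ≤ 1 / 128 := h.trans (by rw [div_le_iff₀ (by positivity)]; linarith)
  obtain ⟨h3, h4⟩ := abs_le.1 h2
  have h5 := Real.add_one_le_exp t
  have h6 := Real.add_one_le_exp (-t)
  have h7 : Real.exp t * Real.exp (-t) = 1 := by rw [← Real.exp_add, add_neg_cancel, Real.exp_zero]
  have h8 := Real.exp_pos t
  exact ⟨by linarith, by nlinarith⟩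

theorem Good.sm {l : List RC} (h : Good l) {Λ r : ℝ} (h0 : 0 < Λ) (hr : 16 * Λ ≤ r) :
    Sm l Λ r := HdTl2_sm h h0 (Or.inl hr)

theorem Good.posU {l : List RC} (h : Good l) (zin kd : Bool) {Λ u v : ℝ} (h0 : 0 < Λ)
    (hu : 16 * Λ * |u| ≤ 1) (hv : 16 * Λ * |v| ≤ 1) : PosU zin kd u v 0 l Λ :=
  HdTl2_pos h zin kd h0 (h.sm h0 le_rfl) hu hv

theorem Sm.append {l t : List RC} {Λ r : ℝ} (h : Sm l Λ r) (ht : Sm t (Λ * lamP l) r) :
    Sm (l ++ t) Λ r := by
  induction l generalizing Λ with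
  | nil => simpa [lamP] using ht
  | cons c l ih => exact ⟨h.1, h.2.1, ih h.2.2 (by simpa [lamP, mul_assoc] using ht)⟩

theorem PosU.append {zin kd : Bool} {u v : ℝ} {j : ℕ} {l t : List RC} {Λ : ℝ}
    (h : PosU zin kd u v j l Λ) (hj : j ≤ l.length) (ht : PosU zin kd u v 0 t (Λ * lamP l)) :
    PosU zin kd u v j (l ++ t) Λ := by
  induction l generalizing j Λ with
  | nil =>
    obtain rfl : j = 0 := by simpa using hj
    simpa [lamP] using ht
  | cons c l ih =>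
    exact ⟨h.1, h.2.1, ih h.2.2 (by simp only [List.length_cons] at hj; omega)
      (by simpa [lamP, mul_assoc] using ht)⟩

theorem DC.far {d : DC} (h : d.Ok) (hs : d.b.small = true) (hf : d.b.far = true) : d.cell.Far := by
  simp only [CB.small, decide_eq_true_eq] at hs
  obtain ⟨hx, hy, h1, h2⟩ := h
  obtain ⟨p1, p2⟩ := HdTl2_exp h1 hs.2.2.1
  obtain ⟨q1, q2⟩ := HdTl2_exp h2 hs.2.2.2
  have hx' : (0 : ℝ) < d.b.x := by exact_mod_cast hx
  have hy' : (0 : ℝ) < d.b.y := by exact_mod_cast hy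
  unfold CB.far at hf
  unfold RC.Far DC.cell
  generalize Real.exp d.ξ = p at *
  generalize Real.exp d.ζ = q at *
  cases hH : d.b.H
  · simp only [hH, Bool.false_eq_true, if_false, decide_eq_true_eq] at hf ⊢
    have f1 := (Rat.cast_le (K := ℝ)).2 hf.1
    have f2 := (Rat.cast_le (K := ℝ)).2 hf.2.1
    have f3 := (Rat.cast_le (K := ℝ)).2 hf.2.2
    push_cast at f1 f2 f3
    generalize (d.b.x : ℝ) = x at *
    generalize (d.b.y : ℝ) = y at *
    have hq : q ^ 2 ≤ 1.017 := by nlinarith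
    have hpq : p * q ≤ 1.017 := by nlinarith
    have hxy : 0 < x * y := mul_pos hx' hy'
    refine ⟨by nlinarith, by nlinarith, by nlinarith, ?_, ?_⟩
    · rw [mul_pow]
      nlinarith [mul_le_mul f2 hq (by positivity) (by positivity)]
    · nlinarith [mul_le_mul f3 hpq (by nlinarith) (by positivity)]
  · simp only [hH, if_true, decide_eq_true_eq] at hf ⊢
    have f1 := (Rat.cast_le (K := ℝ)).2 hf.1
    have f2 := (Rat.cast_le (K := ℝ)).2 hf.2
    push_cast at f1 f2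
    exact ⟨by nlinarith, by nlinarith⟩

theorem good_of {l : List RC} (h : ∀ c ∈ l, c.Far)
    (hH : ∀ (i : ℕ) (hi : i + 1 < l.length), ¬ (l[i].H = true ∧ l[i + 1].H = true)) : Good l := by
  induction l with
  | nil => trivial
  | cons c l ih =>
    refine ⟨h c List.mem_cons_self, fun hc d hd => ?_,
      ih (fun c hc => h c (List.mem_cons_of_mem _ hc)) fun i hi => ?_⟩
    · cases l with
      | nil => simp at hd
      | cons e l =>
        obtain rfl : e = d := by simpa using hd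
        simpa [hc] using hH 0 (by simp)
    · exact hH (i + 1) (by simpa using hi)

end Pool.Agent.MP_92463a_gt

end
end

section

open Set Complex Filter Metric
open scoped Topology ComplexConjugate ContDiff Manifold

noncomputable section

namespace Pool.Agent.MP_92463a_gt

theorem HdG1_sub (a b : ℕ) : ((a - b : ℕ) : ℝ) - ((b - a : ℕ) : ℝ) = (a : ℝ) - b := by
  rcases le_total a b with h | h
  · rw [Nat.sub_eq_zero_of_le h, Nat.cast_sub h]; simp
  · rw [Nat.sub_eq_zero_of_le h, Nat.cast_sub h]; simp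

theorem HdG1_abs (a b : ℕ) : ((a - b : ℕ) : ℝ) + ((b - a : ℕ) : ℝ) = |(a : ℝ) - b| := by
  rcases le_total a b with h | h
  · have h' : (a : ℝ) ≤ b := by exact_mod_cast h
    rw [Nat.sub_eq_zero_of_le h, Nat.cast_sub h, abs_of_nonpos (by linarith)]; simp
  · have h' : (b : ℝ) ≤ a := by exact_mod_cast h
    rw [Nat.sub_eq_zero_of_le h, Nat.cast_sub h, abs_of_nonneg (by linarith)]; simp

theorem HdG1_div (x n : ℕ) (hn : 0 < n) :
    ((x / n : ℕ) : ℝ) ≤ (x : ℝ) / n ∧ (x : ℝ) / n ≤ ((x / n : ℕ) : ℝ) + 1 := by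
  refine ⟨Nat.cast_div_le, ?_⟩
  have hn' : (0 : ℝ) < n := by exact_mod_cast hn
  rw [div_le_iff₀ hn']
  have h1 : x ≤ (x / n + 1) * n := by
    have h2 := Nat.div_add_mod x n
    have h3 := Nat.mod_lt x hn
    nlinarith
  exact_mod_cast h1

theorem HdG1_dv (a b n : ℕ) (hn : 0 < n) :
    |(((a - b) / n : ℕ) : ℝ) - (((b - a) / n : ℕ) : ℝ) - ((a : ℝ) - b) / n| ≤ 1 := by
  rcases le_total a b with h | h
  · have := HdG1_div (b - a) n hn
    rw [Nat.cast_sub h] at this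
    rw [Nat.sub_eq_zero_of_le h, Nat.zero_div, Nat.cast_zero, abs_le]
    have e : ((a : ℝ) - b) / n = -(((b : ℝ) - a) / n) := by ring
    constructor <;> linarith [this.1, this.2]
  · have := HdG1_div (a - b) n hn
    rw [Nat.cast_sub h] at this
    rw [Nat.sub_eq_zero_of_le h, Nat.zero_div, Nat.cast_zero, abs_le]
    constructor <;> linarith [this.1, this.2]

namespace G4

variable (u v : G4)

theorem HdG1_re : u.val.re = (u.a : ℝ) - u.b := by simp [val]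

theorem HdG1_im : u.val.im = (u.c : ℝ) - u.d := by simp [val]

theorem val_nat (n : ℕ) : (nat n).val = n := by simp [val, nat]

theorem val_int (n : ℤ) : (int n).val = n := by
  have h : ((n.toNat : ℤ) - ((-n).toNat : ℤ)) = n := Int.toNat_sub_toNat_neg n
  have h' : ((n.toNat : ℝ) - ((-n).toNat : ℝ)) = n := by exact_mod_cast h
  apply Complex.ext
  · rw [HdG1_re]; simpa [int] using h'
  · rw [HdG1_im]; simp [int]

theorem val_add : (u.add v).val = u.val + v.val := by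
  apply Complex.ext
  · simp only [Complex.add_re, HdG1_re, add, Nat.add_eq]; push_cast; ring
  · simp only [Complex.add_im, HdG1_im, add, Nat.add_eq]; push_cast; ring

theorem val_neg : u.neg.val = -u.val := by
  apply Complex.ext
  · simp only [Complex.neg_re, HdG1_re, neg]; ring
  · simp only [Complex.neg_im, HdG1_im, neg]; ring

theorem val_sub : (u.sub v).val = u.val - v.val := by
  apply Complex.ext
  · simp only [Complex.sub_re, HdG1_re, sub, Nat.add_eq]; push_cast; ring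
  · simp only [Complex.sub_im, HdG1_im, sub, Nat.add_eq]; push_cast; ring

theorem val_cj : u.cj.val = conj u.val := by
  apply Complex.ext
  · simp only [Complex.conj_re, HdG1_re, cj]
  · simp only [Complex.conj_im, HdG1_im, cj]; ring

theorem val_sm (n : ℕ) : (sm n u).val = n * u.val := by
  apply Complex.ext
  · simp only [Complex.mul_re, HdG1_re, HdG1_im, sm, Nat.mul_eq, Complex.natCast_re,
      Complex.natCast_im]; push_cast; ring
  · simp only [Complex.mul_im, HdG1_re, HdG1_im, sm, Nat.mul_eq, Complex.natCast_re,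
      Complex.natCast_im]; push_cast; ring

theorem val_nz : u.nz.val = u.val := by
  apply Complex.ext
  · simp only [HdG1_re, nz, Nat.sub_eq]; exact HdG1_sub _ _
  · simp only [HdG1_im, nz, Nat.sub_eq]; exact HdG1_sub _ _

theorem val_mul : (u.mul v).val = u.val * v.val := by
  rw [mul, val_nz]
  apply Complex.ext
  · simp only [Complex.mul_re, HdG1_re, HdG1_im, rp, rn, Nat.mul_eq, Nat.add_eq]; push_cast; ring
  · simp only [Complex.mul_im, HdG1_re, HdG1_im, rp, rn, Nat.mul_eq, Nat.add_eq]; push_cast; ring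

theorem val_pw (n : ℕ) : (u.pw n).val = u.val ^ n := by
  induction n with
  | zero => simp [pw, val_nat]
  | succ n ih => rw [pw, val_mul, ih, pow_succ]

theorem val_re : u.val.re = (u.a : ℝ) - u.b := HdG1_re u

theorem rp_rn : (u.val * v.val).re = (u.rp v : ℝ) - u.rn v := by
  simp only [Complex.mul_re, HdG1_re, HdG1_im, rp, rn, Nat.mul_eq, Nat.add_eq]; push_cast; ring

theorem HdG1_ax : (u.ax : ℝ) = |u.val.re| := by
  rw [HdG1_re, ← HdG1_abs]; simp only [ax, Nat.add_eq, Nat.sub_eq, Nat.cast_add]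

theorem HdG1_ay : (u.ay : ℝ) = |u.val.im| := by
  rw [HdG1_im, ← HdG1_abs]; simp only [ay, Nat.add_eq, Nat.sub_eq, Nat.cast_add]

theorem n2_eq : (u.n2 : ℝ) = ‖u.val‖ ^ 2 := by
  rw [Complex.sq_norm, Complex.normSq_apply]
  simp only [n2, Nat.add_eq, Nat.mul_eq, Nat.cast_add, Nat.cast_mul, HdG1_ax, HdG1_ay,
    abs_mul_abs_self]

theorem n2_pos : 0 < u.n2 ↔ u.val ≠ 0 := by
  rw [← Nat.cast_pos (α := ℝ), n2_eq, sq_pos_iff, norm_ne_zero_iff]

theorem nr_ge : ‖u.val‖ ≤ u.nr := by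
  have h2 : ‖u.val‖ ^ 2 = (u.ax : ℝ) ^ 2 + (u.ay : ℝ) ^ 2 := by
    rw [← n2_eq]; simp only [n2, Nat.add_eq, Nat.mul_eq]; push_cast; ring
  change ‖u.val‖ ≤ ((u.ax + (u.ay - u.ax) + (5 * (u.ax - (u.ax - u.ay)) / 12 + 1) : ℕ) : ℝ)
  generalize u.ax = x at *
  generalize u.ay = y at *
  have key : ∀ M m : ℕ, m ≤ M → ‖u.val‖ ^ 2 = (M : ℝ) ^ 2 + (m : ℝ) ^ 2 →
      ‖u.val‖ ≤ ((M + (5 * m / 12 + 1) : ℕ) : ℝ) := by
    intro M m hm h
    have hm' : (m : ℝ) ≤ M := by exact_mod_cast hm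
    have h0 : (0 : ℝ) ≤ m := Nat.cast_nonneg m
    have hd := (HdG1_div (5 * m) 12 (by norm_num)).2
    push_cast at hd ⊢
    have h3 : ‖u.val‖ ≤ (M : ℝ) + 5 * m / 12 := by
      refine (sq_le_sq₀ (norm_nonneg _) (by linarith)).1 ?_
      rw [h]; nlinarith
    linarith
  rcases le_total x y with h | h
  · have e1 : x + (y - x) = y := by omega
    have e2 : x - (x - y) = x := by omega
    rw [e1, e2]
    exact key y x h (by rw [h2]; ring)
  · have e1 : x + (y - x) = x := by omega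
    have e2 : x - (x - y) = y := by omega
    rw [e1, e2]
    exact key x y h h2

theorem dv_err {n : ℕ} (hn : 0 < n) : ‖(u.dv n).val - u.val / n‖ ≤ 2 := by
  refine (Complex.norm_le_abs_re_add_abs_im _).trans ?_
  have h1 := HdG1_dv u.a u.b n hn
  have h2 := HdG1_dv u.c u.d n hn
  have e1 : ((u.dv n).val - u.val / n).re =
      (((u.a - u.b) / n : ℕ) : ℝ) - (((u.b - u.a) / n : ℕ) : ℝ) - ((u.a : ℝ) - u.b) / n := by
    rw [Complex.sub_re, Complex.div_natCast_re, HdG1_re, HdG1_re]; rfl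
  have e2 : ((u.dv n).val - u.val / n).im =
      (((u.c - u.d) / n : ℕ) : ℝ) - (((u.d - u.c) / n : ℕ) : ℝ) - ((u.c : ℝ) - u.d) / n := by
    rw [Complex.sub_im, Complex.div_natCast_im, HdG1_im, HdG1_im]; rfl
  rw [e1, e2]; linarith

theorem qt_err (k : ℕ) (hv : 0 < v.n2) : ‖(qt k u v).val - 2 ^ k * u.val / v.val‖ ≤ 2 := by
  have h := dv_err (sm (Nat.pow 2 k) (mul u v.cj)) hv
  have hv0 : v.val ≠ 0 := (n2_pos v).1 hv
  have e : (sm (Nat.pow 2 k) (mul u v.cj)).val / (v.n2 : ℂ) = 2 ^ k * u.val / v.val := by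
    have e2 : (v.n2 : ℂ) = v.val * conj v.val := by
      rw [Complex.mul_conj, Complex.normSq_eq_norm_sq, ← n2_eq]; simp
    have hc : conj v.val ≠ 0 := by simpa using hv0
    rw [val_sm, val_mul, val_cj, e2, Nat.pow_eq]
    push_cast
    field_simp
  rw [e] at h
  exact h

end G4

end Pool.Agent.MP_92463a_gt

end
end

section

open Set Complex Filter Metric
open scoped Topology ComplexConjugate ContDiff Manifold

noncomputable section

namespace Pool.Agent.MP_92463a_gt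

theorem HdC2_im {z : ℂ} {r : ℝ} (hz : ‖z‖ ≤ r) (h0 : 1 + z ≠ 0) :
    |(1 + z).im / ‖1 + z‖| ≤ r := by
  have hp := norm_pos_iff.2 h0
  rw [abs_div, abs_of_pos hp, div_le_iff₀ hp]
  refine le_trans ?_ (mul_le_mul_of_nonneg_right hz hp.le)
  rw [← abs_of_nonneg (mul_nonneg (norm_nonneg z) hp.le), ← sq_le_sq, mul_pow, Complex.sq_norm,
    Complex.sq_norm, normSq_apply, normSq_apply]
  simp only [add_re, add_im, one_re, one_im]
  nlinarith [sq_nonneg (z.re + z.re * z.re + z.im * z.im)]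

theorem arg_az {z : ℂ} {t r : ℝ} (ht : 0 < t) (hz : ‖z‖ ≤ r) (hr : r ≤ 47 / 50) :
    |arg (t * (1 + z))| ≤ r + 3 / 5 * r ^ 3 := by
  have r0 := (norm_nonneg z).trans hz
  have h1 : 0 < (1 + z).re := by
    have := (abs_le.1 (abs_re_le_norm z)).1
    rw [add_re, one_re]
    linarith
  have h2 := abs_le.1 (HdC2_im hz fun h => by simp [h] at h1)
  have r2 : r ^ 2 ≤ (47 / 50) ^ 2 := pow_le_pow_left₀ r0 hr 2
  have r3 : r ^ 3 ≤ (47 / 50) ^ 3 := pow_le_pow_left₀ r0 hr 3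
  have a0 : 0 ≤ r + 3 / 5 * r ^ 3 := by positivity
  have a1 : r + 3 / 5 * r ^ 3 < Real.pi / 2 := by linarith [Real.pi_gt_three]
  have a2 : r ≤ Real.sin (r + 3 / 5 * r ^ 3) := by
    have b1 := Real.sin_ge_sub_cube a0
    have b2 : (1 + 3 / 5 * r ^ 2) ^ 3 ≤ (1 + 3 / 5 * (47 / 50) ^ 2) ^ 3 :=
      pow_le_pow_left₀ (by positivity) (by linarith) 3
    have b3 := mul_le_mul_of_nonneg_left (b2.trans (show _ ≤ (18 / 5 : ℝ) by norm_num))
      (pow_nonneg r0 3)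
    have e : (r + 3 / 5 * r ^ 3) ^ 3 = r ^ 3 * (1 + 3 / 5 * r ^ 2) ^ 3 := by ring
    linarith
  rw [arg_real_mul _ ht, arg_of_re_nonneg h1.le, abs_le,
    Real.le_arcsin_iff_sin_le' ⟨by linarith, by linarith⟩,
    Real.arcsin_le_iff_le_sin' ⟨by linarith, a1⟩, Real.sin_neg]
  exact ⟨by linarith, by linarith⟩

theorem sq_sound {g N D : G4} {Lg : ℂ} (h : sqOk g N D = true) (hN : N.val = exp Lg * D.val)
    (hi : |Lg.im| ≤ 31 / 10) :
    g.val ≠ 0 ∧ ∃ δ : ℂ, ‖δ‖ ≤ 3 / 2 ^ 33 ∧ exp (Lg / 2) = g.val / 2 ^ 64 * exp δ := by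
  simp only [sqOk, Bool.and_eq_true, Nat.blt_eq, Nat.ble_eq, Nat.mul_eq, Nat.pow_eq,
    Nat.sub_eq] at h
  obtain ⟨⟨h1, h2⟩, h3⟩ := h
  have p1 : 0 < g.val.re := by
    rw [G4.val_re, sub_pos]
    exact_mod_cast h1
  have g0 : g.val ≠ 0 := fun h => by simp [h] at p1
  have d0 := norm_pos_iff.2 ((G4.n2_pos D).1 h2)
  obtain ⟨ρ, hρ⟩ : ∃ ρ, ρ = 2 ^ 64 * exp (Lg / 2) := ⟨_, rfl⟩
  have ρ0 : ρ ≠ 0 := hρ ▸ mul_ne_zero (by norm_num) (exp_ne_zero _)
  have ρ1 : 0 ≤ ρ.re := by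
    have hc : 0 ≤ Real.cos (Lg / 2).im := by
      have := abs_le.1 hi
      have := Real.pi_gt_d2
      rw [div_ofNat_im]
      exact Real.cos_nonneg_of_neg_pi_div_two_le_of_le (by linarith) (by linarith)
    rw [hρ, show (2 : ℂ) ^ 64 = ((2 ^ 64 : ℝ) : ℂ) by push_cast; rfl, re_ofReal_mul, exp_re]
    positivity
  have e : g.val * g.val * D.val - ((2 ^ 128 : ℕ) : ℂ) * N.val =
      (g.val - ρ) * (g.val + ρ) * D.val := by
    have : exp Lg = exp (Lg / 2) * exp (Lg / 2) := by rw [← exp_add, add_halves]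
    rw [hN, hρ, this]
    push_cast
    ring
  have h4 := (Nat.cast_le (α := ℝ)).2 h3
  rw [Nat.cast_mul, Nat.cast_mul, G4.n2_eq, G4.n2_eq, G4.val_sub, G4.val_mul, G4.val_mul,
    G4.val_sm, e, Nat.cast_pow, Nat.cast_pow, Nat.cast_sub h1.le, ← G4.val_re, norm_mul, norm_mul,
    show ∀ a b c : ℝ, (a * b * c) ^ 2 * ((2 : ℕ) : ℝ) ^ 64 = (a * b * 2 ^ 32) ^ 2 * c ^ 2 from
      fun a b c => by push_cast; ring,
    mul_le_mul_iff_left₀ (pow_pos d0 2), show g.val.re ^ 4 = (g.val.re ^ 2) ^ 2 by ring] at h4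
  have h5 := (sq_le_sq₀ (by positivity) (by positivity)).1 h4
  have h6 : g.val.re ≤ ‖g.val + ρ‖ := by
    have := re_le_norm (g.val + ρ)
    rw [add_re] at this
    linarith
  have h7 : ‖g.val - ρ‖ * 2 ^ 32 ≤ ‖g.val‖ := by
    have b1 := mul_le_mul_of_nonneg_left h6 (norm_nonneg (g.val - ρ))
    refine le_trans (le_of_mul_le_mul_right ?_ p1) (re_le_norm _)
    linarith
  have h8 : ‖ρ / g.val - 1‖ ≤ 1 / 2 ^ 32 := by
    rw [div_sub_one g0, norm_div, norm_sub_rev, div_le_div_iff₀ (norm_pos_iff.2 g0) (by positivity),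
      one_mul]
    exact h7
  have h9 := norm_log_one_add_half_le_self (h8.trans (by norm_num))
  rw [add_sub_cancel] at h9
  refine ⟨g0, log (ρ / g.val), by linarith, ?_⟩
  rw [exp_log (div_ne_zero ρ0 g0), hρ]
  field_simp

end Pool.Agent.MP_92463a_gt

end
end

section

open Set Complex Filter Metric
open scoped Topology ComplexConjugate ContDiff Manifold

noncomputable section

namespace Pool.Agent.MP_92463a_gt

theorem HdQ0_lo (g : Ge) : (g.Rlo : ℝ) = g.R * (1 - 1 / 2 ^ 30) := by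
  unfold Ge.Rlo
  push_cast
  rfl

theorem HdQ0_hi (g : Ge) : (g.Rhi : ℝ) = g.R * (1 + 1 / 2 ^ 30) := by
  unfold Ge.Rhi
  push_cast
  rfl

theorem HdQ0_tri (c : ℚ) (w : ℂ) : ‖w‖ - |(c : ℝ)| ≤ ‖(c : ℂ) + w‖ ∧ (c : ℝ) - ‖w‖ ≤ ‖(c : ℂ) + w‖ ∧
    ‖(c : ℂ) + w‖ ≤ |(c : ℝ)| + ‖w‖ := by
  have h1 := norm_sub_le ((c : ℂ) + w) c
  have h2 := norm_sub_le ((c : ℂ) + w) w
  have h3 := norm_add_le (c : ℂ) w
  rw [add_sub_cancel_left] at h1
  rw [add_sub_cancel_right] at h2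
  rw [Complex.norm_ratCast] at h1 h2 h3
  exact ⟨by linarith, by linarith [le_abs_self (c : ℝ)], h3⟩

namespace Ge.Ok

variable {g : Ge} (h : g.Ok) {w : ℂ}
include h

theorem HdQ0_re : 0 < (g.r1 : ℝ) ∧ (g.r1 : ℝ) < g.R * (1 - 1 / 2 ^ 30) ∧
    (g.R : ℝ) * (1 + 1 / 2 ^ 30) < g.r2 ∧ 0 < (g.R : ℝ) ∧
    (g.zin = true ∧ (g.smin : ℝ) = g.r1 - |(g.c : ℝ)| ∧ |(g.c : ℝ)| < g.r1 ∨
      ¬ g.zin = true ∧ (g.smin : ℝ) = g.c - g.r2 ∧ (g.r2 : ℝ) < g.c) := by
  have h1 : 0 < (g.r1 : ℝ) := by exact_mod_cast h.r1_pos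
  have h2 : (g.r1 : ℝ) < g.Rlo := by exact_mod_cast h.r1_lt
  have h3 : (g.Rhi : ℝ) < g.r2 := by exact_mod_cast h.r2_gt
  have h4 : 0 < (g.smin : ℝ) := by exact_mod_cast h.smin_pos
  rw [HdQ0_lo] at h2
  rw [HdQ0_hi] at h3
  refine ⟨h1, h2, h3, by linarith, ?_⟩
  by_cases hz : g.zin = true
  · have e : (g.smin : ℝ) = g.r1 - |(g.c : ℝ)| := by
      rw [Ge.smin, if_pos hz]
      push_cast
      rfl
    exact Or.inl ⟨hz, e, by linarith⟩
  · have e : (g.smin : ℝ) = g.c - g.r2 := by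
      rw [Ge.smin, if_neg hz]
      push_cast
      rfl
    exact Or.inr ⟨hz, e, by linarith⟩

theorem R_pos : 0 < g.R := by exact_mod_cast h.HdQ0_re.2.2.2.1

theorem r1_lt_R : g.r1 < g.R := by
  obtain ⟨h1, h2, h3, h4, -⟩ := h.HdQ0_re
  exact_mod_cast (by linarith : (g.r1 : ℝ) < g.R)

theorem R_lt_r2 : g.R < g.r2 := by
  obtain ⟨h1, h2, h3, h4, -⟩ := h.HdQ0_re
  exact_mod_cast (by linarith : (g.R : ℝ) < g.r2)

theorem thin_ann (hw : g.Thin w) : g.Ann w := by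
  obtain ⟨h1, h2, h3, h4, -⟩ := h.HdQ0_re
  obtain ⟨a, b⟩ := hw
  rw [HdQ0_lo] at a
  rw [HdQ0_hi] at b
  exact ⟨by linarith, by linarith⟩

theorem ann_R (hw : ‖w‖ = (g.R : ℝ)) : g.Ann w := by
  obtain ⟨h1, h2, h3, h4, -⟩ := h.HdQ0_re
  exact ⟨by linarith, by linarith⟩

theorem w_ne (hw : g.Ann w) : w ≠ 0 := norm_pos_iff.1 (h.HdQ0_re.1.trans_le hw.1)

theorem s_ge (hw : g.Ann w) : (g.smin : ℝ) ≤ ‖(g.c : ℂ) + w‖ := by
  obtain ⟨a, b, -⟩ := HdQ0_tri g.c w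
  obtain ⟨-, -, -, -, ⟨-, e, -⟩ | ⟨-, e, -⟩⟩ := h.HdQ0_re <;> linarith [hw.1, hw.2]

theorem s_le (hw : g.Ann w) : ‖(g.c : ℂ) + w‖ ≤ (g.sh g.r2 : ℝ) := by
  have _ := h
  unfold Ge.sh
  push_cast
  linarith [(HdQ0_tri g.c w).2.2, hw.2]

theorem s_ne (hw : g.Ann w) : (g.c : ℂ) + w ≠ 0 :=
  norm_pos_iff.1 (lt_of_lt_of_le (by exact_mod_cast h.smin_pos) (h.s_ge hw))

theorem sl_ge {r : ℚ} (h1 : g.r1 ≤ r) (h2 : r ≤ g.r2) : g.smin ≤ g.sl r := by
  have _ := h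
  unfold Ge.smin Ge.sl
  split_ifs <;> linarith

theorem s_circ {r : ℚ} (hw : ‖w‖ = (r : ℝ)) :
    (g.sl r : ℝ) ≤ ‖(g.c : ℂ) + w‖ ∧ ‖(g.c : ℂ) + w‖ ≤ (g.sh r : ℝ) := by
  have _ := h
  obtain ⟨a, b, c⟩ := HdQ0_tri g.c w
  unfold Ge.sl Ge.sh
  split_ifs <;> push_cast <;> exact ⟨by linarith, by linarith⟩

theorem phi0_re (hw : g.Ann w) : 0 < (g.phi0 w).re := by
  have w0 := h.w_ne hw
  obtain ⟨h1, -, -, -, ⟨hz, -, e⟩ | ⟨hz, -, e⟩⟩ := h.HdQ0_re
  · have n : ‖(g.c : ℂ) / w‖ < 1 := by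
      rw [norm_div, Complex.norm_ratCast, div_lt_one (norm_pos_iff.2 w0)]
      exact e.trans_le hw.1
    rw [Ge.phi0, if_pos hz, add_div, div_self w0, add_re, one_re]
    linarith [(abs_le.1 (abs_re_le_norm ((g.c : ℂ) / w))).1]
  · rw [Ge.phi0, if_neg hz, add_re, ratCast_re]
    linarith [(abs_le.1 (abs_re_le_norm w)).1, hw.2]

theorem phi0_diff (hw : g.Ann w) : DifferentiableAt ℂ g.phi0 w := by
  have w0 := h.w_ne hw
  by_cases hz : g.zin = true
  · rw [show g.phi0 = fun w : ℂ => (g.c + w) / w from funext fun _ => if_pos hz]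
    fun_prop (disch := exact w0)
  · rw [show g.phi0 = fun w : ℂ => g.c + w from funext fun _ => if_neg hz]
    fun_prop

theorem phi0_arg (hw : g.Thin w) : |arg (g.phi0 w)| ≤ (az g.z0 : ℝ) := by
  have w0 := h.w_ne (h.thin_ann hw)
  have hr : (g.z0 : ℝ) ≤ 47 / 50 := by
    have : (g.z0 : ℝ) ≤ ((47 / 50 : ℚ) : ℝ) := Rat.cast_le.2 h.z0_le
    rwa [Rat.cast_div, Rat.cast_ofNat, Rat.cast_ofNat] at this
  have ea : (az g.z0 : ℝ) = g.z0 + 3 / 5 * (g.z0 : ℝ) ^ 3 := by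
    unfold az
    push_cast
    rfl
  rw [ea]
  obtain ⟨h1, h2, h3, h4, ⟨hz, -, e⟩ | ⟨hz, -, e⟩⟩ := h.HdQ0_re
  · have e1 : g.phi0 w = ((1 : ℝ) : ℂ) * (1 + (g.c : ℂ) / w) := by
      rw [Ge.phi0, if_pos hz, add_div, div_self w0, ofReal_one, one_mul, add_comm]
    rw [e1]
    refine arg_az one_pos ?_ hr
    rw [Ge.z0, if_pos hz, norm_div, Complex.norm_ratCast, Rat.cast_div, Rat.cast_abs]
    exact div_le_div_of_nonneg_left (abs_nonneg _) (by rw [HdQ0_lo]; linarith) hw.1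
  · have c0 : 0 < (g.c : ℝ) := by linarith
    have c1 : (g.c : ℂ) ≠ 0 := by exact_mod_cast c0.ne'
    have e1 : g.phi0 w = ((g.c : ℝ) : ℂ) * (1 + w / (g.c : ℂ)) := by
      rw [Ge.phi0, if_neg hz, ofReal_ratCast, mul_add, mul_one, mul_div_cancel₀ _ c1]
    rw [e1]
    refine arg_az c0 ?_ hr
    rw [Ge.z0, if_neg hz, norm_div, Complex.norm_ratCast, Rat.cast_div, abs_of_pos c0]
    exact div_le_div_of_nonneg_right hw.2 c0.le

theorem ends : 0 < (g.c : ℝ) + g.R ∧ (if g.zin then (g.c : ℝ) - g.R < 0 else 0 < (g.c : ℝ) - g.R) ∧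
    (g.smin : ℝ) < min ((g.c : ℝ) + g.R) |(g.c : ℝ) - g.R| := by
  have a := le_abs_self (g.c : ℝ)
  have b := neg_abs_le (g.c : ℝ)
  have c := le_abs_self ((g.c : ℝ) - g.R)
  have d := neg_le_abs ((g.c : ℝ) - g.R)
  obtain ⟨h1, h2, h3, h4, ⟨hz, e, e'⟩ | ⟨hz, e, e'⟩⟩ := h.HdQ0_re
  · rw [if_pos hz]
    exact ⟨by linarith, by linarith, lt_min (by linarith) (by linarith)⟩
  · rw [if_neg hz]
    exact ⟨by linarith, by linarith, lt_min (by linarith) (by linarith)⟩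

theorem thin_of {z : ℂ} (hw : ‖w‖ = (g.R : ℝ)) (hz : ‖z - w‖ ≤ (g.R : ℝ) / 2 ^ 38) :
    g.Thin z := by
  have h4 := h.HdQ0_re.2.2.2.1
  obtain ⟨a, b⟩ := abs_le.1 ((abs_norm_sub_norm_le z w).trans hz)
  unfold Ge.Thin
  rw [HdQ0_lo, HdQ0_hi]
  exact ⟨by linarith, by linarith⟩

theorem tol : (g.R : ℝ) / 2 ^ 38 < min ((g.R : ℝ) - g.r1) ((g.r2 : ℝ) - g.R) := by
  obtain ⟨h1, h2, h3, h4, -⟩ := h.HdQ0_re
  exact lt_min (by linarith) (by linarith)

end Ge.Ok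

end Pool.Agent.MP_92463a_gt

end
end

section

open Set Complex Filter Metric
open scoped Topology ComplexConjugate ContDiff Manifold

noncomputable section

namespace Pool.Agent.MP_92463a_gt

theorem root4_const {f : ℝ → ℂ} {a b : ℝ} (hf : ContinuousOn f (Icc a b))
    (h4 : ∀ θ ∈ Icc a b, f θ ^ 4 = 1) (ha : f a = 1) : ∀ θ ∈ Icc a b, f θ = 1 := by
  intro θ hθ
  have hT : ({1, -1, I, -I} : Set ℂ).Finite := Set.toFinite _
  have hm : MapsTo f (Icc a b) {1, -1, I, -I} := fun t ht => by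
    have h : (f t - 1) * (f t + 1) * (f t - I) * (f t + I) = 0 := by
      linear_combination h4 t ht - (f t ^ 2 - 1) * I_sq
    simp only [mul_eq_zero, sub_eq_zero, add_eq_zero_iff_eq_neg] at h
    simp only [mem_insert_iff, mem_singleton_iff]
    tauto
  rw [← ha]
  exact isPreconnected_Icc.constant_of_mapsTo hT.isDiscrete hf hm hθ ⟨le_rfl, hθ.1.trans hθ.2⟩

theorem HdA1_mem {R : ℝ} (hR : 0 < R) (θ : ℝ) : (R * exp (θ * I) : ℂ) ∈ sphere (0 : ℂ) R := by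
  simp [abs_of_pos hR]

theorem HdA1_conj_mem {R : ℝ} {w : ℂ} (hw : w ∈ sphere (0 : ℂ) R) : conj w ∈ sphere (0 : ℂ) R := by
  simpa using hw

theorem sym_circ {Γ Ψ : ℂ → ℂ} {R : ℝ} (hR : 0 < R) (hc : ContinuousOn Γ (sphere 0 R))
    (h4 : ∀ w ∈ sphere (0 : ℂ) R, Γ w ≠ 0 ∧ Γ w ^ 4 = Ψ w)
    (hs : ∀ w ∈ sphere (0 : ℂ) R, Ψ (conj w) = conj (Ψ w)) (h0 : (Γ R).im = 0) :
    ∀ w ∈ sphere (0 : ℂ) R, Γ (conj w) = conj (Γ w) := by
  intro w hw
  have hcw : Continuous fun θ : ℝ => (R * exp (θ * I) : ℂ) := by fun_prop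
  have h1 : Continuous fun θ : ℝ => Γ (R * exp (θ * I)) :=
    hc.comp_continuous hcw (HdA1_mem hR)
  have h2 : Continuous fun θ : ℝ => Γ (conj (R * exp (θ * I))) :=
    hc.comp_continuous (continuous_conj.comp hcw) fun θ => HdA1_conj_mem (HdA1_mem hR θ)
  have hne : ∀ θ : ℝ, conj (Γ (R * exp (θ * I))) ≠ 0 := fun θ =>
    (map_ne_zero _).2 (h4 _ (HdA1_mem hR θ)).1
  have key := root4_const (f := fun θ : ℝ => Γ (conj (R * exp (θ * I))) / conj (Γ (R * exp (θ * I))))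
    (a := 0) (b := 2 * Real.pi) ((h2.div (continuous_conj.comp h1) hne).continuousOn)
    (fun θ _ => by
      have hm := HdA1_mem hR θ
      rw [div_pow, div_eq_one_iff_eq (pow_ne_zero _ (hne θ)), (h4 _ (HdA1_conj_mem hm)).2, hs _ hm,
        ← map_pow, (h4 _ hm).2])
    (by
      have := hne 0
      simp only [ofReal_zero, zero_mul, exp_zero, mul_one, conj_ofReal] at this ⊢
      rw [div_eq_one_iff_eq this, conj_eq_iff_im.2 h0])
  have hn : ‖w‖ = R := by simpa using hw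
  obtain ⟨θ, hθ, rfl⟩ : ∃ θ ∈ Icc (0 : ℝ) (2 * Real.pi), w = R * exp (θ * I) := by
    have h5 : w = R * exp (arg w * I) := by rw [← hn, norm_mul_exp_arg_mul_I]
    by_cases h : 0 ≤ arg w
    · exact ⟨arg w, ⟨h, (arg_le_pi w).trans (by linarith [Real.pi_pos])⟩, h5⟩
    · refine ⟨arg w + 2 * Real.pi, ⟨by linarith [neg_pi_lt_arg w, Real.pi_pos], by linarith⟩, ?_⟩
      push_cast
      rw [add_mul, exp_add, exp_two_pi_mul_I, mul_one]
      exact h5
  exact (div_eq_one_iff_eq (hne θ)).1 (key θ hθ)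

theorem Phi_conj (l : List RC) (z : ℂ) : Phi l (conj z) = conj (Phi l z) := by
  induction l generalizing z with
  | nil => simp [Phi]
  | cons c l ih =>
    have h : (c.lam : ℂ) * conj z = conj (c.lam * z) := by simp
    rw [Phi, Phi, h, ih]
    split_ifs <;> simp

theorem ZZ_conj (up dn : List RC) (s : ℂ) : ZZ up dn (conj s) = conj (ZZ up dn s) := by
  rw [ZZ, ZZ, ← map_inv₀, Phi_conj, Phi_conj]
  simp

/-- the average over the circle of a symmetric function -/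
theorem avg_half {f : ℂ → ℂ} {R : ℝ} (hR : 0 < R) (hc : ContinuousOn f (sphere 0 R))
    (hs : ∀ w ∈ sphere (0 : ℂ) R, f (conj w) = conj (f w)) :
    ∫ θ in (0 : ℝ)..Real.pi, (f (R * exp (θ * I))).re = Real.pi * (Real.circleAverage f 0 R).re := by
  have hcw : Continuous fun θ : ℝ => (R * exp (θ * I) : ℂ) := by fun_prop
  have h1 : Continuous fun θ : ℝ => f (R * exp (θ * I)) := hc.comp_continuous hcw (HdA1_mem hR)
  have h2 : Continuous fun θ : ℝ => (f (R * exp (θ * I))).re := continuous_re.comp h1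
  have h3 : (∫ θ in (0 : ℝ)..2 * Real.pi, f (R * exp (θ * I))).re =
      ∫ θ in (0 : ℝ)..2 * Real.pi, (f (R * exp (θ * I))).re :=
    (reCLM.intervalIntegral_comp_comm (h1.intervalIntegrable _ _)).symm
  have h4 : ∫ θ in Real.pi..2 * Real.pi, (f (R * exp (θ * I))).re =
      ∫ θ in (0 : ℝ)..Real.pi, (f (R * exp (θ * I))).re := by
    have h5 := intervalIntegral.integral_comp_sub_left (a := 0) (b := Real.pi)
      (fun θ : ℝ => (f (R * exp (θ * I))).re) (2 * Real.pi)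
    rw [show 2 * Real.pi - Real.pi = Real.pi by ring, sub_zero] at h5
    rw [← h5]
    refine intervalIntegral.integral_congr fun θ _ => ?_
    have h6 : (R * exp (((2 * Real.pi - θ : ℝ) : ℂ) * I) : ℂ) = conj (R * exp (θ * I)) := by
      push_cast
      rw [sub_mul, exp_sub, exp_two_pi_mul_I, map_mul, conj_ofReal, ← exp_conj, one_div, ← exp_neg]
      simp
    simp only [h6, hs _ (HdA1_mem hR θ), conj_re]
  rw [Real.circleAverage_def]
  simp only [circleMap, zero_add, smul_re, smul_eq_mul]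
  rw [h3, ← intervalIntegral.integral_add_adjacent_intervals (b := Real.pi) (c := 2 * Real.pi)
    (h2.intervalIntegrable _ _) (h2.intervalIntegrable _ _), h4]
  generalize ∫ θ in (0 : ℝ)..Real.pi, (f (R * exp (θ * I))).re = J
  field_simp
  ring

end Pool.Agent.MP_92463a_gt

end
end

section

open Set Complex Filter Metric
open scoped Topology ComplexConjugate ContDiff Manifold

noncomputable section

namespace Pool.Agent.MP_92463a_gt

theorem HdB1_int {f : ℂ → ℂ} {r : ℝ} (hr : 0 ≤ r) (hf : ∀ w : ℂ, ‖w‖ = r → DifferentiableAt ℂ f w)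
    {z : ℂ} (hz : ‖z‖ ≠ r) : CircleIntegrable (fun w => (w - z)⁻¹ * f w) 0 r := by
  refine ContinuousOn.circleIntegrable hr fun w hw => ?_
  have hw' : ‖w‖ = r := by simpa using hw
  have hne : w - z ≠ 0 := fun h => hz (by rw [← sub_eq_zero.1 h, hw'])
  exact (((continuousAt_id.sub continuousAt_const).inv₀ hne).mul
    (hf w hw').continuousAt).continuousWithinAt

/-- the Cauchy formula on an annulus -/
theorem HdB1_cauchy {f : ℂ → ℂ} {r1 r2 : ℝ} (h0 : 0 < r1)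
    (hf : ∀ w : ℂ, r1 ≤ ‖w‖ → ‖w‖ ≤ r2 → DifferentiableAt ℂ f w) {z : ℂ} (h1 : r1 < ‖z‖)
    (h2 : ‖z‖ < r2) :
    2 * Real.pi * I * f z =
      (∮ w in C(0, r2), (w - z)⁻¹ * f w) - ∮ w in C(0, r1), (w - z)⁻¹ * f w := by
  have h12 : r1 ≤ r2 := (h1.trans h2).le
  have hmem : ∀ w : ℂ, w ∈ closedBall (0 : ℂ) r2 \ ball 0 r1 → DifferentiableAt ℂ f w := by
    intro w hw
    refine hf w ?_ ?_
    · simpa using hw.2
    · simpa using hw.1
  have e := circleIntegral_eq_of_differentiable_on_annulus_off_countable (c := 0) (f := dslope f z)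
    h0 h12 (countable_singleton z) (fun w hw => by
      by_cases hwz : w = z
      · subst hwz
        exact (continuousAt_dslope_same.2 (hmem w hw)).continuousWithinAt
      · exact ((continuousAt_dslope_of_ne hwz).2 (hmem w hw).continuousAt).continuousWithinAt)
    (fun w hw => (differentiableAt_dslope_of_ne hw.2).2
      (hmem w ⟨ball_subset_closedBall hw.1.1, fun h => hw.1.2 (ball_subset_closedBall h)⟩))
  have split : ∀ r : ℝ, r1 ≤ r → r ≤ r2 → ‖z‖ ≠ r → (∮ w in C(0, r), dslope f z w) =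
      (∮ w in C(0, r), (w - z)⁻¹ * f w) - (∮ w in C(0, r), (w - z)⁻¹) * f z := by
    intro r a b c
    have hr : 0 ≤ r := h0.le.trans a
    rw [← smul_eq_mul _ (f z), ← circleIntegral.integral_smul_const]
    simp only [smul_eq_mul]
    rw [← circleIntegral.integral_sub (HdB1_int hr (fun w hw => hf w (hw ▸ a) (hw ▸ b)) c)
        (HdB1_int hr (f := fun _ => f z) (fun w _ => differentiableAt_const _) c)]
    refine circleIntegral.integral_congr hr fun w hw => ?_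
    have hw' : ‖w‖ = r := by simpa using hw
    have hne : w ≠ z := fun h => c (by rw [← h, hw'])
    simp only [dslope_of_ne f hne, slope_def_module, smul_eq_mul]
    ring
  have z1 : (∮ w in C(0, r1), (w - z)⁻¹) = 0 := by
    have hd : ∀ w ∈ closedBall (0 : ℂ) r1, DifferentiableAt ℂ (fun w => (w - z)⁻¹) w := by
      intro w hw
      have hw' : ‖w‖ ≤ r1 := by simpa using hw
      have hne : w - z ≠ 0 := fun h => by
        rw [sub_eq_zero.1 h] at hw'
        linarith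
      exact (differentiableAt_id.sub_const z).inv hne
    exact circleIntegral_eq_zero_of_differentiable_on_off_countable h0.le countable_empty
      (fun w hw => (hd w hw).continuousAt.continuousWithinAt)
      fun w hw => hd w (ball_subset_closedBall hw.1)
  rw [split r2 h12 le_rfl h2.ne, split r1 le_rfl h12 h1.ne', z1,
    circleIntegral.integral_sub_inv_of_mem_ball (by simpa using h2)] at e
  linear_combination -e

theorem HdB1_norm {R : ℝ} (hR : 0 ≤ R) (N k : ℕ) :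
    ‖(R : ℂ) * exp (Real.pi * (2 * k + 1) / N * I)‖ = R := by
  have : (Real.pi : ℂ) * (2 * k + 1) / N * I = ((Real.pi * (2 * k + 1) / N : ℝ) : ℂ) * I := by
    push_cast
    ring
  rw [norm_mul, this, norm_exp_ofReal_mul_I, norm_real, Real.norm_of_nonneg hR, mul_one]

theorem HdB1_prod (R : ℝ) {N : ℕ} (hN : 0 < N) (w : ℂ) :
    ∏ k ∈ Finset.range N, (w - R * exp (Real.pi * (2 * k + 1) / N * I)) = w ^ N + (R : ℂ) ^ N := by
  have hN' : (N : ℂ) ≠ 0 := Nat.cast_ne_zero.2 hN.ne'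
  have e : ((R : ℂ) * exp (Real.pi / N * I)) ^ N = -(R : ℂ) ^ N := by
    rw [mul_pow, ← exp_nat_mul, show (N : ℂ) * (Real.pi / N * I) = Real.pi * I by field_simp,
      exp_pi_mul_I]
    ring
  have h := congrArg (Polynomial.eval w)
    (X_pow_sub_C_eq_prod (isPrimitiveRoot_exp N hN.ne') hN e)
  simp only [Polynomial.eval_sub, Polynomial.eval_pow, Polynomial.eval_X, Polynomial.eval_C,
    Polynomial.eval_prod, sub_neg_eq_add] at h
  rw [h]
  refine Finset.prod_congr rfl fun k _ => ?_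
  rw [← exp_nat_mul, mul_left_comm, ← exp_add]
  congr 3
  ring

theorem HdB1_ker {R : ℝ} (hR : 0 ≤ R) {N : ℕ} (hN : 0 < N) {w : ℂ} (hw : ‖w‖ ≠ R) :
    ∑ k ∈ Finset.range N, (w - R * exp (Real.pi * (2 * k + 1) / N * I))⁻¹ =
      N * w ^ (N - 1) / (w ^ N + (R : ℂ) ^ N) := by
  have hne : ∀ k ∈ Finset.range N, w - R * exp (Real.pi * (2 * k + 1) / N * I) ≠ 0 :=
    fun k _ h => hw (by rw [sub_eq_zero.1 h, HdB1_norm hR])
  have h := logDeriv_prod (s := Finset.range N)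
    (f := fun (k : ℕ) (w : ℂ) => w - R * exp (Real.pi * (2 * k + 1) / N * I)) (x := w) hne
    fun k _ => differentiableAt_id.sub_const _
  simp only [HdB1_prod R hN, logDeriv_apply, deriv_sub_const, deriv_id'', one_div,
    deriv_add_const, deriv_pow_field] at h
  exact h.symm

/-- the error of the trapezoidal rule on a circle -/
theorem alias_err {f : ℂ → ℂ} {r1 R r2 M1 M2 : ℝ} {N : ℕ} (hN : 0 < N) (h0 : 0 < r1) (h1 : r1 < R)
    (h2 : R < r2) (hf : ∀ w : ℂ, r1 ≤ ‖w‖ → ‖w‖ ≤ r2 → DifferentiableAt ℂ f w)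
    (hM1 : ∀ w : ℂ, ‖w‖ = r1 → ‖f w‖ ≤ M1) (hM2 : ∀ w : ℂ, ‖w‖ = r2 → ‖f w‖ ≤ M2) :
    ‖Real.circleAverage f 0 R -
      (∑ k ∈ Finset.range N, f (R * exp (Real.pi * (2 * k + 1) / N * I))) / N‖ ≤
      M1 * ((r1 / R) ^ N / (1 - (r1 / R) ^ N)) + M2 * ((R / r2) ^ N / (1 - (R / r2) ^ N)) := by
  have hR : 0 < R := h0.trans h1
  have hr2 : 0 < r2 := hR.trans h2
  have h12 : r1 ≤ r2 := (h1.trans h2).le
  have hN' : (N : ℂ) ≠ 0 := Nat.cast_ne_zero.2 hN.ne'
  have hpi : (2 * Real.pi * I : ℂ) ≠ 0 := by simp [Real.pi_ne_zero]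
  have hf1 : ∀ w : ℂ, ‖w‖ = r1 → DifferentiableAt ℂ f w := fun w hw => hf w hw.ge (hw ▸ h12)
  have hf2 : ∀ w : ℂ, ‖w‖ = r2 → DifferentiableAt ℂ f w := fun w hw => hf w (hw ▸ h12) hw.le
  obtain ⟨n, rfl⟩ : ∃ n, N = n + 1 := ⟨N - 1, by omega⟩
  set z : ℕ → ℂ := fun k => R * exp (Real.pi * (2 * k + 1) / (n + 1 : ℕ) * I) with hz
  have hzn : ∀ k, ‖z k‖ = R := fun k => HdB1_norm hR.le _ k
  have hA : Real.circleAverage f 0 R =
      (2 * Real.pi * I : ℂ)⁻¹ * ∮ w in C(0, r2), (w - 0)⁻¹ * f w := by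
    rw [Real.circleAverage_eq_circleIntegral hR.ne',
      ← circleIntegral_sub_center_inv_smul_eq_of_differentiable_on_annulus_off_countable hR h2.le
        countable_empty (fun w hw => (hf w (h1.le.trans (by simpa using hw.2))
          (by simpa using hw.1)).continuousAt.continuousWithinAt)
        (fun w hw => hf w (h1.le.trans (le_of_lt (by simpa using hw.1.2)))
          (le_of_lt (by simpa using hw.1.1)))]
    rfl
  have hS : 2 * Real.pi * I * ∑ k ∈ Finset.range (n + 1), f (z k) =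
      (∮ w in C(0, r2), ∑ k ∈ Finset.range (n + 1), (w - z k)⁻¹ * f w) -
        ∮ w in C(0, r1), ∑ k ∈ Finset.range (n + 1), (w - z k)⁻¹ * f w := by
    rw [circleIntegral.integral_fun_sum fun k _ => HdB1_int hr2.le hf2 (by rw [hzn]; exact h2.ne),
      circleIntegral.integral_fun_sum fun k _ => HdB1_int h0.le hf1 (by rw [hzn]; exact h1.ne'),
      Finset.mul_sum, ← Finset.sum_sub_distrib]
    exact Finset.sum_congr rfl fun k _ =>
      HdB1_cauchy h0 hf (by rw [hzn]; exact h1) (by rw [hzn]; exact h2)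
  have hI : CircleIntegrable (fun w => ((n + 1 : ℕ) : ℂ)⁻¹ *
      ∑ k ∈ Finset.range (n + 1), (w - z k)⁻¹ * f w) 0 r2 :=
    (CircleIntegrable.fun_sum _ fun k _ =>
      HdB1_int hr2.le hf2 (by rw [hzn]; exact h2.ne)).const_fun_smul (a := ((n + 1 : ℕ) : ℂ)⁻¹)
  have hE : Real.circleAverage f 0 R - (∑ k ∈ Finset.range (n + 1), f (z k)) / (n + 1 : ℕ) =
      (2 * Real.pi * I : ℂ)⁻¹ • (∮ w in C(0, r1), ((n + 1 : ℕ) : ℂ)⁻¹ *
        ∑ k ∈ Finset.range (n + 1), (w - z k)⁻¹ * f w) +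
      (2 * Real.pi * I : ℂ)⁻¹ • ∮ w in C(0, r2), ((w - 0)⁻¹ * f w - ((n + 1 : ℕ) : ℂ)⁻¹ *
        ∑ k ∈ Finset.range (n + 1), (w - z k)⁻¹ * f w) := by
    rw [circleIntegral.integral_sub (HdB1_int hr2.le hf2 (by simpa using hr2.ne)) hI,
      circleIntegral.integral_const_mul, circleIntegral.integral_const_mul, hA, smul_eq_mul,
      smul_eq_mul, (eq_inv_mul_iff_mul_eq₀ hpi).2 hS]
    ring
  have p1 : r1 ^ (n + 1) < R ^ (n + 1) := pow_lt_pow_left₀ h1 h0.le (by omega)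
  have p2 : R ^ (n + 1) < r2 ^ (n + 1) := pow_lt_pow_left₀ h2 hR.le (by omega)
  have nR : ‖(R : ℂ) ^ (n + 1)‖ = R ^ (n + 1) := by
    rw [norm_pow, norm_real, Real.norm_of_nonneg hR.le]
  change ‖Real.circleAverage f 0 R - (∑ k ∈ Finset.range (n + 1), f (z k)) / (n + 1 : ℕ)‖ ≤ _
  rw [hE]
  refine (norm_add_le _ _).trans (add_le_add ?_ ?_)
  · refine (circleIntegral.norm_two_pi_i_inv_smul_integral_le_of_norm_le_const
      (C := r1 ^ n / (R ^ (n + 1) - r1 ^ (n + 1)) * M1) h0.le fun w hw => ?_).trans (le_of_eq ?_)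
    · have hw' : ‖w‖ = r1 := by simpa using hw
      have hl : R ^ (n + 1) - r1 ^ (n + 1) ≤ ‖w ^ (n + 1) + (R : ℂ) ^ (n + 1)‖ := by
        have := norm_sub_norm_le ((R : ℂ) ^ (n + 1)) (-w ^ (n + 1))
        rwa [nR, norm_neg, norm_pow, hw', sub_neg_eq_add, add_comm ((R : ℂ) ^ (n + 1))] at this
      rw [← Finset.sum_mul, HdB1_ker hR.le hN (by rw [hw']; exact h1.ne), ← mul_assoc,
        ← mul_div_assoc, ← mul_assoc, inv_mul_cancel₀ hN', one_mul, norm_mul, norm_div, norm_pow,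
        hw', Nat.add_sub_cancel]
      exact mul_le_mul (div_le_div_of_nonneg_left (by positivity) (by linarith) hl) (hM1 w hw')
        (norm_nonneg _) (div_nonneg (by positivity) (by linarith))
    · have : R ^ (n + 1) - r1 ^ (n + 1) ≠ 0 := by linarith
      rw [div_pow, one_sub_div (by positivity), div_div_div_cancel_right₀ (by positivity)]
      ring
  · refine (circleIntegral.norm_two_pi_i_inv_smul_integral_le_of_norm_le_const
      (C := R ^ (n + 1) / (r2 * (r2 ^ (n + 1) - R ^ (n + 1))) * M2) hr2.le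
        fun w hw => ?_).trans (le_of_eq ?_)
    · have hw' : ‖w‖ = r2 := by simpa using hw
      have hl : r2 ^ (n + 1) - R ^ (n + 1) ≤ ‖w ^ (n + 1) + (R : ℂ) ^ (n + 1)‖ := by
        have := norm_sub_norm_le (w ^ (n + 1)) (-(R : ℂ) ^ (n + 1))
        rwa [norm_neg, nR, norm_pow, hw', sub_neg_eq_add] at this
      have hw0 : w ≠ 0 := norm_pos_iff.1 (hw' ▸ hr2)
      have hd : w ^ (n + 1) + (R : ℂ) ^ (n + 1) ≠ 0 := norm_pos_iff.1 (by linarith)
      have e : (w - 0)⁻¹ * f w - w ^ n / (w ^ (n + 1) + (R : ℂ) ^ (n + 1)) * f w =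
          (R : ℂ) ^ (n + 1) / (w * (w ^ (n + 1) + (R : ℂ) ^ (n + 1))) * f w := by
        rw [sub_zero]
        field_simp
        ring
      rw [← Finset.sum_mul, HdB1_ker hR.le hN (by rw [hw']; exact h2.ne'), ← mul_assoc,
        ← mul_div_assoc, ← mul_assoc, inv_mul_cancel₀ hN', one_mul, Nat.add_sub_cancel, e,
        norm_mul, norm_div, nR, norm_mul, hw']
      have hp : 0 < r2 * (r2 ^ (n + 1) - R ^ (n + 1)) := mul_pos hr2 (by linarith)
      exact mul_le_mul (div_le_div_of_nonneg_left (by positivity) hp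
        (mul_le_mul_of_nonneg_left hl hr2.le)) (hM2 w hw') (norm_nonneg _)
        (div_nonneg (by positivity) hp.le)
    · have : r2 ^ (n + 1) - R ^ (n + 1) ≠ 0 := by linarith
      rw [div_pow, one_sub_div (by positivity), div_div_div_cancel_right₀ (by positivity)]
      field_simp

end Pool.Agent.MP_92463a_gt

end
end
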