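import Pool.Agent.Mg.F92463a.Gbd667f

section

open Set Complex Filter Metric
open scoped Topology ComplexConjugate ContDiff Manifold

noncomputable section

namespace Pool.Agent.MP_92463a_gt

theorem HdQ1_re {t : ℝ} (ht : 0 < t) {z p : ℂ} (hz : ‖z‖ < 1) (hp : p = t * (1 + z)) :
    0 < p.re := by
  have := (abs_le.1 (abs_re_le_norm z)).1
  rw [hp, re_ofReal_mul, add_re, one_re]
  exact mul_pos ht (by linarith)

theorem HdQ1_nrm (p q : ℚ) : ‖(p : ℂ) - q‖ = |(p : ℝ) - q| := by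
  rw [← Rat.cast_sub, norm_ratCast, Rat.cast_sub]

theorem HdQ1_abs (p : ℚ) : ((|p| : ℚ) : ℂ) = ((|(p : ℝ)| : ℝ) : ℂ) := by
  rw [← Rat.cast_abs, ofReal_ratCast]

namespace AQ

theorem HdQ1_sx (a : AQ) : ‖(a.sx : ℂ) / 2‖ = (a.ex : ℝ) / 2 ∧ (0 : ℝ) < a.ex := by
  rw [norm_div, norm_real, Real.norm_eq_abs]
  unfold sx ex
  split_ifs <;> norm_num

variable {g : Ge} {a : AQ} (h : g.Ok) (ha : a.ok g = true) {w : ℂ}

include ha in
theorem HdQ1_ok : a.al ≠ 0 ∧ a.h ≤ 2 ^ 40 ∧ (0 : ℝ) < a.dist g ∧ (a.xx g : ℝ) ≤ 1 / 2 := by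
  unfold ok at ha
  rw [decide_eq_true_eq] at ha
  refine ⟨ha.1, ha.2.1, by exact_mod_cast ha.2.2.1, ?_⟩
  have : ((a.xx g : ℚ) : ℝ) ≤ ((1 / 2 : ℚ) : ℝ) := Rat.cast_le.2 ha.2.2.2.1
  simpa using this

include h ha

theorem e_ne : a.e ≠ 0 := by
  have := (HdQ1_ok ha).1
  unfold e
  split_ifs
  · exact this
  · exact inv_ne_zero this

theorem dist_le (hw : g.Ann w) : 0 < (a.dist g : ℝ) ∧ (a.dist g : ℝ) ≤ ‖(g.c : ℂ) + w - a.e‖ := by
  refine ⟨(HdQ1_ok ha).2.2.1, ?_⟩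
  have h1 := hw.1
  have h2 := hw.2
  have h3 := h.s_ge hw
  have n1 := HdQ1_nrm g.c a.e
  have a1 : ‖w‖ - ‖(g.c : ℂ) - a.e‖ ≤ ‖(g.c : ℂ) + w - a.e‖ := by
    have := norm_sub_norm_le w (-((g.c : ℂ) - a.e))
    rwa [norm_neg, show w - -((g.c : ℂ) - a.e) = g.c + w - a.e by ring] at this
  have a2 : ‖(g.c : ℂ) - a.e‖ - ‖w‖ ≤ ‖(g.c : ℂ) + w - a.e‖ := by
    have := norm_sub_norm_le ((g.c : ℂ) - a.e) (-w)
    rwa [norm_neg, show (g.c : ℂ) - a.e - -w = g.c + w - a.e by ring] at this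
  have a3 := norm_sub_norm_le ((g.c : ℂ) + w) a.e
  rw [norm_ratCast] at a3
  rw [n1] at a1 a2
  have b1 := le_abs_self ((g.c : ℝ) - a.e)
  have b2 := neg_abs_le ((g.c : ℝ) - a.e)
  unfold dist
  cases a.dp <;> push_cast <;> linarith

theorem HdQ1_ne (hw : g.Ann w) : (g.c : ℂ) + w - a.e ≠ 0 := by
  have := dist_le h ha hw
  exact norm_pos_iff.1 (this.1.trans_le this.2)

theorem phi_re (hw : g.Ann w) : 0 < (a.phi g w).re := by
  have hd := (HdQ1_ok ha).2.2.1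
  have he : (0 : ℝ) < |(a.e : ℝ)| := abs_pos.2 (by exact_mod_cast e_ne h ha)
  have he' : ((|(a.e : ℝ)| : ℝ) : ℂ) ≠ 0 := by exact_mod_cast he.ne'
  have h1 := hw.1
  have h2 := hw.2
  have h3 := h.s_ge hw
  have w0 := h.w_ne hw
  have s0 := h.s_ne hw
  have r0 := abs_le.1 (abs_re_le_norm w)
  unfold dist at hd
  unfold phi
  rw [HdQ1_abs]
  revert hd
  cases a.dp <;> intro hd <;> push_cast at hd
  · refine HdQ1_re (z := ((g.c : ℂ) - a.e) / w) (inv_pos.2 he) ?_ ?_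
    · rw [norm_div, div_lt_one (norm_pos_iff.2 w0), HdQ1_nrm]; linarith
    · rw [ofReal_inv]; field_simp; ring
  · rw [div_ofReal_re]
    refine div_pos ?_ he
    simp only [sub_re, add_re, ratCast_re]; linarith
  · rw [div_ofReal_re]
    refine div_pos ?_ he
    simp only [neg_re, sub_re, add_re, ratCast_re]; linarith
  · refine HdQ1_re (z := -(a.e : ℂ) / (g.c + w)) one_pos ?_ ?_
    · rw [norm_div, div_lt_one (norm_pos_iff.2 s0), norm_neg, norm_ratCast]; linarith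
    · rw [ofReal_one]; field_simp; ring

theorem phi_diff (hw : g.Ann w) : DifferentiableAt ℂ (a.phi g) w := by
  have he : ((|a.e| : ℚ) : ℂ) ≠ 0 := by exact_mod_cast abs_ne_zero.2 (e_ne h ha)
  have w0 := h.w_ne hw
  have s0 := h.s_ne hw
  unfold phi
  cases a.dp
  · exact DifferentiableAt.div (by fun_prop) (by fun_prop) (mul_ne_zero he w0)
  · exact DifferentiableAt.div (by fun_prop) (by fun_prop) he
  · exact DifferentiableAt.div (by fun_prop) (by fun_prop) he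
  · exact DifferentiableAt.div (by fun_prop) (by fun_prop) s0

theorem phi_im (hw : w.im = 0) : (a.phi g w).im = 0 := by
  unfold phi
  cases a.dp <;> simp [div_im, hw]

theorem uu_le (hw : g.Ann w) : ‖a.uu (g.c + w)‖ ≤ (a.um g : ℝ) := by
  have hd := dist_le h ha hw
  have hn := HdQ1_ne h ha hw
  have h4 := h.s_le hw
  have k1 : ‖-(a.e : ℂ) / (g.c + w - a.e)‖ ≤ |(a.e : ℝ)| / a.dist g := by
    rw [norm_div, norm_neg, norm_ratCast]
    exact div_le_div_of_nonneg_left (abs_nonneg _) hd.1 hd.2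
  have k2 : ‖((g.c : ℂ) + w) / (g.c + w - a.e)‖ ≤ (g.sh g.r2 : ℝ) / a.dist g := by
    rw [norm_div]
    exact div_le_div₀ ((norm_nonneg _).trans h4) h4 hd.1 hd.2
  have k3 : ‖((g.c : ℂ) + w) / (g.c + w - a.e)‖ ≤ 1 + |(a.e : ℝ)| / a.dist g := by
    have : ((g.c : ℂ) + w) / (g.c + w - a.e) = 1 - -(a.e : ℂ) / (g.c + w - a.e) := by
      field_simp; ring
    rw [this]
    exact (norm_sub_le _ _).trans (by rw [norm_one]; linarith)
  unfold uu um
  cases a.dp <;> simp only [reduceCtorEq, if_true, if_false] <;> push_cast <;> assumption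

theorem F0_sq (hw : g.Ann w) :
    a.F0 (g.c + w) ^ 2 = a.phi g w ^ 2 * (if a.dp = .ins then w ^ 2 else 1) := by
  have hal : (a.al : ℂ) ≠ 0 := by exact_mod_cast (HdQ1_ok ha).1
  have w0 := h.w_ne hw
  have s0 := h.s_ne hw
  have hq : ((|a.e| : ℚ) : ℂ) ^ 2 = (a.e : ℂ) ^ 2 := by
    rw [← Rat.cast_pow, sq_abs, Rat.cast_pow]
  unfold F0 zz phi
  cases hd : a.dp <;> simp only [reduceCtorEq, if_true, if_false, div_pow, mul_pow, hq] <;>
    simp only [e, hd, reduceCtorEq, if_true, if_false, Rat.cast_inv] <;> field_simp <;> ring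

variable {η : ℝ} (hη : |η| ≤ a.h / 2 ^ 40)
include hη

theorem pert_le (hw : g.Ann w) :
    ‖a.uu (g.c + w) * ((Real.exp η - 1 : ℝ) : ℂ)‖ ≤ (a.xx g : ℝ) ∧ (a.xx g : ℝ) ≤ 1 / 2 := by
  refine ⟨?_, (HdQ1_ok ha).2.2.2⟩
  have hu := uu_le h ha hw
  rw [norm_mul, norm_real, Real.norm_eq_abs, xx, Rat.cast_mul]
  exact mul_le_mul hu (eh_bound (HdQ1_ok ha).2.1 hη).1 (abs_nonneg _) ((norm_nonneg _).trans hu)

theorem lg_le (hw : g.Ann w) :
    ‖(a.sx : ℂ) / 2 * a.lg η (g.c + w)‖ ≤ ((3 / 4 * a.ex * a.xx g : ℚ) : ℝ) := by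
  have hp := pert_le h ha hη hw
  have hl := norm_log_one_add_half_le_self (hp.1.trans hp.2)
  have hs := HdQ1_sx a
  rw [norm_mul, hs.1, lg]
  push_cast at hl hp ⊢
  nlinarith [hp.1, hs.2]

theorem lg_diff (hw : g.Ann w) : DifferentiableAt ℂ (fun w => a.lg η (g.c + w)) w := by
  have hp := pert_le h ha hη hw
  have hn := HdQ1_ne h ha hw
  have hu : DifferentiableAt ℂ (fun w => a.uu (g.c + w)) w := by
    unfold uu
    split_ifs <;> exact DifferentiableAt.div (by fun_prop) (by fun_prop) hn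
  unfold lg
  exact DifferentiableAt.clog ((hu.mul_const _).const_add _)
    (mem_slitPlane_of_norm_lt_one (by linarith [hp.1, hp.2]))

theorem lg_im (hw : g.Ann w) (hi : w.im = 0) : (a.lg η (g.c + w)).im = 0 := by
  have hp := pert_le h ha hη hw
  have hu : (a.uu (g.c + w)).im = 0 := by
    unfold uu
    split_ifs <;> simp [div_im, hi]
  have r0 := (abs_le.1 (abs_re_le_norm (a.uu (g.c + w) * ((Real.exp η - 1 : ℝ) : ℂ)))).1
  rw [lg, log_im, arg_eq_zero_iff]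
  refine ⟨?_, ?_⟩
  · rw [add_re, one_re]; linarith [hp.1, hp.2]
  · rw [add_im, one_im, mul_im, hu, ofReal_im]; ring

theorem lg_exp (hw : g.Ann w) : a.F0 (g.c + w) * exp (a.lg η (g.c + w)) =
    1 - a.al * Real.exp η * a.zz (g.c + w) := by
  have hp := pert_le h ha hη hw
  have hn := HdQ1_ne h ha hw
  have hal : (a.al : ℂ) ≠ 0 := by exact_mod_cast (HdQ1_ok ha).1
  have s0 := h.s_ne hw
  have hk : a.F0 (g.c + w) * a.uu (g.c + w) = -(a.al * a.zz (g.c + w)) := by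
    unfold F0 uu zz
    unfold e at hn ⊢
    split_ifs at hn ⊢
    · field_simp
    · rw [Rat.cast_inv] at hn ⊢
      rw [mul_div_assoc', div_eq_iff hn]
      field_simp
      ring
  rw [lg, exp_log (slitPlane_ne_zero (mem_slitPlane_of_norm_lt_one (by linarith [hp.1, hp.2]))),
    mul_add, ← mul_assoc, hk, F0]
  push_cast
  ring

theorem lg_lin (hw : g.Ann w) :
    ‖(a.sx : ℂ) / 2 * a.lg η (g.c + w) - (a.sx : ℂ) / 2 * a.uu (g.c + w) * η‖ ≤
      (a.kap g : ℝ) * (|(a.e : ℝ)| * ‖(g.c : ℂ) + w‖ / ‖(g.c : ℂ) + w - a.e‖ ^ 2) := by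
  have ho := HdQ1_ok ha
  have hn := HdQ1_ne h ha hw
  have hu := uu_le h ha hw
  have hb := eh_bound ho.2.1 hη
  have hx : ‖a.uu (g.c + w)‖ * (eh a.h : ℝ) ≤ (a.xx g : ℝ) := by
    rw [xx, Rat.cast_mul]
    exact mul_le_mul_of_nonneg_right hu ((abs_nonneg _).trans hb.1)
  have hl := atom_log hη hb.2 hx (by linarith [ho.2.2.2])
  have hs := HdQ1_sx a
  have hv : ‖a.uu (g.c + w) * (1 - a.uu (g.c + w))‖ =
      |(a.e : ℝ)| * ‖(g.c : ℂ) + w‖ / ‖(g.c : ℂ) + w - a.e‖ ^ 2 := by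
    have : a.uu (g.c + w) * (1 - a.uu (g.c + w)) =
        -((a.e : ℂ) * (g.c + w) / (g.c + w - a.e) ^ 2) := by
      unfold uu
      split_ifs <;> field_simp <;> ring
    rw [this, norm_neg, norm_div, norm_mul, norm_pow, norm_ratCast]
  rw [mul_assoc, ← mul_sub, norm_mul, hs.1, ← hv, lg]
  refine (mul_le_mul_of_nonneg_left hl (by linarith [hs.2])).trans_eq ?_
  unfold kap
  push_cast
  ring

end AQ

end Pool.Agent.MP_92463a_gt

end
end

section

open Set Complex Filter Metric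
open scoped Topology ComplexConjugate ContDiff Manifold

noncomputable section

namespace Pool.Agent.MP_92463a_gt

theorem HdQ2_zp (a : AQ) {z : ℂ} {lo hi : ℚ} (h0 : 0 < lo) (h1 : (lo : ℝ) ≤ ‖z‖)
    (h2 : ‖z‖ ≤ (hi : ℝ)) :
    0 < ‖a.zp z‖ ∧ ‖a.zp z‖ ≤ (a.pw (if a.up then hi else lo⁻¹) : ℚ) ∧
      ‖a.zp z‖⁻¹ ≤ (a.pw (if a.up then lo⁻¹ else hi) : ℚ) := by
  have h3 : (0 : ℝ) < lo := by exact_mod_cast h0
  have h4 : 0 < ‖z‖ := h3.trans_le h1
  have h5 : ‖z‖⁻¹ ≤ (lo : ℝ)⁻¹ := inv_anti₀ h3 h1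
  have h6 : ‖z‖ ^ 3 ≤ (hi : ℝ) ^ 3 := by gcongr
  have h7 : ‖z‖⁻¹ ^ 3 ≤ (lo : ℝ)⁻¹ ^ 3 := by gcongr
  have h8 : 0 < ‖z‖ ^ 3 := by positivity
  rw [inv_pow] at h7
  unfold AQ.zp AQ.pw pm
  cases a.up <;> cases a.cube <;>
    simp only [Bool.false_eq_true, if_false, if_true, norm_inv, norm_pow, inv_inv, inv_pos,
      Rat.cast_pow, Rat.cast_inv] <;>
    refine ⟨?_, ?_, ?_⟩ <;> assumption

theorem HdQ2_nq (x : ℚ) : ‖(x : ℂ)‖ = ((|x| : ℚ) : ℝ) := by
  rw [Complex.norm_ratCast, Rat.cast_abs]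

theorem HdQ2_arg {z φ : ℂ} {t r : ℚ} (ht : 0 < t) (hz : ‖z‖ ≤ (r : ℝ)) (hr : r ≤ 47 / 50)
    (e : φ = t * (1 + z)) : |arg φ| ≤ (az r : ℝ) := by
  have h1 := arg_az (t := t) (by exact_mod_cast ht) hz (by
    have : (r : ℝ) ≤ ((47 / 50 : ℚ) : ℝ) := Rat.cast_le.2 hr
    simpa using this)
  rw [e, az]
  push_cast at h1 ⊢
  exact h1

theorem HdQ2_pert {x y d E u : ℝ} (hd : 0 < d) (hE : |u - 1| ≤ E) (hx : |x| ≤ y)
    (h : y / d * E ≤ 1 / 2) : |x * u - x| ≤ d / 2 := by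
  rw [div_mul_eq_mul_div, div_le_iff₀ hd] at h
  rw [← mul_sub_one, abs_mul]
  exact (mul_le_mul hx hE (abs_nonneg _) ((abs_nonneg _).trans hx)).trans (by linarith)

namespace AQ

variable {g : Ge} {a : AQ} (h : g.Ok) (ha : a.ok g = true) {w : ℂ}
include h ha

theorem circ_le {r : ℚ} (h1 : g.r1 ≤ r) (h2 : r ≤ g.r2) (hw : ‖w‖ = (r : ℝ)) :
    0 < ‖a.zp (a.F0 (g.c + w))‖ ∧ ‖a.zp (a.F0 (g.c + w))‖ ≤ (a.bp g r : ℝ) ∧
      ‖a.zp (a.F0 (g.c + w))‖⁻¹ ≤ (a.bm g r : ℝ) := by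
  obtain ⟨a1, -, a3, -, -⟩ := of_decide_eq_true ha
  have he := abs_pos.2 (e_ne h ha)
  by_cases hl : a.dp = .low
  · have b1 : |a.e| < g.sl r := by
      have := h.sl_ge h1 h2
      simp only [dist, hl] at a3
      linarith
    have b2 : 0 < g.sl r := he.trans b1
    have b3 : ‖(a.al : ℂ) * ((g.c : ℂ) + w)⁻¹‖ ≤ ((|a.e| / g.sl r : ℚ) : ℝ) := by
      rw [norm_mul, norm_inv, HdQ2_nq, Rat.cast_div, e, if_pos hl, ← div_eq_mul_inv]
      exact div_le_div_of_nonneg_left (by positivity) (by exact_mod_cast b2) (h.s_circ hw).1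
    refine HdQ2_zp a ?_ ?_ ?_
    · rw [lo, if_pos hl, sub_pos, div_lt_one b2]
      exact b1
    · rw [lo, if_pos hl, F0, zz, if_pos hl, Rat.cast_sub, Rat.cast_one]
      refine le_trans ?_ (norm_sub_norm_le _ _)
      rw [norm_one]
      exact sub_le_sub_left b3 _
    · rw [hi, if_pos hl, F0, zz, if_pos hl, Rat.cast_add, Rat.cast_one]
      refine (norm_sub_le _ _).trans ?_
      rw [norm_one]
      exact add_le_add_right b3 _
  · have he' : (0 : ℝ) < ((|a.e| : ℚ) : ℝ) := by exact_mod_cast he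
    have b1 : ‖a.F0 (g.c + w)‖ = ‖w - ((a.e - g.c : ℚ) : ℂ)‖ / ((|a.e| : ℚ) : ℝ) := by
      have : (a.al : ℂ) ≠ 0 := by exact_mod_cast a1
      rw [← HdQ2_nq, ← norm_div, ← norm_neg, F0, zz, if_neg hl, e, if_neg hl]
      congr 1
      push_cast
      field_simp
      ring
    have b2 : ‖((a.e - g.c : ℚ) : ℂ)‖ = ((|g.c - a.e| : ℚ) : ℝ) := by rw [HdQ2_nq, abs_sub_comm]
    refine HdQ2_zp a ?_ ?_ ?_
    · rw [lo, if_neg hl]
      refine div_pos (abs_pos.2 (sub_ne_zero.2 ?_)) he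
      have c1 := le_abs_self (g.c - a.e)
      have c2 := neg_le_abs (g.c - a.e)
      cases hd : a.dp <;> simp only [dist, hd] at a3
      · exact ne_of_gt (by linarith)
      · exact ne_of_lt (by linarith)
      · exact ne_of_lt (by linarith)
      · exact absurd hd hl
    · rw [lo, if_neg hl, b1, Rat.cast_div, Rat.cast_abs (r - _), Rat.cast_sub, ← hw, ← b2]
      exact div_le_div_of_nonneg_right (abs_norm_sub_norm_le _ _) he'.le
    · rw [hi, if_neg hl, b1, Rat.cast_div, Rat.cast_add, ← hw, ← b2]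
      exact div_le_div_of_nonneg_right (norm_sub_le _ _) he'.le

theorem phi_arg (hw : g.Thin w) : |arg (a.phi g w)| ≤ (az (a.zR g) : ℝ) := by
  obtain ⟨-, -, a3, -, a5⟩ := of_decide_eq_true ha
  have he := abs_pos.2 (e_ne h ha)
  have he' : ((|a.e| : ℚ) : ℂ) ≠ 0 := Rat.cast_ne_zero.2 he.ne'
  have hA := h.thin_ann hw
  have w0 := h.w_ne hA
  have r0 : 0 < g.r2 := h.R_pos.trans h.R_lt_r2
  have out : g.c - a.e ≠ 0 →
      ‖w / ((g.c - a.e : ℚ) : ℂ)‖ ≤ ((g.Rhi / |g.c - a.e| : ℚ) : ℝ) := fun _ => by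
    rw [norm_div, HdQ2_nq, Rat.cast_div]
    exact div_le_div_of_nonneg_right hw.2 (by positivity)
  cases hd : a.dp <;> simp only [dist, zR, phi, hd] at a3 a5 ⊢
  · refine HdQ2_arg (t := |a.e|⁻¹) (z := ((g.c - a.e : ℚ) : ℂ) / w) (inv_pos.2 he) ?_ a5 ?_
    · rw [norm_div, HdQ2_nq, Rat.cast_div]
      exact div_le_div_of_nonneg_left (by positivity)
        (by exact_mod_cast h.r1_pos.trans h.r1_lt) hw.1
    · rw [Rat.cast_inv, Rat.cast_sub]
      field_simp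
      ring
  · have b1 : 0 < g.c - a.e := by linarith
    have b2 : ((g.c - a.e : ℚ) : ℂ) ≠ 0 := Rat.cast_ne_zero.2 b1.ne'
    refine HdQ2_arg (t := (g.c - a.e) / |a.e|) (div_pos b1 he) (out b1.ne') a5 ?_
    rw [Rat.cast_div]
    field_simp
    push_cast
    ring
  · have b1 : 0 < -(g.c - a.e) := by linarith
    have b0 : g.c - a.e ≠ 0 := neg_ne_zero.1 b1.ne'
    have b2 : ((g.c - a.e : ℚ) : ℂ) ≠ 0 := Rat.cast_ne_zero.2 b0
    refine HdQ2_arg (t := -(g.c - a.e) / |a.e|) (div_pos b1 he) (out b0) a5 ?_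
    rw [Rat.cast_div, Rat.cast_neg]
    field_simp
    push_cast
    ring
  · have s0 := h.s_ne hA
    have b0 : g.Rlo ≤ g.Rhi := by
      have : (g.Rlo : ℝ) ≤ g.Rhi := hw.1.trans hw.2
      exact_mod_cast this
    have b1 : 0 < min (g.sl g.Rlo) (g.sl g.Rhi) := h.smin_pos.trans_le (le_min
      (h.sl_ge h.r1_lt.le (b0.trans h.r2_gt.le)) (h.sl_ge (h.r1_lt.le.trans b0) h.r2_gt.le))
    have b2 : ((min (g.sl g.Rlo) (g.sl g.Rhi) : ℚ) : ℝ) ≤ ‖(g.c : ℂ) + w‖ := by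
      rw [Rat.cast_min]
      have c1 := norm_sub_norm_le w (-(g.c : ℂ))
      have c2 := norm_sub_norm_le (g.c : ℂ) (-w)
      rw [norm_neg, sub_neg_eq_add, Complex.norm_ratCast] at c1 c2
      rw [add_comm] at c1
      have c3 := le_abs_self (g.c : ℝ)
      unfold Ge.sl
      split_ifs
      · refine (min_le_left _ _).trans ?_
        push_cast
        linarith [hw.1]
      · refine (min_le_right _ _).trans ?_
        push_cast
        linarith [hw.2]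
    refine HdQ2_arg (t := 1) (z := -(a.e : ℂ) / (g.c + w)) one_pos ?_ a5 ?_
    · rw [norm_div, norm_neg, HdQ2_nq, Rat.cast_div]
      exact div_le_div_of_nonneg_left (by positivity) (by exact_mod_cast b1) b2
    · rw [Rat.cast_one]
      field_simp
      ring

theorem place {η : ℝ} (hη : |η| ≤ a.h / 2 ^ 40) :
    a.dp.At (a.et η) ((g.c : ℝ) + g.R) ((g.c : ℝ) - g.R) := by
  obtain ⟨-, a2, a3, a4, -⟩ := of_decide_eq_true ha
  have b3 : (0 : ℝ) < a.dist g := by exact_mod_cast a3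
  have b4 : (a.um g : ℝ) * eh a.h ≤ 1 / 2 := by
    have : ((a.xx g : ℚ) : ℝ) ≤ ((1 / 2 : ℚ) : ℝ) := Rat.cast_le.2 a4
    rw [xx] at this
    push_cast at this
    exact this
  have E1 := (eh_bound a2 hη).1
  have E2 := (eh_bound a2 (η := -η) (by rwa [abs_neg])).1
  have E0 : (0 : ℝ) ≤ eh a.h := (abs_nonneg _).trans E1
  have R0 : (0 : ℝ) < g.R := by exact_mod_cast h.R_pos
  have R1 : (g.r1 : ℝ) < g.R := by exact_mod_cast h.r1_lt_R
  have R2 : (g.R : ℝ) < g.r2 := by exact_mod_cast h.R_lt_r2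
  have c1 := le_abs_self (g.c : ℝ)
  have c2 := neg_le_abs (g.c : ℝ)
  have x0 := Real.exp_pos η
  have key : a.dp ≠ .low → a.et η = a.e / Real.exp η := fun hl => by
    rw [et, if_neg hl, e, if_neg hl, mul_inv, Rat.cast_inv, div_eq_mul_inv]
  cases hd : a.dp <;> simp only [um, hd, Ge.sh] at b4 <;> push_cast at b4
  · have b5 := abs_le.1 (HdQ2_pert (x := a.e) b3 E2 le_rfl (by linarith))
    rw [key (by simp [hd]), div_eq_mul_inv, ← Real.exp_neg]
    simp only [dist, hd] at b3 b5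
    push_cast at b3 b5
    have d1 := le_abs_self ((g.c : ℝ) - a.e)
    have d2 := neg_le_abs ((g.c : ℝ) - a.e)
    constructor <;> linarith [b5.1, b5.2]
  · have b5 := abs_le.1 (HdQ2_pert (x := g.c - g.R) b3 E1
      (abs_le.2 ⟨by linarith, by linarith⟩) b4)
    rw [key (by simp [hd])]
    simp only [dist, hd] at b3 b5
    push_cast at b3 b5
    exact (div_lt_iff₀ x0).2 (by linarith [b5.1])
  · have b5 := abs_le.1 (HdQ2_pert (x := g.c + g.R) b3 E1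
      (abs_le.2 ⟨by linarith, by linarith⟩) b4)
    rw [key (by simp [hd])]
    simp only [dist, hd] at b3 b5
    push_cast at b3 b5
    exact (lt_div_iff₀ x0).2 (by linarith [b5.2])
  · have b5 := HdQ2_pert (x := a.e) b3 E1 le_rfl b4
    have b6 : a.et η = a.e * Real.exp η := by rw [et, if_pos hd, e, if_pos hd]
    have b7 := abs_sub_abs_le_abs_sub (a.e * Real.exp η) a.e
    have b8 := lt_min_iff.1 h.ends.2.2
    rw [b6]
    simp only [dist, hd] at b3 b5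
    push_cast at b3 b5
    constructor <;> linarith [b8.1, b8.2]

end AQ

end Pool.Agent.MP_92463a_gt

end
end

section

open Set Complex Filter Metric
open scoped Topology ComplexConjugate ContDiff Manifold

noncomputable section

namespace Pool.Agent.MP_92463a_gt

theorem HdTl1_log (a b : ℝ) {z : ℂ} (ha : |a| ≤ b) (hz : b * ‖z‖ ≤ 1 / 2) :
    DifferentiableAt ℂ (fun z : ℂ => log (1 - a * z)) z ∧ ‖log (1 - a * z)‖ ≤ 3 / 2 * (b * ‖z‖) ∧
      exp (log (1 - a * z)) = 1 - a * z ∧ (z.im = 0 → (log (1 - a * z)).im = 0) := by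
  have h0 : ‖(a : ℂ) * z‖ ≤ b * ‖z‖ := by
    rw [norm_mul, norm_real, Real.norm_eq_abs]
    exact mul_le_mul_of_nonneg_right ha (norm_nonneg _)
  have h1 : ‖-((a : ℂ) * z)‖ ≤ 1 / 2 := by rw [norm_neg]; linarith
  have hre : 0 < (1 - (a : ℂ) * z).re := by
    have := (abs_le.1 ((abs_re_le_norm ((a : ℂ) * z)).trans (h0.trans hz))).2
    rw [sub_re, one_re]; linarith
  have hs : 1 - (a : ℂ) * z ∈ slitPlane := Or.inl hre
  refine ⟨?_, ?_, exp_log (slitPlane_ne_zero hs), fun him => ?_⟩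
  · exact DifferentiableAt.clog (by fun_prop) hs
  · have := norm_log_one_add_half_le_self h1
    rw [norm_neg, ← sub_eq_add_neg] at this
    linarith
  · rw [log_im, arg_eq_zero_iff]
    exact ⟨hre.le, by simp [him]⟩

/-- the four properties with constant `C` -/
def HdTl1P (l : List RC) (C : ℝ) (z : ℂ) : Prop :=
  DifferentiableAt ℂ (Tl l) z ∧ ‖Tl l z‖ ≤ C * ‖z‖ ∧ exp (2 * Tl l z) = Phi l z ∧
    (z.im = 0 → (Tl l z).im = 0)

theorem HdTl1_norm (a b : ℝ) (z : ℂ) (ha : |a| ≤ b) : ‖(a : ℂ) * z‖ ≤ b * ‖z‖ := by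
  rw [norm_mul, norm_real, Real.norm_eq_abs]
  exact mul_le_mul_of_nonneg_right ha (norm_nonneg _)

theorem HdTl1_level {c : RC} {l : List RC} (hH : c.H = false) (hc : c.Far)
    (ih : ∀ z : ℂ, ‖z‖ ≤ 1 / 16 → HdTl1P l 6 z) {z : ℂ} (hz : ‖z‖ ≤ 1 / 2) :
    HdTl1P (c :: l) (11 / 10) z := by
  simp only [RC.Far, hH, Bool.false_eq_true, if_false] at hc
  obtain ⟨hx, hy, h1, h2, h3⟩ := hc
  have hn := norm_nonneg z
  have ha1 : |c.a1| ≤ 0.22 := by
    simp only [RC.a1, hH, Bool.false_eq_true, if_false, abs_neg, abs_of_pos hy]; exact h1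
  have ha2 : |c.a2| ≤ 0.35 := by
    simp only [RC.a2, hH, Bool.false_eq_true, if_false]
    rw [abs_of_nonneg (by positivity), div_le_iff₀ hx]; exact h2
  have hl : |c.lam| ≤ 0.045 := by
    simp only [RC.lam, hH, Bool.false_eq_true, if_false]
    rw [abs_of_nonneg (by positivity)]; exact h3
  obtain ⟨d1, n1, e1, r1⟩ := HdTl1_log c.a1 0.22 (z := z) ha1 (by linarith)
  obtain ⟨d2, n2, e2, r2⟩ := HdTl1_log c.a2 0.35 (z := z) ha2 (by linarith)
  have hlz := HdTl1_norm c.lam 0.045 z hl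
  obtain ⟨d3, n3, e3, r3⟩ := ih (c.lam * z) (by linarith)
  have hT : Tl (c :: l) = fun z : ℂ =>
      (3 * log (1 - c.a1 * z) - log (1 - c.a2 * z)) / 2 - Tl l (c.lam * z) := by
    funext z; simp [Tl, hH]
  have hP : Phi (c :: l) z = (1 - c.a1 * z) ^ 3 / (1 - c.a2 * z) / Phi l (c.lam * z) := by
    simp [Phi, hH]
  refine ⟨?_, ?_, ?_, fun him => ?_⟩
  · rw [hT]
    exact (((d1.const_mul 3).sub d2).div_const 2).sub
      (d3.comp z (f := fun z : ℂ => (c.lam : ℂ) * z) (by fun_prop))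
  · rw [hT]
    refine (norm_sub_le _ _).trans ?_
    have := norm_sub_le (3 * log (1 - (c.a1 : ℂ) * z)) (log (1 - c.a2 * z))
    rw [norm_mul] at this
    rw [norm_div]
    simp only [Complex.norm_ofNat] at this ⊢
    linarith
  · rw [hP, hT, ← e3, ← e2]
    conv_rhs => rw [← e1]
    rw [← exp_nat_mul, ← exp_sub, ← exp_sub]
    congr 1; push_cast; ring
  · rw [hT]
    simp [r1 him, r2 him, r3 (by simp [him])]

theorem HdTl1_handle {c : RC} {l : List RC} (hH : c.H = true) (hc : c.Far)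
    (ih : ∀ z : ℂ, ‖z‖ ≤ 1 / 2 → HdTl1P l (11 / 10) z) {z : ℂ} (hz : ‖z‖ ≤ 1 / 16) :
    HdTl1P (c :: l) 6 z := by
  simp only [RC.Far, hH, if_true] at hc
  obtain ⟨hx, hy⟩ := hc
  have hx0 : 0 < c.x := by linarith
  have hy0 : 0 < c.y := by linarith
  have hn := norm_nonneg z
  have ha1 : |c.a1| ≤ 1.25 := by
    simp only [RC.a1, hH, if_true]
    rw [abs_of_nonneg (by positivity), inv_le_comm₀ hy0 (by norm_num)]; linarith
  have ha2 : |c.a2| ≤ 2.8 := by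
    simp only [RC.a2, hH, if_true]
    rw [abs_of_nonneg (by positivity), inv_le_comm₀ (by positivity) (by norm_num)]; nlinarith
  have hl : |c.lam| ≤ 2.25 := by
    simp only [RC.lam, hH, if_true]
    rw [abs_of_nonneg (by positivity), inv_le_comm₀ hx0 (by norm_num)]; linarith
  obtain ⟨d1, n1, e1, r1⟩ := HdTl1_log c.a1 1.25 (z := z) ha1 (by linarith)
  obtain ⟨d2, n2, e2, r2⟩ := HdTl1_log c.a2 2.8 (z := z) ha2 (by linarith)
  have hlz := HdTl1_norm c.lam 2.25 z hl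
  obtain ⟨d3, n3, e3, r3⟩ := ih (c.lam * z) (by linarith)
  have hT : Tl (c :: l) = fun z : ℂ =>
      (log (1 - c.a1 * z) - log (1 - c.a2 * z)) / 2 + Tl l (c.lam * z) := by
    funext z; simp [Tl, hH]
  have hP : Phi (c :: l) z = (1 - c.a1 * z) / (1 - c.a2 * z) * Phi l (c.lam * z) := by
    simp [Phi, hH]
  refine ⟨?_, ?_, ?_, fun him => ?_⟩
  · rw [hT]
    exact ((d1.sub d2).div_const 2).add
      (d3.comp z (f := fun z : ℂ => (c.lam : ℂ) * z) (by fun_prop))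
  · rw [hT]
    refine (norm_add_le _ _).trans ?_
    have := norm_sub_le (log (1 - (c.a1 : ℂ) * z)) (log (1 - c.a2 * z))
    rw [norm_div]
    simp only [Complex.norm_ofNat]
    linarith
  · rw [hP, hT, ← e3, ← e2]
    conv_rhs => rw [← e1]
    rw [← exp_sub, ← exp_add]
    congr 1; ring
  · rw [hT]
    simp [r1 him, r2 him, r3 (by simp [him])]

theorem HdTl1_both (l : List RC) (h : Good l) :
    ((∀ d ∈ l.head?, d.H = false) → ∀ z : ℂ, ‖z‖ ≤ 1 / 2 → HdTl1P l (11 / 10) z) ∧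
      ∀ z : ℂ, ‖z‖ ≤ 1 / 16 → HdTl1P l 6 z := by
  induction l with
  | nil =>
    have : ∀ C : ℝ, 0 ≤ C → ∀ z : ℂ, HdTl1P [] C z := fun C hC z =>
      ⟨by
        have : Tl [] = fun _ => 0 := rfl
        rw [this]; fun_prop,
       by simp only [Tl, norm_zero]; positivity, by simp [Tl, Phi], fun _ => by simp [Tl]⟩
    exact ⟨fun _ z _ => this _ (by norm_num) z, fun z _ => this _ (by norm_num) z⟩
  | cons c l ih =>
    obtain ⟨hc, hh, hl⟩ := h
    obtain ⟨ihA, ihB⟩ := ih hl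
    cases hH : c.H with
    | false =>
      refine ⟨fun _ z hz => HdTl1_level hH hc ihB hz, fun z hz => ?_⟩
      obtain ⟨a, b, e⟩ := HdTl1_level hH hc ihB (z := z) (by linarith)
      exact ⟨a, b.trans (mul_le_mul_of_nonneg_right (by norm_num) (norm_nonneg _)), e⟩
    | true =>
      refine ⟨fun h => ?_, fun z hz => HdTl1_handle hH hc (ihA (hh hH)) hz⟩
      have := h c (by simp)
      rw [hH] at this; exact absurd this (by simp)

theorem Good.tl {l : List RC} (h : Good l) {z : ℂ} (hz : ‖z‖ ≤ 1 / 16) :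
    DifferentiableAt ℂ (Tl l) z ∧ ‖Tl l z‖ ≤ 6 * ‖z‖ ∧ exp (2 * Tl l z) = Phi l z ∧
      (z.im = 0 → (Tl l z).im = 0) := (HdTl1_both l h).2 z hz

end Pool.Agent.MP_92463a_gt

end
end

section

open Set Complex Filter Metric
open scoped Topology ComplexConjugate ContDiff Manifold

noncomputable section

namespace Pool.Agent.MP_92463a_gt

theorem HdL1_lam {ds : List DC} (hd : ∀ d ∈ ds, d.Ok)
    (hh : ((ds.map DC.b).map CB.hl).sum ≤ 2 ^ 40) {t : Bool} {tl : List RC} (ht : Tail t tl) :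
    0 < lamP (ds.map DC.cell) ∧ (0 : ℝ) ≤ lamT t (ds.map DC.b) ∧
      (tl = [] ∨ lamP (ds.map DC.cell) ≤ lamT t (ds.map DC.b)) := by
  have h0 : 0 < lamP (ds.map DC.cell) := lamP_pos fun c hc => by
    obtain ⟨d, hd', rfl⟩ := List.mem_map.1 hc
    exact (hd d hd').ps
  cases t
  · exact ⟨h0, by simp [lamT], Or.inl (ht.1 rfl)⟩
  · exact ⟨h0, h0.le.trans (lamP_le hd hh), Or.inr (lamP_le hd hh)⟩

theorem HdL1_tail {tl : List RC} (hg : Good tl) {Λ l : ℝ} (h0 : 0 < Λ) (hl : 0 ≤ l)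
    (h : tl = [] ∨ Λ ≤ l) (ε : Bool) {z : ℂ} (hz : l * ‖z‖ ≤ 1 / 16) :
    DifferentiableAt ℂ (fun z => pmS ε (Tl tl (Λ * z))) z ∧ ‖pmS ε (Tl tl (Λ * z))‖ ≤ 6 * (l * ‖z‖) ∧
      exp (2 * pmS ε (Tl tl (Λ * z))) = pm ε (Phi tl (Λ * z)) ∧
      (z.im = 0 → (pmS ε (Tl tl (Λ * z))).im = 0) := by
  rcases h with rfl | h
  · have : 0 ≤ 6 * (l * ‖z‖) := by positivity
    cases ε <;> simpa [pmS, pm, Tl, Phi] using this
  · have hn : ‖(Λ : ℂ) * z‖ ≤ l * ‖z‖ := by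
      rw [norm_mul, norm_real, Real.norm_of_nonneg h0.le]
      exact mul_le_mul_of_nonneg_right h (norm_nonneg _)
    obtain ⟨h1, h2, h3, h4⟩ := hg.tl (hn.trans hz)
    have h5 : DifferentiableAt ℂ (fun z => Tl tl (Λ * z)) z :=
      h1.comp z (differentiableAt_id.const_mul _)
    have h6 : ‖Tl tl (Λ * z)‖ ≤ 6 * (l * ‖z‖) := h2.trans (by linarith)
    have h7 : z.im = 0 → (Tl tl (Λ * z)).im = 0 := fun hi => h4 (by simp [hi])
    cases ε
    · refine ⟨h5.neg, by simpa [pmS] using h6, ?_, fun hi => by simpa [pmS] using h7 hi⟩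
      simp only [pmS, pm, Bool.false_eq_true, if_false]
      rw [mul_neg, exp_neg, h3]
    · exact ⟨h5, h6, h3, h7⟩

theorem HdL1_ss {g : Ge} (h : g.Ok) {w : ℂ} (hw : g.Ann w) {as : List AQ} {es : List ℝ}
    (he : List.Forall₂ (fun (a : AQ) (e : ℝ) => |e| ≤ a.h / 2 ^ 40) as es)
    (ha : ∀ a ∈ as, a.ok g = true) :
    ‖SSum as es (g.c + w)‖ ≤ (((as.map fun a => 3 / 4 * a.ex * a.xx g).sum : ℚ) : ℝ) ∧
      DifferentiableAt ℂ (fun w => SSum as es (g.c + w)) w ∧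
      (w.im = 0 → (SSum as es (g.c + w)).im = 0) := by
  induction he with
  | nil => simp [SSum]
  | @cons a e as es h1 _ ih =>
    obtain ⟨i1, i2, i3⟩ := ih fun b hb => ha b (List.mem_cons_of_mem _ hb)
    have h2 := ha a List.mem_cons_self
    have e1 : ∀ s, SSum (a :: as) (e :: es) s = (a.sx : ℂ) / 2 * a.lg e s + SSum as es s :=
      fun s => by simp [SSum]
    simp only [e1]
    refine ⟨?_, ((AQ.lg_diff h h2 h1 hw).const_mul _).add i2, fun hi => ?_⟩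
    · rw [List.map_cons, List.sum_cons, Rat.cast_add]
      exact (norm_add_le _ _).trans (add_le_add (AQ.lg_le h h2 h1 hw) i1)
    · simp [AQ.lg_im h h2 h1 hw hi, i3 hi]

theorem HdL1_log_im {z : ℂ} (h : 0 < z.re) (hi : z.im = 0) : (log z).im = 0 := by
  rw [log_im, arg_eq_zero_iff]
  exact ⟨h.le, hi⟩

theorem HdL1_L0 {g : Ge} (h : g.Ok) {w : ℂ} (hw : g.Ann w) {as : List AQ}
    (ha : ∀ a ∈ as, a.ok g = true) :
    DifferentiableAt ℂ (L0 g as) w ∧ (w.im = 0 → (L0 g as w).im = 0) := by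
  induction as with
  | nil =>
    have e1 : L0 g [] = fun w => -log (g.phi0 w) / 2 := funext fun w => by simp [L0]
    rw [e1]
    refine ⟨((h.phi0_diff hw).clog (Or.inl (h.phi0_re hw))).neg.div_const _, fun hi => ?_⟩
    have : (g.phi0 w).im = 0 := by
      unfold Ge.phi0
      split_ifs <;> simp [div_im, hi]
    simp [HdL1_log_im (h.phi0_re hw) this]
  | cons a as ih =>
    obtain ⟨i1, i2⟩ := ih fun b hb => ha b (List.mem_cons_of_mem _ hb)
    have h2 := ha a List.mem_cons_self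
    have e1 : L0 g (a :: as) = fun w => (a.sx : ℂ) / 2 * log (a.phi g w) + L0 g as w :=
      funext fun w => by
        simp only [L0, List.map_cons, List.sum_cons]
        ring
    rw [e1]
    refine ⟨(((AQ.phi_diff h h2 hw).clog (Or.inl (AQ.phi_re h h2 hw))).const_mul _).add i1,
      fun hi => ?_⟩
    simp [HdL1_log_im (AQ.phi_re h h2 hw) (AQ.phi_im h h2 hi), i2 hi]

theorem HdL1_place {g : Ge} (h : g.Ok) {as : List AQ} {es : List ℝ}
    (he : List.Forall₂ (fun (a : AQ) (e : ℝ) => |e| ≤ a.h / 2 ^ 40) as es)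
    (ha : ∀ a ∈ as, a.ok g = true) :
    List.Forall₂ (fun (a : AQ) (e : ℝ) => a.dp.At (a.et e) ((g.c : ℝ) + g.R) ((g.c : ℝ) - g.R))
      as es := by
  induction he with
  | nil => exact .nil
  | cons h1 _ ih =>
    exact .cons (AQ.place h (ha _ List.mem_cons_self) h1)
      (ih fun b hb => ha b (List.mem_cons_of_mem _ hb))

namespace LC.Ok

variable {C : LC} (h : C.Ok) {w : ℂ}
include h

theorem es_le : List.Forall₂ (fun (a : AQ) (e : ℝ) => |e| ≤ a.h / 2 ^ 40) C.as C.es :=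
  List.rel_append (etas_le _ _ h.oku _ _ _ (by simp)) (etas_le _ _ h.okd _ _ _ (by simp))

theorem T_spec (hw : C.g.Ann w) : DifferentiableAt ℂ (fun w => C.T (C.g.c + w)) w ∧
    ‖C.T (C.g.c + w)‖ ≤ 6 * ((C.lu : ℝ) * ‖(C.g.c : ℂ) + w‖ + (C.ld : ℝ) / ‖(C.g.c : ℂ) + w‖) ∧
    (w.im = 0 → (C.T (C.g.c + w)).im = 0) ∧ 0 ≤ C.lu ∧ 0 ≤ C.ld ∧
    exp (2 * C.T (C.g.c + w)) =
      pm (epsL C.bu true) (Phi C.tU (lamP (C.du.map DC.cell) * (C.g.c + w))) *
        pm (epsL C.bd false) (Phi C.tD (lamP (C.dd.map DC.cell) * (C.g.c + w)⁻¹)) := by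
  obtain ⟨u0, u1, u2⟩ := HdL1_lam h.oku h.hu h.tlu
  obtain ⟨d0, d1, d2⟩ := HdL1_lam h.okd h.hd h.tld
  change (0 : ℝ) ≤ C.lu at u1
  change (0 : ℝ) ≤ C.ld at d1
  change _ ∨ _ ≤ (C.lu : ℝ) at u2
  change _ ∨ _ ≤ (C.ld : ℝ) at d2
  have hu : 16 * ((C.lu : ℝ) * (C.g.sh C.g.r2 : ℝ)) ≤ 1 := by exact_mod_cast h.lu'
  have hd : 16 * (C.ld : ℝ) ≤ (C.g.smin : ℝ) := by exact_mod_cast h.ld'
  have hs := h.ge.s_ne hw
  have hp : 0 < ‖(C.g.c : ℂ) + w‖ := norm_pos_iff.2 hs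
  obtain ⟨a1, a2, a3, a4⟩ := HdL1_tail h.tlu.2 u0 u1 u2 (epsL C.bu true) (z := C.g.c + w)
    (by linarith [mul_le_mul_of_nonneg_left (h.ge.s_le hw) u1])
  obtain ⟨b1, b2, b3, b4⟩ := HdL1_tail h.tld.2 d0 d1 d2 (epsL C.bd false) (z := (C.g.c + w)⁻¹)
    (by
      rw [norm_inv, ← div_eq_mul_inv, div_le_iff₀ hp]
      linarith [h.ge.s_ge hw])
  have hc : DifferentiableAt ℂ (fun w : ℂ => (C.g.c : ℂ) + w) w := differentiableAt_id.const_add _
  have hc' : DifferentiableAt ℂ (fun w : ℂ => ((C.g.c : ℂ) + w)⁻¹) w := hc.inv hs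
  have a5 := a1.comp w hc
  have b5 := b1.comp w hc'
  refine ⟨a5.add b5, ?_, fun hi => ?_, by exact_mod_cast u1,
    by exact_mod_cast d1, ?_⟩
  · rw [norm_inv] at b2
    rw [div_eq_mul_inv]
    exact (norm_add_le _ _).trans (by linarith)
  · rw [LC.T, add_im, a4 (by simp [hi]), b4 (by simp [hi]), add_zero]
  · rw [LC.T, mul_add, exp_add, a3, b3]

theorem ST_le (hw : C.g.Ann w) :
    ‖SSum C.as C.es (C.g.c + w) + C.T (C.g.c + w)‖ ≤ (C.sb : ℝ) := by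
  obtain ⟨-, h1, -, hu, hd, -⟩ := h.T_spec hw
  have h2 := (HdL1_ss h.ge hw h.es_le h.at').1
  have hu' : (0 : ℝ) ≤ C.lu := by exact_mod_cast hu
  have hd' : (0 : ℝ) ≤ C.ld := by exact_mod_cast hd
  have h3 := mul_le_mul_of_nonneg_left (h.ge.s_le hw) hu'
  have h4 := div_le_div_of_nonneg_left hd' (by exact_mod_cast h.ge.smin_pos) (h.ge.s_ge hw)
  rw [LC.sb, sbd, Rat.cast_add, Rat.cast_mul, Rat.cast_add, Rat.cast_mul, Rat.cast_div,
    Rat.cast_ofNat]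
  exact (norm_add_le _ _).trans (by linarith)

theorem diff (hw : C.g.Ann w) : DifferentiableAt ℂ C.Gam w ∧ C.Gam w ≠ 0 := by
  have h0 := h.ge.w_ne hw
  refine ⟨?_, mul_ne_zero (mul_ne_zero (div_ne_zero (pow_ne_zero _ h0) (pow_ne_zero _ h0))
    (exp_ne_zero _)) (exp_ne_zero _)⟩
  have h1 : DifferentiableAt ℂ (fun w : ℂ => w ^ C.k.np / w ^ C.k.nm) w :=
    (differentiableAt_pow _).div (differentiableAt_pow _) (pow_ne_zero _ h0)
  exact (h1.mul (HdL1_L0 h.ge hw h.at').1.cexp).mul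
    ((HdL1_ss h.ge hw h.es_le h.at').2.1.add (h.T_spec hw).1).cexp

theorem at_R : 0 < (C.Gam (C.g.R : ℝ)).re ∧ (C.Gam (C.g.R : ℝ)).im = 0 := by
  have hR : (0 : ℝ) < C.g.R := by exact_mod_cast h.ge.R_pos
  have hw : C.g.Ann ((C.g.R : ℝ) : ℂ) := h.ge.ann_R (by rw [norm_real, Real.norm_of_nonneg hR.le])
  have hi : ((C.g.R : ℝ) : ℂ).im = 0 := ofReal_im _
  have key : ∀ z : ℂ, z.im = 0 → exp z = (Real.exp z.re : ℝ) := fun z hz => by
    rw [ofReal_exp]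
    congr 1
    exact Complex.ext rfl hz
  have h1 := key _ ((HdL1_L0 h.ge hw h.at').2 hi)
  have h2 := key (SSum C.as C.es (C.g.c + (C.g.R : ℝ)) + C.T (C.g.c + (C.g.R : ℝ))) (by
    rw [add_im, (HdL1_ss h.ge hw h.es_le h.at').2.2 hi, (h.T_spec hw).2.2.1 hi, add_zero])
  rw [LC.Gam, Gam0, h1, h2, ← ofReal_pow, ← ofReal_pow, ← ofReal_div, ← ofReal_mul, ← ofReal_mul,
    ofReal_re, ofReal_im]
  exact ⟨by positivity, rfl⟩

theorem place : PosU C.zin C.kd ((C.g.c : ℝ) + C.g.R) ((C.g.c : ℝ) - C.g.R) C.j C.up 1 ∧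
    Sm C.dn 1 (min ((C.g.c : ℝ) + C.g.R) |(C.g.c : ℝ) - C.g.R|) := by
  obtain ⟨u0, u1, u2⟩ := HdL1_lam h.oku h.hu h.tlu
  obtain ⟨d0, d1, d2⟩ := HdL1_lam h.okd h.hd h.tld
  change (0 : ℝ) ≤ C.lu at u1
  change _ ∨ _ ≤ (C.lu : ℝ) at u2
  change _ ∨ _ ≤ (C.ld : ℝ) at d2
  have hu : 16 * ((C.lu : ℝ) * (C.g.sh C.g.r2 : ℝ)) ≤ 1 := by exact_mod_cast h.lu'
  have hd : 16 * (C.ld : ℝ) ≤ (C.g.smin : ℝ) := by exact_mod_cast h.ld'
  have pu := posU_atoms C.zin C.kd _ _ C.j C.du 1 0 true 0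
    (HdL1_place h.ge (etas_le _ _ h.oku _ _ _ (by simp))
      fun a ha => h.at' a (List.mem_append_left _ ha))
  have pd := sm_atoms _ _ 0 C.dd 1 0 false 0
    (HdL1_place h.ge (etas_le _ _ h.okd _ _ _ (by simp))
      fun a ha => h.at' a (List.mem_append_right _ ha))
  rw [Rat.cast_one, Real.exp_zero, one_mul] at pu pd
  refine ⟨pu.append (by simpa using h.jle) ?_, pd.append ?_⟩
  · rcases u2 with e | u2
    · rw [e]
      trivial
    have hR : (0 : ℝ) < C.g.R := by exact_mod_cast h.ge.R_pos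
    have hR2 : (C.g.R : ℝ) < C.g.r2 := by exact_mod_cast h.ge.R_lt_r2
    have hs : (C.g.sh C.g.r2 : ℝ) = |(C.g.c : ℝ)| + C.g.r2 := by simp [Ge.sh]
    have key : ∀ x : ℝ, |x| ≤ |(C.g.c : ℝ)| + |(C.g.R : ℝ)| →
        16 * (1 * lamP (C.du.map DC.cell)) * |x| ≤ 1 := fun x hx => by
      rw [abs_of_pos hR] at hx
      have := mul_le_mul u2 (show |x| ≤ (C.g.sh C.g.r2 : ℝ) by linarith) (abs_nonneg _) u1
      linarith
    exact h.tlu.2.posU _ _ (by linarith) (key _ (abs_add_le _ _)) (key _ (abs_sub _ _))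
  · rcases d2 with e | d2
    · rw [e]
      trivial
    exact h.tld.2.sm (by linarith) (by linarith [h.ge.ends.2.2])

end LC.Ok

end Pool.Agent.MP_92463a_gt

end
end

section

open Set Complex Filter Metric
open scoped Topology ComplexConjugate ContDiff Manifold

noncomputable section

namespace Pool.Agent.MP_92463a_gt

/-- the exponent of a point -/
def HdL2_n (a : AQ) : ℤ := (if a.up then 1 else -1) * (if a.cube then 3 else 1)

theorem HdL2_zp (a : AQ) (z : ℂ) : a.zp z = z ^ HdL2_n a := by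
  unfold AQ.zp pm HdL2_n
  cases a.up <;> cases a.cube <;> simp

theorem HdL2_exp (a : AQ) (u : ℂ) : exp ((a.sx : ℂ) / 2 * u) ^ 2 = a.zp (exp u) := by
  have h : (a.sx : ℂ) = HdL2_n a := by
    unfold AQ.sx AQ.ex HdL2_n
    cases a.up <;> cases a.cube <;> simp
  rw [HdL2_zp, ← exp_int_mul, ← exp_nat_mul, h]
  congr 1
  push_cast
  ring

theorem HdL2_F0 {g : Ge} (h : g.Ok) {w : ℂ} (hw : g.Ann w) (as : List AQ)
    (ha : ∀ a ∈ as, a.ok g = true) :
    (as.map fun a => a.zp (a.F0 (g.c + w))).prod ^ 2 =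
      exp (as.map fun a => (a.sx : ℂ) / 2 * log (a.phi g w)).sum ^ 4 *
        (w ^ (as.map AQ.wn).sum) ^ 2 := by
  induction as with
  | nil => simp
  | cons a l ih =>
    have h1 := ha a List.mem_cons_self
    have h2 : a.phi g w ≠ 0 := fun e => by simpa [e] using AQ.phi_re h h1 hw
    have h3 : a.zp (a.F0 (g.c + w)) ^ 2 =
        (exp ((a.sx : ℂ) / 2 * log (a.phi g w)) ^ 2) ^ 2 * (w ^ a.wn) ^ 2 := by
      have c : ∀ (z : ℂ) (n : ℤ), (z ^ n) ^ 2 = (z ^ 2) ^ n := fun z n => by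
        rw [pow_two, pow_two, mul_zpow]
      rw [HdL2_exp, exp_log h2, HdL2_zp, HdL2_zp, c, c, c, AQ.F0_sq h h1 hw, mul_zpow, AQ.wn]
      split_ifs with e <;> simp [HdL2_n, *]
    simp only [List.map_cons, List.prod_cons, List.sum_cons]
    rw [mul_pow, ih fun b hb => ha b (List.mem_cons_of_mem _ hb), h3, exp_add,
      zpow_add₀ (h.w_ne hw)]
    ring

theorem HdL2_SS {g : Ge} (h : g.Ok) {w : ℂ} (hw : g.Ann w) {as : List AQ} {es : List ℝ}
    (he : List.Forall₂ (fun (a : AQ) (e : ℝ) => |e| ≤ a.h / 2 ^ 40) as es)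
    (ha : ∀ a ∈ as, a.ok g = true) :
    (as.map fun a => a.zp (a.F0 (g.c + w))).prod * exp (SSum as es (g.c + w)) ^ 2 =
      (List.zipWith (fun (a : AQ) (e : ℝ) => a.zp (1 - a.al * Real.exp e * a.zz (g.c + w)))
        as es).prod := by
  unfold SSum
  induction he with
  | nil => simp
  | @cons a e l m h1 _ ih =>
    simp only [List.map_cons, List.prod_cons, List.zipWith_cons_cons, List.sum_cons]
    rw [← ih fun b hb => ha b (List.mem_cons_of_mem _ hb),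
      ← AQ.lg_exp h (ha a List.mem_cons_self) h1 hw, exp_add, mul_pow, HdL2_exp,
      HdL2_zp a (_ * _), mul_zpow, ← HdL2_zp, ← HdL2_zp]
    ring

theorem HdL2_zip (as : List AQ) (s z : ℂ) (hz : ∀ a ∈ as, a.zz s = z) (es : List ℝ) :
    List.zipWith (fun (a : AQ) (e : ℝ) => a.zp (1 - a.al * Real.exp e * a.zz s)) as es =
      List.zipWith (fun (a : AQ) (e : ℝ) => a.zp (1 - a.al * Real.exp e * z)) as es := by
  induction as generalizing es with
  | nil => rfl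
  | cons a l ih =>
    cases es with
    | nil => rfl
    | cons e m =>
      rw [List.zipWith_cons_cons, List.zipWith_cons_cons, hz a List.mem_cons_self,
        ih fun b hb => hz b (List.mem_cons_of_mem _ hb)]

namespace LC.Ok

variable {C : LC} (h : C.Ok) {w : ℂ}
include h

theorem Gam0_pow (hw : C.g.Ann w) : Gam0 C.g C.k C.as w ^ 4 =
    (((C.g.c : ℂ) + w)⁻¹ * (C.as.map fun a => a.zp (a.F0 (C.g.c + w))).prod) ^ 2 := by
  have w0 := h.ge.w_ne hw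
  have s0 := h.ge.s_ne hw
  have p0 : C.g.phi0 w ≠ 0 := fun e => by simpa [e] using h.ge.phi0_re hw
  have e1 : exp (-log (C.g.phi0 w) / 2) ^ 2 = (C.g.phi0 w)⁻¹ := by
    rw [← exp_nat_mul, show ((2 : ℕ) : ℂ) * (-log (C.g.phi0 w) / 2) = -log (C.g.phi0 w) by
      push_cast; ring, exp_neg, exp_log p0]
  have e2 : (w ^ C.k.np / w ^ C.k.nm) ^ 2 * (C.g.phi0 w)⁻¹ =
      ((C.g.c : ℂ) + w)⁻¹ * w ^ (C.as.map AQ.wn).sum := by
    rw [← zpow_natCast w, ← zpow_natCast w, ← zpow_sub₀ w0, pow_two, ← zpow_add₀ w0, ← two_mul,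
      h.wn, zpow_sub₀ w0, Ge.phi0]
    split_ifs
    · rw [zpow_one]
      field_simp
    · rw [zpow_zero, div_one, mul_comm]
  rw [mul_pow _ _ 2, HdL2_F0 h.ge hw _ h.at', mul_left_comm, ← mul_pow, ← e2, ← e1, Gam0, L0,
    exp_add]
  ring

theorem Gam_pow (hw : C.g.Ann w) : C.Gam w ^ 4 = ZZ C.up C.dn (C.g.c + w) ^ 2 := by
  have hu := phi_atoms (disp C.zin C.kd) C.j C.du C.tU 1 0 true 0 (C.g.c + w)
  have hd := phi_atoms (fun _ _ _ => .low) 0 C.dd C.tD 1 0 false 0 (C.g.c + w)⁻¹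
  rw [Real.exp_zero, Rat.cast_one, ofReal_one, one_mul, one_mul] at hu hd
  have zu : ∀ a ∈ C.au, a.zz (C.g.c + w) = C.g.c + w := fun a ha => by
    obtain ⟨i, H, b, e⟩ := atQ_dp _ _ _ _ _ _ a ha
    exact if_neg (e ▸ disp_ne _ _ _ _ _)
  have zd : ∀ a ∈ C.ad, a.zz (C.g.c + w) = (C.g.c + w)⁻¹ := fun a ha => by
    obtain ⟨i, H, b, e⟩ := atQ_dp _ _ _ _ _ _ a ha
    exact if_pos e
  have e1 := HdL2_SS h.ge hw h.es_le h.at'
  have hl : C.au.length = (etas C.du 0).length := by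
    rw [LC.au, atQ_length, etas_length, LC.bu, List.length_map]
  conv_rhs at e1 => rw [LC.as, LC.es, List.zipWith_append hl, List.prod_append,
    HdL2_zip _ _ _ zu, HdL2_zip _ _ _ zd]
  have e2 : ZZ C.up C.dn (C.g.c + w) = ((C.g.c : ℂ) + w)⁻¹ * (pm true (Phi C.up (C.g.c + w)) *
      pm false (Phi C.dn (C.g.c + w)⁻¹)) := by
    rw [ZZ, div_eq_mul_inv, mul_assoc]
    rfl
  rw [e2, LC.up, LC.dn, hu, hd, mul_mul_mul_comm]
  change _ = (_ * ((List.zipWith _ C.au _).prod * (List.zipWith _ C.ad _).prod *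
    (pm (epsL C.bu true) _ * pm (epsL C.bd false) _))) ^ 2
  rw [← e1, ← (h.T_spec hw).2.2.2.2.2, LC.Gam, mul_pow, h.Gam0_pow hw, exp_add, two_mul, exp_add]
  ring

end LC.Ok

end Pool.Agent.MP_92463a_gt

end
end

section

open Set Complex Filter Metric
open scoped Topology ComplexConjugate ContDiff Manifold

noncomputable section

namespace Pool.Agent.MP_92463a_gt

theorem HdL3_prod {α : Type} (l : List α) (f : α → ℂ) (p m : α → ℚ)
    (h : ∀ a ∈ l, 0 < ‖f a‖ ∧ ‖f a‖ ≤ (p a : ℝ) ∧ ‖f a‖⁻¹ ≤ (m a : ℝ)) :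
    0 < ‖(l.map f).prod‖ ∧ ‖(l.map f).prod‖ ≤ ((l.map p).prod : ℚ) ∧
      ‖(l.map f).prod‖⁻¹ ≤ ((l.map m).prod : ℚ) := by
  induction l with
  | nil => simp
  | cons a l ih =>
    obtain ⟨a0, a1, a2⟩ := h a List.mem_cons_self
    obtain ⟨b0, b1, b2⟩ := ih fun b hb => h b (List.mem_cons_of_mem _ hb)
    simp only [List.map_cons, List.prod_cons, norm_mul, Rat.cast_mul, mul_inv]
    exact ⟨mul_pos a0 b0, mul_le_mul a1 b1 b0.le (a0.le.trans a1),
      mul_le_mul a2 b2 (inv_pos.2 b0).le ((inv_pos.2 a0).le.trans a2)⟩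

theorem HdL3_qs (x : ℚ) : (0 : ℝ) ≤ (qs x : ℚ) := by
  have : 0 ≤ qs x := by unfold qs; positivity
  exact_mod_cast this

theorem LC.Ok.bound {C : LC} (h : C.Ok) {r : ℚ} (hr : r = C.g.r1 ∨ r = C.g.r2) {w : ℂ}
    (hw : ‖w‖ = (r : ℝ)) : ‖fI C.Gam C.g.c w‖ ≤ (mbd C.g C.as C.sb r : ℝ) := by
  have h12 : C.g.r1 < C.g.r2 := h.ge.r1_lt_R.trans h.ge.R_lt_r2
  have h1 : C.g.r1 ≤ r := by rcases hr with e | e <;> rw [e]; exact h12.le
  have h2 : r ≤ C.g.r2 := by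
    rcases hr with e | e <;> rw [e]
    exact h12.le
  have hA : C.g.Ann w := ⟨by rw [hw]; exact_mod_cast h1, by rw [hw]; exact_mod_cast h2⟩
  have hsl : (0 : ℝ) < (C.g.sl r : ℚ) := by exact_mod_cast h.ge.smin_pos.trans_le (h.ge.sl_ge h1 h2)
  obtain ⟨s1, s2⟩ := h.ge.s_circ hw
  have s0 : 0 < ‖(C.g.c : ℂ) + w‖ := hsl.trans_le s1
  obtain ⟨p0, p1, p2⟩ := HdL3_prod C.as (fun a => a.zp (a.F0 (C.g.c + w))) (fun a => a.bp C.g r)
    (fun a => a.bm C.g r) fun a ha => AQ.circ_le h.ge (h.at' a ha) h1 h2 hw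
  have hG : ‖Gam0 C.g C.k C.as w‖ ^ 2 =
      ‖(C.g.c : ℂ) + w‖⁻¹ * ‖(C.as.map fun a => a.zp (a.F0 (C.g.c + w))).prod‖ := by
    have e := congrArg norm (h.Gam0_pow hA)
    rw [norm_pow, norm_pow, norm_mul, norm_inv, show 4 = 2 * 2 from rfl, pow_mul] at e
    exact (pow_left_inj₀ (by positivity) (by positivity) two_ne_zero).1 e
  obtain ⟨q1, q2⟩ := h.sq r hr
  have q1' : (g2p C.g C.as r : ℝ) ≤ (qs (g2p C.g C.as r) : ℝ) ^ 2 := by exact_mod_cast q1
  have q2' : (g2m C.g C.as r : ℝ) ≤ (qs (g2m C.g C.as r) : ℝ) ^ 2 := by exact_mod_cast q2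
  have g1 : ‖Gam0 C.g C.k C.as w‖ ≤ (qs (g2p C.g C.as r) : ℝ) := by
    refine (pow_le_pow_iff_left₀ (norm_nonneg _) (HdL3_qs _) two_ne_zero).1 (le_trans ?_ q1')
    rw [hG, g2p, Rat.cast_div, div_eq_inv_mul]
    exact mul_le_mul (inv_anti₀ hsl s1) p1 p0.le (inv_pos.2 hsl).le
  have g2 : ‖Gam0 C.g C.k C.as w‖⁻¹ ≤ (qs (g2m C.g C.as r) : ℝ) := by
    refine (pow_le_pow_iff_left₀ (inv_nonneg.2 (norm_nonneg _)) (HdL3_qs _) two_ne_zero).1
      (le_trans ?_ q2')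
    rw [inv_pow, hG, g2m, Rat.cast_mul, mul_inv, inv_inv, mul_comm]
    exact mul_le_mul p2 s2 s0.le ((inv_pos.2 p0).le.trans p2)
  have hX := h.ST_le hA
  have hsb : (C.sb : ℝ) ≤ 2 := by exact_mod_cast h.sb'
  have hE := exp_sb hsb
  generalize hXX : SSum C.as C.es (C.g.c + w) + C.T (C.g.c + w) = X at hX
  have x1 : ‖exp X‖ ≤ (1 - (C.sb : ℝ) / 4)⁻¹ ^ 4 := by
    rw [norm_exp]
    exact (Real.exp_le_exp.2 ((re_le_norm X).trans hX)).trans hE
  have x2 : ‖exp X‖⁻¹ ≤ (1 - (C.sb : ℝ) / 4)⁻¹ ^ 4 := by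
    rw [norm_exp, ← Real.exp_neg]
    refine (Real.exp_le_exp.2 (le_trans ?_ hX)).trans hE
    exact (neg_le_abs _).trans (abs_re_le_norm X)
  have hE0 : (0 : ℝ) ≤ (1 - (C.sb : ℝ) / 4)⁻¹ ^ 4 := by positivity
  have y : ‖C.Gam w + (C.Gam w)⁻¹‖ ≤
      ((qs (g2p C.g C.as r) : ℝ) + (qs (g2m C.g C.as r) : ℝ)) * (1 - (C.sb : ℝ) / 4)⁻¹ ^ 4 := by
    refine (norm_add_le _ _).trans ?_
    rw [norm_inv, LC.Gam, hXX, norm_mul, mul_inv, add_mul]
    exact add_le_add (mul_le_mul g1 x1 (norm_nonneg _) (HdL3_qs _))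
      (mul_le_mul g2 x2 (inv_nonneg.2 (norm_nonneg _)) (HdL3_qs _))
  have z : ‖w / (((C.g.c : ℝ) : ℂ) + w)‖ ≤ (r : ℝ) / (C.g.sl r : ℚ) := by
    rw [norm_div, ofReal_ratCast, ← hw]
    exact div_le_div_of_nonneg_left (norm_nonneg _) hsl s1
  rw [fI, norm_mul, mbd]
  push_cast
  exact mul_le_mul y (by simpa using z) (norm_nonneg _) ((norm_nonneg _).trans y)

end Pool.Agent.MP_92463a_gt

end
end

section

open Set Complex Filter Metric
open scoped Topology ComplexConjugate ContDiff Manifold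

noncomputable section

namespace Pool.Agent.MP_92463a_gt

lemma HdN1_shift (n k : ℕ) : ((Nat.shiftLeft n k : ℕ) : ℂ) = n * 2 ^ k := by
  rw [Nat.shiftLeft_eq', Nat.shiftLeft_eq]
  push_cast
  rfl

lemma HdN1_abs (q : ℚ) : (q.num.natAbs : ℚ) = q.den * |q| := by
  rw [Nat.cast_natAbs, Int.cast_abs, ← Rat.mul_den_eq_num, abs_mul, Nat.abs_cast, mul_comm]

lemma HdN1_sg (q : ℚ) : cond (decide (q < 0)) (q.num.natAbs : ℂ) (-q.num.natAbs) = -(q.den * q) := by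
  have h := HdN1_abs q
  by_cases h0 : q < 0
  · rw [abs_of_neg h0, mul_neg] at h
    rw [decide_eq_true h0, cond_true]
    exact_mod_cast h
  · rw [abs_of_nonneg (not_lt.1 h0)] at h
    rw [decide_eq_false h0, cond_false, neg_inj]
    exact_mod_cast h

lemma HdN1_psi (A : AN) (S : G4) :
    (A.psi S).val = A.ed * S.val + cond A.ng (A.en : ℂ) (-A.en) * 2 ^ 52 := by
  rw [AN.psi, G4.val_nz]
  cases A.ng
  · rw [cond_false, cond_false, G4.val_sub, G4.val_sm, G4.val_nat, HdN1_shift]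
    ring
  · rw [cond_true, cond_true, G4.val_add, G4.val_sm, G4.val_nat, HdN1_shift]

lemma HdN1_u1 (A : AN) {p : G4} (hp : p.val ≠ 0) :
    ‖(A.u1 p).val - cond A.ng (A.en : ℂ) (-A.en) * 2 ^ 92 / p.val‖ ≤ 2 := by
  have h1 : (p.n2 : ℂ) = p.val * conj p.val := by
    rw [mul_conj, normSq_eq_norm_sq, ← G4.n2_eq, ofReal_natCast]
  have h2 : conj p.val ≠ 0 := (map_ne_zero _).2 hp
  refine le_of_eq_of_le (congrArg (fun z => ‖(A.u1 p).val - z‖) ?_)
    (G4.dv_err (G4.sm (Nat.shiftLeft A.en 92) (cond A.ng p.cj p.cj.neg)) (p.n2_pos.2 hp))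
  rw [h1, G4.val_sm, HdN1_shift]
  cases A.ng
  · rw [cond_false, cond_false, G4.val_neg, G4.val_cj]
    field_simp
  · rw [cond_true, cond_true, G4.val_cj]
    field_simp

lemma HdN1_ww (g : Ge) (a : AQ) (u : G4) : ((a.an g).ww u).val = a.sx * u.val ∧ |a.sx| ≤ 3 := by
  simp only [AN.ww, AQ.an, AQ.sx, AQ.ex]
  cases a.up <;> cases a.cube <;> norm_num [G4.val_neg, G4.val_sm]

theorem AQ.ev_spec {g : Ge} {a : AQ} (h : g.Ok) (ha : a.ok g = true) {w : ℂ} (hw : g.Ann w)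
    {S Om : G4} (hS : S.val = 2 ^ 52 * (g.c + w)) (hO : Om.val = 2 ^ 52 * w) {ns : ℕ}
    (hn : ‖S.val‖ ≤ ns) {η : ℝ} (hη : |η| ≤ a.h / 2 ^ 40) :
    (AN.ev S Om ns (a.an g)).Rep a (a.phi g w) ∧
      ‖(a.sx : ℂ) / 2 * a.lg η (g.c + w) - (AN.ev S Om ns (a.an g)).w.val * η / 2 ^ 41‖ ≤
        (AN.ev S Om ns (a.an g)).r / 2 ^ 60 := by
  have he := AQ.e_ne h ha
  have hd := AQ.dist_le h ha hw
  have hse : (g.c : ℂ) + w - a.e ≠ 0 := norm_pos_iff.1 (hd.1.trans_le hd.2)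
  have hs := h.s_ne hw
  have hw0 := h.w_ne hw
  have hed : (a.e.den : ℂ) ≠ 0 := Nat.cast_ne_zero.2 a.e.den_nz
  have hae : ((|a.e| : ℚ) : ℂ) ≠ 0 := Rat.cast_ne_zero.2 (abs_ne_zero.2 he)
  have hen : (a.e.num.natAbs : ℂ) = a.e.den * ((|a.e| : ℚ) : ℂ) := by exact_mod_cast HdN1_abs a.e
  have hsg : cond (a.an g).ng ((a.an g).en : ℂ) (-(a.an g).en) = -(a.e.den * a.e) := HdN1_sg a.e
  set p := (a.an g).psi S with hpd
  have hp : p.val = a.e.den * 2 ^ 52 * (g.c + w - a.e) := by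
    rw [hpd, HdN1_psi, hsg, hS]
    change (a.e.den : ℂ) * _ + _ = _
    ring
  have hp0 : p.val ≠ 0 := by rw [hp]; exact mul_ne_zero (mul_ne_zero hed (by norm_num)) hse
  refine ⟨⟨rfl, rfl, fun e => by simpa [e] using AQ.phi_re h ha hw, ?_, ?_⟩, ?_⟩
  · cases hdp : a.dp <;>
      simp only [AN.ev, AN.ev2, AQ.an, hdp, G4.val_sm, G4.val_nat, HdN1_shift, hS, hO, hen] <;>
      simp [hed, he, hs, hw0]
  · change (match a.dp with
      | .rig => p.neg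
      | _ => p).val = _
    cases hdp : a.dp <;>
      simp only [AN.ev, AN.ev2, AQ.an, AQ.phi, hdp, G4.val_sm, G4.val_nat, G4.val_neg, HdN1_shift,
        hS, hO, hen, hp] <;>
      field_simp
  have h1 := HdN1_u1 (a.an g) hp0
  rw [hsg, hp, show -((a.e.den : ℂ) * a.e) * 2 ^ 92 / (a.e.den * 2 ^ 52 * (g.c + w - a.e)) =
    2 ^ 40 * (-a.e / (g.c + w - a.e)) by field_simp] at h1
  have h2 : ‖2 ^ 40 * a.uu (g.c + w) - ((a.an g).uu p).val‖ ≤ 2 := by
    change ‖_ - (match a.dp with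
      | .low => (a.an g).u1 p
      | _ => (G4.nat (Nat.pow 2 40)).sub ((a.an g).u1 p)).val‖ ≤ 2
    have e : 2 ^ 40 * ((g.c + w) / (g.c + w - a.e)) -
        ((G4.nat (Nat.pow 2 40)).sub ((a.an g).u1 p)).val =
        ((a.an g).u1 p).val - 2 ^ 40 * (-a.e / (g.c + w - a.e)) := by
      rw [G4.val_sub, G4.val_nat, Nat.pow_eq]
      push_cast
      field_simp
      ring
    cases hdp : a.dp <;> simp only [AQ.uu, hdp, reduceCtorEq, if_false, if_true]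
    exacts [e ▸ h1, e ▸ h1, e ▸ h1, (norm_sub_rev _ _).trans_le h1]
  obtain ⟨h3, h4⟩ := HdN1_ww g a ((a.an g).uu p)
  have h5 : |η| ≤ 1 := hη.trans (by
    have : a.h ≤ 2 ^ 40 := (of_decide_eq_true ha).2.1
    rw [div_le_one (by positivity)]
    exact_mod_cast this)
  have h6 : ‖(a.sx : ℂ) / 2 * a.uu (g.c + w) * η - a.sx * ((a.an g).uu p).val * η / 2 ^ 41‖ ≤
      3 * 1 * 2 / 2 ^ 41 := by
    rw [show (a.sx : ℂ) / 2 * a.uu (g.c + w) * η - a.sx * ((a.an g).uu p).val * η / 2 ^ 41 =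
      a.sx * η * (2 ^ 40 * a.uu (g.c + w) - ((a.an g).uu p).val) / 2 ^ 41 by ring,
      norm_div, norm_mul, norm_mul, norm_real, norm_real, Real.norm_eq_abs, Real.norm_eq_abs,
      norm_pow, Complex.norm_two]
    gcongr
  have h7 := AQ.lg_lin h ha hη hw
  have h8 : (((a.an g).kk * ns : ℕ) : ℝ) / p.n2 < ((a.an g).kk * ns / p.n2 : ℕ) + 1 := by
    rw [← Nat.floor_div_eq_div (K := ℝ)]
    exact Nat.lt_floor_add_one _
  have h9 : (a.kap g : ℝ) * 2 ^ 60 * (|(a.e : ℝ)| * ‖(g.c : ℂ) + w‖ / ‖(g.c : ℂ) + w - a.e‖ ^ 2) ≤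
      (((a.an g).kk * ns : ℕ) : ℝ) / p.n2 := by
    have e1 : (a.kap g : ℝ) * 2 ^ 60 ≤ (⌈a.kap g * 2 ^ 60⌉₊ : ℕ) := by
      have := (Rat.cast_le (K := ℝ)).2 (Nat.le_ceil (a.kap g * 2 ^ 60))
      rwa [Rat.cast_mul, Rat.cast_pow, Rat.cast_ofNat, Rat.cast_natCast] at this
    have e2 : (a.e.num.natAbs : ℝ) = a.e.den * |(a.e : ℝ)| := by exact_mod_cast HdN1_abs a.e
    have e3 : (0 : ℝ) < a.e.den := Nat.cast_pos.2 a.e.den_pos
    have e4 := norm_pos_iff.2 hse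
    rw [hS, norm_mul, norm_pow, Complex.norm_two] at hn
    refine (mul_le_mul_of_nonneg_right e1 (by positivity)).trans ?_
    rw [G4.n2_eq, hp, norm_mul, norm_mul, norm_pow, Complex.norm_two, Complex.norm_natCast]
    simp only [AQ.an]
    push_cast
    rw [e2]
    refine le_trans (le_of_eq ?_) (div_le_div_of_nonneg_right
      (mul_le_mul_of_nonneg_left hn (by positivity)) (by positivity))
    field_simp
    norm_num
  have h10 := norm_sub_le_norm_sub_add_norm_sub ((a.sx : ℂ) / 2 * a.lg η (g.c + w))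
    ((a.sx : ℂ) / 2 * a.uu (g.c + w) * η) (a.sx * ((a.an g).uu p).val * η / 2 ^ 41)
  change ‖_ - ((a.an g).ww ((a.an g).uu p)).val * η / 2 ^ 41‖ ≤
    (((a.an g).kk * ns / p.n2 + 4194304 : ℕ) : ℝ) / 2 ^ 60
  rw [h3, Nat.cast_add, le_div_iff₀ (by positivity)]
  rw [Nat.cast_ofNat]
  linarith

end Pool.Agent.MP_92463a_gt

end
end
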