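import Pool.Agent.Mg.F92463a.Gbd667f
import Pool.Agent.Mg.F92463a.Gad85aa

section

open Set Complex Filter Metric
open scoped Topology ComplexConjugate ContDiff Manifold

noncomputable section

namespace Pool.Agent.MP_92463a_gt

theorem HdN2_step {a : AQ} {o : AO} {z : ℂ} (h : o.Rep a z) {q : PS} {P M C : ℂ}
    (hq : q.Rep P M C) :
    (PS.step o q).Rep (P * if a.up then z else 1) (M * if a.up then 1 else z)
      (C * if a.cube then pm a.up z else 1) ∧ (PS.step o q).r = q.r + o.r := by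
  obtain ⟨hu, hc, hz, hdl, hps⟩ := h
  obtain ⟨h1, h2, h3, h4, h5, h6⟩ := hq
  rw [← hu, ← hc]
  unfold PS.step
  cases o.up <;> cases o.cube <;> refine ⟨⟨?_, ?_, ?_, ?_, ?_, ?_⟩, rfl⟩ <;>
    simp only [cond_true, cond_false, G4.val_mul, hps, h4, h5, h6, pm, if_true, if_false,
      Bool.false_eq_true, mul_one] <;>
    first
      | assumption
      | exact mul_ne_zero (by assumption) hdl
      | exact mul_ne_zero (by assumption) (mul_ne_zero hz hdl)
      | ring1
      | field_simp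

theorem PS.Rep.fold {φ : AQ → ℂ} {as : List AQ} {os : List AO}
    (h : List.Forall₂ (fun (a : AQ) (o : AO) => o.Rep a (φ a)) as os) {p : PS} {P M C : ℂ}
    (hp : p.Rep P M C) :
    (os.foldr PS.step p).Rep (P * ((as.filter fun a => a.up).map φ).prod)
      (M * ((as.filter fun a => !a.up).map φ).prod)
      (C * ((as.filter fun a => a.cube).map fun a => pm a.up (φ a)).prod) ∧
    (os.foldr PS.step p).r = p.r + (os.map AO.r).sum := by
  induction h with
  | nil => simpa using hp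
  | @cons a o as os h _ ih =>
    obtain ⟨h1, h2⟩ := HdN2_step h ih.1
    rw [List.foldr_cons, h2, ih.2, List.map_cons, List.sum_cons]
    refine ⟨?_, by ring⟩
    convert h1 using 1
    · cases hu : a.up <;> simp [hu, mul_comm, mul_left_comm]
    · cases hu : a.up <;> simp [hu, mul_comm, mul_left_comm]
    · cases hc : a.cube <;> simp [hc, mul_comm, mul_left_comm]

theorem exp_half {φ : AQ → ℂ} {as : List AQ} (h : ∀ a ∈ as, φ a ≠ 0) :
    exp (as.map fun a => (a.sx : ℂ) / 2 * log (φ a)).sum =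
      ((as.filter fun a => a.cube).map fun a => pm a.up (φ a)).prod *
        exp (((as.filter fun a => a.up).map fun a => log (φ a)).sum / 2) /
        exp (((as.filter fun a => !a.up).map fun a => log (φ a)).sum / 2) := by
  induction as with
  | nil => simp
  | cons a as ih =>
    have hz : φ a ≠ 0 := h a List.mem_cons_self
    have hE : exp (log (φ a) / 2) ≠ 0 := exp_ne_zero _
    have h1 : exp (1 / 2 * log (φ a)) = exp (log (φ a) / 2) := congrArg exp (by ring)
    have h3 : exp (3 / 2 * log (φ a)) = φ a * exp (log (φ a) / 2) := by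
      rw [show 3 / 2 * log (φ a) = log (φ a) + log (φ a) / 2 by ring, exp_add, exp_log hz]
    have h1' : exp (-1 / 2 * log (φ a)) = (exp (log (φ a) / 2))⁻¹ := by
      rw [← h1, ← exp_neg]
      exact congrArg exp (by ring)
    have h3' : exp (-3 / 2 * log (φ a)) = (φ a * exp (log (φ a) / 2))⁻¹ := by
      rw [← h3, ← exp_neg]
      exact congrArg exp (by ring)
    have hT := exp_ne_zero (((as.filter fun a => !a.up).map fun a => log (φ a)).sum / 2)
    rw [List.map_cons, List.sum_cons, exp_add, ih fun b hb => h b (List.mem_cons_of_mem _ hb)]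
    have hs : (a.sx : ℂ) = (if a.up then 1 else -1) * (if a.cube then 3 else 1) := by
      unfold AQ.sx AQ.ex
      cases a.up <;> cases a.cube <;> simp
    rw [hs]
    cases hu : a.up <;> cases hc : a.cube <;>
      simp only [List.filter_cons, hu, hc, pm, if_true, if_false, Bool.false_eq_true, Bool.not_true,
        Bool.not_false, List.map_cons, List.sum_cons, List.prod_cons, add_div, exp_add, mul_one,
        one_mul, neg_mul, h1, h3, h1', h3'] <;>
      field_simp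

theorem exp_sum_log {φ : AQ → ℂ} {as : List AQ} (h : ∀ a ∈ as, φ a ≠ 0) :
    exp (as.map fun a => log (φ a)).sum = (as.map φ).prod := by
  induction as with
  | nil => simp
  | cons a as ih =>
    rw [List.map_cons, List.sum_cons, exp_add, ih fun b hb => h b (List.mem_cons_of_mem _ hb),
      exp_log (h a List.mem_cons_self), List.map_cons, List.prod_cons]

theorem im_sum_log {φ : AQ → ℂ} {z : AQ → ℚ} {as : List AQ}
    (h : ∀ a ∈ as, |arg (φ a)| ≤ (z a : ℝ)) :
    |(as.map fun a => log (φ a)).sum.im| ≤ (((as.map z).sum : ℚ) : ℝ) := by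
  induction as with
  | nil => simp
  | cons a as ih =>
    rw [List.map_cons, List.sum_cons, add_im, log_im, List.map_cons, List.sum_cons, Rat.cast_add]
    exact (abs_add_le _ _).trans
      (add_le_add (h a List.mem_cons_self) (ih fun b hb => h b (List.mem_cons_of_mem _ hb)))

theorem HdN2_bd (u : G4) {x : ℝ} {n : ℕ} (hx : |x| ≤ n / 2 ^ 40) :
    ‖u.val * (x : ℂ)‖ ≤ (u.nr : ℝ) * n / 2 ^ 40 := by
  rw [norm_mul, norm_real, Real.norm_eq_abs, mul_div_assoc]
  exact mul_le_mul u.nr_ge hx (abs_nonneg _) (Nat.cast_nonneg _)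

theorem HdN2_cons {d : DC} (hd : d.Ok) (t dx dy : G4) (s : DR) (v : List ℝ)
    (hs : ‖dotG s.ds v‖ ≤ s.lam / 2 ^ 40) :
    ‖dotG (DR.cons d.b.hx d.b.hy t dx dy s).ds (d.ξ :: d.ζ :: v)‖ ≤
      (DR.cons d.b.hx d.b.hy t dx dy s).lam / 2 ^ 40 := by
  have h1 := HdN2_bd dx hd.2.2.1
  have h2 := HdN2_bd dy hd.2.2.2
  have h3 : dotG (DR.cons d.b.hx d.b.hy t dx dy s).ds (d.ξ :: d.ζ :: v) =
      dx.val * d.ξ + (dy.val * d.ζ + dotG s.ds v) := by simp [dotG, DR.cons]
  have h4 : ((DR.cons d.b.hx d.b.hy t dx dy s).lam : ℝ) =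
      dx.nr * d.b.hx + dy.nr * d.b.hy + s.lam := by simp [DR.cons]
  rw [h3, h4, add_div, add_div, add_assoc]
  exact (norm_add_le _ _).trans (add_le_add h1 ((norm_add_le _ _).trans (add_le_add h2 hs)))

theorem dRec_spec {ds : List DC} (hd : ∀ d ∈ ds, d.Ok) {os : List AO}
    (hl : os.length = 2 * ds.length) (η : ℝ) :
    (List.zipWith (fun (o : AO) (e : ℝ) => o.w.val * e) os (etas ds η)).sum =
        η * (dRec (ds.map DC.b) os).t.val + dotG (dRec (ds.map DC.b) os).ds (devL ds) ∧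
      (dRec (ds.map DC.b) os).ds.length = 2 * ds.length ∧
      ‖dotG (dRec (ds.map DC.b) os).ds (devL ds)‖ ≤ (dRec (ds.map DC.b) os).lam / 2 ^ 40 := by
  induction ds generalizing os η with
  | nil => simp [etas, dRec, dotG, G4.val_nat]
  | cons d ds ih =>
    rcases os with _ | ⟨o1, _ | ⟨o2, m⟩⟩
    · simp at hl
    · simp only [List.length_cons, List.length_nil] at hl
      omega
    obtain ⟨h1, h2, h3⟩ := ih (fun b hb => hd b (List.mem_cons_of_mem _ hb)) (os := m)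
      (by simp only [List.length_cons] at hl; omega) (η + d.el)
    have hd0 := hd d List.mem_cons_self
    rw [List.map_cons, dRec, devL, etas, List.zipWith_cons_cons, List.zipWith_cons_cons,
      List.sum_cons, List.sum_cons, h1, DR.step, DC.e1, DC.e2, DC.el]
    cases d.b.H <;> refine ⟨?_, ?_, HdN2_cons hd0 _ _ _ _ _ h3⟩
    · simp only [cond_false, DR.cons, dotG, List.zipWith_cons_cons, List.sum_cons, G4.val_add,
        G4.val_sub, Bool.false_eq_true, if_false]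
      push_cast
      ring
    · simp only [cond_false, DR.cons, List.length_cons, h2]
      ring
    · simp only [cond_true, DR.cons, dotG, List.zipWith_cons_cons, List.sum_cons, G4.val_add,
        G4.val_neg, if_true]
      push_cast
      ring
    · simp only [cond_true, DR.cons, List.length_cons, h2]
      ring

end Pool.Agent.MP_92463a_gt

end
end

section

open Set Complex Filter Metric
open scoped Topology ComplexConjugate ContDiff Manifold

noncomputable section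

namespace Pool.Agent.MP_92463a_gt

theorem HdN3_shr (x k : ℕ) : (x : ℝ) / 2 ^ k ≤ ((Nat.shiftRight x k : ℕ) : ℝ) + 1 := by
  have h : Nat.shiftRight x k = x / 2 ^ k := Nat.shiftRight_eq_div_pow x k
  rw [h]
  have h2 : x < (x / 2 ^ k + 1) * 2 ^ k := by
    have := Nat.lt_div_mul_add (a := x) (b := 2 ^ k) (by positivity)
    nlinarith
  rw [div_le_iff₀ (by positivity)]
  exact_mod_cast h2.le

theorem HdN3_dot (g : G4) (ds : List G4) (v : List ℝ) :
    dotZ ((ds.map fun d => (g.rp d, g.rn d)).map pz) v = (g.val * dotG ds v).re := by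
  induction ds generalizing v with
  | nil => simp [dotZ, dotG]
  | cons d ds ih =>
    cases v with
    | nil => simp [dotZ, dotG]
    | cons x v =>
      have h1 := ih v
      simp only [dotZ, dotG, List.map_cons, List.zipWith_cons_cons, List.sum_cons] at h1 ⊢
      rw [h1, mul_add, add_re, ← mul_assoc, re_mul_ofReal, G4.rp_rn]
      simp [pz]

theorem HdN3_err (gp gm : G4) (ρ σ : ℕ) :
    2 * (2 / 2 ^ 40 : ℝ) + (‖gp.val / 2 ^ 40‖ + 2 / 2 ^ 40) * (9 / 16 * ((σ : ℝ) / 2 ^ 60) ^ 2) +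
      (‖gm.val / 2 ^ 40‖ + 2 / 2 ^ 40) * (3 / 16 * ((σ : ℝ) / 2 ^ 60) ^ 3 + (ρ : ℝ) / 2 ^ 60) ≤
      (errN gp gm ρ σ : ℝ) / 2 ^ 100 := by
  have h1 := HdN3_shr ((gp.nr + 2) * 9 * (σ * σ)) 64
  have h2 := HdN3_shr (3 * (σ * (σ * σ))) 124
  have hp := gp.nr_ge
  have hm := gm.nr_ge
  have e : (errN gp gm ρ σ : ℝ) = 2 ^ 62 +
      (((Nat.shiftRight ((gp.nr + 2) * 9 * (σ * σ)) 64 : ℕ) : ℝ) + 1) +
      ((gm.nr : ℝ) + 2) * (((Nat.shiftRight (3 * (σ * (σ * σ))) 124 : ℕ) : ℝ) + 1 + ρ) := by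
    simp only [errN, Nat.add_eq, Nat.mul_eq, Nat.pow_eq]
    push_cast
    ring
  rw [e]
  generalize ((Nat.shiftRight ((gp.nr + 2) * 9 * (σ * σ)) 64 : ℕ) : ℝ) = A at h1 ⊢
  generalize ((Nat.shiftRight (3 * (σ * (σ * σ))) 124 : ℕ) : ℝ) = B at h2 ⊢
  push_cast at h1 h2
  have n1 : ‖gp.val / 2 ^ 40‖ = ‖gp.val‖ / 2 ^ 40 := by simp
  have n2 : ‖gm.val / 2 ^ 40‖ = ‖gm.val‖ / 2 ^ 40 := by simp
  rw [n1, n2]
  have hσ : (0 : ℝ) ≤ σ := Nat.cast_nonneg _
  have hρ : (0 : ℝ) ≤ ρ := Nat.cast_nonneg _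
  have k1 : (‖gp.val‖ + 2) * 9 * ((σ : ℝ) * σ) / 2 ^ 64 ≤ A + 1 := by
    refine le_trans ?_ h1
    gcongr
  have k2 : (‖gm.val‖ + 2) * (3 * ((σ : ℝ) * (σ * σ)) / 2 ^ 124 + ρ) ≤
      ((gm.nr : ℝ) + 2) * (B + 1 + ρ) := by
    gcongr
  calc _ = (2 ^ 62 + (‖gp.val‖ + 2) * 9 * ((σ : ℝ) * σ) / 2 ^ 64 +
        (‖gm.val‖ + 2) * (3 * ((σ : ℝ) * (σ * σ)) / 2 ^ 124 + ρ)) / 2 ^ 100 := by ring
    _ ≤ _ := by gcongr

theorem HdN3_qt {u den : G4} (hd : 0 < den.n2) {z : ℂ} (hz : u.val / den.val = z) :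
    ‖(G4.qt 40 u den).val / 2 ^ 40 - z‖ ≤ 2 / 2 ^ 40 := by
  have h := G4.qt_err u den 40 hd
  have e : (G4.qt 40 u den).val / 2 ^ 40 - z =
      ((G4.qt 40 u den).val - 2 ^ 40 * u.val / den.val) / 2 ^ 40 := by
    rw [← hz]; ring
  rw [e, norm_div]
  have : ‖(2 : ℂ) ^ 40‖ = 2 ^ 40 := by simp
  rw [this]
  gcongr

theorem HdN3_zip (p q : List (ℕ × ℕ)) (h : p.length = q.length) (v : List ℝ) :
    dotZ ((List.zipWith addP p q).map pz) v = dotZ (p.map pz) v + dotZ (q.map pz) v := by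
  induction p generalizing q v with
  | nil =>
    cases q with
    | nil => simp [dotZ]
    | cons _ _ => simp at h
  | cons x p ih =>
    cases q with
    | nil => simp at h
    | cons y q =>
      cases v with
      | nil => simp [dotZ]
      | cons t v =>
        have h1 := ih q (by simpa using h) v
        simp only [dotZ, List.map_cons, List.zipWith_cons_cons, List.sum_cons] at h1 ⊢
        rw [h1]
        simp only [pz, addP, Nat.add_eq]
        push_cast
        ring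

theorem HdN3_rep (n : ℕ) (v : List ℝ) :
    dotZ ((List.replicate n ((0, 0) : ℕ × ℕ)).map pz) v = 0 := by
  induction n generalizing v with
  | zero => simp [dotZ]
  | succ n ih =>
    cases v with
    | nil => simp [dotZ]
    | cons t v =>
      have h1 := ih v
      simp only [dotZ, List.replicate_succ, List.map_cons, List.zipWith_cons_cons,
        List.sum_cons] at h1 ⊢
      rw [h1]
      simp [pz]

theorem HdN3_len (l : List DC) : (devL l).length = 2 * l.length := by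
  induction l with
  | nil => rfl
  | cons d l ih => simp [devL, ih]; ring

theorem HdN3_dev (l l' : List DC) : devL (l ++ l') = devL l ++ devL l' := by
  induction l with
  | nil => rfl
  | cons d l ih => simp [devL, ih]

theorem HdN3_app {J J' : List ℤ} {l l' : List DC} (h : J.length = 2 * l.length) :
    dotZ (J ++ J') (devL (l ++ l')) = dotZ J (devL l) + dotZ J' (devL l') := by
  rw [HdN3_dev]
  unfold dotZ
  rw [List.zipWith_append (by rw [h, HdN3_len]), List.sum_append]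

theorem HdN3_unfl (l : List DC) {J : List ℤ} (hJ : J.length = 2 * l.length) :
    (unfl ((l.map DC.flip).map DC.b) J).length = 2 * l.length ∧
      dotZ (unfl ((l.map DC.flip).map DC.b) J) (devL l.reverse) =
        dotZ J (devL (l.map DC.flip)) := by
  induction l generalizing J with
  | nil =>
    have : J = [] := by simpa using hJ
    subst this
    simp [unfl, dotZ]
  | cons d l ih =>
    match J, hJ with
    | [], hJ => simp at hJ
    | [_], hJ => simp at hJ; omega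
    | x :: y :: m, hJ =>
      have hm : m.length = 2 * l.length := by simp at hJ; omega
      obtain ⟨h1, h2⟩ := ih hm
      simp only [List.map_cons, unfl, List.reverse_cons]
      refine ⟨?_, ?_⟩
      · rw [List.length_append, h1]
        split_ifs <;> simp <;> ring
      · rw [HdN3_app (by rw [h1, List.length_reverse]), h2]
        by_cases hH : d.b.H = true
        · simp [DC.flip, CB.flip, hH, devL, dotZ]
          ring
        · simp [DC.flip, CB.flip, hH, devL, dotZ]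
          ring

theorem node3_spec {ok : Bool} {S Om a b : G4} {du dd : DR} {ρ : ℕ}
    (h : (node3 ok S Om a b du dd ρ).ok = true) {vu vd : List ℝ} {X : ℂ}
    (hX : ‖X - (dotG du.ds vu + dotG dd.ds vd) / 2 ^ 41‖ ≤ ρ / 2 ^ 60)
    (hu : ‖dotG du.ds vu‖ ≤ du.lam / 2 ^ 40) (hd : ‖dotG dd.ds vd‖ ≤ dd.lam / 2 ^ 40) :
    |((a.val / b.val * exp X + (a.val / b.val * exp X)⁻¹) * (Om.val / S.val)).re -
        (node3 ok S Om a b du dd ρ).ev vu vd| ≤ (node3 ok S Om a b du dd ρ).r / 2 ^ 100 := by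
  simp only [node3, node4, node5, Bool.and_eq_true, Nat.blt_eq, Nat.ble_eq, Nat.add_eq,
    Nat.pow_eq] at h
  obtain ⟨⟨-, hden⟩, hσ⟩ := h
  have hd0 := (G4.n2_pos _).1 hden
  rw [G4.val_mul, G4.val_mul] at hd0
  have ha : a.val ≠ 0 := fun e => hd0 (by rw [e]; ring)
  have hb : b.val ≠ 0 := fun e => hd0 (by rw [e]; ring)
  have hS : S.val ≠ 0 := fun e => hd0 (by rw [e]; ring)
  have hp := HdN3_qt (u := ((a.mul a).add (b.mul b)).mul Om) hden
    (z := (a.val / b.val + (a.val / b.val)⁻¹) * (Om.val / S.val)) (by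
      simp only [G4.val_mul, G4.val_add]
      field_simp)
  have hm := HdN3_qt (u := ((a.mul a).sub (b.mul b)).mul Om) hden
    (z := (a.val / b.val - (a.val / b.val)⁻¹) * (Om.val / S.val)) (by
      simp only [G4.val_mul, G4.val_sub]
      field_simp)
  have hsh := HdN3_shr (du.lam + dd.lam) 21
  have hL : ‖(dotG du.ds vu + dotG dd.ds vd) / 2 ^ 41‖ + (ρ : ℝ) / 2 ^ 60 ≤
      ((Nat.shiftRight (du.lam + dd.lam) 21 + 1 + ρ : ℕ) : ℝ) / 2 ^ 60 := by
    have n1 : ‖(dotG du.ds vu + dotG dd.ds vd) / 2 ^ 41‖ =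
        ‖dotG du.ds vu + dotG dd.ds vd‖ / 2 ^ 41 := by simp
    have n2 := norm_add_le (dotG du.ds vu) (dotG dd.ds vd)
    rw [n1]
    push_cast at hsh ⊢
    linarith
  have hσ' : ((Nat.shiftRight (du.lam + dd.lam) 21 + 1 + ρ : ℕ) : ℝ) / 2 ^ 60 ≤ 1 := by
    rw [div_le_one (by positivity)]
    exact_mod_cast hσ
  have key := node_exp (div_ne_zero ha hb) hp hm hX hL hσ'
  refine le_trans (le_of_eq ?_) (key.trans (HdN3_err _ _ _ _))
  congr 1
  simp only [node3, node4, node5, NO.ev, HdN3_dot]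
  generalize G4.qt 40 (((a.mul a).add (b.mul b)).mul Om) ((a.mul b).mul S) = gp
  generalize G4.qt 40 (((a.mul a).sub (b.mul b)).mul Om) ((a.mul b).mul S) = gm
  have e1 : (gp.val / 2 ^ 40).re = ((gp.a : ℝ) - gp.b) / 2 ^ 40 := by
    rw [← G4.val_re]
    have : (2 : ℂ) ^ 40 = ((2 ^ 40 : ℝ) : ℂ) := by push_cast; rfl
    rw [this, div_ofReal_re]
  have e2 : (gm.val / 2 ^ 40 * ((dotG du.ds vu + dotG dd.ds vd) / 2 ^ 41)).re =
      ((gm.val * dotG du.ds vu).re + (gm.val * dotG dd.ds vd).re) / 2 ^ 81 := by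
    have : gm.val / 2 ^ 40 * ((dotG du.ds vu + dotG dd.ds vd) / 2 ^ 41) =
        (gm.val * dotG du.ds vu + gm.val * dotG dd.ds vd) / ((2 ^ 81 : ℝ) : ℂ) := by
      push_cast; ring
    rw [this, div_ofReal_re, add_re]
  rw [e1, e2]
  ring

theorem node3_ok {ok : Bool} {S Om a b : G4} {du dd : DR} {ρ : ℕ}
    (h : (node3 ok S Om a b du dd ρ).ok = true) : ok = true := by
  simp only [node3, node4, node5, Bool.and_eq_true] at h
  exact h.1.1

theorem node3_len (ok : Bool) (S Om a b : G4) (du dd : DR) (ρ : ℕ) :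
    (node3 ok S Om a b du dd ρ).ju.length = du.ds.length ∧
      (node3 ok S Om a b du dd ρ).jd.length = dd.ds.length := by
  simp [node3, node4, node5]

theorem nodes_spec {L : LN} {tb : List G4} {φ : G4 → ℝ} {vu vd : List ℝ}
    (h : (nodes L tb).ok = true)
    (hφ : ∀ Z ∈ tb, (node L Z).ok = true → (node L Z).ju.length = 2 * L.bu.length ∧
      (node L Z).jd.length = 2 * L.bd.length ∧
      |φ Z - (node L Z).ev vu vd| ≤ (node L Z).r / 2 ^ 100) :
    (nodes L tb).ju.length = 2 * L.bu.length ∧ (nodes L tb).jd.length = 2 * L.bd.length ∧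
      |(tb.map φ).sum - (nodes L tb).ev vu vd| ≤ (nodes L tb).r / 2 ^ 100 := by
  induction tb with
  | nil => simp [nodes, NO.ev, HdN3_rep, -List.map_replicate]
  | cons Z tb ih =>
    simp only [nodes, NO.add, Bool.and_eq_true] at h
    obtain ⟨a1, a2, a3⟩ := hφ Z (by simp) h.1
    obtain ⟨b1, b2, b3⟩ := ih h.2 fun W hW => hφ W (by simp [hW])
    refine ⟨by simp [nodes, NO.add, a1, b1], by simp [nodes, NO.add, a2, b2], ?_⟩
    have e : (nodes L (Z :: tb)).ev vu vd = (node L Z).ev vu vd + (nodes L tb).ev vu vd := by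
      simp only [nodes, NO.add, NO.ev, Nat.add_eq]
      rw [HdN3_zip _ _ (a1.trans b1.symm), HdN3_zip _ _ (a2.trans b2.symm)]
      push_cast
      ring
    have er : ((nodes L (Z :: tb)).r : ℝ) = (node L Z).r + (nodes L tb).r := by
      simp only [nodes, NO.add, Nat.add_eq]
      push_cast
      ring
    rw [e, er, List.map_cons, List.sum_cons, add_div]
    calc _ = |(φ Z - (node L Z).ev vu vd) + ((tb.map φ).sum - (nodes L tb).ev vu vd)| := by
          congr 1; ring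
      _ ≤ _ := (abs_add_le _ _).trans (add_le_add a3 b3)

theorem unfl_spec (ds : List DC) {J : List ℤ} (hJ : J.length = 2 * ds.length) :
    (unfl ((ds.reverse.map DC.flip).map DC.b) J).length = 2 * ds.length ∧
      dotZ (unfl ((ds.reverse.map DC.flip).map DC.b) J) (devL ds) =
        dotZ J (devL (ds.reverse.map DC.flip)) := by
  have h := HdN3_unfl ds.reverse (J := J) (by rw [hJ, List.length_reverse])
  rwa [List.reverse_reverse, List.length_reverse] at h

theorem dotZ_append {J J' : List ℤ} {l l' : List DC} (h : J.length = 2 * l.length) :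
    dotZ (J ++ J') (devL (l ++ l')) = dotZ J (devL l) + dotZ J' (devL l') := HdN3_app h

end Pool.Agent.MP_92463a_gt

end
end

section

open Set Complex Filter Metric
open scoped Topology ComplexConjugate ContDiff Manifold

noncomputable section

namespace Pool.Agent.MP_92463a_gt

theorem HdL4_sum {as : List AQ} {es : List ℝ} {f : AQ → ℝ → ℂ} {o : AQ → AO} {P : AQ → ℝ → Prop}
    (h : List.Forall₂ P as es)
    (hb : ∀ a ∈ as, ∀ e, P a e → ‖f a e - (o a).w.val * e / 2 ^ 41‖ ≤ (o a).r / 2 ^ 60) :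
    ‖(List.zipWith f as es).sum -
        (List.zipWith (fun (o : AO) (e : ℝ) => o.w.val * e) (as.map o) es).sum / 2 ^ 41‖ ≤
      ((((as.map o).map AO.r).sum : ℕ) : ℝ) / 2 ^ 60 := by
  induction h with
  | nil => simp
  | @cons a e as es hp _ ih =>
    have h1 := hb a (by simp) e hp
    have h2 := ih fun b hb' => hb b (by simp [hb'])
    simp only [List.map_cons, List.zipWith_cons_cons, List.sum_cons, Nat.cast_add]
    calc _ = ‖(f a e - (o a).w.val * e / 2 ^ 41) + ((List.zipWith f as es).sum -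
          (List.zipWith (fun (o : AO) (e : ℝ) => o.w.val * e) (as.map o) es).sum / 2 ^ 41)‖ := by
          congr 1; ring
      _ ≤ _ := norm_add_le _ _
      _ ≤ _ := by rw [add_div]; exact add_le_add h1 h2

theorem HdL4_div (x : ℕ) {n : ℕ} (hn : 0 < n) : (x : ℝ) / n ≤ ((x / n : ℕ) : ℝ) + 1 := by
  have h := Nat.lt_div_mul_add (a := x) hn
  have hn' : (0 : ℝ) < n := by exact_mod_cast hn
  rw [div_le_iff₀ hn']
  have : (x : ℝ) < ((x / n : ℕ) : ℝ) * n + n := by exact_mod_cast h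
  linarith

theorem HdL4_rho {L : LN} {S : G4} {s : ℂ} {lu ld : ℚ} (r : ℕ) (hS : S.val = 2 ^ 52 * s)
    (hs : s ≠ 0) (hu : L.tu = ⌈6 * lu * 2 ^ 60⌉₊) (hd : L.td = ⌈6 * ld * 2 ^ 60⌉₊) :
    (r : ℝ) / 2 ^ 60 + 6 * ((lu : ℝ) * ‖s‖ + (ld : ℝ) / ‖s‖) + 6 / 2 ^ 33 ≤
      (rhoN L S S.nr r : ℝ) / 2 ^ 60 := by
  have hs0 : 0 < ‖s‖ := norm_pos_iff.2 hs
  have hn : ‖S.val‖ = 2 ^ 52 * ‖s‖ := by rw [hS, norm_mul, norm_pow]; simp
  have hns : 2 ^ 52 * ‖s‖ ≤ S.nr := hn ▸ S.nr_ge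
  have h2 : (S.n2 : ℝ) = (2 ^ 52 * ‖s‖) ^ 2 := by rw [G4.n2_eq, hn]
  have h2p : 0 < S.n2 := by
    have : (0 : ℝ) < S.n2 := by rw [h2]; positivity
    exact_mod_cast this
  have htu : 6 * (lu : ℝ) * 2 ^ 60 ≤ L.tu := by
    have : 6 * lu * 2 ^ 60 ≤ (L.tu : ℚ) := hu ▸ Nat.le_ceil _
    exact_mod_cast this
  have htd : 6 * (ld : ℝ) * 2 ^ 60 ≤ L.td := by
    have : 6 * ld * 2 ^ 60 ≤ (L.td : ℚ) := hd ▸ Nat.le_ceil _
    exact_mod_cast this
  have e : rhoN L S S.nr r =
      r + 1073741826 + (L.tu * S.nr / 2 ^ 52 + L.td * S.nr * 2 ^ 52 / S.n2) := by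
    change r + 1073741826 + ((L.tu * S.nr) >>> 52 + ((L.td * S.nr) <<< 52) / S.n2) = _
    rw [Nat.shiftRight_eq_div_pow, Nat.shiftLeft_eq]
  have a1 := HdL4_div (L.tu * S.nr) (n := 2 ^ 52) (by positivity)
  have a2 := HdL4_div (L.td * S.nr * 2 ^ 52) h2p
  have b1 : 6 * ((lu : ℝ) * ‖s‖) * 2 ^ 60 ≤ ((L.tu * S.nr : ℕ) : ℝ) / ((2 ^ 52 : ℕ) : ℝ) := by
    rw [le_div_iff₀ (by positivity)]
    push_cast
    calc _ = (6 * (lu : ℝ) * 2 ^ 60) * (2 ^ 52 * ‖s‖) := by ring
      _ ≤ (L.tu : ℝ) * (2 ^ 52 * ‖s‖) := by gcongr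
      _ ≤ _ := by gcongr
  have b2 : 6 * ((ld : ℝ) / ‖s‖) * 2 ^ 60 ≤ ((L.td * S.nr * 2 ^ 52 : ℕ) : ℝ) / (S.n2 : ℝ) := by
    rw [h2, le_div_iff₀ (by positivity)]
    push_cast
    calc _ = (6 * (ld : ℝ) * 2 ^ 60) * (2 ^ 52 * ‖s‖) * 2 ^ 52 := by field_simp
      _ ≤ (L.td : ℝ) * (2 ^ 52 * ‖s‖) * 2 ^ 52 := by gcongr
      _ ≤ (L.td : ℝ) * S.nr * 2 ^ 52 := by gcongr
      _ = _ := by norm_num
  rw [e, le_div_iff₀ (by positivity)]
  simp only [Nat.cast_add, Nat.cast_ofNat]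
  have c : ((r : ℝ) / 2 ^ 60 + 6 * ((lu : ℝ) * ‖s‖ + (ld : ℝ) / ‖s‖) + 6 / 2 ^ 33) * 2 ^ 60 =
      r + 6 * ((lu : ℝ) * ‖s‖) * 2 ^ 60 + 6 * ((ld : ℝ) / ‖s‖) * 2 ^ 60 + 805306368 := by ring
  rw [c]
  linarith

theorem HdL4_ps0 {g : Ge} {S Om : G4} {w : ℂ} (hw : w ≠ 0) (hS : S.val = 2 ^ 52 * (g.c + w))
    (hO : Om.val = 2 ^ 52 * w) : (ps0 g.zin S Om).Rep 1 (g.phi0 w) 1 := by
  refine ⟨?_, ?_, ?_, ?_, ?_, ?_⟩ <;> simp only [ps0, G4.val_nat, Ge.phi0]
  · simp
  · cases g.zin <;> simp [G4.val_nat, hO, hw]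
  · simp
  · simp
  · cases g.zin
    · simp [G4.val_nat, hS]; ring
    · simp only [cond_true, hO, hS, if_true]; field_simp
  · simp

theorem HdL4_alg {x y A B b gp gm c P M l δ1 δ2 : ℂ} (hy : y ≠ 0) (hA : A ≠ 0) (hB : B ≠ 0)
    (hb : b ≠ 0) (hm : gm ≠ 0) (e1 : exp (P / 2) = gp / 2 ^ 64 * exp δ1)
    (e2 : exp ((l + M) / 2) = gm / 2 ^ 64 * exp δ2) :
    x / y * (exp (-l / 2) * (c * exp (P / 2) / exp (M / 2))) =
      B * (gp * (1 * c * b) * (A * x)) / (A * (gm * b * (B * y))) * exp (δ1 - δ2) := by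
  have e3 : exp (-l / 2) / exp (M / 2) = (gm / 2 ^ 64 * exp δ2)⁻¹ := by
    rw [← e2, ← exp_neg, ← exp_sub]; congr 1; ring
  have := exp_ne_zero δ2
  calc _ = x / y * (c * exp (P / 2) * (exp (-l / 2) / exp (M / 2))) := by ring
    _ = _ := by rw [e1, e3, exp_sub]; field_simp

/-- the value of the explicit part at a node -/
theorem HdL4_gam {g : Ge} {k : LK} {as : List AQ} {w : ℂ} (h : g.Ok) (hw : g.Thin w)
    (ha : ∀ a ∈ as, a.ok g = true)
    (hp : ((as.filter fun a => a.up).map fun a => az (a.zR g)).sum ≤ 31 / 10)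
    (hm : az g.z0 + ((as.filter fun a => !a.up).map fun a => az (a.zR g)).sum ≤ 31 / 10)
    {p : PS} {Om gp gm : G4} (hO : Om.val = 2 ^ 52 * w)
    (hr : p.Rep (1 * ((as.filter fun a => a.up).map fun a => a.phi g w).prod)
      (g.phi0 w * ((as.filter fun a => !a.up).map fun a => a.phi g w).prod)
      (1 * ((as.filter fun a => a.cube).map fun a => pm a.up (a.phi g w)).prod))
    (h1 : sqOk gp p.np p.dp = true) (h2 : sqOk gm p.nm p.dm = true) :
    ∃ δ : ℂ, ‖δ‖ ≤ 6 / 2 ^ 33 ∧ Gam0 g k as w =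
      (G4.sm (Nat.pow 2 (Nat.mul 52 k.nm)) ((gp.mul p.a).mul (Om.pw k.np))).val /
        (G4.sm (Nat.pow 2 (Nat.mul 52 k.np)) ((gm.mul p.b).mul (Om.pw k.nm))).val * exp δ := by
  have hA := h.thin_ann hw
  have hw0 := h.w_ne hA
  have hne : ∀ a ∈ as, a.phi g w ≠ 0 := fun a ha' h0 => by
    have := AQ.phi_re h (ha a ha') hA
    rw [h0] at this
    simp at this
  have h0 : g.phi0 w ≠ 0 := fun h0 => by
    have := h.phi0_re hA
    rw [h0] at this
    simp at this
  have harg : ∀ a ∈ as, |arg (a.phi g w)| ≤ ((az (a.zR g) : ℚ) : ℝ) := fun a ha' =>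
    AQ.phi_arg h (ha a ha') hw
  have i0 := im_sum_log (z := fun a => az (a.zR g)) (as := as.filter fun a => a.up)
    fun a ha' => harg a (List.mem_of_mem_filter ha')
  have i1 := im_sum_log (z := fun a => az (a.zR g)) (as := as.filter fun a => !a.up)
    fun a ha' => harg a (List.mem_of_mem_filter ha')
  have c : ((31 / 10 : ℚ) : ℝ) = 31 / 10 := by norm_num
  have i2 := (Rat.cast_le (K := ℝ)).2 hp
  have i3 := (Rat.cast_le (K := ℝ)).2 hm
  rw [c] at i2
  rw [c, Rat.cast_add] at i3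
  have j1 := hr.np
  have j2 := hr.nm
  rw [one_mul, ← exp_sum_log fun a ha' => hne a (List.mem_of_mem_filter ha')] at j1
  rw [← exp_sum_log fun a ha' => hne a (List.mem_of_mem_filter ha'), ← exp_log h0, ← exp_add] at j2
  obtain ⟨-, δ1, d1, e1⟩ := sq_sound h1 j1 (i0.trans i2)
  obtain ⟨n2, δ2, d2, e2⟩ := sq_sound h2 j2 (by
    rw [add_im, log_im]
    exact (abs_add_le _ _).trans ((add_le_add (h.phi0_arg hw) i1).trans i3))
  refine ⟨δ1 - δ2, (norm_sub_le _ _).trans ((add_le_add d1 d2).trans (by norm_num)), ?_⟩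
  have p1 : ∀ n : ℕ, ((Nat.pow 2 (Nat.mul 52 n) : ℕ) : ℂ) = (2 ^ 52) ^ n := fun n => by
    rw [Nat.pow_eq, Nat.mul_eq, pow_mul, Nat.cast_pow, Nat.cast_pow, Nat.cast_ofNat]
  rw [G4.val_sm, G4.val_sm, G4.val_mul, G4.val_mul, G4.val_mul, G4.val_mul, G4.val_pw, G4.val_pw,
    p1, p1, hO, hr.a, Gam0, L0, exp_add, exp_half hne, mul_pow, mul_pow]
  exact HdL4_alg (pow_ne_zero _ hw0) (pow_ne_zero _ (by norm_num)) (pow_ne_zero _ (by norm_num))
    hr.b n2 e1 e2

theorem LC.Ok.node {C : LC} (h : C.Ok) {Z : G4} (hZ : C.g.Thin (C.g.R * (Z.val / 2 ^ 40)))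
    (ho : (node C.ln Z).ok = true) :
    (node C.ln Z).ju.length = 2 * C.ln.bu.length ∧ (node C.ln Z).jd.length = 2 * C.ln.bd.length ∧
      |(fI C.Gam C.g.c (C.g.R * (Z.val / 2 ^ 40))).re - (node C.ln Z).ev (devL C.du) (devL C.dd)| ≤
        (node C.ln Z).r / 2 ^ 100 := by
  generalize hw : (C.g.R : ℂ) * (Z.val / 2 ^ 40) = w at hZ ⊢
  have hA := h.ge.thin_ann hZ
  obtain ⟨Om, hOm⟩ : ∃ Om, Om = G4.sm C.ln.R Z := ⟨_, rfl⟩
  obtain ⟨S, hSd⟩ : ∃ S, S = (C.ln.c.add Om).nz := ⟨_, rfl⟩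
  have hO : Om.val = 2 ^ 52 * w := by
    rw [hOm, G4.val_sm, ← hw]
    simp only [LC.ln, LC.g, LK.ge]
    push_cast
    ring
  have hS : S.val = 2 ^ 52 * (C.g.c + w) := by
    rw [hSd, G4.val_nz, G4.val_add, hO]
    simp only [LC.ln, LC.g, LK.ge, G4.val_int]
    push_cast
    ring
  obtain ⟨o, hod⟩ : ∃ o : AQ → AO, o = fun a => AN.ev S Om S.nr (a.an C.g) := ⟨_, rfl⟩
  have hev := fun a (ha : a ∈ C.as) (η : ℝ) (hη : |η| ≤ a.h / 2 ^ 40) =>
    AQ.ev_spec h.ge (h.at' a ha) hA hS hO S.nr_ge hη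
  obtain ⟨p, hp⟩ : ∃ p, p = (C.as.map o).foldr PS.step (ps0 C.g.zin S Om) := ⟨_, rfl⟩
  have e : Pool.Agent.MP_92463a_gt.node C.ln Z = node2 C.ln S Om S.nr p (csq p.np p.dp)
      (csq p.nm p.dm) (dRec C.bu (C.au.map o)) (dRec C.bd (C.ad.map o)) := by
    rw [hp, LC.as, List.map_append, List.foldr_append, hod, hSd, hOm]
    simp only [Pool.Agent.MP_92463a_gt.node, nodeS, node0, node1, LC.ln, List.map_map]
    rfl
  rw [e] at ho ⊢
  unfold node2 at ho ⊢
  have hok := node3_ok ho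
  rw [Bool.and_eq_true] at hok
  have hf := PS.Rep.fold (φ := fun a => a.phi C.g w) (as := C.as) (os := C.as.map o)
    (by
      rw [List.forall₂_map_right_iff, List.forall₂_same]
      intro a ha
      rw [hod]
      exact (hev a ha 0 (by rw [abs_zero]; positivity)).1)
    (HdL4_ps0 (h.ge.w_ne hA) hS hO)
  rw [← hp] at hf
  obtain ⟨δ, hδ, hG⟩ := HdL4_gam (k := C.k) h.ge hZ h.at' h.gp h.gm hO hf.1 hok.1 hok.2
  have lu : (C.au.map o).length = 2 * C.du.length := by simp [LC.au, atQ_length, LC.bu]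
  have ld : (C.ad.map o).length = 2 * C.dd.length := by simp [LC.ad, atQ_length, LC.bd]
  obtain ⟨u1, u2, u3⟩ := dRec_spec h.oku lu 0
  obtain ⟨v1, v2, v3⟩ := dRec_spec h.okd ld 0
  refine ⟨?_, ?_, ?_⟩
  · rw [(node3_len ..).1]; simpa [LC.ln, LC.bu] using u2
  · rw [(node3_len ..).2]; simpa [LC.ln, LC.bd] using v2
  have hs := HdL4_sum (o := o) (f := fun a η => (a.sx : ℂ) / 2 * a.lg η (C.g.c + w)) h.es_le
    fun a ha η hη => by rw [hod]; exact (hev a ha η hη).2
  have hz : (List.zipWith (fun (o : AO) (e : ℝ) => o.w.val * e) (C.as.map o) C.es).sum =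
      dotG (dRec C.bu (C.au.map o)).ds (devL C.du) + dotG (dRec C.bd (C.ad.map o)).ds (devL C.dd) := by
    rw [LC.as, LC.es, List.map_append, List.zipWith_append (by rw [lu, etas_length]),
      List.sum_append, u1, v1]
    simp [LC.bu, LC.bd]
  have hr : p.r = ((C.as.map o).map AO.r).sum := by rw [hf.2]; simp [ps0]
  have hρ := HdL4_rho (L := C.ln) p.r hS (h.ge.s_ne hA) (lu := C.lu) (ld := C.ld) rfl rfl
  have hT := (h.T_spec hA).2.1
  have hX : ‖SSum C.as C.es (C.g.c + w) + C.T (C.g.c + w) + δ -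
      (dotG (dRec C.bu (C.au.map o)).ds (devL C.du) +
        dotG (dRec C.bd (C.ad.map o)).ds (devL C.dd)) / 2 ^ 41‖ ≤
      (rhoN C.ln S S.nr p.r : ℝ) / 2 ^ 60 := by
    rw [hz, ← hr] at hs
    refine le_trans ?_ hρ
    calc _ = ‖(SSum C.as C.es (C.g.c + w) - (dotG (dRec C.bu (C.au.map o)).ds (devL C.du) +
        dotG (dRec C.bd (C.ad.map o)).ds (devL C.dd)) / 2 ^ 41) + C.T (C.g.c + w) + δ‖ := by
          congr 1; ring
      _ ≤ _ := norm_add₃_le.trans (add_le_add (add_le_add hs hT) hδ)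
  have key := node3_spec ho hX u3 v3
  have hq : Om.val / S.val = w / (((C.g.c : ℝ) : ℂ) + w) := by
    rw [hO, hS, mul_div_mul_left _ _ (by norm_num), ofReal_ratCast]
  have hΓ : C.Gam w = Gam0 C.g C.k C.as w * exp (SSum C.as C.es (C.g.c + w) + C.T (C.g.c + w)) := rfl
  rw [hG, mul_assoc, ← exp_add, add_comm δ] at hΓ
  rw [fI, hΓ, ← hq]
  exact key

end Pool.Agent.MP_92463a_gt

end
end
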