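import Pool.Agent.Mg.F92463a.Gad85aa
import Pool.Agent.Mg.F92463a.Gf26bf4
import Pool.Agent.Mg.F92463a.Gbd667f
import Pool.Agent.Mg.F92463a.G865a24
import Pool.Agent.Mg.F92463a.G3b1462

section

open Set Complex Filter Metric
open scoped Topology ComplexConjugate ContDiff Manifold

noncomputable section

namespace Pool.Agent.MP_92463a_gt

theorem LC.Ok.est {C : LC} (h : C.Ok) {tb : List G4} (ht : TabOk tb)
    (ho : (nodes C.ln tb).ok = true) :
    (nodes C.ln tb).jd.length = 2 * C.dd.length ∧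
    LF C.up C.dn C.zin C.kd C.j C.g.c C.g.R (Fv C.Gam C.g.c C.g.R) ∧
    |(tb.length : ℝ) * Fv C.Gam C.g.c C.g.R - (nodes C.ln tb).ev (devL C.du) (devL C.dd)| ≤
      (nodes C.ln tb).r / 2 ^ 100 + tb.length *
        (quad C.g tb.length (mbd C.g C.as C.sb C.g.r1) (mbd C.g C.as C.sb C.g.r2) : ℝ) := by
  have g := h.ge
  have hR : (0 : ℝ) < C.g.R := by exact_mod_cast g.R_pos
  have hsp : ∀ w ∈ sphere (0 : ℂ) (C.g.R : ℝ), C.g.Ann w := fun w hw =>
    g.ann_R (mem_sphere_zero_iff_norm.1 hw)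
  have hc : ContinuousOn C.Gam (sphere 0 (C.g.R : ℝ)) := fun w hw =>
    (h.diff (hsp w hw)).1.continuousAt.continuousWithinAt
  have h4 : ∀ w ∈ sphere (0 : ℂ) (C.g.R : ℝ), C.Gam w ≠ 0 ∧
      C.Gam w ^ 4 = ZZ C.up C.dn (((C.g.c : ℝ) : ℂ) + w) ^ 2 := fun w hw =>
    ⟨(h.diff (hsp w hw)).2, by rw [ofReal_ratCast]; exact h.Gam_pow (hsp w hw)⟩
  have hs := sym_circ hR hc h4
    (fun w _ => by rw [map_pow, ← ZZ_conj, map_add, conj_ofReal]) h.at_R.2
  have hz : ∀ k (hk : k < tb.length), ‖(C.g.R : ℂ) * (tb[k].val / 2 ^ 40) - ((C.g.R : ℝ) : ℂ) *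
      exp (Real.pi * (2 * k + 1) / (2 * tb.length) * I)‖ ≤ (C.g.R : ℝ) / 2 ^ 38 := fun k hk => by
    rw [← ofReal_ratCast, ← mul_sub, norm_mul, norm_real, Real.norm_of_nonneg hR.le,
      ← mul_one_div (C.g.R : ℝ)]
    exact mul_le_mul_of_nonneg_left (ht.2 k hk) hR.le
  have hq := quad_err (f := fI C.Gam C.g.c) (r1 := C.g.r1) (r2 := C.g.r2) ht.1
    (by exact_mod_cast g.r1_pos) (by exact_mod_cast g.r1_lt_R) (by exact_mod_cast g.R_lt_r2)
    (fun w h1 h2 => by
      have h3 := h.diff ⟨h1, h2⟩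
      refine (h3.1.add (h3.1.inv h3.2)).mul
        (differentiableAt_id.div (differentiableAt_id.const_add _) ?_)
      rw [ofReal_ratCast]
      exact g.s_ne ⟨h1, h2⟩)
    (fun w hw => h.bound (Or.inl rfl) hw) (fun w hw => h.bound (Or.inr rfl) hw)
    (fun w hw => by simp only [fI, hs w hw, map_mul, map_add, map_inv₀, map_div₀, conj_ofReal])
    (fun k => (C.g.R : ℂ) * ((tb.getD k (G4.nat 0)).val / 2 ^ 40))
    (fun k hk => by simpa only [List.getD_eq_getElem _ _ hk] using hz k hk) g.tol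
  obtain ⟨-, e1, e2⟩ := nodes_spec (vu := devL C.du) (vd := devL C.dd)
    (φ := fun Z => (fI C.Gam C.g.c (C.g.R * (Z.val / 2 ^ 40))).re) ho fun Z hZ ho => by
      obtain ⟨k, hk, rfl⟩ := List.mem_iff_getElem.1 hZ
      refine h.node (g.thin_of ?_ (hz k hk)) ho
      have e : (Real.pi * (2 * k + 1) / (2 * tb.length) : ℂ) =
          ((Real.pi * (2 * k + 1) / (2 * tb.length) : ℝ) : ℂ) := by push_cast; rfl
      rw [e, norm_mul, norm_exp_ofReal_mul_I, mul_one, norm_real, Real.norm_of_nonneg hR.le]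
  refine ⟨e1.trans (congrArg _ (List.length_map _)), ⟨hR, g.ends.1, g.ends.2.1, h.place.1,
    h.place.2, _, hc, h4, h.at_R.1, h.at_R.2, rfl⟩, ?_⟩
  have hn : (0 : ℝ) < tb.length := by exact_mod_cast ht.1
  rw [← Fin.sum_univ_fun_getElem] at e2
  rw [Finset.sum_range] at hq
  simp only [List.getD_eq_getElem _ _ (Fin.is_lt _)] at hq
  have h5 := mul_le_mul_of_nonneg_left hq hn.le
  rw [← abs_of_pos hn, ← abs_mul, abs_of_pos hn, mul_sub, mul_div_cancel₀ _ hn.ne'] at h5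
  refine (abs_sub_le _ _ _).trans ((add_le_add h5 e2).trans_eq ?_)
  rw [quad, add_comm]
  push_cast
  rfl

theorem link_sound {tb : List G4} (ht : TabOk tb) {ds : List DC} (hds : ∀ d ∈ ds, d.Ok)
    {tD tU : List RC} {tl tu : Bool} (hD : Tail tl tD) (hU : Tail tu tU) {m : ℕ} {kd : Bool} {k : LK}
    {o : Out} (h : linkOut tb (ds.map DC.b) tl tu m kd k = some o) :
    k.ref ≤ m ∧ m < ds.length ∧ ∃ F : ℝ,
      LF ((ds.drop k.ref).map DC.cell ++ tU) (rf ((ds.take k.ref).map DC.cell) ++ tD)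
        (zinB (ds.map DC.b) m kd) kd (m - k.ref + 1) ((k.c : ℝ) / 2 ^ 12) ((k.R : ℝ) / 2 ^ 12) F ∧
      |(tb.length : ℝ) * 2 ^ 81 * F - o.F - dotZ o.J (devL ds)| ≤ (o.r : ℝ) := by
  unfold linkOut at h
  split_ifs at h with h1
  rw [List.length_map] at h1
  refine ⟨h1.1, h1.2, ?_⟩
  let C : LC := ⟨k, zinB (ds.map DC.b) m kd, kd, m - k.ref + 1, tl, tu, ds.drop k.ref,
    (ds.take k.ref).reverse.map DC.flip, tU, tD⟩
  have eu : (ds.map DC.b).drop k.ref = C.bu := List.map_drop.symm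
  have ed : ((ds.map DC.b).take k.ref).reverse.map CB.flip = C.bd := by
    simp only [LC.bd, C, ← List.map_take, ← List.map_reverse, List.map_map, Function.comp_def,
      DC.flip_b]
  have en : rf ((ds.take k.ref).map DC.cell) ++ tD = C.dn := by
    simp only [rf, LC.dn, C, ← List.map_reverse, List.map_map, Function.comp_def, DC.flip_cell]
  rw [eu, ed] at h
  replace h : link3 tb.length (linkOk C.g C.k C.as (C.bu.map CB.hl).sum (C.bd.map CB.hl).sum
      C.lu C.ld) C.bd (quad C.g tb.length (mbd C.g C.as C.sb C.g.r1) (mbd C.g C.as C.sb C.g.r2))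
      (nodes C.ln tb) = some o := h
  unfold link3 at h
  split_ifs at h with h2
  obtain rfl := Option.some.inj h
  simp only [linkOk, sqQ, Bool.and_eq_true, List.all_eq_true, decide_eq_true_eq] at h2
  obtain ⟨⟨⟨⟨⟨⟨a1, a2, a3, a4, a5, a6, a7, a8, a9, a10, a11, a12, a13, a14⟩, b1⟩, b2⟩, b3⟩, b4⟩,
    ho⟩ := h2
  have hC : C.Ok := ⟨fun d hd => hds d (List.mem_of_mem_drop hd), fun d hd => by
      obtain ⟨d, h3, rfl⟩ := List.mem_map.1 hd
      exact (hds d (List.mem_of_mem_take (List.mem_reverse.1 h3))).flip,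
    hU, hD, by simp only [C, List.length_drop]; omega, ⟨a2, a3, a4, a5, a6⟩, a1, a7, a8, a9, a10,
    a11, a12, a13, a14, by rintro r (rfl | rfl) <;> constructor <;> assumption⟩
  obtain ⟨e1, e2, e3⟩ := hC.est ht ho
  have ec : (k.c : ℝ) / 2 ^ 12 = C.g.c := by simp [LC.g, LK.ge, C]
  have eR : (k.R : ℝ) / 2 ^ 12 = C.g.R := by simp [LC.g, LK.ge, C]
  rw [ec, eR, en]
  refine ⟨_, e2, ?_⟩
  obtain ⟨e4, e5⟩ := unfl_spec (ds.take k.ref) (J := (nodes C.ln tb).jd.map pz)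
    (by simpa only [C, List.length_map, List.length_reverse] using e1)
  have e6 := dotZ_append (J' := (nodes C.ln tb).ju.map pz) (l' := ds.drop k.ref) e4
  rw [List.take_append_drop, e5] at e6
  replace e6 : dotZ (unfl C.bd ((nodes C.ln tb).jd.map pz) ++ (nodes C.ln tb).ju.map pz) (devL ds) =
    dotZ ((nodes C.ln tb).jd.map pz) (devL C.dd) + dotZ ((nodes C.ln tb).ju.map pz) (devL C.du) := e6
  rw [NO.ev] at e3
  simp only [e6]
  generalize quad C.g tb.length _ _ = q at e3 ⊢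
  generalize nodes C.ln tb = N at e3 ⊢
  have h3 : (N.r : ℝ) < 2 ^ 19 * ((N.r / 2 ^ 19 : ℕ) + 1) := by
    exact_mod_cast Nat.lt_mul_div_succ N.r (Nat.two_pow_pos 19)
  have h4 : (q : ℝ) * (tb.length * 2 ^ 81) ≤ (⌈q * (tb.length * 2 ^ 81)⌉₊ : ℕ) := by
    have h5 := (Rat.cast_le (K := ℝ)).2 (Nat.le_ceil (q * (tb.length * 2 ^ (81 : ℕ))))
    rwa [Rat.cast_natCast, Rat.cast_mul, Rat.cast_mul, Rat.cast_natCast, Rat.cast_pow,
      Rat.cast_ofNat] at h5
  rw [abs_le] at e3 ⊢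
  generalize N.r / 2 ^ 19 = t at h3 ⊢
  push_cast
  constructor <;> linarith [e3.1, e3.2]

end Pool.Agent.MP_92463a_gt

end
end

section

namespace Pool.Agent.MP_92463a_gt

theorem lkF8_0 : blkF8.lk tb32 0 = true := by decide +kernel

theorem lkF8_1 : blkF8.lk tb32 1 = true := by decide +kernel

theorem lkF8_2 : blkF8.lk tb32 2 = true := by decide +kernel

theorem lkF8_3 : blkF8.lk tb32 3 = true := by decide +kernel

theorem lkF8_4 : blkF8.lk tb32 4 = true := by decide +kernel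

theorem lkF8_5 : blkF8.lk tb32 5 = true := by decide +kernel

theorem lkF8_6 : blkF8.lk tb32 6 = true := by decide +kernel

theorem lkF8_7 : blkF8.lk tb32 7 = true := by decide +kernel

theorem lkF8_8 : blkF8.lk tb32 8 = true := by decide +kernel

theorem lkF8_9 : blkF8.lk tb32 9 = true := by decide +kernel

theorem lkF8_10 : blkF8.lk tb32 10 = true := by decide +kernel

end Pool.Agent.MP_92463a_gt

end
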