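import Pool.Agent.Mg.F92463a.G3b9ab9
import Pool.Agent.Mg.F92463a.G865a24

section

open Set Complex Filter Metric
open scoped Topology ComplexConjugate ContDiff Manifold

noncomputable section

namespace Pool.Agent.MP_92463a_gt

theorem HdK2_zip (a : ℤ) : ∀ (x y : List ℤ), x.length = y.length → ∀ t,
    (List.zipWith (fun x y => a * x + y) x y).getD t 0 = a * x.getD t 0 + y.getD t 0
  | [], [], _, _ => by simp
  | _ :: _, _ :: _, _, 0 => rfl
  | _ :: x, _ :: y, h, t + 1 => HdK2_zip a x y (Nat.succ.inj h) t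

theorem HdK2_comb (n : ℕ) : ∀ (l : List ℤ) (m : List Out), l.length = m.length →
    (∀ o ∈ m, o.J.length = n) → (comb n l m).J.length = n ∧ ∀ t, (comb n l m).J.getD t 0 =
      ∑ j ∈ Finset.range m.length, l.getD j 0 * (m.getD j out0).J.getD t 0
  | [], [], _, _ => ⟨by simp [comb], fun t => by
      simp only [comb, List.getD_eq_getElem?_getD, List.getElem?_replicate]
      split_ifs <;> simp⟩
  | a :: l, o :: m, h, h' => by
    obtain ⟨h1, h2⟩ := HdK2_comb n l m (Nat.succ.inj h) fun o ho => h' o (List.mem_cons_of_mem _ ho)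
    have h3 := h' o List.mem_cons_self
    refine ⟨by simp [comb, h1, h3], fun t => ?_⟩
    rw [comb, HdK2_zip a _ _ (h3.trans h1.symm), h2, List.length_cons, Finset.sum_range_succ',
      add_comm]
    rfl

theorem HdK2_sum : ∀ (J : List ℤ) (hs : List ℕ) (K : ℕ),
    ∑ t ∈ Finset.range K, (J.getD t 0).natAbs * hs.getD t 0 ≤
      (List.zipWith (fun x h => x.natAbs * h) J hs).sum
  | [], _, _ => by simp
  | _ :: _, [], _ => by simp
  | _ :: _, _ :: _, 0 => by simp
  | x :: J, a :: hs, K + 1 => by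
    rw [Finset.sum_range_succ', List.zipWith_cons_cons, List.sum_cons, add_comm]
    exact Nat.add_le_add_left (HdK2_sum J hs K) _

theorem HdK2_row {hs : List ℕ} {a N : ℕ} {o : Out} (i : Fin N) (h : rowOk hs (a + i) o = true) :
    ∑ t ∈ Finset.univ.erase i, ‖((o.J.getD (a + t) 0 : ℤ) : ℝ) * (hs.getD (a + t) 0 : ℕ)‖ <
      ‖((o.J.getD (a + i) 0 : ℤ) : ℝ) * (hs.getD (a + i) 0 : ℕ)‖ := by
  have h1 := of_decide_eq_true h
  have h2 := HdK2_sum o.J hs (a + N)
  rw [Finset.sum_range_add, Finset.sum_range (n := N),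
    ← Finset.add_sum_erase _ _ (Finset.mem_univ i)] at h2
  have h3 := Int.le_natAbs (a := o.J.getD (a + i) 0)
  have e : ∀ (x : ℤ) (y : ℕ), ‖(x : ℝ) * y‖ = ((x.natAbs * y : ℕ) : ℝ) := fun x y => by
    simp [Nat.cast_natAbs]
  simp only [e]
  rw [← Nat.cast_sum, Nat.cast_lt]
  have h4 := mul_le_mul_of_nonneg_right h3 (Int.natCast_nonneg (hs.getD (a + i) 0))
  rw [mul_assoc] at h1
  rw [← Nat.cast_mul] at h4
  omega

theorem Blk.inj {B : Blk} (h : B.chk = true) {w : ℕ → ℝ}
    (hw : ∀ i < 2 * B.cnt,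
      ∑ j ∈ Finset.range (2 * B.cnt), (((B.A.getD i []).getD j 0 : ℤ) : ℝ) * w j = 0) :
    ∀ j < 2 * B.cnt, w j = 0 := by
  simp only [Blk.chk, Bool.and_eq_true, decide_eq_true_eq, List.all_eq_true, List.mem_range] at h
  obtain ⟨⟨⟨⟨⟨-, h1, h2⟩, -⟩, h3⟩, h4⟩, h5⟩ := h
  let A : Matrix (Fin (2 * B.cnt)) (Fin (2 * B.cnt)) ℝ :=
    Matrix.of fun i j => (((B.A.getD i []).getD j 0 : ℤ) : ℝ)
  let J : Matrix (Fin (2 * B.cnt)) (Fin (2 * B.cnt)) ℝ := Matrix.of fun j t =>
    (((B.outs.getD j out0).J.getD (2 * B.lo + t) 0 : ℤ) : ℝ) *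
      ((hLs B.cells).getD (2 * B.lo + t) 0 : ℕ)
  have h6 : (A * J).det ≠ 0 := det_ne_zero_of_sum_row_lt_diag fun i => by
    have h7 : (B.A.getD i []).length = B.outs.length := by
      rw [h1, List.getD_eq_getElem _ _ (i.2.trans_eq h2.symm)]
      exact h4 _ (List.getElem_mem _)
    have e : ∀ t, (A * J) i t =
        (((comb (2 * B.cells.length) (B.A.getD i []) B.outs).J.getD (2 * B.lo + t) 0 : ℤ) : ℝ) *
          ((hLs B.cells).getD (2 * B.lo + t) 0 : ℕ) := fun t => by
      rw [(HdK2_comb _ _ _ h7 h3).2, h1, Finset.sum_range, Matrix.mul_apply]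
      simp only [A, J, Matrix.of_apply, Int.cast_sum, Int.cast_mul, Finset.sum_mul, mul_assoc]
    simp only [e]
    exact HdK2_row i (h5 i i.2)
  rw [Matrix.det_mul] at h6
  have h8 : A.mulVec (fun j => w j) = 0 := funext fun i =>
    (Finset.sum_range fun j => (((B.A.getD i []).getD j 0 : ℤ) : ℝ) * w j).symm.trans (hw i i.2)
  exact fun j hj => congrFun (Matrix.eq_zero_of_mulVec_eq_zero (left_ne_zero_of_mul h6) h8) ⟨j, hj⟩

end Pool.Agent.MP_92463a_gt

end
end

section

open Set Complex Filter Metric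
open scoped Topology ComplexConjugate ContDiff Manifold

noncomputable section

namespace Pool.Agent.MP_92463a_gt

theorem HdF4_sq (j : ℕ) : sg j * sg j = 1 := by
  rw [sg, ← mul_pow]
  norm_num

theorem HdF4_gx {n : ℕ} (x : Fin n × Bool → ℝ) (i : Fin n × Bool) : gx n x i.1 i.2 = x i :=
  dif_pos i.1.2

namespace Cert

variable {n : ℕ} {Bx : ℕ → CB} {blk : ℕ → Blk} {off : ℕ → ℕ} (h : Cert n Bx blk off)
include h

theorem face {x : Fin n × Bool → ℝ} (hx : x ∈ cube (Fin n × Bool)) (i : Fin n × Bool) :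
    (x i = 1 → 0 < ∑ j : Fin n × Bool, gA n Bx blk off i j * gLk n Bx blk off x j.1 j.2) ∧
      (x i = -1 → ∑ j : Fin n × Bool, gA n Bx blk off i j * gLk n Bx blk off x j.1 j.2 < 0) := by
  obtain ⟨K, hK, dv, hdv, hget, hF⟩ := h.lf hx i.1.2
  obtain ⟨r1, r2, r3⟩ := h.rng i.1.2
  obtain ⟨f1, f2, -⟩ := h.fit i.1 i.1.2
  have e : ∀ t, ∃ F : ℝ, t < 2 * (blk i.1).cnt →
      gLF n Bx blk off x (off i.1 + (blk i.1).lo + t / 2) (decide (t % 2 = 1)) F ∧
        |K * F - ((blk i.1).outs.getD t out0).F - dotZ ((blk i.1).outs.getD t out0).J dv| ≤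
          ((blk i.1).outs.getD t out0).r := fun t => by
    by_cases ht : t < 2 * (blk i.1).cnt
    · obtain ⟨F, h1, h2⟩ := hF (off i.1 + (blk i.1).lo + t / 2) (decide (t % 2 = 1)) (by omega)
        (by omega)
      rw [r3 t ht] at h2
      exact ⟨F, fun _ => ⟨h1, h2⟩⟩
    · exact ⟨0, fun h => absurd h ht⟩
  choose F hF' using e
  have hs := Blk.sound (h.ok i.1 i.1.2).1 hdv (F := fun t => K * F t) (fun t ht => (hF' t ht).2)
    (r2 i.2)
  have hi : 2 * (blk i.1).lo + gi blk off i.1 i.2 = 2 * (i.1 - off i.1) + i.2.toNat := by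
    unfold gi
    omega
  rw [hi, hget i.2, HdF4_gx] at hs
  have e2 : ∑ j : Fin n × Bool, gA n Bx blk off i j * gLk n Bx blk off x j.1 j.2 =
      Real.pi / K * ∑ t ∈ Finset.range (2 * (blk i.1).cnt),
        ((((blk i.1).A.getD (gi blk off i.1 i.2) []).getD t 0 : ℤ) : ℝ) * (K * F t) := by
    rw [h.sum_blk i (gLk n Bx blk off x), Finset.mul_sum]
    refine Finset.sum_congr rfl fun t ht => ?_
    have ht' := Finset.mem_range.1 ht
    rw [h.lk hx (by omega) (hF' t ht').1, mul_assoc (sg _), ← mul_assoc (sg _), HdF4_sq]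
    field_simp
  have hp : 0 < Real.pi / K := div_pos Real.pi_pos hK
  rw [e2]
  exact ⟨fun h1 => mul_pos hp (hs.1 (by rw [h1, mul_one])),
    fun h1 => mul_neg_of_pos_of_neg hp (hs.2 (by rw [h1, mul_neg_one]))⟩

theorem inj {w : Fin n × Bool → ℝ} (hw : ∀ i, ∑ j, gA n Bx blk off i j * w j = 0) : w = 0 := by
  funext i
  obtain ⟨r1, r2, r3⟩ := h.rng i.1.2
  obtain ⟨f1, f2, -⟩ := h.fit i.1 i.1.2
  have key := Blk.inj (h.ok i.1 i.1.2).1 (w := fun t =>
    sg (gsu Bx (off i.1 + (blk i.1).lo + t / 2) (decide (t % 2 = 1))) *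
      gx n w (off i.1 + (blk i.1).lo + t / 2) (decide (t % 2 = 1))) (fun s hs => by
    have h1 := h.sum_blk (⟨off i.1 + (blk i.1).lo + s / 2, by omega⟩, decide (s % 2 = 1)) (gx n w)
    obtain ⟨e1, e2⟩ := h.same i.1 i.1.2 (off i.1 + (blk i.1).lo + s / 2) (by omega) (by omega)
    simp only [HdF4_gx, hw] at h1
    rw [r3 s hs, e1, e2] at h1
    exact h1.symm) _ (r2 i.2)
  have e1 : off i.1 + (blk i.1).lo + gi blk off i.1 i.2 / 2 = i.1 := by
    have := i.2.toNat_le
    unfold gi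
    omega
  have e2 : decide (gi blk off i.1 i.2 % 2 = 1) = i.2 := by
    unfold gi
    cases i.2 <;> simp
  rw [e1, e2, HdF4_gx] at key
  refine (mul_eq_zero.1 key).resolve_left fun h0 => ?_
  have := HdF4_sq (gsu Bx i.1 i.2)
  rw [h0, mul_zero] at this
  exact zero_ne_one this

end Cert

end Pool.Agent.MP_92463a_gt

end
end

section

open Set Complex Filter Metric
open scoped Topology ComplexConjugate ContDiff Manifold

noncomputable section

namespace Pool.Agent.MP_92463a_gt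

theorem HdF5_gx (n m : ℕ) (b : Bool) : Continuous fun x => gx n x m b := by
  unfold gx
  split_ifs
  · exact continuous_apply _
  · exact continuous_const

theorem HdF5_x (n : ℕ) (Bx : ℕ → CB) (m : ℕ) :
    ContinuousOn (fun x => (gC n Bx x m).x) (cube (Fin n × Bool)) := by
  have := HdF5_gx n m false
  simp only [gC, DC.cell]
  fun_prop

theorem HdF5_y (n : ℕ) (Bx : ℕ → CB) (m : ℕ) :
    ContinuousOn (fun x => (gC n Bx x m).y) (cube (Fin n × Bool)) := by
  have := HdF5_gx n m true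
  simp only [gC, DC.cell]
  fun_prop

theorem HdF5_lam {l : List RC} (h : ∀ c ∈ l, c.Ps) : lamP l ≠ 0 := by
  refine List.prod_ne_zero fun h0 => ?_
  obtain ⟨c, hc, e⟩ := List.mem_map.1 h0
  obtain ⟨h1, h2⟩ := h c hc
  unfold RC.lam at e
  split_ifs at e
  · exact (inv_pos.2 h1).ne' e
  · exact (mul_pos h1 h2).ne' e

theorem HdF5_len (Bx : ℕ → CB) (n : ℕ) : (gH Bx n).length = n := by simp [gH]

theorem HdF5_take (Bx : ℕ → CB) {n m : ℕ} (hm : m < (gH Bx n).length) :
    (gH Bx n).take m = gH Bx m ∧ (gH Bx n)[m] = (Bx m).H := by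
  have hm' : m < n := by rwa [HdF5_len] at hm
  refine ⟨?_, by simp [gH]⟩
  rw [gH, ← List.map_take, List.take_range, min_eq_left hm'.le, gH]

theorem Cert.fam {n : ℕ} {Bx : ℕ → CB} {blk : ℕ → Blk} {off : ℕ → ℕ} (h : Cert n Bx blk off) :
    Nonempty (Fam (Fin n × Bool) (nA (gH Bx n)) (nB (gH Bx n))) := by
  have hH : ∀ x i, (gC n Bx x i).H = (Bx i).H := fun _ _ => rfl
  have hp : ∀ m ≤ n, ∀ x ∈ cube (Fin n × Bool), ∀ i ∈ List.range m, (gC n Bx x i).Ps :=
    fun m hm x hx i hi => h.ps hx ((List.mem_range.1 hi).trans_le hm)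
  have hr : ∀ i : Fin n × Bool, off i.1 + (gk blk off i.1 i.2).ref ≤ n := fun i =>
    (h.ref_le (x := 0) (fun _ => by simp) i.1.2 i.2).trans i.1.2.le
  have hl : ∀ (c : ℝ), ∀ m ≤ n,
      ContinuousOn (fun x => c / lamP (gL n Bx x m)) (cube (Fin n × Bool)) := fun c m hm =>
    continuousOn_const.div (cont_lamP hH (List.range m) (fun i _ => HdF5_x n Bx i)
      (fun i _ => HdF5_y n Bx i) (hp m hm)) fun x hx => HdF5_lam fun c hc => by
        obtain ⟨i, hi, rfl⟩ := List.mem_map.1 hc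
        exact hp m hm x hx i hi
  refine ⟨{
    D := fun x => dat (gL n Bx x n)
    su := fun i => (false, gsu Bx i.1 i.2)
    sv := fun i => gsv Bx i.1 i.2
    u := fun i x => gu n Bx blk off x i.1 i.2
    v := fun i x => gv n Bx blk off x i.1 i.2
    A := fun _ => gA n Bx blk off
    ok := fun x hx => ⟨h.dat_ok hx, congrArg nA (gL_H n Bx x n), congrArg nB (gL_H n Bx x n)⟩
    ca := fun i _ => cont_a hH (List.range n) (fun i _ => HdF5_x n Bx i)
      (fun i _ => HdF5_y n Bx i) (hp n le_rfl) i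
    cb := fun i _ => cont_b hH (List.range n) (fun i _ => HdF5_x n Bx i)
      (fun i _ => HdF5_y n Bx i) (hp n le_rfl) i
    cρ := cont_rho hH (List.range n) (fun i _ => HdF5_x n Bx i)
      (fun i _ => HdF5_y n Bx i) (hp n le_rfl)
    cu := fun i => hl _ _ (hr i)
    cv := fun i => hl _ _ (hr i)
    cA := fun _ _ => continuousOn_const
    val := fun i => ?_
    mem := fun i x hx => h.mem hx i.1.2 i.2
    chain := fun α hα => link_chain α fun m hm kd => ?_
    inj := fun _ _ _ hw => h.inj hw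
    face := fun x hx i => h.face hx i }⟩
  · have hm : (i.1 : ℕ) < (gH Bx n).length := by rw [HdF5_len]; exact i.1.2
    have := link_val hm i.2
    rwa [(HdF5_take Bx hm).1, (HdF5_take Bx hm).2] at this
  · rw [(HdF5_take Bx hm).1, (HdF5_take Bx hm).2]
    exact hα (⟨m, by rwa [HdF5_len] at hm⟩, kd)

theorem cert_fin {B : Blk} (hB : B.Ok) (h0 : B.lo = 0) (hc : B.cnt = B.cells.length)
    (hp : 0 < B.cnt) (hf : finChk B.cells = true) :
    Cert B.cells.length (fun m => B.cells.getD m cb0) (fun _ => B) fun _ => 0 := by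
  simp only [finChk, Bool.and_eq_true, List.all_eq_true, List.mem_range, Bool.or_eq_true,
    decide_eq_true_eq] at hf
  obtain ⟨h1, h2⟩ := hf
  refine ⟨hc ▸ hp, fun m hm => h1 _ ?_, fun m hm => (h2 m (by omega)).1.resolve_left (by omega),
    fun m hm => (h2 m (by omega)).2.resolve_left (by omega), fun _ _ => hB,
    fun m hm => by omega, fun _ _ _ _ _ => ⟨rfl, rfl⟩, fun _ _ => rfl, fun _ _ j _ => ?_,
    fun _ _ => ⟨fun _ => rfl, fun i hi => absurd hi (Nat.not_lt_zero i)⟩,
    fun _ _ => ⟨fun _ => Nat.zero_add _, fun i h3 h4 => by omega⟩⟩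
  · rw [List.getD_eq_getElem _ _ hm]
    exact List.getElem_mem hm
  · simp [CB.sub]

theorem fam_fin {B : Blk} (hB : B.Ok) (h0 : B.lo = 0) (hc : B.cnt = B.cells.length)
    (hp : 0 < B.cnt) (hf : finChk B.cells = true) :
    Nonempty (Fam (Fin B.cells.length × Bool) (nA (B.cells.map CB.H)) (nB (B.cells.map CB.H))) := by
  have e : gH (fun m => B.cells.getD m cb0) B.cells.length = B.cells.map CB.H := by
    refine List.ext_getElem (by simp [gH]) fun i h1 h2 => ?_
    have : i < B.cells.length := by simpa using h2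
    simp [gH, this]
  have := (cert_fin hB h0 hc hp hf).fam
  rwa [e] at this

end Pool.Agent.MP_92463a_gt

end
end

section

namespace Pool.Agent.MP_92463a_gt

theorem lkF5_5 : blkF5.lk tb64 5 = true := by decide +kernel

theorem lkF5_6 : blkF5.lk tb64 6 = true := by decide +kernel

theorem lkF5_7 : blkF5.lk tb64 7 = true := by decide +kernel

theorem lkF5_8 : blkF5.lk tb64 8 = true := by decide +kernel

theorem lkF5_9 : blkF5.lk tb64 9 = true := by decide +kernel

theorem lkF5_10 : blkF5.lk tb64 10 = true := by decide +kernel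

theorem lkF5_11 : blkF5.lk tb64 11 = true := by decide +kernel

end Pool.Agent.MP_92463a_gt

end

section

namespace Pool.Agent.MP_92463a_gt

theorem lkF6_0 : blkF6.lk tb32 0 = true := by decide +kernel

theorem lkF6_1 : blkF6.lk tb32 1 = true := by decide +kernel

theorem lkF6_2 : blkF6.lk tb32 2 = true := by decide +kernel

theorem lkF6_3 : blkF6.lk tb32 3 = true := by decide +kernel

theorem lkF6_4 : blkF6.lk tb32 4 = true := by decide +kernel

theorem lkF6_5 : blkF6.lk tb32 5 = true := by decide +kernel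

theorem lkF6_6 : blkF6.lk tb32 6 = true := by decide +kernel

theorem lkF6_7 : blkF6.lk tb32 7 = true := by decide +kernel

theorem lkF6_8 : blkF6.lk tb32 8 = true := by decide +kernel

theorem lkF6_9 : blkF6.lk tb32 9 = true := by decide +kernel

end Pool.Agent.MP_92463a_gt

end
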