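import Pool.Agent.Mg.F92463a.G3b1462

section

namespace Pool.Agent.MP_92463a_gt

theorem lkF8_11 : blkF8.lk tb32 11 = true := by decide +kernel

theorem lkF8_12 : blkF8.lk tb32 12 = true := by decide +kernel

theorem lkF8_13 : blkF8.lk tb32 13 = true := by decide +kernel

theorem lkF8_14 : blkF8.lk tb32 14 = true := by decide +kernel

theorem lkF8_15 : blkF8.lk tb32 15 = true := by decide +kernel

theorem lkF8_16 : blkF8.lk tb32 16 = true := by decide +kernel

theorem lkF8_17 : blkF8.lk tb32 17 = true := by decide +kernel

theorem lkF9_0 : blkF9.lk tb32 0 = true := by decide +kernel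

theorem lkF9_1 : blkF9.lk tb32 1 = true := by decide +kernel

theorem lkF9_2 : blkF9.lk tb32 2 = true := by decide +kernel

theorem lkF9_3 : blkF9.lk tb32 3 = true := by decide +kernel

end Pool.Agent.MP_92463a_gt

end

section

namespace Pool.Agent.MP_92463a_gt

theorem lkF10_4 : blkF10.lk tb32 4 = true := by decide +kernel

theorem lkF10_5 : blkF10.lk tb32 5 = true := by decide +kernel

theorem lkF10_6 : blkF10.lk tb32 6 = true := by decide +kernel

theorem lkF10_7 : blkF10.lk tb32 7 = true := by decide +kernel

theorem lkF10_8 : blkF10.lk tb32 8 = true := by decide +kernel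

theorem lkF10_9 : blkF10.lk tb32 9 = true := by decide +kernel

theorem lkF10_10 : blkF10.lk tb32 10 = true := by decide +kernel

theorem lkF10_11 : blkF10.lk tb32 11 = true := by decide +kernel

theorem lkF10_12 : blkF10.lk tb32 12 = true := by decide +kernel

end Pool.Agent.MP_92463a_gt

end
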