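import Pool.Agent.Mg.F92463a.G3b1462

section

namespace Pool.Agent.MP_92463a_gt

theorem lkF9_4 : blkF9.lk tb32 4 = true := by decide +kernel

theorem lkF9_5 : blkF9.lk tb32 5 = true := by decide +kernel

theorem lkF9_6 : blkF9.lk tb32 6 = true := by decide +kernel

theorem lkF9_7 : blkF9.lk tb32 7 = true := by decide +kernel

theorem lkF9_8 : blkF9.lk tb32 8 = true := by decide +kernel

theorem lkF9_9 : blkF9.lk tb32 9 = true := by decide +kernel

theorem lkF9_10 : blkF9.lk tb32 10 = true := by decide +kernel

theorem lkF9_11 : blkF9.lk tb32 11 = true := by decide +kernel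

theorem lkF9_12 : blkF9.lk tb32 12 = true := by decide +kernel

theorem lkF9_13 : blkF9.lk tb32 13 = true := by decide +kernel

end Pool.Agent.MP_92463a_gt

end

section

namespace Pool.Agent.MP_92463a_gt

theorem lkF10_13 : blkF10.lk tb32 13 = true := by decide +kernel

theorem lkF10_14 : blkF10.lk tb32 14 = true := by decide +kernel

theorem lkF10_15 : blkF10.lk tb32 15 = true := by decide +kernel

theorem lkF10_16 : blkF10.lk tb32 16 = true := by decide +kernel

theorem lkF10_17 : blkF10.lk tb32 17 = true := by decide +kernel

theorem lkF10_18 : blkF10.lk tb32 18 = true := by decide +kernel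

theorem lkF10_19 : blkF10.lk tb32 19 = true := by decide +kernel

theorem lkF10_20 : blkF10.lk tb32 20 = true := by decide +kernel

theorem lkF10_21 : blkF10.lk tb32 21 = true := by decide +kernel

end Pool.Agent.MP_92463a_gt

end
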