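import Pool.Agent.Mg.F92463a.G3b1462

section

namespace Pool.Agent.MP_92463a_gt

theorem lkW_0 : blkW.lk tb32 0 = true := by decide +kernel

theorem lkW_1 : blkW.lk tb32 1 = true := by decide +kernel

theorem lkW_2 : blkW.lk tb32 2 = true := by decide +kernel

theorem lkW_3 : blkW.lk tb32 3 = true := by decide +kernel

theorem lkW_4 : blkW.lk tb32 4 = true := by decide +kernel

theorem lkW_5 : blkW.lk tb32 5 = true := by decide +kernel

theorem lkW_6 : blkW.lk tb32 6 = true := by decide +kernel

theorem lkW_7 : blkW.lk tb32 7 = true := by decide +kernel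

end Pool.Agent.MP_92463a_gt

end

section

namespace Pool.Agent.MP_92463a_gt

theorem lkW_8 : blkW.lk tb32 8 = true := by decide +kernel

theorem lkW_9 : blkW.lk tb32 9 = true := by decide +kernel

theorem lkW_10 : blkW.lk tb32 10 = true := by decide +kernel

theorem lkW_11 : blkW.lk tb32 11 = true := by decide +kernel

theorem lkW_12 : blkW.lk tb32 12 = true := by decide +kernel

theorem lkW_13 : blkW.lk tb32 13 = true := by decide +kernel

theorem lkW_14 : blkW.lk tb32 14 = true := by decide +kernel

theorem lkW_15 : blkW.lk tb32 15 = true := by decide +kernel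

end Pool.Agent.MP_92463a_gt

end
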