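import Pool.Agent.Mg.F92463a.G6119f0

section

open Set Complex Filter Metric
open scoped Topology ComplexConjugate ContDiff Manifold

noncomputable section

namespace Pool.Agent.MP_92463a_gt

theorem Ends_lim {k : ℂ → ℂ} (hk : ContinuousAt k 0)
    (h : ∀ᶠ w : ℝ in 𝓝[>] 0, ∃ r : ℝ, 0 ≤ r ∧ k ((w : ℂ) ^ 2) = r) :
    ∃ r : ℝ, 0 ≤ r ∧ k 0 = r := by
  have h0 : Tendsto (fun w : ℝ => (w : ℂ) ^ 2) (𝓝[>] 0) (𝓝 0) := by
    have h1 : Continuous fun w : ℝ => (w : ℂ) ^ 2 := by fun_prop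
    have h2 := h1.tendsto 0
    rw [ofReal_zero, zero_pow two_ne_zero] at h2
    exact h2.mono_left nhdsWithin_le_nhds
  have h1 := hk.tendsto.comp h0
  have hc : IsClosed {z : ℂ | 0 ≤ z.re ∧ z.im = 0} :=
    (isClosed_le continuous_const continuous_re).inter (isClosed_eq continuous_im continuous_const)
  obtain ⟨h2, h3⟩ := hc.mem_of_tendsto h1 (h.mono fun w hw => by
    obtain ⟨r, hr, e⟩ := hw
    show 0 ≤ (k ((w : ℂ) ^ 2)).re ∧ (k ((w : ℂ) ^ 2)).im = 0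
    rw [e]
    exact ⟨hr, rfl⟩)
  exact ⟨(k 0).re, h2, Complex.ext rfl h3⟩

theorem Ends_small {δ c : ℝ} (hδ : 0 < δ) (hc : 0 < c) :
    ∀ᶠ w : ℝ in 𝓝[>] 0, 0 < w ∧ (w : ℂ) ∈ ball (0 : ℂ) δ ∧ w ^ 2 < c := by
  have h1 : ∀ᶠ w : ℝ in 𝓝 0, w ^ 2 < c :=
    (continuous_pow 2).continuousAt.eventually_lt continuousAt_const (by simpa using hc)
  filter_upwards [self_mem_nhdsWithin, nhdsWithin_le_nhds h1,
    nhdsWithin_le_nhds (gt_mem_nhds hδ)] with w h2 h3 h4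
  refine ⟨h2, ?_, h3⟩
  rw [mem_ball_zero_iff, norm_real, Real.norm_eq_abs, abs_of_pos h2]
  exact h4

theorem Ends_lead {a b : ℂ} {c : ℝ} (hc : 0 ≤ c) (h : (a = c ∧ b = 0) ∨ (a = 0 ∧ I * b = c))
    (w : ℂ) : ‖-a / w - conj (-b / w)‖ = c * ‖w⁻¹‖ ∧ (0 ≤ w.re → 0 ≤ w.im →
      (-a / w - conj (-b / w)).re ≤ 0 ∧ 0 ≤ (-a / w - conj (-b / w)).im) := by
  have hn := normSq_nonneg w
  rcases h with ⟨rfl, rfl⟩ | ⟨rfl, h⟩
  · have e : -(c : ℂ) / w - conj (-0 / w) = -(c * w⁻¹) := by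
      rw [neg_zero, zero_div, map_zero, sub_zero, div_eq_mul_inv, neg_mul]
    rw [e, norm_neg, norm_mul, norm_real, Real.norm_eq_abs, abs_of_nonneg hc]
    refine ⟨rfl, fun h1 h2 => ?_⟩
    rw [neg_re, neg_im, re_ofReal_mul, im_ofReal_mul, inv_re, inv_im, neg_div, mul_neg, neg_neg,
      neg_nonpos]
    exact ⟨mul_nonneg hc (div_nonneg h1 hn), mul_nonneg hc (div_nonneg h2 hn)⟩
  · have hb : b = -(I * c) := by
      rw [← h, ← mul_assoc, I_mul_I]
      ring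
    have e : -(0 : ℂ) / w - conj (-b / w) = -conj (c * (I * w⁻¹)) := by
      rw [hb, neg_zero, zero_div, zero_sub, neg_neg, div_eq_mul_inv, mul_comm I, mul_assoc]
    rw [e, norm_neg, norm_conj, norm_mul, norm_mul, norm_I, one_mul, norm_real, Real.norm_eq_abs,
      abs_of_nonneg hc]
    refine ⟨rfl, fun h1 h2 => ?_⟩
    rw [neg_re, neg_im, conj_re, conj_im, re_ofReal_mul, im_ofReal_mul, I_mul_re, I_mul_im, inv_re,
      inv_im, neg_div, neg_neg, neg_neg, neg_nonpos]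
    exact ⟨mul_nonneg hc (div_nonneg h2 hn), mul_nonneg hc (div_nonneg h1 hn)⟩

namespace Dat

variable {D : Dat} {X : ℂ → ℂ}

theorem Ends_sign (hD : D.Ok) {x₀ : ℂ} (he : D.IsE x₀) {δ : ℝ} (hδ : 0 < δ) {k₁ k₂ : ℂ → ℂ}
    (c₁ : ContinuousAt k₁ 0) (c₂ : ContinuousAt k₂ 0) (h0 : x₀ = 0 → k₂ 0 = 0)
    (hj : ∀ j < D.q, x₀ = -D.b j → (Even j → k₁ 0 = 0) ∧ (Odd j → k₂ 0 = 0))
    (hk : ∀ w : ℝ, 0 < w → (w : ℂ) ∈ ball (0 : ℂ) δ →
      k₁ (w ^ 2) / w ^ 2 = D.G (x₀ + w ^ 2) / (x₀ + w ^ 2) * (2 * w) ∧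
      k₂ (w ^ 2) / w ^ 2 = (D.G (x₀ + w ^ 2) * (x₀ + w ^ 2))⁻¹ * (2 * w)) :
    ∃ c : ℝ, 0 ≤ c ∧ ((k₁ 0 = c ∧ k₂ 0 = 0) ∨ (k₁ 0 = 0 ∧ I * k₂ 0 = c)) := by
  rcases he with rfl | ⟨j, hjq, rfl⟩
  · obtain ⟨c, hc, e⟩ := Ends_lim c₁ ((Ends_small hδ (hD.a_pos 0 hD.p_pos)).mono fun w hw => by
      obtain ⟨h1, h2, h3⟩ := hw
      have h4 := (hD.sign_pos (x := w ^ 2) (k := 0) (pow_pos h1 2) (Nat.zero_le _)
        (fun i hi => absurd hi (Nat.not_lt_zero i)) fun i _ hi => by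
          rcases Nat.eq_zero_or_pos i with rfl | h5
          · exact h3
          · exact h3.trans (hD.a_lt 0 i h5 hi)).2
      rw [if_pos Even.zero, one_mul, ofReal_pow] at h4
      have h5 := (hk w h1 h2).1
      have h6 : (w : ℂ) ≠ 0 := ofReal_ne_zero.2 h1.ne'
      rw [zero_add, div_eq_iff (pow_ne_zero 2 h6), h4] at h5
      refine ⟨‖D.G ((w : ℂ) ^ 2)‖ * (2 * w), by positivity, ?_⟩
      rw [h5]
      push_cast
      field_simp)
    exact ⟨c, hc, Or.inl ⟨e, h0 rfl⟩⟩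
  · have hb := hD.b_pos j hjq
    have hs : ∀ w : ℝ, 0 < w → w ^ 2 < D.b j / 2 → -D.b j + w ^ 2 < 0 ∧
        D.G (-D.b j + w ^ 2) = (if Even j then -I else -1) * (‖D.G (-D.b j + w ^ 2)‖ : ℂ) := by
      intro w h1 h3
      have h2 : -D.b j + w ^ 2 < 0 := by linarith
      have h4 := (hD.sign_neg (x := -D.b j + w ^ 2) (k := j) h2 hjq.le
        (fun i hi => by
          have := hD.b_gap i j hi hjq
          have := hD.b_pos i (hi.trans hjq)
          linarith)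
        fun i hi hq => by
          have h5 := pow_pos h1 2
          rcases hi.eq_or_lt with rfl | hi
          · linarith
          · have := hD.b_gap j i hi hq
            linarith).2
      rw [ofReal_add, ofReal_neg, ofReal_pow] at h4
      exact ⟨h2, h4⟩
    rcases Nat.even_or_odd j with hje | hje
    · obtain ⟨c, hc, e⟩ := Ends_lim (k := fun s => I * k₂ s) (continuousAt_const.mul c₂)
        ((Ends_small hδ (half_pos hb)).mono fun w hw => by
          obtain ⟨h1, h2, h3⟩ := hw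
          obtain ⟨h7, h4⟩ := hs w h1 h3
          rw [if_pos hje] at h4
          have h5 := (hk w h1 h2).2
          have h6 : (w : ℂ) ≠ 0 := ofReal_ne_zero.2 h1.ne'
          rw [div_eq_iff (pow_ne_zero 2 h6), h4] at h5
          refine ⟨(‖D.G (-D.b j + w ^ 2)‖ * -(-D.b j + w ^ 2))⁻¹ * (2 * w) * w ^ 2,
            mul_nonneg (mul_nonneg (inv_nonneg.2 (mul_nonneg (norm_nonneg _) (by linarith)))
              (by positivity)) (by positivity), ?_⟩
          show I * k₂ ((w : ℂ) ^ 2) = _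
          rw [h5]
          push_cast
          rw [mul_inv, mul_inv, mul_inv, inv_neg, inv_neg, inv_I]
          linear_combination (‖D.G (-D.b j + w ^ 2)‖ : ℂ)⁻¹ * (-(D.b j : ℂ) + w ^ 2)⁻¹ *
            (2 * w) * w ^ 2 * I_mul_I)
      exact ⟨c, hc, Or.inr ⟨(hj j hjq rfl).1 hje, e⟩⟩
    · obtain ⟨c, hc, e⟩ := Ends_lim c₁
        ((Ends_small hδ (half_pos hb)).mono fun w hw => by
          obtain ⟨h1, h2, h3⟩ := hw
          obtain ⟨h7, h4⟩ := hs w h1 h3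
          rw [if_neg (Nat.not_even_iff_odd.2 hje)] at h4
          have h5 := (hk w h1 h2).1
          have h6 : (w : ℂ) ≠ 0 := ofReal_ne_zero.2 h1.ne'
          rw [div_eq_iff (pow_ne_zero 2 h6), h4] at h5
          refine ⟨‖D.G (-D.b j + w ^ 2)‖ / -(-D.b j + w ^ 2) * (2 * w) * w ^ 2,
            mul_nonneg (mul_nonneg (div_nonneg (norm_nonneg _) (by linarith))
              (by positivity)) (by positivity), ?_⟩
          rw [h5]
          push_cast
          rw [div_neg, neg_one_mul, neg_div])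
      exact ⟨c, hc, Or.inl ⟨e, (hj j hjq rfl).2 hje⟩⟩

theorem Ends_core (hD : D.Ok) (hX : D.Sol X) {x₀ : ℂ} (he : D.IsE x₀) :
    ∃ L : ℂ → ℂ, Tendsto (fun t => X t - L t) (𝓝[D.Q] x₀) (𝓝 0) ∧
      (∀ t ∈ D.Q, (L t).re ≤ 0 ∧ 0 ≤ (L t).im) ∧
      Tendsto (fun t => ‖L t‖) (𝓝[D.Q] x₀) atTop := by
  obtain ⟨δ, h, H, hY⟩ := hD.par2 (P_eq_zero.2 (Or.inl he))
  obtain ⟨k₁, k₂, d₁, d₂, hne, h0, hj, hk⟩ := H.formE hD he
  have him : x₀.im = 0 := by
    rcases he with rfl | ⟨j, -, rfl⟩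
    · rfl
    · rw [neg_im, ofReal_im, neg_zero]
  have hb : ball (0 : ℂ) (δ ^ 2) ∈ 𝓝 (0 : ℂ) := ball_mem_nhds _ (pow_pos H.pos 2)
  obtain ⟨c, hc, hcase⟩ := Ends_sign hD he H.pos (d₁.continuousOn.continuousAt hb)
    (d₂.continuousOn.continuousAt hb) h0 hj fun w h1 h2 => by
      have h6 : (w : ℂ) ≠ 0 := ofReal_ne_zero.2 h1.ne'
      rw [hD.G_eq ((H.on h2).2 h6), ← hY w h2 h6 h1.le le_rfl]
      exact hk w h2 h6
  have hc0 : 0 < c := by
    refine hc.lt_of_ne fun e => ?_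
    subst e
    rcases hcase with ⟨e1, e2⟩ | ⟨e1, e2⟩
    · exact hne.elim (fun h => h e1) fun h => h e2
    · exact hne.elim (fun h => h e1) fun h => mul_ne_zero I_ne_zero h e2
  have hT := hX.lfE hD H.pos (T := fun w => x₀ + w ^ 2) (T' := fun w => 2 * w)
    (Yl := fun w => w * h (w ^ 2)) d₁ d₂
    (continuousOn_id.mul (H.hol.continuousOn.comp (continuous_pow 2).continuousOn
      fun w hw => sq_mem_ball hw.1))
    fun w hw h1 => ⟨by simpa using (hasDerivAt_pow 2 w).const_add x₀, (H.on hw).1, (H.on hw).2 h1,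
      by rw [neg_sq], by rw [neg_sq, neg_mul], fun h2 h3 => by
        rw [add_im, him, zero_add, sq, mul_im, mul_comm w.im, ← two_mul]
        exact mul_ne_zero two_ne_zero (mul_ne_zero h2 h3), hk w hw h1⟩
  obtain ⟨W, hWd⟩ : ∃ W : ℂ → ℂ, ∀ t, W t = (t - x₀) ^ (2⁻¹ : ℂ) := ⟨_, fun _ => rfl⟩
  have hsq : ∀ t, W t ^ 2 = t - x₀ := fun t => by rw [hWd, cpow_ofNat_inv_pow]
  have hq : ∀ t ∈ D.Q, W t ≠ 0 ∧ 0 ≤ (W t).re ∧ 0 ≤ (W t).im := fun t ht => by
    refine ⟨fun h1 => ht.2 ?_, ?_, ?_⟩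
    · have h2 := hsq t
      rw [h1, zero_pow two_ne_zero, eq_comm, sub_eq_zero] at h2
      rwa [h2]
    · rw [hWd, cpow_inv_two_re]
      exact Real.sqrt_nonneg _
    · rw [hWd, cpow_inv_two_im_eq_sqrt (by rw [sub_im, him, sub_zero]; exact ht.1)]
      exact Real.sqrt_nonneg _
  have hW0 : Tendsto W (𝓝[D.Q] x₀) (𝓝 0) := by
    rw [tendsto_zero_iff_norm_tendsto_zero]
    have h1 : Continuous fun t : ℂ => √‖t - x₀‖ := by fun_prop
    have h2 := h1.tendsto x₀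
    rw [sub_self, norm_zero, Real.sqrt_zero] at h2
    refine (h2.mono_left nhdsWithin_le_nhds).congr fun t => ?_
    rw [← hsq, norm_pow, Real.sqrt_sq (norm_nonneg _)]
  have hW : Tendsto W (𝓝[D.Q] x₀) (𝓝[≠] 0) :=
    tendsto_nhdsWithin_iff.2 ⟨hW0, eventually_nhdsWithin_of_forall fun t ht => (hq t ht).1⟩
  refine ⟨fun t => -k₁ 0 / W t - conj (-k₂ 0 / W t), (hT.comp hW).congr' ?_,
    fun t ht => (Ends_lead hc hcase (W t)).2 (hq t ht).2.1 (hq t ht).2.2, ?_⟩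
  · filter_upwards [self_mem_nhdsWithin, hW0.eventually (ball_mem_nhds _ H.pos)] with t ht h1
    have h2 : x₀ + W t ^ 2 = t := by rw [hsq, add_sub_cancel]
    show D.Xg X (x₀ + W t ^ 2) (W t * h (W t ^ 2)) - _ = _
    rw [hY _ h1 (hq t ht).1 (hq t ht).2.1 (hq t ht).2.2, h2, Xg_Y ht.1]
  · refine ((tendsto_norm_inv_nhdsNE_zero_atTop.comp hW).const_mul_atTop hc0).congr
      fun t => ?_
    exact (Ends_lead hc hcase (W t)).1.symm

theorem Sol.end_sign (hD : D.Ok) (hX : D.Sol X) {x₀ : ℂ} (he : D.IsE x₀) {ε : ℝ} (hε : 0 < ε) :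
    ∀ᶠ t in 𝓝[D.Q] x₀, (X t).re < ε ∧ -ε < (X t).im := by
  obtain ⟨L, h1, h2, -⟩ := Ends_core hD hX he
  filter_upwards [self_mem_nhdsWithin, h1.eventually (ball_mem_nhds _ hε)] with t ht h3
  rw [dist_zero_right] at h3
  have h4 := (abs_le.1 (abs_re_le_norm (X t - L t))).2
  have h5 := (abs_le.1 (abs_im_le_norm (X t - L t))).1
  rw [sub_re] at h4
  rw [sub_im] at h5
  obtain ⟨h6, h7⟩ := h2 t ht
  exact ⟨by linarith, by linarith⟩

theorem Sol.end_big (hD : D.Ok) (hX : D.Sol X) {x₀ : ℂ} (he : D.IsE x₀) :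
    Tendsto (fun t => ‖X t‖) (𝓝[D.Q] x₀) atTop := by
  obtain ⟨L, h1, -, h2⟩ := Ends_core hD hX he
  refine tendsto_atTop_mono' _ ?_ (tendsto_atTop_add_const_right _ (-1) h2)
  filter_upwards [h1.eventually (ball_mem_nhds _ one_pos)] with t h3
  rw [dist_zero_right, norm_sub_rev] at h3
  have h4 := norm_sub_norm_le (L t) (X t)
  linarith

end Dat

end Pool.Agent.MP_92463a_gt

end
end

section

open Set Complex Filter Metric
open scoped Topology ComplexConjugate ContDiff Manifold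

noncomputable section

namespace Pool.Agent.MP_92463a_gt

theorem Max_loc {D : Dat} {X : ℂ → ℂ} (hD : D.Ok) (hX : D.Sol X) {c t₀ : ℂ} {δ : ℝ} {h : ℂ → ℂ}
    (hc : c ≠ 0) (H : D.Par1 t₀ δ h)
    (hm : IsLocalMax (fun w => (c * D.Xg X (t₀ + w) (h w)).re) 0) : False := by
  obtain ⟨Φ₁, Φ₂, hΦ⟩ := hX.lf1 hD H
  have hb : ball (0 : ℂ) δ ∈ 𝓝 (0 : ℂ) := ball_mem_nhds _ H.pos
  have hd : ∀ w ∈ ball (0 : ℂ) δ, HasDerivAt (fun w => c * Φ₁ w - conj c * Φ₂ w)
      (c * (h w * D.R (t₀ + w) / (t₀ + w)) - conj c * (h w * D.R (t₀ + w) * (t₀ + w))⁻¹) w :=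
    fun w hw => ((hΦ w hw).1.const_mul c).sub ((hΦ w hw).2.1.const_mul (conj c))
  have ha : AnalyticAt ℂ (fun w => c * Φ₁ w - conj c * Φ₂ w) 0 :=
    DifferentiableOn.analyticAt (s := ball 0 δ)
      (fun w hw => (hd w hw).differentiableAt.differentiableWithinAt) hb
  have hm' : IsLocalMax (fun w => (c * Φ₁ w - conj c * Φ₂ w).re) 0 := by
    refine hm.congr ?_
    filter_upwards [hb] with w hw
    rw [(hΦ w hw).2.2]
    simp only [mul_re, sub_re, sub_im, conj_re, conj_im]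
    ring
  have h0 := no_max ha hm'
  apply hD.not_const (conj c / c) t₀
  have h1 : ∀ᶠ w in 𝓝 (0 : ℂ), D.P (t₀ + w) * D.R (t₀ + w) ^ 2 = conj c / c := by
    filter_upwards [h0, hb] with w hw hw'
    rw [(hd w hw').deriv] at hw
    have hP : D.P (t₀ + w) ≠ 0 := by rw [← H.sq w hw']; exact pow_ne_zero _ (H.ne w hw')
    have ht : t₀ + w ≠ 0 := fun h' => hP (Dat.P_eq_zero.2 (Or.inl (Or.inl h')))
    have hR := hD.R_ne hP
    have hh := H.ne w hw'
    rw [← H.sq w hw']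
    field_simp at hw ⊢
    linear_combination hw
  have h2 : Tendsto (fun t : ℂ => t - t₀) (𝓝 t₀) (𝓝 0) := by
    have : Tendsto (fun t : ℂ => t - t₀) (𝓝 t₀) (𝓝 (t₀ - t₀)) :=
      (continuous_id.sub continuous_const).tendsto t₀
    simpa using this
  filter_upwards [h2.eventually h1] with t ht
  simpa using ht

theorem Max_key {D : Dat} {X : ℂ → ℂ} (hD : D.Ok) (hX : D.Sol X) {c t₀ : ℂ} (hc : c ≠ 0)
    (ht : 0 ≤ t₀.im) (hP : D.P t₀ ≠ 0)
    (hs : 0 < t₀.im ∨ conj c = (if 0 < (D.P t₀).re then 1 else -1) * c)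
    (hm : ∀ t ∈ D.Q, (c * X t).re ≤ (c * X t₀).re) : False := by
  have hQ : ∀ t : ℂ, 0 ≤ t.im → D.P t ≠ 0 → t ∈ D.Q := fun t h1 h2 =>
    ⟨h1, fun h => h2 (Dat.P_eq_zero.2 (Or.inl h))⟩
  rcases ht.eq_or_lt with h0 | h0
  · obtain ⟨x₀, rfl⟩ : ∃ x₀ : ℝ, t₀ = x₀ := ⟨t₀.re, Complex.ext rfl (by simp [← h0])⟩
    have hs' := hs.resolve_left (by simp)
    obtain ⟨δ, h, H, hY, hc'⟩ := Dat.par1_Y hP
    have hb : ball (0 : ℂ) δ ∈ 𝓝 (0 : ℂ) := ball_mem_nhds _ H.pos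
    have hPw : ∀ w ∈ ball (0 : ℂ) δ, D.P (x₀ + w) ≠ 0 := fun w hw => by
      rw [← H.sq w hw]; exact pow_ne_zero _ (H.ne w hw)
    have hup : ∀ w ∈ ball (0 : ℂ) δ, 0 ≤ w.im → D.Xg X (x₀ + w) (h w) = X (x₀ + w) :=
      fun w hw hi => by rw [hY w hw hi, Dat.Xg_Y (by simpa using hi)]
    refine Max_loc hD hX hc H ?_
    filter_upwards [hb] with w hw
    rw [hup 0 (mem_ball_self H.pos) (by simp), add_zero]
    rcases le_or_gt 0 w.im with hi | hi
    · rw [hup w hw hi]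
      exact hm _ (hQ _ (by simpa using hi) (hPw w hw))
    · have hw' : conj w ∈ ball (0 : ℂ) δ := by simpa using hw
      have hi' : 0 ≤ (conj w).im := by simpa using hi.le
      have e1 := hX.Xg_conj hD (H.sq _ hw')
      rw [hup _ hw' hi'] at e1
      have e2 := hc' _ hw'
      simp only [map_add, conj_ofReal, conj_conj] at e1 e2
      have e3 := hm _ (hQ _ (by simpa using hi') (hPw _ hw'))
      refine le_trans (le_of_eq ?_) e3
      rw [← conj_re (c * X _), map_mul, hs', e2]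
      split_ifs
      · rw [one_mul, one_mul, e1]
      · rw [neg_one_mul, neg_one_mul, Dat.Xg_neg, e1]
        congr 1
        ring
  · have hb : ∀ w ∈ ball (0 : ℂ) t₀.im, 0 < (t₀ + w).im := fun w hw => by
      have h1 := abs_im_le_norm w
      have h2 : ‖w‖ < t₀.im := by simpa using hw
      have h3 := neg_abs_le w.im
      rw [add_im]
      linarith
    have H : D.Par1 t₀ t₀.im fun w => D.Y (t₀ + w) :=
      ⟨h0, fun w hw => ((Dat.Y_diff (hb w hw)).comp w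
        ((differentiableAt_const _).add differentiableAt_id)).differentiableWithinAt,
        fun w _ => Dat.Y_ne _, fun w hw => Dat.Y_sq (Dat.ne_of_im (hb w hw).ne')⟩
    refine Max_loc hD hX hc H ?_
    filter_upwards [ball_mem_nhds _ h0] with w hw
    rw [Dat.Xg_Y (hb w hw).le, add_zero, Dat.Xg_Y ht]
    exact hm _ (hQ _ (hb w hw).le (Dat.ne_of_im (hb w hw).ne'))

theorem Max_le {D : Dat} {X : ℂ → ℂ} (hD : D.Ok) (hX : D.Sol X) {c : ℂ} (hc : c ≠ 0)
    (he : ∀ x₀, D.IsE x₀ → ∀ ε : ℝ, 0 < ε → ∀ᶠ t in 𝓝[D.Q] x₀, (c * X t).re < ε)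
    (hi : ∀ ε : ℝ, 0 < ε → ∃ r : ℝ, ∀ t ∈ D.Q, r < ‖t‖ → (c * X t).re < ε)
    (hb : ∀ x : ℝ, D.P x ≠ 0 →
      conj c = (if 0 < (D.P x).re then 1 else -1) * c ∨ (c * X x).re = 0) :
    ∀ t ∈ D.Q, (c * X t).re ≤ 0 := by
  intro t₁ ht₁
  by_contra hlt
  push Not at hlt
  have hu : ContinuousOn (fun t => (c * X t).re) D.Q :=
    continuous_re.comp_continuousOn (continuousOn_const.mul hX.cont)
  set K : Set ℂ := {t | t ∈ D.Q ∧ (c * X t₁).re ≤ (c * X t).re} with hK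
  have hKQ : K ⊆ D.Q := fun t h => h.1
  have hcl : IsClosed K := by
    refine isClosed_of_closure_subset fun x hx => ?_
    have hne : (𝓝[K] x).NeBot := mem_closure_iff_nhdsWithin_neBot.1 hx
    have hx1 : 0 ≤ x.im :=
      closure_minimal (s := K) (t := {t : ℂ | 0 ≤ t.im}) (fun t h => h.1.1)
        (isClosed_le continuous_const continuous_im) hx
    have hev : ∀ᶠ t in 𝓝[K] x, (c * X t₁).re ≤ (c * X t).re :=
      eventually_nhdsWithin_of_forall fun t h => h.2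
    have hx2 : ¬ D.IsE x := fun h => by
      obtain ⟨t, h1, h2⟩ := (((he x h _ hlt).filter_mono (nhdsWithin_mono x hKQ)).and hev).exists
      linarith
    exact ⟨⟨hx1, hx2⟩, ge_of_tendsto ((hu x ⟨hx1, hx2⟩).mono hKQ).tendsto hev⟩
  obtain ⟨r, hr⟩ := hi _ hlt
  have hbd : Bornology.IsBounded K :=
    (isBounded_closedBall (x := (0 : ℂ)) (r := r)).subset fun t h => by
      rw [mem_closedBall_zero_iff]
      by_contra h'
      have := hr t h.1 (not_le.1 h')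
      linarith [h.2]
  obtain ⟨t₀, h0, hmax⟩ := (isCompact_of_isClosed_isBounded hcl hbd).exists_isMaxOn
    ⟨t₁, ht₁, le_rfl⟩ (hu.mono hKQ)
  have hpos : 0 < (c * X t₀).re := hlt.trans_le h0.2
  have hP : D.P t₀ ≠ 0 := fun h => by
    rcases Dat.P_eq_zero.1 h with h | h
    · exact h0.1.2 h
    · rw [hX.X_a hD h] at hpos
      simp at hpos
  refine Max_key hD hX hc h0.1.1 hP ?_ fun t ht => ?_
  · rcases h0.1.1.eq_or_lt with h | h
    · obtain ⟨x₀, rfl⟩ : ∃ x₀ : ℝ, t₀ = x₀ := ⟨t₀.re, Complex.ext rfl (by simp [← h])⟩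
      exact Or.inr ((hb x₀ hP).resolve_right hpos.ne')
    · exact Or.inl h
  · rcases le_or_gt (c * X t₁).re (c * X t).re with h | h
    · exact hmax ⟨ht, h⟩
    · exact h.le.trans h0.2

theorem Dat.Sol.quad {D : Dat} {X : ℂ → ℂ} (hD : D.Ok) (hX : D.Sol X) {t : ℂ} (ht : 0 ≤ t.im)
    (hP : D.P t ≠ 0) :
    (X t).re ≤ 0 ∧ 0 ≤ (X t).im ∧ (0 < t.im ∨ 0 < (D.P t).re → (X t).re < 0) ∧
      (0 < t.im ∨ (D.P t).re < 0 → 0 < (X t).im) := by
  have hQ : t ∈ D.Q := ⟨ht, fun h => hP (Dat.P_eq_zero.2 (Or.inl h))⟩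
  have h1 : ∀ s ∈ D.Q, (1 * X s).re ≤ 0 := by
    refine Max_le hD hX one_ne_zero (fun x₀ h ε hε => ?_) (fun ε hε => ?_) fun x hx => ?_
    · filter_upwards [hX.end_sign hD h hε] with s hs
      simpa using hs.1
    · obtain ⟨r, hr⟩ := hX.inf_sign hD hε
      exact ⟨r, fun s hs h => by simpa using (hr s hs h).1⟩
    · by_cases h : 0 < (D.P x).re
      · left
        simp [h]
      · right
        have h' : (D.P x).re ≠ 0 := fun h' => hx (Complex.ext h' (Dat.P_im x))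
        simpa using hX.re0 x (lt_of_le_of_ne (not_lt.1 h) h')
  have h2 : ∀ s ∈ D.Q, (I * X s).re ≤ 0 := by
    refine Max_le hD hX I_ne_zero (fun x₀ h ε hε => ?_) (fun ε hε => ?_) fun x hx => ?_
    · filter_upwards [hX.end_sign hD h hε] with s hs
      simpa [neg_lt] using hs.2
    · obtain ⟨r, hr⟩ := hX.inf_sign hD hε
      exact ⟨r, fun s hs h => by simpa [neg_lt] using (hr s hs h).2⟩
    · by_cases h : 0 < (D.P x).re
      · right
        simpa using hX.im0 x h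
      · left
        simp [h]
  refine ⟨by simpa using h1 t hQ, by simpa using h2 t hQ, fun h => ?_, fun h => ?_⟩
  · by_contra h'
    refine Max_key hD hX one_ne_zero ht hP (h.imp_right fun h => by simp [h]) fun s hs => ?_
    exact (h1 s hs).trans (by simpa using h')
  · by_contra h'
    refine Max_key hD hX I_ne_zero ht hP (h.imp_right fun h => by simp [h.not_gt]) fun s hs => ?_
    exact (h2 s hs).trans (by simpa using h')

end Pool.Agent.MP_92463a_gt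

end
end

section

open Set Complex Filter Metric
open scoped Topology ComplexConjugate ContDiff Manifold

noncomputable section

namespace Pool.Agent.MP_92463a_gt

theorem Arc_re_pos {x s : ℝ} (h0 : 0 ≤ x) (h1 : x ≤ 1) (hs0 : 0 ≤ s) (hs : s < Real.pi) :
    0 < 1 + x * Real.cos s := by
  have h : -1 < Real.cos s := by
    rw [← Real.cos_pi]
    exact Real.cos_lt_cos_of_nonneg_of_le_pi hs0 le_rfl hs
  rcases le_or_gt 0 (Real.cos s) with hc | hc
  · positivity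
  · nlinarith

theorem Arc_arctan_le {x θ : ℝ} (h0 : 0 ≤ x) (h1 : x ≤ 1) (hθ : θ ∈ Ioo 0 Real.pi) :
    Real.arctan (x * Real.sin θ / (1 + x * Real.cos θ)) ≤ θ * (x / (1 + x)) := by
  have hd : ∀ s ∈ Icc 0 θ, HasDerivAt (fun s => Real.arctan (x * Real.sin s / (1 + x * Real.cos s)))
      ((x * Real.cos s + x ^ 2) / (1 + 2 * x * Real.cos s + x ^ 2)) s := by
    intro s hs
    have hp := Arc_re_pos h0 h1 hs.1 (hs.2.trans_lt hθ.2)
    have h2 := (((Real.hasDerivAt_sin s).const_mul x).fun_div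
      (((Real.hasDerivAt_cos s).const_mul x).const_add 1) hp.ne').arctan
    have h3 := Real.sin_sq_add_cos_sq s
    have h4 : (1 + x * Real.cos s) ^ 2 + (x * Real.sin s) ^ 2 = 1 + 2 * x * Real.cos s + x ^ 2 := by
      linear_combination x ^ 2 * h3
    have h5 : x * Real.cos s * (1 + x * Real.cos s) - x * Real.sin s * (x * -Real.sin s) =
        x * Real.cos s + x ^ 2 := by
      linear_combination x ^ 2 * h3
    convert h2 using 1
    rw [h5, ← h4]
    field_simp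
  obtain ⟨c, hc, e⟩ := exists_hasDerivAt_eq_slope _ _ hθ.1
    (fun s hs => (hd s hs).continuousAt.continuousWithinAt)
    (fun s hs => hd s (Ioo_subset_Icc_self hs))
  simp only [Real.sin_zero, mul_zero, zero_div, Real.arctan_zero, sub_zero] at e
  have hp := Arc_re_pos h0 h1 hc.1.le (hc.2.trans hθ.2)
  have h3 := Real.sin_sq_add_cos_sq c
  have h4 : 0 < 1 + 2 * x * Real.cos c + x ^ 2 := by
    have : (1 + x * Real.cos c) ^ 2 + (x * Real.sin c) ^ 2 = 1 + 2 * x * Real.cos c + x ^ 2 := by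
      linear_combination x ^ 2 * h3
    rw [← this]
    positivity
  rw [mul_comm θ, ← div_le_iff₀ hθ.1, ← e, div_le_div_iff₀ h4 (by linarith)]
  have h6 := mul_nonneg h0 (mul_nonneg (sub_nonneg.2 h1) (sub_nonneg.2 (Real.cos_le_one c)))
  nlinarith

theorem arg_one_add {x θ : ℝ} (h0 : 0 ≤ x) (h1 : x ≤ 1) (hθ : θ ∈ Ioo 0 Real.pi) :
    0 ≤ arg (1 + x * exp (θ * I)) ∧ arg (1 + x * exp (θ * I)) ≤ θ * (x / (1 + x)) := by
  have hre : (1 + x * exp (θ * I)).re = 1 + x * Real.cos θ := by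
    simp [exp_ofReal_mul_I_re]
  have him : (1 + x * exp (θ * I)).im = x * Real.sin θ := by
    simp [exp_ofReal_mul_I_im]
  have hp := Arc_re_pos h0 h1 hθ.1.le hθ.2
  constructor
  · rw [arg_nonneg_iff, him]
    exact mul_nonneg h0 (Real.sin_nonneg_of_nonneg_of_le_pi hθ.1.le hθ.2.le)
  · have h2 := abs_lt.1 (abs_arg_lt_pi_div_two_iff.2 (Or.inl (hre ▸ hp)))
    rw [← Real.arctan_tan h2.1 h2.2, tan_arg, hre, him]
    exact Arc_arctan_le h0 h1 hθ

theorem Arc_arg_eq {z : ℂ} (hz : 0 < z.im) :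
    arg z = Real.pi / 2 - Real.arctan (z.re / z.im) := by
  have h1 : 0 < arg z := lt_of_le_of_ne (arg_nonneg_iff.2 hz.le) fun h =>
    hz.ne' (arg_eq_zero_iff.1 h.symm).2
  have h2 : arg z < Real.pi := arg_lt_pi_iff.2 (Or.inr hz.ne')
  rw [← inv_div z.im, ← tan_arg, ← Real.tan_pi_div_two_sub,
    Real.arctan_tan (by linarith) (by linarith)]
  ring

theorem Arc_anti {z : ℂ} (hz : 0 < z.im) {c d : ℝ} (h : c ≤ d) : arg (z + d) ≤ arg (z + c) := by
  rw [Arc_arg_eq (z := z + d) (by simpa using hz), Arc_arg_eq (z := z + c) (by simpa using hz)]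
  simp only [add_re, ofReal_re, add_im, ofReal_im, add_zero]
  gcongr

theorem Arc_arg_polar {r θ : ℝ} (hr : 0 < r) (h1 : -Real.pi < θ) (h2 : θ ≤ Real.pi) :
    arg (r * exp (θ * I)) = θ := by
  rw [exp_mul_I]
  exact arg_mul_cos_add_sin_mul_I hr ⟨h1, h2⟩

theorem Arc_frac {y x : ℝ} (h0 : 0 ≤ y) (h : y ≤ x) : y / (1 + y) ≤ x / (1 + x) := by
  rw [div_le_div_iff₀ (by linarith) (by linarith)]
  nlinarith

theorem Arc_big {r b x θ : ℝ} (hr : 0 < r) (hb : 0 < b) (h : r / b ≤ x) (h1 : x ≤ 1)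
    (hθ : θ ∈ Ioo 0 Real.pi) : arg (r * exp (θ * I) + b) ≤ θ * (x / (1 + x)) := by
  have h0 : 0 ≤ r / b := by positivity
  have e : (r * exp (θ * I) + b : ℂ) = b * (1 + (r / b : ℝ) * exp (θ * I)) := by
    have : (b : ℂ) ≠ 0 := ofReal_ne_zero.2 hb.ne'
    push_cast
    field_simp
    ring
  rw [e, arg_real_mul _ hb]
  exact (arg_one_add h0 (h.trans h1) hθ).2.trans
    (mul_le_mul_of_nonneg_left (Arc_frac h0 h) hθ.1.le)

theorem Arc_small {r b x θ : ℝ} (hr : 0 < r) (hb : 0 < b) (h : b / r ≤ x) (h1 : x ≤ 1)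
    (hθ : θ ∈ Ioo 0 Real.pi) : θ - arg (r * exp (θ * I) + b) ≤ θ * (x / (1 + x)) := by
  have h0 : 0 ≤ b / r := by positivity
  obtain ⟨h2, h3⟩ := arg_one_add h0 (h.trans h1) hθ
  have h4 := h3.trans (mul_le_mul_of_nonneg_left (Arc_frac h0 h) hθ.1.le)
  have hre : (1 + (b / r : ℝ) * exp (θ * I)).re = 1 + b / r * Real.cos θ := by
    simp only [add_re, one_re, re_ofReal_mul, exp_ofReal_mul_I_re]
  have hne : (1 + (b / r : ℝ) * exp (θ * I)) ≠ 0 := fun h0' => by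
    have := Arc_re_pos h0 (h.trans h1) hθ.1.le hθ.2
    rw [← hre, h0'] at this
    simp at this
  have h5 := arg_le_pi (1 + (b / r : ℝ) * exp (θ * I))
  have h6 := congrArg conj (norm_mul_exp_arg_mul_I (1 + (b / r : ℝ) * exp (θ * I)))
  have h7 := norm_pos_iff.2 hne
  generalize arg (1 + (b / r : ℝ) * exp (θ * I)) = φ at h2 h3 h4 h5 h6
  generalize ‖(1 + (b / r : ℝ) * exp (θ * I) : ℂ)‖ = N at h6 h7
  simp only [map_mul, map_add, map_one, conj_ofReal, ← exp_conj, conj_I] at h6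
  have e : (r * exp (θ * I) + b : ℂ) = (r * N : ℝ) * exp ((θ - φ : ℝ) * I) := by
    have hr' : (r : ℂ) ≠ 0 := ofReal_ne_zero.2 hr.ne'
    have e1 : exp ((θ - φ : ℝ) * I) = exp (θ * I) * exp (φ * -I) := by
      rw [← exp_add]
      congr 1
      push_cast
      ring
    have e2 : exp (θ * I) * exp (θ * -I) = 1 := by
      rw [← exp_add]
      simp
    have e3 : (r : ℂ) * (b / r : ℝ) = b := by
      push_cast
      field_simp
    rw [e1]
    push_cast at h6 e3 ⊢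
    linear_combination (-r * exp (θ * I)) * h6 - (r * (b / r)) * e2 - e3
  rw [e, Arc_arg_polar (mul_pos hr h7) (by linarith [hθ.1]) (by linarith [hθ.2])]
  linarith

theorem Arc_sg_succ (j : ℕ) : sg (j + 1) = -sg j := by
  simp [sg, pow_succ]

theorem Arc_alt (n : ℕ) : ∀ (w : ℕ → ℝ) (M : ℝ), 0 ≤ M → (∀ j < n, 0 ≤ w j) → (∀ j < n, w j ≤ M) →
    (∀ i j, i ≤ j → j < n → w j ≤ w i) →
    0 ≤ ∑ j ∈ Finset.range n, sg j * w j ∧ ∑ j ∈ Finset.range n, sg j * w j ≤ M := by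
  induction n with
  | zero => intro w M hM _ _ _; simpa using hM
  | succ n ih =>
    intro w M hM h0 h1 h2
    obtain ⟨h3, h4⟩ := ih (fun j => w (j + 1)) (w 0) (h0 0 (by omega))
      (fun j hj => h0 _ (by omega)) (fun j hj => h2 0 _ (by omega) (by omega))
      (fun i j hij hj => h2 _ _ (by omega) (by omega))
    have h5 := h1 0 (by omega)
    rw [Finset.sum_range_succ']
    simp only [Arc_sg_succ, neg_mul, Finset.sum_neg_distrib]
    have h6 : sg 0 = 1 := by simp [sg]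
    rw [h6, one_mul]
    constructor <;> linarith

theorem Arc_alt2 {u : ℕ → ℝ} {q k : ℕ} {θ L R : ℝ} (hk : k ≤ q) (hL : 0 ≤ L) (hR : 0 ≤ R)
    (h0 : ∀ j < q, 0 ≤ u j) (h1 : ∀ j < q, u j ≤ θ) (h2 : ∀ i j, i ≤ j → j < q → u j ≤ u i)
    (h3 : ∀ j < k, θ - u j ≤ L) (h4 : ∀ j, k ≤ j → j < q → u j ≤ R) :
    (Even k → 0 ≤ ∑ j ∈ Finset.range q, sg j * u j ∧ ∑ j ∈ Finset.range q, sg j * u j ≤ L + R) ∧
    (¬ Even k → θ - (L + R) ≤ ∑ j ∈ Finset.range q, sg j * u j ∧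
      ∑ j ∈ Finset.range q, sg j * u j ≤ θ) := by
  obtain ⟨n, rfl⟩ := Nat.exists_eq_add_of_le hk
  obtain ⟨a1, a2⟩ := Arc_alt k (fun j => u j - (θ - L)) L hL
    (fun j hj => by linarith [h3 j hj]) (fun j hj => by linarith [h1 j (by omega)])
    (fun i j hij hj => by linarith [h2 i j hij (by omega)])
  obtain ⟨b1, b2⟩ := Arc_alt n (fun j => u (k + j)) R hR (fun j hj => h0 _ (by omega))
    (fun j hj => h4 _ (by omega) (by omega)) (fun i j hij hj => h2 _ _ (by omega) (by omega))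
  have e1 : ∑ j ∈ Finset.range k, sg j = if Even k then 0 else 1 := neg_one_geom_sum
  have e2 : ∑ j ∈ Finset.range n, sg (k + j) * u (k + j) =
      sg k * ∑ j ∈ Finset.range n, sg j * u (k + j) := by
    rw [Finset.mul_sum]
    exact Finset.sum_congr rfl fun j _ => by simp only [sg, pow_add, mul_assoc]
  simp only [mul_sub (sg _) (u _), Finset.sum_sub_distrib, ← Finset.sum_mul, e1] at a1 a2
  rw [Finset.sum_range_add, e2]
  constructor
  · intro he
    have e3 : sg k = 1 := he.neg_one_pow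
    rw [if_pos he] at a1 a2
    rw [e3]
    constructor <;> linarith
  · intro he
    have e3 : sg k = -1 := (Nat.not_even_iff_odd.1 he).neg_one_pow
    rw [if_neg he] at a1 a2
    rw [e3]
    constructor <;> linarith

theorem Arc_two_thirds {x y : ℝ} (hx0 : 0 ≤ x) (hx1 : x ≤ 1) (hy0 : 0 ≤ y) (hy1 : y ≤ 1)
    (h : x * y < 1 / 5) : x / (1 + x) + y / (1 + y) < 2 / 3 := by
  rw [div_add_div _ _ (by linarith) (by linarith), div_lt_div_iff₀ (by positivity) (by norm_num)]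
  nlinarith [mul_nonneg (sub_nonneg.2 hx1) (sub_nonneg.2 hy1)]

theorem Arc_im_LG (D : Dat) (t : ℂ) : (D.LG t).im =
    -arg t / 2 + 3 / 2 * ∑ j ∈ Finset.range D.q, sg j * arg (t + D.b j) +
      1 / 2 * ∑ i ∈ Finset.range D.p, sg i * (Real.pi - arg (t - D.a i)) := by
  have e1 : ∀ j, ((sg j : ℂ) * (3 / 2) * log (t + D.b j)).im =
      3 / 2 * (sg j * arg (t + D.b j)) := fun j => by
    rw [show (sg j : ℂ) * (3 / 2) = ((sg j * (3 / 2) : ℝ) : ℂ) by push_cast; rfl, im_ofReal_mul,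
      log_im]
    ring
  have e2 : ∀ i, ((sg i : ℂ) * (1 / 2) * lm (D.a i) t).im =
      -(1 / 2 * (sg i * (Real.pi - arg (t - D.a i)))) := fun i => by
    rw [show (sg i : ℂ) * (1 / 2) = ((sg i * (1 / 2) : ℝ) : ℂ) by push_cast; rfl, im_ofReal_mul,
      lm, sub_im, log_im, im_ofReal_mul, I_im]
    ring
  rw [Dat.LG, sub_im, add_im, sub_im, im_sum, im_sum, ofReal_im, div_ofNat_im, log_im]
  simp only [e1, e2, Finset.sum_neg_distrib, ← Finset.mul_sum]
  ring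

theorem Dat.Ok.arc {D : Dat} (hD : D.Ok) {r : ℝ} (hr : 0 < r) :
    (∀ θ ∈ Ioo 0 Real.pi, 0 < (D.G (r * exp (θ * I))).re) ∨
    (∀ θ ∈ Ioo 0 Real.pi, 0 < (D.G (r * exp (θ * I))).im) := by
  classical
  have hmono : ∀ i j, i ≤ j → j < D.q → D.b i ≤ D.b j := by
    intro i j hij hj
    rcases hij.eq_or_lt with rfl | h
    · exact le_rfl
    · linarith [hD.b_gap i j h hj, hD.b_pos i (h.trans hj)]
  have hex : ∃ k, D.q ≤ k ∨ r < D.b k := ⟨D.q, Or.inl le_rfl⟩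
  obtain ⟨k, hk, hk1, hk2⟩ : ∃ k ≤ D.q, (∀ j < k, D.b j ≤ r) ∧
      ∀ j, k ≤ j → j < D.q → r < D.b j := by
    refine ⟨Nat.find hex, Nat.find_min' hex (Or.inl le_rfl), fun j hj => ?_, fun j hj hq => ?_⟩
    · exact not_lt.1 fun h => Nat.find_min hex hj (Or.inr h)
    · rcases Nat.find_spec hex with h | h
      · omega
      · exact h.trans_le (hmono _ _ hj hq)
  obtain ⟨x, y, hx0, hx1, hy0, hy1, hxy, hx, hy⟩ : ∃ x y : ℝ, 0 ≤ x ∧ x ≤ 1 ∧ 0 ≤ y ∧ y ≤ 1 ∧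
      x * y < 1 / 5 ∧ (∀ j < k, D.b j / r ≤ x) ∧ ∀ j, k ≤ j → j < D.q → r / D.b j ≤ y := by
    rcases hk.eq_or_lt with h | h
    · exact ⟨1, 0, zero_le_one, le_rfl, le_rfl, zero_le_one, by norm_num,
        fun j hj => (div_le_one hr).2 (hk1 j hj), fun j h1 h2 => by omega⟩
    · rcases k with _ | k
      · exact ⟨0, 1, le_rfl, zero_le_one, zero_le_one, le_rfl, by norm_num,
          fun j hj => by omega, fun j h1 h2 => (div_le_one (hD.b_pos j h2)).2 (hk2 j h1 h2).le⟩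
      · have b1 := hD.b_pos k (by omega)
        have b2 := hD.b_pos _ h
        refine ⟨D.b k / r, r / D.b (k + 1), by positivity, (div_le_one hr).2 (hk1 k (by omega)),
          by positivity, (div_le_one b2).2 (hk2 _ le_rfl h).le, ?_, fun j hj => ?_,
          fun j h1 h2 => ?_⟩
        · rw [div_mul_div_cancel₀ hr.ne', div_lt_div_iff₀ b2 (by norm_num)]
          linarith [hD.b_gap k (k + 1) (by omega) h]
        · exact div_le_div_of_nonneg_right (hmono j k (by omega) (by omega)) hr.le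
        · exact div_le_div_of_nonneg_left hr.le b2 (hmono _ _ h1 h2)
  have h23 := Arc_two_thirds hx0 hx1 hy0 hy1 hxy
  have key : ∀ θ ∈ Ioo 0 Real.pi,
      (Even k → -(Real.pi / 2) < (D.LG (r * exp (θ * I))).im ∧
        (D.LG (r * exp (θ * I))).im < Real.pi / 2) ∧
      (¬ Even k → 0 < (D.LG (r * exp (θ * I))).im ∧ (D.LG (r * exp (θ * I))).im < Real.pi) := by
    intro θ hθ
    have hπ := Real.pi_pos
    have harg : arg (r * exp (θ * I)) = θ := Arc_arg_polar hr (by linarith [hθ.1]) hθ.2.le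
    have him : 0 < (r * exp (θ * I) : ℂ).im := by
      rw [im_ofReal_mul, exp_ofReal_mul_I_im]
      exact mul_pos hr (Real.sin_pos_of_pos_of_lt_pi hθ.1 hθ.2)
    have hU := Arc_alt2 (u := fun j => arg (r * exp (θ * I) + D.b j)) (θ := θ) hk
      (L := θ * (x / (1 + x))) (R := θ * (y / (1 + y)))
      (mul_nonneg hθ.1.le (by positivity)) (mul_nonneg hθ.1.le (by positivity))
      (fun j _ => arg_nonneg_iff.2 (by simpa using him.le))
      (fun j hj => by simpa [harg] using Arc_anti him (hD.b_pos j hj).le)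
      (fun i j hij hj => Arc_anti him (hmono i j hij hj))
      (fun j hj => Arc_small hr (hD.b_pos j (by omega)) (hx j hj) hx1 hθ)
      (fun j h1 h2 => Arc_big hr (hD.b_pos j h2) (hy j h1 h2) hy1 hθ)
    have hsub : ∀ c : ℝ, (r * exp (θ * I) - c : ℂ) = r * exp (θ * I) + (-c : ℝ) := fun c => by
      push_cast
      ring
    obtain ⟨v1, v2⟩ := Arc_alt D.p (fun i => Real.pi - arg (r * exp (θ * I) - D.a i))
      (Real.pi - θ) (by linarith [hθ.2]) (fun i _ => sub_nonneg.2 (arg_le_pi _))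
      (fun i hi => by
        have := Arc_anti him (neg_nonpos.2 (hD.a_pos i hi).le)
        rw [← hsub, ofReal_zero, add_zero, harg] at this
        linarith)
      (fun i j hij hj => by
        have h1 : D.a i ≤ D.a j := by
          rcases hij.eq_or_lt with rfl | h
          · exact le_rfl
          · exact (hD.a_lt i j h hj).le
        have := Arc_anti him (neg_le_neg h1)
        rw [← hsub, ← hsub] at this
        linarith)
    have h5 := mul_lt_mul_of_pos_left h23 hθ.1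
    rw [mul_add] at h5
    rw [Arc_im_LG, harg]
    refine ⟨fun he => ?_, fun he => ?_⟩
    · obtain ⟨u1, u2⟩ := hU.1 he
      constructor <;> linarith [hθ.2]
    · obtain ⟨u1, u2⟩ := hU.2 he
      constructor <;> linarith [hθ.2]
  by_cases he : Even k
  · refine Or.inl fun θ hθ => ?_
    rw [Dat.G, exp_re]
    exact mul_pos (Real.exp_pos _) (Real.cos_pos_of_mem_Ioo ((key θ hθ).1 he))
  · refine Or.inr fun θ hθ => ?_
    rw [Dat.G, exp_im]
    exact mul_pos (Real.exp_pos _)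
      (Real.sin_pos_of_pos_of_lt_pi ((key θ hθ).2 he).1 ((key θ hθ).2 he).2)

end Pool.Agent.MP_92463a_gt

end
end

section

open Set Complex Filter Metric
open scoped Topology ComplexConjugate ContDiff Manifold

noncomputable section

namespace Pool.Agent.MP_92463a_gt

theorem Arc2_im {r θ : ℝ} (hr : 0 < r) (hθ : θ ∈ Ioo 0 Real.pi) :
    0 < ((r : ℂ) * exp (θ * I)).im := by
  rw [im_ofReal_mul, exp_ofReal_mul_I_im]
  exact mul_pos hr (Real.sin_pos_of_pos_of_lt_pi hθ.1 hθ.2)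

theorem Arc2_gam (r θ : ℝ) :
    HasDerivAt (fun s : ℝ => (r : ℂ) * exp (s * I)) ((r : ℂ) * exp (θ * I) * I) θ := by
  have h : HasDerivAt (fun s : ℂ => (r : ℂ) * exp (s * I)) ((r : ℂ) * exp (θ * I) * I) θ := by
    have h1 := (((hasDerivAt_id (θ : ℂ)).mul_const I).cexp).const_mul (r : ℂ)
    simpa [mul_assoc] using h1
  exact h.comp_ofReal

theorem Arc2_wl {G t : ℂ} (hG : G ≠ 0) (ht : t ≠ 0) :
    wl (G / t) (G * t)⁻¹ (t * I) = I * G * ((1 + (normSq G)⁻¹ : ℝ) : ℂ) := by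
  have hc : conj G ≠ 0 := by simpa using hG
  have e1 : G / t * (t * I) = G * I := by field_simp
  have e2 : (G * t)⁻¹ * (t * I) = G⁻¹ * I := by field_simp
  rw [wl_apply, e1, e2, map_mul, map_inv₀, conj_I]
  push_cast
  rw [normSq_eq_conj_mul_self]
  field_simp
  ring

theorem Arc2_der {D : Dat} {X : ℂ → ℂ} (hX : D.Pre X) {r θ : ℝ} (hr : 0 < r)
    (hθ : θ ∈ Ioo 0 Real.pi) :
    HasDerivAt (fun s : ℝ => X ((r : ℂ) * exp (s * I)))
      (I * D.G (r * exp (θ * I)) * ((1 + (normSq (D.G (r * exp (θ * I))))⁻¹ : ℝ) : ℂ)) θ := by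
  have him := Arc2_im hr hθ
  have ht : (r : ℂ) * exp (θ * I) ≠ 0 := fun h => by simp [h] at him
  have h := (hX.der _ him).comp_hasDerivAt θ (Arc2_gam r θ)
  rwa [Arc2_wl (Dat.G_ne _) ht] at h

theorem Arc2_ne {D : Dat} {X : ℂ → ℂ} (hD : D.Ok) (hX : D.Pre X) {r α β : ℝ} (hr : 0 < r)
    (hα : 0 ≤ α) (hαβ : α < β) (hβ : β ≤ Real.pi) (h₁ : (r : ℂ) * exp (α * I) ∈ D.Q)
    (h₂ : (r : ℂ) * exp (β * I) ∈ D.Q) : X (r * exp (α * I)) ≠ X (r * exp (β * I)) := by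
  intro he
  have hin : ∀ θ ∈ Ioo α β, θ ∈ Ioo 0 Real.pi := fun θ h => ⟨hα.trans_lt h.1, h.2.trans_le hβ⟩
  have hc : ContinuousOn (fun s : ℝ => X ((r : ℂ) * exp (s * I))) (Icc α β) := by
    refine hX.cont.comp (by fun_prop) fun θ hθ => ?_
    rcases hθ.1.eq_or_lt with h | h
    · rw [← h]; exact h₁
    rcases hθ.2.eq_or_lt with h' | h'
    · rw [h']; exact h₂
    have him := Arc2_im hr (hin θ ⟨h, h'⟩)
    exact ⟨him.le, fun hE => Dat.ne_of_im him.ne' (Dat.P_eq_zero.2 (Or.inl hE))⟩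
  have hpos : ∀ G : ℂ, 0 < 1 + (normSq G)⁻¹ := fun G => by
    have := normSq_nonneg G
    positivity
  rcases hD.arc hr with h | h
  · obtain ⟨c, hc1, hc2⟩ := exists_hasDerivAt_eq_zero hαβ (continuous_im.comp_continuousOn hc)
      (congrArg im he) fun θ hθ =>
        imCLM.hasFDerivAt.comp_hasDerivAt θ (Arc2_der hX hr (hin θ hθ))
    have h1 := mul_pos (h c (hin c hc1)) (hpos (D.G (r * exp (c * I))))
    rw [imCLM_apply, im_mul_ofReal, I_mul_im] at hc2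
    exact h1.ne' hc2
  · obtain ⟨c, hc1, hc2⟩ := exists_hasDerivAt_eq_zero hαβ (continuous_re.comp_continuousOn hc)
      (congrArg re he) fun θ hθ =>
        reCLM.hasFDerivAt.comp_hasDerivAt θ (Arc2_der hX hr (hin θ hθ))
    have h1 := mul_pos (h c (hin c hc1)) (hpos (D.G (r * exp (c * I))))
    rw [reCLM_apply, re_mul_ofReal, I_mul_re, neg_mul, neg_eq_zero] at hc2
    exact h1.ne' hc2

theorem Dat.Pre.arc_inj {D : Dat} {X : ℂ → ℂ} (hD : D.Ok) (hX : D.Pre X) {t₁ t₂ : ℂ}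
    (h₁ : t₁ ∈ D.Q) (h₂ : t₂ ∈ D.Q) (hn : ‖t₁‖ = ‖t₂‖) (he : X t₁ = X t₂) : t₁ = t₂ := by
  have hr : 0 < ‖t₂‖ := norm_pos_iff.2 fun h => h₂.2 (Or.inl h)
  have e₁ : (‖t₂‖ : ℂ) * exp (arg t₁ * I) = t₁ := by
    rw [← hn]; exact norm_mul_exp_arg_mul_I t₁
  have e₂ : (‖t₂‖ : ℂ) * exp (arg t₂ * I) = t₂ := norm_mul_exp_arg_mul_I t₂
  have a₁ := arg_nonneg_iff.2 h₁.1
  have a₂ := arg_nonneg_iff.2 h₂.1
  rcases lt_trichotomy (arg t₁) (arg t₂) with h | h | h
  · exact absurd (by rw [e₁, e₂]; exact he)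
      (Arc2_ne hD hX hr a₁ h (arg_le_pi _) (by rw [e₁]; exact h₁) (by rw [e₂]; exact h₂))
  · rw [← e₁, h, e₂]
  · exact absurd (by rw [e₁, e₂]; exact he.symm)
      (Arc2_ne hD hX hr a₂ h (arg_le_pi _) (by rw [e₂]; exact h₂) (by rw [e₁]; exact h₁))

end Pool.Agent.MP_92463a_gt

end
end

section

open Set Complex Filter Metric
open scoped Topology ComplexConjugate ContDiff Manifold

noncomputable section

namespace Pool.Agent.MP_92463a_gt

namespace Dat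

variable {D : Dat}

theorem tt_pt {t y : ℂ} (h : y ^ 2 = D.P t) : D.tt (D.pt t y) = t := by
  rw [pt, dif_pos h]
  rfl

theorem yy_pt {t y : ℂ} (h : y ^ 2 = D.P t) : D.yy (D.pt t y) = y := by
  rw [pt, dif_pos h]
  rfl

theorem pt_ne {t y : ℂ} (h : y ^ 2 = D.P t) : D.pt t y ≠ OnePoint.infty := by
  rw [pt, dif_pos h]
  exact OnePoint.coe_ne_infty _

theorem tt_infty : D.tt OnePoint.infty = 0 := rfl

theorem yy_infty : D.yy OnePoint.infty = 0 := rfl

theorem yy_sq (z : D.N) : D.yy z ^ 2 = D.P (D.tt z) := by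
  induction z using OnePoint.rec with
  | infty => simp [tt_infty, yy_infty, P]
  | coe c => exact c.2

theorem pt_tt {z : D.N} (hz : z ≠ OnePoint.infty) : D.pt (D.tt z) (D.yy z) = z := by
  induction z using OnePoint.rec with
  | infty => exact absurd rfl hz
  | coe c => exact dif_pos c.2

theorem tt_cont : ContinuousOn D.tt {OnePoint.infty}ᶜ := by
  intro z hz
  induction z using OnePoint.rec with
  | infty => exact absurd rfl hz
  | coe c =>
    exact (OnePoint.continuousAt_coe.2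
      (continuous_fst.comp continuous_subtype_val).continuousAt).continuousWithinAt

theorem yy_cont : ContinuousOn D.yy {OnePoint.infty}ᶜ := by
  intro z hz
  induction z using OnePoint.rec with
  | infty => exact absurd rfl hz
  | coe c =>
    exact (OnePoint.continuousAt_coe.2
      (continuous_snd.comp continuous_subtype_val).continuousAt).continuousWithinAt

theorem pt_cont {α : Type} [TopologicalSpace α] {T Yl : α → ℂ} {s : Set α}
    (hT : ContinuousOn T s) (hY : ContinuousOn Yl s) (hsq : ∀ x ∈ s, Yl x ^ 2 = D.P (T x)) :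
    ContinuousOn (fun x => D.pt (T x) (Yl x)) s := by
  rw [continuousOn_iff_continuous_domRestrict] at *
  have : s.domRestrict (fun x => D.pt (T x) (Yl x)) =
      fun x : s => ((⟨(T x, Yl x), hsq x x.2⟩ : D.C) : D.N) := funext fun x => dif_pos (hsq x x.2)
  rw [this]
  exact OnePoint.continuous_coe.comp ((hT.prodMk hY).subtype_mk _)

theorem Pt_closed : IsClosed {z : ℂ × ℂ | z.2 ^ 2 = D.P z.1} :=
  isClosed_eq (continuous_snd.pow 2) (P_diff.continuous.comp continuous_fst)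

theorem Pt_compact (r : ℝ) : IsCompact {c : D.C | ‖c.1.1‖ ≤ r} := by
  obtain ⟨M, hM⟩ := (isCompact_closedBall (0 : ℂ) r).exists_bound_of_continuousOn
    (P_diff (D := D)).continuous.continuousOn
  refine (Pt_closed.isClosedEmbedding_subtypeVal.isCompact_preimage
    ((isCompact_closedBall (0 : ℂ) r).prod (isCompact_closedBall (0 : ℂ) (M + 1)))).of_isClosed_subset
    (isClosed_le (continuous_fst.comp continuous_subtype_val).norm continuous_const) fun c hc => ?_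
  have h1 : c.1.1 ∈ closedBall (0 : ℂ) r := mem_closedBall_zero_iff.2 hc
  refine ⟨h1, mem_closedBall_zero_iff.2 ?_⟩
  have h2 := hM _ h1
  rw [← c.2, norm_pow] at h2
  nlinarith [sq_nonneg (‖c.1.2‖ - 1)]

theorem Pt_open (r : ℝ) : IsOpen {z : D.N | z = OnePoint.infty ∨ r < ‖D.tt z‖} := by
  have h : ((↑) ⁻¹' {z : D.N | z = OnePoint.infty ∨ r < ‖D.tt z‖} : Set D.C)ᶜ =
      {c : D.C | ‖c.1.1‖ ≤ r} := by
    ext c
    simp [tt]
  rw [OnePoint.isOpen_iff_of_mem (Or.inl rfl), h]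
  exact ⟨(Pt_compact r).isClosed, Pt_compact r⟩

theorem tt_tendsto : Tendsto (fun z => ‖D.tt z‖) (𝓝[≠] OnePoint.infty) atTop := by
  refine tendsto_atTop.2 fun r => ?_
  filter_upwards [mem_nhdsWithin_of_mem_nhds ((Pt_open r).mem_nhds (Or.inl rfl)),
    self_mem_nhdsWithin] with z h1 h2
  exact (h1.resolve_left h2).le

theorem pt_tendsto {α : Type} {l : Filter α} {T Yl : α → ℂ}
    (hsq : ∀ᶠ x in l, Yl x ^ 2 = D.P (T x)) (hT : Tendsto (fun x => ‖T x‖) l atTop) :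
    Tendsto (fun x => D.pt (T x) (Yl x)) l (𝓝 OnePoint.infty) := by
  refine OnePoint.hasBasis_nhds_infty.tendsto_right_iff.2 fun K hK => ?_
  obtain ⟨r, hr⟩ := hK.2.exists_bound_of_continuousOn (f := fun c : D.C => c.1.1)
    (continuous_fst.comp continuous_subtype_val).continuousOn
  filter_upwards [hsq, hT.eventually_gt_atTop r] with x h1 h2
  exact Or.inl ⟨⟨(T x, Yl x), h1⟩, fun h => (hr _ h).not_gt h2, by rw [pt, dif_pos h1]⟩

theorem isOpen_far (r : ℝ) : IsOpen {z : D.N | z = OnePoint.infty ∨ r < ‖D.tt z‖} := by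
  exact Pt_open r

theorem t2 : T2Space D.N := by
  have : LocallyCompactSpace D.C := Pt_closed.isClosedEmbedding_subtypeVal.locallyCompactSpace
  infer_instance

theorem mem_S {z : D.N} : z ∈ D.S ↔ D.IsE (D.tt z) := by
  have h0 : ∀ t, D.IsE t → (0 : ℂ) ^ 2 = D.P t := fun t ht => by
    rw [P_eq_zero.2 (Or.inl ht)]
    simp
  simp only [S, Finset.mem_insert, Finset.mem_image, Finset.mem_range]
  constructor
  · rintro (rfl | rfl | ⟨j, hj, rfl⟩)
    · exact Or.inl rfl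
    · exact Or.inl (tt_pt (h0 _ (Or.inl rfl)))
    · exact Or.inr ⟨j, hj, tt_pt (h0 _ (Or.inr ⟨j, hj, rfl⟩))⟩
  · intro h
    by_cases hz : z = OnePoint.infty
    · exact Or.inl hz
    have h1 : D.yy z = 0 := by
      have := yy_sq z
      rw [P_eq_zero.2 (Or.inl h)] at this
      exact pow_eq_zero_iff two_ne_zero |>.1 this
    have h2 := pt_tt hz
    rw [h1] at h2
    rcases h with h | ⟨j, hj, h⟩
    · exact Or.inr (Or.inl (by rw [← h2, h]))
    · exact Or.inr (Or.inr ⟨j, hj, by rw [← h2, h]⟩)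

theorem Ok.card_S (hD : D.Ok) : D.S.card = D.q + 2 := by
  classical
  have h0 : ∀ t, D.IsE t → (0 : ℂ) ^ 2 = D.P t := fun t ht => by
    rw [P_eq_zero.2 (Or.inl ht)]
    simp
  have h1 : ∀ j < D.q, (0 : ℂ) ^ 2 = D.P (-D.b j) := fun j hj => h0 _ (Or.inr ⟨j, hj, rfl⟩)
  have h2 := h0 0 (Or.inl rfl)
  rw [S, Finset.card_insert_of_notMem, Finset.card_insert_of_notMem, Finset.card_image_of_injOn,
    Finset.card_range]
  · intro i hi j hj h
    have hi : i < D.q := by simpa using hi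
    have hj : j < D.q := by simpa using hj
    have h3 := congrArg D.tt h
    rw [tt_pt (h1 i hi), tt_pt (h1 j hj), neg_inj, ofReal_inj] at h3
    have a := hD.b_pos i hi
    rcases lt_trichotomy i j with h4 | h4 | h4
    · have := hD.b_gap i j h4 hj
      linarith
    · exact h4
    · have := hD.b_gap j i h4 hi
      linarith
  · simp only [Finset.mem_image, Finset.mem_range, not_exists, not_and]
    intro j hj h
    have h3 := congrArg D.tt h
    rw [tt_pt (h1 j hj), tt_pt h2, neg_eq_zero, ofReal_eq_zero] at h3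
    exact (hD.b_pos j hj).ne' h3
  · simp only [Finset.mem_insert, Finset.mem_image, Finset.mem_range, not_or, not_exists, not_and]
    exact ⟨(pt_ne h2).symm, fun j hj => pt_ne (h1 j hj)⟩

end Dat

end Pool.Agent.MP_92463a_gt

end
end

section

open Set Complex Filter Metric
open scoped Topology ComplexConjugate ContDiff Manifold

noncomputable section

namespace Pool.Agent.MP_92463a_gt

variable {D : Dat} {X : ℂ → ℂ}

theorem Inj_ne (hD : D.Ok) (hX : D.Sol X) {t : ℂ} (ht : 0 ≤ t.im) (hP : D.P t ≠ 0) :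
    X t ≠ 0 := by
  obtain ⟨-, -, h1, h2⟩ := hX.quad hD ht hP
  intro h0
  rw [h0] at h1 h2
  simp only [zero_re, zero_im, lt_self_iff_false, imp_false, not_or, not_lt] at h1 h2
  have e : t = (t.re : ℂ) := Complex.ext rfl (by rw [ofReal_im]; exact le_antisymm h1.1 ht)
  refine hP (Complex.ext (le_antisymm h1.2 h2.2) ?_)
  rw [e]
  exact Dat.P_im _

theorem Inj_sgn {t y : ℂ} (hy : y ^ 2 = D.P t) (hP : D.P t ≠ 0) :
    y / D.Y t = 1 ∨ y / D.Y t = -1 := by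
  rw [← sq_eq_one_iff, div_pow, hy, Dat.Y_sq hP, div_self hP]

theorem Inj_abs (hD : D.Ok) (hX : D.Sol X) {t y : ℂ} (ht : 0 ≤ t.im) (hy : y ^ 2 = D.P t)
    (hP : D.P t ≠ 0) :
    |(y / D.Y t * X t).re| = -(X t).re ∧ |(y / D.Y t * X t).im| = (X t).im := by
  obtain ⟨h1, h2, -, -⟩ := hX.quad hD ht hP
  rcases Inj_sgn hy hP with h | h <;> rw [h]
  · rw [one_mul]
    exact ⟨abs_of_nonpos h1, abs_of_nonneg h2⟩
  · rw [neg_one_mul, neg_re, neg_im, abs_neg, abs_neg]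
    exact ⟨abs_of_nonpos h1, abs_of_nonneg h2⟩

theorem Inj_up (hD : D.Ok) (hX : D.Sol X) {t₁ y₁ t₂ y₂ : ℂ} (h₁ : 0 ≤ t₁.im) (h₂ : 0 ≤ t₂.im)
    (hy₁ : y₁ ^ 2 = D.P t₁) (hy₂ : y₂ ^ 2 = D.P t₂) (hP₁ : D.P t₁ ≠ 0) (hP₂ : D.P t₂ ≠ 0)
    (hn : ‖t₁‖ = ‖t₂‖) (hre : |(y₁ / D.Y t₁ * X t₁).re| = |(y₂ / D.Y t₂ * X t₂).re|)
    (him : |(y₁ / D.Y t₁ * X t₁).im| = |(y₂ / D.Y t₂ * X t₂).im|) : t₁ = t₂ := by
  obtain ⟨a₁, b₁⟩ := Inj_abs hD hX h₁ hy₁ hP₁
  obtain ⟨a₂, b₂⟩ := Inj_abs hD hX h₂ hy₂ hP₂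
  refine hX.toPre.arc_inj hD ⟨h₁, fun h => hP₁ (Dat.P_eq_zero.2 (Or.inl h))⟩
    ⟨h₂, fun h => hP₂ (Dat.P_eq_zero.2 (Or.inl h))⟩ hn (Complex.ext ?_ ?_) <;> linarith

theorem Inj_same (hD : D.Ok) (hX : D.Sol X) {t₁ y₁ t₂ y₂ : ℂ} (h₁ : 0 ≤ t₁.im) (h₂ : 0 ≤ t₂.im)
    (hy₁ : y₁ ^ 2 = D.P t₁) (hy₂ : y₂ ^ 2 = D.P t₂) (hP₁ : D.P t₁ ≠ 0) (hP₂ : D.P t₂ ≠ 0)
    (hn : ‖t₁‖ = ‖t₂‖) (he : y₁ / D.Y t₁ * X t₁ = y₂ / D.Y t₂ * X t₂) : t₁ = t₂ ∧ y₁ = y₂ := by
  have h := Inj_up hD hX h₁ h₂ hy₁ hy₂ hP₁ hP₂ hn (by rw [he]) (by rw [he])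
  subst h
  exact ⟨rfl, (div_left_inj' (Dat.Y_ne _)).1 (mul_right_cancel₀ (Inj_ne hD hX h₁ hP₁) he)⟩

theorem Inj_opp (hD : D.Ok) (hX : D.Sol X) {t₁ y₁ t₂ y₂ : ℂ} (h₁ : 0 ≤ t₁.im) (h₂ : 0 < t₂.im)
    (hy₁ : y₁ ^ 2 = D.P t₁) (hy₂ : y₂ ^ 2 = D.P t₂) (hP₁ : D.P t₁ ≠ 0) (hP₂ : D.P t₂ ≠ 0)
    (hn : ‖t₁‖ = ‖t₂‖) (he : y₁ / D.Y t₁ * X t₁ = conj (y₂ / D.Y t₂ * X t₂)) : False := by
  have h := Inj_up hD hX h₁ h₂.le hy₁ hy₂ hP₁ hP₂ hn (by rw [he, conj_re])
    (by rw [he, conj_im, abs_neg])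
  subst h
  obtain ⟨-, -, h1, h2⟩ := hX.quad hD h₁ hP₁
  have h3 := h1 (Or.inl h₂)
  have h4 := h2 (Or.inl h₂)
  have hre := congrArg re he
  have him := congrArg im he
  rcases Inj_sgn hy₁ hP₁ with e₁ | e₁ <;> rcases Inj_sgn hy₂ hP₁ with e₂ | e₂ <;>
    rw [e₁, e₂] at hre him <;>
    simp only [one_mul, neg_one_mul, neg_re, neg_im, conj_re, conj_im] at hre him <;> linarith

theorem Inj_conj {t y : ℂ} (hy : y ^ 2 = D.P t) : conj y ^ 2 = D.P (conj t) := by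
  rw [Dat.P_conj, ← hy, map_pow]

theorem Inj_Pconj {t : ℂ} (hP : D.P t ≠ 0) : D.P (conj t) ≠ 0 := by
  rw [Dat.P_conj]
  simpa using hP

theorem Inj_zero (hD : D.Ok) (hX : D.Sol X) {t y : ℂ} (hy : y ^ 2 = D.P t) :
    D.Xg X t y = 0 ↔ D.P t = 0 := by
  constructor
  · intro h
    by_contra hP
    have hy0 : y ≠ 0 := fun h0 => hP (by rw [← hy, h0]; simp)
    unfold Dat.Xg at h
    split_ifs at h with ht
    · exact mul_ne_zero (div_ne_zero hy0 (Dat.Y_ne _)) (Inj_ne hD hX ht hP) h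
    · rw [map_eq_zero] at h
      exact mul_ne_zero (div_ne_zero (by simpa using hy0) (Dat.Y_ne _))
        (Inj_ne hD hX (by rw [conj_im]; linarith) (Inj_Pconj hP)) h
  · intro h
    rw [h, sq_eq_zero_iff] at hy
    simp [Dat.Xg, hy]

theorem Inj_core (hD : D.Ok) (hX : D.Sol X) {t₁ y₁ t₂ y₂ : ℂ}
    (hy₁ : y₁ ^ 2 = D.P t₁) (hy₂ : y₂ ^ 2 = D.P t₂) (hE₁ : ¬ D.IsE t₁) (hE₂ : ¬ D.IsE t₂)
    (hn : ‖t₁‖ = ‖t₂‖) (he : D.Xg X t₁ y₁ = D.Xg X t₂ y₂) : t₁ = t₂ ∧ y₁ = y₂ := by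
  have hiff : D.P t₁ = 0 ↔ D.P t₂ = 0 := by
    rw [← Inj_zero hD hX hy₁, ← Inj_zero hD hX hy₂, he]
  by_cases hP₁ : D.P t₁ = 0
  · have hP₂ := hiff.1 hP₁
    obtain ⟨i, hi, e₁⟩ := (Dat.P_eq_zero.1 hP₁).resolve_left hE₁
    obtain ⟨j, hj, e₂⟩ := (Dat.P_eq_zero.1 hP₂).resolve_left hE₂
    rw [hP₁, sq_eq_zero_iff] at hy₁
    rw [hP₂, sq_eq_zero_iff] at hy₂
    refine ⟨?_, hy₁.trans hy₂.symm⟩
    rw [e₁, e₂, norm_real, norm_real, Real.norm_of_nonneg (hD.a_pos i hi).le,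
      Real.norm_of_nonneg (hD.a_pos j hj).le] at hn
    rw [e₁, e₂, hn]
  have hP₂ : D.P t₂ ≠ 0 := fun h => hP₁ (hiff.2 h)
  unfold Dat.Xg at he
  split_ifs at he with h₁ h₂ h₂
  · exact Inj_same hD hX h₁ h₂ hy₁ hy₂ hP₁ hP₂ hn he
  · exact (Inj_opp hD hX h₁ (by rw [conj_im]; linarith) hy₁ (Inj_conj hy₂) hP₁ (Inj_Pconj hP₂)
      (by rw [hn, norm_conj]) he).elim
  · exact (Inj_opp hD hX h₂ (by rw [conj_im]; linarith) hy₂ (Inj_conj hy₁) hP₂ (Inj_Pconj hP₁)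
      (by rw [← hn, norm_conj]) he.symm).elim
  · have h := Inj_same hD hX (t₁ := conj t₁) (t₂ := conj t₂) (by rw [conj_im]; linarith)
      (by rw [conj_im]; linarith) (Inj_conj hy₁) (Inj_conj hy₂) (Inj_Pconj hP₁) (Inj_Pconj hP₂)
      (by rw [norm_conj, norm_conj, hn]) ((starRingEnd ℂ).injective he)
    exact ⟨(starRingEnd ℂ).injective h.1, (starRingEnd ℂ).injective h.2⟩

theorem Dat.Sol.inj {D : Dat} {X : ℂ → ℂ} (hD : D.Ok) (hX : D.Sol X) :
    Function.Injective (fun z : {z // z ∉ D.S} => D.ff X z) := by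
  rintro ⟨z₁, hz₁⟩ ⟨z₂, hz₂⟩ he
  rw [Dat.mem_S] at hz₁ hz₂
  have n₁ : z₁ ≠ OnePoint.infty := fun h => hz₁ (Or.inl (by rw [h]; rfl))
  have n₂ : z₂ ≠ OnePoint.infty := fun h => hz₂ (Or.inl (by rw [h]; rfl))
  have e0 : (D.Xg X (D.tt z₁) (D.yy z₁)).re = (D.Xg X (D.tt z₂) (D.yy z₂)).re :=
    congrArg (fun v : E3 => v 0) he
  have e1 : (D.Xg X (D.tt z₁) (D.yy z₁)).im = (D.Xg X (D.tt z₂) (D.yy z₂)).im :=
    congrArg (fun v : E3 => v 1) he
  have e2 : 2 * Real.log ‖D.tt z₁‖ = 2 * Real.log ‖D.tt z₂‖ :=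
    congrArg (fun v : E3 => v 2) he
  have hn : ‖D.tt z₁‖ = ‖D.tt z₂‖ :=
    Real.log_injOn_pos (norm_pos_iff.2 fun h => hz₁ (Or.inl h))
      (norm_pos_iff.2 fun h => hz₂ (Or.inl h)) (by linarith)
  obtain ⟨h1, h2⟩ := Inj_core hD hX (Dat.yy_sq z₁) (Dat.yy_sq z₂) hz₁ hz₂ hn (Complex.ext e0 e1)
  apply Subtype.ext
  change z₁ = z₂
  rw [← Dat.pt_tt n₁, ← Dat.pt_tt n₂, h1, h2]

end Pool.Agent.MP_92463a_gt

end
end

section

open Set Complex Filter Metric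
open scoped Topology ComplexConjugate ContDiff Manifold

noncomputable section

namespace Pool.Agent.MP_92463a_gt

theorem Proper_sq (z : ℂ) (h : ℝ) : ‖mk3 z h‖ ^ 2 = ‖z‖ ^ 2 + h ^ 2 := by
  rw [EuclideanSpace.real_norm_sq_eq, Fin.sum_univ_three, Complex.sq_norm, normSq_apply]
  simp only [mk3, PiLp.toLp_apply, Matrix.cons_val_zero, Matrix.cons_val_one, Matrix.cons_val]
  ring

theorem Proper_le1 (z : ℂ) (h : ℝ) : ‖z‖ ≤ ‖mk3 z h‖ :=
  (abs_le_of_sq_le_sq' (by rw [Proper_sq]; nlinarith [sq_nonneg h]) (norm_nonneg _)).2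

theorem Proper_le2 (z : ℂ) (h : ℝ) : h ≤ ‖mk3 z h‖ :=
  (abs_le_of_sq_le_sq' (by rw [Proper_sq]; nlinarith [sq_nonneg ‖z‖]) (norm_nonneg _)).2

theorem Proper_mk3 : Continuous fun p : ℂ × ℝ => mk3 p.1 p.2 := by
  unfold mk3
  fun_prop

theorem Proper_conj {D : Dat} {t : ℂ} (h : D.IsE t) : conj t = t := by
  rcases h with rfl | ⟨j, -, rfl⟩ <;> simp

theorem Proper_ne {D : Dat} {z : D.N} (hz : z ∉ D.S) : z ≠ OnePoint.infty := by
  rintro rfl
  exact hz (Dat.mem_S.2 (Or.inl rfl))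

theorem Proper_cont {D : Dat} {X : ℂ → ℂ} (hD : D.Ok) (hX : D.Sol X) :
    ContinuousOn (D.ff X) {z | z ∉ D.S} := by
  have ht : ContinuousOn D.tt {z | z ∉ D.S} := Dat.tt_cont.mono fun z hz => Proper_ne hz
  have hy : ContinuousOn D.yy {z | z ∉ D.S} := Dat.yy_cont.mono fun z hz => Proper_ne hz
  have h1 : ContinuousOn (fun z => D.Xg X (D.tt z) (D.yy z)) {z | z ∉ D.S} :=
    (hX.Xg_cont hD).comp (ht.prodMk hy) fun z hz => ⟨Dat.yy_sq z, fun h => hz (Dat.mem_S.2 h)⟩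
  have h2 : ContinuousOn (fun z => 2 * Real.log ‖D.tt z‖) {z | z ∉ D.S} :=
    continuousOn_const.mul (ht.norm.log fun z hz h =>
      hz (Dat.mem_S.2 (Or.inl (norm_eq_zero.1 h))))
  exact Proper_mk3.comp_continuousOn (h1.prodMk h2)

theorem Proper_big {D : Dat} {X : ℂ → ℂ} (hD : D.Ok) (hX : D.Sol X) {z : D.N} (hz : z ∈ D.S) :
    Tendsto (fun w => ‖D.ff X w‖) (𝓝[{w | w ∉ D.S}] z) atTop := by
  by_cases h : z = OnePoint.infty
  · subst h
    have h1 : Tendsto (fun w => 2 * Real.log ‖D.tt w‖) (𝓝[{w | w ∉ D.S}] OnePoint.infty) atTop :=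
      ((Real.tendsto_log_atTop.comp Dat.tt_tendsto).const_mul_atTop two_pos).mono_left
        (nhdsWithin_mono _ fun w hw => Proper_ne hw)
    exact tendsto_atTop_mono (fun w => Proper_le2 _ _) h1
  · have hE := Dat.mem_S.1 hz
    have ht : Tendsto D.tt (𝓝[{w | w ∉ D.S}] z) (𝓝 (D.tt z)) :=
      (Dat.tt_cont z h).mono fun w hw => Proper_ne hw
    have h1 : Tendsto (fun w => if 0 ≤ (D.tt w).im then D.tt w else conj (D.tt w))
        (𝓝[{w | w ∉ D.S}] z) (𝓝[D.Q] (D.tt z)) := by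
      refine tendsto_nhdsWithin_iff.2 ⟨?_, ?_⟩
      · refine ht.if' ?_
        have := (continuous_conj.tendsto _).comp ht
        rwa [Proper_conj hE] at this
      · filter_upwards [self_mem_nhdsWithin] with w hw
        have hw' : ¬ D.IsE (D.tt w) := fun h => hw (Dat.mem_S.2 h)
        split_ifs with hi
        · exact ⟨hi, hw'⟩
        · refine ⟨by rw [conj_im]; linarith, fun h => hw' ?_⟩
          have := Proper_conj h
          rw [conj_conj] at this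
          rwa [this]
    refine tendsto_atTop_mono' _ ?_ ((hX.end_big hD hE).comp h1)
    filter_upwards [self_mem_nhdsWithin] with w hw
    have hw' : ¬ D.IsE (D.tt w) := fun h => hw (Dat.mem_S.2 h)
    rw [Function.comp, ← hX.Xg_norm hD (Dat.yy_sq w) hw']
    exact Proper_le1 _ _

theorem Dat.Sol.proper {D : Dat} {X : ℂ → ℂ} (hD : D.Ok) (hX : D.Sol X) :
    IsProperMap (fun z : {z // z ∉ D.S} => D.ff X z) := by
  have hc := Proper_cont hD hX
  refine isProperMap_iff_isCompact_preimage.2 ⟨hc.restrict, fun K hK => ?_⟩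
  rw [Subtype.isCompact_iff]
  refine IsClosed.isCompact (isClosed_of_closure_subset fun z hz => ?_)
  have hB : ∀ w ∈ Subtype.val '' ((fun z : {z // z ∉ D.S} => D.ff X z) ⁻¹' K),
      w ∉ D.S ∧ D.ff X w ∈ K := by
    rintro _ ⟨w, hw, rfl⟩
    exact ⟨w.2, hw⟩
  haveI := mem_closure_iff_nhdsWithin_neBot.1 hz
  have hle := nhdsWithin_mono z (show _ ⊆ {w | w ∉ D.S} from fun w hw => (hB w hw).1)
  have hev : ∀ᶠ w in 𝓝[Subtype.val '' ((fun z : {z // z ∉ D.S} => D.ff X z) ⁻¹' K)] z,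
      D.ff X w ∈ K := by
    filter_upwards [self_mem_nhdsWithin] with w hw using (hB w hw).2
  by_cases h : z ∈ D.S
  · obtain ⟨r, hr⟩ := hK.isBounded.exists_norm_le
    have h1 := ((Proper_big hD hX h).mono_left hle).eventually (eventually_gt_atTop r)
    obtain ⟨w, a, b⟩ := (h1.and hev).exists
    exact absurd (hr _ b) (not_le.2 a)
  · exact ⟨⟨z, h⟩, hK.isClosed.mem_of_tendsto ((hc z h).tendsto.mono_left hle) hev, rfl⟩

end Pool.Agent.MP_92463a_gt

end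
end

section

open Set Complex Filter Metric
open scoped Topology ComplexConjugate ContDiff Manifold

noncomputable section

namespace Pool.Agent.MP_92463a_gt

open scoped RealInnerProductSpace

/-- the real linear map behind the Weierstrass representation -/
def Min1lam : (ℂ × ℂ × ℂ) →L[ℝ] E3 := LinearMap.toContinuousLinearMap
  { toFun t := mk3 (t.1 - conj t.2.1) (2 * t.2.2.re)
    map_add' s t := by
      ext i
      fin_cases i <;> simp [mk3] <;> ring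
    map_smul' c t := by
      ext i
      fin_cases i <;> simp [mk3] <;> ring }

theorem Min1_inner {a b c : ℂ} (h : a * b = c ^ 2) :
    ⟪Min1lam ((1 : ℂ) • (a, b, c)), Min1lam ((1 : ℂ) • (a, b, c))⟫ =
      normSq a + normSq b + 2 * normSq c ∧
    ⟪Min1lam (I • (a, b, c)), Min1lam (I • (a, b, c))⟫ = normSq a + normSq b + 2 * normSq c ∧
    ⟪Min1lam ((1 : ℂ) • (a, b, c)), Min1lam (I • (a, b, c))⟫ = 0 := by
  have h1 := congrArg re h
  have h2 := congrArg im h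
  simp only [sq, mul_re, mul_im] at h1 h2
  simp only [PiLp.inner_apply, Fin.sum_univ_three]
  simp [Min1lam, mk3, normSq_apply, mul_pow]
  refine ⟨?_, ?_, ?_⟩ <;> linarith

theorem Min1_fderiv {G : ℂ → ℂ × ℂ × ℂ} {g : ℂ × ℂ × ℂ} {z : ℂ} (h : HasDerivAt G g z) (v : ℂ) :
    fderiv ℝ (fun w => Min1lam (G w)) z v = Min1lam (v • g) :=
  DFunLike.congr_fun (Min1lam.hasFDerivAt.comp z (h.hasFDerivAt.restrictScalars ℝ)).fderiv v

theorem minimal_of_loc {N : Type} [TopologicalSpace N] [ChartedSpace ℂ N] {f : N → E3} {p : N}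
    {Φ₁ Φ₂ Φ₃ φ₁ φ₂ φ₃ : ℂ → ℂ}
    (hd : ∀ᶠ w in 𝓝 (chartAt ℂ p p), HasDerivAt Φ₁ (φ₁ w) w ∧ HasDerivAt Φ₂ (φ₂ w) w ∧
      HasDerivAt Φ₃ (φ₃ w) w ∧ φ₁ w * φ₂ w = φ₃ w ^ 2 ∧
      loc f p w = mk3 (Φ₁ w - conj (Φ₂ w)) (2 * (Φ₃ w).re))
    (hne : φ₁ (chartAt ℂ p p) ≠ 0 ∨ φ₂ (chartAt ℂ p p) ≠ 0) : IsMinimalAt f p := by
  have hG : ∀ᶠ w in 𝓝 (chartAt ℂ p p),
      HasDerivAt (fun w => (Φ₁ w, Φ₂ w, Φ₃ w)) (φ₁ w, φ₂ w, φ₃ w) w :=
    hd.mono fun w h => h.1.prodMk (h.2.1.prodMk h.2.2.1)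
  have he : loc f p =ᶠ[𝓝 (chartAt ℂ p p)] fun w => Min1lam (Φ₁ w, Φ₂ w, Φ₃ w) :=
    hd.mono fun w h => h.2.2.2.2
  have ha := analyticAt_iff_eventually_differentiableAt.2 (hG.mono fun w h => h.differentiableAt)
  have hg := (ha.deriv.congr (hG.mono fun w h => h.deriv)).differentiableAt.hasDerivAt
  have e1 : ∀ v, (fun z => fderiv ℝ (loc f p) z v) =ᶠ[𝓝 (chartAt ℂ p p)]
      fun w => Min1lam (v • (φ₁ w, φ₂ w, φ₃ w)) := fun v => by
    filter_upwards [hG, he.fderiv (𝕜 := ℝ)] with w h1 h2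
    rw [h2, Min1_fderiv h1]
  have e2 : d2 f p 1 1 + d2 f p I I = 0 := by
    simp only [d2, (e1 _).fderiv_eq]
    rw [Min1_fderiv (hg.fun_const_smul _), Min1_fderiv (hg.fun_const_smul _), ← map_add, smul_smul,
      smul_smul, I_mul_I, ← add_smul, mul_one, add_neg_cancel, zero_smul, map_zero]
  obtain ⟨h0, h1, h2⟩ := Min1_inner hd.self_of_nhds.2.2.2.1
  rw [← (e1 1).eq_of_nhds] at h0 h2
  rw [← (e1 I).eq_of_nhds] at h1 h2
  have hE : 0 < normSq (φ₁ (chartAt ℂ p p)) + normSq (φ₂ (chartAt ℂ p p)) +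
      2 * normSq (φ₃ (chartAt ℂ p p)) := by
    have := normSq_nonneg (φ₁ (chartAt ℂ p p))
    have := normSq_nonneg (φ₂ (chartAt ℂ p p))
    have := normSq_nonneg (φ₃ (chartAt ℂ p p))
    rcases hne with h | h <;> linarith [normSq_pos.2 h]
  refine ⟨(Min1lam.contDiff.contDiffAt.comp _
    (ha.contDiffAt.restrict_scalars ℝ)).congr_of_eventuallyEq he, ?_, fun ν _ _ => ?_⟩
  · refine linearIndependent_of_ne_zero_of_inner_eq_zero (fun i hi => ?_) fun i j hij => ?_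
    · fin_cases i
      · exact hE.ne' (h0.symm.trans (inner_self_eq_zero.2 hi))
      · exact hE.ne' (h1.symm.trans (inner_self_eq_zero.2 hi))
    · fin_cases i <;> fin_cases j
      · exact absurd rfl hij
      · exact h2
      · exact (real_inner_comm _ _).trans h2
      · exact absurd rfl hij
  · unfold d1
    rw [h0, h1, h2, mul_zero, sub_zero, ← add_mul, ← inner_add_left, e2, inner_zero_left, zero_mul]

end Pool.Agent.MP_92463a_gt

end
end

section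

open Set Complex Filter Metric
open scoped Topology ComplexConjugate ContDiff Manifold

noncomputable section

namespace Pool.Agent.MP_92463a_gt

theorem Min2_log {T T' : ℂ → ℂ} (hT : ∀ᶠ w in 𝓝 (0 : ℂ), HasDerivAt T (T' w) w) (h0 : T 0 ≠ 0) :
    ∃ Φ : ℂ → ℂ, ∀ᶠ w in 𝓝 (0 : ℂ),
      HasDerivAt Φ (T' w / T w) w ∧ (Φ w).re = Real.log ‖T w‖ := by
  refine ⟨fun w => log (T w / T 0) + (Real.log ‖T 0‖ : ℝ), ?_⟩
  have hc : ContinuousAt (fun w => T w / T 0) 0 := hT.self_of_nhds.continuousAt.div_const _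
  have hs : ∀ᶠ w in 𝓝 (0 : ℂ), T w / T 0 ∈ slitPlane :=
    hc.eventually (isOpen_slitPlane.mem_nhds (by simp only [div_self h0]; exact one_mem_slitPlane))
  filter_upwards [hT, hs] with w h1 h2
  have h3 : T w ≠ 0 := fun h => slitPlane_ne_zero h2 (by rw [h, zero_div])
  constructor
  · have := ((h1.div_const (T 0)).clog h2).add_const ((Real.log ‖T 0‖ : ℝ) : ℂ)
    have e : T' w / T w = T' w / T 0 / (T w / T 0) := by field_simp
    rw [e]
    exact this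
  · rw [add_re, log_re, ofReal_re, norm_div,
      Real.log_div (norm_ne_zero_iff.2 h3) (norm_ne_zero_iff.2 h0), sub_add_cancel]

theorem Dat.Sol.minimal {D : Dat} {X : ℂ → ℂ} (hD : D.Ok) (hX : D.Sol X) (A : D.Atl) :
    letI := A.charted
    ∀ z ∉ D.S, IsMinimalAt (D.ff X) z := by
  letI := A.charted
  intro z hz
  have hc : chartAt ℂ z z = 0 := A.ctr z
  have hz0 : (A.ch z).symm 0 = z := by
    rw [← A.ctr z]
    exact (A.ch z).left_inv (A.mem z)
  have hl : ∀ w, loc (D.ff X) z w = D.ff X ((A.ch z).symm w) := fun _ => rfl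
  rcases A.kind z with ⟨t₀, h, H, he⟩ | ⟨x₀, h, H, he⟩ | ⟨h, H, he, -⟩
  · obtain ⟨Φ₁, Φ₂, hΦ⟩ := hX.lf1 hD H
    have hf := (H.form hD).2.2
    have hb : ∀ᶠ w in 𝓝 (0 : ℂ), w ∈ ball (0 : ℂ) (A.δ z) := ball_mem_nhds _ H.pos
    have h0 : (0 : ℂ) ∈ ball (0 : ℂ) (A.δ z) := mem_ball_self H.pos
    obtain ⟨Φ₃, h3⟩ := Min2_log (T := fun w => t₀ + w) (T' := fun _ => 1)
      (Eventually.of_forall fun w => (hasDerivAt_id w).const_add t₀) (hf 0 h0).2.1
    refine minimal_of_loc (Φ₁ := Φ₁) (Φ₂ := Φ₂) (Φ₃ := Φ₃)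
      (φ₁ := fun w => h w * D.R (t₀ + w) / (t₀ + w))
      (φ₂ := fun w => (h w * D.R (t₀ + w) * (t₀ + w))⁻¹) (φ₃ := fun w => 1 / (t₀ + w)) ?_ ?_
    · rw [hc]
      filter_upwards [hb, h3] with w hw h4
      refine ⟨(hΦ w hw).1, (hΦ w hw).2.1, h4.1, ?_, ?_⟩
      · have a1 := H.ne w hw
        have a2 := (hf w hw).2.1
        have a3 := (hf w hw).2.2
        field_simp
      · rw [hl, he w hw, Dat.ff, Dat.tt_pt (H.sq w hw), Dat.yy_pt (H.sq w hw), (hΦ w hw).2.2, h4.2]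
    · rw [hc]
      exact Or.inl (div_ne_zero (mul_ne_zero (H.ne 0 h0) (hf 0 h0).2.2) (hf 0 h0).2.1)
  · have hb : ∀ᶠ w in 𝓝 (0 : ℂ), w ∈ ball (0 : ℂ) (A.δ z) := ball_mem_nhds _ H.pos
    have h0 : (0 : ℂ) ∈ ball (0 : ℂ) (A.δ z) := mem_ball_self H.pos
    have ht : D.tt z = x₀ := by
      rw [← hz0, he 0 h0, Dat.tt_pt (H.on h0).1]
      simp
    have ha : D.IsA x₀ := (Dat.P_eq_zero.1 H.br).resolve_left fun hE =>
      hz (Dat.mem_S.2 (ht ▸ hE))
    obtain ⟨Φ₁, Φ₂, φ₁, φ₂, hne, hΦ⟩ := hX.lfA hD H ha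
    obtain ⟨Φ₃, h3⟩ := Min2_log (T := fun w => x₀ + w ^ 2) (T' := fun w => 2 * w)
      (Eventually.of_forall fun w => by
        simpa using (hasDerivAt_pow 2 w).const_add x₀) (hΦ 0 h0).2.2.1
    refine minimal_of_loc (Φ₁ := Φ₁) (Φ₂ := Φ₂) (Φ₃ := Φ₃) (φ₁ := φ₁) (φ₂ := φ₂)
      (φ₃ := fun w => 2 * w / (x₀ + w ^ 2)) ?_ ?_
    · rw [hc]
      filter_upwards [hb, h3] with w hw h4
      refine ⟨(hΦ w hw).1, (hΦ w hw).2.1, h4.1, (hΦ w hw).2.2.2.1, ?_⟩
      rw [hl, he w hw, Dat.ff, Dat.tt_pt (H.on hw).1, Dat.yy_pt (H.on hw).1,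
        (hΦ w hw).2.2.2.2, h4.2]
    · rw [hc]
      exact hne
  · refine absurd (Dat.mem_S.2 ?_) hz
    rw [← hz0, he]
    exact Or.inl rfl

end Pool.Agent.MP_92463a_gt

end
end

section

open Set Complex Filter Metric
open scoped Topology ComplexConjugate ContDiff Manifold

noncomputable section

namespace Pool.Agent.MP_92463a_gt

namespace Dat

variable {D : Dat}

/-- the coordinates `t`, `y` are holomorphic in every chart, away from infinity -/
theorem Atl.hol (A : D.Atl) (z : D.N) {w : ℂ} (hw : w ∈ ball (0 : ℂ) (A.δ z))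
    (hne : (A.ch z).symm w ≠ OnePoint.infty) :
    AnalyticAt ℂ (fun v => D.tt ((A.ch z).symm v)) w ∧
      AnalyticAt ℂ (fun v => D.yy ((A.ch z).symm v)) w := by
  have hb : ∀ᶠ v in 𝓝 w, v ∈ ball (0 : ℂ) (A.δ z) := isOpen_ball.mem_nhds hw
  rcases A.kind z with ⟨t₀, h, H, he⟩ | ⟨x₀, h, H, he⟩ | ⟨h, H, h0, he⟩
  · have h1 : AnalyticAt ℂ h w := H.hol.analyticAt hb
    refine ⟨AnalyticAt.congr (f := fun v => t₀ + v) (by fun_prop) ?_, h1.congr ?_⟩
    · filter_upwards [hb] with v hv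
      rw [he v hv, tt_pt (H.sq v hv)]
    · filter_upwards [hb] with v hv
      rw [he v hv, yy_pt (H.sq v hv)]
  · have h1 : AnalyticAt ℂ (fun v => h (v ^ 2)) w :=
      (H.hol.analyticAt (isOpen_ball.mem_nhds (sq_mem_ball hw))).comp (f := fun v : ℂ => v ^ 2)
        (by fun_prop)
    refine ⟨AnalyticAt.congr (f := fun v => x₀ + v ^ 2) (by fun_prop) ?_,
      AnalyticAt.congr (f := fun v => v * h (v ^ 2)) (analyticAt_id.mul h1) ?_⟩
    · filter_upwards [hb] with v hv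
      rw [he v hv, tt_pt (H.on hv).1]
    · filter_upwards [hb] with v hv
      rw [he v hv, yy_pt (H.on hv).1]
  · have hw0 : w ≠ 0 := fun h => hne (by rw [h, h0])
    have h1 : AnalyticAt ℂ (fun v => h (v ^ 2)) w :=
      (H.hol.analyticAt (isOpen_ball.mem_nhds (sq_mem_ball hw))).comp (f := fun v : ℂ => v ^ 2)
        (by fun_prop)
    refine ⟨AnalyticAt.congr (f := fun v => (v ^ 2)⁻¹)
        ((analyticAt_id.pow 2).inv (pow_ne_zero 2 hw0)) ?_,
      AnalyticAt.congr (f := fun v => h (v ^ 2) / v ^ (D.p + D.q + 1))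
        (h1.div (analyticAt_id.pow _) (pow_ne_zero _ hw0)) ?_⟩
    · filter_upwards [hb, isOpen_ne.mem_nhds hw0] with v hv hv0
      rw [he v hv hv0, tt_pt (H.on hv hv0).1]
    · filter_upwards [hb, isOpen_ne.mem_nhds hw0] with v hv hv0
      rw [he v hv hv0, yy_pt (H.on hv hv0).1]

/-- a point with `y = 0` (branch point or infinity) lies only in its own chart, at the centre -/
theorem Atl.center (A : D.Atl) (z : D.N) {w : ℂ} (hw : w ∈ ball (0 : ℂ) (A.δ z))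
    (h0 : D.yy ((A.ch z).symm w) = 0) : w = 0 := by
  by_contra hw0
  rcases A.kind z with ⟨t₀, h, H, he⟩ | ⟨x₀, h, H, he⟩ | ⟨h, H, -, he⟩
  · rw [he w hw, yy_pt (H.sq w hw)] at h0
    exact H.ne w hw h0
  · rw [he w hw, yy_pt (H.on hw).1] at h0
    exact mul_ne_zero hw0 (H.ne _ (sq_mem_ball hw)) h0
  · rw [he w hw hw0, yy_pt (H.on hw hw0).1] at h0
    exact div_ne_zero (H.ne _ (sq_mem_ball hw)) (pow_ne_zero _ hw0) h0

theorem Mfd_infty (A : D.Atl) (z : D.N) (h : OnePoint.infty ∈ (A.ch z).source) :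
    z = OnePoint.infty := by
  have h1 := A.center z (A.tgt z ▸ (A.ch z).map_source h) (by rw [(A.ch z).left_inv h]; rfl)
  exact (A.ch z).injOn (A.mem z) h (by rw [h1, A.ctr])

theorem Mfd_fwd (hD : D.Ok) (A : D.Atl) (z : D.N) : ∃ F : ℂ × ℂ → ℂ,
    (∀ u ∈ (A.ch z).source, u ≠ OnePoint.infty → A.ch z u = F (D.tt u, D.yy u)) ∧
    ∀ u ∈ (A.ch z).source, u ≠ OnePoint.infty → AnalyticAt ℂ F (D.tt u, D.yy u) := by
  suffices h : ∃ F : ℂ × ℂ → ℂ, ∀ w ∈ ball (0 : ℂ) (A.δ z), (A.ch z).symm w ≠ OnePoint.infty →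
      w = F (D.tt ((A.ch z).symm w), D.yy ((A.ch z).symm w)) ∧
      AnalyticAt ℂ F (D.tt ((A.ch z).symm w), D.yy ((A.ch z).symm w)) by
    obtain ⟨F, hF⟩ := h
    have h1 : ∀ u ∈ (A.ch z).source, u ≠ OnePoint.infty → A.ch z u = F (D.tt u, D.yy u) ∧
        AnalyticAt ℂ F (D.tt u, D.yy u) := fun u hu hne => by
      have := hF _ (A.tgt z ▸ (A.ch z).map_source hu) (by rwa [(A.ch z).left_inv hu])
      rwa [(A.ch z).left_inv hu] at this
    exact ⟨F, fun u hu hne => (h1 u hu hne).1, fun u hu hne => (h1 u hu hne).2⟩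
  rcases A.kind z with ⟨t₀, h, H, he⟩ | ⟨x₀, h, H, he⟩ | ⟨h, H, h0, he⟩
  · refine ⟨fun p => p.1 - t₀, fun w hw _ => ⟨?_, analyticAt_fst.sub analyticAt_const⟩⟩
    rw [he w hw, tt_pt (H.sq w hw)]
    simp
  · refine ⟨fun p => p.2 / h (p.1 - x₀), fun w hw _ => ?_⟩
    have h1 := H.ne _ (sq_mem_ball hw)
    rw [he w hw, tt_pt (H.on hw).1, yy_pt (H.on hw).1]
    refine ⟨by simp [h1], analyticAt_snd.div ?_ (by simpa using h1)⟩
    refine AnalyticAt.comp (f := fun p : ℂ × ℂ => p.1 - x₀) ?_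
      (analyticAt_fst.sub analyticAt_const)
    simpa using H.hol.analyticAt (isOpen_ball.mem_nhds (sq_mem_ball hw))
  · obtain ⟨m, hm⟩ := hD.par
    refine ⟨fun p => h p.1⁻¹ * p.1 ^ m / p.2, fun w hw hne => ?_⟩
    have hw0 : w ≠ 0 := fun h => hne (by rw [h, h0])
    have h1 := H.ne _ (sq_mem_ball hw)
    rw [he w hw hw0, tt_pt (H.on hw hw0).1, yy_pt (H.on hw hw0).1]
    refine ⟨?_, (AnalyticAt.mul ?_ (analyticAt_fst.pow m)).div analyticAt_snd
      (div_ne_zero h1 (pow_ne_zero _ hw0))⟩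
    · simp only [inv_inv, hm, inv_pow]
      field_simp
      ring
    · refine AnalyticAt.comp (f := fun p : ℂ × ℂ => p.1⁻¹) ?_
        (analyticAt_fst.inv (inv_ne_zero (pow_ne_zero 2 hw0)))
      simpa using H.hol.analyticAt (isOpen_ball.mem_nhds (sq_mem_ball hw))

/-- change of charts -/
theorem Atl.trans (hD : D.Ok) (A : D.Atl) (z z' : D.N) {w : ℂ} (hw : w ∈ ball (0 : ℂ) (A.δ z))
    (hs : (A.ch z).symm w ∈ (A.ch z').source) :
    AnalyticAt ℂ (A.ch z' ∘ (A.ch z).symm) w := by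
  have hw' : w ∈ (A.ch z).target := by rwa [A.tgt]
  by_cases hu : (A.ch z).symm w = OnePoint.infty
  · have h1 := Mfd_infty A z (hu ▸ (A.ch z).map_target hw')
    have h2 := Mfd_infty A z' (hu ▸ hs)
    rw [h2, ← h1]
    exact analyticAt_id.congr (EventuallyEq.symm ((A.ch z).eventually_right_inverse hw'))
  · obtain ⟨F, h1, h2⟩ := Mfd_fwd hD A z'
    obtain ⟨h3, h4⟩ := A.hol z hw hu
    have hc : ContinuousAt (A.ch z).symm w := (A.ch z).continuousAt_symm hw'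
    refine ((h2 _ hs hu).comp (f := fun v => (D.tt ((A.ch z).symm v), D.yy ((A.ch z).symm v)))
      (h3.prod h4)).congr ?_
    filter_upwards [hc ((A.ch z').open_source.mem_nhds hs),
      hc (OnePoint.isClosed_infty.isOpen_compl.mem_nhds hu)] with v hv1 hv2
    exact (h1 _ hv1 hv2).symm

theorem Atl.isManifold (hD : D.Ok) (A : D.Atl) :
    letI := A.charted
    IsManifold 𝓘(ℂ) ω D.N := by
  let := A.charted
  refine isManifold_of_contDiffOn _ _ _ ?_
  rintro _ _ ⟨z, rfl⟩ ⟨z', rfl⟩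
  refine AnalyticOnNhd.contDiffOn_of_completeSpace fun w hw => ?_
  simp only [modelWithCornersSelf_coe, modelWithCornersSelf_coe_symm, preimage_id_eq, id_eq,
    range_id, inter_univ, OpenPartialHomeomorph.trans_source, OpenPartialHomeomorph.symm_source,
    mem_inter_iff, mem_preimage] at hw
  exact A.trans hD z z' (A.tgt z ▸ hw.1) hw.2

end Dat

end Pool.Agent.MP_92463a_gt

end
end

section

open Set Complex Filter Metric
open scoped Topology ComplexConjugate ContDiff Manifold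

noncomputable section

namespace Pool.Agent.MP_92463a_gt

namespace Dat

variable {D : Dat}

/-- `om` is the form `(∑ c k t ^ k) dt / y` -/
def Atl.Rep (A : D.Atl) (c : ℕ → ℂ) (om : D.N → ℂ → ℂ) : Prop :=
  ∀ z, ∀ w ∈ ball (0 : ℂ) (A.δ z), D.yy ((A.ch z).symm w) ≠ 0 →
    om z w = (∑ k ∈ Finset.range ((D.p + D.q) / 2), c k * D.tt ((A.ch z).symm w) ^ k) *
      deriv (fun v => D.tt ((A.ch z).symm v)) w / D.yy ((A.ch z).symm w)

theorem Gen1_symm (A : D.Atl) (z : D.N) : (A.ch z).symm 0 = z := by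
  rw [← A.ctr z, (A.ch z).left_inv (A.mem z)]

theorem Gen1_zero (A : D.Atl) (z : D.N) : (0 : ℂ) ∈ ball (0 : ℂ) (A.δ z) := by
  have := (A.ch z).map_source (A.mem z)
  rwa [A.ctr, A.tgt] at this

theorem Gen1_sq {h : ℂ → ℂ} {δ : ℝ} (H : DifferentiableOn ℂ h (ball 0 (δ ^ 2))) :
    DifferentiableOn ℂ (fun w => h (w ^ 2)) (ball 0 δ) :=
  H.comp (differentiable_pow 2).differentiableOn fun _ hw => sq_mem_ball hw

theorem Gen1_loc (hD : D.Ok) (A : D.Atl) (c : ℕ → ℂ) (z : D.N) :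
    ∃ F : ℂ → ℂ, DifferentiableOn ℂ F (ball 0 (A.δ z)) ∧
      ∀ w ∈ ball (0 : ℂ) (A.δ z), D.yy ((A.ch z).symm w) ≠ 0 →
        F w = (∑ k ∈ Finset.range ((D.p + D.q) / 2), c k * D.tt ((A.ch z).symm w) ^ k) *
          deriv (fun v => D.tt ((A.ch z).symm v)) w / D.yy ((A.ch z).symm w) := by
  obtain ⟨g, hg⟩ := hD.par
  have hg' : (D.p + D.q) / 2 = g := by omega
  rw [hg']
  rcases A.kind z with ⟨t₀, h, H, e⟩ | ⟨x₀, h, H, e⟩ | ⟨h, H, e0, e⟩
  · refine ⟨fun w => (∑ k ∈ Finset.range g, c k * (t₀ + w) ^ k) / h w,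
      DifferentiableOn.div (by fun_prop) H.hol H.ne, fun w hw _ => ?_⟩
    have h1 : (fun v => D.tt ((A.ch z).symm v)) =ᶠ[𝓝 w] fun v => t₀ + v := by
      filter_upwards [isOpen_ball.mem_nhds hw] with v hv
      rw [e v hv, tt_pt (H.sq v hv)]
    rw [h1.deriv_eq, ((hasDerivAt_id' w).const_add t₀).deriv, e w hw, tt_pt (H.sq w hw),
      yy_pt (H.sq w hw), mul_one]
  · refine ⟨fun w => (∑ k ∈ Finset.range g, c k * (x₀ + w ^ 2) ^ k) * 2 / h (w ^ 2),
      DifferentiableOn.div (by fun_prop) (Gen1_sq H.hol) fun w hw => H.ne _ (sq_mem_ball hw),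
      fun w hw h0 => ?_⟩
    have h1 : (fun v => D.tt ((A.ch z).symm v)) =ᶠ[𝓝 w] fun v => x₀ + v ^ 2 := by
      filter_upwards [isOpen_ball.mem_nhds hw] with v hv
      rw [e v hv, tt_pt (H.on hv).1]
    rw [e w hw, yy_pt (H.on hw).1] at h0
    rw [h1.deriv_eq, ((hasDerivAt_pow 2 w).const_add x₀).deriv, e w hw, tt_pt (H.on hw).1,
      yy_pt (H.on hw).1]
    have h2 := left_ne_zero_of_mul h0
    have h3 := right_ne_zero_of_mul h0
    simp only [Nat.cast_ofNat, Nat.add_one_sub_one, pow_one]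
    field_simp
  · refine ⟨fun w => (∑ k ∈ Finset.range g, c k * (w ^ 2) ^ (g - 1 - k)) * (-2) / h (w ^ 2),
      DifferentiableOn.div (by fun_prop) (Gen1_sq H.hol) fun w hw => H.ne _ (sq_mem_ball hw),
      fun w hw h0 => ?_⟩
    have h2 : w ≠ 0 := by
      rintro rfl
      exact h0 (by rw [e0, yy_infty])
    have h1 : (fun v => D.tt ((A.ch z).symm v)) =ᶠ[𝓝 w] fun v => (v ^ 2)⁻¹ := by
      filter_upwards [isOpen_ball.mem_nhds hw, isOpen_ne.mem_nhds h2] with v hv hv'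
      rw [e v hv hv', tt_pt (H.on hv hv').1]
    rw [h1.deriv_eq, ((hasDerivAt_pow 2 w).fun_inv (pow_ne_zero 2 h2)).deriv, e w hw h2,
      tt_pt (H.on hw h2).1, yy_pt (H.on hw h2).1, hg]
    have h3 := H.ne _ (sq_mem_ball hw)
    simp only [Finset.sum_mul, Finset.sum_div]
    refine Finset.sum_congr rfl fun k hk => ?_
    obtain ⟨j, rfl⟩ := Nat.exists_eq_add_of_lt (Finset.mem_range.1 hk)
    rw [show k + j + 1 - 1 - k = j by omega]
    simp only [Nat.cast_ofNat, Nat.add_one_sub_one, pow_one, inv_pow]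
    field_simp
    ring

theorem Atl.exists_form (hD : D.Ok) (A : D.Atl) (c : ℕ → ℂ) :
    letI := A.charted
    ∃ om ∈ holForms D.N, A.Rep c om := by
  let := A.charted
  choose F hF hR using Gen1_loc hD A c
  refine ⟨fun z => (ball 0 (A.δ z)).indicator (F z), ⟨fun x => ?_, fun x w hw => ?_,
    fun x y q hq => ?_⟩, fun z w hw h0 => ?_⟩
  · change DifferentiableOn ℂ _ (A.ch x).target
    rw [A.tgt]
    exact (hF x).congr fun w hw => indicator_of_mem hw _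
  · change w ∉ (A.ch x).target at hw
    rw [A.tgt] at hw
    exact indicator_of_notMem hw _
  · obtain ⟨hx, hy⟩ : q ∈ (A.ch x).source ∧ q ∈ (A.ch y).source := hq
    change (ball 0 (A.δ x)).indicator (F x) (A.ch x q) =
      (ball 0 (A.δ y)).indicator (F y) (A.ch y q) * deriv (A.ch y ∘ (A.ch x).symm) (A.ch x q)
    have bx : A.ch x q ∈ ball (0 : ℂ) (A.δ x) := A.tgt x ▸ (A.ch x).map_source hx
    have b2 : A.ch y q ∈ ball (0 : ℂ) (A.δ y) := A.tgt y ▸ (A.ch y).map_source hy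
    have ex := (A.ch x).left_inv hx
    have ey := (A.ch y).left_inv hy
    rw [indicator_of_mem bx, indicator_of_mem b2]
    by_cases h0 : D.yy q = 0
    · have h1 := A.center x bx (by rw [ex, h0])
      have h2 := A.center y b2 (by rw [ey, h0])
      rw [h1, Gen1_symm] at ex
      rw [h2, Gen1_symm] at ey
      subst ex
      subst ey
      have h3 : (A.ch y ∘ (A.ch y).symm) =ᶠ[𝓝 (A.ch y y)] id :=
        (A.ch y).eventually_right_inverse' hx
      rw [h3.deriv_eq, deriv_id, mul_one]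
    · have hq' : q ≠ OnePoint.infty := by
        rintro rfl
        exact h0 yy_infty
      have h1 : (fun v => D.tt ((A.ch x).symm v)) =ᶠ[𝓝 (A.ch x q)]
          (fun v => D.tt ((A.ch y).symm v)) ∘ (A.ch y ∘ (A.ch x).symm) := by
        have h2 := (A.ch x).continuousAt_symm ((A.ch x).map_source hx)
        rw [ContinuousAt, ex] at h2
        filter_upwards [h2 ((A.ch y).open_source.mem_nhds hy)] with v hv
        simp only [Function.comp_apply]
        rw [(A.ch y).left_inv hv]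
      have h3 := (A.trans hD x y bx (by rwa [ex])).differentiableAt
      have h4 := (A.hol y b2 (by rwa [ey])).1.differentiableAt
      have h5 : (A.ch y ∘ (A.ch x).symm) (A.ch x q) = A.ch y q := by
        rw [Function.comp_apply, ex]
      rw [hR x _ bx (by rwa [ex]), hR y _ b2 (by rwa [ey]), h1.deriv_eq,
        deriv_comp _ (by rwa [h5]) h3, h5, ex, ey]
      ring
  · exact (indicator_of_mem hw _).trans (hR z w hw h0)

end Dat

end Pool.Agent.MP_92463a_gt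

end
end

section

open Set Complex Filter Metric
open scoped Topology ComplexConjugate ContDiff Manifold

noncomputable section

namespace Pool.Agent.MP_92463a_gt

namespace Dat

variable {D : Dat} {δ : ℝ} {h : ℂ → ℂ}

theorem Chart1_open (t₀ : ℂ) (r : ℝ) :
    IsOpen (({OnePoint.infty}ᶜ : Set D.N) ∩ (fun z => D.tt z - t₀) ⁻¹' ball 0 r) := by
  have := t2 (D := D)
  exact (tt_cont.sub continuousOn_const).isOpen_inter_preimage isOpen_compl_singleton isOpen_ball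

theorem Chart1_cont {t₀ : ℂ} {r : ℝ} (hol : DifferentiableOn ℂ h (ball 0 r))
    (ne : ∀ w ∈ ball (0 : ℂ) r, h w ≠ 0) : ContinuousOn (fun z => D.yy z / h (D.tt z - t₀))
      (({OnePoint.infty}ᶜ : Set D.N) ∩ (fun z => D.tt z - t₀) ⁻¹' ball 0 r) :=
  (yy_cont.mono inter_subset_left).div
    (hol.continuousOn.comp ((tt_cont.sub continuousOn_const).mono inter_subset_left)
      fun _ hz => hz.2) fun _ hz => ne _ hz.2

theorem Par1.chart {t₀ : ℂ} (H : D.Par1 t₀ δ h) : ∃ e : OpenPartialHomeomorph D.N ℂ,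
    e.target = ball 0 δ ∧ ∀ w ∈ ball (0 : ℂ) δ, e.symm w = D.pt (t₀ + w) (h w) := by
  have key : ∀ z : D.N, D.tt z - t₀ ∈ ball (0 : ℂ) δ → 0 < (D.yy z / h (D.tt z - t₀)).re →
      D.yy z = h (D.tt z - t₀) := by
    intro z hz hr
    have h1 := H.sq _ hz
    rw [add_sub_cancel, ← yy_sq] at h1
    rcases sq_eq_sq_iff_eq_or_eq_neg.1 h1.symm with h2 | h2
    · exact h2
    · rw [h2, neg_div, div_self (H.ne _ hz)] at hr
      norm_num at hr
  refine ⟨{ toFun := fun z => D.tt z - t₀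
            invFun := fun w => D.pt (t₀ + w) (h w)
            source := (({OnePoint.infty}ᶜ : Set D.N) ∩ (fun z => D.tt z - t₀) ⁻¹' ball 0 δ) ∩
              (fun z => D.yy z / h (D.tt z - t₀)) ⁻¹' {u | 0 < u.re}
            target := ball 0 δ
            map_source' := fun z hz => hz.1.2
            map_target' := fun w hw => ?_
            left_inv' := fun z hz => ?_
            right_inv' := fun w hw => ?_
            open_source := (Chart1_cont H.hol H.ne).isOpen_inter_preimage (Chart1_open t₀ δ)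
              (isOpen_lt continuous_const continuous_re)
            open_target := isOpen_ball
            continuousOn_toFun := (tt_cont.sub continuousOn_const).mono fun z hz => hz.1.1
            continuousOn_invFun := pt_cont (by fun_prop) H.hol.continuousOn H.sq },
    rfl, fun w _ => rfl⟩
  · have h1 := H.sq w hw
    refine ⟨⟨pt_ne h1, ?_⟩, ?_⟩
    · simpa only [mem_preimage, tt_pt h1, add_sub_cancel_left] using hw
    · simp only [mem_preimage, tt_pt h1, yy_pt h1, add_sub_cancel_left, div_self (H.ne w hw),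
        mem_ofPred_eq, one_re, one_pos]
  · rw [add_sub_cancel, ← key z hz.1.2 hz.2]
    exact pt_tt hz.1.1
  · rw [tt_pt (H.sq w hw), add_sub_cancel_left]

theorem Par2.chart {x₀ : ℂ} (H : D.Par2 x₀ δ h) : ∃ e : OpenPartialHomeomorph D.N ℂ,
    e.target = ball 0 δ ∧ ∀ w ∈ ball (0 : ℂ) δ, e.symm w = D.pt (x₀ + w ^ 2) (w * h (w ^ 2)) := by
  have key : ∀ z : D.N, D.tt z - x₀ ∈ ball (0 : ℂ) (δ ^ 2) →
      (D.yy z / h (D.tt z - x₀)) ^ 2 = D.tt z - x₀ := by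
    intro z hz
    have h1 := H.sq _ hz
    rw [add_sub_cancel, ← yy_sq] at h1
    rw [div_pow, ← h1, mul_div_cancel_right₀ _ (pow_ne_zero _ (H.ne _ hz))]
  refine ⟨{ toFun := fun z => D.yy z / h (D.tt z - x₀)
            invFun := fun w => D.pt (x₀ + w ^ 2) (w * h (w ^ 2))
            source := ({OnePoint.infty}ᶜ : Set D.N) ∩ (fun z => D.tt z - x₀) ⁻¹' ball 0 (δ ^ 2)
            target := ball 0 δ
            map_source' := fun z hz => ?_
            map_target' := fun w hw => ?_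
            left_inv' := fun z hz => ?_
            right_inv' := fun w hw => ?_
            open_source := Chart1_open x₀ _
            open_target := isOpen_ball
            continuousOn_toFun := Chart1_cont H.hol H.ne
            continuousOn_invFun := pt_cont (by fun_prop) (continuousOn_id.mul
              (H.hol.continuousOn.comp (by fun_prop) fun w hw => sq_mem_ball hw))
              fun w hw => (H.on hw).1 },
    rfl, fun w _ => rfl⟩
  · have h1 : D.tt z - x₀ ∈ ball (0 : ℂ) (δ ^ 2) := hz.2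
    rw [← key z h1, mem_ball_zero_iff, norm_pow] at h1
    rw [mem_ball_zero_iff]
    exact lt_of_pow_lt_pow_left₀ 2 H.pos.le h1
  · have h1 := (H.on hw).1
    refine ⟨pt_ne h1, ?_⟩
    simpa only [mem_preimage, tt_pt h1, add_sub_cancel_left] using sq_mem_ball hw
  · rw [key z hz.2, add_sub_cancel, div_mul_cancel₀ _ (H.ne _ hz.2)]
    exact pt_tt hz.1
  · have h1 := (H.on hw).1
    rw [tt_pt h1, yy_pt h1, add_sub_cancel_left,
      mul_div_cancel_right₀ _ (H.ne _ (sq_mem_ball hw))]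

end Dat

end Pool.Agent.MP_92463a_gt

end
end

section

open Set Complex Filter Metric
open scoped Topology ComplexConjugate ContDiff Manifold

noncomputable section

namespace Pool.Agent.MP_92463a_gt

namespace Dat

variable {D : Dat} {δ : ℝ} {h : ℂ → ℂ}

theorem chart3_ball (hδ : 0 < δ) {t : ℂ} (ht : (δ ^ 2)⁻¹ < ‖t‖) :
    t ≠ 0 ∧ t⁻¹ ∈ ball (0 : ℂ) (δ ^ 2) := by
  have h1 : 0 < (δ ^ 2)⁻¹ := by positivity
  have h2 : 0 < ‖t‖ := h1.trans ht
  refine ⟨norm_pos_iff.1 h2, ?_⟩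
  rw [mem_ball_zero_iff, norm_inv]
  exact inv_lt_of_inv_lt₀ (by positivity) ht

theorem chart3_sq (H : D.Par3 δ h) {m : ℕ} (hm : D.p + D.q = m + m) {z : D.N}
    (hz : (δ ^ 2)⁻¹ < ‖D.tt z‖) :
    D.yy z ≠ 0 ∧ (h (D.tt z)⁻¹ * D.tt z ^ m / D.yy z) ^ 2 = (D.tt z)⁻¹ := by
  obtain ⟨h0, h1⟩ := chart3_ball H.pos hz
  have h2 := H.sq _ h1 (inv_ne_zero h0)
  rw [inv_inv, ← yy_sq, hm] at h2
  have h3 : D.yy z ≠ 0 := by
    intro h3
    rw [h3] at h2
    exact H.ne _ h1 (by simpa using h2)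
  refine ⟨h3, ?_⟩
  rw [div_pow, mul_pow, h2, inv_pow]
  field_simp
  ring

theorem Par3.chart (hD : D.Ok) (H : D.Par3 δ h) : ∃ e : OpenPartialHomeomorph D.N ℂ,
    e.target = ball 0 δ ∧ e.symm 0 = OnePoint.infty ∧ ∀ w ∈ ball (0 : ℂ) δ, w ≠ 0 →
      e.symm w = D.pt (w ^ 2)⁻¹ (h (w ^ 2) / w ^ (D.p + D.q + 1)) := by
  classical
  obtain ⟨m, hm⟩ := hD.par
  have hδ := H.pos
  let f : D.N → ℂ := fun z => h (D.tt z)⁻¹ * D.tt z ^ m / D.yy z
  let g : ℂ → D.N := fun w =>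
    if w = 0 then OnePoint.infty else D.pt (w ^ 2)⁻¹ (h (w ^ 2) / w ^ (D.p + D.q + 1))
  have f0 : f OnePoint.infty = 0 := by simp only [f, yy_infty, div_zero]
  have g0 : g 0 = OnePoint.infty := if_pos rfl
  have g1 : ∀ w, w ≠ 0 → g w = D.pt (w ^ 2)⁻¹ (h (w ^ 2) / w ^ (D.p + D.q + 1)) :=
    fun w hw => if_neg hw
  have hsrc : IsOpen {z : D.N | z = OnePoint.infty ∨ (δ ^ 2)⁻¹ < ‖D.tt z‖} := isOpen_far _
  have := t2 (D := D)
  refine ⟨⟨⟨⟨f, g, {z | z = OnePoint.infty ∨ (δ ^ 2)⁻¹ < ‖D.tt z‖}, ball 0 δ, ?_, ?_, ?_, ?_⟩,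
    ?_, ?_⟩, hsrc, isOpen_ball⟩, rfl, g0, fun w _ hw => g1 w hw⟩
  · rintro z (rfl | hz)
    · rw [f0]; exact mem_ball_self hδ
    · have h1 := (chart3_ball hδ hz).2
      rw [← (chart3_sq H hm hz).2, mem_ball_zero_iff, norm_pow] at h1
      rw [mem_ball_zero_iff]
      exact lt_of_pow_lt_pow_left₀ 2 hδ.le h1
  · intro w hw
    by_cases h0 : w = 0
    · exact Or.inl (h0 ▸ g0)
    · refine Or.inr ?_
      rw [g1 w h0, tt_pt (H.on hw h0).1, norm_inv]
      exact inv_strictAnti₀ (norm_pos_iff.2 (pow_ne_zero _ h0))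
        (mem_ball_zero_iff.1 (sq_mem_ball hw))
  · rintro z (rfl | hz)
    · rw [f0, g0]
    · obtain ⟨h0, h1⟩ := chart3_ball hδ hz
      obtain ⟨h2, h3⟩ := chart3_sq H hm hz
      have h4 : f z ^ 2 = (D.tt z)⁻¹ := h3
      have h5 : f z ≠ 0 := fun h5 => inv_ne_zero h0 (by rw [← h4, h5]; simp)
      have h6 : z ≠ OnePoint.infty := by
        rintro rfl
        exact h0 tt_infty
      have h7 := H.ne _ h1
      have h8 : h (D.tt z)⁻¹ / f z ^ (D.p + D.q + 1) = D.yy z := by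
        rw [hm, ← two_mul, pow_succ, pow_mul, h4, inv_pow]
        simp only [f]
        generalize h (D.tt z)⁻¹ = c at h7
        field_simp
      rw [g1 _ h5, h4, inv_inv, h8, pt_tt h6]
  · intro w hw
    by_cases h0 : w = 0
    · rw [h0, g0, f0]
    · have h1 := H.ne _ (sq_mem_ball hw)
      rw [g1 w h0]
      simp only [f]
      rw [tt_pt (H.on hw h0).1, yy_pt (H.on hw h0).1, inv_inv, hm, inv_pow]
      field_simp
      ring
  · intro z hz
    by_cases hi : z = OnePoint.infty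
    · subst hi
      refine ContinuousAt.continuousWithinAt (f := f) ?_
      rw [← continuousWithinAt_compl_self, ContinuousWithinAt, f0,
        tendsto_zero_iff_norm_tendsto_zero]
      have h1 : Tendsto (fun z => √(‖D.tt z‖⁻¹)) (𝓝[≠] OnePoint.infty) (𝓝 0) := by
        simpa using (tt_tendsto (D := D)).inv_tendsto_atTop.sqrt
      refine h1.congr' ?_
      filter_upwards [(tt_tendsto (D := D)).eventually_gt_atTop (δ ^ 2)⁻¹] with z hz
      have h4 : f z ^ 2 = (D.tt z)⁻¹ := (chart3_sq H hm hz).2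
      rw [← norm_inv, ← h4, norm_pow, Real.sqrt_sq (norm_nonneg _)]
    · have hz' : (δ ^ 2)⁻¹ < ‖D.tt z‖ := hz.resolve_left hi
      obtain ⟨h0, h1⟩ := chart3_ball hδ hz'
      have hn : ({OnePoint.infty}ᶜ : Set D.N) ∈ 𝓝 z := isOpen_compl_singleton.mem_nhds hi
      have ht := (tt_cont (D := D)).continuousAt hn
      have hy := (yy_cont (D := D)).continuousAt hn
      have hh : ContinuousAt h (D.tt z)⁻¹ :=
        H.hol.continuousOn.continuousAt (isOpen_ball.mem_nhds h1)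
      exact (((ContinuousAt.comp (f := fun z => (D.tt z)⁻¹) hh (ht.inv₀ h0)).mul (ht.pow m)).div hy
        (chart3_sq H hm hz').1).continuousWithinAt
  · intro w hw
    change w ∈ ball (0 : ℂ) δ at hw
    refine ContinuousAt.continuousWithinAt (f := g) ?_
    by_cases h0 : w = 0
    · subst h0
      rw [← continuousWithinAt_compl_self, ContinuousWithinAt, g0]
      have h1 : Tendsto (fun w : ℂ => ‖(w ^ 2)⁻¹‖) (𝓝[≠] 0) atTop := by
        have := (tendsto_norm_inv_nhdsNE_zero_atTop (α := ℂ))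
        refine ((tendsto_pow_atTop two_ne_zero).comp this).congr fun w => ?_
        simp
      have h2 : ∀ᶠ w in 𝓝[≠] (0 : ℂ), w ∈ ball (0 : ℂ) δ :=
        mem_nhdsWithin_of_mem_nhds (ball_mem_nhds 0 hδ)
      refine (pt_tendsto (Yl := fun w => h (w ^ 2) / w ^ (D.p + D.q + 1)) ?_ h1).congr' ?_
      · filter_upwards [h2, self_mem_nhdsWithin] with w h3 h4
        exact (H.on h3 h4).1
      · filter_upwards [self_mem_nhdsWithin] with w h4
        exact (g1 w h4).symm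
    · have hn : ball (0 : ℂ) δ ∩ {0}ᶜ ∈ 𝓝 w :=
        (isOpen_ball.inter isOpen_compl_singleton).mem_nhds ⟨hw, h0⟩
      have h1 : ContinuousOn (fun w : ℂ => D.pt (w ^ 2)⁻¹ (h (w ^ 2) / w ^ (D.p + D.q + 1)))
          (ball (0 : ℂ) δ ∩ {0}ᶜ) := by
        refine pt_cont ((continuousOn_pow 2).inv₀ fun w hw => pow_ne_zero _ hw.2)
          ((H.hol.continuousOn.comp (continuousOn_pow 2) fun w hw => sq_mem_ball hw.1).div
            (continuousOn_pow _) fun w hw => pow_ne_zero _ hw.2) fun w hw => (H.on hw.1 hw.2).1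
      exact (h1.congr fun w hw => g1 w hw.2).continuousAt hn

theorem Ok.atl (hD : D.Ok) : Nonempty D.Atl := by
  have key : ∀ z : D.N, ∃ (e : OpenPartialHomeomorph D.N ℂ) (δ : ℝ), 0 < δ ∧
      e.target = ball 0 δ ∧ e.symm 0 = z ∧ D.Kind e δ := by
    intro z
    by_cases hi : z = OnePoint.infty
    · obtain ⟨δ, h, H, -⟩ := hD.par3
      obtain ⟨e, h1, h2, h3⟩ := H.chart hD
      exact ⟨e, δ, H.pos, h1, hi ▸ h2, Or.inr (Or.inr ⟨h, H, h2, h3⟩)⟩
    by_cases hy : D.yy z = 0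
    · obtain ⟨δ, h, H, -⟩ := hD.par2 (x₀ := D.tt z) (by rw [← yy_sq, hy]; simp)
      obtain ⟨e, h1, h2⟩ := H.chart
      refine ⟨e, δ, H.pos, h1, ?_, Or.inr (Or.inl ⟨_, h, H, h2⟩)⟩
      rw [h2 0 (mem_ball_self H.pos), zero_mul, zero_pow two_ne_zero, add_zero, ← hy, pt_tt hi]
    · obtain ⟨δ, h, H, h0⟩ := par1 (yy_sq z) hy
      obtain ⟨e, h1, h2⟩ := H.chart
      refine ⟨e, δ, H.pos, h1, ?_, Or.inl ⟨_, h, H, h2⟩⟩
      rw [h2 0 (mem_ball_self H.pos), add_zero, h0, pt_tt hi]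
  choose e δ h0 h1 h2 h3 using key
  have h4 : ∀ z, (0 : ℂ) ∈ (e z).target := fun z => by
    rw [h1]; exact mem_ball_self (h0 z)
  refine ⟨⟨e, δ, h1, fun z => ?_, fun z => ?_, h3⟩⟩
  · have := (e z).map_target (h4 z)
    rwa [h2] at this
  · have := (e z).right_inv (h4 z)
    rwa [h2] at this

end Dat

end Pool.Agent.MP_92463a_gt

end
end

section

open Set Complex Filter Metric
open scoped Topology ComplexConjugate ContDiff Manifold

noncomputable section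

namespace Pool.Agent.MP_92463a_gt

theorem Gen2_pull {Q : ℂ → Prop} {x₀ : ℂ} (h : ∀ᶠ w in 𝓝[≠] (0 : ℂ), Q (x₀ + w ^ 2)) :
    ∀ᶠ t in 𝓝[≠] x₀, Q t := by
  obtain ⟨ε, hε, hb⟩ := Metric.eventually_nhds_iff_ball.1 (eventually_nhdsWithin_iff.1 h)
  refine eventually_nhdsWithin_iff.2 (Metric.eventually_nhds_iff_ball.2
    ⟨ε ^ 2, by positivity, fun t ht h0 => ?_⟩)
  obtain ⟨w, hw⟩ := IsAlgClosed.exists_pow_nat_eq (t - x₀) two_pos
  have h1 : w ≠ 0 := by
    rintro rfl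
    exact h0 (sub_eq_zero.1 (by rw [← hw]; simp))
  have h2 : w ∈ ball (0 : ℂ) ε := by
    rw [mem_ball_iff_norm, ← hw, norm_pow] at ht
    rw [mem_ball_zero_iff]
    exact lt_of_pow_lt_pow_left₀ 2 hε.le ht
  have h3 := hb w h2 h1
  rwa [hw, add_sub_cancel] at h3

theorem Gen2_far {Q : ℂ → Prop} (h : ∀ᶠ w in 𝓝[≠] (0 : ℂ), Q (w ^ 2)⁻¹) :
    ∃ r : ℝ, ∀ t, r ≤ ‖t‖ → Q t := by
  obtain ⟨ε, hε, hb⟩ := Metric.eventually_nhds_iff_ball.1 (eventually_nhdsWithin_iff.1 h)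
  refine ⟨(ε ^ 2)⁻¹ + 1, fun t ht => ?_⟩
  have h0 : 0 < (ε ^ 2)⁻¹ := by positivity
  have h1 : 0 < ‖t‖ := by linarith
  obtain ⟨w, hw⟩ := IsAlgClosed.exists_pow_nat_eq t⁻¹ two_pos
  have h2 : w ≠ 0 := by
    rintro rfl
    exact inv_ne_zero (norm_pos_iff.1 h1) (by rw [← hw]; simp)
  have h3 : w ∈ ball (0 : ℂ) ε := by
    rw [mem_ball_zero_iff]
    refine lt_of_pow_lt_pow_left₀ 2 hε.le ?_
    rw [← norm_pow, hw, norm_inv]
    exact inv_lt_of_inv_lt₀ (by positivity) (by linarith)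
  have h4 := hb w h3 h2
  rwa [hw, inv_inv] at h4

theorem Gen2_bdd {g : ℂ → ℂ} (h : ContinuousAt g 0) : ∃ C : ℝ, ∀ᶠ w in 𝓝 (0 : ℂ), ‖g w‖ ≤ C :=
  ⟨‖g 0‖ + 1, h.norm.eventually_le_const (lt_add_one _)⟩

theorem Gen2_neg {φ : ℂ → ℂ} (h : DifferentiableAt ℂ φ 0) :
    DifferentiableAt ℂ (fun w => φ (-w)) 0 :=
  DifferentiableAt.comp (g := φ) (f := fun w : ℂ => -w) 0 (by simpa using h) (by fun_prop)

theorem Gen2_sq {φ : ℂ → ℂ} (h : DifferentiableAt ℂ φ 0) :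
    DifferentiableAt ℂ (fun w => φ (w ^ 2)) 0 :=
  DifferentiableAt.comp (g := φ) (f := fun w : ℂ => w ^ 2) 0 (by simpa using h) (by fun_prop)

theorem Gen2_odd {φ : ℂ → ℂ} (h : DifferentiableAt ℂ φ 0) :
    ∃ C : ℝ, ∀ᶠ w in 𝓝[≠] (0 : ℂ), ‖(φ w - φ (-w)) / (2 * w)‖ ≤ C := by
  obtain ⟨C, hC⟩ := (h.sub (Gen2_neg h)).isBigO_sub.bound
  refine ⟨C / 2, ?_⟩
  filter_upwards [nhdsWithin_le_nhds hC, self_mem_nhdsWithin] with w h1 h2
  have h3 : 0 < ‖w‖ := norm_pos_iff.2 h2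
  simp only [Pi.sub_apply, neg_zero, sub_self, sub_zero] at h1
  rw [norm_div, norm_mul, Complex.norm_ofNat, div_le_iff₀ (mul_pos two_pos h3)]
  linarith

theorem Gen2_sym {G : ℂ → ℂ} {r y : ℂ} (h : y ^ 2 = r ^ 2) : G r + G (-r) = G y + G (-y) := by
  rcases sq_eq_sq_iff_eq_or_eq_neg.1 h with rfl | rfl
  · rfl
  · rw [neg_neg, add_comm]

namespace Dat

variable {D : Dat} (A : D.Atl)

theorem Atl.Gen2_zero (z : D.N) : (A.ch z).symm 0 = z := by
  have := (A.ch z).left_inv (A.mem z)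
  rwa [A.ctr] at this

theorem Atl.Gen2_k1 {u : D.N} (hu : D.yy u ≠ 0) : ∃ h, D.Par1 (D.tt u) (A.δ u) h ∧ h 0 = D.yy u ∧
    ∀ w ∈ ball (0 : ℂ) (A.δ u), (A.ch u).symm w = D.pt (D.tt u + w) (h w) := by
  rcases A.kind u with ⟨t₀, h, H, he⟩ | ⟨x₀, h, H, he⟩ | ⟨h, H, he, -⟩
  · have h0 := mem_ball_self (x := (0 : ℂ)) H.pos
    have h1 := he 0 h0
    rw [A.Gen2_zero] at h1
    have h2 : D.tt u = t₀ := by rw [h1, tt_pt (H.sq 0 h0), add_zero]
    have h3 : D.yy u = h 0 := by rw [h1, yy_pt (H.sq 0 h0)]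
    rw [h2]
    exact ⟨h, H, h3.symm, he⟩
  · have h0 := mem_ball_self (x := (0 : ℂ)) H.pos
    have h1 := he 0 h0
    rw [A.Gen2_zero] at h1
    exact absurd (by rw [h1, yy_pt (H.on h0).1, zero_mul]) hu
  · rw [A.Gen2_zero] at he
    exact absurd (by rw [he, yy_infty]) hu

theorem Atl.Gen2_k2 {x₀ : ℂ} (hx : D.P x₀ = 0) : ∃ z h, D.Par2 x₀ (A.δ z) h ∧
    ∀ w ∈ ball (0 : ℂ) (A.δ z), (A.ch z).symm w = D.pt (x₀ + w ^ 2) (w * h (w ^ 2)) := by
  have hs : (0 : ℂ) ^ 2 = D.P x₀ := by rw [hx, zero_pow two_ne_zero]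
  rcases A.kind (D.pt x₀ 0) with ⟨t₀, h, H, he⟩ | ⟨x, h, H, he⟩ | ⟨h, H, he, -⟩
  · have h0 := mem_ball_self (x := (0 : ℂ)) H.pos
    have h1 := he 0 h0
    rw [A.Gen2_zero] at h1
    have h2 := congrArg D.yy h1
    rw [yy_pt hs, yy_pt (H.sq 0 h0)] at h2
    exact absurd h2.symm (H.ne 0 h0)
  · have h0 := mem_ball_self (x := (0 : ℂ)) H.pos
    have h1 := he 0 h0
    rw [A.Gen2_zero] at h1
    have h2 := congrArg D.tt h1
    rw [tt_pt hs, tt_pt (H.on h0).1, zero_pow two_ne_zero, add_zero] at h2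
    subst h2
    exact ⟨_, h, H, he⟩
  · rw [A.Gen2_zero] at he
    exact absurd he (pt_ne hs)

theorem Atl.Gen2_k3 : ∃ z h, D.Par3 (A.δ z) h ∧ ∀ w ∈ ball (0 : ℂ) (A.δ z), w ≠ 0 →
    (A.ch z).symm w = D.pt (w ^ 2)⁻¹ (h (w ^ 2) / w ^ (D.p + D.q + 1)) := by
  rcases A.kind OnePoint.infty with ⟨t₀, h, H, he⟩ | ⟨x, h, H, he⟩ | ⟨h, H, -, he⟩
  · have h0 := mem_ball_self (x := (0 : ℂ)) H.pos
    have h1 := he 0 h0
    rw [A.Gen2_zero] at h1
    exact absurd h1.symm (pt_ne (H.sq 0 h0))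
  · have h0 := mem_ball_self (x := (0 : ℂ)) H.pos
    have h1 := he 0 h0
    rw [A.Gen2_zero] at h1
    exact absurd h1.symm (pt_ne (H.on h0).1)
  · exact ⟨_, h, H, he⟩

/-- a holomorphic form, in terms of the coefficient of `dt` -/
structure Atl.Gen2_H (om : D.N → ℂ → ℂ) : Prop where
  hol : ∀ z, DifferentiableOn ℂ (om z) (ball 0 (A.δ z))
  cmp : ∀ z, ∀ w ∈ ball (0 : ℂ) (A.δ z), D.yy ((A.ch z).symm w) ≠ 0 →
    om z w = om ((A.ch z).symm w) 0 * deriv (fun v => D.tt ((A.ch z).symm v)) w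

theorem Atl.Gen2_of {om : D.N → ℂ → ℂ} (H1 : ∀ x, DifferentiableOn ℂ (om x) (A.ch x).target)
    (H3 : ∀ x y, ∀ q ∈ (A.ch x).source ∩ (A.ch y).source,
      om x (A.ch x q) = om y (A.ch y q) * deriv (A.ch y ∘ (A.ch x).symm) (A.ch x q)) :
    A.Gen2_H om := by
  refine ⟨fun z => A.tgt z ▸ H1 z, fun z w hw hy => ?_⟩
  rw [← A.tgt] at hw
  have h1 := H3 z _ _ ⟨(A.ch z).map_target hw, A.mem _⟩
  rw [(A.ch z).right_inv hw, A.ctr] at h1
  obtain ⟨h, H, -, he⟩ := A.Gen2_k1 hy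
  have h2 : A.ch ((A.ch z).symm w) ∘ (A.ch z).symm =ᶠ[𝓝 w]
      fun v => D.tt ((A.ch z).symm v) - D.tt ((A.ch z).symm w) := by
    filter_upwards [((A.ch z).continuousAt_symm hw).eventually
      ((A.ch ((A.ch z).symm w)).open_source.mem_nhds (A.mem _))] with v hv
    have h3 := (A.ch _).map_source hv
    rw [A.tgt] at h3
    have h4 := he _ h3
    rw [(A.ch _).left_inv hv] at h4
    rw [Function.comp_apply, eq_sub_iff_add_eq']
    conv_rhs => rw [h4, tt_pt (H.sq _ h3)]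
  rw [h1, h2.deriv_eq, deriv_sub_const]

variable {A} {om : D.N → ℂ → ℂ}

theorem Atl.Gen2_H.val (H : A.Gen2_H om) {z : D.N} {w T' : ℂ} {T Yl : ℂ → ℂ}
    (hw : w ∈ ball (0 : ℂ) (A.δ z))
    (he : ∀ᶠ v in 𝓝 w, (A.ch z).symm v = D.pt (T v) (Yl v) ∧ Yl v ^ 2 = D.P (T v))
    (hy : D.P (T w) ≠ 0) (hT : HasDerivAt T T' w) : om z w = om (D.pt (T w) (Yl w)) 0 * T' := by
  obtain ⟨h1, h2⟩ := he.self_of_nhds
  have h3 : (fun v => D.tt ((A.ch z).symm v)) =ᶠ[𝓝 w] T := by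
    filter_upwards [he] with v hv
    rw [hv.1, tt_pt hv.2]
  rw [H.cmp z w hw (by
    rw [h1, yy_pt h2]
    intro h0
    exact hy (by rw [← h2, h0, zero_pow two_ne_zero])), h3.deriv_eq, hT.deriv, h1]

theorem Atl.Gen2_H.one (H : A.Gen2_H om) {t₀ y₀ : ℂ} (hs : y₀ ^ 2 = D.P t₀) (hy : y₀ ≠ 0) :
    ∃ h φ : ℂ → ℂ, DifferentiableAt ℂ h 0 ∧ DifferentiableAt ℂ φ 0 ∧ h 0 = y₀ ∧
      ∀ᶠ w in 𝓝 (0 : ℂ), h w ^ 2 = D.P (t₀ + w) ∧ om (D.pt (t₀ + w) (h w)) 0 = φ w := by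
  obtain ⟨h, P, h0, he⟩ := A.Gen2_k1 (u := D.pt t₀ y₀) (by rwa [yy_pt hs])
  rw [tt_pt hs] at P he
  rw [yy_pt hs] at h0
  have hb := ball_mem_nhds (0 : ℂ) P.pos
  refine ⟨h, om (D.pt t₀ y₀), P.hol.differentiableAt hb, (H.hol _).differentiableAt hb, h0, ?_⟩
  filter_upwards [hb] with w hw
  refine ⟨P.sq w hw, ?_⟩
  rw [H.val (T := fun v => t₀ + v) (Yl := h) hw ?_ ?_ ((hasDerivAt_id w).const_add t₀), mul_one]
  · filter_upwards [isOpen_ball.mem_nhds hw] with v hv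
    exact ⟨he v hv, P.sq v hv⟩
  · rw [← P.sq w hw]
    exact pow_ne_zero 2 (P.ne w hw)

theorem Atl.Gen2_H.reg (H : A.Gen2_H om) {t₀ : ℂ} (ht : D.P t₀ ≠ 0) :
    ∃ h φ ψ : ℂ → ℂ, DifferentiableAt ℂ h t₀ ∧ DifferentiableAt ℂ φ t₀ ∧ DifferentiableAt ℂ ψ t₀ ∧
      ∀ᶠ t in 𝓝 t₀, h t ^ 2 = D.P t ∧ om (D.pt t (h t)) 0 = φ t ∧ om (D.pt t (-h t)) 0 = ψ t := by
  obtain ⟨y, hy⟩ := IsAlgClosed.exists_pow_nat_eq (D.P t₀) two_pos
  have hy0 : y ≠ 0 := by
    rintro rfl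
    exact ht (by rw [← hy, zero_pow two_ne_zero])
  obtain ⟨h, φ, a1, a2, a3, a4⟩ := H.one hy hy0
  obtain ⟨h', ψ, b1, b2, b3, b4⟩ := H.one (y₀ := -y) (by rw [neg_sq, hy]) (neg_ne_zero.2 hy0)
  have c1 : ∀ᶠ w in 𝓝 (0 : ℂ), h' w - h w ≠ 0 :=
    (b1.sub a1).continuousAt.eventually_ne (by
      rw [Pi.sub_apply, a3, b3]
      intro h0
      exact hy0 (by linear_combination (-1 / 2 : ℂ) * h0))
  have c2 : ∀ {g : ℂ → ℂ}, DifferentiableAt ℂ g 0 → DifferentiableAt ℂ (fun t => g (t - t₀)) t₀ :=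
    fun {g} hg => DifferentiableAt.comp (g := g) (f := fun t : ℂ => t - t₀) t₀
      (by simpa using hg) (by fun_prop)
  have c3 : Tendsto (fun t : ℂ => t - t₀) (𝓝 t₀) (𝓝 0) := by
    have : Continuous fun t : ℂ => t - t₀ := by fun_prop
    simpa using this.tendsto t₀
  refine ⟨_, _, _, c2 a1, c2 a2, c2 b2, ?_⟩
  filter_upwards [c3.eventually a4, c3.eventually b4, c3.eventually c1] with t d1 d2 d3
  rw [add_sub_cancel] at d1 d2
  have d4 : h' (t - t₀) = -h (t - t₀) :=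
    (sq_eq_sq_iff_eq_or_eq_neg.1 (d2.1.trans d1.1.symm)).resolve_left (sub_ne_zero.1 d3)
  exact ⟨d1.1, d1.2, d4 ▸ d2.2⟩

theorem Atl.Gen2_H.two (H : A.Gen2_H om) {x₀ : ℂ} (hx : D.P x₀ = 0) :
    ∃ h φ : ℂ → ℂ, DifferentiableAt ℂ h 0 ∧ DifferentiableAt ℂ φ 0 ∧
      ∀ᶠ w in 𝓝[≠] (0 : ℂ), (w * h (w ^ 2)) ^ 2 = D.P (x₀ + w ^ 2) ∧
        om (D.pt (x₀ + w ^ 2) (w * h (w ^ 2))) 0 = φ w / (2 * w) ∧
        om (D.pt (x₀ + w ^ 2) (-(w * h (w ^ 2)))) 0 = -φ (-w) / (2 * w) := by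
  obtain ⟨z, h, P, he⟩ := A.Gen2_k2 hx
  have hb := ball_mem_nhds (0 : ℂ) P.pos
  have key : ∀ w ∈ ball (0 : ℂ) (A.δ z), w ≠ 0 →
      om z w = om (D.pt (x₀ + w ^ 2) (w * h (w ^ 2))) 0 * (2 * w) := fun w hw h0 => by
    refine H.val (T := fun v => x₀ + v ^ 2) (Yl := fun v => v * h (v ^ 2)) hw ?_ ((P.on hw).2 h0)
      (by simpa using (hasDerivAt_pow 2 w).const_add x₀)
    filter_upwards [isOpen_ball.mem_nhds hw] with v hv
    exact ⟨he v hv, (P.on hv).1⟩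
  refine ⟨h, om z, P.hol.differentiableAt (ball_mem_nhds _ (pow_pos P.pos 2)),
    (H.hol _).differentiableAt hb, ?_⟩
  filter_upwards [nhdsWithin_le_nhds hb, self_mem_nhdsWithin] with w hw h0
  have h1 : w ≠ 0 := h0
  have h2 := key (-w) (by simpa using hw) (neg_ne_zero.2 h1)
  rw [neg_sq, neg_mul] at h2
  refine ⟨(P.on hw).1, ?_, ?_⟩
  · rw [key w hw h1]
    field_simp
  · rw [h2]
    field_simp

theorem Atl.Gen2_H.three (hD : D.Ok) (H : A.Gen2_H om) :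
    ∃ h φ : ℂ → ℂ, DifferentiableAt ℂ h 0 ∧ DifferentiableAt ℂ φ 0 ∧
      ∀ᶠ w in 𝓝[≠] (0 : ℂ), D.P (w ^ 2)⁻¹ ≠ 0 ∧
        (h (w ^ 2) / w ^ (D.p + D.q + 1)) ^ 2 = D.P (w ^ 2)⁻¹ ∧
        om (D.pt (w ^ 2)⁻¹ (h (w ^ 2) / w ^ (D.p + D.q + 1))) 0 = -(w ^ 3 * φ w / 2) ∧
        om (D.pt (w ^ 2)⁻¹ (-(h (w ^ 2) / w ^ (D.p + D.q + 1)))) 0 = w ^ 3 * φ (-w) / 2 := by
  obtain ⟨z, h, P, he⟩ := A.Gen2_k3
  have hb := ball_mem_nhds (0 : ℂ) P.pos
  have key : ∀ w ∈ ball (0 : ℂ) (A.δ z), w ≠ 0 → om z w =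
      om (D.pt (w ^ 2)⁻¹ (h (w ^ 2) / w ^ (D.p + D.q + 1))) 0 * (-2 / w ^ 3) := fun w hw h0 => by
    refine H.val (T := fun v => (v ^ 2)⁻¹) (Yl := fun v => h (v ^ 2) / v ^ (D.p + D.q + 1)) hw ?_
      (P.on hw h0).2 (((hasDerivAt_pow 2 w).inv (pow_ne_zero 2 h0)).congr_deriv ?_)
    · filter_upwards [isOpen_ball.mem_nhds hw, isOpen_compl_singleton.mem_nhds h0] with v hv h1
      exact ⟨he v hv h1, (P.on hv h1).1⟩
    · simp only [Nat.cast_ofNat, Nat.add_one_sub_one, pow_one]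
      field_simp
  refine ⟨h, om z, P.hol.differentiableAt (ball_mem_nhds _ (pow_pos P.pos 2)),
    (H.hol _).differentiableAt hb, ?_⟩
  filter_upwards [nhdsWithin_le_nhds hb, self_mem_nhdsWithin] with w hw h0
  have h1 : w ≠ 0 := h0
  have h2 := key (-w) (by simpa using hw) (neg_ne_zero.2 h1)
  rw [neg_sq, hD.par.add_one.neg_pow, div_neg] at h2
  refine ⟨(P.on hw h1).2, (P.on hw h1).1, ?_, ?_⟩
  · rw [key w hw h1]
    field_simp
  · rw [h2]
    field_simp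

theorem Atl.Gen2_H.odd (hD : D.Ok) (H : A.Gen2_H om) {r : ℂ → ℂ} (hr : ∀ t, r t ^ 2 = D.P t)
    {t : ℂ} (ht : D.P t ≠ 0) : om (D.pt t (r t)) 0 + om (D.pt t (-r t)) 0 = 0 := by
  have hs : ∀ {t y : ℂ}, y ^ 2 = D.P t → om (D.pt t (r t)) 0 + om (D.pt t (-r t)) 0 =
      om (D.pt t y) 0 + om (D.pt t (-y)) 0 := fun {t y} h =>
    Gen2_sym (G := fun y => om (D.pt t y) 0) (h.trans (hr t).symm)
  obtain ⟨F, hF, hFe⟩ := fill_finite (f := fun t => om (D.pt t (r t)) 0 + om (D.pt t (-r t)) 0)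
    D.P_finite (fun x hx => by
      obtain ⟨h, φ, ψ, -, a2, a3, a4⟩ := H.reg hx
      refine ((a2.add a3).congr_of_eventuallyEq ?_).differentiableWithinAt
      filter_upwards [a4] with t h1
      rw [hs h1.1, h1.2.1, h1.2.2, Pi.add_apply]) (fun x hx => by
      obtain ⟨h, φ, -, a2, a3⟩ := H.two hx
      obtain ⟨C, hC⟩ := Gen2_odd a2
      refine ⟨C, Gen2_pull ?_⟩
      filter_upwards [a3, hC] with w h1 h2
      rwa [hs h1.1, h1.2.1, h1.2.2, ← add_div, ← sub_eq_add_neg])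
  obtain ⟨h, φ, -, a2, a3⟩ := H.three hD
  obtain ⟨C, hC⟩ := Gen2_bdd (g := fun w => w * (φ (-w) - φ w) / 2)
    (((differentiableAt_id.mul ((Gen2_neg a2).sub a2)).div_const 2).continuousAt)
  obtain ⟨ρ, hρ⟩ := Gen2_far (Q := fun z => ‖F z‖ * ‖z‖ ≤ C * ‖z‖ ^ 0) (by
    filter_upwards [a3, nhdsWithin_le_nhds hC, self_mem_nhdsWithin] with w h1 h2 h3
    have h4 : w ≠ 0 := h3
    rw [hFe _ h1.1, hs h1.2.1, h1.2.2.1, h1.2.2.2, pow_zero, mul_one, ← norm_mul]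
    refine le_of_eq_of_le (congrArg _ ?_) h2
    field_simp
    ring)
  obtain ⟨c, hc⟩ := poly_growth hF 0 hρ
  rw [← hFe t ht, hc, Finset.sum_range_zero]

theorem Atl.Gen2_H.even (hD : D.Ok) (H : A.Gen2_H om) {r : ℂ → ℂ} (hr : ∀ t, r t ^ 2 = D.P t) :
    ∃ c : ℕ → ℂ, ∀ t, D.P t ≠ 0 → om (D.pt t (r t)) 0 * r t + om (D.pt t (-r t)) 0 * -r t =
      ∑ k ∈ Finset.range ((D.p + D.q) / 2), c k * t ^ k := by
  have hs : ∀ {t y : ℂ}, y ^ 2 = D.P t → om (D.pt t (r t)) 0 * r t + om (D.pt t (-r t)) 0 * -r t =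
      om (D.pt t y) 0 * y + om (D.pt t (-y)) 0 * -y := fun {t y} h =>
    Gen2_sym (G := fun y => om (D.pt t y) 0 * y) (h.trans (hr t).symm)
  obtain ⟨F, hF, hFe⟩ := fill_finite
    (f := fun t => om (D.pt t (r t)) 0 * r t + om (D.pt t (-r t)) 0 * -r t)
    D.P_finite (fun x hx => by
      obtain ⟨h, φ, ψ, a1, a2, a3, a4⟩ := H.reg hx
      refine (((a2.mul a1).add (a3.mul a1.neg)).congr_of_eventuallyEq ?_).differentiableWithinAt
      filter_upwards [a4] with t h1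
      rw [hs h1.1, h1.2.1, h1.2.2]
      rfl) (fun x hx => by
      obtain ⟨h, φ, a1, a2, a3⟩ := H.two hx
      obtain ⟨C, hC⟩ := Gen2_bdd (g := fun w => (φ w + φ (-w)) * h (w ^ 2) / 2)
        ((((a2.add (Gen2_neg a2)).mul (Gen2_sq a1)).div_const 2).continuousAt)
      refine ⟨C, Gen2_pull ?_⟩
      filter_upwards [a3, nhdsWithin_le_nhds hC, self_mem_nhdsWithin] with w h1 h2 h3
      have h4 : w ≠ 0 := h3
      rw [hs h1.1, h1.2.1, h1.2.2]
      refine le_of_eq_of_le (congrArg _ ?_) h2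
      field_simp)
  obtain ⟨h, φ, a1, a2, a3⟩ := H.three hD
  obtain ⟨C, hC⟩ := Gen2_bdd (g := fun w => -((φ w + φ (-w)) * h (w ^ 2) / 2))
    ((((a2.add (Gen2_neg a2)).mul (Gen2_sq a1)).div_const 2).neg.continuousAt)
  obtain ⟨ρ, hρ⟩ := Gen2_far (Q := fun z => ‖F z‖ * ‖z‖ ≤ C * ‖z‖ ^ ((D.p + D.q) / 2)) (by
    filter_upwards [a3, nhdsWithin_le_nhds hC, self_mem_nhdsWithin] with w h1 h2 h3
    have h4 : w ≠ 0 := h3
    rw [hFe _ h1.1, hs h1.2.1, h1.2.2.1, h1.2.2.2, ← norm_mul]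
    refine le_of_eq_of_le ?_ (mul_le_mul_of_nonneg_right h2 (by positivity))
    rw [← norm_pow, ← norm_mul]
    congr 1
    obtain ⟨g, hg⟩ := hD.par
    rw [hg, show (g + g) / 2 = g by omega, inv_pow, ← pow_mul, two_mul, pow_succ w (g + g)]
    field_simp
    ring)
  obtain ⟨c, hc⟩ := poly_growth hF _ hρ
  exact ⟨c, fun t ht => by rw [← hFe t ht, hc]⟩

end Dat

theorem Dat.Atl.exists_rep {D : Dat} (hD : D.Ok) (A : D.Atl) :
    letI := A.charted
    ∀ om ∈ holForms D.N, ∃ c, A.Rep c om := by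
  intro om hom
  have H := A.Gen2_of hom.1 hom.2.2
  choose r hr using fun t => IsAlgClosed.exists_pow_nat_eq (D.P t) two_pos
  obtain ⟨c, hc⟩ := H.even hD hr
  refine ⟨fun k => c k / 2, fun z w hw hy => ?_⟩
  rw [H.cmp z w hw hy]
  generalize (A.ch z).symm w = u at hy
  have h1 : u ≠ OnePoint.infty := by
    rintro rfl
    exact hy Dat.yy_infty
  have h2 : D.P (D.tt u) ≠ 0 := by
    rw [← Dat.yy_sq]
    exact pow_ne_zero 2 hy
  have h3 := (Dat.yy_sq u).trans (hr _).symm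
  have h4 := hc _ h2
  have h5 := H.odd hD hr h2
  rw [Gen2_sym (G := fun y => om (D.pt (D.tt u) y) 0 * y) h3, Dat.pt_tt h1] at h4
  rw [Gen2_sym (G := fun y => om (D.pt (D.tt u) y) 0) h3, Dat.pt_tt h1] at h5
  have h6 : ∑ k ∈ Finset.range ((D.p + D.q) / 2), c k / 2 * D.tt u ^ k = om u 0 * D.yy u := by
    simp only [div_mul_eq_mul_div]
    rw [← Finset.sum_div, ← h4]
    linear_combination (-D.yy u / 2) * h5
  rw [h6]
  field_simp

end Pool.Agent.MP_92463a_gt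

end
end

section

open Set Complex Filter Metric
open scoped Topology ComplexConjugate ContDiff Manifold

noncomputable section

namespace Pool.Agent.MP_92463a_gt

theorem Dat.Gen3_zero {D : Dat} (A : D.Atl) {om : D.N → ℂ → ℂ}
    (h1 : ∀ x, DifferentiableOn ℂ (om x) (A.ch x).target)
    (h2 : ∀ x, ∀ w ∉ (A.ch x).target, om x w = 0) (h : A.Rep 0 om) : om = 0 := by
  funext z w
  have h3 : ∀ w ∈ ball (0 : ℂ) (A.δ z), w ≠ 0 → om z w = 0 := fun w hw h0 => by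
    rw [h z w hw fun e => h0 (A.center z hw e)]
    simp
  by_cases hw : w ∈ ball (0 : ℂ) (A.δ z)
  · by_cases h0 : w = 0
    · subst h0
      have h4 := isOpen_ball.mem_nhds hw
      have h5 : Tendsto (om z) (𝓝[≠] 0) (𝓝 (om z 0)) :=
        ((h1 z).continuousOn.continuousAt (by rwa [A.tgt])).tendsto.mono_left nhdsWithin_le_nhds
      refine tendsto_nhds_unique h5 (tendsto_const_nhds.congr' ?_)
      filter_upwards [mem_nhdsWithin_of_mem_nhds h4, self_mem_nhdsWithin] with v hv hv'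
      exact (h3 v hv hv').symm
    · exact h3 w hw h0
  · exact h2 z w (by rwa [A.tgt])

theorem Dat.Gen3_coef {D : Dat} (A : D.Atl) {c : ℕ → ℂ} (h : A.Rep c 0) :
    ∀ k < (D.p + D.q) / 2, c k = 0 := by
  have h1 : ∀ t, D.P t ≠ 0 → ∑ k ∈ Finset.range ((D.p + D.q) / 2), c k * t ^ k = 0 := by
    intro t ht
    obtain ⟨z, h2, h3⟩ : ∃ z, D.tt z = t ∧ D.yy z ≠ 0 :=
      ⟨D.pt t (D.Y t), Dat.tt_pt (Dat.Y_sq ht), by rw [Dat.yy_pt (Dat.Y_sq ht)]; exact Dat.Y_ne t⟩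
    have h0 := Dat.Gen1_zero A z
    have h4 := h z 0 h0 (by rwa [Dat.Gen1_symm])
    rcases A.kind z with ⟨t₀, u, H, e⟩ | ⟨x₀, u, H, e⟩ | ⟨u, H, e0, e⟩
    · have h5 : (fun v => D.tt ((A.ch z).symm v)) =ᶠ[𝓝 0] fun v => t₀ + v := by
        filter_upwards [isOpen_ball.mem_nhds h0] with v hv
        rw [e v hv, Dat.tt_pt (H.sq v hv)]
      rw [h5.deriv_eq, ((hasDerivAt_id' 0).const_add t₀).deriv, Dat.Gen1_symm, h2, mul_one] at h4
      exact (div_eq_zero_iff.1 h4.symm).resolve_right h3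
    · refine absurd ?_ h3
      rw [← Dat.Gen1_symm A z, e 0 h0, Dat.yy_pt (H.on h0).1, zero_mul]
    · refine absurd ?_ h3
      rw [← Dat.Gen1_symm A z, e0, Dat.yy_infty]
  have h2 : ∑ k ∈ Finset.range ((D.p + D.q) / 2), Polynomial.monomial k (c k) = 0 := by
    refine Polynomial.eq_zero_of_infinite_isRoot _ ((Dat.P_finite (D := D)).infinite_compl.mono
      fun t ht => ?_)
    simpa [Polynomial.eval_finsetSum] using h1 t ht
  intro k hk
  have h3 := congrArg (Polynomial.coeff · k) h2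
  simpa [Polynomial.coeff_monomial, hk] using h3

/-- extension by zero -/
def Gen3_ext {g : ℕ} (c : Fin g → ℂ) (k : ℕ) : ℂ := if h : k < g then c ⟨k, h⟩ else 0

theorem Dat.Atl.genus_eq {D : Dat} (hD : D.Ok) (A : D.Atl) :
    letI := A.charted
    genus D.N = (D.p + D.q) / 2 := by
  let := A.charted
  let W : Submodule ℂ ((Fin ((D.p + D.q) / 2) → ℂ) × holForms D.N) :=
    { carrier := {x | A.Rep (Gen3_ext x.1) x.2}
      add_mem' := fun {x y} hx hy z w hw h0 => by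
        change x.2.1 z w + y.2.1 z w = _
        rw [hx z w hw h0, hy z w hw h0, ← add_div, ← add_mul, ← Finset.sum_add_distrib]
        congr 2
        exact Finset.sum_congr rfl fun k hk => by
          simp [Gen3_ext, Finset.mem_range.1 hk, add_mul]
      zero_mem' := fun z w hw h0 => by simp [Gen3_ext]
      smul_mem' := fun a x hx z w hw h0 => by
        change a * x.2.1 z w = _
        rw [hx z w hw h0, ← mul_div_assoc, ← mul_assoc, Finset.mul_sum]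
        congr 2
        exact Finset.sum_congr rfl fun k hk => by
          simp [Gen3_ext, Finset.mem_range.1 hk, mul_assoc] }
  have h1 : Function.Bijective ((LinearMap.fst ℂ _ _).comp W.subtype) := by
    refine ⟨(injective_iff_map_eq_zero _).2 ?_, fun c => ?_⟩
    · rintro ⟨⟨c, om⟩, h⟩ (rfl : c = 0)
      have h2 : Gen3_ext (0 : Fin ((D.p + D.q) / 2) → ℂ) = 0 := by
        funext k
        simp [Gen3_ext]
      obtain rfl : om = 0 := Subtype.ext (Dat.Gen3_zero A om.2.1 om.2.2.1 (h2 ▸ h))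
      rfl
    · obtain ⟨om, h2, h3⟩ := A.exists_form hD (Gen3_ext c)
      exact ⟨⟨(c, ⟨om, h2⟩), h3⟩, rfl⟩
  have h2 : Function.Bijective ((LinearMap.snd ℂ _ _).comp W.subtype) := by
    refine ⟨(injective_iff_map_eq_zero _).2 ?_, fun om => ?_⟩
    · rintro ⟨⟨c, om⟩, h⟩ (rfl : om = 0)
      obtain rfl : c = 0 := funext fun k => by
        simpa [Gen3_ext] using Dat.Gen3_coef A h k k.2
      rfl
    · obtain ⟨c, h3⟩ := A.exists_rep hD om.1 om.2
      refine ⟨⟨(fun k => c k, om), fun z w hw h0 => ?_⟩, rfl⟩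
      rw [h3 z w hw h0]
      congr 2
      exact Finset.sum_congr rfl fun k hk => by simp [Gen3_ext, Finset.mem_range.1 hk]
  rw [genus, ← (LinearEquiv.ofBijective _ h2).finrank_eq, (LinearEquiv.ofBijective _ h1).finrank_eq,
    Module.finrank_fin_fun]

end Pool.Agent.MP_92463a_gt

end
end

section

open Set Complex Filter Metric
open scoped Topology ComplexConjugate ContDiff Manifold

noncomputable section

namespace Pool.Agent.MP_92463a_gt

open Classical in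
/-- the branch of `y` on the closed upper half plane, extended by zero -/
def Conn_Y (D : Dat) (t : ℂ) : ℂ := if D.P t = 0 then 0 else D.Y t

theorem Conn_sq (D : Dat) (t : ℂ) : Conn_Y D t ^ 2 = D.P t := by
  unfold Conn_Y
  split_ifs with h
  · simp [h]
  · exact Dat.Y_sq h

theorem Conn_cont (D : Dat) : ContinuousOn (Conn_Y D) {t | 0 ≤ t.im} := by
  intro t ht
  have hP := (Dat.P_diff (D := D)).continuous
  by_cases h : D.P t = 0
  · refine ContinuousAt.continuousWithinAt ?_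
    rw [ContinuousAt, show Conn_Y D t = 0 from if_pos h, tendsto_zero_iff_norm_tendsto_zero]
    have h1 : (fun x => ‖Conn_Y D x‖) = fun x => √‖D.P x‖ := funext fun x => by
      rw [← Conn_sq, norm_pow, Real.sqrt_sq (norm_nonneg _)]
    rw [h1]
    exact hP.norm.sqrt.tendsto' _ _ (by simp [h])
  · have hn : {x | D.P x ≠ 0} ∈ 𝓝 t := (isOpen_ne_fun hP continuous_const).mem_nhds h
    refine ((Dat.Y_cont t ⟨ht, h⟩).mono_of_mem_nhdsWithin
      (inter_mem_nhdsWithin _ hn)).congr_of_eventuallyEq ?_ (if_neg h)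
    filter_upwards [mem_nhdsWithin_of_mem_nhds hn] with x hx
    exact if_neg hx

theorem Dat.Ok.connected {D : Dat} (hD : D.Ok) : ConnectedSpace D.N := by
  have hH : IsPreconnected {t : ℂ | 0 ≤ t.im} := (convex_halfSpace_im_ge 0).isPreconnected
  have h0 : Conn_Y D 0 = 0 := if_pos (by simp [Dat.P])
  have hc := Conn_cont D
  have hs := Conn_sq D
  have hs' : ∀ t, conj (Conn_Y D t) ^ 2 = D.P (conj t) := fun t => by
    rw [← map_pow, hs, Dat.P_conj]
  have c1 := hH.image _ (Dat.pt_cont continuousOn_id hc fun t _ => hs t)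
  have c2 := hH.image _ (Dat.pt_cont continuousOn_id hc.neg fun t _ => (neg_sq _).trans (hs t))
  have c3 := hH.image _ (Dat.pt_cont continuous_conj.continuousOn
    (continuous_conj.comp_continuousOn hc) fun t _ => hs' t)
  have c4 := hH.image _ (Dat.pt_cont continuous_conj.continuousOn
    (continuous_conj.comp_continuousOn hc).neg fun t _ => (neg_sq _).trans (hs' t))
  have m : ∀ f : ℂ → D.N, f 0 = D.pt 0 0 → D.pt 0 0 ∈ f '' {t : ℂ | 0 ≤ t.im} :=
    fun f hf => ⟨0, le_refl (0 : ℝ), hf⟩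
  have c5 := IsPreconnected.union (D.pt 0 0) (Or.inr (m _ (by simp [h0]))) (m _ (by simp [h0]))
    (IsPreconnected.union (D.pt 0 0) (Or.inl (m _ (by simp [h0]))) (m _ (by simp [h0]))
      (IsPreconnected.union (D.pt 0 0) (m _ (by simp [h0])) (m _ (by simp [h0])) c1 c2) c3) c4
  have : PreconnectedSpace D.N := by
    refine ⟨c5.subset_closure (subset_univ _) fun z _ => ?_⟩
    by_cases hz : z = OnePoint.infty
    · subst hz
      refine mem_closure_of_tendsto (Dat.pt_tendsto (l := atTop) (T := fun n : ℕ => (n : ℂ))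
        (Yl := fun n => Conn_Y D n) (Eventually.of_forall fun n => hs _) ?_)
        (Eventually.of_forall fun n => Or.inl (Or.inl (Or.inl ⟨n, by simp, rfl⟩)))
      simpa using tendsto_natCast_atTop_atTop (R := ℝ)
    refine subset_closure ?_
    have h1 := Dat.pt_tt hz
    have h2 := Dat.yy_sq z
    rcases le_total 0 (D.tt z).im with h | h
    · rcases sq_eq_sq_iff_eq_or_eq_neg.1 (h2.trans (hs _).symm) with h3 | h3
      · exact Or.inl (Or.inl (Or.inl ⟨D.tt z, h, by rw [← h1]; simp [← h3, h1]⟩))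
      · exact Or.inl (Or.inl (Or.inr ⟨D.tt z, h, by rw [← h1]; simp [← h3, h1]⟩))
    · have h4 := hs' (conj (D.tt z))
      rw [conj_conj] at h4
      have h5 : conj (D.tt z) ∈ {t : ℂ | 0 ≤ t.im} := by simpa using h
      rcases sq_eq_sq_iff_eq_or_eq_neg.1 (h2.trans h4.symm) with h3 | h3
      · exact Or.inl (Or.inr ⟨_, h5, by simp [← h3, h1]⟩)
      · exact Or.inr ⟨_, h5, by simp [← h3, h1]⟩
  exact ⟨⟨OnePoint.infty⟩⟩

end Pool.Agent.MP_92463a_gt

end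
end

section

open Set Complex Filter Metric
open scoped Topology ComplexConjugate ContDiff Manifold

noncomputable section

namespace Pool.Agent.MP_92463a_gt

theorem Dat.Sol.realized {D : Dat} {X : ℂ → ℂ} (hD : D.Ok) (hX : D.Sol X) :
    Realized ((D.p + D.q) / 2) (D.q + 2) := by
  obtain ⟨A⟩ := hD.atl
  have hp := hX.proper hD
  exact ⟨D.N, inferInstance, A.charted, Dat.t2, inferInstance, hD.connected, A.isManifold hD,
    A.genus_eq hD, D.S, D.ff X, hD.card_S, hX.minimal hD A,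
    (Topology.IsClosedEmbedding.of_continuous_injective_isClosedMap hp.continuous (hX.inj hD)
      hp.isClosedMap).isEmbedding, hp⟩

end Pool.Agent.MP_92463a_gt

end
end
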