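import Pool.Agent.Mg.F92463a.Gea0143
import Pool.Agent.Mg.F92463a.G6119f0
import Pool.Agent.MP_943ae2_gt.Tych

section

open Set Complex Filter Metric
open scoped Topology ComplexConjugate ContDiff Manifold

noncomputable section

namespace Pool.Agent.MP_92463a_gt

variable {R : ℝ} {f g : ℂ → ℂ}

theorem cau1_norm (hR : 0 ≤ R) (θ : ℝ) : ‖circleMap 0 R θ‖ = R := by
  simp [abs_of_nonneg hR]

theorem cau1_int (hR : 0 ≤ R) (hf : ContinuousOn f {v | ‖v‖ = R}) : CircleIntegrable f 0 R :=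
  ContinuousOn.circleIntegrable hR (hf.mono fun v hv => by simpa using hv)

theorem cau1_def : av R f = (2 * Real.pi)⁻¹ • ∫ θ in (0 : ℝ)..2 * Real.pi, f (circleMap 0 R θ) :=
  rfl

theorem cau1_sub (η : ℝ) :
    av R f = (2 * Real.pi)⁻¹ • ∫ θ in (0 : ℝ)..2 * Real.pi, f (circleMap 0 R (η - θ)) := by
  rw [cau1_def, intervalIntegral.integral_comp_sub_left (fun θ => f (circleMap 0 R θ))]
  have t : Function.Periodic (fun θ => f (circleMap 0 R θ)) (2 * Real.pi) :=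
    fun x => by simp [periodic_circleMap 0 R x]
  have := t.intervalIntegral_add_eq (η - 2 * Real.pi) 0
  simp only [sub_add_cancel, zero_add] at this
  simp only [sub_zero, this]

theorem cau1_circ (hR : R ≠ 0) :
    av R f = (2 * Real.pi * I)⁻¹ • ∮ z in C(0, R), (z - 0)⁻¹ • f z :=
  Real.circleAverage_eq_circleIntegral hR

theorem av_norm_le {M : ℝ} (hR : 0 ≤ R) (h : ∀ v, ‖v‖ = R → ‖f v‖ ≤ M) : ‖av R f‖ ≤ M := by
  have hp := Real.pi_pos
  have := intervalIntegral.norm_integral_le_of_norm_le_const (a := 0) (b := 2 * Real.pi)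
    (f := fun θ => f (circleMap 0 R θ)) (C := M) fun θ _ => h _ (cau1_norm hR θ)
  rw [sub_zero, abs_of_pos (by positivity)] at this
  rw [cau1_def, norm_smul, norm_inv, Real.norm_of_nonneg (by positivity),
    inv_mul_le_iff₀ (by positivity), mul_comm _ M]
  exact this

theorem av_congr (hR : 0 ≤ R) (h : ∀ v, ‖v‖ = R → f v = g v) : av R f = av R g := by
  simp only [cau1_def, h _ (cau1_norm hR _)]

theorem av_add (hR : 0 ≤ R) (hf : ContinuousOn f {v | ‖v‖ = R})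
    (hg : ContinuousOn g {v | ‖v‖ = R}) : av R (fun v => f v + g v) = av R f + av R g :=
  Real.circleAverage_fun_add (cau1_int hR hf) (cau1_int hR hg)

theorem av_sub (hR : 0 ≤ R) (hf : ContinuousOn f {v | ‖v‖ = R})
    (hg : ContinuousOn g {v | ‖v‖ = R}) : av R (fun v => f v - g v) = av R f - av R g :=
  Real.circleAverage_fun_sub (cau1_int hR hf) (cau1_int hR hg)

theorem av_sum {ι : Type} (s : Finset ι) {F : ι → ℂ → ℂ} (hR : 0 ≤ R)
    (hF : ∀ i ∈ s, ContinuousOn (F i) {v | ‖v‖ = R}) :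
    av R (fun v => ∑ i ∈ s, F i v) = ∑ i ∈ s, av R (F i) :=
  Real.circleAverage_fun_sum fun i hi => cau1_int hR (hF i hi)

theorem av_const_mul (a : ℂ) : av R (fun v => a * f v) = a * av R f :=
  Real.circleAverage_fun_smul (a := a)

theorem av_const (a : ℂ) : av R (fun _ => a) = a :=
  Real.circleAverage_const a 0 R

theorem av_conj : av R (fun v => conj (f (conj v))) = conj (av R f) := by
  have h : ∀ θ : ℝ, conj (circleMap 0 R θ) = circleMap 0 R (0 - θ) := fun θ => by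
    simp [circleMap, ← exp_conj]
  have hp := Real.pi_pos
  rw [cau1_def, cau1_sub (f := f) 0]
  simp only [h]
  rw [intervalIntegral.integral_of_le (by positivity),
    intervalIntegral.integral_of_le (by positivity), integral_conj, real_smul, real_smul,
    map_mul, conj_ofReal]

theorem av_inv {s : ℂ} (hs : s ≠ 0) (hR : 0 < R) :
    av R (fun v => f (s / v)) = av (‖s‖ / R) f := by
  have h : ∀ θ : ℝ, s / circleMap 0 R θ = circleMap 0 (‖s‖ / R) (arg s - θ) := fun θ => by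
    have hR' : (R : ℂ) ≠ 0 := by exact_mod_cast hR.ne'
    simp only [circleMap, zero_add, ofReal_sub, ofReal_div, sub_mul, exp_sub]
    conv_lhs => rw [← norm_mul_exp_arg_mul_I s]
    field_simp
  rw [cau1_def, cau1_sub (f := f) (arg s)]
  simp only [h]

theorem av_scale {s : ℂ} : av R (fun v => f (s * v)) = av (‖s‖ * R) f := by
  have h : ∀ θ : ℝ, s * circleMap 0 R θ = circleMap 0 (‖s‖ * R) (θ + arg s) := fun θ => by
    simp only [circleMap, zero_add, ofReal_add, ofReal_mul, add_mul, exp_add]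
    conv_lhs => rw [← norm_mul_exp_arg_mul_I s]
    ring
  rw [cau1_def, av, Real.circleAverage_eq_integral_add (arg s)]
  simp only [h]

theorem cau1_radius {r₁ r₂ R' : ℝ} (h0 : 0 ≤ r₁)
    (hf : DifferentiableOn ℂ f {v | r₁ < ‖v‖ ∧ ‖v‖ < r₂}) (h1 : r₁ < R) (h : R ≤ R')
    (h4 : R' < r₂) : av R f = av R' f := by
  have hR : 0 < R := h0.trans_lt h1
  have ho : IsOpen {v : ℂ | r₁ < ‖v‖ ∧ ‖v‖ < r₂} :=
    (isOpen_lt continuous_const continuous_norm).inter (isOpen_lt continuous_norm continuous_const)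
  have hs : closedBall (0 : ℂ) R' \ ball 0 R ⊆ {v | r₁ < ‖v‖ ∧ ‖v‖ < r₂} := fun v hv => by
    simp only [Set.mem_sdiff, mem_closedBall_zero_iff, mem_ball_zero_iff, not_lt] at hv
    exact ⟨h1.trans_le hv.2, hv.1.trans_lt h4⟩
  rw [cau1_circ hR.ne', cau1_circ (hR.trans_le h).ne',
    circleIntegral_sub_center_inv_smul_eq_of_differentiable_on_annulus_off_countable hR h
      countable_empty (hf.continuousOn.mono hs) fun z hz =>
        hf.differentiableAt (ho.mem_nhds (hs ⟨ball_subset_closedBall hz.1.1,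
          fun h' => hz.1.2 (ball_subset_closedBall h')⟩))]

theorem av_radius {r₁ r₂ R' : ℝ} (h0 : 0 ≤ r₁)
    (hf : DifferentiableOn ℂ f {v | r₁ < ‖v‖ ∧ ‖v‖ < r₂}) (h1 : r₁ < R) (h2 : R < r₂)
    (h3 : r₁ < R') (h4 : R' < r₂) : av R f = av R' f := by
  rcases le_total R R' with h | h
  · exact cau1_radius h0 hf h1 h h4
  · exact (cau1_radius h0 hf h3 h h2).symm

theorem cau1_dc {r : ℝ} (hr : R < r) (hf : DifferentiableOn ℂ f (ball 0 r)) :
    DiffContOnCl ℂ f (ball 0 R) :=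
  hf.diffContOnCl_ball (closedBall_subset_ball hr)

theorem av_center {r : ℝ} (hR : 0 ≤ R) (hr : R < r) (hf : DifferentiableOn ℂ f (ball 0 r)) :
    av R f = f 0 :=
  DiffContOnCl.circleAverage (by rw [abs_of_nonneg hR]; exact cau1_dc hr hf)

theorem av_cauchy {r : ℝ} {u : ℂ} (hu : ‖u‖ < R) (hr : R < r)
    (hf : DifferentiableOn ℂ f (ball 0 r)) : av R (fun v => f v * v / (v - u)) = f u := by
  have hR : 0 ≤ R := (norm_nonneg u).trans hu.le
  have := DiffContOnCl.circleAverage_smul_div (c := 0) (R := R) (f := f) (w := u)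
    (by rw [abs_of_nonneg hR]; exact cau1_dc hr hf) (by simpa [abs_of_nonneg hR] using hu)
  rw [← this]
  refine av_congr hR fun v _ => ?_
  simp only [sub_zero, smul_eq_mul]
  ring

theorem av_deriv {r : ℝ} (hR : 0 < R) (hr : R < r) (hf : DifferentiableOn ℂ f (ball 0 r)) :
    av R (fun v => f v / v) = deriv f 0 := by
  have h := (cau1_dc hr hf).deriv_eq_smul_circleIntegral hR
  have e : (fun z : ℂ => (z - 0)⁻¹ • (f z / z)) = fun z : ℂ => (1 / (z - 0) ^ 2) • f z := by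
    funext z
    simp only [sub_zero, smul_eq_mul]
    ring
  rw [cau1_circ hR.ne', e, h, inv_smul_smul₀ two_pi_I_ne_zero]

theorem av_eq_integral :
    (∫ θ in (-Real.pi)..Real.pi, f (R * exp (θ * I))) = 2 * Real.pi * av R f := by
  have t : Function.Periodic (fun θ => f (circleMap 0 R θ)) (2 * Real.pi) :=
    fun x => by simp [periodic_circleMap 0 R x]
  have := t.intervalIntegral_add_eq (-Real.pi) 0
  rw [zero_add, show -Real.pi + 2 * Real.pi = Real.pi by ring] at this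
  have hp : (Real.pi : ℂ) ≠ 0 := by exact_mod_cast Real.pi_ne_zero
  rw [cau1_def, ← this]
  simp only [circleMap, zero_add, real_smul]
  push_cast
  rw [← mul_assoc, mul_inv_cancel₀ (mul_ne_zero two_ne_zero hp), one_mul]

theorem av_hasDerivAt {U : Set ℂ} (hR : 0 ≤ R) (hU : IsOpen U) {k k' : ℂ → ℂ → ℂ}
    (hc : ContinuousOn (fun z : ℂ × ℂ => k z.1 z.2) {z | ‖z.1‖ = R ∧ z.2 ∈ U})
    (hc' : ContinuousOn (fun z : ℂ × ℂ => k' z.1 z.2) {z | ‖z.1‖ = R ∧ z.2 ∈ U})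
    (hd : ∀ v, ‖v‖ = R → ∀ u ∈ U, HasDerivAt (k v) (k' v u) u) {u : ℂ} (hu : u ∈ U) :
    HasDerivAt (fun w => av R fun v => k v w) (av R fun v => k' v u) u := by
  obtain ⟨δ, hδ, hb⟩ := nhds_basis_closedBall.mem_iff.1 (hU.mem_nhds hu)
  have hK : IsCompact (sphere (0 : ℂ) R ×ˢ closedBall u δ) :=
    (isCompact_sphere 0 R).prod (isCompact_closedBall u δ)
  obtain ⟨M, hM⟩ := hK.exists_bound_of_continuousOn
    (hc'.mono fun z hz => ⟨by simpa using hz.1, hb hz.2⟩)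
  have cont : ∀ {l : ℂ → ℂ → ℂ},
      ContinuousOn (fun z : ℂ × ℂ => l z.1 z.2) {z | ‖z.1‖ = R ∧ z.2 ∈ U} → ∀ w ∈ U,
      Continuous fun θ : ℝ => l (circleMap 0 R θ) w := fun {l} hl w hw =>
    hl.comp_continuous (f := fun θ : ℝ => (circleMap 0 R θ, w)) (by fun_prop)
      fun θ => ⟨cau1_norm hR θ, hw⟩
  have h := intervalIntegral.hasDerivAt_integral_of_dominated_loc_of_deriv_le
    (μ := MeasureTheory.volume) (a := 0) (b := 2 * Real.pi) (𝕜 := ℂ)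
    (F := fun w θ => k (circleMap 0 R θ) w) (F' := fun w θ => k' (circleMap 0 R θ) w)
    (x₀ := u) (s := closedBall u δ) (bound := fun _ => M) (closedBall_mem_nhds u hδ)
    (by
      filter_upwards [hU.mem_nhds hu] with w hw
      exact (cont hc w hw).aestronglyMeasurable)
    ((cont hc u hu).intervalIntegrable _ _) (cont hc' u hu).aestronglyMeasurable
    (Eventually.of_forall fun θ _ w hw =>
      hM (circleMap 0 R θ, w) ⟨by simpa using cau1_norm hR θ, hw⟩)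
    intervalIntegrable_const
    (Eventually.of_forall fun θ _ w hw => hd _ (cau1_norm hR θ) w (hb hw))
  exact h.2.const_smul (2 * Real.pi)⁻¹

theorem cau1_contOn {T : Type} [TopologicalSpace T] [FirstCountableTopology T] {S : Set T}
    {r : T → ℝ} {k : T → ℂ → ℂ} (hr : ContinuousOn r S) (h0 : ∀ x ∈ S, 0 ≤ r x)
    (hk : ContinuousOn (fun z : T × ℂ => k z.1 z.2) {z | z.1 ∈ S ∧ ‖z.2‖ = r z.1}) :
    ContinuousOn (fun x => av (r x) (k x)) S := by
  rw [continuousOn_iff_continuous_domRestrict] at hr ⊢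
  have h1 : Continuous fun p : S × ℝ => r p.1.1 := hr.comp continuous_fst
  have h2 : Continuous fun p : S × ℝ => k p.1.1 (circleMap 0 (r p.1.1) p.2) :=
    hk.comp_continuous (f := fun p : S × ℝ => (p.1.1, circleMap 0 (r p.1.1) p.2))
      ((continuous_subtype_val.comp continuous_fst).prodMk
        (Real.circleMap.continuous.comp (h1.prodMk continuous_snd)))
      fun p => ⟨p.1.2, cau1_norm (h0 _ p.1.2) _⟩
  exact (intervalIntegral.continuous_parametric_intervalIntegral_of_continuous'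
    (μ := MeasureTheory.volume) (f := fun (x : S) (θ : ℝ) => k x.1 (circleMap 0 (r x.1) θ))
    h2 0 (2 * Real.pi)).const_smul (2 * Real.pi)⁻¹

theorem av_hol {U : Set ℂ} (hR : 0 ≤ R) (hU : IsOpen U) {k : ℂ → ℂ → ℂ}
    (hc : ContinuousOn (fun z : ℂ × ℂ => k z.1 z.2) {z | ‖z.1‖ = R ∧ z.2 ∈ U})
    (hd : ∀ v, ‖v‖ = R → DifferentiableOn ℂ (k v) U) :
    DifferentiableOn ℂ (fun w => av R fun v => k v w) U := by
  intro u hu
  obtain ⟨ε, hε, hb⟩ := Metric.isOpen_iff.1 hU u hu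
  have hδ : 0 < ε / 3 := by positivity
  have hin : ∀ x ∈ ball u (ε / 3), ∀ w : ℂ, ‖w‖ < 2 * (ε / 3) → x + w ∈ U := fun x hx w hw => by
    apply hb
    rw [mem_ball_iff_norm] at hx ⊢
    calc ‖x + w - u‖ = ‖(x - u) + w‖ := by ring_nf
      _ ≤ ‖x - u‖ + ‖w‖ := norm_add_le _ _
      _ < ε := by linarith
  have hsub : ball u (ε / 3) ⊆ U := fun x hx => by simpa using hin x hx 0 (by simpa using hε)
  have hc' : ContinuousOn (fun z : ℂ × ℂ => av (ε / 3) fun w => k z.1 (z.2 + w) / w)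
      {z | ‖z.1‖ = R ∧ z.2 ∈ ball u (ε / 3)} := by
    refine cau1_contOn (T := ℂ × ℂ) (r := fun _ => ε / 3) (k := fun z w => k z.1 (z.2 + w) / w)
      continuousOn_const (fun _ _ => hδ.le) (ContinuousOn.div ?_ continuousOn_snd ?_)
    · exact hc.comp (f := fun z : (ℂ × ℂ) × ℂ => (z.1.1, z.1.2 + z.2)) (by fun_prop)
        fun z hz => ⟨hz.1.1, hin _ hz.1.2 _ (by rw [hz.2]; linarith)⟩
    · intro z hz h
      have := hz.2
      rw [h, norm_zero] at this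
      linarith
  refine (av_hasDerivAt hR isOpen_ball
    (k' := fun v x => av (ε / 3) fun w => k v (x + w) / w)
    (hc.mono fun z hz => ⟨hz.1, hsub hz.2⟩) hc' (fun v hv x hx => ?_)
    (mem_ball_self hδ)).differentiableAt.differentiableWithinAt
  have h1 : DifferentiableOn ℂ (fun w => k v (x + w)) (ball 0 (2 * (ε / 3))) :=
    (hd v hv).comp (by fun_prop) fun w hw => hin x hx w (by simpa using hw)
  rw [av_deriv hδ (by linarith) h1, deriv_comp_const_add, add_zero]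
  exact ((hd v hv).differentiableAt (hU.mem_nhds (hsub hx))).hasDerivAt

theorem av_contOn {T : Type} [TopologicalSpace T] [FirstCountableTopology T] {S : Set T}
    {r : T → ℝ} {k : T → ℂ → ℂ} (hr : ContinuousOn r S) (h0 : ∀ x ∈ S, 0 ≤ r x)
    (hk : ContinuousOn (fun z : T × ℂ => k z.1 z.2) {z | z.1 ∈ S ∧ ‖z.2‖ = r z.1}) :
    ContinuousOn (fun x => av (r x) (k x)) S :=
  cau1_contOn hr h0 hk

end Pool.Agent.MP_92463a_gt

end
end

section

open Set Complex Filter Metric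
open scoped Topology ComplexConjugate ContDiff Manifold

noncomputable section

namespace Pool.Agent.MP_92463a_gt

variable {α : Type} {l : Filter α}

theorem Tool3_mem {a b y : ℝ} (hy : y ∈ Icc (0 : ℝ) 1) : a + y * (b - a) ∈ uIcc a b := by
  rw [mem_uIcc]
  rcases le_total a b with h | h
  · exact Or.inl ⟨by nlinarith [hy.1], by nlinarith [hy.2]⟩
  · exact Or.inr ⟨by nlinarith [hy.2], by nlinarith [hy.1]⟩

theorem Tool3_cont {f : ℝ → ℂ} {a b : ℝ} (h : ContinuousOn f (uIcc a b)) :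
    ContinuousOn (fun y : ℝ => f (a + y * (b - a))) (Icc 0 1) :=
  h.comp (f := fun y : ℝ => a + y * (b - a)) (by fun_prop) fun _ hy => Tool3_mem hy

theorem Tool3_int (f : ℝ → ℂ) (a b : ℝ) :
    ∫ θ in a..b, f θ = (b - a) • ∫ y in (0 : ℝ)..1, f (a + y * (b - a)) := by
  have := intervalIntegral.smul_integral_comp_add_mul (a := 0) (b := 1) f (b - a) a
  simp only [zero_mul, add_zero, one_mul, add_sub_cancel, mul_comm (b - a)] at this
  exact this.symm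

theorem Tool3_der (x₀ R : ℂ) (θ : ℝ) :
    HasDerivAt (fun θ : ℝ => x₀ + R * exp (θ * I)) (R * exp (θ * I) * I) θ := by
  simpa [mul_assoc] using
    (((ofRealCLM.hasDerivAt (x := θ)).mul_const I).cexp.const_mul R).const_add x₀

theorem ev_compact {β : Type} [TopologicalSpace β] {K : Set β} (hK : IsCompact K)
    {p : α → β → Prop} (h : ∀ y ∈ K, ∀ᶠ z : α × β in l ×ˢ 𝓝[K] y, p z.1 z.2) :
    ∀ᶠ x in l, ∀ y ∈ K, p x y := by
  refine hK.induction_on (p := fun s => ∀ᶠ x in l, ∀ y ∈ s, p x y) (by simp)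
    (fun s t hst ht => ht.mono fun x hx y hy => hx y (hst hy))
    (fun s t hs ht => (hs.and ht).mono fun x hx y hy => hy.elim (hx.1 y) (hx.2 y)) fun y hy => ?_
  obtain ⟨pa, ha, pb, hb, h1⟩ := eventually_prod_iff.1 (h y hy)
  exact ⟨{y | pb y}, hb, ha.mono fun x hx y hy => h1 hx hy⟩

theorem unif_of_joint {β E : Type} [TopologicalSpace β] [PseudoMetricSpace E] {K : Set β}
    (hK : IsCompact K) {f : α → β → E} {f₀ : β → E} (h₀ : ContinuousOn f₀ K)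
    (h : ∀ y ∈ K, Tendsto (fun z : α × β => f z.1 z.2) (l ×ˢ 𝓝[K] y) (𝓝 (f₀ y))) :
    TendstoUniformlyOn f f₀ l K := by
  refine Metric.tendstoUniformlyOn_iff.2 fun ε hε => ev_compact hK fun y hy => ?_
  have h1 := ((h₀ y hy).tendsto.comp tendsto_snd).dist (h y hy)
  rw [dist_self] at h1
  exact h1.eventually (gt_mem_nhds hε)

theorem int_tendsto {f : α → ℝ → ℂ} {f₀ : ℝ → ℂ} {a b : α → ℝ} {a₀ b₀ : ℝ}
    (ha : Tendsto a l (𝓝 a₀)) (hb : Tendsto b l (𝓝 b₀)) (h₀ : ContinuousOn f₀ (uIcc a₀ b₀))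
    (hc : ∀ᶠ x in l, ContinuousOn (f x) (uIcc (a x) (b x)))
    (h : ∀ y ∈ Icc (0 : ℝ) 1,
      Tendsto (fun z : α × ℝ => f z.1 (a z.1 + z.2 * (b z.1 - a z.1))) (l ×ˢ 𝓝[Icc 0 1] y)
        (𝓝 (f₀ (a₀ + y * (b₀ - a₀))))) :
    Tendsto (fun x => ∫ θ in a x..b x, f x θ) l (𝓝 (∫ θ in a₀..b₀, f₀ θ)) := by
  have c₀ := Tool3_cont h₀
  have hu := unif_of_joint (f := fun x y => f x (a x + y * (b x - a x))) isCompact_Icc c₀ h
  rw [Tool3_int f₀]
  refine Tendsto.congr (fun x => (Tool3_int (f x) (a x) (b x)).symm)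
    ((hb.sub ha).smul (Metric.tendsto_nhds.2 fun ε hε => ?_))
  filter_upwards [hc, Metric.tendstoUniformlyOn_iff.1 hu (ε / 2) (half_pos hε)] with x h1 h2
  rw [dist_comm, dist_eq_norm, ← intervalIntegral.integral_sub
    (c₀.intervalIntegrable_of_Icc zero_le_one)
    ((Tool3_cont h1).intervalIntegrable_of_Icc zero_le_one)]
  refine (intervalIntegral.norm_integral_le_of_norm_le_const (C := ε / 2) fun y hy => ?_).trans_lt
    (by simpa using hε)
  rw [uIoc_of_le zero_le_one] at hy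
  exact (dist_eq_norm _ _).ge.trans (h2 y (Ioc_subset_Icc_self hy)).le

theorem int_contOn {T : Type} [TopologicalSpace T] {S : Set T} {f : T → ℝ → ℂ} {a b : T → ℝ}
    (ha : ContinuousOn a S) (hb : ContinuousOn b S)
    (hf : ContinuousOn (fun z : T × ℝ => f z.1 z.2) {z | z.1 ∈ S ∧ z.2 ∈ uIcc (a z.1) (b z.1)}) :
    ContinuousOn (fun x => ∫ θ in a x..b x, f x θ) S := by
  have hc : ∀ x ∈ S, ContinuousOn (f x) (uIcc (a x) (b x)) := fun x hx =>
    hf.comp (f := fun θ : ℝ => (x, θ)) (by fun_prop) fun θ hθ => ⟨hx, hθ⟩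
  intro x hx
  refine int_tendsto (ha x hx) (hb x hx) (hc x hx) (eventually_mem_nhdsWithin.mono hc)
    fun y hy => ?_
  have h1 : ContinuousOn (fun z : T × ℝ => a z.1) (S ×ˢ Icc 0 1) :=
    ha.comp continuousOn_fst fun z hz => hz.1
  have h2 : ContinuousOn (fun z : T × ℝ => b z.1) (S ×ˢ Icc 0 1) :=
    hb.comp continuousOn_fst fun z hz => hz.1
  rw [← nhdsWithin_prod_eq]
  exact hf.comp (f := fun z : T × ℝ => (z.1, a z.1 + z.2 * (b z.1 - a z.1)))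
    (continuousOn_fst.prodMk (h1.add (continuousOn_snd.mul (h2.sub h1))))
    (fun z hz => ⟨hz.1, Tool3_mem hz.2⟩) (x, y) ⟨hx, hy⟩

theorem av_tendsto {R : α → ℝ} {f : α → ℂ → ℂ} {g : ℂ → ℂ} {s : α → ℂ} {r : ℝ} (hr : 0 ≤ r)
    (hR : ∀ᶠ x in l, R x = ‖s x‖ * r ∧ ContinuousOn (f x) {v | ‖v‖ = R x})
    (hg : ContinuousOn g {w | ‖w‖ = r})
    (h : ∀ w, ‖w‖ = r → Tendsto (fun z : α × ℂ => f z.1 (s z.1 * z.2))
      (l ×ˢ 𝓝[{w | ‖w‖ = r}] w) (𝓝 (g w))) :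
    Tendsto (fun x => av (R x) (f x)) l (𝓝 (av r g)) := by
  have hK : IsCompact {w : ℂ | ‖w‖ = r} := by
    convert isCompact_sphere (0 : ℂ) r using 1
    ext w
    simp
  have hu := unif_of_joint (f := fun x w => f x (s x * w)) hK hg h
  refine Metric.tendsto_nhds.2 fun ε hε => ?_
  filter_upwards [hR, Metric.tendstoUniformlyOn_iff.1 hu (ε / 2) (half_pos hε)] with x h1 h2
  have h3 : ContinuousOn (fun w => f x (s x * w)) {w | ‖w‖ = r} :=
    h1.2.comp (by fun_prop) fun w (hw : ‖w‖ = r) => by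
      change ‖s x * w‖ = R x
      rw [norm_mul, hw, h1.1]
  rw [h1.1, ← av_scale, dist_comm, dist_eq_norm, ← av_sub hr hg h3]
  exact (av_norm_le hr fun v hv => (dist_eq_norm _ _).ge.trans (h2 v hv).le).trans_lt
    (half_lt_self hε)

theorem pathP_of {V : Set ℂ} (hV : IsOpen V) {X f₁ f₂ : ℂ → ℂ}
    (hX : ContinuousOn X {t | 0 ≤ t.im ∧ t ∈ V}) (h₁ : ContinuousOn f₁ {t | 0 ≤ t.im ∧ t ∈ V})
    (h₂ : ContinuousOn f₂ {t | 0 ≤ t.im ∧ t ∈ V})
    (hd : ∀ t ∈ V, 0 < t.im → HasFDerivAt X (wl (f₁ t) (f₂ t)) t) :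
    PathP {t | 0 ≤ t.im ∧ t ∈ V} X f₁ f₂ := by
  refine ⟨h₁, h₂, fun γ γ' a b hγ hγ' hS => ?_⟩
  have hc : ContinuousOn γ (uIcc a b) := fun x hx => (hγ x hx).continuousAt.continuousWithinAt
  obtain ⟨δ, hδ, hT⟩ := (isCompact_uIcc.image_of_continuousOn hc).exists_cthickening_subset_open
    hV (by rintro _ ⟨x, hx, rfl⟩; exact (hS x hx).2)
  have hm : ∀ η ∈ Icc 0 δ, ∀ x ∈ uIcc a b, γ x + η * I ∈ {t : ℂ | 0 ≤ t.im ∧ t ∈ V} := by
    intro η hη x hx
    refine ⟨by simpa using add_nonneg (hS x hx).1 hη.1,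
      hT (mem_cthickening_of_dist_le _ (γ x) _ _ ⟨x, hx, rfl⟩ ?_)⟩
    simpa [abs_of_nonneg hη.1] using hη.2
  have hg : ContinuousOn (fun z : ℝ × ℝ => γ z.2 + z.1 * I) {z | z.1 ∈ Icc 0 δ ∧ z.2 ∈ uIcc a b} :=
    (hc.comp continuousOn_snd fun z hz => hz.2).add (by fun_prop)
  have hg' : ContinuousOn (fun z : ℝ × ℝ => γ' z.2) {z | z.1 ∈ Icc 0 δ ∧ z.2 ∈ uIcc a b} :=
    hγ'.comp continuousOn_snd fun z hz => hz.2
  have hF : ContinuousOn (fun z : ℝ × ℝ => f₁ (γ z.2 + z.1 * I) * γ' z.2 -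
      conj (f₂ (γ z.2 + z.1 * I) * γ' z.2)) {z | z.1 ∈ Icc 0 δ ∧ z.2 ∈ uIcc a b} :=
    ((h₁.comp hg fun z hz => hm _ hz.1 _ hz.2).mul hg').sub (continuous_conj.comp_continuousOn
      ((h₂.comp hg fun z hz => hm _ hz.1 _ hz.2).mul hg'))
  have hΦ := int_contOn (S := Icc 0 δ) (a := fun _ => a) (b := fun _ => b)
    (f := fun (η x : ℝ) => f₁ (γ x + η * I) * γ' x - conj (f₂ (γ x + η * I) * γ' x))
    continuousOn_const continuousOn_const hF
  have hX' : ∀ x ∈ uIcc a b, ContinuousOn (fun η : ℝ => X (γ x + η * I)) (Icc 0 δ) :=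
    fun x hx => hX.comp (f := fun η : ℝ => γ x + η * I) (by fun_prop) fun η hη => hm η hη x hx
  have heq : EqOn (fun η : ℝ => X (γ b + η * I) - X (γ a + η * I))
      (fun η : ℝ => ∫ x in a..b, (f₁ (γ x + η * I) * γ' x - conj (f₂ (γ x + η * I) * γ' x)))
      (Ioc 0 δ) := by
    intro η hη
    have hη' := Ioc_subset_Icc_self hη
    refine (intervalIntegral.integral_eq_sub_of_hasDerivAt (f := fun x => X (γ x + η * I))
      (fun x hx => ?_) (hF.comp (f := fun x : ℝ => (η, x)) (by fun_prop)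
        fun x hx => ⟨hη', hx⟩).intervalIntegrable).symm
    have h3 := (hd _ (hm η hη' x hx).2 (by
      simpa using add_pos_of_nonneg_of_pos (hS x hx).1 hη.1)).comp_hasDerivAt x
        ((hγ x hx).add_const (η * I))
    rw [wl_apply] at h3
    exact h3
  have h0 := heq.of_subset_closure ((hX' b right_mem_uIcc).sub (hX' a left_mem_uIcc)) hΦ
    Ioc_subset_Icc_self (closure_Ioc hδ.ne).ge ⟨le_rfl, hδ.le⟩
  simpa using h0

theorem PathP.swap {S : Set ℂ} {X f₁ f₂ : ℂ → ℂ} (h : PathP S X f₁ f₂) :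
    PathP S (fun t => -conj (X t)) f₂ f₁ := by
  refine ⟨h.c₂, h.c₁, fun γ γ' a b hγ hγ' hS => ?_⟩
  rw [← neg_sub', ← map_sub, h.ftc γ γ' a b hγ hγ' hS, ← intervalIntegral.intervalIntegral_conj,
    ← intervalIntegral.integral_neg]
  simp

theorem PathP.arc {S : Set ℂ} {X f₁ f₂ : ℂ → ℂ} (h : PathP S X f₁ f₂) {x₀ : ℂ} {R a b : ℝ}
    (hS : ∀ θ ∈ uIcc a b, x₀ + R * exp (θ * I) ∈ S) :
    X (x₀ + R * exp (b * I)) - X (x₀ + R * exp (a * I)) = arcI f₁ f₂ x₀ R a b := by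
  exact h.ftc (fun θ => x₀ + R * exp (θ * I)) (fun θ => R * exp (θ * I) * I) a b
    (fun θ _ => Tool3_der x₀ R θ) (by fun_prop) hS

theorem PathP.seg {S : Set ℂ} {X f₁ f₂ : ℂ → ℂ} (h : PathP S X f₁ f₂) {t₀ t₁ : ℂ}
    (hS : ∀ x ∈ Icc (0 : ℝ) 1, t₀ + x * (t₁ - t₀) ∈ S) : X t₁ - X t₀ = segI f₁ f₂ t₀ t₁ := by
  have := h.ftc (fun x => t₀ + x * (t₁ - t₀)) (fun _ => t₁ - t₀) 0 1
    (fun x _ => by
      simpa using ((ofRealCLM.hasDerivAt (x := x)).mul_const (t₁ - t₀)).const_add t₀)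
    continuousOn_const (by rwa [uIcc_of_le zero_le_one])
  simpa [segI] using this

theorem PathP.lk {S : Set ℂ} {X f₁ f₂ : ℂ → ℂ} (h : PathP S X f₁ f₂) (ty : Bool) {x₀ x₁ : ℝ}
    (hS : ∀ θ ∈ Icc 0 Real.pi, ((x₀ + x₁) / 2 + (x₀ - x₁) / 2 * exp (θ * I) : ℂ) ∈ S) :
    Lk f₁ f₂ ty x₀ x₁ = (if ty then im else re) (X x₁ - X x₀) := by
  have := h.ftc (fun θ => (x₀ + x₁) / 2 + (x₀ - x₁) / 2 * exp (θ * I))
    (fun θ => (x₀ - x₁) / 2 * exp (θ * I) * I) 0 Real.pi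
    (fun θ _ => Tool3_der _ _ θ) (by fun_prop) (by rwa [uIcc_of_le Real.pi_pos.le])
  rw [Lk, ← this, exp_pi_mul_I, ofReal_zero, zero_mul, exp_zero]
  congr 3 <;> ring

theorem Dat.Pre.pathP {D : Dat} {X : ℂ → ℂ} (hD : D.Ok) (hX : D.Pre X) :
    PathP {t | 0 ≤ t.im ∧ D.P t ≠ 0} X D.F1 D.F2 := by
  have _ := hD
  have hn : ∀ t, D.P t ≠ 0 → t ≠ 0 := fun t hP h => hP (Dat.P_eq_zero.2 (Or.inl (Or.inl h)))
  exact pathP_of (V := {t | D.P t ≠ 0}) (isOpen_ne_fun Dat.P_diff.continuous continuous_const)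
    (hX.cont.mono fun t ht => ⟨ht.1, fun h => ht.2 (Dat.P_eq_zero.2 (Or.inl h))⟩)
    (Dat.G_cont.div continuousOn_id fun t ht => hn t ht.2)
    ((Dat.G_cont.mul continuousOn_id).inv₀ fun t ht => mul_ne_zero (Dat.G_ne t) (hn t ht.2))
    fun t _ ht => hX.der t ht

end Pool.Agent.MP_92463a_gt

end
end

section

open Set Complex Filter Metric
open scoped Topology ComplexConjugate ContDiff Manifold

noncomputable section

namespace Pool.Agent.MP_92463a_gt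

namespace Dat

variable {α β : Type} {l : Filter α} {D : α → Dat} {D₀ : Dat}

theorem Tends.comp (h : Tends l D D₀) {l' : Filter β} {φ : β → α} (hφ : Tendsto φ l' l) :
    Tends l' (fun x => D (φ x)) D₀ :=
  ⟨h.ok₀, hφ.eventually h.ok, fun i hi => (h.a i hi).comp hφ, fun j hj => (h.b j hj).comp hφ,
    h.ρ.comp hφ⟩

theorem DatC_re {f : α → ℝ} {c : ℝ} (h : Tendsto f l (𝓝 c)) :
    Tendsto (fun x => (f x : ℂ)) l (𝓝 (c : ℂ)) :=
  (continuous_ofReal.tendsto c).comp h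

theorem Tends.P (h : Tends l D D₀) {t : α → ℂ} {t₀ : ℂ} (ht : Tendsto t l (𝓝 t₀)) :
    Tendsto (fun x => (D x).P (t x)) l (𝓝 (D₀.P t₀)) := by
  refine Tendsto.congr' ?_ ((ht.mul (tendsto_finsetProd (Finset.range D₀.q) fun j hj =>
    ht.add (DatC_re (h.b j (Finset.mem_range.1 hj))))).mul
      (tendsto_finsetProd (Finset.range D₀.p) fun i hi =>
        (DatC_re (h.a i (Finset.mem_range.1 hi))).sub ht))
  filter_upwards [h.ok] with x hx
  rw [Dat.P, hx.2.1, hx.2.2]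

theorem DatC_log {t : α → ℂ} {t₀ : ℂ} (ht : Tendsto t l (𝓝 t₀))
    (hi : ∀ᶠ x in l, 0 ≤ (t x).im) (h₀ : 0 ≤ t₀.im) (hn : t₀ ≠ 0) :
    Tendsto (fun x => log (t x)) l (𝓝 (log t₀)) :=
  (Alg_log_cont t₀ ⟨h₀, hn⟩).tendsto.comp
    (tendsto_nhdsWithin_iff.2 ⟨ht, hi.and (ht.eventually_ne hn)⟩)

theorem Tends.G (h : Tends l D D₀) {t : α → ℂ} {t₀ : ℂ} (ht : Tendsto t l (𝓝 t₀))
    (hi : ∀ᶠ x in l, 0 ≤ (t x).im) (h₀ : 0 ≤ t₀.im) (hP : D₀.P t₀ ≠ 0) :
    Tendsto (fun x => (D x).G (t x)) l (𝓝 (D₀.G t₀)) := by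
  obtain ⟨h0, h1, h2⟩ := Alg_ne hP
  have e1 : ∀ j ∈ Finset.range D₀.q, Tendsto
      (fun x => (sg j * (3 / 2) * log (t x + (D x).b j) : ℂ)) l
      (𝓝 (sg j * (3 / 2) * log (t₀ + D₀.b j))) := fun j hj =>
    (DatC_log (ht.add (DatC_re (h.b j (Finset.mem_range.1 hj)))) (by simpa using hi)
      (by simpa using h₀) (h1 j hj)).const_mul _
  have e2 : ∀ i ∈ Finset.range D₀.p, Tendsto
      (fun x => (sg i * (1 / 2) * lm ((D x).a i) (t x) : ℂ)) l
      (𝓝 (sg i * (1 / 2) * lm (D₀.a i) t₀)) := fun i hi' =>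
    ((DatC_log (ht.sub (DatC_re (h.a i (Finset.mem_range.1 hi')))) (by simpa using hi)
      (by simpa using h₀) fun h3 => h2 i hi' (by linear_combination -h3)).sub_const _).const_mul _
  refine Tendsto.congr' ?_ (((((DatC_re (h.ρ.log h.ok₀.ρ_pos.ne')).sub
    ((DatC_log ht hi h₀ h0).div_const 2)).add (tendsto_finsetSum _ e1)).sub
      (tendsto_finsetSum _ e2)).cexp)
  filter_upwards [h.ok] with x hx
  rw [Dat.G, LG, hx.2.1, hx.2.2]

theorem Ok.semi {D : Dat} {x₀ x₁ : ℝ} (h₀ : D.P x₀ ≠ 0) (h₁ : D.P x₁ ≠ 0) (hlt : x₁ < x₀) {θ : ℝ}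
    (hθ : θ ∈ Icc 0 Real.pi) :
    0 ≤ ((x₀ + x₁) / 2 + (x₀ - x₁) / 2 * exp (θ * I) : ℂ).im ∧
      D.P ((x₀ + x₁) / 2 + (x₀ - x₁) / 2 * exp (θ * I)) ≠ 0 := by
  have e : ((x₀ + x₁) / 2 + (x₀ - x₁) / 2 * exp (θ * I) : ℂ).im = (x₀ - x₁) / 2 * Real.sin θ := by
    rw [← ofReal_add, ← ofReal_sub, ← ofReal_ofNat, ← ofReal_div, ← ofReal_div, add_im, ofReal_im,
      zero_add, im_ofReal_mul, exp_ofReal_mul_I_im]
  have hp : 0 < (x₀ - x₁) / 2 := by linarith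
  refine ⟨e ▸ mul_nonneg hp.le (Real.sin_nonneg_of_mem_Icc hθ), ?_⟩
  rcases hθ.1.eq_or_lt with rfl | h2
  · convert h₀ using 2
    simp
    ring
  rcases hθ.2.eq_or_lt with rfl | h3
  · convert h₁ using 2
    rw [exp_pi_mul_I]
    ring
  exact ne_of_im (e ▸ (mul_pos hp (Real.sin_pos_of_pos_of_lt_pi h2 h3)).ne')

theorem DatC_cont {D : Dat} {x₀ x₁ : ℝ} (h₀ : D.P x₀ ≠ 0) (h₁ : D.P x₁ ≠ 0) (hlt : x₁ < x₀)
    {ψ₁ ψ₂ : ℂ → ℂ} (hψ : ∀ θ ∈ Icc 0 Real.pi,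
      ∀ t : ℂ, t = (x₀ + x₁) / 2 + (x₀ - x₁) / 2 * exp (θ * I) →
        ContinuousAt ψ₁ t ∧ ContinuousAt ψ₂ t) :
    ContinuousOn (fun θ : ℝ =>
      (fun t => ψ₁ t ^ 2 * (D.G t / t)) ((x₀ + x₁) / 2 + (x₀ - x₁) / 2 * exp (θ * I)) *
        ((x₀ - x₁) / 2 * exp (θ * I) * I) -
      conj ((fun t => ψ₂ t ^ 2 * (D.G t * t)⁻¹) ((x₀ + x₁) / 2 + (x₀ - x₁) / 2 * exp (θ * I)) *
        ((x₀ - x₁) / 2 * exp (θ * I) * I))) (Icc 0 Real.pi) := by
  have c0 : Continuous fun θ : ℝ => ((x₀ + x₁) / 2 + (x₀ - x₁) / 2 * exp (θ * I) : ℂ) := by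
    fun_prop
  have c1 : Continuous fun θ : ℝ => ((x₀ - x₁) / 2 * exp (θ * I) * I : ℂ) := by fun_prop
  have cG := (G_cont (D := D)).comp c0.continuousOn fun θ hθ => Ok.semi h₀ h₁ hlt hθ
  have hn : ∀ θ ∈ Icc 0 Real.pi, ((x₀ + x₁) / 2 + (x₀ - x₁) / 2 * exp (θ * I) : ℂ) ≠ 0 :=
    fun θ hθ => (Alg_ne (Ok.semi h₀ h₁ hlt hθ).2).1
  have p1 : ContinuousOn (fun θ : ℝ => ψ₁ ((x₀ + x₁) / 2 + (x₀ - x₁) / 2 * exp (θ * I)))
      (Icc 0 Real.pi) := fun θ hθ =>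
    ((hψ θ hθ _ rfl).1.comp_of_eq c0.continuousAt rfl).continuousWithinAt
  have p2 : ContinuousOn (fun θ : ℝ => ψ₂ ((x₀ + x₁) / 2 + (x₀ - x₁) / 2 * exp (θ * I)))
      (Icc 0 Real.pi) := fun θ hθ =>
    ((hψ θ hθ _ rfl).2.comp_of_eq c0.continuousAt rfl).continuousWithinAt
  exact (((p1.pow 2).mul (cG.div c0.continuousOn hn)).mul c1.continuousOn).sub
    (continuous_conj.comp_continuousOn (((p2.pow 2).mul ((cG.mul c0.continuousOn).inv₀
      fun θ hθ => mul_ne_zero (G_ne _) (hn θ hθ))).mul c1.continuousOn))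

/-- convergence of links with weights tending to one -/
theorem Tends.lk (h : Tends l D D₀) {u v : α → ℝ} {u₀ v₀ : ℝ} (hu : Tendsto u l (𝓝 u₀))
    (hv : Tendsto v l (𝓝 v₀)) (h₀ : D₀.P u₀ ≠ 0) (h₁ : D₀.P v₀ ≠ 0) (hlt : v₀ < u₀) (ty : Bool)
    {ψ₁ ψ₂ : α → ℂ → ℂ}
    (hψ : ∀ ε > 0, ∀ᶠ x in l, ∀ θ ∈ Icc 0 Real.pi,
      ∀ t : ℂ, t = (u x + v x) / 2 + (u x - v x) / 2 * exp (θ * I) →
        ContinuousAt (ψ₁ x) t ∧ ContinuousAt (ψ₂ x) t ∧ ‖ψ₁ x t - 1‖ ≤ ε ∧ ‖ψ₂ x t - 1‖ ≤ ε) :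
    Tendsto (fun x => Lk (fun t => ψ₁ x t ^ 2 * ((D x).G t / t))
      (fun t => ψ₂ x t ^ 2 * ((D x).G t * t)⁻¹) ty (u x) (v x)) l
      (𝓝 (Lk D₀.F1 D₀.F2 ty u₀ v₀)) := by
  have hc : Continuous (if ty then im else re) := by
    split_ifs
    exacts [continuous_im, continuous_re]
  have ev : ∀ᶠ x in l, (D x).P (u x) ≠ 0 ∧ (D x).P (v x) ≠ 0 ∧ v x < u x :=
    ((h.P (DatC_re hu)).eventually_ne h₀).and
      (((h.P (DatC_re hv)).eventually_ne h₁).and (hv.eventually_lt hu hlt))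
  have hI : uIcc 0 Real.pi = Icc 0 Real.pi := uIcc_of_le Real.pi_pos.le
  refine (hc.tendsto _).comp (int_tendsto (a := fun _ => 0) (b := fun _ => Real.pi)
    tendsto_const_nhds tendsto_const_nhds ?_ ?_ fun y hy => ?_)
  · rw [hI]
    simpa only [one_pow, one_mul, F1, F2] using DatC_cont (ψ₁ := fun _ => 1) (ψ₂ := fun _ => 1) h₀ h₁ hlt
      fun _ _ _ _ => ⟨continuousAt_const, continuousAt_const⟩
  · filter_upwards [ev, hψ 1 one_pos] with x h1 h2
    rw [hI]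
    exact DatC_cont h1.1 h1.2.1 h1.2.2 fun θ hθ t ht => ⟨(h2 θ hθ t ht).1, (h2 θ hθ t ht).2.1⟩
  have hm : ∀ y ∈ Icc (0 : ℝ) 1, 0 + y * (Real.pi - 0) ∈ Icc 0 Real.pi := fun y hy =>
    hI ▸ Tool3_mem hy
  have e1 : ∀ᶠ z : α × ℝ in l ×ˢ 𝓝[Icc 0 1] y, 0 + z.2 * (Real.pi - 0) ∈ Icc 0 Real.pi :=
    tendsto_snd.eventually (eventually_mem_nhdsWithin.mono hm)
  have hu' := DatC_re (hu.comp (tendsto_fst (g := 𝓝[Icc (0 : ℝ) 1] y)))
  have hv' := DatC_re (hv.comp (tendsto_fst (g := 𝓝[Icc (0 : ℝ) 1] y)))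
  have hθ : Tendsto (fun z : α × ℝ => exp ((0 + z.2 * (Real.pi - 0) : ℝ) * I))
      (l ×ˢ 𝓝[Icc 0 1] y) (𝓝 (exp ((0 + y * (Real.pi - 0) : ℝ) * I))) :=
    ((DatC_re (((tendsto_snd.mono_right nhdsWithin_le_nhds).mul_const _).const_add _)).mul_const
      _).cexp
  have hr := ((hu'.sub hv').div_const 2).mul hθ
  have ht := ((hu'.add hv').div_const 2).add hr
  have s₀ := Ok.semi h₀ h₁ hlt (hm y hy)
  have hG := (h.comp tendsto_fst).G ht (by
    filter_upwards [e1, tendsto_fst.eventually ev] with z h1 h2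
    exact (Ok.semi h2.1 h2.2.1 h2.2.2 h1).1) s₀.1 s₀.2
  have hn := (Alg_ne s₀.2).1
  have p1 : Tendsto (fun z : α × ℝ => ψ₁ z.1 ((u z.1 + v z.1) / 2 + (u z.1 - v z.1) / 2 *
      exp ((0 + z.2 * (Real.pi - 0) : ℝ) * I))) (l ×ˢ 𝓝[Icc 0 1] y) (𝓝 1) := by
    refine Metric.tendsto_nhds.2 fun ε hε => ?_
    filter_upwards [e1, tendsto_fst.eventually (hψ (ε / 2) (half_pos hε))] with z h1 h2
    exact (dist_eq_norm _ _).le.trans_lt ((h2 _ h1 _ rfl).2.2.1.trans_lt (half_lt_self hε))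
  have p2 : Tendsto (fun z : α × ℝ => ψ₂ z.1 ((u z.1 + v z.1) / 2 + (u z.1 - v z.1) / 2 *
      exp ((0 + z.2 * (Real.pi - 0) : ℝ) * I))) (l ×ˢ 𝓝[Icc 0 1] y) (𝓝 1) := by
    refine Metric.tendsto_nhds.2 fun ε hε => ?_
    filter_upwards [e1, tendsto_fst.eventually (hψ (ε / 2) (half_pos hε))] with z h1 h2
    exact (dist_eq_norm _ _).le.trans_lt ((h2 _ h1 _ rfl).2.2.2.trans_lt (half_lt_self hε))
  have := (((p1.pow 2).mul (hG.div ht hn)).mul (hr.mul_const I)).sub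
    ((continuous_conj.tendsto _).comp (((p2.pow 2).mul ((hG.mul ht).inv₀
      (mul_ne_zero (G_ne _) hn))).mul (hr.mul_const I)))
  rw [one_pow, one_mul, one_mul] at this
  exact this

theorem tends_of_cont {T : Type} [TopologicalSpace T] {S : Set T} {D : T → Dat} {p q : ℕ}
    (ok : ∀ x ∈ S, (D x).Ok ∧ (D x).p = p ∧ (D x).q = q)
    (ca : ∀ i < p, ContinuousOn (fun x => (D x).a i) S)
    (cb : ∀ j < q, ContinuousOn (fun x => (D x).b j) S) (cρ : ContinuousOn (fun x => (D x).ρ) S)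
    {x₀ : T} (hx : x₀ ∈ S) : Tends (𝓝[S] x₀) D (D x₀) := by
  obtain ⟨h1, h2, h3⟩ := ok x₀ hx
  exact ⟨h1, eventually_mem_nhdsWithin.mono fun x h => by rw [h2, h3]; exact ok x h,
    fun i hi => ca i (h2 ▸ hi) x₀ hx, fun j hj => cb j (h3 ▸ hj) x₀ hx, cρ x₀ hx⟩

end Dat

theorem DatC_cube {J : Type} : cube J = Set.pi univ fun _ => Icc (-1 : ℝ) 1 := by
  ext x
  simp only [cube, abs_le, mem_ofPred_eq, mem_univ_pi, mem_Icc]

theorem isCompact_cube {J : Type} [Fintype J] : IsCompact (cube J) := by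
  rw [DatC_cube]
  exact isCompact_univ_pi fun _ => isCompact_Icc

theorem convex_cube {J : Type} : Convex ℝ (cube J) := by
  rw [DatC_cube]
  exact convex_pi fun _ _ => convex_Icc _ _

theorem Dat.Ok.inS_ne {D : Dat} (hD : D.Ok) {s : Sg} {x : ℝ} (hx : D.InS s x) : D.P x ≠ 0 := by
  unfold Dat.InS at hx
  split_ifs at hx
  · obtain ⟨h0, h1, h2⟩ := hx
    refine Dat.Phase_ne h0.ne (fun j hj h => ?_) fun i hi h => by linarith [hD.a_pos i hi]
    rcases lt_or_ge j s.2 with h3 | h3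
    · linarith [h1 j h3]
    · linarith [h2 j h3 hj]
  · obtain ⟨h0, h1, h2⟩ := hx
    refine Dat.Phase_ne h0.ne' (fun j hj h => by linarith [hD.b_pos j hj]) fun i hi h => ?_
    rcases lt_or_ge i s.2 with h3 | h3
    · linarith [h1 i h3]
    · linarith [h2 i h3 hi]

theorem Fam.lk_cont {J : Type} [Fintype J] {p q : ℕ} (F : Fam J p q) (i : J) :
    ContinuousOn (fun x => Lk (F.D x).F1 (F.D x).F2 (F.su i).ty (F.u i x) (F.v i x)) (cube J) := by
  intro x hx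
  obtain ⟨h1, h2, h3⟩ := F.mem i x hx
  have hD := (F.ok x hx).1
  have := (Dat.tends_of_cont F.ok F.ca F.cb F.cρ hx).lk (F.cu i x hx) (F.cv i x hx)
    (hD.inS_ne h1) (hD.inS_ne h2) h3 (F.su i).ty (ψ₁ := fun _ _ => 1) (ψ₂ := fun _ _ => 1)
    fun ε hε => Eventually.of_forall fun _ _ _ _ _ =>
      ⟨continuousAt_const, continuousAt_const, by simpa using hε.le, by simpa using hε.le⟩
  simp only [one_pow, one_mul] at this
  exact this

end Pool.Agent.MP_92463a_gt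

end
end

section

open Set Complex Filter Metric
open scoped Topology ComplexConjugate ContDiff Manifold

noncomputable section

namespace Pool.Agent.MP_92463a_gt

namespace Pl

variable {ι : Type} {P : Pl ι} {m : ι × Bool → ℂ → ℂ} {r : ι × Bool → ℂ} {f : ℂ → ℂ}
  {e : ι × Bool} {t : ℂ} {M : ℝ}

theorem Ker_rin (h : P.Ok) (e : ι × Bool) : 16 * P.rin e ≤ P.ρ e := by
  have := h.rin_mu e
  have := h.mu_ρ e
  linarith

theorem Ker_w (h : P.Ok) {v : ℂ} (hv : ‖v‖ = P.ρ (op e)) : ‖P.s e.1 / v‖ < 2 * P.ρ e := by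
  have := Ker_rin h e
  have := h.rin_pos e
  rw [h.circ_rin hv]; linarith

theorem Ker_v (h : P.Ok) {v : ℂ} (hv : ‖v‖ = P.ρ (op e)) : ‖v‖ < 2 * P.ρ (op e) := by
  have := h.ρ_pos (op e)
  linarith

theorem Ker_ne (h : P.Ok) {v u : ℂ} (hv : ‖v‖ = P.ρ (op e)) (hu : P.rin e < ‖u‖) :
    u - P.s e.1 / v ≠ 0 := by
  intro h0
  rw [sub_eq_zero.1 h0, h.circ_rin hv] at hu
  exact lt_irrefl _ hu

theorem Ker_inv (h : P.Ok) {v u : ℂ} (hv : ‖v‖ = P.ρ (op e)) (hu : 2 * P.rin e ≤ ‖u‖) :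
    ‖(u - P.s e.1 / v)⁻¹‖ ≤ 2 * ‖u‖⁻¹ := by
  have h1 := h.rin_pos e
  have h2 := norm_sub_norm_le u (P.s e.1 / v)
  rw [h.circ_rin hv] at h2
  have h3 : 0 < ‖u‖ := by linarith
  rw [norm_inv]
  calc ‖u - P.s e.1 / v‖⁻¹ ≤ (‖u‖ / 2)⁻¹ := inv_anti₀ (by positivity) (by linarith)
    _ = 2 * ‖u‖⁻¹ := by field_simp

theorem Ker_k1 (h : P.Ok) (hm : P.Wt m) {v u : ℂ} (hv : ‖v‖ = P.ρ (op e))
    (hu : 2 * P.rin e ≤ ‖u‖) : ‖P.k1 m r e v u‖ ≤ 6 * ‖r e‖ / ‖u‖ := by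
  have h1 := (hm.ne (Ker_v h hv)).2.1
  have h2 := (hm.ne (Ker_w h hv)).2.2
  have h3 := Ker_inv h hv hu
  have e1 : P.k1 m r e v u =
      r e * (m (op e) v * ((m e (P.s e.1 / v))⁻¹ * (u - P.s e.1 / v)⁻¹)) := by
    simp only [k1, div_eq_mul_inv, mul_inv]; ring
  rw [e1, norm_mul, norm_mul, norm_mul]
  calc _ ≤ ‖r e‖ * (3 / 2 * (2 * (2 * ‖u‖⁻¹))) := by gcongr
    _ = _ := by rw [div_eq_mul_inv (6 * ‖r e‖)]; ring

theorem Ker_dif (h : P.Ok) (hm : P.Wt m) {v u : ℂ} (hv : ‖v‖ = P.ρ (op e))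
    (hu : 2 * P.rin e ≤ ‖u‖) : ‖(m e (P.s e.1 / v) * (u - P.s e.1 / v))⁻¹ - u⁻¹‖ ≤
      2 * P.rin e * ((P.ρ e)⁻¹ + ‖u‖⁻¹) / ‖u‖ := by
  have h0 := h.rin_pos e
  have hρ := h.ρ_pos e
  obtain ⟨h1, -, h2⟩ := hm.ne (Ker_w h hv)
  have h3 := Ker_inv h hv hu
  have h4 := hm.schwarz (Ker_w h hv)
  have h5 := Ker_ne h hv (u := u) (by linarith)
  have h6 : 0 < ‖u‖ := by linarith
  have h7 : u ≠ 0 := norm_pos_iff.1 h6
  have h8 := h.circ_rin hv
  generalize P.s e.1 / v = w at *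
  have e1 : (m e w * (u - w))⁻¹ - u⁻¹ =
      -(m e w - 1) * ((m e w)⁻¹ * (u - w)⁻¹) + w * (u⁻¹ * (u - w)⁻¹) := by
    field_simp; ring
  rw [e1]
  refine (norm_add_le _ _).trans ?_
  rw [norm_mul, norm_mul, norm_mul, norm_mul, norm_neg, norm_inv u]
  rw [h8] at h4 ⊢
  calc _ ≤ P.rin e / (4 * P.ρ e) * (2 * (2 * ‖u‖⁻¹)) + P.rin e * (‖u‖⁻¹ * (2 * ‖u‖⁻¹)) := by
        gcongr
    _ = 2 * P.rin e * ((P.ρ e)⁻¹ / 2 + ‖u‖⁻¹) / ‖u‖ := by field_simp; ring
    _ ≤ _ := by gcongr; exact half_le_self (by positivity)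

theorem Ker_k2 (h : P.Ok) (hm : P.Wt m) {v u : ℂ} (hv : ‖v‖ = P.ρ (op e))
    (hu : 2 * P.rin e ≤ ‖u‖) :
    ‖P.k2 m r e v u‖ ≤ 12 * ‖r e‖ * ((P.ρ e)⁻¹ + ‖u‖⁻¹) / ‖u‖ := by
  have h0 := h.rin_pos e
  have hρ := h.ρ_pos e
  have h1 := (hm.ne (Ker_v h hv)).2.1
  have h2 := Ker_dif h hm hv hu
  have h3 := h.rin_mul e
  have h4 : 0 < ‖P.s e.1‖ := norm_pos_iff.2 (h.s_ne _)
  have h6 : 0 < ‖u‖ := by linarith
  have h7 := h.ρ_pos (op e)
  simp only [k2, norm_mul, norm_div, hv]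
  calc _ ≤ ‖r e‖ / ‖P.s e.1‖ * P.ρ (op e) * (3 / 2) *
        (2 * P.rin e * ((P.ρ e)⁻¹ + ‖u‖⁻¹) / ‖u‖) := by gcongr
    _ = 3 * ‖r e‖ * ((P.ρ e)⁻¹ + ‖u‖⁻¹) / ‖u‖ := by rw [← h3]; field_simp
    _ ≤ _ := by gcongr; norm_num

theorem Ker_c0 (h : P.Ok) (hm : P.Wt m) (e : ι × Bool) :
    ContinuousOn (fun z : ℂ × ℂ => m (op e) z.1) {z | ‖z.1‖ = P.ρ (op e) ∧ P.rin e < ‖z.2‖} ∧
    ContinuousOn (fun z : ℂ × ℂ => (m e (P.s e.1 / z.1) * (z.2 - P.s e.1 / z.1))⁻¹)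
      {z | ‖z.1‖ = P.ρ (op e) ∧ P.rin e < ‖z.2‖} := by
  have hw : ContinuousOn (fun z : ℂ × ℂ => P.s e.1 / z.1)
      {z | ‖z.1‖ = P.ρ (op e) ∧ P.rin e < ‖z.2‖} :=
    continuousOn_const.div continuousOn_fst fun z hz =>
      norm_pos_iff.1 (hz.1 ▸ h.ρ_pos (op e))
  refine ⟨(hm.hol (op e)).continuousOn.comp continuousOn_fst fun z hz =>
    mem_ball_zero_iff.2 (Ker_v h hz.1), ContinuousOn.inv₀ (ContinuousOn.mul
      ((hm.hol e).continuousOn.comp hw fun z hz => mem_ball_zero_iff.2 (Ker_w h hz.1))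
      (continuousOn_snd.sub hw)) fun z hz =>
    mul_ne_zero (hm.ne (Ker_w h hz.1)).1 (Ker_ne h hz.1 hz.2)⟩

theorem Ker_c1 (h : P.Ok) (hm : P.Wt m) (e : ι × Bool) :
    ContinuousOn (fun z : ℂ × ℂ => P.k1 m r e z.1 z.2)
      {z | ‖z.1‖ = P.ρ (op e) ∧ P.rin e < ‖z.2‖} := by
  obtain ⟨h1, h2⟩ := Ker_c0 h hm e
  simp only [k1, div_eq_mul_inv (r e * _)]
  exact (continuousOn_const.mul h1).mul h2

theorem Ker_c2 (h : P.Ok) (hm : P.Wt m) (e : ι × Bool) :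
    ContinuousOn (fun z : ℂ × ℂ => P.k2 m r e z.1 z.2)
      {z | ‖z.1‖ = P.ρ (op e) ∧ P.rin e < ‖z.2‖} := by
  obtain ⟨h1, h2⟩ := Ker_c0 h hm e
  exact ((continuousOn_const.mul continuousOn_fst).mul h1).mul (h2.sub
    (continuousOn_snd.inv₀ fun z hz => norm_pos_iff.1 ((h.rin_pos e).trans hz.2)))

theorem Ker_two (h : P.Ok) (e' : ι × Bool) {v : ℂ} (hv : ‖v‖ = P.ρ e) :
    2 * P.rin e' ≤ ‖P.c e + v - P.c e'‖ := by
  have := h.circ_far e' hv
  have := Ker_rin h e'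
  have := h.rin_pos e'
  linarith

theorem Ker_hol {κ : ι × Bool → ℂ → ℂ → ℂ} (h : P.Ok)
    (hc : ContinuousOn (fun z : ℂ × ℂ => κ e z.1 z.2) {z | ‖z.1‖ = P.ρ (op e) ∧ P.rin e < ‖z.2‖})
    (hd : ∀ v, ‖v‖ = P.ρ (op e) → DifferentiableOn ℂ (κ e v) {u | P.rin e < ‖u‖})
    (hf : ContinuousOn (fun v => f (P.c (op e) + v)) {v | ‖v‖ = P.ρ (op e)}) :
    DifferentiableOn ℂ (P.pk κ f e) {t | P.rin e < ‖t - P.c e‖} := by
  refine av_hol (k := fun v t => κ e v (t - P.c e) * f (P.c (op e) + v)) (h.ρ_pos _).le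
    (isOpen_lt continuous_const (by fun_prop)) ?_ fun v hv => ?_
  · exact (hc.comp (f := fun z : ℂ × ℂ => (z.1, z.2 - P.c e)) (by fun_prop)
      fun z hz => hz).mul (hf.comp continuousOn_fst fun z hz => hz.1)
  · exact ((hd v hv).comp (f := fun t => t - P.c e) (by fun_prop) fun t ht => ht).mul_const _

theorem Ker_d0 (h : P.Ok) (hm : P.Wt m) {v : ℂ} (hv : ‖v‖ = P.ρ (op e)) :
    DifferentiableOn ℂ (fun u => (m e (P.s e.1 / v) * (u - P.s e.1 / v))⁻¹) {u | P.rin e < ‖u‖} :=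
  DifferentiableOn.inv (by fun_prop) fun u hu =>
    mul_ne_zero (hm.ne (Ker_w h hv)).1 (Ker_ne h hv hu)

theorem Ker_bd {κ : ι × Bool → ℂ → ℂ → ℂ} {β : ℝ} (h : P.Ok)
    (hκ : ∀ v, ‖v‖ = P.ρ (op e) → ‖κ e v (t - P.c e)‖ ≤ β)
    (hf : ∀ v, ‖v‖ = P.ρ (op e) → ‖f (P.c (op e) + v)‖ ≤ M) : ‖P.pk κ f e t‖ ≤ β * M :=
  av_norm_le (h.ρ_pos _).le fun v hv => by
    rw [norm_mul]
    exact mul_le_mul (hκ v hv) (hf v hv) (norm_nonneg _) ((norm_nonneg _).trans (hκ v hv))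

theorem k1_kb [Fintype ι] {W : ι × Bool → ℝ} (h : P.Ok) (hm : P.Wt m) (hr : P.Con r W) :
    P.KB (P.k1 m r) W := by
  refine ⟨hr.1, Ker_c1 h hm, fun e v hv => ⟨fun e' => 6 * ‖r e'‖ / ‖P.c e + v - P.c e'‖,
    fun e' v' hv' => Ker_k1 h hm hv' (Ker_two h e' hv), ?_⟩⟩
  refine le_of_eq_of_le (Finset.sum_congr rfl fun e' _ => ?_) (hr.2 e v hv)
  ring

theorem k2_kb [Fintype ι] (h : P.Ok) (hm : P.Wt m) (hr : P.Con2 r) :
    P.KB (P.k2 m r) fun _ => 1 := by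
  refine ⟨fun _ => one_pos, Ker_c2 h hm, fun e v hv => ⟨_,
    fun e' v' hv' => Ker_k2 h hm hv' (Ker_two h e' hv), ?_⟩⟩
  simpa only [mul_one] using hr e v hv

theorem pk1_hol (h : P.Ok) (hm : P.Wt m)
    (hf : ContinuousOn (fun v => f (P.c (op e) + v)) {v | ‖v‖ = P.ρ (op e)}) :
    DifferentiableOn ℂ (P.pk (P.k1 m r) f e) {t | P.rin e < ‖t - P.c e‖} := by
  refine Ker_hol h (Ker_c1 h hm e) (fun v hv => ?_) hf
  have := (Ker_d0 h hm hv).const_mul (r e * m (op e) v)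
  exact this.congr fun u _ => by simp only [k1, div_eq_mul_inv (r e * _)]

theorem pk2_hol (h : P.Ok) (hm : P.Wt m)
    (hf : ContinuousOn (fun v => f (P.c (op e) + v)) {v | ‖v‖ = P.ρ (op e)}) :
    DifferentiableOn ℂ (P.pk (P.k2 m r) f e) {t | P.rin e < ‖t - P.c e‖} := by
  refine Ker_hol h (Ker_c2 h hm e) (fun v hv => ?_) hf
  exact ((Ker_d0 h hm hv).sub (differentiableOn_id.inv fun u hu =>
    norm_pos_iff.1 ((h.rin_pos e).trans hu))).const_mul (r e / P.s e.1 * v * m (op e) v)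

theorem pk1_bd (h : P.Ok) (hm : P.Wt m)
    (hf : ∀ v, ‖v‖ = P.ρ (op e) → ‖f (P.c (op e) + v)‖ ≤ M) (ht : 2 * P.rin e ≤ ‖t - P.c e‖) :
    ‖P.pk (P.k1 m r) f e t‖ ≤ 6 * ‖r e‖ * M / ‖t - P.c e‖ := by
  refine (Ker_bd h (fun v hv => Ker_k1 h hm hv ht) hf).trans_eq ?_
  ring

theorem pk2_bd (h : P.Ok) (hm : P.Wt m)
    (hf : ∀ v, ‖v‖ = P.ρ (op e) → ‖f (P.c (op e) + v)‖ ≤ M) (ht : 2 * P.rin e ≤ ‖t - P.c e‖) :
    ‖P.pk (P.k2 m r) f e t‖ ≤
      12 * ‖r e‖ * M * ((P.ρ e)⁻¹ + ‖t - P.c e‖⁻¹) / ‖t - P.c e‖ := by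
  refine (Ker_bd h (fun v hv => Ker_k2 h hm hv ht) hf).trans_eq ?_
  ring

theorem pk1_main (h : P.Ok) (hm : P.Wt m) {η : ℝ}
    (hc : ContinuousOn (fun v => f (P.c (op e) + v)) {v | ‖v‖ = P.ρ (op e)})
    (hf : ∀ v, ‖v‖ = P.ρ (op e) → ‖f (P.c (op e) + v) - 1‖ ≤ η) (ht : 2 * P.rin e ≤ ‖t - P.c e‖) :
    ‖P.pk (P.k1 m r) f e t - r e / (t - P.c e)‖ ≤
      ‖r e‖ * (6 * η + 12 * P.rin e * ((P.ρ e)⁻¹ + ‖t - P.c e‖⁻¹)) / ‖t - P.c e‖ := by
  have h0 := h.rin_pos e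
  have hρ := h.ρ_pos e
  have hρ' := h.ρ_pos (op e)
  have hu : P.rin e < ‖t - P.c e‖ := by linarith
  have e1 : r e / (t - P.c e) = av (P.ρ (op e)) fun v => r e / (t - P.c e) * m (op e) v := by
    rw [av_const_mul, av_center hρ'.le (by linarith) (hm.hol (op e)), hm.zero, mul_one]
  have c1 : ContinuousOn (fun v => P.k1 m r e v (t - P.c e)) {v | ‖v‖ = P.ρ (op e)} :=
    (Ker_c1 h hm e).comp (f := fun v => (v, t - P.c e)) (by fun_prop) fun v hv => ⟨hv, hu⟩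
  have c2 : ContinuousOn (m (op e)) {v | ‖v‖ = P.ρ (op e)} :=
    (hm.hol (op e)).continuousOn.mono fun v hv => mem_ball_zero_iff.2 (Ker_v h hv)
  have c3 : ContinuousOn (fun v => P.k1 m r e v (t - P.c e) * f (P.c (op e) + v))
      {v | ‖v‖ = P.ρ (op e)} := c1.mul hc
  have c4 : ContinuousOn (fun v => r e / (t - P.c e) * m (op e) v) {v | ‖v‖ = P.ρ (op e)} :=
    continuousOn_const.mul c2
  rw [e1, pk, ← av_sub hρ'.le c3 c4]
  refine av_norm_le hρ'.le fun v hv => ?_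
  have h1 := Ker_k1 (r := r) h hm hv ht
  have h2 := Ker_dif h hm hv ht
  have h3 := (hm.ne (Ker_v h hv)).2.1
  have h4 := hf v hv
  have e2 : P.k1 m r e v (t - P.c e) * f (P.c (op e) + v) - r e / (t - P.c e) * m (op e) v =
      P.k1 m r e v (t - P.c e) * (f (P.c (op e) + v) - 1) + r e * (m (op e) v *
        ((m e (P.s e.1 / v) * (t - P.c e - P.s e.1 / v))⁻¹ - (t - P.c e)⁻¹)) := by
    simp only [k1, div_eq_mul_inv (r e * _), div_eq_mul_inv (r e)]; ring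
  rw [e2]
  refine (norm_add_le _ _).trans ?_
  rw [norm_mul, norm_mul, norm_mul]
  have h6 : 0 < ‖t - P.c e‖ := by linarith
  calc _ ≤ 6 * ‖r e‖ / ‖t - P.c e‖ * η + ‖r e‖ * (3 / 2 *
        (2 * P.rin e * ((P.ρ e)⁻¹ + ‖t - P.c e‖⁻¹) / ‖t - P.c e‖)) := by gcongr
    _ = ‖r e‖ * (6 * η + 3 * P.rin e * ((P.ρ e)⁻¹ + ‖t - P.c e‖⁻¹)) / ‖t - P.c e‖ := by ring
    _ ≤ _ := by gcongr; norm_num

theorem pk1_infty (h : P.Ok) (hm : P.Wt m)
    (hf : ContinuousOn (fun v => f (P.c (op e) + v)) {v | ‖v‖ = P.ρ (op e)}) :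
    Tendsto (P.pk (P.k1 m r) f e) (Bornology.cobounded ℂ) (𝓝 0) := by
  have hK : IsCompact {v : ℂ | ‖v‖ = P.ρ (op e)} := by
    convert isCompact_sphere (0 : ℂ) (P.ρ (op e)) using 1
    ext v; simp
  obtain ⟨C, hC⟩ := hK.exists_bound_of_continuousOn hf
  have h1 : Tendsto (fun t : ℂ => ‖t - P.c e‖) (Bornology.cobounded ℂ) atTop :=
    tendsto_norm_cobounded_atTop.comp (tendsto_sub_const_cobounded (P.c e))
  refine squeeze_zero_norm' ?_ (h1.const_div_atTop (6 * ‖r e‖ * C))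
  filter_upwards [h1.eventually_ge_atTop (2 * P.rin e)] with t ht
  exact pk1_bd h hm hC ht

end Pl

end Pool.Agent.MP_92463a_gt

end
end

section

open Set Complex Filter Metric
open scoped Topology ComplexConjugate ContDiff Manifold

noncomputable section

namespace Pool.Agent.MP_92463a_gt

theorem Cau2_mid {a b c x : ℝ} (h1 : a < b) (h2 : a * x < c) :
    ∃ y, a < y ∧ y < b ∧ y * x < c := by
  have e1 : ∀ᶠ y in 𝓝 a, y < b := Iio_mem_nhds h1
  have e2 : ∀ᶠ y in 𝓝 a, y * x < c :=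
    (continuous_id.mul continuous_const).continuousAt.eventually_lt continuousAt_const h2
  have e3 : ∀ᶠ y in 𝓝[>] a, a < y ∧ y < b ∧ y * x < c :=
    (eventually_mem_nhdsWithin (a := a) (s := Ioi a)).and ((e1.and e2).filter_mono nhdsWithin_le_nhds)
  exact e3.exists

theorem Cau2_ne {u v s : ℂ} {r : ℝ} (hv : ‖v‖ ≤ r) (h : r * ‖u‖ < ‖s‖) : u * v - s ≠ 0 := by
  intro h0
  rw [sub_eq_zero] at h0
  rw [← h0, norm_mul, mul_comm] at h
  exact absurd h (not_lt.2 (mul_le_mul_of_nonneg_left hv (norm_nonneg u)))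

theorem Cau2_open (r₁ r₂ : ℝ) : IsOpen {v : ℂ | r₁ < ‖v‖ ∧ ‖v‖ < r₂} :=
  (isOpen_lt continuous_const continuous_norm).inter (isOpen_lt continuous_norm continuous_const)

/-- the Cauchy formula on an annulus -/
theorem Cau2_ann {k : ℂ → ℂ} {w : ℂ} {r₁ r₂ r R : ℝ} (h0 : 0 < r₁) (h1 : r₁ < r) (h2 : r < ‖w‖)
    (h3 : ‖w‖ < R) (h4 : R < r₂) (hk : DifferentiableOn ℂ k {v | r₁ < ‖v‖ ∧ ‖v‖ < r₂}) :
    av R (fun v => k v * v / (v - w)) = k w + av r fun v => k v * v / (v - w) := by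
  have hw : w ∈ {v : ℂ | r₁ < ‖v‖ ∧ ‖v‖ < r₂} := ⟨h1.trans h2, h3.trans h4⟩
  have hφ : DifferentiableOn ℂ (fun v => dslope k w v * v) {v | r₁ < ‖v‖ ∧ ‖v‖ < r₂} :=
    ((differentiableOn_dslope ((Cau2_open r₁ r₂).mem_nhds hw)).2 hk).mul differentiableOn_id
  have key : ∀ t, r₁ < t → t < r₂ → t ≠ ‖w‖ → av t (fun v => k v * v / (v - w)) =
      av t (fun v => dslope k w v * v) + k w * av t fun v => 1 * v / (v - w) := by
    intro t t1 t2 t3
    have hne : ∀ v : ℂ, ‖v‖ = t → v - w ≠ 0 := fun v hv h => t3 (by rw [← hv, sub_eq_zero.1 h])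
    rw [← av_const_mul, ← av_add (h0.trans t1).le]
    · refine av_congr (h0.trans t1).le fun v hv => ?_
      have := hne v hv
      rw [dslope_of_ne _ (sub_ne_zero.1 this), slope_def_field]
      field_simp
      ring
    · exact hφ.continuousOn.mono fun v hv => ⟨by rw [show ‖v‖ = t from hv]; exact t1,
        by rw [show ‖v‖ = t from hv]; exact t2⟩
    · exact continuousOn_const.mul ((continuousOn_const.mul continuousOn_id).div
        (continuousOn_id.sub continuousOn_const) hne)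
  rw [key R (by linarith) h4 h3.ne', key r h1 (by linarith) h2.ne,
    av_radius h0.le hφ (by linarith : r₁ < R) h4 h1 (by linarith),
    av_cauchy (f := fun _ => 1) h3 h4 (differentiableOn_const _),
    av_center (by linarith) h2 (f := fun v => 1 * v / (v - w))
      (((differentiableOn_const _).mul differentiableOn_id).div
        (differentiableOn_id.sub (differentiableOn_const _)) fun v hv h => by
          rw [sub_eq_zero.1 h] at hv
          simp at hv)]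
  simp [add_comm]

theorem laurent {k : ℂ → ℂ} {s : ℂ} {r₁ r₂ R : ℝ} (hs : s ≠ 0) (h0 : 0 < r₁) (h1 : r₁ < R)
    (h2 : R < r₂) (hk : DifferentiableOn ℂ k {v | r₁ < ‖v‖ ∧ ‖v‖ < r₂}) :
    ∃ h : ℂ → ℂ, DifferentiableOn ℂ h (ball 0 (‖s‖ / r₁)) ∧ ∀ u : ℂ, ‖s‖ / R < ‖u‖ →
      ‖u‖ < ‖s‖ / r₁ → k (s / u) / u = h u + av R fun v => k v / (u - s / v) := by
  have hex : ∀ u : ℂ, ∃ r : ℝ, ‖u‖ < ‖s‖ / r₁ → r₁ < r ∧ r < R ∧ r * ‖u‖ < ‖s‖ := by
    intro u
    by_cases hu : ‖u‖ < ‖s‖ / r₁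
    · obtain ⟨y, hy⟩ := Cau2_mid h1 (show r₁ * ‖u‖ < ‖s‖ by rwa [lt_div_iff₀' h0] at hu)
      exact ⟨y, fun _ => hy⟩
    · exact ⟨0, fun h => absurd h hu⟩
  choose ρ hρ using hex
  have hind : ∀ (u : ℂ) (a b : ℝ), r₁ < a → a < R → a * ‖u‖ < ‖s‖ → r₁ < b → b < R →
      b * ‖u‖ < ‖s‖ → av a (fun v => k v * v / (u * v - s)) =
        av b fun v => k v * v / (u * v - s) := by
    intro u a b a1 a2 a3 b1 b2 b3
    obtain ⟨y, y1, y2, y3⟩ := Cau2_mid (max_lt a2 b2) (show max a b * ‖u‖ < ‖s‖ by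
      rcases max_choice a b with h | h <;> rw [h] <;> assumption)
    refine av_radius (r₂ := y) h0.le ?_ a1 ((le_max_left a b).trans_lt y1) b1
      ((le_max_right a b).trans_lt y1)
    exact ((hk.mono fun v hv => ⟨hv.1, hv.2.trans (y2.trans h2)⟩).mul differentiableOn_id).div
      (by fun_prop) fun v hv => Cau2_ne hv.2.le y3
  refine ⟨fun u => -av (ρ u) fun v => k v * v / (u * v - s), fun u₀ hu₀ => ?_, fun u u1 u2 => ?_⟩
  · obtain ⟨a1, a2, a3⟩ := hρ u₀ (mem_ball_zero_iff.1 hu₀)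
    have hU : IsOpen {u : ℂ | ρ u₀ * ‖u‖ < ‖s‖} := isOpen_lt (by fun_prop) continuous_const
    have hd := av_hol (R := ρ u₀) (k := fun v u => k v * v / (u * v - s)) (h0.trans a1).le hU
      (((hk.continuousOn.comp continuousOn_fst fun z hz => ⟨by rw [hz.1]; exact a1,
        by rw [hz.1]; exact a2.trans h2⟩).mul continuousOn_fst).div (by fun_prop)
        fun z hz => Cau2_ne hz.1.le hz.2)
      fun v hv => (differentiableOn_const _).div (by fun_prop) fun u hu => Cau2_ne hv.le hu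
    refine ((hd.differentiableAt (hU.mem_nhds a3)).neg.congr_of_eventuallyEq
      ?_).differentiableWithinAt
    filter_upwards [hU.mem_nhds a3, isOpen_ball.mem_nhds hu₀] with u hu hu'
    obtain ⟨b1, b2, b3⟩ := hρ u (mem_ball_zero_iff.1 hu')
    exact congrArg Neg.neg (hind u _ _ b1 b2 b3 a1 a2 hu)
  · obtain ⟨a1, a2, a3⟩ := hρ u u2
    have hR : 0 < R := h0.trans h1
    have hu : 0 < ‖u‖ := (div_pos (norm_pos_iff.2 hs) hR).trans u1
    have hu0 : u ≠ 0 := norm_pos_iff.1 hu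
    have e1 : ∀ v : ℂ, k v * v / (u * v - s) = u⁻¹ * (k v * v / (v - s / u)) := fun v => by
      rw [show u * v - s = u * (v - s / u) by field_simp, div_mul_eq_div_div_swap, div_eq_inv_mul]
    have e2 : av R (fun v => k v / (u - s / v)) =
        av R fun v => u⁻¹ * (k v * v / (v - s / u)) := by
      refine av_congr hR.le fun v hv => ?_
      have hv0 : v ≠ 0 := norm_pos_iff.1 (by rw [hv]; exact hR)
      rw [← e1, show u - s / v = (u * v - s) / v by field_simp, div_div_eq_mul_div]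
    simp only [e1]
    rw [e2, av_const_mul, av_const_mul, Cau2_ann h0 a1 (by rwa [norm_div, lt_div_iff₀ hu])
      (by rwa [norm_div, div_lt_iff₀ hu, ← div_lt_iff₀' hR]) h2 hk]
    ring

theorem liouville_glue {D₁ D₂ : ℂ → ℂ} {ρ₁ ρ₂ : ℝ} {s a : ℂ} {d : ℕ} (hd : 0 < d) (hρ₂ : 0 < ρ₂)
    (hs : s ≠ 0) (hlt : ‖s‖ < ρ₁ * ρ₂) (h₁ : DifferentiableOn ℂ D₁ (ball 0 ρ₁))
    (h₂ : DifferentiableOn ℂ D₂ (ball 0 ρ₂))
    (h : ∀ v : ℂ, ‖s‖ / ρ₂ < ‖v‖ → ‖v‖ < ρ₁ → D₁ v = a / v ^ d * D₂ (s / v)) :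
    ∀ v ∈ ball (0 : ℂ) ρ₁, D₁ v = 0 := by
  classical
  have h0 : 0 < ‖s‖ / ρ₂ := div_pos (norm_pos_iff.2 hs) hρ₂
  have h3 : ‖s‖ / ρ₂ < ρ₁ := (div_lt_iff₀ hρ₂).2 hlt
  obtain ⟨F, hF1, hF2⟩ : ∃ F : ℂ → ℂ, (∀ v, ‖v‖ < ρ₁ → F v = D₁ v) ∧
      ∀ v, ‖s‖ / ρ₂ < ‖v‖ → F v = a / v ^ d * D₂ (s / v) := by
    refine ⟨fun v => if ‖v‖ < ρ₁ then D₁ v else a / v ^ d * D₂ (s / v), fun v hv => if_pos hv,
      fun v hv => ?_⟩
    by_cases h4 : ‖v‖ < ρ₁
    · exact (if_pos h4).trans (h v hv h4)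
    · exact if_neg h4
  have hdiff : Differentiable ℂ F := by
    intro v
    by_cases h4 : ‖v‖ < ρ₁
    · have hm : ball (0 : ℂ) ρ₁ ∈ 𝓝 v := isOpen_ball.mem_nhds (mem_ball_zero_iff.2 h4)
      refine (h₁.differentiableAt hm).congr_of_eventuallyEq ?_
      filter_upwards [hm] with x hx using hF1 x (mem_ball_zero_iff.1 hx)
    · have h5 : ‖s‖ / ρ₂ < ‖v‖ := h3.trans_le (not_lt.1 h4)
      have hv : 0 < ‖v‖ := h0.trans h5
      have hv0 : v ≠ 0 := norm_pos_iff.1 hv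
      have h6 : DifferentiableAt ℂ D₂ (s / v) := h₂.differentiableAt (isOpen_ball.mem_nhds
        (mem_ball_zero_iff.2 (by rwa [norm_div, div_lt_iff₀ hv, ← div_lt_iff₀' hρ₂])))
      have h7 : DifferentiableAt ℂ (fun x : ℂ => a / x ^ d * D₂ (s / x)) v :=
        (DifferentiableAt.div (c := fun _ => a) (d := fun x : ℂ => x ^ d) (by fun_prop)
          (by fun_prop) (pow_ne_zero d hv0)).mul
          (h6.comp v ((differentiableAt_const s).div differentiableAt_id hv0))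
      refine h7.congr_of_eventuallyEq ?_
      filter_upwards [(isOpen_lt continuous_const continuous_norm).mem_nhds h5] with x hx
        using hF2 x hx
  have hi : Tendsto (fun x : ℂ => x⁻¹) (cocompact ℂ) (𝓝 0) := by
    rw [← cobounded_eq_cocompact]; exact tendsto_inv₀_cobounded
  have ht : Tendsto F (cocompact ℂ) (𝓝 0) := by
    have hc : ContinuousAt D₂ (s * 0) := by
      rw [mul_zero]
      exact (h₂.differentiableAt (ball_mem_nhds 0 hρ₂)).continuousAt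
    have h8 := ((hi.pow d).const_mul a).mul (hc.tendsto.comp (hi.const_mul s))
    rw [zero_pow hd.ne', mul_zero, zero_mul] at h8
    refine h8.congr' ?_
    filter_upwards [(tendsto_norm_cocompact_atTop (E := ℂ)).eventually_gt_atTop (‖s‖ / ρ₂)] with x hx
    rw [hF2 x hx, div_eq_mul_inv, div_eq_mul_inv, inv_pow]
    rfl
  intro v hv
  rw [← hF1 v (mem_ball_zero_iff.1 hv)]
  exact hdiff.apply_eq_of_tendsto_cocompact v ht

/-- a function holomorphic near infinity with a limit is holomorphic in `1 / t` -/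
theorem hol_infty {f : ℂ → ℂ} {a : ℂ} {R : ℝ} (hf : DifferentiableOn ℂ f {t | R < ‖t‖})
    (ha : Tendsto f (Bornology.cobounded ℂ) (𝓝 a)) :
    ∃ δ > 0, ∃ h : ℂ → ℂ, DifferentiableOn ℂ h (ball 0 δ) ∧ h 0 = a ∧
      ∀ s ∈ ball (0 : ℂ) δ, s ≠ 0 → h s = f s⁻¹ := by
  have hp : 0 < |R| + 1 := by positivity
  refine ⟨(|R| + 1)⁻¹, inv_pos.2 hp, Function.update (fun s => f s⁻¹) 0 a, ?_,
    Function.update_self .., fun s _ hs => Function.update_of_ne hs ..⟩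
  rw [← differentiableOn_compl_singleton_and_continuousAt_iff (ball_mem_nhds 0 (inv_pos.2 hp))]
  refine ⟨?_, continuousAt_update_same.2 (ha.comp tendsto_inv₀_nhdsNE_zero)⟩
  refine DifferentiableOn.congr (f := fun s => f s⁻¹) ?_ fun s hs => Function.update_of_ne hs.2 ..
  refine hf.comp (differentiableOn_id.inv fun s hs => hs.2) fun s hs => ?_
  have h1 : 0 < ‖s‖ := norm_pos_iff.2 hs.2
  have h2 := mem_ball_zero_iff.1 hs.1
  show R < ‖s⁻¹‖
  rw [norm_inv]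
  rw [lt_inv_comm₀ h1 hp] at h2
  linarith [le_abs_self R]

/-- extension over finitely many discs -/
theorem fill_discs {ι : Type} [Fintype ι] {V : Set ℂ} (hV : IsOpen V) {c : ι → ℂ} {r ρ : ι → ℝ}
    (hr : ∀ e, r e < ρ e) (hsep : ∀ e e', e ≠ e' → ρ e + ρ e' ≤ ‖c e - c e'‖) {f : ℂ → ℂ}
    (hf : DifferentiableOn ℂ f (V ∩ {t | ∀ e, r e < ‖t - c e‖})) {h : ι → ℂ → ℂ}
    (hh : ∀ e, DifferentiableOn ℂ (h e) (ball 0 (ρ e)))
    (he : ∀ e v, r e < ‖v‖ → ‖v‖ < ρ e → c e + v ∈ V → f (c e + v) = h e v) :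
    ∃ F : ℂ → ℂ, DifferentiableOn ℂ F V ∧ ∀ t ∈ V, (∀ e, r e < ‖t - c e‖) → F t = f t := by
  classical
  obtain ⟨F, hF1, hF2⟩ : ∃ F : ℂ → ℂ, (∀ e t, ‖t - c e‖ < ρ e → F t = h e (t - c e)) ∧
      ∀ t, (∀ e, ρ e ≤ ‖t - c e‖) → F t = f t := by
    refine ⟨fun t => if H : ∃ e, ‖t - c e‖ < ρ e then h H.choose (t - c H.choose) else f t,
      fun e t ht => ?_, fun t ht => dif_neg fun ⟨e, h1⟩ => absurd h1 (not_lt.2 (ht e))⟩
    have H : ∃ e, ‖t - c e‖ < ρ e := ⟨e, ht⟩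
    have h1 : H.choose = e := by
      by_contra hne
      have h2 := hsep _ _ hne
      have h3 := H.choose_spec
      have h4 := norm_sub_le (t - c e) (t - c H.choose)
      rw [sub_sub_sub_cancel_left] at h4
      linarith
    simp only [dif_pos H, h1]
  have hF3 : ∀ t ∈ V, (∀ e, r e < ‖t - c e‖) → F t = f t := by
    intro t ht h1
    by_cases H : ∃ e, ‖t - c e‖ < ρ e
    · obtain ⟨e, h2⟩ := H
      rw [hF1 e t h2, ← he e _ (h1 e) h2 (by simpa using ht), add_sub_cancel]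
    · exact hF2 t fun e => not_lt.1 fun h2 => H ⟨e, h2⟩
  refine ⟨F, fun t ht => DifferentiableAt.differentiableWithinAt ?_, hF3⟩
  by_cases H : ∃ e, ‖t - c e‖ < ρ e
  · obtain ⟨e, h2⟩ := H
    have h3 : DifferentiableAt ℂ (fun x => h e (x - c e)) t :=
      ((hh e).differentiableAt (isOpen_ball.mem_nhds (mem_ball_zero_iff.2 h2))).comp t
        (f := fun x => x - c e) (by fun_prop)
    refine h3.congr_of_eventuallyEq ?_
    filter_upwards [(isOpen_lt (f := fun x : ℂ => ‖x - c e‖) (by fun_prop)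
      continuous_const).mem_nhds h2] with x hx using hF1 e x hx
  · have hW : IsOpen (V ∩ {t | ∀ e, r e < ‖t - c e‖}) := by
      refine hV.inter ?_
      rw [ofPred_forall]
      exact isOpen_iInter_of_finite fun e => isOpen_lt continuous_const (by fun_prop)
    have hm := hW.mem_nhds ⟨ht, fun e => (hr e).trans_le (not_lt.1 fun h2 => H ⟨e, h2⟩)⟩
    refine (hf.differentiableAt hm).congr_of_eventuallyEq ?_
    filter_upwards [hm] with x hx using hF3 x hx.1 hx.2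

end Pool.Agent.MP_92463a_gt

end
end

section

open Set Complex Filter Metric
open scoped Topology ComplexConjugate ContDiff Manifold

noncomputable section

namespace Pool.Agent.MP_92463a_gt

namespace Pl

variable {ι : Type} {P : Pl ι} {φ : ι × Bool → ℂ → ℂ}

theorem MFa_lt (h : P.Ok) (e : ι × Bool) : P.rin e < P.mu e ∧ P.mu e < P.ρ e := by
  have h1 := h.rin_pos e
  have h2 := h.rin_mu e
  have h3 := h.mu_ρ e
  constructor <;> linarith

theorem MFa_cont (hφ : P.MF φ) (h : P.Ok) (e : ι × Bool) :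
    ContinuousOn (fun v => φ e v * v) {v | ‖v‖ = P.ρ e} :=
  ((hφ.hol e).continuousOn.mono fun _ hv => h.circ_mem hv).mul continuousOn_id

theorem MFa_ne (h : P.Ok) {e : ι × Bool} {v : ℂ} (hv : ‖v‖ = P.ρ e) : v ≠ 0 := by
  rw [← norm_pos_iff, hv]
  exact h.ρ_pos e

theorem MFa_sub_ne (h : P.Ok) {e : ι × Bool} {v u : ℂ} (hv : ‖v‖ = P.ρ (op e))
    (hu : P.rin e < ‖u‖) : u - P.s e.1 / v ≠ 0 := by
  intro h0
  rw [sub_eq_zero.mp h0, h.circ_rin hv] at hu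
  exact lt_irrefl _ hu

theorem MFa_slit (h : P.Ok) {e : ι × Bool} {v u : ℂ} (hv : ‖v‖ = P.ρ (op e))
    (hu : P.rin e < ‖u‖) : 1 - P.s e.1 / v / u ∈ slitPlane := by
  rw [sub_eq_add_neg]
  refine mem_slitPlane_of_norm_lt_one ?_
  rw [norm_neg, norm_div, h.circ_rin hv, div_lt_one ((h.rin_pos e).trans hu)]
  exact hu

theorem MFa_open (r : ℝ) : IsOpen {u : ℂ | r < ‖u‖} := isOpen_lt continuous_const continuous_norm

theorem MFa_cont2 (hφ : P.MF φ) (h : P.Ok) (e : ι × Bool) (U : Set ℂ) :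
    ContinuousOn (fun z : ℂ × ℂ => φ e z.1 * z.1) {z | ‖z.1‖ = P.ρ e ∧ z.2 ∈ U} :=
  (MFa_cont hφ h e).comp continuousOn_fst fun _ hz => hz.1

theorem MFa_cont3 (h : P.Ok) (e : ι × Bool) (a : ℂ) (U : Set ℂ) :
    ContinuousOn (fun z : ℂ × ℂ => a / z.1) {z | ‖z.1‖ = P.ρ e ∧ z.2 ∈ U} :=
  continuousOn_const.div continuousOn_fst fun _ hz => MFa_ne h hz.1

theorem MF.rs_op (hφ : P.MF φ) (h : P.Ok) (e : ι × Bool) : P.rs φ (op e) = -P.rs φ e := by
  have key : ∀ e, P.rs φ e = av (P.mu e) fun v => φ e v * v := fun e =>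
    av_radius (r₂ := 2 * P.ρ e) (h.rin_pos e).le ((hφ.hol e).mul differentiableOn_id)
      ((MFa_lt h e).1.trans (MFa_lt h e).2) (by linarith [h.ρ_pos e]) (MFa_lt h e).1
      (by linarith [h.ρ_pos e, (MFa_lt h e).2])
  have hm : 0 < P.mu e := (h.rin_pos e).trans (MFa_lt h e).1
  have h1 : P.mu (op e) = ‖P.s e.1‖ / P.mu e := by
    rw [← h.mu_mul e, mul_div_cancel_left₀ _ hm.ne']
  rw [key, key, h1, ← av_inv (h.s_ne _) hm, ← neg_one_mul, ← av_const_mul]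
  refine av_congr hm.le fun v hv => ?_
  have hv' : v ∈ P.Ann e := ⟨hv ▸ (MFa_lt h e).1, hv ▸ (MFa_lt h e).2⟩
  have h0 := h.ann_ne hv'
  rw [hφ.mt e v hv']
  field_simp

theorem MF.pf_hol (hφ : P.MF φ) (h : P.Ok) (e : ι × Bool) :
    DifferentiableOn ℂ (P.pf φ e) {u | P.rin e < ‖u‖} := by
  refine (av_hol (h.ρ_pos _).le (MFa_open _)
    (k := fun v u => φ (op e) v * v / (u - P.s e.1 / v)) ?_ fun v hv => ?_).neg
  · exact (MFa_cont2 hφ h _ _).div (continuousOn_snd.sub (MFa_cont3 h _ _ _))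
      fun z hz => MFa_sub_ne h hz.1 hz.2
  · exact (differentiableOn_const _).div (differentiableOn_id.sub_const _)
      fun u hu => MFa_sub_ne h hv hu

theorem MF.pf_ext (hφ : P.MF φ) (h : P.Ok) (e : ι × Bool) :
    ∃ k : ℂ → ℂ, DifferentiableOn ℂ k (ball 0 (2 * P.ρ e)) ∧
      ∀ v ∈ P.Ann2 e, φ e v = k v + P.pf φ e v := by
  obtain ⟨g, hg, hg'⟩ := laurent (k := fun v => -1 * (φ (op e) v * v)) (r₂ := 2 * P.ρ (op e))
    (h.s_ne e.1) (h.rin_pos (op e)) ((MFa_lt h _).1.trans (MFa_lt h _).2)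
    (by linarith [h.ρ_pos (op e)]) (((hφ.hol _).mul differentiableOn_id).const_mul _)
  have h1 : ‖P.s e.1‖ / P.rin (op e) = P.ρ e := by
    have := h.rin_mul (op e)
    rw [op_op, op_fst] at this
    rw [← this, mul_div_cancel_left₀ _ (h.rin_pos _).ne']
  rw [h1] at hg hg'
  have key := fill_discs (ι := Unit) (V := ball 0 (2 * P.ρ e)) isOpen_ball
    (c := fun _ => 0) (r := fun _ => P.rin e) (ρ := fun _ => P.ρ e)
    (fun _ => (MFa_lt h _).1.trans (MFa_lt h _).2) (fun _ _ hne => absurd rfl hne)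
    (f := fun v => φ e v - P.pf φ e v) (h := fun _ => g)
  refine (key ?_ (fun _ => hg) ?_).imp fun k ⟨hk, hk'⟩ => ⟨hk, fun v hv => ?_⟩
  rotate_left 2
  · rw [hk' v (mem_ball_zero_iff.mpr hv.2) fun _ => by simpa using hv.1, sub_add_cancel]
  · refine ((hφ.hol e).mono fun v hv => ⟨by simpa using hv.2 (), mem_ball_zero_iff.mp hv.1⟩).sub
      ((hφ.pf_hol h e).mono fun v hv => by simpa using hv.2 ())
  · intro _ v h2 h3 _
    have h4 := hg' v h2 h3
    have h0 := h.ann_ne (e := e) ⟨h2, h3⟩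
    simp only [mul_div_assoc (-1 : ℂ), av_const_mul] at h4
    rw [zero_add, hφ.mt e v ⟨h2, h3⟩, pf, sub_neg_eq_add]
    have h5 : -(P.s e.1 / v ^ 2) * φ (op e) (P.s e.1 / v) =
        -1 * (φ (op e) (P.s e.1 / v) * (P.s e.1 / v) / v) := by
      field_simp
    rw [h5, h4]
    ring

theorem MF.th_der (hφ : P.MF φ) (h : P.Ok) (e : ι × Bool) {u : ℂ} (hu : P.rin e < ‖u‖) :
    HasDerivAt (P.th φ e) (P.pf φ e u - P.rs φ e / u) u := by
  have hne : ∀ {w : ℂ}, P.rin e < ‖w‖ → w ≠ 0 := fun hw =>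
    norm_pos_iff.mp ((h.rin_pos e).trans hw)
  have c1 : ContinuousOn (fun z : ℂ × ℂ => φ (op e) z.1 * z.1 / (z.2 - P.s e.1 / z.1))
      {z | ‖z.1‖ = P.ρ (op e) ∧ z.2 ∈ {u : ℂ | P.rin e < ‖u‖}} :=
    (MFa_cont2 hφ h _ _).div (continuousOn_snd.sub (MFa_cont3 h _ _ _))
      fun z hz => MFa_sub_ne h hz.1 hz.2
  have h1 := av_hasDerivAt (h.ρ_pos (op e)).le (MFa_open (P.rin e))
    (k := fun v u => φ (op e) v * v * log (1 - P.s e.1 / v / u))
    (k' := fun v u => φ (op e) v * v / (u - P.s e.1 / v) - u⁻¹ * (φ (op e) v * v)) ?_ ?_ ?_ hu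
  · refine h1.neg.congr_deriv ?_
    rw [av_sub (h.ρ_pos _).le _ ((MFa_cont hφ h _).const_mul _), av_const_mul]
    · have h2 := hφ.rs_op h e
      rw [rs] at h2
      rw [h2, pf]
      ring
    · exact (MFa_cont hφ h _).div (continuousOn_const.sub (continuousOn_const.div continuousOn_id
        fun _ hz => MFa_ne h hz)) fun z hz => MFa_sub_ne h hz hu
  · exact (MFa_cont2 hφ h _ _).mul ((continuousOn_const.sub ((MFa_cont3 h _ _ _).div
      continuousOn_snd fun z hz => hne hz.2)).clog fun z hz => MFa_slit h hz.1 hz.2)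
  · exact c1.sub ((continuousOn_snd.inv₀ fun z hz => hne hz.2).mul (MFa_cont2 hφ h _ _))
  · intro v hv w hw
    have h0 := hne hw
    have h2 := MFa_sub_ne h hv hw
    have h3 := (((hasDerivAt_const w (P.s e.1 / v)).div (hasDerivAt_id w) h0).const_sub 1).clog
      (MFa_slit h hv hw)
    refine (h3.const_mul (φ (op e) v * v)).congr_deriv ?_
    generalize P.s e.1 / v = a at h2 ⊢
    have h4 : 1 - a / w = (w - a) / w := by field_simp
    simp only [Pi.div_apply, id]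
    rw [h4]
    field_simp
    ring

theorem th_bd (h : P.Ok) {e : ι × Bool} {M : ℝ}
    (hM : ∀ v, ‖v‖ = P.ρ (op e) → ‖φ (op e) v * v‖ ≤ M) {u : ℂ} (hu : 2 * P.rin e ≤ ‖u‖) :
    ‖P.th φ e u‖ ≤ 2 * M * P.rin e / ‖u‖ := by
  have h1 := h.rin_pos e
  have h0 : 0 < ‖u‖ := by linarith
  rw [th, norm_neg]
  refine av_norm_le (h.ρ_pos _).le fun v hv => ?_
  have h2 : ‖-(P.s e.1 / v / u)‖ = P.rin e / ‖u‖ := by rw [norm_neg, norm_div, h.circ_rin hv]
  have h3 := norm_log_one_add_half_le_self (z := -(P.s e.1 / v / u))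
    (by rw [h2, div_le_iff₀ h0]; linarith)
  have h4 := hM v hv
  have h5 := div_pos h1 h0
  rw [h2, ← sub_eq_add_neg] at h3
  rw [norm_mul, mul_div_assoc]
  refine (mul_le_mul h4 h3 (norm_nonneg _) ((norm_nonneg _).trans h4)).trans ?_
  nlinarith [(norm_nonneg _).trans h4]

theorem MF.pf_infty (hφ : P.MF φ) (h : P.Ok) (e : ι × Bool) :
    Tendsto (fun t => P.pf φ e (t - P.c e) * t) (Bornology.cobounded ℂ) (𝓝 (P.rs φ e)) := by
  have h1 := h.rin_pos e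
  set δ := (‖P.c e‖ + P.rin e)⁻¹ with hδ
  have hp : 0 < ‖P.c e‖ + P.rin e := by positivity
  have hδ0 : 0 < δ := inv_pos.mpr hp
  have hne : ∀ x ∈ ball (0 : ℂ) δ, ∀ v, ‖v‖ = P.ρ (op e) →
      1 - (P.c e + P.s e.1 / v) * x ≠ 0 := by
    intro x hx v hv h0
    have h2 : ‖(P.c e + P.s e.1 / v) * x‖ < 1 := by
      rw [norm_mul]
      have h3 := norm_add_le (P.c e) (P.s e.1 / v)
      rw [h.circ_rin hv] at h3
      refine (mul_le_mul_of_nonneg_right h3 (norm_nonneg _)).trans_lt ?_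
      rw [← mul_inv_cancel₀ hp.ne']
      exact mul_lt_mul_of_pos_left (mem_ball_zero_iff.mp hx) hp
    rw [← sub_eq_zero.mp h0, norm_one] at h2
    exact lt_irrefl _ h2
  have h2 := av_contOn (S := ball (0 : ℂ) δ) (r := fun _ => P.ρ (op e))
    (k := fun x v => φ (op e) v * v / (1 - (P.c e + P.s e.1 / v) * x)) continuousOn_const
    (fun _ _ => (h.ρ_pos _).le)
    (((MFa_cont hφ h _).comp continuousOn_snd fun _ hz => hz.2).div (continuousOn_const.sub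
      ((continuousOn_const.add (continuousOn_const.div continuousOn_snd
        fun _ hz => MFa_ne h hz.2)).mul continuousOn_fst)) fun z hz => hne _ hz.1 _ hz.2)
  have h3 := ((h2.continuousAt (ball_mem_nhds 0 hδ0)).tendsto.comp tendsto_inv₀_cobounded).neg
  have h4 := hφ.rs_op h e
  rw [rs] at h4
  simp only [mul_zero, sub_zero, div_one, h4, neg_neg] at h3
  refine h3.congr' ?_
  filter_upwards [tendsto_inv₀_cobounded (ball_mem_nhds (0 : ℂ) hδ0),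
    Bornology.eventually_ne_cobounded (0 : ℂ)] with t ht h0
  rw [pf, neg_mul, mul_comm, ← av_const_mul]
  refine congrArg Neg.neg (av_congr (h.ρ_pos _).le fun v hv => ?_)
  have h5 := hne _ ht v hv
  generalize P.s e.1 / v = a at h5 ⊢
  have h6 : t - P.c e - a = (1 - (P.c e + a) * t⁻¹) * t := by
    field_simp
    ring
  rw [h6]
  field_simp

theorem MF.th_infty (hφ : P.MF φ) (h : P.Ok) (e : ι × Bool) :
    Tendsto (fun t => P.th φ e (t - P.c e)) (Bornology.cobounded ℂ) (𝓝 0) := by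
  have hc : IsCompact {v : ℂ | ‖v‖ = P.ρ (op e)} := by
    simpa [sphere] using isCompact_sphere (0 : ℂ) (P.ρ (op e))
  obtain ⟨M, hM⟩ := hc.exists_bound_of_continuousOn (MFa_cont hφ h (op e))
  have h1 := (tendsto_norm_cobounded_atTop (E := ℂ)).comp (tendsto_sub_const_cobounded (P.c e))
  refine squeeze_zero_norm' ?_ (tendsto_const_nhds.div_atTop (a := 2 * M * P.rin e) h1)
  filter_upwards [h1.eventually_ge_atTop (2 * P.rin e)] with t ht
  exact th_bd h hM ht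

theorem rs_conj (h : P.Ok) {κ : ι → ι} (hs : P.Sy κ) {σ : ℝ}
    (hc : ∀ e : ι × Bool, ∀ v, ‖v‖ = P.ρ e → φ (κ e.1, e.2) (conj v) = σ * conj (φ e v))
    (e : ι × Bool) : P.rs φ (κ e.1, e.2) = σ * conj (P.rs φ e) := by
  rw [rs, rs, hs.ρ, ← av_conj, ← av_const_mul]
  refine av_congr (h.ρ_pos _).le fun v hv => ?_
  have := hc e (conj v) (by rwa [norm_conj])
  rw [conj_conj] at this
  rw [this, map_mul, conj_conj, mul_assoc]

theorem th_conj (h : P.Ok) {κ : ι → ι} (hs : P.Sy κ) {σ : ℝ}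
    (hc : ∀ e : ι × Bool, ∀ v, ‖v‖ = P.ρ e → φ (κ e.1, e.2) (conj v) = σ * conj (φ e v))
    (e : ι × Bool) {u : ℂ} (hu : P.rin e < ‖u‖) :
    P.th φ (κ e.1, e.2) (conj u) = σ * conj (P.th φ e u) := by
  have h1 : op (κ e.1, e.2) = (κ (op e).1, (op e).2) := rfl
  rw [th, th, h1, hs.ρ, map_neg, ← av_conj, mul_neg, ← av_const_mul]
  refine congrArg Neg.neg (av_congr (h.ρ_pos _).le fun v hv => ?_)
  have hv' : ‖conj v‖ = P.ρ (op e) := by rwa [norm_conj]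
  have := hc (op e) (conj v) hv'
  rw [conj_conj] at this
  rw [this, map_mul, map_mul, conj_conj, ← log_conj _ (slitPlane_arg_ne_pi (MFa_slit h hv' hu)),
    hs.s]
  simp only [map_sub, map_one, map_div₀, conj_conj, mul_assoc]

theorem MF.decomp [Fintype ι] (hφ : P.MF φ) (h : P.Ok) {V : Set ℂ} (hV : IsOpen V) {f : ℂ → ℂ}
    (hf : DifferentiableOn ℂ f (V ∩ P.Om))
    (he : ∀ e, ∀ v ∈ P.Ann2 e, P.c e + v ∈ V → f (P.c e + v) = φ e v) :
    ∃ k : ℂ → ℂ, DifferentiableOn ℂ k V ∧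
      ∀ t ∈ V ∩ P.Om, f t = k t + ∑ e, P.pf φ e (t - P.c e) := by
  classical
  choose g hg hg' using hφ.pf_ext h
  have key := fill_discs hV (c := P.c) (r := P.rin) (ρ := fun e => 2 * P.ρ e)
    (fun e => by linarith [(MFa_lt h e).1, (MFa_lt h e).2, h.ρ_pos e]) h.sep
    (f := fun t => f t - ∑ e, P.pf φ e (t - P.c e))
    (h := fun e v => g e v - ∑ e' ∈ Finset.univ.erase e, P.pf φ e' (P.c e + v - P.c e'))
  refine (key ?_ ?_ ?_).imp fun k ⟨hk, hk'⟩ => ⟨hk, fun t ht => ?_⟩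
  rotate_left 3
  · rw [hk' t ht.1 ht.2, sub_add_cancel]
  · exact hf.sub (DifferentiableOn.fun_sum fun e _ => (hφ.pf_hol h e).comp
      (differentiableOn_id.sub_const _) fun t ht => ht.2 e)
  · refine fun e => (hg e).sub (DifferentiableOn.fun_sum fun e' he' => (hφ.pf_hol h e').comp
      ((differentiableOn_id.const_add _).sub_const _) fun v hv => ?_)
    have h1 := h.far (Finset.ne_of_mem_erase he').symm (mem_ball_zero_iff.mp hv).le
    change P.rin e' < ‖P.c e + v - P.c e'‖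
    linarith [(MFa_lt h e').1, (MFa_lt h e').2, h.ρ_pos e']
  · intro e v h1 h2 h3
    rw [he e v ⟨h1, h2⟩ h3, hg' e v ⟨h1, h2⟩, ← Finset.add_sum_erase _ _ (Finset.mem_univ e),
      add_sub_cancel_left]
    ring

end Pl

end Pool.Agent.MP_92463a_gt

end
end

section

open Set Complex Filter Metric
open scoped Topology ComplexConjugate ContDiff Manifold

noncomputable section

namespace Pool.Agent.MP_92463a_gt

theorem Rob_one {J : Type} [Fintype J] {A L : (J → ℝ) → J → ℝ} (i : J)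
    (cA : ∀ j, ContinuousOn (fun x => A x j) (cube J))
    (cL : ∀ j, ContinuousOn (fun x => L x j) (cube J))
    (face : ∀ x ∈ cube J, (x i = 1 → 0 < ∑ j, A x j * L x j) ∧
      (x i = -1 → ∑ j, A x j * L x j < 0)) :
    ∃ δ > 0, ∀ x ∈ cube J, ∀ w : J → ℝ, (∀ j, |w j - L x j| ≤ δ) →
      (x i = 1 → 0 < ∑ j, A x j * w j) ∧ (x i = -1 → ∑ j, A x j * w j < 0) := by
  have hS : IsCompact (cube J ∩ {x | |x i| = 1}) :=
    isCompact_cube.inter_right (isClosed_eq (by fun_prop) continuous_const)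
  have c1 : ContinuousOn (fun x : J → ℝ => x i * ∑ j, A x j * L x j) (cube J) :=
    (continuous_apply i).continuousOn.mul
      (continuousOn_finsetSum _ fun j _ => (cA j).mul (cL j))
  obtain ⟨m, hm, h1⟩ := hS.exists_forall_le' (a := 0) (c1.mono inter_subset_left) (by
    rintro x ⟨hx, h⟩
    rcases (abs_eq zero_le_one).1 h with h | h
    · rw [h, one_mul]
      exact (face x hx).1 h
    · have := (face x hx).2 h
      rw [h]
      linarith)
  obtain ⟨C, hC⟩ := isCompact_cube.exists_bound_of_continuousOn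
    (f := fun x : J → ℝ => ∑ j, |A x j|) (continuousOn_finsetSum _ fun j _ => (cA j).abs)
  have hC0 : 0 < |C| + 1 := by positivity
  refine ⟨m / (|C| + 1), by positivity, fun x hx w hw => ?_⟩
  have h2 : |∑ j, A x j * w j - ∑ j, A x j * L x j| < m := by
    rw [← Finset.sum_sub_distrib]
    refine (Finset.abs_sum_le_sum_abs _ _).trans_lt ?_
    have h3 : ∑ j, |A x j * w j - A x j * L x j| ≤ ∑ j, |A x j| * (m / (|C| + 1)) :=
      Finset.sum_le_sum fun j _ => by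
        rw [← mul_sub, abs_mul]
        exact mul_le_mul_of_nonneg_left (hw j) (abs_nonneg _)
    refine h3.trans_lt ?_
    rw [← Finset.sum_mul]
    have h4 : ∑ j, |A x j| ≤ |C| := (le_abs_self _).trans ((hC x hx).trans (le_abs_self _))
    calc _ ≤ |C| * (m / (|C| + 1)) := mul_le_mul_of_nonneg_right h4 (by positivity)
      _ < (|C| + 1) * (m / (|C| + 1)) := mul_lt_mul_of_pos_right (lt_add_one _) (by positivity)
      _ = m := mul_div_cancel₀ _ hC0.ne'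
  rw [abs_lt] at h2
  constructor <;> intro h <;> have h5 := h1 x ⟨hx, by simp [h]⟩ <;> rw [h] at h5 <;> linarith

theorem Rob_clip {a h : ℝ} (ha : |a| ≤ 1) (e : max (-1) (min 1 (a - h)) = a)
    (p1 : a = 1 → 0 < h) (p2 : a = -1 → h < 0) : h = 0 := by
  have hai := abs_le.1 ha
  rcases le_total 1 (a - h) with c | c
  · rw [min_eq_left c, max_eq_right (by norm_num)] at e
    have := p1 e.symm
    linarith
  · rw [min_eq_right c] at e
    rcases le_total (-1) (a - h) with c' | c'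
    · rw [max_eq_right c'] at e
      linarith
    · rw [max_eq_left c'] at e
      have := p2 e.symm
      linarith

/-- the period problem of a family is stable under small perturbations -/
theorem Fam.robust {J : Type} [Fintype J] {p q : ℕ} (F : Fam J p q) :
    ∃ δ > 0, ∀ {Y : Type} [NormedAddCommGroup Y] [NormedSpace ℝ Y] {K : Set Y}, IsCompact K →
      Convex ℝ K → K.Nonempty → ∀ {f : (J → ℝ) × Y → J → ℝ} {Φ : (J → ℝ) × Y → Y},
      ContinuousOn f (cube J ×ˢ K) → ContinuousOn Φ (cube J ×ˢ K) → MapsTo Φ (cube J ×ˢ K) K →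
      (∀ z ∈ cube J ×ˢ K, ∀ i,
        |f z i - Lk (F.D z.1).F1 (F.D z.1).F2 (F.su i).ty (F.u i z.1) (F.v i z.1)| ≤ δ) →
      ∃ z ∈ cube J ×ˢ K, f z = 0 ∧ Φ z = z.2 := by
  choose d hd h1 using fun i => Rob_one (A := fun x => F.A x i)
    (L := fun x j => Lk (F.D x).F1 (F.D x).F2 (F.su j).ty (F.u j x) (F.v j x)) i (F.cA i)
    F.lk_cont fun x hx => F.face x hx i
  obtain ⟨δ, h2, hδ⟩ := ((eventually_all.2 fun i => (eventually_le_nhds (hd i)).filter_mono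
    (nhdsWithin_le_nhds (s := Ioi (0 : ℝ)))).and self_mem_nhdsWithin).exists
  refine ⟨δ, hδ, fun {Y} _ _ K hK hv hn f Φ cf cΦ mΦ hf => ?_⟩
  have cT : ContinuousOn (fun z : (J → ℝ) × Y => ((fun i => max (-1) (min 1
      (z.1 i - ∑ j, F.A z.1 i j * f z j)), Φ z) : (J → ℝ) × Y)) (cube J ×ˢ K) := by
    refine ContinuousOn.prodMk (continuousOn_pi.2 fun i => ?_) cΦ
    have h3 : Continuous fun t : ℝ => max (-1) (min 1 t) := by fun_prop
    refine h3.comp_continuousOn (((continuous_apply i).comp continuous_fst).continuousOn.sub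
      (continuousOn_finsetSum _ fun j _ => ContinuousOn.mul ?_ ?_))
    · exact (F.cA i j).comp continuousOn_fst fun z hz => hz.1
    · exact (continuous_apply j).comp_continuousOn cf
  obtain ⟨z, hz, e⟩ := MP_943ae2_gt.tychonoff (isCompact_cube.prod hK) (convex_cube.prod hv)
    (Set.Nonempty.prod ⟨0, fun i => by simp⟩ hn) cT fun z hz => ⟨fun i => abs_le.2
      ⟨le_max_left _ _, max_le (by norm_num) (min_le_left _ _)⟩, mΦ hz⟩
  refine ⟨z, hz, F.inj z.1 hz.1 _ fun i => ?_, congrArg Prod.snd e⟩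
  obtain ⟨p1, p2⟩ := h1 i z.1 hz.1 (f z) fun j => (hf z hz j).trans (h2 i)
  exact Rob_clip (hz.1 i) (congrFun (congrArg Prod.fst e) i) p1 p2

end Pool.Agent.MP_92463a_gt

end
end
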