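import Pool.Agent.Mg.F92463a.Gb59b98
import Pool.Agent.Mg.F92463a.G2abf78

section

open Set Complex Filter Metric
open scoped Topology ComplexConjugate ContDiff Manifold

noncomputable section

namespace Pool.Agent.MP_92463a_gt

variable {S : Set ℂ} {X f₁ f₂ : ℂ → ℂ} {c : ℂ} {σ ε : ℝ}

theorem pw_ne (σ : ℝ) (τ : ℂ) : pw σ τ ≠ 0 := exp_ne_zero _

theorem norm_pw (σ : ℝ) {τ : ℂ} (h : τ ≠ 0) : ‖pw σ τ‖ = ‖τ‖ ^ σ := by
  rw [pw, norm_exp, Real.rpow_def_of_pos (norm_pos_iff.2 h)]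
  simp [log_re, mul_comm]

theorem pw_mul (σ σ' : ℝ) (τ : ℂ) : pw σ τ * pw σ' τ = pw (σ + σ') τ := by
  rw [pw, pw, pw, ← exp_add]
  congr 1
  push_cast
  ring

theorem pw_one {τ : ℂ} (h : τ ≠ 0) : pw 1 τ = τ := by
  simp [pw, exp_log h]

theorem pw_polar (σ : ℝ) {r θ : ℝ} (hr : 0 < r) (hθ : θ ∈ Icc 0 Real.pi) :
    pw σ (r * exp (θ * I)) = ((r ^ σ : ℝ) : ℂ) * exp (σ * θ * I) := by
  rw [pw, log_ofReal_mul hr (exp_ne_zero _),
    log_exp (by simpa using lt_of_lt_of_le (neg_lt_zero.2 Real.pi_pos) hθ.1)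
      (by simpa using hθ.2), Real.rpow_def_of_pos hr, ofReal_exp, ← exp_add]
  congr 1
  push_cast
  ring

theorem log_near {τ v : ℂ} (h : ‖v‖ < ‖τ‖) (h₁ : 0 ≤ τ.im) (h₂ : 0 ≤ (τ + v).im) :
    log (τ + v) = log τ + log (1 + v / τ) := by
  have h0 : 0 < ‖τ‖ := (norm_nonneg v).trans_lt h
  have hτ : τ ≠ 0 := norm_pos_iff.1 h0
  have hw : 0 < (1 + v / τ).re := by
    have := (abs_le.1 (abs_re_le_norm (v / τ))).1
    have h1 : ‖v / τ‖ < 1 := by rwa [norm_div, div_lt_one h0]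
    rw [add_re, one_re]
    linarith
  have hw0 : 1 + v / τ ≠ 0 := fun e => by simp [e] at hw
  have he : τ + v = τ * (1 + v / τ) := by field_simp
  obtain ⟨n, hn⟩ := exp_eq_exp_iff_exists_int.1
    (show exp (log (τ + v)) = exp (log τ + log (1 + v / τ)) by
      rw [exp_add, exp_log hτ, exp_log hw0, exp_log (he ▸ mul_ne_zero hτ hw0), he])
  have hi := congrArg im hn
  simp only [add_im, log_im, mul_im, mul_re, intCast_re, intCast_im, ofReal_re, ofReal_im, I_re,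
    I_im, re_ofNat, im_ofNat] at hi
  have a1 := arg_nonneg_iff.2 h₁
  have a2 := arg_nonneg_iff.2 h₂
  have a3 := arg_le_pi τ
  have a4 := arg_le_pi (τ + v)
  have a5 := abs_lt.1 (abs_arg_lt_pi_div_two_iff.2 (Or.inl hw))
  have hp := Real.pi_pos
  have n1 : (n : ℝ) < 1 := by nlinarith
  have n2 : (-1 : ℝ) < n := by nlinarith
  have : n = 0 := by
    have : n < 1 := by exact_mod_cast n1
    have : -1 < n := by exact_mod_cast n2
    omega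
  simpa [this] using hn

theorem pw_close {τ t : ℂ} {η : ℝ} (h₀ : τ ≠ 0) (h₁ : 0 ≤ τ.im) (h₂ : 0 ≤ t.im)
    (h : ‖t - τ‖ ≤ η * ‖τ‖) (hη : η ≤ 1 / 10) (hσ : |σ| ≤ 3 / 2) :
    ‖pw σ t - pw σ τ‖ ≤ 5 * η * ‖τ‖ ^ σ := by
  have h0 : 0 < ‖τ‖ := norm_pos_iff.2 h₀
  have hw : ‖(t - τ) / τ‖ ≤ η := by rwa [norm_div, div_le_iff₀ h0]
  have hη0 : 0 ≤ η := (norm_nonneg _).trans hw
  have hl := log_near (τ := τ) (v := t - τ) (by nlinarith) h₁ (by simpa using h₂)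
  rw [add_sub_cancel] at hl
  have h3 := norm_log_one_add_half_le_self (z := (t - τ) / τ) (by linarith)
  have h4 : ‖σ * log (1 + (t - τ) / τ)‖ ≤ 9 / 4 * η := by
    rw [norm_mul, norm_real, Real.norm_eq_abs]
    nlinarith [abs_nonneg σ, norm_nonneg (log (1 + (t - τ) / τ))]
  have h5 := norm_exp_sub_one_le (h4.trans (by linarith))
  have : pw σ t - pw σ τ = pw σ τ * (exp (σ * log (1 + (t - τ) / τ)) - 1) := by
    rw [pw, pw, hl, mul_add, exp_add]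
    ring
  rw [this, norm_mul, norm_pw σ h₀, mul_comm]
  exact mul_le_mul_of_nonneg_right (by linarith) (by positivity)

theorem Emb1_slit {τ : ℂ} (h : 0 ≤ τ.im ∧ τ ≠ 0) : -I * τ ∈ slitPlane := by
  rw [mem_slitPlane_iff]
  by_contra hc
  simp only [neg_mul, neg_re, mul_re, I_re, zero_mul, I_im, one_mul, zero_sub, neg_neg, neg_im,
    mul_im, zero_add, ne_eq, neg_eq_zero, not_or, not_lt, not_not] at hc
  exact h.2 (Complex.ext hc.2 (le_antisymm hc.1 h.1))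

theorem Emb1_log {τ : ℂ} (h : 0 ≤ τ.im ∧ τ ≠ 0) :
    log τ = Real.pi / 2 * I + log (-I * τ) := by
  have h1 := abs_le.1 (abs_arg_le_pi_div_two_iff.2 (show 0 ≤ (-I * τ).re by simpa using h.1))
  have hp := Real.pi_pos
  rw [← log_I, ← (log_mul_eq_add_log_iff I_ne_zero (slitPlane_ne_zero (Emb1_slit h))).2
    (by rw [arg_I]; constructor <;> linarith)]
  congr 1
  rw [← mul_assoc, mul_neg, I_mul_I, neg_neg, one_mul]

theorem Emb1_der (σ : ℝ) {τ : ℂ} (h : 0 ≤ τ.im ∧ τ ≠ 0) :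
    HasDerivAt (fun t => exp (σ * (Real.pi / 2 * I + log (-I * t)))) (σ * pw (σ - 1) τ) τ := by
  have := (((((hasDerivAt_id τ).const_mul (-I)).clog (Emb1_slit h)).const_add
    (Real.pi / 2 * I)).const_mul (σ : ℂ)).cexp
  refine this.congr_deriv ?_
  have e : pw σ τ = pw (σ - 1) τ * τ := by
    have := pw_mul (σ - 1) 1 τ
    rwa [pw_one h.2, sub_add_cancel, eq_comm] at this
  simp only [id]
  rw [← Emb1_log h, ← pw, e]
  have := h.2
  field_simp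

theorem pw_cont (σ : ℝ) : ContinuousOn (pw σ) {τ | 0 ≤ τ.im ∧ τ ≠ 0} :=
  ContinuousOn.congr (fun _ h => (Emb1_der σ h).continuousAt.continuousWithinAt)
    fun τ h => by rw [pw, Emb1_log h]

theorem Emb1_int (h₁ : ContinuousOn f₁ S) (h₂ : ContinuousOn f₂ S) {γ γ' : ℝ → ℂ} {a b : ℝ}
    (hγ : ∀ x ∈ uIcc a b, HasDerivAt γ (γ' x) x) (hγ' : ContinuousOn γ' (uIcc a b))
    (hS : ∀ x ∈ uIcc a b, γ x ∈ S) : IntervalIntegrable
      (fun x => f₁ (γ x) * γ' x - conj (f₂ (γ x) * γ' x)) MeasureTheory.volume a b := by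
  have hc : ContinuousOn γ (uIcc a b) := fun x hx => (hγ x hx).continuousAt.continuousWithinAt
  exact (((h₁.comp hc hS).mul hγ').sub (continuous_conj.comp_continuousOn
    ((h₂.comp hc hS).mul hγ'))).intervalIntegrable

theorem pw_pathP (c : ℂ) (hσ : σ ≠ 0) : PathP {τ | 0 ≤ τ.im ∧ τ ≠ 0} (fun τ => c / σ * pw σ τ)
    (fun τ => c * pw (σ - 1) τ) fun _ => 0 := by
  have hc : ContinuousOn (fun τ => c * pw (σ - 1) τ) {τ | 0 ≤ τ.im ∧ τ ≠ 0} :=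
    continuousOn_const.mul (pw_cont _)
  refine ⟨hc, continuousOn_const, fun γ γ' a b hγ hγ' hS => ?_⟩
  rw [intervalIntegral.integral_eq_sub_of_hasDerivAt
    (f := fun x => c / σ * exp (σ * (Real.pi / 2 * I + log (-I * γ x)))) (fun x hx => ?_)
    (Emb1_int hc continuousOn_const hγ hγ' hS)]
  · simp only [pw]
    rw [← Emb1_log (hS a left_mem_uIcc), ← Emb1_log (hS b right_mem_uIcc)]
  · refine (((Emb1_der σ (hS x hx)).comp x (hγ x hx)).const_mul (c / σ)).congr_deriv ?_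
    have : (σ : ℂ) ≠ 0 := ofReal_ne_zero.2 hσ
    simp only [zero_mul, map_zero, sub_zero]
    field_simp

theorem ratio_sq {P P' : ℂ} {η : ℝ} (h₀ : P ≠ 0) (hη : η ≤ 1 / 10)
    (h : ‖P - P'‖ ≤ η / 2 * (‖P‖ + ‖P'‖)) : P' ≠ 0 ∧ ‖(P / P') ^ 2 - 1‖ ≤ 3 * η := by
  have ha := norm_pos_iff.2 h₀
  have hb := norm_nonneg P'
  have hη0 : 0 ≤ η := by nlinarith [norm_nonneg (P - P')]
  have h1 : ‖P‖ ≤ ‖P - P'‖ + ‖P'‖ := by simpa using norm_add_le (P - P') P'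
  have h2 : 19 * ‖P‖ ≤ 21 * ‖P'‖ := by nlinarith
  have hb' : 0 < ‖P'‖ := by linarith
  have hP : P' ≠ 0 := norm_pos_iff.1 hb'
  refine ⟨hP, ?_⟩
  have : (P / P') ^ 2 - 1 = (P - P') * (P + P') / P' ^ 2 := by
    field_simp
    ring
  rw [this, norm_div, norm_mul, norm_pow, div_le_iff₀ (by positivity)]
  calc ‖P - P'‖ * ‖P + P'‖ ≤ η / 2 * (‖P‖ + ‖P'‖) * (‖P‖ + ‖P'‖) :=
        mul_le_mul h (norm_add_le _ _) (norm_nonneg _) (by positivity)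
    _ = η / 2 * (‖P‖ + ‖P'‖) ^ 2 := by ring
    _ ≤ η / 2 * (6 * ‖P'‖ ^ 2) := by
        gcongr
        nlinarith
    _ = 3 * η * ‖P'‖ ^ 2 := by ring

theorem PathP.mono (h : PathP S X f₁ f₂) {S' : Set ℂ} (hS : S' ⊆ S) : PathP S' X f₁ f₂ :=
  ⟨h.c₁.mono hS, h.c₂.mono hS, fun γ γ' a b hγ hγ' hγS =>
    h.ftc γ γ' a b hγ hγ' fun x hx => hS (hγS x hx)⟩

theorem PathP.shift (h : PathP S X f₁ f₂) (x₀ : ℂ) : PathP {τ | x₀ + τ ∈ S} (fun τ => X (x₀ + τ))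
    (fun τ => f₁ (x₀ + τ)) fun τ => f₂ (x₀ + τ) :=
  ⟨h.c₁.comp (by fun_prop) fun _ hx => hx, h.c₂.comp (by fun_prop) fun _ hx => hx,
    fun γ γ' a b hγ hγ' hγS =>
      h.ftc (fun x => x₀ + γ x) γ' a b (fun x hx => (hγ x hx).const_add x₀) hγ' hγS⟩

theorem PathP.sub (h : PathP S X f₁ f₂) {Y g₁ g₂ : ℂ → ℂ} (h' : PathP S Y g₁ g₂) :
    PathP S (fun τ => X τ - Y τ) (fun τ => f₁ τ - g₁ τ) fun τ => f₂ τ - g₂ τ := by
  refine ⟨h.c₁.sub h'.c₁, h.c₂.sub h'.c₂, fun γ γ' a b hγ hγ' hS => ?_⟩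
  rw [sub_sub_sub_comm, h.ftc γ γ' a b hγ hγ' hS, h'.ftc γ γ' a b hγ hγ' hS,
    ← intervalIntegral.integral_sub (Emb1_int h.c₁ h.c₂ hγ hγ' hS)
      (Emb1_int h'.c₁ h'.c₂ hγ hγ' hS)]
  congr 1
  ext x
  simp only [map_mul, map_sub]
  ring

theorem Emb1_le {u v w : ℂ} {M : ℝ} (h : ‖u‖ + ‖v‖ ≤ M) : ‖u * w - conj (v * w)‖ ≤ M * ‖w‖ := by
  refine (norm_sub_le _ _).trans ?_
  rw [Complex.norm_conj, norm_mul, norm_mul, ← add_mul]
  gcongr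

theorem segI_le {t₀ t₁ : ℂ} {M : ℝ}
    (h : ∀ x ∈ Icc (0 : ℝ) 1, ‖f₁ (t₀ + x * (t₁ - t₀))‖ + ‖f₂ (t₀ + x * (t₁ - t₀))‖ ≤ M) :
    ‖segI f₁ f₂ t₀ t₁‖ ≤ M * ‖t₁ - t₀‖ := by
  simpa [segI] using intervalIntegral.norm_integral_le_of_norm_le_const (a := 0) (b := 1)
    fun x hx => Emb1_le (w := t₁ - t₀)
      (h x (by simpa using uIoc_subset_uIcc hx))

theorem arcI_le {x₀ : ℂ} {R a b M : ℝ} (hR : 0 ≤ R)
    (h : ∀ θ ∈ uIcc a b, ‖f₁ (x₀ + R * exp (θ * I))‖ + ‖f₂ (x₀ + R * exp (θ * I))‖ ≤ M) :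
    ‖arcI f₁ f₂ x₀ R a b‖ ≤ M * R * |b - a| :=
  intervalIntegral.norm_integral_le_of_norm_le_const fun θ hθ =>
    (Emb1_le (h θ (uIoc_subset_uIcc hθ))).trans_eq (by simp [abs_of_nonneg hR])

theorem segI_shift (x₀ t₀ t₁ : ℂ) : segI f₁ f₂ (x₀ + t₀) (x₀ + t₁) =
    segI (fun τ => f₁ (x₀ + τ)) (fun τ => f₂ (x₀ + τ)) t₀ t₁ := by
  simp only [segI, add_sub_add_left_eq_sub, add_assoc]

theorem arcI_shift (x₀ : ℂ) (R a b : ℝ) : arcI f₁ f₂ x₀ R a b =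
    arcI (fun τ => f₁ (x₀ + τ)) (fun τ => f₂ (x₀ + τ)) 0 R a b := by
  simp only [arcI, zero_add]

theorem segI_swap (t₀ t₁ : ℂ) : segI f₂ f₁ t₀ t₁ = -conj (segI f₁ f₂ t₀ t₁) := by
  rw [segI, segI, ← intervalIntegral.intervalIntegral_conj, ← intervalIntegral.integral_neg]
  simp

theorem arcI_swap (x₀ : ℂ) (R a b : ℝ) : arcI f₂ f₁ x₀ R a b = -conj (arcI f₁ f₂ x₀ R a b) := by
  rw [arcI, arcI, ← intervalIntegral.intervalIntegral_conj, ← intervalIntegral.integral_neg]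
  simp

end Pool.Agent.MP_92463a_gt

end
end

section

open Set Complex Filter Metric
open scoped Topology ComplexConjugate ContDiff Manifold

noncomputable section

namespace Pool.Agent.MP_92463a_gt

namespace Dat

variable {α : Type} {l : Filter α} {D : α → Dat} {D₀ : Dat}

/-- points of the upper half plane with norm along `k` -/
def Sing2_F (k : Filter ℝ) : Filter ℂ := comap norm k ⊓ 𝓟 {τ | 0 ≤ τ.im}

theorem Sing2_norm (k : Filter ℝ) : Tendsto (fun z : α × ℂ => ‖z.2‖) (l ×ˢ Sing2_F k) k :=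
  (tendsto_comap.mono_left inf_le_left).comp tendsto_snd

theorem Sing2_im (k : Filter ℝ) : ∀ᶠ z : α × ℂ in l ×ˢ Sing2_F k, 0 ≤ z.2.im :=
  tendsto_snd.eventually (mem_inf_of_right (mem_principal_self _))

theorem Sing2_core {k : Filter ℝ} {f₁ f₂ : α → ℂ → ℂ} {c : ℂ} {σ ε : ℝ} (hc : c ≠ 0)
    (hε : 0 < ε) (hk : ∀ᶠ r in k, 0 < r)
    (h₁ : Tendsto (fun z : α × ℂ => f₁ z.1 z.2 / pw (σ - 1) z.2) (l ×ˢ Sing2_F k) (𝓝 c))
    (h₂ : Tendsto (fun z : α × ℂ => f₂ z.1 z.2 / pw (σ - 1) z.2) (l ×ˢ Sing2_F k) (𝓝 0)) :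
    ∃ B ∈ k, ∀ᶠ x in l, ∀ τ : ℂ, 0 ≤ τ.im → ‖τ‖ ∈ B → Mod (f₁ x) (f₂ x) c σ ε τ := by
  have h₃ := (h₁.sub_const c).norm.add h₂.norm
  rw [sub_self, norm_zero, add_zero] at h₃
  have h₄ : ∀ᶠ z : α × ℂ in l ×ˢ Sing2_F k, Mod (f₁ z.1) (f₂ z.1) c σ ε z.2 := by
    filter_upwards [h₃.eventually (gt_mem_nhds (mul_pos hε (norm_pos_iff.2 hc))),
      (Sing2_norm k).eventually hk] with z h1 h2
    have h3 := pw_ne (σ - 1) z.2
    have h4 : f₁ z.1 z.2 - c * pw (σ - 1) z.2 =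
        (f₁ z.1 z.2 / pw (σ - 1) z.2 - c) * pw (σ - 1) z.2 := by field_simp
    have h5 : f₂ z.1 z.2 = f₂ z.1 z.2 / pw (σ - 1) z.2 * pw (σ - 1) z.2 := by field_simp
    rw [Mod, h4, h5, norm_mul, norm_mul, ← add_mul, ← norm_pw _ (norm_pos_iff.1 h2)]
    exact mul_le_mul_of_nonneg_right h1.le (norm_nonneg _)
  obtain ⟨pa, ha, pb, hb, h₅⟩ := eventually_prod_iff.1 h₄
  rw [Sing2_F, eventually_inf_principal, eventually_comap] at hb
  exact ⟨_, hb, ha.mono fun x hx τ h1 h2 => h₅ hx (h2 τ rfl h1)⟩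

theorem Sing2_ne {D : Dat} {x₀ r₀ r₁ s s' : ℝ}
    (h : ∀ r ∈ Ioo r₀ r₁, s * (D.P (x₀ + r)).re < 0 ∧ s' * (D.P (x₀ + -r)).re < 0)
    (τ : ℂ) (h₀ : r₀ < ‖τ‖) (h₁ : ‖τ‖ < r₁) : D.P (x₀ + τ) ≠ 0 := by
  by_cases h2 : τ.im = 0
  · obtain ⟨r, rfl⟩ : ∃ r : ℝ, τ = r := ⟨τ.re, Complex.ext rfl h2⟩
    rw [norm_real, Real.norm_eq_abs] at h₀ h₁
    obtain ⟨h3, h4⟩ := h _ ⟨h₀, h₁⟩
    intro h5
    rcases abs_choice r with h6 | h6
    · rw [h6, h5, zero_re, mul_zero] at h3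
      exact h3.false
    · rw [h6, ofReal_neg, neg_neg, h5, zero_re, mul_zero] at h4
      exact h4.false
  · exact ne_of_im (by simpa using h2)

/-- the regular part of the logarithm of the Gauss map at `-b j` -/
def Sing2_L (D : Dat) (j : ℕ) (t : ℂ) : ℂ :=
  Real.log D.ρ - log t / 2 + ∑ k ∈ (Finset.range D.q).erase j, sg k * (3 / 2) * log (t + D.b k) -
    ∑ i ∈ Finset.range D.p, sg i * (1 / 2) * lm (D.a i) t

theorem Sing2_G {D : Dat} {j : ℕ} (hj : j < D.q) (τ : ℂ) :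
    D.G ((-D.b j : ℝ) + τ) = pw (sg j * (3 / 2)) τ * exp (D.Sing2_L j ((-D.b j : ℝ) + τ)) := by
  rw [G, pw, ← exp_add, LG, Sing2_L, ← Finset.add_sum_erase _ _ (Finset.mem_range.2 hj),
    show ((-D.b j : ℝ) : ℂ) + τ + D.b j = τ by push_cast; ring]
  congr 1
  push_cast
  ring

theorem Sing2_tL (h : Tends l D D₀) {j : ℕ} (hj : j < D₀.q) {τ : α → ℂ} (ht : Tendsto τ l (𝓝 0))
    (hi : ∀ᶠ x in l, 0 ≤ (τ x).im) :
    Tendsto (fun x => ((-(D x).b j : ℝ) + τ x : ℂ)) l (𝓝 (-D₀.b j : ℝ)) ∧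
    Tendsto (fun x => exp ((D x).Sing2_L j ((-(D x).b j : ℝ) + τ x))) l
      (𝓝 (exp (D₀.Sing2_L j (-D₀.b j : ℝ)))) := by
  have h1 := (DatC_re (h.b j hj).neg).add ht
  rw [add_zero] at h1
  have hb := h.ok₀.b_pos j hj
  have e1 : ∀ k ∈ (Finset.range D₀.q).erase j, Tendsto
      (fun x => (sg k * (3 / 2) * log ((-(D x).b j : ℝ) + τ x + (D x).b k) : ℂ)) l
      (𝓝 (sg k * (3 / 2) * log ((-D₀.b j : ℝ) + D₀.b k))) := fun k hk => by
    have h2 := Finset.mem_range.1 (Finset.mem_erase.1 hk).2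
    refine (DatC_log (h1.add (DatC_re (h.b k h2))) (by simpa using hi) (by simp) ?_).const_mul _
    rw [← ofReal_add, ofReal_ne_zero]
    rcases lt_or_gt_of_ne (Finset.mem_erase.1 hk).1 with h3 | h3
    · exact ne_of_lt (by linarith [h.ok₀.b_gap k j h3 hj, h.ok₀.b_pos k h2])
    · exact ne_of_gt (by linarith [h.ok₀.b_gap j k h3 h2])
  have e2 : ∀ i ∈ Finset.range D₀.p, Tendsto
      (fun x => (sg i * (1 / 2) * lm ((D x).a i) ((-(D x).b j : ℝ) + τ x) : ℂ)) l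
      (𝓝 (sg i * (1 / 2) * lm (D₀.a i) (-D₀.b j : ℝ))) := fun i hi' => by
    have h2 := Finset.mem_range.1 hi'
    refine ((DatC_log (h1.sub (DatC_re (h.a i h2))) (by simpa using hi) (by simp) ?_).sub_const
      _).const_mul _
    rw [← ofReal_sub, ofReal_ne_zero]
    exact ne_of_lt (by linarith [h.ok₀.a_pos i h2])
  refine ⟨h1, Tendsto.congr' ?_ (((((DatC_re (h.ρ.log h.ok₀.ρ_pos.ne')).sub
    ((DatC_log h1 (by simpa using hi) (by simp) (ofReal_ne_zero.2 (by linarith))).div_const 2)).add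
      (tendsto_finsetSum _ e1)).sub (tendsto_finsetSum _ e2)).cexp)⟩
  filter_upwards [h.ok] with x hx
  rw [Sing2_L, hx.2.1, hx.2.2]

theorem Sing2_sb {D : Dat} (hD : D.Ok) {j : ℕ} (hj : j < D.q) {r : ℝ} (h₀ : 0 < r)
    (h₁ : r < D.b j / 2) : (sg j * (D.P ((-D.b j : ℝ) + r)).re < 0 ∧
      sg (j + 1) * (D.P ((-D.b j : ℝ) + -r)).re < 0) ∧ D.G ((-D.b j : ℝ) + r) =
        (if Even j then -I else -1) * (‖D.G ((-D.b j : ℝ) + r)‖ : ℂ) := by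
  have h2 := hD.sign_neg (x := -D.b j + r) (k := j) (by linarith) hj.le
    (fun i hi => by linarith [hD.b_gap i j hi hj, hD.b_pos i (hi.trans hj)]) fun i h3 h4 => by
      rcases h3.eq_or_lt with rfl | h5
      · linarith
      · linarith [hD.b_gap j i h5 h4]
  have h3 := hD.sign_neg (x := -D.b j + -r) (k := j + 1) (by linarith) hj
    (fun i hi => by
      rcases (Nat.lt_succ_iff.1 hi).eq_or_lt with rfl | h5
      · linarith
      · linarith [hD.b_gap i j h5 hj, hD.b_pos i (h5.trans hj)])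
    fun i h3 h4 => by linarith [hD.b_gap j i h3 h4]
  rw [ofReal_add] at h2 h3
  rw [ofReal_neg r] at h3
  exact ⟨⟨h2.1, h3.1⟩, h2.2⟩

theorem Sing2_ph (hD : D₀.Ok) {j : ℕ} (hj : j < D₀.q) :
    ((if Even j then I else 1) * exp (D₀.Sing2_L j (-D₀.b j : ℝ))).im = 0 := by
  have h : Tends (𝓝[>] (0 : ℝ)) (fun _ => D₀) D₀ := ⟨hD, Eventually.of_forall fun _ => ⟨hD, rfl, rfl⟩,
    fun _ _ => tendsto_const_nhds, fun _ _ => tendsto_const_nhds, tendsto_const_nhds⟩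
  have h1 := (continuous_im.tendsto _).comp ((Sing2_tL h hj (τ := fun r : ℝ => r)
    (DatC_re (c := 0) nhdsWithin_le_nhds) (by simp)).2.const_mul (if Even j then I else 1))
  refine tendsto_nhds_unique h1 (tendsto_const_nhds.congr' ?_)
  filter_upwards [Ioo_mem_nhdsGT (half_pos (hD.b_pos j hj))] with r hr
  have h2 := (Sing2_sb hD hj hr.1 hr.2).2
  have h3 := Sing2_G hj (r : ℂ)
  rw [pw, ← ofReal_log hr.1.le, ← ofReal_mul, ← ofReal_exp, h2] at h3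
  have h4 := (eq_div_iff (ofReal_ne_zero.2 (Real.exp_ne_zero _))).2 ((mul_comm _ _).trans h3.symm)
  simp only [Function.comp_apply, h4, ← mul_div_assoc, ← mul_assoc, div_ofReal_im]
  split_ifs <;> simp

theorem Sing2_sg (j : ℕ) : sg j = if Even j then 1 else -1 := neg_one_pow_eq_ite

theorem Sing2_mb (h : Tends l D D₀) {j : ℕ} (hj : j < D₀.q) :
    ∃ c : ℂ, c ≠ 0 ∧ (if Even j then c.re else c.im) = 0 ∧ ∀ ε > 0, ∃ B ∈ 𝓝[>] (0 : ℝ), ∀ᶠ x in l,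
      (∀ τ : ℂ, 0 ≤ τ.im → ‖τ‖ ∈ B → Mod (fun τ => (D x).F1 ((-(D x).b j : ℝ) + τ))
        (fun τ => (D x).F2 ((-(D x).b j : ℝ) + τ)) c (-1 / 2) ε τ) ∨
      ∀ τ : ℂ, 0 ≤ τ.im → ‖τ‖ ∈ B → Mod (fun τ => (D x).F2 ((-(D x).b j : ℝ) + τ))
        (fun τ => (D x).F1 ((-(D x).b j : ℝ) + τ)) c (-1 / 2) ε τ := by
  have n0 := Sing2_norm (l := l) (𝓝[>] (0 : ℝ))
  have n1 := n0.mono_right nhdsWithin_le_nhds
  obtain ⟨t1, t2⟩ := Sing2_tL (h.comp tendsto_fst) hj (τ := Prod.snd)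
    (tendsto_zero_iff_norm_tendsto_zero.2 n1) (Sing2_im _)
  have t3 : Tendsto (fun z : α × ℂ => pw (3 / 2) z.2) (l ×ˢ Sing2_F (𝓝[>] 0)) (𝓝 0) := by
    have := n1.rpow_const (p := 3 / 2) (Or.inr (by norm_num))
    rw [Real.zero_rpow (by norm_num)] at this
    refine tendsto_zero_iff_norm_tendsto_zero.2 (this.congr' ?_)
    filter_upwards [n0.eventually self_mem_nhdsWithin] with z hz
    rw [norm_pw _ (norm_pos_iff.1 hz)]
  have hw : ∀ τ, pw (-1 / 2 - 1) τ = (pw (3 / 2) τ)⁻¹ := fun τ => by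
    rw [pw, pw, ← exp_neg]
    congr 1
    push_cast
    ring
  have hq : ∀ᶠ z : α × ℂ in l ×ˢ Sing2_F (𝓝[>] 0), j < (D z.1).q :=
    tendsto_fst.eventually (h.ok.mono fun x hx => hx.2.2 ▸ hj)
  have b0 : ((-D₀.b j : ℝ) : ℂ) ≠ 0 := ofReal_ne_zero.2 (neg_ne_zero.2 (h.ok₀.b_pos j hj).ne')
  have e0 := mul_ne_zero (exp_ne_zero (D₀.Sing2_L j (-D₀.b j : ℝ))) b0
  have t4 := (t2.mul t1).inv₀ e0
  have t5 := t2.div t1 b0
  have ph := Sing2_ph h.ok₀ hj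
  by_cases hp : Even j
  · rw [if_pos hp, I_mul_im] at ph
    refine ⟨_, inv_ne_zero e0, by rw [if_pos hp, inv_re, re_mul_ofReal, ph, zero_mul, zero_div],
      fun ε hε => ?_⟩
    have t6 := (t3.mul t3).mul t5
    rw [zero_mul, zero_mul] at t6
    refine (Sing2_core (σ := -1 / 2) (inv_ne_zero e0) hε self_mem_nhdsWithin (t4.congr' ?_)
      (t6.congr' ?_)).imp fun B hB => ⟨hB.1, hB.2.mono fun _ => Or.inr⟩
    all_goals
      filter_upwards [hq] with z hz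
      have := pw_ne (3 / 2) z.2
      simp only [F1, F2, Sing2_G hz, Sing2_sg, if_pos hp, one_mul, hw, Pi.div_apply]
      field_simp
  · rw [if_neg hp, one_mul] at ph
    have e1 := div_ne_zero (exp_ne_zero (D₀.Sing2_L j (-D₀.b j : ℝ))) b0
    refine ⟨_, e1, by rw [if_neg hp, div_ofReal_im, ph, zero_div], fun ε hε => ?_⟩
    have t6 := (t3.mul t3).mul t4
    rw [zero_mul, zero_mul] at t6
    refine (Sing2_core (σ := -1 / 2) e1 hε self_mem_nhdsWithin (t5.congr' ?_)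
      (t6.congr' ?_)).imp fun B hB => ⟨hB.1, hB.2.mono fun _ => Or.inl⟩
    all_goals
      filter_upwards [hq] with z hz
      have := pw_ne (3 / 2) z.2
      simp only [F1, F2, Sing2_G hz, Sing2_sg, if_neg hp, hw, Pi.div_apply,
        show (-1 * (3 / 2) : ℝ) = -1 / 2 - 1 by norm_num]
      field_simp

theorem Tends.sing_b (h : Tends l D D₀) {j : ℕ} (hj : j < D₀.q) : ∃ m > 0, ∃ M, ∀ ε > 0,
    ∀ᶠ δ in 𝓝[>] (0 : ℝ), ∀ᶠ x in l, (D x).Sing (-(D x).b j) (-1 / 2) 0 δ ε m M := by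
  obtain ⟨c, hc, ph, hm⟩ := Sing2_mb h hj
  refine ⟨‖c‖, norm_pos_iff.2 hc, ‖c‖, fun ε hε => ?_⟩
  obtain ⟨B, hB, hm⟩ := hm ε hε
  obtain ⟨u, hu, hB⟩ := mem_nhdsGT_iff_exists_Ioo_subset.1 hB
  filter_upwards [Ioo_mem_nhdsGT hu, Ioo_mem_nhdsGT (half_pos (h.ok₀.b_pos j hj))] with δ h1 h2
  filter_upwards [hm, h.ok, ((h.b j hj).div_const 2).eventually (lt_mem_nhds h2.2)] with x h3 h4 h5
  have h6 := fun r (hr : r ∈ Ioo 0 δ) => (Sing2_sb h4.1 (h4.2.2 ▸ hj) hr.1 (hr.2.trans h5)).1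
  refine ⟨Sing2_ne h6, c, le_rfl, le_rfl, ?_, h3.imp
    (fun h τ hτ => h τ hτ.1 (hB ⟨hτ.2.1, hτ.2.2.trans h1.2⟩))
    fun h τ hτ => h τ hτ.1 (hB ⟨hτ.2.1, hτ.2.2.trans h1.2⟩)⟩
  simp only [Sing2_sg, Nat.even_add_one] at h6
  by_cases hp : Even j
  · exact Or.inr ⟨by simpa [hp] using ph, by simpa [hp] using h6⟩
  · exact Or.inl ⟨by simpa [hp] using ph, by simpa [hp] using h6⟩

theorem Sing2_log {v : α → ℝ} {v₀ : ℝ} {t : α → ℂ} (hv : Tendsto v l (𝓝 v₀))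
    (ht : Tendsto (fun x => ‖t x‖) l atTop) (hi : ∀ᶠ x in l, 0 ≤ (t x).im) :
    Tendsto (fun x => log (t x + v x) - log (t x)) l (𝓝 0) := by
  have h1 := (DatC_re hv).mul (tendsto_inv₀_cobounded.comp (tendsto_norm_atTop_iff_cobounded.1 ht))
  have h2 := (h1.const_add 1).clog (by simp)
  rw [mul_zero, add_zero, log_one] at h2
  refine h2.congr' ?_
  filter_upwards [hi, ht.eventually_gt_atTop (‖(v₀ : ℂ)‖ + 1),
    (DatC_re hv).norm.eventually (gt_mem_nhds (lt_add_one _))] with x h3 h4 h5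
  rw [log_near (h5.trans h4) h3 (by simpa using h3), add_sub_cancel_left, div_eq_mul_inv]
  rfl

theorem Sing2_tK (h : Tends l D D₀) {t : α → ℂ} (ht : Tendsto (fun x => ‖t x‖) l atTop)
    (hi : ∀ᶠ x in l, 0 ≤ (t x).im) : ∃ E : α → ℂ, Tendsto E l (𝓝 D₀.ρ) ∧ ∀ᶠ x in l, (D x).G (t x) =
      E x * if Even D₀.p then pw (-(1 / 2)) (t x) else I * pw (1 / 2) (t x) := by
  have e1 := tendsto_finsetSum (Finset.range D₀.q) fun j hj =>
    (Sing2_log (h.b j (Finset.mem_range.1 hj)) ht hi).const_mul (sg j * (3 / 2) : ℂ)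
  have e2 := tendsto_finsetSum (Finset.range D₀.p) fun i hi' =>
    (Sing2_log (h.a i (Finset.mem_range.1 hi')).neg ht hi).const_mul (sg i * (1 / 2) : ℂ)
  have e3 := (((DatC_re (h.ρ.log h.ok₀.ρ_pos.ne')).add e1).sub e2).cexp
  simp only [mul_zero, Finset.sum_const_zero, add_zero, sub_zero, ← ofReal_exp,
    Real.exp_log h.ok₀.ρ_pos] at e3
  refine ⟨_, e3, h.ok.mono fun x hx => ?_⟩
  have s1 := congrArg ofReal (Phase_sg D₀.q)
  have s2 := congrArg ofReal (Phase_sg D₀.p)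
  rw [ofReal_sum] at s1 s2
  rw [← if_congr (Nat.even_add.1 h.ok₀.par) rfl rfl] at s1
  simp only [G, LG, hx.2.1, hx.2.2, lm, mul_sub, Finset.sum_sub_distrib, ← Finset.sum_mul, s1, s2,
    ofReal_neg, ← sub_eq_add_neg, pw]
  split_ifs
  · rw [← exp_add]
    congr 1
    push_cast
    ring
  · rw [show ∀ z, I * exp z = exp (Real.pi / 2 * I + z) from fun z => by
      rw [exp_add, exp_pi_div_two_mul_I], ← exp_add]
    congr 1
    push_cast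
    ring

theorem Sing2_mi (h : Tends l D D₀) :
    ∃ c : ℂ, c ≠ 0 ∧ (if Even D₀.p then c.im else c.re) = 0 ∧ ∀ ε > 0, ∃ B ∈ atTop, ∀ᶠ x in l,
      (∀ τ : ℂ, 0 ≤ τ.im → ‖τ‖ ∈ B → Mod (D x).F1 (D x).F2 c (1 / 2) ε τ) ∨
      ∀ τ : ℂ, 0 ≤ τ.im → ‖τ‖ ∈ B → Mod (D x).F2 (D x).F1 c (1 / 2) ε τ := by
  have n0 := Sing2_norm (l := l) atTop
  obtain ⟨E, t1, hE⟩ := Sing2_tK (h.comp tendsto_fst) n0 (Sing2_im _)
  have t2 := tendsto_inv₀_cobounded.comp (tendsto_norm_atTop_iff_cobounded.1 n0)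
  have r0 : (D₀.ρ : ℂ) ≠ 0 := ofReal_ne_zero.2 h.ok₀.ρ_pos.ne'
  have hw : ∀ᶠ z : α × ℂ in l ×ˢ Sing2_F atTop, ∃ w : ℂ, w ≠ 0 ∧ z.2 = w ^ 2 ∧
      pw (1 / 2) z.2 = w ∧ pw (-(1 / 2)) z.2 = w⁻¹ ∧ pw (1 / 2 - 1) z.2 = w⁻¹ := by
    filter_upwards [n0.eventually_gt_atTop 0] with z hz
    have : pw (-(1 / 2)) z.2 = (pw (1 / 2) z.2)⁻¹ := by
      rw [pw, pw, ← exp_neg, ofReal_neg, neg_mul]
    exact ⟨_, pw_ne _ _, by rw [sq, pw_mul, add_halves, pw_one (norm_pos_iff.1 hz)], rfl, this,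
      this ▸ congrArg (pw · _) (by norm_num)⟩
  by_cases hp : Even D₀.p
  · have t3 := t1.mul t2
    rw [mul_zero] at t3
    refine ⟨_, inv_ne_zero r0, by simp [hp], fun ε hε =>
      (Sing2_core (σ := 1 / 2) (inv_ne_zero r0) hε (eventually_gt_atTop 0) ((t1.inv₀ r0).congr' ?_)
        (t3.congr' ?_)).imp fun B hB => ⟨hB.1, hB.2.mono fun _ => Or.inr⟩⟩
    all_goals
      filter_upwards [hE, hw] with z h1 ⟨w, h2, h3, h4, h5, h6⟩
      simp only [F1, F2, h1, if_pos hp, h5, h6, Function.comp_apply]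
      rw [h3]
      field_simp
  · have r1 := mul_ne_zero r0 I_ne_zero
    have t3 := ((t1.mul_const I).inv₀ r1).mul t2
    rw [mul_zero] at t3
    refine ⟨_, r1, by simp [hp], fun ε hε =>
      (Sing2_core (σ := 1 / 2) r1 hε (eventually_gt_atTop 0) ((t1.mul_const I).congr' ?_)
        (t3.congr' ?_)).imp fun B hB => ⟨hB.1, hB.2.mono fun _ => Or.inl⟩⟩
    all_goals
      filter_upwards [hE, hw] with z h1 ⟨w, h2, h3, h4, h5, h6⟩
      simp only [F1, F2, h1, if_neg hp, h4, h6, Function.comp_apply]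
      rw [h3]
      field_simp

theorem Tends.sing_inf (h : Tends l D D₀) : ∃ m > 0, ∃ M, ∀ ε > 0,
    ∀ᶠ R in atTop, ∀ᶠ x in l, ∀ R', (D x).Sing 0 (1 / 2) R R' ε m M := by
  obtain ⟨c, hc, ph, hm⟩ := Sing2_mi h
  refine ⟨‖c‖, norm_pos_iff.2 hc, ‖c‖, fun ε hε => ?_⟩
  obtain ⟨B, hB, hm⟩ := hm ε hε
  filter_upwards [eventually_forall_ge_atTop.2 hB, eventually_gt_atTop 0,
    (eventually_all_finset (Finset.range D₀.p)).2 fun i _ => eventually_gt_atTop (D₀.a i),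
    (eventually_all_finset (Finset.range D₀.q)).2 fun j _ => eventually_gt_atTop (D₀.b j)]
    with R h1 h2 ha hb
  filter_upwards [hm, h.ok, (eventually_all_finset (Finset.range D₀.p)).2 fun i hi =>
    (h.a i (Finset.mem_range.1 hi)).eventually (gt_mem_nhds (ha i hi)),
    (eventually_all_finset (Finset.range D₀.q)).2 fun j hj =>
      (h.b j (Finset.mem_range.1 hj)).eventually (gt_mem_nhds (hb j hj))] with x h3 h4 h5 h6 R'
  have h7 : ∀ r ∈ Ioo R R', -sg D₀.p * ((D x).P ((0 : ℝ) + r)).re < 0 ∧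
      sg D₀.q * ((D x).P ((0 : ℝ) + -r)).re < 0 := fun r hr => by
    have a1 := (h4.1.sign_pos (h2.trans hr.1) h4.2.1.ge (fun i hi =>
      (h5 i (Finset.mem_range.2 hi)).trans hr.1) fun i h h' => absurd (h4.2.1 ▸ h') h.not_gt).1
    have a2 := (h4.1.sign_neg (neg_lt_zero.2 (h2.trans hr.1)) h4.2.2.ge (fun j hj => by
      linarith [h6 j (Finset.mem_range.2 hj), hr.1]) fun i h h' => absurd (h4.2.2 ▸ h') h.not_gt).1
    rw [ofReal_zero, zero_add, zero_add, neg_mul, neg_lt_zero, ← ofReal_neg]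
    exact ⟨a1, a2⟩
  refine ⟨Sing2_ne h7, c, le_rfl, le_rfl, ?_, ?_⟩
  · simp only [Sing2_sg, ← Nat.even_add.1 h.ok₀.par] at h7
    by_cases hp : Even D₀.p
    · exact Or.inl ⟨by simpa [hp] using ph, by simpa [hp] using h7⟩
    · exact Or.inr ⟨by simpa [hp] using ph, by simpa [hp] using h7⟩
  · simp only [ofReal_zero, zero_add]
    exact h3.imp (fun h τ hτ => h τ hτ.1 (h1 _ hτ.2.1.le)) fun h τ hτ => h τ hτ.1 (h1 _ hτ.2.1.le)

end Dat

end Pool.Agent.MP_92463a_gt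

end
end
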