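import Pool.Agent.Mg.F92463a.Gea0143

section

open Set Complex Filter Metric
open scoped Topology ComplexConjugate ContDiff Manifold

noncomputable section

namespace Pool.Agent.MP_92463a_gt

/-! A ring of `γ` necks between the planar ends `-b 0` and `-b 1`. -/

namespace Dat

variable (D : Dat)

/-- near `-b j` the Gauss map is `exp (A j + i ph + sg j (3/2) log τ + lam j τ)`, `τ = t + b j` -/
def A (j : ℕ) : ℝ :=
  Real.log D.ρ - Real.log (D.b j) / 2 +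
    ∑ i ∈ (Finset.range D.q).erase j, sg i * (3 / 2) * Real.log |D.b i - D.b j| -
    ∑ i ∈ Finset.range D.p, sg i * (1 / 2) * Real.log (D.a i + D.b j)

def lam (j : ℕ) (τ : ℂ) : ℂ :=
  -log (1 - τ / D.b j) / 2 +
    ∑ i ∈ (Finset.range D.q).erase j, sg i * (3 / 2) * log (1 + τ / (D.b i - D.b j)) -
    ∑ i ∈ Finset.range D.p, sg i * (1 / 2) * log (1 - τ / (D.a i + D.b j))

end Dat

/-- the phase of the Gauss map to the right of `-b j` -/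
def ph (j : ℕ) : ℝ := if Even j then -(Real.pi / 2) else Real.pi

/-- the index of the end at which a port sits -/
def jj (b : Bool) : ℕ := if b then 1 else 0

/-- positions, sizes, phases and shifts of the necks -/
abbrev Zs (γ : ℕ) : Type := (Fin γ → ℂ) × (Fin γ → ℝ) × (Fin γ → ℝ) × (Fin γ → ℂ)

namespace Zs

variable {γ : ℕ} (z : Zs γ)

def mean : ℂ := (∑ k, z.1 k) / γ

def ξ (k : Fin γ) : ℂ := z.1 k - z.mean

def eh (k : Fin γ) : ℂ := 1 + z.2.1 k + I * z.2.2.1 k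

/-- the reflection -/
def rf : Zs γ :=
  (fun k => conj (z.1 k.rev), fun k => z.2.1 k.rev, fun k => -z.2.2.1 k.rev,
    fun k => conj (z.2.2.2 k.rev))

end Zs

def ang (γ : ℕ) (k : Fin γ) : ℝ := (2 * (k : ℕ) + 1 - γ) * Real.pi / γ

/-- normalised positions of the ports -/
def Zs.lu {γ : ℕ} (z : Zs γ) : Fin γ × Bool → ℂ
  | (k, false) => I * ang γ k + z.ξ k
  | (k, true) => I * (Real.pi - ang γ k) + conj (z.ξ k) + z.2.2.2 k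

/-- the force on the port `e` from the other ports of the same sheet and from itself -/
def Zs.fc {γ : ℕ} (z : Zs γ) (e : Fin γ × Bool) : ℂ :=
  ∑ j ∈ Finset.univ.erase e.1, z.eh j * exp (z.lu e) / (exp (z.lu e) - exp (z.lu (j, e.2))) +
    3 / 4 * z.eh e.1

/-- the limit of the equations -/
def Zs.lim {γ : ℕ} (z : Zs γ) : Zs γ :=
  (fun k => z.eh k * (-(γ + 1 / 2 + z.mean.re) + z.fc (k, false)) +
      conj (exp (z.2.2.2 k / 2) * z.eh k * z.fc (k, true)) + I * z.mean.im,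
    fun k => z.mean.re - 2 * ∑ j, z.2.1 j - z.2.1 k,
    z.2.2.1,
    fun k => exp (-z.2.2.2 k / 2) - 1)

/-- the symmetric function with given values on the upper necks -/
def sy {γ : ℕ} (f : Fin γ → ℂ) (k : Fin γ) : ℂ :=
  if γ ≤ 2 * (k : ℕ) + 1 then f k else conj (f k.rev)

structure Cfg (γ : ℕ) where
  D : Dat
  L : ℝ
  z : Zs γ

namespace Cfg

variable {γ : ℕ} (C : Cfg γ)

def E : ℝ := Real.log (C.D.b 1 / C.D.b 0) / (2 * γ + 1)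

/-- logarithm of the ratio of the radii of the two rings of ports -/
def lk (b : Bool) : ℝ :=
  if b then 2 * (C.D.A 0 + C.D.A 1 + Real.log (C.D.b 0) - Real.log (C.D.b 1)) else 0

def lg (e : Fin γ × Bool) : ℂ := ((-2 * C.L + C.lk e.2 : ℝ) : ℂ) + C.z.lu e

def τ (e : Fin γ × Bool) : ℂ := exp (C.lg e)

def bb (b : Bool) : ℝ := C.D.b (jj b)

def c (e : Fin γ × Bool) : ℂ := -C.bb e.2 + C.τ e

def Res (k : Fin γ) : ℂ := ((C.D.b 0 * (C.E / C.L) : ℝ) : ℂ) * C.z.eh k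

def vs (k : Fin γ) : ℂ :=
  C.Res k * exp (-(Real.pi / 4) * I + ((C.D.A 0 - C.D.A 1) / 2 : ℝ) +
    (C.lg (k, false) + C.lg (k, true)) / 4 +
    (C.D.lam 0 (C.τ (k, false)) - C.D.lam 1 (C.τ (k, true))) / 2 +
    (log (-C.c (k, true)) - log (-C.c (k, false))) / 2)

def pl : Pl (Fin γ) where
  c := C.c
  ρ e := ‖C.τ e‖ / (16 * γ)
  s k := C.τ (k, false) * C.τ (k, true) * C.vs k ^ 2

/-- variation of the logarithm of the Gauss map near the port `e` -/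
def dG (e : Fin γ × Bool) (v : ℂ) : ℂ :=
  sg (jj e.2) * (3 / 2) * log (1 + v / C.τ e) +
    (C.D.lam (jj e.2) (C.τ e + v) - C.D.lam (jj e.2) (C.τ e))

/-- the Gauss map near the port `e` -/
def Ge (e : Fin γ × Bool) (v : ℂ) : ℂ :=
  exp (C.D.A (jj e.2) + ph (jj e.2) * I + sg (jj e.2) * (3 / 2) * C.lg e +
    C.D.lam (jj e.2) (C.τ e) + C.dG e v)

def m1 (e : Fin γ × Bool) (v : ℂ) : ℂ := exp ((C.dG e v - log (1 + v / C.c e)) / 2)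

def m2 (e : Fin γ × Bool) (v : ℂ) : ℂ := exp ((-C.dG e v - log (1 + v / C.c e)) / 2)

def r1 : Fin γ × Bool → ℂ
  | (k, false) => C.Res k
  | (k, true) => C.pl.s k / C.Res k

def r2 : Fin γ × Bool → ℂ
  | (k, false) => C.pl.s k / (-(C.c (k, true) / C.c (k, false)) * C.Res k)
  | (k, true) => -(C.c (k, true) / C.c (k, false)) * C.Res k

def W1 (e : Fin γ × Bool) : ℝ := if e.2 then 1 else Real.exp (2 * C.L)

def W2 (e : Fin γ × Bool) : ℝ := if e.2 then Real.exp (2 * C.L) else 1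

def ℓ : ℝ := -(C.E * (γ + 1 / 2 + C.z.mean.re) / C.L)

def bg (t : ℂ) : ℂ := 1 + C.ℓ * C.D.b 0 / (t + C.D.b 0)

def wd : Wd (Fin γ) where
  toPl := C.pl
  D := C.D
  ℓ := C.ℓ
  χ t := 1 + ∑ e, C.pl.pk (C.pl.k1 C.m1 C.r1) (C.pl.psi (C.pl.k1 C.m1 C.r1) C.bg) e t
  ψ₂ := C.pl.psi (C.pl.k1 C.m2 C.r2) fun _ => 1
  yb e v := C.Ge e v / C.D.R (C.c e + v)
  κ := Fin.rev

/-- the coefficient of `τ ^ (-3/2)` in the main form at the end `-b (jj b)` -/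
def cm (b : Bool) : ℂ :=
  if b then ((Real.exp (C.D.A 1) / C.D.b 1 : ℝ) : ℂ)
  else -I * ((Real.exp (-C.D.A 0) / C.D.b 0 : ℝ) : ℂ)

def θ0 (k : Fin γ) : ℂ := I * ((C.D.b 0 * Real.exp (C.D.A 0) : ℝ) : ℂ) * exp (C.lg (k, false) / 2)

/-- a point of the waist -/
def wp (e : Fin γ × Bool) : ℂ := C.c e + C.τ e * C.vs e.1

/-- the horizontal position of the waist -/
def XM (e : Fin γ × Bool) : ℂ :=
  (arcI C.wd.F1 C.wd.F2 (-C.bb e.2) (2 * ‖C.τ e‖) (if e.2 then Real.pi else 0) (C.lg e).im).re +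
    (arcI C.wd.F1 C.wd.F2 (-C.bb e.2) (2 * ‖C.τ e‖) (if e.2 then 0 else Real.pi) (C.lg e).im).im
      * I +
    segI C.wd.F1 C.wd.F2 (-C.bb e.2 + 2 * C.τ e) (C.wp e)

def eF (k : Fin γ) : ℂ :=
  (C.pl.rs C.wd.f1 (k, false) - conj (C.pl.rs C.wd.f2 (k, true))) /
    (2 * C.θ0 k * ((C.E / C.L : ℝ) : ℂ) ^ 2)

def eV (k : Fin γ) : ℝ := (C.wd.hh (C.wp (k, true)) - C.wd.hh (C.wp (k, false))) / (4 * C.E)

def eA (k : Fin γ) : ℝ := -(C.L / C.E) * (C.pl.rs C.wd.f3 (k, false)).im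

def eB (k : Fin γ) : ℂ := (C.XM (k, true) - C.XM (k, false)) / conj (2 / C.θ0 k)

/-- the equations of the necks -/
def eq : Zs γ := (C.eF, C.eV, C.eA, sy C.eB)

/-- conditions that do not depend on `L` -/
structure Adm : Prop where
  pos : 0 < γ
  d : C.D.Ok
  q : 2 ≤ C.D.q
  sym : C.z.rf = C.z
  small : ‖C.z‖ ≤ 1 / (100 * γ)

/-- conditions that hold for large `L` -/
structure Good : Prop extends C.Adm where
  L : 1 ≤ C.L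
  τ : ∀ e, ‖C.τ e‖ ≤ C.D.b 0 / 100
  vs : ∀ k, ‖C.vs k‖ ≤ 1 / (100 * γ)
  w1 : C.pl.Wt C.m1
  w2 : C.pl.Wt C.m2
  c1 : C.pl.Con C.r1 C.W1
  c2 : C.pl.Con C.r2 C.W2
  bg : ∀ e v, ‖v‖ = C.pl.ρ e → ‖C.bg (C.c e + v)‖ ≤ 2 * C.W1 e
  wy : C.pl.Wt C.wd.my
  ce : C.pl.Con2 fun e => -C.pl.s e.1
  co : C.pl.Con2 C.wd.ry

end Cfg

/-- the necks shrink and the parameters converge -/
structure Lim {γ : ℕ} {α : Type} (l : Filter α) (C : α → Cfg γ) (D₀ : Dat) (z₀ : Zs γ) : Prop where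
  D : Dat.Tends l (fun x => (C x).D) D₀
  q : 2 ≤ D₀.q
  adm : ∀ᶠ x in l, (C x).Adm
  L : Tendsto (fun x => (C x).L) l atTop
  z : Tendsto (fun x => (C x).z) l (𝓝 z₀)

end Pool.Agent.MP_92463a_gt

end
end

section

open Set Complex Filter Metric
open scoped Topology ComplexConjugate ContDiff Manifold

noncomputable section

namespace Pool.Agent.MP_92463a_gt

/-! Models of the surface near singular points, on the two sheets and in the limit. -/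

def pw (σ : ℝ) (τ : ℂ) : ℂ := exp (σ * log τ)

/-- a half annulus -/
def HA (r₀ r₁ : ℝ) : Set ℂ := {τ | 0 ≤ τ.im ∧ r₀ < ‖τ‖ ∧ ‖τ‖ < r₁}

/-- `f₁` is close to `c τ ^ (σ - 1)` and `f₂` is small -/
def Mod (f₁ f₂ : ℂ → ℂ) (c : ℂ) (σ ε : ℝ) (τ : ℂ) : Prop :=
  ‖f₁ τ - c * pw (σ - 1) τ‖ + ‖f₂ τ‖ ≤ ε * ‖c‖ * ‖τ‖ ^ (σ - 1)

/-- boundary conditions at `r` and `-r` -/
def Bd (X : ℂ → ℂ) (c : ℂ) (r : ℝ) : Prop :=
  (c.im = 0 ∧ (X r).im = 0 ∧ (X (-r)).re = 0) ∨ (c.re = 0 ∧ (X r).re = 0 ∧ (X (-r)).im = 0)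

/-- the data near the real point `x₀` follow a power law -/
def Dat.Sing (D : Dat) (x₀ σ r₀ r₁ ε m M : ℝ) : Prop :=
  (∀ τ : ℂ, r₀ < ‖τ‖ → ‖τ‖ < r₁ → D.P (x₀ + τ) ≠ 0) ∧ ∃ c : ℂ, m ≤ ‖c‖ ∧ ‖c‖ ≤ M ∧
    ((c.im = 0 ∧ ∀ r ∈ Ioo r₀ r₁, 0 < (D.P (x₀ + r)).re ∧ (D.P (x₀ + -r)).re < 0) ∨
      (c.re = 0 ∧ ∀ r ∈ Ioo r₀ r₁, (D.P (x₀ + r)).re < 0 ∧ 0 < (D.P (x₀ + -r)).re)) ∧
    ((∀ τ ∈ HA r₀ r₁, Mod (fun τ => D.F1 (x₀ + τ)) (fun τ => D.F2 (x₀ + τ)) c σ ε τ) ∨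
      ∀ τ ∈ HA r₀ r₁, Mod (fun τ => D.F2 (x₀ + τ)) (fun τ => D.F1 (x₀ + τ)) c σ ε τ)

/-- a sheet: a punctured half disc without small discs around the ports `T k` -/
def SS {κ : Type} (T : κ → ℂ) (μ : κ → ℝ) (δ : ℝ) : Set ℂ :=
  {τ | 0 ≤ τ.im ∧ τ ≠ 0 ∧ ‖τ‖ < δ ∧ ∀ k, μ k ≤ ‖τ - T k‖}

structure Sh0 {κ : Type} (T : κ → ℂ) (μ : κ → ℝ) (R δ ε K : ℝ) (c : ℂ) (f₁ f₂ : ℂ → ℂ) :
    Prop where
  ε_pos : 0 < ε
  ε_le : ε ≤ 1 / 100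
  K_ge : 1 ≤ K
  c_ne : c ≠ 0
  R_pos : 0 < R
  R_le : 4 * R ≤ δ
  rad : ∀ k, 9 / 10 * R ≤ ‖T k‖ ∧ ‖T k‖ ≤ 11 / 10 * R
  mu : ∀ k, 0 < μ k ∧ μ k ≤ ε * ‖T k‖
  sep : ∀ j k, j ≠ k → 4 * ε ≤ ‖T j / (‖T j‖ : ℂ) - T k / (‖T k‖ : ℂ)‖
  pos : ∀ k, (T k).im = 0 ∨ ε * ‖T k‖ ≤ |(T k).im|
  c₁ : ContinuousOn f₁ (SS T μ δ)
  c₂ : ContinuousOn f₂ (SS T μ δ)
  main : ∀ τ ∈ SS T μ δ, ‖f₁ τ - c * pw (-3 / 2) τ‖ ≤ ε * ‖c‖ * ‖τ‖ ^ (-3 / 2 : ℝ)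
  far : ∀ τ ∈ SS T μ δ, (∀ k, ε * ‖T k‖ ≤ ‖τ - T k‖) → ‖f₂ τ‖ ≤ ε * ‖c‖ * ‖τ‖ ^ (-3 / 2 : ℝ)
  near : ∀ τ ∈ SS T μ δ, ‖f₂ τ‖ ≤ K * ‖c‖ * ‖τ‖ ^ (-3 / 2 : ℝ)

structure Sheet {κ : Type} (T : κ → ℂ) (μ : κ → ℝ) (R δ ε K : ℝ) (c : ℂ) (f₁ f₂ X : ℂ → ℂ) :
    Prop extends Sh0 T μ R δ ε K c f₁ f₂ where
  path : PathP (SS T μ δ) X f₁ f₂
  bd : ∀ r : ℝ, 0 < r → (r : ℂ) ∈ SS T μ δ → -(r : ℂ) ∈ SS T μ δ → Bd X c r

namespace Wd

variable {ι : Type} (W : Wd ι)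

/-- far from the two sheets -/
def Away (δ : ℝ) (t : ℂ) : Prop := δ ≤ ‖t + W.D.b 0‖ ∧ δ ≤ ‖t + W.D.b 1‖

/-- on one of the two sheets -/
def OnS (δ : ℝ) (t : ℂ) : Prop :=
  t ∈ W.Q ∧ t ∈ W.Fd ∧ (‖t + W.D.b 0‖ < δ ∨ ‖t + W.D.b 1‖ < δ)

/-- equal or glued -/
def Same (t t' : ℂ) : Prop :=
  t = t' ∨ ∃ e, ∃ v ∈ W.Ann e, t = W.c e + v ∧ t' = W.c (op e) + W.s e.1 / v

/-- the form with a double pole at the port, and the regular form -/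
def fs (e : ι × Bool) : ℂ → ℂ := if e.2 then W.f2 e else W.f1 e

def fr (e : ι × Bool) : ℂ → ℂ := if e.2 then W.f1 e else W.f2 e

/-- the spinor with poles at the ports of the sheet `b`, and the regular one -/
def ψs (b : Bool) : ℂ → ℂ := if b then W.ψ₂ else W.ψ₁

def ψr (b : Bool) : ℂ → ℂ := if b then W.ψ₁ else W.ψ₂

end Wd

/-- the necks disappear in the limit -/
structure WLim {α ι : Type} [Fintype ι] (l : Filter α) (W : α → Wd ι) (D₀ : Dat) : Prop where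
  D : Dat.Tends l (fun x => (W x).D) D₀
  q : 2 ≤ D₀.q
  ok : ∀ᶠ x in l, (W x).Ok1
  near : ∀ δ > 0, ∀ ε > 0, ∀ᶠ x in l, ∀ t, (W x).Away δ t →
    t ∈ (W x).Fd ∧ ‖(W x).ψ₁ t - 1‖ ≤ ε ∧ ‖(W x).ψ₂ t - 1‖ ≤ ε

/-- solutions of the period problem along the limit -/
structure SLim {α ι : Type} [Fintype ι] (l : Filter α) (W : α → Wd ι) (D₀ : Dat)
    (X : α → ℂ → ℂ) (H : α → ℂ → ℝ) : Prop extends WLim l W D₀ where
  sol : ∀ᶠ x in l, (W x).Sol (X x) (H x)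
  ht : ∀ δ > 0, ∀ ε > 0, ∀ᶠ x in l, ∀ t, (W x).Away δ t → t ≠ 0 →
    |H x t - 2 * Real.log ‖t‖| ≤ ε * (1 + |Real.log ‖t‖|)

/-- the rescaled singular spinor near the port `e` -/
def Zs.Psi {γ : ℕ} (z : Zs γ) (e : Fin γ × Bool) (w : ℂ) : ℂ :=
  z.eh e.1 / w + ∑ j ∈ Finset.univ.erase e.1, z.eh j / (1 + w - exp (z.lu (j, e.2) - z.lu e)) -
    if e.2 then 0 else (γ + 1 / 2 + z.mean.re) / (1 + w)

namespace Cfg

variable {γ : ℕ} (C : Cfg γ)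

structure Fine : Prop extends C.Good where
  dir : ∀ k, ‖C.vs k‖ ^ 2 ≤ (C.vs k).re

/-- the radius of the ring of ports -/
def RR (b : Bool) : ℝ := Real.exp (-2 * C.L + C.lk b)

/-- the residue of the singular spinor -/
def rr (e : Fin γ × Bool) : ℂ := if e.2 then C.r2 e else C.r1 e

/-- the main and the small form, and the horizontal position on the sheet `b` -/
def fM (b : Bool) (τ : ℂ) : ℂ := if b then C.wd.F1 (-C.bb b + τ) else C.wd.F2 (-C.bb b + τ)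

def fm (b : Bool) (τ : ℂ) : ℂ := if b then C.wd.F2 (-C.bb b + τ) else C.wd.F1 (-C.bb b + τ)

def Xh (X : ℂ → ℂ) (b : Bool) (τ : ℂ) : ℂ :=
  if b then X (-C.bb b + τ) else -conj (X (-C.bb b + τ))

def TT (b : Bool) (k : Fin γ) : ℂ := C.τ (k, b)

def mm (b : Bool) (k : Fin γ) : ℝ := C.pl.mu (k, b)

/-- the logarithmic part of the height on the sheet `b` -/
def hs (b : Bool) (τ : ℂ) : ℝ :=
  2 * ((if b then 0 else C.wd.q0 * Real.log ‖τ‖) +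
    ∑ k, (C.pl.rs C.wd.f3 (k, b)).re * Real.log ‖τ - C.τ (k, b)‖)

end Cfg

/-- configurations depending continuously on a parameter -/
structure CC {γ : ℕ} {T : Type} [TopologicalSpace T] (S : Set T) (C : T → Cfg γ) (L : ℝ)
    (p q : ℕ) : Prop where
  fine : ∀ x ∈ S, (C x).Fine ∧ (C x).L = L ∧ (C x).D.p = p ∧ (C x).D.q = q
  a : ∀ i < p, ContinuousOn (fun x => (C x).D.a i) S
  b : ∀ j < q, ContinuousOn (fun x => (C x).D.b j) S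
  ρ : ContinuousOn (fun x => (C x).D.ρ) S
  z : ContinuousOn (fun x => (C x).z) S

end Pool.Agent.MP_92463a_gt

end
end

section

open Set Complex Filter Metric
open scoped Topology ComplexConjugate ContDiff Manifold

noncomputable section

namespace Pool.Agent.MP_92463a_gt

/-- the limit configuration -/
def cf {γ : ℕ} (D : Dat) (z : Zs γ) : Cfg γ := ⟨D, 0, z⟩

namespace Cfg

variable {γ : ℕ} {C : Cfg γ}

/-- the ports and the necks are small -/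
structure G0 (C : Cfg γ) : Prop extends C.Adm where
  L : 1 ≤ C.L
  τ : ∀ e, ‖C.τ e‖ ≤ C.D.b 0 / 100
  vs : ∀ k, ‖C.vs k‖ ≤ 1 / (100 * γ)

theorem Good.g0 (h : C.Good) : C.G0 := ⟨h.toAdm, h.L, h.τ, h.vs⟩

end Cfg

end Pool.Agent.MP_92463a_gt

end
end
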