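import Pool.Agent.Mg.F92463a.Gea0143
import Pool.Agent.Mg.F92463a.G6119f0
import Pool.Agent.Mg.F92463a.G2abf78

section

open Set Complex Filter Metric
open scoped Topology ComplexConjugate ContDiff Manifold

noncomputable section

namespace Pool.Agent.MP_92463a_gt

namespace Wd

variable {ι : Type} [Fintype ι] {W : Wd ι} {X : ℂ → ℂ}

theorem Ok0.zero_far (h : W.Ok0) {t : ℂ} (ht : W.D.P t = 0) (e : ι × Bool) :
    2 * W.ρ e ≤ ‖t - W.c e‖ := by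
  by_contra hlt
  refine h.free e (t - W.c e) (by simpa using not_le.1 hlt) ?_
  rwa [add_sub_cancel]

theorem Ok0.zero_fd (h : W.Ok0) {t : ℂ} (ht : W.D.P t = 0) : t ∈ W.Fd ∧ t ∈ W.Om := by
  have h1 : t ∈ W.Fd := fun e => by
    have h2 := h.zero_far ht e
    have h3 := h.pl.mu_ρ e
    have h4 := h.pl.ρ_pos e
    linarith
  exact ⟨h1, h.pl.fd_sub h1⟩

theorem Ok0.yb_ne (h : W.Ok0) {e : ι × Bool} {v : ℂ} (hv : ‖v‖ < 2 * W.ρ e) : W.yb e v ≠ 0 := by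
  intro h0
  have hb : v ∈ ball (0 : ℂ) (2 * W.ρ e) := by simpa using hv
  refine h.free e v hb ?_
  rw [← h.ysq e v hb, h0]
  simp

theorem Ok0.ry_mul (h : W.Ok0) (e : ι × Bool) : W.ry e * W.ry (op e) = W.s e.1 ^ 2 := by
  have h0 : ∀ e', W.yb e' 0 ≠ 0 := fun e' => h.yb_ne (by simpa using h.pl.ρ_pos e')
  have h1 := h0 e
  have h2 := h0 (op e)
  simp only [ry, op_op, op_fst]
  field_simp

theorem Ok0.low_up (h : W.Ok0) {k : ι} : W.Low k ↔ W.Up (W.κ k) := by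
  refine forall_congr' fun b => ?_
  have h1 := h.sy.c (k, b)
  have h2 := h.sy.ρ (k, b)
  simp only at h1 h2
  rw [h1, h2, conj_im]
  constructor <;> intro h3 <;> linarith

theorem Ok0.not_low (h : W.Ok0) (e : ι × Bool) : ¬ W.Low e.1 ↔ 0 ≤ (W.c e).im := by
  have h0 := h.pl.ρ_pos e
  constructor
  · intro h1
    rcases h.pos e.1 with h2 | h2 | h2
    · exact (h2.2.1 e.2).ge
    · have h3 : 2 * W.ρ e ≤ (W.c e).im := h2 e.2
      linarith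
    · exact absurd h2 h1
  · intro h1 h2
    have h3 : (W.c e).im ≤ -(2 * W.ρ e) := h2 e.2
    linarith

theorem Ok0.im_nonneg (h : W.Ok0) {e : ι × Bool} {v : ℂ} (hv : ‖v‖ < 2 * W.ρ e)
    (ht : 0 ≤ (W.c e + v).im) : 0 ≤ (W.c e).im := by
  refine (h.not_low e).1 fun h2 => ?_
  have h3 : (W.c e).im ≤ -(2 * W.ρ e) := h2 e.2
  have h4 := (le_abs_self _).trans (abs_im_le_norm v)
  rw [add_im] at ht
  linarith

theorem Ok0.up_pos (h : W.Ok0) {e : ι × Bool} (he : W.Up e.1) {v : ℂ} (hv : ‖v‖ < 2 * W.ρ e) :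
    0 < (W.c e + v).im := by
  have h3 : 2 * W.ρ e ≤ (W.c e).im := he e.2
  have h4 := (neg_le_abs _).trans (abs_im_le_norm v)
  rw [add_im]
  linarith

theorem Ok0.mid_neg (h : W.Ok0) {e : ι × Bool} (he : W.Mid e.1) {x : ℝ}
    (hx : ‖(x : ℂ) - W.c e‖ < 2 * W.ρ e) : (W.D.P x).re < 0 := by
  have hb : (x : ℂ) - W.c e ∈ ball (0 : ℂ) (2 * W.ρ e) := by simpa using hx
  have hc : (W.c e).im = 0 := he.2.1 e.2
  have h1 := h.yconj e _ hb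
  have h2 : conj ((x : ℂ) - W.c e) = x - W.c e := conj_eq_iff_im.2 (by simp [hc])
  have h3 : (W.κ e.1, e.2) = e := by rw [he.1]
  rw [h2, h3] at h1
  have h4 := h.ysq e _ hb
  rw [add_sub_cancel] at h4
  have h5 := h.yb_ne hx
  have h6 : (W.yb e (x - W.c e)).re = 0 := by
    have h7 := congrArg Complex.re h1
    rw [neg_re, conj_re] at h7
    linarith
  have h7 : (W.yb e (x - W.c e)).im ≠ 0 := fun h8 => h5 (Complex.ext h6 h8)
  rw [← h4, sq, mul_re, h6]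
  have h8 := mul_self_pos.2 h7
  linarith

theorem Ok0.partner (h : W.Ok0) {e : ι × Bool} {v : ℂ} (hv : v ∈ W.Ann e) :
    (0 ≤ (W.c e + v).im → 0 ≤ (W.c (op e) + W.s e.1 / v).im) ∧
      (0 < (W.c e + v).im → 0 < (W.c (op e) + W.s e.1 / v).im) := by
  have h0 := h.pl.ρ_pos e
  have h0' := h.pl.ρ_pos (op e)
  have hv2 : ‖v‖ < 2 * W.ρ e := by linarith [hv.2]
  rcases h.pos e.1 with h2 | h2 | h2
  · have c1 : (W.c e).im = 0 := h2.2.1 e.2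
    have c2 : (W.c (op e)).im = 0 := h2.2.1 (op e).2
    have hn : 0 < normSq v := normSq_pos.2 (h.pl.ann_ne hv)
    have h3 : (W.c (op e) + W.s e.1 / v).im = -(W.s e.1).re / normSq v * v.im := by
      rw [add_im, c2, div_im, h2.2.2.1]
      ring
    have h4 : 0 < -(W.s e.1).re / normSq v := div_pos (neg_pos.2 h2.2.2.2) hn
    rw [h3, add_im, c1, zero_add]
    exact ⟨fun h5 => mul_nonneg h4.le h5, fun h5 => mul_pos h4 h5⟩
  · have h3 : 0 < (W.c (op e) + W.s e.1 / v).im :=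
      h.up_pos (e := op e) h2 (by linarith [(h.pl.ann_op hv).2])
    exact ⟨fun _ => h3.le, fun _ => h3⟩
  · have h3 : ¬ 0 ≤ (W.c e + v).im := fun h4 => (h.not_low e).2 (h.im_nonneg hv2 h4) h2
    exact ⟨fun h4 => absurd h4 h3, fun h4 => absurd h4.le h3⟩

theorem Ok0.f_eq (h : W.Ok0) {e : ι × Bool} {v : ℂ} (hv : ‖v‖ < 2 * W.ρ e)
    (ht : 0 ≤ (W.c e + v).im) : W.f1 e v = W.F1 (W.c e + v) ∧ W.f2 e v = W.F2 (W.c e + v) := by
  have hb : v ∈ ball (0 : ℂ) (2 * W.ρ e) := by simpa using hv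
  have h1 := h.yup e v hb (h.im_nonneg hv ht) ht
  have h2 := h.d.G_eq (h.free e v hb)
  simp only [f1, f2, F1, F2, h1, h2, and_self]

theorem Ok0.b0 (h : W.Ok0) {t : ℂ} (ht : ¬ W.D.IsE t) : t + W.D.b 0 ≠ 0 ∧ t ≠ 0 := by
  refine ⟨fun h1 => ht (Or.inr ⟨0, h.q_pos, eq_neg_of_add_eq_zero_left h1⟩),
    fun h1 => ht (Or.inl h1)⟩

theorem Ok1.ψ₁_diff (h : W.Ok1) {t : ℂ} (ht : t ∈ W.Om) (hb : t + W.D.b 0 ≠ 0) :
    DifferentiableAt ℂ W.ψ₁ t := by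
  have h1 := h.χhol.differentiableAt (Pl.isOpen_om.mem_nhds ht)
  exact h1.add ((differentiableAt_const _).div (differentiableAt_id.add_const _) hb)

theorem Ok1.ψ₂_diff (h : W.Ok1) {t : ℂ} (ht : t ∈ W.Om) : DifferentiableAt ℂ W.ψ₂ t := by
  exact h.ψhol.differentiableAt (Pl.isOpen_om.mem_nhds ht)

theorem Ok1.ψ₁_conj (h : W.Ok1) {t : ℂ} (ht : t ∈ W.Om) : W.ψ₁ (conj t) = conj (W.ψ₁ t) := by
  simp [ψ₁, h.χconj t ht]

theorem Ok1.ψ₁_inf (h : W.Ok1) : Tendsto W.ψ₁ (Bornology.cobounded ℂ) (𝓝 1) := by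
  have h1 : Tendsto (fun t : ℂ => (t + W.D.b 0)⁻¹) (Bornology.cobounded ℂ) (𝓝 0) :=
    tendsto_inv₀_cobounded.comp (tendsto_add_const_cobounded _)
  have h2 := h.χinf.add (h1.const_mul ((W.ℓ : ℂ) * W.D.b 0))
  rw [mul_zero, add_zero] at h2
  exact h2.congr fun t => by rw [ψ₁, div_eq_mul_inv]

theorem Ok1.f_conj (h : W.Ok1) {e : ι × Bool} {v : ℂ} (hv : v ∈ W.Ann2 e) :
    W.f1 (W.κ e.1, e.2) (conj v) = -conj (W.f1 e v) ∧
      W.f2 (W.κ e.1, e.2) (conj v) = -conj (W.f2 e v) ∧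
      W.f3 (W.κ e.1, e.2) (conj v) = conj (W.f3 e v) := by
  have hb : v ∈ ball (0 : ℂ) (2 * W.ρ e) := by simpa using hv.2
  have hO := h.pl.ann2_mem hv
  have h1 : W.c (W.κ e.1, e.2) + conj v = conj (W.c e + v) := by rw [h.sy.c, map_add]
  have h2 := h.yconj e v hb
  have h3 := h.ψ₁_conj hO
  have h4 := h.ψconj _ hO
  refine ⟨?_, ?_, ?_⟩
  · rw [f1, f1, h1, h2, h3, Dat.R_conj]
    simp only [map_mul, map_pow, map_div₀]
    ring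
  · rw [f2, f2, h1, h2, h4, Dat.R_conj]
    simp only [map_mul, map_pow, map_inv₀, neg_mul, inv_neg, mul_neg]
  · rw [f3, f3, h1, F3, F3, h3, h4]
    simp only [map_mul, map_div₀]

theorem Ok1.F_diff (h : W.Ok1) {t : ℂ} (ht : t ∈ W.Om) (hi : 0 < t.im) :
    DifferentiableAt ℂ W.F1 t ∧ DifferentiableAt ℂ W.F2 t := by
  have h0 : t ≠ 0 := fun h1 => by simp [h1] at hi
  have hb : t + W.D.b 0 ≠ 0 := fun h1 => by
    have h2 := congrArg Complex.im h1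
    simp only [add_im, ofReal_im, add_zero, zero_im] at h2
    exact hi.ne' h2
  have hG := Dat.G_diff (D := W.D) hi
  exact ⟨((h.ψ₁_diff ht hb).pow 2).mul (hG.div differentiableAt_id h0),
    ((h.ψ₂_diff ht).pow 2).mul ((hG.mul differentiableAt_id).inv
      (mul_ne_zero (Dat.G_ne t) h0))⟩

theorem Ok1.F_cont (h : W.Ok1) : ContinuousOn W.F1 W.Qr ∧ ContinuousOn W.F2 W.Qr := by
  have hG : ContinuousOn W.D.G W.Qr := Dat.G_cont.mono fun t ht => ⟨ht.1, ht.2.1⟩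
  have hb : ∀ t ∈ W.Qr, t + W.D.b 0 ≠ 0 ∧ t ≠ 0 := fun t ht =>
    h.b0 fun h1 => ht.2.1 (Dat.P_eq_zero.2 (Or.inl h1))
  have h1 : ContinuousOn W.ψ₁ W.Qr := fun t ht =>
    (h.ψ₁_diff ht.2.2 (hb t ht).1).continuousAt.continuousWithinAt
  have h2 : ContinuousOn W.ψ₂ W.Qr := fun t ht =>
    (h.ψ₂_diff ht.2.2).continuousAt.continuousWithinAt
  exact ⟨(h1.pow 2).mul (hG.div continuousOn_id fun t ht => (hb t ht).2),
    (h2.pow 2).mul ((hG.mul continuousOn_id).inv₀ fun t ht =>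
      mul_ne_zero (Dat.G_ne t) (hb t ht).2)⟩

theorem Ok1.F3_diff (h : W.Ok1) {t : ℂ} (ht : t ∈ W.Om) (he : ¬ W.D.IsE t) :
    DifferentiableAt ℂ W.F3 t := by
  exact ((h.ψ₁_diff ht (h.b0 he).1).mul (h.ψ₂_diff ht)).div differentiableAt_id (h.b0 he).2

theorem F_mul {t : ℂ} : W.F1 t * W.F2 t = W.F3 t ^ 2 := by
  have h1 := Dat.G_ne (D := W.D) t
  simp only [F1, F2, F3]
  by_cases h0 : t = 0
  · simp [h0]
  · field_simp

theorem Ok0.f_mul (h : W.Ok0) {e : ι × Bool} {v : ℂ} (hv : ‖v‖ < 2 * W.ρ e) :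
    W.f1 e v * W.f2 e v = W.f3 e v ^ 2 := by
  have hb : v ∈ ball (0 : ℂ) (2 * W.ρ e) := by simpa using hv
  have hP := h.free e v hb
  have h1 := h.yb_ne hv
  have h2 := h.d.R_ne hP
  have h3 := (Dat.Alg_ne hP).1
  simp only [f1, f2, f3, F3]
  field_simp

theorem Pre.pathP (h : W.Ok1) (hX : W.Pre X) : PathP W.Qr X W.F1 W.F2 := by
  have hV : IsOpen {t : ℂ | W.D.P t ≠ 0 ∧ t ∈ W.Om} :=
    (isOpen_ne_fun Dat.P_diff.continuous continuous_const).inter Pl.isOpen_om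
  exact pathP_of hV (hX.cont.mono fun t ht =>
    ⟨⟨ht.1, fun h1 => ht.2.1 (Dat.P_eq_zero.2 (Or.inl h1))⟩, ht.2.2⟩) h.F_cont.1 h.F_cont.2
    fun t ht hi => hX.der t ht.2 hi

end Wd

end Pool.Agent.MP_92463a_gt

end
end

section

open Set Complex Filter Metric
open scoped Topology ComplexConjugate ContDiff Manifold

noncomputable section

namespace Pool.Agent.MP_92463a_gt

namespace Wd

variable {ι : Type} [Fintype ι] {W : Wd ι} {X : ℂ → ℂ}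

theorem SolX.X_a (h : W.Ok1) (hX : W.SolX X) {t : ℂ} (ha : W.D.IsA t) : X t = 0 := by
  have hO : t ∈ W.Om := (h.zero_fd (Dat.P_eq_zero.2 (Or.inr ha))).2
  have hD := h.d
  obtain ⟨i, hi, rfl⟩ := ha
  have h0 := hD.a_pos i hi
  have hOe : ∀ᶠ x : ℝ in 𝓝 (W.D.a i), (x : ℂ) ∈ W.Om :=
    continuous_ofReal.continuousAt.eventually_mem (Pl.isOpen_om.mem_nhds hO)
  have hc : ContinuousAt (fun x : ℝ => X x) (W.D.a i) :=
    (hX.cont.comp continuous_ofReal.continuousOn (s := {x : ℝ | 0 < x ∧ (x : ℂ) ∈ W.Om})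
      fun x hx => ⟨⟨le_rfl, by
      rintro (h | ⟨j, hj, h⟩)
      · exact (ne_of_gt hx.1) (ofReal_eq_zero.1 h)
      · have h1 : x = -W.D.b j := by exact_mod_cast h
        have := hD.b_pos j hj
        have : 0 < x := hx.1
        linarith⟩, hx.2⟩).continuousAt ((eventually_gt_nhds h0).and hOe)
  have him : ∀ s : Set ℝ, (𝓝[s] W.D.a i).NeBot →
      (∀ᶠ x : ℝ in 𝓝[s] W.D.a i, 0 < (W.D.P x).re) →
      (X (W.D.a i)).im = 0 := fun s _ h => tendsto_nhds_unique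
    ((continuous_im.tendsto _).comp (hc.tendsto.mono_left (nhdsWithin_le_nhds (s := s))))
    (tendsto_const_nhds.congr' ((h.and (hOe.filter_mono nhdsWithin_le_nhds)).mono
      fun x hx => (hX.im0 x hx.2 hx.1).symm))
  have hre : ∀ s : Set ℝ, (𝓝[s] W.D.a i).NeBot →
      (∀ᶠ x : ℝ in 𝓝[s] W.D.a i, (W.D.P x).re < 0) →
      (X (W.D.a i)).re = 0 := fun s _ h => tendsto_nhds_unique
    ((continuous_re.tendsto _).comp (hc.tendsto.mono_left (nhdsWithin_le_nhds (s := s))))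
    (tendsto_const_nhds.congr' ((h.and (hOe.filter_mono nhdsWithin_le_nhds)).mono
      fun x hx => (hX.re0 x hx.2 hx.1).symm))
  have hle : ∀ j k, j ≤ k → k < W.D.p → W.D.a j ≤ W.D.a k := fun j k h hk =>
    h.eq_or_lt.elim (fun e => e ▸ le_rfl) fun h => (hD.a_lt j k h hk).le
  have hl : ∀ᶠ x : ℝ in 𝓝[<] W.D.a i, 0 < sg i * (W.D.P x).re := by
    have h1 : ∀ᶠ x : ℝ in 𝓝 (W.D.a i), ∀ j ∈ Finset.range i, W.D.a j < x :=
      (Finset.eventually_all _).2 fun j hj =>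
        eventually_gt_nhds (hD.a_lt j i (Finset.mem_range.1 hj) hi)
    filter_upwards [self_mem_nhdsWithin, h1.filter_mono nhdsWithin_le_nhds,
      (eventually_gt_nhds h0).filter_mono nhdsWithin_le_nhds] with x a1 a2 a3
    exact (hD.sign_pos a3 hi.le (fun j hj => a2 j (Finset.mem_range.2 hj))
      fun j hj hj' => lt_of_lt_of_le a1 (hle i j hj hj')).1
  have hr : ∀ᶠ x : ℝ in 𝓝[>] W.D.a i, 0 < sg (i + 1) * (W.D.P x).re := by
    have h1 : ∀ᶠ x : ℝ in 𝓝 (W.D.a i), ∀ j ∈ Finset.Ico (i + 1) W.D.p, x < W.D.a j :=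
      (Finset.eventually_all _).2 fun j hj =>
        eventually_lt_nhds (hD.a_lt i j (Finset.mem_Ico.1 hj).1 (Finset.mem_Ico.1 hj).2)
    filter_upwards [self_mem_nhdsWithin, h1.filter_mono nhdsWithin_le_nhds] with x a1 a2
    exact (hD.sign_pos (h0.trans a1) hi
      (fun j hj => lt_of_le_of_lt (hle j i (Nat.le_of_lt_succ hj) hi) a1)
      fun j hj hj' => a2 j (Finset.mem_Ico.2 ⟨hj, hj'⟩)).1
  simp only [sg, pow_succ] at hl hr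
  rcases neg_one_pow_eq_or ℝ i with e | e <;> rw [e] at hl hr
  · exact Complex.ext (hre _ inferInstance (hr.mono fun x hx => by linarith))
      (him _ inferInstance (hl.mono fun x hx => by linarith))
  · exact Complex.ext (hre _ inferInstance (hl.mono fun x hx => by linarith))
      (him _ inferInstance (hr.mono fun x hx => by linarith))

theorem SolX.Xg_conj (h : W.Ok1) (hX : W.SolX X) {t y : ℂ} (ht : t ∈ W.Om)
    (hy : y ^ 2 = W.D.P t) : W.D.Xg X (conj t) (conj y) = conj (W.D.Xg X t y) := by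
  rcases lt_trichotomy t.im 0 with h | h | h
  · rw [Dat.Xg, Dat.Xg, if_pos (by rw [conj_im]; linarith), if_neg h.not_ge, conj_conj]
  · obtain ⟨x, rfl⟩ : ∃ x : ℝ, t = x := ⟨t.re, Complex.ext rfl h⟩
    rw [conj_ofReal, Dat.Xg, Dat.Xg, if_pos h.ge, if_pos h.ge, map_mul, map_div₀]
    rcases lt_trichotomy (W.D.P x).re 0 with h1 | h1 | h1
    · have e1 : conj (W.D.Y x) = -W.D.Y x := Complex.ext (by simp [Dat.Y_re h1]) (by simp)
      have e2 : conj (X x) = -X x := Complex.ext (by simp [hX.re0 x ht h1]) (by simp)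
      rw [e1, e2]
      ring
    · have : y = 0 := pow_eq_zero_iff two_ne_zero |>.1 (hy.trans (Complex.ext h1 (Dat.P_im x)))
      simp [this]
    · rw [conj_eq_iff_im.2 (Dat.Y_im h1), conj_eq_iff_im.2 (hX.im0 x ht h1)]
  · rw [Dat.Xg, Dat.Xg, if_neg (by rw [conj_im]; linarith), if_pos h.le, conj_conj, conj_conj]

theorem WXg_nrm (h : W.Ok1) (hX : W.SolX X) {t y : ℂ} (hy : y ^ 2 = W.D.P t)
    (hE : ¬ W.D.IsE t) : ‖y / W.D.Y t * X t‖ = ‖X t‖ := by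
  by_cases hP : W.D.P t = 0
  · rw [hX.X_a h ((Dat.P_eq_zero.1 hP).resolve_left hE), mul_zero]
  · rcases sq_eq_sq_iff_eq_or_eq_neg.1 (hy.trans (Dat.Y_sq hP).symm) with e | e <;>
      simp [e, Dat.Y_ne]

theorem SolX.Xg_norm (h : W.Ok1) (hX : W.SolX X) {t y : ℂ} (hy : y ^ 2 = W.D.P t)
    (hE : ¬ W.D.IsE t) : ‖W.D.Xg X t y‖ = ‖X (if 0 ≤ t.im then t else conj t)‖ := by
  unfold Dat.Xg
  split_ifs with h1
  · exact WXg_nrm h hX hy hE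
  · rw [norm_conj]
    exact WXg_nrm h hX (Dat.Xg_sq hy) fun h => hE (Dat.Xg_isE h)

theorem SolX.Xg_cont (h : W.Ok1) (hX : W.SolX X) :
    ContinuousOn (fun z : ℂ × ℂ => W.D.Xg X z.1 z.2)
      {z | z.2 ^ 2 = W.D.P z.1 ∧ ¬ W.D.IsE z.1 ∧ z.1 ∈ W.Om} := by
  set S : Set (ℂ × ℂ) := {z | z.2 ^ 2 = W.D.P z.1 ∧ ¬ W.D.IsE z.1 ∧ z.1 ∈ W.Om}
  have h1 : ContinuousOn (fun z : ℂ × ℂ => W.D.Xg X z.1 z.2) (S ∩ {z | 0 ≤ z.1.im}) := by
    refine ContinuousOn.congr (f := fun z : ℂ × ℂ => z.2 / W.D.Y z.1 * X z.1) (fun z hz => ?_)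
      fun z hz => if_pos hz.2
    have hx : ContinuousWithinAt (fun z : ℂ × ℂ => X z.1) (S ∩ {z | 0 ≤ z.1.im}) z :=
      (hX.cont.comp continuousOn_fst fun z hz => ⟨⟨hz.2, hz.1.2.1⟩, hz.1.2.2⟩) z hz
    by_cases hP : W.D.P z.1 = 0
    · have h0 := hX.X_a h ((Dat.P_eq_zero.1 hP).resolve_left hz.1.2.1)
      rw [ContinuousWithinAt, h0] at hx
      rw [ContinuousWithinAt, h0, mul_zero]
      rw [tendsto_zero_iff_norm_tendsto_zero] at hx ⊢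
      exact hx.congr' (eventually_mem_nhdsWithin.mono fun u hu =>
        (WXg_nrm h hX hu.1.1 hu.1.2.1).symm)
    · have hy : ContinuousWithinAt W.D.Y {t | 0 ≤ t.im} z.1 :=
        (Dat.Y_cont z.1 ⟨hz.2, hP⟩).mono_of_mem_nhdsWithin
          (inter_mem_nhdsWithin _ (Dat.P_diff.continuous.continuousAt.eventually_ne hP))
      exact (continuousWithinAt_snd.div (hy.comp continuousWithinAt_fst fun u hu => hu.2)
        (Dat.Y_ne _)).mul hx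
  have h2 : ContinuousOn (fun z : ℂ × ℂ => W.D.Xg X z.1 z.2) (S ∩ {z | z.1.im ≤ 0}) := by
    have hc : Continuous fun z : ℂ × ℂ => (conj z.1, conj z.2) := by fun_prop
    refine (continuous_conj.comp_continuousOn (h1.comp hc.continuousOn fun z hz =>
      ⟨⟨Dat.Xg_sq hz.1.1, fun h => hz.1.2.1 (Dat.Xg_isE h), h.sy.om hz.1.2.2⟩, ?_⟩)).congr
      fun z hz => ?_
    · have : z.1.im ≤ 0 := hz.2
      change 0 ≤ (conj z.1).im
      rw [conj_im]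
      linarith
    · simp only [Function.comp_apply]
      rw [hX.Xg_conj h hz.1.2.2 hz.1.1, conj_conj]
  have key : ∀ K : Set (ℂ × ℂ), IsClosed K →
      ContinuousOn (fun z : ℂ × ℂ => W.D.Xg X z.1 z.2) (S ∩ K) → ∀ z ∈ S,
      ContinuousWithinAt (fun z : ℂ × ℂ => W.D.Xg X z.1 z.2) (S ∩ K) z := fun K hK h z hz => by
    by_cases hz' : z ∈ K
    · exact h z ⟨hz, hz'⟩
    · exact continuousWithinAt_of_notMem_closure fun c =>
        hz' (closure_minimal inter_subset_right hK c)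
  intro z hz
  refine ((key _ (isClosed_le (by fun_prop) (by fun_prop)) h1 z hz).union
    (key _ (isClosed_le (by fun_prop) (by fun_prop)) h2 z hz)).mono fun u hu => ?_
  exact (le_total 0 u.1.im).imp (fun h => ⟨hu, h⟩) fun h => ⟨hu, h⟩

theorem WXg_up (h : W.Ok1) (hX : W.Pre X) {T Yl : ℂ → ℂ} {L : ℂ →L[ℝ] ℂ} {w : ℂ}
    (hT : HasFDerivAt T L w) (hY : ContinuousAt Yl w)
    (hsq : ∀ᶠ v in 𝓝 w, Yl v ^ 2 = W.D.P (T v)) (him : 0 < (T w).im) (hO : T w ∈ W.Om) :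
    HasFDerivAt (fun v => Yl v / W.D.Y (T v) * X (T v))
      ((wl (W.ψ₁ (T w) ^ 2 * (Yl w * W.D.R (T w) / T w))
        (W.ψ₂ (T w) ^ 2 * (Yl w * W.D.R (T w) * T w)⁻¹)).comp L) w := by
  have hu : ContinuousAt (fun v => Yl v / W.D.Y (T v)) w :=
    hY.div ((Dat.Y_diff him).continuousAt.comp hT.continuousAt) (Dat.Y_ne _)
  have h1 : ∀ᶠ v in 𝓝 w, (Yl v / W.D.Y (T v)) ^ 2 = 1 := by
    filter_upwards [hsq, continuousAt_const.eventually_lt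
      (continuous_im.continuousAt.comp hT.continuousAt) him] with v a1 a2
    rw [div_pow, a1, Dat.Y_sq (Dat.ne_of_im a2.ne'), div_self (Dat.ne_of_im a2.ne')]
  have h2 := h1.self_of_nhds
  obtain ⟨s, hs⟩ : ∃ s, s = Yl w / W.D.Y (T w) := ⟨_, rfl⟩
  have h3 : ∀ᶠ v in 𝓝 w, Yl v / W.D.Y (T v) ≠ -s := hu.eventually_ne (by
    rw [← hs] at h2 ⊢
    intro e
    have : s = 0 := by linear_combination e / 2
    simp [this] at h2)
  have h4 : Yl w * W.D.R (T w) = s * W.D.G (T w) := by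
    rw [h.d.G_eq (Dat.ne_of_im him.ne'), hs, ← mul_assoc, div_mul_cancel₀ _ (Dat.Y_ne _)]
  rw [← hs] at h2
  refine ((((hX.der _ hO him).comp w hT).const_mul s).congr_fderiv ?_).congr_of_eventuallyEq ?_
  · refine ContinuousLinearMap.ext fun v => ?_
    rw [h4]
    rcases sq_eq_one_iff.1 h2 with e | e <;> simp [e, wl_apply, neg_div, F1, F2]
    ring
  · filter_upwards [h1, h3] with v a1 a2
    rw [(sq_eq_sq_iff_eq_or_eq_neg.1 (a1.trans h2.symm)).resolve_right a2]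
    rfl

theorem Pre.Xg_der (h : W.Ok1) (hX : W.Pre X) {T Yl : ℂ → ℂ} {T' w : ℂ} (hT : HasDerivAt T T' w)
    (hY : ContinuousAt Yl w) (hsq : ∀ᶠ v in 𝓝 w, Yl v ^ 2 = W.D.P (T v)) (him : (T w).im ≠ 0)
    (hO : T w ∈ W.Om) :
    HasFDerivAt (fun v => W.D.Xg X (T v) (Yl v))
      (wl (W.ψ₁ (T w) ^ 2 * (Yl w * W.D.R (T w) / T w) * T')
        (W.ψ₂ (T w) ^ 2 * (Yl w * W.D.R (T w) * T w)⁻¹ * T')) w := by
  have hT' := hT.hasFDerivAt.restrictScalars ℝ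
  rcases him.lt_or_gt with h0 | h0
  · have h1 := WXg_up h hX (T := fun v => conj (T v)) (Yl := fun v => conj (Yl v))
      ((conjCLE : ℂ →L[ℝ] ℂ).hasFDerivAt.comp w hT') (continuous_conj.continuousAt.comp hY)
      (hsq.mono fun v hv => Dat.Xg_sq hv) (by rw [conj_im]; linarith) (h.sy.om hO)
    have h2 := (conjCLE : ℂ →L[ℝ] ℂ).hasFDerivAt.comp w h1
    refine (h2.congr_fderiv ?_).congr_of_eventuallyEq ?_
    · refine ContinuousLinearMap.ext fun v => ?_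
      simp [wl_apply, Dat.R_conj, h.ψ₁_conj hO, h.ψconj _ hO]
      ring
    · filter_upwards [(continuous_im.continuousAt.comp hT.continuousAt).eventually_lt
        continuousAt_const h0] with v hv
      exact if_neg (not_le.2 hv)
  · refine ((WXg_up h hX hT' hY hsq h0 hO).congr_fderiv ?_).congr_of_eventuallyEq ?_
    · refine ContinuousLinearMap.ext fun v => ?_
      simp [wl_apply]
      ring
    · filter_upwards [continuousAt_const.eventually_lt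
        (continuous_im.continuousAt.comp hT.continuousAt) h0] with v hv
      exact if_pos hv.le

end Wd

end Pool.Agent.MP_92463a_gt

end
end

section

open Set Complex Filter Metric
open scoped Topology ComplexConjugate ContDiff Manifold

noncomputable section

namespace Pool.Agent.MP_92463a_gt

theorem Dat.Par1.mono {D : Dat} {t₀ : ℂ} {δ δ' : ℝ} {h : ℂ → ℂ} (H : D.Par1 t₀ δ h) (h0 : 0 < δ')
    (hle : δ' ≤ δ) : D.Par1 t₀ δ' h := by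
  have hb : ball (0 : ℂ) δ' ⊆ ball 0 δ := ball_subset_ball hle
  exact ⟨h0, H.hol.mono hb, fun w hw => H.ne w (hb hw), fun w hw => H.sq w (hb hw)⟩

theorem Dat.Par2.mono {D : Dat} {x₀ : ℂ} {δ δ' : ℝ} {h : ℂ → ℂ} (H : D.Par2 x₀ δ h) (h0 : 0 < δ')
    (hle : δ' ≤ δ) : D.Par2 x₀ δ' h := by
  have hb : ball (0 : ℂ) (δ' ^ 2) ⊆ ball 0 (δ ^ 2) :=
    ball_subset_ball (pow_le_pow_left₀ h0.le hle 2)
  exact ⟨h0, H.br, H.hol.mono hb, fun w hw => H.ne w (hb hw), fun w hw => H.sq w (hb hw)⟩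

theorem Dat.Par3.mono {D : Dat} {δ δ' : ℝ} {h : ℂ → ℂ} (H : D.Par3 δ h) (h0 : 0 < δ')
    (hle : δ' ≤ δ) : D.Par3 δ' h := by
  have hb : ball (0 : ℂ) (δ' ^ 2) ⊆ ball 0 (δ ^ 2) :=
    ball_subset_ball (pow_le_pow_left₀ h0.le hle 2)
  exact ⟨h0, H.hol.mono hb, fun w hw => H.ne w (hb hw), fun w hw => H.sq w (hb hw)⟩

theorem WForm_small {δ ε : ℝ} (hδ : 0 < δ) (hε : 0 < ε) : ∃ δ' > 0, δ' ≤ δ ∧ δ' ^ 2 ≤ ε :=
  ⟨min δ √ε, lt_min hδ (Real.sqrt_pos.2 hε), min_le_left _ _,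
    (pow_le_pow_left₀ (le_min hδ.le (Real.sqrt_nonneg _)) (min_le_right _ _) 2).trans
      (Real.sq_sqrt hε.le).le⟩

namespace Wd

variable {ι : Type} [Fintype ι] {W : Wd ι} {δ : ℝ} {h : ℂ → ℂ}

theorem WForm_shrink (hW : W.Ok0) {x₀ : ℂ} (H : W.D.Par2 x₀ δ h) :
    ∃ δ' > 0, δ' ≤ δ ∧ ∀ s ∈ ball (0 : ℂ) (δ' ^ 2), x₀ + s ∈ W.Om := by
  obtain ⟨ε, hε, hb⟩ := Metric.isOpen_iff.1 Pl.isOpen_om x₀ (hW.zero_fd H.br).2
  obtain ⟨δ', d0, d1, d2⟩ := WForm_small H.pos hε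
  refine ⟨δ', d0, d1, fun s hs => hb ?_⟩
  rw [mem_ball_iff_norm, add_sub_cancel_left]
  exact (mem_ball_zero_iff.1 hs).trans_le d2

theorem Ok1.formA (hW : W.Ok1) {x₀ : ℂ} (H : W.D.Par2 x₀ δ h) (ha : W.D.IsA x₀) :
    ∃ δ' > 0, δ' ≤ δ ∧ ∃ φ₁ φ₂ : ℂ → ℂ, DifferentiableOn ℂ φ₁ (ball 0 δ') ∧
      DifferentiableOn ℂ φ₂ (ball 0 δ') ∧ (W.Ok → φ₁ 0 ≠ 0 ∨ φ₂ 0 ≠ 0) ∧
      (∀ w ∈ ball (0 : ℂ) δ', x₀ + w ^ 2 ∈ W.Om ∧ ¬ W.D.IsE (x₀ + w ^ 2) ∧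
        φ₁ w * φ₂ w = (W.F3 (x₀ + w ^ 2) * (2 * w)) ^ 2) ∧
      ∀ w ∈ ball (0 : ℂ) δ', w ≠ 0 →
        φ₁ w = W.ψ₁ (x₀ + w ^ 2) ^ 2 * (w * h (w ^ 2) * W.D.R (x₀ + w ^ 2) / (x₀ + w ^ 2)) *
          (2 * w) ∧
        φ₂ w = W.ψ₂ (x₀ + w ^ 2) ^ 2 * (w * h (w ^ 2) * W.D.R (x₀ + w ^ 2) * (x₀ + w ^ 2))⁻¹ *
          (2 * w) := by
  obtain ⟨δ', d0, d1, hm⟩ := WForm_shrink hW.toOk0 H
  have H' := H.mono d0 d1
  obtain ⟨φ₁, φ₂, a1, a2, a3, a4, a5⟩ := H'.formA hW.d ha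
  have hm' : ∀ w ∈ ball (0 : ℂ) δ', x₀ + w ^ 2 ∈ W.Om := fun w hw => hm _ (Dat.sq_mem_ball hw)
  have hE : ∀ w ∈ ball (0 : ℂ) δ', ¬ W.D.IsE (x₀ + w ^ 2) := fun w hw he => by
    by_cases h0 : w = 0
    · rw [h0, zero_pow two_ne_zero, add_zero] at he
      exact hW.d.not_E ha he
    · exact (H'.on hw).2 h0 (Dat.P_eq_zero.2 (Or.inl he))
  have hT : ∀ w : ℂ, DifferentiableAt ℂ (fun w : ℂ => x₀ + w ^ 2) w := fun w => by fun_prop
  have b1 : DifferentiableOn ℂ (fun w => W.ψ₁ (x₀ + w ^ 2)) (ball 0 δ') := fun w hw =>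
    (DifferentiableAt.comp (f := fun w : ℂ => x₀ + w ^ 2) w
      (hW.ψ₁_diff (hm' w hw) (hW.toOk0.b0 (hE w hw)).1) (hT w)).differentiableWithinAt
  have b2 : DifferentiableOn ℂ (fun w => W.ψ₂ (x₀ + w ^ 2)) (ball 0 δ') := fun w hw =>
    (DifferentiableAt.comp (f := fun w : ℂ => x₀ + w ^ 2) w
      (hW.ψ₂_diff (hm' w hw)) (hT w)).differentiableWithinAt
  refine ⟨δ', d0, d1, fun w => W.ψ₁ (x₀ + w ^ 2) ^ 2 * φ₁ w, fun w => W.ψ₂ (x₀ + w ^ 2) ^ 2 * φ₂ w,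
    (b1.pow 2).mul a1, (b2.pow 2).mul a2, fun hO => ?_, fun w hw => ⟨hm' w hw, hE w hw, ?_⟩,
    fun w hw h0 => ?_⟩
  · obtain ⟨i, hi, rfl⟩ := ha
    simp only [zero_pow two_ne_zero, add_zero]
    exact a3.imp (mul_ne_zero (pow_ne_zero 2 (hO.neA i hi).1))
      (mul_ne_zero (pow_ne_zero 2 (hO.neA i hi).2))
  · rw [mul_mul_mul_comm, (a4 w hw).2, F3]
    ring
  · simp only [(a5 w hw h0).1, (a5 w hw h0).2, mul_assoc, and_self]

theorem Ok.formE (hW : W.Ok) {x₀ : ℂ} (H : W.D.Par2 x₀ δ h) (he : W.D.IsE x₀) :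
    ∃ δ' > 0, δ' ≤ δ ∧ ∃ k₁ k₂ : ℂ → ℂ, DifferentiableOn ℂ k₁ (ball 0 (δ' ^ 2)) ∧
      DifferentiableOn ℂ k₂ (ball 0 (δ' ^ 2)) ∧ (k₁ 0 ≠ 0 ∨ k₂ 0 ≠ 0) ∧ (x₀ = 0 → k₂ 0 = 0) ∧
      (∀ j < W.D.q, x₀ = -W.D.b j → (Even j → k₁ 0 = 0) ∧ (Odd j → k₂ 0 = 0)) ∧
      ∀ w ∈ ball (0 : ℂ) δ', x₀ + w ^ 2 ∈ W.Om ∧ (w ≠ 0 →
        k₁ (w ^ 2) / w ^ 2 =
          W.ψ₁ (x₀ + w ^ 2) ^ 2 * (w * h (w ^ 2) * W.D.R (x₀ + w ^ 2) / (x₀ + w ^ 2)) * (2 * w) ∧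
        k₂ (w ^ 2) / w ^ 2 =
          W.ψ₂ (x₀ + w ^ 2) ^ 2 * (w * h (w ^ 2) * W.D.R (x₀ + w ^ 2) * (x₀ + w ^ 2))⁻¹ *
            (2 * w)) := by
  obtain ⟨δ', d0, d1, hm⟩ := WForm_shrink hW.toOk0 H
  have H' := H.mono d0 d1
  obtain ⟨k₁, k₂, a1, a2, a3, a4, a5, a6⟩ := H'.formE hW.d he
  have hT : ∀ s : ℂ, DifferentiableAt ℂ (fun s : ℂ => x₀ + s) s := fun w => by fun_prop
  have b2 : DifferentiableOn ℂ (fun s => W.ψ₂ (x₀ + s)) (ball 0 (δ' ^ 2)) := fun w hw =>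
    ((hW.toOk1.ψ₂_diff (hm w hw)).comp w (hT w)).differentiableWithinAt
  obtain ⟨k, c1, c2, c3, c4⟩ : ∃ k : ℂ → ℂ, DifferentiableOn ℂ k (ball 0 (δ' ^ 2)) ∧
      (k₁ 0 = 0 → k 0 = 0) ∧ (k₁ 0 ≠ 0 → W.ψ₁ x₀ ≠ 0 → k 0 ≠ 0) ∧
      ∀ w ∈ ball (0 : ℂ) δ', w ≠ 0 → k (w ^ 2) / w ^ 2 = W.ψ₁ (x₀ + w ^ 2) ^ 2 *
        (w * h (w ^ 2) * W.D.R (x₀ + w ^ 2) / (x₀ + w ^ 2)) * (2 * w) := by
    by_cases e : x₀ = -W.D.b 0
    · obtain ⟨U, hU, hR⟩ := Dat.Form_RB hW.d H' hW.q_pos e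
      have hx := Dat.Form_T H' (e ▸ Dat.Form_b_ne hW.d hW.q_pos)
      have b1 : DifferentiableOn ℂ (fun s => W.χ (x₀ + s)) (ball 0 (δ' ^ 2)) :=
        hW.χhol.comp (fun w _ => (hT w).differentiableWithinAt) hm
      refine ⟨fun s => s * (2 * U s * (s * W.χ (x₀ + s) + W.ℓ * W.D.b 0) ^ 2 * (x₀ + s)⁻¹),
        differentiableOn_id.mul (((hU.1.const_mul 2).mul
          (((differentiableOn_id.mul b1).add_const _).pow 2)).mul hx.inv.1),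
        fun _ => zero_mul _, fun h1 => absurd ((a5 0 hW.q_pos e).1 Even.zero) h1,
        fun w hw h0 => ?_⟩
      have e1 : x₀ + w ^ 2 + W.D.b 0 = w ^ 2 := by rw [e]; ring
      have e2 := hx.2 _ (Dat.sq_mem_ball hw)
      simp only [mul_assoc w, hR, if_pos Even.zero, ψ₁, e1]
      field_simp
    · have hx := Dat.Form_lin H' (Or.inl (Or.inr ⟨0, hW.q_pos, rfl⟩)) e
      have b1 : DifferentiableOn ℂ (fun s => W.ψ₁ (x₀ + s)) (ball 0 (δ' ^ 2)) := fun w hw =>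
        ((hW.toOk1.ψ₁_diff (hm w hw) (by simpa only [sub_neg_eq_add] using hx.2 w hw)).comp w
          (hT w)).differentiableWithinAt
      refine ⟨fun s => W.ψ₁ (x₀ + s) ^ 2 * k₁ s, (b1.pow 2).mul a1, fun h1 => ?_,
        fun h1 h2 => ?_, fun w hw h0 => ?_⟩
      · simp only [h1, mul_zero]
      · simp only [add_zero]
        exact mul_ne_zero (pow_ne_zero 2 h2) h1
      · simp only [mul_div_assoc, (a6 w hw h0).1, mul_assoc]
  refine ⟨δ', d0, d1, k, fun s => W.ψ₂ (x₀ + s) ^ 2 * k₂ s, c1, (b2.pow 2).mul a2, ?_,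
    fun e => ?_, fun j hj e => ⟨fun o => c2 ((a5 j hj e).1 o), fun o => ?_⟩,
    fun w hw => ⟨hm _ (Dat.sq_mem_ball hw), fun h0 => ⟨c4 w hw h0, ?_⟩⟩⟩
  · rcases he with e | ⟨j, hj, e⟩
    · exact Or.inl (c3 (a3.resolve_right (not_not.2 (a4 e))) (e ▸ hW.ne0))
    · rcases Nat.even_or_odd j with o | o
      · refine Or.inr (mul_ne_zero (pow_ne_zero 2 ?_)
          (a3.resolve_left (not_not.2 ((a5 j hj e).1 o))))
        rw [add_zero, e]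
        exact (hW.neB j hj).1 o
      · exact Or.inl (c3 (a3.resolve_right (not_not.2 ((a5 j hj e).2 o)))
          (e ▸ (hW.neB j hj).2 o))
  · simp only [a4 e, mul_zero]
  · simp only [(a5 j hj e).2 o, mul_zero]
  · simp only [mul_div_assoc, (a6 w hw h0).2, mul_assoc]

theorem Ok1.form3 (hW : W.Ok1) (H : W.D.Par3 δ h) :
    ∃ δ' > 0, δ' ≤ δ ∧ ∃ k₁ k₂ : ℂ → ℂ, DifferentiableOn ℂ k₁ (ball 0 (δ' ^ 2)) ∧
      DifferentiableOn ℂ k₂ (ball 0 (δ' ^ 2)) ∧ (Even W.D.q → k₁ 0 = 0) ∧ (Odd W.D.q → k₂ 0 = 0) ∧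
      ∀ w ∈ ball (0 : ℂ) δ', w ≠ 0 → (w ^ 2)⁻¹ ∈ W.Om ∧
        k₁ (w ^ 2) / w ^ 2 = W.ψ₁ (w ^ 2)⁻¹ ^ 2 *
          (h (w ^ 2) / w ^ (W.D.p + W.D.q + 1) * W.D.R (w ^ 2)⁻¹ / (w ^ 2)⁻¹) * (-2 / w ^ 3) ∧
        k₂ (w ^ 2) / w ^ 2 = W.ψ₂ (w ^ 2)⁻¹ ^ 2 *
          (h (w ^ 2) / w ^ (W.D.p + W.D.q + 1) * W.D.R (w ^ 2)⁻¹ * (w ^ 2)⁻¹)⁻¹ *
            (-2 / w ^ 3) := by
  obtain ⟨R, hR⟩ := Pl.om_far (P := W.toPl)
  obtain ⟨δ₁, p1, g₁, b1, -, c1⟩ := hol_infty (R := max R ‖(W.D.b 0 : ℂ)‖)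
    (fun t (ht : max R ‖(W.D.b 0 : ℂ)‖ < ‖t‖) =>
      (hW.ψ₁_diff (hR t (max_lt_iff.1 ht).1).2 fun e => (max_lt_iff.1 ht).2.ne
        (by rw [eq_neg_of_add_eq_zero_left e, norm_neg])).differentiableWithinAt) hW.ψ₁_inf
  obtain ⟨δ₂, p2, g₂, b2, -, c2⟩ := hol_infty (R := R)
    (fun t ht => (hW.ψ₂_diff (hR t ht).2).differentiableWithinAt) hW.ψinf
  have p3 : 0 < max R 1 := lt_max_of_lt_right one_pos
  obtain ⟨δ', d0, d1, d2⟩ := WForm_small H.pos (lt_min (lt_min p1 p2) (inv_pos.2 p3))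
  obtain ⟨k₁, k₂, a1, a2, a3, a4, a5⟩ := (H.mono d0 d1).form hW.d
  have s1 : ball (0 : ℂ) (δ' ^ 2) ⊆ ball 0 δ₁ :=
    ball_subset_ball (d2.trans ((min_le_left _ _).trans (min_le_left _ _)))
  have s2 : ball (0 : ℂ) (δ' ^ 2) ⊆ ball 0 δ₂ :=
    ball_subset_ball (d2.trans ((min_le_left _ _).trans (min_le_right _ _)))
  refine ⟨δ', d0, d1, fun s => g₁ s ^ 2 * k₁ s, fun s => g₂ s ^ 2 * k₂ s,
    ((b1.mono s1).pow 2).mul a1, ((b2.mono s2).pow 2).mul a2, fun o => ?_, fun o => ?_,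
    fun w hw h0 => ⟨(hR _ ?_).2, ?_, ?_⟩⟩
  · simp only [a3 o, mul_zero]
  · simp only [a4 o, mul_zero]
  · have h1 := (mem_ball_zero_iff.1 (Dat.sq_mem_ball hw)).trans_le (d2.trans (min_le_right _ _))
    rw [norm_inv]
    exact (le_max_left R 1).trans_lt
      ((lt_inv_comm₀ (norm_pos_iff.2 (pow_ne_zero 2 h0)) p3).1 h1)
  · rw [mul_assoc, ← (a5 w hw h0).1, ← c1 _ (s1 (Dat.sq_mem_ball hw)) (pow_ne_zero 2 h0),
      mul_div_assoc]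
  · rw [mul_assoc, ← (a5 w hw h0).2, ← c2 _ (s2 (Dat.sq_mem_ball hw)) (pow_ne_zero 2 h0),
      mul_div_assoc]

end Wd

end Pool.Agent.MP_92463a_gt

end
end
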