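import Pool.Agent.Mg.F92463a.Gc176c8
import Pool.Agent.Mg.F92463a.Gc0a48f
import Pool.Agent.Mg.F92463a.G156f76
import Pool.Agent.Mg.F92463a.G2abf78
import Pool.Agent.Mg.F92463a.G6119f0
import Pool.Agent.Mg.F92463a.Gb59b98
import Pool.Agent.Mg.F92463a.G175935

section

open Set Complex Filter Metric
open scoped Topology ComplexConjugate ContDiff Manifold

noncomputable section

namespace Pool.Agent.MP_92463a_gt

theorem WL1_y {D : Dat} {X : ℂ → ℂ} (hD : D.Ok) (hX : D.Sol X) {t : ℂ} (ht : t ∈ D.Q) :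
    ∃ y, y ^ 2 = D.P t ∧ D.Xg X t y = X t := by
  by_cases hP : D.P t = 0
  · exact ⟨0, by simp [hP], by
      simp [Dat.Xg, hX.X_a hD ((Dat.P_eq_zero.1 hP).resolve_left ht.2)]⟩
  · exact ⟨_, Dat.Y_sq hP, Dat.Xg_Y ht.1⟩

theorem Dat.Sol.inj_Q {D : Dat} {X : ℂ → ℂ} (hD : D.Ok) (hX : D.Sol X) {t t' : ℂ} (ht : t ∈ D.Q)
    (ht' : t' ∈ D.Q) (he : X t = X t') (hn : ‖t‖ = ‖t'‖) : t = t' := by
  obtain ⟨y, h1, h2⟩ := WL1_y hD hX ht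
  obtain ⟨y', h1', h2'⟩ := WL1_y hD hX ht'
  exact (Inj_core hD hX h1 h1' ht.2 ht'.2 hn (by rw [h2, h2', he])).1

theorem WL1_sq {ψ : ℂ} {ε : ℝ} (h : ‖ψ - 1‖ ≤ ε) (hε : ε ≤ 1 / 10000) :
    ‖ψ ^ 2‖ ≤ 3 / 2 ∧ ‖ψ ^ 2 - 1‖ ≤ 5 / 2 * ε := by
  have h1 : ‖ψ + 1‖ ≤ 5 / 2 := by
    have := norm_add_le (ψ - 1) 2
    rw [show ψ - 1 + 2 = ψ + 1 by ring, Complex.norm_ofNat] at this
    linarith
  have h2 : ‖ψ ^ 2 - 1‖ ≤ 5 / 2 * ε := by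
    rw [show ψ ^ 2 - 1 = (ψ + 1) * (ψ - 1) by ring, norm_mul]
    gcongr
  have h3 := norm_add_le (ψ ^ 2 - 1) 1
  rw [sub_add_cancel, norm_one] at h3
  exact ⟨by linarith, h2⟩

theorem WL1_mod {f₁ f₂ g₁ g₂ : ℂ → ℂ} {c τ ψ ψ' : ℂ} {σ ε : ℝ} (h : Mod f₁ f₂ c σ ε τ) (h0 : τ ≠ 0)
    (e₁ : g₁ τ = ψ ^ 2 * f₁ τ) (e₂ : g₂ τ = ψ' ^ 2 * f₂ τ) (h₁ : ‖ψ - 1‖ ≤ ε) (h₂ : ‖ψ' - 1‖ ≤ ε)
    (hε : ε ≤ 1 / 10000) : Mod g₁ g₂ c σ (4 * ε) τ := by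
  have a := WL1_sq h₁ hε
  have b := WL1_sq h₂ hε
  have h3 := norm_add_le (ψ ^ 2 * (f₁ τ - c * pw (σ - 1) τ)) ((ψ ^ 2 - 1) * (c * pw (σ - 1) τ))
  rw [norm_mul, norm_mul, norm_mul, norm_pw _ h0] at h3
  have h4 := mul_le_mul_of_nonneg_right a.1 (norm_nonneg (f₁ τ - c * pw (σ - 1) τ))
  have h5 := mul_le_mul_of_nonneg_right a.2 (show 0 ≤ ‖c‖ * ‖τ‖ ^ (σ - 1) by positivity)
  have h6 := mul_le_mul_of_nonneg_right b.1 (norm_nonneg (f₂ τ))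
  unfold Mod at h ⊢
  rw [e₁, e₂, norm_mul, show ψ ^ 2 * f₁ τ - c * pw (σ - 1) τ =
    ψ ^ 2 * (f₁ τ - c * pw (σ - 1) τ) + (ψ ^ 2 - 1) * (c * pw (σ - 1) τ) by ring]
  linarith

theorem Wd.SolX.sing {ι : Type} [Fintype ι] {W : Wd ι} {X : ℂ → ℂ} (hW : W.Ok1) (hX : W.SolX X)
    {x₀ σ r₀ r₁ ε m M : ℝ} (h : W.D.Sing x₀ σ r₀ r₁ ε m M) (hσ : σ = 1 / 2 ∨ σ = -1 / 2)
    (hr : 0 ≤ r₀) (hm : 0 < m) (hε : ε ≤ 1 / 10000)
    (hψ : ∀ τ ∈ HA r₀ r₁, x₀ + τ ∈ W.Om ∧ ‖W.ψ₁ (x₀ + τ) - 1‖ ≤ ε ∧ ‖W.ψ₂ (x₀ + τ) - 1‖ ≤ ε) :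
    (∀ τ ∈ HA r₀ r₁, m * ‖τ‖ ^ σ ≤ ‖X (x₀ + τ)‖ ∧ ‖X (x₀ + τ)‖ ≤ 3 * M * ‖τ‖ ^ σ) ∧
      ∀ τ ∈ HA (2 * r₀) r₁, ∀ τ' ∈ HA (2 * r₀) r₁, X (x₀ + τ) = X (x₀ + τ') → τ = τ' := by
  obtain ⟨hP, c, c1, c2, hb, hM⟩ := h
  have hp : PathP (HA r₀ r₁) (fun τ => X (x₀ + τ)) (fun τ => W.F1 (x₀ + τ))
      fun τ => W.F2 (x₀ + τ) := ((hX.toPre.pathP hW).shift x₀).mono fun τ hτ =>
    ⟨by simpa using hτ.1, hP τ hτ.2.1 hτ.2.2, (hψ τ hτ).1⟩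
  have h0 : ∀ τ ∈ HA r₀ r₁, τ ≠ 0 := fun τ hτ => norm_pos_iff.1 (hr.trans_lt hτ.2.1)
  have hc : c ≠ 0 := norm_pos_iff.1 (hm.trans_le c1)
  have hB : ∀ r ∈ Ioo r₀ r₁, Bd (fun τ => X (x₀ + τ)) c r := fun r hr' => by
    have e : ‖(r : ℂ)‖ = r := by rw [norm_real, Real.norm_of_nonneg (hr.trans hr'.1.le)]
    have o1 := (hψ r ⟨by simp, e.symm ▸ hr'.1, e.symm ▸ hr'.2⟩).1
    have o2 := (hψ (-r) ⟨by simp, by rw [norm_neg, e]; exact hr'.1,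
      by rw [norm_neg, e]; exact hr'.2⟩).1
    have i1 := hX.im0 (x₀ + r)
    have i2 := hX.im0 (x₀ + -r)
    have r1 := hX.re0 (x₀ + r)
    have r2 := hX.re0 (x₀ + -r)
    push_cast at i1 i2 r1 r2
    exact hb.imp (fun h => ⟨h.1, i1 o1 (h.2 r hr').1, r2 o2 (h.2 r hr').2⟩)
      fun h => ⟨h.1, r1 o1 (h.2 r hr').1, i2 o2 (h.2 r hr').2⟩
  have key : ∀ τ : ℂ, ‖c‖ * ‖τ‖ ^ σ ≤ ‖X (x₀ + τ)‖ ∧ ‖X (x₀ + τ)‖ ≤ 3 * ‖c‖ * ‖τ‖ ^ σ →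
      m * ‖τ‖ ^ σ ≤ ‖X (x₀ + τ)‖ ∧ ‖X (x₀ + τ)‖ ≤ 3 * M * ‖τ‖ ^ σ := fun τ h =>
    ⟨le_trans (by gcongr) h.1, h.2.trans (by gcongr)⟩
  rcases hM with hM | hM
  · obtain ⟨a, b⟩ := sing_inj hp hσ hr hc (ε := 4 * ε) (by linarith) (fun τ hτ =>
      WL1_mod (hM τ hτ) (h0 τ hτ) rfl rfl (hψ τ hτ).2.1 (hψ τ hτ).2.2 hε) hB
    exact ⟨fun τ hτ => key τ (a τ hτ), fun τ hτ τ' hτ' e => b hτ hτ' e⟩
  · obtain ⟨a, b⟩ := sing_inj hp.swap hσ hr hc (ε := 4 * ε) (by linarith) (fun τ hτ =>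
      WL1_mod (hM τ hτ) (h0 τ hτ) rfl rfl (hψ τ hτ).2.2 (hψ τ hτ).2.1 hε)
      fun r hr' => by simpa [Bd] using hB r hr'
    exact ⟨fun τ hτ => key τ (by simpa using a τ hτ),
      fun τ hτ τ' hτ' e => b hτ hτ' (by simp only [e])⟩

variable {α ι : Type} [Fintype ι] {l : Filter α} {W : α → Wd ι} {D₀ : Dat}

theorem WLim.mono (h : WLim l W D₀) {l' : Filter α} (hl : l' ≤ l) : WLim l' W D₀ := by
  exact ⟨h.D.comp (φ := id) hl, h.q, hl h.ok, fun δ hδ ε hε => hl (h.near δ hδ ε hε)⟩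

theorem SLim.mono {X : α → ℂ → ℂ} {H : α → ℂ → ℝ} (h : SLim l W D₀ X H) {l' : Filter α}
    (hl : l' ≤ l) : SLim l' W D₀ X H := by
  exact ⟨h.toWLim.mono hl, hl h.sol, fun δ hδ ε hε => hl (h.ht δ hδ ε hε)⟩

theorem WL1_far {t t₀ : ℂ} {b b₀ δ : ℝ} (h : 3 * δ ≤ ‖t₀ + b₀‖) (ht : t ∈ ball t₀ δ)
    (hb : dist b b₀ < δ) : δ ≤ ‖t + b‖ := by
  have h1 := norm_sub_le (t + b - (t - t₀)) ((b - b₀ : ℝ) : ℂ)
  have h2 := norm_sub_le (t + b) (t - t₀)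
  rw [norm_real, ← dist_eq_norm b, show t + b - (t - t₀) - ((b - b₀ : ℝ) : ℂ) = t₀ + b₀ by
    push_cast; ring] at h1
  rw [mem_ball_iff_norm] at ht
  linarith

/-- a compact set that misses `-b 0` and `-b 1` is eventually away from the sheets -/
theorem WLim.away (h : WLim l W D₀) {t₀ : ℂ} (h₀ : t₀ + D₀.b 0 ≠ 0) (h₁ : t₀ + D₀.b 1 ≠ 0) :
    ∃ δ > 0, ∀ᶠ x in l, ∀ t ∈ ball t₀ δ, (W x).Away δ t := by
  have hq := h.q
  have hδ : 0 < min ‖t₀ + D₀.b 0‖ ‖t₀ + D₀.b 1‖ / 3 := by positivity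
  refine ⟨_, hδ, ?_⟩
  filter_upwards [Metric.tendsto_nhds.1 (h.D.b 0 (by omega)) _ hδ,
    Metric.tendsto_nhds.1 (h.D.b 1 (by omega)) _ hδ] with x a b t ht
  exact ⟨WL1_far (by linarith [min_le_left ‖t₀ + D₀.b 0‖ ‖t₀ + D₀.b 1‖]) ht a,
    WL1_far (by linarith [min_le_right ‖t₀ + D₀.b 0‖ ‖t₀ + D₀.b 1‖]) ht b⟩

theorem WLim.psi (h : WLim l W D₀) {t : α → ℂ} {t₀ : ℂ} (ht : Tendsto t l (𝓝 t₀))
    (h₀ : t₀ + D₀.b 0 ≠ 0) (h₁ : t₀ + D₀.b 1 ≠ 0) :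
    (∀ᶠ x in l, t x ∈ (W x).Fd ∧ t x ∈ (W x).Om) ∧
      Tendsto (fun x => (W x).ψ₁ (t x)) l (𝓝 1) ∧ Tendsto (fun x => (W x).ψ₂ (t x)) l (𝓝 1) := by
  obtain ⟨δ, hδ, hA⟩ := h.away h₀ h₁
  have key : ∀ ε > 0, ∀ᶠ x in l, t x ∈ (W x).Fd ∧ ‖(W x).ψ₁ (t x) - 1‖ ≤ ε ∧
      ‖(W x).ψ₂ (t x) - 1‖ ≤ ε := fun ε hε => by
    filter_upwards [hA, ht.eventually (ball_mem_nhds _ hδ), h.near δ hδ ε hε] with x a b c
    exact c _ (a _ b)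
  refine ⟨?_, Metric.tendsto_nhds.2 fun ε hε => (key _ (half_pos hε)).mono fun x hx => ?_,
    Metric.tendsto_nhds.2 fun ε hε => (key _ (half_pos hε)).mono fun x hx => ?_⟩
  · filter_upwards [key 1 one_pos, h.ok] with x a b
    exact ⟨a.1, b.pl.fd_sub a.1⟩
  · exact (dist_eq_norm _ _).le.trans_lt (hx.2.1.trans_lt (half_lt_self hε))
  · exact (dist_eq_norm _ _).le.trans_lt (hx.2.2.trans_lt (half_lt_self hε))

theorem WLim.F (h : WLim l W D₀) {t : α → ℂ} {t₀ : ℂ} (ht : Tendsto t l (𝓝 t₀))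
    (hi : ∀ᶠ x in l, 0 ≤ (t x).im) (h₀ : 0 ≤ t₀.im) (hP : D₀.P t₀ ≠ 0) :
    (∀ᶠ x in l, t x ∈ (W x).Qr) ∧ Tendsto (fun x => (W x).F1 (t x)) l (𝓝 (D₀.F1 t₀)) ∧
      Tendsto (fun x => (W x).F2 (t x)) l (𝓝 (D₀.F2 t₀)) ∧
      Tendsto (fun x => (W x).F3 (t x)) l (𝓝 t₀⁻¹) := by
  have hq := h.q
  obtain ⟨n0, n1, -⟩ := Dat.Alg_ne hP
  obtain ⟨a, p1, p2⟩ := h.psi ht (n1 0 (Finset.mem_range.2 (by omega)))
    (n1 1 (Finset.mem_range.2 (by omega)))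
  have hG := h.D.G ht hi h₀ hP
  have f1 := (p1.pow 2).mul (hG.div ht n0)
  have f2 := (p2.pow 2).mul ((hG.mul ht).inv₀ (mul_ne_zero (Dat.G_ne _) n0))
  have f3 := (p1.mul p2).div ht n0
  rw [one_pow, one_mul] at f1 f2
  rw [one_mul, one_div] at f3
  refine ⟨?_, f1, f2, f3⟩
  filter_upwards [a, hi, (h.D.P ht).eventually_ne hP] with x a b c
  exact ⟨b, c, a.2⟩

theorem WLim.comp (h : WLim l W D₀) {β : Type} {l' : Filter β} {φ : β → α} (hφ : Tendsto φ l' l) :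
    WLim l' (fun x => W (φ x)) D₀ := by
  exact ⟨h.D.comp hφ, h.q, hφ.eventually h.ok, fun δ hδ ε hε => hφ.eventually (h.near δ hδ ε hε)⟩

theorem WLim.lk (h : WLim l W D₀) {u v : α → ℝ} {u₀ v₀ : ℝ} (hu : Tendsto u l (𝓝 u₀))
    (hv : Tendsto v l (𝓝 v₀)) (h₀ : D₀.P u₀ ≠ 0) (h₁ : D₀.P v₀ ≠ 0) (hlt : v₀ < u₀) (ty : Bool) :
    (∀ᶠ x in l, ∀ θ ∈ Icc 0 Real.pi,
      ((u x + v x) / 2 + (u x - v x) / 2 * exp (θ * I) : ℂ) ∈ (W x).Om) ∧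
    Tendsto (fun x => Lk (W x).F1 (W x).F2 ty (u x) (v x)) l (𝓝 (Lk D₀.F1 D₀.F2 ty u₀ v₀)) := by
  have hq := h.q
  have key : ∀ ε > 0, ∀ᶠ x in l, ∀ θ ∈ Icc 0 Real.pi,
      ∀ t : ℂ, t = (u x + v x) / 2 + (u x - v x) / 2 * exp (θ * I) → t ∈ (W x).Om ∧
        t + (W x).D.b 0 ≠ 0 ∧ ‖(W x).ψ₁ t - 1‖ ≤ ε ∧ ‖(W x).ψ₂ t - 1‖ ≤ ε := fun ε hε => by
    refine ev_compact isCompact_Icc fun θ hθ => ?_
    have hu' := Dat.DatC_re (hu.comp (tendsto_fst (g := 𝓝[Icc 0 Real.pi] θ)))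
    have hv' := Dat.DatC_re (hv.comp (tendsto_fst (g := 𝓝[Icc 0 Real.pi] θ)))
    have ht := ((hu'.add hv').div_const 2).add (((hu'.sub hv').div_const 2).mul
      ((Dat.DatC_re (tendsto_snd.mono_right nhdsWithin_le_nhds)).mul_const I).cexp)
    obtain ⟨-, n1, -⟩ := Dat.Alg_ne (Dat.Ok.semi h₀ h₁ hlt hθ).2
    have n0 := n1 0 (Finset.mem_range.2 (by omega))
    obtain ⟨a, p1, p2⟩ := (h.comp tendsto_fst).psi ht n0 (n1 1 (Finset.mem_range.2 (by omega)))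
    filter_upwards [a, (ht.add (Dat.DatC_re ((h.D.b 0 (by omega)).comp
      tendsto_fst))).eventually_ne n0, Metric.tendsto_nhds.1 p1 ε hε,
      Metric.tendsto_nhds.1 p2 ε hε] with z a b c d
    rintro _ rfl
    exact ⟨a.2, b, (dist_eq_norm _ _).ge.trans c.le, (dist_eq_norm _ _).ge.trans d.le⟩
  refine ⟨(key 1 one_pos).mono fun x hx θ hθ => (hx θ hθ _ rfl).1,
    h.D.lk hu hv h₀ h₁ hlt ty (ψ₁ := fun x => (W x).ψ₁) (ψ₂ := fun x => (W x).ψ₂) fun ε hε => ?_⟩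
  filter_upwards [key ε hε, h.ok] with x a b θ hθ t ht
  obtain ⟨a1, a2, a3⟩ := a θ hθ t ht
  exact ⟨(b.ψ₁_diff a1 a2).continuousAt, (b.ψ₂_diff a1).continuousAt, a3⟩

end Pool.Agent.MP_92463a_gt

end
end

section

open Set Complex Filter Metric
open scoped Topology ComplexConjugate ContDiff Manifold

noncomputable section

namespace Pool.Agent.MP_92463a_gt

section

variable {α ι : Type} [Fintype ι] {l : Filter α} {W : α → Wd ι} {D₀ : Dat}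
  {X : α → ℂ → ℂ} {H : α → ℂ → ℝ}

theorem WL2_im {t : ℂ} (ht : 0 ≤ t.im) {y : ℝ} (hy : y ∈ Icc (0 : ℝ) 1) :
    1 - y ≤ (I + y * (t - I)).im := by
  have := mul_nonneg hy.1 ht
  simp only [add_im, I_im, mul_im, ofReal_re, sub_im, ofReal_im, zero_mul, add_zero]
  linarith

theorem WL2_cont {S : Set ℂ} {f₁ f₂ : ℂ → ℂ} (h₁ : ContinuousOn f₁ S) (h₂ : ContinuousOn f₂ S)
    {t : ℂ} (hS : ∀ y ∈ Icc (0 : ℝ) 1, I + y * (t - I) ∈ S) :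
    ContinuousOn (fun y : ℝ => f₁ (I + y * (t - I)) * (t - I) -
      conj (f₂ (I + y * (t - I)) * (t - I))) (uIcc 0 1) := by
  rw [uIcc_of_le zero_le_one]
  have hc : ContinuousOn (fun y : ℝ => I + y * (t - I)) (Icc 0 1) := by fun_prop
  exact ((h₁.comp hc hS).mul continuousOn_const).sub
    (continuous_conj.comp_continuousOn ((h₂.comp hc hS).mul continuousOn_const))

theorem WL2_seg (h : SLim l W D₀ X H) {Y : ℂ → ℂ} (hY : D₀.Pre Y) {t : α → ℂ} {t₀ : ℂ}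
    (ht : Tendsto t l (𝓝 t₀)) (hi : ∀ᶠ x in l, 0 ≤ (t x).im) (h₀ : 0 ≤ t₀.im)
    (hP : D₀.P t₀ ≠ 0) : Tendsto (fun x => X x (t x) - X x I) l (𝓝 (Y t₀ - Y I)) := by
  have hp := hY.pathP h.D.ok₀
  have hS : ∀ y ∈ Icc (0 : ℝ) 1, I + y * (t₀ - I) ∈ {t | 0 ≤ t.im ∧ D₀.P t ≠ 0} := by
    intro y hy
    have := WL2_im h₀ hy
    refine ⟨by linarith [hy.2], ?_⟩
    rcases hy.2.eq_or_lt with rfl | h1
    · simpa using hP
    · exact Dat.ne_of_im (by linarith)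
  have ht' : ∀ y : ℝ, Tendsto (fun z : α × ℝ => t z.1 - I) (l ×ˢ 𝓝[Icc 0 1] y) (𝓝 (t₀ - I)) :=
    fun y => (ht.comp tendsto_fst).sub_const I
  have hF := fun y (hy : y ∈ Icc (0 : ℝ) 1) =>
    (h.toWLim.comp (l' := l ×ˢ 𝓝[Icc 0 1] y) tendsto_fst).F
      (t := fun z => I + z.2 * (t z.1 - I))
      (((Dat.DatC_re (tendsto_snd.mono_right nhdsWithin_le_nhds)).mul (ht' y)).const_add I)
      (by
        filter_upwards [hi.prod_mk (self_mem_nhdsWithin (a := y) (s := Icc (0 : ℝ) 1))] with z hz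
        linarith [WL2_im hz.1 hz.2, hz.2.2]) (hS y hy).1 (hS y hy).2
  have hQ := ev_compact (p := fun x (y : ℝ) => I + y * (t x - I) ∈ (W x).Qr) isCompact_Icc
    fun y hy => (hF y hy).1
  rw [hp.seg hS]
  refine (int_tendsto (a := fun _ => 0) (b := fun _ => 1)
    (f := fun x y => (W x).F1 (I + y * (t x - I)) * (t x - I) -
      conj ((W x).F2 (I + y * (t x - I)) * (t x - I))) tendsto_const_nhds tendsto_const_nhds
    (WL2_cont hp.c₁ hp.c₂ hS) ?_ fun y hy => ?_).congr' ?_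
  · filter_upwards [hQ, h.ok] with x h1 h2
    exact WL2_cont h2.F_cont.1 h2.F_cont.2 h1
  · simp only [sub_zero, mul_one, zero_add]
    exact ((hF y hy).2.1.mul (ht' y)).sub
      ((continuous_conj.tendsto _).comp ((hF y hy).2.2.1.mul (ht' y)))
  · filter_upwards [hQ, h.ok, h.sol] with x h1 h2 h3
    exact ((h3.toPre.pathP h2).seg h1).symm

theorem WL2_pos (h : SLim l W D₀ X H) {u : ℝ} (hu : 0 < (D₀.P u).re) :
    ∀ᶠ x in l, (X x u).im = 0 := by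
  have hP : D₀.P u ≠ 0 := fun e => by simp [e] at hu
  filter_upwards [(h.toWLim.F (t := fun _ => (u : ℂ)) tendsto_const_nhds (by simp) (by simp) hP).1,
    ((continuous_re.tendsto _).comp (h.D.P (t := fun _ => (u : ℂ)) tendsto_const_nhds)).eventually
      (lt_mem_nhds hu), h.sol] with x h1 h2 h3
  exact h3.im0 u h1.2.2 h2

theorem WL2_neg (h : SLim l W D₀ X H) {u : ℝ} (hu : (D₀.P u).re < 0) :
    ∀ᶠ x in l, (X x u).re = 0 := by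
  have hP : D₀.P u ≠ 0 := fun e => by simp [e] at hu
  filter_upwards [(h.toWLim.F (t := fun _ => (u : ℂ)) tendsto_const_nhds (by simp) (by simp) hP).1,
    ((continuous_re.tendsto _).comp (h.D.P (t := fun _ => (u : ℂ)) tendsto_const_nhds)).eventually
      (gt_mem_nhds hu), h.sol] with x h1 h2 h3
  exact h3.re0 u h1.2.2 h2

end

theorem WL2_ex {D : Dat} (hD : D.Ok) (hq : 0 < D.q) :
    (∃ u : ℝ, 0 < (D.P u).re) ∧ ∃ v : ℝ, (D.P v).re < 0 := by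
  have ha := hD.a_pos 0 hD.p_pos
  have hb := hD.b_pos 0 hq
  refine ⟨⟨D.a 0 / 2, ?_⟩, -(D.b 0 / 2), ?_⟩
  · have := (hD.sign_pos (x := D.a 0 / 2) (k := 0) (by linarith) (Nat.zero_le _) (by simp)
      fun i _ hi => ?_).1
    · simpa [sg] using this
    · rcases i.eq_zero_or_pos with rfl | h
      · linarith
      · linarith [hD.a_lt 0 i h hi]
  · have := (hD.sign_neg (x := -(D.b 0 / 2)) (k := 0) (by linarith) (Nat.zero_le _) (by simp)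
      fun i _ hi => ?_).1
    · simpa [sg] using this
    · rcases i.eq_zero_or_pos with rfl | h
      · linarith
      · linarith [hD.b_gap 0 i h hi]

/-- the limit of the solutions is a solution -/
theorem SLim.core {α ι : Type} [Fintype ι] {l : Filter α} [l.NeBot] {W : α → Wd ι} {D₀ : Dat}
    {X : α → ℂ → ℂ} {H : α → ℂ → ℝ} (h : SLim l W D₀ X H) :
    ∃ X₀, D₀.Sol X₀ ∧ ∀ (t : α → ℂ) (t₀ : ℂ), Tendsto t l (𝓝 t₀) → (∀ᶠ x in l, 0 ≤ (t x).im) →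
      D₀.P t₀ ≠ 0 → Tendsto (fun x => X x (t x)) l (𝓝 (X₀ t₀)) := by
  obtain ⟨Y, hY⟩ := h.D.ok₀.exists_pre
  obtain ⟨⟨u, hu⟩, v, hv⟩ := WL2_ex h.D.ok₀ (by have := h.q; omega)
  have hc : ∀ s : ℝ, (D₀.P s).re ≠ 0 → Tendsto (fun x => X x s - X x I) l (𝓝 (Y s - Y I)) :=
    fun s hs => WL2_seg h hY tendsto_const_nhds (by simp) (by simp) fun e => by simp [e] at hs
  obtain ⟨z, hz⟩ : ∃ z, Tendsto (fun x => X x I) l (𝓝 z) := by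
    have h1 := Dat.DatC_re ((continuous_im.tendsto _).comp (hc u hu.ne'))
    have h2 := Dat.DatC_re ((continuous_re.tendsto _).comp (hc v hv.ne))
    refine ⟨_, (h2.add (h1.mul_const I)).neg.congr' ?_⟩
    filter_upwards [WL2_pos h hu, WL2_neg h hv] with x e1 e2
    apply Complex.ext <;> simp [e1, e2]
  have key : ∀ (t : α → ℂ) (t₀ : ℂ), Tendsto t l (𝓝 t₀) → (∀ᶠ x in l, 0 ≤ (t x).im) →
      D₀.P t₀ ≠ 0 → Tendsto (fun x => X x (t x)) l (𝓝 (Y t₀ - Y I + z)) := by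
    intro t t₀ ht hi hP
    simpa using (WL2_seg h hY ht hi
      (ge_of_tendsto ((continuous_im.tendsto _).comp ht) hi) hP).add hz
  refine ⟨fun t => Y t - Y I + z, ⟨⟨(hY.cont.sub continuousOn_const).add continuousOn_const,
    fun t ht => ((hY.der t ht).sub_const _).add_const _⟩, fun s hs => ?_, fun s hs => ?_⟩, key⟩
  · refine tendsto_nhds_unique ((continuous_im.tendsto _).comp
      (key (fun _ => s) s tendsto_const_nhds (by simp) fun e => by simp [e] at hs))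
      (tendsto_const_nhds.congr' ((WL2_pos h hs).mono fun x hx => hx.symm))
  · refine tendsto_nhds_unique ((continuous_re.tendsto _).comp
      (key (fun _ => s) s tendsto_const_nhds (by simp) fun e => by simp [e] at hs))
      (tendsto_const_nhds.congr' ((WL2_neg h hs).mono fun x hx => hx.symm))

end Pool.Agent.MP_92463a_gt

end
end

section

open Set Complex Filter Metric
open scoped Topology ComplexConjugate ContDiff Manifold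

noncomputable section

namespace Pool.Agent.MP_92463a_gt

section

variable {α : Type} {l : Filter α}

theorem Sing1_gap {f : α → ℕ → ℝ} {f₀ : ℕ → ℝ} {s : Finset ℕ}
    (h : ∀ i ∈ s, Tendsto (fun x => f x i) l (𝓝 (f₀ i))) (h0 : ∀ i ∈ s, 0 < f₀ i) :
    ∀ᶠ δ in 𝓝[>] (0 : ℝ), ∀ᶠ x in l, ∀ i ∈ s, δ < f x i := by
  simp only [eventually_all_finset]
  intro i hi
  filter_upwards [Ioo_mem_nhdsGT (h0 i hi)] with δ hδ using (h i hi).eventually (lt_mem_nhds hδ.2)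

theorem Sing1_fs : Tendsto (fun z : α × ℂ => z.2) (l ×ˢ 𝓝[{τ : ℂ | 0 ≤ τ.im}] 0) (𝓝 0) ∧
    ∀ᶠ z : α × ℂ in l ×ˢ 𝓝[{τ : ℂ | 0 ≤ τ.im}] 0, 0 ≤ z.2.im :=
  tendsto_nhdsWithin_iff.1 tendsto_snd

theorem Sing1_mod {u v : α → ℂ → ℂ} {u₀ : ℂ} (h0 : u₀ ≠ 0)
    (hu : Tendsto (fun z : α × ℂ => u z.1 z.2) (l ×ˢ 𝓝[{τ : ℂ | 0 ≤ τ.im}] 0) (𝓝 u₀))
    (hv : Tendsto (fun z : α × ℂ => v z.1 z.2) (l ×ˢ 𝓝[{τ : ℂ | 0 ≤ τ.im}] 0) (𝓝 0))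
    {ε : ℝ} (hε : 0 < ε) : ∀ᶠ δ in 𝓝[>] (0 : ℝ), ∀ᶠ x in l, ‖u₀‖ / 2 ≤ ‖u x 0‖ ∧
      ‖u x 0‖ ≤ 2 * ‖u₀‖ ∧ ∀ τ ∈ HA 0 δ, ‖u x τ - u x 0‖ + ‖v x τ‖ ≤ ε * ‖u x 0‖ := by
  have hp := norm_pos_iff.2 h0
  have h1 : Tendsto (fun x => u x 0) l (𝓝 u₀) := hu.comp (f := fun x => (x, (0 : ℂ)))
    (tendsto_id.prodMk (tendsto_const_pure.mono_right (pure_le_nhdsWithin zero_im.ge)))
  have h2 := h1.comp (tendsto_fst (g := 𝓝[{τ : ℂ | 0 ≤ τ.im}] (0 : ℂ)))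
  have h3 := ((hu.sub h2).norm.add hv.norm).eventually_lt (h2.norm.const_mul ε)
    (by simpa using mul_pos hε hp)
  obtain ⟨pa, ha, pb, hb, h⟩ := eventually_prod_iff.1 h3
  obtain ⟨δ₀, hδ₀, hb⟩ := Metric.mem_nhdsWithin_iff.1 hb
  filter_upwards [Ioo_mem_nhdsGT hδ₀] with δ hδ
  filter_upwards [ha, h1.norm.eventually (le_mem_nhds (half_lt_self hp)),
    h1.norm.eventually (ge_mem_nhds (lt_two_mul_self hp))] with x hx h4 h5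
  exact ⟨h4, h5, fun τ hτ => (h hx (hb ⟨mem_ball_zero_iff.2 (hτ.2.2.trans hδ.2), hτ.1⟩)).le⟩

theorem Sing1_Mod {f₁ f₂ : ℂ → ℂ} {a b c τ : ℂ} {σ ε : ℝ} (h0 : τ ≠ 0)
    (h₁ : f₁ τ = a * pw (σ - 1) τ) (h₂ : f₂ τ = b * pw (σ - 1) τ)
    (h : ‖a - c‖ + ‖b‖ ≤ ε * ‖c‖) : Mod f₁ f₂ c σ ε τ := by
  rw [Mod, h₁, h₂, ← sub_mul, norm_mul, norm_mul, norm_pw _ h0, ← add_mul]
  exact mul_le_mul_of_nonneg_right h (Real.rpow_nonneg (norm_nonneg _) _)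

theorem Sing1_e1 (A t τ : ℂ) : exp A / t = exp (A + log τ / 2) / t * pw (1 / 2 - 1) τ := by
  rw [pw, div_mul_eq_mul_div, ← exp_add]
  congr 2
  push_cast
  ring

theorem Sing1_e2 (A t : ℂ) {τ : ℂ} (h : τ ≠ 0) :
    exp (-A) / t = τ * exp (-(A + log τ / 2)) / t * pw (1 / 2 - 1) τ := by
  rw [pw, div_mul_eq_mul_div, mul_assoc, ← exp_add]
  nth_rw 1 [← exp_log h]
  rw [← exp_add]
  congr 2
  push_cast
  ring

theorem Sing1_e3 {τ : ℂ} (h : τ ≠ 0) : pw (-1 / 2 - 1) τ = pw (1 / 2 - 1) τ / τ := by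
  rw [eq_div_iff h]
  nth_rw 2 [← pw_one h]
  rw [pw_mul]
  norm_num

end

namespace Dat

variable {α : Type} {l : Filter α} {D : α → Dat} {D₀ : Dat}

theorem Sing1_F2 (D : Dat) (t : ℂ) : D.F2 t = exp (-D.LG t) / t := by
  rw [F2, Dat.G, exp_neg, mul_inv, div_eq_mul_inv]

/-- the part of `LG` without the singular logarithms -/
def Sing1_L (D : Dat) (n : ℕ) (s : Finset ℕ) (t : ℂ) : ℂ :=
  Real.log D.ρ + ∑ j ∈ Finset.range n, sg j * (3 / 2) * log (t + D.b j) -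
    ∑ i ∈ s, sg i * (1 / 2) * lm (D.a i) t

theorem Tends.Sing1_L (h : Tends l D D₀) {s : Finset ℕ} (hs : s ⊆ Finset.range D₀.p) {t : α → ℂ}
    {t₀ : ℝ} (ht : Tendsto t l (𝓝 t₀)) (hi : ∀ᶠ x in l, 0 ≤ (t x).im) (h₀ : 0 ≤ t₀)
    (h2 : ∀ i ∈ s, t₀ ≠ D₀.a i) :
    Tendsto (fun x => Sing1_L (D x) D₀.q s (t x)) l (𝓝 (Sing1_L D₀ D₀.q s t₀)) :=
  ((DatC_re (h.ρ.log h.ok₀.ρ_pos.ne')).add (tendsto_finsetSum _ fun j hj =>
    (DatC_log (ht.add (DatC_re (h.b j (Finset.mem_range.1 hj)))) (by simpa using hi) (by simp)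
      (by exact_mod_cast (add_pos_of_nonneg_of_pos h₀
        (h.ok₀.b_pos j (Finset.mem_range.1 hj))).ne')).const_mul _)).sub
    (tendsto_finsetSum _ fun i hi' =>
      ((DatC_log (ht.sub (DatC_re (h.a i (Finset.mem_range.1 (hs hi'))))) (by simpa using hi)
        (by simp) (by exact_mod_cast sub_ne_zero.2 (h2 i hi'))).sub_const _).const_mul _)

theorem Sing1_L0 (D : Dat) (t : ℂ) :
    D.LG t + log t / 2 = Sing1_L D D.q (Finset.range D.p) t := by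
  rw [LG, Sing1_L]
  ring

theorem Sing1_La (D : Dat) {i : ℕ} (hi : i < D.p) (τ : ℂ) :
    sg i * D.LG (D.a i + τ) + log τ / 2 = sg i * (Sing1_L D D.q ((Finset.range D.p).erase i)
      (D.a i + τ) - log (D.a i + τ) / 2) + Real.pi * I / 2 := by
  have h : (sg i : ℂ) * sg i = 1 := by
    rw [← ofReal_mul, sg, ← mul_pow]
    simp
  rw [LG, Sing1_L, ← Finset.add_sum_erase _ _ (Finset.mem_range.2 hi), lm, add_sub_cancel_left]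
  linear_combination (-(log τ - Real.pi * I) / 2) * h

theorem Tends.Sing1_0 (h : Tends l D D₀) {τ : α → ℂ} (ht : Tendsto τ l (𝓝 0))
    (hi : ∀ᶠ x in l, 0 ≤ (τ x).im) :
    Tendsto (fun x => (D x).LG (τ x) + log (τ x) / 2) l (𝓝 (D₀.LG 0 + log 0 / 2)) := by
  rw [Sing1_L0]
  refine (h.Sing1_L (t₀ := 0) subset_rfl ht hi le_rfl fun i hi =>
    (h.ok₀.a_pos i (Finset.mem_range.1 hi)).ne).congr' ?_
  filter_upwards [h.ok] with x hx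
  rw [Sing1_L0, hx.2.1, hx.2.2]

theorem Ok.Sing1_ne {D : Dat} (hD : D.Ok) {i k : ℕ} (hi : i < D.p)
    (hk : k ∈ (Finset.range D.p).erase i) : D.a i ≠ D.a k := by
  obtain ⟨h1, h2⟩ := Finset.mem_erase.1 hk
  rcases lt_or_gt_of_ne h1 with h | h
  · exact (hD.a_lt k i h hi).ne'
  · exact (hD.a_lt i k h (Finset.mem_range.1 h2)).ne

theorem Tends.Sing1_a (h : Tends l D D₀) {i : ℕ} (hi : i < D₀.p) {τ : α → ℂ}
    (ht : Tendsto τ l (𝓝 0)) (hτ : ∀ᶠ x in l, 0 ≤ (τ x).im) :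
    Tendsto (fun x => sg i * (D x).LG ((D x).a i + τ x) + log (τ x) / 2) l
      (𝓝 (sg i * D₀.LG (D₀.a i + 0) + log 0 / 2)) := by
  have hp := h.ok₀.a_pos i hi
  have h1 : Tendsto (fun x => ((D x).a i : ℂ) + τ x) l (𝓝 (D₀.a i)) := by
    simpa using (DatC_re (h.a i hi)).add ht
  have h2 : ∀ᶠ x in l, 0 ≤ (((D x).a i : ℂ) + τ x).im := by simpa using hτ
  rw [Sing1_La _ hi, add_zero]
  refine ((((h.Sing1_L (Finset.erase_subset i _) h1 h2 hp.le fun k hk =>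
    h.ok₀.Sing1_ne hi hk).sub ((DatC_log h1 h2 (by simp)
      (by exact_mod_cast hp.ne')).div_const 2)).const_mul _).add_const _).congr' ?_
  filter_upwards [h.ok] with x hx
  rw [Sing1_La _ (hx.2.1 ▸ hi), hx.2.1, hx.2.2]

theorem Ok.Sing1_ph {D : Dat} (hD : D.Ok) {x : ℝ} {k : ℕ} (hx : 0 ≤ x) (hk : k ≤ D.p)
    (h1 : ∀ i < k, D.a i ≤ x) (h2 : ∀ i, k ≤ i → i < D.p → x < D.a i) :
    (D.LG x).im = (if Even k then 0 else 1) * (Real.pi / 2) := by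
  rw [Phase_im, arg_ofReal_of_nonneg hx, Finset.sum_eq_zero fun j hj => by
    rw [arg_ofReal_of_nonneg (add_nonneg hx (hD.b_pos j (Finset.mem_range.1 hj)).le), mul_zero,
      mul_zero], Phase_sum (c := Real.pi / 2) hk (fun i hi => by
      rw [arg_ofReal_of_nonneg (sub_nonneg.2 (h1 i hi))]; ring) fun i h3 h4 => by
      rw [arg_ofReal_of_neg (sub_neg.2 (h2 i h3 h4))]; ring]
  ring

theorem Sing1_P {D : Dat} {x₀ δ : ℝ} (h0 : x₀ = 0 ∨ δ < |x₀|) (h1 : ∀ j < D.q, δ < x₀ + D.b j)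
    (h2 : ∀ i < D.p, D.a i = x₀ ∨ δ < |D.a i - x₀|) (τ : ℂ) (h3 : 0 < ‖τ‖) (h4 : ‖τ‖ < δ) :
    D.P (x₀ + τ) ≠ 0 := by
  have key : ∀ y : ℝ, (x₀ : ℂ) + τ = y → y ≠ x₀ ∧ |y - x₀| < δ := fun y hy => by
    have h5 : τ = ((y - x₀ : ℝ) : ℂ) := by rw [ofReal_sub, ← hy, add_sub_cancel_left]
    rw [h5, norm_real, Real.norm_eq_abs] at h3 h4
    exact ⟨sub_ne_zero.1 (abs_pos.1 h3), h4⟩
  intro h
  rcases P_eq_zero.1 h with (h | ⟨j, hj, h⟩) | ⟨i, hi, h⟩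
  · obtain ⟨h5, h6⟩ := key 0 h
    rw [zero_sub, abs_neg] at h6
    exact h0.elim (fun e => h5 e.symm) h6.not_gt
  · obtain ⟨-, h6⟩ := key (-D.b j) (by rw [h, ofReal_neg])
    linarith [h1 j hj, (abs_lt.1 h6).1]
  · obtain ⟨h5, h6⟩ := key _ h
    exact (h2 i hi).elim h5 h6.not_gt

theorem Ok.Sing1_sg {D : Dat} (hD : D.Ok) {i : ℕ} (hi : i < D.p) {δ : ℝ} (h1 : δ < D.a i)
    (h2 : ∀ k ∈ (Finset.range D.p).erase i, δ < |D.a k - D.a i|) {r : ℝ} (hr : r ∈ Ioo 0 δ) :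
    sg i * (D.P (D.a i + r)).re < 0 ∧ 0 < sg i * (D.P (D.a i + -r)).re := by
  have h3 : ∀ k < i, D.a k < D.a i - δ := fun k hk => by
    have := h2 k (Finset.mem_erase.2 ⟨hk.ne, Finset.mem_range.2 (hk.trans hi)⟩)
    rw [abs_of_neg (sub_neg.2 (hD.a_lt k i hk hi))] at this
    linarith
  have h4 : ∀ k, i < k → k < D.p → D.a i + δ < D.a k := fun k hk hp => by
    have := h2 k (Finset.mem_erase.2 ⟨hk.ne', Finset.mem_range.2 hp⟩)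
    rw [abs_of_pos (sub_pos.2 (hD.a_lt i k hk hp))] at this
    linarith
  obtain ⟨r0, r1⟩ := hr
  have e1 := (hD.sign_pos (x := D.a i + r) (k := i + 1) (by linarith) hi (fun k hk => by
    rcases (Nat.lt_succ_iff.1 hk).lt_or_eq with h | rfl
    · linarith [h3 k h]
    · linarith) fun k hk hp => by linarith [h4 k hk hp]).1
  have e2 := (hD.sign_pos (x := D.a i + -r) (k := i) (by linarith) hi.le
    (fun k hk => by linarith [h3 k hk]) fun k hk hp => by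
    rcases hk.lt_or_eq with h | rfl
    · linarith [h4 k h hp]
    · linarith).1
  rw [sg, pow_succ, ← sg] at e1
  push_cast at e1 e2
  exact ⟨by linarith, e2⟩

theorem Tends.sing_a (h : Tends l D D₀) {i : ℕ} (hi : i < D₀.p) : ∃ m > 0, ∃ M, ∀ ε > 0,
    ∀ᶠ δ in 𝓝[>] (0 : ℝ), ∀ᶠ x in l, (D x).Sing ((D x).a i) (1 / 2) 0 δ ε m M := by
  have hp : (D₀.a i : ℂ) + 0 ≠ 0 := by simpa using (h.ok₀.a_pos i hi).ne'
  have h1 := (h.comp tendsto_fst).Sing1_a hi Sing1_fs.1 Sing1_fs.2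
  have h2 := (DatC_re ((h.comp tendsto_fst).a i hi)).add Sing1_fs.1
  have h0 := div_ne_zero (exp_ne_zero (sg i * D₀.LG (D₀.a i + 0) + log 0 / 2)) hp
  refine ⟨_, half_pos (norm_pos_iff.2 h0),
    2 * ‖exp (sg i * D₀.LG (D₀.a i + 0) + log 0 / 2) / (D₀.a i + 0)‖, fun ε hε => ?_⟩
  filter_upwards [Sing1_mod
    (u := fun x τ => exp (sg i * (D x).LG ((D x).a i + τ) + log τ / 2) / ((D x).a i + τ))
    (v := fun x τ => τ * exp (-(sg i * (D x).LG ((D x).a i + τ) + log τ / 2)) / ((D x).a i + τ))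
    h0 (h1.cexp.div h2 hp) (by
      have := (Sing1_fs.1.mul h1.neg.cexp).div h2 hp
      rwa [zero_mul, zero_div] at this) hε,
    Sing1_gap (s := {i}) (fun k hk => h.a k (Finset.mem_singleton.1 hk ▸ hi))
      fun k hk => h.ok₀.a_pos k (Finset.mem_singleton.1 hk ▸ hi),
    Sing1_gap (s := (Finset.range D₀.p).erase i) (f := fun x k => |(D x).a k - (D x).a i|)
      (fun k hk => ((h.a k (Finset.mem_range.1 (Finset.mem_of_mem_erase hk))).sub (h.a i hi)).abs)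
      fun k hk => abs_pos.2 (sub_ne_zero.2 (h.ok₀.Sing1_ne hi hk).symm)] with δ e1 e2 e3
  filter_upwards [e1, e2, e3, h.ok] with x ⟨m1, m2, m3⟩ g1 g2 ⟨hD, hp, _⟩
  rw [← hp] at hi g2
  have g3 := g1 i (Finset.mem_singleton_self i)
  have g4 := hD.a_pos i hi
  have g5 := hD.Sing1_ph (k := i + 1) g4.le hi (fun k hk => by
    rcases (Nat.lt_succ_iff.1 hk).lt_or_eq with h | rfl
    · exact (hD.a_lt k i h hi).le
    · exact le_rfl) fun k hk hp => hD.a_lt i k hk hp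
  refine ⟨Sing1_P (Or.inr (g3.trans_le (le_abs_self _)))
    (fun j hj => by linarith [hD.b_pos j hj]) fun k hk => (em (k = i)).imp (congrArg _) fun e =>
      g2 k (Finset.mem_erase.2 ⟨e, Finset.mem_range.2 hk⟩), _, m1, m2, ?_⟩
  have g6 := fun r => hD.Sing1_sg hi g3 g2 (r := r)
  rcases Nat.even_or_odd i with he | he
  · have s1 : sg i = 1 := he.neg_one_pow
    rw [if_neg (Nat.not_even_iff_odd.2 he.add_one), one_mul] at g5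
    simp only [s1, ofReal_one, one_mul] at m3 g6 ⊢
    refine ⟨Or.inr ⟨by simp [exp_re, g5], g6⟩, Or.inl fun τ hτ => ?_⟩
    have t0 := norm_pos_iff.1 hτ.2.1
    exact Sing1_Mod t0 (Sing1_e1 _ _ τ) ((Sing1_F2 _ _).trans (Sing1_e2 _ _ t0)) (m3 τ hτ)
  · have s1 : sg i = -1 := he.neg_one_pow
    rw [if_pos he.add_one, zero_mul] at g5
    simp only [s1, ofReal_neg, ofReal_one, neg_mul, one_mul, neg_pos, neg_lt_zero] at m3 g6 ⊢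
    refine ⟨Or.inl ⟨by simp [exp_im, g5], g6⟩, Or.inr fun τ hτ => ?_⟩
    have t0 := norm_pos_iff.1 hτ.2.1
    refine Sing1_Mod t0 ((Sing1_F2 _ _).trans (Sing1_e1 _ _ τ)) ?_ (m3 τ hτ)
    rw [← Sing1_e2 _ _ t0, neg_neg]
    rfl

theorem Tends.sing_0 (h : Tends l D D₀) : ∃ m > 0, ∃ M, ∀ ε > 0,
    ∀ᶠ δ in 𝓝[>] (0 : ℝ), ∀ᶠ x in l, (D x).Sing 0 (-1 / 2) 0 δ ε m M := by
  have h1 := (h.comp tendsto_fst).Sing1_0 Sing1_fs.1 Sing1_fs.2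
  have h0 := exp_ne_zero (D₀.LG 0 + log 0 / 2)
  refine ⟨_, half_pos (norm_pos_iff.2 h0), 2 * ‖exp (D₀.LG 0 + log 0 / 2)‖, fun ε hε => ?_⟩
  filter_upwards [Sing1_mod (u := fun x τ => exp ((D x).LG τ + log τ / 2))
    (v := fun x τ => τ * exp (-((D x).LG τ + log τ / 2)))
    h0 h1.cexp (by simpa using Sing1_fs.1.mul h1.neg.cexp) hε,
    Sing1_gap (s := Finset.range D₀.p) (fun k hk => h.a k (Finset.mem_range.1 hk))
      fun k hk => h.ok₀.a_pos k (Finset.mem_range.1 hk),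
    Sing1_gap (s := Finset.range D₀.q) (fun k hk => h.b k (Finset.mem_range.1 hk))
      fun k hk => h.ok₀.b_pos k (Finset.mem_range.1 hk)] with δ e1 e2 e3
  filter_upwards [e1, e2, e3, h.ok] with x ⟨m1, m2, m3⟩ g1 g2 ⟨hD, hp, hq⟩
  simp only [← hp, ← hq, Finset.mem_range] at g1 g2
  have g5 := hD.Sing1_ph (k := 0) le_rfl (Nat.zero_le _) (fun k hk => absurd hk (Nat.not_lt_zero _))
    fun k _ hk => hD.a_pos k hk
  rw [if_pos Even.zero, zero_mul, ofReal_zero] at g5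
  refine ⟨Sing1_P (Or.inl rfl) (by simpa using g2) fun k hk => Or.inr
    ((g1 k hk).trans_le (by simpa using le_abs_self _)), _, m1, m2,
    Or.inl ⟨by simp [exp_im, g5], fun r hr => ⟨?_, ?_⟩⟩, Or.inl fun τ hτ => ?_⟩
  · simpa [sg] using (hD.sign_pos (k := 0) hr.1 (Nat.zero_le _)
      (fun k hk => absurd hk (Nat.not_lt_zero _)) fun k _ hk => hr.2.trans (g1 k hk)).1
  · simpa [sg] using (hD.sign_neg (k := 0) (neg_lt_zero.2 hr.1) (Nat.zero_le _)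
      (fun k hk => absurd hk (Nat.not_lt_zero _)) fun k _ hk => by
        linarith [hr.2, g2 k hk]).1
  · have t0 := norm_pos_iff.1 hτ.2.1
    refine Sing1_Mod t0 ?_ ?_ (m3 τ hτ)
    · rw [ofReal_zero, zero_add, Sing1_e3 t0, mul_div_left_comm, mul_comm, ← Sing1_e1]
      rfl
    · rw [ofReal_zero, zero_add, Sing1_e3 t0, mul_div_left_comm, mul_comm, ← Sing1_e2 _ _ t0,
        Sing1_F2]

end Dat

end Pool.Agent.MP_92463a_gt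

end
end

section

open Set Complex Filter Metric
open scoped Topology ComplexConjugate ContDiff Manifold

noncomputable section

namespace Pool.Agent.MP_92463a_gt

variable {α ι : Type} [Fintype ι] {l : Filter α} {W : α → Wd ι} {D₀ : Dat} {X : α → ℂ → ℂ}
  {H : α → ℂ → ℝ} {t t' : α → ℂ}

theorem WLim.WL3_far (h : WLim l W D₀) :
    ∃ R, ∀ᶠ x in l, ∀ t, R ≤ ‖t‖ → (W x).Away 1 t := by
  have hq := h.q
  have a0 := (h.D.b 0 (by omega)).abs.eventually_le_const (lt_add_one _)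
  have a1 := (h.D.b 1 (by omega)).abs.eventually_le_const (lt_add_one _)
  refine ⟨|D₀.b 0| + |D₀.b 1| + 2, (a0.and a1).mono fun x hx t ht => ⟨?_, ?_⟩⟩
  · have := norm_sub_norm_le t (-((W x).D.b 0 : ℂ))
    rw [norm_neg, norm_real, Real.norm_eq_abs, sub_neg_eq_add] at this
    linarith [hx.1, abs_nonneg (D₀.b 1)]
  · have := norm_sub_norm_le t (-((W x).D.b 1 : ℂ))
    rw [norm_neg, norm_real, Real.norm_eq_abs, sub_neg_eq_add] at this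
    linarith [hx.2, abs_nonneg (D₀.b 0)]

theorem SLim.WL3_loc (h : SLim l W D₀ X H) {x₀ : α → ℝ} {t₀ : ℂ}
    (hx : Tendsto (fun x => (x₀ x : ℂ)) l (𝓝 t₀)) (h₁ : t₀ + D₀.b 0 ≠ 0) (h₂ : t₀ + D₀.b 1 ≠ 0)
    {σ m M : ℝ} (hσ : σ = 1 / 2 ∨ σ = -1 / 2) (hm : 0 < m)
    (hs : ∀ ε > 0, ∀ᶠ δ in 𝓝[>] (0 : ℝ), ∀ᶠ x in l, (W x).D.Sing (x₀ x) σ 0 δ ε m M) :
    ∃ δ > 0, ∀ᶠ x in l, (∀ u : ℂ, u - x₀ x ∈ HA 0 δ → m * ‖u - x₀ x‖ ^ σ ≤ ‖X x u‖ ∧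
      ‖X x u‖ ≤ 3 * M * ‖u - x₀ x‖ ^ σ) ∧
      ∀ u u' : ℂ, u - x₀ x ∈ HA 0 δ → u' - x₀ x ∈ HA 0 δ → X x u = X x u' → u = u' := by
  obtain ⟨δ₁, p1, a1⟩ := h.toWLim.away h₁ h₂
  obtain ⟨δ, ⟨s1, d1⟩, d0⟩ := (((hs (1 / 10000) (by norm_num)).and
    (nhdsWithin_le_nhds (Iio_mem_nhds (half_pos p1)))).and self_mem_nhdsWithin).exists
  refine ⟨δ, d0, ?_⟩
  filter_upwards [a1, s1, h.ok, h.sol, h.near δ₁ p1 (1 / 10000) (by norm_num),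
    hx.eventually (ball_mem_nhds t₀ (half_pos p1))] with x e1 e2 e3 e4 e5 e6
  obtain ⟨r1, r2⟩ := e4.toSolX.sing e3 e2 hσ le_rfl hm le_rfl fun τ hτ => by
    have : (x₀ x : ℂ) + τ ∈ ball t₀ δ₁ := by
      rw [mem_ball]
      rw [dist_eq_norm] at e6 ⊢
      have := norm_add_le ((x₀ x : ℂ) - t₀) τ
      rw [sub_add_eq_add_sub] at this
      have d2 : δ < δ₁ / 2 := d1
      linarith [hτ.2.2]
    obtain ⟨f1, f2⟩ := e5 _ (e1 _ this)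
    exact ⟨e3.pl.fd_sub f1, f2⟩
  refine ⟨fun u hu => by simpa using r1 _ hu, fun u u' hu hu' he => ?_⟩
  rw [mul_zero] at r2
  exact sub_left_injective (r2 _ hu _ hu' (by simpa using he))

omit [Fintype ι] in
theorem WL3_HA {x₀ : α → ℝ} {t₀ : ℂ} (hx : Tendsto (fun x => (x₀ x : ℂ)) l (𝓝 t₀))
    (ht : Tendsto t l (𝓝 t₀)) {δ : ℝ} (hδ : 0 < δ) :
    ∀ᶠ x in l, t x ∈ (W x).Q → t x ≠ x₀ x → t x - x₀ x ∈ HA 0 δ := by
  have := (ht.sub hx).norm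
  rw [sub_self, norm_zero] at this
  filter_upwards [this.eventually_lt_const hδ] with x e1 e2 e3
  exact ⟨by simpa using e2.1.1, norm_pos_iff.2 (sub_ne_zero.2 e3), e1⟩

theorem SLim.WL3_inj (h : SLim l W D₀ X H) {x₀ : α → ℝ} {t₀ : ℂ}
    (hx : Tendsto (fun x => (x₀ x : ℂ)) l (𝓝 t₀)) (h₁ : t₀ + D₀.b 0 ≠ 0) (h₂ : t₀ + D₀.b 1 ≠ 0)
    {σ : ℝ} (hσ : σ = 1 / 2 ∨ σ = -1 / 2) (hs : ∃ m > 0, ∃ M,
      ∀ ε > 0, ∀ᶠ δ in 𝓝[>] (0 : ℝ), ∀ᶠ x in l, (W x).D.Sing (x₀ x) σ 0 δ ε m M)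
    (hz : ∀ᶠ x in l, (x₀ x : ℂ) ∈ (W x).Q → X x (x₀ x) = 0)
    (ht : Tendsto t l (𝓝 t₀)) (ht' : Tendsto t' l (𝓝 t₀))
    (hq : ∀ᶠ x in l, t x ∈ (W x).Q ∧ t' x ∈ (W x).Q ∧ X x (t x) = X x (t' x) ∧
      H x (t x) = H x (t' x)) : ∀ᶠ x in l, t x = t' x := by
  obtain ⟨m, hm, M, hs⟩ := hs
  obtain ⟨δ, hδ, e⟩ := h.WL3_loc hx h₁ h₂ hσ hm hs
  filter_upwards [e, hz, hq, WL3_HA (W := W) hx ht hδ, WL3_HA (W := W) hx ht' hδ] with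
    x e1 e2 e3 e4 e5
  have key : ∀ u : ℂ, u - x₀ x ∈ HA 0 δ → X x u ≠ 0 := fun u hu => norm_pos_iff.1
    ((mul_pos hm (Real.rpow_pos_of_pos hu.2.1 σ)).trans_le (e1.1 u hu).1)
  by_cases c : t x = x₀ x
  · by_cases c' : t' x = x₀ x
    · rw [c, c']
    · exact absurd (by rw [← e3.2.2.1, c, e2 (c ▸ e3.1)]) (key _ (e5 e3.2.1 c'))
  · by_cases c' : t' x = x₀ x
    · exact absurd (by rw [e3.2.2.1, c', e2 (c' ▸ e3.2.1)]) (key _ (e4 e3.1 c))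
    · exact e1.2 _ _ (e4 e3.1 c) (e5 e3.2.1 c') e3.2.2.1

theorem WLim.WL3_pos (h : WLim l W D₀) {r : ℝ} (hr : 0 ≤ r) :
    (r : ℂ) + D₀.b 0 ≠ 0 ∧ (r : ℂ) + D₀.b 1 ≠ 0 := by
  have hq := h.q
  have b0 := h.D.ok₀.b_pos 0 (by omega)
  have b1 := h.D.ok₀.b_pos 1 (by omega)
  constructor <;> rw [← ofReal_add, ofReal_ne_zero] <;> linarith

theorem WLim.WL3_b (h : WLim l W D₀) {j : ℕ} (hj : j < D₀.q) :
    Tendsto (fun x => ((-(W x).D.b j : ℝ) : ℂ)) l (𝓝 (-D₀.b j)) ∧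
      ∀ᶠ x in l, ((-(W x).D.b j : ℝ) : ℂ) ∉ (W x).Q :=
  ⟨by simpa using (Dat.DatC_re (h.D.b j hj)).neg, h.D.ok.mono fun x hx hq =>
    hq.1.2 (Or.inr ⟨j, hx.2.2 ▸ hj, ofReal_neg _⟩)⟩

theorem SLim.H_fin (h : SLim l W D₀ X H) {t₀ : ℂ} (ht : Tendsto t l (𝓝 t₀)) (h₀ : t₀ ≠ 0)
    (h₁ : t₀ + D₀.b 0 ≠ 0) (h₂ : t₀ + D₀.b 1 ≠ 0) :
    Tendsto (fun x => H x (t x)) l (𝓝 (2 * Real.log ‖t₀‖)) := by
  obtain ⟨δ, hδ, a⟩ := h.toWLim.away h₁ h₂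
  have l1 : Tendsto (fun x => Real.log ‖t x‖) l (𝓝 (Real.log ‖t₀‖)) :=
    ht.norm.log (norm_ne_zero_iff.2 h₀)
  have o : (fun x => H x (t x) - 2 * Real.log ‖t x‖) =o[l] fun x => 1 + |Real.log ‖t x‖| :=
    Asymptotics.IsLittleO.of_bound fun c hc => by
      filter_upwards [a, h.ht δ hδ c hc, ht.eventually (ball_mem_nhds t₀ hδ),
        ht.eventually_ne h₀] with x e1 e2 e3 e4
      rw [Real.norm_eq_abs, Real.norm_of_nonneg (by positivity)]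
      exact e2 _ (e1 _ e3) e4
  have := ((Asymptotics.isLittleO_one_iff ℝ).1
    (o.trans_isBigO ((l1.abs.const_add 1).isBigO_one ℝ))).add (l1.const_mul 2)
  simpa using this

theorem SLim.H_inf (h : SLim l W D₀ X H) (ht : Tendsto (fun x => ‖t x‖) l atTop) :
    Tendsto (fun x => H x (t x)) l atTop := by
  obtain ⟨R, a⟩ := h.toWLim.WL3_far
  refine tendsto_atTop_mono' l ?_
    (tendsto_atTop_add_const_right l (-1) (Real.tendsto_log_atTop.comp ht))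
  filter_upwards [a, h.ht 1 one_pos 1 one_pos, ht.eventually_ge_atTop R,
    ht.eventually_ge_atTop 1] with x e1 e2 e3 e4
  have := (abs_le.1 (e2 _ (e1 _ e3) (norm_pos_iff.1 (one_pos.trans_le e4)))).1
  rw [abs_of_nonneg (Real.log_nonneg e4)] at this
  simp only [Function.comp]
  linarith

theorem SLim.at_a (h : SLim l W D₀ X H) {i : ℕ} (hi : i < D₀.p) (ht : Tendsto t l (𝓝 (D₀.a i)))
    (hq : ∀ᶠ x in l, t x ∈ (W x).Q) : Tendsto (fun x => X x (t x)) l (𝓝 0) := by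
  obtain ⟨m, hm, M, hs⟩ := h.D.sing_a hi
  have hx := Dat.DatC_re (h.D.a i hi)
  obtain ⟨h₁, h₂⟩ := h.toWLim.WL3_pos (h.D.ok₀.a_pos i hi).le
  obtain ⟨δ, hδ, e⟩ := h.WL3_loc hx h₁ h₂ (Or.inl rfl) hm hs
  have l1 := (((ht.sub hx).norm.rpow_const (p := 1 / 2) (Or.inr (by norm_num))).const_mul (3 * M))
  rw [sub_self, norm_zero, Real.zero_rpow (by norm_num), mul_zero] at l1
  refine squeeze_zero_norm' ?_ l1
  filter_upwards [e, hq, WL3_HA (W := W) hx ht hδ, h.ok, h.sol, h.D.ok] with x e1 e2 e3 e4 e5 e6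
  by_cases c : t x = (W x).D.a i
  · rw [e5.toSolX.X_a e4 ⟨i, e6.2.1 ▸ hi, c⟩, c, sub_self, norm_zero,
      Real.zero_rpow (by norm_num), mul_zero]
  · exact (e1.1 _ (e3 e2 c)).2

theorem SLim.at_b (h : SLim l W D₀ X H) {j : ℕ} (h2 : 2 ≤ j) (hj : j < D₀.q)
    (ht : Tendsto t l (𝓝 (-D₀.b j))) (hq : ∀ᶠ x in l, t x ∈ (W x).Q) :
    Tendsto (fun x => ‖X x (t x)‖) l atTop := by
  obtain ⟨m, hm, M, hs⟩ := h.D.sing_b hj
  obtain ⟨hx, hn⟩ := h.toWLim.WL3_b hj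
  have b0 := h.D.ok₀.b_pos 0 (by omega)
  have b1 := h.D.ok₀.b_pos 1 (by omega)
  have g0 := h.D.ok₀.b_gap 0 j (by omega) hj
  have g1 := h.D.ok₀.b_gap 1 j (by omega) hj
  obtain ⟨δ, hδ, e⟩ := h.WL3_loc hx
    (by rw [← ofReal_neg, ← ofReal_add, ofReal_ne_zero]; linarith)
    (by rw [← ofReal_neg, ← ofReal_add, ofReal_ne_zero]; linarith) (Or.inr rfl) hm hs
  have hH : ∀ᶠ x in l, t x - (-(W x).D.b j : ℝ) ∈ HA 0 δ := by
    filter_upwards [hq, hn, WL3_HA (W := W) hx ht hδ] with x e1 e2 e3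
    exact e3 e1 fun c => e2 (c ▸ e1)
  have l1 := (ht.sub hx).norm
  rw [sub_self, norm_zero] at l1
  have l2 := (tendsto_rpow_neg_nhdsGT_zero (y := -1 / 2) (by norm_num)).comp
    (tendsto_nhdsWithin_iff.2 ⟨l1, hH.mono fun x hx => hx.2.1⟩)
  refine tendsto_atTop_mono' l ?_ (l2.const_mul_atTop hm)
  filter_upwards [e, hH] with x e1 e2
  exact (e1.1 _ e2).1

theorem SLim.at_0 (h : SLim l W D₀ X H) (ht : Tendsto t l (𝓝 0)) (hq : ∀ᶠ x in l, t x ∈ (W x).Q) :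
    Tendsto (fun x => H x (t x)) l atBot ∧
      ∃ K, ∀ᶠ x in l, H x (t x) ≤ K - 2 * Real.log ‖X x (t x)‖ := by
  obtain ⟨m, hm, M, hs⟩ := h.D.sing_0
  have hx : Tendsto (fun _ : α => ((0 : ℝ) : ℂ)) l (𝓝 0) := tendsto_const_nhds
  obtain ⟨h₁, h₂⟩ := h.toWLim.WL3_pos le_rfl
  rw [ofReal_zero] at h₁ h₂
  obtain ⟨δ, hδ, e⟩ := h.WL3_loc hx h₁ h₂ (Or.inr rfl) hm hs
  obtain ⟨δ₁, p1, a⟩ := h.toWLim.away h₁ h₂
  have hn : ∀ᶠ x in l, t x ≠ 0 := hq.mono fun x hx c => hx.1.2 (Or.inl c)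
  have l1 := ht.norm
  rw [norm_zero] at l1
  have b : ∀ᶠ x in l, H x (t x) ≤ Real.log ‖t x‖ + 1 := by
    filter_upwards [a, h.ht δ₁ p1 1 one_pos, ht.eventually (ball_mem_nhds 0 p1), hn,
      l1.eventually_le_const one_pos] with x e1 e2 e3 e4 e5
    have := (abs_le.1 (e2 _ (e1 _ e3) e4)).2
    rw [abs_of_nonpos (Real.log_nonpos (norm_nonneg _) e5)] at this
    linarith
  refine ⟨tendsto_atBot_mono' l b (tendsto_atBot_add_const_right l 1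
    (Real.tendsto_log_nhdsGT_zero.comp (tendsto_nhdsWithin_iff.2
      ⟨l1, hn.mono fun x hx => norm_pos_iff.2 hx⟩))), 1 + 2 * Real.log (3 * M), ?_⟩
  filter_upwards [e, hq, hn, b, WL3_HA (W := W) hx ht hδ] with x e1 e2 e3 e4 e5
  obtain ⟨r1, r2⟩ := e1.1 _ (e5 e2 (by simpa using e3))
  rw [ofReal_zero, sub_zero] at r1 r2
  have p0 := norm_pos_iff.2 e3
  have p2 := Real.rpow_pos_of_pos p0 (-1 / 2)
  have p3 := (mul_pos hm p2).trans_le r1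
  have p4 : 0 < 3 * M := (mul_pos_iff_of_pos_right p2).1 (p3.trans_le r2)
  have := Real.log_le_log p3 r2
  rw [Real.log_mul p4.ne' p2.ne', Real.log_rpow p0] at this
  linarith

theorem SLim.inj_fin (h : SLim l W D₀ X H) {t₀ : ℂ} (h₁ : t₀ + D₀.b 0 ≠ 0) (h₂ : t₀ + D₀.b 1 ≠ 0)
    (ht : Tendsto t l (𝓝 t₀)) (ht' : Tendsto t' l (𝓝 t₀))
    (hq : ∀ᶠ x in l, t x ∈ (W x).Q ∧ t' x ∈ (W x).Q ∧ X x (t x) = X x (t' x) ∧
      H x (t x) = H x (t' x)) : ∀ᶠ x in l, t x = t' x := by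
  rcases l.eq_or_neBot with rfl | hl
  · exact eventually_bot
  have hi : 0 ≤ t₀.im :=
    ge_of_tendsto ((continuous_im.tendsto t₀).comp ht) (hq.mono fun x hx => hx.1.1.1)
  by_cases hP : D₀.P t₀ = 0
  · rcases Dat.P_eq_zero.1 hP with (rfl | ⟨j, hj, rfl⟩) | ⟨i, hi', rfl⟩
    · exact h.WL3_inj (x₀ := fun _ => 0) tendsto_const_nhds h₁ h₂ (Or.inr rfl) h.D.sing_0
        (Eventually.of_forall fun x hx => absurd (Or.inl ofReal_zero) hx.1.2) ht ht' hq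
    · obtain ⟨hx, hn⟩ := h.toWLim.WL3_b hj
      exact h.WL3_inj hx h₁ h₂ (Or.inr rfl) (h.D.sing_b hj)
        (hn.mono fun x hx c => absurd c hx) ht ht' hq
    · refine h.WL3_inj (Dat.DatC_re (h.D.a i hi')) h₁ h₂ (Or.inl rfl) (h.D.sing_a hi') ?_ ht ht' hq
      filter_upwards [h.ok, h.sol, h.D.ok] with x e4 e5 e6 _
      exact e5.toSolX.X_a e4 ⟨i, e6.2.1 ▸ hi', rfl⟩
  have t0 : t₀ ≠ 0 := fun c => hP (Dat.P_eq_zero.2 (Or.inl (Or.inl c)))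
  have g0 : D₀.G t₀ ≠ 0 := exp_ne_zero _
  have a0 : D₀.F1 t₀ ≠ 0 := div_ne_zero g0 t0
  have p : 0 < ‖D₀.F1 t₀‖ / 4 := by have := norm_pos_iff.2 a0; positivity
  have key := ev_compact (l := l) (isCompact_Icc (a := (0 : ℝ)) (b := 1))
    (p := fun x s => ∀ u, u = t x + s * (t' x - t x) → u ∈ (W x).Qr ∧
      ‖(W x).F1 u - D₀.F1 t₀‖ ≤ ‖D₀.F1 t₀‖ / 4 ∧ ‖(W x).F2 u - D₀.F2 t₀‖ ≤ ‖D₀.F1 t₀‖ / 4 ∧
      ‖(W x).F3 u - t₀⁻¹‖ ≤ ‖D₀.F1 t₀‖ / 4) fun y _ => by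
    have f1 : Tendsto (fun z : α × ℝ => t z.1) (l ×ˢ 𝓝[Icc 0 1] y) (𝓝 t₀) := ht.comp tendsto_fst
    have f2 : Tendsto (fun z : α × ℝ => t' z.1) (l ×ˢ 𝓝[Icc 0 1] y) (𝓝 t₀) := ht'.comp tendsto_fst
    have f3 : Tendsto (fun z : α × ℝ => (z.2 : ℂ)) (l ×ˢ 𝓝[Icc 0 1] y) (𝓝 y) :=
      Dat.DatC_re (tendsto_snd.mono_right nhdsWithin_le_nhds)
    have f4 := f1.add (f3.mul (f2.sub f1))
    rw [sub_self, mul_zero, add_zero] at f4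
    obtain ⟨r0, r1, r2, r3⟩ := (h.toWLim.comp (l' := l ×ˢ 𝓝[Icc 0 1] y) tendsto_fst).F f4 (by
      filter_upwards [tendsto_fst.eventually hq, tendsto_snd.eventually self_mem_nhdsWithin] with
        z e1 e2
      have i1 : 0 ≤ (t z.1).im := e1.1.1.1
      have i2 : 0 ≤ (t' z.1).im := e1.2.1.1.1
      simp only [add_im, mul_im, ofReal_re, ofReal_im, zero_mul, add_zero, sub_im]
      nlinarith [mul_nonneg e2.1 i2, mul_nonneg (sub_nonneg.2 e2.2) i1]) hi hP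
    filter_upwards [r0, (tendsto_iff_norm_sub_tendsto_zero.1 r1).eventually_le_const p,
      (tendsto_iff_norm_sub_tendsto_zero.1 r2).eventually_le_const p,
      (tendsto_iff_norm_sub_tendsto_zero.1 r3).eventually_le_const p] with z e0 e1 e2 e3
    rintro u rfl
    exact ⟨e0, e1, e2, e3⟩
  filter_upwards [key, hq, h.ok, h.sol] with x e1 e2 e3 e4
  refine seg_inj3 (e4.toPre.pathP e3) (f₃ := (W x).F3) (a₂ := D₀.F2 t₀) (a₃ := t₀⁻¹) ?_ a0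
    (fun s hs u hu => ?_) e2.2.2.1 e2.2.2.2
  · simp only [Dat.F1, Dat.F2]
    field_simp
  · obtain ⟨r0, r⟩ := e1 s hs u hu
    exact ⟨r0, e4.derH u r0.2.2 fun c => r0.2.1 (Dat.P_eq_zero.2 (Or.inl c)), r⟩

theorem SLim.inj_inf (h : SLim l W D₀ X H) (ht : Tendsto (fun x => ‖t x‖) l atTop)
    (ht' : Tendsto (fun x => ‖t' x‖) l atTop)
    (hq : ∀ᶠ x in l, t x ∈ (W x).Q ∧ t' x ∈ (W x).Q ∧ X x (t x) = X x (t' x)) :
    ∀ᶠ x in l, t x = t' x := by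
  obtain ⟨m, hm, M, hs⟩ := h.D.sing_inf
  obtain ⟨R₀, a⟩ := h.toWLim.WL3_far
  obtain ⟨R, s1, r0, r1⟩ := ((hs (1 / 10000) (by norm_num)).and
    ((eventually_ge_atTop R₀).and (eventually_ge_atTop 0))).exists
  filter_upwards [a, s1, h.ok, h.sol, h.near 1 one_pos (1 / 10000) (by norm_num), hq,
    ht.eventually_gt_atTop (2 * R), ht'.eventually_gt_atTop (2 * R)] with
    x e1 e2 e3 e4 e5 e6 e7 e8
  refine (e4.toSolX.sing e3 (e2 (‖t x‖ + ‖t' x‖ + 1)) (Or.inl rfl) r1 hm le_rfl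
    fun τ hτ => ?_).2 _ ⟨e6.1.1.1, e7, by linarith [norm_nonneg (t' x)]⟩ _
      ⟨e6.2.1.1.1, e8, by linarith [norm_nonneg (t x)]⟩ (by simpa using e6.2.2)
  rw [ofReal_zero, zero_add]
  obtain ⟨f1, f2⟩ := e5 _ (e1 _ (r0.trans hτ.2.1.le))
  exact ⟨e3.pl.fd_sub f1, f2⟩

end Pool.Agent.MP_92463a_gt

end
end

section

open Set Complex Filter Metric
open scoped Topology ComplexConjugate ContDiff Manifold

noncomputable section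

namespace Pool.Agent.MP_92463a_gt

section

variable {ι : Type} [Fintype ι] {W : Wd ι} {X : ℂ → ℂ} {H : ℂ → ℝ} {t u w : ℂ}

omit [Fintype ι] in
theorem WL4_symm (h : W.toPl.Ok) (hs : W.Same t u) : W.Same u t := by
  rcases hs with rfl | ⟨e, v, hv, rfl, rfl⟩
  · exact .inl rfl
  · exact .inr ⟨op e, _, h.ann_op hv, rfl, by rw [op_op, op_fst, div_div_cancel₀ (h.s_ne _)]⟩

omit [Fintype ι] in
theorem WL4_trans (h : W.toPl.Ok) (h₁ : W.Same t u) (h₂ : W.Same u w) : W.Same t w := by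
  rcases h₁ with rfl | ⟨e, v, hv, rfl, rfl⟩
  · exact h₂
  rcases h₂ with rfl | ⟨e', v', hv', e1, rfl⟩
  · exact .inr ⟨e, v, hv, rfl, rfl⟩
  obtain rfl : op e = e' := h.port_eq (t := W.c (op e) + W.s e.1 / v)
    (by rw [add_sub_cancel_left]; exact (h.ann_sub _ (h.ann_op hv)).2)
    (by rw [e1, add_sub_cancel_left]; exact (h.ann_sub _ hv').2)
  rw [← add_left_cancel e1, op_op, op_fst, div_div_cancel₀ (h.s_ne _)]
  exact .inl rfl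

theorem WL4_rep (h : W.Ok1) (hX : W.Sol X H) (ht : t ∈ W.Q) :
    ∃ u, (u ∈ W.Q ∧ u ∈ W.Fd) ∧ W.Same t u ∧ X t = X u ∧ H t = H u := by
  rcases h.pl.cover ht.2 with hf | ⟨e, v, hv, rfl, -, -, hf⟩
  · exact ⟨t, ⟨ht, hf⟩, .inl rfl, rfl, rfl⟩
  · exact ⟨_, ⟨⟨⟨(h.toOk0.partner hv).1 ht.1.1, fun hE => h.free _ _ (mem_ball_zero_iff.2
      (h.pl.ann_sub _ (h.pl.ann_op hv)).2) (Dat.P_eq_zero.2 (.inl hE))⟩, h.pl.fd_sub hf⟩, hf⟩,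
      .inr ⟨e, v, hv, rfl, rfl⟩, hX.glueX e v hv
        (h.toOk0.im_nonneg (h.pl.ann_sub _ hv).2 ht.1.1) ht.1.1, hX.glueH e v hv⟩

end

variable {α ι : Type} [Fintype ι] {l : Filter α} {W : α → Wd ι} {D₀ : Dat} {X : α → ℂ → ℂ}
  {H : α → ℂ → ℝ} {t t' : α → ℂ} {t₀ t₁ : ℂ}

theorem WL4_ultra (U : Ultrafilter α) (t : α → ℂ) :
    Tendsto (fun x => ‖t x‖) U atTop ∨ ∃ t₀, Tendsto t U (𝓝 t₀) := by
  refine or_iff_not_imp_left.2 fun h => ?_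
  obtain ⟨R, hR⟩ := not_forall.1 (mt Filter.tendsto_atTop.2 h)
  obtain ⟨t₀, -, h₀⟩ := (isCompact_closedBall (0 : ℂ) R).ultrafilter_le_nhds (U.map t)
    (le_principal_iff.2 ((Ultrafilter.eventually_not.2 hR).mono fun x hx =>
      mem_closedBall_zero_iff.2 (not_le.1 hx).le))
  exact ⟨t₀, h₀⟩

theorem WL4_types {U : Ultrafilter α} (h : SLim U W D₀ X H)
    (hq : ∀ᶠ x in U, t x ∈ (W x).Q ∧ t x ∈ (W x).Fd) :
    (∀ δ > 0, ∀ᶠ x in U, (W x).OnS δ (t x)) ∨ Tendsto (fun x => ‖t x‖) U atTop ∨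
      ∃ t₀, Tendsto t U (𝓝 t₀) ∧ t₀ + D₀.b 0 ≠ 0 ∧ t₀ + D₀.b 1 ≠ 0 := by
  rcases WL4_ultra U t with hi | ⟨t₀, h₀⟩
  · exact .inr (.inl hi)
  have a : ∀ j < 2, t₀ + D₀.b j = 0 → ∀ δ > 0, ∀ᶠ x in U, ‖t x + (W x).D.b j‖ < δ :=
    fun j hj e δ hδ => by
      have := (h₀.add (h.D.b j (hj.trans_le h.q)).ofReal).norm
      rw [e, norm_zero] at this
      exact this.eventually (gt_mem_nhds hδ)
  by_cases e0 : t₀ + D₀.b 0 = 0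
  · exact .inl fun δ hδ => (hq.and (a 0 two_pos e0 δ hδ)).mono fun x hx =>
      ⟨hx.1.1, hx.1.2, .inl hx.2⟩
  by_cases e1 : t₀ + D₀.b 1 = 0
  · exact .inl fun δ hδ => (hq.and (a 1 one_lt_two e1 δ hδ)).mono fun x hx =>
      ⟨hx.1.1, hx.1.2, .inr hx.2⟩
  exact .inr (.inr ⟨t₀, h₀, e0, e1⟩)

theorem WL4_fin [l.NeBot] (h : SLim l W D₀ X H) {X₀ : ℂ → ℂ} (hX : D₀.Sol X₀)
    (hc : ∀ (t : α → ℂ) (t₀ : ℂ), Tendsto t l (𝓝 t₀) → (∀ᶠ x in l, 0 ≤ (t x).im) →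
      D₀.P t₀ ≠ 0 → Tendsto (fun x => X x (t x)) l (𝓝 (X₀ t₀)))
    (hq : ∀ᶠ x in l, t x ∈ (W x).Q) (ht : Tendsto t l (𝓝 t₀)) (h₀ : t₀ ≠ 0)
    (h₁ : t₀ + D₀.b 0 ≠ 0) (h₂ : t₀ + D₀.b 1 ≠ 0) :
    (t₀ ∈ D₀.Q ∧ Tendsto (fun x => X x (t x)) l (𝓝 (X₀ t₀))) ∨
      ∃ j, 2 ≤ j ∧ j < D₀.q ∧ t₀ = -D₀.b j ∧ Tendsto (fun x => ‖X x (t x)‖) l atTop := by
  have hi : ∀ᶠ x in l, 0 ≤ (t x).im := hq.mono fun x hx => hx.1.1
  by_cases hE : D₀.IsE t₀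
  · rcases hE with e | ⟨j, hj, rfl⟩
    · exact absurd e h₀
    have : 2 ≤ j := by
      by_contra hc
      interval_cases j <;> simp at h₁ h₂
    exact .inr ⟨j, this, hj, rfl, h.at_b this hj ht hq⟩
  refine .inl ⟨⟨ge_of_tendsto ((continuous_im.tendsto _).comp ht) hi, hE⟩, ?_⟩
  by_cases hP : D₀.P t₀ = 0
  · have ha := (Dat.P_eq_zero.1 hP).resolve_left hE
    rw [hX.X_a h.D.ok₀ ha]
    obtain ⟨i, hi, rfl⟩ := ha
    exact h.at_a hi ht hq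
  · exact hc t t₀ ht hi hP

theorem WL4_main {U : Ultrafilter α} (h : SLim U W D₀ X H)
    (s₁ : ∀ M : ℝ, ∃ δ > 0, ∀ᶠ x in U, ∀ t, (W x).OnS δ t → M ≤ ‖X x t‖)
    (s₂ : ∃ δ > 0, ∃ K : ℝ, ∀ᶠ x in U, ∀ t, (W x).OnS δ t →
      -K - Real.log ‖X x t‖ ≤ H x t ∧ H x t ≤ 2 * Real.log (D₀.b 1) + 1)
    (s₃ : ∃ δ > 0, ∀ᶠ x in U, ∀ t t', (W x).OnS δ t → (W x).OnS δ t' → X x t = X x t' →
      H x t = H x t' → (W x).Same t t')
    (hq : ∀ᶠ x in U, t x ∈ (W x).Q ∧ t x ∈ (W x).Fd)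
    (hq' : ∀ᶠ x in U, t' x ∈ (W x).Q ∧ t' x ∈ (W x).Fd)
    (eX : (fun x => X x (t x)) =ᶠ[U] fun x => X x (t' x))
    (eH : (fun x => H x (t x)) =ᶠ[U] fun x => H x (t' x)) :
    ∀ᶠ x in U, (W x).Same (t x) (t' x) := by
  obtain ⟨X₀, hX, hc⟩ := h.core
  obtain ⟨δ₂, h₂, K, s₂⟩ := s₂
  have hb := h.D.ok₀.b_pos
  have SI : ∀ {t t' : α → ℂ}, (∀ᶠ x in U, t' x ∈ (W x).Q) →
      ((fun x => X x (t x)) =ᶠ[U] fun x => X x (t' x)) →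
      ((fun x => H x (t x)) =ᶠ[U] fun x => H x (t' x)) →
      (∀ δ > 0, ∀ᶠ x in U, (W x).OnS δ (t x)) → ¬ (Tendsto (fun x => ‖t' x‖) U atTop ∨
        ∃ t₀, Tendsto t' U (𝓝 t₀) ∧ t₀ + D₀.b 0 ≠ 0 ∧ t₀ + D₀.b 1 ≠ 0) := by
    intro t t' hq eX eH hS
    have a : Tendsto (fun x => ‖X x (t' x)‖) U atTop := Filter.tendsto_atTop.2 fun M => by
      obtain ⟨δ, hδ, hM⟩ := s₁ M
      filter_upwards [hM, hS δ hδ, eX] with x h1 h2 h3 using h3 ▸ h1 _ h2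
    have b : ∀ᶠ x in U, -K - Real.log ‖X x (t' x)‖ ≤ H x (t' x) ∧
        H x (t' x) ≤ 2 * Real.log (D₀.b 1) + 1 := by
      filter_upwards [s₂, hS δ₂ h₂, eX, eH] with x h1 h2 h3 h4 using h3 ▸ h4 ▸ h1 _ h2
    rintro (hi | ⟨t₀, ht, e0, e1⟩)
    · obtain ⟨x, h1, h2⟩ := (b.and ((h.H_inf hi).eventually (eventually_gt_atTop _))).exists
      exact h1.2.not_gt h2
    by_cases h0 : t₀ = 0
    · obtain ⟨K', c⟩ := (h.at_0 (h0 ▸ ht) hq).2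
      obtain ⟨x, h1, h2, h3⟩ := (b.and (c.and ((Real.tendsto_log_atTop.comp a).eventually
        (eventually_gt_atTop (K + K'))))).exists
      simp only [Function.comp] at h3
      linarith [h1.1]
    rcases WL4_fin h hX hc hq ht h0 e0 e1 with ⟨-, c⟩ | ⟨j, hj, hj', rfl, -⟩
    · exact not_tendsto_atTop_of_tendsto_nhds c.norm a
    have c := le_of_tendsto (h.H_fin ht h0 e0 e1) (b.mono fun x hx => hx.2)
    have b1 := hb 1 (by omega)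
    have d := Real.log_le_log (by positivity) (h.D.ok₀.b_gap 1 j hj hj').le
    have e := Real.one_sub_inv_le_log_of_pos (x := 5) (by norm_num)
    rw [Real.log_mul (by norm_num) b1.ne'] at d
    rw [norm_neg, norm_real, Real.norm_of_nonneg (hb j hj').le] at c
    norm_num at e
    linarith
  have IF : ∀ {t t' : α → ℂ} {t₀ : ℂ}, (∀ᶠ x in U, t' x ∈ (W x).Q) →
      ((fun x => H x (t x)) =ᶠ[U] fun x => H x (t' x)) → Tendsto (fun x => ‖t x‖) U atTop →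
      Tendsto t' U (𝓝 t₀) → t₀ + D₀.b 0 ≠ 0 → t₀ + D₀.b 1 = 0 := by
    intro t t' t₀ hq eH hi ht e0
    by_contra e1
    have a := (h.H_inf hi).congr' eH
    by_cases h0 : t₀ = 0
    · exact (h.at_0 (h0 ▸ ht) hq).1.not_tendsto disjoint_atBot_atTop a
    · exact not_tendsto_atTop_of_tendsto_nhds (h.H_fin ht h0 e0 e1) a
  have ZF : ∀ {t t' : α → ℂ} {t₀ : ℂ}, (∀ᶠ x in U, t x ∈ (W x).Q) →
      ((fun x => H x (t x)) =ᶠ[U] fun x => H x (t' x)) → Tendsto t U (𝓝 0) →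
      Tendsto t' U (𝓝 t₀) → t₀ + D₀.b 0 ≠ 0 → t₀ + D₀.b 1 ≠ 0 → t₀ = 0 := by
    intro t t' t₀ hq eH ht ht' e0 e1
    by_contra h0
    exact not_tendsto_atBot_of_tendsto_nhds (h.H_fin ht' h0 e0 e1) ((h.at_0 ht hq).1.congr' eH)
  have q := hq.mono fun x hx => hx.1
  have q' := hq'.mono fun x hx => hx.1
  rcases WL4_types h hq with a | a
  · rcases WL4_types h hq' with a' | a'
    · obtain ⟨δ, hδ, s₃⟩ := s₃
      filter_upwards [s₃, a δ hδ, a' δ hδ, eX, eH] with x h1 h2 h3 h4 h5 using h1 _ _ h2 h3 h4 h5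
    · exact absurd a' (SI q' eX eH a)
  rcases WL4_types h hq' with a' | a'
  · exact absurd a (SI q eX.symm eH.symm a')
  refine Eventually.mono ?_ fun x hx => .inl hx
  rcases a with a | ⟨t₀, a, e0, e1⟩ <;> rcases a' with a' | ⟨t₁, a', e0', e1'⟩
  · exact h.inj_inf a a' (q.and (q'.and eX))
  · exact absurd (IF q' eH a a' e0') e1'
  · exact absurd (IF q eH.symm a' a e0) e1
  obtain rfl : t₀ = t₁ := by
    by_cases h0 : t₀ = 0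
    · rw [h0, ZF q eH (h0 ▸ a) a' e0' e1']
    have h1 : t₁ ≠ 0 := fun h1 => h0 (ZF q' eH.symm (h1 ▸ a') a e0 e1)
    have hn : ‖t₀‖ = ‖t₁‖ := Real.log_injOn_pos (norm_pos_iff.2 h0) (norm_pos_iff.2 h1)
      (mul_left_cancel₀ two_ne_zero
        (tendsto_nhds_unique ((h.H_fin a h0 e0 e1).congr' eH) (h.H_fin a' h1 e0' e1')))
    have eN := eX.fun_comp norm
    rcases WL4_fin h hX hc q a h0 e0 e1 with ⟨b, c⟩ | ⟨j, -, hj, rfl, c⟩ <;>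
      rcases WL4_fin h hX hc q' a' h1 e0' e1' with ⟨b', c'⟩ | ⟨j', -, hj', rfl, c'⟩
    · exact hX.inj_Q h.D.ok₀ b b' (tendsto_nhds_unique (c.congr' eX) c') hn
    · exact absurd (c'.congr' eN.symm) (not_tendsto_atTop_of_tendsto_nhds c.norm)
    · exact absurd (c.congr' eN) (not_tendsto_atTop_of_tendsto_nhds c'.norm)
    · simp only [norm_neg, norm_real, Real.norm_of_nonneg (hb _ hj).le,
        Real.norm_of_nonneg (hb _ hj').le] at hn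
      rw [hn]
  exact h.inj_fin e0 e1 a a' (q.and (q'.and (eX.and eH)))

theorem SLim.qinj {α ι : Type} [Fintype ι] {l : Filter α} {W : α → Wd ι} {D₀ : Dat}
    {X : α → ℂ → ℂ} {H : α → ℂ → ℝ} (h : SLim l W D₀ X H)
    (s₁ : ∀ M : ℝ, ∃ δ > 0, ∀ᶠ x in l, ∀ t, (W x).OnS δ t → M ≤ ‖X x t‖)
    (s₂ : ∃ δ > 0, ∃ K : ℝ, ∀ᶠ x in l, ∀ t, (W x).OnS δ t →
      -K - Real.log ‖X x t‖ ≤ H x t ∧ H x t ≤ 2 * Real.log (D₀.b 1) + 1)
    (s₃ : ∃ δ > 0, ∀ᶠ x in l, ∀ t t', (W x).OnS δ t → (W x).OnS δ t' → X x t = X x t' →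
      H x t = H x t' → (W x).Same t t') :
    ∀ᶠ x in l, (W x).QInj (X x) (H x) := by
  by_contra hn
  have := frequently_iff_neBot.1 ((not_eventually.1 hn).and_eventually (h.ok.and h.sol))
  set U := Ultrafilter.of (l ⊓ 𝓟 {x | ¬ (W x).QInj (X x) (H x) ∧ (W x).Ok1 ∧ (W x).Sol (X x) (H x)})
  obtain ⟨hl, hU⟩ := le_inf_iff.1 (Ultrafilter.of_le
    (l ⊓ 𝓟 {x | ¬ (W x).QInj (X x) (H x) ∧ (W x).Ok1 ∧ (W x).Sol (X x) (H x)}))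
  obtain ⟨p, hp⟩ := Eventually.choice (l := U) (r := fun x (p : ℂ × ℂ) =>
      (p.1 ∈ (W x).Q ∧ p.1 ∈ (W x).Fd) ∧ (p.2 ∈ (W x).Q ∧ p.2 ∈ (W x).Fd) ∧ X x p.1 = X x p.2 ∧
        H x p.1 = H x p.2 ∧ ¬ (W x).Same p.1 p.2) (by
    filter_upwards [le_principal_iff.1 hU] with x ⟨h1, h2, h3⟩
    by_contra hc
    refine h1 fun t ht t' ht' eX eH => ?_
    obtain ⟨u, a1, a2, a3, a4⟩ := WL4_rep h2 h3 ht
    obtain ⟨u', b1, b2, b3, b4⟩ := WL4_rep h2 h3 ht'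
    refine WL4_trans h2.pl a2 (WL4_trans h2.pl (by_contra fun hs => hc ⟨(u, u'), a1, b1,
      a3.symm.trans (eX.trans b3), a4.symm.trans (eH.trans b4), hs⟩) (WL4_symm h2.pl b2)))
  obtain ⟨x, h1, h2⟩ := (hp.and (WL4_main (t := fun x => (p x).1) (t' := fun x => (p x).2)
    (h.mono hl) (fun M => (s₁ M).imp fun _ h => ⟨h.1, hl h.2⟩)
    (s₂.imp fun _ h => ⟨h.1, h.2.imp fun _ h => hl h⟩) (s₃.imp fun _ h => ⟨h.1, hl h.2⟩)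
    (hp.mono fun _ h => h.1) (hp.mono fun _ h => h.2.1) (hp.mono fun _ h => h.2.2.1)
    (hp.mono fun _ h => h.2.2.2.1))).exists
  exact h1.2.2.2.2 h2

end Pool.Agent.MP_92463a_gt

end
end
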