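import Pool.Agent.Mg.F92463a.Gbd667f
import Pool.Agent.Mg.F92463a.G2f68c1
import Pool.Agent.Mg.F92463a.G2abf78

section

open Set Complex Filter Metric
open scoped Topology ComplexConjugate ContDiff Manifold

noncomputable section

namespace Pool.Agent.MP_92463a_gt

theorem hdF0_log {x x' : ℚ} {a a' : ℕ} {ξ : ℝ} (h0 : 0 < x) (ha : a ≤ a')
    (h1 : x ≤ x' * (1 + ((a' - a : ℕ) : ℚ) / 2 ^ 40))
    (h2 : x' ≤ x * (1 + ((a' - a : ℕ) : ℚ) / 2 ^ 40)) (hξ : |ξ| ≤ a / 2 ^ 40) :
    0 < x' ∧ |ξ + Real.log (x / x')| ≤ a' / 2 ^ 40 ∧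
      x' * Real.exp (ξ + Real.log (x / x')) = x * Real.exp ξ := by
  have p : 0 < x' := (mul_pos_iff_of_pos_right (by positivity)).1 (h0.trans_le h1)
  have h0' : (0 : ℝ) < x := by exact_mod_cast h0
  have p' : (0 : ℝ) < x' := by exact_mod_cast p
  rw [Nat.cast_sub ha] at h1 h2
  have h1' := (Rat.cast_le (K := ℝ)).2 h1
  have h2' := (Rat.cast_le (K := ℝ)).2 h2
  push_cast at h1' h2'
  have l1 := Real.log_le_sub_one_of_pos (div_pos h0' p')
  have l2 := Real.log_le_sub_one_of_pos (div_pos p' h0')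
  rw [← div_le_iff₀' p'] at h1'
  rw [← div_le_iff₀' h0'] at h2'
  rw [← inv_div, Real.log_inv, inv_div] at l2
  refine ⟨p, ?_, ?_⟩
  · rw [abs_le] at hξ ⊢
    constructor <;> linarith [hξ.1, hξ.2]
  · rw [Real.exp_add, Real.exp_log (div_pos h0' p')]
    field_simp

theorem hdF0_exp {t : ℝ} {a : ℕ} (ht : |t| ≤ a / 2 ^ 40) (ha : a ≤ 2 ^ 33) :
    Real.exp t ≤ 1.008 := by
  have h1 : (a : ℝ) ≤ 2 ^ 33 := by exact_mod_cast ha
  have h2 : |t| ≤ 1 / 128 := by linarith
  have h3 := (abs_le.1 (Real.abs_exp_sub_one_sub_id_le (x := t) (by linarith))).2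
  have h4 := pow_le_pow_left₀ (abs_nonneg t) h2 2
  rw [sq_abs] at h4
  linarith [le_abs_self t]

theorem hdF0_bd {d : DC} (h : d.Ok) (hs : d.b.small = true) :
    (0 : ℝ) < d.b.x ∧ (0 : ℝ) < d.b.y ∧ d.cell.x ≤ d.b.x * 1.008 ∧ d.b.x ≤ d.cell.x * 1.008 ∧
      d.cell.y ≤ d.b.y * 1.008 := by
  obtain ⟨h1, h2, h3, h4⟩ := of_decide_eq_true hs
  have h1' : (0 : ℝ) < d.b.x := by exact_mod_cast h1
  have h2' : (0 : ℝ) < d.b.y := by exact_mod_cast h2
  refine ⟨h1', h2', mul_le_mul_of_nonneg_left (hdF0_exp h.2.2.1 h3) h1'.le, ?_,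
    mul_le_mul_of_nonneg_left (hdF0_exp h.2.2.2 h4) h2'.le⟩
  have h5 := mul_le_mul_of_nonneg_left (hdF0_exp (t := -d.ξ) (by rw [abs_neg]; exact h.2.2.1) h3)
    (mul_pos h1' (Real.exp_pos d.ξ)).le
  rwa [mul_assoc, ← Real.exp_add, add_neg_cancel, Real.exp_zero, mul_one] at h5

/-- the bound of the last end below -/
def hdF0_g (c : ℕ → RC) : ℕ → ℝ
  | 0 => 0
  | o + 1 => if (c o).H then hdF0_g c o / (c o).x else (c o).x

theorem hdF0_small {b : CB} (h : b.small = true) : b.flip.small = true := by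
  obtain ⟨h1, h2, h3, h4⟩ := of_decide_eq_true h
  unfold CB.flip
  split_ifs
  · exact decide_eq_true ⟨h1, inv_pos.2 h2, h3, h4⟩
  · exact decide_eq_true ⟨h2, h1, h4, h3⟩

theorem hdF0_flip (c : RC) : c.flip.H = c.H := by
  unfold RC.flip
  split_ifs with h
  · exact h.symm
  · exact (eq_false_of_ne_true h).symm

theorem hdF0_adj {a b : CB} (h : a.gap1 b = true) (ha : a.H = true) (hb : b.H = true) : False := by
  simp [CB.gap1, ha, hb] at h

theorem hdF0_dev {ds : List DC} {j : ℕ} {d : DC} (h : ds[j]? = some d) (b : Bool) :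
    (devL ds).getD (2 * j + b.toNat) 0 = if b then d.ζ else d.ξ := by
  induction ds generalizing j with
  | nil => simp at h
  | cons e l ih =>
    rcases j with _ | j
    · obtain rfl : e = d := by simpa using h
      cases b <;> rfl
    · rw [show 2 * (j + 1) + b.toNat = 2 * j + b.toNat + 1 + 1 by omega]
      exact ih (by simpa using h)

theorem hdF0_hLs {l : List CB} {j : ℕ} {c : CB} (h : l[j]? = some c) (b : Bool) :
    (hLs l).getD (2 * j + b.toNat) 0 = if b then c.hy else c.hx := by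
  induction l generalizing j with
  | nil => simp at h
  | cons e l ih =>
    rcases j with _ | j
    · obtain rfl : e = c := by simpa using h
      cases b <;> rfl
    · rw [show 2 * (j + 1) + b.toNat = 2 * j + b.toNat + 1 + 1 by omega]
      exact ih (by simpa using h)

theorem gL_H (n : ℕ) (Bx : ℕ → CB) (x : Fin n × Bool → ℝ) (m : ℕ) :
    (gL n Bx x m).map RC.H = gH Bx m := by
  rw [gL, gH, List.map_map]
  rfl

theorem devL_le {ds : List DC} (h : ∀ d ∈ ds, d.Ok) :
    List.Forall₂ (fun (v : ℝ) (a : ℕ) => |v| ≤ a / 2 ^ 40) (devL ds) (hLs (ds.map DC.b)) := by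
  induction ds with
  | nil => exact List.Forall₂.nil
  | cons d l ih =>
    have hd := h d List.mem_cons_self
    exact List.Forall₂.cons hd.2.2.1 (List.Forall₂.cons hd.2.2.2
      (ih fun e he => h e (List.mem_cons_of_mem _ he)))

/-- a cell in a box is a cell in every larger box -/
theorem DC.Ok.sub {d : DC} (h : d.Ok) {b : CB} (hb : d.b.sub b = true) :
    ∃ d' : DC, d'.b = b ∧ d'.Ok ∧ d'.cell = d.cell ∧ (b = d.b → d' = d) := by
  obtain ⟨hH, h1, h2, h3, h4, h5, h6⟩ := of_decide_eq_true hb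
  obtain ⟨p1, q1, r1⟩ := hdF0_log h.1 h1 h3 h4 h.2.2.1
  obtain ⟨p2, q2, r2⟩ := hdF0_log h.2.1 h2 h5 h6 h.2.2.2
  refine ⟨⟨b, d.ξ + Real.log (d.b.x / b.x), d.ζ + Real.log (d.b.y / b.y)⟩, rfl,
    ⟨p1, p2, q1, q2⟩, ?_, ?_⟩
  · simp only [DC.cell, r1, r2, hH]
  · rintro rfl
    have e1 : (d.b.x : ℝ) ≠ 0 := by exact_mod_cast p1.ne'
    have e2 : (d.b.y : ℝ) ≠ 0 := by exact_mod_cast p2.ne'
    rw [div_self e1, div_self e2, Real.log_one, add_zero, add_zero]

namespace Cert

variable {n : ℕ} {Bx : ℕ → CB} {blk : ℕ → Blk} {off : ℕ → ℕ} (h : Cert n Bx blk off)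
  {x : Fin n × Bool → ℝ} (hx : x ∈ cube (Fin n × Bool))
include h hx

theorem dc {m : ℕ} (hm : m < n) : DC.Ok
    ⟨Bx m, (Bx m).hx / 2 ^ 40 * gx n x m false, (Bx m).hy / 2 ^ 40 * gx n x m true⟩ := by
  obtain ⟨h1, h2, -, -⟩ := of_decide_eq_true (h.box m hm)
  have key : ∀ (a : ℕ) (b : Bool), |(a : ℝ) / 2 ^ 40 * gx n x m b| ≤ (a : ℝ) / 2 ^ 40 := by
    intro a b
    rw [abs_mul, abs_of_nonneg (by positivity : (0 : ℝ) ≤ (a : ℝ) / 2 ^ 40), gx, dif_pos hm]
    exact mul_le_of_le_one_right (by positivity) (hx _)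
  exact ⟨h1, h2, key _ _, key _ _⟩

theorem ps {m : ℕ} (hm : m < n) : (gC n Bx x m).Ps := (h.dc hx hm).ps

theorem gap : Gap 0 (gL n Bx x n) := by
  have hb : ∀ m < n, (0 : ℝ) < (Bx m).x ∧ (0 : ℝ) < (Bx m).y ∧
      (gC n Bx x m).x ≤ (Bx m).x * 1.008 ∧ (Bx m).x ≤ (gC n Bx x m).x * 1.008 ∧
      (gC n Bx x m).y ≤ (Bx m).y * 1.008 := fun m hm => hdF0_bd (h.dc hx hm) (h.box m hm)
  have hc : ∀ m, (gC n Bx x m).H = (Bx m).H := fun _ => rfl
  have h1 : ∀ o < n, (Bx o).H = false →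
      5 * hdF0_g (gC n Bx x) o * (gC n Bx x o).y < 1 := by
    intro o ho hH
    rcases o with _ | o
    · simp [hdF0_g]
    have g1 := h.gap1 o ho
    obtain ⟨-, y0, -, -, y1⟩ := hb _ ho
    have y2 := (h.ps hx ho).2
    cases hH1 : (Bx o).H
    · have g2 : (52 / 10 * (Bx o).x * (Bx (o + 1)).y : ℚ) < 1 := by
        simpa [CB.gap1, hH, hH1] using g1
      have g3 := (Rat.cast_lt (K := ℝ)).2 g2
      push_cast at g3
      obtain ⟨x0, -, x1, -, -⟩ := hb o (by omega)
      rw [hdF0_g, hc, if_neg (ne_true_of_eq_false hH1)]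
      have := mul_le_mul x1 y1 y2.le (by positivity)
      have := mul_pos x0 y0
      linarith
    · rw [hdF0_g, hc, if_pos hH1]
      rcases o with _ | o
      · simp [hdF0_g]
      have hH0 : (Bx o).H = false := by
        have := h.gap1 o (by omega)
        cases hH0 : (Bx o).H
        · rfl
        · simp [CB.gap1, hH0, hH1] at this
      have g2 : (52 / 10 * (Bx o).x * (Bx (o + 2)).y : ℚ) < (Bx (o + 1)).x := by
        simpa [CB.gap2, hH1] using h.gap2 o ho
      have g3 := (Rat.cast_lt (K := ℝ)).2 g2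
      push_cast at g3
      obtain ⟨x0, -, x1, -, -⟩ := hb o (by omega)
      obtain ⟨-, -, -, x2, -⟩ := hb (o + 1) (by omega)
      rw [hdF0_g, hc, if_neg (ne_true_of_eq_false hH0), ← mul_div_assoc, div_mul_eq_mul_div,
        div_lt_one (h.ps hx (by omega : o + 1 < n)).1]
      have := mul_le_mul x1 y1 y2.le (by positivity)
      have := mul_pos x0 y0
      linarith
  have h2 : ∀ len o, o + len = n →
      Gap (hdF0_g (gC n Bx x) o) ((List.range' o len).map (gC n Bx x)) := by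
    intro len
    induction len with
    | zero => exact fun _ _ => trivial
    | succ len ih =>
      intro o ho
      have h3 := ih (o + 1) (by omega)
      rw [List.range'_succ, List.map_cons, Gap]
      rw [hdF0_g] at h3
      split_ifs at h3 ⊢ with hH
      · exact h3
      · exact ⟨h1 o (by omega) (eq_false_of_ne_true hH), h3⟩
  have h4 := h2 n 0 (Nat.zero_add n)
  rwa [← List.range_eq_range'] at h4

theorem tail_low {m : ℕ} (hm : m < n) : Tail (blk m).tl (rf (gL n Bx x (off m))) := by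
  have hf := h.fit m hm
  refine ⟨fun ht => by rw [(h.low m hm).1 ht]; rfl, good_of ?_ ?_⟩
  · intro c hc
    simp only [rf, gL, List.mem_map, List.mem_reverse, List.mem_range] at hc
    obtain ⟨_, ⟨i, hi, rfl⟩, rfl⟩ := hc
    have hi' : i < n := by omega
    have h1 := DC.far (h.dc hx hi').flip (by rw [DC.flip_b]; exact hdF0_small (h.box i hi'))
      (by rw [DC.flip_b]; exact (h.low m hm).2 i hi)
    rwa [DC.flip_cell] at h1
  · intro i hi
    simp only [rf, gL, List.length_map, List.length_reverse, List.length_range] at hi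
    simp only [rf, gL, List.getElem_map, List.getElem_reverse, List.getElem_range, List.length_map,
      List.length_range, hdF0_flip]
    rintro ⟨a, b⟩
    have h1 := h.gap1 (off m - 1 - (i + 1)) (by omega)
    rw [show off m - 1 - (i + 1) + 1 = off m - 1 - i by omega] at h1
    exact hdF0_adj h1 b a

theorem tail_up {m : ℕ} (hm : m < n) : Tail (blk m).tu
    ((List.range' (off m + (blk m).cells.length) (n - (off m + (blk m).cells.length))).map
      (gC n Bx x)) := by
  refine ⟨fun ht => by rw [(h.upp m hm).1 ht, Nat.sub_self]; rfl, good_of ?_ ?_⟩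
  · intro c hc
    simp only [List.mem_map, List.mem_range'_1] at hc
    obtain ⟨i, hi, rfl⟩ := hc
    have hi' : i < n := by omega
    exact DC.far (h.dc hx hi') (h.box i hi') ((h.upp m hm).2 i hi.1 hi')
  · intro i hi
    simp only [List.length_map, List.length_range'] at hi
    simp only [List.getElem_map, List.getElem_range', one_mul]
    rintro ⟨a, b⟩
    exact hdF0_adj (h.gap1 (off m + (blk m).cells.length + i) (by omega)) a b

theorem loc {m : ℕ} (hm : m < n) : ∃ ds : List DC, ds.map DC.b = (blk m).cells ∧ (∀ d ∈ ds, d.Ok) ∧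
    ds.map DC.cell = (List.range' (off m) (blk m).cells.length).map (gC n Bx x) ∧
    ∀ b : Bool, (devL ds).getD (2 * (m - off m) + b.toNat) 0 =
      ((hLs (blk m).cells).getD (2 * (m - off m) + b.toNat) 0 : ℕ) / 2 ^ 40 * gx n x m b := by
  have hf := h.fit m hm
  have hk : (blk m).lo + (blk m).cnt ≤ (blk m).cells.length := by
    have := (h.ok m hm).1
    simp only [Blk.chk, Bool.and_eq_true, decide_eq_true_eq] at this
    exact this.1.1.1.1.1
  have h1 := fun (j : ℕ) (hj : j < (blk m).cells.length) =>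
    (h.dc hx (m := off m + j) (by omega)).sub (h.sub m hm j hj)
  have : Nonempty DC := ⟨⟨cb0, 0, 0⟩⟩
  choose! f f1 f2 f3 f4 using h1
  have hj : m - off m < (blk m).cells.length := by omega
  refine ⟨(List.range (blk m).cells.length).map f, ?_, ?_, ?_, fun b => ?_⟩
  · refine List.ext_getElem (by simp) fun j _ hj => ?_
    simp only [List.getElem_map, List.getElem_range, f1 j hj, List.getD_eq_getElem _ _ hj]
  · intro d hd
    obtain ⟨j, hj, rfl⟩ := List.mem_map.1 hd
    exact f2 j (List.mem_range.1 hj)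
  · rw [List.range'_eq_map_range, List.map_map, List.map_map]
    exact List.map_congr_left fun j hj => f3 j (List.mem_range.1 hj)
  · have e : off m + (m - off m) = m := by omega
    have h2 := f4 _ hj (by rw [e]; exact h.inn m hm)
    rw [e] at h2
    have h3 := h.inn m hm
    rw [List.getD_eq_getElem _ _ hj] at h3
    rw [hdF0_dev (d := f (m - off m)) (by simp [hj]),
      hdF0_hLs (c := Bx m) (by rw [List.getElem?_eq_getElem hj, h3]), h2]
    cases b <;> rfl

end Cert

end Pool.Agent.MP_92463a_gt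

end
end

section

open Set Complex Filter Metric
open scoped Topology ComplexConjugate ContDiff Manifold

noncomputable section

namespace Pool.Agent.MP_92463a_gt

theorem HdF1_rf (l t : List RC) : rf (l ++ t) = rf t ++ rf l := by
  simp [rf]

theorem HdF1_rng (a r s : ℕ) : List.range' a (r + s) = List.range' a r ++ List.range' (a + r) s :=
  List.range'_append_1.symm

theorem HdF1_gL (n : ℕ) (Bx : ℕ → CB) (x : Fin n × Bool → ℝ) (a r : ℕ) :
    gL n Bx x (a + r) = gL n Bx x a ++ (List.range' a r).map (gC n Bx x) := by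
  simp only [gL, List.range_eq_range', HdF1_rng, List.map_append, zero_add]

theorem Cert.lf {n : ℕ} {Bx : ℕ → CB} {blk : ℕ → Blk} {off : ℕ → ℕ} (h : Cert n Bx blk off)
    {x : Fin n × Bool → ℝ} (hx : x ∈ cube (Fin n × Bool)) {m : ℕ} (hm : m < n) :
    ∃ K : ℝ, 0 < K ∧ ∃ dv : List ℝ,
      List.Forall₂ (fun (v : ℝ) (a : ℕ) => |v| ≤ a / 2 ^ 40) dv (hLs (blk m).cells) ∧
      (∀ b : Bool, dv.getD (2 * (m - off m) + b.toNat) 0 =
        ((hLs (blk m).cells).getD (2 * (m - off m) + b.toNat) 0 : ℕ) / 2 ^ 40 * gx n x m b) ∧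
      ∀ (m' : ℕ) (b : Bool), off m + (blk m).lo ≤ m' → m' < off m + (blk m).lo + (blk m).cnt →
        ∃ F : ℝ, gLF n Bx blk off x m' b F ∧
          |K * F - ((blk m).outs.getD (gi blk off m' b) out0).F -
              dotZ ((blk m).outs.getD (gi blk off m' b) out0).J dv| ≤
            ((blk m).outs.getD (gi blk off m' b) out0).r := by
  obtain ⟨ds, hb, hok, hc, hd⟩ := h.loc hx hm
  obtain ⟨hchk, tb, htb, hlk⟩ := h.ok m hm
  obtain ⟨hf1, hf2, hf3⟩ := h.fit m hm
  have hlen : (blk m).lo + (blk m).cnt ≤ (blk m).cells.length := by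
    simp only [Blk.chk, Bool.and_eq_true, decide_eq_true_eq] at hchk
    exact hchk.1.1.1.1.1
  have hp : (0 : ℝ) < tb.length := Nat.cast_pos.2 htb.1
  refine ⟨tb.length * 2 ^ 81, by positivity, devL ds, hb ▸ devL_le hok, hd, ?_⟩
  intro m' b h1 h2
  obtain ⟨e1, e2⟩ := h.same m hm m' h1 h2
  have hm' : m' < n := by omega
  have hi : gi blk off m' b < 2 * (blk m).cnt := by
    unfold gi; rw [e1, e2]; cases b <;> simp <;> omega
  have hl := hlk _ hi
  have q1 : (blk m).lo + gi blk off m' b / 2 = m' - off m := by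
    unfold gi; rw [e1, e2]; cases b <;> simp <;> omega
  have q2 : decide (gi blk off m' b % 2 = 1) = b := by
    unfold gi; cases b <;> simp
  simp only [Blk.lk, decide_eq_true_eq, q1, q2] at hl
  have hl' := hl
  rw [← hb] at hl'
  obtain ⟨r1, r2, F, hF, hE⟩ := link_sound htb hok (h.tail_low hx hm) (h.tail_up hx hm) hl'
  refine ⟨F, ?_, hE⟩
  unfold gLF gk
  rw [e1, e2]
  generalize (blk m).lks.getD (gi blk off m' b) lk0 = k at r1 hF ⊢
  refine ⟨by omega, ?_⟩
  have hl0 : ds.length = (blk m).cells.length := by rw [← hb, List.length_map]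
  obtain ⟨s, hs⟩ : ∃ s, (blk m).cells.length = k.ref + s := ⟨_, (Nat.add_sub_cancel' (by omega)).symm⟩
  have a1 : (ds.drop k.ref).map DC.cell = (List.range' (off m + k.ref) s).map (gC n Bx x) := by
    rw [List.map_drop, hc, hs, HdF1_rng, List.map_append, List.drop_left' (by simp)]
  have a2 : (ds.take k.ref).map DC.cell = (List.range' (off m) k.ref).map (gC n Bx x) := by
    rw [List.map_take, hc, hs, HdF1_rng, List.map_append, List.take_left' (by simp)]
  have a3 : zinB (ds.map DC.b) (m' - off m) b = !((Bx m').H && b) := by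
    have := h.inn m' hm'
    rw [e1, e2] at this
    rw [zinB, hb, this]
  have a4 : n - (off m + k.ref) = s + (n - (off m + (blk m).cells.length)) := by omega
  have a5 : m' - (off m + k.ref) + 1 = m' - off m - k.ref + 1 := by omega
  rw [a1, a2, a3, ← HdF1_rf, ← HdF1_gL, ← List.map_append] at hF
  rw [a4, a5, HdF1_rng, add_assoc (off m) k.ref s, ← hs]
  exact hF

end Pool.Agent.MP_92463a_gt

end
end

section

open Set Complex Filter Metric
open scoped Topology ComplexConjugate ContDiff Manifold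

noncomputable section

namespace Pool.Agent.MP_92463a_gt

theorem ZZ_step {c : RC} (hc : c.Ps) (post dn : List RC) {s : ℂ} (hs : s ≠ 0) :
    ZZ post (c.flip :: dn) (c.lam * s) ^ 2 = pm c.H (ZZ (c :: post) dn s ^ 2) := by
  obtain ⟨H, x, y⟩ := c
  have hx : (x : ℂ) ≠ 0 := ofReal_ne_zero.2 hc.1.ne'
  have hy : (y : ℂ) ≠ 0 := ofReal_ne_zero.2 hc.2.ne'
  cases H
  · have e0 : (y : ℂ) * x * (x * y * s)⁻¹ = s⁻¹ := by field_simp
    have e1 : 1 - -(x : ℂ) * (x * y * s)⁻¹ = (1 - -y * s) / (y * s) := by field_simp; ring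
    have e2 : 1 - (x : ℂ) ^ 2 / y * (x * y * s)⁻¹ = -(1 - y ^ 2 / x * s) * (x / (y ^ 2 * s)) := by
      field_simp; ring
    simp only [ZZ, Phi, RC.flip, RC.a1, RC.a2, RC.lam, pm, Bool.false_eq_true, if_false]
    push_cast
    rw [e0, e1, e2, ← inv_pow, ← neg_sq]
    generalize 1 - -(y : ℂ) * s = A
    generalize 1 - (y : ℂ) ^ 2 / x * s = B
    congr 1
    field_simp
  · have e0 : (x : ℂ)⁻¹ * ((x : ℂ)⁻¹ * s)⁻¹ = s⁻¹ := by field_simp
    have e1 : 1 - (y : ℂ)⁻¹⁻¹ * ((x : ℂ)⁻¹ * s)⁻¹ = -(1 - ((x : ℂ) * y)⁻¹ * s) * (x * y / s) := by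
      field_simp; ring
    have e2 : 1 - ((x : ℂ) * (y : ℂ)⁻¹)⁻¹ * ((x : ℂ)⁻¹ * s)⁻¹ = -(1 - (y : ℂ)⁻¹ * s) * (y / s) := by
      field_simp; ring
    simp only [ZZ, Phi, RC.flip, RC.a1, RC.a2, RC.lam, pm, if_true]
    push_cast
    rw [e0, e1, e2]
    generalize 1 - (y : ℂ)⁻¹ * s = A
    generalize 1 - ((x : ℂ) * y)⁻¹ * s = B
    congr 1
    field_simp

theorem HdP2_rf (l : List RC) (c : RC) : rf (l ++ [c]) = c.flip :: rf l := by simp [rf]

theorem HdP2_lamP (l : List RC) (c : RC) : lamP (l ++ [c]) = c.lam * lamP l := by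
  simp [lamP, mul_comm]

theorem HdP2_pm (H : Bool) (n : ℕ) (z : ℂ) :
    pm H (pm (decide (Even n)) z) = pm (decide (Even (n + nB [H]))) z := by
  cases H <;> by_cases h : Even n <;> simp [pm, nB, Nat.even_add_one, h]

theorem HdP2_lam (c : RC) : c.flip.lam = c.lam := by
  obtain ⟨H, x, y⟩ := c
  cases H <;> simp [RC.flip, RC.lam, mul_comm]

theorem ZZ_split {pre : List RC} (h : ∀ c ∈ pre, c.Ps) (post : List RC) {t : ℂ} (ht : t ≠ 0) :
    ZZ post (rf pre) (lamP pre * t) ^ 2 =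
      pm (decide (Even (nB (pre.map RC.H)))) ((t⁻¹ * Phi (pre ++ post) t) ^ 2) := by
  induction pre using List.reverseRecOn generalizing post with
  | nil => simp [rf, lamP, ZZ, Phi, nB, pm]
  | append_singleton l c ih =>
    have hl : ∀ d ∈ l, d.Ps := fun d hd => h d (List.mem_append_left _ hd)
    rw [HdP2_rf, HdP2_lamP, ofReal_mul, mul_assoc, ZZ_step (h c (by simp)) post _
      (mul_ne_zero (ofReal_ne_zero.2 (lamP_pos hl).ne') ht), ih hl, HdP2_pm, List.map_append,
      nB_append, List.append_assoc]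
    rfl

theorem Sm.below {pre : List RC} (h : ∀ c ∈ pre, c.Ps) {Λ r : ℝ} (h0 : 0 < Λ)
    (hs : Sm (rf pre) Λ r) :
    (∀ a ∈ aL pre 1, Λ * (a * lamP pre) < r) ∧ ∀ b ∈ bL pre 1, Λ * (b * lamP pre) < r := by
  induction pre using List.reverseRecOn generalizing Λ with
  | nil => simp [aL, bL]
  | append_singleton l c ih =>
    have hl : ∀ d ∈ l, d.Ps := fun d hd => h d (List.mem_append_left _ hd)
    have hc : c.Ps := h c (by simp)
    rw [HdP2_rf, Sm, HdP2_lam] at hs
    obtain ⟨h1, h2, h3⟩ := hs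
    obtain ⟨i1, i2⟩ := ih hl (mul_pos h0 hc.lam_pos) h3
    have hp := (lamP_pos hl).ne'
    have e : ∀ a, Λ * (a * (c.lam * lamP l)) = Λ * c.lam * (a * lamP l) := fun a => by ring
    simp only [HdP2_lamP, aL_append, bL_append, List.mem_append, e, or_imp, forall_and]
    refine ⟨⟨i1, ?_⟩, i2, ?_⟩ <;> obtain ⟨H, x, y⟩ := c <;> have hx : x ≠ 0 := hc.1.ne' <;>
      have hy : y ≠ 0 := hc.2.ne' <;> cases H <;>
      simp only [aL, bL, RC.flip, RC.a1, RC.a2, RC.lam, Bool.false_eq_true, if_false, if_true,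
        List.mem_cons, List.not_mem_nil, or_false, forall_eq_or_imp, forall_eq, false_imp_iff,
        implies_true] at h1 h2 ⊢
    · exact lt_of_eq_of_lt (by field_simp) (lt_of_abs_lt h2)
    · exact ⟨lt_of_eq_of_lt (by field_simp) (lt_of_abs_lt h1),
        lt_of_eq_of_lt (by field_simp) (lt_of_abs_lt h2)⟩
    · rw [← abs_neg] at h1
      exact lt_of_eq_of_lt (by field_simp) (lt_of_abs_lt h1)

end Pool.Agent.MP_92463a_gt

end
end

section

open Set Complex Filter Metric
open scoped Topology ComplexConjugate ContDiff Manifold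

noncomputable section

namespace Pool.Agent.MP_92463a_gt

theorem HdM1_getD {l1 l2 : List ℝ} {P Q : ℝ → Prop} (h1 : ∀ a ∈ l1, P a) (h2 : ∀ a ∈ l2, Q a) :
    (∀ i < l1.length, P ((l1 ++ l2).getD i 1)) ∧
      ∀ i, l1.length ≤ i → i < (l1 ++ l2).length → Q ((l1 ++ l2).getD i 1) := by
  refine ⟨fun i hi => ?_, fun i hi hi' => ?_⟩
  · rw [List.getD_append _ _ _ _ hi, List.getD_eq_getElem _ _ hi]
    exact h1 _ (List.getElem_mem _)
  · have h3 : i - l1.length < l2.length := by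
      rw [List.length_append] at hi'
      omega
    rw [List.getD_append_right _ _ _ _ hi, List.getD_eq_getElem _ _ h3]
    exact h2 _ (List.getElem_mem _)

theorem HdM1_inA {L : List RC} {l1 l2 : List ℝ} {k : ℕ} {x : ℝ} (e : aL L 1 = l1 ++ l2)
    (hk : l1.length = k) (hx : 0 < x) (h1 : ∀ a ∈ l1, a < x) (h2 : ∀ a ∈ l2, x < a) :
    (dat L).InA k x := by
  have h := HdM1_getD (P := fun a => a < x) (Q := fun a => x < a) h1 h2
  rw [← e, hk, aL_length] at h
  exact ⟨hx, h⟩

theorem HdM1_inB {L : List RC} {l1 l2 : List ℝ} {k : ℕ} {x : ℝ} (e : bL L 1 = l1 ++ l2)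
    (hk : l1.length = k) (hx : x < 0) (h1 : ∀ a ∈ l1, a < -x) (h2 : ∀ a ∈ l2, -x < a) :
    (dat L).InB k x := by
  have h := HdM1_getD (P := fun a => a < -x) (Q := fun a => -x < a) h1 h2
  rw [← e, hk, bL_length] at h
  exact ⟨hx, h⟩

theorem HdM1_at {d : Dp} {e u v t : ℝ} (ht : 0 < t) (h : d.At e u v) :
    d.At (e / t) (u / t) (v / t) := by
  cases d
  · exact ⟨div_lt_div_of_pos_right h.1 ht, div_lt_div_of_pos_right h.2 ht⟩
  · exact div_lt_div_of_pos_right h ht
  · exact div_lt_div_of_pos_right h ht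
  · change |e / t| < u / t ∧ |e / t| < |v / t|
    rw [abs_div, abs_div, abs_of_pos ht]
    exact ⟨div_lt_div_of_pos_right h.1 ht, div_lt_div_of_pos_right h.2 ht⟩

theorem HdM1_scale {zin kd : Bool} {u v t : ℝ} (ht : 0 < t) (l : List RC) (j : ℕ) (Λ : ℝ)
    (h : PosU zin kd u v j l Λ) : PosU zin kd (u / t) (v / t) j l (Λ * t) := by
  induction l generalizing j Λ with
  | nil => trivial
  | cons c l ih =>
    have e : ∀ a : ℝ, (Λ * t * a)⁻¹ = (Λ * a)⁻¹ / t := fun a => by
      rw [mul_right_comm, mul_inv, div_eq_mul_inv]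
    refine ⟨?_, ?_, ?_⟩
    · rw [e]
      exact HdM1_at ht h.1
    · rw [e]
      exact HdM1_at ht h.2.1
    · rw [mul_right_comm]
      exact ih _ _ h.2.2

theorem HdM1_a1 {c : RC} (hc : c.H = false) (Λ : ℝ) : (Λ * c.a1)⁻¹ = -(Λ * c.y)⁻¹ := by
  simp only [RC.a1, hc, Bool.false_eq_true, if_false, mul_neg, inv_neg]

theorem HdM1_post {zin kd : Bool} {u v : ℝ} (l : List RC) (Λ : ℝ) (h : PosU zin kd u v 0 l Λ) :
    (∀ a ∈ aL l Λ, u < a) ∧ ∀ b ∈ bL l Λ, -v < b := by
  induction l generalizing Λ with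
  | nil => simp [aL, bL]
  | cons c l ih =>
    obtain ⟨h1, h2, h3⟩ := h
    obtain ⟨k1, k2⟩ := ih _ h3
    cases hc : c.H
    · rw [hc] at h1 h2
      rw [HdM1_a1 hc] at h1
      simp only [aL, bL, hc, Bool.false_eq_true, if_false, List.forall_mem_cons]
      exact ⟨⟨h2, k1⟩, neg_lt.1 h1, k2⟩
    · rw [hc] at h1 h2
      simp only [aL, bL, hc, if_true, List.forall_mem_cons]
      exact ⟨⟨h2, h1, k1⟩, k2⟩

theorem HdM1_mid {zin kd : Bool} {u v : ℝ} (l t : List RC) (Λ : ℝ)
    (h : PosU zin kd u v (l.length + 1) (l ++ t) Λ) :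
    (∀ a ∈ aL l Λ, a < if zin then u else v) ∧ (zin = true → ∀ b ∈ bL l Λ, b < -v) ∧
      PosU zin kd u v 1 t (Λ * lamP l) := by
  induction l generalizing Λ with
  | nil => simpa [aL, bL, lamP] using h
  | cons c l ih =>
    obtain ⟨h1, h2, h3⟩ := h
    obtain ⟨k1, k2, k3⟩ := ih _ h3
    rw [lamP_cons, ← mul_assoc]
    have q : ∀ e : ℝ, (if zin then Dp.ins else Dp.lef).At e u v →
        (e < if zin then u else v) ∧ (zin = true → v < e) := fun e he => by
      cases zin
      · exact ⟨he, fun hh => absurd hh (by simp)⟩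
      · exact ⟨he.2, fun _ => he.1⟩
    have q1 := q _ h1
    have q2 := q _ h2
    cases hc : c.H
    · rw [HdM1_a1 hc] at q1
      simp only [aL, bL, hc, Bool.false_eq_true, if_false, List.forall_mem_cons]
      exact ⟨⟨q2.1, k1⟩, fun hz => ⟨lt_neg.1 (q1.2 hz), k2 hz⟩, k3⟩
    · simp only [aL, bL, hc, if_true, List.forall_mem_cons]
      exact ⟨⟨q2.1, q1.1, k1⟩, k2, k3⟩

theorem LF.mem {pre mid post : List RC} {c0 : RC} (hp : ∀ c ∈ pre ++ (mid ++ c0 :: post), c.Ps)
    {kd : Bool} {c R F : ℝ}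
    (h : LF (mid ++ c0 :: post) (rf pre) (!(c0.H && kd)) kd (mid.length + 1) c R F) :
    (dat (pre ++ (mid ++ c0 :: post))).InA (lsu ((pre ++ mid).map RC.H) c0.H kd)
        ((c + R) / lamP pre) ∧
      (dat (pre ++ (mid ++ c0 :: post))).InS (lsv ((pre ++ mid).map RC.H) c0.H kd)
        ((c - R) / lamP pre) := by
  have hpre : ∀ c ∈ pre, c.Ps := fun c hc => hp c (List.mem_append_left _ hc)
  have h0 : 0 < lamP pre := lamP_pos hpre
  obtain ⟨s1, s2⟩ := Sm.below hpre one_pos h.sm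
  obtain ⟨m1, m2, m3, m4, m5⟩ := HdM1_mid _ _ _ (HdM1_scale h0 _ _ _ h.pu)
  obtain ⟨p1, p2⟩ := HdM1_post _ _ m5
  have hu : 0 < (c + R) / lamP pre := div_pos h.u_pos h0
  have hvu : (c - R) / lamP pre < (c + R) / lamP pre :=
    div_lt_div_of_pos_right (by linarith [h.R_pos]) h0
  have hv := h.v_sg
  have a1 : ∀ a ∈ aL pre 1, a < (c + R) / lamP pre ∧ a < |c - R| / lamP pre := fun a ha => by
    have := lt_min_iff.1 (s1 a ha)
    rwa [one_mul, ← lt_div_iff₀ h0, ← lt_div_iff₀ h0] at this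
  have b1 : c - R < 0 → ∀ b ∈ bL pre 1, b < -((c - R) / lamP pre) := fun hv b hb => by
    have := (lt_min_iff.1 (s2 b hb)).2
    rwa [one_mul, ← lt_div_iff₀ h0, abs_of_neg hv, neg_div] at this
  have eA : aL (pre ++ (mid ++ c0 :: post)) 1 = aL pre 1 ++ aL mid (1 * lamP pre) ++
      aL (c0 :: post) (1 * lamP pre * lamP mid) := by rw [aL_append, aL_append, List.append_assoc]
  have eB : bL (pre ++ (mid ++ c0 :: post)) 1 = bL pre 1 ++ bL mid (1 * lamP pre) ++
      bL (c0 :: post) (1 * lamP pre * lamP mid) := by rw [bL_append, bL_append, List.append_assoc]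
  have lA : (aL pre 1 ++ aL mid (1 * lamP pre)).length = nA ((pre ++ mid).map RC.H) := by
    rw [← aL_append, aL_length]
  have lB : (bL pre 1 ++ bL mid (1 * lamP pre)).length = nB ((pre ++ mid).map RC.H) := by
    rw [← bL_append, bL_length]
  have a2 : ∀ a ∈ aL pre 1 ++ aL mid (1 * lamP pre), a < (c + R) / lamP pre := by
    refine List.forall_mem_append.2 ⟨fun a ha => (a1 a ha).1, fun a ha => (m1 a ha).trans_le ?_⟩
    split_ifs
    exacts [le_rfl, hvu.le]
  have b2 : (!(c0.H && kd)) = true → (c - R) / lamP pre < 0 ∧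
      ∀ b ∈ bL pre 1 ++ bL mid (1 * lamP pre), b < -((c - R) / lamP pre) := fun hz => by
    rw [if_pos hz] at hv
    exact ⟨div_neg_of_neg_of_pos hv h0, List.forall_mem_append.2 ⟨b1 hv, m2 hz⟩⟩
  have a3 : (!(c0.H && kd)) = false →
      ∀ a ∈ aL pre 1 ++ aL mid (1 * lamP pre), a < (c - R) / lamP pre := fun hz => by
    rw [hz] at hv m1
    exact List.forall_mem_append.2 ⟨fun a ha => abs_of_pos (a := c - R) hv ▸ (a1 a ha).2, m1⟩
  generalize aL pre 1 ++ aL mid (1 * lamP pre) = A at eA lA a2 a3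
  generalize bL pre 1 ++ bL mid (1 * lamP pre) = B at eB lB b2
  cases hc : c0.H <;> cases kd <;> rw [hc] at m3 m4 b2 a3 <;>
    simp only [aL, bL, hc, Bool.false_eq_true, if_false, if_true] at eA eB
  · rw [HdM1_a1 hc] at m3
    exact ⟨HdM1_inA (eA.trans (List.append_assoc _ [_] _).symm) (by simp [lsu, lA]) hu
      (List.forall_mem_append.2 ⟨a2, List.forall_mem_singleton.2 m4.2⟩) p1,
      HdM1_inB eB lB (b2 rfl).1 (b2 rfl).2 (List.forall_mem_cons.2 ⟨neg_lt.1 m3, p2⟩)⟩
  · rw [HdM1_a1 hc] at m3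
    exact ⟨HdM1_inA eA lA hu a2 (List.forall_mem_cons.2 ⟨m4, p1⟩),
      HdM1_inB (eB.trans (List.append_assoc _ [_] _).symm) (by simp [lsv, lB]) (b2 rfl).1
        (List.forall_mem_append.2 ⟨(b2 rfl).2, List.forall_mem_singleton.2 (lt_neg.1 m3.1)⟩) p2⟩
  · exact ⟨HdM1_inA (eA.trans (List.append_assoc _ [_] _).symm) (by simp [lsu, lA]) hu
      (List.forall_mem_append.2 ⟨a2, List.forall_mem_singleton.2 m4.2⟩)
      (List.forall_mem_cons.2 ⟨m3, p1⟩), HdM1_inB eB lB (b2 rfl).1 (b2 rfl).2 p2⟩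
  · rw [hc] at hv
    have hv' : 0 < c - R := hv
    refine ⟨HdM1_inA (eA.trans (List.append_assoc _ [_, _] _).symm) (by simp [lsu, lA]) hu
      (List.forall_mem_append.2 ⟨a2, List.forall_mem_cons.2
        ⟨m4.2, List.forall_mem_singleton.2 m3.2⟩⟩) p1,
      HdM1_inA eA lA (div_pos hv' h0) (a3 rfl) (List.forall_mem_cons.2 ⟨m4.1,
        List.forall_mem_cons.2 ⟨m3.1, fun a ha => hvu.trans (p1 a ha)⟩⟩)⟩

end Pool.Agent.MP_92463a_gt

end
end

section

open Set Complex Filter Metric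
open scoped Topology ComplexConjugate ContDiff Manifold

noncomputable section

namespace Pool.Agent.MP_92463a_gt

theorem HdM2_par (l : List Bool) : Even (nA l + nB l) := by
  induction l with
  | nil => simp [nA, nB]
  | cons H l ih =>
    rw [Nat.even_iff] at ih ⊢
    rw [nA, nB]
    split_ifs <;> omega

theorem HdM2_lsu (l : List Bool) : ∀ i < nA l, ∃ (m : ℕ) (hm : m < l.length) (kd : Bool),
    lsu (l.take m) l[m] kd = i + 1 := by
  induction l with
  | nil => simp [nA]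
  | cons H l ih =>
    intro i hi
    by_cases h0 : i = 0
    · exact ⟨0, Nat.succ_pos _, false, by simp [lsu, nA, h0]⟩
    cases H
    · obtain ⟨m, hm, kd, e⟩ := ih (i - 1) (by simp only [nA, Bool.false_eq_true, if_false] at hi; omega)
      refine ⟨m + 1, Nat.succ_lt_succ hm, kd, ?_⟩
      simp only [lsu, List.take_succ_cons, List.getElem_cons_succ, nA, Bool.false_eq_true,
        if_false] at e ⊢
      split_ifs at e ⊢ <;> omega
    · by_cases h1 : i = 1
      · exact ⟨0, Nat.succ_pos _, true, by simp [lsu, nA, h1]⟩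
      obtain ⟨m, hm, kd, e⟩ := ih (i - 2) (by simp only [nA, if_true] at hi; omega)
      refine ⟨m + 1, Nat.succ_lt_succ hm, kd, ?_⟩
      simp only [lsu, List.take_succ_cons, List.getElem_cons_succ, nA, if_true] at e ⊢
      split_ifs at e ⊢ <;> omega

theorem HdM2_gap (l : List RC) : ∀ g Λ : ℝ, (∀ c ∈ l, c.Ps) → 0 < Λ → Gap g l →
    (∀ b ∈ bL l Λ, 5 * g / Λ < b) ∧ (bL l Λ).Pairwise fun x y => 5 * x < y := by
  induction l with
  | nil => simp [bL]
  | cons c l ih =>
    intro g Λ hp h0 hg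
    have hc := hp c List.mem_cons_self
    have hx := hc.1
    have hy := hc.2
    have h1 := mul_pos h0 hc.lam_pos
    have hl : ∀ d ∈ l, d.Ps := fun d hd => hp d (List.mem_cons_of_mem _ hd)
    rw [Gap] at hg
    rw [bL]
    split_ifs at hg ⊢ with hH
    · have := ih _ _ hl h1 hg
      rwa [show 5 * (g / c.x) / (Λ * c.lam) = 5 * g / Λ by
        rw [RC.lam, if_pos hH]; field_simp] at this
    · obtain ⟨h2, h3⟩ := ih _ _ hl h1 hg.2
      rw [show 5 * c.x / (Λ * c.lam) = 5 * (Λ * c.y)⁻¹ by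
        rw [RC.lam, if_neg hH]; field_simp] at h2
      have h4 : 5 * g / Λ < (Λ * c.y)⁻¹ := by
        rw [div_lt_iff₀ h0, show (Λ * c.y)⁻¹ * Λ = 1 / c.y by field_simp, lt_div_iff₀ hy]
        exact hg.1
      have h5 : 0 < (Λ * c.y)⁻¹ := by positivity
      refine ⟨fun b hb => ?_, List.pairwise_cons.2 ⟨h2, h3⟩⟩
      rcases List.mem_cons.1 hb with rfl | hb
      · exact h4
      · linarith [h2 b hb]

theorem dat_ok {L : List RC} (hne : L ≠ []) (hp : ∀ c ∈ L, c.Ps) (hg : Gap 0 L)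
    (hm : ∀ (m : ℕ) (hm : m < L.length) (kd : Bool),
      ∃ u, (dat L).InA (lsu ((L.take m).map RC.H) L[m].H kd) u) : (dat L).Ok := by
  refine ⟨?_, HdM2_par _, Real.exp_pos _, fun i hi => ?_, fun i j hij hj => ?_, fun j hj => ?_,
    fun i j hij hj => ?_⟩
  · obtain ⟨c, l, rfl⟩ := List.exists_cons_of_ne_nil hne
    change 0 < nA (c.H :: l.map RC.H)
    rw [nA]
    split_ifs <;> omega
  · have hi' : i < (aL L 1).length := by rwa [aL_length]
    change 0 < (aL L 1).getD i 1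
    rw [List.getD_eq_getElem _ _ hi']
    exact aL_pos hp one_pos _ (List.getElem_mem hi')
  · obtain ⟨m, hm', kd, e⟩ := HdM2_lsu (L.map RC.H) i (hij.trans hj)
    obtain ⟨u, -, h1, h2⟩ := hm m (by simpa using hm') kd
    rw [List.map_take, ← List.getElem_map RC.H (h := hm'), e] at h1 h2
    exact (h1 i (Nat.lt_succ_self i)).trans (h2 j hij hj)
  · have hj' : j < (bL L 1).length := by rwa [bL_length]
    change 0 < (bL L 1).getD j 1
    rw [List.getD_eq_getElem _ _ hj']
    exact bL_pos hp one_pos _ (List.getElem_mem hj')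
  · have hj' : j < (bL L 1).length := by rwa [bL_length]
    change 5 * (bL L 1).getD i 1 < (bL L 1).getD j 1
    rw [List.getD_eq_getElem _ _ hj', List.getD_eq_getElem _ _ (hij.trans hj')]
    exact List.pairwise_iff_getElem.1 (HdM2_gap L 0 1 hp one_pos hg).2 i j _ _ hij

theorem link_val {Hs : List Bool} {m : ℕ} (hm : m < Hs.length) (kd : Bool) :
    Sg.Val (nA Hs) (nB Hs) (false, lsu (Hs.take m) Hs[m] kd) ∧
      Sg.Val (nA Hs) (nB Hs) (lsv (Hs.take m) Hs[m] kd) ∧
      (lsv (Hs.take m) Hs[m] kd).ty = Sg.ty (false, lsu (Hs.take m) Hs[m] kd) := by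
  have hA := congrArg nA (List.take_append_drop m Hs)
  have hB := congrArg nB (List.take_append_drop m Hs)
  rw [List.drop_eq_getElem_cons hm] at hA hB
  rw [nA_append, nA] at hA
  rw [nB_append, nB] at hB
  have hp := HdM2_par (Hs.take m)
  generalize Hs[m] = H at hA hB ⊢
  cases H <;> cases kd <;>
    simp only [Sg.Val, Sg.ty, lsu, lsv, Bool.false_eq_true, if_false, if_true, decide_eq_decide,
      Nat.even_iff, Nat.odd_iff] at hA hB hp ⊢ <;> omega

theorem link_chain {Hs : List Bool} (α : Sg → ℝ)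
    (h : ∀ (m : ℕ) (hm : m < Hs.length) (kd : Bool),
      α (false, lsu (Hs.take m) Hs[m] kd) = α (lsv (Hs.take m) Hs[m] kd)) :
    ∀ s s' : Sg, s.Val (nA Hs) (nB Hs) → s'.Val (nA Hs) (nB Hs) → s.ty = s'.ty → α s = α s' := by
  have key : ∀ m ≤ Hs.length, ∀ s : Sg, s.Val (nA (Hs.take m)) (nB (Hs.take m)) →
      α s = if s.ty then α (false, 0) else α (true, 0) := by
    intro m
    induction m with
    | zero =>
      rintro - ⟨_ | _, k⟩ hk
      · obtain rfl : k = 0 := by simpa [Sg.Val, nA] using hk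
        simp [Sg.ty]
      · obtain rfl : k = 0 := by simpa [Sg.Val, nB] using hk
        simp [Sg.ty]
    | succ m ih =>
      intro hm s hs
      have ih' := ih (by omega)
      have h0 := h m hm false
      have h1 := h m hm true
      have t0 := (link_val (Hs := Hs) hm false).2.2
      have t1 := (link_val (Hs := Hs) hm true).2.2
      rw [List.take_succ_eq_append_getElem hm, nA_append, nB_append] at hs
      have iA := ih' (false, nA (Hs.take m)) (by simp [Sg.Val])
      have iB := ih' (true, nB (Hs.take m)) (by simp [Sg.Val])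
      by_cases hv : s.Val (nA (Hs.take m)) (nB (Hs.take m))
      · exact ih' s hv
      generalize Hs[m] = H at hs h0 h1 t0 t1
      obtain ⟨_ | _, k⟩ := s <;> cases H <;>
        simp only [Sg.Val, lsu, lsv, nA, nB, Bool.false_eq_true, if_false, if_true] at hs hv h0 h1 t0 t1
      · obtain rfl : k = nA (Hs.take m) + 1 := by omega
        rw [h0, ← t0, iB]
      · obtain rfl | rfl : k = nA (Hs.take m) + 1 ∨ k = nA (Hs.take m) + 2 := by omega
        · rw [h0, ← t0, iB]
        · rw [h1, ← t1, iA]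
      · obtain rfl : k = nB (Hs.take m) + 1 := by omega
        rw [← h1, t1, iA]
      · omega
  intro s s' hs hs' e
  have k := key Hs.length le_rfl
  rw [List.take_length] at k
  rw [k s hs, k s' hs', e]

end Pool.Agent.MP_92463a_gt

end
end

section

open Set Complex Filter Metric
open scoped Topology ComplexConjugate ContDiff Manifold

noncomputable section

namespace Pool.Agent.MP_92463a_gt

theorem G_at {D : Dat} (hD : D.Ok) {i : ℕ} (hi : i ≤ D.p) {x : ℝ} (hx : D.InA i x) :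
    D.G x = (if Even i then 1 else I) * (‖D.G x‖ : ℂ) :=
  (hD.sign_pos hx.1 hi hx.2.1 hx.2.2).2

theorem HdA2_ne {ε : Bool} {z : ℂ} (h : pm ε z ≠ 0) : z ≠ 0 := by
  rintro rfl
  cases ε <;> simp [pm] at h

theorem HdA2_pow {ε : Bool} {z u : ℂ} (h : z ^ 4 = pm ε u) : pm ε z ^ 4 = u := by
  cases ε
  · simp only [pm, Bool.false_eq_true, if_false] at h ⊢
    rw [inv_pow, h, inv_inv]
  · exact h

theorem HdA2_sum (ε : Bool) (z : ℂ) : pm ε z + (pm ε z)⁻¹ = z + z⁻¹ := by
  cases ε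
  · simp only [pm, Bool.false_eq_true, if_false, inv_inv, add_comm]
  · rfl

theorem HdA2_conj (ε : Bool) (z : ℂ) : pm ε (conj z) = conj (pm ε z) := by
  cases ε <;> simp [pm]

theorem HdA2_pos (ε : Bool) {z : ℂ} (h1 : 0 < z.re) (h2 : z.im = 0) :
    ∃ r : ℝ, 0 < r ∧ pm ε z = r := by
  have e : z = z.re := Complex.ext (by simp) (by simp [h2])
  cases ε
  · refine ⟨z.re⁻¹, inv_pos.2 h1, ?_⟩
    rw [ofReal_inv, ← e]
    rfl
  · exact ⟨z.re, h1, e⟩

theorem HdA2_pt (i : ℕ) {G V t d q : ℂ} (hG : G = (if Even i then 1 else I) * V)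
    (hd : d / t = I * q) :
    (if Sg.ty (false, i) then im else re) (G / t * d - conj ((G * t)⁻¹ * d)) =
      sg i * ((V + V⁻¹) * q).re := by
  have e1 : G / t * d = G * (I * q) := by rw [← hd]; ring
  have e2 : (G * t)⁻¹ * d = G⁻¹ * (I * q) := by rw [← hd, mul_inv]; ring
  rw [e1, e2, hG, add_mul, add_re]
  by_cases h : Even i
  · have a1 : (1 : ℂ) * V * (I * q) = I * (V * q) := by ring
    have a2 : ((1 : ℂ) * V)⁻¹ * (I * q) = I * (V⁻¹ * q) := by rw [one_mul]; ring
    simp only [Sg.ty, h, Bool.false_eq_true, if_false, decide_true, if_true, sg, h.neg_one_pow]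
    rw [a1, a2, sub_im, conj_im, I_mul_im, I_mul_im]
    ring
  · have a1 : I * V * (I * q) = -(V * q) := by linear_combination V * q * I_mul_I
    have a2 : (I * V)⁻¹ * (I * q) = V⁻¹ * q := by
      rw [mul_inv, mul_mul_mul_comm, inv_mul_cancel₀ I_ne_zero, one_mul]
    simp only [Sg.ty, h, Bool.false_eq_true, if_false, decide_false, sg,
      (Nat.not_even_iff_odd.1 h).neg_one_pow]
    rw [a1, a2, sub_re, conj_re, neg_re]
    ring

theorem HdA2_int (ty : Bool) {F : ℝ → ℂ} (hF : ContinuousOn F (Icc 0 Real.pi)) :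
    (if ty then im else re) (∫ θ in (0 : ℝ)..Real.pi, F θ) =
      ∫ θ in (0 : ℝ)..Real.pi, (if ty then im else re) (F θ) := by
  have h : IntervalIntegrable F MeasureTheory.volume 0 Real.pi :=
    (uIcc_of_le Real.pi_pos.le ▸ hF).intervalIntegrable
  cases ty
  · exact (reCLM.intervalIntegral_comp_comm h).symm
  · exact (imCLM.intervalIntegral_comp_comm h).symm

theorem lk_eq {D : Dat} (hD : D.Ok) {i : ℕ} (hi : i ≤ D.p) {sv : Sg} {W c R : ℝ} (hW : 0 < W)
    (hR : 0 < R) (hu : D.InA i (W * (c + R))) (hv : D.InS sv (W * (c - R))) {Γ : ℂ → ℂ}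
    (hc : ContinuousOn Γ (sphere 0 R)) (ε : Bool)
    (h4 : ∀ w ∈ sphere (0 : ℂ) R, Γ w ≠ 0 ∧
      Γ w ^ 4 = pm ε ((D.P (W * (c + w)) * D.R (W * (c + w)) ^ 2) ^ 2))
    (h1 : 0 < (Γ R).re) (h2 : (Γ R).im = 0) :
    Lk D.F1 D.F2 (Sg.ty (false, i)) (W * (c + R)) (W * (c - R)) = sg i * Real.pi * Fv Γ c R := by
  have hP : ∀ w ∈ sphere (0 : ℂ) R, D.P (W * (c + w)) ≠ 0 := fun w hw =>
    left_ne_zero_of_mul (pow_ne_zero_iff two_ne_zero |>.1
      (HdA2_ne ((h4 w hw).2 ▸ pow_ne_zero 4 (h4 w hw).1)))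
  have hcw : ∀ w ∈ sphere (0 : ℂ) R, (c : ℂ) + w ≠ 0 := fun w hw =>
    right_ne_zero_of_mul (Dat.Alg_ne (hP w hw)).1
  have hs : ∀ θ : ℝ, (R : ℂ) * exp (θ * I) ∈ sphere (0 : ℂ) R := fun θ => by
    rw [mem_sphere_zero_iff_norm, norm_mul, norm_exp_ofReal_mul_I, mul_one, norm_real,
      Real.norm_of_nonneg hR.le]
  have et : ∀ θ : ℝ, (((W * (c + R) : ℝ) : ℂ) + (W * (c - R) : ℝ)) / 2 +
      (((W * (c + R) : ℝ) : ℂ) - (W * (c - R) : ℝ)) / 2 * exp (θ * I) =
        W * (c + R * exp (θ * I)) := fun θ => by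
    push_cast
    ring
  have h₀ : D.P (W * (c + R) : ℝ) ≠ 0 := hD.inS_ne (s := (false, i)) hu
  have h₁ := hD.inS_ne hv
  have hlt : W * (c - R) < W * (c + R) := mul_lt_mul_of_pos_left (by linarith) hW
  have hι : (if Even i then 1 else I : ℂ) ^ 4 = 1 := by
    split_ifs
    · exact one_pow _
    · exact I_pow_four
  have hι0 : (if Even i then 1 else I : ℂ) ≠ 0 := fun h => by
    rw [h, zero_pow four_ne_zero] at hι
    exact zero_ne_one hι
  have hV : ∀ θ : ℝ, pm ε (Γ (R * exp (θ * I))) ≠ 0 := fun θ => by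
    cases ε
    · exact inv_ne_zero (h4 _ (hs θ)).1
    · exact (h4 _ (hs θ)).1
  have cΓ : Continuous fun θ : ℝ => Γ (R * exp (θ * I)) :=
    hc.comp_continuous (by fun_prop) hs
  have cV : Continuous fun θ : ℝ => pm ε (Γ (R * exp (θ * I))) := by
    cases ε
    · exact cΓ.inv₀ fun θ => (h4 _ (hs θ)).1
    · exact cΓ
  have cG : ContinuousOn (fun θ : ℝ => D.G (W * (c + R * exp (θ * I)))) (Icc 0 Real.pi) :=
    Dat.G_cont.comp (f := fun θ : ℝ => (W * (c + R * exp (θ * I)) : ℂ)) (by fun_prop)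
      fun θ hθ => by
        have := Dat.Ok.semi h₀ h₁ hlt hθ
        rw [et] at this
        exact this
  have q4 : ∀ θ : ℝ, (D.G (W * (c + R * exp (θ * I))) /
      ((if Even i then 1 else I) * pm ε (Γ (R * exp (θ * I))))) ^ 4 = 1 := fun θ => by
    have a := hP _ (hs θ)
    rw [div_pow, mul_pow, hι, one_mul, div_eq_one_iff_eq (pow_ne_zero _ (hV θ)),
      HdA2_pow (h4 _ (hs θ)).2, hD.G_eq a, ← Dat.Y_sq a]
    ring
  have key := root4_const (a := 0) (b := Real.pi) (f := fun θ : ℝ =>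
      D.G (W * (c + R * exp (θ * I))) / ((if Even i then 1 else I) * pm ε (Γ (R * exp (θ * I)))))
    (cG.div (continuous_const.mul cV).continuousOn fun θ _ => mul_ne_zero hι0 (hV θ))
    (fun θ _ => q4 θ) (by
      obtain ⟨r, hr, e⟩ := HdA2_pos ε h1 h2
      have a := q4 0
      have b := G_at hD hi hu
      simp only [ofReal_zero, zero_mul, exp_zero, mul_one] at a ⊢
      rw [ofReal_mul, ofReal_add] at b
      rw [b, e, mul_div_mul_left _ _ hι0, ← ofReal_div] at a ⊢
      have a' : (‖D.G (W * (c + R))‖ / r) ^ 4 = 1 := by exact_mod_cast a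
      rw [(pow_eq_one_iff_of_nonneg (by positivity) four_ne_zero).1 a', ofReal_one])
  have sy := sym_circ (Ψ := fun w => pm ε ((D.P (W * (c + w)) * D.R (W * (c + w)) ^ 2) ^ 2))
    hR hc h4 (fun w _ => by
      have e : (W : ℂ) * (c + conj w) = conj (W * (c + w)) := by simp
      rw [e, Dat.P_conj, Dat.R_conj, ← map_pow, ← map_mul, ← map_pow, HdA2_conj]) h2
  have av := avg_half (f := fI Γ c) hR
    ((hc.add (hc.inv₀ fun w hw => (h4 w hw).1)).mul
      (continuousOn_id.div (continuousOn_const.add continuousOn_id) hcw))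
    fun w hw => by simp [fI, sy w hw]
  have cF := Dat.DatC_cont (ψ₁ := fun _ => 1) (ψ₂ := fun _ => 1) h₀ h₁ hlt
    fun _ _ _ _ => ⟨continuousAt_const, continuousAt_const⟩
  simp only [one_pow, one_mul] at cF
  rw [Lk, Fv, mul_assoc, ← av, ← intervalIntegral.integral_const_mul]
  refine (HdA2_int _ cF).trans (intervalIntegral.integral_congr fun θ hθ => ?_)
  rw [uIcc_of_le Real.pi_pos.le] at hθ
  have k := key θ hθ
  rw [div_eq_one_iff_eq (mul_ne_zero hι0 (hV θ))] at k
  simp only [fI]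
  rw [et, ← HdA2_sum ε]
  refine HdA2_pt i k ?_
  have n1 := hcw _ (hs θ)
  have n2 : (W : ℂ) ≠ 0 := ofReal_ne_zero.2 hW.ne'
  push_cast
  field_simp
  ring

end Pool.Agent.MP_92463a_gt

end
end

section

open Set Complex Filter Metric
open scoped Topology ComplexConjugate ContDiff Manifold

noncomputable section

namespace Pool.Agent.MP_92463a_gt

theorem LF.lk {pre mid post : List RC} {c0 : RC} (hp : ∀ c ∈ pre ++ (mid ++ c0 :: post), c.Ps)
    (hD : (dat (pre ++ (mid ++ c0 :: post))).Ok) {kd : Bool} {c R F : ℝ}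
    (h : LF (mid ++ c0 :: post) (rf pre) (!(c0.H && kd)) kd (mid.length + 1) c R F) :
    Lk (dat (pre ++ (mid ++ c0 :: post))).F1 (dat (pre ++ (mid ++ c0 :: post))).F2
        (Sg.ty (false, lsu ((pre ++ mid).map RC.H) c0.H kd)) ((c + R) / lamP pre)
        ((c - R) / lamP pre) =
      sg (lsu ((pre ++ mid).map RC.H) c0.H kd) * Real.pi * F := by
  have hpre : ∀ c ∈ pre, c.Ps := fun c hc => hp c (List.mem_append_left _ hc)
  have hl := lamP_pos hpre
  obtain ⟨m1, m2⟩ := h.mem hp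
  obtain ⟨Γ, hc, h4, h1, h2, rfl⟩ := h.ex
  rw [div_eq_inv_mul] at m1 m2
  rw [div_eq_inv_mul, div_eq_inv_mul]
  refine lk_eq hD ?_ (inv_pos.2 hl) h.R_pos m1 m2 hc (decide (Even (nB (pre.map RC.H))))
    (fun w hw => ⟨(h4 w hw).1, ?_⟩) h1 h2
  · change _ ≤ nA ((pre ++ (mid ++ c0 :: post)).map RC.H)
    rw [← List.append_assoc, List.map_append (l₂ := c0 :: post), nA_append, List.map_cons, nA, lsu]
    split_ifs <;> omega
  · have hP : (dat (pre ++ (mid ++ c0 :: post))).P ((((lamP pre)⁻¹ : ℝ) : ℂ) * (c + w)) ≠ 0 := by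
      by_cases hw0 : w.im = 0
      · obtain ⟨x, rfl⟩ : ∃ x : ℝ, w = x := ⟨w.re, Complex.ext rfl (by simpa using hw0)⟩
        have hx : |x| = R := by simpa using hw
        rcases (abs_eq h.R_pos.le).1 hx with rfl | rfl
        · have := hD.inS_ne (s := (false, _)) m1
          rwa [ofReal_mul, ofReal_add] at this
        · have := hD.inS_ne m2
          rwa [ofReal_mul, sub_eq_add_neg, ofReal_add] at this
      · refine Dat.ne_of_im ?_
        rw [im_ofReal_mul]
        exact mul_ne_zero (inv_pos.2 hl).ne' (by simpa using hw0)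
    have ht : (((lamP pre)⁻¹ : ℝ) : ℂ) * (c + w) ≠ 0 := fun h0 =>
      hP (by rw [h0, Dat.P, zero_mul, zero_mul])
    rw [(h4 w hw).2, dat_sq hp hP, ← ZZ_split hpre _ ht, ← mul_assoc, ← ofReal_mul,
      mul_inv_cancel₀ hl.ne', ofReal_one, one_mul]

end Pool.Agent.MP_92463a_gt

end
end

section

open Set Complex Filter Metric
open scoped Topology ComplexConjugate ContDiff Manifold

noncomputable section

namespace Pool.Agent.MP_92463a_gt

/-- the chain cut at the reference cell `r` and at the cell `m` -/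
theorem HdF2_cut {n : ℕ} (Bx : ℕ → CB) (x : Fin n × Bool → ℝ) {r m : ℕ} (hr : r ≤ m) (hm : m < n) :
    ∃ mid post : List RC, gL n Bx x n = gL n Bx x r ++ (mid ++ gC n Bx x m :: post) ∧
      (List.range' r (n - r)).map (gC n Bx x) = mid ++ gC n Bx x m :: post ∧
      m - r = mid.length ∧ gH Bx m = (gL n Bx x r ++ mid).map RC.H := by
  obtain ⟨s, rfl⟩ := Nat.exists_eq_add_of_le hr
  obtain ⟨t, ht⟩ := Nat.exists_eq_add_of_lt hm
  have e : (List.range' r (n - r)).map (gC n Bx x) = (List.range' r s).map (gC n Bx x) ++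
      gC n Bx x (r + s) :: (List.range' (r + s + 1) t).map (gC n Bx x) := by
    rw [show n - r = s + (t + 1) by omega, HdF1_rng, List.map_append, List.range'_succ, List.map_cons]
  refine ⟨_, _, ?_, e, by simp, by rw [← HdF1_gL, gL_H]⟩
  rw [← e, ← HdF1_gL, Nat.add_sub_cancel' (by omega)]

namespace Cert

variable {n : ℕ} {Bx : ℕ → CB} {blk : ℕ → Blk} {off : ℕ → ℕ} (h : Cert n Bx blk off)
  {x : Fin n × Bool → ℝ} (hx : x ∈ cube (Fin n × Bool))
include h hx

theorem HdF2_ps {r : ℕ} (hr : r ≤ n) : ∀ c ∈ gL n Bx x r, c.Ps := by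
  intro c hc
  obtain ⟨i, hi, rfl⟩ := List.mem_map.1 hc
  exact h.ps hx (lt_of_lt_of_le (List.mem_range.1 hi) hr)

theorem HdF2_lf {m : ℕ} (hm : m < n) (b : Bool) : ∃ F, gLF n Bx blk off x m b F := by
  obtain ⟨K, -, dv, -, -, H⟩ := h.lf hx hm
  obtain ⟨F, hF, -⟩ := H m b (h.fit m hm).1 (h.fit m hm).2.1
  exact ⟨F, hF⟩

theorem mem {m : ℕ} (hm : m < n) (b : Bool) :
    (dat (gL n Bx x n)).InA (gsu Bx m b) (gu n Bx blk off x m b) ∧
      (dat (gL n Bx x n)).InS (gsv Bx m b) (gv n Bx blk off x m b) ∧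
      gv n Bx blk off x m b < gu n Bx blk off x m b := by
  obtain ⟨F, hr, hF⟩ := h.HdF2_lf hx hm b
  obtain ⟨mid, post, e1, e2, e3, e4⟩ := HdF2_cut Bx x hr hm
  have hp := h.HdF2_ps hx le_rfl
  have hl := lamP_pos (h.HdF2_ps hx (hr.trans hm.le))
  have hR := hF.R_pos
  rw [e2, e3] at hF
  rw [e1] at hp
  have H := LF.mem hp hF
  rw [← e1, ← e4] at H
  exact ⟨H.1, H.2, div_lt_div_of_pos_right (by linarith) hl⟩

theorem dat_ok : (dat (gL n Bx x n)).Ok := by
  refine Pool.Agent.MP_92463a_gt.dat_ok ?_ (h.HdF2_ps hx le_rfl) (h.gap hx) fun m hm kd => ?_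
  · have := h.n_pos
    simp only [gL, ne_eq, List.map_eq_nil_iff, List.range_eq_nil]
    omega
  · have hm' : m < n := by simpa [gL] using hm
    have e1 : (gL n Bx x n).take m = gL n Bx x m := by
      simp only [gL, ← List.map_take, List.take_range, min_eq_left hm'.le]
    have e2 : (gL n Bx x n)[m].H = (Bx m).H := by
      simp only [gL, List.getElem_map, List.getElem_range]
      rfl
    rw [e1, e2, gL_H]
    exact ⟨_, (h.mem hx hm' kd).1⟩

theorem lk {m : ℕ} (hm : m < n) {b : Bool} {F : ℝ} (hF : gLF n Bx blk off x m b F) :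
    gLk n Bx blk off x m b = sg (gsu Bx m b) * Real.pi * F := by
  obtain ⟨hr, hF⟩ := hF
  obtain ⟨mid, post, e1, e2, e3, e4⟩ := HdF2_cut Bx x hr hm
  have hp := h.HdF2_ps hx le_rfl
  have hD := h.dat_ok hx
  rw [e2, e3] at hF
  rw [e1] at hp hD
  have H := LF.lk hp hD hF
  rw [← e1, ← e4] at H
  exact H

theorem ref_le {m : ℕ} (hm : m < n) (b : Bool) : off m + (gk blk off m b).ref ≤ m :=
  (h.HdF2_lf hx hm b).choose_spec.1

end Cert

end Pool.Agent.MP_92463a_gt

end
end

section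

open Set Complex Filter Metric
open scoped Topology ComplexConjugate ContDiff Manifold

noncomputable section

namespace Pool.Agent.MP_92463a_gt

theorem Cert.rng {n : ℕ} {Bx : ℕ → CB} {blk : ℕ → Blk} {off : ℕ → ℕ} (h : Cert n Bx blk off)
    {m : ℕ} (hm : m < n) : off m + (blk m).lo + (blk m).cnt ≤ n ∧
      (∀ b, gi blk off m b < 2 * (blk m).cnt) ∧ ∀ t < 2 * (blk m).cnt,
        gi blk off (off m + (blk m).lo + t / 2) (decide (t % 2 = 1)) = t := by
  obtain ⟨f1, f2, f3⟩ := h.fit m hm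
  have hc : (blk m).lo + (blk m).cnt ≤ (blk m).cells.length := by
    have := (h.ok m hm).1
    simp only [Blk.chk, Bool.and_eq_true, decide_eq_true_eq] at this
    exact this.1.1.1.1.1
  refine ⟨by omega, fun b => ?_, fun t ht => ?_⟩
  · have := b.toNat_le
    unfold gi
    omega
  · obtain ⟨e1, e2⟩ := h.same m hm (off m + (blk m).lo + t / 2) (by omega) (by omega)
    rw [gi, e1, e2]
    by_cases h2 : t % 2 = 1
    · rw [decide_eq_true h2, Bool.toNat_true]
      omega
    · rw [decide_eq_false h2, Bool.toNat_false]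
      omega

/-- sums over a block -/
theorem Cert.sum_blk {n : ℕ} {Bx : ℕ → CB} {blk : ℕ → Blk} {off : ℕ → ℕ} (h : Cert n Bx blk off)
    (i : Fin n × Bool) (φ : ℕ → Bool → ℝ) :
    ∑ j : Fin n × Bool, gA n Bx blk off i j * φ j.1 j.2 =
      ∑ t ∈ Finset.range (2 * (blk i.1).cnt),
        ((((blk i.1).A.getD (gi blk off i.1 i.2) []).getD t 0 : ℤ) : ℝ) *
          (sg (gsu Bx (off i.1 + (blk i.1).lo + t / 2) (decide (t % 2 = 1))) *
            φ (off i.1 + (blk i.1).lo + t / 2) (decide (t % 2 = 1))) := by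
  obtain ⟨r1, -, r3⟩ := h.rng i.1.2
  have hs := h.same i.1 i.1.2
  obtain ⟨f1, f2, -⟩ := h.fit i.1 i.1.2
  symm
  refine Finset.sum_bij_ne_zero (fun t ht _ => (⟨off i.1 + (blk i.1).lo + t / 2, by
      have := Finset.mem_range.1 ht
      omega⟩, decide (t % 2 = 1))) (fun _ _ _ => Finset.mem_univ _) ?_ ?_ ?_
  · intro t ht _ t' ht' _ e
    have e1 : off i.1 + (blk i.1).lo + t / 2 = off i.1 + (blk i.1).lo + t' / 2 :=
      congrArg (fun z : Fin n × Bool => (z.1 : ℕ)) e
    have e2 : decide (t % 2 = 1) = decide (t' % 2 = 1) := congrArg Prod.snd e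
    rw [decide_eq_decide] at e2
    omega
  · rintro ⟨j, b⟩ - hne
    have hb : off i.1 + (blk i.1).lo = off j + (blk j).lo := by
      by_contra hb
      exact hne (by rw [gA, if_neg hb, zero_mul])
    obtain ⟨g1, g2, -⟩ := h.fit j j.2
    have a1 := hs (off i.1 + (blk i.1).lo) le_rfl (by omega)
    have a2 := h.same j j.2 (off i.1 + (blk i.1).lo) (by omega) (by omega)
    have e1 : blk j = blk i.1 := a2.1.symm.trans a1.1
    have e2 : off j = off i.1 := a2.2.symm.trans a1.2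
    have hb2 := b.toNat_le
    have k1 : off i.1 + (blk i.1).lo + gi blk off j b / 2 = j := by
      rw [gi, e1, e2]
      rw [e1, e2] at g1
      omega
    have k2 : decide (gi blk off j b % 2 = 1) = b := by
      unfold gi
      cases b
      · exact decide_eq_false (by rw [Bool.toNat_false]; omega)
      · exact decide_eq_true (by rw [Bool.toNat_true]; omega)
    refine ⟨gi blk off j b, Finset.mem_range.2 (e1 ▸ (h.rng j.2).2.1 b), ?_,
      Prod.ext (Fin.ext k1) k2⟩
    rw [k1, k2, ← mul_assoc]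
    rwa [gA, if_pos hb] at hne
  · intro t ht _
    have ht' := Finset.mem_range.1 ht
    obtain ⟨e1, e2⟩ := hs (off i.1 + (blk i.1).lo + t / 2) (by omega) (by omega)
    rw [gA, if_pos (by rw [e1, e2]), r3 t ht', mul_assoc]

end Pool.Agent.MP_92463a_gt

end
end

section

open Set Complex Filter Metric
open scoped Topology ComplexConjugate ContDiff Manifold

noncomputable section

namespace Pool.Agent.MP_92463a_gt

theorem HdK1_cons (x : ℤ) (l : List ℤ) (v : ℝ) (m : List ℝ) :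
    dotZ (x :: l) (v :: m) = x * v + dotZ l m := by simp [dotZ]

theorem HdK1_lin (a : ℤ) : ∀ (x y : List ℤ) (v : List ℝ), x.length = y.length →
    dotZ (List.zipWith (fun p q => a * p + q) x y) v = a * dotZ x v + dotZ y v
  | [], [], v, _ => by simp [dotZ]
  | [], _ :: _, _, h => by simp at h
  | _ :: _, [], _, h => by simp at h
  | _ :: _, _ :: _, [], _ => by simp [dotZ]
  | p :: x, q :: y, w :: v, h => by
    rw [List.zipWith_cons_cons, HdK1_cons, HdK1_cons, HdK1_cons,
      HdK1_lin a x y v (by simpa using h)]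
    push_cast
    ring

theorem HdK1_zero : ∀ (n : ℕ) (v : List ℝ), dotZ (List.replicate n 0) v = 0
  | 0, v => by simp [dotZ]
  | _ + 1, [] => by simp [dotZ]
  | n + 1, w :: v => by rw [List.replicate_succ, HdK1_cons, HdK1_zero n v]; simp

theorem HdK1_comb (n : ℕ) (dv : List ℝ) : ∀ (a : List ℤ) (outs : List Out) (F : ℕ → ℝ),
    a.length = outs.length → (∀ o ∈ outs, o.J.length = n) →
    (∀ i < outs.length, |F i - (outs.getD i out0).F - dotZ (outs.getD i out0).J dv| ≤
      (outs.getD i out0).r) → (comb n a outs).J.length = n ∧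
    |∑ j ∈ Finset.range outs.length, ((a.getD j 0 : ℤ) : ℝ) * F j - (comb n a outs).F -
      dotZ (comb n a outs).J dv| ≤ (comb n a outs).r
  | [], [], F, _, _, _ => by simp [comb, HdK1_zero]
  | [], _ :: _, _, h, _, _ => by simp at h
  | _ :: _, [], _, h, _, _ => by simp at h
  | x :: a, o :: outs, F, h, hJ, hF => by
    obtain ⟨h1, h2⟩ := HdK1_comb n dv a outs (fun i => F (i + 1)) (by simpa using h)
      (fun o ho => hJ o (List.mem_cons_of_mem _ ho))
      (fun i hi => by simpa using hF (i + 1) (by simpa using hi))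
    have h3 := hJ o List.mem_cons_self
    have h4 : |F 0 - o.F - dotZ o.J dv| ≤ o.r := by simpa using hF 0 (by simp)
    refine ⟨by simp [comb, h1, h3], ?_⟩
    rw [List.length_cons, Finset.sum_range_succ']
    simp only [comb, List.getD_cons_succ, List.getD_cons_zero]
    rw [HdK1_lin x _ _ _ (h3.trans h1.symm)]
    have h5 : |(x : ℝ) * (F 0 - o.F - dotZ o.J dv)| ≤ |(x : ℝ)| * o.r := by
      rw [abs_mul]
      exact mul_le_mul_of_nonneg_left h4 (abs_nonneg _)
    have h6 := (abs_add_le _ _).trans (add_le_add h5 h2)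
    push_cast [Nat.cast_natAbs]
    refine le_of_eq_of_le (congrArg _ ?_) h6
    ring

theorem HdK1_term {v : ℝ} {h : ℕ} (hv : |v| ≤ h / 2 ^ 40) (x : ℤ) :
    |(x : ℝ) * v| ≤ |(x : ℝ)| * h / 2 ^ 40 := by
  rw [abs_mul, mul_div_assoc]
  exact mul_le_mul_of_nonneg_left hv (abs_nonneg _)

theorem HdK1_abs {dv : List ℝ} {hs : List ℕ}
    (hv : List.Forall₂ (fun (v : ℝ) (a : ℕ) => |v| ≤ a / 2 ^ 40) dv hs) (row : List ℤ) :
    |dotZ row dv| ≤ ((List.zipWith (fun x h => x.natAbs * h) row hs).sum : ℕ) / 2 ^ 40 := by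
  induction hv generalizing row with
  | nil => simp [dotZ]
  | cons h1 _ ih =>
    rcases row with _ | ⟨x, row⟩
    · simp [dotZ]
    · rw [HdK1_cons, List.zipWith_cons_cons, List.sum_cons]
      have h2 := (abs_add_le _ _).trans (add_le_add (HdK1_term h1 x) (ih row))
      rw [Nat.cast_add, Nat.cast_mul, Nat.cast_natAbs, Int.cast_abs, add_div]
      exact h2

theorem HdK1_off {dv : List ℝ} {hs : List ℕ}
    (hv : List.Forall₂ (fun (v : ℝ) (a : ℕ) => |v| ≤ a / 2 ^ 40) dv hs) (row : List ℤ) (k : ℕ) :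
    |dotZ row dv - (row.getD k 0 : ℤ) * dv.getD k 0| ≤
      (((List.zipWith (fun x h => x.natAbs * h) row hs).sum : ℕ) -
        |((row.getD k 0 : ℤ) : ℝ)| * (hs.getD k 0 : ℕ)) / 2 ^ 40 := by
  induction hv generalizing row k with
  | nil => simp [dotZ]
  | cons h1 h0 ih =>
    rcases row with _ | ⟨x, row⟩
    · simp [dotZ]
    · rw [HdK1_cons, List.zipWith_cons_cons, List.sum_cons, Nat.cast_add, Nat.cast_mul,
        Nat.cast_natAbs, Int.cast_abs]
      rcases k with _ | k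
      · simp only [List.getD_cons_zero, add_sub_cancel_left]
        exact HdK1_abs h0 row
      · simp only [List.getD_cons_succ]
        have h2 := (abs_add_le _ _).trans (add_le_add (HdK1_term h1 x) (ih row k))
        rw [add_sub_assoc, add_sub_assoc, add_div]
        exact h2

theorem Blk.sound {B : Blk} (h : B.chk = true) {dv : List ℝ}
    (hv : List.Forall₂ (fun (v : ℝ) (a : ℕ) => |v| ≤ a / 2 ^ 40) dv (hLs B.cells)) {F : ℕ → ℝ}
    (hF : ∀ i < 2 * B.cnt, |F i - (B.outs.getD i out0).F - dotZ (B.outs.getD i out0).J dv| ≤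
      (B.outs.getD i out0).r) {i : ℕ} (hi : i < 2 * B.cnt) :
    (dv.getD (2 * B.lo + i) 0 = ((hLs B.cells).getD (2 * B.lo + i) 0 : ℕ) / 2 ^ 40 →
      0 < ∑ j ∈ Finset.range (2 * B.cnt), (((B.A.getD i []).getD j 0 : ℤ) : ℝ) * F j) ∧
    (dv.getD (2 * B.lo + i) 0 = -(((hLs B.cells).getD (2 * B.lo + i) 0 : ℕ) / 2 ^ 40) →
      ∑ j ∈ Finset.range (2 * B.cnt), (((B.A.getD i []).getD j 0 : ℤ) : ℝ) * F j < 0) := by
  simp only [Blk.chk, Bool.and_eq_true, decide_eq_true_eq, List.all_eq_true, List.mem_range] at h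
  obtain ⟨⟨⟨⟨⟨-, ho, hA⟩, -⟩, hJ⟩, ha⟩, hr⟩ := h
  have hl : (B.A.getD i []).length = B.outs.length := by
    rw [ho, List.getD_eq_getElem _ _ (hA ▸ hi)]
    exact ha _ (List.getElem_mem _)
  obtain ⟨-, h2⟩ := HdK1_comb (2 * B.cells.length) dv (B.A.getD i []) B.outs F hl hJ (ho ▸ hF)
  have h3 := hr i hi
  rw [ho] at h2
  generalize comb (2 * B.cells.length) (B.A.getD i []) B.outs = o at h2 h3
  have h4 := HdK1_off hv o.J (2 * B.lo + i)
  simp only [rowOk, decide_eq_true_eq] at h3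
  generalize (List.zipWith (fun (x : ℤ) (h : ℕ) => x.natAbs * h) o.J (hLs B.cells)).sum = S at h3 h4
  generalize o.J.getD (2 * B.lo + i) 0 = x at h3 h4
  generalize (hLs B.cells).getD (2 * B.lo + i) 0 = w at h3 h4 ⊢
  have h5 : (|(o.F : ℝ)| + o.r) * 2 ^ 40 + S < 2 * x * w := by
    have h6 : ((((o.F.natAbs + o.r) * 2 ^ 40 + S : ℕ) : ℤ) : ℝ) < ((2 * x * (w : ℕ) : ℤ) : ℝ) :=
      Int.cast_lt.2 h3
    push_cast [Nat.cast_natAbs] at h6
    linarith
  have hw : (0 : ℝ) ≤ w := Nat.cast_nonneg _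
  have hx : (0 : ℝ) ≤ x := by
    by_contra hx
    have h7 : (0 : ℝ) ≤ (|(o.F : ℝ)| + o.r) * 2 ^ 40 + S := by positivity
    nlinarith [not_le.1 hx]
  rw [abs_of_nonneg hx, le_div_iff₀ (by positivity)] at h4
  have h8 := abs_le.1 h2
  have h9 := le_abs_self (o.F : ℝ)
  have h10 := neg_abs_le (o.F : ℝ)
  constructor <;> intro e <;> rw [e] at h4
  · have h11 := neg_abs_le (dotZ o.J dv - x * (w / 2 ^ 40))
    linarith [h8.1]
  · have h11 := le_abs_self (dotZ o.J dv - x * -(w / 2 ^ 40))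
    linarith [h8.2]

end Pool.Agent.MP_92463a_gt

end
end
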