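import Pool.Agent.Mg.F92463a.Gb59b98

section

open Set Complex Filter Metric
open scoped Topology ComplexConjugate ContDiff Manifold

noncomputable section

namespace Pool.Agent.MP_92463a_gt

variable {γ : ℕ}

theorem Zs.rf_rf (z : Zs γ) : z.rf.rf = z := by
  simp [Zs.rf, Fin.rev_rev]

theorem ang_rev (k : Fin γ) : ang γ k.rev = -ang γ k := by
  have h : (k : ℕ) + 1 ≤ γ := k.2
  simp only [ang, Fin.val_rev, Nat.cast_sub h]
  push_cast
  ring

theorem ZsB_sum_rev {M : Type} [AddCommMonoid M] (f : Fin γ → M) :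
    ∑ k : Fin γ, f k.rev = ∑ k, f k :=
  Equiv.sum_comp Fin.revPerm f

theorem ZsB_mean_rf (z : Zs γ) : z.rf.mean = conj z.mean := by
  simp only [Zs.mean, Zs.rf, map_div₀, map_sum, map_natCast]
  rw [ZsB_sum_rev fun k => conj (z.1 k)]

theorem ZsB_xi_rf (z : Zs γ) (k : Fin γ) : z.rf.ξ k = conj (z.ξ k.rev) := by
  simp only [Zs.ξ, ZsB_mean_rf, map_sub]
  rfl

theorem ZsB_eh_rf (z : Zs γ) (k : Fin γ) : z.rf.eh k = conj (z.eh k.rev) := by
  simp only [Zs.eh, Zs.rf, map_add, map_mul, map_one, conj_I, conj_ofReal]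
  push_cast
  ring

theorem Zs.lu_rf (z : Zs γ) (hγ : 0 < γ) (k : Fin γ) :
    z.rf.lu (k, false) = conj (z.lu (k.rev, false)) ∧
      z.rf.lu (k, true) = conj (z.lu (k.rev, true)) + 2 * Real.pi * I := by
  have _ := hγ
  constructor
  · simp only [Zs.lu, ZsB_xi_rf, ang_rev, map_add, map_mul, conj_I, conj_ofReal]
    push_cast
    ring
  · have h : z.rf.2.2.2 k = conj (z.2.2.2 k.rev) := rfl
    simp only [Zs.lu, ZsB_xi_rf, h, ang_rev, map_add, map_mul, map_sub, conj_I, conj_ofReal]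
    push_cast
    ring

theorem ZsB_exp_rf (z : Zs γ) (k : Fin γ) (b : Bool) :
    exp (z.rf.lu (k, b)) = conj (exp (z.lu (k.rev, b))) := by
  have h := z.lu_rf k.pos k
  cases b
  · rw [h.1, exp_conj]
  · rw [h.2, exp_add, exp_two_pi_mul_I, mul_one, exp_conj]

theorem ZsB_fc_rf (z : Zs γ) (k : Fin γ) (b : Bool) :
    z.rf.fc (k, b) = conj (z.fc (k.rev, b)) := by
  simp only [Zs.fc, ZsB_exp_rf, ZsB_eh_rf, map_add, map_mul, map_sum, map_div₀, map_sub,
    map_ofNat]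
  congr 1
  refine Finset.sum_nbij' Fin.rev Fin.rev ?_ ?_ ?_ ?_ ?_
  · intro j hj
    simpa [Fin.rev_inj] using hj
  · intro j hj
    simpa [Fin.rev_eq_iff] using hj
  · intro j _
    exact Fin.rev_rev j
  · intro j _
    exact Fin.rev_rev j
  · intro j _
    rfl

theorem Zs.lim_rf (z : Zs γ) : z.rf.lim = z.lim.rf := by
  refine Prod.ext (funext fun k => ?_) (Prod.ext (funext fun k => ?_) (Prod.ext rfl
    (funext fun k => ?_)))
  · have h : z.rf.2.2.2 k = conj (z.2.2.2 k.rev) := rfl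
    have h2 : conj (exp (conj (z.2.2.2 k.rev) / 2)) = exp (z.2.2.2 k.rev / 2) := by
      rw [← exp_conj, map_div₀, conj_conj, map_ofNat]
    have h3 : z.lim.rf.1 k = conj (z.lim.1 k.rev) := rfl
    rw [h3]
    simp only [Zs.lim, h, ZsB_eh_rf, ZsB_fc_rf, ZsB_mean_rf, map_add, map_mul, map_neg, h2,
      conj_conj, conj_re, conj_im, conj_I, conj_ofReal, map_natCast, map_div₀, map_one,
      map_ofNat]
    push_cast
    ring
  · have h3 : z.lim.rf.2.1 k = z.lim.2.1 k.rev := rfl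
    have h : ∀ j, z.rf.2.1 j = z.2.1 j.rev := fun _ => rfl
    rw [h3]
    simp only [Zs.lim, ZsB_mean_rf, h, conj_re, ZsB_sum_rev z.2.1]
  · have h : z.rf.2.2.2 k = conj (z.2.2.2 k.rev) := rfl
    have h3 : z.lim.rf.2.2.2 k = conj (z.lim.2.2.2 k.rev) := rfl
    rw [h3]
    simp only [Zs.lim, h, map_sub, map_one, ← exp_conj, map_div₀, map_neg, map_ofNat]

theorem Zs.small {z : Zs γ} (hγ : 0 < γ) (h : ‖z‖ ≤ 1 / (100 * γ)) (k : Fin γ) :
    ‖z.mean‖ ≤ 1 / (100 * γ) ∧ ‖z.ξ k‖ ≤ 2 / (100 * γ) ∧ ‖z.eh k - 1‖ ≤ 2 / (100 * γ) ∧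
      ‖z.lu (k, false) - I * ang γ k‖ ≤ 2 / (100 * γ) ∧
      ‖z.lu (k, true) - I * (Real.pi - ang γ k)‖ ≤ 3 / (100 * γ) := by
  have hγ' : (0 : ℝ) < γ := by exact_mod_cast hγ
  have h1 : ∀ j, ‖z.1 j‖ ≤ 1 / (100 * γ) := fun j =>
    (norm_le_pi_norm z.1 j).trans ((norm_fst_le z).trans h)
  have h2 : ‖z.2.1 k‖ ≤ 1 / (100 * γ) :=
    (norm_le_pi_norm z.2.1 k).trans ((norm_fst_le z.2).trans ((norm_snd_le z).trans h))
  have h3 : ‖z.2.2.1 k‖ ≤ 1 / (100 * γ) :=
    (norm_le_pi_norm z.2.2.1 k).trans ((norm_fst_le z.2.2).trans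
      ((norm_snd_le z.2).trans ((norm_snd_le z).trans h)))
  have h4 : ‖z.2.2.2 k‖ ≤ 1 / (100 * γ) :=
    (norm_le_pi_norm z.2.2.2 k).trans ((norm_snd_le z.2.2).trans
      ((norm_snd_le z.2).trans ((norm_snd_le z).trans h)))
  have e2 : (2 : ℝ) / (100 * γ) = 1 / (100 * γ) + 1 / (100 * γ) := by ring
  have e3 : (3 : ℝ) / (100 * γ) = 2 / (100 * γ) + 1 / (100 * γ) := by ring
  have hm : ‖z.mean‖ ≤ 1 / (100 * γ) := by
    rw [Zs.mean, norm_div, Complex.norm_natCast, div_le_iff₀ hγ']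
    refine (norm_sum_le _ _).trans ((Finset.sum_le_sum fun j _ => h1 j).trans (le_of_eq ?_))
    rw [Finset.sum_const, Finset.card_univ, Fintype.card_fin, nsmul_eq_mul, mul_comm]
  have hx : ‖z.ξ k‖ ≤ 2 / (100 * γ) := by
    rw [e2]
    exact (norm_sub_le _ _).trans (add_le_add (h1 k) hm)
  refine ⟨hm, hx, ?_, ?_, ?_⟩
  · have : z.eh k - 1 = z.2.1 k + I * z.2.2.1 k := by
      rw [Zs.eh]
      ring
    rw [this, e2]
    refine (norm_add_le _ _).trans (add_le_add ?_ ?_)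
    · rwa [Complex.norm_real]
    · rwa [norm_mul, norm_I, one_mul, Complex.norm_real]
  · simpa only [Zs.lu, add_sub_cancel_left] using hx
  · have : z.lu (k, true) - I * (Real.pi - ang γ k) = conj (z.ξ k) + z.2.2.2 k := by
      rw [Zs.lu]
      ring
    rw [this, e3]
    refine (norm_add_le _ _).trans (add_le_add ?_ h4)
    rwa [Complex.norm_conj]

theorem ang_bd (k : Fin γ) : |ang γ k| ≤ Real.pi - Real.pi / γ ∧
    (2 * (k : ℕ) + 1 = γ → ang γ k = 0) ∧ (γ < 2 * (k : ℕ) + 1 → Real.pi / γ ≤ ang γ k) ∧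
    (2 * (k : ℕ) + 1 < γ → ang γ k ≤ -(Real.pi / γ)) := by
  have hγ : (0 : ℝ) < γ := by exact_mod_cast k.pos
  have hp : 0 < Real.pi / γ := div_pos Real.pi_pos hγ
  have h0 : ang γ k = (2 * (k : ℕ) + 1 - γ) * (Real.pi / γ) := by rw [ang, mul_div_assoc]
  have h1 : ((k : ℕ) : ℝ) + 1 ≤ γ := by exact_mod_cast k.2
  have h2 : (0 : ℝ) ≤ (k : ℕ) := Nat.cast_nonneg _
  have h3 : Real.pi - Real.pi / γ = (γ - 1) * (Real.pi / γ) := by field_simp
  refine ⟨?_, fun h => ?_, fun h => ?_, fun h => ?_⟩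
  · rw [h0, h3, abs_le]
    constructor <;> nlinarith
  · have h4 : (2 * (k : ℕ) + 1 : ℝ) = γ := by exact_mod_cast h
    rw [h0, h4, sub_self, zero_mul]
  · have h4 : (γ : ℝ) + 1 ≤ 2 * (k : ℕ) + 1 := by exact_mod_cast h
    rw [h0]
    nlinarith
  · have h4 : (2 * (k : ℕ) + 1 + 1 : ℝ) ≤ γ := by exact_mod_cast h
    rw [h0]
    nlinarith

theorem ZsB_sin {x d : ℝ} (h1 : d ≤ x) (h2 : x ≤ Real.pi - d) (hd : 0 ≤ d) :
    2 / Real.pi * d ≤ Real.sin x := by
  have hp := Real.pi_pos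
  rcases le_total x (Real.pi / 2) with h | h
  · exact le_trans (by gcongr) (Real.mul_le_sin (hd.trans h1) h)
  · rw [← Real.sin_pi_sub]
    refine le_trans ?_ (Real.mul_le_sin (x := Real.pi - x) (by linarith) (by linarith))
    gcongr
    linarith

theorem ZsB_chord {j k : Fin γ} (hjk : j ≠ k) (x y : ℝ) (h : |x - y| = |ang γ j - ang γ k|) :
    4 / γ ≤ ‖exp (I * x) - exp (I * y)‖ := by
  have hγ : (0 : ℝ) < γ := by exact_mod_cast k.pos
  have hp : 0 < Real.pi / γ := div_pos Real.pi_pos hγ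
  have h1 : exp (I * x) - exp (I * y) = exp (I * y) * (exp (I * (x - y : ℝ)) - 1) := by
    rw [mul_sub, ← exp_add, mul_one]
    congr 2
    push_cast
    ring
  have h2 : |x - y| / 2 = |((j : ℕ) : ℝ) - (k : ℕ)| * (Real.pi / γ) := by
    have : ang γ j - ang γ k = 2 * ((((j : ℕ) : ℝ) - (k : ℕ)) * (Real.pi / γ)) := by
      simp only [ang]
      ring
    rw [h, this, abs_mul, abs_mul, abs_of_pos hp, abs_two]
    ring
  have h3 : (1 : ℝ) ≤ |((j : ℕ) : ℝ) - (k : ℕ)| := by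
    have : (1 : ℤ) ≤ |((j : ℕ) : ℤ) - (k : ℕ)| :=
      Int.one_le_abs (sub_ne_zero.2 fun e => hjk (Fin.ext (by exact_mod_cast e)))
    exact_mod_cast this
  have h4 : |((j : ℕ) : ℝ) - (k : ℕ)| ≤ γ - 1 := by
    have a1 : ((k : ℕ) : ℝ) + 1 ≤ γ := by exact_mod_cast k.2
    have a2 : ((j : ℕ) : ℝ) + 1 ≤ γ := by exact_mod_cast j.2
    have a3 : (0 : ℝ) ≤ (k : ℕ) := Nat.cast_nonneg _
    have a4 : (0 : ℝ) ≤ (j : ℕ) := Nat.cast_nonneg _
    rw [abs_le]
    constructor <;> linarith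
  have h5 : Real.pi - Real.pi / γ = (γ - 1) * (Real.pi / γ) := by field_simp
  have h6 := ZsB_sin (x := |x - y| / 2) (d := Real.pi / γ) (by rw [h2]; nlinarith)
    (by rw [h2, h5]; nlinarith) hp.le
  have h7 : 2 / Real.pi * (Real.pi / γ) = 2 / γ := by
    have := Real.pi_pos
    field_simp
  have h8 : Real.sin (|x - y| / 2) ≤ |Real.sin ((x - y) / 2)| := by
    rcases abs_cases (x - y) with e | e
    · rw [e.1]
      exact le_abs_self _
    · rw [e.1, neg_div, Real.sin_neg]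
      exact neg_le_abs _
  rw [h1, norm_mul, mul_comm I (y : ℂ), norm_exp_ofReal_mul_I, one_mul,
    norm_exp_I_mul_ofReal_sub_one, norm_mul, Real.norm_eq_abs, Real.norm_eq_abs, abs_two]
  have h9 : (4 : ℝ) / γ = 2 * (2 / γ) := by ring
  linarith

theorem ZsB_im (u : ℂ) (x : ℝ) : ‖I * (u.im : ℂ) - I * x‖ ≤ ‖u - I * x‖ := by
  have h : I * (u.im : ℂ) - I * x = I * ((u - I * x).im : ℂ) := by
    simp only [sub_im, mul_im, I_re, ofReal_im, mul_zero, I_im, ofReal_re, one_mul, zero_add]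
    push_cast
    ring
  rw [h, norm_mul, norm_I, one_mul, Complex.norm_real, Real.norm_eq_abs]
  exact abs_im_le_norm _

theorem ZsB_near (hγ : 0 < γ) {u : ℂ} {x : ℝ} (h : ‖u - I * x‖ ≤ 3 / (100 * γ)) :
    ‖exp u - exp (I * x)‖ ≤ 6 / (100 * γ) := by
  have hγ' : (1 : ℝ) ≤ γ := by exact_mod_cast hγ
  have h1 : exp u - exp (I * x) = exp (I * x) * (exp (u - I * x) - 1) := by
    rw [mul_sub, ← exp_add, mul_one, add_sub_cancel]
  have h2 : (3 : ℝ) / (100 * γ) ≤ 1 := by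
    rw [div_le_one (by positivity)]
    linarith
  rw [h1, norm_mul, mul_comm I (x : ℂ), norm_exp_ofReal_mul_I, one_mul, mul_comm (x : ℂ) I]
  refine (Complex.norm_exp_sub_one_le (h.trans h2)).trans ?_
  have h3 : (6 : ℝ) / (100 * γ) = 2 * (3 / (100 * γ)) := by ring
  linarith

theorem ZsB_pert (hγ : 0 < γ) {x y : ℝ} (h : 4 / γ ≤ ‖exp (I * x) - exp (I * y)‖) {u v : ℂ}
    (hu : ‖u - I * x‖ ≤ 3 / (100 * γ)) (hv : ‖v - I * y‖ ≤ 3 / (100 * γ)) :
    3 / γ ≤ ‖exp u - exp v‖ := by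
  have hγ' : (0 : ℝ) < γ := by exact_mod_cast hγ
  have h1 := ZsB_near hγ hu
  have h2 := ZsB_near hγ hv
  have h3 : exp (I * x) - exp (I * y) =
      (exp u - exp v) - (exp u - exp (I * x)) + (exp v - exp (I * y)) := by ring
  have h4 := (norm_add_le ((exp u - exp v) - (exp u - exp (I * x))) (exp v - exp (I * y))).trans
    (add_le_add (norm_sub_le _ _) le_rfl)
  rw [← h3] at h4
  have e1 : (6 : ℝ) / (100 * γ) = 6 / 100 * (1 / γ) := by field_simp
  have e2 : (4 : ℝ) / γ = 4 * (1 / γ) := by ring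
  have e3 : (3 : ℝ) / γ = 3 * (1 / γ) := by ring
  have e4 : (0 : ℝ) < 1 / γ := by positivity
  linarith

/-- the directions of the ports of one sheet are separated -/
theorem Zs.sep {z : Zs γ} (hγ : 0 < γ) (h : ‖z‖ ≤ 1 / (100 * γ)) {j k : Fin γ} (hjk : j ≠ k)
    (b : Bool) : 3 / γ ≤ ‖exp (I * (z.lu (j, b)).im) - exp (I * (z.lu (k, b)).im)‖ ∧
      3 / γ ≤ ‖exp (z.lu (j, b)) - exp (z.lu (k, b))‖ := by
  have hγ' : (0 : ℝ) < γ := by exact_mod_cast hγ
  have key : ∃ θ : Fin γ → ℝ, (∀ i, ‖z.lu (i, b) - I * θ i‖ ≤ 3 / (100 * γ)) ∧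
      4 / γ ≤ ‖exp (I * θ j) - exp (I * θ k)‖ := by
    cases b
    · refine ⟨ang γ, fun i => (Zs.small hγ h i).2.2.2.1.trans (by gcongr; norm_num), ?_⟩
      exact ZsB_chord hjk _ _ rfl
    · refine ⟨fun i => Real.pi - ang γ i, fun i => ?_, ?_⟩
      · simpa only [ofReal_sub] using (Zs.small hγ h i).2.2.2.2
      · exact ZsB_chord hjk _ _ (by rw [abs_sub_comm]; congr 1; ring)
  obtain ⟨θ, h1, h2⟩ := key
  refine ⟨ZsB_pert hγ h2 ?_ ?_, ZsB_pert hγ h2 (h1 j) (h1 k)⟩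
  · exact (ZsB_im _ _).trans (h1 j)
  · exact (ZsB_im _ _).trans (h1 k)

theorem ZsB_ne {z : Zs γ} (hγ : 0 < γ) (h : ‖z‖ ≤ 1 / (100 * γ)) {j k : Fin γ} (hjk : j ≠ k)
    (b : Bool) : exp (z.lu (k, b)) - exp (z.lu (j, b)) ≠ 0 := by
  intro e
  have h1 := (Zs.sep hγ h hjk.symm b).2
  have hγ' : (0 : ℝ) < γ := by exact_mod_cast hγ
  rw [e, norm_zero] at h1
  exact absurd h1 (not_le.2 (by positivity))

theorem ZsB_mean_zero : (0 : Zs γ).mean = 0 := by simp [Zs.mean]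

theorem ZsB_xi_zero (k : Fin γ) : (0 : Zs γ).ξ k = 0 := by simp [Zs.ξ, ZsB_mean_zero]

theorem ZsB_eh_zero (k : Fin γ) : (0 : Zs γ).eh k = 1 := by simp [Zs.eh]

theorem ZsB_sum [NeZero γ] (E : Fin γ → ℂ) (k : Fin γ)
    (h1 : ∀ j, j ≠ k → E k - E j ≠ 0) (h2 : ∀ j, E (k + k - j) * E j = E k * E k) :
    ∑ j ∈ Finset.univ.erase k, E k / (E k - E j) = (γ - 1) / 2 := by
  have hm : ∀ j, j ≠ k → k + k - j ≠ k := fun j hj e => hj (by
    have := sub_eq_iff_eq_add.1 e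
    exact (add_left_cancel this).symm)
  have h3 : ∑ j ∈ Finset.univ.erase k, E k / (E k - E j) =
      ∑ j ∈ Finset.univ.erase k, E k / (E k - E (k + k - j)) := by
    refine Finset.sum_nbij' (fun j => k + k - j) (fun j => k + k - j) ?_ ?_ ?_ ?_ ?_
    · intro j hj
      simpa using hm j (by simpa using hj)
    · intro j hj
      simpa using hm j (by simpa using hj)
    · intro j _
      exact sub_sub_cancel _ _
    · intro j _
      exact sub_sub_cancel _ _
    · intro j _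
      simp only [sub_sub_cancel]
  have h4 : ∑ j ∈ Finset.univ.erase k, (E k / (E k - E j) + E k / (E k - E (k + k - j))) =
      γ - 1 := by
    rw [Finset.sum_congr rfl (g := fun _ => 1)]
    · rw [Finset.sum_const, Finset.card_erase_of_mem (Finset.mem_univ k), Finset.card_univ,
        Fintype.card_fin, nsmul_eq_mul, mul_one, Nat.cast_sub k.pos, Nat.cast_one]
    · intro j hj
      have hj' : j ≠ k := by simpa using hj
      have a1 := h1 j hj'
      have a2 := h1 _ (hm j hj')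
      field_simp
      linear_combination (-1 : ℂ) * h2 j
  rw [Finset.sum_add_distrib, ← h3] at h4
  linear_combination h4 / 2

theorem Zs.fc_zero (e : Fin γ × Bool) : (0 : Zs γ).fc e = (γ - 1) / 2 + 3 / 4 := by
  obtain ⟨k, b⟩ := e
  have hγ := k.pos
  have : NeZero γ := ⟨hγ.ne'⟩
  have hγ' : (γ : ℂ) ≠ 0 := by exact_mod_cast hγ.ne'
  have h0 : ‖(0 : Zs γ)‖ ≤ 1 / (100 * γ) := by
    rw [norm_zero]
    positivity
  simp only [Zs.fc, ZsB_eh_zero, one_mul, mul_one]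
  congr 1
  refine ZsB_sum (fun j => exp ((0 : Zs γ).lu (j, b))) k
    (fun j hj => ZsB_ne hγ h0 hj b) fun j => ?_
  have h1 : (((k + k - j : Fin γ) : ℕ) + (j : ℕ)) % γ = ((k : ℕ) + k) % γ := by
    rw [← Fin.val_add, ← Fin.val_add, sub_add_cancel]
  obtain ⟨m, hm⟩ := (Nat.modEq_iff_dvd.1 h1)
  have h2 : ((k : ℕ) : ℂ) + (k : ℕ) - (((k + k - j : Fin γ) : ℕ) + (j : ℕ)) = γ * m := by
    exact_mod_cast hm
  simp only [← exp_add]
  rw [exp_eq_exp_iff_exists_int]
  cases b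
  · refine ⟨-m, ?_⟩
    simp only [Zs.lu, ZsB_xi_zero, ang]
    push_cast
    field_simp
    linear_combination (-2 * I * Real.pi : ℂ) * h2
  · refine ⟨m, ?_⟩
    simp only [Zs.lu, ZsB_xi_zero, ang, Prod.snd_zero, Pi.zero_apply, map_zero]
    push_cast
    field_simp
    linear_combination (2 * I * Real.pi : ℂ) * h2

theorem Zs.lim_zero : (0 : Zs γ).lim = 0 := by
  refine Prod.ext (funext fun k => ?_) (Prod.ext (funext fun k => ?_) (Prod.ext rfl
    (funext fun k => ?_)))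
  · simp only [Zs.lim, Zs.fc_zero, ZsB_eh_zero, ZsB_mean_zero, Prod.snd_zero, Prod.fst_zero,
      Pi.zero_apply, zero_div, exp_zero, one_mul, map_add, map_div₀, map_sub, map_natCast,
      map_one, map_ofNat, zero_re, zero_im, ofReal_zero]
    ring
  · simp [Zs.lim, ZsB_mean_zero]
  · simp [Zs.lim]

theorem ZsB_cd_mean : ContDiff ℝ 1 (Zs.mean : Zs γ → ℂ) := by
  unfold Zs.mean
  fun_prop

theorem ZsB_cd_xi (k : Fin γ) : ContDiff ℝ 1 fun z : Zs γ => z.ξ k :=
  ContDiff.sub (by fun_prop) ZsB_cd_mean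

theorem ZsB_cd_four (k : Fin γ) : ContDiff ℝ 1 fun z : Zs γ => z.2.2.2 k := by fun_prop

theorem ZsB_cd_eh (k : Fin γ) : ContDiff ℝ 1 fun z : Zs γ => z.eh k := by
  have h1 : ContDiff ℝ 1 fun z : Zs γ => z.2.1 k := by fun_prop
  have h2 : ContDiff ℝ 1 fun z : Zs γ => z.2.2.1 k := by fun_prop
  exact (contDiff_const.add (ofRealCLM.contDiff.comp h1)).add
    (contDiff_const.mul (ofRealCLM.contDiff.comp h2))

theorem ZsB_cd_lu (e : Fin γ × Bool) : ContDiff ℝ 1 fun z : Zs γ => z.lu e := by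
  obtain ⟨k, b⟩ := e
  cases b
  · exact contDiff_const.add (ZsB_cd_xi k)
  · exact (contDiff_const.add (conjCLE.contDiff.comp (ZsB_cd_xi k))).add (ZsB_cd_four k)

theorem ZsB_cd_fc (hγ : 0 < γ) {z : Zs γ} (h : ‖z‖ ≤ 1 / (100 * γ)) (e : Fin γ × Bool) :
    ContDiffAt ℝ 1 (fun z : Zs γ => z.fc e) z := by
  refine ContDiffAt.add (ContDiffAt.sum fun j hj => ?_)
    (contDiff_const.mul (ZsB_cd_eh _)).contDiffAt
  simp only [div_eq_mul_inv]
  refine ((ZsB_cd_eh j).mul (ZsB_cd_lu e).cexp).contDiffAt.mul (ContDiffAt.inv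
    ((ZsB_cd_lu e).cexp.sub (ZsB_cd_lu _).cexp).contDiffAt ?_)
  exact ZsB_ne hγ h (Finset.ne_of_mem_erase hj) e.2

theorem Zs.lim_contDiff (hγ : 0 < γ) {z : Zs γ} (h : ‖z‖ ≤ 1 / (100 * γ)) :
    ContDiffAt ℝ 1 (Zs.lim : Zs γ → Zs γ) z := by
  have hre : ContDiff ℝ 1 fun z : Zs γ => z.mean.re := reCLM.contDiff.comp ZsB_cd_mean
  have him : ContDiff ℝ 1 fun z : Zs γ => z.mean.im := imCLM.contDiff.comp ZsB_cd_mean
  refine ContDiffAt.prodMk (contDiffAt_pi.2 fun k => ?_) (ContDiffAt.prodMk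
    (contDiffAt_pi.2 fun k => ?_) (ContDiffAt.prodMk (by fun_prop) (contDiffAt_pi.2 fun k => ?_)))
  · refine (((ZsB_cd_eh k).contDiffAt.mul (ContDiffAt.add ?_ (ZsB_cd_fc hγ h _))).add ?_).add ?_
    · exact (contDiff_const.add (ofRealCLM.contDiff.comp hre)).neg.contDiffAt
    · refine conjCLE.contDiff.contDiffAt.comp z
        ((ContDiffAt.mul ?_ (ZsB_cd_eh k).contDiffAt).mul (ZsB_cd_fc hγ h _))
      exact ((ZsB_cd_four k).div_const 2).cexp.contDiffAt
    · exact (contDiff_const.mul (ofRealCLM.contDiff.comp him)).contDiffAt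
  · refine ((hre.sub ?_).sub ?_).contDiffAt <;> fun_prop
  · exact (((ZsB_cd_four k).neg.div_const 2).cexp.sub contDiff_const).contDiffAt

end Pool.Agent.MP_92463a_gt

end
end

section

open Set Complex Filter Metric
open scoped Topology ComplexConjugate ContDiff Manifold

noncomputable section

namespace Pool.Agent.MP_92463a_gt

variable {γ : ℕ}

/-- the weights of the linearised interaction -/
def NDk (k j : Fin γ) : ℝ := (normSq (exp (I * ang γ k) - exp (I * ang γ j)))⁻¹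

theorem ND_symm (k j : Fin γ) : NDk k j = NDk j k := by
  rw [NDk, NDk, ← normSq_neg, neg_sub]

theorem ND_zero_le : ‖(0 : Zs γ)‖ ≤ 1 / (100 * γ) := by
  rw [norm_zero]
  positivity

theorem ND_lu_f (k : Fin γ) : (0 : Zs γ).lu (k, false) = I * ang γ k := by
  simp [Zs.lu, ZsB_xi_zero]

theorem ND_lu_t (k : Fin γ) : exp ((0 : Zs γ).lu (k, true)) = -conj (exp (I * ang γ k)) := by
  have : (0 : Zs γ).lu (k, true) = Real.pi * I + conj (I * ang γ k) := by
    simp only [Zs.lu, ZsB_xi_zero, map_zero, Prod.snd_zero, Pi.zero_apply, map_mul, conj_I,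
      conj_ofReal]
    ring
  rw [this, exp_add, exp_pi_mul_I, exp_conj, neg_one_mul]

theorem ND_pos {k j : Fin γ} (h : j ≠ k) : 0 < NDk k j := by
  have := ZsB_ne k.pos ND_zero_le h false
  rw [ND_lu_f, ND_lu_f] at this
  exact inv_pos.2 (normSq_pos.2 this)

theorem ND_unit {a b : ℂ} (ha : a * conj a = 1) (hb : b * conj b = 1) (h : a - b ≠ 0) :
    -(a * b) / (a - b) ^ 2 = ((normSq (a - b))⁻¹ : ℝ) := by
  have h1 : conj (a - b) ≠ 0 := by rwa [map_ne_zero]
  rw [ofReal_inv, ← mul_conj, div_eq_iff (pow_ne_zero 2 h)]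
  field_simp
  rw [map_sub]
  linear_combination (-b) * ha + a * hb

theorem ND_exp (k : Fin γ) : exp (I * ang γ k) * conj (exp (I * ang γ k)) = 1 := by
  rw [← exp_conj, ← exp_add, map_mul, conj_I, conj_ofReal]
  simp

theorem ND_weight {k j : Fin γ} (h : j ≠ k) (b : Bool) :
    -(exp ((0 : Zs γ).lu (k, b)) * exp ((0 : Zs γ).lu (j, b))) /
      (exp ((0 : Zs γ).lu (k, b)) - exp ((0 : Zs γ).lu (j, b))) ^ 2 = NDk k j := by
  have h1 := ZsB_ne k.pos ND_zero_le h b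
  cases b
  · rw [ND_lu_f, ND_lu_f] at h1 ⊢
    exact ND_unit (ND_exp k) (ND_exp j) h1
  · rw [ND_unit _ _ h1, ND_lu_t, ND_lu_t, NDk, ← neg_sub', normSq_neg, ← map_sub, normSq_conj]
    · rw [ND_lu_t, map_neg, conj_conj, neg_mul_neg, mul_comm, ND_exp]
    · rw [ND_lu_t, map_neg, conj_conj, neg_mul_neg, mul_comm, ND_exp]

theorem ND_mean (t : ℝ) (d : Zs γ) : (t • d).mean = t * d.mean := by
  simp only [Zs.mean, Prod.smul_fst, Pi.smul_apply, real_smul, ← Finset.mul_sum, mul_div_assoc]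

theorem ND_xi (t : ℝ) (d : Zs γ) (k : Fin γ) : (t • d).ξ k = t * d.ξ k := by
  simp only [Zs.ξ, ND_mean, Prod.smul_fst, Pi.smul_apply, real_smul, mul_sub]

theorem ND_lin (a c : ℂ) : HasDerivAt (fun t : ℝ => a + t * c) c 0 := by
  simpa using ((hasDerivAt_id (0 : ℝ)).ofReal_comp.mul_const c).const_add a

theorem ND_eh {d : Zs γ} {η : ℝ} (h1 : ∀ k, d.2.1 k = η) (h2 : d.2.2.1 = 0) (k : Fin γ) :
    HasDerivAt (fun t : ℝ => (t • d).eh k) η 0 := by
  refine (ND_lin 1 η).congr_of_eventuallyEq (Eventually.of_forall fun t => ?_)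
  simp [Zs.eh, h1, h2]

theorem ND_lu {d : Zs γ} (h3 : d.2.2.2 = 0) (k : Fin γ) (b : Bool) :
    HasDerivAt (fun t : ℝ => (t • d).lu (k, b)) (if b then conj (d.ξ k) else d.ξ k) 0 := by
  cases b
  · refine (ND_lin (I * ang γ k) _).congr_of_eventuallyEq (Eventually.of_forall fun t => ?_)
    simp [Zs.lu, ND_xi]
  · refine (ND_lin (I * (Real.pi - ang γ k)) _).congr_of_eventuallyEq
      (Eventually.of_forall fun t => ?_)
    simp [Zs.lu, ND_xi, h3]

/-- the linearised interaction -/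
def NDl (x : Fin γ → ℂ) (k : Fin γ) : ℂ := ∑ j ∈ Finset.univ.erase k, NDk k j * (x k - x j)

theorem ND_fc {d : Zs γ} {η : ℝ} (h1 : ∀ k, d.2.1 k = η) (h2 : d.2.2.1 = 0) (h3 : d.2.2.2 = 0)
    (k : Fin γ) (b : Bool) : HasDerivAt (fun t : ℝ => (t • d).fc (k, b))
      (η * ((γ - 1) / 2 + 3 / 4) + NDl (fun j => if b then conj (d.ξ j) else d.ξ j) k) 0 := by
  have h4 := (HasDerivAt.fun_sum (u := Finset.univ.erase k) fun j hj =>
    (((ND_eh h1 h2 j).fun_mul (ND_lu h3 k b).cexp).fun_div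
      ((ND_lu h3 k b).cexp.fun_sub (ND_lu h3 j b).cexp) (by
        rw [zero_smul]
        exact ZsB_ne k.pos ND_zero_le (Finset.ne_of_mem_erase hj) b))).fun_add
    ((ND_eh h1 h2 k).const_mul (3 / 4))
  refine h4.congr_deriv ?_
  rw [← Zs.fc_zero (k, b), Zs.fc, NDl, mul_add, Finset.mul_sum, add_right_comm,
    ← Finset.sum_add_distrib, ZsB_eh_zero, mul_one, mul_comm (η : ℂ) (3 / 4)]
  congr 1
  refine Finset.sum_congr rfl fun j hj => ?_
  have h5 := ZsB_ne k.pos ND_zero_le (Finset.ne_of_mem_erase hj) b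
  rw [← ND_weight (Finset.ne_of_mem_erase hj) b, zero_smul, ZsB_eh_zero]
  field_simp
  ring

theorem ND_conj (x : Fin γ → ℂ) (k : Fin γ) : conj (NDl (fun j => conj (x j)) k) = NDl x k := by
  simp only [NDl, map_sum, map_mul, map_sub, conj_conj, conj_ofReal]

theorem ND_full (x : Fin γ → ℂ) (k : Fin γ) : NDl x k = ∑ j, NDk k j * (x k - x j) :=
  Finset.sum_erase _ (by rw [sub_self, mul_zero])

theorem ND_quad (x y : Fin γ → ℂ) :
    2 * ∑ k, y k * NDl x k = ∑ k, ∑ j, NDk k j * ((y k - y j) * (x k - x j)) := by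
  have h1 : ∑ k, y k * NDl x k = ∑ k, ∑ j, NDk k j * (y k * (x k - x j)) := by
    simp only [ND_full, Finset.mul_sum]
    exact Finset.sum_congr rfl fun k _ => Finset.sum_congr rfl fun j _ => by ring
  have h2 : ∑ k, y k * NDl x k = ∑ k, ∑ j, NDk k j * (y j * (x j - x k)) := by
    rw [h1, Finset.sum_comm]
    exact Finset.sum_congr rfl fun k _ => Finset.sum_congr rfl fun j _ => by rw [ND_symm]
  rw [two_mul]
  nth_rewrite 1 [h1]
  rw [h2, ← Finset.sum_add_distrib]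
  refine Finset.sum_congr rfl fun k _ => ?_
  rw [← Finset.sum_add_distrib]
  exact Finset.sum_congr rfl fun j _ => by ring

theorem ND_const {x : Fin γ → ℂ} (h : ∀ k, NDl x k = 0) (k j : Fin γ) : x k = x j := by
  have h1 := ND_quad x fun k => conj (x k)
  simp only [h, mul_zero, Finset.sum_const_zero, ← map_sub, ← normSq_eq_conj_mul_self] at h1
  have h2 : ∑ k, ∑ j, NDk k j * normSq (x k - x j) = 0 := by exact_mod_cast h1.symm
  have h3 : ∀ k j : Fin γ, 0 ≤ NDk k j * normSq (x k - x j) := fun k j =>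
    mul_nonneg (inv_nonneg.2 (normSq_nonneg _)) (normSq_nonneg _)
  rw [Finset.sum_eq_zero_iff_of_nonneg fun k _ => Finset.sum_nonneg fun j _ => h3 k j] at h2
  have h4 := (Finset.sum_eq_zero_iff_of_nonneg fun j _ => h3 k j).1 (h2 k (Finset.mem_univ _)) j
    (Finset.mem_univ _)
  by_contra hne
  have h5 : j ≠ k := fun e => hne (by rw [e])
  exact hne (sub_eq_zero.1 (normSq_eq_zero.1 ((mul_eq_zero.1 h4).resolve_left (ND_pos h5).ne')))

theorem ND_ker (hγ : 0 < γ) {d : Zs γ} (h : HasDerivAt (fun t : ℝ => (t • d).lim) 0 0) :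
    d = 0 := by
  have hγ' : (γ : ℂ) ≠ 0 := by exact_mod_cast hγ.ne'
  have hγ2 : (0 : ℝ) < γ := by exact_mod_cast hγ
  have hid := hasDerivAt_id (0 : ℝ)
  have h2 : d.2.2.1 = 0 := funext fun k => by
    have a : HasDerivAt (fun t : ℝ => t * d.2.2.1 k) 0 0 := hasDerivAt_pi.1 h.snd.snd.fst k
    simpa using (hid.mul_const (d.2.2.1 k)).unique a
  have h3 : d.2.2.2 = 0 := funext fun k => by
    have a : HasDerivAt (fun t : ℝ => exp (-(t • d).2.2.2 k / 2) - 1) 0 0 :=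
      hasDerivAt_pi.1 h.snd.snd.snd k
    have b := ((ND_lin 0 (-d.2.2.2 k / 2)).cexp.sub_const 1).unique
      (a.congr_of_eventuallyEq (Eventually.of_forall fun t => by
        simp only [Prod.smul_snd, Pi.smul_apply, real_smul]
        congr 2
        ring))
    simpa using b
  have h1 : ∀ k, d.2.1 k = d.mean.re - 2 * ∑ j, d.2.1 j := fun k => by
    have a : HasDerivAt (fun t : ℝ => (t • d).mean.re - 2 * ∑ j, (t • d).2.1 j - (t • d).2.1 k)
        0 0 := hasDerivAt_pi.1 h.snd.fst k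
    have b := (hid.mul_const (d.mean.re - 2 * ∑ j, d.2.1 j - d.2.1 k)).unique
      (a.congr_of_eventuallyEq (Eventually.of_forall fun t => by
        simp only [ND_mean, re_ofReal_mul, Prod.smul_snd, Prod.smul_fst, Pi.smul_apply,
          smul_eq_mul, ← Finset.mul_sum, id]
        ring))
    linarith
  obtain ⟨η, hη⟩ : ∃ η, η = d.mean.re - 2 * ∑ j, d.2.1 j := ⟨_, rfl⟩
  rw [← hη] at h1
  simp only [h1, Finset.sum_const, Finset.card_univ, Fintype.card_fin, nsmul_eq_mul] at hη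
  have h0 : ∀ k, 2 * NDl d.ξ k = (γ + 1 / 2) * η - I * d.mean.im := fun k => by
    have a : HasDerivAt (fun t : ℝ => (t • d).lim.1 k) 0 0 := hasDerivAt_pi.1 h.fst k
    have e1 := ND_eh h1 h2 k
    have b := ((e1.fun_mul ((ND_lin (γ + 1 / 2) d.mean.re).fun_neg.fun_add
      (ND_fc h1 h2 h3 k false))).fun_add (e1.fun_mul (ND_fc h1 h2 h3 k true)).star).fun_add
      (ND_lin 0 (I * d.mean.im))
    have c := b.unique (a.congr_of_eventuallyEq (Eventually.of_forall fun t => by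
      simp only [Zs.lim, ND_mean, re_ofReal_mul, im_ofReal_mul, Prod.smul_snd, h3, smul_zero,
        Pi.zero_apply, zero_div, exp_zero, one_mul, RCLike.star_def, ofReal_mul]
      ring))
    simp only [zero_smul, Zs.fc_zero, ZsB_eh_zero, one_mul, RCLike.star_def, map_add, map_mul,
      conj_ofReal, map_div₀, map_sub, map_natCast, map_one, map_ofNat, if_true,
      Bool.false_eq_true, if_false, ND_conj, ofReal_zero, zero_mul, add_zero] at c
    have e2 : (η : ℂ) = d.mean.re - 2 * (γ * η) := by exact_mod_cast hη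
    linear_combination c - e2
  have h5 : ∑ k, 2 * NDl d.ξ k = 0 := by
    have := ND_quad d.ξ fun _ => 1
    simpa [Finset.mul_sum] using this
  simp only [h0, Finset.sum_const, Finset.card_univ, Fintype.card_fin, nsmul_eq_mul] at h5
  have h6 := (mul_eq_zero.1 h5).resolve_left hγ'
  have h7 : η = 0 := by
    have := congrArg re h6
    simp only [sub_re, mul_re, add_re, natCast_re, ofReal_re, ofReal_im, mul_zero, sub_zero, I_re,
      I_im, zero_mul, zero_re, one_div, inv_re, re_ofNat, normSq_ofNat] at this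
    nlinarith
  have h8 : d.mean = 0 := by
    refine Complex.ext (by rw [zero_re]; rw [h7] at hη; linarith) ?_
    rw [h7] at h6
    simpa using h6
  have h9 := ND_const fun k => (mul_eq_zero.1 ((h0 k).trans h6)).resolve_left two_ne_zero
  refine Prod.ext (funext fun k => ?_) (Prod.ext (funext fun k => (h1 k).trans h7)
    (Prod.ext h2 h3))
  have e : ∀ j, d.1 j = d.1 k := fun j => by simpa [Zs.ξ, h8] using h9 j k
  rw [Zs.mean] at h8
  simp only [e, Finset.sum_const, Finset.card_univ, Fintype.card_fin, nsmul_eq_mul] at h8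
  simpa [hγ'] using h8

theorem ND_rf_smul (t : ℝ) (z : Zs γ) : (t • z).rf = t • z.rf := by
  refine Prod.ext (funext fun k => ?_) (Prod.ext rfl (Prod.ext (funext fun k => ?_)
    (funext fun k => ?_))) <;> simp [Zs.rf]

/-- the reflection as a linear map -/
def NDr (γ : ℕ) : Zs γ →L[ℝ] Zs γ := LinearMap.toContinuousLinearMap
  { toFun := Zs.rf
    map_add' := fun z w => by
      refine Prod.ext (funext fun k => ?_) (Prod.ext rfl (Prod.ext (funext fun k => ?_)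
        (funext fun k => ?_))) <;> simp [Zs.rf, add_comm]
    map_smul' := ND_rf_smul }

theorem Zs.nondeg {γ : ℕ} (hγ : 0 < γ) : ∃ B : Zs γ →L[ℝ] Zs γ, Function.Injective B ∧
    (∀ z : Zs γ, z.rf = z → (B z).rf = B z) ∧
    ∀ᶠ r in 𝓝[>] (0 : ℝ), ∀ z : Zs γ, ‖z‖ ≤ r → ‖z - B z.lim‖ ≤ r / 2 := by
  obtain ⟨A, hA⟩ : ∃ A, HasFDerivAt (Zs.lim : Zs γ → Zs γ) A 0 :=
    (Zs.lim_contDiff hγ ND_zero_le).differentiableAt one_ne_zero
  have hline : ∀ d : Zs γ, HasDerivAt (fun t : ℝ => (t • d).lim) (A d) 0 := fun d => by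
    have h1 : HasDerivAt (fun t : ℝ => t • d) d 0 := by
      simpa using (hasDerivAt_id (0 : ℝ)).smul_const d
    exact HasFDerivAt.comp_hasDerivAt_of_eq (0 : ℝ) hA h1 (zero_smul ℝ d).symm
  have hinj : Function.Injective A := (injective_iff_map_eq_zero A).2 fun d hd =>
    ND_ker hγ (hd ▸ hline d)
  have hrf : ∀ d : Zs γ, A d.rf = (A d).rf := fun d => by
    refine (hline d.rf).unique ?_
    have := (NDr γ).hasFDerivAt.comp_hasDerivAt (0 : ℝ) (hline d)
    refine this.congr_of_eventuallyEq (Eventually.of_forall fun t => ?_)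
    change (t • d.rf).lim = (t • d).lim.rf
    rw [← Zs.lim_rf, ND_rf_smul]
  let E := (LinearEquiv.ofInjectiveEndo (A : Zs γ →ₗ[ℝ] Zs γ) hinj).toContinuousLinearEquiv
  have hE : ∀ z, A (E.symm z) = z := fun z => E.apply_symm_apply z
  have hE' : ∀ z, E.symm (A z) = z := fun z => E.symm_apply_apply z
  refine ⟨E.symm, E.symm.injective, fun z hz => hinj ?_, ?_⟩
  · change A (E.symm z).rf = A (E.symm z)
    rw [hrf, hE, hz]
  · have h1 : HasFDerivAt (fun z : Zs γ => z - E.symm z.lim) (0 : Zs γ →L[ℝ] Zs γ) 0 := by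
      refine ((hasFDerivAt_id (0 : Zs γ)).sub
        ((E.symm : Zs γ →L[ℝ] Zs γ).hasFDerivAt.comp 0 hA)).congr_fderiv ?_
      refine ContinuousLinearMap.ext fun z => ?_
      exact sub_eq_zero.2 (hE' z).symm
    have h2 := h1.isLittleO.bound (c := 1 / 2) (by norm_num)
    simp only [Zs.lim_zero, map_zero, sub_zero, zero_apply] at h2
    obtain ⟨ε, hε, h3⟩ := Metric.eventually_nhds_iff.1 h2
    filter_upwards [Ioo_mem_nhdsGT hε] with r hr z hz
    have h4 := h3 (y := z) (by rw [dist_zero_right]; exact hz.trans_lt hr.2)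
    change ‖z - E.symm z.lim‖ ≤ r / 2
    linarith

end Pool.Agent.MP_92463a_gt

end
end
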