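import Pool.Agent.Mg.F92463a.Gf77392

section

open Set Complex Filter Metric
open scoped Topology ComplexConjugate ContDiff Manifold

noncomputable section

namespace Pool.Agent.MP_92463a_gt

variable {γ : ℕ} {α : Type} {l : Filter α} {C : α → Cfg γ} {D₀ : Dat} {z₀ : Zs γ}

theorem CfE2_jj (h : Lim l C D₀ z₀) (b : Bool) : jj b < D₀.q := by
  have := h.q
  cases b <;> simp [jj] <;> omega

theorem CfE2_b (h : Lim l C D₀ z₀) (b : Bool) : 0 < D₀.b (jj b) :=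
  h.D.ok₀.b_pos _ (CfE2_jj h b)

theorem CfE2_sg (j : ℕ) : ‖(sg j : ℂ)‖ = 1 := by
  simp [sg]

theorem Lim.dG (h : Lim l C D₀ z₀) : ∀ ε > 0, ∀ᶠ x in l, ∀ e v, ‖v‖ ≤ 2 * (C x).pl.ρ e →
    ‖(C x).dG e v - sg (jj e.2) * (3 / 2) * log (1 + v / (C x).τ e)‖ ≤ ε ∧
      ‖v / (C x).c e‖ ≤ ε ∧ ‖(C x).D.lam (jj e.2) ((C x).τ e)‖ ≤ ε := by
  intro ε hε
  rw [eventually_all]
  intro e
  obtain ⟨δ, h1, hδ⟩ := ((h.D.lam_small (CfE2_jj h e.2) (ε / 2) (by positivity)).and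
    self_mem_nhdsWithin).exists
  have hδ : 0 < δ := hδ
  have h2 : ∀ᶠ x in l, ‖(C x).τ e‖ < δ / 2 :=
    (h.tau0 e).1.norm.eventually (gt_mem_nhds (by simpa using hδ))
  have h3 : ∀ᶠ x in l, ‖(C x).τ e / (C x).c e‖ < ε := by
    have := ((h.tau0 e).1.div (h.tau0 e).2.2.1 (by simpa using (CfE2_b h e.2).ne')).norm
    exact this.eventually (gt_mem_nhds (by simpa using hε))
  filter_upwards [h1, h2, h3, h.g0] with x h1 h2 h3 h4 v hv
  have h5 := (h4.1.disc hv).1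
  have h6 := norm_nonneg ((C x).τ e)
  have a1 := h1 ((C x).τ e) (by linarith)
  have a2 := h1 ((C x).τ e + v) ((norm_add_le _ _).trans (by linarith))
  refine ⟨?_, ?_, by linarith⟩
  · rw [Cfg.dG, add_sub_cancel_left]
    exact (norm_sub_le _ _).trans (by linarith)
  · rw [norm_div] at h3 ⊢
    exact le_trans (div_le_div_of_nonneg_right (by linarith) (norm_nonneg _)) h3.le

theorem CfE2_u {C : Cfg γ} (h : C.G0) {e : Fin γ × Bool} {v : ℂ} (hv : ‖v‖ ≤ 2 * C.pl.ρ e) :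
    ‖v / C.τ e‖ ≤ 1 / 8 := by
  rw [norm_div, div_le_iff₀ (norm_pos_iff.2 (Cfg.τ_ne e))]
  linarith [(h.disc hv).1]

theorem Lim.w12 (h : Lim l C D₀ z₀) :
    ∀ᶠ x in l, (C x).pl.Wt (C x).m1 ∧ (C x).pl.Wt (C x).m2 := by
  filter_upwards [h.dG (1 / 100) (by norm_num), h.g0] with x h1 h2
  have key : ∀ e, ∀ v ∈ ball (0 : ℂ) (2 * (C x).pl.ρ e),
      ‖(C x).dG e v‖ ≤ 1 / 3 ∧ ‖log (1 + v / (C x).c e)‖ ≤ 1 / 10 := by
    intro e v hv
    have hv := (mem_ball_zero_iff.1 hv).le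
    obtain ⟨a1, a2, -⟩ := h1 e v hv
    have a3 := CfE2_u h2.1 hv
    have a4 := norm_log_one_add_half_le_self (z := v / (C x).τ e) (by linarith)
    have a5 := norm_log_one_add_half_le_self (z := v / (C x).c e) (by linarith)
    refine ⟨?_, by linarith⟩
    have a6 := norm_le_norm_sub_add ((C x).dG e v)
      (sg (jj e.2) * (3 / 2) * log (1 + v / (C x).τ e))
    rw [norm_mul, norm_mul, CfE2_sg] at a6
    have a7 : ‖(3 / 2 : ℂ)‖ = 3 / 2 := by simp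
    rw [a7] at a6
    linarith
  have ex : ∀ a b : ℂ, ‖a‖ ≤ 1 / 3 → ‖b‖ ≤ 1 / 10 → ‖exp ((a - b) / 2) - 1‖ ≤ 1 / 2 := by
    intro a b ha hb
    have : ‖(a - b) / 2‖ ≤ 1 / 4 := by
      rw [norm_div, Complex.norm_two]
      linarith [norm_sub_le a b]
    linarith [Complex.norm_exp_sub_one_le (x := (a - b) / 2) (by linarith)]
  exact ⟨⟨fun e => (h2.1.dG_hol e).2.2.1, fun e => (Cfg.dG_zero e).2.1,
    fun e v hv => ex _ _ (key e v hv).1 (key e v hv).2⟩,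
    ⟨fun e => (h2.1.dG_hol e).2.2.2.1, fun e => (Cfg.dG_zero e).2.2,
    fun e v hv => ex _ _ (by rw [norm_neg]; exact (key e v hv).1) (key e v hv).2⟩⟩

/-- the polynomial without the factor that vanishes at `-b j` -/
def CfE2Q (D : Dat) (j : ℕ) (t : ℂ) : ℂ :=
  t * (∏ i ∈ (Finset.range D.q).erase j, (t + D.b i)) * ∏ i ∈ Finset.range D.p, (D.a i - t)

theorem CfE2_P {D : Dat} {j : ℕ} (hj : j < D.q) (t : ℂ) :
    D.P t = (t + D.b j) * CfE2Q D j t := by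
  rw [Dat.P, CfE2Q, ← Finset.mul_prod_erase _ _ (Finset.mem_range.2 hj)]
  ring

theorem CfE2_Qne {D : Dat} (hD : D.Ok) {j : ℕ} (hj : j < D.q) : CfE2Q D j (-D.b j) ≠ 0 := by
  have hb := hD.b_pos j hj
  refine mul_ne_zero (mul_ne_zero (by simpa using hb.ne') (Finset.prod_ne_zero_iff.2 fun i hi => ?_))
    (Finset.prod_ne_zero_iff.2 fun i hi => ?_)
  · obtain ⟨h1, h2⟩ := Finset.mem_erase.1 hi
    have h2 := Finset.mem_range.1 h2
    have h3 := hD.b_pos i h2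
    intro h0
    have h4 : -D.b j + D.b i = 0 := by exact_mod_cast h0
    rcases lt_or_gt_of_ne h1 with h5 | h5
    · linarith [hD.b_gap i j h5 hj]
    · linarith [hD.b_gap j i h5 h2]
  · have h3 := hD.a_pos i (Finset.mem_range.1 hi)
    intro h0
    have h4 : D.a i - -D.b j = 0 := by exact_mod_cast h0
    linarith

theorem CfE2_Qlim {β : Type} {l : Filter β} {D : β → Dat} (h : Dat.Tends l D D₀) (j : ℕ)
    {t : β → ℂ} {t₀ : ℂ} (ht : Tendsto t l (𝓝 t₀)) :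
    Tendsto (fun x => CfE2Q (D x) j (t x)) l (𝓝 (CfE2Q D₀ j t₀)) := by
  refine Tendsto.congr' ?_ ((ht.mul (tendsto_finsetProd ((Finset.range D₀.q).erase j) fun i hi =>
    ht.add (Dat.DatC_re (h.b i (Finset.mem_range.1 (Finset.mem_erase.1 hi).2))))).mul
      (tendsto_finsetProd (Finset.range D₀.p) fun i hi =>
        (Dat.DatC_re (h.a i (Finset.mem_range.1 hi))).sub ht))
  filter_upwards [h.ok] with x hx
  rw [CfE2Q, hx.2.1, hx.2.2]

theorem CfE2_Pc {C : Cfg γ} (h : C.Adm) (e : Fin γ × Bool) (v : ℂ) :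
    C.D.P (C.c e + v) = (C.τ e + v) * CfE2Q C.D (jj e.2) (C.c e + v) := by
  rw [CfE2_P (h.jj_lt e.2)]
  congr 1
  simp only [Cfg.c, Cfg.bb]
  ring

theorem CfE2_ratio (h : Lim l C D₀ z₀) (e : Fin γ × Bool) : ∀ᶠ x in l, ∀ v, ‖v‖ ≤ ‖(C x).τ e‖ →
    ‖CfE2Q (C x).D (jj e.2) ((C x).c e + 0) / CfE2Q (C x).D (jj e.2) ((C x).c e + v) - 1‖ ≤
      1 / 20 := by
  set l' : Filter (α × ℂ) := comap Prod.fst l ⊓ 𝓟 {p | ‖p.2‖ ≤ ‖(C p.1).τ e‖} with hl'
  have h1 : Tendsto Prod.fst l' l := tendsto_comap.mono_left inf_le_left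
  have h2 : Tendsto Prod.snd l' (𝓝 (0 : ℂ)) := by
    refine squeeze_zero_norm' (a := fun p => ‖(C p.1).τ e‖) ?_ ?_
    · exact eventually_inf_principal.2 (Eventually.of_forall fun p hp => hp)
    · simpa [Function.comp_def] using (h.tau0 e).1.norm.comp h1
  have h3 := (h.tau0 e).2.2.1.comp h1
  have h4 := CfE2_Qlim (h.D.comp h1) (jj e.2) (h3.add_const 0)
  have h5 := CfE2_Qlim (h.D.comp h1) (jj e.2) (h3.add h2)
  rw [add_zero] at h4 h5
  have hn := CfE2_Qne h.D.ok₀ (CfE2_jj h e.2)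
  have h6 := ((h4.div h5 hn).sub_const 1).norm
  rw [div_self hn, sub_self, norm_zero] at h6
  have h7 := h6.eventually (ge_mem_nhds (show (0 : ℝ) < 1 / 20 by norm_num))
  rw [hl', eventually_inf_principal, eventually_comap] at h7
  filter_upwards [h7] with x hx v hv
  exact hx (x, v) rfl hv

theorem CfE2_conn {f : ℂ → ℂ} {r : ℝ} (hf : ContinuousOn f (ball 0 r)) (h0 : f 0 = 1)
    (h : ∀ v ∈ ball (0 : ℂ) r, ‖f v ^ 2 - 1‖ ≤ 1 / 5) : ∀ v ∈ ball (0 : ℂ) r, ‖f v - 1‖ ≤ 1 / 2 := by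
  intro v hv
  have hz : (0 : ℂ) ∈ ball (0 : ℂ) r := mem_ball_self (pos_of_mem_ball hv)
  have h1 : 0 < (f v).re := by
    by_contra hc
    obtain ⟨w, hw, h2⟩ := (convex_ball (0 : ℂ) r).isPreconnected.intermediate_value hv hz
      (continuous_re.comp_continuousOn hf) (show (0 : ℝ) ∈ _ from ⟨not_lt.1 hc, by simp [h0]⟩)
    have h2 : (f w).re = 0 := h2
    have h3 := (abs_re_le_norm _).trans (h w hw)
    rw [sub_re, sq, mul_re, h2, one_re] at h3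
    nlinarith [mul_self_nonneg (f w).im, (abs_le.1 h3).1]
  have h2 : 1 ≤ ‖f v + 1‖ := le_trans (by simp [h1.le]) (re_le_norm _)
  have h3 := h v hv
  rw [show f v ^ 2 - 1 = (f v - 1) * (f v + 1) by ring, norm_mul] at h3
  nlinarith [norm_nonneg (f v - 1)]

theorem CfE2_yne {C : Cfg γ} (h : C.G0) {e : Fin γ × Bool} {v : ℂ} (hv : ‖v‖ ≤ 2 * C.pl.ρ e) :
    C.wd.yb e v ≠ 0 := fun h0 => h.free hv (by rw [← h.ysq hv, h0]; simp)

theorem CfE2_zero {C : Cfg γ} (h : C.G0) (e : Fin γ × Bool) : ‖(0 : ℂ)‖ ≤ 2 * C.pl.ρ e := by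
  simpa using (h.pl_ok.ρ_pos e).le

theorem Lim.wy (h : Lim l C D₀ z₀) : ∀ᶠ x in l, (C x).pl.Wt (C x).wd.my := by
  filter_upwards [eventually_all.2 (CfE2_ratio h), h.g0] with x h1 h2
  have h2 := h2.1
  have hol : ∀ e, DifferentiableOn ℂ ((C x).wd.my e) (ball 0 (2 * (C x).pl.ρ e)) := fun e =>
    (differentiableOn_const _).div (h2.dG_hol e).2.2.2.2 fun v hv =>
      CfE2_yne h2 (mem_ball_zero_iff.1 hv).le
  have zero : ∀ e, (C x).wd.my e 0 = 1 := fun e => div_self (CfE2_yne h2 (CfE2_zero h2 e))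
  refine ⟨hol, zero, fun e => CfE2_conn (hol e).continuousOn (zero e) fun v hv => ?_⟩
  have hv := (mem_ball_zero_iff.1 hv).le
  obtain ⟨a1, a2, -⟩ := h2.disc hv
  have a0 := norm_pos_iff.2 (Cfg.τ_ne (C := C x) e)
  have a3 := h1 e v (by linarith)
  rw [Wd.my, div_pow, h2.ysq hv, h2.ysq (CfE2_zero h2 e), CfE2_Pc h2.toAdm, CfE2_Pc h2.toAdm,
    mul_div_mul_comm, add_zero ((C x).τ e)]
  set B := CfE2Q (C x).D (jj e.2) ((C x).c e + 0) / CfE2Q (C x).D (jj e.2) ((C x).c e + v)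
  have a4 : ‖(C x).τ e / ((C x).τ e + v) - 1‖ ≤ 1 / 7 := by
    rw [div_sub_one a2, norm_div, div_le_iff₀ (norm_pos_iff.2 a2), sub_add_cancel_left, norm_neg]
    linarith [norm_sub_le ((C x).τ e + v) v, congrArg norm (add_sub_cancel_right ((C x).τ e) v)]
  set A := (C x).τ e / ((C x).τ e + v)
  rw [show A * B - 1 = (A - 1) * (B - 1) + (A - 1) + (B - 1) by ring]
  have a5 := norm_add₃_le (a := (A - 1) * (B - 1)) (b := A - 1) (c := B - 1)
  rw [norm_mul] at a5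
  nlinarith [norm_nonneg (A - 1), norm_nonneg (B - 1)]

theorem Lim.ry (h : Lim l C D₀ z₀) :
    ∃ M, ∀ᶠ x in l, ∀ e, ‖(C x).wd.ry e‖ ≤ M * ‖(C x).pl.s e.1‖ := by
  have h1 : ∀ e, Tendsto (fun x => Real.exp (2 * (C x).L) * (C x).τ e *
      CfE2Q (C x).D (jj e.2) ((C x).c e)) l
      (𝓝 ((cf D₀ z₀).τ e * CfE2Q D₀ (jj e.2) (-D₀.b (jj e.2)))) := fun e =>
    (h.tau e).mul (CfE2_Qlim h.D (jj e.2) (h.tau0 e).2.2.1)
  have h2 : ∀ e, (cf D₀ z₀).τ e * CfE2Q D₀ (jj e.2) (-D₀.b (jj e.2)) ≠ 0 := fun e =>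
    mul_ne_zero (Cfg.τ_ne e) (CfE2_Qne h.D.ok₀ (CfE2_jj h e.2))
  have h3 : ∀ e, ∃ M, 0 ≤ M ∧ ∀ᶠ x in l, ‖(C x).wd.yb e 0 / (C x).wd.yb (op e) 0‖ ≤ M := by
    intro e
    have h4 := ((h1 e).div (h1 (op e)) (h2 _)).norm
    obtain ⟨K, hK, h4⟩ : ∃ K, 0 ≤ K ∧ Tendsto _ l (𝓝 K) := ⟨_, norm_nonneg _, h4⟩
    refine ⟨K + 1 + 1, by positivity, ?_⟩
    filter_upwards [h4.eventually (ge_mem_nhds (lt_add_one _)), h.g0] with x h5 h6
    have h6 := h6.1
    have h7 : (Real.exp (2 * (C x).L) : ℂ) ≠ 0 := by exact_mod_cast (Real.exp_pos _).ne'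
    have h8 : ∀ e, (C x).τ e * CfE2Q (C x).D (jj e.2) ((C x).c e) = (C x).wd.yb e 0 ^ 2 := by
      intro e
      rw [h6.ysq (CfE2_zero h6 e), CfE2_Pc h6.toAdm, add_zero, add_zero]
    rw [Pi.div_apply, mul_assoc, mul_assoc, mul_div_mul_left _ _ h7, h8, h8, ← div_pow,
      norm_pow] at h5
    nlinarith [sq_nonneg (‖(C x).wd.yb e 0 / (C x).wd.yb (op e) 0‖ - 1)]
  choose M hM h3 using h3
  refine ⟨∑ e, M e, ?_⟩
  filter_upwards [eventually_all.2 h3] with x hx e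
  rw [Wd.ry, mul_div_assoc, norm_mul, norm_neg, mul_comm]
  exact mul_le_mul_of_nonneg_right ((hx e).trans
    (Finset.single_le_sum (fun i _ => hM i) (Finset.mem_univ e))) (norm_nonneg _)

/-- the rescaled weights -/
theorem Lim.m_sc (h : Lim l C D₀ z₀) (e : Fin γ × Bool) {w : α → ℂ} {w₀ : ℂ}
    (hw : Tendsto w l (𝓝 w₀)) (h₀ : ‖w₀‖ < 1 / (8 * γ)) :
    Tendsto (fun x => (C x).m1 e ((C x).τ e * w x)) l
        (𝓝 (exp (sg (jj e.2) * (3 / 4) * log (1 + w₀)))) ∧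
      Tendsto (fun x => (C x).m2 e ((C x).τ e * w x)) l
        (𝓝 (exp (-(sg (jj e.2) * (3 / 4) * log (1 + w₀))))) := by
  have hγ : (1 : ℝ) ≤ γ := by exact_mod_cast e.1.pos
  have h1 : ‖w₀‖ < 1 := h₀.trans_le (by rw [div_le_one (by positivity)]; linarith)
  have hb : ‖(0 : ℂ)‖ < D₀.b 0 / 2 := by simpa [jj] using CfE2_b h false
  have ht := (h.tau0 e).1
  have hv : Tendsto (fun x => (C x).τ e * w x) l (𝓝 0) := by simpa using ht.mul hw
  have a1 := h.D.lam (CfE2_jj h e.2) ht hb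
  have a2 := h.D.lam (CfE2_jj h e.2) (by simpa using ht.add hv) hb
  have a3 := (hw.const_add 1).clog (mem_slitPlane_of_norm_lt_one h1)
  have a4 : Tendsto (fun x => (C x).dG e ((C x).τ e * w x)) l
      (𝓝 (sg (jj e.2) * (3 / 2) * log (1 + w₀))) := by
    have := (a3.const_mul (sg (jj e.2) * (3 / 2) : ℂ)).add (a2.sub a1)
    rw [sub_self, add_zero] at this
    refine this.congr fun x => ?_
    rw [Cfg.dG, mul_div_cancel_left₀ _ (Cfg.τ_ne e)]
  have a5 : Tendsto (fun x => log (1 + (C x).τ e * w x / (C x).c e)) l (𝓝 0) := by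
    have := ((hv.div (h.tau0 e).2.2.1 (by simpa using (CfE2_b h e.2).ne')).const_add 1).clog
      (by simp)
    simpa using this
  constructor
  · have := ((a4.sub a5).div_const 2).cexp
    rw [show (sg (jj e.2) * (3 / 4) * log (1 + w₀) : ℂ) =
      (sg (jj e.2) * (3 / 2) * log (1 + w₀) - 0) / 2 by ring]
    exact this
  · have := ((a4.neg.sub a5).div_const 2).cexp
    rw [show (-(sg (jj e.2) * (3 / 4) * log (1 + w₀)) : ℂ) =
      (-(sg (jj e.2) * (3 / 2) * log (1 + w₀)) - 0) / 2 by ring]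
    exact this

end Pool.Agent.MP_92463a_gt

end
end

section

open Set Complex Filter Metric
open scoped Topology ComplexConjugate ContDiff Manifold

noncomputable section

namespace Pool.Agent.MP_92463a_gt

variable {γ : ℕ} {α : Type} {l : Filter α} {C : α → Cfg γ} {D₀ : Dat} {z₀ : Zs γ}

theorem CfE3_con {C : Cfg γ} (g : C.G0) {m M : ℝ} (hm : 0 < m)
    (hb : ∀ e, m ≤ Real.exp (2 * C.L) * ‖C.τ e‖ ∧ C.L * ‖C.rr e‖ ≤ M ∧
      C.L * Real.exp (6 * C.L) * ‖C.pl.s e.1 / C.rr e‖ ≤ M ∧ m ≤ C.bb e.2)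
    (hL : 384 * γ ^ 2 * M / m ≤ C.L) (b : Bool) {r : Fin γ × Bool → ℂ} {W : Fin γ × Bool → ℝ}
    (hr : ∀ e, r e = if e.2 = b then C.rr e else C.pl.s e.1 / C.rr (op e))
    (hW : ∀ e, W e = if e.2 = b then Real.exp (2 * C.L) else 1) : C.pl.Con r W := by
  have hL1 := g.L
  have hγ : (1 : ℝ) ≤ γ := by exact_mod_cast g.pos
  have e6 : Real.exp (6 * C.L) = Real.exp (2 * C.L) ^ 3 := by
    rw [← Real.exp_nat_mul]; congr 1; push_cast; ring
  have hX : 1 ≤ Real.exp (2 * C.L) := Real.one_le_exp (by linarith)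
  generalize Real.exp (2 * C.L) = X at *
  have hW1 : ∀ e, 1 ≤ W e := fun e => by rw [hW]; split_ifs; exacts [hX, le_rfl]
  refine ⟨fun e => by linarith [hW1 e], fun e v hv => ?_⟩
  have key : ∀ e', 6 * ‖r e'‖ * W (op e') / ‖C.pl.c e + v - C.pl.c e'‖ ≤ W e / 2 / (2 * γ) := by
    intro e'
    have d1 : ‖C.τ e'‖ / (16 * γ) ≤ _ := g.pl_ok.circ_far e' hv
    have d2 : e.2 ≠ e'.2 → 2 * m ≤ ‖C.pl.c e + v - C.pl.c e'‖ := fun hne => by
      have h1 := (g.disc (e := e) (v := v) (by linarith [g.pl_ok.ρ_pos e])).2.2.1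
      have h2 := g.other (b := e.2) (τ := C.τ e + v) (by linarith [(g.toAdm.bb true).1]) e'.1
      have h3 : (e'.1, !e.2) = e' := by
        rcases e with ⟨k, _ | _⟩ <;> rcases e' with ⟨k', _ | _⟩ <;> simp_all
      have h4 : m ≤ C.D.b 0 := (hb (e.1, false)).2.2.2
      rw [h3, ← add_assoc] at h2
      exact le_trans (by linarith) h2
    generalize ‖C.pl.c e + v - C.pl.c e'‖ = d at *
    have t1 := (hb e').1
    have t2 : 0 < ‖C.τ e'‖ := norm_pos_iff.2 (Cfg.τ_ne e')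
    rw [div_le_iff₀ (by positivity)] at d1
    have d0 : 0 < d := by nlinarith
    have d3 : m ≤ X * (d * (16 * γ)) := t1.trans (by gcongr)
    rw [div_le_iff₀ hm] at hL
    have fin : ∀ a y : ℝ, 0 ≤ a → 0 < y → C.L * (a * y) ≤ M → m ≤ y * W e * (d * (16 * γ)) →
        6 * a / d ≤ W e / 2 / (2 * γ) := fun a y ha hy h1 h2 => by
      rw [div_div, div_le_div_iff₀ d0 (by positivity)]
      have h3 : 384 * γ ^ 2 * (C.L * (a * y)) ≤ C.L * (y * W e * (d * (16 * γ))) :=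
        le_trans (by gcongr) (hL.trans (by gcongr))
      have h4 : 0 < 16 * γ * C.L * y := by positivity
      refine le_of_mul_le_mul_left ?_ h4
      linarith
    have hw := hW1 e
    rw [mul_assoc 6, hr, hW (op e')]
    by_cases h1 : e'.2 = b
    · have h2 : ¬ (op e').2 = b := by rw [← h1]; simp [op]
      rw [if_pos h1, if_neg h2]
      refine fin _ 1 (by positivity) one_pos (by simpa using (hb e').2.1) ?_
      by_cases h3 : e.2 = b
      · rw [hW, if_pos h3, one_mul]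
        exact d3
      · have := d2 fun h4 => h3 (h4.trans h1)
        rw [hW, if_neg h3]
        nlinarith
    · have h2 : (op e').2 = b := by
        rcases e' with ⟨k', _ | _⟩ <;> cases b <;> simp_all [op]
      rw [if_neg h1, if_pos h2]
      have h3 := (hb (op e')).2.2.1
      rw [e6, op_fst] at h3
      refine fin _ X (by positivity) (by positivity) (le_trans ?_ h3) (d3.trans ?_)
      · generalize hn : ‖C.pl.s e'.1 / C.rr (op e')‖ = n
        have h4 : 0 ≤ n := hn ▸ norm_nonneg _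
        have : C.L * X ^ 2 * n ≤ C.L * X ^ 3 * n := by
          gcongr
          norm_num
        linarith
      · gcongr
        nlinarith
  refine (Finset.sum_le_sum fun e' _ => key e').trans (le_of_eq ?_)
  simp only [Finset.sum_const, Finset.card_univ, Fintype.card_prod, Fintype.card_fin,
    Fintype.card_bool, nsmul_eq_mul]
  push_cast
  field_simp

theorem Lim.con (h : Lim l C D₀ z₀) :
    ∀ᶠ x in l, (C x).pl.Con (C x).r1 (C x).W1 ∧ (C x).pl.Con (C x).r2 (C x).W2 := by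
  obtain ⟨m, hm, M, hb⟩ := h.bds
  filter_upwards [hb, h.g0, h.L.eventually_ge_atTop (384 * γ ^ 2 * M / m)] with x hb g hL
  have h1 := CfE3_con g.1 hm
    (fun e => ⟨(hb.2 e).1.1, (hb.2 e).2.2.1.2, (hb.2 e).2.2.2.1, (hb.2 e).2.2.2.2.2.1⟩) hL
  refine ⟨h1 false ?_ ?_, h1 true ?_ ?_⟩ <;> rintro ⟨k, _ | _⟩ <;> rfl

theorem Lim.con2 (h : Lim l C D₀ z₀) {r : α → Fin γ × Bool → ℂ} {M : ℝ}
    (hr : ∀ᶠ x in l, ∀ e, ‖r x e‖ ≤ M * ‖(C x).pl.s e.1‖) : ∀ᶠ x in l, (C x).pl.Con2 (r x) := by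
  obtain ⟨m, hm, N, hb⟩ := h.bds
  have h1 : Tendsto (fun x => ∑ e : Fin γ × Bool, 6144 * γ ^ 2 * |M| * (N / m) * ‖(C x).vs e.1‖ ^ 2)
      l (𝓝 (∑ e : Fin γ × Bool, 6144 * γ ^ 2 * |M| * (N / m) * ‖(0 : ℂ)‖ ^ 2)) :=
    tendsto_finsetSum _ fun e _ => ((h.vs0 e.1).1.norm.pow 2).const_mul _
  filter_upwards [hb, h.g0, hr, h1.eventually_le_const (u := 1 / 2) (by simp)] with x hb g hr h1
  intro e v hv
  refine le_trans (Finset.sum_le_sum fun e' _ => ?_) h1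
  have d1 := g.1.pl_ok.circ_far e' hv
  have d2 := g.1.pl_ok.ρ_pos e'
  have hγ : (0 : ℝ) < γ := by exact_mod_cast g.1.pos
  have t2 : 0 < ‖(C x).τ e'‖ := norm_pos_iff.2 (Cfg.τ_ne e')
  have h2 : ‖(C x).pl.s e'.1‖ = ‖(C x).τ e'‖ * ‖(C x).τ (op e')‖ * ‖(C x).vs e'.1‖ ^ 2 := by
    rcases e' with ⟨k, _ | _⟩ <;> simp [Cfg.pl, op, mul_comm]
  have h3 : ‖(C x).τ (op e')‖ ≤ N / m * ‖(C x).τ e'‖ := by
    have a1 := (hb.2 e').1.1
    have a2 := (hb.2 (op e')).1.2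
    have a3 := norm_nonneg ((C x).τ (op e'))
    rw [div_mul_eq_mul_div, le_div_iff₀ hm]
    nlinarith
  calc _ ≤ 12 * (|M| * (‖(C x).τ e'‖ * (N / m * ‖(C x).τ e'‖) * ‖(C x).vs e'.1‖ ^ 2)) *
        (((C x).pl.ρ e')⁻¹ + ((C x).pl.ρ e')⁻¹) / (C x).pl.ρ e' := by
        have h4 : ‖r x e'‖ ≤ |M| * (‖(C x).τ e'‖ * (N / m * ‖(C x).τ e'‖) * ‖(C x).vs e'.1‖ ^ 2) :=
          (hr e').trans (by rw [h2]; gcongr; exact le_abs_self M)
        have h5 := (norm_nonneg _).trans h4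
        gcongr
    _ = _ := by
        change 12 * _ * ((‖(C x).τ e'‖ / (16 * γ))⁻¹ + (‖(C x).τ e'‖ / (16 * γ))⁻¹) /
          (‖(C x).τ e'‖ / (16 * γ)) = _
        field_simp
        ring

theorem CfE3_bg {C : Cfg γ} (g : C.G0) {m M : ℝ} (hm : 0 < m) (hl : C.L * |C.ℓ| ≤ M)
    (hb : ∀ e, m ≤ Real.exp (2 * C.L) * ‖C.τ e‖ ∧ C.bb e.2 ≤ M) (hL : M ≤ C.L)
    (hL' : 2 * M ^ 2 / m ≤ C.L) (e : Fin γ × Bool) (v : ℂ) (hv : ‖v‖ = C.pl.ρ e) :
    ‖C.bg (C.c e + v)‖ ≤ 2 * C.W1 e := by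
  obtain ⟨h1, h2, h3, -⟩ := g.disc (e := e) (v := v) (by linarith [g.pl_ok.ρ_pos e])
  obtain ⟨b1, -, b2⟩ := g.toAdm.bb true
  have hL1 := g.L
  have hX : 1 ≤ Real.exp (2 * C.L) := Real.one_le_exp (by linarith)
  have a0 := abs_nonneg C.ℓ
  have key : ∀ W : ℝ, 1 ≤ W → 0 < ‖C.c e + v + C.D.b 0‖ →
      |C.ℓ| * C.D.b 0 ≤ W * ‖C.c e + v + C.D.b 0‖ → ‖C.bg (C.c e + v)‖ ≤ 2 * W :=
    fun W w1 w2 w3 => by
      refine (norm_add_le _ _).trans ?_
      rw [norm_one, norm_div, norm_mul, norm_real, norm_real, Real.norm_eq_abs,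
        Real.norm_of_nonneg b1.le]
      linarith [(div_le_iff₀ w2).2 w3]
  rcases e with ⟨k, _ | _⟩
  · have e1 : C.c (k, false) + v + C.D.b 0 = C.τ (k, false) + v := by
      simp only [Cfg.c, Cfg.bb, jj, Bool.false_eq_true, if_false]
      ring
    refine key (Real.exp (2 * C.L)) hX (by rw [e1]; positivity) ?_
    have a1 := (hb (k, false)).1
    have a2 : C.D.b 0 ≤ M := (hb (k, false)).2
    have a3 := norm_sub_le (C.τ (k, false) + v) v
    rw [add_sub_cancel_right] at a3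
    rw [e1]
    rw [div_le_iff₀ hm] at hL'
    refine le_of_mul_le_mul_left ?_ (by linarith : 0 < C.L)
    have a4 : C.L * |C.ℓ| * C.D.b 0 ≤ M * M := by gcongr; linarith
    have a5 : m ≤ Real.exp (2 * C.L) * (2 * ‖C.τ (k, false) + v‖) :=
      a1.trans (by gcongr; linarith [norm_nonneg v])
    linarith [mul_le_mul_of_nonneg_left a5 (by linarith : 0 ≤ C.L)]
  · have e1 : C.D.b 0 ≤ ‖C.c (k, true) + v + C.D.b 0‖ := by
      have a1 := norm_sub_le (C.τ (k, true) + v) (C.c (k, true) + v + C.D.b 0)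
      have a2 : C.τ (k, true) + v - (C.c (k, true) + v + C.D.b 0) =
          ((C.D.b 1 - C.D.b 0 : ℝ) : ℂ) := by
        simp only [Cfg.c, Cfg.bb, jj, if_true]
        push_cast
        ring
      rw [a2, norm_real, Real.norm_of_nonneg (by linarith)] at a1
      linarith
    refine key 1 le_rfl (by linarith) ?_
    have a3 : |C.ℓ| ≤ 1 := le_of_mul_le_mul_left (by linarith) (by linarith : 0 < C.L)
    nlinarith

theorem Lim.fine (h : Lim l C D₀ z₀) : ∀ᶠ x in l, (C x).Fine := by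
  obtain ⟨m, hm, M, hb⟩ := h.bds
  obtain ⟨N, hN⟩ := h.ry
  filter_upwards [hb, h.g0, h.w12, h.wy, h.con, h.con2 hN,
    h.con2 (r := fun x e => -(C x).pl.s e.1) (M := 1) (.of_forall fun x e => by simp),
    h.L.eventually_ge_atTop M, h.L.eventually_ge_atTop (2 * M ^ 2 / m)]
    with x hb g w wy c co ce l1 l2
  exact ⟨⟨g.1.toAdm, g.1.L, g.1.τ, g.1.vs, w.1, w.2, c.1, c.2,
    CfE3_bg g.1 hm hb.1 (fun e => ⟨(hb.2 e).1.1, (hb.2 e).2.2.2.2.2.2⟩) l1 l2, wy, ce, co⟩, g.2⟩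

end Pool.Agent.MP_92463a_gt

end
end

section

open Set Complex Filter Metric
open scoped Topology ComplexConjugate ContDiff Manifold

noncomputable section

namespace Pool.Agent.MP_92463a_gt

theorem CfF1_sum {ι : Type} [Fintype ι] (f : ι × Bool → ℂ) (b : Bool) :
    ∑ e, f e = ∑ k, f (k, b) + ∑ k, f (k, !b) := by
  rw [Fintype.sum_prod_type, ← Finset.sum_add_distrib]
  refine Finset.sum_congr rfl fun k _ => ?_
  cases b <;> simp [add_comm]

theorem CfF1_le {ι : Type} [Fintype ι] {f : ι → ℂ} {a : ℝ} (h : ∀ k, ‖f k‖ ≤ a) :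
    ‖∑ k, f k‖ ≤ Fintype.card ι * a :=
  (norm_sum_le _ _).trans ((Finset.sum_le_sum fun k _ => h k).trans_eq (by simp))

theorem CfF1_det {ι : Type} [Fintype ι] {P : Pl ι} {m : ι × Bool → ℂ → ℂ} {r : ι × Bool → ℂ}
    (h : P.Ok) (hm : P.Wt m) (b : Bool) {ψ χ : ℂ → ℂ} {B a : ℝ} (ha : 0 ≤ a) (hB : 0 ≤ B)
    (hχ : ∀ t, χ t = 1 + ∑ e, P.pk (P.k1 m r) ψ e t)
    (hc : ∀ e, ContinuousOn (fun v => ψ (P.c e + v)) {v | ‖v‖ = P.ρ e})
    (h1 : ∀ k v, ‖v‖ = P.ρ (k, b) → ‖ψ (P.c (k, b) + v)‖ ≤ B)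
    (h2 : ∀ k v, ‖v‖ = P.ρ (k, !b) → ‖ψ (P.c (k, !b) + v)‖ ≤ 4)
    (h3 : ∀ k, 6 * ‖r (k, !b)‖ * B / P.mu (k, !b) ≤ a)
    (h4 : ∀ k v, ‖v‖ = P.ρ (k, !b) → ‖ψ (P.c (k, !b) + v) - χ (P.c (k, !b) + v)‖ ≤ a ∧
      ∀ j, 6 * ‖r (j, b)‖ * 4 / ‖P.c (k, !b) + v - P.c (j, b)‖ ≤ a)
    (h5 : ∀ k, P.rin (k, b) ≤ a * P.mu (k, b)) {t : ℂ} (ht : t ∈ P.Fd) :
    ‖χ t - 1 - ∑ k, r (k, b) / (t - P.c (k, b))‖ ≤
      (30 + 13 * Fintype.card ι) * a * (1 + ∑ k, ‖r (k, b)‖ / ‖t - P.c (k, b)‖) := by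
  have hmu : ∀ e, 0 < P.mu e := fun e => by linarith [h.rin_mu e, h.rin_pos e]
  have hfd : ∀ t ∈ P.Fd, ∀ e, 2 * P.rin e ≤ ‖t - P.c e‖ := fun t ht e => by
    linarith [h.rin_mu e, h.rin_pos e, ht e]
  have hreg : ∀ t ∈ P.Fd, ‖∑ k, P.pk (P.k1 m r) ψ (k, !b) t‖ ≤ Fintype.card ι * a := by
    intro t ht
    refine CfF1_le fun k => ?_
    have e1 : op (k, !b) = (k, b) := by simp [op]
    refine (Pl.pk1_bd (M := B) h hm (by rw [e1]; exact h1 k) (hfd t ht _)).trans (le_trans ?_ (h3 k))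
    exact div_le_div_of_nonneg_left (by positivity) (hmu _) (ht _)
  have hη : ∀ k v, ‖v‖ = P.ρ (k, !b) →
      ‖ψ (P.c (k, !b) + v) - 1‖ ≤ (1 + 2 * Fintype.card ι) * a := by
    intro k v hv
    have hm' : P.c (k, !b) + v ∈ P.Fd :=
      h.mem_fd (by linarith [h.mu_ρ (k, !b), hmu (k, !b)]) (by linarith [h.ρ_pos (k, !b)])
    have a1 := hreg _ hm'
    have a2 : ‖∑ j, P.pk (P.k1 m r) ψ (j, b) (P.c (k, !b) + v)‖ ≤ Fintype.card ι * a :=
      CfF1_le fun j => (Pl.pk1_bd (M := 4) (e := (j, b)) (f := ψ) h hm (h2 j) (hfd _ hm' _)).trans ((h4 k v hv).2 j)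
    have e : ψ (P.c (k, !b) + v) - 1 = (ψ (P.c (k, !b) + v) - χ (P.c (k, !b) + v)) +
        (∑ j, P.pk (P.k1 m r) ψ (j, b) (P.c (k, !b) + v) +
          ∑ j, P.pk (P.k1 m r) ψ (j, !b) (P.c (k, !b) + v)) := by
      rw [hχ, CfF1_sum _ b]
      ring
    rw [e]
    refine (norm_add_le _ _).trans ?_
    linarith [(h4 k v hv).1, norm_add_le (∑ j, P.pk (P.k1 m r) ψ (j, b) (P.c (k, !b) + v))
      (∑ j, P.pk (P.k1 m r) ψ (j, !b) (P.c (k, !b) + v))]
  have hs : ∀ k, ‖P.pk (P.k1 m r) ψ (k, b) t - r (k, b) / (t - P.c (k, b))‖ ≤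
      (30 + 12 * Fintype.card ι) * a * (‖r (k, b)‖ / ‖t - P.c (k, b)‖) := by
    intro k
    refine (Pl.pk1_main (e := (k, b)) h hm (hc _) (hη k) (hfd t ht _)).trans ?_
    have b1 : P.rin (k, b) * (P.ρ (k, b))⁻¹ ≤ a := by
      rw [← div_eq_mul_inv, div_le_iff₀ (h.ρ_pos _)]
      exact (h5 k).trans (mul_le_mul_of_nonneg_left (by linarith [h.mu_ρ (k, b), hmu (k, b)]) ha)
    have b2 : P.rin (k, b) * ‖t - P.c (k, b)‖⁻¹ ≤ a := by
      rw [← div_eq_mul_inv, div_le_iff₀ ((hmu _).trans_le (ht _))]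
      exact (h5 k).trans (mul_le_mul_of_nonneg_left (ht _) ha)
    rw [mul_comm ‖r (k, b)‖, mul_div_assoc]
    exact mul_le_mul_of_nonneg_right (by linarith) (by positivity)
  have e : χ t - 1 - ∑ k, r (k, b) / (t - P.c (k, b)) =
      ∑ k, (P.pk (P.k1 m r) ψ (k, b) t - r (k, b) / (t - P.c (k, b))) +
        ∑ k, P.pk (P.k1 m r) ψ (k, !b) t := by
    rw [hχ, CfF1_sum _ b, Finset.sum_sub_distrib]
    ring
  rw [e]
  refine (norm_add_le _ _).trans ?_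
  have a1 := (norm_sum_le _ _).trans (Finset.sum_le_sum fun k (_ : k ∈ Finset.univ) => hs k)
  rw [← Finset.mul_sum] at a1
  have a2 : 0 ≤ ∑ k, ‖r (k, b)‖ / ‖t - P.c (k, b)‖ := Finset.sum_nonneg fun k _ => by positivity
  have a3 : (0 : ℝ) ≤ Fintype.card ι * a := by positivity
  nlinarith [hreg t ht, mul_nonneg a3 a2]

theorem CfF1_num {L X m M σ τ v : ℝ} (hL : 0 < L) (hX : L ≤ X) (hm : 0 < m) (hσ : 0 ≤ σ)
    (hτ : 0 < τ) (hv : 0 < v) (h1 : m ≤ X ^ 2 * τ) (h2 : m ≤ L * X * v)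
    (h3 : L * X ^ 6 * σ ≤ M) : 6 * σ * (4 * X ^ 2) / (τ * v) ≤ 24 * M / m ^ 2 / L := by
  have hX0 : 0 < X := hL.trans_le hX
  have a1 : m ^ 2 ≤ X ^ 2 * τ * (L * X * v) := by
    rw [sq]
    exact mul_le_mul h1 h2 hm.le (by positivity)
  have a2 : X ^ 2 * τ * (L * X * v) ≤ X ^ 2 * τ * (X * X * v) := by gcongr
  have a3 := mul_le_mul_of_nonneg_left (a1.trans a2) (show 0 ≤ σ * X ^ 2 * L by positivity)
  have a4 := mul_le_mul_of_nonneg_right h3 (mul_pos hτ hv).le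
  rw [div_div, div_le_div_iff₀ (by positivity) (by positivity)]
  nlinarith

theorem CfF1_good {γ : ℕ} {C : Cfg γ} (h : C.Good) {m M : ℝ} (hm : 0 < m)
    (hl : C.L * |C.ℓ| ≤ M) (hb : m ≤ C.D.b 0) (h1 : ∀ e, m ≤ Real.exp (2 * C.L) * ‖C.τ e‖)
    (h2 : ∀ k, m ≤ C.L * Real.exp C.L * ‖C.vs k‖ ∧ C.L * Real.exp C.L * ‖C.vs k‖ ≤ M)
    (h3 : ∀ e, C.L * ‖C.rr e‖ ≤ M)
    (h4 : ∀ e, C.L * Real.exp (6 * C.L) * ‖C.pl.s e.1 / C.rr e‖ ≤ M) {t : ℂ} (ht : t ∈ C.pl.Fd) :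
    ‖C.wd.χ t - 1 - ∑ k, C.rr (k, false) / (t - C.c (k, false))‖ ≤
        (30 + 13 * γ) * ((24 * M / m ^ 2 + 12 * M / m + M + 16 * γ * M) / C.L) *
          (1 + ∑ k, ‖C.rr (k, false)‖ / ‖t - C.c (k, false)‖) ∧
      ‖C.wd.ψ₂ t - 1 - ∑ k, C.rr (k, true) / (t - C.c (k, true))‖ ≤
        (30 + 13 * γ) * ((24 * M / m ^ 2 + 12 * M / m + M + 16 * γ * M) / C.L) *
          (1 + ∑ k, ‖C.rr (k, true)‖ / ‖t - C.c (k, true)‖) := by
  have g := h.g0
  have hL : 0 < C.L := by linarith [h.L]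
  have hM : 0 ≤ M := le_trans (by positivity) hl
  have hX : C.L ≤ Real.exp C.L := by linarith [Real.add_one_le_exp C.L]
  have x2 : Real.exp (2 * C.L) = Real.exp C.L ^ 2 := by
    rw [← Real.exp_nat_mul]
    norm_num
  have x6 : Real.exp (6 * C.L) = Real.exp C.L ^ 6 := by
    rw [← Real.exp_nat_mul]
    norm_num
  have hb0 : 0 < C.D.b 0 := hm.trans_le hb
  have p1 : 0 ≤ 24 * M / m ^ 2 / C.L := by positivity
  have p2 : 0 ≤ 12 * M / m / C.L := by positivity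
  have p3 : 0 ≤ M / C.L := by positivity
  have p4 : 0 ≤ 16 * γ * M / C.L := by positivity
  obtain ⟨a, ha⟩ : ∃ a, a = (24 * M / m ^ 2 + 12 * M / m + M + 16 * γ * M) / C.L := ⟨_, rfl⟩
  rw [← ha]
  rw [add_div, add_div, add_div] at ha
  have ha0 : 0 ≤ a := by linarith
  have k3 : ∀ k b, 6 * ‖C.pl.s k / C.rr (k, b)‖ * (4 * Real.exp (2 * C.L)) / C.pl.mu (k, !b) ≤ a := by
    intro k b
    rw [g.mu_eq, x2]
    have := CfF1_num hL hX hm (norm_nonneg _) (norm_pos_iff.2 (Cfg.τ_ne (k, !b)))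
      (norm_pos_iff.2 (g.vs_ne k)) (x2 ▸ h1 _) (h2 k).1 (x6 ▸ h4 (k, b))
    linarith
  have k4 : ∀ k b v, ‖v‖ = C.pl.ρ (k, !b) → ∀ j,
      6 * ‖C.rr (j, b)‖ * 4 / ‖C.c (k, !b) + v - C.c (j, b)‖ ≤ a := by
    intro k b v hv j
    have d1 := (g.disc (e := (k, !b)) (v := v) (by linarith [g.pl_ok.ρ_pos (k, !b)])).2.2.1
    have d2 := g.other (b := !b) (τ := C.τ (k, !b) + v) (by linarith) j
    rw [Bool.not_not, ← add_assoc] at d2
    have d3 : ‖C.rr (j, b)‖ ≤ M / C.L := by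
      rw [le_div_iff₀' hL]
      exact h3 _
    calc _ ≤ 6 * (M / C.L) * 4 / (2 * m) := by
          refine div_le_div₀ (by positivity) (by linarith) (by positivity) (le_trans ?_ d2)
          linarith
      _ = 12 * M / m / C.L := by ring
      _ ≤ a := by linarith
  have k5 : ∀ e, C.pl.rin e ≤ a * C.pl.mu e := by
    intro e
    have d1 : ‖C.vs e.1‖ ≤ M / C.L := by
      rw [le_div_iff₀' hL]
      refine le_trans ?_ (h2 e.1).2
      rw [mul_assoc]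
      refine mul_le_mul_of_nonneg_left (le_mul_of_one_le_left (norm_nonneg _) ?_) hL.le
      linarith [h.L]
    have d2 : 16 * γ * ‖C.vs e.1‖ ≤ a := by
      have := mul_le_mul_of_nonneg_left d1 (show (0 : ℝ) ≤ 16 * γ by positivity)
      rw [← mul_div_assoc] at this
      linarith
    rw [g.rin_eq, g.mu_eq]
    calc _ = 16 * γ * ‖C.vs e.1‖ * (‖C.τ e‖ * ‖C.vs e.1‖) := by ring
      _ ≤ _ := mul_le_mul_of_nonneg_right d2 (by positivity)
  have hB : 0 ≤ 4 * Real.exp (2 * C.L) := by positivity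
  constructor
  · have := CfF1_det g.pl_ok h.w1 false ha0 hB h.χ_eq (fun e => (h.ψ_fb.1 e).1)
      (fun k => (h.ψ_fb.1 (k, false)).2)
      (fun k v hv => ((h.ψ_fb.1 (k, true)).2 v hv).trans_eq (mul_one _)) (fun k => k3 k false)
      (fun k v hv => ⟨?_, k4 k false v hv⟩) (fun k => k5 _) ht
    · rwa [Fintype.card_fin] at this
    have d1 := (g.disc (e := (k, true)) (v := v) (by
      linarith [g.pl_ok.ρ_pos (k, true), show ‖v‖ = C.pl.ρ (k, true) from hv])).2.2.1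
    have d2 := (h.toAdm.bb true).2.2
    have d3 : C.D.b 0 ≤ ‖C.c (k, true) + v + C.D.b 0‖ := by
      have e : ((C.D.b 1 - C.D.b 0 : ℝ) : ℂ) =
          C.τ (k, true) + v - (C.c (k, true) + v + C.D.b 0) := by
        simp [Cfg.c, Cfg.bb, jj]
        ring
      have := norm_sub_le (C.τ (k, true) + v) (C.c (k, true) + v + C.D.b 0)
      rw [← e, norm_real, Real.norm_of_nonneg (by linarith)] at this
      linarith
    have d4 : |C.ℓ| ≤ M / C.L := by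
      rw [le_div_iff₀' hL]
      exact hl
    change ‖_ + (C.ℓ : ℂ) * C.D.b 0 / (C.c (k, true) + v + C.D.b 0) - _‖ ≤ a
    rw [add_sub_cancel_left, norm_div, norm_mul, norm_real, norm_real, Real.norm_of_nonneg hb0.le,
      mul_div_assoc]
    refine (mul_le_of_le_one_right (norm_nonneg _) (div_le_one_of_le₀ d3 (norm_nonneg _))).trans ?_
    rw [Real.norm_eq_abs]
    linarith
  · have := CfF1_det g.pl_ok h.w2 true ha0 hB h.ψ₂_eq (fun e => (h.ψ_fb.2 e).1)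
      (fun k v hv => ((h.ψ_fb.2 (k, true)).2 v hv).trans (by
        change 2 * Real.exp (2 * C.L) ≤ _
        linarith))
      (fun k v hv => ((h.ψ_fb.2 (k, false)).2 v hv).trans (by norm_num [Cfg.W2]))
      (fun k => k3 k true) (fun k v hv => ⟨by simpa using ha0, k4 k true v hv⟩) (fun k => k5 _) ht
    rwa [Fintype.card_fin] at this

variable {γ : ℕ} {α : Type} {l : Filter α} {C : α → Cfg γ} {D₀ : Dat} {z₀ : Zs γ}

theorem Lim.master (h : Lim l C D₀ z₀) : ∀ ε > 0, ∀ᶠ x in l, ∀ t ∈ (C x).pl.Fd,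
    ‖(C x).wd.χ t - 1 - ∑ k, (C x).rr (k, false) / (t - (C x).c (k, false))‖ ≤
        ε * (1 + ∑ k, ‖(C x).rr (k, false)‖ / ‖t - (C x).c (k, false)‖) ∧
      ‖(C x).wd.ψ₂ t - 1 - ∑ k, (C x).rr (k, true) / (t - (C x).c (k, true))‖ ≤
        ε * (1 + ∑ k, ‖(C x).rr (k, true)‖ / ‖t - (C x).c (k, true)‖) := by
  intro ε hε
  obtain ⟨m, hm, M, hb⟩ := h.bds
  have h1 : Tendsto (fun x => (30 + 13 * γ) *
      ((24 * M / m ^ 2 + 12 * M / m + M + 16 * γ * M) / (C x).L)) l (𝓝 0) := by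
    simpa using (h.L.const_div_atTop _).const_mul (30 + 13 * γ : ℝ)
  filter_upwards [hb, h.fine, h1.eventually_le_const hε] with x hx hf h2 t ht
  have k : Fin γ := ⟨0, hf.pos⟩
  have := CfF1_good hf.toGood hm hx.1 (hx.2 (k, false)).2.2.2.2.2.1 (fun e => (hx.2 e).1.1)
    (fun j => (hx.2 (j, false)).2.1) (fun e => (hx.2 e).2.2.1.2) (fun e => (hx.2 e).2.2.2.1) ht
  exact ⟨this.1.trans (mul_le_mul_of_nonneg_right h2 (by positivity)),
    this.2.trans (mul_le_mul_of_nonneg_right h2 (by positivity))⟩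

end Pool.Agent.MP_92463a_gt

end
end

section

open Set Complex Filter Metric
open scoped Topology ComplexConjugate ContDiff Manifold

noncomputable section

namespace Pool.Agent.MP_92463a_gt

variable {γ : ℕ} {α : Type} {l : Filter α} {C : α → Cfg γ} {D₀ : Dat} {z₀ : Zs γ}

theorem CfF2_zero {E : Type} [NormedAddCommGroup E] {f : α → E} {L : α → ℝ} {M : ℝ}
    (hL : Tendsto L l atTop) (hf : ∀ᶠ x in l, L x * ‖f x‖ ≤ M) : Tendsto f l (𝓝 0) := by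
  refine squeeze_zero_norm' ?_ (hL.const_div_atTop M)
  filter_upwards [hf, hL.eventually_gt_atTop 0] with x h1 h2
  rwa [le_div_iff₀' h2]

theorem CfF2_b0 (h : Lim l C D₀ z₀) : 0 < D₀.b 0 / 2 ∧ ∀ᶠ x in l, D₀.b 0 / 2 ≤ (C x).D.b 0 := by
  have h0 := h.D.ok₀.b_pos 0 (by have := h.q; omega)
  exact ⟨by positivity, (h.bb false).eventually_const_le (show _ < D₀.b 0 by linarith)⟩

theorem CfF2_tau (h : Lim l C D₀ z₀) {δ : ℝ} (hδ : 0 < δ) : ∀ᶠ x in l, ∀ e, ‖(C x).τ e‖ ≤ δ :=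
  eventually_all.2 fun e => (h.tau0 e).1.norm.eventually_le_const (by simpa using hδ)

theorem CfF2_far (C : Cfg γ) {e : Fin γ × Bool} {t : ℂ} {δ : ℝ} (h : ‖C.τ e‖ ≤ δ / 2)
    (ht : δ ≤ ‖t + C.bb e.2‖) : δ / 2 ≤ ‖t - C.c e‖ := by
  have : t + C.bb e.2 = t - C.c e + C.τ e := by rw [Cfg.c]; ring
  have h2 := norm_add_le (t - C.c e) (C.τ e)
  rw [← this] at h2
  linarith

theorem CfF2_sum (h : Lim l C D₀ z₀) {δ a : ℝ} (hδ : 0 < δ) (ha : 0 < a) : ∀ᶠ x in l, ∀ b (t : ℂ),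
    δ ≤ ‖t + (C x).bb b‖ → ∑ k, ‖(C x).rr (k, b)‖ / ‖t - (C x).c (k, b)‖ ≤ a := by
  obtain ⟨m, -, M, hb⟩ := h.bds
  have h1 : ∀ b, Tendsto (fun x => ∑ k, ‖(C x).rr (k, b)‖ / (δ / 2)) l (𝓝 0) := fun b => by
    have := tendsto_finsetSum Finset.univ fun (k : Fin γ) _ =>
      ((CfF2_zero h.L (hb.mono fun x hx => (hx.2 (k, b)).2.2.1.2)).norm.div_const (δ / 2))
    simpa using this
  filter_upwards [eventually_all.2 fun b => (h1 b).eventually_le_const ha,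
    CfF2_tau h (half_pos hδ)] with x h2 h3 b t ht
  refine le_trans (Finset.sum_le_sum fun k _ => ?_) (h2 b)
  exact div_le_div_of_nonneg_left (norm_nonneg _) (half_pos hδ) (CfF2_far _ (h3 _) ht)

theorem CfF2_ell (h : Lim l C D₀ z₀) {δ a : ℝ} (hδ : 0 < δ) (ha : 0 < a) : ∀ᶠ x in l, ∀ t : ℂ,
    δ ≤ ‖t + (C x).D.b 0‖ → ‖(C x).ℓ * (C x).D.b 0 / (t + (C x).D.b 0)‖ ≤ a := by
  obtain ⟨m, -, M, hb⟩ := h.bds
  have h0 : Tendsto (fun x => (C x).ℓ) l (𝓝 0) := CfF2_zero h.L (hb.mono fun x hx => hx.1)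
  have h1 : Tendsto (fun x => ‖((C x).ℓ * (C x).D.b 0 : ℂ)‖ / δ) l (𝓝 0) := by
    have hb0 : Tendsto (fun x => (C x).D.b 0) l (𝓝 (D₀.b 0)) := h.bb false
    simpa using ((Dat.DatC_re h0).mul (Dat.DatC_re hb0)).norm.div_const δ
  filter_upwards [h1.eventually_le_const ha] with x h2 t ht
  rw [norm_div]
  exact (div_le_div_of_nonneg_left (norm_nonneg _) hδ ht).trans h2

theorem CfF2_est {κ : Type} [Fintype κ] {A B : ℂ} {r u : κ → ℂ} {ε η : ℝ} (hη : η ≤ 1)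
    (hε : 0 ≤ η) (h4 : 4 * η ≤ ε) (h1 : ‖A - 1 - ∑ k, r k / u k‖ ≤ η * (1 + ∑ k, ‖r k‖ / ‖u k‖))
    (h2 : ∑ k, ‖r k‖ / ‖u k‖ ≤ η) (h3 : ‖B‖ ≤ η) : ‖A + B - 1‖ ≤ ε := by
  have h5 : ‖∑ k, r k / u k‖ ≤ η :=
    ((norm_sum_le _ _).trans (by simp only [norm_div, le_refl])).trans h2
  have h6 := norm_add₃_le (a := A - 1 - ∑ k, r k / u k) (b := ∑ k, r k / u k) (c := B)
  rw [show A - 1 - ∑ k, r k / u k + ∑ k, r k / u k + B = A + B - 1 by ring] at h6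
  nlinarith

theorem CfF2_ne {A : ℂ} (h : ‖A - 1‖ ≤ 1 / 2) : A ≠ 0 := by
  rintro rfl
  norm_num at h

theorem CfF2_mt {ι : Type} {P : Pl ι} (hP : P.Ok) {m : ι × Bool → ℂ → ℂ} {r : ι × Bool → ℂ}
    {f : ℂ → ℂ} (hm : P.Wt m) (hr : ∀ e, r e * r (op e) = P.s e.1) (hf : P.Mt 1 m r f)
    {e : ι × Bool} {v : ℂ} (hv : v ∈ P.Ann e) (h : f (P.c (op e) + P.s e.1 / v) ≠ 0) :
    f (P.c e + v) ≠ 0 := by
  intro h0
  have h1 := hf e v hv
  rw [h0, mul_zero] at h1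
  have h2 : r e ≠ 0 := left_ne_zero_of_mul ((hr e).symm ▸ hP.s_ne e.1)
  have h3 := (hm.ne (hP.ann_sub _ (hP.ann_op hv)).2).1
  exact mul_ne_zero (div_ne_zero h2 (pow_ne_zero _ (hP.ann_ne hv))) (mul_ne_zero h3 h) h1.symm

theorem CfF2_rat (C : Cfg γ) (e : Fin γ × Bool) (j : Fin γ) (w : ℂ) :
    C.τ e + C.τ e * w - C.τ (j, e.2) = C.τ e * (1 + w - exp (C.z.lu (j, e.2) - C.z.lu e)) := by
  rw [Cfg.τ_eq, Cfg.τ_eq, exp_sub]
  have := exp_ne_zero (C.z.lu e)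
  field_simp

theorem CfF2_den {C : Cfg γ} (h : C.Adm) (e : Fin γ × Bool) (j : Fin γ) {w : ℂ} (h₀ : w ≠ 0)
    (h₁ : ‖w‖ < 1 / (8 * γ)) : 1 + w ≠ 0 ∧ 1 + w - exp (C.z.lu (j, e.2) - C.z.lu e) ≠ 0 := by
  have hγ : (1 : ℝ) ≤ γ := by exact_mod_cast h.pos
  have h2 : 1 / (8 * (γ : ℝ)) ≤ 1 := by
    rw [div_le_one (by positivity)]
    linarith
  refine ⟨fun h3 => ?_, fun h3 => ?_⟩
  · rw [eq_neg_of_add_eq_zero_right h3, norm_neg, norm_one] at h₁
    linarith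
  · by_cases hj : j = e.1
    · rw [hj, sub_self, exp_zero, add_sub_cancel_left] at h3
      exact h₀ h3
    have h4 := CfF2_rat C e j w
    rw [h3, mul_zero] at h4
    have h5 := (h.sep hj e.2).2
    rw [show C.τ (j, e.2) - C.τ (e.1, e.2) = C.τ e * w by linear_combination -h4, norm_mul,
      mul_comm] at h5
    have h6 := le_of_mul_le_mul_left h5 (norm_pos_iff.2 (Cfg.τ_ne e))
    have h7 : 1 / (8 * (γ : ℝ)) ≤ 2 / γ := by
      rw [div_le_div_iff₀ (by positivity) (by positivity)]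
      linarith
    linarith

theorem CfF2_div {T : ℂ} (hT : T ≠ 0) (a q L : ℂ) : a / (T * q) * T * L = L * a / q := by
  rcases eq_or_ne q 0 with rfl | hq
  · simp
  · field_simp

theorem Lim.psi_near (h : Lim l C D₀ z₀) : ∀ δ > 0, ∀ ε > 0, ∀ᶠ x in l, ∀ t ∈ (C x).pl.Fd,
    (δ ≤ ‖t + (C x).D.b 0‖ → ‖(C x).wd.ψ₁ t - 1‖ ≤ ε) ∧
      (δ ≤ ‖t + (C x).D.b 1‖ → ‖(C x).wd.ψ₂ t - 1‖ ≤ ε) := by
  intro δ hδ ε hε
  have hη : 0 < min 1 (ε / 4) := by positivity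
  have h4 : 4 * min 1 (ε / 4) ≤ ε := by linarith [min_le_right 1 (ε / 4)]
  filter_upwards [h.master _ hη, CfF2_sum h hδ hη, CfF2_ell h hδ hη] with x h1 h2 h3 t ht
  refine ⟨fun hd => CfF2_est (min_le_left _ _) hη.le h4 (h1 t ht).1 (h2 false t hd) (h3 t hd),
    fun hd => ?_⟩
  simpa using CfF2_est (B := 0) (min_le_left _ _) hη.le h4 (h1 t ht).2 (h2 true t hd)
    (by simpa using hη.le)

theorem Lim.wlim (h : Lim l C D₀ z₀) : WLim l (fun x => (C x).wd) D₀ := by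
  refine ⟨h.D, h.q, h.fine.mono fun x hx => hx.toGood.ok1, fun δ hδ ε hε => ?_⟩
  filter_upwards [h.psi_near δ hδ ε hε, CfF2_tau h (half_pos hδ), h.g0] with x h1 h2 h3 t ht
  have hF : t ∈ (C x).pl.Fd := fun e => by
    refine le_trans ?_ (CfF2_far (C x) (h2 e) (by
      rcases e with ⟨k, _ | _⟩
      · exact ht.1
      · exact ht.2))
    have hγ : (1 : ℝ) ≤ γ := by exact_mod_cast h3.1.pos
    have h4 : ‖(C x).vs e.1‖ ≤ 1 := (h3.1.vs _).trans (by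
      rw [div_le_one (by positivity)]
      linarith)
    rw [h3.1.mu_eq]
    exact (mul_le_of_le_one_right (norm_nonneg _) h4).trans (h2 e)
  exact ⟨hF, (h1 t hF).1 ht.1, (h1 t hF).2 ht.2⟩

theorem Lim.ok (h : Lim l C D₀ z₀) : ∀ᶠ x in l, (C x).wd.Ok := by
  obtain ⟨h0, hb⟩ := CfF2_b0 h
  filter_upwards [h.fine, hb, h.psi_near _ h0 (1 / 2) (by norm_num)] with x hf h1 h2
  have hg := hf.toGood
  have ho := hg.ok1
  have hd : (C x).wd.D.Ok := hg.d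
  obtain ⟨b0, -, b1⟩ := hg.toAdm.bb false
  have e0 : (C x).wd.D.b 0 = (C x).D.b 0 := rfl
  have e1 : (C x).wd.D.b 1 = (C x).D.b 1 := rfl
  have k1 : ∀ t ∈ (C x).pl.Fd, (C x).D.b 0 ≤ ‖t + (C x).D.b 0‖ → (C x).wd.ψ₁ t ≠ 0 :=
    fun t ht hh => CfF2_ne ((h2 t ht).1 (h1.trans hh))
  have k2 : ∀ t ∈ (C x).pl.Fd, (C x).D.b 0 ≤ ‖t + (C x).D.b 1‖ → (C x).wd.ψ₂ t ≠ 0 :=
    fun t ht hh => CfF2_ne ((h2 t ht).2 (h1.trans hh))
  have k3 : ∀ t ∈ (C x).pl.Fd, (C x).wd.ψ₁ t ≠ 0 ∨ (C x).wd.ψ₂ t ≠ 0 := fun t ht => by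
    have h3 := norm_sub_le (t + (C x).D.b 1) (t + (C x).D.b 0)
    rw [add_sub_add_left_eq_sub, ← ofReal_sub, norm_real, Real.norm_eq_abs] at h3
    have h4 := le_abs_self ((C x).D.b 1 - (C x).D.b 0)
    rcases le_total ((C x).D.b 0) ‖t + (C x).D.b 0‖ with h5 | h5
    · exact Or.inl (k1 t ht h5)
    · exact Or.inr (k2 t ht (by linarith))
  have nr : ∀ a b : ℝ, ‖(a : ℂ) + b‖ = |a + b| := fun a b => by
    rw [← ofReal_add, norm_real, Real.norm_eq_abs]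
  refine ⟨ho, fun t ht _ => ?_, fun i hi => ?_, k1 0 (ho.toOk0.zero_fd (by simp [Dat.P])).1 ?_,
    fun j hj => ?_⟩
  · rcases ho.pl.cover ht with hF | ⟨e, v, hv, rfl, -, -, hF⟩
    · exact k3 t hF
    · exact (k3 _ hF).imp (CfF2_mt ho.pl hg.w1 (fun e => (hg.g0.r_mul e).1) hg.mt.1 hv)
        (CfF2_mt ho.pl hg.w2 (fun e => (hg.g0.r_mul e).2.1) hg.mt.2 hv)
  · have hF := (ho.toOk0.zero_fd (t := (C x).D.a i) (mul_eq_zero_of_right _
      (Finset.prod_eq_zero (Finset.mem_range.2 hi) (sub_self _)))).1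
    have ha := hd.a_pos i hi
    refine ⟨k1 _ hF ?_, k2 _ hF ?_⟩ <;> rw [nr] <;> refine le_trans ?_ (le_abs_self _) <;> linarith
  · rw [zero_add, norm_real, Real.norm_eq_abs]
    exact le_abs_self _
  · have hF := (ho.toOk0.zero_fd (t := -(C x).D.b j) (mul_eq_zero_of_left (mul_eq_zero_of_right _
      (Finset.prod_eq_zero (Finset.mem_range.2 hj) (neg_add_cancel _))) _)).1
    refine ⟨fun he => k2 _ hF ?_, fun he => k1 _ hF ?_⟩ <;> rw [← ofReal_neg, nr]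
    · rcases Nat.eq_zero_or_pos j with rfl | hj0
      · refine le_trans ?_ (le_abs_self _)
        linarith
      · have := hd.b_gap 1 j (by rcases he with ⟨r, hr⟩; omega) hj
        refine le_trans ?_ (neg_le_abs _)
        linarith
    · have := hd.b_gap 0 j he.pos hj
      refine le_trans ?_ (neg_le_abs _)
      linarith

theorem Lim.psr (h : Lim l C D₀ z₀) : ∀ ε > 0, ∀ᶠ x in l, ∀ b, ∀ τ : ℂ, ‖τ‖ ≤ (C x).D.b 0 →
    -(C x).bb b + τ ∈ (C x).pl.Fd → ‖(C x).wd.ψr b (-(C x).bb b + τ) - 1‖ ≤ ε := by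
  intro ε hε
  obtain ⟨h0, hb⟩ := CfF2_b0 h
  filter_upwards [h.adm, hb, h.psi_near _ h0 ε hε] with x ha h1 h2 b τ hτ ht
  obtain ⟨b0, -, b1⟩ := ha.bb false
  have key : ∀ u v : ℝ, 4 * (C x).D.b 0 ≤ |v - u| → D₀.b 0 / 2 ≤ ‖-(u : ℂ) + τ + v‖ :=
    fun u v huv => by
      have h3 := norm_sub_le (-(u : ℂ) + τ + v) τ
      rw [show -(u : ℂ) + τ + v - τ = (v - u : ℝ) by push_cast; ring, norm_real,
        Real.norm_eq_abs] at h3
      linarith
  cases b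
  · exact (h2 _ ht).2 (key ((C x).D.b 0) _ (le_trans (by linarith) (le_abs_self _)))
  · exact (h2 _ ht).1 (key ((C x).D.b 1) _ (le_trans (by linarith) (neg_le_abs _)))

theorem Lim.pss (h : Lim l C D₀ z₀) : ∀ ε > 0, ∀ᶠ x in l, ∀ b, ∀ τ : ℂ,
    -(C x).bb b + τ ∈ (C x).pl.Fd →
    ‖(C x).wd.ψs b (-(C x).bb b + τ) - (1 + (if b then 0 else (C x).ℓ * (C x).D.b 0 / τ) +
        ∑ k, (C x).rr (k, b) / (τ - (C x).τ (k, b)))‖ ≤
      ε * (1 + ∑ k, ‖(C x).rr (k, b)‖ / ‖τ - (C x).τ (k, b)‖) := by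
  intro ε hε
  filter_upwards [h.master ε hε] with x h1 b τ ht
  have e : ∀ k, -((C x).bb b : ℂ) + τ - (C x).c (k, b) = τ - (C x).τ (k, b) := fun k => by
    rw [Cfg.c]
    ring
  obtain ⟨h2, h3⟩ := h1 _ ht
  cases b
  · simp only [e] at h2
    refine le_of_eq_of_le (congrArg _ ?_) h2
    have e2 : -((C x).bb false : ℂ) + τ + (C x).wd.D.b 0 = τ := neg_add_cancel_comm _ _
    simp only [Wd.ψs, Wd.ψ₁, e2, Bool.false_eq_true, if_false]
    change _ + ((C x).ℓ : ℂ) * (C x).D.b 0 / τ - _ = _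
    ring
  · simp only [e] at h3
    refine le_of_eq_of_le (congrArg _ ?_) h3
    simp only [Wd.ψs, if_true]
    ring

theorem Lim.psi_sc (h : Lim l C D₀ z₀) (e : Fin γ × Bool) {w : α → ℂ} {w₀ : ℂ}
    (hw : Tendsto w l (𝓝 w₀)) (h₀ : w₀ ≠ 0) (h₁ : ‖w₀‖ < 1 / (8 * γ)) :
    Tendsto (fun x => (C x).wd.ψs e.2 ((C x).c e + (C x).τ e * w x) * (C x).τ e * (C x).L) l
        (𝓝 ((if e.2 then -D₀.b 1 else D₀.b 0) * (cf D₀ z₀).E * z₀.Psi e w₀)) ∧
      Tendsto (fun x => (C x).wd.ψr e.2 ((C x).c e + (C x).τ e * w x)) l (𝓝 1) := by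
  rcases l.eq_or_neBot with rfl | hl
  · exact ⟨tendsto_bot, tendsto_bot⟩
  have hden := fun j => CfF2_den h.adm₀ e j h₀ h₁
  have hpt : ∀ x, (C x).c e + (C x).τ e * w x = -(C x).bb e.2 + ((C x).τ e + (C x).τ e * w x) :=
    fun x => by rw [Cfg.c, add_assoc]
  have hF : ∀ᶠ x in l, ‖(C x).τ e + (C x).τ e * w x‖ ≤ (C x).D.b 0 ∧
      -(C x).bb e.2 + ((C x).τ e + (C x).τ e * w x) ∈ (C x).pl.Fd := by
    filter_upwards [h.g0, hw.norm.eventually_le_const h₁,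
      (h.vs0 e.1).1.norm.eventually_lt hw.norm (by simpa using h₀)] with x hg h2 h3
    have h4 : ‖(C x).τ e * w x‖ ≤ 2 * (C x).pl.ρ e := by
      rw [norm_mul]
      refine (mul_le_mul_of_nonneg_left h2 (norm_nonneg _)).trans_eq ?_
      change _ = 2 * (‖(C x).τ e‖ / (16 * γ))
      ring
    have h5 := (hg.1.toAdm.bb false).1
    refine ⟨by linarith [(hg.1.disc h4).2.2.1], ?_⟩
    rw [← hpt]
    refine hg.1.pl_ok.mem_fd ?_ h4
    rw [hg.1.mu_eq, norm_mul]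
    exact mul_le_mul_of_nonneg_left h3.le (norm_nonneg _)
  have hq : ∀ j, Tendsto (fun x => (C x).L * (C x).rr (j, e.2) /
      (1 + w x - exp ((C x).z.lu (j, e.2) - (C x).z.lu e))) l (𝓝 _) := fun j =>
    (h.rr (j, e.2)).div ((hw.const_add 1).sub ((h.zs.1 _).sub (h.zs.1 e)).cexp) (hden j).2
  have ht := (h.tau0 e).2.1
  refine ⟨?_, ?_⟩
  · have hA : Tendsto (fun x => (1 + (if e.2 then 0 else (C x).ℓ * (C x).D.b 0 /
        ((C x).τ e + (C x).τ e * w x)) + ∑ k, (C x).rr (k, e.2) /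
          ((C x).τ e + (C x).τ e * w x - (C x).τ (k, e.2))) * (C x).τ e * (C x).L) l
        (𝓝 ((if e.2 then -D₀.b 1 else D₀.b 0) * (cf D₀ z₀).E * z₀.Psi e w₀)) := by
      have h2 : Tendsto (fun x => if e.2 then (0 : ℂ) else
          (((C x).L * (C x).ℓ : ℝ) : ℂ) * (C x).D.b 0 / (1 + w x)) l (𝓝 (if e.2 then 0 else
          ((-((cf D₀ z₀).E * (γ + 1 / 2 + z₀.mean.re)) : ℝ) : ℂ) * D₀.b 0 / (1 + w₀))) := by
        split_ifs
        · exact tendsto_const_nhds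
        · exact ((Dat.DatC_re h.ell).mul (Dat.DatC_re (h.bb false))).div (hw.const_add 1)
            (hden e.1).1
      have h3 := (ht.add h2).add (tendsto_finsetSum Finset.univ fun j _ => hq j)
      convert h3 using 2 with x
      · rw [add_mul, add_mul, add_mul, add_mul, one_mul, mul_comm ((C x).τ e), Finset.sum_mul,
          Finset.sum_mul]
        congr 1
        · congr 1
          split_ifs
          · simp
          · rw [← mul_one_add, CfF2_div (Cfg.τ_ne e), ofReal_mul, mul_assoc]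
        · exact Finset.sum_congr rfl fun j _ => by rw [CfF2_rat, CfF2_div (Cfg.τ_ne e)]
      · rw [Zs.Psi, ← Finset.add_sum_erase _ _ (Finset.mem_univ e.1), sub_self, exp_zero,
          add_sub_cancel_left, mul_sub, mul_add, Finset.mul_sum]
        simp only [mul_div_assoc]
        split_ifs
        · ring
        · push_cast
          ring
    have hE : Tendsto (fun x => ((C x).wd.ψs e.2 ((C x).c e + (C x).τ e * w x) -
        (1 + (if e.2 then 0 else (C x).ℓ * (C x).D.b 0 /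
        ((C x).τ e + (C x).τ e * w x)) + ∑ k, (C x).rr (k, e.2) /
          ((C x).τ e + (C x).τ e * w x - (C x).τ (k, e.2)))) * (C x).τ e * (C x).L) l (𝓝 0) := by
      refine Asymptotics.IsLittleO.tendsto_zero_of_tendsto (Asymptotics.isLittleO_iff.2 ?_)
        (ht.norm.add (tendsto_finsetSum Finset.univ fun j _ => (hq j).norm))
      intro ε hε
      filter_upwards [h.pss ε hε, hF] with x h2 h3
      have h4 := mul_le_mul_of_nonneg_right (h2 _ _ h3.2) (norm_nonneg ((C x).τ e * (C x).L))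
      rw [← hpt, ← norm_mul, ← mul_assoc] at h4
      refine h4.trans ?_
      rw [mul_assoc]
      refine mul_le_mul_of_nonneg_left (le_trans (le_of_eq ?_) (le_abs_self _)) hε.le
      rw [add_mul, one_mul, mul_comm ((C x).τ e), Finset.sum_mul]
      congr 1
      refine Finset.sum_congr rfl fun j _ => ?_
      rw [← norm_div, ← norm_mul, CfF2_rat, ← CfF2_div (Cfg.τ_ne e), mul_assoc,
        mul_comm ((C x).L : ℂ)]
    simpa only [← add_mul, sub_add_cancel, zero_add] using hE.add hA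
  · refine Metric.tendsto_nhds.2 fun ε hε => ?_
    filter_upwards [h.psr _ (half_pos hε), hF] with x h2 h3
    rw [dist_eq_norm, hpt]
    exact (h2 _ _ h3.1 h3.2).trans_lt (half_lt_self hε)

end Pool.Agent.MP_92463a_gt

end
end

section

open Set Complex Filter Metric
open scoped Topology ComplexConjugate ContDiff Manifold

noncomputable section

namespace Pool.Agent.MP_92463a_gt

variable {γ : ℕ} {α : Type} {l : Filter α} {C : α → Cfg γ} {D₀ : Dat} {z₀ : Zs γ}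

theorem CfG_lt (hγ : 0 < γ) : (0 : ℝ) < 1 / (16 * γ) ∧ (1 / (16 * γ) : ℝ) < 1 / (8 * γ) ∧
    (1 / (8 * γ) : ℝ) ≤ 1 / 8 := by
  have h1 : (1 : ℝ) ≤ γ := by exact_mod_cast hγ
  refine ⟨by positivity, ?_, ?_⟩
  · exact one_div_lt_one_div_of_lt (by positivity) (by linarith)
  · exact one_div_le_one_div_of_le (by norm_num) (by linarith)

theorem CfG_slit (hγ : 0 < γ) {w : ℂ} (hw : ‖w‖ < 1 / (8 * γ)) : 1 + w ∈ slitPlane :=
  mem_slitPlane_of_norm_lt_one (by linarith [(CfG_lt hγ).2.2])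

theorem CfG_ne {z : Zs γ} (hγ : 0 < γ) (h : ‖z‖ ≤ 1 / (100 * γ)) (e : Fin γ × Bool) {j : Fin γ}
    (hj : j ≠ e.1) {w : ℂ} (hw : ‖w‖ < 1 / (8 * γ)) :
    1 + w - exp (z.lu (j, e.2) - z.lu e) ≠ 0 := by
  obtain ⟨k, b⟩ := e
  have h1 : (1 : ℝ) ≤ γ := by exact_mod_cast hγ
  intro h0
  have hs := (Zs.sep hγ h hj b).2
  have hn : ‖exp (z.lu (k, b))‖ ≤ 2 := by
    have h3 := Zs.small hγ h k
    have h5 : (6 : ℝ) / (100 * γ) ≤ 1 := by
      rw [div_le_one (by positivity)]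
      linarith
    have h6 : (2 : ℝ) / (100 * γ) ≤ 3 / (100 * γ) := by gcongr; norm_num
    have key : ∀ x : ℝ, ‖z.lu (k, b) - I * x‖ ≤ 3 / (100 * γ) → ‖exp (z.lu (k, b))‖ ≤ 2 :=
      fun x hx => by
        have h4 := ZsB_near hγ hx
        have h7 : ‖exp (I * x)‖ = 1 := by rw [mul_comm, norm_exp_ofReal_mul_I]
        linarith [norm_sub_norm_le (exp (z.lu (k, b))) (exp (I * x))]
    cases b
    · exact key _ (h3.2.2.2.1.trans h6)
    · exact key (Real.pi - ang γ k) (by simpa using h3.2.2.2.2)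
  have e1 : exp (z.lu (j, b)) - exp (z.lu (k, b)) = w * exp (z.lu (k, b)) := by
    rw [exp_sub] at h0
    have := exp_ne_zero (z.lu (k, b))
    field_simp at h0
    linear_combination -h0
  rw [e1, norm_mul] at hs
  have h8 : (3 : ℝ) / γ = 24 * (1 / (8 * γ)) := by field_simp; norm_num
  have h9 : (0 : ℝ) < 1 / (8 * γ) := by positivity
  nlinarith [norm_nonneg w, norm_nonneg (exp (z.lu (k, b)))]

/-- the regular part of the rescaled spinor -/
def CfG_reg (z : Zs γ) (e : Fin γ × Bool) (w : ℂ) : ℂ :=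
  ∑ j ∈ Finset.univ.erase e.1, z.eh j / (1 + w - exp (z.lu (j, e.2) - z.lu e)) -
    if e.2 then 0 else (γ + 1 / 2 + z.mean.re) / (1 + w)

theorem CfG_hol {z : Zs γ} (hγ : 0 < γ) (h : ‖z‖ ≤ 1 / (100 * γ)) (e : Fin γ × Bool) :
    DifferentiableOn ℂ (CfG_reg z e) (ball 0 (1 / (8 * γ))) := by
  refine DifferentiableOn.sub (DifferentiableOn.fun_sum fun j hj => ?_) ?_
  · exact (differentiableOn_const _).div (by fun_prop) fun w hw =>
      CfG_ne hγ h e (Finset.ne_of_mem_erase hj) (mem_ball_zero_iff.1 hw)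
  · split_ifs
    · exact differentiableOn_const _
    · exact (differentiableOn_const _).div (by fun_prop) fun w hw =>
        slitPlane_ne_zero (CfG_slit hγ (mem_ball_zero_iff.1 hw))

theorem CfG_reg0 (z : Zs γ) (e : Fin γ × Bool) :
    3 / 4 * z.eh e.1 + CfG_reg z e 0 = z.fc e - if e.2 then 0 else (γ + 1 / 2 + z.mean.re) := by
  have h1 : ∀ a b c : ℂ, c / (1 - exp (b - a)) = c * exp a / (exp a - exp b) := fun a b c => by
    have h2 : exp a - exp b = exp a * (1 - exp (b - a)) := by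
      rw [exp_sub]
      field_simp
    rw [h2, mul_comm c, mul_div_mul_left _ _ (exp_ne_zero a)]
  simp only [CfG_reg, Zs.fc, add_zero, div_one, h1]
  split_ifs <;> push_cast <;> ring

theorem Zs.av_Psi {z : Zs γ} (hγ : 0 < γ) (h : ‖z‖ ≤ 1 / (100 * γ)) (e : Fin γ × Bool) :
    ContinuousOn (z.Psi e) {w | ‖w‖ = 1 / (16 * γ)} ∧
    av (1 / (16 * γ)) (fun w => z.Psi e w * w) = z.eh e.1 ∧
    av (1 / (16 * γ)) (fun w => (exp (3 / 4 * log (1 + w)) * z.Psi e w) ^ 2 * w) =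
      2 * z.eh e.1 * (z.fc e - if e.2 then 0 else (γ + 1 / 2 + z.mean.re)) := by
  obtain ⟨h0, h1, h2⟩ := CfG_lt hγ
  have hr := CfG_hol hγ h e
  have hP : ∀ w, z.Psi e w = z.eh e.1 / w + CfG_reg z e w := fun w => by
    simp only [Zs.Psi, CfG_reg]
    ring
  have hne : ∀ w : ℂ, ‖w‖ = 1 / (16 * γ) → w ≠ 0 := fun w hw => norm_pos_iff.1 (hw ▸ h0)
  have hg : DifferentiableOn ℂ (fun w => z.eh e.1 + w * CfG_reg z e w) (ball 0 (1 / (8 * γ))) :=
    (differentiableOn_const _).add (differentiableOn_id.mul hr)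
  refine ⟨?_, ?_, ?_⟩
  · rw [funext hP]
    exact (continuousOn_const.div continuousOn_id hne).add (hr.continuousOn.mono fun w hw =>
      mem_ball_zero_iff.2 (lt_of_eq_of_lt hw h1))
  · rw [av_congr h0.le (g := fun w => z.eh e.1 + w * CfG_reg z e w) fun w hw => by
      rw [hP]; field_simp [hne w hw], av_center h0.le h1 hg]
    simp
  · have hm : DifferentiableOn ℂ (fun w => exp (3 / 4 * log (1 + w))) (ball 0 (1 / (8 * γ))) :=
      (((differentiableOn_const _).add differentiableOn_id).clog fun w hw =>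
        CfG_slit hγ (mem_ball_zero_iff.1 hw)).const_mul _ |>.cexp
    rw [av_congr h0.le (g := fun w => (exp (3 / 4 * log (1 + w)) *
      (z.eh e.1 + w * CfG_reg z e w)) ^ 2 / w) fun w hw => by
        rw [hP]; field_simp [hne w hw], av_deriv h0 h1 ((hm.fun_mul hg).fun_pow 2), ← CfG_reg0]
    have d1 : HasDerivAt (fun w : ℂ => exp (3 / 4 * log (1 + w))) (3 / 4) 0 := by
      have := ((((hasDerivAt_id (0 : ℂ)).const_add 1).clog (by simp)).const_mul (3 / 4)).cexp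
      simpa using this
    have d2 := (hr.differentiableAt (ball_mem_nhds 0 (h0.trans h1))).hasDerivAt
    have d3 := ((d1.mul (((hasDerivAt_id (0 : ℂ)).mul d2).const_add (z.eh e.1))).pow 2).deriv
    refine (congrArg (deriv · 0) (funext fun w => ?_)).trans (d3.trans ?_)
    · rfl
    · simp

theorem CfG_rs [l.NeBot] (h : Lim l C D₀ z₀) (e : Fin γ × Bool) {d : α → ℂ} {n₀ : ℂ}
    (hn : Tendsto (fun x => d x * (if e.2 then ((C x).Ge e 0 * (C x).c e)⁻¹ else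
      (C x).Ge e 0 / (C x).c e) / ((C x).τ e * (C x).L ^ 2)) l (𝓝 n₀)) :
    Tendsto (fun x => d x * (C x).pl.rs (C x).wd.fs e) l
      (𝓝 (n₀ * ((if e.2 then -D₀.b 1 else D₀.b 0) * (cf D₀ z₀).E) ^ 2 *
        (2 * z₀.eh e.1 * (z₀.fc e - if e.2 then 0 else (γ + 1 / 2 + z₀.mean.re))))) := by
  have hγ := h.adm₀.pos
  obtain ⟨h0, h1, h2⟩ := CfG_lt hγ
  obtain ⟨p1, -, p3⟩ := Zs.av_Psi (z := z₀) hγ h.adm₀.small e
  simp only [Pl.rs, ← av_const_mul]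
  erw [← p3, ← av_const_mul]
  refine av_tendsto (s := fun x => (C x).τ e) h0.le ?_ ?_ fun w hw => ?_
  · filter_upwards [h.ok] with x hx
    refine ⟨by simp only [Cfg.pl]; ring, continuousOn_const.mul (ContinuousOn.mul ?_ continuousOn_id)⟩
    unfold Wd.fs
    split_ifs
    · exact (hx.m2.hol e).continuousOn.mono fun _ hv => hx.pl.circ_mem hv
    · exact (hx.m1.hol e).continuousOn.mono fun _ hv => hx.pl.circ_mem hv
  · refine continuousOn_const.mul (((ContinuousOn.mul ?_ p1).pow 2).mul continuousOn_id)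
    exact (continuousOn_const.mul ((continuousOn_const.add continuousOn_id).clog fun w hw =>
      CfG_slit hγ (lt_of_eq_of_lt hw h1))).cexp
  · have h' := h.comp (l' := l ×ˢ 𝓝[{w : ℂ | ‖w‖ = 1 / (16 * γ)}] w) tendsto_fst
    have hw' : Tendsto (fun z : α × ℂ => z.2) (l ×ˢ 𝓝[{w : ℂ | ‖w‖ = 1 / (16 * γ)}] w) (𝓝 w) :=
      tendsto_snd.mono_right nhdsWithin_le_nhds
    have q1 := (h'.psi_sc e hw' (norm_pos_iff.1 (hw ▸ h0)) (hw ▸ h1)).1
    have q2 := h'.m_sc e hw' (hw ▸ h1)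
    have q3 : Tendsto (fun z : α × ℂ => if e.2 then (C z.1).m2 e ((C z.1).τ e * z.2) else
        (C z.1).m1 e ((C z.1).τ e * z.2)) (l ×ˢ 𝓝[{w : ℂ | ‖w‖ = 1 / (16 * γ)}] w)
        (𝓝 (exp (3 / 4 * log (1 + w)))) := by
      split_ifs with hb
      · simpa [hb, jj, sg] using q2.2
      · simpa [hb, jj, sg] using q2.1
    have q4 := (hn.comp tendsto_fst).mul (((q3.mul q1).pow 2).mul hw')
    refine (q4.congr' ?_).mono_right (le_of_eq (congrArg _ (by ring)))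
    filter_upwards [h'.g0, tendsto_snd.eventually self_mem_nhdsWithin] with z hz hz2
    have hv : ‖(C z.1).τ e * z.2‖ ≤ 2 * (C z.1).pl.ρ e := by
      have : ‖z.2‖ = 1 / (16 * γ) := hz2
      have h3 : (C z.1).pl.ρ e = ‖(C z.1).τ e‖ * (1 / (16 * γ)) := by simp only [Cfg.pl]; ring
      rw [norm_mul, this, h3]
      linarith [mul_nonneg (norm_nonneg ((C z.1).τ e)) h0.le]
    have h4 := hz.1.f_eq hv
    have h5 := Cfg.τ_ne (C := C z.1) e
    have h6 : ((C z.1).L : ℂ) ≠ 0 := ofReal_ne_zero.2 (by linarith [hz.1.L])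
    simp only [Function.comp, Wd.fs, Wd.ψs]
    split_ifs
    · rw [h4.2.1]
      field_simp
    · rw [h4.1]
      field_simp

theorem CfG_Ge (C : Cfg γ) (k : Fin γ) :
    C.Ge (k, false) 0 = -I * Real.exp (C.D.A 0) * exp (C.lg (k, false) / 2) * C.τ (k, false) *
      exp (C.D.lam 0 (C.τ (k, false))) ∧
    C.Ge (k, true) 0 * C.τ (k, true) * exp (C.lg (k, true) / 2) =
      -Real.exp (C.D.A 1) * exp (C.D.lam 1 (C.τ (k, true))) := by
  have e1 : exp (((-(Real.pi / 2) : ℝ) : ℂ) * I) = -I := by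
    rw [← exp_neg_pi_div_two_mul_I]
    congr 1
    push_cast
    ring
  constructor
  · rw [Cfg.Ge, (Cfg.dG_zero _).1, ← e1, ofReal_exp, Cfg.τ]
    simp only [← exp_add, jj, sg, ph]
    congr 1
    simp
    ring
  · rw [Cfg.Ge, (Cfg.dG_zero _).1, ofReal_exp, ← neg_one_mul, ← exp_pi_mul_I]
    nth_rw 2 [Cfg.τ]
    simp only [← exp_add, jj, sg, ph]
    congr 1
    simp
    ring

theorem CfG_conj {C : Cfg γ} (h : C.Adm) (k : Fin γ) :
    (C.D.b 1 : ℂ) * conj (exp (C.lg (k, true) / 2)) =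
      -(Real.exp (C.D.A 1) * C.θ0 k * conj (exp (C.z.2.2.2 k / 2))) := by
  obtain ⟨h0, -, h1⟩ := h.bb true
  have h2 : 0 < C.D.b 1 := by linarith
  have e0 : conj (C.lg (k, true) / 2) = ((C.lk true / 2 : ℝ) : ℂ) + -Real.pi / 2 * I +
      C.lg (k, false) / 2 + conj (C.z.2.2.2 k / 2) := by
    simp only [Cfg.lg, Zs.lu, Cfg.lk, map_div₀, map_add, map_mul, map_sub, conj_I, conj_ofReal,
      conj_conj, map_ofNat]
    simp
    ring
  have e1 : C.D.b 1 * Real.exp (C.lk true / 2) =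
      C.D.b 0 * Real.exp (C.D.A 0) * Real.exp (C.D.A 1) := by
    have : C.lk true / 2 = C.D.A 0 + C.D.A 1 + Real.log (C.D.b 0) - Real.log (C.D.b 1) := by
      simp [Cfg.lk]
    rw [this, Real.exp_sub, Real.exp_add, Real.exp_add, Real.exp_log h0, Real.exp_log h2]
    field_simp
  have e2 := congrArg ofReal e1
  rw [← exp_conj, ← exp_conj, e0, exp_add, exp_add, exp_add, exp_neg_pi_div_two_mul_I,
    ← ofReal_exp, Cfg.θ0]
  simp only [ofReal_mul] at e2 ⊢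
  linear_combination (-I * exp (C.lg (k, false) / 2) * exp (conj (C.z.2.2.2 k / 2))) * e2

theorem Lim.eF (h : Lim l C D₀ z₀) (k : Fin γ) :
    Tendsto (fun x => (C x).eF k) l (𝓝 (z₀.lim.1 k)) := by
  rcases l.eq_or_neBot with rfl | hl
  · exact tendsto_bot
  have a₀ := h.adm₀
  obtain ⟨b0, -, b1⟩ := a₀.bb true
  have hb0 : (D₀.b 0 : ℂ) ≠ 0 := ofReal_ne_zero.2 b0.ne'
  have hb1 : (D₀.b 1 : ℂ) ≠ 0 := ofReal_ne_zero.2 (show (0 : ℝ) < D₀.b 1 from by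
    change 0 < D₀.b 0 at b0
    change 5 * D₀.b 0 < D₀.b 1 at b1
    linarith).ne'
  have hE0 : ((cf D₀ z₀).E : ℂ) ≠ 0 := ofReal_ne_zero.2 a₀.E_pos.ne'
  have hE : Tendsto (fun x => ((C x).E : ℂ)) l (𝓝 (cf D₀ z₀).E) :=
    (continuous_ofReal.tendsto _).comp h.E
  have hB : ∀ b, Tendsto (fun x => ((C x).D.b (jj b) : ℂ)) l (𝓝 (D₀.b (jj b))) := fun b =>
    (continuous_ofReal.tendsto _).comp (h.bb b)
  have hlam : ∀ b, Tendsto (fun x => exp ((C x).D.lam (jj b) ((C x).τ (k, b)))) l (𝓝 1) :=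
    fun b => by
      have := (h.D.lam (a₀.jj_lt b) (h.tau0 (k, b)).1 (by rw [norm_zero]; exact half_pos b0)).cexp
      rwa [Dat.lam_zero, exp_zero] at this
  have t1 := CfG_rs h (k, false)
    (d := fun x => (2 * (C x).θ0 k * (((C x).E / (C x).L : ℝ) : ℂ) ^ 2)⁻¹)
    (n₀ := -1 / (2 * D₀.b 0 * (cf D₀ z₀).E ^ 2 * -D₀.b 0)) (by
      refine ((hlam false).neg.div (((tendsto_const_nhds.mul (hB false)).mul (hE.pow 2)).mul
        (h.tau0 (k, false)).2.2.1) (by simp [jj, hb0, hE0])).congr' ?_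
      filter_upwards [h.g0] with x hx
      have h1 := (hx.1.c_bd (k, false)).1
      have h2 := Cfg.τ_ne (C := C x) (k, false)
      have h3 : ((C x).L : ℂ) ≠ 0 := ofReal_ne_zero.2 (by linarith [hx.1.L])
      have h4 : ((C x).E : ℂ) ≠ 0 := ofReal_ne_zero.2 hx.1.E_pos.ne'
      have h5 : ((C x).D.b 0 : ℂ) ≠ 0 := ofReal_ne_zero.2 (hx.1.bb false).1.ne'
      have h6 : ((Real.exp ((C x).D.A 0) : ℝ) : ℂ) ≠ 0 := ofReal_ne_zero.2 (Real.exp_ne_zero _)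
      simp only [Pi.div_apply, (CfG_Ge _ k).1, Cfg.θ0, jj, ofReal_mul, ofReal_div,
        Bool.false_eq_true, if_false]
      field_simp)
  have t2 := CfG_rs h (k, true)
    (d := fun x => exp ((C x).z.2.2.2 k / 2) * Real.exp ((C x).D.A 1) /
      (2 * ((C x).D.b 1 * exp ((C x).lg (k, true) / 2)) * (((C x).E / (C x).L : ℝ) : ℂ) ^ 2))
    (n₀ := -exp (z₀.2.2.2 k / 2) / (2 * D₀.b 1 * (cf D₀ z₀).E ^ 2 * -D₀.b 1 * 1)) (by
      refine (((h.zs.2.2.2 k).div_const 2).cexp.neg.div ((((tendsto_const_nhds.mul (hB true)).mul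
        (hE.pow 2)).mul (h.tau0 (k, true)).2.2.1).mul (hlam true))
        (by simp [jj, hb1, hE0])).congr' ?_
      filter_upwards [h.g0] with x hx
      have h1 := (hx.1.c_bd (k, true)).1
      have h2 := Cfg.τ_ne (C := C x) (k, true)
      have h3 : ((C x).L : ℂ) ≠ 0 := ofReal_ne_zero.2 (by linarith [hx.1.L])
      have h4 : ((C x).E : ℂ) ≠ 0 := ofReal_ne_zero.2 hx.1.E_pos.ne'
      have h5 : ((C x).D.b 1 : ℂ) ≠ 0 :=
        ofReal_ne_zero.2 (by linarith [(hx.1.bb true).1, (hx.1.bb true).2.2])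
      have h6 : ((Real.exp ((C x).D.A 1) : ℝ) : ℂ) ≠ 0 := ofReal_ne_zero.2 (Real.exp_ne_zero _)
      have h7 : (C x).Ge (k, true) 0 = -Real.exp ((C x).D.A 1) *
          exp ((C x).D.lam 1 ((C x).τ (k, true))) /
            ((C x).τ (k, true) * exp ((C x).lg (k, true) / 2)) := by
        rw [← (CfG_Ge _ k).2]
        field_simp
      simp only [Pi.div_apply, h7, jj, ofReal_div, if_true]
      field_simp)
  have t3 := t1.add ((continuous_conj.tendsto _).comp t2)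
  refine (t3.congr' ?_).mono_right (le_of_eq (congrArg _ ?_))
  · filter_upwards [h.g0] with x hx
    have h3 : ((C x).L : ℂ) ≠ 0 := ofReal_ne_zero.2 (by linarith [hx.1.L])
    have h4 : ((C x).E : ℂ) ≠ 0 := ofReal_ne_zero.2 hx.1.E_pos.ne'
    have h5 : ((C x).D.b 0 : ℂ) ≠ 0 := ofReal_ne_zero.2 (hx.1.bb false).1.ne'
    have h6 : ((Real.exp ((C x).D.A 1) : ℝ) : ℂ) ≠ 0 := ofReal_ne_zero.2 (Real.exp_ne_zero _)
    have h7 : (C x).θ0 k ≠ 0 := mul_ne_zero (mul_ne_zero I_ne_zero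
      (ofReal_ne_zero.2 (mul_pos (hx.1.bb false).1 (Real.exp_pos _)).ne')) (exp_ne_zero _)
    have h8 : conj (exp ((C x).z.2.2.2 k / 2)) ≠ 0 := (map_ne_zero _).2 (exp_ne_zero _)
    have e1 : (C x).pl.rs (C x).wd.fs (k, false) = (C x).pl.rs (C x).wd.f1 (k, false) := rfl
    have e2 : (C x).pl.rs (C x).wd.fs (k, true) = (C x).pl.rs (C x).wd.f2 (k, true) := rfl
    simp only [Function.comp, Cfg.eF, e1, e2, map_mul, map_div₀, map_pow, conj_ofReal, map_ofNat,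
      CfG_conj hx.1.toAdm k]
    simp only [ofReal_div]
    field_simp
    ring
  · have hm : z₀.mean.im = 0 := a₀.mean_im
    simp only [Zs.lim, hm, Bool.false_eq_true, if_false, if_true, sub_zero, ofReal_zero, mul_zero,
      add_zero]
    congr 1
    · push_cast
      field_simp
      ring
    · congr 1
      push_cast
      field_simp

end Pool.Agent.MP_92463a_gt

end
end
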