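import Pool.Agent.Mg.F92463a.G6119f0

section

open Set Complex Filter Metric
open scoped Topology ComplexConjugate ContDiff Manifold

noncomputable section

namespace Pool.Agent.MP_92463a_gt

/-! The circle `|s - 1| = 1 / √p`, `p = 1 / (1 + β)`, separates `0, 1` from `-β, ∞`; on it
`ds / √(s (s - 1) (s + β)) = i √p dθ / Dl p θ`. -/

def Dl (p θ : ℝ) : ℝ := √(1 - p * Real.cos θ ^ 2)

def zc (p θ : ℝ) : ℂ :=
  (((Real.cos θ - √p : ℝ) : ℂ) + ((√(1 - p) * Real.sin θ : ℝ) : ℂ) * I) /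
    ((1 - √p * Real.cos θ : ℝ) : ℂ)

def sc (p θ : ℝ) : ℂ := 1 + zc p θ / ((√p : ℝ) : ℂ)

def Yc (p θ : ℝ) : ℂ := zc p θ / ((√p : ℝ) : ℂ) * ((‖sc p θ‖ : ℝ) : ℂ)

def Av (p : ℝ) (φ : ℂ → ℂ) : ℝ := ∫ θ in (0 : ℝ)..Real.pi, (φ (sc p θ)).re / Dl p θ

def e0 (p : ℝ) : ℝ := Av p fun _ => 1

def xb (p : ℝ) : ℝ := Av p (fun s => s) / e0 p

/-- polynomial approximation of `xb` -/
def qx (p : ℝ) : ℝ :=
  0.457 + (p - 1 / 2) * (-0.1224 + (p - 1 / 2) * (-0.126 + (p - 1 / 2) * (-0.167)))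

/-- the period of one level -/
def Per (U D : ℝ) (L : ℂ → ℂ) : ℝ :=
  Av (U / (U + D)) fun s => (U : ℂ) ^ 2 * ((s + (D / U : ℝ)) ^ 2 / s * exp (L s)) +
    (D : ℂ) * ((s - 1) / (s + (D / U : ℝ)) * exp (-L s))

section
variable (β X : ℝ)

def mE2 : ℝ := (β - 2 * (β - 1) * X) / 3
def mE3 : ℝ := (3 * β * X - 4 * (β - 1) * mE2 β X) / 5
def mA0 : ℝ := 2 * β + (1 - β) * X
def mA1 : ℝ := mE2 β X + 2 * β * X + β ^ 2
def mA2 : ℝ := mE3 β X + 2 * β * mE2 β X + β ^ 2 * X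
def nA1 : ℝ := 1 - 2 * X + mE2 β X
def nA2 : ℝ := (2 * mE2 β X - X - mE3 β X) / β
def mH1 : ℝ := 2 * X + β
def mH2 : ℝ := 2 * mE2 β X + 2 * mH1 β X + 4 * β * X + β ^ 2
def nH1 : ℝ := mH1 β X / β ^ 2
def nH2 : ℝ := mH2 β X / β ^ 4
def mB0 : ℝ := -X / β
def mB1 : ℝ := 2 * X - 1
def mB2 : ℝ := mE2 β X - X - β * mB1 X
def nB2 : ℝ := -(mE2 β X + mH1 β X + β * X) / β ^ 3

def mainA (k m l n : ℝ) : ℝ :=
  mA0 β X * (1 + k * m) + k * nA1 β X + m * mA1 β X + (k ^ 2 / 2 + l) * nA2 β X +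
    (m ^ 2 / 2 + n) * mA2 β X

def mainB (k m l n : ℝ) : ℝ :=
  mB0 β X * (1 + k * m) - k * nH1 β X - m * mB1 X + (k ^ 2 / 2 - l) * nB2 β X +
    (m ^ 2 / 2 - n) * mB2 β X

end

def c30 (X1 X2 X3 : ℝ) : ℝ := X3 + X1 * X2 + 0.21 * X1 ^ 3

def c21 (X1 X2 Y1 : ℝ) : ℝ := Y1 * X2 + 0.63 * X1 ^ 2 * Y1

def errA (β X X1 X2 X3 Y1 Y2 Y3 : ℝ) : ℝ :=
  (1 + β) * (c30 X1 X2 X3 * nH1 β X + c21 X1 X2 Y1 + c21 Y1 Y2 X1 * mH1 β X +
    c30 Y1 Y2 Y3 * mH2 β X)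

def errB (β X X1 X2 X3 Y1 Y2 Y3 : ℝ) : ℝ :=
  c30 X1 X2 X3 * nH2 β X + c21 X1 X2 Y1 * nH1 β X + c21 Y1 Y2 X1 + c30 Y1 Y2 Y3 * mH1 β X

/-- the boxes; `lo`, `up` say whether the level has a lower, an upper neighbour -/
def dLo : Bool → Bool → ℝ
  | true, true => 0.15
  | false, true => 0.248
  | true, false => 0.128
  | false, false => 0.2

def dHi : Bool → Bool → ℝ
  | true, true => 0.235
  | false, true => 0.31
  | true, false => 0.187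
  | false, false => 0.26

def InBox (lo up : Bool) (U D : ℝ) : Prop :=
  D ∈ Icc (dLo lo up) (dHi lo up) ∧ U ∈ Icc (dLo up lo) (dHi up lo)

def Fc : Bool → ℝ → ℝ → Prop
  | true, x, x2 => x ∈ Icc (0.218 : ℝ) 0.532 ∧ x2 ∈ Icc (0.007 : ℝ) 0.028
  | false, x, x2 => x = 0 ∧ x2 = 0

def h2 : Bool → ℝ
  | true => 0.05
  | false => 0

def h3 : Bool → ℝ
  | true => 0.022
  | false => 0

def smain (U D X x x2 y y2 : ℝ) : ℝ :=
  U ^ 2 * mainA (D / U) X (-x * (D ^ 2 / U)) (-y * (U ^ 2 / D)) (x2 * (D ^ 2 / U) ^ 2)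
      (y2 * (U ^ 2 / D) ^ 2) +
    D * mainB (D / U) X (-x * (D ^ 2 / U)) (-y * (U ^ 2 / D)) (x2 * (D ^ 2 / U) ^ 2)
      (y2 * (U ^ 2 / D) ^ 2)

def serr (lo up : Bool) (U D X x y : ℝ) : ℝ :=
  U ^ 2 * errA (D / U) X ((x + h2 lo) * (D ^ 2 / U)) (h2 lo * (D ^ 2 / U) ^ 2)
      (h3 lo * (D ^ 2 / U) ^ 3) ((y + h2 up) * (U ^ 2 / D)) (h2 up * (U ^ 2 / D) ^ 2)
      (h3 up * (U ^ 2 / D) ^ 3) +
    D * errB (D / U) X ((x + h2 lo) * (D ^ 2 / U)) (h2 lo * (D ^ 2 / U) ^ 2)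
      (h3 lo * (D ^ 2 / U) ^ 3) ((y + h2 up) * (U ^ 2 / D)) (h2 up * (U ^ 2 / D) ^ 2)
      (h3 up * (U ^ 2 / D) ^ 3)

/-- second order expansion of a field -/
def Cls (lo : Bool) (Λ : ℂ → ℂ) (x x2 : ℝ) : Prop :=
  Fc lo x x2 ∧ ∀ v : ℂ, (lo = true → ‖v‖ ≤ 1) → ‖Λ v + x * v - x2 * v ^ 2‖ ≤ h3 lo * ‖v‖ ^ 3

/-- the logarithm of the factor of `G` coming from the levels below level `j` -/
def fld (U D : ℕ → ℝ) : ℕ → ℂ → ℂ
  | 0 => fun _ => 0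
  | j + 1 => fun v =>
    -(3 / 2 * log (1 + (U j : ℂ) * v) - 1 / 2 * log (1 - ((U j ^ 2 / D j : ℝ) : ℂ) * v)) -
      fld U D j (((U j * D j : ℝ) : ℂ) * v)

def rev (g : ℕ) (f : ℕ → ℝ) (i : ℕ) : ℝ := f (g - 1 - i)

/-- the waists -/
def tW (U D : ℕ → ℝ) : ℕ → ℝ
  | 0 => 1
  | j + 1 => tW U D j / (U j * D j)

def tB (U D : ℕ → ℝ) (j : ℕ) : ℝ := tW U D j / D j

def tA (U D : ℕ → ℝ) (j : ℕ) : ℝ := tW U D j * U j / D j ^ 2

/-- the tower with `g` levels -/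
def tw (g : ℕ) (U D : ℕ → ℝ) : Dat where
  p := g
  q := g
  a := tA U D
  b := tB U D
  ρ := Real.exp (∑ i ∈ Finset.range g, sg i * (Real.log (tA U D i) - 3 * Real.log (tB U D i)) / 2)

def Box (g : ℕ) (U D : ℕ → ℝ) : Prop :=
  ∀ i < g, InBox (decide (0 < i)) (decide (i + 1 < g)) (U i) (D i)

def Ld (g : ℕ) (U D : ℕ → ℝ) (j : ℕ) (s : ℂ) : ℂ :=
  fld U D j (((D j ^ 2 / U j : ℝ) : ℂ) / s) +
    fld (rev g D) (rev g U) (g - 1 - j) (((U j ^ 2 / D j : ℝ) : ℂ) * s)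

def Lu (g : ℕ) (U D : ℕ → ℝ) (j : ℕ) (s : ℂ) : ℂ :=
  fld (rev g D) (rev g U) (g - 1 - j) (((U j ^ 2 / D j : ℝ) : ℂ) / s) +
    fld U D j (((D j ^ 2 / U j : ℝ) : ℂ) * s)

/-- `x` lies on the `k`-th segment of the positive axis -/
def Dat.InA (D : Dat) (k : ℕ) (x : ℝ) : Prop :=
  0 < x ∧ (∀ i < k, D.a i < x) ∧ ∀ i, k ≤ i → i < D.p → x < D.a i

/-- `x` lies on the `k`-th segment of the negative axis -/
def Dat.InB (D : Dat) (k : ℕ) (x : ℝ) : Prop :=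
  x < 0 ∧ (∀ j < k, D.b j < -x) ∧ ∀ j, k ≤ j → j < D.q → -x < D.b j

end Pool.Agent.MP_92463a_gt

end
end

section

open Set Complex Filter Metric
open scoped Topology ComplexConjugate ContDiff Manifold

noncomputable section

namespace Pool.Agent.MP_92463a_gt

theorem Chain_A {D : Dat} {X : ℂ → ℂ} (hD : D.Ok) (hX : D.Pre X) {k : ℕ} {x x' : ℝ}
    (h : D.InA k x) (h' : D.InA k x') : D.cst X x = D.cst X x' := by
  rcases le_total x x' with hle | hle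
  · exact hX.seg hD hle (hD.seg_pos h.1 h.2.1 h'.2.2)
  · exact (hX.seg hD hle (hD.seg_pos h'.1 h'.2.1 h.2.2)).symm

theorem Chain_B {D : Dat} {X : ℂ → ℂ} (hD : D.Ok) (hX : D.Pre X) {k : ℕ} {x x' : ℝ}
    (h : D.InB k x) (h' : D.InB k x') : D.cst X x = D.cst X x' := by
  rcases le_total x x' with hle | hle
  · exact hX.seg hD hle (hD.seg_neg h'.1 h'.2.1 h.2.2)
  · exact (hX.seg hD hle (hD.seg_neg h.1 h.2.1 h'.2.2)).symm

theorem Chain_sg (k : ℕ) : (Even k ∧ sg k = 1) ∨ (¬ Even k ∧ sg k = -1) := by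
  rcases Nat.even_or_odd k with h | h
  · exact Or.inl ⟨h, h.neg_one_pow⟩
  · exact Or.inr ⟨Nat.not_even_iff_odd.2 h, h.neg_one_pow⟩

theorem Dat.Pre.chain {D : Dat} {X : ℂ → ℂ} (hD : D.Ok) (hX : D.Pre X) (hpq : D.p = D.q)
    (hd : ∀ j < D.p, ∃ x x', D.InA (j + 1) x ∧ D.InB j x' ∧ D.cst X x = D.cst X x')
    (hu : ∀ j < D.p, ∃ x x', D.InA j x ∧ D.InB (j + 1) x' ∧ D.cst X x = D.cst X x') :
    ∃ X', D.Sol X' := by
  obtain ⟨a, -, ha, -, -⟩ := hu 0 hD.p_pos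
  obtain ⟨-, b, -, hb, -⟩ := hd 0 hD.p_pos
  have key : ∀ k ≤ D.p,
      (∀ x, D.InA k x → D.cst X x = if Even k then D.cst X a else D.cst X b) ∧
      ∀ x, D.InB k x → D.cst X x = if Even k then D.cst X b else D.cst X a := by
    intro k
    induction k with
    | zero =>
      exact fun _ => ⟨fun x hx => by rw [if_pos Even.zero]; exact Chain_A hD hX hx ha,
        fun x hx => by rw [if_pos Even.zero]; exact Chain_B hD hX hx hb⟩
    | succ k ih =>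
      intro hk
      obtain ⟨iA, iB⟩ := ih (by omega)
      obtain ⟨y, y', hy, hy', e⟩ := hd k hk
      obtain ⟨z, z', hz, hz', e'⟩ := hu k hk
      refine ⟨fun x hx => ?_, fun x hx => ?_⟩
      · rw [Chain_A hD hX hx hy, e, iB y' hy']
        by_cases h : Even k <;> simp [Nat.even_add_one, h]
      · rw [Chain_B hD hX hx hz', ← e', iA z hz]
        by_cases h : Even k <;> simp [Nat.even_add_one, h]
  have fin : ∀ x : ℝ, D.P x ≠ 0 →
      D.cst X x = if 0 < (D.P x).re then D.cst X a else D.cst X b := by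
    intro x hx
    have h0 : x ≠ 0 := fun h => Dat.Seg_ne hx (by rw [h, ofReal_zero])
    rcases lt_or_gt_of_ne h0 with h | h
    · obtain ⟨k, hk, h1, h2⟩ := hD.exists_neg h hx
      have h3 := (hD.sign_neg h hk h1 h2).1
      rw [(key k (hpq ▸ hk)).2 x ⟨h, h1, h2⟩]
      rcases Chain_sg k with ⟨h4, h5⟩ | ⟨h4, h5⟩ <;> rw [h5] at h3
      · rw [if_pos h4, if_neg (by linarith)]
      · rw [if_neg h4, if_pos (by linarith)]
    · obtain ⟨k, hk, h1, h2⟩ := hD.exists_pos h hx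
      have h3 := (hD.sign_pos h hk h1 h2).1
      rw [(key k hk).1 x ⟨h, h1, h2⟩]
      rcases Chain_sg k with ⟨h4, h5⟩ | ⟨h4, h5⟩ <;> rw [h5] at h3
      · rw [if_pos h4, if_pos (by linarith)]
      · rw [if_neg h4, if_neg (by linarith)]
  refine hX.sol fun x x' hx hx' h => ?_
  rw [fin x hx, fin x' hx']
  exact if_congr h rfl rfl

end Pool.Agent.MP_92463a_gt

end
end

section

open Set Complex Filter Metric
open scoped Topology ComplexConjugate ContDiff Manifold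

noncomputable section

namespace Pool.Agent.MP_92463a_gt

variable {p : ℝ}

theorem Circ_s_pos (h0 : 0 < p) : 0 < √p := Real.sqrt_pos.2 h0

theorem Circ_s_lt (h1 : p < 1) : √p < 1 := by
  rw [Real.sqrt_lt' one_pos]; simpa using h1

theorem Circ_s_sq (h0 : 0 < p) : √p ^ 2 = p := Real.sq_sqrt h0.le

theorem Circ_g_pos (h1 : p < 1) : 0 < √(1 - p) := Real.sqrt_pos.2 (by linarith)

theorem Circ_g_sq (h1 : p < 1) : √(1 - p) ^ 2 = 1 - p := Real.sq_sqrt (by linarith)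

theorem Circ_d_pos (h0 : 0 < p) (h1 : p < 1) (θ : ℝ) : 0 < 1 - √p * Real.cos θ := by
  have h2 := Circ_s_pos h0
  have h3 := Circ_s_lt h1
  have h4 := Real.cos_le_one θ
  nlinarith

theorem Circ_rad_pos (h0 : 0 < p) (h1 : p < 1) (θ : ℝ) : 0 < 1 - p * Real.cos θ ^ 2 := by
  have h4 := Real.cos_sq_le_one θ
  nlinarith

theorem Dl_pos (h0 : 0 < p) (h1 : p < 1) (θ : ℝ) : 0 < Dl p θ :=
  Real.sqrt_pos.2 (Circ_rad_pos h0 h1 θ)

theorem Circ_Dl_sq (h0 : 0 < p) (h1 : p < 1) (θ : ℝ) : Dl p θ ^ 2 = 1 - p * Real.cos θ ^ 2 :=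
  Real.sq_sqrt (Circ_rad_pos h0 h1 θ).le

theorem Circ_zc_re (θ : ℝ) :
    (zc p θ).re = (Real.cos θ - √p) / (1 - √p * Real.cos θ) := by
  rw [zc, Complex.div_ofReal_re]
  simp only [add_re, ofReal_re, mul_re, I_re, mul_zero, ofReal_im, I_im, mul_one, sub_self,
    add_zero]

theorem Circ_zc_im (θ : ℝ) :
    (zc p θ).im = √(1 - p) * Real.sin θ / (1 - √p * Real.cos θ) := by
  rw [zc, Complex.div_ofReal_im]
  simp only [add_im, ofReal_re, mul_im, I_re, mul_zero, ofReal_im, I_im, mul_one, add_zero,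
    zero_add]

theorem Circ_zc_normSq (h0 : 0 < p) (h1 : p < 1) (θ : ℝ) :
    (zc p θ).re ^ 2 + (zc p θ).im ^ 2 = 1 := by
  have hd := Circ_d_pos h0 h1 θ
  have hs := Circ_s_sq h0
  have hg := Circ_g_sq h1
  have ht := Real.sin_sq_add_cos_sq θ
  rw [Circ_zc_re, Circ_zc_im, div_pow, div_pow, ← add_div, div_eq_one_iff_eq (pow_pos hd 2).ne']
  generalize √p = σ at *
  generalize √(1 - p) = γ at *
  generalize Real.sin θ = S at *
  generalize Real.cos θ = c at *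
  linear_combination S ^ 2 * hg + (1 - p) * ht + (1 - c ^ 2) * hs

theorem norm_zc (h0 : 0 < p) (h1 : p < 1) (θ : ℝ) : ‖zc p θ‖ = 1 := by
  have h := Circ_zc_normSq h0 h1 θ
  have h2 : ‖zc p θ‖ ^ 2 = 1 := by
    rw [Complex.sq_norm, Complex.normSq_apply]; linarith
  have h3 := norm_nonneg (zc p θ)
  nlinarith

theorem Circ_sc_re' (θ : ℝ) : (sc p θ).re = 1 + (zc p θ).re / √p := by
  rw [sc, add_re, Complex.div_ofReal_re, one_re]

theorem Circ_sc_im' (θ : ℝ) : (sc p θ).im = (zc p θ).im / √p := by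
  rw [sc, add_im, Complex.div_ofReal_im, one_im, zero_add]

theorem Circ_sc_im (θ : ℝ) :
    (sc p θ).im = √(1 - p) * Real.sin θ / (√p * (1 - √p * Real.cos θ)) := by
  rw [Circ_sc_im', Circ_zc_im, div_div, mul_comm (1 - √p * Real.cos θ)]

theorem sc_zero (h0 : 0 < p) (h1 : p < 1) : sc p 0 = ((1 + 1 / √p : ℝ) : ℂ) := by
  have hd := Circ_d_pos h0 h1 0
  apply Complex.ext
  · rw [Circ_sc_re', Circ_zc_re, ofReal_re]
    rw [Real.cos_zero, mul_one] at *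
    rw [div_self hd.ne']
  · rw [Circ_sc_im, ofReal_im, Real.sin_zero, mul_zero, zero_div]

theorem sc_pi (h0 : 0 < p) (h1 : p < 1) : sc p Real.pi = ((1 - 1 / √p : ℝ) : ℂ) := by
  have hs := Circ_s_pos h0
  apply Complex.ext
  · rw [Circ_sc_re', Circ_zc_re, ofReal_re, Real.cos_pi]
    have : (-1 - √p) / (1 - √p * -1) = -1 := by
      rw [div_eq_iff (by linarith)]; ring
    rw [this]; ring
  · rw [Circ_sc_im, ofReal_im, Real.sin_pi, mul_zero, zero_div]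

theorem sc_im (h0 : 0 < p) (h1 : p < 1) {θ : ℝ} (hθ : θ ∈ Ioo 0 Real.pi) : 0 < (sc p θ).im := by
  rw [Circ_sc_im]
  exact div_pos (mul_pos (Circ_g_pos h1) (Real.sin_pos_of_mem_Ioo hθ))
    (mul_pos (Circ_s_pos h0) (Circ_d_pos h0 h1 θ))

theorem sc_re (h0 : 0 < p) (h1 : p < 1) (θ : ℝ) :
    (sc p θ).re = (1 - p) * Real.cos θ / (√p * (1 - √p * Real.cos θ)) := by
  have hd := Circ_d_pos h0 h1 θ
  have hp := Circ_s_pos h0
  have hs := Circ_s_sq h0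
  rw [Circ_sc_re', Circ_zc_re, div_div, mul_comm (1 - √p * Real.cos θ),
    eq_div_iff (mul_pos hp hd).ne', add_mul, div_mul_cancel₀ _ (mul_pos hp hd).ne']
  generalize √p = σ at *
  linear_combination (-Real.cos θ) * hs

theorem Circ_sub_one (θ : ℝ) : sc p θ - 1 = zc p θ / ((√p : ℝ) : ℂ) := by
  rw [sc]; ring

theorem Circ_norm_sub_one (h0 : 0 < p) (h1 : p < 1) (θ : ℝ) : ‖sc p θ - 1‖ = 1 / √p := by
  rw [Circ_sub_one, norm_div, norm_zc h0 h1, Complex.norm_real, Real.norm_eq_abs,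
    abs_of_pos (Circ_s_pos h0)]

theorem Circ_one_lt (h0 : 0 < p) (h1 : p < 1) : 1 < 1 / √p :=
  one_lt_one_div (Circ_s_pos h0) (Circ_s_lt h1)

theorem sc_norm (h0 : 0 < p) (h1 : p < 1) (θ : ℝ) :
    1 / √p - 1 ≤ ‖sc p θ‖ ∧ ‖sc p θ‖ ≤ 1 / √p + 1 ∧
      ‖sc p θ‖ ^ 2 = 2 * (sc p θ).re + (1 - p) / p := by
  have hn := Circ_norm_sub_one h0 h1 θ
  refine ⟨?_, ?_, ?_⟩
  · have := norm_sub_le (sc p θ) 1
    rw [hn, norm_one] at this
    linarith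
  · have := norm_add_le (sc p θ - 1) 1
    rw [hn, norm_one, sub_add_cancel] at this
    exact this
  · have h2 : ‖sc p θ - 1‖ ^ 2 = 1 / p := by
      rw [hn, div_pow, Circ_s_sq h0, one_pow]
    rw [Complex.sq_norm, Complex.normSq_apply] at h2 ⊢
    simp only [sub_re, one_re, sub_im, one_im, sub_zero] at h2
    have h3 : (1 - p) / p = 1 / p - 1 := by field_simp
    rw [h3]
    linarith

theorem Circ_norm_pos (h0 : 0 < p) (h1 : p < 1) (θ : ℝ) : 0 < ‖sc p θ‖ := by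
  have := (sc_norm h0 h1 θ).1
  have := Circ_one_lt h0 h1
  linarith

theorem sc_add (h0 : 0 < p) (h1 : p < 1) (θ : ℝ) :
    sc p θ + ((1 - p) / p : ℝ) = (sc p θ - 1) * conj (sc p θ) := by
  have h := (sc_norm h0 h1 θ).2.2
  have h2 : sc p θ * conj (sc p θ) = ((‖sc p θ‖ ^ 2 : ℝ) : ℂ) := by
    rw [Complex.mul_conj, Complex.normSq_eq_norm_sq]
  have h3 : sc p θ + conj (sc p θ) = ((2 * (sc p θ).re : ℝ) : ℂ) := Complex.add_conj _
  rw [sub_mul, h2, h, ofReal_add, ← h3]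
  ring

theorem sc_ne (h0 : 0 < p) (h1 : p < 1) (θ : ℝ) :
    sc p θ ≠ 0 ∧ sc p θ - 1 ≠ 0 ∧ sc p θ + ((1 - p) / p : ℝ) ≠ 0 ∧ Yc p θ ≠ 0 := by
  have ha : sc p θ ≠ 0 := norm_pos_iff.1 (Circ_norm_pos h0 h1 θ)
  have hb : sc p θ - 1 ≠ 0 := by
    apply norm_pos_iff.1
    rw [Circ_norm_sub_one h0 h1]
    exact one_div_pos.2 (Circ_s_pos h0)
  refine ⟨ha, hb, ?_, ?_⟩
  · rw [sc_add h0 h1]
    exact mul_ne_zero hb ((map_ne_zero _).2 ha)
  · rw [Yc, ← Circ_sub_one]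
    exact mul_ne_zero hb (ofReal_ne_zero.2 (Circ_norm_pos h0 h1 θ).ne')

theorem Circ_norm_add (h0 : 0 < p) (h1 : p < 1) (θ : ℝ) :
    ‖sc p θ + ((1 - p) / p : ℝ)‖ = 1 / √p * ‖sc p θ‖ := by
  rw [sc_add h0 h1, norm_mul, Circ_norm_sub_one h0 h1, Complex.norm_conj]

theorem norm_wA (h0 : 0 < p) (h1 : p < 1) (θ : ℝ) :
    ‖(sc p θ + ((1 - p) / p : ℝ)) ^ 2 / sc p θ‖ = (1 + (1 - p) / p) * ‖sc p θ‖ := by
  have hn := Circ_norm_pos h0 h1 θ
  rw [norm_div, norm_pow, Circ_norm_add h0 h1, mul_pow, div_pow, Circ_s_sq h0]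
  field_simp
  ring

theorem norm_wB (h0 : 0 < p) (h1 : p < 1) (θ : ℝ) :
    ‖(sc p θ - 1) / (sc p θ + ((1 - p) / p : ℝ))‖ = 1 / ‖sc p θ‖ := by
  have hn := Circ_norm_pos h0 h1 θ
  have hs := Circ_s_pos h0
  rw [norm_div, Circ_norm_add h0 h1, Circ_norm_sub_one h0 h1]
  field_simp

theorem Yc_sq (h0 : 0 < p) (h1 : p < 1) (θ : ℝ) :
    Yc p θ ^ 2 = sc p θ * (sc p θ - 1) * (sc p θ + ((1 - p) / p : ℝ)) := by
  have h2 : sc p θ * conj (sc p θ) = ((‖sc p θ‖ : ℝ) : ℂ) ^ 2 := by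
    rw [Complex.mul_conj, Complex.normSq_eq_norm_sq, ofReal_pow]
  rw [sc_add h0 h1, Yc, ← Circ_sub_one, mul_pow, ← h2]
  ring

theorem Yc_im (h0 : 0 < p) (h1 : p < 1) : (Yc p 0).im = 0 ∧ (Yc p Real.pi).im = 0 := by
  constructor
  · rw [Yc, ← Circ_sub_one, sc_zero h0 h1, Complex.mul_im, ofReal_im, sub_im, ofReal_im, one_im]
    ring
  · rw [Yc, ← Circ_sub_one, sc_pi h0 h1, Complex.mul_im, ofReal_im, sub_im, ofReal_im, one_im]
    ring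

theorem Circ_norm_sc (h0 : 0 < p) (h1 : p < 1) (θ : ℝ) :
    ‖sc p θ‖ = √(1 - p) * Dl p θ / (√p * (1 - √p * Real.cos θ)) := by
  have hd := Circ_d_pos h0 h1 θ
  have hp := Circ_s_pos h0
  have hg := Circ_g_sq h1
  have hg0 := Circ_g_pos h1
  have hD := Circ_Dl_sq h0 h1 θ
  have hD0 := Dl_pos h0 h1 θ
  have ht := Real.sin_sq_add_cos_sq θ
  have h : ‖sc p θ‖ ^ 2 = (√(1 - p) * Dl p θ / (√p * (1 - √p * Real.cos θ))) ^ 2 := by
    rw [Complex.sq_norm, Complex.normSq_apply, sc_re h0 h1, Circ_sc_im, ← sq, ← sq, div_pow,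
      div_pow, div_pow, ← add_div, mul_pow (√(1 - p)), mul_pow (√(1 - p)), hD, hg]
    congr 1
    linear_combination (1 - p) * ht
  exact (pow_left_inj₀ (norm_nonneg _) (by positivity) two_ne_zero).1 h

theorem Circ_zc_der (h0 : 0 < p) (h1 : p < 1) (θ : ℝ) :
    HasDerivAt (zc p) (I * ((√(1 - p) / (1 - √p * Real.cos θ) : ℝ) : ℂ) * zc p θ) θ := by
  have hd := Circ_d_pos h0 h1 θ
  have hs := Circ_s_sq h0
  have hg := Circ_g_sq h1
  have ht := Real.sin_sq_add_cos_sq θ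
  have a1 : HasDerivAt (fun x => Real.cos x - √p) (-Real.sin θ) θ :=
    (Real.hasDerivAt_cos θ).sub_const _
  have a2 : HasDerivAt (fun x => √(1 - p) * Real.sin x) (√(1 - p) * Real.cos θ) θ :=
    (Real.hasDerivAt_sin θ).const_mul _
  have a3 : HasDerivAt (fun x => 1 - √p * Real.cos x) (-(√p * -Real.sin θ)) θ :=
    ((Real.hasDerivAt_cos θ).const_mul _).const_sub _
  have hdc : ((1 - √p * Real.cos θ : ℝ) : ℂ) ≠ 0 := ofReal_ne_zero.2 hd.ne'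
  have b := ((a1.ofReal_comp).add ((a2.ofReal_comp).mul_const I)).div a3.ofReal_comp hdc
  refine HasDerivAt.congr_deriv b ?_
  simp only [Pi.add_apply, zc]
  have hs' : ((√p : ℝ) : ℂ) ^ 2 = p := by exact_mod_cast hs
  have hg' : ((√(1 - p) : ℝ) : ℂ) ^ 2 = 1 - p := by exact_mod_cast hg
  have ht' : ((Real.sin θ : ℝ) : ℂ) ^ 2 + ((Real.cos θ : ℝ) : ℂ) ^ 2 = 1 := by exact_mod_cast ht
  rw [ofReal_div, ← mul_div_assoc I, div_mul_div_comm, ← sq]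
  congr 1
  simp only [ofReal_sub, ofReal_mul, ofReal_neg, ofReal_one]
  generalize ((√p : ℝ) : ℂ) = σ at *
  generalize ((√(1 - p) : ℝ) : ℂ) = γ at *
  generalize ((Real.sin θ : ℝ) : ℂ) = S at *
  generalize ((Real.cos θ : ℝ) : ℂ) = c at *
  linear_combination S * hg' + S * hs' - (I * γ * σ) * ht' - (γ ^ 2 * S) * I_sq

theorem sc_der (h0 : 0 < p) (h1 : p < 1) (θ : ℝ) :
    HasDerivAt (sc p) (I * ((√p / Dl p θ : ℝ) : ℂ) * Yc p θ) θ := by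
  have b := ((Circ_zc_der h0 h1 θ).div_const ((√p : ℝ) : ℂ)).const_add 1
  refine HasDerivAt.congr_deriv b ?_
  have hdc : ((1 - √p * Real.cos θ : ℝ) : ℂ) ≠ 0 := ofReal_ne_zero.2 (Circ_d_pos h0 h1 θ).ne'
  have hs : ((√p : ℝ) : ℂ) ≠ 0 := ofReal_ne_zero.2 (Circ_s_pos h0).ne'
  have hD : ((Dl p θ : ℝ) : ℂ) ≠ 0 := ofReal_ne_zero.2 (Dl_pos h0 h1 θ).ne'
  rw [Yc, Circ_norm_sc h0 h1, ofReal_div, ofReal_div, ofReal_div, ofReal_mul, ofReal_mul]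
  generalize ((1 - √p * Real.cos θ : ℝ) : ℂ) = d at *
  field_simp

theorem Yc_der (h0 : 0 < p) (h1 : p < 1) (θ : ℝ) :
    HasDerivAt (Yc p) (I * ((√p / Dl p θ : ℝ) : ℂ) *
      ((3 * sc p θ ^ 2 + 2 * (((1 - p) / p : ℝ) - 1) * sc p θ - ((1 - p) / p : ℝ)) / 2)) θ := by
  have hsd := sc_der h0 h1 θ
  obtain ⟨ha, -, -, hY⟩ := sc_ne h0 h1 θ
  have hn : DifferentiableAt ℝ (fun x => ‖sc p x‖) θ := hsd.differentiableAt.norm ℝ ha
  have hYd : DifferentiableAt ℝ (Yc p) θ :=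
    (((Circ_zc_der h0 h1 θ).div_const ((√p : ℝ) : ℂ)).mul
      hn.hasDerivAt.ofReal_comp).differentiableAt
  have e1 := hYd.hasDerivAt.mul hYd.hasDerivAt
  have e2 := (hsd.mul (hsd.sub_const 1)).mul (hsd.add_const (((1 - p) / p : ℝ) : ℂ))
  have e3 : Yc p * Yc p =
      (sc p * fun x => sc p x - 1) * fun x => sc p x + (((1 - p) / p : ℝ) : ℂ) := by
    funext x; simp only [Pi.mul_apply]; rw [← sq]; exact Yc_sq h0 h1 x
  rw [e3] at e1
  have e4 := e1.unique e2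
  simp only [Pi.mul_apply] at e4
  refine HasDerivAt.congr_deriv hYd.hasDerivAt ?_
  apply mul_left_cancel₀ (mul_ne_zero two_ne_zero hY)
  linear_combination e4

theorem sc_symm (h0 : 0 < p) (h1 : p < 1) (θ : ℝ) :
    sc p (Real.pi - θ) = -((1 - p) / p : ℝ) / sc p θ := by
  have ha := (sc_ne h0 h1 θ).1
  have hd := Circ_d_pos h0 h1 θ
  have hd' := Circ_d_pos h0 h1 (Real.pi - θ)
  have hp := Circ_s_pos h0
  have hs := Circ_s_sq h0
  have hg := Circ_g_sq h1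
  have ht := Real.sin_sq_add_cos_sq θ
  rw [eq_div_iff ha]
  apply Complex.ext
  · rw [mul_re, sc_re h0 h1, sc_re h0 h1, Circ_sc_im, Circ_sc_im, neg_re, ofReal_re]
    rw [Real.cos_pi_sub] at *
    rw [Real.sin_pi_sub]
    rw [div_mul_div_comm, div_mul_div_comm, ← sub_div, ← neg_div,
      div_eq_div_iff (mul_pos (mul_pos hp hd') (mul_pos hp hd)).ne' h0.ne']
    generalize √p = σ at *
    generalize √(1 - p) = γ at *
    generalize Real.sin θ = S at *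
    generalize Real.cos θ = c at *
    subst hs
    linear_combination (-(σ ^ 2 * S ^ 2)) * hg - (σ ^ 2 * (1 - σ ^ 2)) * ht
  · rw [mul_im, sc_re h0 h1, sc_re h0 h1, Circ_sc_im, Circ_sc_im, neg_im, ofReal_im]
    rw [Real.cos_pi_sub] at *
    rw [Real.sin_pi_sub, div_mul_div_comm, div_mul_div_comm, ← add_div]
    ring

theorem Dl_cont : Continuous fun z : ℝ × ℝ => Dl z.1 z.2 := by
  unfold Dl
  fun_prop

theorem sc_cont : ContinuousOn (fun z : ℝ × ℝ => sc z.1 z.2) (Ioo 0 1 ×ˢ univ) := by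
  unfold sc zc
  refine continuousOn_const.add (ContinuousOn.div (ContinuousOn.div ?_ ?_ ?_) ?_ ?_)
  · fun_prop
  · fun_prop
  · intro z hz
    exact ofReal_ne_zero.2 (Circ_d_pos hz.1.1 hz.1.2 z.2).ne'
  · fun_prop
  · intro z hz
    exact ofReal_ne_zero.2 (Circ_s_pos hz.1.1).ne'

theorem Circ_Dl_cont : Continuous (Dl p) := by
  unfold Dl
  fun_prop

theorem Av_symm (h0 : 0 < p) (h1 : p < 1) (φ : ℂ → ℂ) :
    Av p φ = Av p fun s => φ (-((1 - p) / p : ℝ) / s) := by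
  have h := intervalIntegral.integral_comp_sub_left (a := 0) (b := Real.pi)
    (fun θ => (φ (sc p θ)).re / Dl p θ) Real.pi
  rw [sub_self, sub_zero] at h
  unfold Av
  rw [← h]
  congr 1
  funext θ
  rw [sc_symm h0 h1, Dl, Dl, Real.cos_pi_sub, neg_sq]

theorem Av_congr {φ ψ : ℂ → ℂ} (h : ∀ θ ∈ Icc 0 Real.pi, (φ (sc p θ)).re = (ψ (sc p θ)).re) :
    Av p φ = Av p ψ := by
  unfold Av
  apply intervalIntegral.integral_congr
  intro θ hθ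
  rw [uIcc_of_le Real.pi_pos.le] at hθ
  simp only [h θ hθ]

theorem Circ_int (h0 : 0 < p) (h1 : p < 1) {φ : ℂ → ℂ}
    (hφ : ContinuousOn (fun θ => φ (sc p θ)) (Icc 0 Real.pi)) :
    IntervalIntegrable (fun θ => (φ (sc p θ)).re / Dl p θ) MeasureTheory.volume 0 Real.pi := by
  apply ContinuousOn.intervalIntegrable_of_Icc Real.pi_pos.le
  exact (Complex.continuous_re.comp_continuousOn hφ).div Circ_Dl_cont.continuousOn
    fun θ _ => (Dl_pos h0 h1 θ).ne'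

theorem Av_add (h0 : 0 < p) (h1 : p < 1) {φ ψ : ℂ → ℂ}
    (hφ : ContinuousOn (fun θ => φ (sc p θ)) (Icc 0 Real.pi))
    (hψ : ContinuousOn (fun θ => ψ (sc p θ)) (Icc 0 Real.pi)) :
    Av p (fun s => φ s + ψ s) = Av p φ + Av p ψ := by
  unfold Av
  rw [← intervalIntegral.integral_add (Circ_int h0 h1 hφ) (Circ_int h0 h1 hψ)]
  congr 1
  funext θ
  rw [add_re, add_div]

theorem Av_mul (c : ℝ) (φ : ℂ → ℂ) : Av p (fun s => (c : ℂ) * φ s) = c * Av p φ := by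
  unfold Av
  rw [← intervalIntegral.integral_const_mul]
  congr 1
  funext θ
  rw [Complex.re_ofReal_mul, mul_div_assoc]

theorem Av_le (h0 : 0 < p) (h1 : p < 1) {φ ψ : ℂ → ℂ}
    (hψ : ContinuousOn (fun θ => ψ (sc p θ)) (Icc 0 Real.pi))
    (h : ∀ θ ∈ Icc 0 Real.pi, ‖φ (sc p θ)‖ ≤ (ψ (sc p θ)).re) : |Av p φ| ≤ Av p ψ := by
  unfold Av
  rw [← Real.norm_eq_abs]
  refine intervalIntegral.norm_integral_le_of_norm_le Real.pi_pos.le
    (Eventually.of_forall fun θ hθ => ?_) (Circ_int h0 h1 hψ)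
  have hD := Dl_pos h0 h1 θ
  rw [norm_div, Real.norm_eq_abs, Real.norm_eq_abs, abs_of_pos hD]
  exact div_le_div_of_nonneg_right
    ((Complex.abs_re_le_norm _).trans (h θ (Ioc_subset_Icc_self hθ))) hD.le

theorem e0_pos (h0 : 0 < p) (h1 : p < 1) : 0 < e0 p := by
  unfold e0 Av
  apply intervalIntegral.intervalIntegral_pos_of_pos_on
    (Circ_int h0 h1 (φ := fun _ => 1) continuousOn_const) _ Real.pi_pos
  intro θ _
  rw [one_re]
  exact one_div_pos.2 (Dl_pos h0 h1 θ)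

end Pool.Agent.MP_92463a_gt

end
end

section

open Set Complex Filter Metric
open scoped Topology ComplexConjugate ContDiff Manifold

noncomputable section

namespace Pool.Agent.MP_92463a_gt

variable {p β : ℝ}

/-- a cubic without constant term -/
def MomCu (a1 a2 a3 : ℝ) (s : ℂ) : ℂ := a1 * s + a2 * s ^ 2 + a3 * s ^ 3

theorem Mom_re (a1 a2 a3 : ℝ) (s : ℂ) : (MomCu a1 a2 a3 s).re =
    a1 * s.re + a2 * (2 * s.re ^ 2 - normSq s) + a3 * (4 * s.re ^ 3 - 3 * s.re * normSq s) := by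
  simp only [MomCu, pow_succ, pow_zero, one_mul, add_re, mul_re, mul_im, ofReal_re, ofReal_im,
    normSq_apply]
  ring

theorem Mom_cont (h0 : 0 < p) (h1 : p < 1) : Continuous (sc p) :=
  continuous_iff_continuousAt.2 fun θ => (sc_der h0 h1 θ).continuousAt

theorem Mom_ftc (h0 : 0 < p) {F : ℝ → ℂ} {φ : ℂ → ℂ}
    (hF : ∀ θ, HasDerivAt F (I * ((√p / Dl p θ : ℝ) : ℂ) * φ (sc p θ)) θ)
    (ha : (F 0).im = 0) (hb : (F Real.pi).im = 0) : Av p φ = 0 := by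
  have hp : √p ≠ 0 := (Real.sqrt_pos.2 h0).ne'
  by_cases hi : IntervalIntegrable (fun θ => (φ (sc p θ)).re / Dl p θ) MeasureTheory.volume 0
    Real.pi
  · have h := intervalIntegral.integral_eq_sub_of_hasDerivAt (f := fun θ => (F θ).im / √p)
      (fun θ _ => ((imCLM.hasFDerivAt.comp_hasDerivAt θ (hF θ)).div_const √p).congr_deriv (by
        simp only [imCLM_apply, mul_im, mul_re, I_re, I_im, ofReal_re, ofReal_im]
        field_simp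
        ring)) hi
    rw [Av, h, ha, hb, sub_self]
  · exact intervalIntegral.integral_undef hi

theorem Mom_lin (h0 : 0 < p) (h1 : p < 1) (a0 a1 a2 a3 : ℝ) :
    Av p (fun s => a0 + MomCu a1 a2 a3 s) = a0 * e0 p + a1 * Av p (fun s => s) +
      a2 * Av p (fun s => s ^ 2) + a3 * Av p fun s => s ^ 3 := by
  have hc := Mom_cont h0 h1
  rw [e0, ← Av_mul, ← Av_mul, ← Av_mul, ← Av_mul, ← Av_add h0 h1, ← Av_add h0 h1, ← Av_add h0 h1]
  · exact Av_congr fun θ _ => by simp only [MomCu, mul_one, add_assoc]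
  all_goals fun_prop

theorem Mom_pos (h0 : 0 < p) (h1 : p < 1) (hβ : β = (1 - p) / p) (a0 a1 a2 a3 : ℝ) :
    Av p (fun s => a0 + MomCu a1 a2 a3 s) =
      e0 p * (a0 + a1 * xb p + a2 * mE2 β (xb p) + a3 * mE3 β (xb p)) := by
  have e1 : Av p (fun s => s) = e0 p * xb p := by
    rw [xb, mul_div_cancel₀ _ (e0_pos h0 h1).ne']
  have e2 := Mom_ftc h0 (F := Yc p)
    (φ := fun s => (-β / 2 : ℝ) + MomCu (β - 1) (3 / 2) 0 s)
    (fun θ => (Yc_der h0 h1 θ).congr_deriv (by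
      simp only [MomCu, ← hβ]
      push_cast
      ring)) (Yc_im h0 h1).1 (Yc_im h0 h1).2
  have e3 := Mom_ftc h0 (F := fun θ => sc p θ * Yc p θ)
    (φ := fun s => (0 : ℝ) + MomCu (-(3 / 2) * β) (2 * (β - 1)) (5 / 2) s)
    (fun θ => ((sc_der h0 h1 θ).mul (Yc_der h0 h1 θ)).congr_deriv (by
      have h := Yc_sq h0 h1 θ
      simp only [MomCu, ← hβ] at h ⊢
      push_cast
      linear_combination I * ((√p : ℝ) / Dl p θ : ℂ) * h))
    (by rw [sc_zero h0 h1, im_ofReal_mul, (Yc_im h0 h1).1, mul_zero])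
    (by rw [sc_pi h0 h1, im_ofReal_mul, (Yc_im h0 h1).2, mul_zero])
  rw [Mom_lin h0 h1, e1] at e2 e3 ⊢
  simp only [mE2, mE3]
  linear_combination (2 / 3 * a2 - 8 / 15 * (β - 1) * a3) * e2 + 2 / 5 * a3 * e3

theorem Mom_all (h0 : 0 < p) (h1 : p < 1) (hβ : β = (1 - p) / p) {φ : ℂ → ℂ}
    (a0 a1 a2 a3 b1 b2 b3 : ℝ)
    (h : ∀ θ, (φ (sc p θ)).re = (a0 + MomCu a1 a2 a3 (sc p θ) + MomCu b1 b2 b3 (sc p θ)⁻¹).re) :
    Av p φ = e0 p * (a0 + (a1 - b1 / β) * xb p + (a2 + b2 / β ^ 2) * mE2 β (xb p) +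
      (a3 - b3 / β ^ 3) * mE3 β (xb p)) := by
  have hc := Mom_cont h0 h1
  have hc' : Continuous fun θ => (sc p θ)⁻¹ := hc.inv₀ fun θ => (sc_ne h0 h1 θ).1
  rw [Av_congr (ψ := fun s => a0 + MomCu a1 a2 a3 s + MomCu b1 b2 b3 s⁻¹) fun θ _ => h θ,
    Av_add h0 h1 (by unfold MomCu; fun_prop) (by unfold MomCu; fun_prop), Mom_pos h0 h1 hβ,
    Av_symm h0 h1, ← hβ,
    Av_congr (ψ := fun s => (0 : ℝ) + MomCu (-b1 / β) (b2 / β ^ 2) (-b3 / β ^ 3) s)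
      fun θ _ => congrArg re (by
        simp only [MomCu, inv_div]
        push_cast
        ring), Mom_pos h0 h1 hβ]
  ring

theorem Mom_N (h0 : 0 < p) (h1 : p < 1) (hβ : β = (1 - p) / p) (θ : ℝ) :
    β ≠ 0 ∧ 2 * (sc p θ).re + β ≠ 0 ∧ normSq (sc p θ) = 2 * (sc p θ).re + β := by
  have h : normSq (sc p θ) = 2 * (sc p θ).re + β := by
    rw [normSq_eq_norm_sq, (sc_norm h0 h1 θ).2.2, hβ]
  exact ⟨hβ ▸ (div_pos (sub_pos.2 h1) h0).ne', h ▸ (normSq_pos.2 (sc_ne h0 h1 θ).1).ne', h⟩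

theorem mom_A (h0 : 0 < p) (h1 : p < 1) (hβ : β = (1 - p) / p) (c0 c1 c2 n1 n2 : ℝ) :
    Av p (fun s => (s + β) ^ 2 / s * (c0 + n1 / s + c1 * s + n2 / s ^ 2 + c2 * s ^ 2)) =
      e0 p * (c0 * mA0 β (xb p) + n1 * nA1 β (xb p) + c1 * mA1 β (xb p) + n2 * nA2 β (xb p) +
        c2 * mA2 β (xb p)) := by
  have hb := (Mom_N h0 h1 hβ 0).1
  rw [Mom_all h0 h1 hβ (n1 + 2 * β * c0 + β ^ 2 * c1) (c0 + 2 * β * c1 + β ^ 2 * c2)
    (c1 + 2 * β * c2) c2 (n2 + 2 * β * n1 + β ^ 2 * c0) (2 * β * n2 + β ^ 2 * n1) (β ^ 2 * n2)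
    fun θ => congrArg re (by
      have hs := (sc_ne h0 h1 θ).1
      simp only [MomCu]
      push_cast
      field_simp
      ring)]
  simp only [mA0, nA1, mA1, nA2, mA2]
  field_simp
  ring

theorem mom_B (h0 : 0 < p) (h1 : p < 1) (hβ : β = (1 - p) / p) (c0 c1 c2 n1 n2 : ℝ) :
    Av p (fun s => (s - 1) / (s + β) * (c0 + n1 / s + c1 * s + n2 / s ^ 2 + c2 * s ^ 2)) =
      e0 p * (c0 * mB0 β (xb p) + n1 * nH1 β (xb p) + c1 * mB1 (xb p) + n2 * nB2 β (xb p) +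
        c2 * mB2 β (xb p)) := by
  have hb := (Mom_N h0 h1 hβ 0).1
  rw [Mom_all h0 h1 hβ (n1 / β - c1 - n2 / β ^ 2 + β * c2) (c1 - (1 + β) * c2) c2 0
    (c0 - 2 * n1 / β - β * c1 + (2 + β) * n2 / β ^ 2 + β ^ 2 * c2) (-n2 / β) 0 fun θ => ?_]
  · simp only [mB0, nH1, mB1, nB2, mB2, mH1]
    field_simp
    ring
  obtain ⟨-, hN, hn⟩ := Mom_N h0 h1 hβ θ
  obtain ⟨hs, hs1, -⟩ := sc_ne h0 h1 θ
  have ha := sc_add h0 h1 θ
  rw [← hβ] at ha
  generalize sc p θ = s at *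
  have hc : conj s ≠ 0 := (map_ne_zero _).2 hs
  have e : (s - 1) / (s + β) * (c0 + n1 / s + c1 * s + n2 / s ^ 2 + c2 * s ^ 2) =
      ((normSq s)⁻¹ : ℝ) * (n1 + MomCu c0 c1 c2 s + MomCu n2 0 0 s⁻¹) := by
    rw [ha, ofReal_inv, ← mul_conj]
    simp only [MomCu]
    push_cast
    field_simp
    ring
  rw [e]
  simp only [re_ofReal_mul, add_re, ofReal_re, Mom_re, inv_re, normSq_inv, hn]
  field_simp
  ring

theorem mom_H (h0 : 0 < p) (h1 : p < 1) (hβ : β = (1 - p) / p) (c0 c1 c2 n1 n2 : ℝ) :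
    Av p (fun s => ((c0 + n1 / ‖s‖ ^ 2 + c1 * ‖s‖ ^ 2 + n2 / ‖s‖ ^ 4 + c2 * ‖s‖ ^ 4 : ℝ) : ℂ)) =
      e0 p * (c0 + n1 * nH1 β (xb p) + c1 * mH1 β (xb p) + n2 * nH2 β (xb p) +
        c2 * mH2 β (xb p)) := by
  have hb := (Mom_N h0 h1 hβ 0).1
  rw [Mom_all h0 h1 hβ (c0 + n1 / β + β * c1 + (2 + β) * n2 / β ^ 3 + (2 * β + β ^ 2) * c2)
    (2 * c1 + (4 + 4 * β) * c2) (2 * c2) 0 (-2 * n1 / β - (4 + 4 * β) * n2 / β ^ 3)
    (2 * n2 / β ^ 2) 0 fun θ => ?_]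
  · simp only [nH1, nH2, mH2, mH1]
    field_simp
    ring
  obtain ⟨-, hN, hn⟩ := Mom_N h0 h1 hβ θ
  have e : ‖sc p θ‖ ^ 4 = normSq (sc p θ) ^ 2 := by rw [normSq_eq_norm_sq, ← pow_mul]
  simp only [e, ← normSq_eq_norm_sq, add_re, ofReal_re, Mom_re, inv_re, normSq_inv, hn]
  field_simp
  ring

end Pool.Agent.MP_92463a_gt

end
end
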