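import Pool.Agent.Mg.F92463a.G8dda1b

section

open Set Complex Filter Metric
open scoped Topology ComplexConjugate ContDiff Manifold

noncomputable section

namespace Pool.Agent.MP_92463a_gt

/-! Plumbing data in the `t`-plane: discs around the ports `c e`, glued in pairs by `v v' = s`. -/

/-- the average of `f` over the circle `|v| = R` -/
def av (R : ℝ) (f : ℂ → ℂ) : ℂ := Real.circleAverage f 0 R

/-- the partner port -/
def op {ι : Type} (e : ι × Bool) : ι × Bool := (e.1, !e.2)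

@[simp] theorem op_op {ι : Type} (e : ι × Bool) : op (op e) = e := by
  simp [op]

@[simp] theorem op_fst {ι : Type} (e : ι × Bool) : (op e).1 = e.1 := rfl

theorem op_ne {ι : Type} (e : ι × Bool) : op e ≠ e := by
  rcases e with ⟨k, _ | _⟩ <;> simp [op]

structure Pl (ι : Type) where
  c : ι × Bool → ℂ
  ρ : ι × Bool → ℝ
  s : ι → ℂ

namespace Pl

variable {ι : Type} (P : Pl ι)

def rin (e : ι × Bool) : ℝ := ‖P.s e.1‖ / P.ρ (op e)

/-- the radius of the waist -/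
def mu (e : ι × Bool) : ℝ := √(‖P.s e.1‖ * P.ρ e / P.ρ (op e))

def Om : Set ℂ := {t | ∀ e, P.rin e < ‖t - P.c e‖}

/-- the fundamental domain -/
def Fd : Set ℂ := {t | ∀ e, P.mu e ≤ ‖t - P.c e‖}

def Ann (e : ι × Bool) : Set ℂ := {v | P.rin e < ‖v‖ ∧ ‖v‖ < P.ρ e}

def Ann2 (e : ι × Bool) : Set ℂ := {v | P.rin e < ‖v‖ ∧ ‖v‖ < 2 * P.ρ e}

structure Ok : Prop where
  ρ_pos : ∀ e, 0 < P.ρ e
  s_ne : ∀ k, P.s k ≠ 0
  s_small : ∀ e, 16 * ‖P.s e.1‖ ≤ P.ρ e * P.ρ (op e)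
  sep : ∀ e e', e ≠ e' → 2 * P.ρ e + 2 * P.ρ e' ≤ ‖P.c e - P.c e'‖

/-- weights -/
structure Wt (m : ι × Bool → ℂ → ℂ) : Prop where
  hol : ∀ e, DifferentiableOn ℂ (m e) (ball 0 (2 * P.ρ e))
  zero : ∀ e, m e 0 = 1
  near : ∀ e, ∀ v ∈ ball (0 : ℂ) (2 * P.ρ e), ‖m e v - 1‖ ≤ 1 / 2

/-- the principal part at the port `e`, computed on the circle around the partner port with the
kernel `κ` -/
def pk (κ : ι × Bool → ℂ → ℂ → ℂ) (f : ℂ → ℂ) (e : ι × Bool) (t : ℂ) : ℂ :=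
  av (P.ρ (op e)) fun v => κ e v (t - P.c e) * f (P.c (op e) + v)

/-- the kernel of spinors -/
def k1 (m : ι × Bool → ℂ → ℂ) (r : ι × Bool → ℂ) (e : ι × Bool) (v u : ℂ) : ℂ :=
  r e * m (op e) v / (m e (P.s e.1 / v) * (u - P.s e.1 / v))

/-- the kernel of 1-forms, without the residue -/
def k2 (m : ι × Bool → ℂ → ℂ) (r : ι × Bool → ℂ) (e : ι × Bool) (v u : ℂ) : ℂ :=
  r e / P.s e.1 * v * m (op e) v * ((m e (P.s e.1 / v) * (u - P.s e.1 / v))⁻¹ - u⁻¹)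

/-- the matching condition of weight `d` -/
def Mt (d : ℕ) (m : ι × Bool → ℂ → ℂ) (r : ι × Bool → ℂ) (f : ℂ → ℂ) : Prop :=
  ∀ e, ∀ v ∈ P.Ann e, m e v * f (P.c e + v) =
    r e / v ^ d * (m (op e) (P.s e.1 / v) * f (P.c (op e) + P.s e.1 / v))

/-- a matched family of local 1-forms -/
structure MF (φ : ι × Bool → ℂ → ℂ) : Prop where
  hol : ∀ e, DifferentiableOn ℂ (φ e) (P.Ann2 e)
  mt : ∀ e, ∀ v ∈ P.Ann e, φ e v = -(P.s e.1 / v ^ 2) * φ (op e) (P.s e.1 / v)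

/-- the residue -/
def rs (φ : ι × Bool → ℂ → ℂ) (e : ι × Bool) : ℂ := av (P.ρ e) fun v => φ e v * v

/-- the primitive of the principal part without the residue -/
def th (φ : ι × Bool → ℂ → ℂ) (e : ι × Bool) (u : ℂ) : ℂ :=
  -av (P.ρ (op e)) fun v => φ (op e) v * v * log (1 - P.s e.1 / v / u)

/-- the principal part -/
def pf (φ : ι × Bool → ℂ → ℂ) (e : ι × Bool) (u : ℂ) : ℂ :=
  -av (P.ρ (op e)) fun v => φ (op e) v * v / (u - P.s e.1 / v)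

/-- symmetry of the data under complex conjugation -/
structure Sy (κ : ι → ι) : Prop where
  c : ∀ e : ι × Bool, P.c (κ e.1, e.2) = conj (P.c e)
  ρ : ∀ e : ι × Bool, P.ρ (κ e.1, e.2) = P.ρ e
  s : ∀ k, P.s (κ k) = conj (P.s k)
  inv : ∀ k, κ (κ k) = k

variable [Fintype ι]

def step (κ : ι × Bool → ℂ → ℂ → ℂ) (F f : ℂ → ℂ) (t : ℂ) : ℂ := F t + ∑ e, P.pk κ f e t

/-- the solution of `f = F + ∑ pk κ f` -/
def psi (κ : ι × Bool → ℂ → ℂ → ℂ) (F : ℂ → ℂ) : ℂ → ℂ :=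
  P.step κ F fun t => limUnder atTop fun n : ℕ => (P.step κ F)^[n] 0 t

/-- the kernel is a contraction for the weights `W` -/
structure KB (κ : ι × Bool → ℂ → ℂ → ℂ) (W : ι × Bool → ℝ) : Prop where
  pos : ∀ e, 0 < W e
  cont : ∀ e, ContinuousOn (fun z : ℂ × ℂ => κ e z.1 z.2)
    {z | ‖z.1‖ = P.ρ (op e) ∧ P.rin e < ‖z.2‖}
  bd : ∀ e v, ‖v‖ = P.ρ e → ∃ β : ι × Bool → ℝ,
    (∀ e' v', ‖v'‖ = P.ρ (op e') → ‖κ e' v' (P.c e + v - P.c e')‖ ≤ β e') ∧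
      ∑ e', β e' * W (op e') ≤ W e / 2

/-- `F` is continuous and bounded by `B W` on the circles -/
def FB (F : ℂ → ℂ) (B : ℝ) (W : ι × Bool → ℝ) : Prop :=
  ∀ e, ContinuousOn (fun v => F (P.c e + v)) {v | ‖v‖ = P.ρ e} ∧
    ∀ v, ‖v‖ = P.ρ e → ‖F (P.c e + v)‖ ≤ B * W e

def Con (r : ι × Bool → ℂ) (W : ι × Bool → ℝ) : Prop :=
  (∀ e, 0 < W e) ∧ ∀ e v, ‖v‖ = P.ρ e →
    ∑ e', 6 * ‖r e'‖ * W (op e') / ‖P.c e + v - P.c e'‖ ≤ W e / 2

def Con2 (r : ι × Bool → ℂ) : Prop :=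
  ∀ e v, ‖v‖ = P.ρ e →
    ∑ e', 12 * ‖r e'‖ * ((P.ρ e')⁻¹ + ‖P.c e + v - P.c e'‖⁻¹) / ‖P.c e + v - P.c e'‖ ≤ 1 / 2

omit [Fintype ι] in
/-- matched functions of weight two with growth `t ^ (N - 1)` -/
def Fs (m : ι × Bool → ℂ → ℂ) (r : ι × Bool → ℂ) (N : ℕ) : Submodule ℂ (ℂ → ℂ) where
  carrier := {f | DifferentiableOn ℂ f P.Om ∧ (∀ t ∉ P.Om, f t = 0) ∧ P.Mt 2 m r f ∧
    ∃ C R : ℝ, ∀ t, R ≤ ‖t‖ → ‖f t‖ * ‖t‖ ≤ C * ‖t‖ ^ N}
  add_mem' := by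
    rintro f g ⟨a1, a2, a3, C, R, a4⟩ ⟨b1, b2, b3, C', R', b4⟩
    refine ⟨a1.add b1, fun t ht => by simp [a2 t ht, b2 t ht], fun e v hv => ?_,
      C + C', max R R', fun t ht => ?_⟩
    · simp only [Pi.add_apply, mul_add, a3 e v hv, b3 e v hv]
    · have h1 := a4 t ((le_max_left _ _).trans ht)
      have h2 := b4 t ((le_max_right _ _).trans ht)
      have h3 := mul_le_mul_of_nonneg_right (norm_add_le (f t) (g t)) (norm_nonneg t)
      simp only [Pi.add_apply]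
      linarith
  zero_mem' := ⟨differentiableOn_const 0, fun _ _ => rfl, fun e v _ => by simp, 0, 0,
    fun t _ => by simp⟩
  smul_mem' := by
    rintro a f ⟨a1, a2, a3, C, R, a4⟩
    refine ⟨a1.const_smul a, fun t ht => by simp [a2 t ht], fun e v hv => ?_,
      ‖a‖ * C, R, fun t ht => ?_⟩
    · simp only [Pi.smul_apply, smul_eq_mul]
      linear_combination a * a3 e v hv
    · simp only [Pi.smul_apply, smul_eq_mul, norm_mul, mul_assoc]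
      exact mul_le_mul_of_nonneg_left (a4 t ht) (norm_nonneg a)

end Pl

/-- the fundamental theorem of calculus along paths in `S` for `dX = f₁ dt - conj (f₂ dt)` -/
structure PathP (S : Set ℂ) (X f₁ f₂ : ℂ → ℂ) : Prop where
  c₁ : ContinuousOn f₁ S
  c₂ : ContinuousOn f₂ S
  ftc : ∀ (γ γ' : ℝ → ℂ) (a b : ℝ), (∀ x ∈ uIcc a b, HasDerivAt γ (γ' x) x) →
    ContinuousOn γ' (uIcc a b) → (∀ x ∈ uIcc a b, γ x ∈ S) →
    X (γ b) - X (γ a) = ∫ x in a..b, (f₁ (γ x) * γ' x - conj (f₂ (γ x) * γ' x))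

/-- the real linear form `v ↦ 2 Re (φ v)` -/
def hl (φ : ℂ) : ℂ →L[ℝ] ℝ := (2 : ℝ) • reCLM.comp (ContinuousLinearMap.mul ℝ ℂ φ)

theorem hl_apply (φ v : ℂ) : hl φ v = 2 * (φ * v).re := by
  simp [hl]

/-- convergence of Weierstrass data -/
structure Dat.Tends {α : Type} (l : Filter α) (D : α → Dat) (D₀ : Dat) : Prop where
  ok₀ : D₀.Ok
  ok : ∀ᶠ x in l, (D x).Ok ∧ (D x).p = D₀.p ∧ (D x).q = D₀.q
  a : ∀ i < D₀.p, Tendsto (fun x => (D x).a i) l (𝓝 (D₀.a i))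
  b : ∀ j < D₀.q, Tendsto (fun x => (D x).b j) l (𝓝 (D₀.b j))
  ρ : Tendsto (fun x => (D x).ρ) l (𝓝 D₀.ρ)

end Pool.Agent.MP_92463a_gt

end
end

section

open Set Complex Filter Metric
open scoped Topology ComplexConjugate ContDiff Manifold

noncomputable section

namespace Pool.Agent.MP_92463a_gt

/-! Gluing a Riemann surface to itself along an open set. -/

section
variable {M : Type} [TopologicalSpace M] [ChartedSpace ℂ M]

/-- the derivative at `z` of `g` read in the charts at `z` and `z'` -/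
def tr (g : M → M) (z z' : M) : ℂ :=
  deriv (chartAt ℂ z' ∘ g ∘ (chartAt ℂ z).symm) (chartAt ℂ z z)

/-- holomorphic 1-forms on `U` invariant under `g : O → O`; `om z` is the coefficient at `z` in
the chart at `z` -/
def formsU (U O : Set M) (g : M → M) : Submodule ℂ (M → ℂ) where
  carrier := {om | (∀ z ∉ U, om z = 0) ∧
    (∀ z ∈ U, ∃ φ : ℂ → ℂ, AnalyticAt ℂ φ (chartAt ℂ z z) ∧
      ∀ᶠ z' in 𝓝 z, om z' = φ (chartAt ℂ z z') * tr id z' z) ∧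
    ∀ z ∈ O, om z = om (g z) * tr g z (g z)}
  add_mem' := by
    rintro f g ⟨a1, a2, a3⟩ ⟨b1, b2, b3⟩
    refine ⟨fun z hz => by simp [a1 z hz, b1 z hz], fun z hz => ?_, fun z hz => ?_⟩
    · obtain ⟨φ, h1, h2⟩ := a2 z hz
      obtain ⟨ψ, h3, h4⟩ := b2 z hz
      refine ⟨φ + ψ, h1.add h3, ?_⟩
      filter_upwards [h2, h4] with z' e1 e2
      simp only [Pi.add_apply, e1, e2, add_mul]
    · simp only [Pi.add_apply, add_mul]
      rw [← a3 z hz, ← b3 z hz]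
  zero_mem' := ⟨fun _ _ => rfl, fun z _ => ⟨0, analyticAt_const, by simp⟩, fun z _ => by simp⟩
  smul_mem' := by
    rintro a f ⟨a1, a2, a3⟩
    refine ⟨fun z hz => by simp [a1 z hz], fun z hz => ?_, fun z hz => ?_⟩
    · obtain ⟨φ, h1, h2⟩ := a2 z hz
      refine ⟨fun w => a * φ w, analyticAt_const.mul h1, ?_⟩
      filter_upwards [h2] with z' e1
      simp only [Pi.smul_apply, smul_eq_mul, e1, mul_assoc]
    · simp only [Pi.smul_apply, smul_eq_mul, mul_assoc]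
      rw [← a3 z hz]

structure Glue (U O : Set M) (g : M → M) (Cp : Set M) : Prop where
  oU : IsOpen U
  oO : IsOpen O
  sub : O ⊆ U
  maps : MapsTo g O O
  inv : ∀ z ∈ O, g (g z) = z
  ne : ∀ z ∈ O, g z ≠ z
  cont : ContinuousOn g O
  hol : ∀ z ∈ O, AnalyticAt ℂ (chartAt ℂ (g z) ∘ g ∘ (chartAt ℂ z).symm) (chartAt ℂ z z)
  closed : ∀ z ∈ U, ∀ z' ∈ U, (z, z') ∈ closure {x : M × M | x.1 ∈ O ∧ x.2 = g x.1} →
    z ∈ O ∧ z' = g z
  cpt : IsCompact Cp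
  cpU : Cp ⊆ U
  cover : ∀ z ∈ U, z ∈ Cp ∨ (z ∈ O ∧ g z ∈ Cp)
  conn : IsConnected U

/-- `N` is the quotient of `U` by `g`, with projection `π` and section `σ` -/
structure Plumbed (U O : Set M) (g : M → M) {N : Type} [TopologicalSpace N] [ChartedSpace ℂ N]
    (π : M → N) (σ : N → M) : Prop where
  cont : ContinuousOn π U
  opn : ∀ V ⊆ U, IsOpen V → IsOpen (π '' V)
  eq : ∀ z ∈ U, ∀ z' ∈ U, π z = π z' ↔ z = z' ∨ (z ∈ O ∧ z' = g z)
  mem : ∀ n, σ n ∈ U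
  sec : ∀ n, π (σ n) = n
  ctr : ∀ n, chartAt ℂ n n = chartAt ℂ (σ n) (σ n)
  tgt : ∀ n, ∀ w ∈ (chartAt ℂ n).target, w ∈ (chartAt ℂ (σ n)).target ∧
    (chartAt ℂ (σ n)).symm w ∈ U ∧ (chartAt ℂ n).symm w = π ((chartAt ℂ (σ n)).symm w)
  atl : ∀ e, e ∈ atlas ℂ N → ∃ n, e = chartAt ℂ n

end

end Pool.Agent.MP_92463a_gt

end
end

section

open Set Complex Filter Metric
open scoped Topology ComplexConjugate ContDiff Manifold

noncomputable section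

namespace Pool.Agent.MP_92463a_gt

/-! Weierstrass data with necks: `φ₁ = ψ₁² G dt / t`, `φ₂ = ψ₂² dt / (G t)`, `φ₃ = ψ₁ ψ₂ dt / t`. -/

/-- the horizontal period along the half circle from `x₀` to `x₁ < x₀`, imaginary part if `ty` -/
def Lk (f₁ f₂ : ℂ → ℂ) (ty : Bool) (x₀ x₁ : ℝ) : ℝ :=
  (if ty then im else re) (∫ θ in (0 : ℝ)..Real.pi,
    (f₁ ((x₀ + x₁) / 2 + (x₀ - x₁) / 2 * exp (θ * I)) * ((x₀ - x₁) / 2 * exp (θ * I) * I) -
      conj (f₂ ((x₀ + x₁) / 2 + (x₀ - x₁) / 2 * exp (θ * I)) * ((x₀ - x₁) / 2 * exp (θ * I) * I))))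

/-- the horizontal period along the arc of radius `R` around `x₀` -/
def arcI (f₁ f₂ : ℂ → ℂ) (x₀ : ℂ) (R a b : ℝ) : ℂ :=
  ∫ θ in a..b, (f₁ (x₀ + R * exp (θ * I)) * (R * exp (θ * I) * I) -
    conj (f₂ (x₀ + R * exp (θ * I)) * (R * exp (θ * I) * I)))

/-- the horizontal period along the segment from `t₀` to `t₁` -/
def segI (f₁ f₂ : ℂ → ℂ) (t₀ t₁ : ℂ) : ℂ :=
  ∫ x in (0 : ℝ)..1, (f₁ (t₀ + x * (t₁ - t₀)) * (t₁ - t₀) -
    conj (f₂ (t₀ + x * (t₁ - t₀)) * (t₁ - t₀)))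

/-- boundary segments: `(false, k)` on the positive axis, `(true, k)` on the negative axis -/
abbrev Sg : Type := Bool × ℕ

/-- `true` if `P > 0` on the segment -/
def Sg.ty (s : Sg) : Bool := if s.1 then decide (Odd s.2) else decide (Even s.2)

def Sg.Val (p q : ℕ) (s : Sg) : Prop := if s.1 then s.2 ≤ q else s.2 ≤ p

namespace Dat

variable (D : Dat)

def InS (s : Sg) (x : ℝ) : Prop := if s.1 then D.InB s.2 x else D.InA s.2 x

def F1 (t : ℂ) : ℂ := D.G t / t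

def F2 (t : ℂ) : ℂ := (D.G t * t)⁻¹

end Dat

def cube (J : Type) : Set (J → ℝ) := {x | ∀ i, |x i| ≤ 1}

/-- a family of Weierstrass data on a cube whose period problem satisfies the conditions of the
Poincare-Miranda theorem -/
structure Fam (J : Type) [Fintype J] (p q : ℕ) where
  D : (J → ℝ) → Dat
  su : J → Sg
  sv : J → Sg
  u : J → (J → ℝ) → ℝ
  v : J → (J → ℝ) → ℝ
  A : (J → ℝ) → J → J → ℝ
  ok : ∀ x ∈ cube J, (D x).Ok ∧ (D x).p = p ∧ (D x).q = q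
  ca : ∀ i < p, ContinuousOn (fun x => (D x).a i) (cube J)
  cb : ∀ j < q, ContinuousOn (fun x => (D x).b j) (cube J)
  cρ : ContinuousOn (fun x => (D x).ρ) (cube J)
  cu : ∀ i, ContinuousOn (u i) (cube J)
  cv : ∀ i, ContinuousOn (v i) (cube J)
  cA : ∀ i j, ContinuousOn (fun x => A x i j) (cube J)
  val : ∀ i, (su i).Val p q ∧ (sv i).Val p q ∧ (sv i).ty = (su i).ty
  mem : ∀ i, ∀ x ∈ cube J, (D x).InS (su i) (u i x) ∧ (D x).InS (sv i) (v i x) ∧ v i x < u i x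
  chain : ∀ α : Sg → ℝ, (∀ i, α (su i) = α (sv i)) →
    ∀ s s' : Sg, s.Val p q → s'.Val p q → s.ty = s'.ty → α s = α s'
  inj : ∀ x ∈ cube J, ∀ w : J → ℝ, (∀ i, ∑ j, A x i j * w j = 0) → w = 0
  face : ∀ x ∈ cube J, ∀ i,
    (x i = 1 → 0 < ∑ j, A x i j * Lk (D x).F1 (D x).F2 (su j).ty (u j x) (v j x)) ∧
    (x i = -1 → ∑ j, A x i j * Lk (D x).F1 (D x).F2 (su j).ty (u j x) (v j x) < 0)

structure Wd (ι : Type) extends Pl ι where
  D : Dat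
  ℓ : ℝ
  χ : ℂ → ℂ
  ψ₂ : ℂ → ℂ
  yb : ι × Bool → ℂ → ℂ
  κ : ι → ι

namespace Wd

variable {ι : Type} (W : Wd ι)

def ψ₁ (t : ℂ) : ℂ := W.χ t + W.ℓ * W.D.b 0 / (t + W.D.b 0)

def F1 (t : ℂ) : ℂ := W.ψ₁ t ^ 2 * (W.D.G t / t)

def F2 (t : ℂ) : ℂ := W.ψ₂ t ^ 2 * (W.D.G t * t)⁻¹

def F3 (t : ℂ) : ℂ := W.ψ₁ t * W.ψ₂ t / t

def f1 (e : ι × Bool) (v : ℂ) : ℂ :=
  W.ψ₁ (W.c e + v) ^ 2 * (W.yb e v * W.D.R (W.c e + v) / (W.c e + v))

def f2 (e : ι × Bool) (v : ℂ) : ℂ :=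
  W.ψ₂ (W.c e + v) ^ 2 * (W.yb e v * W.D.R (W.c e + v) * (W.c e + v))⁻¹

def f3 (e : ι × Bool) (v : ℂ) : ℂ := W.F3 (W.c e + v)

/-- weights and factors of the odd 1-forms `B dt / y` -/
def my (e : ι × Bool) (v : ℂ) : ℂ := W.yb e 0 / W.yb e v

def ry (e : ι × Bool) : ℂ := -W.s e.1 * W.yb e 0 / W.yb (op e) 0

/-- the quarter of the surface -/
def Q : Set ℂ := W.D.Q ∩ W.Om

/-- the regular points of the quarter -/
def Qr : Set ℂ := {t | 0 ≤ t.im ∧ W.D.P t ≠ 0 ∧ t ∈ W.Om}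

/-- necks on the real axis, in the upper and in the lower half plane -/
def Mid (k : ι) : Prop :=
  W.κ k = k ∧ (∀ b, (W.c (k, b)).im = 0) ∧ (W.s k).im = 0 ∧ (W.s k).re < 0

def Up (k : ι) : Prop := ∀ b, 2 * W.ρ (k, b) ≤ (W.c (k, b)).im

def Low (k : ι) : Prop := ∀ b, (W.c (k, b)).im ≤ -(2 * W.ρ (k, b))

structure Pre (X : ℂ → ℂ) : Prop where
  cont : ContinuousOn X W.Q
  der : ∀ t ∈ W.Om, 0 < t.im → HasFDerivAt X (wl (W.F1 t) (W.F2 t)) t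

/-- the horizontal period problem is solved -/
structure SolX (X : ℂ → ℂ) : Prop extends W.Pre X where
  im0 : ∀ x : ℝ, (x : ℂ) ∈ W.Om → 0 < (W.D.P x).re → (X x).im = 0
  re0 : ∀ x : ℝ, (x : ℂ) ∈ W.Om → (W.D.P x).re < 0 → (X x).re = 0

/-- the period problem is solved -/
structure Sol (X : ℂ → ℂ) (H : ℂ → ℝ) : Prop extends W.SolX X where
  glueX : ∀ e, ∀ v ∈ W.Ann e, 0 ≤ (W.c e).im → 0 ≤ (W.c e + v).im →
    X (W.c e + v) = X (W.c (op e) + W.s e.1 / v)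
  derH : ∀ t ∈ W.Om, ¬ W.D.IsE t → HasFDerivAt H (hl (W.F3 t)) t
  conjH : ∀ t ∈ W.Om, H (conj t) = H t
  glueH : ∀ e, ∀ v ∈ W.Ann e, H (W.c e + v) = H (W.c (op e) + W.s e.1 / v)
  top : Tendsto H (Bornology.cobounded ℂ) atTop

/-- the quarter is embedded -/
def QInj (X : ℂ → ℂ) (H : ℂ → ℝ) : Prop :=
  ∀ t ∈ W.Q, ∀ t' ∈ W.Q, X t = X t' → H t = H t' →
    t = t' ∨ ∃ e, ∃ v ∈ W.Ann e, t = W.c e + v ∧ t' = W.c (op e) + W.s e.1 / v

/-- the horizontal part near a port -/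
def XA (X : ℂ → ℂ) (e : ι × Bool) (v : ℂ) : ℂ := W.D.Xg X (W.c e + v) (W.yb e v)

def U : Set W.D.N := {z | W.D.tt z ∈ W.Om}

def O : Set W.D.N := {z | ∃ e, W.D.tt z - W.c e ∈ W.Ann e}

def Cp : Set W.D.N := {z | W.D.tt z ∈ W.Fd}

open Classical in
/-- the gluing map -/
def g (z : W.D.N) : W.D.N :=
  if h : ∃ e, W.D.tt z - W.c e ∈ W.Ann e then
    W.D.pt (W.c (op h.choose) + W.s h.choose.1 / (W.D.tt z - W.c h.choose))
      (W.D.yy z / W.yb h.choose (W.D.tt z - W.c h.choose) *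
        W.yb (op h.choose) (W.s h.choose.1 / (W.D.tt z - W.c h.choose)))
  else z

/-- the surface -/
def ff (X : ℂ → ℂ) (H : ℂ → ℝ) (z : W.D.N) : E3 :=
  mk3 (W.D.Xg X (W.D.tt z) (W.D.yy z)) (H (W.D.tt z))

/-- the form `om` is `(A + B / y) dt` -/
def Rep (A B : ℂ → ℂ) (om : W.D.N → ℂ) : Prop :=
  ∀ t ∈ W.Om, ∀ y, y ^ 2 = W.D.P t → W.D.P t ≠ 0 → om (W.D.pt t y) = A t + B t / y

variable [Fintype ι]

/-- the curve with its ports -/
structure Ok0 : Prop where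
  d : W.D.Ok
  q_pos : 0 < W.D.q
  pl : W.toPl.Ok
  sy : W.Sy W.κ
  free : ∀ e, ∀ v ∈ ball (0 : ℂ) (2 * W.ρ e), W.D.P (W.c e + v) ≠ 0
  yhol : ∀ e, DifferentiableOn ℂ (W.yb e) (ball 0 (2 * W.ρ e))
  ysq : ∀ e, ∀ v ∈ ball (0 : ℂ) (2 * W.ρ e), W.yb e v ^ 2 = W.D.P (W.c e + v)
  yconj : ∀ e : ι × Bool, ∀ v ∈ ball (0 : ℂ) (2 * W.ρ e),
    W.yb (W.κ e.1, e.2) (conj v) = -conj (W.yb e v)
  yup : ∀ e, ∀ v ∈ ball (0 : ℂ) (2 * W.ρ e), 0 ≤ (W.c e).im → 0 ≤ (W.c e + v).im →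
    W.yb e v = W.D.Y (W.c e + v)
  pos : ∀ k, W.Mid k ∨ W.Up k ∨ W.Low k
  wy : W.Wt W.my
  ce : W.Con2 fun e => -W.s e.1
  co : W.Con2 W.ry

/-- the spinors are holomorphic and match -/
structure Ok1 : Prop extends W.Ok0 where
  χhol : DifferentiableOn ℂ W.χ W.Om
  ψhol : DifferentiableOn ℂ W.ψ₂ W.Om
  χinf : Tendsto W.χ (Bornology.cobounded ℂ) (𝓝 1)
  ψinf : Tendsto W.ψ₂ (Bornology.cobounded ℂ) (𝓝 1)
  χconj : ∀ t ∈ W.Om, W.χ (conj t) = conj (W.χ t)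
  ψconj : ∀ t ∈ W.Om, W.ψ₂ (conj t) = conj (W.ψ₂ t)
  m1 : W.MF W.f1
  m2 : W.MF W.f2
  m3 : W.MF W.f3

/-- the spinors have no common zero -/
structure Ok : Prop extends W.Ok1 where
  ne : ∀ t ∈ W.Om, W.D.P t ≠ 0 → W.ψ₁ t ≠ 0 ∨ W.ψ₂ t ≠ 0
  neA : ∀ i < W.D.p, W.ψ₁ (W.D.a i) ≠ 0 ∧ W.ψ₂ (W.D.a i) ≠ 0
  ne0 : W.ψ₁ 0 ≠ 0
  neB : ∀ j < W.D.q, (Even j → W.ψ₂ (-W.D.b j) ≠ 0) ∧ (Odd j → W.ψ₁ (-W.D.b j) ≠ 0)

def c0 : ℝ := (W.ψ₁ 0 * W.ψ₂ 0).re

def q0 : ℝ := (-W.ℓ * W.ψ₂ (-W.D.b 0)).re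

/-- the height -/
def hh (t : ℂ) : ℝ :=
  2 * (W.c0 * Real.log ‖t‖ + W.q0 * Real.log ‖t + W.D.b 0‖ +
    ∑ e, ((W.rs W.f3 e).re * Real.log ‖t - W.c e‖ + (W.th W.f3 e (t - W.c e)).re))

end Wd

end Pool.Agent.MP_92463a_gt

end
end

section

open Set Complex Filter Metric
open scoped Topology ComplexConjugate ContDiff Manifold

noncomputable section

namespace Pool.Agent.MP_92463a_gt

namespace Pl

variable {ι : Type} {P : Pl ι}

theorem Ok.rin_pos (h : P.Ok) (e : ι × Bool) : 0 < P.rin e := by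
  exact div_pos (norm_pos_iff.2 (h.s_ne _)) (h.ρ_pos _)

theorem Ok.rin_mul (h : P.Ok) (e : ι × Bool) : P.rin e * P.ρ (op e) = ‖P.s e.1‖ := by
  exact div_mul_cancel₀ _ (h.ρ_pos _).ne'

theorem Ok.PlB_rin_ρ (h : P.Ok) (e : ι × Bool) : 16 * P.rin e ≤ P.ρ e := by
  have h1 := h.s_small e
  rw [← h.rin_mul e, ← mul_assoc] at h1
  exact le_of_mul_le_mul_right h1 (h.ρ_pos _)

theorem Ok.PlB_mu_sq (h : P.Ok) (e : ι × Bool) : P.mu e ^ 2 = P.rin e * P.ρ e := by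
  have h1 := h.ρ_pos e
  have h2 := h.ρ_pos (op e)
  rw [mu, Real.sq_sqrt (by positivity), rin]
  ring

theorem Ok.rin_mu (h : P.Ok) (e : ι × Bool) : 4 * P.rin e ≤ P.mu e := by
  have h1 := h.rin_pos e
  have h2 := h.PlB_rin_ρ e
  refine le_of_sq_le_sq ?_ (Real.sqrt_nonneg _ : 0 ≤ P.mu e)
  rw [h.PlB_mu_sq]
  nlinarith

theorem Ok.mu_ρ (h : P.Ok) (e : ι × Bool) : 4 * P.mu e ≤ P.ρ e := by
  have h1 := h.ρ_pos e
  have h2 := h.PlB_rin_ρ e
  refine le_of_sq_le_sq ?_ h1.le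
  rw [mul_pow, h.PlB_mu_sq]
  nlinarith

theorem Ok.mu_mul (h : P.Ok) (e : ι × Bool) : P.mu e * P.mu (op e) = ‖P.s e.1‖ := by
  have h1 := h.ρ_pos e
  have h2 := h.ρ_pos (op e)
  have h3 := norm_nonneg (P.s e.1)
  rw [mu, mu, ← Real.sqrt_mul (by positivity), op_op, op_fst,
    show ‖P.s e.1‖ * P.ρ e / P.ρ (op e) * (‖P.s e.1‖ * P.ρ (op e) / P.ρ e) = ‖P.s e.1‖ ^ 2 by
      field_simp, Real.sqrt_sq h3]

theorem Ok.ann_ne (h : P.Ok) {e : ι × Bool} {v : ℂ} (hv : v ∈ P.Ann e) : v ≠ 0 := by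
  exact norm_pos_iff.1 ((h.rin_pos e).trans hv.1)

theorem Ok.ann_op (h : P.Ok) {e : ι × Bool} {v : ℂ} (hv : v ∈ P.Ann e) :
    P.s e.1 / v ∈ P.Ann (op e) := by
  have h0 : 0 < ‖v‖ := (h.rin_pos e).trans hv.1
  have h1 := h.rin_mul e
  have h2 := h.rin_mul (op e)
  rw [op_op, op_fst] at h2
  refine ⟨?_, ?_⟩
  · rw [norm_div, lt_div_iff₀ h0, ← h2]
    exact mul_lt_mul_of_pos_left hv.2 (h.rin_pos _)
  · rw [norm_div, div_lt_iff₀ h0, ← h1, mul_comm]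
    exact mul_lt_mul_of_pos_left hv.1 (h.ρ_pos _)

theorem Ok.ann_sub (h : P.Ok) (e : ι × Bool) : P.Ann e ⊆ P.Ann2 e := by
  exact fun v hv => ⟨hv.1, by linarith [hv.2, h.ρ_pos e]⟩

theorem Ok.circ_mem (h : P.Ok) {e : ι × Bool} {v : ℂ} (hv : ‖v‖ = P.ρ e) : v ∈ P.Ann2 e := by
  refine ⟨?_, ?_⟩ <;> rw [hv] <;> linarith [h.ρ_pos e, h.PlB_rin_ρ e, h.rin_pos e]

theorem Ok.circ_rin (h : P.Ok) {e : ι × Bool} {v : ℂ} (hv : ‖v‖ = P.ρ (op e)) :
    ‖P.s e.1 / v‖ = P.rin e := by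
  rw [norm_div, hv, rin]

theorem Ok.far (h : P.Ok) {e e' : ι × Bool} (hne : e ≠ e') {v : ℂ} (hv : ‖v‖ ≤ 2 * P.ρ e) :
    2 * P.ρ e' ≤ ‖P.c e + v - P.c e'‖ := by
  have h1 := h.sep e e' hne
  have h2 := norm_sub_le (P.c e + v - P.c e') v
  rw [show P.c e + v - P.c e' - v = P.c e - P.c e' by ring] at h2
  linarith

theorem Ok.circ_far (h : P.Ok) {e : ι × Bool} (e' : ι × Bool) {v : ℂ} (hv : ‖v‖ = P.ρ e) :
    P.ρ e' ≤ ‖P.c e + v - P.c e'‖ := by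
  by_cases hne : e = e'
  · subst hne
    simp [hv]
  · have := h.far hne (v := v) (by linarith [h.ρ_pos e])
    linarith [h.ρ_pos e']

theorem Ok.ann2_mem (h : P.Ok) {e : ι × Bool} {v : ℂ} (hv : v ∈ P.Ann2 e) : P.c e + v ∈ P.Om := by
  intro e'
  by_cases hne : e = e'
  · subst hne
    simpa using hv.1
  · have := h.far hne hv.2.le
    linarith [h.ρ_pos e', h.PlB_rin_ρ e', h.rin_pos e']

theorem Ok.port_eq (h : P.Ok) {e e' : ι × Bool} {t : ℂ} (h1 : ‖t - P.c e‖ < 2 * P.ρ e)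
    (h2 : ‖t - P.c e'‖ < 2 * P.ρ e') : e = e' := by
  by_contra hne
  have := h.far hne h1.le
  rw [add_sub_cancel] at this
  linarith

theorem Ok.fd_sub (h : P.Ok) : P.Fd ⊆ P.Om := by
  exact fun t ht e => by linarith [ht e, h.rin_mu e, h.rin_pos e]

theorem Ok.mem_fd (h : P.Ok) {e : ι × Bool} {v : ℂ} (h1 : P.mu e ≤ ‖v‖) (h2 : ‖v‖ ≤ 2 * P.ρ e) :
    P.c e + v ∈ P.Fd := by
  intro e'
  by_cases hne : e = e'
  · subst hne
    simpa using h1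
  · have := h.far hne h2
    linarith [h.ρ_pos e', h.mu_ρ e']

theorem Ok.cover (h : P.Ok) {t : ℂ} (ht : t ∈ P.Om) : t ∈ P.Fd ∨ ∃ e, ∃ v ∈ P.Ann e,
    t = P.c e + v ∧ ‖v‖ < P.mu e ∧ P.mu (op e) < ‖P.s e.1 / v‖ ∧
      P.c (op e) + P.s e.1 / v ∈ P.Fd := by
  by_cases hf : t ∈ P.Fd
  · exact Or.inl hf
  obtain ⟨e, he⟩ : ∃ e, ‖t - P.c e‖ < P.mu e := by
    by_contra hc
    exact hf fun e => not_lt.1 fun he => hc ⟨e, he⟩
  have hm : 0 < P.mu e := (norm_nonneg _).trans_lt he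
  have ha : t - P.c e ∈ P.Ann e := ⟨ht e, by linarith [h.mu_ρ e]⟩
  have h0 : 0 < ‖t - P.c e‖ := norm_pos_iff.2 (h.ann_ne ha)
  have h1 : P.mu (op e) < ‖P.s e.1 / (t - P.c e)‖ := by
    rw [norm_div, lt_div_iff₀ h0, ← h.mu_mul e, mul_comm]
    exact mul_lt_mul_of_pos_right he (by linarith [h.rin_mu (op e), h.rin_pos (op e)])
  exact Or.inr ⟨e, _, ha, by ring, he, h1,
    h.mem_fd h1.le (by linarith [(h.ann_op ha).2, h.ρ_pos (op e)])⟩

theorem isClosed_fd : IsClosed P.Fd := by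
  rw [Fd, ofPred_forall]
  exact isClosed_iInter fun e => isClosed_le continuous_const (by fun_prop)

theorem isOpen_om [Finite ι] : IsOpen P.Om := by
  rw [Om, ofPred_forall]
  exact isOpen_iInter_of_finite fun e => isOpen_lt continuous_const (by fun_prop)

theorem isOpen_ann (e : ι × Bool) : IsOpen (P.Ann e) := by
  exact (isOpen_lt continuous_const continuous_norm).inter (isOpen_lt continuous_norm continuous_const)

theorem isOpen_ann2 (e : ι × Bool) : IsOpen (P.Ann2 e) := by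
  exact (isOpen_lt continuous_const continuous_norm).inter (isOpen_lt continuous_norm continuous_const)

theorem om_far [Finite ι] : ∃ R : ℝ, ∀ t : ℂ, R < ‖t‖ → t ∈ P.Fd ∧ t ∈ P.Om := by
  obtain ⟨R, hR⟩ := (Set.finite_range fun e => ‖P.c e‖ + max (P.mu e) (P.rin e)).bddAbove
  refine ⟨R, fun t ht => ⟨fun e => ?_, fun e => ?_⟩⟩ <;>
  linarith [hR ⟨e, rfl⟩, norm_sub_norm_le t (P.c e), le_max_left (P.mu e) (P.rin e),
    le_max_right (P.mu e) (P.rin e)]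

theorem Sy.rin {κ : ι → ι} (h : P.Sy κ) (e : ι × Bool) : P.rin (κ e.1, e.2) = P.rin e := by
  have := h.ρ (op e)
  simp only [Pl.rin, op, h.s, RCLike.norm_conj] at this ⊢
  rw [this]

theorem Sy.mu {κ : ι → ι} (h : P.Sy κ) (e : ι × Bool) : P.mu (κ e.1, e.2) = P.mu e := by
  have := h.ρ (op e)
  simp only [Pl.mu, op, h.s, h.ρ, RCLike.norm_conj] at this ⊢
  rw [this]

theorem Sy.PlB_norm {κ : ι → ι} (h : P.Sy κ) (t : ℂ) (e : ι × Bool) :
    ‖conj t - P.c e‖ = ‖t - P.c (κ e.1, e.2)‖ := by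
  rw [h.c, ← RCLike.norm_conj (t - _), map_sub, conj_conj]

theorem Sy.om {κ : ι → ι} (h : P.Sy κ) {t : ℂ} (ht : t ∈ P.Om) : conj t ∈ P.Om := by
  intro e
  rw [h.PlB_norm, ← h.rin]
  exact ht _

theorem Sy.fd {κ : ι → ι} (h : P.Sy κ) {t : ℂ} (ht : t ∈ P.Fd) : conj t ∈ P.Fd := by
  intro e
  rw [h.PlB_norm, ← h.mu]
  exact ht _

theorem Sy.ann {κ : ι → ι} (h : P.Sy κ) {e : ι × Bool} {v : ℂ} (hv : v ∈ P.Ann e) :
    conj v ∈ P.Ann (κ e.1, e.2) := by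
  refine ⟨?_, ?_⟩
  · rw [h.rin, RCLike.norm_conj]
    exact hv.1
  · rw [h.ρ, RCLike.norm_conj]
    exact hv.2

theorem Wt.ne {m : ι × Bool → ℂ → ℂ} (h : P.Wt m) {e : ι × Bool} {v : ℂ}
    (hv : ‖v‖ < 2 * P.ρ e) : m e v ≠ 0 ∧ ‖m e v‖ ≤ 3 / 2 ∧ ‖(m e v)⁻¹‖ ≤ 2 := by
  have h1 := h.near e v (by simpa using hv)
  have h2 := norm_sub_norm_le (m e v) 1
  have h3 := norm_sub_norm_le 1 (m e v)
  rw [norm_sub_rev, norm_one] at h3
  rw [norm_one] at h2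
  have h4 : 0 < ‖m e v‖ := by linarith
  refine ⟨norm_pos_iff.1 h4, by linarith, ?_⟩
  rw [norm_inv, inv_le_comm₀ h4 two_pos]
  linarith

theorem Wt.schwarz {m : ι × Bool → ℂ → ℂ} (h : P.Wt m) {e : ι × Bool} {v : ℂ}
    (hv : ‖v‖ < 2 * P.ρ e) : ‖m e v - 1‖ ≤ ‖v‖ / (4 * P.ρ e) := by
  have h1 := Complex.dist_le_div_mul_dist_of_mapsTo_ball (R₂ := 1 / 2) (h.hol e)
    (fun w hw => by simpa [h.zero, dist_eq_norm] using h.near e w hw) (z := v) (by simpa using hv)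
  rw [h.zero, dist_eq_norm, dist_zero_right] at h1
  refine h1.trans_eq ?_
  ring

theorem wt_one : P.Wt fun _ _ => 1 := by
  exact ⟨fun _ => differentiableOn_const 1, fun _ => rfl, fun _ _ _ => by simp⟩

end Pl

end Pool.Agent.MP_92463a_gt

end
end

section

open Set Complex Filter Metric
open scoped Topology ComplexConjugate ContDiff Manifold

noncomputable section

namespace Pool.Agent.MP_92463a_gt

theorem plc_polar {r₁ r₂ : ℝ} {A : Set ℝ} (hA : IsPreconnected A) :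
    IsPreconnected ((fun z : ℝ × ℝ => (z.1 : ℂ) * exp (z.2 * I)) '' (Ioo r₁ r₂ ×ˢ A)) :=
  (isPreconnected_Ioo.prod hA).image _ (by fun_prop)

theorem plc_norm {r θ : ℝ} (h : 0 ≤ r) : ‖(r : ℂ) * exp (θ * I)‖ = r := by
  rw [norm_mul, norm_exp_ofReal_mul_I, mul_one, norm_real, Real.norm_of_nonneg h]

theorem ann_preconn {r₁ r₂ : ℝ} (h : 0 ≤ r₁) : IsPreconnected {v : ℂ | r₁ < ‖v‖ ∧ ‖v‖ < r₂} := by
  convert plc_polar (r₁ := r₁) (r₂ := r₂) isPreconnected_univ using 1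
  ext v
  constructor
  · intro hv
    exact ⟨(‖v‖, arg v), ⟨hv, trivial⟩, norm_mul_exp_arg_mul_I v⟩
  · rintro ⟨⟨r, θ⟩, ⟨hr, -⟩, rfl⟩
    simp only [mem_ofPred_eq, plc_norm (h.trans hr.1.le)]
    exact hr

theorem half_ann_preconn {r₁ r₂ : ℝ} (h : 0 ≤ r₁) :
    IsPreconnected {v : ℂ | r₁ < ‖v‖ ∧ ‖v‖ < r₂ ∧ 0 < v.im} := by
  convert plc_polar (r₁ := r₁) (r₂ := r₂) (isPreconnected_Ioo (a := 0) (b := Real.pi)) using 1
  ext v
  constructor
  · rintro ⟨h1, h2, h3⟩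
    refine ⟨(‖v‖, arg v), ⟨⟨h1, h2⟩, ?_, arg_lt_pi_iff.2 (Or.inr h3.ne')⟩,
      norm_mul_exp_arg_mul_I v⟩
    exact (arg_nonneg_iff.2 h3.le).lt_of_ne' fun h0 => h3.ne' (arg_eq_zero_iff.1 h0).2
  · rintro ⟨⟨r, θ⟩, ⟨hr, hθ⟩, rfl⟩
    simp only [mem_ofPred_eq, plc_norm (h.trans hr.1.le), im_ofReal_mul, exp_ofReal_mul_I_im]
    exact ⟨hr.1, hr.2, mul_pos (h.trans_lt hr.1) (Real.sin_pos_of_pos_of_lt_pi hθ.1 hθ.2)⟩

theorem plc_diff {X : Type} [TopologicalSpace X] {U K N : Set X} (hU : IsPreconnected U)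
    (hK : IsClosed K) (hN : IsOpen N) (hKN : K ⊆ N) (hNU : N ⊆ U) (h : IsPreconnected (N \ K)) :
    IsPreconnected (U \ K) := by
  have key : ∀ u v : Set X, IsOpen u → IsOpen v → U \ K ⊆ u ∪ v → (U \ K) ∩ (u ∩ v) = ∅ →
      N \ K ⊆ u → U \ K ⊆ u ∨ U \ K ⊆ v := by
    intro u v hu hv h1 h2 h3
    have h4 := isPreconnected_iff_subset_of_disjoint.1 hU (u ∪ N) (v \ K) (hu.union hN)
      (hv.sdiff hK) (fun x hx => by
        by_cases hx' : x ∈ K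
        · exact Or.inl (Or.inr (hKN hx'))
        · exact (h1 ⟨hx, hx'⟩).imp Or.inl fun h5 => ⟨h5, hx'⟩)
      (eq_empty_of_forall_notMem fun x ⟨hx, h5, h6, h7⟩ =>
        eq_empty_iff_forall_notMem.1 h2 x ⟨⟨hx, h7⟩, h5.elim id fun h8 => h3 ⟨h8, h7⟩, h6⟩)
    exact h4.imp (fun h5 x hx => (h5 hx.1).elim id fun h8 => h3 ⟨h8, hx.2⟩)
      fun h5 x hx => (h5 hx.1).1
  refine isPreconnected_iff_subset_of_disjoint.2 fun u v hu hv h1 h2 => ?_
  have hs : N \ K ⊆ U \ K := sdiff_subset_sdiff_left hNU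
  rcases isPreconnected_iff_subset_of_disjoint.1 h u v hu hv (hs.trans h1)
    (subset_eq_empty (inter_subset_inter_left _ hs) h2) with h3 | h3
  · exact key u v hu hv h1 h2 h3
  · exact (key v u hv hu (union_comm u v ▸ h1) (inter_comm u v ▸ h2) h3).symm

theorem plc_ball {U : Set ℂ} (hU : IsPreconnected U) {c : ℂ} {r R : ℝ} (h0 : 0 ≤ r) (hr : r < R)
    (h : ball c R ⊆ U) : IsPreconnected (U \ closedBall c r) := by
  refine plc_diff hU isClosed_closedBall isOpen_ball (closedBall_subset_ball hr) h ?_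
  convert (ann_preconn (r₂ := R) h0).image (fun v => c + v) (by fun_prop) using 1
  ext t
  simp only [Set.mem_sdiff, mem_ball_iff_norm, mem_closedBall_iff_norm, not_le, mem_image,
    mem_ofPred_eq]
  constructor
  · exact fun ht => ⟨t - c, ⟨ht.2, ht.1⟩, add_sub_cancel c t⟩
  · rintro ⟨v, hv, rfl⟩
    rw [add_sub_cancel_left]
    exact ⟨hv.2, hv.1⟩

theorem plc_finite {U : Set ℂ} (hU : IsPreconnected U) (ho : IsOpen U) {Z : Set ℂ}
    (hZ : Z.Finite) : IsPreconnected (U \ Z) := by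
  induction Z, hZ using Set.Finite.induction_on with
  | empty => rwa [sdiff_empty]
  | @insert z Z _ hZ ih =>
    rw [insert_eq, union_comm, ← Set.sdiff_sdiff]
    by_cases hz : z ∈ U \ Z
    · obtain ⟨R, hR, hb⟩ := Metric.isOpen_iff.1 (ho.sdiff hZ.isClosed) z hz
      simpa only [closedBall_zero] using plc_ball ih le_rfl hR hb
    · rwa [sdiff_singleton_eq_self hz]

theorem Pl.Ok.preconn {ι : Type} [Finite ι] {P : Pl ι} (h : P.Ok) {Z : Set ℂ} (hZ : Z.Finite) :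
    IsPreconnected (P.Om \ Z) := by
  refine plc_finite ?_ Pl.isOpen_om hZ
  have hr : ∀ e, P.rin e < 2 * P.ρ e := fun e => by
    linarith [h.rin_pos e, h.rin_mu e, h.mu_ρ e]
  have key : ∀ s : Set (ι × Bool), s.Finite →
      IsPreconnected {t : ℂ | ∀ e ∈ s, P.rin e < ‖t - P.c e‖} := by
    intro s hs
    induction s, hs using Set.Finite.induction_on with
    | empty => simpa using isPreconnected_univ
    | @insert e s he _ ih =>
      convert plc_ball ih (c := P.c e) (h.rin_pos e).le (hr e) ?_ using 1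
      · ext t
        simp only [forall_mem_insert, mem_ofPred_eq, Set.mem_sdiff, mem_closedBall_iff_norm,
          not_le, and_comm]
      · intro t ht e' he'
        have h1 := h.far (e := e) (e' := e') (fun h2 => he (h2 ▸ he'))
          (mem_ball_iff_norm.1 ht).le
        rw [add_sub_cancel] at h1
        exact (hr e').trans_le h1
  simpa [Pl.Om] using key univ finite_univ

end Pool.Agent.MP_92463a_gt

end
end

section

open Set Complex Filter Metric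
open scoped Topology ComplexConjugate ContDiff Manifold

noncomputable section

namespace Pool.Agent.MP_92463a_gt

section
variable {M : Type} [TopologicalSpace M] [ChartedSpace ℂ M] {U O Cp : Set M} {g : M → M}

/-- the gluing relation on `U` -/
def Glue.pb1S (h : Glue U O g Cp) : Setoid U where
  r a b := a.1 = b.1 ∨ (a.1 ∈ O ∧ b.1 = g a.1)
  iseqv := by
    refine ⟨fun a => Or.inl rfl, ?_, ?_⟩
    · rintro a b (e | ⟨ha, e⟩)
      · exact Or.inl e.symm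
      · exact Or.inr ⟨e ▸ h.maps ha, by rw [e, h.inv _ ha]⟩
    · rintro a b c (e | ⟨ha, e⟩) (e' | ⟨hb, e'⟩)
      · exact Or.inl (e.trans e')
      · exact Or.inr ⟨e ▸ hb, by rw [e', e]⟩
      · exact Or.inr ⟨ha, by rw [← e', e]⟩
      · exact Or.inl (by rw [e', e, h.inv _ ha])

theorem Glue.pb1_eq (h : Glue U O g Cp) (a b : U) :
    Quotient.mk h.pb1S a = Quotient.mk h.pb1S b ↔ a.1 = b.1 ∨ (a.1 ∈ O ∧ b.1 = g a.1) :=
  Quotient.eq

theorem Glue.pb1_open (h : Glue U O g Cp) : IsOpenMap (Quotient.mk h.pb1S) := by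
  intro W hW
  obtain ⟨V, hV, rfl⟩ := isOpen_induced_iff.mp hW
  have hq : Topology.IsQuotientMap (Quotient.mk h.pb1S) := isQuotientMap_quot_mk
  rw [← hq.isOpen_preimage]
  have e : Quotient.mk h.pb1S ⁻¹' (Quotient.mk h.pb1S '' (Subtype.val ⁻¹' V)) =
      Subtype.val ⁻¹' (V ∪ (O ∩ g ⁻¹' V)) := by
    ext a
    simp only [mem_preimage, mem_image, mem_union, mem_inter_iff]
    constructor
    · rintro ⟨b, hb, e⟩
      rcases (h.pb1_eq a b).mp e.symm with e | ⟨ha, e⟩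
      · exact Or.inl (e ▸ hb)
      · exact Or.inr ⟨ha, e ▸ hb⟩
    · rintro (ha | ⟨ha, hb⟩)
      · exact ⟨a, ha, rfl⟩
      · exact ⟨⟨g a.1, h.sub (h.maps ha)⟩, hb, ((h.pb1_eq _ _).mpr (Or.inr ⟨ha, rfl⟩)).symm⟩
  rw [e]
  exact (hV.union (h.cont.isOpen_inter_preimage h.oO hV)).preimage continuous_subtype_val

theorem Glue.pb1_t2 [T2Space M] (h : Glue U O g Cp) : T2Space (Quotient h.pb1S) := by
  have hq : IsOpenQuotientMap (Quotient.mk h.pb1S) :=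
    ⟨Quotient.mk_surjective, continuous_quot_mk, h.pb1_open⟩
  rw [t2Space_iff_of_isOpenQuotientMap hq]
  have e : {q : U × U | Quotient.mk h.pb1S q.1 = Quotient.mk h.pb1S q.2} =
      {q : U × U | q.1.1 = q.2.1} ∪ (fun q : U × U => (q.1.1, q.2.1)) ⁻¹'
        closure {x : M × M | x.1 ∈ O ∧ x.2 = g x.1} := by
    ext q
    simp only [mem_ofPred_eq, mem_union, mem_preimage, h.pb1_eq]
    exact or_congr_right ⟨fun hq => subset_closure hq, fun hq => h.closed _ q.1.2 _ q.2.2 hq⟩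
  rw [e]
  exact (isClosed_eq (by fun_prop) (by fun_prop)).union
    (isClosed_closure.preimage (by fun_prop))

theorem Glue.pb1_nhd (h : Glue U O g Cp) {z : M} (hz : z ∈ U) :
    ∃ V : Set M, IsOpen V ∧ z ∈ V ∧ V ⊆ U ∧ V ⊆ (chartAt ℂ z).source ∧
      ∀ a ∈ V, ∀ b ∈ V, ¬ (a ∈ O ∧ b = g a) := by
  have h1 : (z, z) ∈ (closure {x : M × M | x.1 ∈ O ∧ x.2 = g x.1})ᶜ := fun hc => by
    obtain ⟨h1, h2⟩ := h.closed z hz z hz hc
    exact h.ne z h1 h2.symm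
  obtain ⟨A, B, hA, hB, zA, zB, hAB⟩ :=
    isOpen_prod_iff.mp isClosed_closure.isOpen_compl z z h1
  refine ⟨A ∩ B ∩ (U ∩ (chartAt ℂ z).source),
    (hA.inter hB).inter (h.oU.inter (chartAt ℂ z).open_source),
    ⟨⟨zA, zB⟩, hz, mem_chart_source ℂ z⟩, fun a ha => ha.2.1, fun a ha => ha.2.2, ?_⟩
  intro a ha b hb hab
  exact hAB (mk_mem_prod ha.1.1 hb.1.2) (subset_closure hab)

end

theorem Glue.exists_plumbed {M : Type} [TopologicalSpace M] [ChartedSpace ℂ M] [T2Space M]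
    {U O Cp : Set M} {g : M → M} (h : Glue U O g Cp) :
    ∃ (N : Type) (_ : TopologicalSpace N) (_ : ChartedSpace ℂ N) (π : M → N) (σ : N → M),
      T2Space N ∧ CompactSpace N ∧ ConnectedSpace N ∧ Plumbed U O g π σ := by
  classical
  obtain ⟨z0, hz0⟩ := h.conn.nonempty
  have : Nonempty M := ⟨z0⟩
  let π : M → Quotient h.pb1S := fun z =>
    if hz : z ∈ U then Quotient.mk h.pb1S ⟨z, hz⟩ else Quotient.mk h.pb1S ⟨z0, hz0⟩
  have hπ : ∀ a : U, π a.1 = Quotient.mk h.pb1S a := fun a => dif_pos a.2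
  let σ : Quotient h.pb1S → M := fun n => (Quotient.out n).1
  have mem : ∀ n, σ n ∈ U := fun n => (Quotient.out n).2
  have sec : ∀ n, π (σ n) = n := fun n => (hπ _).trans (Quotient.out_eq n)
  have cont : ContinuousOn π U := by
    rw [continuousOn_iff_continuous_domRestrict]
    have : U.domRestrict π = Quotient.mk h.pb1S := funext hπ
    rw [this]
    exact continuous_quot_mk
  have opn : ∀ V ⊆ U, IsOpen V → IsOpen (π '' V) := by
    intro V hVU hV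
    have : π '' V = Quotient.mk h.pb1S '' (Subtype.val ⁻¹' V) := by
      ext n
      constructor
      · rintro ⟨z, hz, rfl⟩
        exact ⟨⟨z, hVU hz⟩, hz, (hπ ⟨z, hVU hz⟩).symm⟩
      · rintro ⟨a, ha, rfl⟩
        exact ⟨a.1, ha, hπ a⟩
    rw [this]
    exact h.pb1_open _ (hV.preimage continuous_subtype_val)
  have eq : ∀ z ∈ U, ∀ z' ∈ U, π z = π z' ↔ z = z' ∨ (z ∈ O ∧ z' = g z) := by
    intro z hz z' hz'
    rw [hπ ⟨z, hz⟩, hπ ⟨z', hz'⟩]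
    exact h.pb1_eq _ _
  have key : ∀ n : Quotient h.pb1S, ∃ e : OpenPartialHomeomorph M (Quotient h.pb1S),
      (e : M → Quotient h.pb1S) = π ∧ σ n ∈ e.source ∧ e.source ⊆ U := by
    intro n
    obtain ⟨V, hV, zV, VU, -, hn⟩ := h.pb1_nhd (mem n)
    have inj : InjOn π V := fun a ha b hb e =>
      ((eq a (VU ha) b (VU hb)).mp e).resolve_right (hn a ha b hb)
    refine ⟨OpenPartialHomeomorph.ofContinuousOpenRestrict (inj.toPartialEquiv π V)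
      (cont.mono VU) ?_ hV, rfl, zV, VU⟩
    intro W hW
    have hW' : IsOpen (Subtype.val '' W) := hV.isOpenMap_subtype_val W hW
    have := opn _ ((Subtype.coe_image_subset V W).trans VU) hW'
    rwa [image_image] at this
  choose e he1 he2 he3 using key
  have hs : ∀ n, (e n).symm n = σ n := fun n => by
    have := (e n).left_inv (he2 n)
    rwa [he1, sec] at this
  have ht : ∀ n, n ∈ (e n).target := fun n => by
    have := (e n).map_source (he2 n)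
    rwa [he1, sec] at this
  let cs : ChartedSpace ℂ (Quotient h.pb1S) :=
    { atlas := range fun n => (e n).symm.trans (chartAt ℂ (σ n))
      chartAt := fun n => (e n).symm.trans (chartAt ℂ (σ n))
      mem_chart_source := fun n => ⟨ht n, by
        show (e n).symm n ∈ (chartAt ℂ (σ n)).source
        rw [hs]
        exact mem_chart_source ℂ _⟩
      chart_mem_atlas := fun n => ⟨n, rfl⟩ }
  refine ⟨Quotient h.pb1S, inferInstance, cs, π, σ, h.pb1_t2, ⟨?_⟩, ?_,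
    cont, opn, eq, mem, sec, fun n => ?_, fun n w hw => ⟨hw.1, he3 n hw.2, ?_⟩,
    fun _ ⟨n, hn⟩ => ⟨n, hn.symm⟩⟩
  · have : π '' Cp = univ := by
      refine eq_univ_of_forall fun n => ?_
      rcases h.cover _ (mem n) with h1 | ⟨h1, h2⟩
      · exact ⟨_, h1, sec n⟩
      · exact ⟨_, h2, ((eq _ (mem n) _ (h.cpU h2)).mpr (Or.inr ⟨h1, rfl⟩)).symm.trans (sec n)⟩
    rw [← this]
    exact h.cpt.image_of_continuousOn (cont.mono h.cpU)
  · have : π '' U = univ := eq_univ_of_forall fun n => ⟨_, mem n, sec n⟩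
    rw [connectedSpace_iff_univ, ← this]
    exact h.conn.image π cont
  · show chartAt ℂ (σ n) ((e n).symm n) = _
    rw [hs]
  · show e n ((chartAt ℂ (σ n)).symm w) = _
    rw [he1]

end Pool.Agent.MP_92463a_gt

end
end
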