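import Pool.Agent.Mg.F92463a.Gc0a48f
import Pool.Agent.Mg.F92463a.G156f76
import Pool.Agent.Mg.F92463a.Gea0143
import Pool.Agent.Mg.F92463a.Gc45d39
import Pool.Agent.Mg.F92463a.G2abf78
import Pool.Agent.Mg.F92463a.G6119f0

section

open Set Complex Filter Metric
open scoped Topology ComplexConjugate ContDiff Manifold

noncomputable section

namespace Pool.Agent.MP_92463a_gt

namespace Wd

variable {ι : Type} [Fintype ι] {W : Wd ι}

theorem WGl1_lt (h : W.Ok0) {e : ι × Bool} {v : ℂ} (hv : v ∈ W.Ann e) : ‖v‖ < 2 * W.ρ e := by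
  have := h.pl.ρ_pos e
  have := hv.2
  linarith

theorem WGl1_P0 : W.D.P (W.D.tt OnePoint.infty) = 0 :=
  Dat.P_eq_zero.2 (Or.inl (Or.inl rfl))

theorem WGl1_ne (h : W.Ok0) {e : ι × Bool} {z : W.D.N} (hz : ‖W.D.tt z - W.c e‖ < 2 * W.ρ e) :
    z ≠ OnePoint.infty := by
  rintro rfl
  exact (h.zero_far WGl1_P0 e).not_gt hz

theorem WGl1_g (h : W.Ok0) {e : ι × Bool} {z : W.D.N} (hz : W.D.tt z - W.c e ∈ W.Ann e) :
    W.g z = W.D.pt (W.c (op e) + W.s e.1 / (W.D.tt z - W.c e))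
      (W.D.yy z / W.yb e (W.D.tt z - W.c e) * W.yb (op e) (W.s e.1 / (W.D.tt z - W.c e))) := by
  have hex : ∃ e, W.D.tt z - W.c e ∈ W.Ann e := ⟨e, hz⟩
  have he : hex.choose = e := h.pl.port_eq (WGl1_lt h hex.choose_spec) (WGl1_lt h hz)
  rw [g, dif_pos hex, he]

theorem WGl1_eps (h : W.Ok0) {e : ι × Bool} {z : W.D.N} (hz : ‖W.D.tt z - W.c e‖ < 2 * W.ρ e) :
    W.D.yy z / W.yb e (W.D.tt z - W.c e) = 1 ∨ W.D.yy z / W.yb e (W.D.tt z - W.c e) = -1 := by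
  have h1 := h.ysq e _ (mem_ball_zero_iff.2 hz)
  rw [add_sub_cancel, ← Dat.yy_sq] at h1
  rw [← sq_eq_one_iff, div_pow, ← h1, div_self (pow_ne_zero _ (h.yb_ne hz))]

theorem WGl1_sq (h : W.Ok0) {e : ι × Bool} {v : ℂ} (hv : ‖v‖ < 2 * W.ρ e) {ε : ℂ}
    (hε : ε = 1 ∨ ε = -1) : (ε * W.yb e v) ^ 2 = W.D.P (W.c e + v) := by
  rw [← h.ysq e v (mem_ball_zero_iff.2 hv)]
  rcases hε with rfl | rfl <;> ring

theorem WGl1_open (e : ι × Bool) : IsOpen (({OnePoint.infty}ᶜ : Set W.D.N) ∩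
    W.D.tt ⁻¹' {t | t - W.c e ∈ W.Ann e}) :=
  Dat.tt_cont.isOpen_inter_preimage OnePoint.isClosed_infty.isOpen_compl
    ((Pl.isOpen_ann e).preimage (continuous_id.sub continuous_const))

theorem WGl1_closed (e : ι × Bool) :
    IsClosed {z : W.D.N | z ≠ OnePoint.infty ∧ ‖W.D.tt z - W.c e‖ ≤ W.ρ e} := by
  have h1 : IsOpen (({OnePoint.infty}ᶜ : Set W.D.N) ∩ W.D.tt ⁻¹' {t | W.ρ e < ‖t - W.c e‖}) :=
    Dat.tt_cont.isOpen_inter_preimage OnePoint.isClosed_infty.isOpen_compl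
      (isOpen_lt continuous_const (continuous_id.sub continuous_const).norm)
  rw [← isOpen_compl_iff]
  convert (Dat.Pt_open (‖W.c e‖ + W.ρ e)).union h1 using 1
  ext z
  by_cases hz : z = OnePoint.infty
  · simp [hz]
  simp only [mem_compl_iff, mem_setOf_eq, ne_eq, hz, not_false_eq_true, true_and, not_le,
    mem_union, false_or, mem_inter_iff, mem_singleton_iff, mem_preimage]
  refine ⟨Or.inr, fun h => h.elim (fun h => ?_) id⟩
  have := norm_sub_norm_le (W.D.tt z) (W.c e)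
  linarith

theorem Ok0.g_pt (h : W.Ok0) {e : ι × Bool} {v : ℂ} (hv : v ∈ W.Ann e) {ε : ℂ}
    (hε : ε = 1 ∨ ε = -1) :
    W.D.pt (W.c e + v) (ε * W.yb e v) ∈ W.O ∧ W.g (W.D.pt (W.c e + v) (ε * W.yb e v)) =
      W.D.pt (W.c (op e) + W.s e.1 / v) (ε * W.yb (op e) (W.s e.1 / v)) := by
  have hs := WGl1_sq h (WGl1_lt h hv) hε
  have h1 : W.D.tt (W.D.pt (W.c e + v) (ε * W.yb e v)) - W.c e = v := by
    rw [Dat.tt_pt hs, add_sub_cancel_left]
  have h2 : W.D.tt (W.D.pt (W.c e + v) (ε * W.yb e v)) - W.c e ∈ W.Ann e := by rwa [h1]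
  refine ⟨⟨e, h2⟩, ?_⟩
  rw [WGl1_g h h2, h1, Dat.yy_pt hs, mul_div_cancel_right₀ _ (h.yb_ne (WGl1_lt h hv))]

theorem Ok0.mem_O (h : W.Ok0) {z : W.D.N} (hz : z ∈ W.O) : ∃ e, ∃ v ∈ W.Ann e, ∃ ε : ℂ,
    (ε = 1 ∨ ε = -1) ∧ z = W.D.pt (W.c e + v) (ε * W.yb e v) := by
  obtain ⟨e, he⟩ := hz
  have h1 := WGl1_lt h he
  refine ⟨e, _, he, _, WGl1_eps h h1, ?_⟩
  rw [add_sub_cancel, div_mul_cancel₀ _ (h.yb_ne h1), Dat.pt_tt (WGl1_ne h h1)]

theorem Ok0.sq_pt (h : W.Ok0) {e : ι × Bool} {v : ℂ} (hv : ‖v‖ < 2 * W.ρ e) {ε : ℂ}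
    (hε : ε = 1 ∨ ε = -1) : (ε * W.yb e v) ^ 2 = W.D.P (W.c e + v) :=
  WGl1_sq h hv hε

theorem Ok0.S_mem (h : W.Ok0) {z : W.D.N} (hz : z ∈ W.D.S) : z ∈ W.U ∧ z ∉ W.O := by
  have h0 : W.D.P (W.D.tt z) = 0 := Dat.P_eq_zero.2 (Or.inl (Dat.mem_S.1 hz))
  exact ⟨(h.zero_fd h0).2, fun ⟨e, he⟩ => (h.zero_far h0 e).not_gt (WGl1_lt h he)⟩

theorem Ok0.isOpen_U (h : W.Ok0) : IsOpen W.U := by
  obtain ⟨R, hR⟩ := Pl.om_far (P := W.toPl)
  have h1 : IsOpen (({OnePoint.infty}ᶜ : Set W.D.N) ∩ W.D.tt ⁻¹' W.Om) :=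
    Dat.tt_cont.isOpen_inter_preimage OnePoint.isClosed_infty.isOpen_compl Pl.isOpen_om
  convert (Dat.Pt_open R).union h1 using 1
  ext z
  refine ⟨fun hz => ?_, ?_⟩
  · by_cases h2 : z = OnePoint.infty
    · exact Or.inl (Or.inl h2)
    · exact Or.inr ⟨h2, hz⟩
  · rintro ((rfl | h2) | h2)
    · exact (h.zero_fd WGl1_P0).2
    · exact (hR _ h2).2
    · exact h2.2

theorem Ok0.isOpen_O (h : W.Ok0) : IsOpen W.O := by
  convert isOpen_iUnion fun e => WGl1_open (W := W) e using 1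
  ext z
  simp only [mem_iUnion]
  exact ⟨fun ⟨e, he⟩ => ⟨e, WGl1_ne h (WGl1_lt h he), he⟩, fun ⟨e, he⟩ => ⟨e, he.2⟩⟩

theorem Ok0.isCompact_Cp (h : W.Ok0) : IsCompact W.Cp := by
  have h1 : IsOpen (({OnePoint.infty}ᶜ : Set W.D.N) ∩ W.D.tt ⁻¹' W.Fdᶜ) :=
    Dat.tt_cont.isOpen_inter_preimage OnePoint.isClosed_infty.isOpen_compl
      Pl.isClosed_fd.isOpen_compl
  refine IsClosed.isCompact ?_
  rw [← isOpen_compl_iff]
  convert h1 using 1
  ext z
  refine ⟨fun hz => ⟨?_, hz⟩, fun hz => hz.2⟩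
  rintro rfl
  exact hz (h.zero_fd WGl1_P0).1

theorem Ok0.g_cont (h : W.Ok0) : ContinuousOn W.g W.O := by
  rintro z ⟨e, he⟩
  set V := ({OnePoint.infty}ᶜ : Set W.D.N) ∩ W.D.tt ⁻¹' {t | t - W.c e ∈ W.Ann e}
  have hv : ContinuousOn (fun z => W.D.tt z - W.c e) V :=
    (Dat.tt_cont.mono inter_subset_left).sub continuousOn_const
  have hs : ContinuousOn (fun z => W.s e.1 / (W.D.tt z - W.c e)) V :=
    continuousOn_const.div hv fun z hz => h.pl.ann_ne hz.2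
  have h1 : ContinuousOn (fun z => W.yb e (W.D.tt z - W.c e)) V :=
    (h.yhol e).continuousOn.comp hv fun z hz => mem_ball_zero_iff.2 (WGl1_lt h hz.2)
  have h2 : ContinuousOn (fun z => W.yb (op e) (W.s e.1 / (W.D.tt z - W.c e))) V :=
    (h.yhol (op e)).continuousOn.comp hs fun z hz =>
      mem_ball_zero_iff.2 (WGl1_lt h (h.pl.ann_op hz.2))
  have h3 := Dat.pt_cont (D := W.D) (continuousOn_const.add hs (f := fun _ => W.c (op e)))
    (((Dat.yy_cont.mono inter_subset_left).div h1 fun z hz => h.yb_ne (WGl1_lt h hz.2)).mul h2)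
    fun z hz => WGl1_sq h (WGl1_lt h (h.pl.ann_op hz.2)) (WGl1_eps h (WGl1_lt h hz.2))
  have h4 : ContinuousOn W.g V := h3.congr fun z hz => WGl1_g h hz.2
  exact (h4.continuousAt ((WGl1_open e).mem_nhds
    ⟨WGl1_ne h (WGl1_lt h he), he⟩)).continuousWithinAt

theorem Ok0.g_closed (h : W.Ok0) : ∀ z ∈ W.U, ∀ z' ∈ W.U,
    (z, z') ∈ closure {x : W.D.N × W.D.N | x.1 ∈ W.O ∧ x.2 = W.g x.1} → z ∈ W.O ∧ z' = W.g z := by
  intro z hz z' hz' hc
  let A : ι × Bool → Set W.D.N := fun e =>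
    {z | z ≠ OnePoint.infty ∧ ‖W.D.tt z - W.c e‖ ≤ W.ρ e}
  have hK : IsClosed (⋃ e, (A e ×ˢ A (op e)) ∩ (fun x : W.D.N × W.D.N =>
      (W.D.tt x.1 - W.c e) * (W.D.tt x.2 - W.c (op e))) ⁻¹' {W.s e.1}) := by
    refine isClosed_iUnion_of_finite fun e => ContinuousOn.preimage_isClosed_of_isClosed ?_
      ((WGl1_closed e).prod (WGl1_closed (op e))) isClosed_singleton
    exact ((Dat.tt_cont.comp continuousOn_fst fun x hx => hx.1.1).sub continuousOn_const).mul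
      ((Dat.tt_cont.comp continuousOn_snd fun x hx => hx.2.1).sub continuousOn_const)
  have hO : z ∈ W.O := by
    obtain ⟨e, ⟨-, -⟩, h3⟩ := mem_iUnion.1 (closure_minimal (fun x hx => by
      obtain ⟨⟨e, he⟩, hx⟩ := hx
      have h1 := h.pl.ann_op he
      have h2 : W.D.tt x.2 - W.c (op e) = W.s e.1 / (W.D.tt x.1 - W.c e) := by
        rw [hx, WGl1_g h he, Dat.tt_pt (WGl1_sq h (WGl1_lt h h1) (WGl1_eps h (WGl1_lt h he))),
          add_sub_cancel_left]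
      refine mem_iUnion.2 ⟨e, ⟨⟨WGl1_ne h (WGl1_lt h he), he.2.le⟩,
        WGl1_ne h (e := op e) (by rw [h2]; exact WGl1_lt h h1), by rw [h2]; exact h1.2.le⟩, ?_⟩
      change _ * _ = _
      rw [h2, mul_div_cancel₀ _ (h.pl.ann_ne he)]) hK hc)
    have h4 : ‖W.D.tt z - W.c e‖ * ‖W.D.tt z' - W.c (op e)‖ = W.rin (op e) * W.ρ e := by
      have := h.pl.rin_mul (op e)
      rw [op_op, op_fst] at this
      rw [this, ← norm_mul]
      exact congrArg norm h3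
    have h5 := hz e
    have h6 := hz' (op e)
    have h7 := h.pl.rin_pos e
    have h8 := h.pl.rin_pos (op e)
    refine ⟨e, h5, ?_⟩
    by_contra h9
    have := h.pl.ρ_pos e
    nlinarith [not_lt.1 h9]
  refine ⟨hO, ?_⟩
  have := Dat.t2 (D := W.D)
  have h1 : ContinuousAt (fun x : W.D.N × W.D.N => (x.2, W.g x.1)) (z, z') :=
    continuousAt_snd.prodMk (ContinuousAt.comp (g := W.g)
      (h.g_cont.continuousAt (h.isOpen_O.mem_nhds hO)) continuousAt_fst)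
  have h2 := h1.continuousWithinAt.mem_closure hc (t := diagonal W.D.N) fun x hx => hx.2
  rwa [isClosed_diagonal.closure_eq] at h2

end Wd

end Pool.Agent.MP_92463a_gt

end
end

section

open Set Complex Filter Metric
open scoped Topology ComplexConjugate ContDiff Manifold

noncomputable section

namespace Pool.Agent.MP_92463a_gt

namespace Wd

variable {ι : Type} [Fintype ι] {W : Wd ι}

theorem Ok0.conn_U (h : W.Ok0) : IsConnected W.U := by
  have h0 : W.D.P 0 = 0 := by simp [Dat.P]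
  have hf : Continuous fun t : ℂ => (t.re : ℂ) + (|t.im| : ℝ) * I := by fun_prop
  have hH : IsPreconnected ({t : ℂ | 0 ≤ t.im} ∩ W.Om) := by
    have h1 := (h.pl.preconn finite_empty).image _ hf.continuousOn
    rw [sdiff_empty] at h1
    convert h1 using 1
    ext t
    constructor
    · exact fun ht => ⟨t, ht.2, by simp only [abs_of_nonneg (show 0 ≤ t.im from ht.1), re_add_im]⟩
    · rintro ⟨u, hu, rfl⟩
      refine ⟨by simp, ?_⟩
      rcases le_total 0 u.im with c | c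
      · simpa only [abs_of_nonneg c, re_add_im] using hu
      · convert h.sy.om hu using 1
        apply Complex.ext <;> simp [abs_of_nonpos c]
  have y0 : Conn_Y W.D 0 = 0 := if_pos h0
  have hc : ContinuousOn (Conn_Y W.D) ({t : ℂ | 0 ≤ t.im} ∩ W.Om) :=
    (Conn_cont W.D).mono inter_subset_left
  have hs := Conn_sq W.D
  have hs' : ∀ t, conj (Conn_Y W.D t) ^ 2 = W.D.P (conj t) := fun t => by
    rw [← map_pow, hs, Dat.P_conj]
  have key : ∀ T Yl : ℂ → ℂ, Continuous T → ContinuousOn Yl ({t : ℂ | 0 ≤ t.im} ∩ W.Om) →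
      (∀ t, Yl t ^ 2 = W.D.P (T t)) → T 0 = 0 → Yl 0 = 0 → (∀ t ∈ W.Om, T t ∈ W.Om) →
      ∀ t ∈ {t : ℂ | 0 ≤ t.im} ∩ W.Om, ∃ s ⊆ W.U \ {OnePoint.infty}, W.D.pt 0 0 ∈ s ∧
        W.D.pt (T t) (Yl t) ∈ s ∧ IsPreconnected s := fun T Yl a1 a2 a3 a4 a5 a6 t ht =>
    ⟨(fun t => W.D.pt (T t) (Yl t)) '' ({t : ℂ | 0 ≤ t.im} ∩ W.Om), by
      rintro _ ⟨u, hu, rfl⟩
      exact ⟨show W.D.tt _ ∈ W.Om by rw [Dat.tt_pt (a3 u)]; exact a6 u hu.2, Dat.pt_ne (a3 u)⟩,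
    ⟨0, ⟨le_refl (0 : ℝ), (h.zero_fd h0).2⟩, by simp only [a4, a5]⟩, ⟨t, ht, rfl⟩,
      hH.image _ (Dat.pt_cont a1.continuousOn a2 fun t _ => a3 t)⟩
  have hV : IsPreconnected (W.U \ {OnePoint.infty}) := by
    refine isPreconnected_of_forall (W.D.pt 0 0) fun z hz => ?_
    have h1 := Dat.pt_tt hz.2
    have h2 := Dat.yy_sq z
    rcases le_total 0 (W.D.tt z).im with c | c
    · rcases sq_eq_sq_iff_eq_or_eq_neg.1 (h2.trans (hs _).symm) with h3 | h3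
      · simpa only [id, ← h3, h1] using key id _ continuous_id hc hs rfl y0 (fun _ a => a) _ ⟨c, hz.1⟩
      · simpa only [id, ← h3, h1] using key id (fun t => -Conn_Y W.D t) continuous_id hc.neg
          (fun t => (neg_sq _).trans (hs t)) rfl (by simp [y0]) (fun _ a => a) _ ⟨c, hz.1⟩
    · have h4 := hs' (conj (W.D.tt z))
      rw [conj_conj] at h4
      have h5 : conj (W.D.tt z) ∈ {t : ℂ | 0 ≤ t.im} ∩ W.Om := ⟨by simpa using c, h.sy.om hz.1⟩
      have h6 := continuous_conj.comp_continuousOn hc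
      rcases sq_eq_sq_iff_eq_or_eq_neg.1 (h2.trans h4.symm) with h3 | h3
      · simpa only [conj_conj, ← h3, h1] using key conj (fun t => conj (Conn_Y W.D t))
          continuous_conj h6 hs' (map_zero _) (by simp [y0]) (fun _ a => h.sy.om a) _ h5
      · simpa only [conj_conj, ← h3, h1] using key conj (fun t => -conj (Conn_Y W.D t))
          continuous_conj h6.neg (fun t => (neg_sq _).trans (hs' t)) (map_zero _) (by simp [y0])
          (fun _ a => h.sy.om a) _ h5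
  refine ⟨⟨OnePoint.infty, show W.D.tt _ ∈ W.Om by rw [Dat.tt_infty]; exact (h.zero_fd h0).2⟩,
    hV.subset_closure sdiff_subset fun z hz => ?_⟩
  by_cases hi : z = OnePoint.infty
  · subst hi
    obtain ⟨R, hR⟩ := Pl.om_far (P := W.toPl)
    have h1 : Tendsto (fun n : ℕ => ‖(n : ℂ)‖) atTop atTop := by
      simpa using tendsto_natCast_atTop_atTop (R := ℝ)
    refine mem_closure_of_tendsto (Dat.pt_tendsto (l := atTop) (T := fun n : ℕ => (n : ℂ))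
      (Yl := fun n => Conn_Y W.D n) (Eventually.of_forall fun n => hs _) h1) ?_
    filter_upwards [h1.eventually_gt_atTop R] with n hn
    exact ⟨show W.D.tt _ ∈ W.Om by rw [Dat.tt_pt (hs _)]; exact (hR _ hn).2, Dat.pt_ne (hs _)⟩
  · exact subset_closure ⟨hz, hi⟩

theorem Ok0.WGl2_lt (h : W.Ok0) {e : ι × Bool} {v : ℂ} (hv : v ∈ W.Ann e) : ‖v‖ < 2 * W.ρ e :=
  (h.pl.ann_sub e hv).2

/-- the chart at a point of a neck -/
theorem Ok0.WGl2_chart (h : W.Ok0) (A : W.D.Atl) {e : ι × Bool} {v : ℂ} (hv : v ∈ W.Ann e) {ε : ℂ}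
    (hε : ε = 1 ∨ ε = -1) {z : W.D.N} (hz : z = W.D.pt (W.c e + v) (ε * W.yb e v)) :
    ∀ᶠ w in 𝓝 (0 : ℂ), v + w ∈ W.Ann e ∧ w ∈ (A.ch z).target ∧
      (A.ch z).symm w = W.D.pt (W.c e + (v + w)) (ε * W.yb e (v + w)) := by
  have h1 := h.sq_pt (h.WGl2_lt hv) hε
  have h2 : W.D.tt z = W.c e + v := by rw [hz, Dat.tt_pt h1]
  have h3 : W.D.yy z = ε * W.yb e v := by rw [hz, Dat.yy_pt h1]
  have h4 : ε * W.yb e v ≠ 0 :=
    mul_ne_zero (by rcases hε with rfl | rfl <;> simp) (h.yb_ne (h.WGl2_lt hv))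
  obtain ⟨k, H, k0, he⟩ := A.Gen2_k1 (h3 ▸ h4)
  rw [h2] at H he
  have hb := ball_mem_nhds (0 : ℂ) H.pos
  have h5 : Tendsto (fun w : ℂ => v + w) (𝓝 0) (𝓝 v) :=
    (continuous_const.add continuous_id).tendsto' _ _ (add_zero v)
  have h6 : Tendsto (fun w => k w + ε * W.yb e (v + w)) (𝓝 0) (𝓝 (k 0 + ε * W.yb e v)) :=
    (H.hol.differentiableAt hb).continuousAt.tendsto.add ((((h.yhol e).differentiableAt
      (isOpen_ball.mem_nhds (mem_ball_zero_iff.2 (h.WGl2_lt hv)))).continuousAt.tendsto.comp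
        h5).const_mul ε)
  filter_upwards [hb, h5.eventually ((Pl.isOpen_ann e).mem_nhds hv), h6.eventually_ne
    (show _ ≠ 0 by rw [k0, h3, ← two_mul]; exact mul_ne_zero two_ne_zero h4)] with w a1 a2 a3
  refine ⟨a2, A.tgt z ▸ a1, ?_⟩
  have a4 := H.sq w a1
  rw [add_assoc, ← h.sq_pt (h.WGl2_lt a2) hε] at a4
  rw [he w a1, add_assoc, (sq_eq_sq_iff_eq_or_eq_neg.1 a4).resolve_right
    fun c => a3 (by rw [c, neg_add_cancel])]

/-- the gluing map in the charts -/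
theorem Ok0.g_chart (h : W.Ok0) (A : W.D.Atl) {e : ι × Bool} {v : ℂ} (hv : v ∈ W.Ann e) {ε : ℂ}
    (hε : ε = 1 ∨ ε = -1) {z : W.D.N} (hz : z = W.D.pt (W.c e + v) (ε * W.yb e v)) :
    ∀ᶠ w in 𝓝 (0 : ℂ), A.ch (W.g z) (W.g ((A.ch z).symm w)) = W.s e.1 / (v + w) - W.s e.1 / v := by
  have h1 : Tendsto (fun w => W.s e.1 / (v + w) - W.s e.1 / v) (𝓝 0) (𝓝 0) := by
    have h2 : ContinuousAt (fun w => W.s e.1 / (v + w) - W.s e.1 / v) 0 := by
      have := h.pl.ann_ne hv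
      fun_prop (disch := simpa)
    simpa [ContinuousAt] using h2
  have h2 := h.WGl2_chart A (h.pl.ann_op hv) hε (z := W.g z) (hz ▸ (h.g_pt hv hε).2)
  filter_upwards [h.WGl2_chart A hv hε hz, h1.eventually h2] with w a b
  rw [add_sub_cancel] at b
  rw [a.2.2, (h.g_pt a.1 hε).2, ← b.2.2, (A.ch _).right_inv b.2.1]

theorem Ok0.tr_g (h : W.Ok0) (A : W.D.Atl) {e : ι × Bool} {v : ℂ} (hv : v ∈ W.Ann e) {ε : ℂ}
    (hε : ε = 1 ∨ ε = -1) {z : W.D.N} (hz : z = W.D.pt (W.c e + v) (ε * W.yb e v)) :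
    letI := A.charted
    tr W.g z (W.g z) = -(W.s e.1 / v ^ 2) := by
  have h0 := h.pl.ann_ne hv
  have h1 : HasDerivAt (fun w => W.s e.1 / (v + w) - W.s e.1 / v) (-(W.s e.1 / v ^ 2)) 0 := by
    refine (((hasDerivAt_const (0 : ℂ) (W.s e.1)).div ((hasDerivAt_id (0 : ℂ)).const_add v)
      (by simpa using h0)).sub_const _).congr_deriv ?_
    simp [neg_div]
  show deriv (A.ch (W.g z) ∘ W.g ∘ (A.ch z).symm) (A.ch z z) = _
  rw [A.ctr, ← h1.deriv]
  exact EventuallyEq.deriv_eq (h.g_chart A hv hε hz)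

theorem Ok0.glue (h : W.Ok0) (A : W.D.Atl) :
    letI := A.charted
    Glue W.U W.O W.g W.Cp := by
  have ht : ∀ {e v ε}, v ∈ W.Ann e → (ε = 1 ∨ ε = -1) →
      W.D.tt (W.D.pt (W.c e + v) (ε * W.yb e v)) = W.c e + v :=
    fun hv hε => Dat.tt_pt (h.sq_pt (h.WGl2_lt hv) hε)
  refine @Glue.mk _ _ A.charted _ _ _ _ h.isOpen_U h.isOpen_O ?_ (fun z hz => ?_) (fun z hz => ?_)
    (fun z hz c => ?_) h.g_cont (fun z hz => ?_) h.g_closed h.isCompact_Cp
    (fun z hz => h.pl.fd_sub hz) (fun z hz => ?_) h.conn_U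
  · rintro z ⟨e, he⟩
    show W.D.tt z ∈ W.Om
    simpa using h.pl.ann2_mem (h.pl.ann_sub e he)
  · obtain ⟨e, v, hv, ε, hε, rfl⟩ := h.mem_O hz
    rw [(h.g_pt hv hε).2]
    exact (h.g_pt (h.pl.ann_op hv) hε).1
  · obtain ⟨e, v, hv, ε, hε, rfl⟩ := h.mem_O hz
    rw [(h.g_pt hv hε).2, (h.g_pt (h.pl.ann_op hv) hε).2, op_op, op_fst,
      div_div_cancel₀ (h.pl.s_ne _)]
  · obtain ⟨e, v, hv, ε, hε, rfl⟩ := h.mem_O hz
    have h1 := congrArg W.D.tt c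
    rw [(h.g_pt hv hε).2, ht hv hε, ht (h.pl.ann_op hv) hε] at h1
    refine op_ne e (h.pl.port_eq (t := W.c e + v) ?_ (by simpa using h.WGl2_lt hv))
    rw [← h1]
    simpa using h.WGl2_lt (h.pl.ann_op hv)
  · obtain ⟨e, v, hv, ε, hε, hz'⟩ := h.mem_O hz
    show AnalyticAt ℂ (A.ch (W.g z) ∘ W.g ∘ (A.ch z).symm) (A.ch z z)
    rw [A.ctr]
    refine AnalyticAt.congr (f := fun w => W.s e.1 / (v + w) - W.s e.1 / v) ?_
      (EventuallyEq.symm (h.g_chart A hv hε hz'))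
    have := h.pl.ann_ne hv
    fun_prop (disch := simpa)
  · rcases h.pl.cover hz with c | ⟨e, v, hv, h1, -, -, h2⟩
    · exact Or.inl c
    have h3 : z ∈ W.O := ⟨e, by rw [h1]; simpa using hv⟩
    refine Or.inr ⟨h3, ?_⟩
    obtain ⟨e', v', hv', ε, hε, rfl⟩ := h.mem_O h3
    rw [ht hv' hε] at h1
    obtain rfl : e' = e := h.pl.port_eq (t := W.c e' + v') (by simpa using h.WGl2_lt hv')
      (by rw [h1]; simpa using h.WGl2_lt hv)
    obtain rfl := add_left_cancel h1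
    show W.D.tt _ ∈ W.Fd
    rwa [(h.g_pt hv' hε).2, ht (h.pl.ann_op hv') hε]

end Wd

end Pool.Agent.MP_92463a_gt

end
end

section

open Set Complex Filter Metric
open scoped Topology ComplexConjugate ContDiff Manifold

noncomputable section

namespace Pool.Agent.MP_92463a_gt

/-- functions of growth `t ^ (N - 1)` -/
def FsA_gr (N : ℕ) : Submodule ℂ (ℂ → ℂ) where
  carrier := {f | ∃ C R : ℝ, ∀ t, R ≤ ‖t‖ → ‖f t‖ * ‖t‖ ≤ C * ‖t‖ ^ N}
  add_mem' := by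
    rintro f g ⟨C, R, a4⟩ ⟨C', R', b4⟩
    refine ⟨C + C', max R R', fun t ht => ?_⟩
    have h1 := a4 t ((le_max_left _ _).trans ht)
    have h2 := b4 t ((le_max_right _ _).trans ht)
    have h3 := mul_le_mul_of_nonneg_right (norm_add_le (f t) (g t)) (norm_nonneg t)
    simp only [Pi.add_apply]
    linarith
  zero_mem' := ⟨0, 0, fun t _ => by simp⟩
  smul_mem' := by
    rintro a f ⟨C, R, a4⟩
    refine ⟨‖a‖ * C, R, fun t ht => ?_⟩
    simp only [Pi.smul_apply, smul_eq_mul, norm_mul, mul_assoc]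
    exact mul_le_mul_of_nonneg_left (a4 t ht) (norm_nonneg a)

theorem FsA_gr_sum {κ : Type} (s : Finset κ) {N : ℕ} {q : κ → ℂ → ℂ}
    (hq : ∀ i ∈ s, q i ∈ FsA_gr N) : (fun t => ∑ i ∈ s, q i t) ∈ FsA_gr N := by
  have := Submodule.sum_mem (FsA_gr N) hq
  rwa [Finset.sum_fn] at this

theorem FsA_gr_pow {N k : ℕ} (hk : k < N) (a : ℂ) : (fun t => a * t ^ k) ∈ FsA_gr N := by
  refine ⟨‖a‖, 1, fun t ht => ?_⟩
  rw [norm_mul, norm_pow, mul_assoc, ← pow_succ]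
  exact mul_le_mul_of_nonneg_left (pow_le_pow_right₀ ht hk) (norm_nonneg a)

theorem FsA_gr_dec {N : ℕ} {q : ℂ → ℂ} {c : ℂ} {K R : ℝ} (hK : 0 ≤ K)
    (hq : ∀ t, R ≤ ‖t - c‖ → ‖q t‖ ≤ K / ‖t - c‖) : q ∈ FsA_gr N := by
  refine ⟨2 * K, max (max 1 (2 * ‖c‖)) (R + ‖c‖), fun t ht => ?_⟩
  have h1 : 1 ≤ ‖t‖ := ((le_max_left _ _).trans (le_max_left _ _)).trans ht
  have h2 : 2 * ‖c‖ ≤ ‖t‖ := ((le_max_right _ _).trans (le_max_left _ _)).trans ht
  have h3 : R + ‖c‖ ≤ ‖t‖ := (le_max_right _ _).trans ht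
  have h4 := norm_sub_norm_le t c
  have h5 := (le_div_iff₀ (by linarith)).1 (hq t (by linarith))
  have h6 : 2 * K ≤ 2 * K * ‖t‖ ^ N := le_mul_of_one_le_right (by linarith) (one_le_pow₀ h1)
  have h7 : ‖q t‖ * ‖t‖ ≤ ‖q t‖ * (2 * ‖t - c‖) :=
    mul_le_mul_of_nonneg_left (by linarith) (norm_nonneg _)
  linarith

theorem FsA_bd {g : ℂ → ℂ} {R : ℝ} (hg : ContinuousOn g {v | ‖v‖ = R}) :
    ∃ M, 0 ≤ M ∧ ∀ v, ‖v‖ = R → ‖g v‖ ≤ M := by
  have e : {v : ℂ | ‖v‖ = R} = sphere 0 R := by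
    ext v
    simp
  obtain ⟨M, hM⟩ := (e ▸ isCompact_sphere (0 : ℂ) R).exists_bound_of_continuousOn hg
  exact ⟨max M 0, le_max_right _ _, fun v hv => (hM v hv).trans (le_max_left _ _)⟩

namespace Pl

variable {ι : Type} [Fintype ι] {P : Pl ι} {m : ι × Bool → ℂ → ℂ} {r : ι × Bool → ℂ} {N : ℕ}

/-- the weighted residue -/
def wr (P : Pl ι) (m : ι × Bool → ℂ → ℂ) (f : ℂ → ℂ) (e : ι × Bool) : ℂ :=
  av (P.ρ e) fun v => m e v * f (P.c e + v) * v

/-- the sum of the principal parts -/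
def FsA_T (P : Pl ι) (m : ι × Bool → ℂ → ℂ) (r α : ι × Bool → ℂ) (f : ℂ → ℂ) (t : ℂ) : ℂ :=
  ∑ e, α e / (t - P.c e) + ∑ e, P.pk (P.k2 m r) f e t

omit [Fintype ι] in
theorem FsA_rin_lt (h : P.Ok) (e : ι × Bool) : P.rin e < P.mu e ∧ P.mu e < P.ρ e := by
  have h1 := h.rin_pos e
  have h2 := h.rin_mu e
  have h3 := h.mu_ρ e
  constructor <;> linarith

omit [Fintype ι] in
theorem FsA_loc (h : P.Ok) {f : ℂ → ℂ} (hf : DifferentiableOn ℂ f P.Om) (e : ι × Bool) :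
    DifferentiableOn ℂ (fun v => f (P.c e + v)) (P.Ann2 e) :=
  hf.comp (by fun_prop) fun _ hv => h.ann2_mem hv

omit [Fintype ι] in
theorem FsA_circ (h : P.Ok) {f : ℂ → ℂ} (hf : DifferentiableOn ℂ f P.Om) (e : ι × Bool) :
    ContinuousOn (fun v => f (P.c e + v)) {v | ‖v‖ = P.ρ e} :=
  (FsA_loc h hf e).continuousOn.mono fun _ hv => h.circ_mem hv

omit [Fintype ι] in
theorem FsA_g (h : P.Ok) (hm : P.Wt m) {f : ℂ → ℂ} (hf : DifferentiableOn ℂ f P.Om)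
    (e : ι × Bool) : DifferentiableOn ℂ (fun v => m e v * f (P.c e + v) * v) (P.Ann2 e) :=
  (((hm.hol e).mono fun _ hv => mem_ball_zero_iff.2 hv.2).mul (FsA_loc h hf e)).mul
    differentiableOn_id

omit [Fintype ι] in
theorem FsA_wr_mu (h : P.Ok) (hm : P.Wt m) {f : ℂ → ℂ} (hf : DifferentiableOn ℂ f P.Om)
    (e : ι × Bool) : av (P.mu e) (fun v => m e v * f (P.c e + v) * v) = P.wr m f e := by
  obtain ⟨h1, h2⟩ := FsA_rin_lt h e
  have h3 := h.ρ_pos e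
  exact av_radius (h.rin_pos e).le (FsA_g h hm hf e) h1 (by linarith) (h1.trans h2) (by linarith)

omit [Fintype ι] in
theorem FsA_wr_op (h : P.Ok) (hm : P.Wt m) {f : ℂ → ℂ} (hf : DifferentiableOn ℂ f P.Om)
    (e : ι × Bool) : av (P.mu e) (fun v => r e / v ^ 2 *
      (m (op e) (P.s e.1 / v) * f (P.c (op e) + P.s e.1 / v)) * v) =
      r e / P.s e.1 * P.wr m f (op e) := by
  have h0 : 0 < P.mu e := (h.rin_pos e).trans (FsA_rin_lt h e).1
  have hs := h.s_ne e.1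
  have e1 : ‖P.s e.1‖ / P.mu e = P.mu (op e) := by
    rw [← h.mu_mul e, mul_div_cancel_left₀ _ h0.ne']
  rw [← FsA_wr_mu h hm hf (op e), ← av_const_mul, ← e1, ← av_inv hs h0]
  refine av_congr h0.le fun v hv => ?_
  have hv0 : v ≠ 0 := norm_pos_iff.1 (hv ▸ h0)
  field_simp

omit [Fintype ι] in
/-- the Laurent splitting of the transported function -/
theorem FsA_laurent (h : P.Ok) (hm : P.Wt m) {f : ℂ → ℂ} (hf : DifferentiableOn ℂ f P.Om)
    (e : ι × Bool) : ∃ H : ℂ → ℂ, DifferentiableOn ℂ H (ball 0 (P.ρ e)) ∧ ∀ u ∈ P.Ann e,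
      r e / u ^ 2 * (m (op e) (P.s e.1 / u) * f (P.c (op e) + P.s e.1 / u)) =
        m e u * (H u + P.pk (P.k2 m r) f e (P.c e + u) + r e / P.s e.1 * P.wr m f (op e) / u) := by
  have hs := h.s_ne e.1
  have hρ := h.ρ_pos e
  have hρ' := h.ρ_pos (op e)
  have hi := h.rin_pos (op e)
  have e1 : ‖P.s e.1‖ / P.rin (op e) = P.ρ e := by
    have := h.rin_mul (op e)
    rw [op_op, op_fst] at this
    rw [← this, mul_div_cancel_left₀ _ hi.ne']
  have hlt : ∀ v ∈ P.Ann2 (op e), v ≠ 0 ∧ ‖P.s e.1 / v‖ < 2 * P.ρ e := fun v hv => by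
    have h0 : 0 < ‖v‖ := hi.trans hv.1
    refine ⟨norm_pos_iff.1 h0, ?_⟩
    have : ‖P.s e.1‖ / ‖v‖ ≤ ‖P.s e.1‖ / P.rin (op e) :=
      div_le_div_of_nonneg_left (norm_nonneg _) hi hv.1.le
    rw [norm_div]
    linarith
  have hd : DifferentiableOn ℂ (fun v => P.s e.1 / v) (P.Ann2 (op e)) :=
    (differentiableOn_const _).div differentiableOn_id fun v hv => (hlt v hv).1
  have hmi : DifferentiableOn ℂ (fun v => m e (P.s e.1 / v)) (P.Ann2 (op e)) :=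
    (hm.hol e).comp hd fun v hv => mem_ball_zero_iff.2 (hlt v hv).2
  have hg := (FsA_g h hm hf (op e)).const_mul (r e / P.s e.1)
  have hk := hg.div hmi fun v hv => (hm.ne (hlt v hv).2).1
  obtain ⟨h1, h2⟩ := FsA_rin_lt h (op e)
  obtain ⟨H, hH, hu⟩ := laurent (R := P.ρ (op e)) hs hi (h1.trans h2) (by linarith) hk
  rw [e1] at hH hu
  refine ⟨H, hH, fun u hu' => ?_⟩
  have hu0 := h.ann_ne hu'
  have hm0 : m e u ≠ 0 := (hm.ne (by linarith [hu'.2])).1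
  have h3 := hu u hu'.1 hu'.2
  have hsub : {v : ℂ | ‖v‖ = P.ρ (op e)} ⊆ P.Ann2 (op e) := fun v hv => h.circ_mem hv
  have hne : ∀ v ∈ {v : ℂ | ‖v‖ = P.ρ (op e)}, u - P.s e.1 / v ≠ 0 := fun v hv e0 => by
    have := h.circ_rin hv
    rw [← sub_eq_zero.1 e0] at this
    exact hu'.1.ne' this
  have c1 := (hk.continuousOn.mono hsub).div
    (continuousOn_const.sub (hd.continuousOn.mono hsub)) hne
  have c2 := (hg.continuousOn.mono hsub).const_smul u⁻¹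
  have h4 := av_sub hρ'.le c1 c2
  have h5 : P.pk (P.k2 m r) f e (P.c e + u) = _ := (av_congr hρ'.le fun v hv => ?_).trans h4
  · simp only [Pi.div_apply] at h3
    rw [div_div_cancel₀ hs] at h3
    have h6 : av (P.ρ (op e)) (u⁻¹ • fun v => r e / P.s e.1 *
        (m (op e) v * f (P.c (op e) + v) * v)) = u⁻¹ * (r e / P.s e.1 * P.wr m f (op e)) := by
      rw [wr, ← av_const_mul, ← av_const_mul]
      rfl
    rw [h5, h6]
    have h7 : ∀ x y z : ℂ, x + (y - u⁻¹ * z) + z / u = x + y := fun x y z => by ring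
    rw [h7]
    erw [← h3]
    field_simp
  · have := hne v hv
    have := (hm.ne (hlt v (hsub hv)).2).1
    simp only [k2, add_sub_cancel_left, Pi.div_apply, Pi.smul_apply, smul_eq_mul, Pi.sub_apply]
    field_simp

theorem FsA_T_hol (h : P.Ok) (hm : P.Wt m) {f : ℂ → ℂ} (α : ι × Bool → ℂ)
    (hf : ∀ e, ContinuousOn (fun v => f (P.c e + v)) {v | ‖v‖ = P.ρ e}) :
    DifferentiableOn ℂ (P.FsA_T m r α f) P.Om :=
  (DifferentiableOn.fun_sum fun e _ => (differentiableOn_const _).div (by fun_prop)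
    fun t (ht : t ∈ P.Om) => norm_pos_iff.1 ((h.rin_pos e).trans (ht e))).add
    (DifferentiableOn.fun_sum fun e _ => (pk2_hol h hm (hf _)).mono fun _ ht => ht e)

theorem FsA_T_gr (h : P.Ok) (hm : P.Wt m) {f : ℂ → ℂ} (α : ι × Bool → ℂ)
    (hf : ∀ e, ContinuousOn (fun v => f (P.c e + v)) {v | ‖v‖ = P.ρ e}) :
    P.FsA_T m r α f ∈ FsA_gr N := by
  refine add_mem (FsA_gr_sum _ fun e _ => FsA_gr_dec (c := P.c e) (R := 0) (norm_nonneg (α e))
    fun t _ => (norm_div _ _).le) (FsA_gr_sum _ fun e _ => ?_)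
  obtain ⟨M, hM, hb⟩ := FsA_bd (hf (op e))
  have h1 := h.ρ_pos e
  have h2 := h.rin_pos e
  refine FsA_gr_dec (c := P.c e) (R := 2 * P.rin e)
    (K := 12 * ‖r e‖ * M * ((P.ρ e)⁻¹ + (2 * P.rin e)⁻¹)) (by positivity) fun t ht =>
    (pk2_bd h hm hb ht).trans ?_
  gcongr

theorem FsA_T_loc (h : P.Ok) (hm : P.Wt m) {f : ℂ → ℂ} (α : ι × Bool → ℂ)
    (hf : ∀ e, ContinuousOn (fun v => f (P.c e + v)) {v | ‖v‖ = P.ρ e}) (e : ι × Bool) :
    ∃ O : ℂ → ℂ, DifferentiableOn ℂ O (ball 0 (P.ρ e)) ∧ ∀ u, P.FsA_T m r α f (P.c e + u) =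
      α e / u + P.pk (P.k2 m r) f e (P.c e + u) + O u := by
  classical
  have hfar : ∀ e' ∈ Finset.univ.erase e, ∀ u ∈ ball (0 : ℂ) (P.ρ e),
      P.rin e' < ‖P.c e + u - P.c e'‖ := fun e' he' u hu => by
    have h1 := mem_ball_zero_iff.1 hu
    have h2 := h.far (Finset.ne_of_mem_erase he').symm (v := u) (by linarith [h.ρ_pos e])
    obtain ⟨h3, h4⟩ := FsA_rin_lt h e'
    linarith [h.ρ_pos e']
  refine ⟨fun u => ∑ e' ∈ Finset.univ.erase e, α e' / (P.c e + u - P.c e') +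
    ∑ e' ∈ Finset.univ.erase e, P.pk (P.k2 m r) f e' (P.c e + u), ?_, fun u => ?_⟩
  · exact (DifferentiableOn.fun_sum fun e' he' => (differentiableOn_const _).div (by fun_prop)
      fun u hu => norm_pos_iff.1 ((h.rin_pos e').trans (hfar e' he' u hu))).add
      (DifferentiableOn.fun_sum fun e' he' => (pk2_hol h hm (hf _)).comp (by fun_prop)
        fun u hu => hfar e' he' u hu)
  · rw [FsA_T, ← Finset.add_sum_erase _ _ (Finset.mem_univ e),
      ← Finset.add_sum_erase _ (fun e' => P.pk (P.k2 m r) f e' (P.c e + u)) (Finset.mem_univ e),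
      add_sub_cancel_left]
    ring

theorem fs_rep (h : P.Ok) (hm : P.Wt m) {f : ℂ → ℂ} (hf : f ∈ P.Fs m r N) :
    (∀ e, P.wr m f e = r e / P.s e.1 * P.wr m f (op e)) ∧
    ∃ a : ℕ → ℂ, ∀ t ∈ P.Om, f t = ∑ k ∈ Finset.range N, a k * t ^ k +
      ∑ e, P.wr m f e / (t - P.c e) + ∑ e, P.pk (P.k2 m r) f e t := by
  obtain ⟨hd, -, hM, hg⟩ := hf
  have hw : ∀ e, P.wr m f e = r e / P.s e.1 * P.wr m f (op e) := fun e => by
    rw [← FsA_wr_op h hm hd e, ← FsA_wr_mu h hm hd e]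
    obtain ⟨h1, h2⟩ := FsA_rin_lt h e
    refine av_congr ((h.rin_pos e).trans h1).le fun v hv => ?_
    rw [hM e v ⟨hv ▸ h1, hv ▸ h2⟩]
  refine ⟨hw, ?_⟩
  have hc := FsA_circ h hd
  choose H hH eH using FsA_laurent (r := r) h hm hd
  choose O hO eO using FsA_T_loc (r := r) h hm (P.wr m f) hc
  obtain ⟨F, hF, eF⟩ := fill_discs (V := univ) isOpen_univ (c := P.c) (r := P.rin) (ρ := P.ρ)
    (fun e => (FsA_rin_lt h e).1.trans (FsA_rin_lt h e).2)
    (fun e e' hne => by linarith [h.sep e e' hne, h.ρ_pos e, h.ρ_pos e'])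
    (f := fun t => f t - P.FsA_T m r (P.wr m f) f t)
    ((hd.sub (FsA_T_hol h hm _ hc)).mono inter_subset_right) (h := fun e u => H e u - O e u)
    (fun e => (hH e).sub (hO e)) fun e v h1 h2 _ => by
      have h3 := (hM e v ⟨h1, h2⟩).trans (eH e v ⟨h1, h2⟩)
      have h4 := mul_left_cancel₀ (hm.ne (e := e) (by linarith [h.ρ_pos e])).1 h3
      rw [eO, h4, ← hw]
      ring
  obtain ⟨C, R, hC⟩ := sub_mem (show f ∈ FsA_gr N from hg) (FsA_T_gr (r := r) h hm (P.wr m f) hc)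
  obtain ⟨R', hR'⟩ := om_far (P := P)
  obtain ⟨a, ha⟩ := poly_growth (differentiableOn_univ.1 hF) N (C := C) (r := max R (R' + 1))
    fun z hz => by
      rw [eF z trivial (hR' z (by linarith [le_max_right R (R' + 1)])).2]
      exact hC z ((le_max_left _ _).trans hz)
  refine ⟨a, fun t ht => ?_⟩
  rw [← ha, eF t trivial ht, FsA_T]
  ring

/-- a solution of the fixed point equation is matched -/
theorem FsA_match (h : P.Ok) (hm : P.Wt m) (hrr : ∀ e, r e * r (op e) = P.s e.1 ^ 2)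
    {α : ι × Bool → ℂ} (hα : ∀ e, α e = r e / P.s e.1 * α (op e)) {f Q : ℂ → ℂ}
    (hd : DifferentiableOn ℂ f P.Om) (hQ : Differentiable ℂ Q)
    (hf : ∀ t ∈ P.Om, f t = Q t + P.FsA_T m r α f t) :
    (∀ e, P.wr m f e = α e) ∧ P.Mt 2 m r f := by
  have hc := FsA_circ h hd
  choose H hH eH using FsA_laurent (r := r) h hm hd
  choose O hO eO using FsA_T_loc (r := r) h hm α hc
  have hmb : ∀ e, DifferentiableOn ℂ (m e) (ball 0 (P.ρ e)) := fun e =>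
    (hm.hol e).mono (ball_subset_ball (by linarith [h.ρ_pos e]))
  have hE : ∀ e, DifferentiableOn ℂ (fun u => Q (P.c e + u) + O e u - H e u) (ball 0 (P.ρ e)) :=
    fun e => (DifferentiableOn.add (by fun_prop) (hO e)).sub (hH e)
  have hD : ∀ e, ∀ u ∈ P.Ann e, m e u * f (P.c e + u) -
      r e / u ^ 2 * (m (op e) (P.s e.1 / u) * f (P.c (op e) + P.s e.1 / u)) =
      m e u * (Q (P.c e + u) + O e u - H e u) +
        m e u * (α e - r e / P.s e.1 * P.wr m f (op e)) / u := fun e u hu => by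
    rw [eH e u hu, hf _ (h.ann2_mem (h.ann_sub e hu)), eO]
    ring
  have hw : ∀ e, P.wr m f e = α e := fun e => by
    obtain ⟨h1, h2⟩ := FsA_rin_lt h e
    have h0 := (h.rin_pos e).trans h1
    have hsub : {v : ℂ | ‖v‖ = P.mu e} ⊆ P.Ann e := fun v hv =>
      ⟨(show ‖v‖ = P.mu e from hv) ▸ h1, (show ‖v‖ = P.mu e from hv) ▸ h2⟩
    have hb := (((hmb e).mul (hE e)).mul differentiableOn_id).add
      ((hmb e).mul_const (α e - r e / P.s e.1 * P.wr m f (op e)))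
    have c1 := (FsA_g h hm hd e).continuousOn.mono (hsub.trans (h.ann_sub e))
    have c2 := hb.continuousOn.mono fun v hv => mem_ball_zero_iff.2 (hsub hv).2
    have h3 := av_sub h0.le c1 c2
    rw [FsA_wr_mu h hm hd, av_center h0.le h2 hb] at h3
    have h4 := (FsA_wr_op (r := r) h hm hd e).symm.trans
      ((av_congr h0.le fun v hv => ?_).trans h3)
    · simp only [Pi.add_apply, Pi.mul_apply, id, hm.zero] at h4
      linear_combination -h4
    · have h5 := hD e v (hsub hv)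
      have h6 := h.ann_ne (hsub hv)
      simp only [Pi.add_apply, Pi.mul_apply, id]
      rw [← sub_eq_zero] at h5 ⊢
      rw [← neg_eq_zero, ← mul_eq_zero_iff_right h6] at h5
      rw [← h5]
      field_simp
      ring
  refine ⟨hw, fun e v hv => ?_⟩
  have hD' : ∀ e, ∀ u ∈ P.Ann e, m e u * (Q (P.c e + u) + O e u - H e u) = m e u * f (P.c e + u) -
      r e / u ^ 2 * (m (op e) (P.s e.1 / u) * f (P.c (op e) + P.s e.1 / u)) := fun e u hu => by
    rw [hD e u hu, hw, ← hα, sub_self, mul_zero, zero_div, add_zero]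
  have hs := h.s_ne e.1
  have h1 := liouville_glue (a := -r e) two_pos (h.ρ_pos (op e)) hs
    (by linarith [h.s_small e, norm_pos_iff.2 hs]) ((hmb e).mul (hE e))
    ((hmb (op e)).mul (hE (op e))) (fun u h1 h2 => ?_) v (mem_ball_zero_iff.2 hv.2)
  · exact sub_eq_zero.1 ((hD' e v hv).symm.trans h1)
  · have hu : u ∈ P.Ann e := ⟨h1, h2⟩
    have hu0 := h.ann_ne hu
    have e1 : r (op e) / (P.s e.1 / u) ^ 2 * (r e / u ^ 2) = 1 := by
      field_simp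
      linear_combination hrr e
    simp only [Pi.mul_apply]
    rw [hD' e u hu, hD' _ _ (h.ann_op hu), op_op, op_fst, div_div_cancel₀ hs]
    linear_combination -(m e u * f (P.c e + u)) * e1

theorem fs_ex (h : P.Ok) (hm : P.Wt m) (hr : P.Con2 r)
    (hrr : ∀ e, r e * r (op e) = P.s e.1 ^ 2) (a : ℕ → ℂ) {α : ι × Bool → ℂ}
    (hα : ∀ e, α e = r e / P.s e.1 * α (op e)) :
    ∃ f ∈ P.Fs m r N, (∀ e, P.wr m f e = α e) ∧
      ∀ t ∈ P.Om, f t = ∑ k ∈ Finset.range N, a k * t ^ k +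
        ∑ e, α e / (t - P.c e) + ∑ e, P.pk (P.k2 m r) f e t := by
  classical
  set Q : ℂ → ℂ := fun t => ∑ k ∈ Finset.range N, a k * t ^ k with hQ
  have hQd : Differentiable ℂ Q := by
    rw [hQ]
    fun_prop
  have hFd : DifferentiableOn ℂ (fun t => Q t + ∑ e, α e / (t - P.c e)) P.Om :=
    hQd.differentiableOn.add (DifferentiableOn.fun_sum fun e _ => (differentiableOn_const _).div
      (by fun_prop) fun t ht => norm_pos_iff.1 ((h.rin_pos e).trans (ht e)))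
  choose M hM bM using fun e => FsA_bd (FsA_circ h hFd e)
  have hF : P.FB (fun t => Q t + ∑ e, α e / (t - P.c e)) (∑ e, M e) fun _ => 1 := fun e =>
    ⟨FsA_circ h hFd e, fun v hv => (bM e v hv).trans ((Finset.single_le_sum (fun i _ => hM i)
      (Finset.mem_univ e)).trans (mul_one _).ge)⟩
  have hk := k2_kb h hm hr
  have hc := fun e => (psi_fb h hk hF e).1
  have he := psi_eq h hk hF
  generalize P.psi (P.k2 m r) (fun t => Q t + ∑ e, α e / (t - P.c e)) = ψ at hc he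
  have he' : ψ = Q + P.FsA_T m r α ψ := funext fun t => (he t).trans (add_assoc _ _ _)
  have hT : P.FsA_T m r α (P.Om.indicator ψ) = P.FsA_T m r α ψ := funext fun t => by
    refine congrArg _ (Finset.sum_congr rfl fun e _ => av_congr (h.ρ_pos _).le fun v hv => ?_)
    rw [indicator_of_mem (h.ann2_mem (h.circ_mem hv))]
  have hψ : DifferentiableOn ℂ ψ P.Om := by
    rw [he']
    exact hQd.differentiableOn.add (FsA_T_hol h hm α hc)
  have hd : DifferentiableOn ℂ (P.Om.indicator ψ) P.Om := hψ.congr fun t ht => indicator_of_mem ht _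
  have hf : ∀ t ∈ P.Om, P.Om.indicator ψ t = Q t + P.FsA_T m r α (P.Om.indicator ψ) t :=
    fun t ht => by rw [hT, indicator_of_mem ht]; exact congrFun he' t
  obtain ⟨h1, h2⟩ := FsA_match h hm hrr hα hd hQd hf
  obtain ⟨C, R, hC⟩ : ψ ∈ FsA_gr N := by
    rw [he']
    exact add_mem (FsA_gr_sum _ fun k hk => FsA_gr_pow (Finset.mem_range.1 hk) _)
      (FsA_T_gr h hm α hc)
  exact ⟨_, ⟨hd, fun t ht => indicator_of_notMem ht _, h2, C, R, fun t ht =>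
    (mul_le_mul_of_nonneg_right (norm_indicator_le_norm_self _ _) (norm_nonneg _)).trans
      (hC t ht)⟩, h1, fun t ht => (hf t ht).trans (add_assoc _ _ _).symm⟩

end Pl

end Pool.Agent.MP_92463a_gt

end
end

section

open Set Complex Filter Metric
open scoped Topology ComplexConjugate ContDiff Manifold

noncomputable section

namespace Pool.Agent.MP_92463a_gt

namespace Pl

variable {ι : Type} [Fintype ι] {P : Pl ι} {m : ι × Bool → ℂ → ℂ} {r : ι × Bool → ℂ}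

omit [Fintype ι] in
theorem FsB_cont (h : P.Ok) {N : ℕ} {f : ℂ → ℂ} (hf : f ∈ P.Fs m r N) (e : ι × Bool) :
    ContinuousOn (fun v => f (P.c e + v)) {v | ‖v‖ = P.ρ e} :=
  hf.1.continuousOn.comp (by fun_prop) fun _ hv => h.ann2_mem (h.circ_mem hv)

omit [Fintype ι] in
theorem FsB_mcont (h : P.Ok) (hm : P.Wt m) (e : ι × Bool) :
    ContinuousOn (m e) {v | ‖v‖ = P.ρ e} :=
  (hm.hol e).continuousOn.mono fun _ hv => mem_ball_zero_iff.2 (h.circ_mem hv).2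

/-- the weighted residue as a linear form -/
def FsB_wr (h : P.Ok) (hm : P.Wt m) (r : ι × Bool → ℂ) (N : ℕ) (e : ι × Bool) :
    P.Fs m r N →ₗ[ℂ] ℂ where
  toFun f := P.wr m f e
  map_add' f g := by
    have h1 := ((FsB_mcont h hm e).mul (FsB_cont h f.2 e)).mul continuousOn_id
    have h2 := ((FsB_mcont h hm e).mul (FsB_cont h g.2 e)).mul continuousOn_id
    refine Eq.trans ?_ (av_add (h.ρ_pos e).le h1 h2)
    refine av_congr (h.ρ_pos e).le fun v _ => ?_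
    simp only [Submodule.coe_add, Pi.add_apply]
    ring
  map_smul' a f := by
    refine Eq.trans ?_ (av_const_mul a)
    refine av_congr (h.ρ_pos e).le fun v _ => ?_
    simp only [Submodule.coe_smul, Pi.smul_apply, smul_eq_mul]
    ring

/-- the principal part as a linear form -/
def FsB_pk (h : P.Ok) (hm : P.Wt m) (hr : P.Con2 r) (N : ℕ) (e : ι × Bool) (t : P.Om) :
    P.Fs m r N →ₗ[ℂ] ℂ where
  toFun f := P.pk (P.k2 m r) f e t
  map_add' f g := by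
    have h0 : ContinuousOn (fun v => P.k2 m r e v (t - P.c e)) {v | ‖v‖ = P.ρ (op e)} :=
      ((k2_kb h hm hr).cont e).comp (f := fun v => (v, (t : ℂ) - P.c e)) (by fun_prop)
        fun v hv => ⟨hv, t.2 e⟩
    have h1 := h0.mul (FsB_cont h f.2 (op e))
    have h2 := h0.mul (FsB_cont h g.2 (op e))
    refine Eq.trans ?_ (av_add (h.ρ_pos _).le h1 h2)
    refine av_congr (h.ρ_pos _).le fun v _ => ?_
    simp only [Submodule.coe_add, Pi.add_apply]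
    ring
  map_smul' a f := by
    refine Eq.trans ?_ (av_const_mul a)
    refine av_congr (h.ρ_pos _).le fun v _ => ?_
    simp only [Submodule.coe_smul, Pi.smul_apply, smul_eq_mul]
    ring

/-- the polynomial part and the free residues -/
def FsB_T (h : P.Ok) (hm : P.Wt m) (hr : P.Con2 r) (N : ℕ) :
    P.Fs m r N →ₗ[ℂ] (P.Om → ℂ) × (ι → ℂ) :=
  LinearMap.prod
    (LinearMap.pi fun t => (LinearMap.proj (t : ℂ)).comp (P.Fs m r N).subtype -
      ∑ e, ((t : ℂ) - P.c e)⁻¹ • FsB_wr h hm r N e - ∑ e, FsB_pk h hm hr N e t)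
    (LinearMap.pi fun k => FsB_wr h hm r N (k, false))

theorem FsB_T_apply (h : P.Ok) (hm : P.Wt m) (hr : P.Con2 r) (N : ℕ) (f : P.Fs m r N) :
    FsB_T h hm hr N f = (fun t : P.Om => (f : ℂ → ℂ) t - ∑ e, P.wr m f e / ((t : ℂ) - P.c e) -
      ∑ e, P.pk (P.k2 m r) f e t, fun k => P.wr m f (k, false)) := by
  refine Prod.ext (funext fun t => ?_) rfl
  simp only [FsB_T, LinearMap.prod_apply, Function.prod, LinearMap.pi_apply, LinearMap.sub_apply,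
    LinearMap.sum_apply, LinearMap.smul_apply, smul_eq_mul, div_eq_inv_mul]
  rfl

/-- polynomials of degree `< N` as functions on the domain -/
def FsB_Q (P : Pl ι) (N : ℕ) : (Fin N → ℂ) →ₗ[ℂ] (P.Om → ℂ) :=
  LinearMap.pi fun t => ∑ k : Fin N, ((t : ℂ) ^ (k : ℕ)) • LinearMap.proj k

omit [Fintype ι] in
theorem FsB_Q_apply (N : ℕ) (a : Fin N → ℂ) (t : P.Om) :
    FsB_Q P N a t = ∑ k : Fin N, a k * (t : ℂ) ^ (k : ℕ) := by
  simp [FsB_Q, mul_comm]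

theorem FsB_inf : P.Om.Infinite := by
  obtain ⟨R, hR⟩ := om_far (P := P)
  refine (infinite_of_injective_forall_mem (f := fun n : ℕ => ((|R| + 1 + n : ℝ) : ℂ))
    (fun a b e => ?_) fun n => (hR _ ?_).2)
  · simpa using e
  · rw [norm_real, Real.norm_of_nonneg (by positivity)]
    linarith [le_abs_self R, Nat.cast_nonneg (α := ℝ) n]

theorem FsB_Q_inj (N : ℕ) : Function.Injective (FsB_Q P N) := by
  rw [injective_iff_map_eq_zero]
  intro a ha
  have h2 : ∑ k : Fin N, Polynomial.monomial (k : ℕ) (a k) = 0 := by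
    refine Polynomial.eq_zero_of_infinite_isRoot _ ((FsB_inf (P := P)).mono fun t ht => ?_)
    have := congrFun ha ⟨t, ht⟩
    rw [FsB_Q_apply] at this
    simpa [Polynomial.eval_finsetSum] using this
  funext k
  have h3 := congrArg (Polynomial.coeff · k) h2
  simpa [Polynomial.coeff_monomial, Fin.val_inj] using h3

theorem FsB_T_inj (h : P.Ok) (hm : P.Wt m) (hr : P.Con2 r) (N : ℕ) :
    Function.Injective (FsB_T h hm hr N) := by
  rw [injective_iff_map_eq_zero]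
  intro f hf
  rw [FsB_T_apply, Prod.mk_eq_zero] at hf
  have h1 : ∀ e, P.wr m f e = 0 := by
    rintro ⟨k, _ | _⟩
    · exact congrFun hf.2 k
    · rw [(fs_rep h hm f.2).1]
      exact mul_eq_zero_of_right _ (congrFun hf.2 k)
  have h2 : ∀ t ∈ P.Om, (f : ℂ → ℂ) t = ∑ e, P.pk (P.k2 m r) f e t := fun t ht => by
    have := congrFun hf.1 ⟨t, ht⟩
    simpa [h1, sub_eq_zero] using this
  have h3 : P.FB (fun _ => 0) 0 fun _ => 1 := fun e => ⟨continuousOn_const, fun v _ => by simp⟩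
  have h4 : ∀ e v, ‖v‖ = P.ρ e → (f : ℂ → ℂ) (P.c e + v) = 0 := fun e v hv => by
    rw [psi_uniq h (k2_kb h hm hr) h3 (FsB_cont h f.2)
      (fun e v hv => by rw [zero_add, h2 _ (h.ann2_mem (h.circ_mem hv))]) e v hv]
    simpa using (psi_fb h (k2_kb h hm hr) h3 e).2 v hv
  refine Subtype.ext (funext fun t => ?_)
  by_cases ht : t ∈ P.Om
  · rw [h2 t ht]
    refine Finset.sum_eq_zero fun e _ => Eq.trans ?_ (av_const (R := P.ρ (op e)) 0)
    exact av_congr (h.ρ_pos _).le fun v hv => by rw [h4 _ v hv, mul_zero]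
  · exact f.2.2.1 t ht

theorem FsB_range (h : P.Ok) (hm : P.Wt m) (hr : P.Con2 r)
    (hrr : ∀ e, r e * r (op e) = P.s e.1 ^ 2) (N : ℕ) :
    LinearMap.range (FsB_T h hm hr N) =
      LinearMap.range ((FsB_Q P N).prodMap (LinearMap.id : (ι → ℂ) →ₗ[ℂ] (ι → ℂ))) := by
  apply le_antisymm
  · rintro _ ⟨f, rfl⟩
    obtain ⟨a, ha⟩ := (fs_rep h hm f.2).2
    refine ⟨(fun k => a k, fun k => P.wr m f (k, false)), ?_⟩
    rw [FsB_T_apply]
    refine Prod.ext (funext fun t => ?_) rfl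
    change FsB_Q P N (fun k => a k) t = _
    rw [FsB_Q_apply, Fin.sum_univ_eq_sum_range (fun k => a k * (t : ℂ) ^ k)]
    simp only [ha t t.2]
    ring
  · rintro _ ⟨⟨a, β⟩, rfl⟩
    obtain ⟨f, hf, h1, h2⟩ := fs_ex (N := N) h hm hr hrr
      (fun k => if hk : k < N then a ⟨k, hk⟩ else 0)
      (α := fun e => if e.2 then r e / P.s e.1 * β e.1 else β e.1) (by
        rintro ⟨k, _ | _⟩
        · have h1 := hrr (k, false)
          have h2 := h.s_ne k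
          simp only [op, Bool.not_false, Bool.false_eq_true, if_false, if_true] at h1 ⊢
          field_simp
          rw [← h1, mul_assoc]
        · simp [op])
    refine ⟨⟨f, hf⟩, ?_⟩
    rw [FsB_T_apply]
    refine Prod.ext (funext fun t => ?_) (funext fun k => by simp [h1])
    change _ = FsB_Q P N a t
    rw [FsB_Q_apply]
    simp only [h1, h2 t t.2, ← Fin.sum_univ_eq_sum_range (fun k =>
      (if hk : k < N then a ⟨k, hk⟩ else 0) * (t : ℂ) ^ k), Fin.is_lt, dif_pos]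
    ring

theorem fs_finrank (h : P.Ok) (hm : P.Wt m) (hr : P.Con2 r)
    (hrr : ∀ e, r e * r (op e) = P.s e.1 ^ 2) (N : ℕ) :
    Module.Finite ℂ (P.Fs m r N) ∧ Module.finrank ℂ (P.Fs m r N) = N + Fintype.card ι := by
  have hQ : Function.Injective
      ((FsB_Q P N).prodMap (LinearMap.id : (ι → ℂ) →ₗ[ℂ] (ι → ℂ))) :=
    (FsB_Q_inj N).prodMap Function.injective_id
  have E := (LinearEquiv.ofInjective _ hQ).trans ((LinearEquiv.ofEq _ _
    (FsB_range h hm hr hrr N).symm).trans (LinearEquiv.ofInjective _ (FsB_T_inj h hm hr N)).symm)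
  refine ⟨Module.Finite.equiv E, ?_⟩
  rw [← E.finrank_eq, Module.finrank_prod, Module.finrank_fin_fun,
    Module.finrank_fintype_fun_eq_card]

theorem FsB_diff {u w : ℂ} {T : ℝ} (hT : 0 < T) (h1 : T ≤ ‖u‖) (h2 : T ≤ ‖u - w‖) :
    ‖(u - w)⁻¹ - u⁻¹‖ ≤ ‖w‖ / T ^ 2 := by
  have hu : u ≠ 0 := norm_pos_iff.1 (hT.trans_le h1)
  have hw : u - w ≠ 0 := norm_pos_iff.1 (hT.trans_le h2)
  have e : (u - w)⁻¹ - u⁻¹ = w / (u * (u - w)) := by
    field_simp
    ring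
  rw [e, norm_div, norm_mul, sq]
  gcongr

theorem fs_decay (h : P.Ok) {f : ℂ → ℂ} (hf : f ∈ P.Fs (fun _ _ => 1) (fun e => -P.s e.1) 0) :
    ∃ C R : ℝ, ∀ t, R ≤ ‖t‖ → ‖f t‖ * ‖t‖ ^ 2 ≤ C := by
  obtain ⟨h1, a, h2⟩ := fs_rep h wt_one hf
  set w := P.wr (fun _ _ => 1) f
  have h3 : ∑ e, w e = 0 := by
    have e1 : ∑ e, w (op e) = ∑ e, w e :=
      Equiv.sum_comp (Function.Involutive.toPerm op op_op) w
    have e2 : ∑ e, w e = -∑ e, w (op e) := by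
      rw [← Finset.sum_neg_distrib]
      refine Finset.sum_congr rfl fun e _ => ?_
      rw [h1 e, neg_div, div_self (h.s_ne _), neg_one_mul]
    linear_combination (e2 - e1) / 2
  have h4 : ∀ e, ∃ M : ℝ, ∀ v, ‖v‖ = P.ρ e → ‖f (P.c e + v)‖ ≤ M := fun e => by
    obtain ⟨M, hM⟩ := (isCompact_sphere (0 : ℂ) (P.ρ e)).exists_bound_of_continuousOn
      ((FsB_cont h hf e).mono fun v hv => mem_sphere_zero_iff_norm.1 hv)
    exact ⟨M, fun v hv => hM v (mem_sphere_zero_iff_norm.2 hv)⟩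
  choose M hM using h4
  obtain ⟨R, hR⟩ := om_far (P := P)
  refine ⟨∑ e, (‖w e‖ * ‖P.c e‖ + P.ρ (op e) * P.rin e * M (op e)) * 4,
    |R| + 1 + 2 * ∑ e, (‖P.c e‖ + P.rin e), fun t ht => ?_⟩
  have h5 : ∀ e, 0 ≤ ‖P.c e‖ + P.rin e := fun e => add_nonneg (norm_nonneg _) (h.rin_pos e).le
  have h6 : ∀ e, ‖P.c e‖ + P.rin e ≤ ∑ e, (‖P.c e‖ + P.rin e) := fun e =>
    Finset.single_le_sum (fun e _ => h5 e) (Finset.mem_univ e)
  have h7 : 0 ≤ ∑ e, (‖P.c e‖ + P.rin e) := Finset.sum_nonneg fun e _ => h5 e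
  have h8 : 0 < ‖t‖ / 2 := by linarith [abs_nonneg R]
  have h9 : f t = ∑ e, (w e * ((t - P.c e)⁻¹ - t⁻¹) +
      P.pk (P.k2 (fun _ _ => 1) fun e => -P.s e.1) f e t) := by
    rw [h2 t (hR t (by linarith [le_abs_self R])).2]
    simp only [Finset.sum_add_distrib, mul_sub, Finset.sum_sub_distrib, ← Finset.sum_mul, h3,
      Finset.sum_range_zero, div_eq_mul_inv]
    ring
  rw [h9]
  refine (mul_le_mul_of_nonneg_right (norm_sum_le _ _) (by positivity)).trans ?_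
  rw [Finset.sum_mul]
  refine Finset.sum_le_sum fun e _ => ?_
  have g0 := h6 e
  have g1 := h.rin_pos e
  have g2 : ‖t‖ - ‖P.c e‖ ≤ ‖t - P.c e‖ := norm_sub_norm_le _ _
  have g3 := norm_nonneg (P.c e)
  have g4 := abs_nonneg R
  have b1 : ‖w e * ((t - P.c e)⁻¹ - t⁻¹)‖ ≤ ‖w e‖ * (‖P.c e‖ / (‖t‖ / 2) ^ 2) := by
    rw [norm_mul]
    exact mul_le_mul_of_nonneg_left (FsB_diff h8 (by linarith) (by linarith)) (norm_nonneg _)
  have b2 : ‖P.pk (P.k2 (fun _ _ => 1) fun e => -P.s e.1) f e t‖ ≤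
      P.ρ (op e) * (P.rin e / (‖t‖ / 2) ^ 2) * M (op e) := by
    refine av_norm_le (h.ρ_pos _).le fun v hv => ?_
    have g5 := h.circ_rin hv
    have g6 : ‖t - P.c e‖ - ‖P.s e.1 / v‖ ≤ ‖t - P.c e - P.s e.1 / v‖ := norm_sub_norm_le _ _
    have g7 := FsB_diff (u := t - P.c e) (w := P.s e.1 / v) h8 (by linarith) (by linarith)
    rw [g5] at g7
    simp only [k2, neg_div, div_self (h.s_ne _), one_mul, mul_one, norm_mul, norm_neg, norm_one, hv]
    have g8 := (h.ρ_pos (op e)).le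
    exact mul_le_mul (mul_le_mul_of_nonneg_left g7 g8) (hM _ v hv) (norm_nonneg _) (by positivity)
  refine (mul_le_mul_of_nonneg_right ((norm_add_le _ _).trans (add_le_add b1 b2))
    (by positivity)).trans (le_of_eq ?_)
  have : ‖t‖ ≠ 0 := by linarith
  field_simp
  ring

end Pl

end Pool.Agent.MP_92463a_gt

end
end

section

open Set Complex Filter Metric
open scoped Topology ComplexConjugate ContDiff Manifold

noncomputable section

namespace Pool.Agent.MP_92463a_gt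

/-- removable singularity at infinity -/
theorem WGen1_inf {f : ℂ → ℂ} {R C : ℝ} (hf : ∀ t, R < ‖t‖ → DifferentiableAt ℂ f t ∧ ‖f t‖ ≤ C) :
    ∃ k : ℂ → ℂ, AnalyticAt ℂ k 0 ∧ ∀ s, s ≠ 0 → k s = f s⁻¹ := by
  have p : 0 < max R 1 := lt_max_of_lt_right one_pos
  have hb := ball_mem_nhds (0 : ℂ) (inv_pos.2 p)
  have h1 : ∀ s ∈ ball (0 : ℂ) (max R 1)⁻¹ \ {0}, R < ‖s⁻¹‖ := fun s hs => by
    rw [norm_inv]
    exact (le_max_left R 1).trans_lt
      ((lt_inv_comm₀ (norm_pos_iff.2 hs.2) p).1 (mem_ball_zero_iff.1 hs.1))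
  have h2 := differentiableOn_update_limUnder_of_bddAbove (f := fun s => f s⁻¹) hb
    (fun s hs => ((hf _ (h1 s hs)).1.comp s (differentiableAt_inv hs.2)).differentiableWithinAt)
    ⟨C, by
      rintro _ ⟨s, hs, rfl⟩
      exact (hf _ (h1 s hs)).2⟩
  exact ⟨_, h2.analyticAt hb, fun s hs => Function.update_of_ne hs _ _⟩

theorem WGen1_one {D : Dat} (A : D.Atl) {z : D.N} (hz : D.yy z ≠ 0) :
    deriv (fun v => D.tt ((A.ch z).symm v)) 0 = 1 := by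
  obtain ⟨k, H, -, e⟩ := A.Gen2_k1 hz
  have h1 : (fun v => D.tt ((A.ch z).symm v)) =ᶠ[𝓝 0] fun v => D.tt z + v := by
    filter_upwards [ball_mem_nhds (0 : ℂ) H.pos] with v hv
    rw [e v hv, Dat.tt_pt (H.sq v hv)]
  rw [h1.deriv_eq, ((hasDerivAt_id' (0 : ℂ)).const_add _).deriv]

theorem WGen1_chain {D : Dat} (hD : D.Ok) (A : D.Atl) {z z' : D.N} (hs : z' ∈ (A.ch z).source)
    (hz : D.yy z' ≠ 0) : deriv (fun v => D.tt ((A.ch z).symm v)) (A.ch z z') *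
      deriv (A.ch z ∘ (A.ch z').symm) 0 = 1 := by
  have b0 : (0 : ℂ) ∈ (A.ch z').target := A.ctr z' ▸ (A.ch z').map_source (A.mem z')
  have e0 := A.Gen2_zero z'
  have b1 : A.ch z z' ∈ ball (0 : ℂ) (A.δ z) := A.tgt z ▸ (A.ch z).map_source hs
  have h1 : (fun v => D.tt ((A.ch z').symm v)) =ᶠ[𝓝 0]
      (fun v => D.tt ((A.ch z).symm v)) ∘ (A.ch z ∘ (A.ch z').symm) := by
    have h2 := (A.ch z').continuousAt_symm b0
    rw [ContinuousAt, e0] at h2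
    filter_upwards [h2 ((A.ch z).open_source.mem_nhds hs)] with v hv
    simp only [Function.comp_apply]
    rw [(A.ch z).left_inv hv]
  have h3 := (A.trans hD z' z (A.tgt z' ▸ b0) (by rwa [e0])).differentiableAt
  have h4 := (A.hol z b1 (by
    rw [(A.ch z).left_inv hs]
    rintro rfl
    exact hz Dat.yy_infty)).1.differentiableAt
  have h5 : (A.ch z ∘ (A.ch z').symm) 0 = A.ch z z' := by rw [Function.comp_apply, e0]
  rw [← WGen1_one A hz, h1.deriv_eq, deriv_comp _ (by rwa [h5]) h3, h5]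

theorem WGen1_loc {ι : Type} [Fintype ι] {W : Wd ι} (h : W.Ok0) (A : W.D.Atl)
    {a b : ℂ → ℂ} (ha : a ∈ W.Fs (fun _ _ => 1) (fun e => -W.s e.1) 0)
    (hb : b ∈ W.Fs W.my W.ry ((W.D.p + W.D.q) / 2)) (z : W.D.N) (hz : z ∈ W.U) :
    ∃ F : ℂ → ℂ, AnalyticAt ℂ F 0 ∧ ∀ᶠ w in 𝓝 (0 : ℂ), W.D.yy ((A.ch z).symm w) ≠ 0 →
      F w = (a (W.D.tt ((A.ch z).symm w)) +
        b (W.D.tt ((A.ch z).symm w)) / W.D.yy ((A.ch z).symm w)) *
          deriv (fun v => W.D.tt ((A.ch z).symm v)) w := by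
  have oa : ∀ t ∈ W.Om, AnalyticAt ℂ a t := fun t ht =>
    ha.1.analyticAt (Pl.isOpen_om.mem_nhds ht)
  have ob : ∀ t ∈ W.Om, AnalyticAt ℂ b t := fun t ht =>
    hb.1.analyticAt (Pl.isOpen_om.mem_nhds ht)
  have z0 := A.Gen2_zero z
  rcases A.kind z with ⟨t₀, k, H, e⟩ | ⟨x₀, k, H, e⟩ | ⟨k, H, e0, e⟩
  · have m0 := mem_ball_self (x := (0 : ℂ)) H.pos
    have n0 := ball_mem_nhds (0 : ℂ) H.pos
    have t0 : t₀ + 0 ∈ W.Om := by
      rw [← Dat.tt_pt (H.sq 0 m0), ← e 0 m0, z0]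
      exact hz
    have c : AnalyticAt ℂ (fun w : ℂ => t₀ + w) 0 := by fun_prop
    refine ⟨fun w => a (t₀ + w) + b (t₀ + w) / k w, ((oa _ t0).fun_comp_of_eq c rfl).add
      (((ob _ t0).fun_comp_of_eq c rfl).div (H.hol.analyticAt n0) (H.ne 0 m0)), ?_⟩
    filter_upwards [n0] with w hw _
    have h1 : (fun v => W.D.tt ((A.ch z).symm v)) =ᶠ[𝓝 w] fun v => t₀ + v := by
      filter_upwards [isOpen_ball.mem_nhds hw] with v hv
      rw [e v hv, Dat.tt_pt (H.sq v hv)]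
    rw [h1.deriv_eq, ((hasDerivAt_id' w).const_add t₀).deriv, e w hw, Dat.tt_pt (H.sq w hw),
      Dat.yy_pt (H.sq w hw), mul_one]
  · have n0 := ball_mem_nhds (0 : ℂ) H.pos
    have n1 := ball_mem_nhds (0 : ℂ) (pow_pos H.pos 2)
    have t0 := (h.zero_fd H.br).2
    have c : AnalyticAt ℂ (fun w : ℂ => x₀ + w ^ 2) 0 := by fun_prop
    have c' : AnalyticAt ℂ (fun w : ℂ => w ^ 2) 0 := by fun_prop
    refine ⟨fun w => a (x₀ + w ^ 2) * (2 * w) + b (x₀ + w ^ 2) * 2 / k (w ^ 2),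
      (((oa _ t0).fun_comp_of_eq c (by simp)).mul (by fun_prop)).add
      ((((ob _ t0).fun_comp_of_eq c (by simp)).mul analyticAt_const).div
        ((H.hol.analyticAt n1).fun_comp_of_eq c' (by simp))
        (H.ne _ (Dat.sq_mem_ball (mem_ball_self H.pos)))), ?_⟩
    filter_upwards [n0] with w hw h0
    have h1 : (fun v => W.D.tt ((A.ch z).symm v)) =ᶠ[𝓝 w] fun v => x₀ + v ^ 2 := by
      filter_upwards [isOpen_ball.mem_nhds hw] with v hv
      rw [e v hv, Dat.tt_pt (H.on hv).1]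
    rw [e w hw, Dat.yy_pt (H.on hw).1] at h0
    rw [h1.deriv_eq, ((hasDerivAt_pow 2 w).const_add x₀).deriv, e w hw, Dat.tt_pt (H.on hw).1,
      Dat.yy_pt (H.on hw).1]
    have h2 := left_ne_zero_of_mul h0
    have h3 := right_ne_zero_of_mul h0
    simp only [Nat.cast_ofNat, Nat.add_one_sub_one, pow_one]
    field_simp
  · obtain ⟨g, hg⟩ := h.d.par
    have hg' : (W.D.p + W.D.q) / 2 = g := by omega
    rw [hg'] at hb
    obtain ⟨R, hR⟩ := Pl.om_far (P := W.toPl)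
    obtain ⟨C₁, R₁, d₁⟩ := Pl.fs_decay h.pl ha
    obtain ⟨C₂, R₂, d₂⟩ := hb.2.2.2
    obtain ⟨k₁, a₁, b₁⟩ := WGen1_inf (f := fun t => a t * t ^ 2) (R := max R R₁) (C := C₁)
      fun t ht => ⟨(oa t (hR t (max_lt_iff.1 ht).1).2).differentiableAt.mul (by fun_prop), by
        rw [norm_mul, norm_pow]
        exact d₁ t (max_lt_iff.1 ht).2.le⟩
    obtain ⟨k₂, a₂, b₂⟩ := WGen1_inf (f := fun t => b t * t / t ^ g) (R := max (max R R₂) 0)
      (C := C₂) fun t ht => by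
        obtain ⟨h1, h2⟩ := max_lt_iff.1 ht
        refine ⟨((ob t (hR t (max_lt_iff.1 h1).1).2).differentiableAt.mul (by fun_prop)).div
          (by fun_prop) (pow_ne_zero _ (norm_pos_iff.1 h2)), ?_⟩
        rw [norm_div, norm_mul, norm_pow, div_le_iff₀ (pow_pos h2 g)]
        exact d₂ t (max_lt_iff.1 h1).2.le
    have n0 := ball_mem_nhds (0 : ℂ) H.pos
    have n1 := ball_mem_nhds (0 : ℂ) (pow_pos H.pos 2)
    have c' : AnalyticAt ℂ (fun w : ℂ => w ^ 2) 0 := by fun_prop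
    refine ⟨fun w => k₁ (w ^ 2) * (-2 * w) + k₂ (w ^ 2) * (-2) / k (w ^ 2),
      ((a₁.fun_comp_of_eq c' (by simp)).mul (by fun_prop)).add
      (((a₂.fun_comp_of_eq c' (by simp)).mul analyticAt_const).div
        ((H.hol.analyticAt n1).fun_comp_of_eq c' (by simp))
        (H.ne _ (Dat.sq_mem_ball (mem_ball_self H.pos)))), ?_⟩
    filter_upwards [n0] with w hw h0
    have h2 : w ≠ 0 := by
      rintro rfl
      exact h0 (by rw [e0, Dat.yy_infty])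
    have h1 : (fun v => W.D.tt ((A.ch z).symm v)) =ᶠ[𝓝 w] fun v => (v ^ 2)⁻¹ := by
      filter_upwards [isOpen_ball.mem_nhds hw, isOpen_ne.mem_nhds h2] with v hv hv'
      rw [e v hv hv', Dat.tt_pt (H.on hv hv').1]
    rw [h1.deriv_eq, ((hasDerivAt_pow 2 w).fun_inv (pow_ne_zero 2 h2)).deriv, e w hw h2,
      Dat.tt_pt (H.on hw h2).1, Dat.yy_pt (H.on hw h2).1, hg, b₁ _ (pow_ne_zero 2 h2),
      b₂ _ (pow_ne_zero 2 h2)]
    have h3 := H.ne _ (Dat.sq_mem_ball hw)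
    simp only [Nat.cast_ofNat, Nat.add_one_sub_one, pow_one, inv_pow]
    field_simp
    ring

theorem Wd.Ok0.exists_form {ι : Type} [Fintype ι] {W : Wd ι} (h : W.Ok0) (A : W.D.Atl)
    {a b : ℂ → ℂ} (ha : a ∈ W.Fs (fun _ _ => 1) (fun e => -W.s e.1) 0)
    (hb : b ∈ W.Fs W.my W.ry ((W.D.p + W.D.q) / 2)) :
    letI := A.charted
    ∃ om ∈ formsU W.U W.O W.g, W.Rep a b om := by
  classical
  let := A.charted
  choose! F hF hR using WGen1_loc h A ha hb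
  have K : ∀ z ∈ W.U, W.D.yy z ≠ 0 → F z 0 = a (W.D.tt z) + b (W.D.tt z) / W.D.yy z :=
    fun z hz hy => by
      have h1 := (hR z hz).self_of_nhds
      rw [A.Gen2_zero] at h1
      rw [h1 hy, WGen1_one A hy, mul_one]
  have hrep : W.Rep a b (W.U.indicator fun z => F z 0) := fun t ht y hy h0 => by
    have hz : W.D.pt t y ∈ W.U := by
      show W.D.tt _ ∈ W.Om
      rwa [Dat.tt_pt hy]
    rw [indicator_of_mem hz, K _ hz (by
      rw [Dat.yy_pt hy]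
      rintro rfl
      exact h0 (by rw [← hy]; simp)), Dat.tt_pt hy, Dat.yy_pt hy]
  refine ⟨_, ⟨fun z hz => indicator_of_notMem hz _, fun z hz => ⟨F z, ?_, ?_⟩, fun z hz => ?_⟩,
    hrep⟩
  · show AnalyticAt ℂ (F z) (A.ch z z)
    rw [A.ctr]
    exact hF z hz
  · have h1 := (A.ch z).continuousAt (A.mem z)
    rw [ContinuousAt, A.ctr] at h1
    filter_upwards [h.isOpen_U.mem_nhds hz, (A.ch z).open_source.mem_nhds (A.mem z),
      h1.eventually (hR z hz)] with z' u1 u2 u3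
    rw [indicator_of_mem u1]
    show _ = F z (A.ch z z') * deriv (A.ch z ∘ (A.ch z').symm) (A.ch z' z')
    rw [(A.ch z).left_inv u2] at u3
    by_cases hy : W.D.yy z' = 0
    · have h2 := A.center z (A.tgt z ▸ (A.ch z).map_source u2) (by rwa [(A.ch z).left_inv u2])
      obtain rfl : z = z' := (A.ch z).injOn (A.mem z) u2 (by rw [h2, A.ctr])
      have h3 : (A.ch z ∘ (A.ch z).symm) =ᶠ[𝓝 (A.ch z z)] id :=
        (A.ch z).eventually_right_inverse' u2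
      rw [h3.deriv_eq, deriv_id, mul_one, A.ctr]
    · rw [u3 hy, A.ctr, mul_assoc, WGen1_chain h.d A u2 hy, mul_one, K z' u1 hy]
  · obtain ⟨e, v, hv, ε, hε, he⟩ := h.mem_O hz
    have hv' := h.pl.ann_op hv
    have l1 := h.WGl2_lt hv
    have l2 := h.WGl2_lt hv'
    rw [h.tr_g A hv hε he, he, (h.g_pt hv hε).2,
      hrep _ (h.pl.ann2_mem (h.pl.ann_sub e hv)) _ (h.sq_pt l1 hε)
        (h.free e v (mem_ball_zero_iff.2 l1)),
      hrep _ (h.pl.ann2_mem (h.pl.ann_sub _ hv')) _ (h.sq_pt l2 hε)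
        (h.free _ _ (mem_ball_zero_iff.2 l2))]
    have m1 := ha.2.2.1 e v hv
    have m2 := hb.2.2.1 e v hv
    have p : ∀ e, ‖(0 : ℂ)‖ < 2 * W.ρ e := fun e => by
      rw [norm_zero]
      exact mul_pos two_pos (h.pl.ρ_pos e)
    have y1 := h.yb_ne l1
    have y2 := h.yb_ne l2
    have y3 := h.yb_ne (p e)
    have y4 := h.yb_ne (p (op e))
    have y5 := h.pl.ann_ne hv
    have y6 : ε ≠ 0 := by rcases hε with rfl | rfl <;> simp
    have m3 : b (W.c e + v) / W.yb e v = -(W.s e.1 / v ^ 2) *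
        (b (W.c (op e) + W.s e.1 / v) / W.yb (op e) (W.s e.1 / v)) := by
      refine mul_left_cancel₀ y3 ?_
      simp only [Wd.my, Wd.ry] at m2
      rw [← mul_div_assoc, ← div_mul_eq_mul_div, m2]
      field_simp
    rw [mul_comm ε, mul_comm ε, ← div_div, ← div_div, m3]
    linear_combination m1

end Pool.Agent.MP_92463a_gt

end
end

section

open Set Complex Filter Metric
open scoped Topology ComplexConjugate ContDiff Manifold

noncomputable section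

namespace Pool.Agent.MP_92463a_gt

theorem WGen2_fill {f : ℂ → ℂ} {U s : Set ℂ} (hU : IsOpen U) (hs : s.Finite)
    (hf : ∀ x ∈ U, x ∉ s → DifferentiableAt ℂ f x)
    (hb : ∀ x ∈ s, ∃ C : ℝ, ∀ᶠ z in 𝓝[≠] x, ‖f z‖ ≤ C) :
    ∃ F : ℂ → ℂ, DifferentiableOn ℂ F U ∧ (∀ z ∉ U, F z = 0) ∧ ∀ z ∈ U, z ∉ s → F z = f z := by
  classical
  refine ⟨fun z => if z ∈ U then if z ∈ s then limUnder (𝓝[≠] z) f else f z else 0,
    fun x hxU => DifferentiableAt.differentiableWithinAt ?_, fun z hz => if_neg hz,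
    fun z hz hz' => (if_pos hz).trans (if_neg hz')⟩
  have h0 := hU.mem_nhds hxU
  by_cases hx : x ∈ s
  · obtain ⟨C, hC⟩ := hb x hx
    have h1 : (s \ {x})ᶜ ∈ 𝓝 x :=
      (hs.subset sdiff_subset).isClosed.isOpen_compl.mem_nhds fun h => h.2 rfl
    have h2 : {z | z ≠ x → ‖f z‖ ≤ C} ∈ 𝓝 x := eventually_nhdsWithin_iff.1 hC
    have h3 := inter_mem (inter_mem h0 h1) h2
    have h4 := differentiableOn_update_limUnder_of_bddAbove (f := f) h3
      (fun z hz => (hf z hz.1.1.1 fun hzs => hz.1.1.2 ⟨hzs, hz.2⟩).differentiableWithinAt) ⟨C, by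
        rintro _ ⟨z, hz, rfl⟩
        exact hz.1.2 hz.2⟩
    refine (h4.differentiableAt h3).congr_of_eventuallyEq ?_
    filter_upwards [h0, h1] with z hz0 hz
    rw [if_pos hz0]
    by_cases e : z = x
    · rw [e, if_pos hx, Function.update_self]
    · rw [if_neg fun h => hz ⟨h, e⟩, Function.update_of_ne e]
  · have h1 : sᶜ ∈ 𝓝 x := hs.isClosed.isOpen_compl.mem_nhds hx
    refine (hf x hxU hx).congr_of_eventuallyEq ?_
    filter_upwards [h0, h1] with z hz0 hz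
    rw [if_pos hz0, if_neg hz]

namespace Dat

variable {D : Dat} (A : D.Atl)

theorem Atl.WGen2_tr {z : D.N} {w T' : ℂ} {T Yl : ℂ → ℂ} (hw : w ∈ ball (0 : ℂ) (A.δ z))
    (he : ∀ᶠ v in 𝓝 w, (A.ch z).symm v = D.pt (T v) (Yl v) ∧ Yl v ^ 2 = D.P (T v))
    (hy : D.P (T w) ≠ 0) (hT : HasDerivAt T T' w) (hT' : T' ≠ 0) :
    deriv (A.ch z ∘ id ∘ (A.ch ((A.ch z).symm w)).symm)
      (A.ch ((A.ch z).symm w) ((A.ch z).symm w)) = T'⁻¹ := by
  obtain ⟨h1, h2⟩ := he.self_of_nhds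
  rw [← A.tgt] at hw
  have hu : (A.ch z).symm w ∈ (A.ch z).source := (A.ch z).map_target hw
  have hw' : A.ch z ((A.ch z).symm w) = w := (A.ch z).right_inv hw
  have ht : D.tt ((A.ch z).symm w) = T w := by rw [h1, tt_pt h2]
  have hy' : D.yy ((A.ch z).symm w) ≠ 0 := by
    rw [h1, yy_pt h2]
    intro h0
    exact hy (by rw [← h2, h0, zero_pow two_ne_zero])
  generalize (A.ch z).symm w = u at hu hw' ht hy'
  obtain ⟨h, H, -, he'⟩ := A.Gen2_k1 hy'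
  have hb := ball_mem_nhds (0 : ℂ) H.pos
  have c1 : ContinuousAt (A.ch u).symm 0 :=
    (A.ch u).continuousAt_symm (by rw [A.tgt]; exact mem_ball_self H.pos)
  have c2 : Tendsto (A.ch u).symm (𝓝 0) (𝓝 u) := by
    have := c1.tendsto
    rwa [A.Gen2_zero] at this
  have c3 : ContinuousAt (A.ch z ∘ id ∘ (A.ch u).symm) 0 :=
    ContinuousAt.comp (by
      rw [Function.comp_apply, id, A.Gen2_zero]
      exact (A.ch z).continuousAt hu) c1
  have c4 : (A.ch z ∘ id ∘ (A.ch u).symm) 0 = w := by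
    rw [Function.comp_apply, Function.comp_apply, id, A.Gen2_zero, hw']
  rw [A.ctr]
  refine (HasDerivAt.of_local_left_inverse (f := fun v => T v - T w) c3
    (by rw [c4]; exact hT.sub_const _) hT' ?_).deriv
  have c5 := c3.tendsto
  rw [c4] at c5
  filter_upwards [hb, c5.eventually he, c2.eventually ((A.ch z).open_source.mem_nhds hu)]
    with v h3 h4 h5
  simp only [Function.comp_apply, id] at h4 ⊢
  have h6 := congrArg D.tt h4.1
  rw [(A.ch z).left_inv h5, tt_pt h4.2] at h6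
  rw [← h6, he' v h3, tt_pt (H.sq v h3), ht, add_sub_cancel_left]

/-- the form is holomorphic at `z` -/
def Atl.WGen2_L (om : D.N → ℂ) (z : D.N) : Prop :=
  ∃ φ : ℂ → ℂ, DifferentiableAt ℂ φ 0 ∧ ∀ᶠ w in 𝓝 (0 : ℂ), ∀ (T Yl : ℂ → ℂ) (T' : ℂ),
    (∀ᶠ v in 𝓝 w, (A.ch z).symm v = D.pt (T v) (Yl v) ∧ Yl v ^ 2 = D.P (T v)) →
    D.P (T w) ≠ 0 → HasDerivAt T T' w → T' ≠ 0 → om (D.pt (T w) (Yl w)) = φ w / T'

theorem Atl.WGen2_of {om : D.N → ℂ} {z : D.N} {φ : ℂ → ℂ} (h1 : AnalyticAt ℂ φ (A.ch z z))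
    (h2 : ∀ᶠ z' in 𝓝 z, om z' =
      φ (A.ch z z') * deriv (A.ch z ∘ id ∘ (A.ch z').symm) (A.ch z' z')) : A.WGen2_L om z := by
  rw [A.ctr] at h1
  refine ⟨φ, h1.differentiableAt, ?_⟩
  have h0 := Gen1_zero A z
  have c2 : Tendsto (A.ch z).symm (𝓝 0) (𝓝 z) := by
    have := ((A.ch z).continuousAt_symm (by rw [A.tgt]; exact h0)).tendsto
    rwa [A.Gen2_zero] at this
  filter_upwards [isOpen_ball.mem_nhds h0, c2.eventually h2] with w hw h3 T Yl T' he hy hT hT'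
  rw [A.WGen2_tr hw he hy hT hT', (A.ch z).right_inv (by rw [A.tgt]; exact hw),
    he.self_of_nhds.1] at h3
  rw [h3, div_eq_mul_inv]

variable {A} {om : D.N → ℂ}

theorem Atl.WGen2_one {t₀ y₀ : ℂ} (H : A.WGen2_L om (D.pt t₀ y₀)) (hs : y₀ ^ 2 = D.P t₀)
    (hy : y₀ ≠ 0) : ∃ h φ : ℂ → ℂ, DifferentiableAt ℂ h 0 ∧ DifferentiableAt ℂ φ 0 ∧ h 0 = y₀ ∧
      ∀ᶠ w in 𝓝 (0 : ℂ), h w ^ 2 = D.P (t₀ + w) ∧ om (D.pt (t₀ + w) (h w)) = φ w := by
  obtain ⟨h, P, h0, he⟩ := A.Gen2_k1 (u := D.pt t₀ y₀) (by rwa [yy_pt hs])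
  rw [tt_pt hs] at P he
  rw [yy_pt hs] at h0
  have hb := ball_mem_nhds (0 : ℂ) P.pos
  obtain ⟨φ, h1, h2⟩ := H
  refine ⟨h, φ, P.hol.differentiableAt hb, h1, h0, ?_⟩
  filter_upwards [hb, h2] with w hw h3
  refine ⟨P.sq w hw, ?_⟩
  rw [h3 (fun v => t₀ + v) h 1 ?_ ?_ ((hasDerivAt_id w).const_add t₀) one_ne_zero, div_one]
  · filter_upwards [isOpen_ball.mem_nhds hw] with v hv
    exact ⟨he v hv, P.sq v hv⟩
  · rw [← P.sq w hw]
    exact pow_ne_zero 2 (P.ne w hw)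

theorem Atl.WGen2_reg {t₀ : ℂ} (H : ∀ z, D.tt z = t₀ → A.WGen2_L om z) (ht : D.P t₀ ≠ 0) :
    ∃ h φ ψ : ℂ → ℂ, DifferentiableAt ℂ h t₀ ∧ DifferentiableAt ℂ φ t₀ ∧ DifferentiableAt ℂ ψ t₀ ∧
      ∀ᶠ t in 𝓝 t₀, h t ^ 2 = D.P t ∧ om (D.pt t (h t)) = φ t ∧ om (D.pt t (-h t)) = ψ t := by
  obtain ⟨y, hy⟩ := IsAlgClosed.exists_pow_nat_eq (D.P t₀) two_pos
  have hy0 : y ≠ 0 := by
    rintro rfl
    exact ht (by rw [← hy, zero_pow two_ne_zero])
  have hy' : (-y) ^ 2 = D.P t₀ := by rw [neg_sq, hy]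
  obtain ⟨h, φ, a1, a2, a3, a4⟩ := Atl.WGen2_one (H _ (tt_pt hy)) hy hy0
  obtain ⟨h', ψ, b1, b2, b3, b4⟩ := Atl.WGen2_one (H _ (tt_pt hy')) hy' (neg_ne_zero.2 hy0)
  have c1 : ∀ᶠ w in 𝓝 (0 : ℂ), h' w - h w ≠ 0 :=
    (b1.sub a1).continuousAt.eventually_ne (by
      rw [Pi.sub_apply, a3, b3]
      intro h0
      exact hy0 (by linear_combination (-1 / 2 : ℂ) * h0))
  have c2 : ∀ {g : ℂ → ℂ}, DifferentiableAt ℂ g 0 → DifferentiableAt ℂ (fun t => g (t - t₀)) t₀ :=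
    fun {g} hg => DifferentiableAt.comp (g := g) (f := fun t : ℂ => t - t₀) t₀
      (by simpa using hg) (by fun_prop)
  have c3 : Tendsto (fun t : ℂ => t - t₀) (𝓝 t₀) (𝓝 0) := by
    have : Continuous fun t : ℂ => t - t₀ := by fun_prop
    simpa using this.tendsto t₀
  refine ⟨_, _, _, c2 a1, c2 a2, c2 b2, ?_⟩
  filter_upwards [c3.eventually a4, c3.eventually b4, c3.eventually c1] with t d1 d2 d3
  rw [add_sub_cancel] at d1 d2
  have d4 : h' (t - t₀) = -h (t - t₀) :=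
    (sq_eq_sq_iff_eq_or_eq_neg.1 (d2.1.trans d1.1.symm)).resolve_left (sub_ne_zero.1 d3)
  exact ⟨d1.1, d1.2, d4 ▸ d2.2⟩

theorem WGen2_neg {p : ℂ → Prop} (h : ∀ᶠ w in 𝓝 (0 : ℂ), p w) : ∀ᶠ w in 𝓝 (0 : ℂ), p (-w) := by
  have : Tendsto (fun w : ℂ => -w) (𝓝 0) (𝓝 0) := by simpa using continuous_neg.tendsto (0 : ℂ)
  exact this.eventually h

theorem Atl.WGen2_two {x₀ : ℂ} (H : ∀ z, D.tt z = x₀ → A.WGen2_L om z) (hx : D.P x₀ = 0) :
    ∃ h φ : ℂ → ℂ, DifferentiableAt ℂ h 0 ∧ DifferentiableAt ℂ φ 0 ∧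
      ∀ᶠ w in 𝓝[≠] (0 : ℂ), (w * h (w ^ 2)) ^ 2 = D.P (x₀ + w ^ 2) ∧
        om (D.pt (x₀ + w ^ 2) (w * h (w ^ 2))) = φ w / (2 * w) ∧
        om (D.pt (x₀ + w ^ 2) (-(w * h (w ^ 2)))) = -φ (-w) / (2 * w) := by
  obtain ⟨z, h, P, he⟩ := A.Gen2_k2 hx
  have hb := ball_mem_nhds (0 : ℂ) P.pos
  obtain ⟨φ, h1, h2⟩ := H z (by
    have h0 := mem_ball_self (x := (0 : ℂ)) P.pos
    rw [← A.Gen2_zero z, he 0 h0, tt_pt (P.on h0).1, zero_pow two_ne_zero, add_zero])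
  have key : ∀ᶠ w in 𝓝 (0 : ℂ), w ≠ 0 →
      om (D.pt (x₀ + w ^ 2) (w * h (w ^ 2))) = φ w / (2 * w) := by
    filter_upwards [hb, h2] with w hw h3 h0
    refine h3 (fun v => x₀ + v ^ 2) (fun v => v * h (v ^ 2)) _ ?_ ((P.on hw).2 h0)
      (by simpa using (hasDerivAt_pow 2 w).const_add x₀) (mul_ne_zero two_ne_zero h0)
    filter_upwards [isOpen_ball.mem_nhds hw] with v hv
    exact ⟨he v hv, (P.on hv).1⟩
  refine ⟨h, φ, P.hol.differentiableAt (ball_mem_nhds _ (pow_pos P.pos 2)), h1, ?_⟩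
  filter_upwards [nhdsWithin_le_nhds hb, self_mem_nhdsWithin, nhdsWithin_le_nhds key,
    nhdsWithin_le_nhds (WGen2_neg key)] with w hw h0 k1 k2
  have h3 : w ≠ 0 := h0
  have h4 := k2 (neg_ne_zero.2 h3)
  rw [neg_sq, neg_mul, mul_neg, div_neg, ← neg_div] at h4
  exact ⟨(P.on hw).1, k1 h3, h4⟩

theorem Atl.WGen2_three (hD : D.Ok) (H : A.WGen2_L om OnePoint.infty) :
    ∃ h φ : ℂ → ℂ, DifferentiableAt ℂ h 0 ∧ DifferentiableAt ℂ φ 0 ∧
      ∀ᶠ w in 𝓝[≠] (0 : ℂ), D.P (w ^ 2)⁻¹ ≠ 0 ∧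
        (h (w ^ 2) / w ^ (D.p + D.q + 1)) ^ 2 = D.P (w ^ 2)⁻¹ ∧
        om (D.pt (w ^ 2)⁻¹ (h (w ^ 2) / w ^ (D.p + D.q + 1))) = -(w ^ 3 * φ w / 2) ∧
        om (D.pt (w ^ 2)⁻¹ (-(h (w ^ 2) / w ^ (D.p + D.q + 1)))) = w ^ 3 * φ (-w) / 2 := by
  obtain ⟨h, P, he⟩ : ∃ h, D.Par3 (A.δ OnePoint.infty) h ∧
      ∀ w ∈ ball (0 : ℂ) (A.δ OnePoint.infty), w ≠ 0 → (A.ch OnePoint.infty).symm w =
        D.pt (w ^ 2)⁻¹ (h (w ^ 2) / w ^ (D.p + D.q + 1)) := by
    rcases A.kind OnePoint.infty with ⟨t₀, h, H, he⟩ | ⟨x, h, H, he⟩ | ⟨h, H, -, he⟩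
    · have h0 := mem_ball_self (x := (0 : ℂ)) H.pos
      have h1 := he 0 h0
      rw [A.Gen2_zero] at h1
      exact absurd h1.symm (pt_ne (H.sq 0 h0))
    · have h0 := mem_ball_self (x := (0 : ℂ)) H.pos
      have h1 := he 0 h0
      rw [A.Gen2_zero] at h1
      exact absurd h1.symm (pt_ne (H.on h0).1)
    · exact ⟨h, H, he⟩
  have hb := ball_mem_nhds (0 : ℂ) P.pos
  obtain ⟨φ, h1, h2⟩ := H
  have key : ∀ᶠ w in 𝓝 (0 : ℂ), w ≠ 0 →
      om (D.pt (w ^ 2)⁻¹ (h (w ^ 2) / w ^ (D.p + D.q + 1))) = φ w / (-2 / w ^ 3) := by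
    filter_upwards [hb, h2] with w hw h3 h0
    refine h3 (fun v => (v ^ 2)⁻¹) (fun v => h (v ^ 2) / v ^ (D.p + D.q + 1)) _ ?_
      (P.on hw h0).2 (((hasDerivAt_pow 2 w).inv (pow_ne_zero 2 h0)).congr_deriv ?_)
      (div_ne_zero (by norm_num) (pow_ne_zero 3 h0))
    · filter_upwards [isOpen_ball.mem_nhds hw, isOpen_compl_singleton.mem_nhds h0] with v hv h1
      exact ⟨he v hv h1, (P.on hv h1).1⟩
    · simp only [Nat.cast_ofNat, Nat.add_one_sub_one, pow_one]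
      field_simp
  refine ⟨h, φ, P.hol.differentiableAt (ball_mem_nhds _ (pow_pos P.pos 2)), h1, ?_⟩
  filter_upwards [nhdsWithin_le_nhds hb, self_mem_nhdsWithin, nhdsWithin_le_nhds key,
    nhdsWithin_le_nhds (WGen2_neg key)] with w hw h0 k1 k2
  have h3 : w ≠ 0 := h0
  have h4 := k2 (neg_ne_zero.2 h3)
  rw [neg_sq, hD.par.add_one.neg_pow, div_neg] at h4
  refine ⟨(P.on hw h3).2, (P.on hw h3).1, ?_, ?_⟩
  · rw [k1 h3]
    field_simp
  · rw [h4]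
    field_simp

theorem Atl.WGen2_odd (hD : D.Ok) {U : Set ℂ} (hU : IsOpen U) (h0 : ∀ x, D.P x = 0 → x ∈ U)
    (hR : ∃ R : ℝ, ∀ t : ℂ, R < ‖t‖ → t ∈ U) (H : ∀ z, D.tt z ∈ U → A.WGen2_L om z) :
    ∃ F : ℂ → ℂ, DifferentiableOn ℂ F U ∧ (∀ z ∉ U, F z = 0) ∧
      (∀ t ∈ U, ∀ y, y ^ 2 = D.P t → D.P t ≠ 0 → F t = (om (D.pt t y) + om (D.pt t (-y))) / 2) ∧
      ∃ C R : ℝ, ∀ t, R ≤ ‖t‖ → ‖F t‖ * ‖t‖ ≤ C * ‖t‖ ^ 0 := by
  choose r hr using fun t => IsAlgClosed.exists_pow_nat_eq (D.P t) two_pos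
  have hs : ∀ {t y : ℂ}, y ^ 2 = D.P t → om (D.pt t (r t)) + om (D.pt t (-r t)) =
      om (D.pt t y) + om (D.pt t (-y)) := fun {t y} h =>
    Gen2_sym (G := fun y => om (D.pt t y)) (h.trans (hr t).symm)
  obtain ⟨F, hF, hF0, hFe⟩ := WGen2_fill
    (f := fun t => (om (D.pt t (r t)) + om (D.pt t (-r t))) / 2) hU D.P_finite
    (fun x hxU hx => by
      obtain ⟨h, φ, ψ, -, a2, a3, a4⟩ := Atl.WGen2_reg (fun z hz => H z (hz ▸ hxU)) hx
      refine ((a2.add a3).div_const 2).congr_of_eventuallyEq ?_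
      filter_upwards [a4] with t h1
      rw [hs h1.1, h1.2.1, h1.2.2, Pi.add_apply]) (fun x hx => by
      obtain ⟨h, φ, -, a2, a3⟩ := Atl.WGen2_two (fun z hz => H z (hz ▸ h0 x hx)) hx
      obtain ⟨C, hC⟩ := Gen2_odd a2
      refine ⟨C / 2, Gen2_pull ?_⟩
      filter_upwards [a3, hC] with w h1 h2
      rw [hs h1.1, h1.2.1, h1.2.2, ← add_div, ← sub_eq_add_neg, norm_div, Complex.norm_ofNat]
      linarith)
  refine ⟨F, hF, hF0, fun t ht y hy hP => by rw [hFe t ht hP, hs hy], ?_⟩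
  obtain ⟨h, φ, -, a2, a3⟩ := Atl.WGen2_three hD (H _ (h0 0 (by simp [P])))
  obtain ⟨C, hC⟩ := Gen2_bdd (g := fun w => w * (φ (-w) - φ w) / 4)
    (((differentiableAt_id.mul ((Gen2_neg a2).sub a2)).div_const 4).continuousAt)
  obtain ⟨ρ, hρ⟩ := Gen2_far (Q := fun z => z ∈ U → ‖F z‖ * ‖z‖ ≤ C * ‖z‖ ^ 0) (by
    filter_upwards [a3, nhdsWithin_le_nhds hC, self_mem_nhdsWithin] with w h1 h2 h3 h5
    have h4 : w ≠ 0 := h3
    rw [hFe _ h5 h1.1, hs h1.2.1, h1.2.2.1, h1.2.2.2, pow_zero, mul_one, ← norm_mul]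
    refine le_of_eq_of_le (congrArg _ ?_) h2
    field_simp
    ring)
  obtain ⟨R, hR⟩ := hR
  exact ⟨C, max ρ (R + 1), fun t ht => hρ t ((le_max_left _ _).trans ht)
    (hR t ((lt_add_one R).trans_le ((le_max_right _ _).trans ht)))⟩

theorem Atl.WGen2_even (hD : D.Ok) {U : Set ℂ} (hU : IsOpen U) (h0 : ∀ x, D.P x = 0 → x ∈ U)
    (hR : ∃ R : ℝ, ∀ t : ℂ, R < ‖t‖ → t ∈ U) (H : ∀ z, D.tt z ∈ U → A.WGen2_L om z) :
    ∃ F : ℂ → ℂ, DifferentiableOn ℂ F U ∧ (∀ z ∉ U, F z = 0) ∧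
      (∀ t ∈ U, ∀ y, y ^ 2 = D.P t → D.P t ≠ 0 →
        F t = (om (D.pt t y) * y + om (D.pt t (-y)) * -y) / 2) ∧
      ∃ C R : ℝ, ∀ t, R ≤ ‖t‖ → ‖F t‖ * ‖t‖ ≤ C * ‖t‖ ^ ((D.p + D.q) / 2) := by
  choose r hr using fun t => IsAlgClosed.exists_pow_nat_eq (D.P t) two_pos
  have hs : ∀ {t y : ℂ}, y ^ 2 = D.P t → om (D.pt t (r t)) * r t + om (D.pt t (-r t)) * -r t =
      om (D.pt t y) * y + om (D.pt t (-y)) * -y := fun {t y} h =>
    Gen2_sym (G := fun y => om (D.pt t y) * y) (h.trans (hr t).symm)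
  obtain ⟨F, hF, hF0, hFe⟩ := WGen2_fill
    (f := fun t => (om (D.pt t (r t)) * r t + om (D.pt t (-r t)) * -r t) / 2) hU D.P_finite
    (fun x hxU hx => by
      obtain ⟨h, φ, ψ, a1, a2, a3, a4⟩ := Atl.WGen2_reg (fun z hz => H z (hz ▸ hxU)) hx
      refine (((a2.mul a1).add (a3.mul a1.neg)).div_const 2).congr_of_eventuallyEq ?_
      filter_upwards [a4] with t h1
      rw [hs h1.1, h1.2.1, h1.2.2]
      rfl) (fun x hx => by
      obtain ⟨h, φ, a1, a2, a3⟩ := Atl.WGen2_two (fun z hz => H z (hz ▸ h0 x hx)) hx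
      obtain ⟨C, hC⟩ := Gen2_bdd (g := fun w => (φ w + φ (-w)) * h (w ^ 2) / 4)
        ((((a2.add (Gen2_neg a2)).mul (Gen2_sq a1)).div_const 4).continuousAt)
      refine ⟨C, Gen2_pull ?_⟩
      filter_upwards [a3, nhdsWithin_le_nhds hC, self_mem_nhdsWithin] with w h1 h2 h3
      have h4 : w ≠ 0 := h3
      rw [hs h1.1, h1.2.1, h1.2.2]
      refine le_of_eq_of_le (congrArg _ ?_) h2
      field_simp
      ring)
  refine ⟨F, hF, hF0, fun t ht y hy hP => by rw [hFe t ht hP, hs hy], ?_⟩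
  obtain ⟨h, φ, a1, a2, a3⟩ := Atl.WGen2_three hD (H _ (h0 0 (by simp [P])))
  obtain ⟨C, hC⟩ := Gen2_bdd (g := fun w => -((φ w + φ (-w)) * h (w ^ 2) / 4))
    ((((a2.add (Gen2_neg a2)).mul (Gen2_sq a1)).div_const 4).neg.continuousAt)
  obtain ⟨ρ, hρ⟩ := Gen2_far
    (Q := fun z => z ∈ U → ‖F z‖ * ‖z‖ ≤ C * ‖z‖ ^ ((D.p + D.q) / 2)) (by
    filter_upwards [a3, nhdsWithin_le_nhds hC, self_mem_nhdsWithin] with w h1 h2 h3 h5
    have h4 : w ≠ 0 := h3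
    rw [hFe _ h5 h1.1, hs h1.2.1, h1.2.2.1, h1.2.2.2, ← norm_mul]
    refine le_of_eq_of_le ?_ (mul_le_mul_of_nonneg_right h2 (by positivity))
    rw [← norm_pow, ← norm_mul]
    congr 1
    obtain ⟨g, hg⟩ := hD.par
    rw [hg, show (g + g) / 2 = g by omega, inv_pow, ← pow_mul, two_mul, pow_succ w (g + g)]
    field_simp
    ring)
  obtain ⟨R, hR⟩ := hR
  exact ⟨C, max ρ (R + 1), fun t ht => hρ t ((le_max_left _ _).trans ht)
    (hR t ((lt_add_one R).trans_le ((le_max_right _ _).trans ht)))⟩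

end Dat

theorem Wd.Ok0.exists_rep {ι : Type} [Fintype ι] {W : Wd ι} (h : W.Ok0) (A : W.D.Atl) :
    letI := A.charted
    ∀ om ∈ formsU W.U W.O W.g, ∃ a ∈ W.Fs (fun _ _ => 1) (fun e => -W.s e.1) 0,
      ∃ b ∈ W.Fs W.my W.ry ((W.D.p + W.D.q) / 2), W.Rep a b om := by
  intro om hom
  have H : ∀ z, W.D.tt z ∈ W.Om → A.WGen2_L om z := fun z hz => by
    obtain ⟨φ, h1, h2⟩ := hom.2.1 z hz
    exact A.WGen2_of h1 h2
  have hR : ∃ R : ℝ, ∀ t : ℂ, R < ‖t‖ → t ∈ W.Om :=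
    (Pl.om_far (P := W.toPl)).imp fun R hR t ht => (hR t ht).2
  obtain ⟨a, a1, a2, a3, a4⟩ := Dat.Atl.WGen2_odd h.d Pl.isOpen_om
    (fun x hx => (h.zero_fd hx).2) hR H
  obtain ⟨b, b1, b2, b3, b4⟩ := Dat.Atl.WGen2_even h.d Pl.isOpen_om
    (fun x hx => (h.zero_fd hx).2) hR H
  have k1 : ∀ e, ∀ v ∈ W.Ann e, W.c e + v ∈ W.Om ∧ W.yb e v ^ 2 = W.D.P (W.c e + v) ∧
      W.D.P (W.c e + v) ≠ 0 ∧ W.yb e v ≠ 0 ∧ W.yb e 0 ≠ 0 ∧ v ≠ 0 := fun e v hv => by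
    have h1 := h.pl.ann_sub e hv
    have h2 : v ∈ ball (0 : ℂ) (2 * W.ρ e) := mem_ball_zero_iff.2 h1.2
    refine ⟨h.pl.ann2_mem h1, h.ysq e v h2, h.free e v h2, h.yb_ne h1.2, h.yb_ne ?_,
      h.pl.ann_ne hv⟩
    have := h.pl.ρ_pos e
    rw [norm_zero]
    positivity
  have k2 : ∀ e, ∀ v ∈ W.Ann e, ∀ ε : ℂ, ε = 1 ∨ ε = -1 →
      om (W.D.pt (W.c e + v) (ε * W.yb e v)) =
        om (W.D.pt (W.c (op e) + W.s e.1 / v) (ε * W.yb (op e) (W.s e.1 / v))) *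
          -(W.s e.1 / v ^ 2) := fun e v hv ε hε => by
    have h1 := hom.2.2 _ (h.g_pt hv hε).1
    rwa [h.tr_g A hv hε rfl, (h.g_pt hv hε).2] at h1
  refine ⟨a, ⟨a1, a2, fun e v hv => ?_, a4⟩, b, ⟨b1, b2, fun e v hv => ?_, b4⟩,
    fun t ht y hy hP => ?_⟩
  · obtain ⟨c1, c2, c3, -⟩ := k1 e v hv
    obtain ⟨d1, d2, d3, -⟩ := k1 _ _ (h.pl.ann_op hv)
    have e1 := k2 e v hv 1 (Or.inl rfl)
    have e2 := k2 e v hv (-1) (Or.inr rfl)
    simp only [one_mul, neg_mul] at e1 e2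
    rw [a3 _ c1 _ c2 c3, a3 _ d1 _ d2 d3, e1, e2]
    ring
  · obtain ⟨c1, c2, c3, c4, c5, c6⟩ := k1 e v hv
    obtain ⟨d1, d2, d3, d4, d5, -⟩ := k1 _ _ (h.pl.ann_op hv)
    have e1 := k2 e v hv 1 (Or.inl rfl)
    have e2 := k2 e v hv (-1) (Or.inr rfl)
    simp only [one_mul, neg_mul] at e1 e2
    rw [b3 _ c1 _ c2 c3, b3 _ d1 _ d2 d3, e1, e2]
    simp only [Wd.my, Wd.ry]
    field_simp
    ring
  · have hy0 : y ≠ 0 := by
      rintro rfl
      exact hP (by rw [← hy, zero_pow two_ne_zero])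
    rw [a3 t ht y hy hP, b3 t ht y hy hP]
    field_simp
    ring

end Pool.Agent.MP_92463a_gt

end
end

section

open Set Complex Filter Metric
open scoped Topology ComplexConjugate ContDiff Manifold

noncomputable section

namespace Pool.Agent.MP_92463a_gt

theorem Dat.WGen3_tr {D : Dat} (hD : D.Ok) (A : D.Atl) {z z' : D.N} (hz : z' ∈ (A.ch z).source) :
    deriv (A.ch z ∘ (A.ch z').symm) 0 ≠ 0 := by
  have h0 := Dat.Gen1_zero A z'
  have e0 := Dat.Gen1_symm A z'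
  have h1 := A.trans hD z' z h0 (by rwa [e0])
  have h2 := A.trans hD z z' (A.tgt z ▸ (A.ch z).map_source hz)
    (by rw [(A.ch z).left_inv hz]; exact A.mem z')
  have h3 : (A.ch z' ∘ (A.ch z).symm) ∘ (A.ch z ∘ (A.ch z').symm) =ᶠ[𝓝 0] id := by
    have ht : (0 : ℂ) ∈ (A.ch z').target := by rwa [A.tgt]
    have hc : ContinuousAt (A.ch z').symm 0 := (A.ch z').continuousAt_symm ht
    filter_upwards [hc ((A.ch z).open_source.mem_nhds (by rwa [e0])),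
      (A.ch z').open_target.mem_nhds ht] with v hv1 hv2
    simp only [Function.comp, id]
    rw [(A.ch z).left_inv hv1, (A.ch z').right_inv hv2]
  have h4 : (A.ch z ∘ (A.ch z').symm) 0 = A.ch z z' := by simp only [Function.comp, e0]
  have h5 := deriv_comp 0 (h4 ▸ h2.differentiableAt) h1.differentiableAt
  rw [h3.deriv_eq, deriv_id] at h5
  intro h6
  rw [h6, mul_zero] at h5
  exact one_ne_zero h5

theorem Wd.Ok0.WGen3_zero {ι : Type} [Fintype ι] {W : Wd ι} (h : W.Ok0) (A : W.D.Atl)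
    {om : W.D.N → ℂ} (h1 : letI := A.charted; om ∈ formsU W.U W.O W.g) (h2 : W.Rep 0 0 om) :
    om = 0 := by
  let := A.charted
  have h3 : ∀ z, W.D.yy z ≠ 0 → om z = 0 := fun z hz => by
    by_cases hU : z ∈ W.U
    · have h4 : z ≠ OnePoint.infty := fun e => hz (by rw [e, Dat.yy_infty])
      have h5 := h2 _ hU _ (Dat.yy_sq z) (Dat.yy_sq z ▸ pow_ne_zero 2 hz)
      rw [Dat.pt_tt h4] at h5
      simpa using h5
    · exact h1.1 z hU
  funext z
  by_cases hU : z ∈ W.U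
  · obtain ⟨φ, h4, h5⟩ := h1.2.1 z hU
    have h0 := Dat.Gen1_zero A z
    have ht : (0 : ℂ) ∈ (A.ch z).target := by rwa [A.tgt]
    have hc : ContinuousAt (A.ch z).symm 0 := (A.ch z).continuousAt_symm ht
    have e1 : chartAt ℂ z z = 0 := A.ctr z
    rw [e1] at h4
    have h6 : φ 0 = 0 := by
      refine tendsto_nhds_unique (h4.continuousAt.tendsto.mono_left
        (nhdsWithin_le_nhds (s := {0}ᶜ))) (tendsto_const_nhds.congr' ?_)
      rw [← Dat.Gen1_symm A z] at h5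
      filter_upwards [mem_nhdsWithin_of_mem_nhds (isOpen_ball.mem_nhds h0),
        mem_nhdsWithin_of_mem_nhds (hc h5), self_mem_nhdsWithin] with v hv1 hv2 hv3
      have hv : v ∈ (A.ch z).target := by rwa [A.tgt]
      have h7 := h3 _ fun e => hv3 (A.center z hv1 e)
      have h8 := Dat.WGen3_tr h.d A ((A.ch z).map_target hv)
      simp only [mem_preimage, mem_ofPred_eq, Dat.Gen1_symm] at hv2
      rw [h7] at hv2
      have h9 : chartAt ℂ z ((A.ch z).symm v) = v := (A.ch z).right_inv hv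
      have h10 : tr id ((A.ch z).symm v) z = deriv (A.ch z ∘ (A.ch ((A.ch z).symm v)).symm) 0 := by
        rw [← A.ctr ((A.ch z).symm v)]
        rfl
      rw [h9, h10] at hv2
      exact ((mul_eq_zero.1 hv2.symm).resolve_right h8).symm
    rw [h5.self_of_nhds, e1, h6, zero_mul]
    rfl
  · exact h1.1 z hU

theorem WGen3_fun {D : Dat} {S : Set ℂ} (hS : IsOpen S) {a : ℂ → ℂ} (h1 : DifferentiableOn ℂ a S)
    (h2 : ∀ t ∉ S, a t = 0) (h3 : ∀ t ∈ S, D.P t ≠ 0 → a t = 0) : a = 0 := by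
  funext t
  by_cases ht : t ∈ S
  · refine tendsto_nhds_unique ((h1.continuousOn.continuousAt
      (hS.mem_nhds ht)).tendsto.mono_left (nhdsWithin_le_nhds (s := {t}ᶜ)))
      (tendsto_const_nhds.congr' ?_)
    have h4 : IsClosed ({t | D.P t = 0} \ {t}) := (Dat.P_finite.subset sdiff_subset).isClosed
    filter_upwards [mem_nhdsWithin_of_mem_nhds (hS.mem_nhds ht), self_mem_nhdsWithin,
      mem_nhdsWithin_of_mem_nhds (h4.isOpen_compl.mem_nhds fun e => e.2 rfl)] with v hv1 hv2 hv3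
    exact (h3 v hv1 fun e => hv3 ⟨e, hv2⟩).symm
  · exact h2 t ht

theorem Wd.Ok0.finrank_forms {ι : Type} [Fintype ι] {W : Wd ι} (h : W.Ok0) (A : W.D.Atl) :
    letI := A.charted
    Module.finrank ℂ (formsU W.U W.O W.g) = (W.D.p + W.D.q) / 2 + 2 * Fintype.card ι := by
  let := A.charted
  let V : Submodule ℂ ((W.Fs (fun _ _ => 1) (fun e => -W.s e.1) 0 ×
      W.Fs W.my W.ry ((W.D.p + W.D.q) / 2)) × formsU W.U W.O W.g) :=
    { carrier := {x | W.Rep x.1.1 x.1.2 x.2}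
      add_mem' := fun {x y} hx hy t ht u hu h0 => by
        change x.2.1 _ + y.2.1 _ = x.1.1.1 t + y.1.1.1 t + (x.1.2.1 t + y.1.2.1 t) / u
        rw [hx t ht u hu h0, hy t ht u hu h0]
        ring
      zero_mem' := fun t ht u hu h0 => by simp
      smul_mem' := fun a x hx t ht u hu h0 => by
        change a * x.2.1 _ = a * x.1.1.1 t + a * x.1.2.1 t / u
        rw [hx t ht u hu h0]
        ring }
  have h1 : Function.Bijective ((LinearMap.fst ℂ _ _).comp V.subtype) := by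
    refine ⟨(injective_iff_map_eq_zero _).2 ?_, fun c => ?_⟩
    · rintro ⟨⟨c, om⟩, h'⟩ (rfl : c = 0)
      obtain rfl : om = 0 := Subtype.ext (h.WGen3_zero A om.2 h')
      rfl
    · obtain ⟨om, h2, h3⟩ := h.exists_form A c.1.2 c.2.2
      exact ⟨⟨(c, ⟨om, h2⟩), h3⟩, rfl⟩
  have h2 : Function.Bijective ((LinearMap.snd ℂ _ _).comp V.subtype) := by
    refine ⟨(injective_iff_map_eq_zero _).2 ?_, fun om => ?_⟩
    · rintro ⟨⟨⟨a, b⟩, om⟩, h'⟩ (rfl : om = 0)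
      have h3 : ∀ t ∈ W.Om, W.D.P t ≠ 0 → a.1 t = 0 ∧ b.1 t = 0 := fun t ht h0 => by
        have e1 : 0 = a.1 t + b.1 t / W.D.Y t := h' t ht _ (Dat.Y_sq h0) h0
        have e2 : 0 = a.1 t + b.1 t / -W.D.Y t := h' t ht _ (by rw [neg_sq, Dat.Y_sq h0]) h0
        rw [div_neg] at e2
        have e3 : b.1 t / W.D.Y t = 0 := by linear_combination (e2 - e1) / 2
        exact ⟨by linear_combination -(e1 + e2) / 2,
          (div_eq_zero_iff.1 e3).resolve_right (Dat.Y_ne t)⟩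
      obtain rfl : a = 0 := Subtype.ext
        (WGen3_fun Pl.isOpen_om a.2.1 a.2.2.1 fun t ht h0 => (h3 t ht h0).1)
      obtain rfl : b = 0 := Subtype.ext
        (WGen3_fun Pl.isOpen_om b.2.1 b.2.2.1 fun t ht h0 => (h3 t ht h0).2)
      rfl
    · obtain ⟨a, ha, b, hb, h3⟩ := h.exists_rep A om.1 om.2
      exact ⟨⟨((⟨a, ha⟩, ⟨b, hb⟩), om), h3⟩, rfl⟩
  obtain ⟨f1, e1⟩ := Pl.fs_finrank h.pl Pl.wt_one h.ce (fun e => by simp [sq]) 0
  obtain ⟨f2, e2⟩ := Pl.fs_finrank h.pl h.wy h.co h.ry_mul ((W.D.p + W.D.q) / 2)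
  rw [← (LinearEquiv.ofBijective _ h2).finrank_eq, (LinearEquiv.ofBijective _ h1).finrank_eq,
    Module.finrank_prod, e1, e2]
  ring

end Pool.Agent.MP_92463a_gt

end
end
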