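import Pool.Agent.Mg.F92463a.Gc0a48f
import Pool.Agent.Mg.F92463a.G6119f0
import Pool.Agent.Mg.F92463a.Gea0143
import Pool.Agent.Mg.F92463a.G2abf78
import Pool.Agent.Mg.F92463a.Gb59b98
import Pool.Agent.Mg.F92463a.G156f76
import Pool.Agent.Mg.F92463a.Gc0e07a

section

open Set Complex Filter Metric
open scoped Topology ComplexConjugate ContDiff Manifold

noncomputable section

namespace Pool.Agent.MP_92463a_gt

namespace Wd

variable {ι : Type} [Fintype ι] {W : Wd ι} {X : ℂ → ℂ} {H : ℂ → ℝ} {δ : ℝ} {h : ℂ → ℂ}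

theorem WLF_cont (hW : W.Ok1) (hX : W.SolX X) {s : Set ℂ} {T Yl Φ₁ Φ₂ : ℂ → ℂ}
    (hT : ContinuousOn T s) (hY : ContinuousOn Yl s) (h₁ : ContinuousOn Φ₁ s)
    (h₂ : ContinuousOn Φ₂ s)
    (hs : ∀ w ∈ s, Yl w ^ 2 = W.D.P (T w) ∧ ¬ W.D.IsE (T w) ∧ T w ∈ W.Om) :
    ContinuousOn (fun w => W.D.Xg X (T w) (Yl w) - (Φ₁ w - conj (Φ₂ w))) s :=
  ((hX.Xg_cont hW).comp (hT.prodMk hY) hs).sub (h₁.sub (continuous_conj.comp_continuousOn h₂))

theorem WLF_der (hW : W.Ok1) (hX : W.SolX X) {s : Set ℂ} (ho : IsOpen s) {T Yl Φ₁ Φ₂ : ℂ → ℂ}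
    {T' w : ℂ} (hw : w ∈ s) (hT : HasDerivAt T T' w) (hY : ContinuousOn Yl s)
    (hs : ∀ v ∈ s, Yl v ^ 2 = W.D.P (T v)) (him : (T w).im ≠ 0) (hO : T w ∈ W.Om)
    (h₁ : HasDerivAt Φ₁ (W.ψ₁ (T w) ^ 2 * (Yl w * W.D.R (T w) / T w) * T') w)
    (h₂ : HasDerivAt Φ₂ (W.ψ₂ (T w) ^ 2 * (Yl w * W.D.R (T w) * T w)⁻¹ * T') w) :
    HasFDerivAt (fun v => W.D.Xg X (T v) (Yl v) - (Φ₁ v - conj (Φ₂ v))) (0 : ℂ →L[ℝ] ℂ) w := by
  have a := Pre.Xg_der hW hX.toPre hT (hY.continuousAt (ho.mem_nhds hw))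
    (mem_of_superset (ho.mem_nhds hw) hs) him hO
  have b := a.sub (hasFDerivAt_wl h₁ h₂)
  rwa [sub_self] at b

theorem SolX.lf1 (hW : W.Ok1) (hX : W.SolX X) {t₀ : ℂ} (H : W.D.Par1 t₀ δ h)
    (hO : ∀ w ∈ ball (0 : ℂ) δ, t₀ + w ∈ W.Om) :
    ∃ Φ₁ Φ₂ : ℂ → ℂ, ∀ w ∈ ball (0 : ℂ) δ,
      HasDerivAt Φ₁ (W.ψ₁ (t₀ + w) ^ 2 * (h w * W.D.R (t₀ + w) / (t₀ + w))) w ∧
      HasDerivAt Φ₂ (W.ψ₂ (t₀ + w) ^ 2 * (h w * W.D.R (t₀ + w) * (t₀ + w))⁻¹) w ∧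
      W.D.Xg X (t₀ + w) (h w) = Φ₁ w - conj (Φ₂ w) := by
  obtain ⟨f1, f2, f3⟩ := H.form hW.d
  have hE : ∀ w ∈ ball (0 : ℂ) δ, ¬ W.D.IsE (t₀ + w) := fun w hw => Dat.LF_notE (f3 w hw).1
  have g1 : DifferentiableOn ℂ (fun w => W.ψ₁ (t₀ + w)) (ball 0 δ) := fun w hw =>
    ((hW.ψ₁_diff (hO w hw) (hW.toOk0.b0 (hE w hw)).1).comp w
      (differentiableAt_id.const_add t₀)).differentiableWithinAt
  have g2 : DifferentiableOn ℂ (fun w => W.ψ₂ (t₀ + w)) (ball 0 δ) := fun w hw =>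
    ((hW.ψ₂_diff (hO w hw)).comp w (differentiableAt_id.const_add t₀)).differentiableWithinAt
  obtain ⟨Φ₁, d1⟩ := ((g1.pow 2).mul f1).isExactOn_ball
  obtain ⟨Φ₂, d2⟩ := ((g2.pow 2).mul f2).isExactOn_ball
  have c1 : ContinuousOn Φ₁ (ball 0 δ) := fun w hw => (d1 w hw).continuousAt.continuousWithinAt
  have c2 : ContinuousOn Φ₂ (ball 0 δ) := fun w hw => (d2 w hw).continuousAt.continuousWithinAt
  obtain ⟨k, hk⟩ := const_line (c := -t₀.im)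
    (WLF_cont hW hX (T := fun w => t₀ + w) (by fun_prop) H.hol.continuousOn c1 c2
      fun w hw => ⟨H.sq w hw, hE w hw, hO w hw⟩) fun w hw him =>
    WLF_der hW hX isOpen_ball (T := fun w => t₀ + w) hw ((hasDerivAt_id w).const_add t₀)
      H.hol.continuousOn H.sq (fun h0 => him (by rw [add_im] at h0; linarith)) (hO w hw)
      (by rw [mul_one]; exact d1 w hw) (by rw [mul_one]; exact d2 w hw)
  refine ⟨fun w => Φ₁ w + k, Φ₂, fun w hw => ⟨(d1 w hw).add_const k, d2 w hw, ?_⟩⟩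
  rw [← hk w hw]
  ring

theorem SolX.lfA (hW : W.Ok) (hX : W.SolX X) {x₀ : ℂ} (H : W.D.Par2 x₀ δ h) (ha : W.D.IsA x₀) :
    ∃ δ' > 0, ∃ Φ₁ Φ₂ φ₁ φ₂ : ℂ → ℂ, (φ₁ 0 ≠ 0 ∨ φ₂ 0 ≠ 0) ∧ ∀ w ∈ ball (0 : ℂ) δ',
      HasDerivAt Φ₁ (φ₁ w) w ∧ HasDerivAt Φ₂ (φ₂ w) w ∧ x₀ + w ^ 2 ∈ W.Om ∧
      ¬ W.D.IsE (x₀ + w ^ 2) ∧ φ₁ w * φ₂ w = (W.F3 (x₀ + w ^ 2) * (2 * w)) ^ 2 ∧
      W.D.Xg X (x₀ + w ^ 2) (w * h (w ^ 2)) = Φ₁ w - conj (Φ₂ w) := by
  obtain ⟨δ', h1, h2, φ₁, φ₂, f1, f2, f3, f4, f5⟩ := hW.toOk1.formA H ha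
  have H' := H.mono h1 h2
  obtain ⟨Φ₁, d1⟩ := f1.isExactOn_ball
  obtain ⟨Φ₂, d2⟩ := f2.isExactOn_ball
  have c1 : ContinuousOn Φ₁ (ball 0 δ') := fun w hw => (d1 w hw).continuousAt.continuousWithinAt
  have c2 : ContinuousOn Φ₂ (ball 0 δ') := fun w hw => (d2 w hw).continuousAt.continuousWithinAt
  have cY : ContinuousOn (fun w => w * h (w ^ 2)) (ball 0 δ') :=
    continuousOn_id.mul (H'.hol.continuousOn.comp (by fun_prop) fun w hw => Dat.sq_mem_ball hw)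
  have hx : x₀.im = 0 := by
    obtain ⟨i, -, rfl⟩ := ha
    exact ofReal_im _
  have cF := WLF_cont hW.toOk1 hX (T := fun w => x₀ + w ^ 2) (by fun_prop) cY c1 c2 fun w hw =>
    ⟨(H'.on hw).1, (f4 w hw).2.1, (f4 w hw).1⟩
  obtain ⟨k, hk⟩ := const_quad (cF.mono sdiff_subset) fun w hw hre him => by
    have h0 : w ≠ 0 := fun h0 => hre (by rw [h0, zero_re])
    have hT : HasDerivAt (fun w : ℂ => x₀ + w ^ 2) (2 * w) w := by
      simpa using (hasDerivAt_pow 2 w).const_add x₀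
    refine WLF_der hW.toOk1 hX isOpen_ball (T := fun w => x₀ + w ^ 2) hw hT cY
      (fun v hv => (H'.on hv).1) ?_ (f4 w hw).1 ((f5 w hw h0).1 ▸ d1 w hw)
      ((f5 w hw h0).2 ▸ d2 w hw)
    rw [add_im, hx, zero_add, sq, mul_im]
    intro e
    rw [mul_comm w.im, ← two_mul] at e
    exact mul_ne_zero two_ne_zero (mul_ne_zero hre him) e
  have hk' : ∀ w ∈ ball (0 : ℂ) δ',
      W.D.Xg X (x₀ + w ^ 2) (w * h (w ^ 2)) - (Φ₁ w - conj (Φ₂ w)) = k := fun w hw => by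
    by_cases h0 : w = 0
    · subst h0
      have hb : ball (0 : ℂ) δ' ∈ 𝓝 (0 : ℂ) := isOpen_ball.mem_nhds hw
      refine tendsto_nhds_unique ((cF.continuousAt hb).tendsto.mono_left
        (nhdsWithin_le_nhds (s := {0}ᶜ))) (tendsto_const_nhds.congr' ?_)
      filter_upwards [mem_nhdsWithin_of_mem_nhds hb, self_mem_nhdsWithin] with v h1 h2
      exact (hk v h1 h2).symm
    · exact hk w hw h0
  refine ⟨δ', h1, fun w => Φ₁ w + k, Φ₂, φ₁, φ₂, f3 hW, fun w hw =>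
    ⟨(d1 w hw).add_const k, d2 w hw, (f4 w hw).1, (f4 w hw).2.1, (f4 w hw).2.2, ?_⟩⟩
  rw [← hk' w hw]
  ring

theorem SolX.lfE (hW : W.Ok1) (hX : W.SolX X) (hδ : 0 < δ) {T T' Yl k₁ k₂ : ℂ → ℂ}
    (h₁ : DifferentiableOn ℂ k₁ (ball 0 (δ ^ 2))) (h₂ : DifferentiableOn ℂ k₂ (ball 0 (δ ^ 2)))
    (hY : ContinuousOn Yl (ball 0 δ \ {0}))
    (hw : ∀ w ∈ ball (0 : ℂ) δ, w ≠ 0 → HasDerivAt T (T' w) w ∧ Yl w ^ 2 = W.D.P (T w) ∧
      W.D.P (T w) ≠ 0 ∧ T w ∈ W.Om ∧ T (-w) = T w ∧ Yl (-w) = -Yl w ∧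
      (w.re ≠ 0 → w.im ≠ 0 → (T w).im ≠ 0) ∧
      k₁ (w ^ 2) / w ^ 2 = W.ψ₁ (T w) ^ 2 * (Yl w * W.D.R (T w) / T w) * T' w ∧
      k₂ (w ^ 2) / w ^ 2 = W.ψ₂ (T w) ^ 2 * (Yl w * W.D.R (T w) * T w)⁻¹ * T' w) :
    Tendsto (fun w => W.D.Xg X (T w) (Yl w) - (-k₁ 0 / w - conj (-k₂ 0 / w))) (𝓝[≠] 0) (𝓝 0) := by
  obtain ⟨Ψ₁, a1, a2, a3, a4⟩ := odd_prim hδ h₁
  obtain ⟨Ψ₂, b1, b2, b3, b4⟩ := odd_prim hδ h₂
  have ho : IsOpen (ball (0 : ℂ) δ \ {0}) := isOpen_ball.sdiff isClosed_singleton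
  obtain ⟨k, hk⟩ := const_quad (δ := δ)
    (WLF_cont hW hX (T := T) (Φ₁ := fun v => -k₁ 0 / v + Ψ₁ v) (Φ₂ := fun v => -k₂ 0 / v + Ψ₂ v)
      (fun w h => (hw w h.1 h.2).1.continuousAt.continuousWithinAt) hY
      (fun w h => (a4 w h.1 h.2).continuousAt.continuousWithinAt)
      (fun w h => (b4 w h.1 h.2).continuousAt.continuousWithinAt)
      fun w h => ⟨(hw w h.1 h.2).2.1, Dat.LF_notE (hw w h.1 h.2).2.2.1, (hw w h.1 h.2).2.2.2.1⟩)
    fun w hb hre him => by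
      have h0 : w ≠ 0 := fun h0 => hre (by rw [h0, zero_re])
      obtain ⟨e1, -, -, e3, -, -, e6, e7, e8⟩ := hw w hb h0
      exact WLF_der hW hX ho ⟨hb, h0⟩ e1 hY (fun v h => (hw v h.1 h.2).2.1) (e6 hre him) e3
        (e7 ▸ a4 w hb h0) (e8 ▸ b4 w hb h0)
  have hk0 : k = 0 := by
    have hb : ((δ / 2 : ℝ) : ℂ) ∈ ball (0 : ℂ) δ := by
      rw [mem_ball_zero_iff, norm_real, Real.norm_eq_abs, abs_of_pos (by positivity)]
      linarith
    have h0 : ((δ / 2 : ℝ) : ℂ) ≠ 0 := ofReal_ne_zero.2 (by positivity)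
    generalize ((δ / 2 : ℝ) : ℂ) = w at hb h0
    have e1 := hk w hb h0
    have e2 := hk (-w) (by rwa [mem_ball_zero_iff, norm_neg, ← mem_ball_zero_iff])
      (neg_ne_zero.2 h0)
    obtain ⟨-, -, -, -, e4, e5, -⟩ := hw w hb h0
    simp only [e4, e5, Dat.Xg_neg, a3 w hb, b3 w hb, div_neg, map_add, map_neg] at e1 e2
    linear_combination (-1 / 2 : ℂ) * (e1 + e2)
  have hb : ball (0 : ℂ) δ ∈ 𝓝 (0 : ℂ) := ball_mem_nhds 0 hδ
  have t1 : Tendsto Ψ₁ (𝓝 0) (𝓝 0) := by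
    simpa [a2] using (a1.continuousOn.continuousAt hb).tendsto
  have t2 : Tendsto Ψ₂ (𝓝 0) (𝓝 0) := by
    simpa [b2] using (b1.continuousOn.continuousAt hb).tendsto
  have t3 : Tendsto (fun w => Ψ₁ w - conj (Ψ₂ w)) (𝓝 0) (𝓝 0) := by
    simpa using t1.sub ((continuous_conj.tendsto 0).comp t2)
  refine (t3.mono_left nhdsWithin_le_nhds).congr' ?_
  filter_upwards [mem_nhdsWithin_of_mem_nhds hb, self_mem_nhdsWithin] with v h1 h2
  have e := hk v h1 h2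
  rw [hk0, map_add] at e
  linear_combination -e

theorem SolX.XA_der (hW : W.Ok1) (hX : W.SolX X) {e : ι × Bool} {v : ℂ} (hv : v ∈ W.Ann2 e) :
    HasFDerivAt (W.XA X e) (wl (W.f1 e v) (W.f2 e v)) v := by
  obtain ⟨ε, h0, hε⟩ := Metric.isOpen_iff.1 (Pl.isOpen_ann2 e) v hv
  have hm : ∀ w ∈ ball (0 : ℂ) ε, v + w ∈ W.Ann2 e := fun w hw => hε (by simpa using hw)
  have hb : ∀ w ∈ ball (0 : ℂ) ε, v + w ∈ ball (0 : ℂ) (2 * W.ρ e) := fun w hw =>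
    mem_ball_zero_iff.2 (hm w hw).2
  obtain ⟨Φ₁, Φ₂, hΦ⟩ := hX.lf1 hW (t₀ := W.c e + v) (δ := ε) (h := fun w => W.yb e (v + w))
    ⟨h0, (hW.yhol e).comp (by fun_prop) hb, fun w hw => hW.toOk0.yb_ne (hm w hw).2,
      fun w hw => by rw [hW.ysq e _ (hb w hw), add_assoc]⟩
    fun w hw => by rw [add_assoc]; exact hW.pl.ann2_mem (hm w hw)
  obtain ⟨d1, d2, -⟩ := hΦ 0 (mem_ball_self h0)
  simp only [add_zero] at d1 d2
  rw [← sub_self v] at d1 d2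
  refine (hasFDerivAt_wl (d1.comp_sub_const v v) (d2.comp_sub_const v v)).congr_of_eventuallyEq ?_
  filter_upwards [ball_mem_nhds v h0] with u hu
  have e1 := (hΦ (u - v) (by simpa [dist_eq_norm] using hu)).2.2
  rwa [add_assoc, add_sub_cancel] at e1

theorem XA_eq (hW : W.Ok0) {e : ι × Bool} {v : ℂ} (hv : ‖v‖ < 2 * W.ρ e)
    (ht : 0 ≤ (W.c e + v).im) : W.XA X e v = X (W.c e + v) := by
  rw [XA, hW.yup e v (mem_ball_zero_iff.2 hv) (hW.im_nonneg hv ht) ht, Dat.Xg_Y ht]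

theorem SolX.XA_glue (hW : W.Ok1) (hX : W.SolX X) {e : ι × Bool} {v₀ : ℂ} (h₀ : v₀ ∈ W.Ann e)
    (he : W.XA X e v₀ = W.XA X (op e) (W.s e.1 / v₀)) :
    ∀ v ∈ W.Ann e, W.XA X e v = W.XA X (op e) (W.s e.1 / v) := by
  have d1 : ∀ v ∈ W.Ann e, HasFDerivAt (W.XA X e) (wl (W.f1 e v) (W.f2 e v)) v := fun v hv =>
    hX.XA_der hW (hW.pl.ann_sub e hv)
  have d2 : ∀ v ∈ W.Ann e, HasFDerivAt (fun v => W.XA X (op e) (W.s e.1 / v))
      (wl (W.f1 e v) (W.f2 e v)) v := fun v hv => by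
    have h1 : HasDerivAt (fun v => W.s e.1 / v) (-(W.s e.1 / v ^ 2)) v := by
      simpa [div_eq_mul_inv] using (hasDerivAt_inv (hW.pl.ann_ne hv)).const_mul (W.s e.1)
    refine ((hX.XA_der hW (hW.pl.ann_sub _ (hW.pl.ann_op hv))).comp v
      (h1.hasFDerivAt.restrictScalars ℝ)).congr_fderiv (ContinuousLinearMap.ext fun u => ?_)
    rw [hW.m1.mt e v hv, hW.m2.mt e v hv]
    simp [wl_apply]
    ring
  exact (Pl.isOpen_ann e).eqOn_of_fderiv_eq (𝕜 := ℝ) (ann_preconn (hW.pl.rin_pos e).le)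
    (fun v hv => (d1 v hv).differentiableAt.differentiableWithinAt)
    (fun v hv => (d2 v hv).differentiableAt.differentiableWithinAt)
    (fun v hv => (d1 v hv).fderiv.trans (d2 v hv).fderiv.symm) h₀ he

theorem Sol.XA_glue (hW : W.Ok1) (hX : W.Sol X H) (e : ι × Bool) :
    ∀ v ∈ W.Ann e, W.XA X e v = W.XA X (op e) (W.s e.1 / v) := by
  have hn : ∀ {e v}, v ∈ W.Ann e → ‖v‖ < 2 * W.ρ e := fun hv => (hW.pl.ann_sub _ hv).2
  have key : ∀ e, 0 ≤ (W.c e).im → ∀ v ∈ W.Ann e,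
      W.XA X e v = W.XA X (op e) (W.s e.1 / v) := fun e he => by
    have h1 := hW.pl.rin_pos e
    have h2 := hW.pl.rin_mu e
    have h3 := hW.pl.mu_ρ e
    have h4 : ‖(W.mu e : ℂ) * I‖ = W.mu e := by
      rw [norm_mul, norm_I, mul_one, norm_real, Real.norm_of_nonneg (by linarith)]
    have h5 : (W.mu e : ℂ) * I ∈ W.Ann e := ⟨by rw [h4]; linarith, by rw [h4]; linarith⟩
    have h6 : 0 ≤ (W.c e + W.mu e * I).im := by
      simp only [add_im, mul_im, ofReal_re, I_im, mul_one, ofReal_im, I_re, mul_zero, add_zero]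
      linarith
    refine hX.toSolX.XA_glue hW h5 ?_
    rw [XA_eq hW.toOk0 (hn h5) h6, XA_eq hW.toOk0 (hn (hW.pl.ann_op h5))
      ((hW.toOk0.partner h5).1 h6), hX.glueX e _ h5 he h6]
  have cj : ∀ e, ∀ v ∈ W.Ann e, W.XA X (W.κ e.1, e.2) (conj v) = -conj (W.XA X e v) :=
    fun e v hv => by
      have hb := mem_ball_zero_iff.2 (hn hv)
      rw [XA, XA, hW.sy.c, hW.yconj e v hb, Dat.Xg_neg, ← map_add,
        hX.toSolX.Xg_conj hW (hW.pl.ann2_mem (hW.pl.ann_sub e hv)) (hW.ysq e v hb)]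
  intro v hv
  rcases le_total 0 (W.c e).im with he | he
  · exact key e he v hv
  · have h1 := key (W.κ e.1, e.2) (by rw [hW.sy.c, conj_im]; linarith) _ (hW.sy.ann hv)
    have h2 := cj (op e) _ (hW.pl.ann_op hv)
    rw [map_div₀, ← hW.sy.s] at h2
    rw [cj e v hv] at h1
    exact (starRingEnd ℂ).injective (neg_injective (h1.trans h2))

end Wd

end Pool.Agent.MP_92463a_gt

end
end

section

open Set Complex Filter Metric
open scoped Topology ComplexConjugate ContDiff Manifold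

noncomputable section

namespace Pool.Agent.MP_92463a_gt

theorem WH_inv (b : ℂ) : Tendsto (fun t : ℂ => b / t) (Bornology.cobounded ℂ) (𝓝 0) := by
  simpa [div_eq_mul_inv] using (tendsto_inv₀_cobounded (α := ℂ)).const_mul b

theorem WH_ne : ∀ᶠ t : ℂ in Bornology.cobounded ℂ, t ≠ 0 :=
  Bornology.eventually_ne_cobounded 0

theorem WH_lin {K : ℂ → ℂ} {A : ℂ} (hK : Differentiable ℂ K)
    (hA : Tendsto (fun t => K t / t) (Bornology.cobounded ℂ) (𝓝 A)) (t : ℂ) :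
    K t = K 0 + A * t := by
  have h1 : Differentiable ℂ (dslope K 0) := differentiableOn_univ.1
    ((differentiableOn_dslope univ_mem).2 hK.differentiableOn)
  have h2 : Tendsto (dslope K 0) (cocompact ℂ) (𝓝 A) := by
    rw [← Metric.cobounded_eq_cocompact]
    have := hA.sub (WH_inv (K 0))
    rw [sub_zero] at this
    refine this.congr' (WH_ne.mono fun t ht => ?_)
    simp only [dslope_of_ne _ ht, slope_def_field, sub_zero, sub_div]
  have h3 := sub_smul_dslope K 0 t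
  rw [h1.apply_eq_of_tendsto_cocompact t h2, sub_zero, smul_eq_mul] at h3
  linear_combination -h3

theorem WH_re {Φ : ℂ → ℂ} {φ t : ℂ} (h : HasDerivAt Φ φ t) :
    HasFDerivAt (fun w => 2 * (Φ w).re) (hl φ) t := by
  have := (reCLM.hasFDerivAt.comp t (h.hasFDerivAt.restrictScalars ℝ)).const_mul (2 : ℝ)
  refine this.congr_fderiv (ContinuousLinearMap.ext fun v => ?_)
  simp [hl_apply, mul_comm]

theorem WH_log {c t : ℂ} (h : t - c ≠ 0) : ∃ Φ : ℂ → ℂ, HasDerivAt Φ (t - c)⁻¹ t ∧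
    ∀ᶠ w in 𝓝 t, (Φ w).re = Real.log ‖w - c‖ := by
  refine ⟨fun w => log ((w - c) / (t - c)) + (Real.log ‖t - c‖ : ℝ), ?_, ?_⟩
  · have := ((((hasDerivAt_id t).sub_const c).div_const (t - c)).clog
      (by simp [div_self h])).add_const ((Real.log ‖t - c‖ : ℝ) : ℂ)
    refine this.congr_deriv ?_
    simp [div_self h]
  · have : ∀ᶠ w in 𝓝 t, w - c ≠ 0 := (continuous_id.sub continuous_const).continuousAt.eventually_ne h
    filter_upwards [this] with w hw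
    rw [add_re, log_re, ofReal_re, norm_div, Real.log_div (norm_ne_zero_iff.2 hw)
      (norm_ne_zero_iff.2 h), sub_add_cancel]

theorem WH_logd (c : ℂ) : Tendsto (fun t : ℂ => Real.log ‖t - c‖ - Real.log ‖t‖)
    (Bornology.cobounded ℂ) (𝓝 0) := by
  have h1 : Tendsto (fun t : ℂ => ‖1 - c / t‖) (Bornology.cobounded ℂ) (𝓝 1) := by
    simpa using ((WH_inv c).const_sub 1).norm
  have h2 := h1.log one_ne_zero
  rw [Real.log_one] at h2
  refine h2.congr' ?_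
  filter_upwards [WH_ne, h1.eventually_ne one_ne_zero] with t ht hc
  have e : 1 - c / t = (t - c) / t := by field_simp
  rw [e, norm_div] at hc ⊢
  exact Real.log_div (div_ne_zero_iff.1 hc).1 (norm_ne_zero_iff.2 ht)

namespace Wd

variable {ι : Type} [Fintype ι] {W : Wd ι} {X : ℂ → ℂ}

theorem Ok0.WH_b (h : W.Ok0) : (W.D.b 0 : ℂ) ≠ 0 ∧ (0 : ℂ) ∈ W.Om ∧ (-W.D.b 0 : ℂ) ∈ W.Om :=
  ⟨ofReal_ne_zero.2 (h.d.b_pos 0 h.q_pos).ne', (h.zero_fd (Dat.P_eq_zero.2 (.inl (.inl rfl)))).2,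
    (h.zero_fd (Dat.P_eq_zero.2 (.inl (.inr ⟨0, h.q_pos, rfl⟩)))).2⟩

theorem Ok1.WH_c (h : W.Ok1) : (W.c0 : ℂ) = W.ψ₁ 0 * W.ψ₂ 0 ∧
    (W.q0 : ℂ) = -W.ℓ * W.ψ₂ (-W.D.b 0) := by
  obtain ⟨-, h0, hb⟩ := h.toOk0.WH_b
  have e1 := h.ψ₁_conj h0
  have e2 := h.ψconj _ h0
  have e3 := h.ψconj _ hb
  simp only [map_zero, map_neg, conj_ofReal] at e1 e2 e3
  refine ⟨conj_eq_iff_re.1 ?_, conj_eq_iff_re.1 ?_⟩
  · rw [map_mul, ← e1, ← e2]
  · rw [map_mul, ← e3, map_neg, conj_ofReal]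

/-- the numerator of the height differential without its principal parts -/
def WHN (W : Wd ι) (t : ℂ) : ℂ :=
  (W.χ t * (t + W.D.b 0) + W.ℓ * W.D.b 0) * W.ψ₂ t -
    t * (t + W.D.b 0) * ∑ e, W.pf W.f3 e (t - W.c e)

theorem WH_N {t : ℂ} (h0 : t ≠ 0) (hb : t + W.D.b 0 ≠ 0) :
    W.WHN t = t * (t + W.D.b 0) * (W.F3 t - ∑ e, W.pf W.f3 e (t - W.c e)) := by
  simp only [WHN, F3, ψ₁]
  field_simp

theorem Ok1.WH_core (h : W.Ok1) {t : ℂ} (ht : t ∈ W.Om) :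
    W.WHN t = W.D.b 0 * W.c0 + (1 - ∑ e, W.rs W.f3 e) * t := by
  classical
  obtain ⟨hb, h0, hb'⟩ := h.toOk0.WH_b
  have hV : IsOpen {t : ℂ | t ≠ 0 ∧ t + W.D.b 0 ≠ 0} :=
    isOpen_ne.inter (isOpen_ne_fun (by fun_prop) continuous_const)
  obtain ⟨k, hk, ek⟩ := h.m3.decomp h.pl hV (f := W.F3) (fun t ht =>
    (((h.ψ₁_diff ht.2 ht.1.2).mul (h.ψ₂_diff ht.2)).div differentiableAt_id
      ht.1.1).differentiableWithinAt) fun _ _ _ _ => rfl
  have hN : ∀ t ∈ W.Om, DifferentiableAt ℂ W.WHN t := fun t ht => by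
    have h1 := h.χhol.differentiableAt (Pl.isOpen_om.mem_nhds ht)
    have h2 := h.ψ₂_diff ht
    have h3 : ∀ e, DifferentiableAt ℂ (fun t => W.pf W.f3 e (t - W.c e)) t := fun e =>
      DifferentiableAt.comp (g := W.pf W.f3 e) (f := fun t => t - W.c e) t
        ((h.m3.pf_hol h.pl e).differentiableAt ((isOpen_lt continuous_const
          continuous_norm).mem_nhds (ht e))) (differentiableAt_id.sub_const _)
    unfold WHN
    fun_prop
  set K : ℂ → ℂ := fun t => if t ∈ W.Om then W.WHN t else t * (t + W.D.b 0) * k t with hK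
  have e1 : ∀ t ∈ W.Om, K t = W.WHN t := fun t ht => if_pos ht
  have dK : Differentiable ℂ K := fun t => by
    by_cases ht : t ∈ W.Om
    · exact (hN t ht).congr_of_eventuallyEq
        (eventually_of_mem (Pl.isOpen_om.mem_nhds ht) e1)
    have tV : t ≠ 0 ∧ t + W.D.b 0 ≠ 0 := ⟨fun e => ht (e ▸ h0),
      fun e => ht (eq_neg_of_add_eq_zero_left e ▸ hb')⟩
    have h1 := hk.differentiableAt (hV.mem_nhds tV)
    refine DifferentiableAt.congr_of_eventuallyEq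
      (f := fun t => t * (t + W.D.b 0) * k t) (by fun_prop) ?_
    filter_upwards [hV.mem_nhds tV] with w hw
    by_cases hw' : w ∈ W.Om
    · rw [e1 w hw', WH_N hw.1 hw.2, ek w ⟨hw, hw'⟩, add_sub_cancel_right]
    · exact if_neg hw'
  have lim : Tendsto (fun t => K t / t) (Bornology.cobounded ℂ)
      (𝓝 (1 - ∑ e, W.rs W.f3 e)) := by
    have a1 := (WH_inv (W.D.b 0)).const_add 1
    have a2 := (((h.χinf.mul a1).add (WH_inv (W.ℓ * W.D.b 0))).mul h.ψinf).sub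
      (a1.mul (tendsto_finsetSum Finset.univ fun e _ => h.m3.pf_infty h.pl e))
    simp only [add_zero, mul_one, one_mul] at a2
    obtain ⟨R, hR⟩ := Pl.om_far (P := W.toPl)
    refine a2.congr' ?_
    filter_upwards [WH_ne, (tendsto_norm_cobounded_atTop (E := ℂ)).eventually
      (eventually_gt_atTop R)] with t h1 h2
    rw [e1 t (hR t h2).2, WHN, ← Finset.sum_mul]
    field_simp
  rw [← e1 t ht, WH_lin dK lim t, e1 0 h0, h.WH_c.1]
  simp only [WHN, ψ₁, zero_add, zero_mul, sub_zero]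
  field_simp

theorem Ok1.WH_res (h : W.Ok1) : (W.c0 : ℂ) + W.q0 + ∑ e, W.rs W.f3 e = 1 := by
  obtain ⟨hb, -, hb'⟩ := h.toOk0.WH_b
  have := h.WH_core hb'
  simp only [WHN, neg_add_cancel, mul_zero, zero_mul, zero_add, sub_zero] at this
  rw [h.WH_c.2]
  apply mul_left_cancel₀ hb
  linear_combination -this

theorem Ok1.F3_eq (h : W.Ok1) {t : ℂ} (ht : t ∈ W.Om) (h0 : t ≠ 0) (hb : t + W.D.b 0 ≠ 0) :
    W.F3 t = W.c0 / t + W.q0 / (t + W.D.b 0) + ∑ e, W.pf W.f3 e (t - W.c e) := by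
  have := h.WH_core ht
  rw [WH_N h0 hb, ← h.WH_res] at this
  rw [← sub_eq_iff_eq_add]
  field_simp
  linear_combination this

theorem Ok1.res_sum (h : W.Ok1) : (W.c0 : ℂ) + W.q0 + ∑ e, W.rs W.f3 e = 1 := h.WH_res

theorem Ok1.hh_der (h : W.Ok1) (hr : ∀ e, (W.rs W.f3 e).im = 0) {t : ℂ} (ht : t ∈ W.Om)
    (he : ¬ W.D.IsE t) : HasFDerivAt W.hh (hl (W.F3 t)) t := by
  obtain ⟨hb, h0⟩ := h.toOk0.b0 he
  obtain ⟨Φ, a1, a2⟩ := WH_log (c := 0) (t := t) (by rwa [sub_zero])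
  obtain ⟨Ψ, b1, b2⟩ := WH_log (c := -W.D.b 0) (t := t) (by rwa [sub_neg_eq_add])
  have hc : ∀ e, t - W.c e ≠ 0 := fun e => norm_pos_iff.1 ((h.pl.rin_pos e).trans (ht e))
  choose Θ c1 c2 using fun e => WH_log (hc e)
  have d : ∀ e, HasDerivAt (fun w => W.rs W.f3 e * Θ e w + W.th W.f3 e (w - W.c e))
      (W.pf W.f3 e (t - W.c e)) t := fun e => by
    refine (((c1 e).const_mul (W.rs W.f3 e)).add ((h.m3.th_der h.pl e (ht e)).comp_sub_const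
      t (W.c e))).congr_deriv ?_
    rw [div_eq_mul_inv, add_sub_cancel]
  have D := WH_re (((a1.const_mul (W.c0 : ℂ)).add (b1.const_mul (W.q0 : ℂ))).add
    (HasDerivAt.fun_sum (u := Finset.univ) fun e _ => d e))
  rw [sub_zero, sub_neg_eq_add, ← div_eq_mul_inv, ← div_eq_mul_inv, ← h.F3_eq ht h0 hb] at D
  refine D.congr_of_eventuallyEq ?_
  filter_upwards [a2, b2, eventually_all.2 c2] with w e1 e2 e3
  simp only [hh, Pi.add_apply, add_re, re_sum, mul_re, ofReal_re, ofReal_im, hr, zero_mul,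
    sub_zero, e1, e2, e3, sub_neg_eq_add]

theorem Ok1.hh_conj (h : W.Ok1) {t : ℂ} (ht : t ∈ W.Om) : W.hh (conj t) = W.hh t := by
  have hc : ∀ e : ι × Bool, ∀ v, ‖v‖ = W.ρ e →
      W.f3 (W.κ e.1, e.2) (conj v) = (1 : ℝ) * conj (W.f3 e v) := fun e v hv => by
    rw [(h.f_conj (h.pl.circ_mem hv)).2.2, ofReal_one, one_mul]
  have hi : Function.Involutive fun e : ι × Bool => (W.κ e.1, e.2) := fun e => by
    simp only [h.sy.inv]
  have e1 : ‖conj t + W.D.b 0‖ = ‖t + W.D.b 0‖ := by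
    rw [← norm_conj (t + _), map_add, conj_ofReal]
  simp only [hh, norm_conj, e1]
  congr 2
  rw [← hi.bijective.sum_comp]
  refine Finset.sum_congr rfl fun e _ => ?_
  rw [h.sy.c, ← map_sub, norm_conj, Pl.rs_conj h.pl h.sy hc, Pl.th_conj h.pl h.sy hc e (ht e)]
  simp

theorem Ok1.hh_top (h : W.Ok1) : Tendsto W.hh (Bornology.cobounded ℂ) atTop := by
  have hs := congrArg re h.res_sum
  simp only [add_re, ofReal_re, re_sum, one_re] at hs
  have a1 : Tendsto (fun t : ℂ => Real.log ‖t‖) (Bornology.cobounded ℂ) atTop :=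
    Real.tendsto_log_atTop.comp tendsto_norm_cobounded_atTop
  have a2 := ((WH_logd (-W.D.b 0)).const_mul W.q0).add (tendsto_finsetSum Finset.univ fun e _ =>
    ((WH_logd (W.c e)).const_mul (W.rs W.f3 e).re).add
      ((continuous_re.tendsto _).comp (h.m3.th_infty h.pl e)))
  refine ((a1.atTop_add a2).const_mul_atTop two_pos).congr fun t => ?_
  simp only [hh, Function.comp, sub_neg_eq_add, mul_sub, Finset.sum_add_distrib,
    Finset.sum_sub_distrib, ← Finset.sum_mul]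
  linear_combination (-2 * Real.log ‖t‖) * hs

theorem Ok1.WH_glue (h : W.Ok1) (hr : ∀ e, (W.rs W.f3 e).im = 0) {e : ι × Bool} {v₀ : ℂ}
    (h₀ : v₀ ∈ W.Ann e) (he : W.hh (W.c e + v₀) = W.hh (W.c (op e) + W.s e.1 / v₀)) :
    ∀ v ∈ W.Ann e, W.hh (W.c e + v) = W.hh (W.c (op e) + W.s e.1 / v) := fun v hv => by
  have a : ∀ e, ∀ v ∈ W.Ann e, HasFDerivAt W.hh (hl (W.f3 e v)) (W.c e + v) := fun e v hv =>
    h.hh_der hr (h.pl.ann2_mem (h.pl.ann_sub e hv)) (Dat.LF_notE (h.free e v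
      (mem_ball_zero_iff.2 (h.pl.ann_sub e hv).2)))
  have d : ∀ v ∈ W.Ann e, HasFDerivAt (fun v => W.hh (W.c e + v) -
      W.hh (W.c (op e) + W.s e.1 / v)) (0 : ℂ →L[ℝ] ℝ) v := fun v hv => by
    have b1 := (a e v hv).comp v ((hasFDerivAt_id v).const_add (W.c e))
    have b2 := (a _ _ (h.pl.ann_op hv)).comp v (((((hasDerivAt_id v).inv
      (h.pl.ann_ne hv)).const_mul (W.s e.1)).const_add
        (W.c (op e))).hasFDerivAt.restrictScalars ℝ)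
    refine (b1.sub b2).congr_fderiv (ContinuousLinearMap.ext fun w => ?_)
    have : W.f3 (op e) (W.s e.1 / v) * (w * (W.s e.1 * (-1 / v ^ 2))) = W.f3 e v * w := by
      rw [h.m3.mt e v hv]
      ring
    simp [hl_apply, this]
  have := (Pl.isOpen_ann e).is_const_of_fderiv_eq_zero (𝕜 := ℝ)
    (ann_preconn (h.pl.rin_pos e).le) (fun v hv => (d v hv).differentiableAt.differentiableWithinAt)
    (fun v hv => (d v hv).fderiv) hv h₀
  rw [he, sub_self] at this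
  exact sub_eq_zero.1 this

omit [Fintype ι] in
theorem WH_op (h : W.toPl.Ok) {Z : Type} {A : ι × Bool → ℂ → Z} {k : ι}
    (hA : ∀ v ∈ W.Ann (k, false), A (k, false) v = A (k, true) (W.s k / v)) (b : Bool) :
    ∀ v ∈ W.Ann (k, b), A (k, b) v = A (op (k, b)) (W.s k / v) := fun v hv => by
  cases b
  · exact hA v hv
  · have := hA _ (h.ann_op hv)
    rw [div_div_cancel₀ (h.s_ne k)] at this
    exact this.symm

theorem SolX.sol (h : W.Ok1) (hX : W.SolX X) (hr : ∀ k, (W.rs W.f3 (k, false)).im = 0)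
    (hV : ∀ k, ∃ v ∈ W.Ann (k, false),
      W.hh (W.c (k, false) + v) = W.hh (W.c (k, true) + W.s k / v))
    (hB : ∀ k, ¬ W.Low k → ∃ v ∈ W.Ann (k, false), 0 ≤ (W.c (k, false) + v).im ∧
      X (W.c (k, false) + v) = X (W.c (k, true) + W.s k / v)) : W.Sol X W.hh := by
  have hr' : ∀ e, (W.rs W.f3 e).im = 0 := by
    rintro ⟨k, _ | _⟩
    · exact hr k
    · rw [show (k, true) = op (k, false) from rfl, h.m3.rs_op h.pl, neg_im, hr, neg_zero]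
  have eq : ∀ e, ∀ v ∈ W.Ann e, 0 ≤ (W.c e + v).im → W.XA X e v = X (W.c e + v) ∧
      W.XA X (op e) (W.s e.1 / v) = X (W.c (op e) + W.s e.1 / v) := fun e v hv hi =>
    ⟨XA_eq h.toOk0 (h.pl.ann_sub e hv).2 hi,
      XA_eq h.toOk0 (h.pl.ann_sub _ (h.pl.ann_op hv)).2 ((h.toOk0.partner hv).1 hi)⟩
  refine ⟨hX, fun ⟨k, b⟩ v hv hc hi => ?_, fun t ht he => h.hh_der hr' ht he,
    fun t ht => h.hh_conj ht, fun ⟨k, b⟩ => ?_, h.hh_top⟩
  · obtain ⟨v₀, h₀, i₀, e₀⟩ := hB k ((h.toOk0.not_low (k, b)).2 hc)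
    rw [← (eq _ v hv hi).1, ← (eq _ v hv hi).2]
    exact WH_op h.pl (hX.XA_glue h h₀ ((eq _ _ h₀ i₀).1.trans (e₀.trans (eq _ _ h₀ i₀).2.symm)))
      b v hv
  · obtain ⟨v₀, h₀, e₀⟩ := hV k
    exact WH_op h.pl (A := fun e v => W.hh (W.c e + v)) (h.WH_glue hr' h₀ e₀) b

end Wd

end Pool.Agent.MP_92463a_gt

end
end

section

open Set Complex Filter Metric
open scoped Topology ComplexConjugate ContDiff Manifold

noncomputable section

namespace Pool.Agent.MP_92463a_gt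

lemma Emb2_path {E : Type} [NormedAddCommGroup E] [NormedSpace ℝ E] {f : ℝ → E} {K : ℝ}
    (h : ∀ x ∈ Icc (0 : ℝ) 1, ∃ f', HasDerivAt f f' x ∧ ‖f'‖ ≤ K) : ‖f 1 - f 0‖ ≤ K := by
  choose! g hg using h
  exact norm_image_sub_le_of_norm_deriv_le_segment_01' (f' := g)
    (fun x hx => (hg x hx).1.hasDerivWithinAt) (fun x hx => (hg x (Ico_subset_Icc_self hx)).2)

lemma Emb2_exp (p w : ℂ) (x : ℝ) :
    HasDerivAt (fun s : ℝ => p * exp (s * w)) (p * exp (x * w) * w) x := by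
  have h1 : HasDerivAt (fun s : ℝ => (s : ℂ) * w) w x := by
    simpa using ((hasDerivAt_id (x : ℂ)).mul_const w).comp_ofReal
  simpa [mul_assoc] using h1.cexp.const_mul p

lemma Emb2_re {w : ℂ} (hθ : |w.im| ≤ Real.pi) (h1 : |w.re| ≤ ‖w‖ / 100) :
    |w.re| ≤ |w.im| / 99 ∧ |w.re| ≤ 1 / 2 := by
  have h2 := norm_le_abs_re_add_abs_im w
  have h3 := Real.pi_lt_four
  constructor <;> linarith

lemma Emb2_exp_le {x : ℝ} (h : |x| ≤ 1 / 2) : Real.exp x ≤ 2 := by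
  have h1 := Real.abs_exp_sub_one_le (x := x) (by linarith)
  have h2 := le_abs_self (Real.exp x - 1)
  linarith

/-- The model catenoid is injective. -/
lemma Emb2_core {p q w : ℂ} {A : ℝ} (hA : 0 < A) (h0 : ‖p‖ + ‖q‖ = A) (h0' : A / 2 ≤ ‖p + q‖)
    (hθ : |w.im| ≤ Real.pi) (h1 : |w.re| ≤ ‖w‖ / 100)
    (h2 : ‖p * exp w + q * exp (-conj w) - (p + q)‖ ≤ ‖w‖ * A / 50) : w = 0 := by
  obtain ⟨r1, r2⟩ := Emb2_re hθ h1
  have hn := norm_le_abs_re_add_abs_im w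
  have e1 : exp w = (Real.exp w.re : ℝ) * exp (I * w.im) := by
    rw [ofReal_exp, ← exp_add]
    congr 1
    apply Complex.ext <;> simp
  have e2 : exp (-conj w) = (Real.exp (-w.re) : ℝ) * exp (I * w.im) := by
    rw [ofReal_exp, ← exp_add]
    congr 1
    apply Complex.ext <;> simp
  have n1 : ‖exp (I * w.im)‖ = 1 := by
    rw [norm_exp]
    simp
  have l1 : 2 / Real.pi * |w.im| ≤ ‖exp (I * w.im) - 1‖ := by
    rw [norm_exp_I_mul_ofReal_sub_one, Real.norm_eq_abs, abs_mul, abs_two]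
    have := Real.mul_abs_le_abs_sin (x := w.im / 2) (by rw [abs_div, abs_two]; linarith)
    rw [abs_div, abs_two] at this
    linarith
  have l2 : 1 / 2 ≤ 2 / Real.pi := by
    rw [div_le_div_iff₀ (by norm_num) Real.pi_pos]
    linarith [Real.pi_lt_four]
  have l3 : 1 / 2 * |w.im| ≤ ‖exp (I * w.im) - 1‖ :=
    (mul_le_mul_of_nonneg_right l2 (abs_nonneg _)).trans l1
  have b1 : ‖((Real.exp w.re : ℝ) : ℂ) - 1‖ ≤ 2 * |w.re| := by
    rw [← ofReal_one, ← ofReal_sub, norm_real, Real.norm_eq_abs]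
    exact Real.abs_exp_sub_one_le (by linarith)
  have b2 : ‖((Real.exp (-w.re) : ℝ) : ℂ) - 1‖ ≤ 2 * |w.re| := by
    rw [← ofReal_one, ← ofReal_sub, norm_real, Real.norm_eq_abs, ← abs_neg w.re]
    exact Real.abs_exp_sub_one_le (by rw [abs_neg]; linarith)
  rw [e1, e2] at h2
  generalize ((Real.exp w.re : ℝ) : ℂ) = x at *
  generalize ((Real.exp (-w.re) : ℝ) : ℂ) = y at *
  generalize exp (I * w.im) = u at *
  have e3 : (p + q) * (u - 1) =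
      (p * (x * u) + q * (y * u) - (p + q)) - (p * (x - 1) + q * (y - 1)) * u := by ring
  have b3 : ‖(p * (x - 1) + q * (y - 1)) * u‖ ≤ A * (2 * |w.re|) := by
    rw [norm_mul, n1, mul_one, ← h0, add_mul]
    refine (norm_add_le _ _).trans ?_
    rw [norm_mul, norm_mul]
    gcongr
  have b4 : A / 2 * ‖u - 1‖ ≤ ‖w‖ * A / 50 + A * (2 * |w.re|) := by
    refine (mul_le_mul_of_nonneg_right h0' (norm_nonneg _)).trans ?_
    rw [← norm_mul, e3]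
    exact (norm_sub_le _ _).trans (add_le_add h2 b3)
  have b5 : ‖u - 1‖ / 2 ≤ ‖w‖ / 50 + 2 * |w.re| := by
    refine le_of_mul_le_mul_left (le_trans (le_of_eq ?_) (b4.trans (le_of_eq ?_))) hA <;> ring
  have b6 := abs_nonneg w.im
  have b7 : ‖w‖ ≤ 0 := by linarith
  exact norm_le_zero_iff.1 b7

lemma Emb2_between {a b r σ x : ℝ} (hr : 0 < r) (h1 : a ≤ r) (h2 : r ≤ b)
    (h1' : a ≤ r * Real.exp σ) (h2' : r * Real.exp σ ≤ b) (hx : x ∈ Icc (0 : ℝ) 1) :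
    a ≤ r * Real.exp (x * σ) ∧ r * Real.exp (x * σ) ≤ b := by
  rcases le_total 0 σ with hs | hs
  · have l1 : 1 ≤ Real.exp (x * σ) := Real.one_le_exp (mul_nonneg hx.1 hs)
    have l2 : Real.exp (x * σ) ≤ Real.exp σ := Real.exp_le_exp.2 (by nlinarith [hx.2])
    constructor <;> nlinarith
  · have l1 : Real.exp (x * σ) ≤ 1 := Real.exp_le_one_iff.2 (mul_nonpos_of_nonneg_of_nonpos hx.1 hs)
    have l2 : Real.exp σ ≤ Real.exp (x * σ) := Real.exp_le_exp.2 (by nlinarith [hx.2])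
    constructor <;> nlinarith

lemma Emb2_mul {x y α β : ℂ} (hx : ‖x - α‖ ≤ ‖α‖ / 100) (hy : ‖y - β‖ ≤ ‖β‖ / 100) :
    ‖x * y - α * β‖ ≤ ‖α * β‖ / 40 := by
  have e : x * y - α * β = (x - α) * (y - β) + (x - α) * β + α * (y - β) := by ring
  have := mul_nonneg (norm_nonneg α) (norm_nonneg β)
  rw [e]
  refine (norm_add₃_le).trans ?_
  simp only [norm_mul]
  calc _ ≤ ‖α‖ / 100 * (‖β‖ / 100) + ‖α‖ / 100 * ‖β‖ + ‖α‖ * (‖β‖ / 100) := by gcongr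
    _ ≤ _ := by linarith

lemma Emb2_pos {x y z α β : ℂ} {m : ℝ} (hm : m ≠ 0) (e : x * y = z * z)
    (hx : ‖x - α‖ ≤ ‖α‖ / 100) (hy : ‖y - β‖ ≤ ‖β‖ / 100) (hz : ‖z - m‖ ≤ |m| / 100) :
    0 < (α * β).re := by
  have hz' : ‖z - m‖ ≤ ‖(m : ℂ)‖ / 100 := by rwa [norm_real, Real.norm_eq_abs]
  have h1 := Emb2_mul hx hy
  have h2 := Emb2_mul hz' hz'
  have h0 : 0 < m * m := mul_self_pos.2 hm
  have h3 : ‖(m : ℂ) * m‖ = m * m := by
    rw [← ofReal_mul, norm_real, Real.norm_eq_abs, abs_of_pos h0]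
  have h4 : ‖(m : ℂ) * m - α * β‖ ≤ ‖α * β‖ / 40 + m * m / 40 := by
    have e' : (m : ℂ) * m - α * β = (x * y - α * β) - (z * z - m * m) := by rw [e]; ring
    rw [e', ← h3]
    exact (norm_sub_le _ _).trans (add_le_add h1 h2)
  have h5 := norm_sub_norm_le (α * β) ((m : ℂ) * m)
  rw [norm_sub_rev, h3] at h5
  have h6 := re_le_norm ((m : ℂ) * m - α * β)
  rw [sub_re, ← ofReal_mul, ofReal_re, ofReal_mul] at h6
  linarith

lemma Emb2_half {p q : ℂ} (h : 0 ≤ (p * conj q).re) : (‖p‖ + ‖q‖) / 2 ≤ ‖p + q‖ := by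
  refine le_of_sq_le_sq ?_ (norm_nonneg _)
  have e := normSq_add p q
  simp only [normSq_eq_norm_sq] at e
  nlinarith [sq_nonneg (‖p‖ - ‖q‖)]

/-- a neck close to a catenoid is embedded -/
theorem neck_inj {X f₁ f₂ f₃ : ℂ → ℂ} {H : ℂ → ℝ} {r₁ r₂ m : ℝ} {α β : ℂ} (hr : 0 < r₁)
    (hm : m ≠ 0)
    (h : ∀ v : ℂ, r₁ ≤ ‖v‖ → ‖v‖ ≤ r₂ → HasFDerivAt X (wl (f₁ v) (f₂ v)) v ∧
      HasFDerivAt H (hl (f₃ v)) v ∧ f₁ v * f₂ v = f₃ v ^ 2 ∧ ‖f₁ v * v ^ 2 - α‖ ≤ ‖α‖ / 100 ∧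
      ‖f₂ v - β‖ ≤ ‖β‖ / 100 ∧ ‖f₃ v * v - m‖ ≤ |m| / 100)
    {v v' : ℂ} (h₁ : r₁ ≤ ‖v‖) (h₂ : ‖v‖ ≤ r₂) (h₃ : r₁ ≤ ‖v'‖) (h₄ : ‖v'‖ ≤ r₂)
    (hX : X v = X v') (hH : H v = H v') : v = v' := by
  have hv : 0 < ‖v‖ := hr.trans_le h₁
  have hv' : 0 < ‖v'‖ := hr.trans_le h₃
  have hv0 : v ≠ 0 := norm_pos_iff.1 hv
  obtain ⟨w, hθ, rfl⟩ : ∃ w : ℂ, |w.im| ≤ Real.pi ∧ v' = v * exp w := by
    refine ⟨log (v' / v), by rw [log_im]; exact abs_arg_le_pi _, ?_⟩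
    rw [exp_log (div_ne_zero (norm_pos_iff.1 hv') hv0)]
    field_simp
  have nu : ∀ x : ℝ, ‖v * exp (x * w)‖ = ‖v‖ * Real.exp (x * w.re) := fun x => by
    rw [norm_mul, norm_exp, re_ofReal_mul]
  rw [norm_mul, norm_exp] at h₃ h₄
  have loc := fun (x : ℝ) (hx : x ∈ Icc (0 : ℝ) 1) => h (v * exp (x * w))
    (nu x ▸ (Emb2_between hv h₁ h₂ h₃ h₄ hx).1) (nu x ▸ (Emb2_between hv h₁ h₂ h₃ h₄ hx).2)
  have hre : |w.re| ≤ ‖w‖ / 100 := by
    have key := Emb2_path (f := fun s : ℝ => H (v * exp (s * w)) - 2 * m * w.re * s)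
      (K := 2 * |m| * (‖w‖ / 100)) (fun x hx => by
        obtain ⟨-, hL, -, -, -, hz⟩ := loc x hx
        refine ⟨_, (hL.comp_hasDerivAt x (Emb2_exp v w x)).sub
          ((hasDerivAt_id x).const_mul (2 * m * w.re)), ?_⟩
        rw [hl_apply, ← mul_assoc]
        generalize f₃ (v * exp (x * w)) * (v * exp (x * w)) = z at hz
        have e2 : 2 * (z * w).re - 2 * m * w.re * 1 = 2 * ((z - m) * w).re := by
          rw [sub_mul, sub_re, re_ofReal_mul]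
          ring
        rw [e2, norm_mul, Real.norm_eq_abs, Real.norm_eq_abs, abs_two, mul_assoc]
        refine mul_le_mul_of_nonneg_left ((abs_re_le_norm _).trans ?_) zero_le_two
        rw [norm_mul]
        exact (mul_le_mul_of_nonneg_right hz (norm_nonneg _)).trans (le_of_eq (by ring)))
    simp only [ofReal_one, one_mul, ofReal_zero, zero_mul, exp_zero, mul_one, mul_zero,
      sub_zero] at key
    rw [← hH, sub_sub_cancel_left, norm_neg, norm_mul, norm_mul, Real.norm_eq_abs,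
      Real.norm_eq_abs, Real.norm_eq_abs, abs_two] at key
    exact le_of_mul_le_mul_left key (by positivity)
  obtain ⟨-, r2⟩ := Emb2_re hθ hre
  have hpos : 0 < (α * β).re := by
    obtain ⟨-, -, e, b1, b2, b3⟩ := h v h₁ h₂
    exact Emb2_pos hm (by linear_combination v ^ 2 * e) b1 b2 b3
  have hα : α ≠ 0 := by
    rintro rfl
    simp at hpos
  have hw : -w = 0 := by
    refine Emb2_core (p := α / v) (q := conj (β * v)) (A := ‖α / v‖ + ‖conj (β * v)‖)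
      (add_pos_of_pos_of_nonneg (norm_pos_iff.2 (div_ne_zero hα hv0)) (norm_nonneg _)) rfl
      (Emb2_half ?_) (by simpa using hθ) (by simpa using hre) ?_
    · have e : α / v * conj (conj (β * v)) = α * β := by
        rw [conj_conj]
        field_simp
      rw [e]
      exact hpos.le
    have key := Emb2_path (f := fun s : ℝ => X (v * exp (s * w)) +
      (α / v * exp (s * -w) + conj (β * v) * exp (s * -conj (-w))))
      (K := ‖-w‖ * (‖α / v‖ + ‖conj (β * v)‖) / 50) (fun x hx => by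
        obtain ⟨hL, -, -, b1, b2, -⟩ := loc x hx
        refine ⟨_, (hL.comp_hasDerivAt x (Emb2_exp v w x)).add
          ((Emb2_exp (α / v) (-w) x).add (Emb2_exp (conj (β * v)) (-conj (-w)) x)), ?_⟩
        have hx1 : |x * w.re| ≤ 1 / 2 := by
          rw [abs_mul, abs_of_nonneg hx.1]
          nlinarith [hx.1, hx.2, abs_nonneg w.re]
        have n1 : ‖α / v * exp (x * -w)‖ ≤ ‖α / v‖ * 2 := by
          rw [norm_mul, norm_exp, re_ofReal_mul, neg_re, mul_neg]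
          exact mul_le_mul_of_nonneg_left (Emb2_exp_le (by rwa [abs_neg])) (norm_nonneg _)
        have n2 : ‖conj (β * v) * exp (x * -conj (-w))‖ ≤ ‖conj (β * v)‖ * 2 := by
          rw [norm_mul, norm_exp, re_ofReal_mul, neg_re, conj_re, neg_re, neg_neg]
          exact mul_le_mul_of_nonneg_left (Emb2_exp_le hx1) (norm_nonneg _)
        have e0 : α / v * exp (x * -w) = α / (v * exp (x * w)) := by
          rw [← div_div, div_eq_mul_inv _ (exp _), ← exp_neg, mul_neg]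
        have e0' : conj (β * v) * exp (x * -conj (-w)) = conj (β * (v * exp (x * w))) := by
          rw [← mul_assoc, map_mul _ _ (exp _), ← exp_conj]
          simp
        rw [wl_apply]
        rw [e0] at n1 ⊢
        rw [e0'] at n2 ⊢
        have hu : v * exp (x * w) ≠ 0 := mul_ne_zero hv0 (exp_ne_zero _)
        generalize v * exp (x * w) = u at hu n1 n2 b1 b2
        have e2 : f₁ u * (u * w) - conj (f₂ u * (u * w)) +
            (α / u * -w + conj (β * u) * -conj (-w)) =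
            (f₁ u * u ^ 2 - α) / u * w - conj ((f₂ u - β) * u * w) := by
          simp only [map_mul, map_sub, map_neg]
          field_simp
          ring
        rw [e2]
        rw [norm_conj, norm_mul] at n2
        rw [norm_div] at n1
        refine (norm_sub_le _ _).trans ?_
        rw [norm_conj, norm_mul, norm_mul, norm_mul, norm_div, norm_neg]
        calc _ ≤ ‖α‖ / 100 / ‖u‖ * ‖w‖ + ‖β‖ / 100 * ‖u‖ * ‖w‖ := by gcongr
          _ = (‖α‖ / ‖u‖ + ‖β‖ * ‖u‖) * (‖w‖ / 100) := by ring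
          _ ≤ (‖α / v‖ * 2 + ‖conj (β * v)‖ * 2) * (‖w‖ / 100) := by gcongr
          _ = _ := by ring)
    simp only [ofReal_one, one_mul, ofReal_zero, zero_mul, exp_zero, mul_one] at key
    rw [← hX, add_sub_add_left_eq_sub] at key
    exact key
  rw [neg_eq_zero.1 hw, exp_zero, mul_one]

end Pool.Agent.MP_92463a_gt

end
end

section

open Set Complex Filter Metric
open scoped Topology ComplexConjugate ContDiff Manifold

noncomputable section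

namespace Pool.Agent.MP_92463a_gt

theorem WNeck_near {a a' x x₀ : ℂ} (h1 : ‖x₀ - a‖ ≤ ‖a‖ / 1000) (h2 : ‖x₀ - a'‖ ≤ ‖a'‖ / 1000)
    (h3 : ‖x - a'‖ ≤ ‖a'‖ / 1000) : ‖x - a‖ ≤ ‖a‖ / 100 := by
  have e1 : ‖a' - a‖ ≤ ‖x₀ - a‖ + ‖x₀ - a'‖ := by
    rw [show a' - a = (x₀ - a) - (x₀ - a') by ring]
    exact norm_sub_le _ _
  have e2 : ‖a'‖ ≤ ‖a' - a‖ + ‖a‖ := by simpa using norm_add_le (a' - a) a
  have e3 : ‖x - a‖ ≤ ‖x - a'‖ + ‖a' - a‖ := by simpa using norm_add_le (x - a') (a' - a)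
  linarith [norm_nonneg a]

theorem WNeck_mul {a x : ℂ} (c : ℂ) (h : ‖x - a‖ ≤ ‖a‖ / 1000) :
    ‖c * x - c * a‖ ≤ ‖c * a‖ / 1000 := by
  rw [← mul_sub, norm_mul, norm_mul, mul_div_assoc]
  exact mul_le_mul_of_nonneg_left h (norm_nonneg c)

theorem Wd.Sol.neck {ι : Type} [Fintype ι] {W : Wd ι} {X : ℂ → ℂ} {H : ℂ → ℝ} (hW : W.Ok1)
    (hX : W.Sol X H) (k : ι) {R m : Bool → ℝ} {α β : Bool → ℂ}
    (hR : ∀ b, W.mu (k, b) ≤ R b ∧ R b < W.ρ (k, b)) (hm : ∀ b, m b ≠ 0)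
    (h : ∀ b, ∀ v : ℂ, W.mu (k, b) ≤ ‖v‖ → ‖v‖ ≤ R b →
      ‖W.fs (k, b) v * v ^ 2 - α b‖ ≤ ‖α b‖ / 1000 ∧ ‖W.fr (k, b) v - β b‖ ≤ ‖β b‖ / 1000 ∧
        ‖W.f3 (k, b) v * v - m b‖ ≤ |m b| / 1000)
    {b b' : Bool} {t t' : ℂ} (ht : t ∈ W.Q) (ht' : t' ∈ W.Q) (hf : t ∈ W.Fd) (hf' : t' ∈ W.Fd)
    (hb : ‖t - W.c (k, b)‖ ≤ R b) (hb' : ‖t' - W.c (k, b')‖ ≤ R b') (he : X t = X t')
    (hH : H t = H t') : W.Same t t' := by
  have hP := hW.pl
  have hs : W.s k ≠ 0 := hP.s_ne k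
  have hs' : 0 < ‖W.s k‖ := norm_pos_iff.2 hs
  have hμ : ∀ e, 0 < W.mu e := fun e => by linarith [hP.rin_pos e, hP.rin_mu e]
  have hμμ : W.mu (k, false) * W.mu (k, true) = ‖W.s k‖ := hP.mu_mul (k, false)
  have hR1 : 0 < R true := (hμ _).trans_le (hR true).1
  have hr : 0 < ‖W.s k‖ / R true := div_pos hs' hR1
  have hrμ : ‖W.s k‖ / R true ≤ W.mu (k, false) := by
    rw [div_le_iff₀ hR1, ← hμμ]
    exact mul_le_mul_of_nonneg_left (hR true).1 (hμ _).le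
  have hA : ∀ v : ℂ, ‖W.s k‖ / R true ≤ ‖v‖ → ‖v‖ ≤ R false → v ∈ W.Ann (k, false) :=
    fun v h1 h2 => ⟨(div_lt_div_of_pos_left hs' hR1 (hR true).2).trans_le h1,
      h2.trans_lt (hR false).2⟩
  have inn : ∀ v : ℂ, ‖W.s k‖ / R true ≤ ‖v‖ → ‖v‖ ≤ W.mu (k, false) →
      ‖W.f1 (k, false) v * v ^ 2 - -W.s k * β true‖ ≤ ‖-W.s k * β true‖ / 1000 ∧
      ‖W.f2 (k, false) v - -(W.s k)⁻¹ * α true‖ ≤ ‖-(W.s k)⁻¹ * α true‖ / 1000 ∧
      ‖W.f3 (k, false) v * v - -1 * (m true : ℂ)‖ ≤ ‖-1 * (m true : ℂ)‖ / 1000 := by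
    intro v h1 h2
    have hv := hA v h1 (h2.trans (hR false).1)
    have h0 : v ≠ 0 := hP.ann_ne hv
    have h0' : 0 < ‖v‖ := norm_pos_iff.2 h0
    obtain ⟨a1, a2, a3⟩ := h true (W.s k / v)
      (by
        rw [norm_div, le_div_iff₀ h0', ← hμμ, mul_comm]
        exact mul_le_mul_of_nonneg_right h2 (hμ _).le)
      (by
        rw [norm_div, div_le_iff₀ h0', mul_comm]
        exact (div_le_iff₀ hR1).1 h1)
    have e1 : W.f1 (k, false) v = -(W.s k / v ^ 2) * W.f1 (k, true) (W.s k / v) := hW.m1.mt _ v hv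
    have e2 : W.f2 (k, false) v = -(W.s k / v ^ 2) * W.f2 (k, true) (W.s k / v) := hW.m2.mt _ v hv
    have e3 : W.f3 (k, false) v = -(W.s k / v ^ 2) * W.f3 (k, true) (W.s k / v) := hW.m3.mt _ v hv
    rw [← Real.norm_eq_abs, ← norm_real] at a3
    refine ⟨?_, ?_, ?_⟩
    · convert WNeck_mul (-W.s k) a2 using 3
      rw [e1, show W.fr (k, true) = W.f1 (k, true) from rfl]
      field_simp
    · convert WNeck_mul (-(W.s k)⁻¹) a1 using 3
      rw [e2, show W.fs (k, true) = W.f2 (k, true) from rfl]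
      field_simp
    · convert WNeck_mul (-1) a3 using 3
      rw [e3]
      field_simp
  have hn : ‖(W.mu (k, false) : ℂ)‖ = W.mu (k, false) := by
    rw [norm_real, Real.norm_of_nonneg (hμ _).le]
  obtain ⟨b1, b2, b3⟩ := inn (W.mu (k, false)) (hn.symm ▸ hrμ) hn.le
  obtain ⟨c1, c2, c3⟩ := h false (W.mu (k, false)) hn.ge (hn.symm ▸ (hR false).1)
  rw [← Real.norm_eq_abs, ← norm_real] at c3
  have key : ∀ b t, t ∈ W.Q → t ∈ W.Fd → ‖t - W.c (k, b)‖ ≤ R b → ∃ v : ℂ,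
      ‖W.s k‖ / R true ≤ ‖v‖ ∧ ‖v‖ ≤ R false ∧ W.XA X (k, false) v = X t ∧
        H (W.c (k, false) + v) = H t ∧
        (t = W.c (k, false) + v ∨ t = W.c (k, true) + W.s k / v) := by
    intro b t ht hf hb
    have h1 := hf (k, b)
    have h2 : t - W.c (k, b) ∈ W.Ann (k, b) :=
      ⟨by linarith [hP.rin_pos (k, b), hP.rin_mu (k, b)], hb.trans_lt (hR b).2⟩
    have h3 : W.XA X (k, b) (t - W.c (k, b)) = X t := by
      rw [Wd.XA_eq hW.toOk0 (hP.ann_sub _ h2).2 (by simpa using ht.1.1), add_sub_cancel]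
    have h0 : t - W.c (k, b) ≠ 0 := hP.ann_ne h2
    have h0' := norm_pos_iff.2 h0
    cases b
    · exact ⟨_, hrμ.trans h1, hb, h3, by rw [add_sub_cancel], Or.inl (by ring)⟩
    · refine ⟨W.s k / (t - W.c (k, true)), ?_, ?_, ?_, ?_, Or.inr ?_⟩
      · rw [norm_div]
        exact div_le_div_of_nonneg_left hs'.le h0' hb
      · rw [norm_div, div_le_iff₀ h0', ← hμμ]
        exact mul_le_mul (hR false).1 h1 (hμ _).le ((hμ _).le.trans (hR false).1)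
      · exact (hX.XA_glue hW _ _ h2).symm.trans h3
      · have h4 := hX.glueH _ _ h2
        rw [add_sub_cancel] at h4
        exact h4.symm
      · field_simp
        ring
  obtain ⟨v, v1, v2, v3, v4, v5⟩ := key b t ht hf hb
  obtain ⟨v', w1, w2, w3, w4, w5⟩ := key b' t' ht' hf' hb'
  have hv := hA v v1 v2
  obtain rfl : v = v' := by
    refine neck_inj (X := W.XA X (k, false)) (H := fun v => H (W.c (k, false) + v))
      (f₁ := W.f1 (k, false)) (f₂ := W.f2 (k, false)) (f₃ := W.f3 (k, false)) (α := α false)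
      (β := β false) hr (hm false) (fun u h1 h2 => ?_) v1 v2 w1 w2 (by rw [v3, w3, he])
      (by simp only [v4, w4, hH])
    have hu := hP.ann_sub _ (hA u h1 h2)
    refine ⟨hX.toSolX.XA_der hW hu, ?_, hW.toOk0.f_mul hu.2, ?_⟩
    · exact (hasFDerivAt_comp_add_left _).2 (hX.derH _ (hP.ann2_mem hu)
        (Dat.LF_notE (hW.free _ u (mem_ball_zero_iff.2 hu.2))))
    · rcases le_total ‖u‖ (W.mu (k, false)) with h3 | h3
      · obtain ⟨a1, a2, a3⟩ := inn u h1 h3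
        refine ⟨WNeck_near c1 b1 a1, WNeck_near c2 b2 a2, ?_⟩
        rw [← Real.norm_eq_abs, ← norm_real]
        exact WNeck_near c3 b3 a3
      · obtain ⟨a1, a2, a3⟩ := h false u h3 h2
        exact ⟨a1.trans (by linarith [norm_nonneg (α false)]),
          a2.trans (by linarith [norm_nonneg (β false)]),
          a3.trans (by linarith [abs_nonneg (m false)])⟩
  rcases v5 with rfl | rfl <;> rcases w5 with rfl | rfl
  · exact Or.inl rfl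
  · exact Or.inr ⟨_, v, hv, rfl, rfl⟩
  · refine Or.inr ⟨(k, true), _, hP.ann_op hv, rfl, ?_⟩
    have h0 := hP.ann_ne hv
    change W.c (k, false) + v = W.c (k, false) + W.s k / (W.s k / v)
    field_simp
  · exact Or.inl rfl

end Pool.Agent.MP_92463a_gt

end
end

section

open Set Complex Filter Metric
open scoped Topology ComplexConjugate ContDiff Manifold

noncomputable section

namespace Pool.Agent.MP_92463a_gt

theorem WEnds_sq {z : ℂ} (h : z = conj z) : z ^ 2 = ((z.re ^ 2 : ℝ) : ℂ) := by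
  rw [ofReal_pow, conj_eq_iff_re.1 h.symm]

theorem Dat.WEnds_sign {D : Dat} (hD : D.Ok) {x₀ : ℂ} (he : D.IsE x₀) {δ : ℝ} (hδ : 0 < δ)
    {k₁ k₂ : ℂ → ℂ} (c₁ : ContinuousAt k₁ 0) (c₂ : ContinuousAt k₂ 0) (h0 : x₀ = 0 → k₂ 0 = 0)
    (hj : ∀ j < D.q, x₀ = -D.b j → (Even j → k₁ 0 = 0) ∧ (Odd j → k₂ 0 = 0))
    (hk : ∀ w : ℝ, 0 < w → (w : ℂ) ∈ ball (0 : ℂ) δ → ∃ r₁ r₂ : ℝ, 0 ≤ r₁ ∧ 0 ≤ r₂ ∧
      k₁ (w ^ 2) / w ^ 2 = r₁ * (D.G (x₀ + w ^ 2) / (x₀ + w ^ 2)) * (2 * w) ∧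
      k₂ (w ^ 2) / w ^ 2 = r₂ * (D.G (x₀ + w ^ 2) * (x₀ + w ^ 2))⁻¹ * (2 * w)) :
    ∃ c : ℝ, 0 ≤ c ∧ ((k₁ 0 = c ∧ k₂ 0 = 0) ∨ (k₁ 0 = 0 ∧ I * k₂ 0 = c)) := by
  rcases he with rfl | ⟨j, hjq, rfl⟩
  · obtain ⟨c, hc, e⟩ := Ends_lim c₁ ((Ends_small hδ (hD.a_pos 0 hD.p_pos)).mono fun w hw => by
      obtain ⟨h1, h2, h3⟩ := hw
      have h4 := (hD.sign_pos (x := w ^ 2) (k := 0) (pow_pos h1 2) (Nat.zero_le _)
        (fun i hi => absurd hi (Nat.not_lt_zero i)) fun i _ hi => by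
          rcases Nat.eq_zero_or_pos i with rfl | h5
          · exact h3
          · exact h3.trans (hD.a_lt 0 i h5 hi)).2
      rw [if_pos Even.zero, one_mul, ofReal_pow] at h4
      obtain ⟨r, -, hr, -, h5, -⟩ := hk w h1 h2
      have h6 : (w : ℂ) ≠ 0 := ofReal_ne_zero.2 h1.ne'
      rw [zero_add, div_eq_iff (pow_ne_zero 2 h6), h4] at h5
      refine ⟨r * ‖D.G ((w : ℂ) ^ 2)‖ * (2 * w), by positivity, ?_⟩
      rw [h5]
      push_cast
      field_simp)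
    exact ⟨c, hc, Or.inl ⟨e, h0 rfl⟩⟩
  · have hb := hD.b_pos j hjq
    have hs : ∀ w : ℝ, 0 < w → w ^ 2 < D.b j / 2 → -D.b j + w ^ 2 < 0 ∧
        D.G (-D.b j + w ^ 2) = (if Even j then -I else -1) * (‖D.G (-D.b j + w ^ 2)‖ : ℂ) := by
      intro w h1 h3
      have h2 : -D.b j + w ^ 2 < 0 := by linarith
      have h4 := (hD.sign_neg (x := -D.b j + w ^ 2) (k := j) h2 hjq.le
        (fun i hi => by
          have := hD.b_gap i j hi hjq
          have := hD.b_pos i (hi.trans hjq)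
          linarith)
        fun i hi hq => by
          have h5 := pow_pos h1 2
          rcases hi.eq_or_lt with rfl | hi
          · linarith
          · have := hD.b_gap j i hi hq
            linarith).2
      rw [ofReal_add, ofReal_neg, ofReal_pow] at h4
      exact ⟨h2, h4⟩
    rcases Nat.even_or_odd j with hje | hje
    · obtain ⟨c, hc, e⟩ := Ends_lim (k := fun s => I * k₂ s) (continuousAt_const.mul c₂)
        ((Ends_small hδ (half_pos hb)).mono fun w hw => by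
          obtain ⟨h1, h2, h3⟩ := hw
          obtain ⟨h7, h4⟩ := hs w h1 h3
          rw [if_pos hje] at h4
          obtain ⟨-, r, -, hr, -, h5⟩ := hk w h1 h2
          have h6 : (w : ℂ) ≠ 0 := ofReal_ne_zero.2 h1.ne'
          rw [div_eq_iff (pow_ne_zero 2 h6), h4] at h5
          refine ⟨r * ((‖D.G (-D.b j + w ^ 2)‖ * -(-D.b j + w ^ 2))⁻¹ * (2 * w) * w ^ 2),
            mul_nonneg hr (mul_nonneg (mul_nonneg (inv_nonneg.2 (mul_nonneg (norm_nonneg _)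
              (by linarith))) (by positivity)) (by positivity)), ?_⟩
          show I * k₂ ((w : ℂ) ^ 2) = _
          rw [h5]
          push_cast
          rw [mul_inv, mul_inv, mul_inv, inv_neg, inv_neg, inv_I]
          linear_combination r * (‖D.G (-D.b j + w ^ 2)‖ : ℂ)⁻¹ * (-(D.b j : ℂ) + w ^ 2)⁻¹ *
            (2 * w) * w ^ 2 * I_mul_I)
      exact ⟨c, hc, Or.inr ⟨(hj j hjq rfl).1 hje, e⟩⟩
    · obtain ⟨c, hc, e⟩ := Ends_lim c₁
        ((Ends_small hδ (half_pos hb)).mono fun w hw => by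
          obtain ⟨h1, h2, h3⟩ := hw
          obtain ⟨h7, h4⟩ := hs w h1 h3
          rw [if_neg (Nat.not_even_iff_odd.2 hje)] at h4
          obtain ⟨r, -, hr, -, h5, -⟩ := hk w h1 h2
          have h6 : (w : ℂ) ≠ 0 := ofReal_ne_zero.2 h1.ne'
          rw [div_eq_iff (pow_ne_zero 2 h6), h4] at h5
          refine ⟨r * (‖D.G (-D.b j + w ^ 2)‖ / -(-D.b j + w ^ 2)) * (2 * w) * w ^ 2,
            mul_nonneg (mul_nonneg (mul_nonneg hr (div_nonneg (norm_nonneg _) (by linarith)))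
              (by positivity)) (by positivity), ?_⟩
          rw [h5]
          push_cast
          rw [div_neg, neg_one_mul, neg_div])
      exact ⟨c, hc, Or.inl ⟨e, (hj j hjq rfl).2 hje⟩⟩

namespace Wd

variable {ι : Type} [Fintype ι] {W : Wd ι} {X : ℂ → ℂ}

theorem WEnds_real (hW : W.Ok1) {t : ℂ} (ht : t ∈ W.Om) (hi : t.im = 0) :
    W.ψ₁ t ^ 2 = (((W.ψ₁ t).re ^ 2 : ℝ) : ℂ) ∧ W.ψ₂ t ^ 2 = (((W.ψ₂ t).re ^ 2 : ℝ) : ℂ) := by
  have h1 := hW.ψ₁_conj ht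
  have h2 := hW.ψconj t ht
  rw [conj_eq_iff_im.2 hi] at h1 h2
  exact ⟨WEnds_sq h1, WEnds_sq h2⟩

theorem WEnds_core (hW : W.Ok) (hX : W.SolX X) {x₀ : ℂ} (he : W.D.IsE x₀) :
    ∃ L : ℂ → ℂ, Tendsto (fun t => X t - L t) (𝓝[W.Q] x₀) (𝓝 0) ∧
      (∀ t ∈ W.Q, (L t).re ≤ 0 ∧ 0 ≤ (L t).im) ∧
      Tendsto (fun t => ‖L t‖) (𝓝[W.Q] x₀) atTop := by
  have hD := hW.d
  obtain ⟨δ₀, h, H₀, hY₀⟩ := hD.par2 (Dat.P_eq_zero.2 (Or.inl he))
  obtain ⟨δ, d0, dle, k₁, k₂, d₁, d₂, hne, h0, hj, hk⟩ := hW.formE H₀ he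
  have H := H₀.mono d0 dle
  have hY := fun w (hw : w ∈ ball (0 : ℂ) δ) => hY₀ w (ball_subset_ball dle hw)
  have him : x₀.im = 0 := by
    rcases he with rfl | ⟨j, -, rfl⟩
    · rfl
    · rw [neg_im, ofReal_im, neg_zero]
  have hb : ball (0 : ℂ) (δ ^ 2) ∈ 𝓝 (0 : ℂ) := ball_mem_nhds _ (pow_pos H.pos 2)
  obtain ⟨c, hc, hcase⟩ := Dat.WEnds_sign hD he H.pos (d₁.continuousOn.continuousAt hb)
    (d₂.continuousOn.continuousAt hb) h0 hj fun w h1 h2 => by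
      have h6 : (w : ℂ) ≠ 0 := ofReal_ne_zero.2 h1.ne'
      obtain ⟨e1, e2⟩ := WEnds_real hW.toOk1 (hk w h2).1 (by
        rw [add_im, him, zero_add, ← ofReal_pow, ofReal_im])
      refine ⟨_, _, sq_nonneg (W.ψ₁ (x₀ + w ^ 2)).re, sq_nonneg (W.ψ₂ (x₀ + w ^ 2)).re, ?_⟩
      rw [hD.G_eq ((H.on h2).2 h6), ← hY w h2 h6 h1.le le_rfl, ← e1, ← e2]
      exact (hk w h2).2 h6
  have hc0 : 0 < c := by
    refine hc.lt_of_ne fun e => ?_
    subst e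
    rcases hcase with ⟨e1, e2⟩ | ⟨e1, e2⟩
    · exact hne.elim (fun h => h e1) fun h => h e2
    · exact hne.elim (fun h => h e1) fun h => mul_ne_zero I_ne_zero h e2
  have hT := hX.lfE hW.toOk1 H.pos (T := fun w => x₀ + w ^ 2) (T' := fun w => 2 * w)
    (Yl := fun w => w * h (w ^ 2)) d₁ d₂
    (continuousOn_id.mul (H.hol.continuousOn.comp (continuous_pow 2).continuousOn
      fun w hw => Dat.sq_mem_ball hw.1))
    fun w hw h1 => ⟨by simpa using (hasDerivAt_pow 2 w).const_add x₀, (H.on hw).1, (H.on hw).2 h1,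
      (hk w hw).1, by rw [neg_sq], by rw [neg_sq, neg_mul], fun h2 h3 => by
        rw [add_im, him, zero_add, sq, mul_im, mul_comm w.im, ← two_mul]
        exact mul_ne_zero two_ne_zero (mul_ne_zero h2 h3), (hk w hw).2 h1⟩
  obtain ⟨V, hVd⟩ : ∃ V : ℂ → ℂ, ∀ t, V t = (t - x₀) ^ (2⁻¹ : ℂ) := ⟨_, fun _ => rfl⟩
  have hsq : ∀ t, V t ^ 2 = t - x₀ := fun t => by rw [hVd, cpow_ofNat_inv_pow]
  have hq : ∀ t ∈ W.Q, V t ≠ 0 ∧ 0 ≤ (V t).re ∧ 0 ≤ (V t).im := fun t ht => by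
    refine ⟨fun h1 => ht.1.2 ?_, ?_, ?_⟩
    · have h2 := hsq t
      rw [h1, zero_pow two_ne_zero, eq_comm, sub_eq_zero] at h2
      rwa [h2]
    · rw [hVd, cpow_inv_two_re]
      exact Real.sqrt_nonneg _
    · rw [hVd, cpow_inv_two_im_eq_sqrt (by rw [sub_im, him, sub_zero]; exact ht.1.1)]
      exact Real.sqrt_nonneg _
  have hV0 : Tendsto V (𝓝[W.Q] x₀) (𝓝 0) := by
    rw [tendsto_zero_iff_norm_tendsto_zero]
    have h1 : Continuous fun t : ℂ => √‖t - x₀‖ := by fun_prop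
    have h2 := h1.tendsto x₀
    rw [sub_self, norm_zero, Real.sqrt_zero] at h2
    refine (h2.mono_left nhdsWithin_le_nhds).congr fun t => ?_
    rw [← hsq, norm_pow, Real.sqrt_sq (norm_nonneg _)]
  have hV : Tendsto V (𝓝[W.Q] x₀) (𝓝[≠] 0) :=
    tendsto_nhdsWithin_iff.2 ⟨hV0, eventually_nhdsWithin_of_forall fun t ht => (hq t ht).1⟩
  refine ⟨fun t => -k₁ 0 / V t - conj (-k₂ 0 / V t), (hT.comp hV).congr' ?_,
    fun t ht => (Ends_lead hc hcase (V t)).2 (hq t ht).2.1 (hq t ht).2.2, ?_⟩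
  · filter_upwards [self_mem_nhdsWithin, hV0.eventually (ball_mem_nhds _ H.pos)] with t ht h1
    have h2 : x₀ + V t ^ 2 = t := by rw [hsq, add_sub_cancel]
    show W.D.Xg X (x₀ + V t ^ 2) (V t * h (V t ^ 2)) - _ = _
    rw [hY _ h1 (hq t ht).1 (hq t ht).2.1 (hq t ht).2.2, h2, Dat.Xg_Y ht.1.1]
  · refine ((tendsto_norm_inv_nhdsNE_zero_atTop.comp hV).const_mul_atTop hc0).congr
      fun t => ?_
    exact (Ends_lead hc hcase (V t)).1.symm

theorem SolX.end_sign (hW : W.Ok) (hX : W.SolX X) {x₀ : ℂ} (he : W.D.IsE x₀) {ε : ℝ}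
    (hε : 0 < ε) : ∀ᶠ t in 𝓝[W.Q] x₀, (X t).re < ε ∧ -ε < (X t).im := by
  obtain ⟨L, h1, h2, -⟩ := WEnds_core hW hX he
  filter_upwards [self_mem_nhdsWithin, h1.eventually (ball_mem_nhds _ hε)] with t ht h3
  rw [dist_zero_right] at h3
  have h4 := (abs_le.1 (abs_re_le_norm (X t - L t))).2
  have h5 := (abs_le.1 (abs_im_le_norm (X t - L t))).1
  rw [sub_re] at h4
  rw [sub_im] at h5
  obtain ⟨h6, h7⟩ := h2 t ht
  exact ⟨by linarith, by linarith⟩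

theorem SolX.end_big (hW : W.Ok) (hX : W.SolX X) {x₀ : ℂ} (he : W.D.IsE x₀) :
    Tendsto (fun t => ‖X t‖) (𝓝[W.Q] x₀) atTop := by
  obtain ⟨L, h1, -, h2⟩ := WEnds_core hW hX he
  refine tendsto_atTop_mono' _ ?_ (tendsto_atTop_add_const_right _ (-1) h2)
  filter_upwards [h1.eventually (ball_mem_nhds _ one_pos)] with t h3
  rw [dist_zero_right, norm_sub_rev] at h3
  have h4 := norm_sub_norm_le (L t) (X t)
  linarith

theorem SolX.inf_sign (hW : W.Ok) (hX : W.SolX X) {ε : ℝ} (hε : 0 < ε) :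
    ∃ r : ℝ, ∀ t ∈ W.Q, r < ‖t‖ → (X t).re < ε ∧ -ε < (X t).im := by
  have hD := hW.d
  obtain ⟨δ₀, h, H₀, hY₀⟩ := hD.par3
  obtain ⟨δ, d0, dle, k₁, k₂, hk₁, hk₂, he, ho, hk⟩ := hW.toOk1.form3 H₀
  have H := H₀.mono d0 dle
  have hY := fun w (hw : w ∈ ball (0 : ℂ) δ) => hY₀ w (ball_subset_ball dle hw)
  have hodd : Odd (W.D.p + W.D.q + 1) := hD.par.add_one
  have hlim := hX.lfE hW.toOk1 H.pos (T := fun w => (w ^ 2)⁻¹) (T' := fun w => -2 / w ^ 3)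
    (Yl := fun w => h (w ^ 2) / w ^ (W.D.p + W.D.q + 1)) hk₁ hk₂ (by
      refine ContinuousOn.div ?_ (by fun_prop) fun w hw => pow_ne_zero _ hw.2
      exact H.hol.continuousOn.comp (by fun_prop) fun w hw => Dat.sq_mem_ball hw.1) (by
      intro w hw h0
      refine ⟨?_, (H.on hw h0).1, (H.on hw h0).2, (hk w hw h0).1, by rw [neg_sq], ?_, ?_,
        (hk w hw h0).2⟩
      · refine ((hasDerivAt_pow 2 w).inv (pow_ne_zero 2 h0)).congr_deriv ?_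
        field_simp
        norm_num
        ring
      · rw [neg_sq, hodd.neg_pow, div_neg]
      · intro h1 h2
        rw [inv_im, pow_two, mul_im]
        refine div_ne_zero (neg_ne_zero.2 ?_) (normSq_eq_zero.not.2 (mul_ne_zero h0 h0))
        rw [mul_comm w.im, ← two_mul]
        exact mul_ne_zero two_ne_zero (mul_ne_zero h1 h2))
  have hG : ∀ᶠ w : ℝ in 𝓝[>] 0, 0 < w ∧ ∃ r₁ r₂ : ℝ, 0 ≤ r₁ ∧ 0 ≤ r₂ ∧
      -k₁ ((w : ℂ) ^ 2) =
        r₁ * (2 * w * ((if Even W.D.p then 1 else I) * (‖W.D.G ((w : ℂ) ^ 2)⁻¹‖ : ℂ))) ∧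
      -k₂ ((w : ℂ) ^ 2) =
        r₂ * (2 * w * ((if Even W.D.p then 1 else I) * (‖W.D.G ((w : ℂ) ^ 2)⁻¹‖ : ℂ))⁻¹) := by
    filter_upwards [Ends3_ev hD H.pos] with w ⟨hw0, hw, hG⟩
    have h0 : (w : ℂ) ≠ 0 := ofReal_ne_zero.2 hw0.ne'
    obtain ⟨hO, h1, h2⟩ := hk w hw h0
    obtain ⟨e1, e2⟩ := WEnds_real hW.toOk1 hO (by rw [← ofReal_pow, ← ofReal_inv, ofReal_im])
    rw [hY w hw h0 (by rw [ofReal_re]; exact hw0.le) (by rw [ofReal_im]),
      ← hD.G_eq (H.on hw h0).2] at h1 h2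
    rw [e1] at h1
    rw [e2] at h2
    rw [← hG]
    have h3 := W.D.G_ne ((w : ℂ) ^ 2)⁻¹
    generalize W.D.G ((w : ℂ) ^ 2)⁻¹ = g at h1 h2 h3
    rw [div_eq_iff (pow_ne_zero 2 h0)] at h1 h2
    refine ⟨hw0, _, _, sq_nonneg (W.ψ₁ ((w : ℂ) ^ 2)⁻¹).re, sq_nonneg (W.ψ₂ ((w : ℂ) ^ 2)⁻¹).re,
      ?_, ?_⟩
    · rw [h1]; field_simp
    · rw [h2]; field_simp
  have hpq : Even W.D.p ↔ Even W.D.q := Nat.even_add.1 hD.par
  have c₁ : (-k₁ 0).re = 0 ∧ 0 ≤ (-k₁ 0).im := by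
    rcases Nat.even_or_odd W.D.q with hq | hq
    · rw [he hq]; simp
    · have hp : ¬ Even W.D.p := fun hp => Nat.not_even_iff_odd.2 hq (hpq.1 hp)
      have hc : IsClosed {z : ℂ | z.re = 0 ∧ 0 ≤ z.im} :=
        (isClosed_eq continuous_re continuous_const).inter
          (isClosed_le continuous_const continuous_im)
      refine hc.mem_of_tendsto (Ends3_lim H.pos hk₁) ?_
      filter_upwards [hG] with w ⟨hw0, r, _, hr, _, h1, _⟩
      rw [h1, if_neg hp]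
      have h2 : (r : ℂ) * ((2 : ℂ) * w * (I * (‖W.D.G ((w : ℂ) ^ 2)⁻¹‖ : ℂ))) =
          ((r * (2 * w * ‖W.D.G ((w : ℂ) ^ 2)⁻¹‖) : ℝ) : ℂ) * I := by
        push_cast
        ring
      rw [h2, mul_I_re, mul_I_im, ofReal_re, ofReal_im, neg_zero]
      exact ⟨rfl, by positivity⟩
  have c₂ : (-k₂ 0).im = 0 ∧ 0 ≤ (-k₂ 0).re := by
    rcases Nat.even_or_odd W.D.q with hq | hq
    · have hc : IsClosed {z : ℂ | z.im = 0 ∧ 0 ≤ z.re} :=
        (isClosed_eq continuous_im continuous_const).inter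
          (isClosed_le continuous_const continuous_re)
      refine hc.mem_of_tendsto (Ends3_lim H.pos hk₂) ?_
      filter_upwards [hG] with w ⟨hw0, _, r, _, hr, _, h1⟩
      rw [h1, if_pos (hpq.2 hq)]
      have h2 : (r : ℂ) * ((2 : ℂ) * w * (1 * (‖W.D.G ((w : ℂ) ^ 2)⁻¹‖ : ℂ))⁻¹) =
          ((r * (2 * w * ‖W.D.G ((w : ℂ) ^ 2)⁻¹‖⁻¹) : ℝ) : ℂ) := by
        push_cast
        ring
      rw [h2, ofReal_re, ofReal_im]
      exact ⟨rfl, by positivity⟩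
    · rw [ho hq]; simp
  have hev := (Metric.tendsto_nhds.1 hlim ε hε).and
    (mem_nhdsWithin_of_mem_nhds (ball_mem_nhds (0 : ℂ) H.pos))
  obtain ⟨η, hη, hb⟩ := Metric.mem_nhdsWithin_iff.1 hev
  refine ⟨η⁻¹ ^ 2, fun t ht hr => ?_⟩
  obtain ⟨v, hv, hre, him⟩ := Ends3_sqrt ht.1.1
  have hv1 : η⁻¹ < ‖v‖ := by
    rw [← hv, norm_pow] at hr
    exact lt_of_pow_lt_pow_left₀ 2 (norm_nonneg v) hr
  have hv2 : 0 < ‖v‖ := (inv_pos.2 hη).trans hv1
  have h0 : v⁻¹ ≠ 0 := inv_ne_zero (norm_pos_iff.1 hv2)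
  obtain ⟨h1, h2⟩ := hb (a := v⁻¹) ⟨by
    rw [mem_ball_zero_iff, norm_inv]
    exact inv_lt_of_inv_lt₀ hη hv1, h0⟩
  have h3 : (v⁻¹ ^ 2)⁻¹ = t := by rw [inv_pow, inv_inv, hv]
  rw [hY _ h2 h0 (by rw [inv_re]; exact div_nonneg hre (normSq_nonneg v))
    (by rw [inv_im]; exact div_nonpos_of_nonpos_of_nonneg (neg_nonpos.2 him) (normSq_nonneg v)),
    h3, Dat.Xg_Y ht.1.1, dist_zero_right] at h1
  obtain ⟨h4, h5⟩ := Ends3_quad c₁.1 c₁.2 c₂.1 c₂.2 hre him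
  generalize -k₁ 0 / v⁻¹ - conj (-k₂ 0 / v⁻¹) = z at h1 h4 h5
  have h6 := abs_lt.1 ((abs_re_le_norm _).trans_lt h1)
  have h7 := abs_lt.1 ((abs_im_le_norm _).trans_lt h1)
  rw [sub_re] at h6
  rw [sub_im] at h7
  constructor <;> linarith [h6.2, h7.1]

end Wd

end Pool.Agent.MP_92463a_gt

end
end

section

open Set Complex Filter Metric
open scoped Topology ComplexConjugate ContDiff Manifold

noncomputable section

namespace Pool.Agent.MP_92463a_gt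

section
variable {ι : Type} [Fintype ι] {W : Wd ι} {X : ℂ → ℂ} {H : ℂ → ℝ}

theorem WMax_pole {D : Dat} (hD : D.Ok) : ∃ K : ℂ → ℂ, ContinuousAt K 0 ∧ K 0 ≠ 0 ∧
    ∀ t : ℂ, t ≠ 0 → t * (D.P t * D.R t ^ 2) = K t := by
  have hb : ∀ j ∈ Finset.range D.q, (0 : ℂ) + D.b j ≠ 0 := fun j hj => by
    rw [zero_add]
    exact_mod_cast (hD.b_pos j (Finset.mem_range.1 hj)).ne'
  have ha : ∀ i ∈ Finset.range D.p, (D.a i : ℂ) - 0 ≠ 0 := fun i hi => by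
    rw [sub_zero]
    exact_mod_cast (hD.a_pos i (Finset.mem_range.1 hi)).ne'
  refine ⟨fun t => (∏ j ∈ Finset.range D.q, (t + D.b j)) * (∏ i ∈ Finset.range D.p, (D.a i - t)) *
    (D.ρ * (∏ j ∈ Finset.range D.q, if Even j then t + D.b j else ((t + D.b j) ^ 2)⁻¹) *
      ∏ i ∈ Finset.range D.p, if Even i then (D.a i - t)⁻¹ else 1) ^ 2, ?_, ?_, fun t ht => ?_⟩
  · refine ContinuousAt.mul (by fun_prop) (ContinuousAt.pow (ContinuousAt.mul
      (continuousAt_const.mul ?_) ?_) 2)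
    · refine tendsto_finsetProd _ fun j hj => ?_
      split_ifs
      · exact (by fun_prop : ContinuousAt (fun t : ℂ => t + D.b j) 0)
      · exact ContinuousAt.inv₀ (by fun_prop : ContinuousAt (fun t : ℂ => (t + D.b j) ^ 2) 0)
          (pow_ne_zero _ (hb j hj))
    · refine tendsto_finsetProd _ fun i hi => ?_
      split_ifs
      · exact ContinuousAt.inv₀ (by fun_prop : ContinuousAt (fun t : ℂ => D.a i - t) 0) (ha i hi)
      · exact tendsto_const_nhds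
  · refine mul_ne_zero (mul_ne_zero (Finset.prod_ne_zero_iff.2 hb) (Finset.prod_ne_zero_iff.2 ha))
      (pow_ne_zero _ (mul_ne_zero (mul_ne_zero (by exact_mod_cast hD.ρ_pos.ne')
        (Finset.prod_ne_zero_iff.2 fun j hj => ?_)) (Finset.prod_ne_zero_iff.2 fun i hi => ?_)))
    · split_ifs
      · exact hb j hj
      · exact inv_ne_zero (pow_ne_zero _ (hb j hj))
    · split_ifs
      · exact inv_ne_zero (ha i hi)
      · exact one_ne_zero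
  · simp only [Dat.P, Dat.R]
    field_simp

theorem WMax_nc (hW : W.Ok) {c c' t₀ : ℂ} (hc : c ≠ 0) (hO : t₀ ∈ W.Om) (hP : W.D.P t₀ ≠ 0) :
    ¬ ∀ᶠ t in 𝓝 t₀, c * W.ψ₁ t ^ 2 * (W.D.P t * W.D.R t ^ 2) - c' * W.ψ₂ t ^ 2 = 0 := by
  intro h
  have hZ : {t : ℂ | W.D.P t = 0}.Finite := Dat.P_finite
  have ho : IsOpen (W.Om \ {t : ℂ | W.D.P t = 0}) := Pl.isOpen_om.sdiff hZ.isClosed
  have hE : ∀ t, W.D.P t ≠ 0 → ¬ W.D.IsE t := fun t h1 h2 => h1 (Dat.P_eq_zero.2 (Or.inl h2))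
  have hd : DifferentiableOn ℂ
      (fun t => c * W.ψ₁ t ^ 2 * (W.D.P t * W.D.R t ^ 2) - c' * W.ψ₂ t ^ 2)
      (W.Om \ {t : ℂ | W.D.P t = 0}) := fun t ht => by
    have a1 := hW.toOk1.ψ₁_diff ht.1 (hW.toOk0.b0 (hE t ht.2)).1
    have a2 := hW.toOk1.ψ₂_diff ht.1
    have a3 := Dat.R_diff (D := W.D) ht.2
    have a4 := Dat.P_diff (D := W.D) t
    exact DifferentiableAt.differentiableWithinAt (by fun_prop)
  have e := (hd.analyticOnNhd ho).eqOn_zero_of_preconnected_of_eventuallyEq_zero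
    (hW.pl.preconn hZ) ⟨hO, hP⟩ h
  obtain ⟨K, k1, k2, k3⟩ := WMax_pole hW.d
  have h0 : (0 : ℂ) ∈ W.Om := (hW.toOk0.zero_fd (Dat.P_eq_zero.2 (Or.inl (Or.inl rfl)))).2
  have hb : (0 : ℂ) + W.D.b 0 ≠ 0 := by
    rw [zero_add]
    exact_mod_cast (hW.d.b_pos 0 hW.q_pos).ne'
  have c1 := (hW.toOk1.ψ₁_diff h0 hb).continuousAt
  have c2 := (hW.toOk1.ψ₂_diff h0).continuousAt
  have c3 : ContinuousAt (fun t => c * W.ψ₁ t ^ 2 * K t - t * (c' * W.ψ₂ t ^ 2)) 0 := by fun_prop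
  have c4 : ∀ᶠ t in 𝓝[≠] (0 : ℂ), c * W.ψ₁ t ^ 2 * K t - t * (c' * W.ψ₂ t ^ 2) = 0 := by
    filter_upwards [nhdsWithin_le_nhds (Pl.isOpen_om.mem_nhds h0),
      nhdsNE_le_cofinite (0 : ℂ) hZ.compl_mem_cofinite, self_mem_nhdsWithin] with t a1 a2 a3
    have a4 : c * W.ψ₁ t ^ 2 * (W.D.P t * W.D.R t ^ 2) - c' * W.ψ₂ t ^ 2 = 0 := e ⟨a1, a2⟩
    rw [← k3 t a3]
    linear_combination t * a4
  have c5 := tendsto_nhds_unique (c3.tendsto.mono_left (nhdsWithin_le_nhds (s := {0}ᶜ)))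
    (tendsto_const_nhds.congr' (c4.mono fun t ht => ht.symm))
  rw [zero_mul, sub_zero] at c5
  exact mul_ne_zero (mul_ne_zero hc (pow_ne_zero _ hW.ne0)) k2 c5

theorem WMax_loc (hW : W.Ok) (hX : W.SolX X) {c t₀ : ℂ} {δ : ℝ} {h : ℂ → ℂ}
    (hc : c ≠ 0) (H : W.D.Par1 t₀ δ h) (hO : ∀ w ∈ ball (0 : ℂ) δ, t₀ + w ∈ W.Om)
    (hm : IsLocalMax (fun w => (c * W.D.Xg X (t₀ + w) (h w)).re) 0) : False := by
  obtain ⟨Φ₁, Φ₂, hΦ⟩ := hX.lf1 hW.toOk1 H hO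
  have hb : ball (0 : ℂ) δ ∈ 𝓝 (0 : ℂ) := ball_mem_nhds _ H.pos
  have hd : ∀ w ∈ ball (0 : ℂ) δ, HasDerivAt (fun w => c * Φ₁ w - conj c * Φ₂ w)
      (c * (W.ψ₁ (t₀ + w) ^ 2 * (h w * W.D.R (t₀ + w) / (t₀ + w))) -
        conj c * (W.ψ₂ (t₀ + w) ^ 2 * (h w * W.D.R (t₀ + w) * (t₀ + w))⁻¹)) w :=
    fun w hw => ((hΦ w hw).1.const_mul c).sub ((hΦ w hw).2.1.const_mul (conj c))
  have ha : AnalyticAt ℂ (fun w => c * Φ₁ w - conj c * Φ₂ w) 0 :=
    DifferentiableOn.analyticAt (s := ball 0 δ)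
      (fun w hw => (hd w hw).differentiableAt.differentiableWithinAt) hb
  have hm' : IsLocalMax (fun w => (c * Φ₁ w - conj c * Φ₂ w).re) 0 := by
    refine hm.congr ?_
    filter_upwards [hb] with w hw
    rw [(hΦ w hw).2.2]
    simp only [mul_re, sub_re, sub_im, conj_re, conj_im]
    ring
  have h0 := no_max ha hm'
  have hPw : ∀ w ∈ ball (0 : ℂ) δ, W.D.P (t₀ + w) ≠ 0 := fun w hw => by
    rw [← H.sq w hw]; exact pow_ne_zero _ (H.ne w hw)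
  refine WMax_nc hW (c' := conj c) hc (by simpa using hO 0 (mem_ball_self H.pos))
    (by simpa using hPw 0 (mem_ball_self H.pos)) ?_
  have h1 : ∀ᶠ w in 𝓝 (0 : ℂ), c * W.ψ₁ (t₀ + w) ^ 2 * (W.D.P (t₀ + w) * W.D.R (t₀ + w) ^ 2) -
      conj c * W.ψ₂ (t₀ + w) ^ 2 = 0 := by
    filter_upwards [h0, hb] with w hw hw'
    rw [(hd w hw').deriv] at hw
    have hP := hPw w hw'
    have ht : t₀ + w ≠ 0 := fun h' => hP (Dat.P_eq_zero.2 (Or.inl (Or.inl h')))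
    have hR := hW.d.R_ne hP
    have hh := H.ne w hw'
    rw [← H.sq w hw']
    field_simp at hw
    linear_combination hw
  have h2 : Tendsto (fun t : ℂ => t - t₀) (𝓝 t₀) (𝓝 0) := by
    have : Tendsto (fun t : ℂ => t - t₀) (𝓝 t₀) (𝓝 (t₀ - t₀)) :=
      (continuous_id.sub continuous_const).tendsto t₀
    simpa using this
  filter_upwards [h2.eventually h1] with t ht
  simpa only [add_sub_cancel] using ht

theorem WMax_key (hW : W.Ok) (hX : W.SolX X) {c t₀ : ℂ} (hc : c ≠ 0) (ht : t₀ ∈ W.Qr)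
    (hs : 0 < t₀.im ∨ conj c = (if 0 < (W.D.P t₀).re then 1 else -1) * c)
    (hm : ∀ t ∈ W.Q, (c * X t).re ≤ (c * X t₀).re) : False := by
  obtain ⟨ht, hP, hO⟩ := ht
  have hQ : ∀ t : ℂ, 0 ≤ t.im → W.D.P t ≠ 0 → t ∈ W.Om → t ∈ W.Q := fun t h1 h2 h3 =>
    ⟨⟨h1, fun h => h2 (Dat.P_eq_zero.2 (Or.inl h))⟩, h3⟩
  obtain ⟨η, hη, hball⟩ := Metric.isOpen_iff.1 Pl.isOpen_om t₀ hO
  have hOw : ∀ δ, ∀ w ∈ ball (0 : ℂ) (min δ η), t₀ + w ∈ W.Om := fun δ w hw =>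
    hball (by simpa using ball_subset_ball (min_le_right _ _) hw)
  rcases ht.eq_or_lt with h0 | h0
  · obtain ⟨x₀, rfl⟩ : ∃ x₀ : ℝ, t₀ = x₀ := ⟨t₀.re, Complex.ext rfl (by simp [← h0])⟩
    have hs' := hs.resolve_left (by simp)
    obtain ⟨δ, h, H, hY, hc'⟩ := Dat.par1_Y hP
    have hδ : 0 < min δ η := lt_min H.pos hη
    have hsub : ball (0 : ℂ) (min δ η) ⊆ ball 0 δ := ball_subset_ball (min_le_left _ _)
    have hPw : ∀ w ∈ ball (0 : ℂ) δ, W.D.P (x₀ + w) ≠ 0 := fun w hw => by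
      rw [← H.sq w hw]; exact pow_ne_zero _ (H.ne w hw)
    have hup : ∀ w ∈ ball (0 : ℂ) δ, 0 ≤ w.im → W.D.Xg X (x₀ + w) (h w) = X (x₀ + w) :=
      fun w hw hi => by rw [hY w hw hi, Dat.Xg_Y (by simpa using hi)]
    refine WMax_loc hW hX hc (H.mono hδ (min_le_left _ _)) (hOw δ) ?_
    filter_upwards [ball_mem_nhds _ hδ] with w hw
    rw [hup 0 (mem_ball_self H.pos) (by simp), add_zero]
    rcases le_or_gt 0 w.im with hi | hi
    · rw [hup w (hsub hw) hi]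
      exact hm _ (hQ _ (by simpa using hi) (hPw w (hsub hw)) (hOw δ w hw))
    · have hw' : conj w ∈ ball (0 : ℂ) (min δ η) := by
        rw [mem_ball_zero_iff] at hw ⊢
        rwa [norm_conj]
      have hi' : 0 ≤ (conj w).im := by simpa using hi.le
      have e1 := hX.Xg_conj hW.toOk1 (hOw δ _ hw') (H.sq _ (hsub hw'))
      rw [hup _ (hsub hw') hi'] at e1
      have e2 := hc' _ (hsub hw')
      simp only [map_add, conj_ofReal, conj_conj] at e1 e2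
      have e3 := hm _ (hQ _ (by simpa using hi') (hPw _ (hsub hw')) (hOw δ _ hw'))
      refine le_trans (le_of_eq ?_) e3
      rw [← conj_re (c * X _), map_mul, hs', e2]
      split_ifs
      · rw [one_mul, one_mul, e1]
      · rw [neg_one_mul, neg_one_mul, Dat.Xg_neg, e1]
        congr 1
        ring
  · have hδ : 0 < min t₀.im η := lt_min h0 hη
    have hb : ∀ w ∈ ball (0 : ℂ) (min t₀.im η), 0 < (t₀ + w).im := fun w hw => by
      have h1 := abs_im_le_norm w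
      have h2 : ‖w‖ < t₀.im := by simpa using ball_subset_ball (min_le_left _ _) hw
      have h3 := neg_abs_le w.im
      rw [add_im]
      linarith
    have H : W.D.Par1 t₀ (min t₀.im η) fun w => W.D.Y (t₀ + w) :=
      ⟨hδ, fun w hw => ((Dat.Y_diff (hb w hw)).comp w
        ((differentiableAt_const _).add differentiableAt_id)).differentiableWithinAt,
        fun w _ => Dat.Y_ne _, fun w hw => Dat.Y_sq (Dat.ne_of_im (hb w hw).ne')⟩
    refine WMax_loc hW hX hc H (hOw _) ?_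
    filter_upwards [ball_mem_nhds _ hδ] with w hw
    rw [Dat.Xg_Y (hb w hw).le, add_zero, Dat.Xg_Y ht]
    exact hm _ (hQ _ (hb w hw).le (Dat.ne_of_im (hb w hw).ne') (hOw _ w hw))

theorem WMax_fd (hW : W.Ok) (hX : W.Sol X H) {t : ℂ} (ht : t ∈ W.Q) :
    ∃ t' ∈ W.Q, t' ∈ W.Fd ∧ X t' = X t := by
  rcases hW.pl.cover ht.2 with h | ⟨e, v, hv, rfl, -, -, h⟩
  · exact ⟨t, ht, h, rfl⟩
  · have h1 := (hW.pl.ann_sub e hv).2
    have h2 := (hW.pl.ann_sub _ (hW.pl.ann_op hv)).2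
    refine ⟨_, ⟨⟨(hW.toOk0.partner hv).1 ht.1.1, fun h' => ?_⟩, hW.pl.fd_sub h⟩, h,
      (hX.glueX e v hv (hW.toOk0.im_nonneg h1 ht.1.1) ht.1.1).symm⟩
    exact hW.free (op e) _ (mem_ball_zero_iff.2 h2) (Dat.P_eq_zero.2 (Or.inl h'))

theorem WMax_le (hW : W.Ok) (hX : W.Sol X H) {c : ℂ} (hc : c ≠ 0)
    (he : ∀ x₀, W.D.IsE x₀ → ∀ ε : ℝ, 0 < ε → ∀ᶠ t in 𝓝[W.Q] x₀, (c * X t).re < ε)
    (hi : ∀ ε : ℝ, 0 < ε → ∃ r : ℝ, ∀ t ∈ W.Q, r < ‖t‖ → (c * X t).re < ε)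
    (hb : ∀ x : ℝ, (x : ℂ) ∈ W.Om → W.D.P x ≠ 0 →
      conj c = (if 0 < (W.D.P x).re then 1 else -1) * c ∨ (c * X x).re = 0) :
    ∀ t ∈ W.Q, (c * X t).re ≤ 0 := by
  intro t₂ ht₂
  obtain ⟨t₁, ht₁, hf₁, e₁⟩ := WMax_fd hW hX ht₂
  rw [← e₁]
  by_contra hlt
  push Not at hlt
  have hu : ContinuousOn (fun t => (c * X t).re) W.Q :=
    continuous_re.comp_continuousOn (continuousOn_const.mul hX.cont)
  set K : Set ℂ := {t | t ∈ W.Q ∧ t ∈ W.Fd ∧ (c * X t₁).re ≤ (c * X t).re} with hK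
  have hKQ : K ⊆ W.Q := fun t h => h.1
  have hcl : IsClosed K := by
    refine isClosed_of_closure_subset fun x hx => ?_
    have hne : (𝓝[K] x).NeBot := mem_closure_iff_nhdsWithin_neBot.1 hx
    have hx1 : 0 ≤ x.im :=
      closure_minimal (s := K) (t := {t : ℂ | 0 ≤ t.im}) (fun t h => h.1.1.1)
        (isClosed_le continuous_const continuous_im) hx
    have hx3 : x ∈ W.Fd := closure_minimal (s := K) (fun t h => h.2.1) Pl.isClosed_fd hx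
    have hev : ∀ᶠ t in 𝓝[K] x, (c * X t₁).re ≤ (c * X t).re :=
      eventually_nhdsWithin_of_forall fun t h => h.2.2
    have hx2 : ¬ W.D.IsE x := fun h => by
      obtain ⟨t, h1, h2⟩ := (((he x h _ hlt).filter_mono (nhdsWithin_mono x hKQ)).and hev).exists
      linarith
    have hx4 : x ∈ W.Q := ⟨⟨hx1, hx2⟩, hW.pl.fd_sub hx3⟩
    exact ⟨hx4, hx3, ge_of_tendsto ((hu x hx4).mono hKQ).tendsto hev⟩
  obtain ⟨r, hr⟩ := hi _ hlt
  have hbd : Bornology.IsBounded K :=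
    (isBounded_closedBall (x := (0 : ℂ)) (r := r)).subset fun t h => by
      rw [mem_closedBall_zero_iff]
      by_contra h'
      have := hr t h.1 (not_le.1 h')
      linarith [h.2.2]
  obtain ⟨t₀, h0, hmax⟩ := (isCompact_of_isClosed_isBounded hcl hbd).exists_isMaxOn
    ⟨t₁, ht₁, hf₁, le_rfl⟩ (hu.mono hKQ)
  have hpos : 0 < (c * X t₀).re := hlt.trans_le h0.2.2
  have hP : W.D.P t₀ ≠ 0 := fun h => by
    rcases Dat.P_eq_zero.1 h with h | h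
    · exact h0.1.1.2 h
    · rw [hX.toSolX.X_a hW.toOk1 h] at hpos
      simp at hpos
  refine WMax_key hW hX.toSolX hc ⟨h0.1.1.1, hP, h0.1.2⟩ ?_ fun s hs => ?_
  · rcases h0.1.1.1.eq_or_lt with h | h
    · obtain ⟨x₀, rfl⟩ : ∃ x₀ : ℝ, t₀ = x₀ := ⟨t₀.re, Complex.ext rfl (by simp [← h])⟩
      exact Or.inr ((hb x₀ h0.1.2 hP).resolve_right hpos.ne')
    · exact Or.inl h
  · obtain ⟨t, ht, hf, e⟩ := WMax_fd hW hX hs
    rw [← e]
    rcases le_or_gt (c * X t₁).re (c * X t).re with h | h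
    · exact hmax ⟨ht, hf, h⟩
    · exact h.le.trans h0.2.2

end

theorem Wd.Sol.quad {ι : Type} [Fintype ι] {W : Wd ι} {X : ℂ → ℂ} {H : ℂ → ℝ} (hW : W.Ok)
    (hX : W.Sol X H) {t : ℂ} (ht : t ∈ W.Qr) :
    (X t).re ≤ 0 ∧ 0 ≤ (X t).im ∧ (0 < t.im ∨ 0 < (W.D.P t).re → (X t).re < 0) ∧
      (0 < t.im ∨ (W.D.P t).re < 0 → 0 < (X t).im) := by
  have hQ : t ∈ W.Q := ⟨⟨ht.1, fun h => ht.2.1 (Dat.P_eq_zero.2 (Or.inl h))⟩, ht.2.2⟩
  have h1 : ∀ s ∈ W.Q, (1 * X s).re ≤ 0 := by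
    refine WMax_le hW hX one_ne_zero (fun x₀ h ε hε => ?_) (fun ε hε => ?_) fun x hO hx => ?_
    · filter_upwards [hX.toSolX.end_sign hW h hε] with s hs
      simpa using hs.1
    · obtain ⟨r, hr⟩ := hX.toSolX.inf_sign hW hε
      exact ⟨r, fun s hs h => by simpa using (hr s hs h).1⟩
    · by_cases h : 0 < (W.D.P x).re
      · left
        simp [h]
      · right
        have h' : (W.D.P x).re ≠ 0 := fun h' => hx (Complex.ext h' (Dat.P_im x))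
        simpa using hX.re0 x hO (lt_of_le_of_ne (not_lt.1 h) h')
  have h2 : ∀ s ∈ W.Q, (I * X s).re ≤ 0 := by
    refine WMax_le hW hX I_ne_zero (fun x₀ h ε hε => ?_) (fun ε hε => ?_) fun x hO hx => ?_
    · filter_upwards [hX.toSolX.end_sign hW h hε] with s hs
      simpa [neg_lt] using hs.2
    · obtain ⟨r, hr⟩ := hX.toSolX.inf_sign hW hε
      exact ⟨r, fun s hs h => by simpa [neg_lt] using (hr s hs h).2⟩
    · by_cases h : 0 < (W.D.P x).re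
      · right
        simpa using hX.im0 x hO h
      · left
        simp [h]
  refine ⟨by simpa using h1 t hQ, by simpa using h2 t hQ, fun h => ?_, fun h => ?_⟩
  · by_contra h'
    refine WMax_key hW hX.toSolX one_ne_zero ht (h.imp_right fun h => by simp [h]) fun s hs => ?_
    exact (h1 s hs).trans (by simpa using h')
  · by_contra h'
    refine WMax_key hW hX.toSolX I_ne_zero ht (h.imp_right fun h => by simp [h.not_gt])
      fun s hs => ?_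
    exact (h2 s hs).trans (by simpa using h')

end Pool.Agent.MP_92463a_gt

end
end

section

open Set Complex Filter Metric
open scoped Topology ComplexConjugate ContDiff Manifold

noncomputable section

namespace Pool.Agent.MP_92463a_gt

/-- folding onto the closed upper half plane -/
def WInjF (t : ℂ) : ℂ := if 0 ≤ t.im then t else conj t

theorem WInjF_up {t : ℂ} (h : 0 ≤ t.im) : WInjF t = t := if_pos h

theorem WInjF_low {t : ℂ} (h : ¬ 0 ≤ t.im) : WInjF t = conj t := if_neg h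

theorem WInjF_conj {t : ℂ} (h : 0 ≤ t.im) : WInjF (conj t) = t := by
  by_cases h1 : 0 ≤ (conj t).im
  · rw [WInjF_up h1]
    rw [conj_im] at h1
    exact conj_eq_iff_im.2 (by linarith)
  · rw [WInjF_low h1, conj_conj]

section
variable {ι : Type} [Fintype ι] {W : Wd ι} {X : ℂ → ℂ} {H : ℂ → ℝ}

theorem WInj_abs (hW : W.Ok) (hX : W.Sol X H) {t y : ℂ} (ht : t ∈ W.Q) (hy : y ^ 2 = W.D.P t) :
    |(y / W.D.Y t * X t).re| = -(X t).re ∧ |(y / W.D.Y t * X t).im| = (X t).im := by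
  by_cases hP : W.D.P t = 0
  · rw [hX.toSolX.X_a hW.toOk1 ((Dat.P_eq_zero.1 hP).resolve_left ht.1.2)]
    simp
  obtain ⟨h1, h2, -, -⟩ := hX.quad hW ⟨ht.1.1, hP, ht.2⟩
  rcases Inj_sgn hy hP with h | h <;> rw [h]
  · rw [one_mul]
    exact ⟨abs_of_nonpos h1, abs_of_nonneg h2⟩
  · rw [neg_one_mul, neg_re, neg_im, abs_neg, abs_neg]
    exact ⟨abs_of_nonpos h1, abs_of_nonneg h2⟩

theorem WInj_fold (hW : W.Ok) (hX : W.Sol X H) {t y : ℂ} (hO : t ∈ W.Om) (hE : ¬ W.D.IsE t)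
    (hy : y ^ 2 = W.D.P t) : WInjF t ∈ W.Q ∧ H (WInjF t) = H t ∧
      |(W.D.Xg X t y).re| = -(X (WInjF t)).re ∧ |(W.D.Xg X t y).im| = (X (WInjF t)).im := by
  by_cases h : 0 ≤ t.im
  · have hQ : t ∈ W.Q := ⟨⟨h, hE⟩, hO⟩
    rw [WInjF_up h, Dat.Xg, if_pos h]
    exact ⟨hQ, rfl, WInj_abs hW hX hQ hy⟩
  · have hQ : conj t ∈ W.Q :=
      ⟨⟨by rw [conj_im]; linarith, fun h' => hE (Dat.Xg_isE h')⟩, hW.sy.om hO⟩
    rw [WInjF_low h, Dat.Xg, if_neg h, conj_re, conj_im, abs_neg]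
    exact ⟨hQ, hX.conjH t hO, WInj_abs hW hX hQ (Inj_conj hy)⟩

theorem WInj_ne (hW : W.Ok) (hX : W.Sol X H) {t : ℂ} (ht : t ∈ W.Qr) : X t ≠ 0 := by
  obtain ⟨-, -, h1, h2⟩ := hX.quad hW ht
  intro h0
  rw [h0] at h1 h2
  simp only [zero_re, zero_im, lt_self_iff_false, imp_false, not_or, not_lt] at h1 h2
  have e : t = (t.re : ℂ) := Complex.ext rfl (by rw [ofReal_im]; exact le_antisymm h1.1 ht.1)
  refine ht.2.1 (Complex.ext (le_antisymm h1.2 h2.2) ?_)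
  rw [e]
  exact Dat.P_im _

theorem WInj_same (hW : W.Ok) (hX : W.Sol X H) {t y₁ y₂ : ℂ} (ht : 0 ≤ t.im) (hO : t ∈ W.Om)
    (hy₁ : y₁ ^ 2 = W.D.P t) (hy₂ : y₂ ^ 2 = W.D.P t)
    (he : y₁ / W.D.Y t * X t = y₂ / W.D.Y t * X t) : y₁ = y₂ := by
  by_cases hP : W.D.P t = 0
  · rw [hP, sq_eq_zero_iff] at hy₁ hy₂
    rw [hy₁, hy₂]
  · exact (div_left_inj' (Dat.Y_ne _)).1 (mul_right_cancel₀ (WInj_ne hW hX ⟨ht, hP, hO⟩) he)

theorem WInj_opp (hW : W.Ok) (hX : W.Sol X H) {t y₁ y₂ : ℂ} (ht : 0 < t.im) (hO : t ∈ W.Om)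
    (hy₁ : y₁ ^ 2 = W.D.P t) (hy₂ : y₂ ^ 2 = W.D.P t)
    (he : y₁ / W.D.Y t * X t = conj (y₂ / W.D.Y t * X t)) : False := by
  have hP : W.D.P t ≠ 0 := Dat.ne_of_im ht.ne'
  obtain ⟨-, -, h1, h2⟩ := hX.quad hW ⟨ht.le, hP, hO⟩
  have h3 := h1 (Or.inl ht)
  have h4 := h2 (Or.inl ht)
  have hre := congrArg re he
  have him := congrArg im he
  rcases Inj_sgn hy₁ hP with e₁ | e₁ <;> rcases Inj_sgn hy₂ hP with e₂ | e₂ <;>
    rw [e₁, e₂] at hre him <;>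
    simp only [one_mul, neg_one_mul, neg_re, neg_im, conj_re, conj_im] at hre him <;> linarith

theorem WInj_core (hW : W.Ok) (hX : W.Sol X H) {t₁ y₁ t₂ y₂ : ℂ} (hO₁ : t₁ ∈ W.Om)
    (hO₂ : t₂ ∈ W.Om) (hy₁ : y₁ ^ 2 = W.D.P t₁) (hy₂ : y₂ ^ 2 = W.D.P t₂)
    (hf : WInjF t₁ = WInjF t₂) (he : W.D.Xg X t₁ y₁ = W.D.Xg X t₂ y₂) : t₁ = t₂ ∧ y₁ = y₂ := by
  unfold Dat.Xg at he
  unfold WInjF at hf
  split_ifs at he hf with h₁ h₂ h₂
  · subst hf
    exact ⟨rfl, WInj_same hW hX h₁ hO₁ hy₁ hy₂ he⟩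
  · subst hf
    exact (WInj_opp hW hX (by rw [conj_im]; linarith) hO₁ hy₁ (Inj_conj hy₂) he).elim
  · subst hf
    exact (WInj_opp hW hX (by rw [conj_im]; linarith) hO₂ hy₂ (Inj_conj hy₁) he.symm).elim
  · have h : t₁ = t₂ := (starRingEnd ℂ).injective hf
    subst h
    exact ⟨rfl, (starRingEnd ℂ).injective (WInj_same hW hX (by rw [conj_im]; linarith)
      (hW.sy.om hO₁) (Inj_conj hy₁) (Inj_conj hy₂) ((starRingEnd ℂ).injective he))⟩

theorem WInj_port (hW : W.Ok) {t u : ℂ} (hu : 0 ≤ u.im) {e : ι × Bool} {v : ℂ}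
    (hv : v ∈ W.Ann e) (h1 : WInjF t = W.c e + v) (h2 : u = W.c (op e) + W.s e.1 / v) :
    ∃ e', ∃ v' ∈ W.Ann e', t = W.c e' + v' ∧ WInjF (W.c (op e') + W.s e'.1 / v') = u := by
  by_cases h : 0 ≤ t.im
  · rw [WInjF_up h] at h1
    exact ⟨e, v, hv, h1, by rw [← h2, WInjF_up hu]⟩
  · rw [WInjF_low h] at h1
    refine ⟨(W.κ e.1, e.2), conj v, hW.sy.ann hv, ?_, ?_⟩
    · rw [hW.sy.c, ← map_add, ← h1, conj_conj]
    · have h3 := hW.sy.c (op e)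
      have h4 : op (W.κ e.1, e.2) = (W.κ (op e).1, (op e).2) := rfl
      rw [h4, h3, hW.sy.s, ← map_div₀, ← map_add, ← h2, WInjF_conj hu]

end

theorem Wd.Sol.inj {ι : Type} [Fintype ι] {W : Wd ι} {X : ℂ → ℂ} {H : ℂ → ℝ} (hW : W.Ok)
    (hX : W.Sol X H) (hQ : W.QInj X H) :
    ∀ z ∈ W.U, z ∉ W.D.S → ∀ z' ∈ W.U, z' ∉ W.D.S → W.ff X H z = W.ff X H z' →
      z = z' ∨ (z ∈ W.O ∧ z' = W.g z) := by
  intro z hz hs z' hz' hs' he
  rw [Dat.mem_S] at hs hs'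
  have n₁ : z ≠ OnePoint.infty := fun h => hs (Or.inl (by rw [h]; rfl))
  have n₂ : z' ≠ OnePoint.infty := fun h => hs' (Or.inl (by rw [h]; rfl))
  have e0 : (W.D.Xg X (W.D.tt z) (W.D.yy z)).re = (W.D.Xg X (W.D.tt z') (W.D.yy z')).re :=
    congrArg (fun v : E3 => v 0) he
  have e1 : (W.D.Xg X (W.D.tt z) (W.D.yy z)).im = (W.D.Xg X (W.D.tt z') (W.D.yy z')).im :=
    congrArg (fun v : E3 => v 1) he
  have e2 : H (W.D.tt z) = H (W.D.tt z') := congrArg (fun v : E3 => v 2) he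
  have e3 := Complex.ext e0 e1
  obtain ⟨a1, a2, a3, a4⟩ := WInj_fold hW hX hz hs (Dat.yy_sq z)
  obtain ⟨b1, b2, b3, b4⟩ := WInj_fold hW hX hz' hs' (Dat.yy_sq z')
  rw [e0] at a3
  rw [e1] at a4
  rcases hQ _ a1 _ b1 (Complex.ext (by linarith) (by linarith)) (by rw [a2, b2, e2]) with
    h | ⟨e, v, hv, h1, h2⟩
  · obtain ⟨h1, h2⟩ := WInj_core hW hX hz hz' (Dat.yy_sq z) (Dat.yy_sq z') h e3
    left
    rw [← Dat.pt_tt n₁, ← Dat.pt_tt n₂, h1, h2]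
  · obtain ⟨e, v, hv, h3, h4⟩ := WInj_port hW b1.1.1 hv h1 h2
    have h5 : W.D.tt z - W.c e = v := by rw [h3, add_sub_cancel_left]
    have h6 : W.D.tt z - W.c e ∈ W.Ann e := by rwa [h5]
    have h7 := (hW.pl.ann_sub e hv).2
    have h8 := hW.pl.ann_sub _ (hW.pl.ann_op hv)
    have h9 := Wd.WGl1_eps hW.toOk0 (z := z) (e := e) (by rwa [h5])
    have h10 := hX.XA_glue hW.toOk1 e v hv
    refine Or.inr ⟨⟨e, h6⟩, ?_⟩
    rw [Wd.WGl1_g hW.toOk0 h6]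
    rw [h5] at h9 ⊢
    have h11 : W.D.yy z = W.D.yy z / W.yb e v * W.yb e v :=
      (div_mul_cancel₀ _ (hW.toOk0.yb_ne h7)).symm
    have h12 : W.D.Xg X (W.c (op e) + W.s e.1 / v)
        (W.D.yy z / W.yb e v * W.yb (op e) (W.s e.1 / v)) = W.D.Xg X (W.D.tt z') (W.D.yy z') := by
      rw [← e3, h3]
      conv_rhs => rw [h11]
      unfold Wd.XA at h10
      rcases h9 with h | h <;> rw [h]
      · rw [one_mul, one_mul, h10]
      · rw [neg_one_mul, neg_one_mul, Dat.Xg_neg, Dat.Xg_neg, h10]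
    obtain ⟨h13, h14⟩ := WInj_core hW hX (hW.pl.ann2_mem h8) hz'
      (hW.toOk0.sq_pt h8.2 h9) (Dat.yy_sq z') (h4.trans rfl) h12
    rw [h13, h14, Dat.pt_tt n₂]

end Pool.Agent.MP_92463a_gt

end
end
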