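import Pool.Agent.Mg.F92463a.G175935

section

open Set Complex Filter Metric
open scoped Topology ComplexConjugate ContDiff Manifold

noncomputable section

namespace Pool.Agent.MP_92463a_gt

variable {S : Set ℂ} {X f₁ f₂ : ℂ → ℂ} {c : ℂ} {σ ε : ℝ}

theorem Emb4_exp (hσ : σ = 1 / 2 ∨ σ = -1 / 2) : (exp (σ * Real.pi * I)).re = 0 := by
  rw [← ofReal_mul, exp_ofReal_mul_I_re]
  rcases hσ with rfl | rfl
  · rw [show 1 / 2 * Real.pi = Real.pi / 2 by ring, Real.cos_pi_div_two]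
  · rw [show -1 / 2 * Real.pi = -(Real.pi / 2) by ring, Real.cos_neg, Real.cos_pi_div_two]

theorem Emb4_norm (hσ : σ = 1 / 2 ∨ σ = -1 / 2) (c : ℂ) {τ : ℂ} (h : τ ≠ 0) :
    ‖c / σ * pw σ τ‖ = 2 * ‖c‖ * ‖τ‖ ^ σ := by
  rw [norm_mul, norm_div, norm_pw σ h, norm_real, Real.norm_eq_abs]
  have : |σ| = 1 / 2 := by
    rcases hσ with rfl | rfl
    · exact abs_of_pos (by norm_num)
    · rw [abs_of_neg (by norm_num)]
      norm_num
  rw [this]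
  ring

theorem arc_model (h : PathP S X f₁ f₂) (hσ : σ = 1 / 2 ∨ σ = -1 / 2) {r : ℝ} (hr : 0 < r)
    (hS : ∀ τ : ℂ, 0 ≤ τ.im → ‖τ‖ = r → τ ∈ S ∧ Mod f₁ f₂ c σ ε τ) (hb : Bd X c r) {τ : ℂ}
    (h₁ : 0 ≤ τ.im) (h₂ : ‖τ‖ = r) : ‖X τ - c / σ * pw σ τ‖ ≤ 7 * ε * ‖c‖ * r ^ σ := by
  have hσ0 : σ ≠ 0 := by rcases hσ with rfl | rfl <;> norm_num
  have hP := (h.mono (S' := {τ | 0 ≤ τ.im ∧ ‖τ‖ = r}) fun t ht => (hS t ht.1 ht.2).1).sub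
    ((pw_pathP c hσ0).mono fun t ht => ⟨ht.1, norm_ne_zero_iff.1 (ht.2.trans_ne hr.ne')⟩)
  have hm : ∀ θ ∈ Icc 0 Real.pi, 0 ≤ ((0 : ℂ) + r * exp (θ * I)).im ∧
      ‖(0 : ℂ) + r * exp (θ * I)‖ = r := fun θ hθ => by
    rw [zero_add, im_ofReal_mul, exp_ofReal_mul_I_im, norm_mul, norm_exp_ofReal_mul_I, mul_one,
      norm_real, Real.norm_of_nonneg hr.le]
    exact ⟨mul_nonneg hr.le (Real.sin_nonneg_of_mem_Icc hθ), rfl⟩
  have hN : ε * ‖c‖ * r ^ (σ - 1) * r = ε * ‖c‖ * r ^ σ := by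
    rw [mul_assoc, ← Real.rpow_add_one hr.ne', sub_add_cancel]
  have hN0 : 0 ≤ ε * ‖c‖ * r ^ σ := by
    have := (hS τ h₁ h₂).2
    rw [Mod, h₂] at this
    exact hN ▸ mul_nonneg (le_trans (by positivity) this) hr.le
  have key : ∀ a ∈ Icc 0 Real.pi, ∀ b ∈ Icc 0 Real.pi,
      ‖(X (r * exp (b * I)) - c / σ * pw σ (r * exp (b * I))) -
        (X (r * exp (a * I)) - c / σ * pw σ (r * exp (a * I)))‖ ≤ ε * ‖c‖ * r ^ σ * (7 / 2) := by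
    intro a ha b hb
    have hsub := uIcc_subset_Icc ha hb
    have e := hP.arc (x₀ := 0) (R := r) (a := a) (b := b) fun θ hθ => hm θ (hsub hθ)
    simp only [zero_add] at e
    rw [e]
    refine (arcI_le (M := ε * ‖c‖ * r ^ (σ - 1)) hr.le fun θ hθ => ?_).trans ?_
    · have h3 := hm θ (hsub hθ)
      have h4 := (hS _ h3.1 h3.2).2
      rw [Mod, h3.2] at h4
      simpa only [sub_zero] using h4
    · rw [hN]
      refine mul_le_mul_of_nonneg_left (abs_le.2 ⟨?_, ?_⟩) hN0 <;>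
        linarith [ha.1, ha.2, hb.1, hb.2, Real.pi_lt_d2]
  have hθ : arg τ ∈ Icc 0 Real.pi := ⟨arg_nonneg_iff.2 h₁, arg_le_pi τ⟩
  have hτ : (r : ℂ) * exp (arg τ * I) = τ := by rw [← h₂, norm_mul_exp_arg_mul_I]
  have k0 := key 0 ⟨le_rfl, Real.pi_pos.le⟩ _ hθ
  have k1 := key Real.pi ⟨Real.pi_pos.le, le_rfl⟩ _ hθ
  rw [hτ, pw_polar σ hr ⟨le_rfl, Real.pi_pos.le⟩] at k0
  rw [hτ, pw_polar σ hr ⟨Real.pi_pos.le, le_rfl⟩, exp_pi_mul_I, mul_neg_one] at k1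
  simp only [ofReal_zero, mul_zero, zero_mul, exp_zero, mul_one] at k0
  have hE := Emb4_exp hσ
  generalize exp (σ * Real.pi * I) = E at k1 hE
  generalize X τ - c / σ * pw σ τ = Y at k0 k1 ⊢
  refine (norm_le_abs_re_add_abs_im Y).trans ?_
  rcases hb with ⟨b1, b2, b3⟩ | ⟨b1, b2, b3⟩
  · have e0 := (abs_im_le_norm _).trans k0
    have e1 := (abs_re_le_norm _).trans k1
    simp only [sub_im, sub_re, b1, b2, b3, hE, mul_re, mul_im, div_ofReal_im, ofReal_im, ofReal_re,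
      zero_div, mul_zero, zero_mul, sub_zero, add_zero] at e0 e1
    linarith
  · have e0 := (abs_re_le_norm _).trans k0
    have e1 := (abs_im_le_norm _).trans k1
    simp only [sub_im, sub_re, b1, b2, b3, hE, mul_re, mul_im, div_ofReal_re, ofReal_im, ofReal_re,
      zero_div, mul_zero, zero_mul, sub_zero, add_zero] at e0 e1
    linarith

theorem Emb4_lin (S : Set ℂ) (a₁ a₂ : ℂ) :
    PathP S (fun t => a₁ * t - conj (a₂ * t)) (fun _ => a₁) fun _ => a₂ := by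
  refine ⟨continuousOn_const, continuousOn_const, fun γ γ' a b hγ hγ' _ => ?_⟩
  refine (intervalIntegral.integral_eq_sub_of_hasDerivAt
    (f := fun x => a₁ * γ x - conj (a₂ * γ x)) (fun x hx => ?_)
    ((continuousOn_const.mul hγ').sub (continuous_conj.comp_continuousOn
      (continuousOn_const.mul hγ'))).intervalIntegrable).symm
  exact ((hγ x hx).const_mul a₁).sub ((hγ x hx).const_mul a₂).star

theorem Emb4_seg (h : PathP S X f₁ f₂) {t₀ t₁ a₁ a₂ : ℂ} {M : ℝ}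
    (hS : ∀ x ∈ Icc (0 : ℝ) 1, t₀ + x * (t₁ - t₀) ∈ S ∧
      ‖f₁ (t₀ + x * (t₁ - t₀)) - a₁‖ + ‖f₂ (t₀ + x * (t₁ - t₀)) - a₂‖ ≤ M)
    (he : X t₀ = X t₁) : ‖a₁ * (t₁ - t₀) - conj (a₂ * (t₁ - t₀))‖ ≤ M * ‖t₁ - t₀‖ := by
  have e := (h.sub (Emb4_lin S a₁ a₂)).seg fun x hx => (hS x hx).1
  have h1 := segI_le (f₁ := fun τ => f₁ τ - a₁) (f₂ := fun τ => f₂ τ - a₂) fun x hx => (hS x hx).2
  rw [← e, he, ← norm_neg] at h1
  refine le_trans (le_of_eq (congrArg norm ?_)) h1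
  simp only [map_mul, map_sub]
  ring

theorem seg_inj (h : PathP S X f₁ f₂) {t₀ t₁ a : ℂ} (ha : a ≠ 0)
    (hS : ∀ x ∈ Icc (0 : ℝ) 1, t₀ + x * (t₁ - t₀) ∈ S ∧
      ‖f₁ (t₀ + x * (t₁ - t₀)) - a‖ + ‖f₂ (t₀ + x * (t₁ - t₀))‖ ≤ ‖a‖ / 2)
    (he : X t₀ = X t₁) : t₀ = t₁ := by
  have h1 := Emb4_seg h (a₁ := a) (a₂ := 0) (by simpa only [sub_zero] using hS) he
  rw [zero_mul, map_zero, sub_zero, norm_mul] at h1
  by_contra hne
  have := mul_pos (norm_pos_iff.2 ha) (norm_pos_iff.2 (sub_ne_zero.2 (Ne.symm hne)))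
  linarith

theorem seg_inj3 (h : PathP S X f₁ f₂) {H : ℂ → ℝ} {f₃ : ℂ → ℂ} {t₀ t₁ a₁ a₂ a₃ : ℂ}
    (ha : a₁ * a₂ = a₃ ^ 2) (h₀ : a₁ ≠ 0)
    (hS : ∀ x ∈ Icc (0 : ℝ) 1, ∀ t, t = t₀ + x * (t₁ - t₀) → t ∈ S ∧
      HasFDerivAt H (hl (f₃ t)) t ∧ ‖f₁ t - a₁‖ ≤ ‖a₁‖ / 4 ∧ ‖f₂ t - a₂‖ ≤ ‖a₁‖ / 4 ∧
        ‖f₃ t - a₃‖ ≤ ‖a₁‖ / 4)
    (he : X t₀ = X t₁) (hH : H t₀ = H t₁) : t₀ = t₁ := by
  have h1 := Emb4_seg h (a₁ := a₁) (a₂ := a₂) (M := ‖a₁‖ / 2) (fun x hx =>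
    ⟨(hS x hx _ rfl).1, by linarith [(hS x hx _ rfl).2.2.1, (hS x hx _ rfl).2.2.2.1]⟩) he
  obtain ⟨v, hv⟩ : ∃ v, v = t₁ - t₀ := ⟨_, rfl⟩
  rw [← hv] at h1 hS
  have h2 := norm_image_sub_le_of_norm_deriv_le_segment_01'
    (f := fun x : ℝ => H (t₀ + x * v) - 2 * (a₃ * v).re * x)
    (f' := fun x : ℝ => 2 * ((f₃ (t₀ + x * v) - a₃) * v).re) (C := ‖a₁‖ / 2 * ‖v‖)
    (fun x hx => by
      have d1 : HasDerivAt (fun x : ℝ => t₀ + x * v) v x := by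
        simpa using ((ofRealCLM.hasDerivAt (x := x)).mul_const v).const_add t₀
      have d2 := ((hS x hx _ rfl).2.1.comp_hasDerivAt x d1).sub
        ((hasDerivAt_id x).const_mul (2 * (a₃ * v).re))
      rw [hl_apply] at d2
      refine (d2.congr_deriv ?_).hasDerivWithinAt
      rw [sub_mul, sub_re]
      ring)
    fun x hx => by
      rw [norm_mul, Real.norm_two, Real.norm_eq_abs]
      have := (abs_re_le_norm ((f₃ (t₀ + x * v) - a₃) * v)).trans ((norm_mul_le _ _).trans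
        (mul_le_mul_of_nonneg_right (hS x (Ico_subset_Icc_self hx) _ rfl).2.2.2.2 (norm_nonneg v)))
      linarith
  have e1 : t₀ + v = t₁ := by rw [hv, add_sub_cancel]
  simp only [ofReal_one, one_mul, mul_one, ofReal_zero, zero_mul, mul_zero, add_zero, sub_zero, e1,
    hH, sub_sub_cancel_left, norm_neg] at h2
  have e2 : ‖a₁‖ / 2 * ‖v‖ = ‖a₁ * v‖ / 2 := by
    rw [norm_mul]
    ring
  have e3 : (a₁ * v * (a₂ * v)).re = (a₃ * v * (a₃ * v)).re := by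
    congr 1
    linear_combination v ^ 2 * ha
  rw [e2] at h1 h2
  by_contra hne
  have hp : 0 < ‖a₁ * v‖ := norm_pos_iff.2 (mul_ne_zero h₀ (hv ▸ sub_ne_zero.2 (Ne.symm hne)))
  generalize a₁ * v = p at h1 h2 e3 hp
  generalize a₂ * v = q at h1 e3
  generalize a₃ * v = s at h2 e3
  have h3 := pow_le_pow_left₀ (norm_nonneg _) h1 2
  have h4 := pow_le_pow_left₀ (norm_nonneg _) h2 2
  have h5 := pow_pos hp 2
  rw [div_pow] at h3 h4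
  rw [Real.norm_eq_abs, sq_abs] at h4
  simp only [Complex.sq_norm, normSq_apply, sub_re, sub_im, conj_re, conj_im, mul_re] at h3 h4 h5 e3
  nlinarith [mul_self_nonneg q.re, mul_self_nonneg q.im, mul_self_nonneg s.re, mul_self_nonneg s.im]

theorem Emb4_sq {τ : ℂ} (h : τ ≠ 0) : pw (1 / 2) τ ^ 2 = τ ∧ pw (-1 / 2) τ ^ 2 = τ⁻¹ := by
  constructor
  · rw [sq, pw_mul, add_halves, pw_one h]
  · refine eq_inv_of_mul_eq_one_left ?_
    conv_lhs => rw [sq, pw_mul, ← pw_one h]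
    rw [pw_one h]
    nth_rewrite 2 [← pw_one h]
    rw [pw_mul]
    norm_num [pw]

theorem sing_inj {r₀ r₁ : ℝ} (h : PathP (HA r₀ r₁) X f₁ f₂) (hσ : σ = 1 / 2 ∨ σ = -1 / 2)
    (hr : 0 ≤ r₀) (hc : c ≠ 0) (hε : ε ≤ 1 / 1000) (hm : ∀ τ ∈ HA r₀ r₁, Mod f₁ f₂ c σ ε τ)
    (hb : ∀ r ∈ Ioo r₀ r₁, Bd X c r) :
    (∀ τ ∈ HA r₀ r₁, ‖c‖ * ‖τ‖ ^ σ ≤ ‖X τ‖ ∧ ‖X τ‖ ≤ 3 * ‖c‖ * ‖τ‖ ^ σ) ∧
      InjOn X (HA (2 * r₀) r₁) := by
  have hσ0 : (σ : ℂ) ≠ 0 := by rcases hσ with rfl | rfl <;> norm_num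
  have hn : ∀ τ ∈ HA r₀ r₁, τ ≠ 0 := fun τ hτ => norm_pos_iff.1 (hr.trans_lt hτ.2.1)
  have key : ∀ τ ∈ HA r₀ r₁, ‖X τ - c / σ * pw σ τ‖ ≤ 7 / 1000 * (‖c‖ * ‖τ‖ ^ σ) := by
    intro τ hτ
    have hA : ∀ t : ℂ, 0 ≤ t.im → ‖t‖ = ‖τ‖ → t ∈ HA r₀ r₁ := fun t h1 h2 =>
      ⟨h1, h2 ▸ hτ.2.1, h2 ▸ hτ.2.2⟩
    refine (arc_model h hσ (hr.trans_lt hτ.2.1) (fun t h1 h2 => ⟨hA t h1 h2, hm t (hA t h1 h2)⟩)
      (hb _ hτ.2) hτ.1 rfl).trans ?_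
    rw [mul_assoc]
    exact mul_le_mul_of_nonneg_right (by linarith) (by positivity)
  refine ⟨fun τ hτ => ?_, fun τ hτ τ' hτ' he => ?_⟩
  · have h1 := (abs_norm_sub_norm_le _ _).trans (key τ hτ)
    have h2 : 0 ≤ ‖c‖ * ‖τ‖ ^ σ := by positivity
    rw [Emb4_norm hσ c (hn τ hτ), abs_le] at h1
    constructor <;> linarith [h1.1, h1.2]
  have hsub : HA (2 * r₀) r₁ ⊆ HA r₀ r₁ := fun t ht => ⟨ht.1, by linarith [ht.2.1], ht.2.2⟩
  have n1 := hn τ (hsub hτ)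
  have n2 := hn τ' (hsub hτ')
  have hP : ‖c / σ * pw σ τ - c / σ * pw σ τ'‖ ≤
      7 / 1000 / 2 * (‖c / σ * pw σ τ‖ + ‖c / σ * pw σ τ'‖) := by
    have h1 := key τ (hsub hτ)
    have h2 := key τ' (hsub hτ')
    rw [he, norm_sub_rev] at h1
    rw [Emb4_norm hσ c n1, Emb4_norm hσ c n2]
    linarith [norm_sub_le_norm_sub_add_norm_sub (c / σ * pw σ τ) (X τ') (c / σ * pw σ τ')]
  have hcσ : c / σ ≠ 0 := div_ne_zero hc hσ0
  have hq : ‖τ' / τ - 1‖ ≤ 3 * (7 / 1000) := by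
    rcases hσ with rfl | rfl
    · rw [norm_sub_rev, add_comm] at hP
      have := (ratio_sq (mul_ne_zero hcσ (pw_ne _ _)) (by norm_num) hP).2
      rwa [mul_div_mul_left _ _ hcσ, div_pow, (Emb4_sq n1).1, (Emb4_sq n2).1] at this
    · have := (ratio_sq (mul_ne_zero hcσ (pw_ne _ _)) (by norm_num) hP).2
      rwa [mul_div_mul_left _ _ hcσ, div_pow, (Emb4_sq n1).2, (Emb4_sq n2).2, inv_div_inv]
        at this
  have hτ0 : 0 < ‖τ‖ := norm_pos_iff.2 n1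
  rw [div_sub_one n1, norm_div, div_le_iff₀ hτ0] at hq
  refine seg_inj h (a := c * pw (σ - 1) τ) (mul_ne_zero hc (pw_ne _ _)) (fun x hx => ?_) he
  obtain ⟨t, ht⟩ : ∃ t, t = τ + x * (τ' - τ) := ⟨_, rfl⟩
  rw [← ht]
  have h1 : ‖t - τ‖ ≤ 1 / 40 * ‖τ‖ := by
    rw [ht, add_sub_cancel_left, norm_mul, norm_real, Real.norm_of_nonneg hx.1]
    linarith [mul_le_of_le_one_left (norm_nonneg (τ' - τ)) hx.2]
  have h2 : 0 ≤ t.im := by
    rw [ht, add_im, im_ofReal_mul, sub_im]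
    linarith [mul_nonneg hx.1 hτ'.1, mul_nonneg (sub_nonneg.2 hx.2) hτ.1]
  have h3 : t ∈ HA r₀ r₁ := by
    refine ⟨h2, ?_, ?_⟩
    · have := (abs_le.1 ((abs_norm_sub_norm_le _ _).trans h1)).1
      linarith [hτ.2.1]
    · have := (convex_ball (0 : ℂ) r₁).add_smul_sub_mem (mem_ball_zero_iff.2 hτ.2.2)
        (mem_ball_zero_iff.2 hτ'.2.2) hx
      rwa [mem_ball_zero_iff, real_smul, ← ht] at this
  have h4 := pw_close (σ := σ - 1) n1 hτ.1 h2 h1 (by norm_num)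
    (by rcases hσ with rfl | rfl <;> rw [abs_le] <;> constructor <;> norm_num)
  have h5 := hm t h3
  have h6 := (abs_le.1 ((abs_norm_sub_norm_le _ _).trans h4)).2
  rw [norm_pw _ (hn t h3), norm_pw _ n1] at h6
  have h7 := mul_le_mul_of_nonneg_left h4 (norm_nonneg c)
  have h8 := mul_le_mul_of_nonneg_left h6 (norm_nonneg c)
  have h9 : 0 ≤ ‖c‖ * ‖τ‖ ^ (σ - 1) := by positivity
  have h10 : ε * (‖c‖ * ‖t‖ ^ (σ - 1)) ≤ 1 / 1000 * (‖c‖ * ‖t‖ ^ (σ - 1)) :=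
    mul_le_mul_of_nonneg_right hε (by positivity)
  rw [← norm_mul, mul_sub] at h7
  rw [Mod] at h5
  refine ⟨h3, ?_⟩
  rw [norm_mul, norm_pw _ n1]
  linarith [norm_sub_le_norm_sub_add_norm_sub (f₁ t) (c * pw (σ - 1) t) (c * pw (σ - 1) τ)]

end Pool.Agent.MP_92463a_gt

end
end

section

open Set Complex Filter Metric
open scoped Topology ComplexConjugate ContDiff Manifold

noncomputable section

namespace Pool.Agent.MP_92463a_gt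

variable {κ : Type} {T : κ → ℂ} {μ : κ → ℝ} {R δ ε K : ℝ} {c : ℂ} {f₁ f₂ X : ℂ → ℂ}

theorem Emb3_dir {a b : ℂ} (ha : a ≠ 0) (hb : b ≠ 0) :
    ‖a / (‖a‖ : ℂ) - b / (‖b‖ : ℂ)‖ * ‖b‖ ≤ 2 * ‖a - b‖ := by
  have ha' : (‖a‖ : ℂ) ≠ 0 := by simpa using ha
  have hb' : (‖b‖ : ℂ) ≠ 0 := by simpa using hb
  have e : (a / (‖a‖ : ℂ) - b / (‖b‖ : ℂ)) * (‖b‖ : ℂ) =
      (a - b) + a / (‖a‖ : ℂ) * ((‖b‖ - ‖a‖ : ℝ) : ℂ) := by
    push_cast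
    field_simp
    ring
  have e2 := congrArg norm e
  rw [norm_mul, norm_real, norm_norm] at e2
  rw [e2]
  refine (norm_add_le _ _).trans ?_
  rw [norm_mul, norm_div, norm_real, norm_norm, div_self (norm_ne_zero_iff.2 ha), one_mul,
    norm_real, Real.norm_eq_abs]
  have := abs_norm_sub_norm_le b a
  rw [norm_sub_rev] at this
  linarith

theorem Emb3_T (h : Sh0 T μ R δ ε K c f₁ f₂) (k : κ) : 0 < ‖T k‖ := by
  linarith [(h.rad k).1, h.R_pos]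

theorem Emb3_one (h : Sh0 T μ R δ ε K c f₁ f₂) {t : ℂ} (ht : t ≠ 0) {s s' : ℝ} (hs : 0 < s)
    (hs' : 0 < s') {j k : κ} (h1 : ‖s * t - T j‖ < ε * ‖T j‖) (h2 : ‖s' * t - T k‖ ≤ ε * ‖T k‖) :
    j = k := by
  by_contra hne
  have key : ∀ (u : ℝ) (i : κ), 0 < u →
      ‖t / (‖t‖ : ℂ) - T i / (‖T i‖ : ℂ)‖ * ‖T i‖ ≤ 2 * ‖u * t - T i‖ := fun u i hu => by
    have hu' : (u : ℂ) ≠ 0 := ofReal_ne_zero.2 hu.ne'
    have := Emb3_dir (mul_ne_zero hu' ht) (norm_pos_iff.1 (Emb3_T h i))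
    rwa [norm_mul (u : ℂ), norm_real, Real.norm_of_nonneg hu.le, ofReal_mul,
      mul_div_mul_left _ _ hu'] at this
  have a1 : ‖t / (‖t‖ : ℂ) - T j / (‖T j‖ : ℂ)‖ < 2 * ε :=
    lt_of_mul_lt_mul_right (by linarith [key s j hs]) (Emb3_T h j).le
  have a2 : ‖t / (‖t‖ : ℂ) - T k / (‖T k‖ : ℂ)‖ ≤ 2 * ε :=
    le_of_mul_le_mul_right (by linarith [key s' k hs']) (Emb3_T h k)
  rw [norm_sub_rev] at a1
  linarith [h.sep j k hne, norm_sub_le_norm_sub_add_norm_sub (T j / (‖T j‖ : ℂ)) (t / (‖t‖ : ℂ))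
    (T k / (‖T k‖ : ℂ))]

theorem Emb3_zero (h : Sheet T μ R δ ε K c f₁ f₂ X) {τ : ℂ} (h₁ : 0 ≤ τ.im) (h₀ : τ ≠ 0)
    (hr : ‖τ‖ ≤ R / 2 ∨ 2 * R ≤ ‖τ‖ ∧ ‖τ‖ < δ) :
    ‖X τ + 2 * c * pw (-1 / 2) τ‖ ≤ 14 * ε * ‖c‖ * ‖τ‖ ^ (-1 / 2 : ℝ) := by
  have hp := norm_pos_iff.2 h₀
  have hR := h.R_pos
  have far : ∀ t : ℂ, ‖t‖ = ‖τ‖ → ∀ k, ε * ‖T k‖ ≤ ‖t - T k‖ := fun t ht k => by
    have a := abs_le.1 (abs_norm_sub_norm_le t (T k))
    have b := h.rad k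
    have : ε * ‖T k‖ ≤ 1 / 100 * ‖T k‖ := mul_le_mul_of_nonneg_right h.ε_le (norm_nonneg _)
    rcases hr with hr | hr <;> linarith [a.1, a.2, b.1, b.2, hr]
  have mem : ∀ t : ℂ, 0 ≤ t.im → ‖t‖ = ‖τ‖ → t ∈ SS T μ δ := fun t h1 ht =>
    ⟨h1, norm_pos_iff.1 (ht ▸ hp), by rcases hr with hr | hr <;> linarith [h.R_le, hr],
      fun k => (h.mu k).2.trans (far t ht k)⟩
  have := arc_model (c := c) (ε := 2 * ε) h.path (Or.inr rfl) hp (fun t h1 ht => ⟨mem t h1 ht, ?_⟩)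
    (h.bd _ hp (mem _ (by simp) (by simp)) (mem _ (by simp) (by simp))) h₁ rfl
  · convert this using 2
    · push_cast
      ring
    · ring
  · rw [Mod, show (-1 / 2 : ℝ) - 1 = -3 / 2 by norm_num]
    linarith [h.main t (mem t h1 ht), h.far t (mem t h1 ht) (far t ht)]

theorem Emb3_seg (h : Sheet T μ R δ ε K c f₁ f₂ X) {t₀ t₁ : ℂ} {M L : ℝ} (hM : 0 ≤ M)
    (hL : ‖t₁ - t₀‖ ≤ L * R) (hS : ∀ x ∈ Icc (0 : ℝ) 1, ∀ t, t = t₀ + x * (t₁ - t₀) →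
      t ∈ SS T μ δ ∧ R / 2 ≤ ‖t‖ ∧ ‖f₂ t‖ ≤ M * ‖c‖ * ‖t‖ ^ (-3 / 2 : ℝ)) :
    ‖X t₀ + 2 * c * pw (-1 / 2) t₀‖ ≤
      ‖X t₁ + 2 * c * pw (-1 / 2) t₁‖ + 3 * L * (ε + M) * (‖c‖ * R ^ (-1 / 2 : ℝ)) := by
  have hR := h.R_pos
  have hε := h.ε_pos
  have hP := h.path.sub ((pw_pathP c (σ := -1 / 2) (by norm_num)).mono fun t ht => ⟨ht.1, ht.2.1⟩)
  have e := hP.seg fun x hx => (hS x hx _ rfl).1
  have h3 : (R / 2) ^ (-3 / 2 : ℝ) * R ≤ 3 * R ^ (-1 / 2 : ℝ) := by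
    rw [Real.div_rpow hR.le two_pos.le, div_mul_eq_mul_div, ← Real.rpow_add_one hR.ne',
      show (-3 / 2 : ℝ) + 1 = -1 / 2 by norm_num, div_eq_mul_inv, ← Real.rpow_neg two_pos.le,
      mul_comm]
    refine mul_le_mul_of_nonneg_right (abs_le_of_sq_le_sq' ?_ (by norm_num)).2 (by positivity)
    rw [← Real.rpow_two, ← Real.rpow_mul two_pos.le]
    norm_num
  have h1 := segI_le (f₁ := fun τ => f₁ τ - c * pw (-1 / 2 - 1) τ) (f₂ := fun τ => f₂ τ - 0)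
    (t₀ := t₀) (t₁ := t₁) (M := (ε + M) * ‖c‖ * (R / 2) ^ (-3 / 2 : ℝ)) fun x hx => by
      obtain ⟨a, b, d⟩ := hS x hx _ rfl
      have := mul_le_mul_of_nonneg_left (Real.rpow_le_rpow_of_nonpos (half_pos hR) b
        (show (-3 / 2 : ℝ) ≤ 0 by norm_num)) (show 0 ≤ (ε + M) * ‖c‖ by positivity)
      rw [show (-1 / 2 : ℝ) - 1 = -3 / 2 by norm_num, sub_zero]
      linarith [h.main _ a]
  rw [← e] at h1
  have hL0 : 0 ≤ L := nonneg_of_mul_nonneg_left ((norm_nonneg _).trans hL) hR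
  have h2 : (ε + M) * ‖c‖ * (R / 2) ^ (-3 / 2 : ℝ) * ‖t₁ - t₀‖ ≤
      3 * L * (ε + M) * (‖c‖ * R ^ (-1 / 2 : ℝ)) :=
    calc _ ≤ (ε + M) * ‖c‖ * (R / 2) ^ (-3 / 2 : ℝ) * (L * R) := by gcongr
      _ = L * (ε + M) * ‖c‖ * ((R / 2) ^ (-3 / 2 : ℝ) * R) := by ring
      _ ≤ L * (ε + M) * ‖c‖ * (3 * R ^ (-1 / 2 : ℝ)) := by gcongr
      _ = _ := by ring
  have e2 : ∀ t, X t - c / ((-1 / 2 : ℝ) : ℂ) * pw (-1 / 2) t = X t + 2 * c * pw (-1 / 2) t :=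
    fun t => by
      push_cast
      ring
  rw [e2, e2, norm_sub_rev] at h1
  linarith [norm_sub_norm_le (X t₀ + 2 * c * pw (-1 / 2) t₀) (X t₁ + 2 * c * pw (-1 / 2) t₁)]

theorem Emb3_half {a b : ℝ} (hb : 0 < b) (h : b ≤ 2 * a) :
    a ^ (-1 / 2 : ℝ) ≤ 3 / 2 * b ^ (-1 / 2 : ℝ) := by
  refine (Real.rpow_le_rpow_of_nonpos (half_pos hb) (by linarith) (by norm_num)).trans ?_
  rw [Real.div_rpow hb.le two_pos.le, div_eq_mul_inv, ← Real.rpow_neg two_pos.le, mul_comm]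
  refine mul_le_mul_of_nonneg_right (abs_le_of_sq_le_sq' ?_ (by norm_num)).2 (by positivity)
  rw [← Real.rpow_two, ← Real.rpow_mul two_pos.le]
  norm_num

theorem Emb3_ray (h : Sheet T μ R δ ε K c f₁ f₂ X) {τ : ℂ} (h₁ : 0 ≤ τ.im) (ha : R / 2 ≤ ‖τ‖)
    (hb : ‖τ‖ ≤ 2 * R) {ρ : ℝ} (hρ : ρ = R / 2 ∨ ρ = 2 * R)
    (far : ∀ s ∈ uIcc 1 (ρ / ‖τ‖), ∀ k, ε * ‖T k‖ ≤ ‖s * τ - T k‖) :
    ‖X τ + 2 * c * pw (-1 / 2) τ‖ ≤ 30 * ε * (‖c‖ * R ^ (-1 / 2 : ℝ)) := by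
  have hR := h.R_pos
  have hε := h.ε_pos
  have hδ := h.R_le
  have hp : 0 < ‖τ‖ := by linarith
  have hr : R / 2 ≤ ρ ∧ ρ ≤ 2 * R := by rcases hρ with rfl | rfl <;> constructor <;> linarith
  obtain ⟨a, ea⟩ : ∃ a, a = ρ / ‖τ‖ := ⟨_, rfl⟩
  rw [← ea] at far
  have ea' : a * ‖τ‖ = ρ := by rw [ea, div_mul_cancel₀ _ hp.ne']
  have nrm : ∀ s : ℝ, 0 ≤ s → ‖s * τ‖ = s * ‖τ‖ := fun s hs => by
    rw [norm_mul, norm_real, Real.norm_of_nonneg hs]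
  have a0 : 0 < a := ea ▸ div_pos (by linarith [hr.1]) hp
  have n1 : ‖a * τ‖ = ρ := by rw [nrm a a0.le, ea']
  have z := Emb3_zero h (τ := a * τ) (by simpa using mul_nonneg a0.le h₁)
    (norm_pos_iff.1 (by linarith [hr.1])) (by
      rw [n1]
      rcases hρ with rfl | rfl
      · exact Or.inl le_rfl
      · exact Or.inr ⟨le_rfl, by linarith⟩)
  have s := Emb3_seg h (t₀ := τ) (t₁ := a * τ) (M := ε) (L := 3 / 2) hε.le (by
    rw [← sub_one_mul, ← ofReal_one, ← ofReal_sub, norm_mul, norm_real, Real.norm_eq_abs,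
      ← abs_norm τ, ← abs_mul, sub_one_mul, ea', abs_le]
    constructor <;> linarith [hr.1, hr.2]) fun x hx t ht => by
      have et : t = ((1 + x * (a - 1) : ℝ) : ℂ) * τ := by
        rw [ht]
        push_cast
        ring
      have s0 : 0 ≤ 1 + x * (a - 1) := by nlinarith [hx.1, hx.2]
      have nt : ‖t‖ = (1 - x) * ‖τ‖ + x * ρ := by
        rw [et, nrm _ s0, ← ea']
        ring
      have hf := far _ (Tool3_mem hx)
      rw [← et] at hf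
      have b1 : R / 2 ≤ ‖t‖ := by nlinarith [hx.1, hx.2, hr.1]
      have m : t ∈ SS T μ δ := ⟨by rw [et, im_ofReal_mul]; positivity, norm_pos_iff.1 (by linarith),
        by nlinarith [hx.1, hx.2, hr.2], fun k => (h.mu k).2.trans (hf k)⟩
      exact ⟨m, b1, h.far t m hf⟩
  rw [n1] at z
  have := mul_le_mul_of_nonneg_left (Emb3_half (a := ρ) hR (by linarith [hr.1]))
    (show 0 ≤ 14 * ε * ‖c‖ by positivity)
  linarith

theorem Emb3_far (h : Sheet T μ R δ ε K c f₁ f₂ X) {τ : ℂ} (h₁ : 0 ≤ τ.im) (ha : R / 2 ≤ ‖τ‖)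
    (hb : ‖τ‖ ≤ 2 * R) (far : ∀ k, ε * ‖T k‖ ≤ ‖τ - T k‖) :
    ‖X τ + 2 * c * pw (-1 / 2) τ‖ ≤ 30 * ε * (‖c‖ * R ^ (-1 / 2 : ℝ)) := by
  have hR := h.R_pos
  have hp : 0 < ‖τ‖ := by linarith
  by_cases h2 : ∀ s ∈ uIcc 1 (2 * R / ‖τ‖), ∀ k, ε * ‖T k‖ ≤ ‖s * τ - T k‖
  · exact Emb3_ray h h₁ ha hb (Or.inr rfl) h2
  refine Emb3_ray h h₁ ha hb (Or.inl rfl) fun s hs k => not_lt.1 fun hk => h2 fun s' hs' j =>
    not_lt.1 fun hj => ?_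
  rw [uIcc_of_ge ((div_le_one hp).2 ha)] at hs
  rw [uIcc_of_le ((one_le_div hp).2 hb)] at hs'
  obtain rfl := Emb3_one h.toSh0 (norm_pos_iff.1 hp) ((div_pos (half_pos hR) hp).trans_le hs.1)
    (one_pos.trans_le hs'.1) hk hj.le
  have := ((convex_ball (T k) (ε * ‖T k‖)).linear_preimage
    (LinearMap.toSpanSingleton ℝ ℂ τ)).ordConnected.out (x := s) (y := s')
      (by simpa [dist_eq_norm] using hk) (by simpa [dist_eq_norm] using hj) ⟨hs.2, hs'.1⟩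
  exact (far k).not_gt (by simpa [dist_eq_norm] using this)

theorem Emb3_near (h : Sheet T μ R δ ε K c f₁ f₂ X) {τ : ℂ} (hτ : τ ∈ SS T μ δ) {k : κ}
    (hk : ‖τ - T k‖ < ε * ‖T k‖) :
    ‖X τ + 2 * c * pw (-1 / 2) τ‖ ≤ (30 * ε + 3 * (2 * ε) * (ε + K)) * (‖c‖ * R ^ (-1 / 2 : ℝ)) := by
  have hR := h.R_pos
  have hε := h.ε_pos
  have hδ := h.R_le
  have hT := h.rad k
  have hε' : ε * ‖T k‖ ≤ 1 / 100 * ‖T k‖ := mul_le_mul_of_nonneg_right h.ε_le (norm_nonneg _)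
  obtain ⟨v, ev⟩ : ∃ v, v = τ - T k := ⟨_, rfl⟩
  have hμ := hτ.2.2.2 k
  rw [← ev] at hk hμ
  have hv : 0 < ‖v‖ := (h.mu k).1.trans_le hμ
  obtain ⟨b, eb⟩ : ∃ b, b = ε * ‖T k‖ / ‖v‖ := ⟨_, rfl⟩
  have eb' : b * ‖v‖ = ε * ‖T k‖ := by rw [eb, div_mul_cancel₀ _ hv.ne']
  have b1 : 1 ≤ b := eb ▸ (one_le_div hv).2 hk.le
  have key : ∀ s ∈ Icc 1 b, ∀ t, t = T k + s * v → ‖t - T k‖ = s * ‖v‖ ∧ 0 ≤ t.im ∧ R / 2 ≤ ‖t‖ ∧
      ‖t‖ ≤ 2 * R ∧ ∀ j, j ≠ k → ε * ‖T j‖ ≤ ‖t - T j‖ := fun s hs t ht => by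
    have s0 : 0 ≤ s := zero_le_one.trans hs.1
    have n : ‖t - T k‖ = s * ‖v‖ := by
      rw [ht, add_sub_cancel_left, norm_mul, norm_real, Real.norm_of_nonneg s0]
    have n' : ‖t - T k‖ ≤ ε * ‖T k‖ := by
      rw [n, ← eb']
      exact mul_le_mul_of_nonneg_right hs.2 hv.le
    have a := abs_le.1 ((abs_norm_sub_norm_le t (T k)).trans n')
    have t1 : R / 2 ≤ ‖t‖ := by linarith [a.1, hT.1]
    refine ⟨n, ?_, t1, by linarith [a.2, hT.2], fun j hj => not_lt.1 fun hlt => hj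
      (Emb3_one h.toSh0 (t := t) (norm_pos_iff.1 (by linarith)) one_pos one_pos
        (by simpa using hlt) (by simpa using n'))⟩
    have i1 := hτ.1
    rcases h.pos k with h0 | h0
    · rw [ht, add_im, im_ofReal_mul, ev, sub_im, h0, sub_zero, zero_add]
      positivity
    · have i2 := abs_le.1 ((abs_im_le_norm _).trans n')
      have i3 := abs_lt.1 ((abs_im_le_norm _).trans_lt hk)
      rw [sub_im] at i2
      rw [ev, sub_im] at i3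
      rcases le_abs.1 h0 with h0 | h0 <;> linarith [i2.1, i3.2]
  obtain ⟨k1, k2, k3, k4, k5⟩ := key b ⟨b1, le_rfl⟩ _ rfl
  have z := Emb3_far h k2 k3 k4 fun j => by
    rcases eq_or_ne j k with rfl | hj
    · rw [k1, eb']
    · exact k5 j hj
  have ed : T k + b * v - τ = ((b - 1 : ℝ) : ℂ) * v := by
    rw [ev]
    push_cast
    ring
  have s := Emb3_seg h (t₀ := τ) (t₁ := T k + b * v) (M := K) (L := 2 * ε)
    (zero_le_one.trans h.K_ge) (by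
      rw [ed, norm_mul, norm_real, Real.norm_of_nonneg (sub_nonneg.2 b1), sub_one_mul, eb']
      nlinarith [hT.2]) fun x hx t ht => by
      have hs : 1 + x * (b - 1) ∈ Icc 1 b := uIcc_of_le b1 ▸ Tool3_mem hx
      obtain ⟨l1, l2, l3, l4, l5⟩ := key _ hs t (by
        rw [ht, ed, ev]
        push_cast
        ring)
      have m : t ∈ SS T μ δ := ⟨l2, norm_pos_iff.1 (by linarith), by linarith, fun j => by
        rcases eq_or_ne j k with rfl | hj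
        · rw [l1]
          exact hμ.trans (le_mul_of_one_le_left hv.le hs.1)
        · exact (h.mu j).2.trans (l5 j hj)⟩
      exact ⟨m, l3, h.near t m⟩
  linarith

theorem Sheet.model (h : Sheet T μ R δ ε K c f₁ f₂ X) {τ : ℂ} (hτ : τ ∈ SS T μ δ) :
    ‖X τ + 2 * c * pw (-1 / 2) τ‖ ≤ 100 * K * ε * ‖c‖ * ‖τ‖ ^ (-1 / 2 : ℝ) := by
  have hε := h.ε_pos
  have hε' := h.ε_le
  have hK := h.K_ge
  have hR := h.R_pos
  have hp := norm_pos_iff.2 hτ.2.1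
  have hKε : ε ≤ K * ε := le_mul_of_one_le_left hε.le hK
  by_cases hr : ‖τ‖ ≤ R / 2 ∨ 2 * R ≤ ‖τ‖ ∧ ‖τ‖ < δ
  · refine (Emb3_zero h hτ.1 hτ.2.1 hr).trans ?_
    gcongr ?_ * _ * _
    linarith
  have ha : R / 2 ≤ ‖τ‖ := (not_le.1 fun h => hr (Or.inl h)).le
  have hb : ‖τ‖ ≤ 2 * R := (not_le.1 fun h => hr (Or.inr ⟨h, hτ.2.2.1⟩)).le
  have key : ‖X τ + 2 * c * pw (-1 / 2) τ‖ ≤ 60 * K * ε * (‖c‖ * R ^ (-1 / 2 : ℝ)) := by
    by_cases far : ∀ k, ε * ‖T k‖ ≤ ‖τ - T k‖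
    · refine (Emb3_far h hτ.1 ha hb far).trans ?_
      gcongr ?_ * _
      linarith
    · obtain ⟨k, hk⟩ := not_forall.1 far
      refine (Emb3_near h hτ (not_le.1 hk)).trans ?_
      gcongr ?_ * _
      nlinarith
  have := mul_le_mul_of_nonneg_left (Emb3_half (a := R) hp hb)
    (show 0 ≤ 60 * K * ε * ‖c‖ by positivity)
  have h0 : 0 ≤ K * ε * ‖c‖ * ‖τ‖ ^ (-1 / 2 : ℝ) := by positivity
  linarith

end Pool.Agent.MP_92463a_gt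

end
end

section

open Set Complex Filter Metric
open scoped Topology ComplexConjugate ContDiff Manifold

noncomputable section

namespace Pool.Agent.MP_92463a_gt

variable {κ : Type} {T : κ → ℂ} {μ : κ → ℝ} {R δ ε K : ℝ} {c : ℂ} {f₁ f₂ X : ℂ → ℂ}

theorem Emb5_rat {P P' a b : ℂ} {η : ℝ} (h₀ : P ≠ 0) (hη : η ≤ 1 / 10)
    (h : ‖P - P'‖ ≤ η / 2 * (‖P‖ + ‖P'‖)) (hb : b ≠ 0) (he : P ^ 2 * b = P' ^ 2 * a) :
    ‖a - b‖ ≤ 3 * η * ‖b‖ := by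
  obtain ⟨h1, h2⟩ := ratio_sq h₀ hη h
  have h3 : a - b = ((P / P') ^ 2 - 1) * b := by
    rw [sub_mul, div_pow, div_mul_eq_mul_div, he]
    field_simp
  rw [h3, norm_mul]
  exact mul_le_mul_of_nonneg_right h2 (norm_nonneg _)

theorem Emb5_sq {τ : ℂ} (h : τ ≠ 0) : pw (-1 / 2) τ ^ 2 * τ = 1 := by
  have h1 : pw (-1 / 2) τ ^ 2 * pw 1 τ = pw 0 τ := by
    rw [sq, pw_mul, pw_mul]
    norm_num
  rw [pw_one h] at h1
  rw [h1]
  simp [pw]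

theorem Emb5_mod (h : Sheet T μ R δ ε K c f₁ f₂ X) {τ : ℂ} (hτ : τ ∈ SS T μ δ) :
    ‖X τ + 2 * c * pw (-1 / 2) τ‖ ≤ 100 * K * ε / 2 * ‖2 * c * pw (-1 / 2) τ‖ := by
  refine (h.model hτ).trans (le_of_eq ?_)
  rw [norm_mul, norm_mul, norm_pw _ hτ.2.1, Complex.norm_two]
  ring

theorem Emb5_near (h : Sheet T μ R δ ε K c f₁ f₂ X) (h₁ : 1000 * K * ε ≤ 1) {τ τ' : ℂ}
    (hτ : τ ∈ SS T μ δ) (hτ' : τ' ∈ SS T μ δ) (he : X τ = X τ') :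
    ‖τ' - τ‖ ≤ 300 * K * ε * ‖τ‖ := by
  have h1 := Emb5_mod h hτ
  have h2 := Emb5_mod h hτ'
  rw [← he] at h2
  refine (Emb5_rat (P := 2 * c * pw (-1 / 2) τ) (P' := 2 * c * pw (-1 / 2) τ') (η := 100 * K * ε)
    (mul_ne_zero (mul_ne_zero two_ne_zero h.c_ne) (pw_ne _ _)) (by linarith) ?_ hτ.2.1 ?_).trans
    (le_of_eq (by ring))
  · have h3 := norm_sub_le (X τ + 2 * c * pw (-1 / 2) τ) (X τ + 2 * c * pw (-1 / 2) τ')
    rw [add_sub_add_left_eq_sub] at h3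
    linarith
  · linear_combination (2 * c) ^ 2 * (Emb5_sq hτ.2.1 - Emb5_sq hτ'.2.1)

theorem Emb5_dir {u w : ℂ} (hu : ‖u‖ = 1) (hw : ‖w‖ = 1) {s t : ℝ} (hs : 0 ≤ s) (ht : 0 ≤ t) :
    (s + t) * ‖u - w‖ ≤ 4 * ‖s * u - t * w‖ := by
  have h1 := abs_norm_sub_norm_le (t * w) (s * u)
  rw [norm_mul, norm_mul, hu, hw, norm_real, norm_real, Real.norm_of_nonneg hs,
    Real.norm_of_nonneg ht, mul_one, mul_one, norm_sub_rev] at h1
  have h2 := norm_add_le (s * u - t * w) (((t - s : ℝ) : ℂ) * w)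
  have h3 := norm_add_le (s * u - t * w) (((t - s : ℝ) : ℂ) * u)
  rw [show s * u - t * w + ((t - s : ℝ) : ℂ) * w = s * (u - w) by push_cast; ring, norm_mul,
    norm_mul, hw, norm_real, norm_real, Real.norm_of_nonneg hs, Real.norm_eq_abs] at h2
  rw [show s * u - t * w + ((t - s : ℝ) : ℂ) * u = t * (u - w) by push_cast; ring, norm_mul,
    norm_mul, hu, norm_real, norm_real, Real.norm_of_nonneg ht, Real.norm_eq_abs] at h3
  linarith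

theorem Emb5_err (h : Sh0 T μ R δ ε K c f₁ f₂) {γ γ' : ℝ → ℂ} {a b M : ℝ}
    (hd : ∀ x ∈ uIcc a b, HasDerivAt γ (γ' x) x) (hc : ContinuousOn γ' (uIcc a b))
    (hS : ∀ x ∈ uIcc a b, γ x ∈ SS T μ δ)
    (hM : ∀ x ∈ uIcc a b, (‖f₁ (γ x) - c * pw (-3 / 2) (γ x)‖ + ‖f₂ (γ x)‖) * ‖γ' x‖ ≤ M) :
    IntervalIntegrable (fun x => f₁ (γ x) * γ' x - conj (f₂ (γ x) * γ' x))
      MeasureTheory.volume a b ∧
    ‖(∫ x in a..b, (f₁ (γ x) * γ' x - conj (f₂ (γ x) * γ' x))) +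
      (2 * c * pw (-1 / 2) (γ b) - 2 * c * pw (-1 / 2) (γ a))‖ ≤ M * |b - a| := by
  have hγ : ContinuousOn γ (uIcc a b) := fun x hx => (hd x hx).continuousAt.continuousWithinAt
  have hS' : ∀ x ∈ uIcc a b, γ x ∈ {τ : ℂ | 0 ≤ τ.im ∧ τ ≠ 0} := fun x hx =>
    ⟨(hS x hx).1, (hS x hx).2.1⟩
  have h1 : IntervalIntegrable (fun x => f₁ (γ x) * γ' x - conj (f₂ (γ x) * γ' x))
      MeasureTheory.volume a b :=
    (((h.c₁.comp hγ hS).mul hc).sub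
      (continuous_conj.comp_continuousOn ((h.c₂.comp hγ hS).mul hc))).intervalIntegrable
  have h2 : IntervalIntegrable (fun x => c * pw (-3 / 2) (γ x) * γ' x) MeasureTheory.volume a b :=
    ((continuousOn_const.mul ((pw_cont _).comp hγ hS')).mul hc).intervalIntegrable
  have h3 := (pw_pathP (σ := -1 / 2) c (by norm_num)).ftc γ γ' a b hd hc hS'
  simp only [zero_mul, map_zero, sub_zero, show (-1 / 2 - 1 : ℝ) = -3 / 2 by norm_num] at h3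
  have h4 : 2 * c * pw (-1 / 2) (γ b) - 2 * c * pw (-1 / 2) (γ a) =
      -∫ x in a..b, c * pw (-3 / 2) (γ x) * γ' x := by
    rw [← h3]
    push_cast
    ring
  refine ⟨h1, ?_⟩
  rw [h4, ← sub_eq_add_neg, ← intervalIntegral.integral_sub h1 h2]
  refine intervalIntegral.norm_integral_le_of_norm_le_const fun x hx => ?_
  refine le_trans ?_ (hM x (uIoc_subset_uIcc hx))
  rw [show f₁ (γ x) * γ' x - conj (f₂ (γ x) * γ' x) - c * pw (-3 / 2) (γ x) * γ' x =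
    (f₁ (γ x) - c * pw (-3 / 2) (γ x)) * γ' x - conj (f₂ (γ x) * γ' x) by ring]
  refine (norm_sub_le _ _).trans (le_of_eq ?_)
  rw [norm_conj, norm_mul, norm_mul, add_mul]

theorem Emb5_rpow {r s : ℝ} (hr : 0 < r) (hs : r ≤ s) :
    s ^ (-3 / 2 : ℝ) * r ≤ r ^ (-1 / 2 : ℝ) := by
  rw [show (-1 / 2 : ℝ) = -3 / 2 + 1 by norm_num, Real.rpow_add hr, Real.rpow_one]
  exact mul_le_mul_of_nonneg_right (Real.rpow_le_rpow_of_nonpos hr hs (by norm_num)) hr.le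

theorem Emb5_arc (h : Sh0 T μ R δ ε K c f₁ f₂) (k : κ) {a b : ℝ} (ha : a ∈ Icc 0 Real.pi)
    (hb : b ∈ Icc 0 Real.pi) :
    ‖arcI f₁ f₂ 0 (2 * ‖T k‖) a b + (2 * c * pw (-1 / 2) ((2 * ‖T k‖ : ℝ) * exp (b * I)) -
      2 * c * pw (-1 / 2) ((2 * ‖T k‖ : ℝ) * exp (a * I)))‖ ≤
      16 * (ε * ‖c‖ * ‖T k‖ ^ (-1 / 2 : ℝ)) := by
  have hR := h.R_pos
  have hε := h.ε_pos
  have hε' := h.ε_le
  have hδ := h.R_le
  obtain ⟨r1, r2⟩ := h.rad k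
  have hr : 0 < ‖T k‖ := by linarith
  have hn : ∀ x : ℝ, ‖(0 : ℂ) + (2 * ‖T k‖ : ℝ) * exp (x * I)‖ = 2 * ‖T k‖ := fun x => by
    rw [zero_add, norm_mul, norm_exp_ofReal_mul_I, mul_one, norm_real,
      Real.norm_of_nonneg (by linarith)]
  have hf : ∀ (x : ℝ) j, ε * ‖T j‖ ≤ ‖(0 : ℂ) + (2 * ‖T k‖ : ℝ) * exp (x * I) - T j‖ := by
    intro x j
    have h1 := norm_sub_norm_le ((0 : ℂ) + (2 * ‖T k‖ : ℝ) * exp (x * I)) (T j)
    obtain ⟨h2, h3⟩ := h.rad j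
    rw [hn] at h1
    nlinarith
  have hS : ∀ x ∈ uIcc a b, (0 : ℂ) + (2 * ‖T k‖ : ℝ) * exp (x * I) ∈ SS T μ δ := by
    intro x hx
    have h1 := uIcc_subset_Icc ha hb hx
    refine ⟨?_, norm_pos_iff.1 (by rw [hn]; linarith), by rw [hn]; linarith,
      fun j => (h.mu j).2.trans (hf x j)⟩
    rw [zero_add, im_ofReal_mul, exp_ofReal_mul_I_im]
    exact mul_nonneg (by linarith) (Real.sin_nonneg_of_mem_Icc h1)
  have h1 := (Emb5_err h (γ := fun x : ℝ => (0 : ℂ) + (2 * ‖T k‖ : ℝ) * exp (x * I))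
    (γ' := fun x : ℝ => (2 * ‖T k‖ : ℝ) * exp (x * I) * I)
    (M := 4 * (ε * ‖c‖ * ‖T k‖ ^ (-1 / 2 : ℝ))) (fun x _ => Tool3_der 0 _ x) (by fun_prop) hS
    fun x hx => by
      have h2 := h.main _ (hS x hx)
      have h3 := h.far _ (hS x hx) (hf x)
      have h4 := hn x
      rw [h4] at h2 h3
      rw [zero_add] at h4
      rw [norm_mul _ I, norm_I, mul_one, h4]
      have h5 := mul_le_mul_of_nonneg_left (Emb5_rpow hr (s := 2 * ‖T k‖) (by linarith))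
        (by positivity : 0 ≤ ε * ‖c‖)
      have h6 := mul_le_mul_of_nonneg_right (add_le_add h2 h3) (by linarith : 0 ≤ 2 * ‖T k‖)
      linarith).2
  simp only [zero_add] at h1
  simp only [arcI, zero_add]
  refine h1.trans ?_
  have h2 : |b - a| ≤ 4 := by
    have := Real.pi_le_four
    rw [abs_le]
    constructor <;> linarith [ha.1, ha.2, hb.1, hb.2]
  have h3 := mul_le_mul_of_nonneg_left h2
    (by positivity : 0 ≤ 4 * (ε * ‖c‖ * ‖T k‖ ^ (-1 / 2 : ℝ)))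
  linarith

theorem Emb5_pt (h : Sh0 T μ R δ ε K c f₁ f₂) {k : κ} {v : ℂ} (hT : 0 ≤ (T k).im)
    (hv : μ k = ‖T k‖ * ‖v‖) (hd : ‖v‖ ^ 2 ≤ v.re) (hi : 0 ≤ (T k + T k * v).im) {x : ℝ}
    (h0 : 0 ≤ x) (h1 : x ≤ 1) {t : ℂ} (ht : t = 2 * T k + x * (T k + T k * v - 2 * T k)) :
    t ∈ SS T μ δ ∧ ‖T k‖ ≤ ‖t‖ ∧ (x ≤ 1 - ε → ∀ j, ε * ‖T j‖ ≤ ‖t - T j‖) := by
  have hR := h.R_pos
  have hε := h.ε_pos
  have hε' := h.ε_le
  have hδ := h.R_le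
  obtain ⟨r1, r2⟩ := h.rad k
  have hr : 0 < ‖T k‖ := by linarith
  have hvε : ‖v‖ ≤ ε := by
    have := (h.mu k).2
    rw [hv, mul_comm] at this
    exact le_of_mul_le_mul_right this hr
  have hre : 0 ≤ v.re := (sq_nonneg _).trans hd
  have hxv : ‖x * v‖ ≤ ε := by
    rw [norm_mul, norm_real, Real.norm_of_nonneg h0]
    nlinarith [norm_nonneg v]
  have e1 : t = T k * (((2 - x : ℝ) : ℂ) + x * v) := by rw [ht]; push_cast; ring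
  have e2 : t - T k = T k * (((1 - x : ℝ) : ℂ) + x * v) := by rw [ht]; push_cast; ring
  have hl : ∀ y : ℝ, y ≤ ‖(y : ℂ) + x * v‖ := fun y => by
    refine le_trans ?_ (re_le_norm _)
    rw [add_re, ofReal_re, re_ofReal_mul]
    nlinarith
  have h2 : ‖T k‖ ≤ ‖t‖ := by
    rw [e1, norm_mul]
    nlinarith [hl (2 - x)]
  have h3 : ∀ j, j ≠ k → ε * ‖T j‖ ≤ ‖t - T j‖ := by
    intro j hj
    have hj0 : 0 < ‖T j‖ := by linarith [(h.rad j).1]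
    have hu : ∀ i, 0 < ‖T i‖ → ‖T i / (‖T i‖ : ℂ)‖ = 1 := fun i hi => by
      rw [norm_div, norm_real, Real.norm_of_nonneg hi.le, div_self hi.ne']
    have h4 := Emb5_dir (hu j hj0) (hu k hr) hj0.le (t := (2 - x) * ‖T k‖) (by nlinarith)
    have h5 : (‖T j‖ : ℂ) * (T j / (‖T j‖ : ℂ)) - (((2 - x) * ‖T k‖ : ℝ) : ℂ) *
        (T k / (‖T k‖ : ℂ)) = T k * (x * v) - (t - T j) := by
      have := ofReal_ne_zero.2 hj0.ne'
      have := ofReal_ne_zero.2 hr.ne'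
      rw [e1]
      push_cast
      field_simp
      ring
    have h6 := norm_sub_le (T k * (x * v)) (t - T j)
    rw [← h5, norm_mul (T k)] at h6
    have h7 := mul_le_mul_of_nonneg_left (h.sep j k hj)
      (by nlinarith : 0 ≤ ‖T j‖ + (2 - x) * ‖T k‖)
    have h8 := mul_le_mul_of_nonneg_left hxv hr.le
    have h9 : 0 ≤ (1 - x) * (ε * ‖T k‖) := mul_nonneg (by linarith) (by positivity)
    nlinarith
  refine ⟨⟨?_, norm_pos_iff.1 (by linarith), ?_, fun j => ?_⟩, h2, fun hx j => ?_⟩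
  · rw [show t = ((2 * (1 - x) : ℝ) : ℂ) * T k + x * (T k + T k * v) by rw [ht]; push_cast; ring,
      add_im, im_ofReal_mul, im_ofReal_mul]
    exact add_nonneg (mul_nonneg (by linarith) hT) (mul_nonneg h0 hi)
  · have h4 := norm_add_le ((2 - x : ℝ) : ℂ) (x * v)
    rw [norm_real, Real.norm_of_nonneg (by linarith)] at h4
    rw [e1, norm_mul]
    nlinarith
  · by_cases hj : j = k
    · rw [hj, e2, hv, norm_mul]
      refine mul_le_mul_of_nonneg_left (le_of_sq_le_sq ?_ (norm_nonneg _)) hr.le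
      have h4 : ‖((1 - x : ℝ) : ℂ) + x * v‖ ^ 2 =
          (1 - x) ^ 2 + 2 * x * (1 - x) * v.re + x ^ 2 * ‖v‖ ^ 2 := by
        rw [Complex.sq_norm, Complex.sq_norm, normSq_apply, normSq_apply]
        simp only [add_re, add_im, ofReal_re, ofReal_im, re_ofReal_mul, im_ofReal_mul]
        ring
      have h5 : ‖v‖ ^ 2 ≤ 1 := pow_le_one₀ (norm_nonneg _) (by linarith)
      have h6 := mul_le_mul_of_nonneg_left hd (mul_nonneg h0 (sub_nonneg.2 h1))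
      have h7 := mul_le_mul_of_nonneg_left h5 (sq_nonneg (1 - x))
      rw [h4]
      nlinarith
    · exact (h.mu j).2.trans (h3 j hj)
  · by_cases hj : j = k
    · rw [hj, e2, norm_mul]
      nlinarith [hl (1 - x)]
    · exact h3 j hj

theorem Emb5_seg (h : Sh0 T μ R δ ε K c f₁ f₂) {k : κ} {v : ℂ} (hT : 0 ≤ (T k).im)
    (hv : μ k = ‖T k‖ * ‖v‖) (hd : ‖v‖ ^ 2 ≤ v.re) (hi : 0 ≤ (T k + T k * v).im) :
    ‖segI f₁ f₂ (2 * T k) (T k + T k * v) + (2 * c * pw (-1 / 2) (T k + T k * v) -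
      2 * c * pw (-1 / 2) (2 * T k))‖ ≤ 8 * K * (ε * ‖c‖ * ‖T k‖ ^ (-1 / 2 : ℝ)) := by
  have hε := h.ε_pos
  have hε' := h.ε_le
  have hK := h.K_ge
  have hr : 0 < ‖T k‖ := by linarith [(h.rad k).1, h.R_pos]
  have hvε : ‖v‖ ≤ ε := by
    have := (h.mu k).2
    rw [hv, mul_comm] at this
    exact le_of_mul_le_mul_right this hr
  set d := T k + T k * v - 2 * T k with hdd
  have hd2 : ‖d‖ ≤ 2 * ‖T k‖ := by
    rw [show d = T k * (v - 1) by rw [hdd]; ring, norm_mul]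
    have := norm_sub_le v 1
    rw [norm_one] at this
    nlinarith
  set A := ‖c‖ * ‖T k‖ ^ (-1 / 2 : ℝ) with hA
  have hA0 : 0 ≤ A := by positivity
  have key : ∀ a b L : ℝ, 0 ≤ a → a ≤ b → b ≤ 1 → 0 ≤ L →
      (∀ x ∈ Icc a b, ‖f₂ (2 * T k + x * d)‖ ≤ L * ‖c‖ * ‖2 * T k + x * d‖ ^ (-3 / 2 : ℝ)) →
      IntervalIntegrable (fun x : ℝ => f₁ (2 * T k + x * d) * d - conj (f₂ (2 * T k + x * d) * d))
        MeasureTheory.volume a b ∧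
      ‖(∫ x in a..b, (f₁ (2 * T k + x * d) * d - conj (f₂ (2 * T k + x * d) * d))) +
        (2 * c * pw (-1 / 2) (2 * T k + b * d) - 2 * c * pw (-1 / 2) (2 * T k + a * d))‖ ≤
        2 * (ε + L) * A * |b - a| := by
    intro a b L ha hab hb hL hf
    have hp := fun x (hx : x ∈ Icc a b) => Emb5_pt h hT hv hd hi (ha.trans hx.1) (hx.2.trans hb) rfl
    rw [← uIcc_of_le hab] at hf hp
    refine Emb5_err h (γ := fun x : ℝ => 2 * T k + x * d) (γ' := fun _ => d) (fun x _ => ?_)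
      continuousOn_const (fun x hx => (hp x hx).1) fun x hx => ?_
    · simpa using ((ofRealCLM.hasDerivAt (x := x)).mul_const d).const_add (2 * T k)
    · have h2 := add_le_add (h.main _ (hp x hx).1) (hf x hx)
      have h3 := mul_le_mul_of_nonneg_left (Emb5_rpow hr (hp x hx).2.1)
        (by positivity : 0 ≤ 2 * (ε + L) * ‖c‖)
      refine (mul_le_mul h2 hd2 (norm_nonneg _) (by positivity)).trans ?_
      rw [hA]
      linarith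
  obtain ⟨i1, b1⟩ := key 0 (1 - ε) ε le_rfl (by linarith) (by linarith) hε.le fun x hx => by
    have := Emb5_pt h hT hv hd hi hx.1 (by linarith [hx.2]) rfl
    exact h.far _ this.1 (this.2.2 hx.2)
  obtain ⟨i2, b2⟩ := key (1 - ε) 1 K (by linarith) (by linarith) le_rfl (by linarith) fun x hx =>
    h.near _ (Emb5_pt h hT hv hd hi (by linarith [hx.1]) hx.2 rfl).1
  rw [sub_zero, abs_of_nonneg (by linarith), ofReal_zero, zero_mul, add_zero] at b1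
  rw [sub_sub_cancel, abs_of_pos hε, ofReal_one, one_mul,
    show 2 * T k + d = T k + T k * v by rw [hdd]; ring] at b2
  have h4 := (norm_add_le _ _).trans (add_le_add b1 b2)
  rw [add_add_add_comm, intervalIntegral.integral_add_adjacent_intervals i1 i2,
    sub_add_sub_cancel'] at h4
  refine h4.trans ?_
  have h5 : 0 ≤ ε * A := by positivity
  have h6 := mul_le_mul_of_nonneg_right hK h5
  have h7 := mul_le_mul_of_nonneg_right hε' h5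
  have h8 : 0 ≤ ε * (ε * A) := by positivity
  rw [mul_assoc ε, ← hA]
  nlinarith

theorem Sheet.inj (h : Sheet T μ R δ ε K c f₁ f₂ X) {θ : ℝ} (h₁ : 1000 * K * ε ≤ θ)
    (h₂ : θ ≤ 1 / 10) {τ τ' : ℂ} (hτ : τ ∈ SS T μ δ) (hτ' : τ' ∈ SS T μ δ) (he : X τ = X τ') :
    τ = τ' ∨ ∃ k, ‖τ - T k‖ ≤ θ * ‖T k‖ ∧ ‖τ' - T k‖ ≤ θ * ‖T k‖ := by
  have hε := h.ε_pos
  have hε' := h.ε_le
  have hK := h.K_ge
  have hKε : ε ≤ K * ε := le_mul_of_one_le_left hε.le hK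
  have n1 := Emb5_near h (by linarith) hτ hτ' he
  have n2 := Emb5_near h (by linarith) hτ' hτ he.symm
  refine or_iff_not_imp_right.2 fun hk => seg_inj h.path (a := c * pw (-3 / 2) τ)
    (mul_ne_zero h.c_ne (pw_ne _ _)) (fun x hx => ?_) he
  set t := τ + x * (τ' - τ) with ht
  have d1 : ‖t - τ‖ ≤ 300 * K * ε * ‖τ‖ := by
    rw [ht, add_sub_cancel_left, norm_mul, norm_real, Real.norm_of_nonneg hx.1]
    exact (mul_le_of_le_one_left (norm_nonneg _) hx.2).trans n1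
  have d2 : ‖t - τ'‖ ≤ 300 * K * ε * ‖τ'‖ := by
    rw [show t - τ' = ((1 - x : ℝ) : ℂ) * (τ - τ') by rw [ht]; push_cast; ring, norm_mul, norm_real,
      Real.norm_of_nonneg (sub_nonneg.2 hx.2)]
    exact (mul_le_of_le_one_left (norm_nonneg _) (by linarith [hx.1])).trans n2
  have hf : ∀ k, ε * ‖T k‖ ≤ ‖t - T k‖ := by
    intro k
    have key : ∀ s : ℂ, ‖t - s‖ ≤ 300 * K * ε * ‖s‖ → θ * ‖T k‖ < ‖s - T k‖ →
        ε * ‖T k‖ ≤ ‖t - T k‖ := by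
      intro s h1 h2
      have h3 := norm_sub_le_norm_sub_add_norm_sub s t (T k)
      rw [norm_sub_rev s t] at h3
      have h4 := norm_le_norm_add_norm_sub' s (T k)
      have h5 : 300 * K * ε * ‖s‖ ≤ 3 / 10 * θ * (‖T k‖ + ‖s - T k‖) :=
        mul_le_mul (by linarith) h4 (norm_nonneg _) (by linarith)
      have h6 := mul_le_mul_of_nonneg_right h₂ (norm_nonneg (s - T k))
      have h7 := mul_le_mul_of_nonneg_right (show 1000 * ε ≤ θ by linarith) (norm_nonneg (T k))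
      have h8 : 0 ≤ ε * ‖T k‖ := by positivity
      nlinarith
    by_cases h1 : ‖τ - T k‖ ≤ θ * ‖T k‖
    · exact key τ' d2 (not_le.1 fun h2 => hk ⟨k, h1, h2⟩)
    · exact key τ d1 (not_le.1 h1)
  have e : t = ((1 - x : ℝ) : ℂ) * τ + x * τ' := by rw [ht]; push_cast; ring
  have hτ0 := norm_pos_iff.2 hτ.2.1
  have hi : 0 ≤ t.im := by
    rw [e, add_im, im_ofReal_mul, im_ofReal_mul]
    exact add_nonneg (mul_nonneg (sub_nonneg.2 hx.2) hτ.1) (mul_nonneg hx.1 hτ'.1)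
  have ht0 : t ≠ 0 := by
    intro h0
    rw [h0, zero_sub, norm_neg] at d1
    nlinarith
  have hS : t ∈ SS T μ δ := by
    refine ⟨hi, ht0, ?_, fun k => (h.mu k).2.trans (hf k)⟩
    have := convex_ball (0 : ℂ) δ (mem_ball_zero_iff.2 hτ.2.2.1) (mem_ball_zero_iff.2 hτ'.2.2.1)
      (sub_nonneg.2 hx.2) hx.1 (sub_add_cancel 1 x)
    rwa [mem_ball_zero_iff, real_smul, real_smul, ← e] at this
  refine ⟨hS, ?_⟩
  have h1 := pw_close (σ := -3 / 2) hτ.2.1 hτ.1 hi d1 (by linarith) (by norm_num [abs_le])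
  have h2 := h.main t hS
  have h3 := h.far t hS hf
  have h4 := norm_le_norm_add_norm_sub' (pw (-3 / 2) t) (pw (-3 / 2) τ)
  have h5 := norm_sub_le_norm_sub_add_norm_sub (f₁ t) (c * pw (-3 / 2) t) (c * pw (-3 / 2) τ)
  rw [norm_pw _ ht0, norm_pw _ hτ.2.1] at h4
  rw [← mul_sub, norm_mul] at h5
  rw [norm_mul, norm_pw _ hτ.2.1]
  have h6 : 0 ≤ ‖τ‖ ^ (-3 / 2 : ℝ) := by positivity
  have h7 : ‖pw (-3 / 2) t - pw (-3 / 2) τ‖ ≤ 1 / 4 * ‖τ‖ ^ (-3 / 2 : ℝ) :=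
    h1.trans (mul_le_mul_of_nonneg_right (by linarith) h6)
  have h8 := mul_le_mul_of_nonneg_left h7 (norm_nonneg c)
  have h9 : ε * ‖c‖ * ‖t‖ ^ (-3 / 2 : ℝ) ≤ 1 / 100 * ‖c‖ * (2 * ‖τ‖ ^ (-3 / 2 : ℝ)) := by
    gcongr
    linarith
  have h10 : 0 ≤ ‖c‖ * ‖τ‖ ^ (-3 / 2 : ℝ) := by positivity
  linarith

theorem Sheet.cross (h : Sheet T μ R δ ε K c f₁ f₂ X) {T' : κ → ℂ} {μ' : κ → ℝ} {R' : ℝ} {c' : ℂ}
    {f₁' f₂' X' : ℂ → ℂ} (h' : Sheet T' μ' R' δ ε K c' f₁' f₂' X') (h₁ : 1000 * K * ε ≤ 1)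
    {τ τ' : ℂ} (hτ : τ ∈ SS T μ δ) (hτ' : τ' ∈ SS T' μ' δ) (he : X' τ' = -conj (X τ)) :
    ‖τ' - (c' / conj c) ^ 2 * conj τ‖ ≤ 300 * K * ε * ‖(c' / conj c) ^ 2 * conj τ‖ := by
  have h1 := Emb5_mod h hτ
  have h2 := Emb5_mod h' hτ'
  have hc : conj c ≠ 0 := (map_ne_zero _).2 h.c_ne
  rw [← norm_conj, ← norm_conj (2 * c * _), map_add] at h1
  rw [he, ← norm_neg (2 * c' * _)] at h2
  refine (Emb5_rat (P := conj (2 * c * pw (-1 / 2) τ)) (P' := -(2 * c' * pw (-1 / 2) τ'))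
    (η := 100 * K * ε) ((map_ne_zero _).2 (mul_ne_zero (mul_ne_zero two_ne_zero h.c_ne)
    (pw_ne _ _))) (by linarith) ?_ (mul_ne_zero (pow_ne_zero _ (div_ne_zero h'.c_ne hc))
    ((map_ne_zero _).2 hτ.2.1)) ?_).trans (le_of_eq (by ring))
  · have h3 := (norm_add_le _ _).trans (add_le_add h1 h2)
    rw [sub_neg_eq_add, mul_add]
    refine le_of_eq_of_le (congrArg norm (by ring)) h3
  · have h3 := congrArg conj (Emb5_sq hτ.2.1)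
    have h4 := Emb5_sq hτ'.2.1
    simp only [map_mul, map_pow, map_one, map_ofNat] at h3 ⊢
    have h5 : conj c * (c' / conj c) = c' := mul_div_cancel₀ _ hc
    generalize c' / conj c = z at h5
    subst h5
    linear_combination (2 * conj c * z) ^ 2 * (h3 - h4)

/-- the position of the waist -/
theorem Sh0.xm (h : Sh0 T μ R δ ε K c f₁ f₂) {k : κ} {v : ℂ} {θ a₁ a₂ : ℝ}
    (hT : T k = (‖T k‖ : ℂ) * exp (θ * I)) (hθ : θ ∈ Icc 0 Real.pi)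
    (hc : (c.im = 0 ∧ a₁ = Real.pi ∧ a₂ = 0) ∨ (c.re = 0 ∧ a₁ = 0 ∧ a₂ = Real.pi))
    (hv : μ k = ‖T k‖ * ‖v‖) (hd : ‖v‖ ^ 2 ≤ v.re) (hi : 0 ≤ (T k + T k * v).im) :
    ‖(arcI f₁ f₂ 0 (2 * ‖T k‖) a₁ θ).re + (arcI f₁ f₂ 0 (2 * ‖T k‖) a₂ θ).im * I +
        segI f₁ f₂ (2 * T k) (T k + T k * v) + 2 * c * pw (-1 / 2) (T k)‖ ≤
      100 * K * ε * ‖c‖ * ‖T k‖ ^ (-1 / 2 : ℝ) := by
  have hε := h.ε_pos
  have hK := h.K_ge
  have hr : 0 < ‖T k‖ := by linarith [(h.rad k).1, h.R_pos]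
  have hT0 : 0 ≤ (T k).im := by
    rw [hT, im_ofReal_mul, exp_ofReal_mul_I_im]
    exact mul_nonneg hr.le (Real.sin_nonneg_of_mem_Icc hθ)
  have hvε : ‖v‖ ≤ ε := by
    have := (h.mu k).2
    rw [hv, mul_comm] at this
    exact le_of_mul_le_mul_right this hr
  have m0 : (0 : ℝ) ∈ Icc 0 Real.pi := ⟨le_rfl, Real.pi_pos.le⟩
  have m1 : Real.pi ∈ Icc 0 Real.pi := ⟨Real.pi_pos.le, le_rfl⟩
  have e2 : ((2 * ‖T k‖ : ℝ) : ℂ) * exp (θ * I) = 2 * T k := by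
    conv_rhs => rw [hT]
    push_cast
    ring
  obtain ⟨ρ, p0, p1⟩ : ∃ ρ : ℝ, pw (-1 / 2) ((2 * ‖T k‖ : ℝ) * exp ((0 : ℝ) * I)) = ρ ∧
      pw (-1 / 2) ((2 * ‖T k‖ : ℝ) * exp (Real.pi * I)) = -(ρ * I) := by
    refine ⟨(2 * ‖T k‖) ^ (-1 / 2 : ℝ), ?_, ?_⟩
    · rw [pw_polar _ (by linarith) m0]
      simp
    · rw [pw_polar _ (by linarith) m1,
        show ((-1 / 2 : ℝ) : ℂ) * Real.pi * I = -(Real.pi / 2 * I) by push_cast; ring, exp_neg,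
        exp_pi_div_two_mul_I, inv_I, mul_neg]
  obtain ⟨ha₁, ha₂, z1, z2⟩ : a₁ ∈ Icc 0 Real.pi ∧ a₂ ∈ Icc 0 Real.pi ∧
      (2 * c * pw (-1 / 2) ((2 * ‖T k‖ : ℝ) * exp (a₁ * I))).re = 0 ∧
      (2 * c * pw (-1 / 2) ((2 * ‖T k‖ : ℝ) * exp (a₂ * I))).im = 0 := by
    rcases hc with ⟨h1, rfl, rfl⟩ | ⟨h1, rfl, rfl⟩
    · exact ⟨m1, m0, by rw [p1]; simp [h1], by rw [p0]; simp [h1]⟩
    · exact ⟨m0, m1, by rw [p0]; simp [h1], by rw [p1]; simp [h1]⟩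
  have b1 := (abs_re_le_norm _).trans (Emb5_arc h k ha₁ hθ)
  have b2 := (abs_im_le_norm _).trans (Emb5_arc h k ha₂ hθ)
  rw [add_re, sub_re, z1, sub_zero, e2] at b1
  rw [add_im, sub_im, z2, sub_zero, e2] at b2
  have b3 := Emb5_seg h hT0 hv hd hi
  have b4 := pw_close (σ := -1 / 2) (η := ε) (norm_pos_iff.1 hr) hT0 hi
    (by rw [add_sub_cancel_left, norm_mul, mul_comm]; gcongr) (by linarith [h.ε_le])
    (by norm_num [abs_le])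
  generalize arcI f₁ f₂ 0 (2 * ‖T k‖) a₁ θ = A₁ at b1 ⊢
  generalize arcI f₁ f₂ 0 (2 * ‖T k‖) a₂ θ = A₂ at b2 ⊢
  generalize 2 * c * pw (-1 / 2) (2 * T k) = G at b1 b2 b3
  have e : (A₁.re : ℂ) + A₂.im * I + segI f₁ f₂ (2 * T k) (T k + T k * v) +
      2 * c * pw (-1 / 2) (T k) = ((A₁.re + G.re : ℝ) : ℂ) + ((A₂.im + G.im : ℝ) : ℂ) * I +
      (segI f₁ f₂ (2 * T k) (T k + T k * v) + (2 * c * pw (-1 / 2) (T k + T k * v) - G)) -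
      2 * c * (pw (-1 / 2) (T k + T k * v) - pw (-1 / 2) (T k)) := by
    have := re_add_im G
    push_cast
    linear_combination -this
  rw [e]
  refine (norm_sub_le _ _).trans ((add_le_add norm_add₃_le le_rfl).trans ?_)
  rw [norm_mul _ I, norm_I, mul_one, norm_real, norm_real, Real.norm_eq_abs, Real.norm_eq_abs,
    norm_mul, norm_mul, Complex.norm_two]
  have h1 := mul_le_mul_of_nonneg_left b4 (by positivity : 0 ≤ 2 * ‖c‖)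
  have h2 : 0 ≤ ε * ‖c‖ * ‖T k‖ ^ (-1 / 2 : ℝ) := by positivity
  have h3 := mul_le_mul_of_nonneg_right hK h2
  nlinarith

end Pool.Agent.MP_92463a_gt

end
end
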