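import Pool.Agent.Mg.F92463a.G6a2742
import Pool.Agent.Mg.F92463a.G8b47cf
import Pool.Agent.Mg.F92463a.G8de453
import Pool.Agent.Mg.F92463a.G34dd3a
import Pool.Agent.Mg.F92463a.Gc176c8

section

open Set Complex Filter Metric
open scoped Topology ComplexConjugate ContDiff Manifold

noncomputable section

namespace Pool.Agent.MP_92463a_gt

variable {γ : ℕ} {α : Type} {l : Filter α} {C : α → Cfg γ} {D₀ : Dat} {z₀ : Zs γ}

theorem CfO1_y {θ : ℝ} (hθ : 0 < θ) {τ T : ℂ} (hτ : τ ≠ 0) (hT : T ≠ 0)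
    (h : θ * ‖T‖ ≤ ‖τ - T‖) : Real.log θ + Real.log ‖T‖ ≤ Real.log ‖τ - T‖ ∧
      Real.log ‖τ‖ ≤ Real.log (1 + θ⁻¹) + Real.log ‖τ - T‖ := by
  have h1 : 0 < ‖T‖ := norm_pos_iff.2 hT
  have h2 : 0 < ‖τ - T‖ := (mul_pos hθ h1).trans_le h
  constructor
  · rw [← Real.log_mul hθ.ne' h1.ne']
    exact Real.log_le_log (mul_pos hθ h1) h
  · rw [← Real.log_mul (by positivity) h2.ne']
    refine Real.log_le_log (norm_pos_iff.2 hτ) ?_
    have h3 : ‖T‖ ≤ θ⁻¹ * ‖τ - T‖ := (le_inv_mul_iff₀ hθ).2 h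
    have h4 : ‖τ‖ ≤ ‖τ - T‖ + ‖T‖ := by simpa using norm_add_le (τ - T) T
    linarith

theorem CfO1_real (hγ : 0 < γ) {E e L K lam q : ℝ} {a a' y y' : Fin γ → ℝ} (he : 0 < e)
    (hE : E = (8 * γ + 4) * e) (hK : 0 ≤ K) (hL : 0 < L) (hLK : 8 * γ * K ≤ L) (hlam : 0 ≤ lam)
    (hq : E * (γ + 1 / 2) - e ≤ L * q) (ha : ∀ k, -(E + e) ≤ L * a k ∧ L * a k ≤ 0)
    (ha' : ∀ k, 0 ≤ L * a' k ∧ L * a' k ≤ E + e) (hy : ∀ k, -(min lam (2 * L) + K) ≤ y k)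
    (hy' : ∀ k, -(min lam (2 * L) + K) ≤ y' k) :
    2 * (q * -lam + ∑ k, a k * y k) ≤ 2 * (0 + ∑ k, a' k * y' k) + 4 * γ * E := by
  have hg : (1 : ℝ) ≤ γ := by exact_mod_cast hγ
  have m0 : 0 ≤ min lam (2 * L) := le_min hlam (by positivity)
  have m1 := min_le_left lam (2 * L)
  have m2 := min_le_right lam (2 * L)
  generalize min lam (2 * L) = m at *
  have h1 : L * ∑ k, a k * y k ≤ γ * ((E + e) * (m + K)) := by
    rw [Finset.mul_sum]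
    refine (Finset.sum_le_card_nsmul _ _ ((E + e) * (m + K)) fun k _ => ?_).trans (by simp)
    nlinarith [mul_nonneg (neg_nonneg.2 (ha k).2) (sub_nonneg.2 (hy k)),
      mul_nonneg (sub_nonneg.2 (ha k).1) (add_nonneg m0 hK)]
  have h2 : -(γ * ((E + e) * (m + K))) ≤ L * ∑ k, a' k * y' k := by
    rw [Finset.mul_sum]
    refine le_trans (by simp) (Finset.card_nsmul_le_sum _ _ (-((E + e) * (m + K))) fun k _ => ?_)
    nlinarith [mul_nonneg (ha' k).1 (sub_nonneg.2 (hy' k)),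
      mul_nonneg (sub_nonneg.2 (ha' k).2) (add_nonneg m0 hK)]
  have h3 : 0 ≤ E * (γ + 1 / 2) - e := by
    rw [hE]
    nlinarith [mul_nonneg he.le (sub_nonneg.2 hg), mul_nonneg he.le (sq_nonneg (γ : ℝ))]
  have h4 : (E * (γ + 1 / 2) - e) * m ≤ L * q * lam := mul_le_mul hq m1 m0 (h3.trans hq)
  have hE0 : 0 ≤ E := by rw [hE]; positivity
  have h5 : 0 ≤ E * (γ - 1 / 2) + (2 * γ + 1) * e :=
    add_nonneg (mul_nonneg hE0 (by linarith)) (by positivity)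
  have h6 := mul_le_mul_of_nonneg_left m2 h5
  have h7 : e ≤ E := by
    rw [hE]
    nlinarith
  have h8 : (E + e) * (8 * γ * K) ≤ (E + E) * L :=
    mul_le_mul (by linarith) hLK (by positivity) (by linarith)
  have h9 : L * E = L * ((8 * γ + 4) * e) := by rw [← hE]
  refine le_of_mul_le_mul_left ?_ hL
  nlinarith

/-- away from the necks the second sheet lies above the first one -/
theorem Lim.cross (h : Lim l C D₀ 0) {θ : ℝ} (hθ : 0 < θ) : ∀ᶠ δ in 𝓝[>] (0 : ℝ), ∀ᶠ x in l,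
    ∀ τ ∈ SS ((C x).TT false) ((C x).mm false) δ, ∀ τ' ∈ SS ((C x).TT true) ((C x).mm true) δ,
      Real.exp ((C x).lk true) * ‖τ‖ ≤ 2 * ‖τ'‖ →
      (∀ k, θ * ‖(C x).τ (k, false)‖ ≤ ‖τ - (C x).τ (k, false)‖) →
      (∀ k, θ * ‖(C x).τ (k, true)‖ ≤ ‖τ' - (C x).τ (k, true)‖) →
      (C x).wd.hh (-(C x).bb false + τ) < (C x).wd.hh (-(C x).bb true + τ') := by
  rcases l.eq_or_neBot with rfl | hl
  · simp
  have h₀ := h.adm₀
  have hγ := h₀.pos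
  have hb : 0 < D₀.b 0 ∧ 5 * D₀.b 0 < D₀.b 1 := ⟨(h₀.bb true).1, (h₀.bb true).2.2⟩
  have hE := h₀.E_pos
  have hlog : Real.log (D₀.b 1) - Real.log (D₀.b 0) = (2 * γ + 1) * (cf D₀ (0 : Zs γ)).E := by
    rw [← Real.log_div (by linarith) hb.1.ne', Cfg.E, mul_div_cancel₀ _ (by positivity)]
    rfl
  have hr := h.rs3
  have hq := h.q0
  have heh : ∀ k, (0 : Zs γ).eh k = 1 := fun k => by simp [Zs.eh]
  have hm : (0 : Zs γ).mean = 0 := by simp [Zs.mean]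
  simp only [heh, hm, mul_one, zero_re, add_zero] at hr hq
  obtain ⟨K₀, hK₀⟩ := h.log_tau
  have hlk := h.lk true
  generalize (cf D₀ (0 : Zs γ)).E = E at *
  generalize (cf D₀ (0 : Zs γ)).lk true = lk₀ at *
  obtain ⟨e, he, hEe⟩ : ∃ e : ℝ, 0 < e ∧ E = (8 * γ + 4) * e :=
    ⟨E / (8 * γ + 4), by positivity, by rw [mul_div_cancel₀ _ (by positivity)]⟩
  have heE : e < E := by
    have : (0 : ℝ) ≤ γ := by positivity
    rw [hEe]
    nlinarith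
  obtain ⟨K, hK⟩ : ∃ K, K = |Real.log θ| + |K₀| + |Real.log (1 + θ⁻¹)| + |Real.log 2| +
    |lk₀| + 1 := ⟨_, rfl⟩
  have hra : ∀ k, ∀ᶠ x in l, -(E + e) ≤ (C x).L * ((C x).pl.rs (C x).wd.f3 (k, false)).re ∧
      (C x).L * ((C x).pl.rs (C x).wd.f3 (k, false)).re ≤ 0 := fun k => by
    have h1 := (continuous_re.tendsto _).comp (hr (k, false))
    simp only [Function.comp_def, re_ofReal_mul, Bool.false_eq_true, if_false, neg_mul, one_mul,
      neg_re, ofReal_re] at h1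
    exact (h1.eventually (le_mem_nhds (by linarith))).and
      (h1.eventually (ge_mem_nhds (by linarith)))
  have hra' : ∀ k, ∀ᶠ x in l, 0 ≤ (C x).L * ((C x).pl.rs (C x).wd.f3 (k, true)).re ∧
      (C x).L * ((C x).pl.rs (C x).wd.f3 (k, true)).re ≤ E + e := fun k => by
    have h1 := (continuous_re.tendsto _).comp (hr (k, true))
    simp only [Function.comp_def, re_ofReal_mul, if_true, one_mul, ofReal_re] at h1
    exact (h1.eventually (le_mem_nhds hE)).and (h1.eventually (ge_mem_nhds (by linarith)))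
  filter_upwards [h.hh_sheet (E / 2) (by positivity),
    Ioo_mem_nhdsGT (lt_min one_pos (show 0 < D₀.b 0 / 4 by linarith))] with δ hδ hδ'
  have d1 : δ < 1 := hδ'.2.trans_le (min_le_left _ _)
  have d2 : δ < D₀.b 0 / 4 := hδ'.2.trans_le (min_le_right _ _)
  filter_upwards [hδ, h.g0, eventually_all.2 hra, eventually_all.2 hra', hK₀,
    hq.eventually (le_mem_nhds (sub_lt_self _ he)), hlk.eventually (le_mem_nhds (sub_one_lt _)),
    h.L.eventually_ge_atTop (8 * γ * K),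
    (h.bb false).eventually (le_mem_nhds (show D₀.b 0 / 2 < D₀.b 0 by linarith))]
    with x x1 ⟨x2, _⟩ x3 x4 x5 x6 x7 x8 x9 τ hτ τ' hτ' g1 g2 g3
  have d3 : δ ≤ (C x).D.b 0 / 2 := by
    have : D₀.b 0 / 2 ≤ (C x).D.b 0 := x9
    linarith
  have e1 := (abs_le.1 (x1 false τ hτ.2.2.1 (x2.ss d3 hτ).2)).2
  have e2 := (abs_le.1 (x1 true τ' hτ'.2.2.1 (x2.ss d3 hτ').2)).1
  have n1 : 0 < ‖τ‖ := norm_pos_iff.2 hτ.2.1
  have n2 : (C x).lk true + Real.log ‖τ‖ ≤ Real.log 2 + Real.log ‖τ'‖ := by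
    have := Real.log_le_log (by positivity) g1
    rwa [Real.log_mul (Real.exp_ne_zero _) n1.ne', Real.log_exp,
      Real.log_mul two_ne_zero (norm_ne_zero_iff.2 hτ'.2.1)] at this
  have a1 := neg_abs_le (Real.log θ)
  have a2 := le_abs_self K₀
  have a3 := le_abs_self (Real.log (1 + θ⁻¹))
  have a4 := le_abs_self (Real.log 2)
  have a5 := neg_abs_le lk₀
  have b1 := abs_nonneg (Real.log θ)
  have b2 := abs_nonneg K₀
  have b3 := abs_nonneg (Real.log (1 + θ⁻¹))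
  have b4 := abs_nonneg (Real.log 2)
  have b5 := abs_nonneg lk₀
  have key := CfO1_real (lam := -Real.log ‖τ‖) (K := K) (q := (C x).wd.q0)
    (y := fun k => Real.log ‖τ - (C x).τ (k, false)‖)
    (y' := fun k => Real.log ‖τ' - (C x).τ (k, true)‖) hγ he hEe (by linarith)
    (one_pos.trans_le x2.L) x8 (neg_nonneg.2 (Real.log_nonpos n1.le (hτ.2.2.1.trans d1).le)) x6 x3
    x4 (fun k => by
      obtain ⟨c1, c2⟩ := CfO1_y hθ hτ.2.1 (Cfg.τ_ne _) (g2 k)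
      have c3 := (abs_le.1 (x5 (k, false))).1
      rw [neg_le, ← sub_le_iff_le_add, le_min_iff]
      constructor <;> linarith) fun k => by
      obtain ⟨c1, c2⟩ := CfO1_y hθ hτ'.2.1 (Cfg.τ_ne _) (g3 k)
      have c3 := (abs_le.1 (x5 (k, true))).1
      rw [neg_le, ← sub_le_iff_le_add, le_min_iff]
      constructor <;> linarith
  rw [neg_neg] at key
  change (C x).hs false τ ≤ (C x).hs true τ' + _ at key
  change _ - 2 * Real.log (D₀.b 0) - _ ≤ _ at e1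
  change _ ≤ _ - 2 * Real.log (D₀.b 1) - _ at e2
  linarith

end Pool.Agent.MP_92463a_gt

end
end

section

open Set Complex Filter Metric
open scoped Topology ComplexConjugate ContDiff Manifold

noncomputable section

namespace Pool.Agent.MP_92463a_gt

theorem CfM_mul {x y a b : ℂ} {ε₁ ε₂ ε : ℝ} (h1 : ‖x - a‖ ≤ ε₁ * ‖a‖) (h2 : ‖y - b‖ ≤ ε₂ * ‖b‖)
    (h : ε₁ + ε₂ + ε₁ * ε₂ ≤ ε) : ‖x * y - a * b‖ ≤ ε * ‖a * b‖ := by
  have e : x * y - a * b = (x - a) * (y - b) + (x - a) * b + a * (y - b) := by ring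
  have h3 := mul_le_mul h1 h2 (norm_nonneg _) ((norm_nonneg _).trans h1)
  have h4 := mul_le_mul_of_nonneg_right h1 (norm_nonneg b)
  have h5 := mul_le_mul_of_nonneg_left h2 (norm_nonneg a)
  have h6 := mul_le_mul_of_nonneg_right h (mul_nonneg (norm_nonneg a) (norm_nonneg b))
  rw [e]
  refine norm_add₃_le.trans ?_
  simp only [norm_mul]
  linarith

theorem CfM_alg {s r m m' ρ c v κ κ' μ : ℂ} (h1 : ‖s * v - ρ‖ ≤ 1 / 10000 * ‖ρ‖)
    (h2 : ‖r - 1‖ ≤ 1 / 10000) (h3 : ‖m - 1‖ ≤ 1 / 10000) (h4 : ‖m' - 1‖ ≤ 1 / 10000)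
    (h5 : ‖ρ / c - μ‖ ≤ 1 / 10000 * ‖μ‖) :
    ‖(m * s) ^ 2 * κ * v ^ 2 - ρ ^ 2 * κ‖ ≤ ‖ρ ^ 2 * κ‖ / 1000 ∧
      ‖(m' * r) ^ 2 * κ' - κ'‖ ≤ ‖κ'‖ / 1000 ∧ ‖m * s * (m' * r) / c * v - μ‖ ≤ ‖μ‖ / 1000 := by
  have o : ∀ {z : ℂ}, ‖z - 1‖ ≤ 1 / 10000 → ‖z - 1‖ ≤ 1 / 10000 * ‖(1 : ℂ)‖ := fun h => by
    simpa using h
  have z : ∀ a : ℂ, ‖a - a‖ ≤ 0 * ‖a‖ := fun a => by simp
  have a1 := CfM_mul (o h3) h1 (ε := 3 / 10000) (by norm_num)
  have a2 := CfM_mul (o h4) (o h2) (ε := 3 / 10000) (by norm_num)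
  have a3 := CfM_mul (CfM_mul a1 a1 (ε := 1 / 1000) (by norm_num)) (z κ) (ε := 1 / 1000)
    (by norm_num)
  have a4 := CfM_mul (CfM_mul a2 a2 (ε := 1 / 1000) (by norm_num)) (z κ') (ε := 1 / 1000)
    (by norm_num)
  have a5 := CfM_mul (CfM_mul a1 a2 (ε := 7 / 10000) (by norm_num)) (z c⁻¹) (ε := 7 / 10000)
    (by norm_num)
  simp only [one_mul, mul_one, ← div_eq_mul_inv] at a3 a4 a5
  refine ⟨?_, ?_, ?_⟩
  · convert a3 using 2
    · ring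
    · rw [sq]
      ring
  · convert a4 using 2
    · ring
    · ring
  · have b1 := norm_sub_le_norm_sub_add_norm_sub (m * (s * v) * (m' * r) / c) (ρ / c) μ
    have b2 := norm_le_norm_add_norm_sub' (ρ / c) μ
    have b3 := norm_nonneg μ
    rw [show m * s * (m' * r) / c * v = m * (s * v) * (m' * r) / c by ring]
    linarith

theorem CfM_est {γ : ℕ} {ψ v a : ℂ} {ρ d : Fin γ → ℂ} {k : Fin γ} {ε η : ℝ}
    (hψ : ‖ψ - (1 + a + ∑ j, ρ j / d j)‖ ≤ ε * (1 + ∑ j, ‖ρ j‖ / ‖d j‖)) (hk : d k = v)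
    (hv : v ≠ 0) (hε : ε ≤ 1) (h1 : ‖v‖ ≤ η) (h2 : ‖a * v‖ ≤ η)
    (h3 : ∀ j, j ≠ k → ‖ρ j‖ / ‖d j‖ * ‖v‖ ≤ η) :
    ‖ψ * v - ρ k‖ ≤ ε * ‖ρ k‖ + (3 + 2 * γ) * η := by
  have hv' : ‖v‖ ≠ 0 := norm_ne_zero_iff.2 hv
  have hη := (norm_nonneg v).trans h1
  rw [← Finset.add_sum_erase _ _ (Finset.mem_univ k),
    ← Finset.add_sum_erase _ _ (Finset.mem_univ k), hk] at hψ
  have s1 : ‖∑ j ∈ Finset.univ.erase k, ρ j / d j‖ ≤ ∑ j ∈ Finset.univ.erase k, ‖ρ j‖ / ‖d j‖ :=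
    (norm_sum_le _ _).trans_eq (by simp only [norm_div])
  have s2 : (∑ j ∈ Finset.univ.erase k, ‖ρ j‖ / ‖d j‖) * ‖v‖ ≤ γ * η := by
    rw [Finset.sum_mul]
    refine (Finset.sum_le_card_nsmul _ _ η fun j hj => h3 j (Finset.ne_of_mem_erase hj)).trans ?_
    rw [nsmul_eq_mul]
    refine mul_le_mul_of_nonneg_right ?_ hη
    exact_mod_cast (Finset.card_le_univ _).trans_eq (Fintype.card_fin γ)
  generalize ∑ j ∈ Finset.univ.erase k, ρ j / d j = S at *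
  generalize ∑ j ∈ Finset.univ.erase k, ‖ρ j‖ / ‖d j‖ = S' at *
  have e : ψ * v - ρ k = (ψ - (1 + a + (ρ k / v + S))) * v + v + (a * v + S * v) := by
    field_simp
    ring
  have s3 := mul_le_mul_of_nonneg_right hψ (norm_nonneg v)
  have s4 : ε * (1 + (‖ρ k‖ / ‖v‖ + S')) * ‖v‖ = ε * ‖ρ k‖ + ε * (‖v‖ + S' * ‖v‖) := by
    field_simp
    ring
  have s5 := mul_le_mul_of_nonneg_right s1 (norm_nonneg v)
  have s6 : ε * (‖v‖ + S' * ‖v‖) ≤ ‖v‖ + S' * ‖v‖ := mul_le_of_le_one_left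
    (add_nonneg (norm_nonneg v) ((mul_nonneg (norm_nonneg S) (norm_nonneg v)).trans s5)) hε
  have s7 := norm_add_le (a * v) (S * v)
  rw [e]
  refine norm_add₃_le.trans ?_
  rw [norm_mul S] at s7
  rw [norm_mul]
  linarith

theorem CfM_small (K : ℝ) {ε : ℝ} (hε : 0 < ε) : ∀ᶠ θ in 𝓝[>] (0 : ℝ), θ * K < ε := by
  have : Tendsto (fun θ : ℝ => θ * K) (𝓝 0) (𝓝 (0 * K)) := tendsto_id.mul_const K
  exact nhdsWithin_le_nhds (this.eventually_lt_const (by simpa using hε))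

variable {γ : ℕ} {α : Type} {l : Filter α} {C : α → Cfg γ} {D₀ : Dat} {z₀ : Zs γ}

theorem CfM_geo {C : Cfg γ} (h : C.G0) {θ : ℝ} (hθ : θ * (16 * γ) < 1) {e : Fin γ × Bool} {v : ℂ}
    (h1 : C.pl.mu e ≤ ‖v‖) (h2 : ‖v‖ ≤ θ * ‖C.τ e‖) :
    v ≠ 0 ∧ ‖v‖ / ‖C.τ e + v‖ ≤ 2 * θ ∧
      (∀ j, j ≠ e.1 → ‖v‖ / ‖C.τ e + v - C.τ (j, e.2)‖ ≤ γ * θ) ∧ ‖C.τ e + v‖ ≤ C.D.b 0 ∧
      -C.bb e.2 + (C.τ e + v) ∈ C.pl.Fd := by
  obtain ⟨k, b⟩ := e
  have hγ : (1 : ℝ) ≤ γ := by exact_mod_cast h.pos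
  have hτ : 0 < ‖C.τ (k, b)‖ := norm_pos_iff.2 (Cfg.τ_ne _)
  have hv : 0 < ‖v‖ := by
    refine lt_of_lt_of_le ?_ h1
    rw [h.mu_eq]
    exact mul_pos hτ (norm_pos_iff.2 (h.vs_ne _))
  have hθ0 : 0 < θ := (mul_pos_iff_of_pos_right hτ).1 (hv.trans_le h2)
  have h3 : ‖v‖ ≤ ‖C.τ (k, b)‖ / γ := by
    rw [le_div_iff₀ (by linarith)]
    nlinarith [mul_le_mul_of_nonneg_right h2 (show (0 : ℝ) ≤ γ by linarith)]
  have h4 : ‖v‖ ≤ ‖C.τ (k, b)‖ / 2 := by nlinarith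
  have h5 : ∀ j, j ≠ k → ‖C.τ (k, b)‖ / γ ≤ ‖C.τ (k, b) + v - C.τ (j, b)‖ := fun j hj => by
    have a1 := (h.sep hj b).2
    have a2 := norm_sub_le v (C.τ (k, b) + v - C.τ (j, b))
    rw [show v - (C.τ (k, b) + v - C.τ (j, b)) = C.τ (j, b) - C.τ (k, b) by ring] at a2
    have a3 : 2 / (γ : ℝ) * ‖C.τ (k, b)‖ = 2 * (‖C.τ (k, b)‖ / γ) := by ring
    linarith
  have h6 := norm_sub_le (C.τ (k, b) + v) v
  rw [add_sub_cancel_right] at h6
  have h7 : ‖C.τ (k, b) + v‖ ≤ C.D.b 0 := by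
    linarith [norm_add_le (C.τ (k, b)) v, h.τ (k, b)]
  refine ⟨norm_pos_iff.1 hv, ?_, fun j hj => ?_, h7, h.mem_fd h7 fun j => ?_⟩
  · rw [div_le_iff₀ (by linarith)]
    nlinarith
  · have a1 := h5 j hj
    have a2 : 0 < ‖C.τ (k, b)‖ / γ := by positivity
    rw [div_le_iff₀ (a2.trans_le a1)]
    rw [div_le_iff₀ (by linarith)] at a1
    nlinarith
  · rcases eq_or_ne j k with rfl | hj
    · rwa [add_sub_cancel_left]
    · refine le_trans ?_ (h5 j hj)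
      have a1 := (h.rad (j, b)).2
      have a2 := (h.rad (k, b)).1
      have a3 := mul_le_mul_of_nonneg_left (h.vs j) (norm_nonneg (C.τ (j, b)))
      rw [Cfg.mm, h.mu_eq]
      refine a3.trans ?_
      rw [mul_one_div, div_le_div_iff₀ (by linarith) (by linarith)]
      nlinarith

theorem CfM_m {C : Cfg γ} (h : C.G0) {m : Fin γ × Bool → ℂ → ℂ} (hm : C.pl.Wt m) {θ : ℝ}
    (hθ : θ * (16 * γ) < 1) {e : Fin γ × Bool} {v : ℂ} (h2 : ‖v‖ ≤ θ * ‖C.τ e‖) :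
    ‖v‖ < C.pl.ρ e ∧ ‖m e v - 1‖ ≤ θ * (4 * γ) := by
  have hγ : (0 : ℝ) < γ := by exact_mod_cast h.pos
  have hτ : 0 < ‖C.τ e‖ := norm_pos_iff.2 (Cfg.τ_ne _)
  have e1 : C.pl.ρ e = ‖C.τ e‖ / (16 * γ) := rfl
  have h3 : ‖v‖ < C.pl.ρ e := by
    rw [e1, lt_div_iff₀ (by positivity)]
    nlinarith [mul_le_mul_of_nonneg_right h2 (show (0 : ℝ) ≤ 16 * γ by positivity)]
  refine ⟨h3, (hm.schwarz (by linarith [norm_nonneg v])).trans ?_⟩
  rw [div_le_iff₀ (by linarith [norm_nonneg v]), e1]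
  refine h2.trans_eq ?_
  field_simp
  ring

theorem CfM_rc [l.NeBot] (h : Lim l C D₀ 0) {ε : ℝ} (hε : 0 < ε) (e : Fin γ × Bool) : ∀ᶠ x in l,
    ‖(C x).rr e / (C x).c e - (if e.2 then 1 else -1) * ((C x).E / (C x).L : ℝ)‖ ≤
      ε * ((C x).E / (C x).L) := by
  have hb : (D₀.b (jj e.2) : ℂ) ≠ 0 :=
    ofReal_ne_zero.2 ((h.adm₀.bb e.2).1.trans_le (h.adm₀.bb e.2).2.1).ne'
  have h1 := (((h.rr e).div (h.tau0 e).2.2.1 (neg_ne_zero.2 hb)).sub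
    (((continuous_ofReal.tendsto _).comp h.E).const_mul (if e.2 then (1 : ℂ) else -1))).norm
  have h2 : ((if e.2 then -D₀.b 1 else D₀.b 0 : ℝ) : ℂ) * (cf D₀ (0 : Zs γ)).E *
      (0 : Zs γ).eh e.1 / -(D₀.b (jj e.2) : ℂ) -
      (if e.2 then (1 : ℂ) else -1) * (cf D₀ (0 : Zs γ)).E = 0 := by
    rw [ZsB_eh_zero]
    obtain ⟨k, _ | _⟩ := e
    · simp only [jj, Bool.false_eq_true, if_false] at hb ⊢
      field_simp
      ring
    · simp only [jj, if_true, ofReal_neg] at hb ⊢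
      field_simp
      ring
  rw [h2, norm_zero] at h1
  filter_upwards [h1.eventually_lt (h.E.const_mul ε) (mul_pos hε h.adm₀.E_pos),
    h.L.eventually_gt_atTop 0] with x h3 h4
  have h5 : ((C x).L : ℂ) ≠ 0 := ofReal_ne_zero.2 h4.ne'
  have e1 : (C x).rr e / (C x).c e - (if e.2 then 1 else -1) * ((C x).E / (C x).L : ℝ) =
      ((C x).L * (C x).rr e / (C x).c e - (if e.2 then 1 else -1) * ((C x).E : ℂ)) / (C x).L := by
    push_cast
    field_simp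
  rw [e1, norm_div, Complex.norm_real, Real.norm_of_nonneg h4.le, ← mul_div_assoc ε]
  exact div_le_div_of_nonneg_right h3.le h4.le

theorem Lim.neck_est (h : Lim l C D₀ 0) : ∀ ε > 0, ∀ᶠ θ in 𝓝[>] (0 : ℝ), ∀ᶠ x in l, ∀ e,
    ∀ v : ℂ, (C x).pl.mu e ≤ ‖v‖ → ‖v‖ ≤ θ * ‖(C x).τ e‖ →
      ‖(C x).wd.ψs e.2 ((C x).c e + v) * v - (C x).rr e‖ ≤ ε * ‖(C x).rr e‖ ∧
      ‖(C x).wd.ψr e.2 ((C x).c e + v) - 1‖ ≤ ε ∧ ‖(C x).m1 e v - 1‖ ≤ ε ∧
      ‖(C x).m2 e v - 1‖ ≤ ε ∧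
      ‖(C x).rr e / (C x).c e - (if e.2 then 1 else -1) * ((C x).E / (C x).L : ℝ)‖ ≤
        ε * ((C x).E / (C x).L) := by
  intro ε hε
  rcases l.eq_or_neBot with rfl | hl
  · exact Eventually.of_forall fun _ => eventually_bot
  obtain ⟨m, hm, M, hM⟩ := h.bds
  have hL : ∀ᶠ x in l, ∀ e, ‖(C x).L * (C x).τ e‖ < 1 := eventually_all.2 fun e =>
    (h.tau0 e).2.1.norm.eventually_lt_const (by simp)
  filter_upwards [CfM_small (16 * γ) one_pos, CfM_small (4 * γ) hε,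
    CfM_small ((3 + 2 * γ) * (1 + 2 * M ^ 2 + γ * M)) (half_pos (mul_pos hε hm)),
    self_mem_nhdsWithin] with θ t1 t2 t3 t4
  filter_upwards [hM, hL, h.g0, h.w12, h.psr ε hε,
    h.pss (min 1 (ε / 2)) (lt_min one_pos (half_pos hε)),
    eventually_all.2 (CfM_rc h hε)] with x a1 a2 a3 a4 a5 a6 a7 e v h1 h2
  obtain ⟨b1, b2, b3, b4, b5⟩ := CfM_geo a3.1 t1 h1 h2
  have e1 : (C x).c e + v = -(C x).bb e.2 + ((C x).τ e + v) := add_assoc _ _ _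
  refine ⟨?_, e1 ▸ a5 _ _ b4 b5, (CfM_m a3.1 a4.1 t1 h2).2.trans t2.le,
    (CfM_m a3.1 a4.2 t1 h2).2.trans t2.le, a7 e⟩
  have hθ : 0 < θ := t4
  have hγ : (0 : ℝ) ≤ γ := γ.cast_nonneg
  have hL0 : 0 < (C x).L := one_pos.trans_le a3.1.L
  have hb := a3.1.bb e.2
  have c1 := (a1.2 e).2.2.1.1
  have hM0 : 0 < M := hm.trans_le (c1.trans (a1.2 e).2.2.1.2)
  have c2 : (C x).D.b 0 ≤ M := hb.2.1.trans (a1.2 e).2.2.2.2.2.2
  have k1 : 0 ≤ θ * (2 * M ^ 2) := by positivity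
  have k2 : 0 ≤ θ * (γ * M) := by positivity
  have h3 := CfM_est (k := e.1) (v := v) (η := θ * (1 + 2 * M ^ 2 + γ * M) / (C x).L)
    (a6 _ _ b5) (add_sub_cancel_left _ _) b1 (min_le_left _ _) ?_ ?_ fun j hj => ?_
  · rw [e1]
    refine h3.trans ?_
    have c3 := mul_le_mul_of_nonneg_right (min_le_right 1 (ε / 2)) (norm_nonneg ((C x).rr e))
    have c4 : (3 + 2 * γ) * (θ * (1 + 2 * M ^ 2 + γ * M) / (C x).L) ≤ ε / 2 * ‖(C x).rr e‖ := by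
      rw [← mul_div_assoc, div_le_iff₀ hL0]
      nlinarith [mul_le_mul_of_nonneg_left c1 hε.le]
    linarith
  · have c3 := a2 e
    rw [norm_mul, Complex.norm_real, Real.norm_of_nonneg hL0.le] at c3
    rw [le_div_iff₀ hL0]
    nlinarith [mul_le_mul_of_nonneg_right h2 hL0.le, mul_le_mul_of_nonneg_left c3.le hθ.le]
  · rw [le_div_iff₀ hL0]
    split_ifs
    · rw [zero_mul, norm_zero, zero_mul]
      positivity
    · have c3 := mul_le_mul (mul_le_mul a1.1 c2 hb.1.le hM0.le) b2 (by positivity) (by positivity)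
      rw [norm_mul, norm_div, norm_mul, Complex.norm_real, Complex.norm_real,
        Real.norm_of_nonneg hb.1.le, Real.norm_eq_abs]
      refine le_trans (le_of_eq ?_) (c3.trans ?_)
      · ring
      · linarith
  · rw [le_div_iff₀ hL0]
    have c3 := mul_le_mul (a1.2 (j, e.2)).2.2.1.2 (b3 j hj) (by positivity) hM0.le
    refine le_trans (le_of_eq ?_) (c3.trans ?_)
    · ring
    · linarith

theorem Lim.neck (h : Lim l C D₀ 0) : ∀ᶠ θ in 𝓝[>] (0 : ℝ), ∀ᶠ x in l, ∀ X H,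
    (C x).wd.Sol X H → ∀ k b b' t t', t ∈ (C x).wd.Q → t' ∈ (C x).wd.Q → t ∈ (C x).pl.Fd →
      t' ∈ (C x).pl.Fd → ‖t - (C x).c (k, b)‖ ≤ θ * ‖(C x).τ (k, b)‖ →
      ‖t' - (C x).c (k, b')‖ ≤ θ * ‖(C x).τ (k, b')‖ → X t = X t' → H t = H t' →
      (C x).wd.Same t t' := by
  filter_upwards [h.neck_est (1 / 10000) (by norm_num), CfM_small (16 * γ) one_pos,
    self_mem_nhdsWithin] with θ t1 t2 t3
  have hv : ∀ᶠ x in l, ∀ k, ‖(C x).vs k‖ < θ := eventually_all.2 fun k =>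
    (h.vs0 k).1.norm.eventually_lt_const (by simpa using t3)
  filter_upwards [t1, hv, h.fine] with x a1 a2 a3 X H hX k b b' t t' h1 h2 h3 h4 h5 h6 h7 h8
  have g0 := a3.toGood.g0
  have hθ : 0 < θ := t3
  have hE : 0 < (C x).E / (C x).L := div_pos g0.E_pos (one_pos.trans_le g0.L)
  refine hX.neck a3.toGood.ok1 k (R := fun b => θ * ‖(C x).τ (k, b)‖)
    (m := fun b => (if b then 1 else -1) * ((C x).E / (C x).L))
    (α := fun b => (C x).rr (k, b) ^ 2 * if b then ((C x).Ge (k, b) 0 * (C x).c (k, b))⁻¹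
      else (C x).Ge (k, b) 0 / (C x).c (k, b))
    (β := fun b => if b then (C x).Ge (k, b) 0 / (C x).c (k, b)
      else ((C x).Ge (k, b) 0 * (C x).c (k, b))⁻¹)
    (fun b => ⟨?_, ?_⟩) (fun b => ?_) (fun b v h9 h10 => ?_) h1 h2 h3 h4 h5 h6 h7 h8
  · refine (g0.mu_eq (k, b)).trans_le ?_
    rw [mul_comm]
    exact mul_le_mul_of_nonneg_right (a2 k).le (norm_nonneg _)
  · have e1 : ‖(θ : ℂ) * (C x).τ (k, b)‖ = θ * ‖(C x).τ (k, b)‖ := by
      rw [norm_mul, Complex.norm_real, Real.norm_of_nonneg hθ.le]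
    exact e1 ▸ (CfM_m g0 a3.w1 t2 e1.le).1
  · cases b <;> simpa using hE.ne'
  · obtain ⟨b1, b2, b3, b4, b5⟩ := a1 (k, b) v h9 h10
    have c1 := (CfM_m g0 a3.w1 t2 h10).1
    obtain ⟨f1, f2, f3⟩ := g0.f_eq (e := (k, b)) (v := v) (by linarith [norm_nonneg v])
    have e1 : ‖(if b then (1 : ℂ) else -1) * ((C x).E / (C x).L : ℝ)‖ = (C x).E / (C x).L := by
      rw [norm_mul, Complex.norm_real, Real.norm_of_nonneg hE.le]
      cases b <;> simp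
    have e2 : |(if b then (1 : ℝ) else -1) * ((C x).E / (C x).L)| = (C x).E / (C x).L := by
      rw [abs_mul, abs_of_pos hE]
      cases b <;> simp
    have e3 : (((if b then (1 : ℝ) else -1) * ((C x).E / (C x).L) : ℝ) : ℂ) =
        (if b then (1 : ℂ) else -1) * ((C x).E / (C x).L : ℝ) := by
      cases b <;> simp
    rw [e2, e3, f3]
    nth_rewrite 2 [← e1] at b5
    nth_rewrite 2 [← e1]
    cases b
    · simp only [Wd.fs, Wd.fr, Bool.false_eq_true, if_false, f1, f2]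
      exact CfM_alg b1 b2 b3 b4 b5
    · simp only [Wd.fs, Wd.fr, if_true, f1, f2]
      rw [mul_comm ((C x).m1 (k, true) v * _)]
      exact CfM_alg b1 b2 b4 b3 b5

end Pool.Agent.MP_92463a_gt

end
end

section

open Set Complex Filter Metric
open scoped Topology ComplexConjugate ContDiff Manifold

noncomputable section

namespace Pool.Agent.MP_92463a_gt

variable {γ : ℕ} {α : Type} {l : Filter α} {C : α → Cfg γ} {D₀ : Dat} {z₀ : Zs γ}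

theorem CfO2_geo {Z W a b : ℂ} {θ : ℝ} (h₀ : 0 < θ) (h₁ : θ ≤ 1 / 10)
    (ha : ‖a - Z‖ ≤ θ / 20 * ‖Z‖) (hb : ‖b - W‖ ≤ θ / 20 * ‖W‖)
    (h : ‖Z - W‖ ≤ θ / 4 * ‖W‖ ∨ ‖a - b‖ ≤ θ / 4 * ‖b‖) :
    ‖Z - W‖ ≤ θ * ‖W‖ ∧ ‖a - b‖ ≤ θ * ‖b‖ := by
  have h1 := mul_le_mul_of_nonneg_left (norm_le_norm_add_norm_sub' Z W) h₀.le
  have h2 := mul_le_mul_of_nonneg_left (norm_le_norm_add_norm_sub' b W) h₀.le
  have h3 := mul_le_mul_of_nonneg_left (norm_le_norm_add_norm_sub b W) h₀.le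
  have h4 := mul_le_mul_of_nonneg_right h₁ (norm_nonneg (Z - W))
  have h5 := mul_le_mul_of_nonneg_right h₁ (norm_nonneg (b - W))
  have h6 := norm_add₃_le (a := a - Z) (b := Z - W) (c := -(b - W))
  have h7 := norm_add₃_le (a := -(a - Z)) (b := a - b) (c := b - W)
  rw [norm_neg, show a - Z + (Z - W) + -(b - W) = a - b by ring] at h6
  rw [norm_neg, show -(a - Z) + (a - b) + (b - W) = Z - W by ring] at h7
  have h8 : 0 ≤ θ * ‖W‖ := by positivity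
  rcases h with h | h <;> constructor <;> linarith

theorem Lim.s3 (h : Lim l C D₀ 0) {X : α → ℂ → ℂ}
    (hX : ∀ᶠ x in l, (C x).wd.Sol (X x) (C x).wd.hh) :
    ∃ δ > 0, ∀ᶠ x in l, ∀ t t', (C x).wd.OnS δ t → (C x).wd.OnS δ t' → X x t = X x t' →
      (C x).wd.hh t = (C x).wd.hh t' → (C x).wd.Same t t' := by
  obtain ⟨θ, hn, h₀, h₁⟩ := (h.neck.and (Ioc_mem_nhdsGT (by norm_num : (0 : ℝ) < 1 / 10))).exists
  obtain ⟨K, hK⟩ := h.sheet
  have h2 : ∀ᶠ ε in 𝓝[>] (0 : ℝ), 10000 * K * ε ≤ θ :=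
    (((continuous_const.mul continuous_id).tendsto' 0 0 (mul_zero _)).eventually
      (eventually_le_nhds h₀)).filter_mono nhdsWithin_le_nhds
  obtain ⟨ε, hs, hε⟩ := (hK.and h2).exists
  obtain ⟨δ, ⟨hs, hc⟩, hδ⟩ :=
    ((hs.and (h.cross (θ := θ / 4) (by positivity))).and self_mem_nhdsWithin).exists
  have hz : ∀ᶠ x in l, ∀ k, ‖exp ((C x).z.2.2.2 k) - 1‖ ≤ θ / 20 := eventually_all.2 fun k =>
    (((show Continuous fun z : Zs γ => ‖exp (z.2.2.2 k) - 1‖ by fun_prop).tendsto' 0 0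
      (by simp)).comp h.z).eventually (eventually_le_nhds (by positivity))
  refine ⟨δ, hδ, ?_⟩
  filter_upwards [hn, hs, hc, hz, hX, h.adm] with x hn hs hc hz hX ha t t' ht ht' e1 e2
  replace hs := hs _ hX.toSolX
  have hKε : 0 ≤ K * ε := mul_nonneg (by linarith [(hs true).K_ge]) (hs true).ε_pos.le
  have key : ∀ τ ∈ SS ((C x).TT false) ((C x).mm false) δ,
      ∀ τ' ∈ SS ((C x).TT true) ((C x).mm true) δ,
      X x (-(C x).bb false + τ) = X x (-(C x).bb true + τ') →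
      (C x).wd.hh (-(C x).bb false + τ) = (C x).wd.hh (-(C x).bb true + τ') →
      ∃ k, ‖τ - (C x).τ (k, false)‖ ≤ θ * ‖(C x).τ (k, false)‖ ∧
        ‖τ' - (C x).τ (k, true)‖ ≤ θ * ‖(C x).τ (k, true)‖ := by
    intro τ hτ τ' hτ' e1 e2
    have h3 := (hs false).cross (hs true) (by linarith) hτ hτ' (by simp [Cfg.Xh, e1])
    rw [ha.cm.2.2.2] at h3
    have hE := Real.exp_pos ((C x).lk true)
    have hT := fun k => (Cfg.τ_true (C := C x) k).trans (congrArg (· * _) (neg_mul _ _).symm)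
    generalize Real.exp ((C x).lk true) = E at h3 hc hE hT
    have hZ : ∀ w : ℂ, ‖-(E : ℂ) * conj w‖ = E * ‖w‖ := fun w => by
      rw [norm_mul, norm_neg, norm_conj, norm_real, Real.norm_of_nonneg hE.le]
    replace h3 := h3.trans (mul_le_mul_of_nonneg_right (show _ ≤ θ / 20 by linarith) (norm_nonneg _))
    by_contra hk
    have h4 : ∀ k, ¬(‖τ - (C x).τ (k, false)‖ ≤ θ / 4 * ‖(C x).τ (k, false)‖ ∨
        ‖τ' - (C x).τ (k, true)‖ ≤ θ / 4 * ‖(C x).τ (k, true)‖) := fun k h4 => by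
      have h5 : ‖-(E : ℂ) * conj τ - -(E : ℂ) * conj ((C x).τ (k, false))‖ =
          E * ‖τ - (C x).τ (k, false)‖ := by rw [← mul_sub, ← map_sub, hZ]
      have h6 := CfO2_geo (W := -(E : ℂ) * conj ((C x).τ (k, false))) (b := (C x).τ (k, true))
        h₀ h₁ h3 (by
          rw [hT, ← mul_sub_one, norm_mul, mul_comm]
          exact mul_le_mul_of_nonneg_right (hz k) (norm_nonneg _))
        (h4.imp_left fun h4 => by
          rw [h5, hZ, mul_left_comm]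
          exact mul_le_mul_of_nonneg_left h4 hE.le)
      rw [h5, hZ, mul_left_comm] at h6
      exact hk ⟨k, le_of_mul_le_mul_left h6.1 hE, h6.2⟩
    refine (hc τ hτ τ' hτ' ?_ (fun k => (not_le.1 (not_or.1 (h4 k)).1).le)
      fun k => (not_le.1 (not_or.1 (h4 k)).2).le).ne e2
    have h5 := norm_le_norm_add_norm_sub τ' (-(E : ℂ) * conj τ)
    have h6 := mul_le_mul_of_nonneg_right h₁ (norm_nonneg (-(E : ℂ) * conj τ))
    rw [← hZ]
    linarith [norm_nonneg (-(E : ℂ) * conj τ)]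
  obtain ⟨b, τ, hτ, rfl⟩ := ha.onS ht
  obtain ⟨b', τ', hτ', rfl⟩ := ha.onS ht'
  suffices h3 : τ = τ' ∧ b = b' ∨ ∃ k, ‖τ - (C x).τ (k, b)‖ ≤ θ * ‖(C x).τ (k, b)‖ ∧
      ‖τ' - (C x).τ (k, b')‖ ≤ θ * ‖(C x).τ (k, b')‖ by
    rcases h3 with ⟨rfl, rfl⟩ | ⟨k, h3, h4⟩
    · exact Or.inl rfl
    · exact hn _ _ hX k b b' _ _ ht.1 ht'.1 ht.2.1 ht'.2.1
        (by rwa [Cfg.c, add_sub_add_left_eq_sub]) (by rwa [Cfg.c, add_sub_add_left_eq_sub]) e1 e2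
  by_cases hb : b = b'
  · subst hb
    exact ((hs b).inj (by linarith) h₁ hτ hτ' (by simp only [Cfg.Xh, e1])).imp_left fun h => ⟨h, rfl⟩
  · right
    cases b <;> cases b'
    · exact absurd rfl hb
    · exact key τ hτ τ' hτ' e1 e2
    · exact (key τ' hτ' τ hτ e1.symm e2.symm).imp fun _ => And.symm
    · exact absurd rfl hb

end Pool.Agent.MP_92463a_gt

end
end
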