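import Pool.Agent.Mg.F92463a.Gb59b98
import Pool.Agent.Mg.F92463a.G2abf78
import Pool.Agent.Mg.F92463a.G175935
import Pool.Agent.Mg.F92463a.G4a411f
import Pool.Agent.Mg.F92463a.Gea0143
import Pool.Agent.Mg.F92463a.Gc0a48f
import Pool.Agent.Mg.F92463a.Gc45d39

section

open Set Complex Filter Metric
open scoped Topology ComplexConjugate ContDiff Manifold

noncomputable section

namespace Pool.Agent.MP_92463a_gt

namespace Dat

variable {D : Dat} {j : ℕ} {τ : ℂ}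

theorem CfA_q {x c : ℝ} (h : ‖τ‖ < c / 2) (hx : c ≤ |x|) : ‖τ‖ < |x| ∧ ‖τ / x‖ < 1 := by
  have h0 := norm_nonneg τ
  have h1 : ‖τ‖ < |x| := by linarith
  exact ⟨h1, by rwa [norm_div, norm_real, Real.norm_eq_abs, div_lt_one (h0.trans_lt h1)]⟩

theorem CfA_log {x : ℝ} (hi : 0 ≤ τ.im) (h : ‖τ‖ < |x|) :
    log (x + τ) = Real.log |x| + (if x < 0 then Real.pi * I else 0) + log (1 + τ / x) := by
  rw [log_near (by simpa using h) (by simp) (by simpa using hi), Complex.log, norm_real,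
    Real.norm_eq_abs]
  split_ifs with hx
  · rw [arg_ofReal_of_neg hx]
  · rw [arg_ofReal_of_nonneg (not_lt.1 hx)]; simp

theorem Ok.b0_le (hD : D.Ok) (hj : j < D.q) : D.b 0 ≤ D.b j := by
  rcases Nat.eq_zero_or_pos j with rfl | h
  · exact le_rfl
  · linarith [hD.b_gap 0 j h hj, hD.b_pos 0 (by omega)]

theorem CfA_b (hD : D.Ok) (hj : j < D.q) {i : ℕ} (hi : i ∈ (Finset.range D.q).erase j) :
    D.b 0 ≤ |D.b i - D.b j| ∧ (D.b i - D.b j < 0 ↔ i < j) := by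
  obtain ⟨h1, h2⟩ := Finset.mem_erase.1 hi
  rw [Finset.mem_range] at h2
  have a := hD.b0_le hj
  have b := hD.b0_le h2
  have c := hD.b_pos 0 (by omega)
  rcases lt_or_gt_of_ne h1 with h | h
  · have := hD.b_gap i j h hj
    exact ⟨le_abs.2 (Or.inr (by linarith)), fun _ => h, fun _ => by linarith⟩
  · have := hD.b_gap j i h h2
    exact ⟨le_abs.2 (Or.inl (by linarith)), fun _ => by linarith, fun _ => by omega⟩

theorem CfA_a (hD : D.Ok) (hj : j < D.q) {i : ℕ} (hi : i ∈ Finset.range D.p) :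
    D.b 0 ≤ D.a i + D.b j := by
  linarith [hD.b0_le hj, hD.a_pos i (Finset.mem_range.1 hi)]

theorem CfA_slit (hD : D.Ok) (hj : j < D.q) (h : ‖τ‖ < D.b 0 / 2) :
    1 - τ / D.b j ∈ slitPlane ∧
      (∀ i ∈ (Finset.range D.q).erase j, 1 + τ / (D.b i - D.b j) ∈ slitPlane) ∧
      ∀ i ∈ Finset.range D.p, 1 - τ / (D.a i + D.b j) ∈ slitPlane := by
  refine ⟨?_, fun i hi => ?_, fun i hi => ?_⟩
  · rw [sub_eq_add_neg]
    exact mem_slitPlane_of_norm_lt_one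
      (by simpa using (CfA_q h ((hD.b0_le hj).trans (le_abs_self _))).2)
  · exact mem_slitPlane_of_norm_lt_one (by exact_mod_cast (CfA_q h (CfA_b hD hj hi).1).2)
  · rw [sub_eq_add_neg]
    refine mem_slitPlane_of_norm_lt_one ?_
    rw [norm_neg]
    exact_mod_cast (CfA_q h ((CfA_a hD hj hi).trans (le_abs_self _))).2

theorem Ok.P_loc (hD : D.Ok) (hj : j < D.q) (h₀ : τ ≠ 0) (h : ‖τ‖ < D.b 0 / 2) :
    D.P (-D.b j + τ) ≠ 0 := by
  obtain ⟨h1, h2, h3⟩ := CfA_slit hD hj h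
  have hb : (D.b j : ℂ) ≠ 0 := ofReal_ne_zero.2 (hD.b_pos j hj).ne'
  refine mul_ne_zero (mul_ne_zero (fun e => slitPlane_ne_zero h1 ?_)
    (Finset.prod_ne_zero_iff.2 fun i hi e => ?_)) (Finset.prod_ne_zero_iff.2 fun i hi e => ?_)
  · rw [show τ = D.b j by linear_combination e, div_self hb, sub_self]
  · by_cases hij : i = j
    · exact h₀ (by rw [hij] at e; linear_combination e)
    · have h4 := (CfA_q h (CfA_b hD hj (Finset.mem_erase.2 ⟨hij, hi⟩)).1).1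
      rw [show τ = -((D.b i - D.b j : ℝ) : ℂ) by push_cast; linear_combination e] at h4
      rw [norm_neg, norm_real] at h4
      exact lt_irrefl _ h4
  · have h4 := (CfA_q h ((CfA_a hD hj hi).trans (le_abs_self _))).1
    rw [show τ = ((D.a i + D.b j : ℝ) : ℂ) by push_cast; linear_combination -e, norm_real] at h4
    exact lt_irrefl _ h4

theorem Ok.lam_hol (hD : D.Ok) (hj : j < D.q) :
    DifferentiableOn ℂ (D.lam j) (ball 0 (D.b 0 / 2)) := by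
  have h := fun τ (hτ : τ ∈ ball (0 : ℂ) (D.b 0 / 2)) => CfA_slit hD hj (mem_ball_zero_iff.1 hτ)
  exact (((DifferentiableOn.clog (by fun_prop) fun τ hτ => (h τ hτ).1).neg.div_const 2).add
    (DifferentiableOn.fun_sum fun i hi => (DifferentiableOn.clog (by fun_prop)
      fun τ hτ => (h τ hτ).2.1 i hi).const_mul _)).sub
    (DifferentiableOn.fun_sum fun i hi => (DifferentiableOn.clog (by fun_prop)
      fun τ hτ => (h τ hτ).2.2 i hi).const_mul _)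

theorem lam_zero : D.lam j 0 = 0 := by
  simp [lam]

theorem Ok.lam_conj (hD : D.Ok) (hj : j < D.q) (h : ‖τ‖ < D.b 0 / 2) :
    D.lam j (conj τ) = conj (D.lam j τ) := by
  obtain ⟨h1, h2, h3⟩ := CfA_slit hD hj h
  simp only [lam, map_sub, map_add, map_sum, map_div₀, map_neg, map_mul, conj_ofReal, map_ofNat,
    map_one]
  refine congrArg₂ _ (congrArg₂ _ ?_ (Finset.sum_congr rfl fun i hi => ?_))
    (Finset.sum_congr rfl fun i hi => ?_)
  · rw [← log_conj _ (slitPlane_arg_ne_pi h1)]; simp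
  · rw [← log_conj _ (slitPlane_arg_ne_pi (h2 i hi))]; simp
  · rw [← log_conj _ (slitPlane_arg_ne_pi (h3 i hi))]; simp

theorem Ok.G_loc (hD : D.Ok) (hj : j < D.q) (hi : 0 ≤ τ.im) (h₀ : τ ≠ 0) (h : ‖τ‖ < D.b 0 / 2) :
    D.G (-D.b j + τ) = exp (D.A j + ph j * I + sg j * (3 / 2) * log τ + D.lam j τ) := by
  have hb := hD.b_pos j hj
  have e0 : log (-D.b j + τ) = Real.log (D.b j) + Real.pi * I + log (1 - τ / D.b j) := by
    have := CfA_log (x := -D.b j) hi (CfA_q h ((hD.b0_le hj).trans (by simp [le_abs_self]))).1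
    rw [if_pos (by linarith), abs_neg, abs_of_pos hb, ofReal_neg, div_neg,
      ← sub_eq_add_neg 1] at this
    exact this
  have e1 : ∀ i ∈ (Finset.range D.q).erase j, sg i * (3 / 2) * log (-D.b j + τ + D.b i) =
      ((sg i * (3 / 2) * Real.log |D.b i - D.b j| : ℝ) : ℂ) +
        ((sg i * if i < j then 1 else 0 : ℝ) : ℂ) * (3 / 2 * (Real.pi * I)) +
        sg i * (3 / 2) * log (1 + τ / (D.b i - D.b j)) := fun i hi' => by
    have := CfA_log hi (CfA_q h (CfA_b hD hj hi').1).1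
    simp only [(CfA_b hD hj hi').2, ofReal_sub] at this
    rw [show -(D.b j : ℂ) + τ + D.b i = D.b i - D.b j + τ by ring, this]
    split_ifs <;> push_cast <;> ring
  have e2 : ∀ i ∈ Finset.range D.p, sg i * (1 / 2) * lm (D.a i) (-D.b j + τ) =
      ((sg i * (1 / 2) * Real.log (D.a i + D.b j) : ℝ) : ℂ) +
        sg i * (1 / 2) * log (1 - τ / (D.a i + D.b j)) := fun i hi' => by
    have h1 : 0 < D.a i + D.b j := add_pos (hD.a_pos i (Finset.mem_range.1 hi')) hb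
    have := CfA_log (x := -(D.a i + D.b j)) hi
      (CfA_q h ((CfA_a hD hj hi').trans (by rw [abs_neg]; exact le_abs_self _))).1
    rw [if_pos (by linarith), abs_neg, abs_of_pos h1, ofReal_neg, div_neg,
      ← sub_eq_add_neg 1, ofReal_add] at this
    rw [lm, show -(D.b j : ℂ) + τ - D.a i = -(D.a i + D.b j) + τ by ring, this]
    push_cast
    ring
  have e3 : ∑ i ∈ (Finset.range D.q).erase j, (sg i * if i < j then 1 else 0) =
      if Even j then 0 else 1 := by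
    rw [Finset.sum_erase _ (by simp), Phase_sum (c := 1) hj.le (fun i hi => if_pos hi)
      fun i hi _ => if_neg hi.not_gt, mul_one]
  rw [G, LG, ← Finset.add_sum_erase _ _ (Finset.mem_range.2 hj), Finset.sum_congr rfl e1,
    Finset.sum_congr rfl e2, e0, Finset.sum_add_distrib, Finset.sum_add_distrib,
    Finset.sum_add_distrib, ← Finset.sum_mul, ← ofReal_sum, ← ofReal_sum, ← ofReal_sum, e3,
    show -(D.b j : ℂ) + τ + D.b j = τ by ring, A, lam, ph]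
  congr 1
  generalize ∑ i ∈ (Finset.range D.q).erase j, sg i * (3 / 2) * Real.log |D.b i - D.b j| = s₁
  generalize ∑ i ∈ Finset.range D.p, sg i * (1 / 2) * Real.log (D.a i + D.b j) = s₂
  split_ifs <;> push_cast <;> ring

theorem CfA_up (hD : D.Ok) (hj : j < D.q) (hi : 0 ≤ τ.im) (h : ‖τ‖ < D.b 0 / 2) {w : ℂ}
    (hw : exp w = τ) : D.P (-D.b j + τ) * D.R (-D.b j + τ) ^ 2 =
      exp (D.A j + ph j * I + sg j * (3 / 2) * w + D.lam j τ) ^ 2 := by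
  have h₀ : τ ≠ 0 := hw ▸ exp_ne_zero w
  have hP := hD.P_loc hj h₀ h
  obtain ⟨n, hn⟩ := exp_eq_exp_iff_exists_int.1 ((exp_log h₀).trans hw.symm)
  rw [← Y_sq hP, ← mul_pow, ← hD.G_eq hP, hD.G_loc hj hi h₀ h, hn, ← exp_nat_mul, ← exp_nat_mul]
  refine exp_eq_exp_iff_exists_int.2 ⟨3 * (-1) ^ j * n, ?_⟩
  simp only [sg]
  push_cast
  ring

theorem Ok.PR_loc (hD : D.Ok) (hj : j < D.q) (h : ‖τ‖ < D.b 0 / 2) {w : ℂ} (hw : exp w = τ) :
    D.P (-D.b j + τ) * D.R (-D.b j + τ) ^ 2 =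
      exp (D.A j + ph j * I + sg j * (3 / 2) * w + D.lam j τ) ^ 2 := by
  rcases le_total 0 τ.im with hi | hi
  · exact CfA_up hD hj hi h hw
  have h1 := CfA_up (τ := conj τ) (w := conj w) hD hj (by simpa using hi) (by simpa using h)
    (by rw [exp_conj, hw])
  have h2 : -(D.b j : ℂ) + conj τ = conj (-D.b j + τ) := by simp
  rw [h2, P_conj, R_conj, hD.lam_conj hj h] at h1
  have h3 := congrArg conj h1
  simp only [map_mul, map_pow, conj_conj, ← exp_conj, map_add, conj_ofReal, conj_I, map_div₀,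
    map_ofNat] at h3
  rw [h3, ← exp_nat_mul, ← exp_nat_mul]
  refine exp_eq_exp_iff_exists_int.2 ⟨if Even j then 1 else -2, ?_⟩
  rw [ph]
  split_ifs <;> push_cast <;> ring

variable {α : Type} {l : Filter α} {D : α → Dat} {D₀ : Dat}

theorem Tends.A (h : Tends l D D₀) (hj : j < D₀.q) :
    Tendsto (fun x => (D x).A j) l (𝓝 (D₀.A j)) := by
  have hD := h.ok₀
  have hb := h.b j hj
  have h0 := hD.b_pos 0 (by omega)
  refine Tendsto.congr' ?_ ((((h.ρ.log hD.ρ_pos.ne').sub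
    ((hb.log (hD.b_pos j hj).ne').div_const 2)).add
    (tendsto_finsetSum ((Finset.range D₀.q).erase j) fun i hi =>
      ((((h.b i (Finset.mem_range.1 (Finset.mem_of_mem_erase hi))).sub hb).abs.log
        (h0.trans_le (CfA_b hD hj hi).1).ne').const_mul (sg i * (3 / 2))))).sub
    (tendsto_finsetSum (Finset.range D₀.p) fun i hi =>
      (((h.a i (Finset.mem_range.1 hi)).add hb).log
        (h0.trans_le (CfA_a hD hj hi)).ne').const_mul (sg i * (1 / 2))))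
  filter_upwards [h.ok] with x hx
  rw [Dat.A, hx.2.1, hx.2.2]

theorem Tends.lam (h : Tends l D D₀) (hj : j < D₀.q) {τ : α → ℂ} {τ₀ : ℂ}
    (hτ : Tendsto τ l (𝓝 τ₀)) (h₀ : ‖τ₀‖ < D₀.b 0 / 2) :
    Tendsto (fun x => (D x).lam j (τ x)) l (𝓝 (D₀.lam j τ₀)) := by
  have hD := h.ok₀
  have hb := h.b j hj
  have h0 := hD.b_pos 0 (by omega)
  obtain ⟨h1, h2, h3⟩ := CfA_slit hD hj h₀
  refine Tendsto.congr' ?_ (((((hτ.div (DatC_re hb)
    (ofReal_ne_zero.2 (hD.b_pos j hj).ne')).const_sub 1).clog h1).neg.div_const 2).add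
    (tendsto_finsetSum ((Finset.range D₀.q).erase j) fun i hi =>
      (((hτ.div ((DatC_re (h.b i (Finset.mem_range.1 (Finset.mem_of_mem_erase hi)))).sub
        (DatC_re hb)) (by exact_mod_cast abs_pos.1 (h0.trans_le (CfA_b hD hj hi).1))).const_add
          1).clog (h2 i hi)).const_mul ((sg i : ℂ) * (3 / 2))) |>.sub
    (tendsto_finsetSum (Finset.range D₀.p) fun i hi =>
      (((hτ.div ((DatC_re (h.a i (Finset.mem_range.1 hi))).add (DatC_re hb))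
        (by exact_mod_cast (h0.trans_le (CfA_a hD hj hi)).ne')).const_sub 1).clog
          (h3 i hi)).const_mul ((sg i : ℂ) * (1 / 2))))
  filter_upwards [h.ok] with x hx
  rw [Dat.lam, hx.2.1, hx.2.2]
  rfl

theorem Tends.lam_small (h : Tends l D D₀) (hj : j < D₀.q) : ∀ ε > 0,
    ∀ᶠ δ in 𝓝[>] (0 : ℝ), ∀ᶠ x in l, ∀ τ : ℂ, ‖τ‖ ≤ δ → ‖(D x).lam j τ‖ ≤ ε := by
  intro ε hε
  have h1 := (h.comp (tendsto_fst (g := 𝓝 (0 : ℂ)))).lam hj tendsto_snd
    (by simpa using h.ok₀.b_pos 0 (by omega))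
  rw [lam_zero] at h1
  obtain ⟨pa, ha, pb, hb, h2⟩ := eventually_prod_iff.1
    ((tendsto_zero_iff_norm_tendsto_zero.1 h1).eventually (ge_mem_nhds hε))
  obtain ⟨r, hr, h3⟩ := Metric.eventually_nhds_iff.1 hb
  filter_upwards [nhdsWithin_le_nhds (gt_mem_nhds hr)] with δ hδ
  filter_upwards [ha] with x hx τ hτ
  exact h2 hx (h3 (by simpa using hτ.trans_lt hδ))

theorem Tends.R (h : Tends l D D₀) {t : α → ℂ} {t₀ : ℂ} (ht : Tendsto t l (𝓝 t₀))
    (hP : D₀.P t₀ ≠ 0) : Tendsto (fun x => (D x).R (t x)) l (𝓝 (D₀.R t₀)) := by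
  obtain ⟨h0, h1, h2⟩ := Alg_ne hP
  have e1 : ∀ j ∈ Finset.range D₀.q, Tendsto
      (fun x => if Even j then t x + (D x).b j else ((t x + (D x).b j) ^ 2)⁻¹) l
      (𝓝 (if Even j then t₀ + D₀.b j else ((t₀ + D₀.b j) ^ 2)⁻¹)) := fun j hj => by
    have := ht.add (DatC_re (h.b j (Finset.mem_range.1 hj)))
    split_ifs
    exacts [this, (this.pow 2).inv₀ (pow_ne_zero 2 (h1 j hj))]
  have e2 : ∀ i ∈ Finset.range D₀.p, Tendsto
      (fun x => if Even i then ((D x).a i - t x)⁻¹ else 1) l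
      (𝓝 (if Even i then (D₀.a i - t₀)⁻¹ else 1)) := fun i hi => by
    split_ifs
    exacts [((DatC_re (h.a i (Finset.mem_range.1 hi))).sub ht).inv₀ (h2 i hi), tendsto_const_nhds]
  refine Tendsto.congr' ?_ ((((DatC_re h.ρ).div ht h0).mul (tendsto_finsetProd _ e1)).mul
    (tendsto_finsetProd _ e2))
  filter_upwards [h.ok] with x hx
  rw [Dat.R, hx.2.1, hx.2.2]
  rfl

end Dat

end Pool.Agent.MP_92463a_gt

end
end

section

open Set Complex Filter Metric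
open scoped Topology ComplexConjugate ContDiff Manifold

noncomputable section

namespace Pool.Agent.MP_92463a_gt

namespace Cfg

variable {γ : ℕ} {C : Cfg γ} {k : Fin γ} {b : Bool} {e : Fin γ × Bool}

theorem τ_ne (e : Fin γ × Bool) : C.τ e ≠ 0 := by
  exact exp_ne_zero _

theorem RR_pos (b : Bool) : 0 < C.RR b := by
  exact Real.exp_pos _

theorem τ_eq (e : Fin γ × Bool) : C.τ e = C.RR e.2 * exp (C.z.lu e) := by
  rw [τ, lg, exp_add, RR, ofReal_exp]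

theorem polar (e : Fin γ × Bool) : C.τ e = (‖C.τ e‖ : ℂ) * exp ((C.lg e).im * I) := by
  rw [τ, norm_exp, ofReal_exp, ← exp_add, re_add_im]

theorem τ_true (k : Fin γ) :
    C.τ (k, true) = -(Real.exp (C.lk true) * conj (C.τ (k, false))) * exp (C.z.2.2.2 k) := by
  rw [τ, τ, ← exp_conj, ofReal_exp, ← exp_add, ← neg_one_mul, ← exp_pi_mul_I, ← exp_add, ← exp_add]
  congr 1
  simp only [lg, Zs.lu, lk, map_add, map_mul, conj_ofReal, conj_I, Bool.false_eq_true, if_false]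
  push_cast
  ring

theorem Adm.jj_lt (h : C.Adm) (b : Bool) : jj b < C.D.q := by
  have := h.q
  cases b <;> simp only [jj, Bool.false_eq_true, if_false, if_true] <;> omega

theorem Adm.bb (h : C.Adm) (b : Bool) : 0 < C.D.b 0 ∧ C.D.b 0 ≤ C.bb b ∧ 5 * C.D.b 0 < C.D.b 1 := by
  have h0 := h.d.b_pos 0 (h.jj_lt false)
  have h1 := h.d.b_gap 0 1 one_pos (h.jj_lt true)
  refine ⟨h0, ?_, h1⟩
  cases b
  · exact le_rfl
  · change _ ≤ C.D.b 1
    linarith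

theorem Adm.E_pos (h : C.Adm) : 0 < C.E := by
  obtain ⟨h0, -, h1⟩ := h.bb true
  exact div_pos (Real.log_pos ((one_lt_div h0).2 (by linarith))) (by positivity)

theorem Adm.cm (h : C.Adm) : (∀ b, C.cm b ≠ 0) ∧ (C.cm true).im = 0 ∧ (C.cm false).re = 0 ∧
    (C.cm true / conj (C.cm false)) ^ 2 = -Real.exp (C.lk true) := by
  obtain ⟨h0, -, h1⟩ := h.bb true
  have h2 : 0 < C.D.b 1 := by linarith
  have e1 : C.cm true = ((Real.exp (C.D.A 1) / C.D.b 1 : ℝ) : ℂ) := rfl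
  have e0 : C.cm false = -I * ((Real.exp (-C.D.A 0) / C.D.b 0 : ℝ) : ℂ) := rfl
  have e2 : Real.exp (C.lk true) =
      (Real.exp (C.D.A 1) / C.D.b 1 / (Real.exp (-C.D.A 0) / C.D.b 0)) ^ 2 := by
    change Real.exp (2 * _) = _
    rw [two_mul, Real.exp_add, ← sq, Real.exp_sub, Real.exp_add, Real.exp_add, Real.exp_log h0,
      Real.exp_log h2, Real.exp_neg]
    congr 1
    field_simp
  refine ⟨fun b => ?_, by rw [e1, ofReal_im], by rw [e0, re_mul_ofReal, neg_re, I_re]; simp, ?_⟩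
  · cases b
    · rw [e0]
      exact mul_ne_zero (neg_ne_zero.2 I_ne_zero) (ofReal_ne_zero.2 (by positivity))
    · rw [e1]
      exact ofReal_ne_zero.2 (by positivity)
  · rw [e1, e0, e2, map_mul, map_neg, conj_I, neg_neg, conj_ofReal, ofReal_pow,
      ofReal_div (_ / _), div_pow, div_pow, mul_pow, I_sq, neg_one_mul, div_neg]

theorem CfB1_im (e : Fin γ × Bool) : (C.lg e).im = (C.z.lu e).im := by
  rw [lg, add_im, ofReal_im, zero_add]

theorem CfB1_lu (h : C.Adm) (e : Fin γ × Bool) : |(C.z.lu e).re| ≤ 3 / (100 * γ) ∧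
    |(C.z.lu e).im - if e.2 then Real.pi - ang γ e.1 else ang γ e.1| ≤ 3 / (100 * γ) := by
  have key : ∀ {u : ℂ} {x r : ℝ}, ‖u - I * x‖ ≤ r → |u.re| ≤ r ∧ |u.im - x| ≤ r := fun hu =>
    ⟨by simpa using (abs_re_le_norm _).trans hu, by simpa using (abs_im_le_norm _).trans hu⟩
  obtain ⟨k, b⟩ := e
  have h1 := Zs.small h.pos h.small k
  cases b
  · exact key (h1.2.2.2.1.trans (by gcongr; norm_num))
  · exact key (by simpa only [if_true, ofReal_sub] using h1.2.2.2.2)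

theorem Adm.rad (h : C.Adm) (e : Fin γ × Bool) :
    9 / 10 * C.RR e.2 ≤ ‖C.τ e‖ ∧ ‖C.τ e‖ ≤ 11 / 10 * C.RR e.2 := by
  have hγ : (1 : ℝ) ≤ γ := by exact_mod_cast h.pos
  have h1 : |(C.z.lu e).re| ≤ 3 / 100 := (CfB1_lu h e).1.trans (by gcongr; linarith)
  have h2 := abs_le.1 ((Real.abs_exp_sub_one_le (h1.trans (by norm_num))).trans
    (mul_le_mul_of_nonneg_left h1 zero_le_two))
  have h3 := C.RR_pos e.2
  rw [τ_eq, norm_mul, norm_exp, norm_real, Real.norm_of_nonneg h3.le]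
  constructor <;> nlinarith [h2.1, h2.2]

theorem Adm.sep (h : C.Adm) {j : Fin γ} (hjk : j ≠ k) (b : Bool) :
    3 / γ ≤ ‖C.τ (j, b) / (‖C.τ (j, b)‖ : ℂ) - C.τ (k, b) / (‖C.τ (k, b)‖ : ℂ)‖ ∧
      2 / γ * ‖C.τ (k, b)‖ ≤ ‖C.τ (j, b) - C.τ (k, b)‖ := by
  have hγ : (0 : ℝ) < γ := by exact_mod_cast h.pos
  obtain ⟨h1, h2⟩ := Zs.sep h.pos h.small hjk b
  have e : ∀ e, C.τ e / (‖C.τ e‖ : ℂ) = exp (I * (C.z.lu e).im) := fun e => by
    rw [div_eq_iff (ofReal_ne_zero.2 (norm_ne_zero_iff.2 (C.τ_ne e))), ← CfB1_im, mul_comm,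
      mul_comm I]
    exact polar e
  refine ⟨by rwa [e, e], ?_⟩
  have h3 := C.RR_pos b
  have h4 := mul_le_mul_of_nonneg_left (h.rad (k, b)).2 (by positivity : (0 : ℝ) ≤ 2 / γ)
  have h5 := mul_le_mul_of_nonneg_left h2 h3.le
  refine h4.trans (le_trans ?_ (h5.trans_eq ?_))
  · rw [← mul_assoc, mul_comm, div_mul_eq_mul_div]
    gcongr
    norm_num
  · rw [τ_eq, τ_eq, ← mul_sub, norm_mul, norm_real, Real.norm_of_nonneg h3.le]

theorem Adm.mean_im (h : C.Adm) : C.z.mean.im = 0 := by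
  have := ZsB_mean_rf C.z
  rw [h.sym] at this
  exact conj_eq_iff_im.1 this.symm

theorem Adm.eh_conj (h : C.Adm) (k : Fin γ) : C.z.eh k.rev = conj (C.z.eh k) := by
  have := ZsB_eh_rf C.z k.rev
  rwa [h.sym, Fin.rev_rev] at this

theorem Adm.lg_conj (h : C.Adm) (k : Fin γ) : C.lg (k.rev, false) = conj (C.lg (k, false)) ∧
    C.lg (k.rev, true) = conj (C.lg (k, true)) + 2 * Real.pi * I := by
  have := C.z.lu_rf h.pos k.rev
  rw [h.sym, Fin.rev_rev] at this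
  simp only [lg, this.1, this.2, map_add, conj_ofReal, add_assoc, and_self]

theorem Adm.τ_conj (h : C.Adm) (e : Fin γ × Bool) : C.τ (e.1.rev, e.2) = conj (C.τ e) := by
  obtain ⟨k, b⟩ := e
  cases b
  · rw [τ, (h.lg_conj k).1, exp_conj, τ]
  · rw [τ, (h.lg_conj k).2, exp_add, exp_two_pi_mul_I, mul_one, exp_conj, τ]

theorem Adm.c_conj (h : C.Adm) (e : Fin γ × Bool) : C.c (e.1.rev, e.2) = conj (C.c e) := by
  rw [c, c, h.τ_conj, map_add, map_neg, conj_ofReal]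

theorem Adm.Res_conj (h : C.Adm) (k : Fin γ) : C.Res k.rev = conj (C.Res k) := by
  rw [Res, Res, h.eh_conj, map_mul, conj_ofReal]

theorem Adm.mid (h : C.Adm) (hk : 2 * (k : ℕ) + 1 = γ) : k.rev = k ∧ (C.lg (k, false)).im = 0 ∧
    (C.lg (k, true)).im = Real.pi ∧ C.τ (k, false) = (‖C.τ (k, false)‖ : ℂ) ∧
      C.τ (k, true) = -(‖C.τ (k, true)‖ : ℂ) := by
  have hr : k.rev = k := Fin.ext (by rw [Fin.val_rev]; omega)
  obtain ⟨h1, h2⟩ := h.lg_conj k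
  rw [hr] at h1 h2
  have h3 : (C.lg (k, false)).im = 0 := conj_eq_iff_im.1 h1.symm
  have h4 : (C.lg (k, true)).im = Real.pi := by
    have := congrArg im h2
    simp only [add_im, conj_im, mul_im, mul_re, I_re, I_im, ofReal_re, ofReal_im, re_ofNat,
      im_ofNat] at this
    linarith
  refine ⟨hr, h3, h4, ?_, ?_⟩
  · simpa [h3] using C.polar (k, false)
  · simpa [h4] using C.polar (k, true)

theorem CfB1_up (h : C.Adm) (hk : γ < 2 * (k : ℕ) + 1) (b : Bool) :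
    Real.pi / (2 * γ) ≤ (C.lg (k, b)).im ∧ (C.lg (k, b)).im ≤ Real.pi - Real.pi / (2 * γ) := by
  have hγ : (0 : ℝ) < γ := by exact_mod_cast h.pos
  have h1 := (abs_le.1 (ang_bd k).1).2
  have h2 := (ang_bd k).2.2.1 hk
  have h3 := abs_le.1 (CfB1_lu h (k, b)).2
  have h4 : 3 / (100 * γ) ≤ Real.pi / (2 * γ) := by
    gcongr
    · exact Real.pi_gt_three.le
    · norm_num
  have h5 : Real.pi / γ = 2 * (Real.pi / (2 * γ)) := by field_simp
  rw [CfB1_im]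
  cases b <;> simp only [Bool.false_eq_true, if_false, if_true] at h3 <;> constructor <;>
    linarith [h3.1, h3.2]

theorem Adm.lg_im (h : C.Adm) (hk : γ ≤ 2 * (k : ℕ) + 1) (b : Bool) :
    (C.lg (k, b)).im ∈ Icc 0 Real.pi ∧ log (C.τ (k, b)) = C.lg (k, b) := by
  have key : (C.lg (k, b)).im ∈ Icc 0 Real.pi := by
    rcases hk.eq_or_lt with e | hk
    · cases b
      · rw [(h.mid e.symm).2.1]
        exact ⟨le_rfl, Real.pi_pos.le⟩
      · rw [(h.mid e.symm).2.2.1]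
        exact ⟨Real.pi_pos.le, le_rfl⟩
    · have := CfB1_up h hk b
      have h0 : 0 ≤ Real.pi / (2 * γ) := by positivity
      exact ⟨by linarith [this.1], by linarith [this.2]⟩
  exact ⟨key, log_exp (by linarith [key.1, Real.pi_pos]) key.2⟩

theorem Adm.im_up (h : C.Adm) (hk : γ < 2 * (k : ℕ) + 1) (b : Bool) :
    ‖C.τ (k, b)‖ / γ ≤ (C.τ (k, b)).im := by
  have hγ : (0 : ℝ) < γ := by exact_mod_cast h.pos
  have h1 := ZsB_sin (CfB1_up h hk b).1 (CfB1_up h hk b).2 (by positivity)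
  have h2 := congrArg im (C.polar (k, b))
  have h3 : 2 / Real.pi * (Real.pi / (2 * γ)) = (γ : ℝ)⁻¹ := by field_simp
  rw [im_ofReal_mul, exp_ofReal_mul_I_im] at h2
  rw [h2, div_eq_mul_inv, ← h3]
  exact mul_le_mul_of_nonneg_left h1 (norm_nonneg _)

theorem Adm.im_low (h : C.Adm) (hk : 2 * (k : ℕ) + 1 < γ) (b : Bool) :
    (C.τ (k, b)).im ≤ -(‖C.τ (k, b)‖ / γ) := by
  have h1 := h.im_up (k := k.rev) (by rw [Fin.val_rev]; omega) b
  rw [h.τ_conj (k, b), norm_conj, conj_im] at h1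
  linarith

end Cfg

end Pool.Agent.MP_92463a_gt

end
end

section

open Set Complex Filter Metric
open scoped Topology ComplexConjugate ContDiff Manifold

noncomputable section

namespace Pool.Agent.MP_92463a_gt

namespace Cfg

variable {γ : ℕ} {C : Cfg γ} {k : Fin γ} {b : Bool} {e : Fin γ × Bool}

theorem CfB2_one (h : C.Adm) : (1 : ℝ) ≤ γ := by exact_mod_cast h.pos

theorem CfB2_T (e : Fin γ × Bool) : 0 < ‖C.τ e‖ := norm_pos_iff.2 (τ_ne e)

theorem CfB2_vs (h : C.G0) (k : Fin γ) : ‖C.vs k‖ * γ ≤ 1 / 100 ∧ ‖C.vs k‖ ≤ 1 / 100 := by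
  have h1 := CfB2_one h.toAdm
  have h2 := h.vs k
  rw [le_div_iff₀ (by positivity)] at h2
  exact ⟨by linarith, by nlinarith [norm_nonneg (C.vs k)]⟩

theorem CfB2_ρ (h : C.Adm) (e : Fin γ × Bool) : 0 < C.pl.ρ e ∧ C.pl.ρ e * (16 * γ) = ‖C.τ e‖ ∧
    16 * C.pl.ρ e = ‖C.τ e‖ / γ ∧ 16 * C.pl.ρ e ≤ ‖C.τ e‖ := by
  have h1 := CfB2_one h
  have h2 := CfB2_T (C := C) e
  have h3 : 0 < C.pl.ρ e := div_pos h2 (by positivity)
  have h4 : C.pl.ρ e * (16 * γ) = ‖C.τ e‖ := div_mul_cancel₀ _ (by positivity)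
  exact ⟨h3, h4, eq_div_of_mul_eq (by positivity) (by linarith), by nlinarith⟩

theorem CfB2_s (e : Fin γ × Bool) : C.pl.s e.1 = C.τ e * C.τ (op e) * C.vs e.1 ^ 2 := by
  rcases e with ⟨k, _ | _⟩
  · rfl
  · exact congrArg (· * _) (mul_comm _ _)

theorem CfB2_im (e : Fin γ × Bool) : (C.pl.c e).im = (C.τ e).im := by
  simp [pl, c]

theorem G0.Res_ne (h : C.G0) (k : Fin γ) : C.Res k ≠ 0 := by
  have h1 := (Zs.small h.pos h.small k).2.2.1
  have h2 := CfB2_one h.toAdm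
  refine mul_ne_zero (ofReal_ne_zero.2 (mul_pos (h.toAdm.bb true).1
    (div_pos h.toAdm.E_pos (by linarith [h.L]))).ne') fun h3 => ?_
  rw [h3, zero_sub, norm_neg, norm_one, le_div_iff₀ (by positivity)] at h1
  linarith

theorem G0.vs_ne (h : C.G0) (k : Fin γ) : C.vs k ≠ 0 :=
  mul_ne_zero (h.Res_ne k) (exp_ne_zero _)

theorem G0.c_bd (h : C.G0) (e : Fin γ × Bool) : C.c e ≠ 0 ∧ 99 / 100 * C.bb e.2 ≤ (-C.c e).re ∧
    99 / 100 * C.bb e.2 ≤ ‖C.c e‖ ∧ ‖C.c e‖ ≤ 101 / 100 * C.bb e.2 := by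
  obtain ⟨h1, h2, -⟩ := h.toAdm.bb e.2
  have h3 := h.τ e
  have h4 : 99 / 100 * C.bb e.2 ≤ (-C.c e).re := by
    simp only [c, neg_re, add_re, ofReal_re]
    linarith [re_le_norm (C.τ e)]
  have h5 := h4.trans ((re_le_norm _).trans_eq (norm_neg _))
  have h6 := norm_add_le (-C.bb e.2 : ℂ) (C.τ e)
  rw [norm_neg, norm_real, Real.norm_of_nonneg (by linarith)] at h6
  exact ⟨norm_pos_iff.1 (by linarith), h4, h5, h6.trans (by linarith)⟩

theorem G0.disc (h : C.G0) {v : ℂ} (hv : ‖v‖ ≤ 2 * C.pl.ρ e) : ‖v‖ ≤ ‖C.τ e‖ / 8 ∧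
    C.τ e + v ≠ 0 ∧ ‖C.τ e + v‖ < C.D.b 0 / 2 ∧ ‖v / C.c e‖ ≤ 1 / 100 ∧ C.c e + v ≠ 0 := by
  obtain ⟨h1, h2, -⟩ := h.toAdm.bb e.2
  have h3 := h.τ e
  have h4 := (CfB2_ρ h.toAdm e).2.2.2
  have h5 := CfB2_T (C := C) e
  have h6 := (h.c_bd e).2.2.1
  refine ⟨by linarith, norm_pos_iff.1 (by linarith [norm_le_add_norm_add (C.τ e) v]),
    by linarith [norm_add_le (C.τ e) v], ?_,
    norm_pos_iff.1 (by linarith [norm_le_add_norm_add (C.c e) v])⟩
  rw [norm_div, div_le_iff₀ (by linarith)]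
  linarith

theorem G0.vs_conj (h : C.G0) (k : Fin γ) : C.vs k.rev = conj (C.vs k) := by
  have h1 : ∀ b, log (-C.c (k.rev, b)) = conj (log (-C.c (k, b))) := fun b => by
    rw [h.toAdm.c_conj (k, b), ← map_neg, log_conj]
    obtain ⟨h1, h2, -⟩ := h.toAdm.bb b
    exact fun h3 => by linarith [(arg_eq_pi_iff.1 h3).1, (h.c_bd (k, b)).2.1]
  have h2 : ∀ b, C.D.lam (jj b) (C.τ (k.rev, b)) = conj (C.D.lam (jj b) (C.τ (k, b))) :=
    fun b => by
      rw [h.toAdm.τ_conj (k, b), h.d.lam_conj (h.toAdm.jj_lt b)]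
      linarith [h.τ (k, b), (h.toAdm.bb b).1]
  have h3 : C.D.lam 0 _ = conj (C.D.lam 0 _) := h2 false
  have h4 : C.D.lam 1 _ = conj (C.D.lam 1 _) := h2 true
  rw [Cfg.vs, Cfg.vs, map_mul, ← exp_conj, h.toAdm.Res_conj, h1, h1, h3, h4, (h.toAdm.lg_conj k).1,
    (h.toAdm.lg_conj k).2]
  congr 2
  simp only [map_add, map_mul, map_neg, map_div₀, map_sub, conj_ofReal, conj_I, map_ofNat]
  ring

theorem G0.s_conj (h : C.G0) (k : Fin γ) : C.pl.s k.rev = conj (C.pl.s k) := by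
  simp only [pl, map_mul, map_pow]
  rw [h.toAdm.τ_conj (k, false), h.toAdm.τ_conj (k, true), h.vs_conj]

theorem G0.r_conj (h : C.G0) (e : Fin γ × Bool) :
    C.r1 (e.1.rev, e.2) = conj (C.r1 e) ∧ C.r2 (e.1.rev, e.2) = conj (C.r2 e) := by
  have h1 := h.toAdm.c_conj (e.1, false)
  have h2 := h.toAdm.c_conj (e.1, true)
  rcases e with ⟨k, _ | _⟩ <;>
    simp only [r1, r2, h.s_conj, h.toAdm.Res_conj, h1, h2, map_div₀, map_mul, map_neg, and_self]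

theorem G0.r_mul (h : C.G0) (e : Fin γ × Bool) :
    C.r1 e * C.r1 (op e) = C.pl.s e.1 ∧ C.r2 e * C.r2 (op e) = C.pl.s e.1 ∧
      C.r1 e * C.r2 e = -C.pl.s e.1 * C.c e / C.c (op e) := by
  have h1 := (h.c_bd (e.1, false)).1
  have h2 := (h.c_bd (e.1, true)).1
  have h3 := h.Res_ne e.1
  rcases e with ⟨k, _ | _⟩ <;> simp only [r1, r2, op, Bool.not_false, Bool.not_true] at * <;>
    refine ⟨?_, ?_, ?_⟩ <;> field_simp

theorem CfB2_other (h : C.G0) {τ : ℂ} (h₁ : ‖τ‖ ≤ C.D.b 0) (k : Fin γ) :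
    2 * C.D.b 0 ≤ ‖-C.bb b + τ - C.c (k, !b)‖ := by
  have h1 := abs_le.1 ((abs_re_le_norm _).trans h₁)
  have h2 := abs_le.1 ((abs_re_le_norm _).trans (h.τ (k, !b)))
  obtain ⟨h3, -, h4⟩ := h.toAdm.bb b
  refine le_trans ?_ (abs_re_le_norm _)
  cases b <;> simp only [c, bb, jj, Bool.not_false, Bool.not_true, sub_re, add_re, neg_re,
    ofReal_re, if_true, Bool.false_eq_true, if_false] at h2 ⊢
  · exact le_abs.2 (Or.inl (by linarith))
  · exact le_abs.2 (Or.inr (by linarith))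

theorem G0.pl_ok (h : C.G0) : C.pl.Ok := by
  have hρ := CfB2_ρ h.toAdm
  refine ⟨fun e => (hρ e).1, fun k => mul_ne_zero (mul_ne_zero (τ_ne _) (τ_ne _))
    (pow_ne_zero _ (h.vs_ne k)), fun e => ?_, ?_⟩
  · have h1 := mul_pos (hρ e).1 (hρ (op e)).1
    have h2 := pow_le_pow_left₀ (by positivity) (CfB2_vs h e.1).1 2
    rw [CfB2_s, norm_mul, norm_mul, norm_pow, ← (hρ e).2.1, ← (hρ (op e)).2.1]
    nlinarith
  rintro ⟨j, b⟩ ⟨k, b'⟩ hne
  rcases Bool.eq_or_eq_not b' b with rfl | rfl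
  · have h1 : j ≠ k := fun h => hne (h ▸ rfl)
    have h2 := (h.toAdm.sep h1 b').2
    have h3 := (h.toAdm.sep h1.symm b').2
    rw [norm_sub_rev] at h3
    rw [div_mul_comm, ← (hρ _).2.2.1] at h2 h3
    simp only [pl, c, add_sub_add_left_eq_sub] at *
    linarith [(hρ (j, b')).1, (hρ (k, b')).1]
  · have h1 := (h.toAdm.bb b).1
    have h2 := CfB2_other (b := b) h (τ := C.τ (j, b)) (by linarith [h.τ (j, b)]) k
    exact le_trans (by linarith [h.τ (j, b), h.τ (k, !b), (hρ (j, b)).2.2.2, (hρ (k, !b)).2.2.2]) h2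

theorem G0.psy (h : C.G0) : C.pl.Sy Fin.rev :=
  ⟨h.toAdm.c_conj, fun e => by simp only [pl, h.toAdm.τ_conj e, norm_conj], h.s_conj, Fin.rev_rev⟩

theorem G0.mu_eq (h : C.G0) (e : Fin γ × Bool) : C.pl.mu e = ‖C.τ e‖ * ‖C.vs e.1‖ := by
  have h1 := CfB2_one h.toAdm
  have h2 := CfB2_T (C := C) (op e)
  rw [Pl.mu, Real.sqrt_eq_iff_mul_self_eq_of_pos (mul_pos (CfB2_T e) (norm_pos_iff.2 (h.vs_ne _))),
    CfB2_s, norm_mul, norm_mul, norm_pow]
  simp only [pl]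
  field_simp

theorem G0.rin_eq (h : C.G0) (e : Fin γ × Bool) :
    C.pl.rin e = 16 * γ * ‖C.τ e‖ * ‖C.vs e.1‖ ^ 2 := by
  have h1 := CfB2_one h.toAdm
  have h2 := CfB2_T (C := C) (op e)
  rw [Pl.rin, CfB2_s, norm_mul, norm_mul, norm_pow]
  simp only [pl]
  field_simp

theorem G0.s_div (h : C.G0) (e : Fin γ × Bool) :
    C.pl.s e.1 / (C.τ e * C.vs e.1) = C.τ (op e) * C.vs e.1 ∧ C.τ e * C.vs e.1 ∈ C.pl.Ann e := by
  have h1 := τ_ne (C := C) e
  have h2 := h.vs_ne e.1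
  have h3 := (CfB2_vs h e.1).1
  have h4 := mul_pos (CfB2_T (C := C) e) (norm_pos_iff.2 h2)
  obtain ⟨h5, h6, -⟩ := CfB2_ρ h.toAdm e
  refine ⟨by rw [CfB2_s]; field_simp, ?_, ?_⟩
  · rw [h.rin_eq, norm_mul]
    nlinarith
  · rw [norm_mul, ← h6]
    nlinarith

theorem CfB2_mid (h : C.G0) (hk : 2 * (k : ℕ) + 1 = γ) :
    (∀ b, (C.τ (k, b)).im = 0) ∧ (C.vs k).im = 0 := by
  obtain ⟨h1, -⟩ := h.toAdm.mid hk
  refine ⟨fun b => conj_eq_iff_im.1 ?_, conj_eq_iff_im.1 ?_⟩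
  · rw [← h.toAdm.τ_conj, h1]
  · rw [← h.vs_conj, h1]

theorem G0.place (h : C.G0) (k : Fin γ) : (2 * (k : ℕ) + 1 = γ → C.wd.Mid k) ∧
    (γ < 2 * (k : ℕ) + 1 → C.wd.Up k) ∧ (C.wd.Low k ↔ 2 * (k : ℕ) + 1 < γ) := by
  have hρ := fun b => CfB2_ρ h.toAdm (k, b)
  have up : γ < 2 * (k : ℕ) + 1 → ∀ b, 2 * C.pl.ρ (k, b) ≤ (C.pl.c (k, b)).im := fun hk b => by
    linarith [h.toAdm.im_up hk b, CfB2_im (C := C) (k, b), (hρ b).1, (hρ b).2.2.1]
  refine ⟨fun hk => ?_, up, fun hl => ?_, fun hk b => ?_⟩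
  · obtain ⟨h1, -, -, h2, h3⟩ := h.toAdm.mid hk
    obtain ⟨h4, h5⟩ := CfB2_mid h hk
    obtain ⟨v, hv⟩ : ∃ v : ℝ, C.vs k = v := ⟨_, (conj_eq_iff_re.1 (conj_eq_iff_im.2 h5)).symm⟩
    have h6 : C.wd.s k = ((-(‖C.τ (k, false)‖ * ‖C.τ (k, true)‖ * v ^ 2) : ℝ) : ℂ) := by
      change C.τ (k, false) * C.τ (k, true) * C.vs k ^ 2 = _
      conv_lhs => rw [h2, h3, hv]
      push_cast
      ring
    have h7 : v ≠ 0 := ofReal_ne_zero.1 (hv ▸ h.vs_ne k)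
    refine ⟨h1, fun b => (CfB2_im _).trans (h4 b), by rw [h6, ofReal_im], ?_⟩
    rw [h6, ofReal_re, neg_lt_zero]
    exact mul_pos (mul_pos (CfB2_T _) (CfB2_T _)) (by positivity)
  · have h1 : (C.pl.c (k, true)).im ≤ -(2 * C.pl.ρ (k, true)) := hl true
    have h2 := (hρ true).1
    rcases lt_trichotomy (2 * (k : ℕ) + 1) γ with hk | hk | hk
    · exact hk
    · linarith [(CfB2_mid h hk).1 true, CfB2_im (C := C) (k, true)]
    · linarith [up hk true]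
  · change (C.pl.c (k, b)).im ≤ -(2 * C.pl.ρ (k, b))
    linarith [h.toAdm.im_low hk b, CfB2_im (C := C) (k, b), (hρ b).1, (hρ b).2.2.1]

theorem CfB2_mu (h : C.G0) (e : Fin γ × Bool) : 100 * C.pl.mu e ≤ ‖C.τ e‖ / γ ∧
    100 * C.pl.mu e ≤ ‖C.τ e‖ := by
  have h1 := CfB2_one h.toAdm
  have h2 := CfB2_T (C := C) e
  obtain ⟨h3, h4⟩ := CfB2_vs h e.1
  rw [h.mu_eq, le_div_iff₀ (by positivity)]
  constructor <;> nlinarith

theorem G0.mem_fd (h : C.G0) {τ : ℂ} (h₁ : ‖τ‖ ≤ C.D.b 0)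
    (h₂ : ∀ k, C.mm b k ≤ ‖τ - C.τ (k, b)‖) : -C.bb b + τ ∈ C.pl.Fd := by
  rintro ⟨k, b'⟩
  rcases Bool.eq_or_eq_not b' b with rfl | rfl
  · exact (h₂ k).trans_eq (congrArg _ (add_sub_add_left_eq_sub _ _ _).symm)
  · exact le_trans (by linarith [(CfB2_mu h (k, !b)).2, h.τ (k, !b), (h.toAdm.bb b).1])
      (CfB2_other h h₁ k)

theorem G0.other (h : C.G0) {τ : ℂ} (h₁ : ‖τ‖ ≤ C.D.b 0) (k : Fin γ) :
    2 * C.D.b 0 ≤ ‖-C.bb b + τ - C.c (k, !b)‖ :=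
  CfB2_other h h₁ k

theorem G0.ss (h : C.G0) {δ : ℝ} (hδ : δ ≤ C.D.b 0 / 2) {τ : ℂ}
    (hτ : τ ∈ SS (C.TT b) (C.mm b) δ) : -C.bb b + τ ∈ C.wd.Qr ∧ -C.bb b + τ ∈ C.pl.Fd := by
  obtain ⟨h1, h2, h3, h4⟩ := hτ
  have h5 := h.mem_fd (by linarith [(h.toAdm.bb b).1]) h4
  exact ⟨⟨by simpa using h1, h.d.P_loc (h.toAdm.jj_lt b) h2 (h3.trans_le hδ), h.pl_ok.fd_sub h5⟩, h5⟩

theorem Adm.onS (h : C.Adm) {δ : ℝ} {t : ℂ} (ht : C.wd.OnS δ t) :
    ∃ b, ∃ τ ∈ SS (C.TT b) (C.mm b) δ, t = -C.bb b + τ := by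
  obtain ⟨⟨⟨h1, h2⟩, -⟩, h3, h4⟩ := ht
  obtain ⟨b, hb⟩ : ∃ b, ‖t + C.bb b‖ < δ := h4.elim (⟨false, ·⟩) (⟨true, ·⟩)
  refine ⟨b, t + C.bb b, ⟨by simpa using h1,
    fun h5 => h2 (Or.inr ⟨jj b, h.jj_lt b, eq_neg_of_add_eq_zero_left h5⟩), hb, fun k => ?_⟩, by ring⟩
  refine (h3 (k, b)).trans_eq (congrArg _ ?_)
  change t - (-C.bb b + C.τ (k, b)) = t + C.bb b - C.τ (k, b)
  ring

theorem G0.wp_im (h : C.G0) (hk : γ ≤ 2 * (k : ℕ) + 1) (b : Bool) :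
    0 ≤ (C.τ (k, b) + C.τ (k, b) * C.vs k).im := by
  rcases hk.eq_or_lt with hk | hk
  · obtain ⟨h1, h2⟩ := CfB2_mid h hk.symm
    simp [h1, h2]
  · have h1 := (abs_le.1 (abs_im_le_norm (C.τ (k, b) * C.vs k))).1
    have h2 := CfB2_mu h (k, b)
    rw [h.mu_eq, ← norm_mul] at h2
    rw [add_im]
    linarith [h.toAdm.im_up hk b, h2.1, norm_nonneg (C.τ (k, b) * C.vs k)]

theorem G0.arc (h : C.G0) {δ : ℝ} (hδ : 2 * ‖C.τ e‖ < δ) {θ : ℝ} (hθ : θ ∈ Icc 0 Real.pi) :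
    ((2 * ‖C.τ e‖ : ℝ) : ℂ) * exp (θ * I) ∈ SS (C.TT e.2) (C.mm e.2) δ := by
  have h1 := CfB2_T (C := C) e
  have h2 : ‖((2 * ‖C.τ e‖ : ℝ) : ℂ) * exp (θ * I)‖ = 2 * ‖C.τ e‖ := by
    rw [norm_mul, norm_exp_ofReal_mul_I, mul_one, norm_real, Real.norm_of_nonneg (by positivity)]
  refine ⟨?_, norm_pos_iff.1 (by linarith), h2.trans_lt hδ, fun k => ?_⟩
  · rw [im_ofReal_mul, exp_ofReal_mul_I_im]
    exact mul_nonneg (by positivity) (Real.sin_nonneg_of_mem_Icc hθ)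
  · refine le_trans ?_ (norm_sub_norm_le _ _)
    have h3 := (h.toAdm.rad (k, e.2)).2
    have h4 := (CfB2_mu h (k, e.2)).2
    simp only [h2, mm, TT]
    linarith [(h.toAdm.rad e).1]

theorem CfB2_dir {u u' : ℂ} {r r' : ℝ} (hu : ‖u‖ = 1) (hu' : ‖u'‖ = 1) (hr : 0 ≤ r) (hr' : 0 ≤ r') :
    r' * ‖u' - u‖ ≤ 2 * ‖r * u - r' * u'‖ := by
  have h1 := abs_norm_sub_norm_le (r * u) (r' * u')
  have h2 := norm_sub_le ((r - r' : ℝ) * u) (r * u - r' * u')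
  rw [show ((r - r' : ℝ) * u - (r * u - r' * u') : ℂ) = r' * (u' - u) by push_cast; ring] at h2
  simp only [norm_mul, hu, hu', mul_one, norm_real, Real.norm_eq_abs, abs_of_nonneg hr,
    abs_of_nonneg hr'] at h1 h2
  linarith

theorem Fine.seg (h : C.Fine) (hk : γ ≤ 2 * (k : ℕ) + 1) {δ : ℝ} (hδ : 2 * ‖C.τ (k, b)‖ < δ)
    {x : ℝ} (hx : x ∈ Icc (0 : ℝ) 1) :
    2 * C.τ (k, b) + x * (C.τ (k, b) + C.τ (k, b) * C.vs k - 2 * C.τ (k, b)) ∈
      SS (C.TT b) (C.mm b) δ := by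
  have g := h.toGood.g0
  obtain ⟨x0, x1⟩ := hx
  have h1 := CfB2_T (C := C) (k, b)
  have h2 := (CfB2_vs g k).2
  have h3 := h.dir k
  have h4 := norm_nonneg (C.vs k)
  have hn : ‖(x : ℂ) * C.vs k‖ = x * ‖C.vs k‖ := by
    rw [norm_mul, norm_real, Real.norm_of_nonneg x0]
  have e1 : 2 * C.τ (k, b) + x * (C.τ (k, b) + C.τ (k, b) * C.vs k - 2 * C.τ (k, b)) =
      C.τ (k, b) * ((2 - x : ℝ) + x * C.vs k) := by
    push_cast
    ring
  refine ⟨?_, ?_, ?_, fun j => ?_⟩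
  · have h5 : 0 ≤ (C.τ (k, b)).im := by
      rw [polar, im_ofReal_mul, exp_ofReal_mul_I_im]
      exact mul_nonneg h1.le (Real.sin_nonneg_of_mem_Icc (g.toAdm.lg_im hk b).1)
    have h6 := mul_nonneg x0 (g.wp_im hk b)
    rw [add_im, im_ofReal_mul, sub_im, ← ofReal_ofNat, im_ofReal_mul]
    nlinarith
  · rw [e1]
    refine mul_ne_zero (τ_ne _) fun h5 => ?_
    have h6 := congrArg re h5
    rw [add_re, ofReal_re, re_ofReal_mul, zero_re] at h6
    nlinarith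
  · have h5 := norm_add_le ((2 - x : ℝ) : ℂ) (x * C.vs k)
    rw [hn, norm_real, Real.norm_of_nonneg (by linarith)] at h5
    rw [e1, norm_mul]
    nlinarith [mul_le_mul_of_nonneg_left h2 x0]
  simp only [mm, TT]
  by_cases hj : j = k
  · subst hj
    rw [e1, g.mu_eq, ← mul_sub_one, norm_mul]
    refine mul_le_mul_of_nonneg_left (le_of_sq_le_sq ?_ (norm_nonneg _)) h1.le
    have h5 := Complex.sq_norm (C.vs j)
    rw [Complex.sq_norm (_ - _)]
    simp only [normSq_apply, sub_re, add_re, sub_im, add_im, ofReal_re, ofReal_im, re_ofReal_mul,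
      im_ofReal_mul, one_re, one_im] at h5 ⊢
    nlinarith [mul_le_mul_of_nonneg_left h3 (mul_nonneg x0 (sub_nonneg.2 x1)),
      mul_nonneg (sq_nonneg (1 - x)) (show 0 ≤ 1 - ‖C.vs j‖ ^ 2 by nlinarith)]
  have u : ∀ e, ‖C.τ e / (‖C.τ e‖ : ℂ)‖ = 1 := fun e => by
    rw [norm_div, norm_real, norm_norm, div_self (CfB2_T e).ne']
  have v : ∀ e, (‖C.τ e‖ : ℂ) * (C.τ e / (‖C.τ e‖ : ℂ)) = C.τ e := fun e =>
    mul_div_cancel₀ _ (ofReal_ne_zero.2 (CfB2_T e).ne')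
  have h5 := CfB2_dir (u (k, b)) (u (j, b)) (r := (2 - x) * ‖C.τ (k, b)‖)
    (mul_nonneg (by linarith) h1.le) (norm_nonneg (C.τ (j, b)))
  rw [ofReal_mul, mul_assoc, v, v] at h5
  have h6 := mul_le_mul_of_nonneg_left (g.toAdm.sep hj b).1 (norm_nonneg (C.τ (j, b)))
  have h7 := norm_sub_le (C.τ (k, b) * ((2 - x : ℝ) + x * C.vs k) - C.τ (j, b))
    (C.τ (k, b) * (x * C.vs k))
  rw [show C.τ (k, b) * ((2 - x : ℝ) + x * C.vs k) - C.τ (j, b) - C.τ (k, b) * (x * C.vs k) =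
    (2 - x : ℝ) * C.τ (k, b) - C.τ (j, b) by ring, norm_mul, hn] at h7
  have h8 := (CfB2_mu g (k, b)).1
  have h9 := (CfB2_mu g (j, b)).1
  have h10 : ‖C.τ (k, b)‖ / γ ≤ 2 * ‖C.τ (j, b)‖ / γ := div_le_div_of_nonneg_right
    (by linarith [(g.toAdm.rad (k, b)).2, (g.toAdm.rad (j, b)).1]) γ.cast_nonneg
  rw [g.mu_eq] at h8
  rw [mul_div_assoc] at h10
  rw [mul_div_left_comm] at h6
  rw [e1]
  nlinarith [mul_le_mul_of_nonneg_left x1 (mul_nonneg h1.le h4),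
    div_nonneg (norm_nonneg (C.τ (j, b))) γ.cast_nonneg]

end Cfg

end Pool.Agent.MP_92463a_gt

end
end

section

open Set Complex Filter Metric
open scoped Topology ComplexConjugate ContDiff Manifold

noncomputable section

namespace Pool.Agent.MP_92463a_gt

variable {γ : ℕ} {α : Type} {l : Filter α} {C : α → Cfg γ} {D₀ : Dat} {z₀ : Zs γ}

theorem CfE1_up {f : α → ℝ} {c : ℝ} (hf : Tendsto f l (𝓝 c)) :
    ∀ᶠ M in atTop, ∀ᶠ x in l, f x ≤ M :=
  (eventually_gt_atTop c).mono fun _ hM => (hf.eventually (gt_mem_nhds hM)).mono fun _ => le_of_lt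

theorem CfE1_lo {f : α → ℝ} {c : ℝ} (hf : Tendsto f l (𝓝 c)) (hc : 0 < c) :
    ∀ᶠ m in 𝓝[>] (0 : ℝ), ∀ᶠ x in l, m ≤ f x :=
  (Eventually.filter_mono nhdsWithin_le_nhds (gt_mem_nhds hc)).mono fun _ hm =>
    (hf.eventually (lt_mem_nhds hm)).mono fun _ => le_of_lt

theorem CfE1_jj (h : Lim l C D₀ z₀) (b : Bool) : jj b < D₀.q := by
  have := h.q
  cases b <;> simp [jj] <;> omega

theorem CfE1_b (h : Lim l C D₀ z₀) (b : Bool) : 0 < D₀.b (jj b) := h.D.ok₀.b_pos _ (CfE1_jj h b)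

theorem CfE1_L (h : Lim l C D₀ z₀) : ∀ᶠ x in l, 0 < (C x).L := h.L.eventually_gt_atTop 0

theorem CfE1_ex (h : Lim l C D₀ z₀) (n : ℕ) :
    Tendsto (fun x => (C x).L ^ n * Real.exp (-(C x).L)) l (𝓝 0) :=
  (Real.tendsto_pow_mul_exp_neg_atTop_nhds_zero n).comp h.L

theorem CfE1_eh (h : (cf D₀ z₀).Adm) (k : Fin γ) :
    0 < (z₀.eh k * exp ((z₀.ξ k + conj (z₀.ξ k) + z₀.2.2.2 k) / 4)).re := by
  have hγ : (1 : ℝ) ≤ γ := by exact_mod_cast h.pos
  obtain ⟨-, h1, h2, -⟩ := Zs.small h.pos h.small k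
  have h3 : ‖z₀.2.2.2 k‖ ≤ 1 / (100 * γ) :=
    (norm_le_pi_norm z₀.2.2.2 k).trans ((norm_snd_le z₀.2.2).trans ((norm_snd_le z₀.2).trans
      ((norm_snd_le z₀).trans h.small)))
  have h4 : (1 : ℝ) / (100 * γ) ≤ 1 / 100 := by gcongr; linarith
  have h5 : (2 : ℝ) / (100 * γ) ≤ 2 / 100 := by gcongr; linarith
  change ‖z₀.ξ k‖ ≤ _ at h1
  change ‖z₀.eh k - 1‖ ≤ _ at h2
  set w := (z₀.ξ k + conj (z₀.ξ k) + z₀.2.2.2 k) / 4
  have hw : ‖w‖ ≤ 1 / 50 := by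
    have := norm_add₃_le (a := z₀.ξ k) (b := conj (z₀.ξ k)) (c := z₀.2.2.2 k)
    rw [norm_conj] at this
    rw [norm_div, Complex.norm_ofNat]
    linarith
  have h6 : ‖exp w - 1‖ ≤ 1 / 25 := (norm_exp_sub_one_le (by linarith)).trans (by linarith)
  have h7 : ‖z₀.eh k * exp w - 1‖ ≤ 1 / 2 := by
    have e : z₀.eh k * exp w - 1 =
        (z₀.eh k - 1) * (exp w - 1) + (z₀.eh k - 1) + (exp w - 1) := by ring
    have := norm_add₃_le (a := (z₀.eh k - 1) * (exp w - 1)) (b := z₀.eh k - 1) (c := exp w - 1)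
    rw [norm_mul, ← e] at this
    nlinarith [norm_nonneg (z₀.eh k - 1), norm_nonneg (exp w - 1)]
  have h8 := (abs_le.1 ((abs_re_le_norm _).trans h7)).1
  rw [sub_re, one_re] at h8
  linarith

theorem CfE1_V (h : (cf D₀ z₀).Adm) (k : Fin γ) :
    0 < (D₀.b 0 * (cf D₀ z₀).E * Real.exp (D₀.A 0) * z₀.eh k *
        exp ((z₀.ξ k + conj (z₀.ξ k) + z₀.2.2.2 k) / 4) : ℂ).re := by
  rw [mul_assoc, ← ofReal_mul, ← ofReal_mul, re_ofReal_mul]
  exact mul_pos (mul_pos (mul_pos (h.bb false).1 h.E_pos) (Real.exp_pos _)) (CfE1_eh h k)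

theorem CfE1_ne {w : ℂ} (h : 0 < w.re) : 0 < ‖w‖ := h.trans_le (re_le_norm w)

theorem Lim.comp (h : Lim l C D₀ z₀) {β : Type} {l' : Filter β} {φ : β → α}
    (hφ : Tendsto φ l' l) : Lim l' (fun x => C (φ x)) D₀ z₀ := by
  exact ⟨h.D.comp hφ, h.q, hφ.eventually h.adm, h.L.comp hφ, h.z.comp hφ⟩

theorem Lim.adm₀ [l.NeBot] (h : Lim l C D₀ z₀) : (cf D₀ z₀).Adm := by
  have hc : Continuous (Zs.rf : Zs γ → Zs γ) := by
    unfold Zs.rf
    fun_prop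
  exact ⟨h.adm.exists.choose_spec.pos, h.D.ok₀, h.q,
    tendsto_nhds_unique_of_eventuallyEq ((hc.tendsto z₀).comp h.z) h.z
      (h.adm.mono fun _ hx => hx.sym),
    le_of_tendsto h.z.norm (h.adm.mono fun _ hx => hx.small)⟩

theorem Lim.bb (h : Lim l C D₀ z₀) (b : Bool) :
    Tendsto (fun x => (C x).bb b) l (𝓝 (D₀.b (jj b))) := by
  exact h.D.b _ (CfE1_jj h b)

theorem Lim.E (h : Lim l C D₀ z₀) : Tendsto (fun x => (C x).E) l (𝓝 (cf D₀ z₀).E) := by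
  exact (((h.bb true).div (h.bb false) (CfE1_b h false).ne').log
    (div_pos (CfE1_b h true) (CfE1_b h false)).ne').div_const _

theorem Lim.lk (h : Lim l C D₀ z₀) (b : Bool) :
    Tendsto (fun x => (C x).lk b) l (𝓝 ((cf D₀ z₀).lk b)) := by
  cases b
  · exact tendsto_const_nhds
  · exact ((((h.D.A (CfE1_jj h false)).add (h.D.A (CfE1_jj h true))).add
      ((h.bb false).log (CfE1_b h false).ne')).sub
        ((h.bb true).log (CfE1_b h true).ne')).const_mul 2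

theorem Lim.cm (h : Lim l C D₀ z₀) (b : Bool) :
    Tendsto (fun x => (C x).cm b) l (𝓝 ((cf D₀ z₀).cm b)) := by
  cases b
  · exact (((h.D.A (CfE1_jj h false)).neg.rexp.div (h.bb false)
      (CfE1_b h false).ne').ofReal).const_mul (-I)
  · exact ((h.D.A (CfE1_jj h true)).rexp.div (h.bb true) (CfE1_b h true).ne').ofReal

theorem Lim.zs (h : Lim l C D₀ z₀) : (∀ e, Tendsto (fun x => (C x).z.lu e) l (𝓝 (z₀.lu e))) ∧
    (∀ k, Tendsto (fun x => (C x).z.eh k) l (𝓝 (z₀.eh k))) ∧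
    Tendsto (fun x => (C x).z.mean) l (𝓝 z₀.mean) ∧
    ∀ k, Tendsto (fun x => (C x).z.2.2.2 k) l (𝓝 (z₀.2.2.2 k)) := by
  have h1 : Continuous (Zs.mean : Zs γ → ℂ) := by
    unfold Zs.mean
    fun_prop
  have h2 : ∀ k, Continuous fun z : Zs γ => z.ξ k := fun k => by
    unfold Zs.ξ
    fun_prop
  refine ⟨fun e => ((?_ : Continuous fun z : Zs γ => z.lu e).tendsto z₀).comp h.z,
    fun k => ((?_ : Continuous fun z : Zs γ => z.eh k).tendsto z₀).comp h.z,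
    (h1.tendsto z₀).comp h.z,
    fun k => ((?_ : Continuous fun z : Zs γ => z.2.2.2 k).tendsto z₀).comp h.z⟩
  · rcases e with ⟨k, _ | _⟩
    · exact continuous_const.add (h2 k)
    · exact (continuous_const.add (continuous_conj.comp (h2 k))).add (by fun_prop)
  · unfold Zs.eh
    fun_prop
  · fun_prop

theorem Lim.tau (h : Lim l C D₀ z₀) (e : Fin γ × Bool) :
    Tendsto (fun x => Real.exp (2 * (C x).L) * (C x).τ e) l (𝓝 ((cf D₀ z₀).τ e)) := by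
  have h1 := ((h.lk e.2).ofReal.add (h.zs.1 e)).cexp
  convert h1 using 2 with x
  · rw [Cfg.τ, Cfg.lg, ofReal_exp, ← exp_add]
    congr 1
    push_cast
    ring
  · simp [Cfg.τ, Cfg.lg, cf]

theorem Lim.tau0 (h : Lim l C D₀ z₀) (e : Fin γ × Bool) :
    Tendsto (fun x => (C x).τ e) l (𝓝 0) ∧ Tendsto (fun x => (C x).L * (C x).τ e) l (𝓝 0) ∧
      Tendsto (fun x => (C x).c e) l (𝓝 (-D₀.b (jj e.2))) ∧
      Tendsto (fun x => (C x).RR e.2) l (𝓝 0) := by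
  have h1 : ∀ n : ℕ, Tendsto (fun x => ((C x).L : ℂ) ^ n * (C x).τ e) l (𝓝 0) := by
    intro n
    have := ((CfE1_ex h n).mul (CfE1_ex h 0)).ofReal.mul (h.tau e)
    rw [mul_zero, ofReal_zero, zero_mul] at this
    refine this.congr fun x => ?_
    have e1 : Real.exp (-(C x).L) * Real.exp (-(C x).L) * Real.exp (2 * (C x).L) = 1 := by
      rw [← Real.exp_add, ← Real.exp_add, Real.exp_eq_one_iff]
      ring
    rw [← mul_assoc, ← ofReal_mul, ← ofReal_pow]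
    congr 2
    linear_combination (C x).L ^ n * e1
  have h2 : Tendsto (fun x => (C x).τ e) l (𝓝 0) := by simpa using h1 0
  refine ⟨h2, by simpa using h1 1, by simpa [Cfg.c] using (h.bb e.2).ofReal.neg.add h2, ?_⟩
  have := ((CfE1_ex h 0).mul (CfE1_ex h 0)).mul (h.lk e.2).rexp
  rw [mul_zero, zero_mul] at this
  refine this.congr fun x => ?_
  rw [pow_zero, one_mul, ← Real.exp_add, ← Real.exp_add, Cfg.RR]
  congr 1
  ring

theorem Lim.Res (h : Lim l C D₀ z₀) (k : Fin γ) :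
    Tendsto (fun x => (C x).L * (C x).Res k) l (𝓝 (D₀.b 0 * (cf D₀ z₀).E * z₀.eh k)) := by
  refine (((h.bb false).ofReal.mul h.E.ofReal).mul (h.zs.2.1 k)).congr'
    ((CfE1_L h).mono fun x hx => ?_)
  have : ((C x).L : ℂ) ≠ 0 := ofReal_ne_zero.2 hx.ne'
  simp only [Cfg.Res, Cfg.bb, jj]
  push_cast
  field_simp

theorem Lim.rr (h : Lim l C D₀ z₀) (e : Fin γ × Bool) :
    Tendsto (fun x => (C x).L * (C x).rr e) l
      (𝓝 ((if e.2 then -D₀.b 1 else D₀.b 0) * (cf D₀ z₀).E * z₀.eh e.1)) := by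
  rcases e with ⟨k, _ | _⟩
  · simpa [Cfg.rr, Cfg.r1] using h.Res k
  · have h0 : (D₀.b 0 : ℂ) ≠ 0 := ofReal_ne_zero.2 (CfE1_b h false).ne'
    have h1 := ((h.tau0 (k, true)).2.2.1.div (h.tau0 (k, false)).2.2.1
      (neg_ne_zero.2 h0)).neg.mul (h.Res k)
    convert h1 using 2 with x
    · simp only [Cfg.rr, Cfg.r2, if_true, Pi.div_apply]
      ring
    · simp only [jj, if_true]
      push_cast
      field_simp

theorem Lim.ell (h : Lim l C D₀ z₀) : Tendsto (fun x => (C x).L * (C x).ℓ) l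
    (𝓝 (-((cf D₀ z₀).E * (γ + 1 / 2 + z₀.mean.re)))) := by
  refine (h.E.mul (((continuous_re.tendsto _).comp h.zs.2.2.1).const_add
    ((γ : ℝ) + 1 / 2))).neg.congr' ((CfE1_L h).mono fun x hx => ?_)
  simp only [Cfg.ℓ, Function.comp]
  field_simp

theorem Lim.vs (h : Lim l C D₀ z₀) (k : Fin γ) :
    Tendsto (fun x => (C x).L * Real.exp (C x).L * (C x).vs k) l
      (𝓝 (D₀.b 0 * (cf D₀ z₀).E * Real.exp (D₀.A 0) * z₀.eh k *
        exp ((z₀.ξ k + conj (z₀.ξ k) + z₀.2.2.2 k) / 4))) := by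
  have hb : ∀ b, (0 : ℝ) < D₀.b (jj b) := CfE1_b h
  have hl : ∀ b, Tendsto (fun x => (C x).D.lam (jj b) ((C x).τ (k, b))) l (𝓝 0) := fun b => by
    have := h.D.lam (CfE1_jj h b) (h.tau0 (k, b)).1 (by rw [norm_zero]; exact half_pos (hb false))
    rwa [Dat.lam_zero] at this
  have hc : ∀ b, Tendsto (fun x => log (-(C x).c (k, b))) l (𝓝 (Real.log (D₀.b (jj b)))) := by
    intro b
    have := (h.tau0 (k, b)).2.2.1.neg
    rw [neg_neg] at this
    rw [ofReal_log (hb b).le]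
    exact this.clog (ofReal_mem_slitPlane.2 (hb b))
  have h1 := (h.Res k).mul ((((((((h.D.A (CfE1_jj h false)).sub
    (h.D.A (CfE1_jj h true))).div_const 2).ofReal.const_add (-(Real.pi / 4) * I)).add
    ((((h.lk true).ofReal.add (h.zs.1 (k, false))).add (h.zs.1 (k, true))).div_const 4)).add
    (((hl false).sub (hl true)).div_const 2)).add (((hc true).sub (hc false)).div_const 2)).cexp)
  convert h1 using 2 with x
  · rw [Cfg.vs, ofReal_exp, mul_mul_mul_comm, ← exp_add]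
    congr 2
    simp only [Cfg.lg, Cfg.lk, jj, if_true, Bool.false_eq_true, if_false]
    push_cast
    ring
  · rw [ofReal_exp, mul_right_comm _ (exp _) (z₀.eh k), mul_assoc, ← exp_add]
    congr 2
    simp only [Zs.lu, cf, Cfg.lk, jj, if_true, Bool.false_eq_true, if_false, ofReal_mul,
      ofReal_add, ofReal_sub, ofReal_div, ofReal_ofNat]
    ring

theorem Lim.bds (h : Lim l C D₀ z₀) : ∃ m > 0, ∃ M, ∀ᶠ x in l, (C x).L * |(C x).ℓ| ≤ M ∧ ∀ e,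
    (m ≤ Real.exp (2 * (C x).L) * ‖(C x).τ e‖ ∧ Real.exp (2 * (C x).L) * ‖(C x).τ e‖ ≤ M) ∧
    (m ≤ (C x).L * Real.exp (C x).L * ‖(C x).vs e.1‖ ∧
      (C x).L * Real.exp (C x).L * ‖(C x).vs e.1‖ ≤ M) ∧
    (m ≤ (C x).L * ‖(C x).rr e‖ ∧ (C x).L * ‖(C x).rr e‖ ≤ M) ∧
    (C x).L * Real.exp (6 * (C x).L) * ‖(C x).pl.s e.1 / (C x).rr e‖ ≤ M ∧
    (m ≤ ‖(C x).cm e.2‖ ∧ ‖(C x).cm e.2‖ ≤ M) ∧ m ≤ (C x).bb e.2 ∧ (C x).bb e.2 ≤ M := by
  rcases l.eq_or_neBot with rfl | hl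
  · exact ⟨1, one_pos, 0, eventually_bot⟩
  have ha := h.adm₀
  have hL := CfE1_L h
  have h1 : Tendsto (fun x => (C x).L * |(C x).ℓ|) l (𝓝 _) :=
    h.ell.abs.congr' (hL.mono fun x hx => by simp only [abs_mul, abs_of_pos hx])
  have h2 : ∀ e, Tendsto (fun x => Real.exp (2 * (C x).L) * ‖(C x).τ e‖) l (𝓝 _) := fun e =>
    (h.tau e).norm.congr fun x => by rw [norm_mul, norm_real, Real.norm_of_nonneg (by positivity)]
  have h3 : ∀ k, Tendsto (fun x => (C x).L * Real.exp (C x).L * ‖(C x).vs k‖) l (𝓝 _) := fun k =>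
    (h.vs k).norm.congr' (hL.mono fun x hx => by
      simp only [norm_mul, norm_real, Real.norm_of_nonneg hx.le,
        Real.norm_of_nonneg (Real.exp_pos _).le])
  have h4 : ∀ e, Tendsto (fun x => (C x).L * ‖(C x).rr e‖) l (𝓝 _) := fun e =>
    (h.rr e).norm.congr' (hL.mono fun x hx => by
      simp only [norm_mul, norm_real, Real.norm_of_nonneg hx.le])
  have n4 : ∀ e : Fin γ × Bool,
      ((if e.2 then -D₀.b 1 else D₀.b 0) * (cf D₀ z₀).E * z₀.eh e.1 : ℂ) ≠ 0 := by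
    intro e
    have := CfE1_ne (CfE1_eh ha e.1)
    rw [norm_pos_iff] at this
    refine mul_ne_zero (mul_ne_zero ?_ (ofReal_ne_zero.2 ha.E_pos.ne')) (left_ne_zero_of_mul this)
    have b0 : D₀.b 0 ≠ 0 := (CfE1_b h false).ne'
    have b1 : D₀.b 1 ≠ 0 := (CfE1_b h true).ne'
    split_ifs <;> simpa
  have h5 : ∀ e : Fin γ × Bool, Tendsto (fun x => (C x).L * Real.exp (6 * (C x).L) *
      ‖(C x).pl.s e.1 / (C x).rr e‖) l (𝓝 _) := fun e =>
    ((((h.tau (e.1, false)).mul (h.tau (e.1, true))).mul ((h.vs e.1).pow 2)).div (h.rr e)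
      (n4 e)).norm.congr' (hL.mono fun x hx => by
        have e1 : Real.exp (6 * (C x).L) = Real.exp (2 * (C x).L) * Real.exp (2 * (C x).L) *
            Real.exp (C x).L ^ 2 := by
          rw [sq, ← Real.exp_add, ← Real.exp_add, ← Real.exp_add]
          congr 1
          ring
        simp only [Pi.div_apply, Cfg.pl, norm_div, norm_mul, norm_pow, norm_real, e1,
          Real.norm_of_nonneg hx.le, Real.norm_of_nonneg (Real.exp_pos _).le]
        field_simp)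
  obtain ⟨m, hm, m0⟩ := ((eventually_all.2 fun e : Fin γ × Bool =>
    (CfE1_lo (h2 e) (norm_pos_iff.2 (Cfg.τ_ne e))).and <|
    (CfE1_lo (h3 e.1) (CfE1_ne (CfE1_V ha e.1))).and <|
    (CfE1_lo (h4 e) (norm_pos_iff.2 (n4 e))).and <|
    (CfE1_lo (h.cm e.2).norm (norm_pos_iff.2 (ha.cm.1 e.2))).and
    (CfE1_lo (h.bb e.2) (CfE1_b h e.2))).and self_mem_nhdsWithin).exists
  obtain ⟨M, hM, M0⟩ := ((eventually_all.2 fun e : Fin γ × Bool =>
    (CfE1_up (h2 e)).and <| (CfE1_up (h3 e.1)).and <| (CfE1_up (h4 e)).and <|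
    (CfE1_up (h5 e)).and <| (CfE1_up (h.cm e.2).norm).and (CfE1_up (h.bb e.2))).and
    (CfE1_up h1)).exists
  refine ⟨m, m0, M, M0.and (eventually_all.2 fun e => ?_)⟩
  obtain ⟨a1, a2, a3, a4, a5⟩ := hm e
  obtain ⟨b1, b2, b3, b4, b5, b6⟩ := hM e
  exact (a1.and b1).and <| (a2.and b2).and <| (a3.and b3).and <| b4.and <| (a4.and b5).and <|
    a5.and b6

theorem CfE1_vs (h : Lim l C D₀ z₀) (k : Fin γ) : Tendsto (fun x => (C x).vs k) l (𝓝 0) := by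
  have := ((CfE1_ex h 0).div_atTop h.L).ofReal.mul (h.vs k)
  rw [ofReal_zero, zero_mul] at this
  refine this.congr' ((CfE1_L h).mono fun x hx => ?_)
  have h1 : ((C x).L : ℂ) ≠ 0 := ofReal_ne_zero.2 hx.ne'
  have h2 : (Real.exp (C x).L : ℂ) ≠ 0 := ofReal_ne_zero.2 (Real.exp_pos _).ne'
  simp only [pow_zero, one_mul, Real.exp_neg, ofReal_div, ofReal_inv]
  field_simp

theorem Lim.g0 (h : Lim l C D₀ z₀) : ∀ᶠ x in l, (C x).G0 ∧ ∀ k, ‖(C x).vs k‖ ^ 2 ≤ ((C x).vs k).re := by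
  rcases l.eq_or_neBot with rfl | hl
  · exact eventually_bot
  have ha := h.adm₀
  have hγ : (0 : ℝ) < γ := by exact_mod_cast ha.pos
  have h1 : ∀ᶠ x in l, ∀ e, ‖(C x).τ e‖ ≤ (C x).D.b 0 / 100 := eventually_all.2 fun e =>
    ((h.tau0 e).1.norm.eventually_lt ((h.bb false).div_const 100)
      (by simpa using CfE1_b h false)).mono fun _ => le_of_lt
  have h2 : ∀ᶠ x in l, ∀ k, ‖(C x).vs k‖ ≤ 1 / (100 * γ) := eventually_all.2 fun k =>
    ((CfE1_vs h k).norm.eventually_lt tendsto_const_nhds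
      (by rw [norm_zero]; positivity)).mono fun _ => le_of_lt
  have h3 : ∀ᶠ x in l, ∀ k, ‖(C x).vs k‖ ^ 2 ≤ ((C x).vs k).re := eventually_all.2 fun k => by
    filter_upwards [CfE1_L h, ((h.vs k).norm.mul (CfE1_vs h k).norm).eventually_lt
      ((continuous_re.tendsto _).comp (h.vs k))
      (by rw [norm_zero, mul_zero]; exact CfE1_V ha k)] with x hx h4
    have h5 := mul_pos hx (Real.exp_pos (C x).L)
    rw [Function.comp_apply, ← ofReal_mul, re_ofReal_mul, norm_mul, norm_real,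
      Real.norm_of_nonneg h5.le, mul_assoc _ ‖_‖, ← sq] at h4
    exact (lt_of_mul_lt_mul_left h4 h5.le).le
  filter_upwards [h.adm, h.L.eventually_ge_atTop 1, h1, h2, h3] with x a1 a2 a3 a4 a5
  exact ⟨⟨a1, a2, a3, a4⟩, a5⟩

theorem Lim.vs0 (h : Lim l C D₀ z₀) (k : Fin γ) : Tendsto (fun x => (C x).vs k) l (𝓝 0) ∧
    Tendsto (fun x => Real.log ‖(C x).vs k‖ / (C x).L) l (𝓝 (-1)) := by
  refine ⟨CfE1_vs h k, ?_⟩
  rcases l.eq_or_neBot with rfl | hl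
  · exact tendsto_bot
  have h0 := CfE1_ne (CfE1_V h.adm₀ k)
  have h1 := ((((h.vs k).norm.log h0.ne').div_atTop h.L).sub
    (Real.isLittleO_log_id_atTop.tendsto_div_nhds_zero.comp h.L)).sub_const 1
  rw [sub_zero, zero_sub] at h1
  refine h1.congr' ?_
  filter_upwards [CfE1_L h, (h.vs k).norm.eventually (lt_mem_nhds h0)] with x hx h2
  have h3 : ‖(C x).vs k‖ ≠ 0 := by
    intro h3
    simp [h3] at h2
  rw [norm_mul, norm_mul, norm_real, norm_real, Real.norm_of_nonneg hx.le,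
    Real.norm_of_nonneg (Real.exp_pos _).le, Real.log_mul (by positivity) h3,
    Real.log_mul hx.ne' (Real.exp_pos _).ne', Real.log_exp, Function.comp_apply, id]
  field_simp
  ring

theorem Lim.log_tau (h : Lim l C D₀ z₀) : ∃ K, ∀ᶠ x in l, ∀ e,
    |Real.log ‖(C x).τ e‖ + 2 * (C x).L| ≤ K := by
  obtain ⟨K, hK⟩ := (eventually_all.2 fun e : Fin γ × Bool => CfE1_up
    ((h.lk e.2).add ((continuous_re.tendsto _).comp (h.zs.1 e))).abs).exists
  refine ⟨K, eventually_all.2 fun e => (hK e).mono fun x hx => ?_⟩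
  rw [Cfg.τ, norm_exp, Real.log_exp, Cfg.lg, add_re, ofReal_re]
  rwa [show -2 * (C x).L + (C x).lk e.2 + ((C x).z.lu e).re + 2 * (C x).L =
    (C x).lk e.2 + ((C x).z.lu e).re by ring]

end Pool.Agent.MP_92463a_gt

end
end

section

open Set Complex Filter Metric
open scoped Topology ComplexConjugate ContDiff Manifold

noncomputable section

namespace Pool.Agent.MP_92463a_gt

namespace Cfg

variable {γ : ℕ} {C : Cfg γ} {e : Fin γ × Bool} {v : ℂ}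

theorem CfC_cv (e : Fin γ × Bool) (v : ℂ) : C.c e + v = -C.D.b (jj e.2) + (C.τ e + v) := by
  simp only [c, bb]
  ring

theorem G0.CfC_n (h : C.G0) (hv : ‖v‖ ≤ 2 * C.pl.ρ e) :
    ‖v‖ < ‖C.τ e‖ ∧ 1 + v / C.τ e ∈ slitPlane ∧ 1 + v / C.c e ∈ slitPlane := by
  obtain ⟨d1, -, -, d4, -⟩ := h.disc hv
  have h0 : 0 < ‖C.τ e‖ := norm_pos_iff.2 (τ_ne e)
  have h1 : ‖v‖ < ‖C.τ e‖ := by linarith
  refine ⟨h1, mem_slitPlane_of_norm_lt_one ?_, mem_slitPlane_of_norm_lt_one (by linarith)⟩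
  rw [norm_div, div_lt_one h0]
  exact h1

theorem G0.CfC_τ (h : C.G0) (e : Fin γ × Bool) : ‖C.τ e‖ < C.D.b 0 / 2 := by
  have h1 := h.τ e
  have h2 := (h.toAdm.bb e.2).1
  linarith

theorem CfC_Ge (e : Fin γ × Bool) (v : ℂ) : C.Ge e v = exp (C.D.A (jj e.2) + ph (jj e.2) * I +
    sg (jj e.2) * (3 / 2) * (C.lg e + log (1 + v / C.τ e)) + C.D.lam (jj e.2) (C.τ e + v)) := by
  rw [Ge, dG]
  congr 1
  ring

theorem CfC_log {z : ℂ} (h : z ∈ slitPlane) : log (conj z) = conj (log z) :=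
  log_conj _ (slitPlane_arg_ne_pi h)

theorem CfC_pi (z : ℂ) : exp (z + Real.pi * I) = -exp z := by
  rw [exp_add, exp_pi_mul_I]
  ring

theorem G0.free (h : C.G0) (hv : ‖v‖ ≤ 2 * C.pl.ρ e) : C.D.P (C.c e + v) ≠ 0 := by
  obtain ⟨-, d2, d3, -, -⟩ := h.disc hv
  rw [CfC_cv]
  exact h.d.P_loc (h.toAdm.jj_lt _) d2 d3

theorem G0.dG_hol (h : C.G0) (e : Fin γ × Bool) :
    DifferentiableOn ℂ (C.dG e) (ball 0 (2 * C.pl.ρ e)) ∧
      DifferentiableOn ℂ (C.Ge e) (ball 0 (2 * C.pl.ρ e)) ∧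
      DifferentiableOn ℂ (C.m1 e) (ball 0 (2 * C.pl.ρ e)) ∧
      DifferentiableOn ℂ (C.m2 e) (ball 0 (2 * C.pl.ρ e)) ∧
      DifferentiableOn ℂ (C.wd.yb e) (ball 0 (2 * C.pl.ρ e)) := by
  have hb : ∀ v ∈ ball (0 : ℂ) (2 * C.pl.ρ e), ‖v‖ ≤ 2 * C.pl.ρ e := fun v hv =>
    (mem_ball_zero_iff.1 hv).le
  have h1 : DifferentiableOn ℂ (fun v => log (1 + v / C.τ e)) (ball 0 (2 * C.pl.ρ e)) :=
    DifferentiableOn.clog (by fun_prop) fun v hv => (h.CfC_n (hb v hv)).2.1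
  have h2 : DifferentiableOn ℂ (fun v => log (1 + v / C.c e)) (ball 0 (2 * C.pl.ρ e)) :=
    DifferentiableOn.clog (by fun_prop) fun v hv => (h.CfC_n (hb v hv)).2.2
  have h3 : DifferentiableOn ℂ (fun v => C.D.lam (jj e.2) (C.τ e + v)) (ball 0 (2 * C.pl.ρ e)) :=
    (h.d.lam_hol (h.toAdm.jj_lt e.2)).comp (f := fun v => C.τ e + v) (by fun_prop) fun v hv =>
      mem_ball_zero_iff.2 (h.disc (hb v hv)).2.2.1
  have h4 : DifferentiableOn ℂ (C.dG e) (ball 0 (2 * C.pl.ρ e)) :=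
    (h1.const_mul _).add (h3.sub_const _)
  have h5 : DifferentiableOn ℂ (C.Ge e) (ball 0 (2 * C.pl.ρ e)) := (h4.const_add _).cexp
  refine ⟨h4, h5, ((h4.sub h2).div_const _).cexp, ((h4.neg.sub h2).div_const _).cexp, ?_⟩
  refine h5.div (fun v hv => ?_) fun v hv => h.d.R_ne (h.free (hb v hv))
  exact ((Dat.R_diff (h.free (hb v hv))).comp v
    (f := fun v => C.c e + v) (by fun_prop)).differentiableWithinAt

theorem dG_zero (e : Fin γ × Bool) : C.dG e 0 = 0 ∧ C.m1 e 0 = 1 ∧ C.m2 e 0 = 1 := by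
  have h : C.dG e 0 = 0 := by simp [dG]
  refine ⟨h, ?_, ?_⟩
  · simp [m1, h]
  · simp [m2, h]

theorem Ge_eq (e : Fin γ × Bool) (v : ℂ) : C.Ge e v = C.Ge e 0 * exp (C.dG e v) := by
  rw [Ge, Ge, (dG_zero e).1, add_zero, exp_add]

theorem G0.ysq (h : C.G0) (hv : ‖v‖ ≤ 2 * C.pl.ρ e) : C.wd.yb e v ^ 2 = C.D.P (C.c e + v) := by
  obtain ⟨-, d2, d3, -, -⟩ := h.disc hv
  have h1 := h.d.R_ne (h.free hv)
  have h2 : exp (C.lg e + log (1 + v / C.τ e)) = C.τ e + v := by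
    have h3 := τ_ne (C := C) e
    rw [exp_add, exp_log (slitPlane_ne_zero (h.CfC_n hv).2.1)]
    change C.τ e * _ = _
    field_simp
  have h3 := h.d.PR_loc (h.toAdm.jj_lt e.2) d3 h2
  rw [← CfC_cv, ← CfC_Ge] at h3
  change (C.Ge e v / C.D.R (C.c e + v)) ^ 2 = _
  rw [div_pow, ← h3]
  field_simp

theorem G0.m_conj (h : C.G0) (hv : ‖v‖ ≤ 2 * C.pl.ρ e) :
    C.m1 (e.1.rev, e.2) (conj v) = conj (C.m1 e v) ∧
      C.m2 (e.1.rev, e.2) (conj v) = conj (C.m2 e v) ∧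
      C.Ge (e.1.rev, e.2) (conj v) = -conj (C.Ge e v) := by
  obtain ⟨-, d2, d3, -, -⟩ := h.disc hv
  obtain ⟨-, n1, n2⟩ := h.CfC_n hv
  have hj := h.toAdm.jj_lt e.2
  have e1 : log (1 + conj v / conj (C.τ e)) = conj (log (1 + v / C.τ e)) := by
    rw [← CfC_log n1]
    simp
  have e2 : log (1 + conj v / conj (C.c e)) = conj (log (1 + v / C.c e)) := by
    rw [← CfC_log n2]
    simp
  have e3 : C.D.lam (jj e.2) (conj (C.τ e) + conj v) = conj (C.D.lam (jj e.2) (C.τ e + v)) := by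
    rw [← h.d.lam_conj hj d3, map_add]
  have e4 := h.d.lam_conj hj (h.CfC_τ e)
  have e5 : C.dG (e.1.rev, e.2) (conj v) = conj (C.dG e v) := by
    simp only [dG, h.toAdm.τ_conj, e1, e3, e4, map_add, map_sub, map_mul, map_div₀, conj_ofReal,
      map_ofNat]
  refine ⟨?_, ?_, ?_⟩
  · simp only [m1, e5, h.toAdm.c_conj, e2, ← exp_conj, map_sub, map_div₀, map_ofNat]
  · simp only [m2, e5, h.toAdm.c_conj, e2, ← exp_conj, map_sub, map_div₀, map_ofNat, map_neg]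
  · rw [Ge, Ge, e5, h.toAdm.τ_conj, ← exp_conj, eq_neg_iff_add_eq_zero, ← neg_eq_iff_add_eq_zero,
      ← CfC_pi]
    congr 1
    simp only [e4, map_add, map_mul, map_div₀, conj_ofReal, map_ofNat, conj_I]
    obtain ⟨k, b⟩ := e
    cases b
    · simp only [(h.toAdm.lg_conj k).1]
      simp [jj, ph, sg]
      ring
    · simp only [(h.toAdm.lg_conj k).2]
      simp [jj, ph, sg]
      ring

theorem G0.m_sq (h : C.G0) (hv : ‖v‖ ≤ 2 * C.pl.ρ e) :
    C.m1 e v ^ 2 = exp (C.dG e v) * (C.c e / (C.c e + v)) ∧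
      C.m2 e v ^ 2 = exp (-C.dG e v) * (C.c e / (C.c e + v)) ∧
      C.m1 e v * C.m2 e v = C.c e / (C.c e + v) := by
  obtain ⟨-, -, -, -, d5⟩ := h.disc hv
  have h0 := (h.c_bd e).1
  have h1 : exp (-log (1 + v / C.c e)) = C.c e / (C.c e + v) := by
    rw [exp_neg, exp_log (slitPlane_ne_zero (h.CfC_n hv).2.2)]
    field_simp
  refine ⟨?_, ?_, ?_⟩
  · rw [m1, sq, ← exp_add, ← h1, ← exp_add]
    congr 1
    ring
  · rw [m2, sq, ← exp_add, ← h1, ← exp_add]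
    congr 1
    ring
  · rw [m1, m2, ← exp_add, ← h1]
    congr 1
    ring

theorem G0.f_eq (h : C.G0) (hv : ‖v‖ ≤ 2 * C.pl.ρ e) :
    C.wd.f1 e v = (C.m1 e v * C.wd.ψ₁ (C.c e + v)) ^ 2 * (C.Ge e 0 / C.c e) ∧
      C.wd.f2 e v = (C.m2 e v * C.wd.ψ₂ (C.c e + v)) ^ 2 * (C.Ge e 0 * C.c e)⁻¹ ∧
      C.wd.f3 e v = C.m1 e v * C.wd.ψ₁ (C.c e + v) * (C.m2 e v * C.wd.ψ₂ (C.c e + v)) / C.c e := by
  obtain ⟨-, -, -, -, d5⟩ := h.disc hv
  obtain ⟨a1, a2, a3⟩ := h.m_sq hv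
  have h0 := (h.c_bd e).1
  have h1 := h.d.R_ne (h.free hv)
  have h2 : C.Ge e v / C.D.R (C.c e + v) * C.D.R (C.c e + v) = C.Ge e 0 * exp (C.dG e v) := by
    rw [div_mul_cancel₀ _ h1, Ge_eq e v]
  have h3 : C.Ge e 0 ≠ 0 := exp_ne_zero _
  have h4 := exp_ne_zero (C.dG e v)
  refine ⟨?_, ?_, ?_⟩
  · change C.wd.ψ₁ (C.c e + v) ^ 2 *
      (C.Ge e v / C.D.R (C.c e + v) * C.D.R (C.c e + v) / (C.c e + v)) = _
    rw [h2, mul_pow, a1]
    field_simp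
  · change C.wd.ψ₂ (C.c e + v) ^ 2 *
      (C.Ge e v / C.D.R (C.c e + v) * C.D.R (C.c e + v) * (C.c e + v))⁻¹ = _
    rw [h2, mul_pow, a2, exp_neg]
    field_simp
  · change C.wd.ψ₁ (C.c e + v) * C.wd.ψ₂ (C.c e + v) / (C.c e + v) = _
    rw [mul_mul_mul_comm, a3]
    field_simp

theorem G0.CfC_key (h : C.G0) (k : Fin γ) :
    C.Res k ^ 2 * C.Ge (k, false) 0 * C.c (k, true) =
      -C.pl.s k * C.Ge (k, true) 0 * C.c (k, false) := by
  have c0 : C.c (k, false) = -exp (log (-C.c (k, false))) := by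
    rw [exp_log (neg_ne_zero.2 (h.c_bd (k, false)).1), neg_neg]
  have c1 : C.c (k, true) = -exp (log (-C.c (k, true))) := by
    rw [exp_log (neg_ne_zero.2 (h.c_bd (k, true)).1), neg_neg]
  have g0 : C.Ge (k, false) 0 = exp (C.D.A 0 - Real.pi / 2 * I + 3 / 2 * C.lg (k, false) +
      C.D.lam 0 (C.τ (k, false))) := by
    rw [Ge, (dG_zero _).1]
    congr 1
    simp [jj, ph, sg]
    ring
  have g1 : C.Ge (k, true) 0 = exp (C.D.A 1 + Real.pi * I - 3 / 2 * C.lg (k, true) +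
      C.D.lam 1 (C.τ (k, true))) := by
    rw [Ge, (dG_zero _).1]
    congr 1
    simp [jj, ph, sg]
    ring
  have hs : C.pl.s k = exp (C.lg (k, false)) * exp (C.lg (k, true)) * C.vs k ^ 2 := rfl
  rw [hs, Cfg.vs, g0, g1]
  generalize C.D.lam 0 (C.τ (k, false)) = l0
  generalize C.D.lam 1 (C.τ (k, true)) = l1
  generalize log (-C.c (k, false)) = x0 at c0 ⊢
  generalize log (-C.c (k, true)) = x1 at c1 ⊢
  rw [c0, c1, mul_pow, ← exp_nat_mul]
  have e1 := CfC_pi (C.D.A 0 - Real.pi / 2 * I + 3 / 2 * C.lg (k, false) + l0 + x1)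
  rw [exp_add _ x1] at e1
  have e2 : exp (C.D.A 0 - Real.pi / 2 * I + 3 / 2 * C.lg (k, false) + l0 + x1 + Real.pi * I) =
      exp (C.lg (k, false)) * exp (C.lg (k, true)) * exp ((2 : ℕ) * (-(Real.pi / 4) * I +
        ((C.D.A 0 - C.D.A 1) / 2 : ℝ) + (C.lg (k, false) + C.lg (k, true)) / 4 + (l0 - l1) / 2 +
        (x1 - x0) / 2)) * exp (C.D.A 1 + Real.pi * I - 3 / 2 * C.lg (k, true) + l1) * exp x0 := by
    simp only [← exp_add]
    congr 1
    push_cast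
    ring
  linear_combination C.Res k ^ 2 * (e2 - e1)

theorem G0.r_sq (h : C.G0) (e : Fin γ × Bool) :
    C.r1 e ^ 2 * (C.Ge e 0 / C.c e) = -C.pl.s e.1 * (C.Ge (op e) 0 / C.c (op e)) ∧
      C.r2 e ^ 2 * (C.Ge e 0 * C.c e)⁻¹ = -C.pl.s e.1 * (C.Ge (op e) 0 * C.c (op e))⁻¹ := by
  obtain ⟨k, b⟩ := e
  have key := h.CfC_key k
  have c0 := (h.c_bd (k, false)).1
  have c1 := (h.c_bd (k, true)).1
  have g0 : C.Ge (k, false) 0 ≠ 0 := exp_ne_zero _
  have g1 : C.Ge (k, true) 0 ≠ 0 := exp_ne_zero _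
  have r0 := h.Res_ne k
  have s0 := h.pl_ok.s_ne k
  have hs : C.pl.s k = -(C.Res k ^ 2 * C.Ge (k, false) 0 * C.c (k, true)) /
      (C.Ge (k, true) 0 * C.c (k, false)) := by
    rw [key]
    field_simp
  cases b
  · simp only [r1, r2, op, Bool.not_false]
    rw [hs]
    constructor <;> field_simp
  · simp only [r1, r2, op, Bool.not_true]
    rw [hs]
    constructor <;> field_simp

theorem Good.ok0 (h : C.Good) : C.wd.Ok0 := by
  have g := h.g0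
  have hb : ∀ e, ∀ v ∈ ball (0 : ℂ) (2 * C.pl.ρ e), ‖v‖ ≤ 2 * C.pl.ρ e := fun e v hv =>
    (mem_ball_zero_iff.1 hv).le
  refine ⟨h.d, lt_of_lt_of_le two_pos h.q, g.pl_ok, g.psy, fun e v hv => g.free (hb e v hv),
    fun e => (g.dG_hol e).2.2.2.2, fun e v hv => g.ysq (hb e v hv), fun e v hv => ?_,
    fun e v hv h1 h2 => ?_, fun k => ?_, h.wy, h.ce, h.co⟩
  · change C.Ge (e.1.rev, e.2) (conj v) / C.D.R (C.c (e.1.rev, e.2) + conj v) =
      -conj (C.Ge e v / C.D.R (C.c e + v))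
    rw [(g.m_conj (hb e v hv)).2.2, h.toAdm.c_conj, ← map_add, Dat.R_conj, map_div₀, neg_div]
  · obtain ⟨-, d2, d3, -, -⟩ := g.disc (hb e v hv)
    have hk : γ ≤ 2 * (e.1 : ℕ) + 1 := by
      by_contra hlt
      have h3 : (C.wd.c e).im ≤ -(2 * C.pl.ρ e) := (g.place e.1).2.2.2 (not_le.1 hlt) e.2
      have h4 := g.pl_ok.ρ_pos e
      linarith
    have h3 : log (C.τ e) = C.lg e := (h.toAdm.lg_im hk e.2).2
    have h4 : 0 ≤ (C.τ e).im := by
      have h5 : (C.wd.c e).im = (C.τ e).im := by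
        change (C.c e).im = _
        simp [c]
      rwa [h5] at h1
    have h5 : 0 ≤ (C.τ e + v).im := by
      have h6 : (C.wd.c e + v).im = (C.τ e + v).im := by
        change (C.c e + v).im = _
        simp [c]
      rwa [h6] at h2
    have h6 := h.d.G_loc (h.toAdm.jj_lt e.2) h5 d2 d3
    rw [log_near (g.CfC_n (hb e v hv)).1 h4 h5, h3, ← CfC_Ge, ← CfC_cv,
      h.d.G_eq (g.free (hb e v hv))] at h6
    change C.Ge e v / C.D.R (C.c e + v) = C.D.Y (C.c e + v)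
    rw [← h6, mul_div_cancel_right₀ _ (h.d.R_ne (g.free (hb e v hv)))]
  · obtain ⟨p1, p2, p3⟩ := g.place k
    rcases lt_trichotomy (2 * (k : ℕ) + 1) γ with h1 | h1 | h1
    · exact Or.inr (Or.inr (p3.2 h1))
    · exact Or.inl (p1 h1)
    · exact Or.inr (Or.inl (p2 h1))

end Cfg

end Pool.Agent.MP_92463a_gt

end
end

section

open Set Complex Filter Metric
open scoped Topology ComplexConjugate ContDiff Manifold

noncomputable section

namespace Pool.Agent.MP_92463a_gt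

namespace Pl

variable {ι : Type} [Fintype ι] {P : Pl ι} {m : ι × Bool → ℂ → ℂ} {r : ι × Bool → ℂ}
  {W : ι × Bool → ℝ} {F : ℂ → ℂ} {B : ℝ}

omit [Fintype ι] in
theorem PsiM_rin_lt (h : P.Ok) (e : ι × Bool) : P.rin e < P.ρ e := by
  have h1 := h.rin_pos e
  have h2 := h.rin_mu e
  have h3 := h.mu_ρ e
  linarith

theorem PsiM_pk_hol (h : P.Ok) (hm : P.Wt m) (hr : P.Con r W) (hF : P.FB F B W) (e : ι × Bool) :
    DifferentiableOn ℂ (P.pk (P.k1 m r) (P.psi (P.k1 m r) F) e) {t | P.rin e < ‖t - P.c e‖} :=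
  pk1_hol h hm (psi_fb h (k1_kb h hm hr) hF (op e)).1

theorem PsiM_loc (h : P.Ok) (hm : P.Wt m) (hr : P.Con r W) (hF : P.FB F B W)
    (hd : ∀ e, DifferentiableOn ℂ F (ball (P.c e) (2 * P.ρ e))) (e : ι × Bool) :
    ∃ D : ℂ → ℂ, DifferentiableOn ℂ D (ball 0 (P.ρ e)) ∧ ∀ u ∈ P.Ann e,
      D u = m e u * P.psi (P.k1 m r) F (P.c e + u) - r e / u *
        (m (op e) (P.s e.1 / u) * P.psi (P.k1 m r) F (P.c (op e) + P.s e.1 / u)) := by
  classical
  have heq := psi_eq h (k1_kb h hm hr) hF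
  have hpk := PsiM_pk_hol h hm hr hF
  generalize P.psi (P.k1 m r) F = f at heq hpk ⊢
  have hρ := h.ρ_pos e
  have hρ' := h.ρ_pos (op e)
  have hs := h.s_ne e.1
  have hFe : ∀ e, DifferentiableOn ℂ (fun v => F (P.c e + v)) (ball 0 (2 * P.ρ e)) := fun e =>
    (hd e).comp (by fun_prop) fun v hv => by simpa using hv
  have hf : DifferentiableOn ℂ (fun v => f (P.c (op e) + v)) (P.Ann2 (op e)) := by
    refine DifferentiableOn.congr (((hFe _).mono fun v hv => mem_ball_zero_iff.2 hv.2).add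
      (DifferentiableOn.fun_sum (u := Finset.univ) fun e' _ =>
        (hpk e').comp (f := fun v => P.c (op e) + v) (by fun_prop)
          fun v hv => h.ann2_mem hv e')) fun v _ => heq _
  have hrin : ‖P.s e.1‖ / P.rin (op e) = P.ρ e := by
    have := h.rin_mul (op e)
    rw [op_op, op_fst] at this
    rw [← this, mul_div_cancel_left₀ _ (h.rin_pos _).ne']
  have hlt : ∀ v ∈ P.Ann2 (op e), ‖P.s e.1 / v‖ < 2 * P.ρ e := by
    intro v hv
    have : ‖P.s e.1‖ / ‖v‖ ≤ P.ρ e := by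
      rw [← hrin]
      exact div_le_div_of_nonneg_left (norm_nonneg _) (h.rin_pos _) hv.1.le
    rw [norm_div]
    linarith
  have hk : DifferentiableOn ℂ
      (fun v => r e * m (op e) v * f (P.c (op e) + v) / m e (P.s e.1 / v)) (P.Ann2 (op e)) := by
    refine DifferentiableOn.div ((((hm.hol _).mono fun v hv =>
      mem_ball_zero_iff.2 hv.2).const_mul _).mul hf) ((hm.hol e).comp
        ((differentiableOn_const _).div differentiableOn_id fun v hv =>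
          norm_pos_iff.1 ((h.rin_pos _).trans hv.1)) fun v hv => mem_ball_zero_iff.2 (hlt v hv))
      fun v hv => (hm.ne (hlt v hv)).1
  obtain ⟨g, hg, hg'⟩ := laurent hs (h.rin_pos (op e)) (PsiM_rin_lt h _)
    (by linarith : P.ρ (op e) < 2 * P.ρ (op e)) hk
  rw [hrin] at hg hg'
  have hsub : ball (0 : ℂ) (P.ρ e) ⊆ ball 0 (2 * P.ρ e) := ball_subset_ball (by linarith)
  refine ⟨fun u => m e u * (F (P.c e + u) +
    ∑ e' ∈ Finset.univ.erase e, P.pk (P.k1 m r) f e' (P.c e + u) - g u), ?_, fun u hu => ?_⟩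
  · refine ((hm.hol e).mono hsub).mul ((((hFe e).mono hsub).add
      (DifferentiableOn.fun_sum fun e' he' =>
        (hpk e').comp (f := fun v => P.c e + v) (by fun_prop) fun v hv => ?_)).sub hg)
    have h1 := h.far (Finset.ne_of_mem_erase he').symm (mem_ball_zero_iff.1 (hsub hv)).le
    have h2 := PsiM_rin_lt h e'
    have h3 := h.ρ_pos e'
    change P.rin e' < ‖P.c e + v - P.c e'‖
    linarith
  · have hu0 := h.ann_ne hu
    have hmu := (hm.ne (e := e) (v := u) (by linarith [hu.2])).1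
    have h1 := hg' u hu.1 hu.2
    have h2 : P.pk (P.k1 m r) f e (P.c e + u) = av (P.ρ (op e)) fun v =>
        r e * m (op e) v * f (P.c (op e) + v) / m e (P.s e.1 / v) / (u - P.s e.1 / v) := by
      simp only [pk, k1, add_sub_cancel_left, div_div, div_mul_eq_mul_div]
    have h3 : P.s e.1 / (P.s e.1 / u) = u := by field_simp
    rw [← h2, h3] at h1
    have h4 := heq (P.c e + u)
    rw [← Finset.add_sum_erase _ _ (Finset.mem_univ e)] at h4
    have h5 : r e / u * (m (op e) (P.s e.1 / u) * f (P.c (op e) + P.s e.1 / u)) =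
        m e u * (g u + P.pk (P.k1 m r) f e (P.c e + u)) := by
      rw [← h1]
      field_simp
    rw [h5, h4]
    ring

omit [Fintype ι] in
theorem PsiM_pk_conj (h : P.Ok) {κ : ι → ι} (hs : P.Sy κ)
    (sm : ∀ e : ι × Bool, ∀ v ∈ ball (0 : ℂ) (2 * P.ρ e), m (κ e.1, e.2) (conj v) = conj (m e v))
    (sr : ∀ e : ι × Bool, r (κ e.1, e.2) = conj (r e)) (f : ℂ → ℂ) (e : ι × Bool) (t : ℂ) :
    P.pk (P.k1 m r) (fun t => conj (f (conj t))) e t =
      conj (P.pk (P.k1 m r) f (κ e.1, e.2) (conj t)) := by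
  have hρ := h.ρ_pos e
  have hρ' := h.ρ_pos (op e)
  have e1 : op (κ e.1, e.2) = (κ (op e).1, (op e).2) := rfl
  simp only [pk]
  rw [← av_conj, e1, hs.ρ]
  refine av_congr hρ'.le fun v hv => ?_
  have h1 := sm (op e) v (mem_ball_zero_iff.2 (by linarith))
  have h2 := sm e (P.s e.1 / v) (mem_ball_zero_iff.2 (by
    have := PsiM_rin_lt h e
    rw [h.circ_rin hv]
    linarith))
  rw [map_div₀] at h2
  simp only [k1, e1, hs.c, hs.s, sr, h1, h2, map_mul, map_div₀, map_sub, map_add, conj_conj]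

theorem psi_match (h : P.Ok) (hm : P.Wt m) (hr : P.Con r W) (hF : P.FB F B W)
    (hrr : ∀ e, r e * r (op e) = P.s e.1)
    (hd : ∀ e, DifferentiableOn ℂ F (ball (P.c e) (2 * P.ρ e))) :
    P.Mt 1 m r (P.psi (P.k1 m r) F) := by
  choose D hD hD' using PsiM_loc h hm hr hF hd
  intro e v hv
  have hs := h.s_ne e.1
  have h0 := liouville_glue (a := -r e) (d := 1) one_pos (h.ρ_pos (op e)) hs (by
    have := h.s_small e
    have := norm_pos_iff.2 hs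
    linarith) (hD e) (hD (op e)) (fun u h1 h2 => by
      have hu : u ∈ P.Ann e := ⟨h1, h2⟩
      have hu0 := h.ann_ne hu
      have h3 : P.s e.1 / (P.s e.1 / u) = u := by field_simp
      have h4 : r e / u * (r (op e) / (P.s e.1 / u)) = 1 := by
        field_simp
        exact hrr e
      rw [hD' e u hu, hD' _ _ (h.ann_op hu), op_op, op_fst, h3, pow_one]
      linear_combination -(m e u * P.psi (P.k1 m r) F (P.c e + u)) * h4) v
    (mem_ball_zero_iff.2 hv.2)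
  rw [hD' e v hv] at h0
  rw [pow_one]
  exact sub_eq_zero.1 h0

theorem psi_conj (h : P.Ok) (hm : P.Wt m) (hr : P.Con r W) (hF : P.FB F B W) {κ : ι → ι}
    (hs : P.Sy κ)
    (sm : ∀ e : ι × Bool, ∀ v ∈ ball (0 : ℂ) (2 * P.ρ e), m (κ e.1, e.2) (conj v) = conj (m e v))
    (sr : ∀ e : ι × Bool, r (κ e.1, e.2) = conj (r e)) (sF : ∀ t, F (conj t) = conj (F t))
    (t : ℂ) :
    ∑ e, P.pk (P.k1 m r) (P.psi (P.k1 m r) F) e (conj t) =
      conj (∑ e, P.pk (P.k1 m r) (P.psi (P.k1 m r) F) e t) := by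
  have hκ := k1_kb h hm hr
  have heq := psi_eq h hκ hF
  have hfb := psi_fb h hκ hF
  have hun := fun f => psi_uniq h hκ hF (f := f)
  generalize P.psi (P.k1 m r) F = f at heq hfb hun ⊢
  have hinv : Function.Involutive fun e : ι × Bool => (κ e.1, e.2) := fun e => by
    simp only [hs.inv]
  have hsum : ∀ t, ∑ e, P.pk (P.k1 m r) (fun t => conj (f (conj t))) e t =
      conj (∑ e, P.pk (P.k1 m r) f e (conj t)) := by
    intro t
    rw [map_sum]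
    simp only [PsiM_pk_conj h hs sm sr]
    exact hinv.bijective.sum_comp fun e => conj (P.pk (P.k1 m r) f e (conj t))
  have hg := hun (fun t => conj (f (conj t))) (fun e => ?_) fun e v _ => ?_
  · have := hsum (conj t)
    rw [conj_conj] at this
    rw [← this]
    exact Finset.sum_congr rfl fun e _ =>
      av_congr (h.ρ_pos _).le fun v hv => by simp only [hg _ v hv]
  · simp only [map_add, ← hs.c]
    refine continuous_conj.comp_continuousOn (((hfb (κ e.1, e.2)).1).comp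
      continuous_conj.continuousOn fun v hv => ?_)
    simpa [hs.ρ] using hv
  · rw [hsum, heq, map_add, sF, conj_conj]

theorem psi_hol (h : P.Ok) (hm : P.Wt m) (hr : P.Con r W) (hF : P.FB F B W) :
    DifferentiableOn ℂ (fun t => ∑ e, P.pk (P.k1 m r) (P.psi (P.k1 m r) F) e t) P.Om ∧
      Tendsto (fun t => ∑ e, P.pk (P.k1 m r) (P.psi (P.k1 m r) F) e t) (Bornology.cobounded ℂ)
        (𝓝 0) := by
  refine ⟨DifferentiableOn.fun_sum fun e _ => (PsiM_pk_hol h hm hr hF e).mono fun t ht => ht e, ?_⟩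
  simpa using tendsto_finsetSum Finset.univ fun e _ =>
    pk1_infty (r := r) (e := e) h hm (psi_fb h (k1_kb h hm hr) hF (op e)).1

end Pl

end Pool.Agent.MP_92463a_gt

end
end

section

open Set Complex Filter Metric
open scoped Topology ComplexConjugate ContDiff Manifold

noncomputable section

namespace Pool.Agent.MP_92463a_gt

namespace Cfg

variable {γ : ℕ} {C : Cfg γ}

theorem CfD_b0 (h : C.Good) {e : Fin γ × Bool} {v : ℂ} (hv : ‖v‖ ≤ 2 * C.pl.ρ e) :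
    C.c e + v + C.D.b 0 ≠ 0 :=
  (h.ok0.b0 (t := C.c e + v) fun h1 => h.g0.free hv (C.D.P_eq_zero.2 (Or.inl h1))).1

theorem CfD_bg_diff {t : ℂ} (ht : t + C.D.b 0 ≠ 0) : DifferentiableAt ℂ C.bg t := by
  unfold bg
  exact (differentiableAt_const _).add ((differentiableAt_const _).div
    (differentiableAt_id.add_const _) ht)

theorem CfD_bg_hol (h : C.Good) (e : Fin γ × Bool) :
    DifferentiableOn ℂ C.bg (ball (C.pl.c e) (2 * C.pl.ρ e)) := by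
  intro t ht
  have h1 := CfD_b0 h (e := e) (v := t - C.c e) (mem_ball_iff_norm.1 ht).le
  rw [add_sub_cancel] at h1
  exact (CfD_bg_diff h1).differentiableWithinAt

theorem Good.fb1 (h : C.Good) : C.pl.FB C.bg 2 C.W1 := by
  refine fun e => ⟨fun v hv => ?_, h.bg e⟩
  have hρ := h.g0.pl_ok.ρ_pos e
  have hv' : ‖v‖ = C.pl.ρ e := hv
  have h1 := (CfD_bg_diff (CfD_b0 h (e := e) (v := v) (by linarith))).continuousAt
  exact (ContinuousAt.comp (f := fun v : ℂ => C.c e + v) h1 (by fun_prop)).continuousWithinAt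

theorem Good.fb2 (h : C.Good) : C.pl.FB (fun _ => 1) 1 C.W2 := by
  refine fun e => ⟨continuousOn_const, fun v _ => ?_⟩
  have hL := h.L
  rw [norm_one, one_mul, W2]
  split_ifs
  · exact Real.one_le_exp (by linarith)
  · exact le_rfl

theorem CfD_psi1 (h : C.Good) (t : ℂ) : C.pl.psi (C.pl.k1 C.m1 C.r1) C.bg t = C.bg t +
    ∑ e, C.pl.pk (C.pl.k1 C.m1 C.r1) (C.pl.psi (C.pl.k1 C.m1 C.r1) C.bg) e t :=
  Pl.psi_eq h.g0.pl_ok (Pl.k1_kb h.g0.pl_ok h.w1 h.c1) h.fb1 t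

theorem Good.ψ₁_eq (h : C.Good) : C.wd.ψ₁ = C.pl.psi (C.pl.k1 C.m1 C.r1) C.bg := by
  funext t
  rw [CfD_psi1 h t]
  change 1 + ∑ e, C.pl.pk (C.pl.k1 C.m1 C.r1) (C.pl.psi (C.pl.k1 C.m1 C.r1) C.bg) e t +
    C.ℓ * C.D.b 0 / (t + C.D.b 0) = _
  rw [Cfg.bg]
  ring

theorem Good.χ_eq (h : C.Good) (t : ℂ) :
    C.wd.χ t = 1 + ∑ e, C.pl.pk (C.pl.k1 C.m1 C.r1) C.wd.ψ₁ e t := by
  rw [h.ψ₁_eq]
  rfl

theorem Good.ψ₂_eq (h : C.Good) (t : ℂ) :
    C.wd.ψ₂ t = 1 + ∑ e, C.pl.pk (C.pl.k1 C.m2 C.r2) C.wd.ψ₂ e t :=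
  Pl.psi_eq h.g0.pl_ok (Pl.k1_kb h.g0.pl_ok h.w2 h.c2) h.fb2 t

theorem Good.ψ_fb (h : C.Good) : C.pl.FB C.wd.ψ₁ 4 C.W1 ∧ C.pl.FB C.wd.ψ₂ 2 C.W2 := by
  have h1 := Pl.psi_fb h.g0.pl_ok (Pl.k1_kb h.g0.pl_ok h.w1 h.c1) h.fb1
  have h2 := Pl.psi_fb h.g0.pl_ok (Pl.k1_kb h.g0.pl_ok h.w2 h.c2) h.fb2
  rw [show (2 : ℝ) * 2 = 4 by norm_num] at h1
  rw [mul_one] at h2
  rw [h.ψ₁_eq]
  exact ⟨h1, h2⟩

theorem Good.mt (h : C.Good) : C.pl.Mt 1 C.m1 C.r1 C.wd.ψ₁ ∧ C.pl.Mt 1 C.m2 C.r2 C.wd.ψ₂ := by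
  rw [h.ψ₁_eq]
  exact ⟨Pl.psi_match h.g0.pl_ok h.w1 h.c1 h.fb1 (fun e => (h.g0.r_mul e).1) (CfD_bg_hol h),
    Pl.psi_match h.g0.pl_ok h.w2 h.c2 h.fb2 (fun e => (h.g0.r_mul e).2.1)
      fun _ => differentiableOn_const _⟩

theorem CfD_ψ₂_fun (h : C.Good) : C.wd.ψ₂ = fun t => 1 +
    ∑ e, C.pl.pk (C.pl.k1 C.m2 C.r2) (C.pl.psi (C.pl.k1 C.m2 C.r2) fun _ => 1) e t :=
  funext h.ψ₂_eq

theorem CfD_χ (h : C.Good) : DifferentiableOn ℂ C.wd.χ C.pl.Om ∧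
    Tendsto C.wd.χ (Bornology.cobounded ℂ) (𝓝 1) := by
  obtain ⟨h1, h2⟩ := Pl.psi_hol h.g0.pl_ok h.w1 h.c1 h.fb1
  refine ⟨h1.const_add 1, ?_⟩
  have := h2.const_add 1
  rw [add_zero] at this
  exact this

theorem CfD_ψ (h : C.Good) : DifferentiableOn ℂ C.wd.ψ₂ C.pl.Om ∧
    Tendsto C.wd.ψ₂ (Bornology.cobounded ℂ) (𝓝 1) := by
  obtain ⟨h1, h2⟩ := Pl.psi_hol h.g0.pl_ok h.w2 h.c2 h.fb2
  rw [CfD_ψ₂_fun h]
  refine ⟨h1.const_add 1, ?_⟩
  have := h2.const_add 1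
  rw [add_zero] at this
  exact this

theorem CfD_hol (h : C.Good) (e : Fin γ × Bool) :
    DifferentiableOn ℂ (fun v => C.m1 e v * C.wd.ψ₁ (C.c e + v)) (C.pl.Ann2 e) ∧
      DifferentiableOn ℂ (fun v => C.m2 e v * C.wd.ψ₂ (C.c e + v)) (C.pl.Ann2 e) := by
  have hP := h.g0.pl_ok
  have hs : C.pl.Ann2 e ⊆ ball 0 (2 * C.pl.ρ e) := fun v hv => mem_ball_zero_iff.2 hv.2
  refine ⟨((h.w1.hol e).mono hs).mul fun v hv => ?_, ((h.w2.hol e).mono hs).mul fun v hv => ?_⟩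
  · have h1 := (CfD_χ h).1.differentiableAt (Pl.isOpen_om.mem_nhds (hP.ann2_mem hv))
    have h2 : DifferentiableAt ℂ C.wd.ψ₁ (C.c e + v) := by
      unfold Wd.ψ₁
      exact h1.add ((differentiableAt_const _).div (differentiableAt_id.add_const _)
        (CfD_b0 h hv.2.le))
    exact (DifferentiableAt.comp (f := fun v : ℂ => C.c e + v) v h2
      (by fun_prop)).differentiableWithinAt
  · have h1 := (CfD_ψ h).1.differentiableAt (Pl.isOpen_om.mem_nhds (hP.ann2_mem hv))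
    exact (DifferentiableAt.comp (f := fun v : ℂ => C.c e + v) v h1
      (by fun_prop)).differentiableWithinAt

theorem CfD_le (h : C.Good) {e : Fin γ × Bool} {v : ℂ} (hv : v ∈ C.pl.Ann e) :
    ‖v‖ ≤ 2 * C.pl.ρ e ∧ ‖C.pl.s e.1 / v‖ ≤ 2 * C.pl.ρ (op e) :=
  ⟨(h.g0.pl_ok.ann_sub e hv).2.le, (h.g0.pl_ok.ann_sub _ (h.g0.pl_ok.ann_op hv)).2.le⟩

theorem CfD_mf1 (h : C.Good) : C.pl.MF C.wd.f1 := by
  refine ⟨fun e => (((CfD_hol h e).1.pow 2).mul_const (C.Ge e 0 / C.c e)).congr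
    fun v hv => (h.g0.f_eq hv.2.le).1, fun e v hv => ?_⟩
  have h1 : C.m1 e v * C.wd.ψ₁ (C.c e + v) = C.r1 e / v ^ 1 *
    (C.m1 (op e) (C.pl.s e.1 / v) * C.wd.ψ₁ (C.c (op e) + C.pl.s e.1 / v)) := h.mt.1 e v hv
  rw [(h.g0.f_eq (CfD_le h hv).1).1, (h.g0.f_eq (CfD_le h hv).2).1, h1]
  have h2 := (h.g0.r_sq e).1
  linear_combination (C.m1 (op e) (C.pl.s e.1 / v) *
    C.wd.ψ₁ (C.c (op e) + C.pl.s e.1 / v)) ^ 2 / v ^ 2 * h2

theorem CfD_mf2 (h : C.Good) : C.pl.MF C.wd.f2 := by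
  refine ⟨fun e => (((CfD_hol h e).2.pow 2).mul_const (C.Ge e 0 * C.c e)⁻¹).congr
    fun v hv => (h.g0.f_eq hv.2.le).2.1, fun e v hv => ?_⟩
  have h1 : C.m2 e v * C.wd.ψ₂ (C.c e + v) = C.r2 e / v ^ 1 *
    (C.m2 (op e) (C.pl.s e.1 / v) * C.wd.ψ₂ (C.c (op e) + C.pl.s e.1 / v)) := h.mt.2 e v hv
  rw [(h.g0.f_eq (CfD_le h hv).1).2.1, (h.g0.f_eq (CfD_le h hv).2).2.1, h1]
  have h2 := (h.g0.r_sq e).2
  linear_combination (C.m2 (op e) (C.pl.s e.1 / v) *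
    C.wd.ψ₂ (C.c (op e) + C.pl.s e.1 / v)) ^ 2 / v ^ 2 * h2

theorem CfD_mf3 (h : C.Good) : C.pl.MF C.wd.f3 := by
  refine ⟨fun e => (((CfD_hol h e).1.mul (CfD_hol h e).2).div_const (C.c e)).congr
    fun v hv => (h.g0.f_eq hv.2.le).2.2, fun e v hv => ?_⟩
  have h1 : C.m1 e v * C.wd.ψ₁ (C.c e + v) = C.r1 e / v ^ 1 *
    (C.m1 (op e) (C.pl.s e.1 / v) * C.wd.ψ₁ (C.c (op e) + C.pl.s e.1 / v)) := h.mt.1 e v hv
  have h2 : C.m2 e v * C.wd.ψ₂ (C.c e + v) = C.r2 e / v ^ 1 *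
    (C.m2 (op e) (C.pl.s e.1 / v) * C.wd.ψ₂ (C.c (op e) + C.pl.s e.1 / v)) := h.mt.2 e v hv
  rw [(h.g0.f_eq (CfD_le h hv).1).2.2, (h.g0.f_eq (CfD_le h hv).2).2.2, h1, h2]
  have h3 := (h.g0.r_mul e).2.2
  have h4 := (h.g0.c_bd e).1
  have h5 : C.r1 e * C.r2 e / C.c e = -C.pl.s e.1 / C.c (op e) := by
    rw [h3]
    field_simp
  linear_combination (C.m1 (op e) (C.pl.s e.1 / v) * C.wd.ψ₁ (C.c (op e) + C.pl.s e.1 / v)) *
    (C.m2 (op e) (C.pl.s e.1 / v) * C.wd.ψ₂ (C.c (op e) + C.pl.s e.1 / v)) / v ^ 2 * h5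

theorem Good.ok1 (h : C.Good) : C.wd.Ok1 := by
  have hP := h.g0.pl_ok
  refine ⟨h.ok0, (CfD_χ h).1, (CfD_ψ h).1, (CfD_χ h).2, (CfD_ψ h).2, fun t _ => ?_,
    fun t _ => ?_, CfD_mf1 h, CfD_mf2 h, CfD_mf3 h⟩
  · have h1 := Pl.psi_conj hP h.w1 h.c1 h.fb1 h.g0.psy
      (fun e v hv => (h.g0.m_conj (mem_ball_zero_iff.1 hv).le).1) (fun e => (h.g0.r_conj e).1)
      (fun t => by simp [Cfg.bg]) t
    change 1 + _ = conj (1 + _)
    rw [h1, map_add, map_one]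
  · have h1 := Pl.psi_conj hP h.w2 h.c2 h.fb2 h.g0.psy
      (fun e v hv => (h.g0.m_conj (mem_ball_zero_iff.1 hv).le).2.1) (fun e => (h.g0.r_conj e).2)
      (fun t => by simp) t
    rw [CfD_ψ₂_fun h]
    change 1 + _ = conj (1 + _)
    rw [h1, map_add, map_one]

end Cfg

end Pool.Agent.MP_92463a_gt

end
end
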