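import Pool.Agent.Mg.F92463a.Gf77392

section

open Set Complex Filter Metric
open scoped Topology ComplexConjugate ContDiff Manifold

noncomputable section

namespace Pool.Agent.MP_92463a_gt

variable {γ : ℕ} {T : Type} [TopologicalSpace T] {S : Set T} {C : T → Cfg γ} {L : ℝ} {p q : ℕ}

theorem CfK1_g0 (h : CC S C L p q) {x : T} (hx : x ∈ S) : (C x).G0 := (h.fine x hx).1.toGood.g0

theorem CC.tends (h : CC S C L p q) {x₀ : T} (hx : x₀ ∈ S) :
    Dat.Tends (𝓝[S] x₀) (fun x => (C x).D) (C x₀).D := by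
  obtain ⟨-, -, hp, hq⟩ := h.fine x₀ hx
  refine ⟨(CfK1_g0 h hx).d, ?_, fun i hi => h.a i (hp ▸ hi) x₀ hx,
    fun j hj => h.b j (hq ▸ hj) x₀ hx, h.ρ x₀ hx⟩
  filter_upwards [self_mem_nhdsWithin] with x hx'
  exact ⟨(CfK1_g0 h hx').d, (h.fine x hx').2.2.1.trans hp.symm, (h.fine x hx').2.2.2.trans hq.symm⟩

theorem CfK1_mean : Continuous fun z : Zs γ => z.mean := by
  unfold Zs.mean
  fun_prop

theorem CfK1_eh (k : Fin γ) : Continuous fun z : Zs γ => z.eh k := by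
  unfold Zs.eh
  fun_prop

theorem CfK1_lu (e : Fin γ × Bool) : Continuous fun z : Zs γ => z.lu e := by
  have := CfK1_mean (γ := γ)
  obtain ⟨k, _ | _⟩ := e <;> simp only [Zs.lu, Zs.ξ] <;> fun_prop

theorem CfK1_b (h : CC S C L p q) (b : Bool) : ContinuousOn (fun x => (C x).bb b) S :=
  fun _ hx => (h.tends hx).b _ ((CfK1_g0 h hx).toAdm.jj_lt b)

theorem CfK1_A (h : CC S C L p q) (b : Bool) : ContinuousOn (fun x => (C x).D.A (jj b)) S :=
  fun _ hx => (h.tends hx).A ((CfK1_g0 h hx).toAdm.jj_lt b)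

theorem CfK1_L (h : CC S C L p q) : ContinuousOn (fun x => (C x).L) S :=
  continuousOn_const.congr fun x hx => (h.fine x hx).2.1

theorem CfK1_bpos (h : CC S C L p q) (b : Bool) {x : T} (hx : x ∈ S) : 0 < (C x).bb b :=
  ((CfK1_g0 h hx).toAdm.bb b).1.trans_le ((CfK1_g0 h hx).toAdm.bb b).2.1

theorem CfK1_E (h : CC S C L p q) : ContinuousOn (fun x => (C x).E) S :=
  (((CfK1_b h true).div (CfK1_b h false) fun _ hx => (CfK1_bpos h false hx).ne').log
    fun _ hx => (div_pos (CfK1_bpos h true hx) (CfK1_bpos h false hx)).ne').div_const _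

theorem CfK1_re {f : T → ℝ} (hf : ContinuousOn f S) : ContinuousOn (fun x => (f x : ℂ)) S :=
  continuous_ofReal.comp_continuousOn hf

theorem CfK1_lg (h : CC S C L p q) (e : Fin γ × Bool) : ContinuousOn (fun x => (C x).lg e) S := by
  have hk : ContinuousOn (fun x => (C x).lk e.2) S := by
    unfold Cfg.lk
    split_ifs
    · exact continuousOn_const.mul ((((CfK1_A h false).add (CfK1_A h true)).add
        ((CfK1_b h false).log fun _ hx => (CfK1_bpos h false hx).ne')).sub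
        ((CfK1_b h true).log fun _ hx => (CfK1_bpos h true hx).ne'))
    · exact continuousOn_const
  exact (CfK1_re ((continuousOn_const.mul (CfK1_L h)).add hk)).add
    ((CfK1_lu e).comp_continuousOn h.z)

theorem CfK1_τ (h : CC S C L p q) (e : Fin γ × Bool) : ContinuousOn (fun x => (C x).τ e) S :=
  (CfK1_lg h e).cexp

theorem CfK1_c (h : CC S C L p q) (e : Fin γ × Bool) : ContinuousOn (fun x => (C x).c e) S :=
  (CfK1_re (CfK1_b h e.2)).neg.add (CfK1_τ h e)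

theorem CfK1_lam (h : CC S C L p q) (e : Fin γ × Bool) :
    ContinuousOn (fun x => (C x).D.lam (jj e.2) ((C x).τ e)) S := fun x hx => by
  have g := CfK1_g0 h hx
  refine (h.tends hx).lam (g.toAdm.jj_lt e.2) (CfK1_τ h e x hx) ?_
  have := g.τ e
  have := (g.toAdm.bb e.2).1
  linarith

theorem CfK1_Res (h : CC S C L p q) (k : Fin γ) : ContinuousOn (fun x => (C x).Res k) S :=
  (CfK1_re ((CfK1_b h false).mul ((CfK1_E h).div (CfK1_L h)
    fun _ hx => (zero_lt_one.trans_le (CfK1_g0 h hx).L).ne'))).mul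
      ((CfK1_eh k).comp_continuousOn h.z)

theorem CfK1_lc (h : CC S C L p q) (e : Fin γ × Bool) :
    ContinuousOn (fun x => log (-(C x).c e)) S :=
  (CfK1_c h e).neg.clog fun x hx => Or.inl <| by
    have := ((CfK1_g0 h hx).c_bd e).2.1
    have := CfK1_bpos h e.2 hx
    exact lt_of_lt_of_le (by positivity) ‹99 / 100 * (C x).bb e.2 ≤ _›

theorem CfK1_vs (h : CC S C L p q) (k : Fin γ) : ContinuousOn (fun x => (C x).vs k) S :=
  (CfK1_Res h k).mul ((((continuousOn_const.add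
    (CfK1_re (((CfK1_A h false).sub (CfK1_A h true)).div_const 2))).add
    (((CfK1_lg h (k, false)).add (CfK1_lg h (k, true))).div_const 4)).add
    (((CfK1_lam h (k, false)).sub (CfK1_lam h (k, true))).div_const 2)).add
    (((CfK1_lc h (k, true)).sub (CfK1_lc h (k, false))).div_const 2)).cexp

theorem CfK1_s (h : CC S C L p q) (k : Fin γ) : ContinuousOn (fun x => (C x).pl.s k) S :=
  ((CfK1_τ h (k, false)).mul (CfK1_τ h (k, true))).mul ((CfK1_vs h k).pow 2)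

theorem CfK1_q (h : CC S C L p q) (k : Fin γ) :
    ContinuousOn (fun x => -((C x).c (k, true) / (C x).c (k, false)) * (C x).Res k) S :=
  ((CfK1_c h (k, true)).div (CfK1_c h (k, false))
    fun _ hx => ((CfK1_g0 h hx).c_bd _).1).neg.mul (CfK1_Res h k)

theorem CC.basic (h : CC S C L p q) (e : Fin γ × Bool) :
    ContinuousOn (fun x => (C x).E) S ∧ ContinuousOn (fun x => (C x).bb e.2) S ∧
    ContinuousOn (fun x => (C x).lg e) S ∧ ContinuousOn (fun x => (C x).τ e) S ∧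
    ContinuousOn (fun x => (C x).c e) S ∧ ContinuousOn (fun x => (C x).vs e.1) S ∧
    ContinuousOn (fun x => (C x).pl.s e.1) S ∧ ContinuousOn (fun x => (C x).pl.ρ e) S ∧
    ContinuousOn (fun x => (C x).r1 e) S ∧ ContinuousOn (fun x => (C x).r2 e) S ∧
    ContinuousOn (fun x => (C x).ℓ) S ∧ ContinuousOn (fun x => (C x).θ0 e.1) S ∧
    ContinuousOn (fun x => (C x).wp e) S ∧ ContinuousOn (fun x => (C x).Ge e 0) S := by
  refine ⟨CfK1_E h, CfK1_b h _, CfK1_lg h e, CfK1_τ h e, CfK1_c h e, CfK1_vs h _, CfK1_s h _,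
    (CfK1_τ h e).norm.div_const _, ?_, ?_, ?_, ?_,
    (CfK1_c h e).add ((CfK1_τ h e).mul (CfK1_vs h _)), ?_⟩
  · obtain ⟨k, _ | _⟩ := e
    · exact CfK1_Res h k
    · exact (CfK1_s h k).div (CfK1_Res h k) fun _ hx => (CfK1_g0 h hx).Res_ne k
  · obtain ⟨k, _ | _⟩ := e
    · exact (CfK1_s h k).div (CfK1_q h k) fun _ hx => mul_ne_zero (neg_ne_zero.2
        (div_ne_zero ((CfK1_g0 h hx).c_bd _).1 ((CfK1_g0 h hx).c_bd _).1)) ((CfK1_g0 h hx).Res_ne k)
    · exact CfK1_q h k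
  · exact (((CfK1_E h).mul (continuousOn_const.add (continuous_re.comp_continuousOn
      (CfK1_mean.comp_continuousOn h.z)))).div (CfK1_L h)
      fun _ hx => (zero_lt_one.trans_le (CfK1_g0 h hx).L).ne').neg
  · exact (continuousOn_const.mul (CfK1_re ((CfK1_b h false).mul (CfK1_A h false).rexp))).mul
      ((CfK1_lg h _).div_const 2).cexp
  · simp only [Cfg.Ge, (Cfg.dG_zero e).1]
    exact (((((CfK1_re (CfK1_A h e.2)).add continuousOn_const).add
      (continuousOn_const.mul (CfK1_lg h e))).add (CfK1_lam h e)).add continuousOn_const).cexp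

theorem CfK1_slit {w : ℂ} (hw : ‖w‖ < 1) : 1 + w ∈ slitPlane := mem_slitPlane_of_norm_lt_one hw

theorem CC.m (h : CC S C L p q) (e : Fin γ × Bool) :
    ContinuousOn (fun z : T × ℂ => (C z.1).m1 e z.2) {z | z.1 ∈ S ∧ ‖z.2‖ < 2 * (C z.1).pl.ρ e} ∧
    ContinuousOn (fun z : T × ℂ => (C z.1).m2 e z.2)
      {z | z.1 ∈ S ∧ ‖z.2‖ < 2 * (C z.1).pl.ρ e} := by
  set U : Set (T × ℂ) := {z | z.1 ∈ S ∧ ‖z.2‖ < 2 * (C z.1).pl.ρ e} with hU
  have hf : ∀ {f : T → ℂ}, ContinuousOn f S → ContinuousOn (fun z : T × ℂ => f z.1) U :=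
    fun hf => hf.comp continuousOn_fst fun z hz => hz.1
  have hτ := hf (CfK1_τ h e)
  have h1 : ContinuousOn (fun z : T × ℂ => log (1 + z.2 / (C z.1).τ e)) U :=
    (continuousOn_const.add (continuousOn_snd.div hτ fun z _ => Cfg.τ_ne e)).clog fun z hz => by
      refine CfK1_slit ?_
      have := ((CfK1_g0 h hz.1).disc hz.2.le).1
      have h0 : 0 < ‖(C z.1).τ e‖ := norm_pos_iff.2 (Cfg.τ_ne e)
      change ‖z.2 / (C z.1).τ e‖ < 1
      rw [norm_div, div_lt_one h0]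
      linarith
  have h2 : ContinuousOn (fun z : T × ℂ => log (1 + z.2 / (C z.1).c e)) U :=
    (continuousOn_const.add (continuousOn_snd.div (hf (CfK1_c h e))
      fun z hz => ((CfK1_g0 h hz.1).c_bd e).1)).clog fun z hz =>
        CfK1_slit (((CfK1_g0 h hz.1).disc hz.2.le).2.2.2.1.trans_lt (by norm_num))
  have h3 : ContinuousOn (fun z : T × ℂ => (C z.1).D.lam (jj e.2) ((C z.1).τ e + z.2)) U :=
    fun z hz => ((h.tends hz.1).comp (φ := Prod.fst) (l' := 𝓝[U] z)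
      (continuousWithinAt_fst.tendsto_nhdsWithin fun z hz => hz.1)).lam
      ((CfK1_g0 h hz.1).toAdm.jj_lt e.2) ((hτ.add continuousOn_snd) z hz)
      ((CfK1_g0 h hz.1).disc hz.2.le).2.2.1
  have h4 : ContinuousOn (fun z : T × ℂ => (C z.1).dG e z.2) U :=
    (continuousOn_const.mul h1).add (h3.sub (hf (CfK1_lam h e)))
  exact ⟨((h4.sub h2).div_const 2).cexp, ((h4.neg.sub h2).div_const 2).cexp⟩

theorem CC.G (h : CC S C L p q) : ContinuousOn (fun z : T × ℂ => (C z.1).D.G z.2)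
    {z | z.1 ∈ S ∧ 0 ≤ z.2.im ∧ (C z.1).D.P z.2 ≠ 0} := fun _ hz =>
  ((h.tends hz.1).comp (φ := Prod.fst)
    (continuousWithinAt_fst.tendsto_nhdsWithin fun _ hz => hz.1)).G continuousWithinAt_snd
    (eventually_nhdsWithin_of_forall fun _ hz => hz.2.1) hz.2.1 hz.2.2

end Pool.Agent.MP_92463a_gt

end
end

section

open Set Complex Filter Metric
open scoped Topology ComplexConjugate ContDiff Manifold

noncomputable section

namespace Pool.Agent.MP_92463a_gt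

variable {γ : ℕ} {T : Type} [TopologicalSpace T] {S : Set T} {C : T → Cfg γ} {L : ℝ} {p q : ℕ}
  [FirstCountableTopology T]

theorem CfK2_sum {ι : Type} [Fintype ι] {P : T → Pl ι} {m : T → ι × Bool → ℂ → ℂ}
    {r : T → ι × Bool → ℂ} {F : T → ℂ → ℂ} {B : ℝ} {W : ι × Bool → ℝ}
    (h : ∀ x ∈ S, (P x).Ok ∧ (P x).Wt (m x) ∧ (P x).Con (r x) W ∧ (P x).FB (F x) B W)
    (hc : ∀ e, ContinuousOn (fun x => (P x).c e) S) (hρ : ∀ e, ContinuousOn (fun x => (P x).ρ e) S)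
    (hs : ∀ e : ι × Bool, ContinuousOn (fun x => (P x).s e.1) S)
    (hr : ∀ e, ContinuousOn (fun x => r x e) S)
    (hm : ∀ e, ContinuousOn (fun z : T × ℂ => m z.1 e z.2) {z | z.1 ∈ S ∧ ‖z.2‖ < 2 * (P z.1).ρ e})
    (hF : ∀ e, ContinuousOn (fun z : T × ℂ => F z.1 ((P z.1).c e + z.2))
      {z | z.1 ∈ S ∧ ‖z.2‖ = (P z.1).ρ e}) :
    ContinuousOn (fun z : T × ℂ => 1 + ∑ e, (P z.1).pk ((P z.1).k1 (m z.1) (r z.1))
      ((P z.1).psi ((P z.1).k1 (m z.1) (r z.1)) (F z.1)) e z.2)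
      {z | z.1 ∈ S ∧ z.2 ∈ (P z.1).Om} := by
  refine continuousOn_const.add (continuousOn_finsetSum _ fun e _ => (Pl.psi_cont
    (κ := fun x => (P x).k1 (m x) (r x)) (fun x hx => ⟨(h x hx).1, Pl.k1_kb (h x hx).1 (h x hx).2.1
      (h x hx).2.2.1, (h x hx).2.2.2⟩) hc hρ (fun e => ?_) hF e).mono fun z hz => ⟨hz.1, hz.2 e⟩)
  have hw : ContinuousOn (fun z : T × ℂ × ℂ => (P z.1).s e.1 / z.2.1)
      {z | z.1 ∈ S ∧ ‖z.2.1‖ = (P z.1).ρ (op e) ∧ (P z.1).rin e < ‖z.2.2‖} :=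
    ((hs e).comp continuousOn_fst fun z hz => hz.1).div (by fun_prop) fun z hz =>
      norm_pos_iff.1 (hz.2.1 ▸ (h _ hz.1).1.ρ_pos (op e))
  exact (((hr e).comp continuousOn_fst fun z hz => hz.1).mul
    ((hm (op e)).comp (f := fun z : T × ℂ × ℂ => (z.1, z.2.1)) (by fun_prop) fun z hz =>
      ⟨hz.1, Pl.Ker_v (h _ hz.1).1 hz.2.1⟩)).div
    (((hm e).comp (continuousOn_fst.prodMk hw) fun z hz =>
      ⟨hz.1, Pl.Ker_w (h _ hz.1).1 hz.2.1⟩).mul (ContinuousOn.sub (by fun_prop) hw)) fun z hz =>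
    mul_ne_zero ((h _ hz.1).2.1.ne (Pl.Ker_w (h _ hz.1).1 hz.2.1)).1
      (Pl.Ker_ne (h _ hz.1).1 hz.2.1 hz.2.2)

omit [FirstCountableTopology T] in
theorem CfK2_bg (h : CC S C L p q) :
    ContinuousOn (fun z : T × ℂ => ((C z.1).ℓ * (C z.1).D.b 0 / (z.2 + (C z.1).D.b 0) : ℂ))
      {z | z.1 ∈ S ∧ (C z.1).D.P z.2 ≠ 0} := by
  intro z hz
  have e : Fin γ × Bool := (⟨0, (h.fine _ hz.1).1.pos⟩, false)
  revert z
  have h1 : ContinuousOn (fun z : T × ℂ => ((C z.1).ℓ : ℂ)) {z | z.1 ∈ S ∧ (C z.1).D.P z.2 ≠ 0} :=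
    continuous_ofReal.comp_continuousOn ((h.basic e).2.2.2.2.2.2.2.2.2.2.1.comp continuousOn_fst
      fun z hz => hz.1)
  have h2 : ContinuousOn (fun z : T × ℂ => ((C z.1).D.b 0 : ℂ))
      {z | z.1 ∈ S ∧ (C z.1).D.P z.2 ≠ 0} :=
    continuous_ofReal.comp_continuousOn ((h.basic (e.1, false)).2.1.comp continuousOn_fst
      fun z hz => hz.1)
  exact (h1.mul h2).div (continuousOn_snd.add h2) fun z hz =>
    ((h.fine _ hz.1).1.ok0.b0 fun he => hz.2 (Dat.P_eq_zero.2 (Or.inl he))).1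

theorem CC.psi (h : CC S C L p q) :
    ContinuousOn (fun z : T × ℂ => (C z.1).wd.χ z.2) {z | z.1 ∈ S ∧ z.2 ∈ (C z.1).pl.Om} ∧
    ContinuousOn (fun z : T × ℂ => (C z.1).wd.ψ₂ z.2) {z | z.1 ∈ S ∧ z.2 ∈ (C z.1).pl.Om} := by
  have hc := fun e => (h.basic e).2.2.2.2.1
  have hs := fun e => (h.basic e).2.2.2.2.2.2.1
  have hρ := fun e => (h.basic e).2.2.2.2.2.2.2.1
  constructor
  · refine CfK2_sum (P := fun x => (C x).pl) (m := fun x => (C x).m1) (r := fun x => (C x).r1)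
      (F := fun x => (C x).bg) (B := 2) (W := fun e => if e.2 then 1 else Real.exp (2 * L))
      (fun x hx => ?_) hc hρ hs (fun e => (h.basic e).2.2.2.2.2.2.2.2.1) (fun e => (h.m e).1)
      fun e => ?_
    · obtain ⟨g, rfl, -⟩ := h.fine x hx
      exact ⟨g.g0.pl_ok, g.w1, g.c1, g.fb1⟩
    · exact continuousOn_const.add ((CfK2_bg h).comp
        (f := fun z : T × ℂ => (z.1, (C z.1).c e + z.2)) (continuousOn_fst.prodMk
          (((hc e).comp continuousOn_fst fun z hz => hz.1).add continuousOn_snd)) fun z hz =>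
        ⟨hz.1, (h.fine _ hz.1).1.g0.free ((h.fine _ hz.1).1.g0.pl_ok.circ_mem hz.2).2.le⟩)
  · refine (CfK2_sum (P := fun x => (C x).pl) (m := fun x => (C x).m2) (r := fun x => (C x).r2)
      (F := fun _ _ => 1) (B := 1) (W := fun e => if e.2 then Real.exp (2 * L) else 1)
      (fun x hx => ?_) hc hρ hs (fun e => (h.basic e).2.2.2.2.2.2.2.2.2.1) (fun e => (h.m e).2)
      fun e => continuousOn_const).congr fun z hz => (h.fine _ hz.1).1.ψ₂_eq z.2
    obtain ⟨g, rfl, -⟩ := h.fine x hx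
    exact ⟨g.g0.pl_ok, g.w2, g.c2, g.fb2⟩

theorem CfK2_psi (h : CC S C L p q) : ContinuousOn (fun z : T × ℂ => (C z.1).wd.ψ₁ z.2)
    {z | z.1 ∈ S ∧ z.2 ∈ (C z.1).pl.Om ∧ (C z.1).D.P z.2 ≠ 0} :=
  (h.psi.1.mono fun _ hz => ⟨hz.1, hz.2.1⟩).add ((CfK2_bg h).mono fun _ hz => ⟨hz.1, hz.2.2⟩)

theorem CC.F (h : CC S C L p q) :
    ContinuousOn (fun z : T × ℂ => (C z.1).wd.F1 z.2) {z | z.1 ∈ S ∧ z.2 ∈ (C z.1).wd.Qr} ∧
    ContinuousOn (fun z : T × ℂ => (C z.1).wd.F2 z.2) {z | z.1 ∈ S ∧ z.2 ∈ (C z.1).wd.Qr} := by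
  have hG : ContinuousOn (fun z : T × ℂ => (C z.1).D.G z.2)
      {z | z.1 ∈ S ∧ z.2 ∈ (C z.1).wd.Qr} := h.G.mono fun _ hz => ⟨hz.1, hz.2.1, hz.2.2.1⟩
  have h0 : ∀ z ∈ {z : T × ℂ | z.1 ∈ S ∧ z.2 ∈ (C z.1).wd.Qr}, z.2 ≠ 0 := fun z hz he =>
    hz.2.2.1 (Dat.P_eq_zero.2 (Or.inl (Or.inl he)))
  exact ⟨(((CfK2_psi h).mono fun _ hz => ⟨hz.1, hz.2.2.2, hz.2.2.1⟩).pow 2).mul
    (hG.div continuousOn_snd h0), ((h.psi.2.mono fun _ hz => ⟨hz.1, hz.2.2.2⟩).pow 2).mul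
    ((hG.mul continuousOn_snd).inv₀ fun z hz => mul_ne_zero (Dat.G_ne _) (h0 z hz))⟩

theorem CC.f (h : CC S C L p q) (e : Fin γ × Bool) :
    ContinuousOn (fun z : T × ℂ => (C z.1).wd.f1 e z.2) {z | z.1 ∈ S ∧ z.2 ∈ (C z.1).pl.Ann2 e} ∧
    ContinuousOn (fun z : T × ℂ => (C z.1).wd.f2 e z.2) {z | z.1 ∈ S ∧ z.2 ∈ (C z.1).pl.Ann2 e} ∧
    ContinuousOn (fun z : T × ℂ => (C z.1).wd.f3 e z.2)
      {z | z.1 ∈ S ∧ z.2 ∈ (C z.1).pl.Ann2 e} := by
  set A : Set (T × ℂ) := {z | z.1 ∈ S ∧ z.2 ∈ (C z.1).pl.Ann2 e}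
  have g : ∀ z ∈ A, (C z.1).G0 := fun z hz => (h.fine _ hz.1).1.g0
  have hc : ContinuousOn (fun z : T × ℂ => (C z.1).c e) A :=
    (h.basic e).2.2.2.2.1.comp continuousOn_fst fun z hz => hz.1
  have hG : ContinuousOn (fun z : T × ℂ => (C z.1).Ge e 0) A :=
    (h.basic e).2.2.2.2.2.2.2.2.2.2.2.2.2.comp continuousOn_fst fun z hz => hz.1
  have ht : ContinuousOn (fun z : T × ℂ => (z.1, (C z.1).c e + z.2)) A :=
    continuousOn_fst.prodMk (hc.add continuousOn_snd)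
  have a1 := (CfK2_psi h).comp ht fun z hz =>
    ⟨hz.1, (g z hz).pl_ok.ann2_mem hz.2, (g z hz).free hz.2.2.le⟩
  have a2 := h.psi.2.comp ht fun z hz => ⟨hz.1, (g z hz).pl_ok.ann2_mem hz.2⟩
  simp only [Function.comp_def] at a1 a2
  have h1 := ((h.m e).1.mono (t := A) fun _ hz => ⟨hz.1, hz.2.2⟩).mul a1
  have h2 := ((h.m e).2.mono (t := A) fun _ hz => ⟨hz.1, hz.2.2⟩).mul a2
  have h0 : ∀ z ∈ A, (C z.1).c e ≠ 0 := fun z hz => ((g z hz).c_bd e).1
  exact ⟨((h1.pow 2).mul (hG.div hc h0)).congr fun z hz => ((g z hz).f_eq hz.2.2.le).1,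
    ((h2.pow 2).mul ((hG.mul hc).inv₀ fun z hz => mul_ne_zero (exp_ne_zero _) (h0 z hz))).congr
      fun z hz => ((g z hz).f_eq hz.2.2.le).2.1,
    ((h1.mul h2).div hc h0).congr fun z hz => ((g z hz).f_eq hz.2.2.le).2.2⟩

theorem CC.rs (h : CC S C L p q) (e : Fin γ × Bool) :
    ContinuousOn (fun x => (C x).pl.rs (C x).wd.f1 e) S ∧
    ContinuousOn (fun x => (C x).pl.rs (C x).wd.f2 e) S ∧
    ContinuousOn (fun x => (C x).pl.rs (C x).wd.f3 e) S := by
  have key : ∀ φ : T → Fin γ × Bool → ℂ → ℂ, ContinuousOn (fun z : T × ℂ => φ z.1 e z.2)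
      {z | z.1 ∈ S ∧ z.2 ∈ (C z.1).pl.Ann2 e} → ContinuousOn (fun x => (C x).pl.rs (φ x) e) S :=
    fun φ hφ => av_contOn (k := fun x v => φ x e v * v) (h.basic e).2.2.2.2.2.2.2.1
      (fun x hx => ((h.fine x hx).1.g0.pl_ok.ρ_pos e).le)
      ((hφ.mono fun z hz => ⟨hz.1, (h.fine _ hz.1).1.g0.pl_ok.circ_mem hz.2⟩).mul continuousOn_snd)
  exact ⟨key _ (h.f e).1, key _ (h.f e).2.1, key _ (h.f e).2.2⟩

theorem CC.lk (h : CC S C L p q) {u v : T → ℝ} (hu : ContinuousOn u S) (hv : ContinuousOn v S)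
    (hQ : ∀ x ∈ S, ∀ θ ∈ Icc 0 Real.pi,
      ((u x + v x) / 2 + (u x - v x) / 2 * exp (θ * I) : ℂ) ∈ (C x).wd.Qr) (ty : Bool) :
    ContinuousOn (fun x => Lk (C x).wd.F1 (C x).wd.F2 ty (u x) (v x)) S := by
  set A : Set (T × ℝ) := {z | z.1 ∈ S ∧ z.2 ∈ uIcc 0 Real.pi}
  have h1 : ContinuousOn (fun z : T × ℝ => (u z.1 : ℂ)) A :=
    continuous_ofReal.comp_continuousOn (hu.comp continuousOn_fst fun z hz => hz.1)
  have h2 : ContinuousOn (fun z : T × ℝ => (v z.1 : ℂ)) A :=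
    continuous_ofReal.comp_continuousOn (hv.comp continuousOn_fst fun z hz => hz.1)
  have h3 : ContinuousOn (fun z : T × ℝ => ((u z.1 - v z.1) / 2 * exp (z.2 * I) : ℂ)) A :=
    ((h1.sub h2).div_const _).mul (Continuous.continuousOn (by fun_prop))
  have ht : ContinuousOn (fun z : T × ℝ =>
      (z.1, ((u z.1 + v z.1) / 2 + (u z.1 - v z.1) / 2 * exp (z.2 * I) : ℂ))) A :=
    continuousOn_fst.prodMk (((h1.add h2).div_const _).add h3)
  have hd : ContinuousOn (fun z : T × ℝ => ((u z.1 - v z.1) / 2 * exp (z.2 * I) * I : ℂ)) A :=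
    h3.mul continuousOn_const
  have hm : MapsTo (fun z : T × ℝ =>
      (z.1, ((u z.1 + v z.1) / 2 + (u z.1 - v z.1) / 2 * exp (z.2 * I) : ℂ))) A
      {z | z.1 ∈ S ∧ z.2 ∈ (C z.1).wd.Qr} := fun z hz =>
    ⟨hz.1, hQ _ hz.1 _ (uIcc_of_le Real.pi_pos.le ▸ hz.2)⟩
  refine (show Continuous (if ty then im else re) by cases ty <;> simp <;> fun_prop).comp_continuousOn
    (int_contOn (a := fun _ => 0) (b := fun _ => Real.pi) continuousOn_const continuousOn_const ?_)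
  exact ((h.F.1.comp ht hm).mul hd).sub
    (continuous_conj.comp_continuousOn ((h.F.2.comp ht hm).mul hd))

end Pool.Agent.MP_92463a_gt

end
end

section

open Set Complex Filter Metric
open scoped Topology ComplexConjugate ContDiff Manifold

noncomputable section

namespace Pool.Agent.MP_92463a_gt

variable {γ : ℕ} {T : Type} [TopologicalSpace T] {S : Set T} {C : T → Cfg γ} {L : ℝ} {p q : ℕ}
  [FirstCountableTopology T]

theorem CfK3_wp {C : Cfg γ} (h : C.Good) (e : Fin γ × Bool) :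
    C.wp e ∈ C.pl.Om ∧ C.wp e ≠ 0 ∧ C.wp e + C.D.b 0 ≠ 0 ∧ (0 : ℂ) ∈ C.pl.Om ∧
      -(C.D.b 0 : ℂ) ∈ C.pl.Om := by
  have hp := h.g0.pl_ok
  have ha := hp.ann_sub e (h.g0.s_div e).2
  have hP : C.D.P (C.wp e) ≠ 0 := h.g0.free ha.2.le
  have h0 : C.D.P 0 = 0 := Dat.P_eq_zero.2 (.inl (.inl rfl))
  have h1 : C.D.P (-C.D.b 0) = 0 :=
    Dat.P_eq_zero.2 (.inl (.inr ⟨0, h.toAdm.jj_lt false, rfl⟩))
  exact ⟨hp.ann2_mem ha, fun h2 => hP (h2 ▸ h0), fun h2 => hP (eq_neg_of_add_eq_zero_left h2 ▸ h1),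
    (h.ok0.zero_fd h0).2, (h.ok0.zero_fd h1).2⟩

omit [FirstCountableTopology T] in
theorem CfK3_fst {X Y : Type} [TopologicalSpace X] [TopologicalSpace Y] {f : T → Y}
    (hf : ContinuousOn f S) {U : Set (T × X)} (hU : ∀ z ∈ U, z.1 ∈ S) :
    ContinuousOn (fun z : T × X => f z.1) U :=
  hf.comp continuousOn_fst hU

omit [FirstCountableTopology T] in
theorem CfK3_b0 (h : CC S C L p q) : ContinuousOn (fun x => ((C x).D.b 0 : ℂ)) S := by
  intro x hx
  have h1 := (h.fine x hx).1.toAdm.q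
  rw [(h.fine x hx).2.2.2] at h1
  exact continuous_ofReal.comp_continuousOn (h.b 0 (by omega)) x hx

theorem CfK3_th (h : CC S C L p q) (e : Fin γ × Bool) {t : T → ℂ} (ht : ContinuousOn t S)
    (hO : ∀ x ∈ S, t x ∈ (C x).pl.Om) :
    ContinuousOn (fun x => (C x).pl.th (C x).wd.f3 e (t x - (C x).c e)) S := by
  have hp : ∀ x ∈ S, (C x).pl.Ok := fun x hx => (h.fine x hx).1.toGood.g0.pl_ok
  obtain ⟨-, -, -, -, hc, -, hs, -⟩ := h.basic e
  obtain ⟨-, -, -, -, -, -, -, hρ, -⟩ := h.basic (op e)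
  unfold Pl.th
  refine (av_contOn (r := fun x => (C x).pl.ρ (op e))
    (k := fun x v => (C x).wd.f3 (op e) v * v * log (1 - (C x).pl.s e.1 / v / (t x - (C x).c e)))
    hρ (fun x hx => ((hp x hx).ρ_pos _).le) ?_).neg
  have hu : ∀ x ∈ S, 0 < ‖t x - (C x).c e‖ := fun x hx => ((hp x hx).rin_pos e).trans (hO x hx e)
  refine (((h.f (op e)).2.2.mono fun z hz => ⟨hz.1, (hp _ hz.1).circ_mem hz.2⟩).mul
    continuousOn_snd).mul (ContinuousOn.clog (continuousOn_const.sub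
      (((CfK3_fst hs fun z hz => hz.1).div continuousOn_snd fun z hz => ?_).div
        (CfK3_fst (ht.sub hc) fun z hz => hz.1) fun z hz => norm_pos_iff.1 (hu _ hz.1)))
      fun z hz => ?_)
  · exact norm_pos_iff.1 (((hp _ hz.1).ρ_pos _).trans_eq hz.2.symm)
  · rw [sub_eq_add_neg]
    refine mem_slitPlane_of_norm_lt_one ?_
    rw [norm_neg, norm_div, (hp _ hz.1).circ_rin hz.2, div_lt_one (hu _ hz.1)]
    exact hO _ hz.1 e

theorem CC.hh (h : CC S C L p q) (e : Fin γ × Bool) :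
    ContinuousOn (fun x => (C x).wd.hh ((C x).wp e)) S := by
  have hw := fun x hx => CfK3_wp (h.fine x hx).1.toGood e
  have hp : ∀ x ∈ S, (C x).pl.Ok := fun x hx => (h.fine x hx).1.toGood.g0.pl_ok
  obtain ⟨-, -, -, -, -, -, -, -, -, -, hl, -, ht, -⟩ := h.basic e
  have hl' : ContinuousOn (fun x => ((C x).ℓ : ℂ)) S := continuous_ofReal.comp_continuousOn hl
  have hb := CfK3_b0 h
  have h1 : ContinuousOn (fun x => (C x).wd.χ 0) S :=
    h.psi.1.comp (f := fun x => (x, (0 : ℂ))) (by fun_prop) fun x hx => ⟨hx, (hw x hx).2.2.2.1⟩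
  have h2 : ContinuousOn (fun x => (C x).wd.ψ₂ 0) S :=
    h.psi.2.comp (f := fun x => (x, (0 : ℂ))) (by fun_prop) fun x hx => ⟨hx, (hw x hx).2.2.2.1⟩
  have h3 : ContinuousOn (fun x => (C x).wd.ψ₂ (-(C x).D.b 0)) S :=
    h.psi.2.comp (f := fun x => (x, -((C x).D.b 0 : ℂ))) (continuousOn_id.prodMk hb.neg)
      fun x hx => ⟨hx, (hw x hx).2.2.2.2⟩
  have h4 : ContinuousOn (fun x => (C x).wd.c0) S :=
    continuous_re.comp_continuousOn ((h1.add ((hl'.mul hb).div (continuousOn_const.add hb)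
      fun x hx => (zero_add _).trans_ne
        (ofReal_ne_zero.2 ((h.fine x hx).1.toAdm.bb true).1.ne'))).mul h2)
  have h5 : ContinuousOn (fun x => (C x).wd.q0) S :=
    continuous_re.comp_continuousOn (hl'.neg.mul h3)
  unfold Wd.hh
  refine continuousOn_const.mul (((h4.mul (ht.norm.log fun x hx => ?_)).add
    (h5.mul ((ht.add hb).norm.log fun x hx => ?_))).add
      (continuousOn_finsetSum _ fun e' _ => ((continuous_re.comp_continuousOn (h.rs e').2.2).mul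
        ((ht.sub (h.basic e').2.2.2.2.1).norm.log fun x hx => ?_)).add
          (continuous_re.comp_continuousOn (CfK3_th h e' ht fun x hx => (hw x hx).1))))
  · exact norm_ne_zero_iff.2 (hw x hx).2.1
  · exact norm_ne_zero_iff.2 (hw x hx).2.2.1
  · exact (((hp x hx).rin_pos e').trans ((hw x hx).1 e')).ne'

theorem CfK3_int (h : CC S C L p q) {a b : T → ℝ} {g g' : T → ℝ → ℂ} (ha : ContinuousOn a S)
    (hb : ContinuousOn b S)
    (hg : ContinuousOn (fun z : T × ℝ => g z.1 z.2) {z | z.1 ∈ S ∧ z.2 ∈ uIcc (a z.1) (b z.1)})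
    (hg' : ContinuousOn (fun z : T × ℝ => g' z.1 z.2) {z | z.1 ∈ S ∧ z.2 ∈ uIcc (a z.1) (b z.1)})
    (hQ : ∀ x ∈ S, ∀ θ ∈ uIcc (a x) (b x), g x θ ∈ (C x).wd.Qr) :
    ContinuousOn (fun x => ∫ θ in a x..b x,
      ((C x).wd.F1 (g x θ) * g' x θ - conj ((C x).wd.F2 (g x θ) * g' x θ))) S :=
  int_contOn (f := fun x θ => (C x).wd.F1 (g x θ) * g' x θ - conj ((C x).wd.F2 (g x θ) * g' x θ))
    ha hb (((h.F.1.comp (continuousOn_fst.prodMk hg) fun _ hz => ⟨hz.1, hQ _ hz.1 _ hz.2⟩).mul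
      hg').sub (continuous_conj.comp_continuousOn ((h.F.2.comp (continuousOn_fst.prodMk hg)
        fun _ hz => ⟨hz.1, hQ _ hz.1 _ hz.2⟩).mul hg')))

theorem CfK3_two {C : Cfg γ} (h : C.G0) (e : Fin γ × Bool) : 2 * ‖C.τ e‖ < C.D.b 0 / 2 := by
  have h1 := h.τ e
  have h2 := (h.toAdm.bb true).1
  linarith

theorem CfK3_arc (h : CC S C L p q) {k : Fin γ} (hk : γ ≤ 2 * (k : ℕ) + 1) (b : Bool) {a : ℝ}
    (ha : a ∈ Icc 0 Real.pi) :
    ContinuousOn (fun x => arcI (C x).wd.F1 (C x).wd.F2 (-(C x).bb b) (2 * ‖(C x).τ (k, b)‖) a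
      ((C x).lg (k, b)).im) S := by
  obtain ⟨-, hb, hl, hτ, -⟩ := h.basic (k, b)
  have hR : ContinuousOn (fun z : T × ℝ => ((2 * ‖(C z.1).τ (k, b)‖ : ℝ) : ℂ) * exp (z.2 * I))
      {z | z.1 ∈ S ∧ z.2 ∈ uIcc a ((C z.1).lg (k, b)).im} :=
    (CfK3_fst (continuous_ofReal.comp_continuousOn (continuousOn_const.mul hτ.norm))
      fun z hz => hz.1).mul (by fun_prop)
  unfold arcI
  refine CfK3_int h (a := fun _ => a)
    (g := fun x θ => -((C x).bb b : ℂ) + ((2 * ‖(C x).τ (k, b)‖ : ℝ) : ℂ) * exp (θ * I))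
    (g' := fun x θ => ((2 * ‖(C x).τ (k, b)‖ : ℝ) : ℂ) * exp (θ * I) * I) continuousOn_const
    (continuous_im.comp_continuousOn hl)
    ((CfK3_fst (continuous_ofReal.comp_continuousOn hb).neg fun z hz => hz.1).add hR)
    (hR.mul continuousOn_const) fun x hx θ hθ => ?_
  have hG := (h.fine x hx).1.toGood.g0
  exact (hG.ss le_rfl (hG.arc (CfK3_two hG (k, b))
    (uIcc_subset_Icc ha (hG.toAdm.lg_im hk b).1 hθ))).1

theorem CC.XM (h : CC S C L p q) {k : Fin γ} (hk : γ ≤ 2 * (k : ℕ) + 1) (b : Bool) :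
    ContinuousOn (fun x => (C x).XM (k, b)) S := by
  have h0 : (0 : ℝ) ∈ Icc 0 Real.pi := ⟨le_rfl, Real.pi_pos.le⟩
  have h1 : Real.pi ∈ Icc 0 Real.pi := ⟨Real.pi_pos.le, le_rfl⟩
  obtain ⟨-, hb, -, hτ, -, -, -, -, -, -, -, -, hw, -⟩ := h.basic (k, b)
  have ht : ContinuousOn (fun x => -((C x).bb b : ℂ) + 2 * (C x).τ (k, b)) S :=
    (continuous_ofReal.comp_continuousOn hb).neg.add (continuousOn_const.mul hτ)
  unfold Cfg.XM
  refine ((continuous_ofReal.comp_continuousOn (continuous_re.comp_continuousOn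
    (CfK3_arc h hk b (by cases b <;> assumption)))).add ((continuous_ofReal.comp_continuousOn
      (continuous_im.comp_continuousOn (CfK3_arc h hk b (by cases b <;> assumption)))).mul
        continuousOn_const)).add ?_
  unfold segI
  refine CfK3_int h (a := fun _ => 0) (b := fun _ => 1)
    (g := fun x θ => -((C x).bb b : ℂ) + 2 * (C x).τ (k, b) +
      θ * ((C x).wp (k, b) - (-((C x).bb b : ℂ) + 2 * (C x).τ (k, b))))
    (g' := fun x _ => (C x).wp (k, b) - (-((C x).bb b : ℂ) + 2 * (C x).τ (k, b)))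
    continuousOn_const continuousOn_const
    ((CfK3_fst ht fun z hz => hz.1).add ((by fun_prop : ContinuousOn (fun z : T × ℝ => (z.2 : ℂ)) _).mul
      (CfK3_fst (hw.sub ht) fun z hz => hz.1)))
    (CfK3_fst (hw.sub ht) fun z hz => hz.1) fun x hx θ hθ => ?_
  have hF := (h.fine x hx).1
  rw [uIcc_of_le zero_le_one] at hθ
  convert (hF.toGood.g0.ss le_rfl (hF.seg hk (CfK3_two hF.toGood.g0 (k, b)) hθ)).1 using 1
  simp only [Cfg.wp, Cfg.c]
  ring

theorem CC.eq (h : CC S C L p q) : ContinuousOn (fun x => (C x).eq) S := by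
  have hE : ∀ x ∈ S, 0 < (C x).E := fun x hx => (h.fine x hx).1.toAdm.E_pos
  have hL : ∀ x ∈ S, 0 < (C x).L := fun x hx => one_pos.trans_le (h.fine x hx).1.L
  have cL : ContinuousOn (fun x => (C x).L) S :=
    continuousOn_const.congr fun x hx => (h.fine x hx).2.1
  have hθ : ∀ k, ∀ x ∈ S, (C x).θ0 k ≠ 0 := fun k x hx =>
    mul_ne_zero (mul_ne_zero I_ne_zero (ofReal_ne_zero.2
      (mul_pos ((h.fine x hx).1.toAdm.bb true).1 (Real.exp_pos _)).ne')) (exp_ne_zero _)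
  have cE : ∀ k : Fin γ, ContinuousOn (fun x => (C x).E) S := fun k => (h.basic (k, true)).1
  have cθ : ∀ k : Fin γ, ContinuousOn (fun x => (C x).θ0 k) S := fun k =>
    (h.basic (k, true)).2.2.2.2.2.2.2.2.2.2.2.1
  have cB : ∀ k : Fin γ, γ ≤ 2 * (k : ℕ) + 1 → ContinuousOn (fun x => (C x).eB k) S := fun k hk =>
    ((h.XM hk true).sub (h.XM hk false)).div (continuous_conj.comp_continuousOn
      (continuousOn_const.div (cθ k) (hθ k))) fun x hx =>
        (map_ne_zero _).2 (div_ne_zero two_ne_zero (hθ k x hx))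
  refine (continuousOn_pi.2 fun k => ?_).prodMk ((continuousOn_pi.2 fun k => ?_).prodMk
    ((continuousOn_pi.2 fun k => ?_).prodMk (continuousOn_pi.2 fun k => ?_)))
  · exact ((h.rs (k, false)).1.sub (continuous_conj.comp_continuousOn (h.rs (k, true)).2.1)).div
      ((continuousOn_const.mul (cθ k)).mul ((continuous_ofReal.comp_continuousOn
        ((cE k).div cL fun x hx => (hL x hx).ne')).pow 2)) fun x hx =>
      mul_ne_zero (mul_ne_zero two_ne_zero (hθ k x hx))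
        (pow_ne_zero 2 (ofReal_ne_zero.2 (div_pos (hE x hx) (hL x hx)).ne'))
  · exact ((h.hh (k, true)).sub (h.hh (k, false))).div (continuousOn_const.mul (cE k))
      fun x hx => (mul_pos four_pos (hE x hx)).ne'
  · exact (cL.div (cE k) fun x hx => (hE x hx).ne').neg.mul
      (continuous_im.comp_continuousOn (h.rs (k, false)).2.2)
  · unfold sy
    split_ifs with hk
    · exact cB k hk
    · exact continuous_conj.comp_continuousOn (cB k.rev (by rw [Fin.val_rev]; omega))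

end Pool.Agent.MP_92463a_gt

end
end
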