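import Pool.Agent.Mg.F92463a.G34dd3a
import Pool.Agent.Mg.F92463a.Gc176c8
import Pool.Agent.Mg.F92463a.G6a2742
import Pool.Agent.Mg.F92463a.Gf77392
import Pool.Agent.Mg.F92463a.G8de453
import Pool.Agent.Mg.F92463a.Gf89946
import Pool.Agent.Mg.F92463a.G205f83
import Pool.Agent.Mg.F92463a.G2abf78
import Pool.Agent.Mg.F92463a.G4a411f

section

open Set Complex Filter Metric
open scoped Topology ComplexConjugate ContDiff Manifold

noncomputable section

namespace Pool.Agent.MP_92463a_gt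

variable {γ : ℕ} {α : Type} {l : Filter α} {C : α → Cfg γ} {D₀ : Dat} {z₀ : Zs γ}

/-- the position of the waist in the coordinates of the sheet -/
def CfJ_xs (C : Cfg γ) (b : Bool) (k : Fin γ) : ℂ :=
  (arcI (C.fM b) (C.fm b) 0 (2 * ‖C.TT b k‖) (if b then Real.pi else 0) (C.lg (k, b)).im).re +
    (arcI (C.fM b) (C.fm b) 0 (2 * ‖C.TT b k‖) (if b then 0 else Real.pi) (C.lg (k, b)).im).im
      * I + segI (C.fM b) (C.fm b) (2 * C.TT b k) (C.TT b k + C.TT b k * C.vs k)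

theorem CfJ_wp (C : Cfg γ) (b : Bool) (k : Fin γ) :
    C.wp (k, b) = -C.bb b + (C.TT b k + C.TT b k * C.vs k) := by
  simp only [Cfg.wp, Cfg.c, Cfg.TT]
  ring

theorem CfJ_true (C : Cfg γ) (k : Fin γ) : C.XM (k, true) = CfJ_xs C true k := by
  unfold Cfg.XM CfJ_xs
  rw [CfJ_wp, segI_shift, arcI_shift,
    arcI_shift (f₁ := C.wd.F1) (a := if (k, true).2 then 0 else Real.pi)]
  rfl

theorem CfJ_false (C : Cfg γ) (k : Fin γ) : C.XM (k, false) = -conj (CfJ_xs C false k) := by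
  have e (a b s : ℂ) : ((-conj a).re : ℂ) + (-conj b).im * I + -conj s =
      -conj ((a.re : ℂ) + b.im * I + s) := by
    simp only [neg_re, neg_im, conj_re, conj_im, neg_neg, map_add, map_mul, conj_ofReal, conj_I,
      ofReal_neg]
    ring
  unfold Cfg.XM CfJ_xs
  rw [CfJ_wp, segI_shift, arcI_shift,
    arcI_shift (f₁ := C.wd.F1) (a := if (k, false).2 then 0 else Real.pi), ← e, ← segI_swap,
    ← arcI_swap, ← arcI_swap]
  rfl

theorem CfJ_err {C : Cfg γ} (h : C.G0) {k : Fin γ} (hk : γ ≤ 2 * (k : ℕ) + 1)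
    (hd : ‖C.vs k‖ ^ 2 ≤ (C.vs k).re) (b : Bool) {δ ε K : ℝ}
    (hs : Sh0 (C.TT b) (C.mm b) (C.RR b) δ ε K (C.cm b) (C.fM b) (C.fm b)) :
    ‖CfJ_xs C b k + 2 * (C.cm b * exp (-C.lg (k, b) / 2))‖ ≤
      100 * K * ε * ‖C.cm b * exp (-C.lg (k, b) / 2)‖ := by
  have h1 := h.toAdm.lg_im hk b
  have h2 : pw (-1 / 2) (C.TT b k) = exp (-C.lg (k, b) / 2) := by
    unfold pw Cfg.TT
    rw [h1.2]
    congr 1
    push_cast
    ring
  have h3 := hs.xm (k := k) (v := C.vs k) (θ := (C.lg (k, b)).im)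
    (a₁ := if b then Real.pi else 0) (a₂ := if b then 0 else Real.pi) (Cfg.polar (k, b)) h1.1
    (by
      cases b
      · exact Or.inr ⟨h.toAdm.cm.2.2.1, rfl, rfl⟩
      · exact Or.inl ⟨h.toAdm.cm.2.1, rfl, rfl⟩)
    (h.mu_eq (k, b)) hd (h.wp_im hk b)
  have h4 : C.TT b k ≠ 0 := Cfg.τ_ne (k, b)
  rw [← norm_pw _ h4, h2, mul_assoc 2, mul_assoc _ ‖C.cm b‖, ← norm_mul] at h3
  exact h3

theorem CfJ_θ {C : Cfg γ} (h : C.Adm) (k : Fin γ) :
    2 / C.θ0 k = 2 * (C.cm false * exp (-C.lg (k, false) / 2)) := by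
  have h0 : ((C.D.b 0 : ℝ) : ℂ) ≠ 0 := ofReal_ne_zero.2 (h.bb true).1.ne'
  have h1 := exp_ne_zero (C.lg (k, false) / 2)
  have h2 := exp_ne_zero (C.D.A 0 : ℂ)
  simp only [Cfg.θ0, Cfg.cm, Bool.false_eq_true, if_false, neg_div]
  rw [exp_neg]
  push_cast
  rw [exp_neg]
  field_simp
  simp

theorem CfJ_rel {C : Cfg γ} (h : C.Adm) (k : Fin γ) :
    C.cm true * exp (-C.lg (k, true) / 2) =
      -(conj (C.cm false * exp (-C.lg (k, false) / 2)) * exp (-C.z.2.2.2 k / 2)) := by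
  have h0 : 0 < C.D.b 0 := (h.bb true).1
  have h1 : 0 < C.D.b 1 := by linarith [(h.bb true).2.2]
  have e1 : -C.lg (k, true) / 2 = conj (-C.lg (k, false) / 2) + -C.z.2.2.2 k / 2 +
      ((-(C.D.A 0 + C.D.A 1 + Real.log (C.D.b 0) - Real.log (C.D.b 1)) : ℝ) : ℂ) +
      -(Real.pi / 2 * I) := by
    simp only [Cfg.lg, Cfg.lk, Zs.lu, if_true, Bool.false_eq_true, if_false, map_div₀, map_neg,
      map_add, map_mul, conj_ofReal, conj_I, map_ofNat]
    push_cast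
    ring
  have e2 : Real.exp (C.D.A 1) / C.D.b 1 *
      Real.exp (-(C.D.A 0 + C.D.A 1 + Real.log (C.D.b 0) - Real.log (C.D.b 1))) =
      Real.exp (-C.D.A 0) / C.D.b 0 := by
    rw [Real.exp_neg, Real.exp_neg, Real.exp_sub, Real.exp_add, Real.exp_add, Real.exp_log h0,
      Real.exp_log h1]
    field_simp
  rw [e1, exp_add, exp_add, exp_add, exp_neg (Real.pi / 2 * I), exp_pi_div_two_mul_I, inv_I,
    exp_conj, ← ofReal_exp]
  simp only [Cfg.cm, if_true, Bool.false_eq_true, if_false, map_mul, map_neg, conj_I, conj_ofReal]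
  rw [← e2, ofReal_mul]
  ring

theorem CfJ_bd {C : Cfg γ} (h : C.G0) {k : Fin γ} (hk : γ ≤ 2 * (k : ℕ) + 1)
    (hd : ‖C.vs k‖ ^ 2 ≤ (C.vs k).re) {δ ε K : ℝ}
    (hs : ∀ b, Sh0 (C.TT b) (C.mm b) (C.RR b) δ ε K (C.cm b) (C.fM b) (C.fm b)) :
    ‖C.eB k - (exp (-C.z.2.2.2 k / 2) - 1)‖ ≤ 50 * K * ε * (‖exp (-C.z.2.2.2 k / 2)‖ + 1) := by
  have h1 := CfJ_err h hk hd true (hs true)
  have h2 := CfJ_err h hk hd false (hs false)
  rw [CfJ_rel h.toAdm] at h1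
  have h0 : C.cm false * exp (-C.lg (k, false) / 2) ≠ 0 :=
    mul_ne_zero (h.toAdm.cm.1 false) (exp_ne_zero _)
  unfold Cfg.eB
  rw [CfJ_θ h.toAdm, CfJ_true, CfJ_false]
  generalize C.cm false * exp (-C.lg (k, false) / 2) = P at h0 h1 h2 ⊢
  generalize exp (-C.z.2.2.2 k / 2) = w at h1 ⊢
  generalize CfJ_xs C true k = u at h1 ⊢
  generalize CfJ_xs C false k = v at h2 ⊢
  have h3 : conj P ≠ 0 := (map_ne_zero _).2 h0
  have h4 : 0 < ‖P‖ := norm_pos_iff.2 h0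
  have e : (u - -conj v) / conj (2 * P) - (w - 1) =
      ((u + 2 * -(conj P * w)) + conj (v + 2 * P)) / (2 * conj P) := by
    simp only [map_mul, map_add, map_ofNat]
    field_simp
    ring
  rw [norm_neg, norm_mul, norm_conj] at h1
  rw [e, norm_div, norm_mul, norm_conj, Complex.norm_ofNat, div_le_iff₀ (by positivity)]
  refine (norm_add_le _ _).trans ?_
  rw [norm_conj]
  linarith

theorem Lim.eB (h : Lim l C D₀ z₀) {k : Fin γ} (hk : γ ≤ 2 * (k : ℕ) + 1) :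
    Tendsto (fun x => (C x).eB k) l (𝓝 (z₀.lim.2.2.2 k)) := by
  have h1 : Tendsto (fun x => exp (-(C x).z.2.2.2 k / 2)) l (𝓝 (exp (-z₀.2.2.2 k / 2))) :=
    ((h.zs.2.2.2 k).neg.div_const 2).cexp
  have h2 : Tendsto (fun x => (C x).eB k - (exp (-(C x).z.2.2.2 k / 2) - 1)) l (𝓝 0) := by
    obtain ⟨K, hK⟩ := h.sh0
    refine NormedAddGroup.tendsto_nhds_zero.2 fun η hη => ?_
    have h3 : Tendsto (fun ε : ℝ => 50 * K * ε * (‖exp (-z₀.2.2.2 k / 2)‖ + 1 + 1)) (𝓝[>] 0)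
        (𝓝 0) := by
      have : Continuous fun ε : ℝ => 50 * K * ε * (‖exp (-z₀.2.2.2 k / 2)‖ + 1 + 1) := by
        fun_prop
      simpa using (this.tendsto 0).mono_left (nhdsWithin_le_nhds (s := Ioi 0))
    obtain ⟨ε, h4, h5⟩ := (hK.and (h3.eventually (gt_mem_nhds hη))).exists
    obtain ⟨δ, h6⟩ := h4.exists
    filter_upwards [h6, h.g0, h1.norm.eventually (gt_mem_nhds (lt_add_one _))] with x h7 h8 h9
    refine (CfJ_bd h8.1 hk (h8.2 k) h7).trans_lt (lt_of_le_of_lt ?_ h5)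
    have := (h7 true).ε_pos
    have := (h7 true).K_ge
    gcongr
  have h3 := h2.add (h1.sub_const 1)
  simpa [Zs.lim] using h3

theorem Lim.eq (h : Lim l C D₀ z₀) : Tendsto (fun x => (C x).eq) l (𝓝 z₀.lim) := by
  rcases l.eq_or_neBot with rfl | hl
  · exact tendsto_bot
  have hs : z₀.rf = z₀ := h.adm₀.sym
  refine (tendsto_pi_nhds.2 h.eF).prodMk_nhds ((tendsto_pi_nhds.2 h.eV).prodMk_nhds
    ((tendsto_pi_nhds.2 h.eA).prodMk_nhds (tendsto_pi_nhds.2 fun k => ?_)))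
  show Tendsto (fun x => sy (C x).eB k) l (𝓝 (z₀.lim.2.2.2 k))
  unfold sy
  split_ifs with hk
  · exact h.eB hk
  · have h1 : γ ≤ 2 * (k.rev : ℕ) + 1 := by
      rw [Fin.val_rev]
      omega
    have h2 : z₀.lim.2.2.2 k = conj (z₀.lim.2.2.2 k.rev) := by
      conv_lhs => rw [← hs, Zs.lim_rf]
      rfl
    rw [h2]
    exact (continuous_conj.tendsto _).comp (h.eB h1)

end Pool.Agent.MP_92463a_gt

end
end

section

open Set Complex Filter Metric
open scoped Topology ComplexConjugate ContDiff Manifold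

noncomputable section

namespace Pool.Agent.MP_92463a_gt

theorem CfL1_int {g : ℝ → ℂ} (h : ∀ x ∈ Icc (0 : ℝ) 1, (g x).re = 0) :
    (∫ x in (0 : ℝ)..1, g x).re = 0 := by
  rw [intervalIntegral.integral_congr (g := fun x => I * ((g x).im : ℂ)) fun x hx =>
    Complex.ext (by simpa using h x (by simpa using hx)) (by simp),
    intervalIntegral.integral_const_mul, intervalIntegral.integral_ofReal]
  simp

namespace Cfg

variable {γ : ℕ} {C : Cfg γ}

theorem CfL1_rs (h : C.Good) (e : Fin γ × Bool) :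
    C.pl.rs C.wd.f1 (e.1.rev, e.2) = -conj (C.pl.rs C.wd.f1 e) ∧
      C.pl.rs C.wd.f2 (e.1.rev, e.2) = -conj (C.pl.rs C.wd.f2 e) ∧
      C.pl.rs C.wd.f3 (e.1.rev, e.2) = conj (C.pl.rs C.wd.f3 e) := by
  have h1 := h.ok1
  have hp := h.g0.pl_ok
  refine ⟨?_, ?_, ?_⟩
  · simpa using Pl.rs_conj hp h.g0.psy (σ := -1) (φ := C.wd.f1) (fun e v hv =>
      (h1.f_conj (hp.circ_mem hv)).1.trans (by simp)) e
  · simpa using Pl.rs_conj hp h.g0.psy (σ := -1) (φ := C.wd.f2) (fun e v hv =>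
      (h1.f_conj (hp.circ_mem hv)).2.1.trans (by simp)) e
  · simpa using Pl.rs_conj hp h.g0.psy (σ := 1) (φ := C.wd.f3) (fun e v hv =>
      (h1.f_conj (hp.circ_mem hv)).2.2.trans (by simp)) e

theorem CfL1_θ (h : C.Adm) (k : Fin γ) : C.θ0 k.rev = -conj (C.θ0 k) := by
  rw [θ0, θ0, (h.lg_conj k).1, map_mul, map_mul, conj_I, conj_ofReal, ← exp_conj, map_div₀,
    conj_ofNat]
  ring

theorem Good.eF_conj (h : C.Good) (k : Fin γ) : C.eF k.rev = conj (C.eF k) := by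
  rw [eF, eF, (CfL1_rs h (k, false)).1, (CfL1_rs h (k, true)).2.1, CfL1_θ h.toAdm, map_div₀,
    map_sub, map_mul, map_mul, map_pow, conj_ofReal, conj_ofNat, map_neg, ← neg_div_neg_eq]
  congr 1 <;> ring

theorem Good.eV_rev (h : C.Good) (k : Fin γ) : C.eV k.rev = C.eV k := by
  have key : ∀ b, C.wd.hh (C.wp (k.rev, b)) = C.wd.hh (C.wp (k, b)) := fun b => by
    have h1 : C.wp (k.rev, b) = conj (C.wp (k, b)) := by
      rw [wp, wp, h.toAdm.c_conj (k, b), h.toAdm.τ_conj (k, b), h.g0.vs_conj, map_add, map_mul]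
    rw [h1]
    exact h.ok1.hh_conj (h.g0.pl_ok.ann2_mem (h.g0.pl_ok.ann_sub _ (h.g0.s_div (k, b)).2))
  rw [eV, eV, key, key]

theorem Good.eA_rev (h : C.Good) (k : Fin γ) : C.eA k.rev = -C.eA k := by
  rw [eA, eA, (CfL1_rs h (k, false)).2.2, conj_im]
  ring

theorem CfL1_G (h : C.Adm) {b : Bool} {y : ℝ} (h0 : 0 < y) (h1 : y ≤ C.D.b 0 / 2) :
    (C.D.G ((-C.bb b + (if b then -y else y) : ℝ) : ℂ)).re = 0 := by
  obtain ⟨a0, -, a1⟩ := h.bb b
  cases b with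
  | false =>
    rw [(h.d.sign_neg (k := 0) (by simp only [bb, jj]; norm_num; linarith) (Nat.zero_le _)
      (fun j hj => absurd hj (Nat.not_lt_zero _)) fun j _ hj => by
        have := h.d.b0_le hj
        simp only [bb, jj]
        norm_num
        linarith).2]
    simp
  | true =>
    rw [(h.d.sign_neg (k := 2) (by simp only [bb, jj]; norm_num; linarith) h.q
      (fun j hj => by
        simp only [bb, jj]
        interval_cases j <;> norm_num <;> linarith) fun j hj hq => by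
        have := h.d.b_gap 1 j (by omega) hq
        simp only [bb, jj]
        norm_num
        linarith).2]
    simp

theorem CfL1_XM (h : C.Fine) {k : Fin γ} (hk : 2 * (k : ℕ) + 1 = γ) (b : Bool) :
    (C.XM (k, b)).re = 0 := by
  have hg := h.toGood.g0
  have hA := hg.toAdm
  obtain ⟨m1, m2, m3, m4, m5⟩ := hA.mid hk
  have h1 : (if b then Real.pi else 0) = (C.lg (k, b)).im := by
    cases b
    · exact m2.symm
    · exact m3.symm
  have hv : C.vs k = (C.vs k).re := by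
    have := hg.vs_conj k
    rw [m1] at this
    exact (conj_eq_iff_re.1 this.symm).symm
  have hv1 : |(C.vs k).re| ≤ 1 / 100 := by
    refine (abs_re_le_norm _).trans ((hg.vs k).trans ?_)
    have : (1 : ℝ) ≤ γ := by exact_mod_cast hA.pos
    exact one_div_le_one_div_of_le (by norm_num) (by linarith)
  have hr : 0 < ‖C.τ (k, b)‖ := norm_pos_iff.2 (τ_ne _)
  have hr1 := hg.τ (k, b)
  have hb0 := (hA.bb b).1
  have hseg : (segI C.wd.F1 C.wd.F2 (-C.bb b + 2 * C.τ (k, b)) (C.wp (k, b))).re = 0 := by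
    refine CfL1_int fun x hx => ?_
    have hO := (hg.ss le_rfl (h.seg hk.ge (b := b) (δ := C.D.b 0 / 2) (by linarith) hx)).1.2.2
    set v := (C.vs k).re
    set r := ‖C.τ (k, b)‖
    have hτ : C.τ (k, b) = if b then -(r : ℂ) else r := by
      cases b
      · exact m4
      · exact m5
    have hw := abs_le.1 hv1
    have hG := CfL1_G hA (b := b) (y := r * (2 + x * (v - 1)))
      (mul_pos hr (by nlinarith [hx.1, hx.2])) (by
        have : 2 + x * (v - 1) ≤ 2 := by nlinarith [hx.1, hx.2]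
        nlinarith)
    set s := -C.bb b + (if b then -(r * (2 + x * (v - 1))) else r * (2 + x * (v - 1))) with hs
    have e1 : C.wp (k, b) - (-C.bb b + 2 * C.τ (k, b)) =
        ((if b then -(r * (v - 1)) else r * (v - 1) : ℝ) : ℂ) := by
      rw [wp, c, hv, hτ]
      cases b <;> simp <;> ring
    have e2 : -C.bb b + 2 * C.τ (k, b) + x * (C.wp (k, b) - (-C.bb b + 2 * C.τ (k, b))) = s := by
      rw [e1, hτ, hs]
      cases b <;> simp <;> ring
    have e3 : -C.bb b + (2 * C.τ (k, b) + x * (C.τ (k, b) + C.τ (k, b) * C.vs k -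
        2 * C.τ (k, b))) = s := by
      rw [← e2, wp, c]
      ring
    rw [e3] at hO
    have a1 := h.toGood.ok1.ψ₁_conj hO
    have a2 := h.toGood.ok1.ψconj _ hO
    rw [conj_ofReal] at a1 a2
    have b1 := conj_eq_iff_im.1 a1.symm
    have b2 := conj_eq_iff_im.1 a2.symm
    have hG' : (C.wd.D.G s).re = 0 := hG
    rw [e2, e1]
    generalize (if b then -(r * (v - 1)) else r * (v - 1) : ℝ) = d
    simp [Wd.F1, Wd.F2, div_re, inv_re, hG', pow_two, b1, b2]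
  rw [XM, add_re, hseg, h1, arcI, intervalIntegral.integral_same]
  simp

theorem Fine.eB_mid (h : C.Fine) {k : Fin γ} (hk : 2 * (k : ℕ) + 1 = γ) : (C.eB k).im = 0 := by
  have h1 := CfL1_θ h.toAdm k
  rw [(h.toAdm.mid hk).1] at h1
  have h2 : (C.θ0 k).re = 0 := by
    have := congrArg re h1
    rw [neg_re, conj_re] at this
    linarith
  rw [eB, div_im, sub_re, CfL1_XM h hk, CfL1_XM h hk, conj_re, div_re, h2]
  simp

theorem Fine.eq_rf (h : C.Fine) : C.eq.rf = C.eq := by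
  refine Prod.ext (funext fun k => ?_) (Prod.ext (funext fun k => h.toGood.eV_rev k)
    (Prod.ext (funext fun k => ?_) (funext fun k => ?_)))
  · change conj (C.eF k.rev) = C.eF k
    rw [h.toGood.eF_conj, conj_conj]
  · change -C.eA k.rev = C.eA k
    rw [h.toGood.eA_rev, neg_neg]
  · change conj (sy C.eB k.rev) = sy C.eB k
    have hr := Fin.val_rev k
    have hk := k.2
    rcases lt_trichotomy (2 * (k : ℕ) + 1) γ with c | c | c
    · rw [sy, sy, if_pos (by omega), if_neg (by omega)]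
    · rw [(h.toAdm.mid c).1, sy, if_pos c.ge]
      exact conj_eq_iff_im.2 (h.eB_mid c)
    · rw [sy, sy, if_neg (by omega), if_pos c.le, Fin.rev_rev, conj_conj]

end Cfg

end Pool.Agent.MP_92463a_gt

end
end

section

open Set Complex Filter Metric
open scoped Topology ComplexConjugate ContDiff Manifold

noncomputable section

namespace Pool.Agent.MP_92463a_gt

variable {J : Type} [Fintype J] {p q γ : ℕ}

theorem Fam.lim (F : Fam J p q) (hq : 2 ≤ q) (hγ : 0 < γ) {α : Type} {l : Filter α}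
    {x : α → J → ℝ} {L : α → ℝ} {z : α → Zs γ} {x₀ : J → ℝ} {z₀ : Zs γ} (h₀ : x₀ ∈ cube J)
    (hx : Tendsto x l (𝓝[cube J] x₀)) (hL : Tendsto L l atTop) (hz : Tendsto z l (𝓝 z₀))
    (hs : ∀ᶠ a in l, (z a).rf = z a ∧ ‖z a‖ ≤ 1 / (100 * γ)) :
    Lim l (fun a => ⟨F.D (x a), L a, z a⟩) (F.D x₀) z₀ := by
  refine ⟨(Dat.tends_of_cont F.ok F.ca F.cb F.cρ h₀).comp hx, (F.ok x₀ h₀).2.2.symm ▸ hq, ?_, hL,
    hz⟩
  filter_upwards [hs, hx.eventually eventually_mem_nhdsWithin] with a ha hm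
  exact ⟨hγ, (F.ok _ hm).1, (F.ok _ hm).2.2.symm ▸ hq, ha.1, ha.2⟩

theorem Fam.lim_lk (F : Fam J p q) {α : Type} {l : Filter α} {x : α → J → ℝ} {x₀ : J → ℝ}
    (h₀ : x₀ ∈ cube J) (hx : Tendsto x l (𝓝[cube J] x₀)) {ι : Type} [Fintype ι] {W : α → Wd ι}
    (h : WLim l W (F.D x₀)) (hD : ∀ a, (W a).D = F.D (x a)) (i : J) :
    (∀ᶠ a in l, ∀ θ ∈ Icc 0 Real.pi, ((F.u i (x a) + F.v i (x a)) / 2 +
      (F.u i (x a) - F.v i (x a)) / 2 * exp (θ * I) : ℂ) ∈ (W a).Qr) ∧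
    Tendsto (fun a => Lk (W a).F1 (W a).F2 (F.su i).ty (F.u i (x a)) (F.v i (x a)) -
      Lk (F.D (x a)).F1 (F.D (x a)).F2 (F.su i).ty (F.u i (x a)) (F.v i (x a))) l (𝓝 0) := by
  obtain ⟨h1, h2, h3⟩ := F.mem i x₀ h₀
  have hO := (F.ok x₀ h₀).1
  obtain ⟨k1, k2⟩ := h.lk (u := fun a => F.u i (x a)) (v := fun a => F.v i (x a))
    ((F.cu i x₀ h₀).tendsto.comp hx) ((F.cv i x₀ h₀).tendsto.comp hx) (hO.inS_ne h1)
    (hO.inS_ne h2) h3 (F.su i).ty
  refine ⟨?_, ?_⟩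
  · filter_upwards [k1, hx.eventually eventually_mem_nhdsWithin] with a ha hm θ hθ
    obtain ⟨m1, m2, m3⟩ := F.mem i (x a) hm
    have hO' := (F.ok _ hm).1
    have := Dat.Ok.semi (hO'.inS_ne m1) (hO'.inS_ne m2) m3 hθ
    exact ⟨this.1, by rw [hD]; exact this.2, ha θ hθ⟩
  · have := k2.sub ((F.lk_cont i x₀ h₀).tendsto.comp hx)
    rw [sub_self] at this
    exact this

theorem Ring1_K (γ : ℕ) {r : ℝ} (hr : 0 ≤ r) :
    IsCompact {z : Zs γ | z.rf = z ∧ ‖z‖ ≤ r} ∧ Convex ℝ {z : Zs γ | z.rf = z ∧ ‖z‖ ≤ r} ∧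
      {z : Zs γ | z.rf = z ∧ ‖z‖ ≤ r}.Nonempty := by
  have e : ∀ z : Zs γ, z.rf = NDr γ z := fun _ => rfl
  refine ⟨?_, ?_, 0, ?_, by simpa using hr⟩
  · refine (isCompact_closedBall (0 : Zs γ) r).of_isClosed_subset ?_ fun z hz =>
      mem_closedBall_zero_iff.2 hz.2
    exact (isClosed_eq (NDr γ).continuous continuous_id).inter
      (isClosed_le continuous_norm continuous_const)
  · intro a ha b hb s t hs ht hst
    refine ⟨?_, mem_closedBall_zero_iff.1 (convex_closedBall (0 : Zs γ) r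
      (mem_closedBall_zero_iff.2 ha.2) (mem_closedBall_zero_iff.2 hb.2) hs ht hst)⟩
    rw [e, map_add, map_smul, map_smul, ← e, ← e, ha.1, hb.1]
  · rw [e, map_zero]

theorem Ring1_sub {a b : Zs γ} (ha : a.rf = a) (hb : b.rf = b) : (a - b).rf = a - b := by
  have e : ∀ z : Zs γ, z.rf = NDr γ z := fun _ => rfl
  rw [e, map_sub, ← e, ← e, ha, hb]

theorem Fam.solve (F : Fam J p q) (hq : 2 ≤ q) (hγ : 0 < γ) : ∀ᶠ r in 𝓝[>] (0 : ℝ),
    ∀ᶠ L in atTop, ∃ x ∈ cube J, ∃ z : Zs γ, z.rf = z ∧ ‖z‖ ≤ r ∧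
      (⟨F.D x, L, z⟩ : Cfg γ).eq = 0 ∧ ∀ i, Lk (⟨F.D x, L, z⟩ : Cfg γ).wd.F1
        (⟨F.D x, L, z⟩ : Cfg γ).wd.F2 (F.su i).ty (F.u i x) (F.v i x) = 0 := by
  obtain ⟨B, hB, hBr, hBe⟩ := Zs.nondeg hγ
  obtain ⟨δ, hδ, hrob⟩ := F.robust
  have hpos : (0 : ℝ) < 1 / (100 * γ) := by positivity
  filter_upwards [hBe, self_mem_nhdsWithin,
    (eventually_le_nhds hpos).filter_mono nhdsWithin_le_nhds] with r hest hr hle
  have hr' : 0 < r := hr
  obtain ⟨hK, hcv, hne⟩ := Ring1_K γ hr'.le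
  set K : Set (Zs γ) := {z : Zs γ | z.rf = z ∧ ‖z‖ ≤ r} with hKdef
  have key : ∀ᶠ L : ℝ in atTop, ∀ y ∈ cube J ×ˢ K, (⟨F.D y.1, L, y.2⟩ : Cfg γ).Fine ∧
      (∀ i, ∀ θ ∈ Icc 0 Real.pi, ((F.u i y.1 + F.v i y.1) / 2 +
        (F.u i y.1 - F.v i y.1) / 2 * exp (θ * I) : ℂ) ∈ (⟨F.D y.1, L, y.2⟩ : Cfg γ).wd.Qr) ∧
      (∀ i, |Lk (⟨F.D y.1, L, y.2⟩ : Cfg γ).wd.F1 (⟨F.D y.1, L, y.2⟩ : Cfg γ).wd.F2
        (F.su i).ty (F.u i y.1) (F.v i y.1) -
        Lk (F.D y.1).F1 (F.D y.1).F2 (F.su i).ty (F.u i y.1) (F.v i y.1)| ≤ δ) ∧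
      ‖B ((⟨F.D y.1, L, y.2⟩ : Cfg γ).eq - y.2.lim)‖ ≤ r / 2 := by
    refine ev_compact (isCompact_cube.prod hK) fun y hy => ?_
    have t2 : Tendsto (fun a : ℝ × (J → ℝ) × Zs γ => a.2) (atTop ×ˢ 𝓝[cube J ×ˢ K] y)
        (𝓝[cube J ×ˢ K] y) := tendsto_snd
    have hx : Tendsto (fun a : ℝ × (J → ℝ) × Zs γ => a.2.1) (atTop ×ˢ 𝓝[cube J ×ˢ K] y)
        (𝓝[cube J] y.1) :=
      (continuous_fst.continuousWithinAt.tendsto_nhdsWithin fun w hw => hw.1).comp t2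
    have hz : Tendsto (fun a : ℝ × (J → ℝ) × Zs γ => a.2.2) (atTop ×ˢ 𝓝[cube J ×ˢ K] y)
        (𝓝 y.2) := continuous_snd.continuousWithinAt.tendsto.comp t2
    have hl := F.lim hq hγ (L := fun a : ℝ × (J → ℝ) × Zs γ => a.1) hy.1 hx tendsto_fst hz
      ((t2.eventually eventually_mem_nhdsWithin).mono fun a ha => ⟨ha.2.1, ha.2.2.trans hle⟩)
    have hk := fun i => F.lim_lk hy.1 hx hl.wlim (fun _ => rfl) i
    have h4 := (B.continuous.tendsto _).comp (hl.eq.sub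
      ((Zs.lim_contDiff hγ (hy.2.2.trans hle)).continuousAt.tendsto.comp hz))
    rw [sub_self, map_zero] at h4
    refine hl.fine.and ((eventually_all.2 fun i => (hk i).1).and
      ((eventually_all.2 fun i => ?_).and ?_))
    · have := (hk i).2.abs
      rw [abs_zero] at this
      exact this.eventually (eventually_le_nhds hδ)
    · have := h4.norm
      rw [norm_zero] at this
      exact this.eventually (eventually_le_nhds (half_pos hr'))
  filter_upwards [key] with L hL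
  have hc : CC (cube J ×ˢ K) (fun y => (⟨F.D y.1, L, y.2⟩ : Cfg γ)) L p q :=
    ⟨fun y hy => ⟨(hL y hy).1, rfl, (F.ok _ hy.1).2⟩,
      fun i hi => (F.ca i hi).comp continuousOn_fst fun w hw => hw.1,
      fun j hj => (F.cb j hj).comp continuousOn_fst fun w hw => hw.1,
      F.cρ.comp continuousOn_fst fun w hw => hw.1, continuousOn_snd⟩
  obtain ⟨y, hy, e1, e2⟩ := hrob hK hcv hne
    (f := fun y i => Lk (⟨F.D y.1, L, y.2⟩ : Cfg γ).wd.F1 (⟨F.D y.1, L, y.2⟩ : Cfg γ).wd.F2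
      (F.su i).ty (F.u i y.1) (F.v i y.1))
    (Φ := fun y => y.2 - B (⟨F.D y.1, L, y.2⟩ : Cfg γ).eq)
    (continuousOn_pi.2 fun i => hc.lk (u := fun y => F.u i y.1) (v := fun y => F.v i y.1)
      ((F.cu i).comp continuousOn_fst fun w hw => hw.1)
      ((F.cv i).comp continuousOn_fst fun w hw => hw.1) (fun y hy => (hL y hy).2.1 i) _)
    (continuousOn_snd.sub (B.continuous.comp_continuousOn hc.eq))
    (fun y hy => ⟨Ring1_sub hy.2.1 (hBr _ (hL y hy).1.eq_rf), by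
      have e : y.2 - B (⟨F.D y.1, L, y.2⟩ : Cfg γ).eq = (y.2 - B y.2.lim) -
          B ((⟨F.D y.1, L, y.2⟩ : Cfg γ).eq - y.2.lim) := by
        rw [map_sub]; abel
      show ‖y.2 - B (⟨F.D y.1, L, y.2⟩ : Cfg γ).eq‖ ≤ r
      rw [e]
      refine (norm_sub_le _ _).trans ?_
      linarith [hest y.2 hy.2.2, (hL y hy).2.2.2]⟩)
    fun y hy => (hL y hy).2.2.1
  refine ⟨y.1, hy.1, y.2, hy.2.1, hy.2.2, hB ?_, fun i => congrFun e1 i⟩
  rw [map_zero]
  exact sub_eq_self.1 e2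

end Pool.Agent.MP_92463a_gt

end
end
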