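import Pool.Agent.Mg.F92463a.G8dda1b
import Pool.Agent.MP_92463a_gt.FaceX2
import Pool.Agent.Mg.F92463a.G6119f0

section

open Set Complex Filter Metric
open scoped Topology ComplexConjugate ContDiff Manifold

noncomputable section

namespace Pool.Agent.MP_92463a_gt

theorem Est_exp {z : ℂ} (h : ‖z‖ ≤ 4 / 5) : ‖exp z - (1 + z + z ^ 2 / 2)‖ ≤ 0.21 * ‖z‖ ^ 3 := by
  have h1 := Complex.exp_bound (x := z) (by linarith) (n := 4) (by norm_num)
  have h2 : exp z - (1 + z + z ^ 2 / 2) =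
      (exp z - ∑ m ∈ Finset.range 4, z ^ m / (m.factorial : ℂ)) + z ^ 3 / 6 := by
    simp only [Finset.sum_range_succ, Finset.sum_range_zero, Nat.factorial]
    push_cast
    ring
  have h3 : ‖z ^ 3 / 6‖ = ‖z‖ ^ 3 / 6 := by
    rw [norm_div, norm_pow]
    norm_num
  have h4 : ((Nat.succ 4 : ℕ) : ℝ) * ((Nat.factorial 4 : ℕ) * (4 : ℕ) : ℝ)⁻¹ = 5 / 96 := by
    norm_num [Nat.factorial]
  rw [h4] at h1
  have h5 : 0 ≤ ‖z‖ ^ 3 := by positivity
  have h6 : ‖z‖ ^ 4 ≤ ‖z‖ ^ 3 * (4 / 5) := by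
    rw [pow_succ]
    exact mul_le_mul_of_nonneg_left h h5
  rw [h2]
  refine (norm_add_le _ _).trans ?_
  rw [h3]
  linarith

theorem Est_pt {z a b : ℂ} {T Q r : ℝ} (h1 : ‖z - (a + b)‖ ≤ r) (h2 : ‖z - a‖ ≤ Q) (h3 : ‖z‖ ≤ T)
    (h4 : ‖a‖ ≤ T) (h5 : T ≤ 4 / 5) :
    ‖exp z - (1 + a + a ^ 2 / 2 + b)‖ ≤ 0.21 * T ^ 3 + r + T * Q := by
  have e : exp z - (1 + a + a ^ 2 / 2 + b) =
      (exp z - (1 + z + z ^ 2 / 2)) + (z - (a + b)) + (z + a) / 2 * (z - a) := by ring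
  have h6 := Est_exp (h3.trans h5)
  have h7 : ‖z‖ ^ 3 ≤ T ^ 3 := pow_le_pow_left₀ (norm_nonneg _) h3 3
  have h8 : ‖(z + a) / 2‖ ≤ T := by
    have := norm_add_le z a
    rw [norm_div, Complex.norm_two]
    linarith
  have h9 : ‖(z + a) / 2 * (z - a)‖ ≤ T * Q := by
    rw [norm_mul]
    exact mul_le_mul h8 h2 (norm_nonneg _) ((norm_nonneg _).trans h3)
  rw [e]
  refine (norm_add₃_le).trans ?_
  linarith

/-- the second order polynomial -/
def Est_P (c0 c1 c2 n1 n2 : ℝ) (s : ℂ) : ℂ := c0 + n1 / s + c1 * s + n2 / s ^ 2 + c2 * s ^ 2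

/-- the bound of the remainder -/
def Est_R (X1 X2 X3 Y1 Y2 Y3 a : ℝ) : ℝ :=
  c30 X1 X2 X3 / a ^ 3 + c21 X1 X2 Y1 / a + c21 Y1 Y2 X1 * a + c30 Y1 Y2 Y3 * a ^ 3

theorem Est_rem {z s : ℂ} (hs : s ≠ 0) {k m l n X1 X2 X3 Y1 Y2 Y3 : ℝ}
    (h1 : ‖z - (k / s + m * s + l / s ^ 2 + n * s ^ 2)‖ ≤ X3 / ‖s‖ ^ 3 + Y3 * ‖s‖ ^ 3)
    (h2 : ‖z - (k / s + m * s)‖ ≤ X2 / ‖s‖ ^ 2 + Y2 * ‖s‖ ^ 2)
    (h3 : ‖z‖ ≤ X1 / ‖s‖ + Y1 * ‖s‖) (h4 : ‖k / s + m * s‖ ≤ X1 / ‖s‖ + Y1 * ‖s‖)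
    (h5 : X1 / ‖s‖ + Y1 * ‖s‖ ≤ 4 / 5) :
    ‖exp z - Est_P (1 + k * m) m (m ^ 2 / 2 + n) k (k ^ 2 / 2 + l) s‖ ≤
      Est_R X1 X2 X3 Y1 Y2 Y3 ‖s‖ := by
  have ha : ‖s‖ ≠ 0 := norm_ne_zero_iff.2 hs
  rw [add_assoc (k / s + m * s)] at h1
  have h := Est_pt h1 h2 h3 h4 h5
  have e1 : Est_P (1 + k * m) m (m ^ 2 / 2 + n) k (k ^ 2 / 2 + l) s =
      1 + (k / s + m * s) + (k / s + m * s) ^ 2 / 2 + (l / s ^ 2 + n * s ^ 2) := by
    rw [Est_P]
    push_cast
    field_simp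
    ring
  have e2 : Est_R X1 X2 X3 Y1 Y2 Y3 ‖s‖ = 0.21 * (X1 / ‖s‖ + Y1 * ‖s‖) ^ 3 +
      (X3 / ‖s‖ ^ 3 + Y3 * ‖s‖ ^ 3) +
      (X1 / ‖s‖ + Y1 * ‖s‖) * (X2 / ‖s‖ ^ 2 + Y2 * ‖s‖ ^ 2) := by
    rw [Est_R, c30, c30, c21, c21]
    field_simp
    ring
  rw [e1, e2]
  exact h

theorem Est_rem' {z s : ℂ} (hs : s ≠ 0) {k m l n X1 X2 X3 Y1 Y2 Y3 : ℝ}
    (h1 : ‖z - (k / s + m * s + l / s ^ 2 + n * s ^ 2)‖ ≤ X3 / ‖s‖ ^ 3 + Y3 * ‖s‖ ^ 3)
    (h2 : ‖z - (k / s + m * s)‖ ≤ X2 / ‖s‖ ^ 2 + Y2 * ‖s‖ ^ 2)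
    (h3 : ‖z‖ ≤ X1 / ‖s‖ + Y1 * ‖s‖) (h4 : ‖k / s + m * s‖ ≤ X1 / ‖s‖ + Y1 * ‖s‖)
    (h5 : X1 / ‖s‖ + Y1 * ‖s‖ ≤ 4 / 5) :
    ‖exp (-z) - Est_P (1 + k * m) (-m) (m ^ 2 / 2 - n) (-k) (k ^ 2 / 2 - l) s‖ ≤
      Est_R X1 X2 X3 Y1 Y2 Y3 ‖s‖ := by
  have h := Est_rem (z := -z) (k := -k) (m := -m) (l := -l) (n := -n) (X1 := X1) (X2 := X2)
    (X3 := X3) (Y1 := Y1) (Y2 := Y2) (Y3 := Y3) hs
    (by rw [← norm_neg] at h1; exact (congrArg norm (by push_cast; ring)).trans_le h1)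
    (by rw [← norm_neg] at h2; exact (congrArg norm (by push_cast; ring)).trans_le h2)
    (by rwa [norm_neg])
    (by rw [← norm_neg] at h4; exact (congrArg norm (by push_cast; ring)).trans_le h4) h5
  rwa [neg_mul_neg, neg_sq, neg_sq, ← sub_eq_add_neg, ← sub_eq_add_neg] at h

theorem Est_gen {p β U D : ℝ} (h0 : 0 < p) (h1 : p < 1) (hβ : β = (1 - p) / p) (hD : 0 ≤ D)
    {L : ℂ → ℂ} {k m l n X1 X2 X3 Y1 Y2 Y3 : ℝ}
    (hc : ContinuousOn (fun θ => L (sc p θ)) (Icc 0 Real.pi))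
    (hL : ∀ θ ∈ Icc 0 Real.pi, ∀ s, s = sc p θ →
      ‖L s - (k / s + m * s + l / s ^ 2 + n * s ^ 2)‖ ≤ X3 / ‖s‖ ^ 3 + Y3 * ‖s‖ ^ 3 ∧
      ‖L s - (k / s + m * s)‖ ≤ X2 / ‖s‖ ^ 2 + Y2 * ‖s‖ ^ 2 ∧
      ‖L s‖ ≤ X1 / ‖s‖ + Y1 * ‖s‖ ∧ ‖k / s + m * s‖ ≤ X1 / ‖s‖ + Y1 * ‖s‖ ∧
      X1 / ‖s‖ + Y1 * ‖s‖ ≤ 4 / 5) :
    |(Av p fun s => (U : ℂ) ^ 2 * ((s + β) ^ 2 / s * exp (L s)) +
        (D : ℂ) * ((s - 1) / (s + β) * exp (-L s))) -
      e0 p * (U ^ 2 * mainA β (xb p) k m l n + D * mainB β (xb p) k m l n)| ≤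
      e0 p * (U ^ 2 * errA β (xb p) X1 X2 X3 Y1 Y2 Y3 +
        D * errB β (xb p) X1 X2 X3 Y1 Y2 Y3) := by
  have hs : Continuous (sc p) :=
    continuous_iff_continuousAt.2 fun θ => (sc_der h0 h1 θ).continuousAt
  have n0 : ∀ θ, sc p θ ≠ 0 := fun θ => (sc_ne h0 h1 θ).1
  have nb : ∀ θ, sc p θ + β ≠ 0 := fun θ => hβ ▸ (sc_ne h0 h1 θ).2.2.1
  have cP : ∀ c0 c1 c2 n1 n2 : ℝ, Continuous fun θ => Est_P c0 c1 c2 n1 n2 (sc p θ) := by
    intro c0 c1 c2 n1 n2
    exact (((continuous_const.add (continuous_const.div hs n0)).add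
      (continuous_const.mul hs)).add (continuous_const.div (hs.pow 2)
        fun θ => pow_ne_zero 2 (n0 θ))).add (continuous_const.mul (hs.pow 2))
  have cA : Continuous fun θ => (sc p θ + β) ^ 2 / sc p θ :=
    ((hs.add continuous_const).pow 2).div hs n0
  have cB : Continuous fun θ => (sc p θ - 1) / (sc p θ + β) :=
    (hs.sub continuous_const).div (hs.add continuous_const) nb
  set PA := Est_P (1 + k * m) m (m ^ 2 / 2 + n) k (k ^ 2 / 2 + l) with hPA
  set PB := Est_P (1 + k * m) (-m) (m ^ 2 / 2 - n) (-k) (k ^ 2 / 2 - l) with hPB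
  have cPA : Continuous fun θ => PA (sc p θ) := cP _ _ _ _ _
  have cPB : Continuous fun θ => PB (sc p θ) := cP _ _ _ _ _
  have e1 : (fun s => (U : ℂ) ^ 2 * ((s + β) ^ 2 / s * exp (L s)) +
        (D : ℂ) * ((s - 1) / (s + β) * exp (-L s))) = fun s =>
      (((U ^ 2 : ℝ) : ℂ) * ((s + β) ^ 2 / s * PA s) + (D : ℂ) * ((s - 1) / (s + β) * PB s)) +
        (((U ^ 2 : ℝ) : ℂ) * ((s + β) ^ 2 / s * (exp (L s) - PA s)) +
          (D : ℂ) * ((s - 1) / (s + β) * (exp (-L s) - PB s))) := by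
    funext s
    push_cast
    ring
  have c1 : Continuous fun θ => ((U ^ 2 : ℝ) : ℂ) * ((sc p θ + β) ^ 2 / sc p θ * PA (sc p θ)) :=
    continuous_const.mul (cA.mul cPA)
  have c2 : Continuous fun θ => (D : ℂ) * ((sc p θ - 1) / (sc p θ + β) * PB (sc p θ)) :=
    continuous_const.mul (cB.mul cPB)
  have c3 : ContinuousOn (fun θ =>
      ((U ^ 2 : ℝ) : ℂ) * ((sc p θ + β) ^ 2 / sc p θ * (exp (L (sc p θ)) - PA (sc p θ))) +
        (D : ℂ) * ((sc p θ - 1) / (sc p θ + β) * (exp (-L (sc p θ)) - PB (sc p θ))))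
      (Icc 0 Real.pi) :=
    (continuousOn_const.mul (cA.continuousOn.mul (hc.cexp.sub cPA.continuousOn))).add
      (continuousOn_const.mul (cB.continuousOn.mul (hc.neg.cexp.sub cPB.continuousOn)))
  have mA : Av p (fun s => (s + β) ^ 2 / s * PA s) = _ := mom_A h0 h1 hβ _ _ _ _ _
  have mB : Av p (fun s => (s - 1) / (s + β) * PB s) = _ := mom_B h0 h1 hβ _ _ _ _ _
  have mH := mom_H h0 h1 hβ (U ^ 2 * (1 + β) * c21 X1 X2 Y1 + D * c21 Y1 Y2 X1)
    (U ^ 2 * (1 + β) * c21 Y1 Y2 X1 + D * c30 Y1 Y2 Y3) (U ^ 2 * (1 + β) * c30 Y1 Y2 Y3)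
    (U ^ 2 * (1 + β) * c30 X1 X2 X3 + D * c21 X1 X2 Y1) (D * c30 X1 X2 X3)
  have hn : Continuous fun θ => ‖sc p θ‖ := hs.norm
  have nn : ∀ θ, ‖sc p θ‖ ≠ 0 := fun θ => norm_ne_zero_iff.2 (n0 θ)
  have hle := Av_le h0 h1 (φ := fun s =>
      ((U ^ 2 : ℝ) : ℂ) * ((s + β) ^ 2 / s * (exp (L s) - PA s)) +
        (D : ℂ) * ((s - 1) / (s + β) * (exp (-L s) - PB s)))
    (ψ := fun s => (((U ^ 2 * (1 + β) * c21 X1 X2 Y1 + D * c21 Y1 Y2 X1) +
      (U ^ 2 * (1 + β) * c30 X1 X2 X3 + D * c21 X1 X2 Y1) / ‖s‖ ^ 2 +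
      (U ^ 2 * (1 + β) * c21 Y1 Y2 X1 + D * c30 Y1 Y2 Y3) * ‖s‖ ^ 2 +
      (D * c30 X1 X2 X3) / ‖s‖ ^ 4 + (U ^ 2 * (1 + β) * c30 Y1 Y2 Y3) * ‖s‖ ^ 4 : ℝ) : ℂ))
    (continuous_ofReal.comp ((((continuous_const.add (continuous_const.div (hn.pow 2)
      fun θ => pow_ne_zero 2 (nn θ))).add (continuous_const.mul (hn.pow 2))).add
      (continuous_const.div (hn.pow 4) fun θ => pow_ne_zero 4 (nn θ))).add
      (continuous_const.mul (hn.pow 4)))).continuousOn
    (by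
      intro θ hθ
      obtain ⟨b1, b2, b3, b4, b5⟩ := hL θ hθ _ rfl
      have r1 := Est_rem (n0 θ) b1 b2 b3 b4 b5
      have r2 := Est_rem' (n0 θ) b1 b2 b3 b4 b5
      have wA := norm_wA h0 h1 θ
      have wB := norm_wB h0 h1 θ
      rw [← hβ] at wA wB
      have hb : 0 ≤ 1 + β := by
        rw [hβ]
        have := div_pos (sub_pos.2 h1) h0
        linarith
      have ha := nn θ
      rw [ofReal_re]
      refine (norm_add_le _ _).trans ?_
      rw [norm_mul, norm_mul, norm_mul, norm_mul, wA, wB, norm_real, norm_real,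
        Real.norm_of_nonneg (sq_nonneg U), Real.norm_of_nonneg hD]
      refine (add_le_add (mul_le_mul_of_nonneg_left (mul_le_mul_of_nonneg_left r1
        (mul_nonneg hb (norm_nonneg _))) (sq_nonneg U)) (mul_le_mul_of_nonneg_left
        (mul_le_mul_of_nonneg_left r2 (by positivity)) hD)).trans (le_of_eq ?_)
      rw [Est_R]
      field_simp
      ring)
  rw [mH] at hle
  rw [e1, Av_add h0 h1 (c1.add c2).continuousOn c3, Av_add h0 h1 c1.continuousOn c2.continuousOn,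
    Av_mul, Av_mul, mA, mB]
  convert hle using 2
  · rw [mainA, mainB]
    ring
  · rw [errA, errB]
    ring

theorem per_est {U D : ℝ} (hU : 0 < U) (hD : 0 < D) {L : ℂ → ℂ} {k m l n X1 X2 X3 Y1 Y2 Y3 : ℝ}
    (hc : ContinuousOn (fun θ => L (sc (U / (U + D)) θ)) (Icc 0 Real.pi))
    (hL : ∀ θ ∈ Icc 0 Real.pi, ∀ s, s = sc (U / (U + D)) θ →
      ‖L s - (k / s + m * s + l / s ^ 2 + n * s ^ 2)‖ ≤ X3 / ‖s‖ ^ 3 + Y3 * ‖s‖ ^ 3 ∧
      ‖L s - (k / s + m * s)‖ ≤ X2 / ‖s‖ ^ 2 + Y2 * ‖s‖ ^ 2 ∧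
      ‖L s‖ ≤ X1 / ‖s‖ + Y1 * ‖s‖ ∧ ‖k / s + m * s‖ ≤ X1 / ‖s‖ + Y1 * ‖s‖ ∧
      X1 / ‖s‖ + Y1 * ‖s‖ ≤ 4 / 5) :
    |Per U D L - e0 (U / (U + D)) * (U ^ 2 * mainA (D / U) (xb (U / (U + D))) k m l n +
        D * mainB (D / U) (xb (U / (U + D))) k m l n)| ≤
      e0 (U / (U + D)) * (U ^ 2 * errA (D / U) (xb (U / (U + D))) X1 X2 X3 Y1 Y2 Y3 +
        D * errB (D / U) (xb (U / (U + D))) X1 X2 X3 Y1 Y2 Y3) := by
  have hs : 0 < U + D := add_pos hU hD
  refine Est_gen (div_pos hU hs) ((div_lt_one hs).2 (by linarith)) ?_ hD.le hc hL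
  field_simp
  ring

end Pool.Agent.MP_92463a_gt

end
end

section

open Set Complex Filter Metric
open scoped Topology ComplexConjugate ContDiff Manifold

noncomputable section

namespace Pool.Agent.MP_92463a_gt

/-- `tn n = binom (2 n, n) / 4 ^ n` -/
def tn : ℕ → ℝ
  | 0 => 1
  | n + 1 => tn n * ((2 * n + 1) / (2 * n + 2))

theorem xb1_tn_pos (n : ℕ) : 0 < tn n := by
  induction n with
  | zero => exact one_pos
  | succ n ih => exact mul_pos ih (by positivity)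

theorem xb1_tn_succ (n : ℕ) : tn (n + 1) * (2 * n + 2) = tn n * (2 * n + 1) := by
  rw [tn]
  field_simp

theorem xb1_cos (n : ℕ) : ∫ θ in (0 : ℝ)..Real.pi, Real.cos θ ^ (2 * n) = Real.pi * tn n := by
  induction n with
  | zero => simp [tn]
  | succ n ih =>
    rw [Nat.mul_succ, integral_cos_pow, ih, tn]
    simp only [Real.sin_pi, Real.sin_zero, mul_zero, sub_zero, zero_div, zero_add]
    push_cast
    ring

theorem xb1_mono {f f' : ℝ → ℝ} {x : ℝ} (hx : 0 ≤ x)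
    (h : ∀ t ∈ Icc 0 x, HasDerivAt f (f' t) t) (h' : ∀ t ∈ Icc 0 x, 0 ≤ f' t) : f 0 ≤ f x := by
  refine monotoneOn_of_deriv_nonneg (convex_Icc 0 x)
    (fun t ht => (h t ht).continuousAt.continuousWithinAt)
    (fun t ht => (h t (interior_subset ht)).differentiableAt.differentiableWithinAt)
    (fun t ht => ?_) (left_mem_Icc.2 hx) (right_mem_Icc.2 hx) hx
  rw [(h t (interior_subset ht)).deriv]
  exact h' t (interior_subset ht)

theorem xb1_id (N : ℕ) (x : ℝ) :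
    2 * (1 - x) * ∑ n ∈ Finset.range (N + 1), tn n * (n * x ^ (n - 1)) -
      ∑ n ∈ Finset.range (N + 1), tn n * x ^ n = -((2 * N + 1) * tn N * x ^ N) := by
  induction N with
  | zero => simp [tn]
  | succ N ih =>
    rw [Finset.sum_range_succ _ (N + 1), Finset.sum_range_succ _ (N + 1), Nat.add_sub_cancel]
    push_cast
    linear_combination ih + x ^ N * xb1_tn_succ N

theorem xb1_der (N : ℕ) {t : ℝ} (ht : t < 1) :
    HasDerivAt (fun x => (∑ n ∈ Finset.range (N + 1), tn n * x ^ n) * √(1 - x))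
      (-((2 * N + 1) * tn N * t ^ N) / (2 * √(1 - t))) t := by
  have h1 : HasDerivAt (fun x : ℝ => ∑ n ∈ Finset.range (N + 1), tn n * x ^ n)
      (∑ n ∈ Finset.range (N + 1), tn n * (n * t ^ (n - 1))) t :=
    HasDerivAt.fun_sum fun n _ => (hasDerivAt_pow n t).const_mul _
  have h0 : 0 < 1 - t := sub_pos.2 ht
  have h2 : HasDerivAt (fun x : ℝ => √(1 - x)) (-1 / (2 * √(1 - t))) t :=
    ((hasDerivAt_id t).const_sub 1).sqrt h0.ne'
  have h3 : 0 < √(1 - t) := Real.sqrt_pos.2 h0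
  have h4 : √(1 - t) ^ 2 = 1 - t := Real.sq_sqrt h0.le
  refine (h1.mul h2).congr_deriv (Eq.symm ?_)
  rw [← xb1_id]
  generalize ∑ n ∈ Finset.range (N + 1), tn n * (n * t ^ (n - 1)) = A
  generalize ∑ n ∈ Finset.range (N + 1), tn n * t ^ n = B
  generalize √(1 - t) = r at h3 h4
  rw [← h4]
  field_simp
  ring

theorem xb1_zero (N : ℕ) : ∑ n ∈ Finset.range (N + 1), tn n * (0 : ℝ) ^ n = 1 := by
  rw [Finset.sum_range_succ']
  simp [tn]

theorem xb1_lo (N : ℕ) {x : ℝ} (h0 : 0 ≤ x) (h1 : x < 1) :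
    ∑ n ∈ Finset.range (N + 1), tn n * x ^ n ≤ 1 / √(1 - x) := by
  have h := xb1_mono h0 (fun t ht => (xb1_der N (ht.2.trans_lt h1)).neg) fun t ht => by
    have := xb1_tn_pos N
    have := ht.1
    rw [neg_div, neg_neg]
    positivity
  simp only [Pi.neg_apply, xb1_zero, sub_zero, Real.sqrt_one, mul_one] at h
  rw [le_div_iff₀ (Real.sqrt_pos.2 (sub_pos.2 h1))]
  linarith

theorem xb1_hi (N : ℕ) {x : ℝ} (h0 : 0 ≤ x) (h1 : x < 1) :
    1 / √(1 - x) ≤ ∑ n ∈ Finset.range N, tn n * x ^ n + tn N * x ^ N / (1 - x) := by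
  have hd : ∀ t < (1 : ℝ), HasDerivAt (fun x : ℝ => tn N * x ^ (N + 1) / √(1 - x))
      ((tn N * (((N + 1 : ℕ) : ℝ) * t ^ N) * √(1 - t) -
        tn N * t ^ (N + 1) * (-1 / (2 * √(1 - t)))) / √(1 - t) ^ 2) t := by
    intro t ht
    have h0 : 0 < 1 - t := sub_pos.2 ht
    exact ((hasDerivAt_pow (N + 1) t).const_mul _).div
      (((hasDerivAt_id t).const_sub 1).sqrt h0.ne') (Real.sqrt_pos.2 h0).ne'
  have h := xb1_mono h0
    (fun t ht => (xb1_der N (ht.2.trans_lt h1)).add (hd t (ht.2.trans_lt h1))) fun t ht => by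
      have h2 := xb1_tn_pos N
      have h3 := ht.1
      have h4 : 0 < √(1 - t) := Real.sqrt_pos.2 (sub_pos.2 (ht.2.trans_lt h1))
      generalize √(1 - t) = r at h4
      have : -((2 * N + 1) * tn N * t ^ N) / (2 * r) + (tn N * (((N + 1 : ℕ) : ℝ) * t ^ N) * r -
          tn N * t ^ (N + 1) * (-1 / (2 * r))) / r ^ 2 =
          tn N * t ^ N / (2 * r) + tn N * t ^ (N + 1) / (2 * r ^ 3) := by
        push_cast
        field_simp
        ring
      rw [this]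
      positivity
  simp only [Pi.add_apply, xb1_zero, sub_zero, Real.sqrt_one, mul_one, ne_eq,
    Nat.add_eq_zero_iff, one_ne_zero, and_false, not_false_eq_true, zero_pow, mul_zero, zero_div,
    add_zero] at h
  have h2 : 0 < 1 - x := sub_pos.2 h1
  have h3 : 0 < √(1 - x) := Real.sqrt_pos.2 h2
  have h4 : √(1 - x) ^ 2 = 1 - x := Real.sq_sqrt h2.le
  rw [Finset.sum_range_succ] at h
  rw [div_le_iff₀ h3]
  refine h.trans (le_of_eq ?_)
  generalize ∑ n ∈ Finset.range N, tn n * x ^ n = B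
  generalize √(1 - x) = r at h3 h4
  rw [← h4, pow_succ x, show x = 1 - r ^ 2 by linarith]
  field_simp
  ring

theorem xb1_cont (p : ℝ) : Continuous (Dl p) := by
  unfold Dl
  fun_prop

theorem xb1_lt {p : ℝ} (h0 : 0 < p) (θ : ℝ) :
    0 ≤ p * Real.cos θ ^ 2 ∧ p * Real.cos θ ^ 2 ≤ p :=
  ⟨by positivity, mul_le_of_le_one_right h0.le (Real.cos_sq_le_one θ)⟩

theorem xb1_int {p : ℝ} (h0 : 0 < p) (h1 : p < 1) {f : ℝ → ℝ} (hf : Continuous f) :
    IntervalIntegrable (fun θ => f θ / Dl p θ) MeasureTheory.volume 0 Real.pi :=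
  (hf.div (xb1_cont p) fun θ => (Dl_pos h0 h1 θ).ne').intervalIntegrable _ _

theorem xb1_sum (a : ℕ → ℝ) (k N : ℕ) :
    ∫ θ in (0 : ℝ)..Real.pi, ∑ n ∈ Finset.range N, a n * Real.cos θ ^ (2 * (n + k)) =
      Real.pi * ∑ n ∈ Finset.range N, a n * tn (n + k) := by
  rw [intervalIntegral.integral_finsetSum fun n _ => Continuous.intervalIntegrable (by fun_prop) _ _,
    Finset.mul_sum]
  refine Finset.sum_congr rfl fun n _ => ?_
  rw [intervalIntegral.integral_const_mul, xb1_cos]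
  ring

theorem xb1_anti {p : ℝ} (h0 : 0 < p) (h1 : p < 1) (θ : ℝ) :
    HasDerivAt (fun θ => Real.sin θ * (1 / √p + Real.cos θ) / Dl p θ)
      ((sc p θ).re / Dl p θ - (1 - Real.cos θ ^ 2) / Dl p θ) θ := by
  have h2 : 0 < 1 - p * Real.cos θ ^ 2 := sub_pos.2 ((xb1_lt h0 θ).2.trans_lt h1)
  have hD : HasDerivAt (Dl p)
      (-(p * (((2 : ℕ) : ℝ) * Real.cos θ ^ (2 - 1) * -Real.sin θ)) / (2 * Dl p θ)) θ :=
    ((((Real.hasDerivAt_cos θ).pow 2).const_mul p).const_sub 1).sqrt h2.ne'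
  have h3 := Dl_pos h0 h1 θ
  have h4 : Dl p θ ^ 2 = 1 - p * Real.cos θ ^ 2 := Real.sq_sqrt h2.le
  have h5 : 0 < √p := Real.sqrt_pos.2 h0
  have h6 : √p ^ 2 = p := Real.sq_sqrt h0.le
  have h7 := Real.sin_sq_add_cos_sq θ
  refine (((Real.hasDerivAt_sin θ).mul ((Real.hasDerivAt_cos θ).const_add (1 / √p))).div hD
    h3.ne').congr_deriv (Eq.symm ?_)
  rw [sc_re h0 h1]
  simp only [Pi.mul_apply]
  generalize Dl p θ = d at h3 h4
  generalize Real.cos θ = c at h2 h4 h7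
  generalize Real.sin θ = s at h7
  generalize √p = r at h5 h6
  subst h6
  have h8 : (1 - r * c) * (1 + r * c) = d ^ 2 := by rw [h4]; ring
  have h9 : 1 - r * c ≠ 0 := fun h => by
    rw [h, zero_mul] at h8
    exact (pow_pos h3 2).ne h8
  have h10 : (1 - r ^ 2) * c / (r * (1 - r * c)) = (1 - r ^ 2) * c * (1 + r * c) / (r * d ^ 2) := by
    rw [← h8, div_eq_div_iff (mul_ne_zero h5.ne' h9) (by rw [h8]; positivity)]
    ring
  rw [h10]
  field_simp
  have h11 : s ^ 2 = 1 - c ^ 2 := by linarith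
  rw [h11, h4]
  push_cast
  ring

theorem xb_eq {p : ℝ} (h0 : 0 < p) (h1 : p < 1) :
    xb p = 1 - (∫ θ in (0 : ℝ)..Real.pi, Real.cos θ ^ 2 / Dl p θ) /
      ∫ θ in (0 : ℝ)..Real.pi, 1 / Dl p θ := by
  have hre : Continuous fun θ => (sc p θ).re := by
    have : (fun θ => (sc p θ).re) =
        fun θ => (1 - p) * Real.cos θ / (√p * (1 - √p * Real.cos θ)) := funext (sc_re h0 h1)
    rw [this]
    refine Continuous.div (by fun_prop) (by fun_prop) fun θ => ?_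
    have h5 : 0 < √p := Real.sqrt_pos.2 h0
    have h6 : √p < 1 := by rw [Real.sqrt_lt' one_pos]; simpa using h1
    have h7 : √p * Real.cos θ ≤ √p := mul_le_of_le_one_right h5.le (Real.cos_le_one θ)
    exact mul_ne_zero h5.ne' (sub_pos.2 (h7.trans_lt h6)).ne'
  have i1 := xb1_int h0 h1 hre
  have i2 := xb1_int h0 h1 (f := fun θ => 1 - Real.cos θ ^ 2) (by fun_prop)
  have i3 := xb1_int h0 h1 (f := fun θ => Real.cos θ ^ 2) (by fun_prop)
  have i4 := xb1_int h0 h1 (f := fun _ => 1) (by fun_prop)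
  have h2 := intervalIntegral.integral_eq_sub_of_hasDerivAt
    (fun θ _ => xb1_anti h0 h1 θ) (i1.sub i2)
  rw [intervalIntegral.integral_sub i1 i2] at h2
  simp only [Real.sin_pi, Real.sin_zero, zero_mul, zero_div, sub_zero] at h2
  have h3 : ∫ θ in (0 : ℝ)..Real.pi, (1 - Real.cos θ ^ 2) / Dl p θ =
      (∫ θ in (0 : ℝ)..Real.pi, 1 / Dl p θ) -
        ∫ θ in (0 : ℝ)..Real.pi, Real.cos θ ^ 2 / Dl p θ := by
    rw [← intervalIntegral.integral_sub i4 i3]
    simp only [sub_div]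
  have h4 : e0 p = ∫ θ in (0 : ℝ)..Real.pi, 1 / Dl p θ := rfl
  have h5 := e0_pos h0 h1
  have h6 : Av p (fun s => s) = ∫ θ in (0 : ℝ)..Real.pi, (sc p θ).re / Dl p θ := rfl
  rw [xb, h6, ← h4, sub_eq_zero.1 h2, h3, ← h4, sub_div, div_self h5.ne']

theorem int_bd {p : ℝ} (h0 : 0 < p) (h1 : p < 1) (k N : ℕ) :
    Real.pi * ∑ n ∈ Finset.range (N + 1), tn n * tn (n + k) * p ^ n ≤
      ∫ θ in (0 : ℝ)..Real.pi, Real.cos θ ^ (2 * k) / Dl p θ ∧
    ∫ θ in (0 : ℝ)..Real.pi, Real.cos θ ^ (2 * k) / Dl p θ ≤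
      Real.pi * (∑ n ∈ Finset.range N, tn n * tn (n + k) * p ^ n +
        tn N * tn (N + k) * p ^ N / (1 - p)) := by
  have i1 := xb1_int h0 h1 (f := fun θ => Real.cos θ ^ (2 * k)) (by fun_prop)
  have hpt : ∀ (θ : ℝ) (n : ℕ), Real.cos θ ^ (2 * k) * (tn n * (p * Real.cos θ ^ 2) ^ n) =
      tn n * p ^ n * Real.cos θ ^ (2 * (n + k)) := fun θ n => by ring
  have hk : ∀ θ : ℝ, 0 ≤ Real.cos θ ^ (2 * k) := fun θ => by rw [pow_mul]; positivity
  constructor
  · have h2 := xb1_sum (fun n => tn n * p ^ n) k (N + 1)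
    rw [Finset.sum_congr rfl fun n _ => mul_right_comm (tn n) (tn (n + k)) (p ^ n), ← h2]
    refine intervalIntegral.integral_mono_on Real.pi_pos.le
      (Continuous.intervalIntegrable (by fun_prop) _ _) i1 fun θ _ => ?_
    have h3 := mul_le_mul_of_nonneg_left
      (xb1_lo N (xb1_lt h0 θ).1 ((xb1_lt h0 θ).2.trans_lt h1)) (hk θ)
    rw [Finset.mul_sum, mul_one_div] at h3
    simp only [hpt] at h3
    exact h3
  · have h2 := xb1_sum (fun n => tn n * p ^ n) k N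
    have h4 : ∫ θ in (0 : ℝ)..Real.pi, tn N * p ^ N / (1 - p) * Real.cos θ ^ (2 * (N + k)) =
        Real.pi * (tn N * tn (N + k) * p ^ N / (1 - p)) := by
      rw [intervalIntegral.integral_const_mul, xb1_cos]
      ring
    rw [Finset.sum_congr rfl fun n _ => mul_right_comm (tn n) (tn (n + k)) (p ^ n), mul_add, ← h2,
      ← h4, ← intervalIntegral.integral_add (Continuous.intervalIntegrable (by fun_prop) _ _)
        (Continuous.intervalIntegrable (by fun_prop) _ _)]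
    refine intervalIntegral.integral_mono_on Real.pi_pos.le i1
      (Continuous.intervalIntegrable (by fun_prop) _ _) fun θ _ => ?_
    obtain ⟨h5, h6⟩ := xb1_lt h0 θ
    have h7 : tn N * (p * Real.cos θ ^ 2) ^ N / (1 - p * Real.cos θ ^ 2) ≤
        tn N * (p * Real.cos θ ^ 2) ^ N / (1 - p) :=
      div_le_div_of_nonneg_left (mul_nonneg (xb1_tn_pos N).le (pow_nonneg h5 N)) (sub_pos.2 h1)
        (by linarith)
    have h3 := mul_le_mul_of_nonneg_left
      ((xb1_hi N h5 (h6.trans_lt h1)).trans (add_le_add_right h7 _)) (hk θ)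
    rw [mul_add, Finset.mul_sum, mul_one_div, ← mul_div_assoc] at h3
    simp only [hpt] at h3
    rw [div_mul_eq_mul_div]
    exact h3

end Pool.Agent.MP_92463a_gt

end
end

section

open Set Complex Filter Metric
open scoped Topology ComplexConjugate ContDiff Manifold

noncomputable section

namespace Pool.Agent.MP_92463a_gt

def Xb2A (c p : ℝ) : ℝ :=
  (1 / 1 : ℝ) * p ^ 0 +
    (1 / 4 : ℝ) * p ^ 1 +
    (9 / 64 : ℝ) * p ^ 2 +
    (25 / 256 : ℝ) * p ^ 3 +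
    (1225 / 16384 : ℝ) * p ^ 4 +
    (3969 / 65536 : ℝ) * p ^ 5 +
    (53361 / 1048576 : ℝ) * p ^ 6 +
    (184041 / 4194304 : ℝ) * p ^ 7 +
    (41409225 / 1073741824 : ℝ) * p ^ 8 +
    (147744025 / 4294967296 : ℝ) * p ^ 9 +
    (2133423721 / 68719476736 : ℝ) * p ^ 10 +
    (7775536041 / 274877906944 : ℝ) * p ^ 11 +
    (457028729521 / 17592186044416 : ℝ) * p ^ 12 * c

def Xb2M (c p : ℝ) : ℝ :=
  (1 / 2 : ℝ) * p ^ 0 +
    (3 / 16 : ℝ) * p ^ 1 +
    (15 / 128 : ℝ) * p ^ 2 +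
    (175 / 2048 : ℝ) * p ^ 3 +
    (2205 / 32768 : ℝ) * p ^ 4 +
    (14553 / 262144 : ℝ) * p ^ 5 +
    (99099 / 2097152 : ℝ) * p ^ 6 +
    (2760615 / 67108864 : ℝ) * p ^ 7 +
    (78217425 / 2147483648 : ℝ) * p ^ 8 +
    (561427295 / 17179869184 : ℝ) * p ^ 9 +
    (4072899831 / 137438953472 : ℝ) * p ^ 10 +
    (59612442981 / 2199023255552 : ℝ) * p ^ 11 +
    (878901402925 / 35184372088832 : ℝ) * p ^ 12 * c

theorem Xb2_one {p : ℝ} (h0 : 0.29 ≤ p) (h1 : p ≤ 0.71) :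
    Xb2M (100 / 29) p ≤ (1 - qx p + 1 / 1000) * Xb2A 1 p := by
  obtain ⟨x, hx⟩ : ∃ x : ℝ, x = p - 29 / 100 := ⟨_, rfl⟩
  obtain ⟨y, hy⟩ : ∃ y : ℝ, y = 71 / 100 - p := ⟨_, rfl⟩
  have h2 : 0 ≤ x := by linarith
  have h3 : 0 ≤ y := by linarith
  have h : (1 - qx p + 1 / 1000) * Xb2A 1 p - Xb2M (100 / 29) p =
    (17847363507177051539069067790340302247002493 / 39269843018981812673985967131237285888000 : ℝ) * x ^ 0 * y ^ 15 +
    (20129869886611543621349581402166682722850787 / 2617989534598787511599064475415819059200 : ℝ) * x ^ 1 * y ^ 14 +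
    (7066797858577304706449118670552894383930911 / 124666168314227976742812594067419955200 : ℝ) * x ^ 2 * y ^ 13 +
    (277875088556381602459250948888316679574670311 / 1121995514828051790685313346606779596800 : ℝ) * x ^ 3 * y ^ 12 +
    (272461653179830554685369938503432583506212249 / 373998504942683930228437782202259865600 : ℝ) * x ^ 4 * y ^ 11 +
    (964759926836410297135601791751265479573771567 / 623330841571139883714062970337099776000 : ℝ) * x ^ 5 * y ^ 10 +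
    (2786121745585431304676012097626024024596878259 / 1121995514828051790685313346606779596800 : ℝ) * x ^ 6 * y ^ 9 +
    (2705584433171610316596049865342102196805886381 / 872663178199595837199688158471939686400 : ℝ) * x ^ 7 * y ^ 8 +
    (297602535903881672254759147007892183847287931 / 96962575355510648577743128719104409600 : ℝ) * x ^ 8 * y ^ 7 +
    (2719587481999467957463109012292427260669488461 / 1121995514828051790685313346606779596800 : ℝ) * x ^ 9 * y ^ 6 +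
    (2827575980235152845815283322757451060632074099 / 1869992524713419651142188911011299328000 : ℝ) * x ^ 10 * y ^ 5 +
    (90163414362965286473691701891406584704924877 / 124666168314227976742812594067419955200 : ℝ) * x ^ 11 * y ^ 4 +
    (8162165561800085004361045920355782958309078741 / 32537869930013501929874087051596608307200 : ℝ) * x ^ 12 * y ^ 3 +
    (620340282943234313758972057678668398198252663 / 10845956643337833976624695683865536102400 : ℝ) * x ^ 13 * y ^ 2 +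
    (178003056070224774922640296986201639760031939 / 25307232167788279278790956595686250905600 : ℝ) * x ^ 14 * y ^ 1 +
    (289976914206736288103671257737629318502348503 / 1138825447550472567545593046805881290752000 : ℝ) * x ^ 15 * y ^ 0 := by
    rw [hx, hy, qx, Xb2A, Xb2M]
    ring
  rw [← sub_nonneg, h]
  positivity

theorem Xb2_two {p : ℝ} (h0 : 0.29 ≤ p) (h1 : p ≤ 0.71) :
    (1 - qx p - 1 / 1000) * Xb2A (100 / 29) p ≤ Xb2M 1 p := by
  obtain ⟨x, hx⟩ : ∃ x : ℝ, x = p - 29 / 100 := ⟨_, rfl⟩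
  obtain ⟨y, hy⟩ : ∃ y : ℝ, y = 71 / 100 - p := ⟨_, rfl⟩
  have h2 : 0 ≤ x := by linarith
  have h3 : 0 ≤ y := by linarith
  have h : Xb2M 1 p - (1 - qx p - 1 / 1000) * Xb2A (100 / 29) p =
    (40823197533396200669007717787929323220307 / 78539686037963625347971934262474571776 : ℝ) * x ^ 0 * y ^ 15 +
    (924474711169677406909730260264984546313093 / 130899476729939375579953223770790952960 : ℝ) * x ^ 1 * y ^ 14 +
    (32954668895122998600835408872879330677857 / 692589823967933204126736633707888640 : ℝ) * x ^ 2 * y ^ 13 +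
    (11709317372597455858801469825203328315182177 / 56099775741402589534265667330338979840 : ℝ) * x ^ 3 * y ^ 12 +
    (12246700296603787820031383040459324412023839 / 18699925247134196511421889110112993280 : ℝ) * x ^ 4 * y ^ 11 +
    (9526442208942320546815056999316815738008773 / 6233308415711398837140629703370997760 : ℝ) * x ^ 5 * y ^ 10 +
    (151419376287967730308524292078990358797878581 / 56099775741402589534265667330338979840 : ℝ) * x ^ 6 * y ^ 9 +
    (158541738830950520108179097631200158904443243 / 43633158909979791859984407923596984320 : ℝ) * x ^ 7 * y ^ 8 +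
    (54258405516074633620954383561875030223122311 / 14544386303326597286661469307865661440 : ℝ) * x ^ 8 * y ^ 7 +
    (162953161436860610788280667786079692747026891 / 56099775741402589534265667330338979840 : ℝ) * x ^ 9 * y ^ 6 +
    (31660911387564940485702972183577755693447857 / 18699925247134196511421889110112993280 : ℝ) * x ^ 10 * y ^ 5 +
    (1500129648316279917919689527123457698785561 / 2077769471903799612380209901123665920 : ℝ) * x ^ 11 * y ^ 4 +
    (352524181878931351504317218995187974409911043 / 1626893496500675096493704352579830415360 : ℝ) * x ^ 12 * y ^ 3 +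
    (23190577850047321955865755859864153077562961 / 542297832166891698831234784193276805120 : ℝ) * x ^ 13 * y ^ 2 +
    (6128439693227716832073305199391761251527589 / 1265361608389413963939547829784312545280 : ℝ) * x ^ 14 * y ^ 1 +
    (2489479426648694644967762191990836525666301 / 11388254475504725675455930468058812907520 : ℝ) * x ^ 15 * y ^ 0 := by
    rw [hx, hy, qx, Xb2A, Xb2M]
    ring
  rw [← sub_nonneg, h]
  positivity

theorem Xb2_A (c p : ℝ) : ∑ n ∈ Finset.range 12, tn n * tn (n + 0) * p ^ n +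
    tn 12 * tn (12 + 0) * p ^ 12 * c = Xb2A c p := by
  simp only [Finset.sum_range_succ, Finset.sum_range_zero, tn, Xb2A]
  push_cast
  ring

theorem Xb2_M (c p : ℝ) : ∑ n ∈ Finset.range 12, tn n * tn (n + 1) * p ^ n +
    tn 12 * tn (12 + 1) * p ^ 12 * c = Xb2M c p := by
  simp only [Finset.sum_range_succ, Finset.sum_range_zero, tn, Xb2M]
  push_cast
  ring

theorem xb_bd {p : ℝ} (h0 : 0.29 ≤ p) (h1 : p ≤ 0.71) : |xb p - qx p| ≤ 1 / 1000 := by
  have hp : 0 < p := by linarith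
  have hq : p < 1 := by linarith
  obtain ⟨a1, a2⟩ := int_bd hp hq 0 12
  obtain ⟨m1, m2⟩ := int_bd hp hq 1 12
  have hc : (1 - p)⁻¹ ≤ 100 / 29 := by
    rw [inv_le_comm₀ (by linarith) (by norm_num)]
    linarith
  rw [Finset.sum_range_succ, ← mul_one (tn 12 * _ * p ^ 12), Xb2_A] at a1
  rw [Finset.sum_range_succ, ← mul_one (tn 12 * _ * p ^ 12), Xb2_M] at m1
  rw [div_eq_mul_inv (tn 12 * _ * p ^ 12), Xb2_A] at a2
  rw [div_eq_mul_inv (tn 12 * _ * p ^ 12), Xb2_M] at m2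
  simp only [mul_zero, pow_zero, mul_one] at a1 a2 m1 m2
  have a3 : Xb2A (1 - p)⁻¹ p ≤ Xb2A (100 / 29) p := by
    unfold Xb2A
    gcongr
  have m3 : Xb2M (1 - p)⁻¹ p ≤ Xb2M (100 / 29) p := by
    unfold Xb2M
    gcongr
  have a0 : 0 < Xb2A 1 p := by
    unfold Xb2A
    positivity
  have hq1 : 0 ≤ 1 - qx p - 1 / 1000 := by
    have h2 : |p - 1 / 2| ≤ 1 / 4 := abs_le.2 ⟨by linarith, by linarith⟩
    obtain ⟨h3, h4⟩ := abs_le.1 h2
    unfold qx
    nlinarith [mul_self_nonneg (p - 1 / 2), mul_nonneg (mul_self_nonneg (p - 1 / 2)) hp.le]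
  have hpi := Real.pi_pos
  have hA := (mul_pos hpi a0).trans_le a1
  have b1 := mul_le_mul_of_nonneg_left (Xb2_one h0 h1) hpi.le
  have b2 := mul_le_mul_of_nonneg_left (Xb2_two h0 h1) hpi.le
  have b3 := mul_le_mul_of_nonneg_left a3 hpi.le
  have b4 := mul_le_mul_of_nonneg_left m3 hpi.le
  have b5 := mul_le_mul_of_nonneg_left a1 (show 0 ≤ 1 - qx p + 1 / 1000 by linarith)
  have b6 := mul_le_mul_of_nonneg_left (a2.trans b3) hq1
  rw [xb_eq hp hq]
  have c1 := (div_le_iff₀ hA).2 (((m2.trans b4).trans b1).trans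
    ((mul_left_comm _ _ _).trans_le b5))
  have c2 := (le_div_iff₀ hA).2 ((b6.trans ((mul_left_comm _ _ _).trans_le b2)).trans m1)
  exact abs_le.2 ⟨by linarith, by linarith⟩

end Pool.Agent.MP_92463a_gt

end
end

section

open Set Complex Filter Metric
open scoped Topology ComplexConjugate ContDiff Manifold

noncomputable section

namespace Pool.Agent.MP_92463a_gt

open FaceX in
theorem face_run (p q : List Ex) (l : List ℝ) : run (p ++ q) l = run q (run p l) := by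
  induction p generalizing l with
  | nil => rfl
  | cons e p ih => exact ih _

open FaceX in
theorem face_B (au UU al β X p iD iU U t x x2 y y2 D a a' b b' s : ℝ) :
    (run progB [au, UU, al, β⁻¹, β, X, p, iD, iU, U, t, x, x2, y, y2, D, a, a', b, b', s]).headD 0 =
      s * (UU * mainA β X (-x * al) (-y * au) (x2 * al ^ 2) (y2 * au ^ 2) +
        D * mainB β X (-x * al) (-y * au) (x2 * al ^ 2) (y2 * au ^ 2)) +
      (UU * errA β X ((x + a) * al) (a * al ^ 2) (a' * al ^ 3) ((y + b) * au) (b * au ^ 2)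
          (b' * au ^ 3) +
        D * errB β X ((x + a) * al) (a * al ^ 2) (a' * al ^ 3) ((y + b) * au) (b * au ^ 2)
          (b' * au ^ 3)) := by
  simp only [progB, run, Ex.ev, List.getD_cons_succ, List.getD_cons_zero, List.headD_cons,
    mainA, mainB, errA, errB, c30, c21, mA0, mA1, mA2, nA1, nA2, nH1, nH2, mH2, mH1, mB0, mB2, mB1,
    nB2, mE3]
  push_cast
  rw [show (β - 2 / 1 * ((β - 1 / 1) * X)) * (1 / 3) = mE2 β X by rw [mE2]; ring]
  ring

open FaceX in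
theorem face_A {U D : ℝ} (hU : 0.1 ≤ U) (hD : 0.1 ≤ D) (X x x2 y y2 a a' b b' s : ℝ) :
    run progA [U, X - qx (U / (U + D)), x, x2, y, y2, D, a, a', b, b', s] =
      [U ^ 2 / D, U ^ 2, D ^ 2 / U, (D / U)⁻¹, D / U, X, U / (U + D) - 1 / 2, D⁻¹, U⁻¹,
        U, X - qx (U / (U + D)), x, x2, y, y2, D, a, a', b, b', s] := by
  have h : ∀ z : ℝ, 0.1 ≤ z → max z (2 ^ 40)⁻¹ = z := fun z hz =>
    max_eq_left (le_trans (by norm_num) hz)
  have e : ((1 : ℤ) : ℝ) / (2 : ℕ) - D * (U + D)⁻¹ = U / (U + D) - 1 / 2 := by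
    have : U + D ≠ 0 := by linarith
    push_cast
    field_simp
    ring
  simp only [progA, run, Ex.ev, List.getD_cons_succ, List.getD_cons_zero, h U hU, h D hD,
    h (U + D) (by linarith), e, List.cons.injEq, and_true, qx]
  push_cast
  refine ⟨by ring, by ring, by ring, by rw [inv_div]; ring, by ring, by ring⟩

open FaceX in
theorem face_chk {lo up : Bool} {U D X x x2 y y2 s : ℝ} {T : Tr} {L : List Iv} (hU : 0.1 ≤ U)
    (hD : 0.1 ≤ D) (hc : check (progA ++ progB) T L = true)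
    (hL : List.Forall₂ Mem [U, X - qx (U / (U + D)), x, x2, y, y2, D, h2 lo, h3 lo, h2 up, h3 up, s]
      L) : s * smain U D X x x2 y y2 + serr lo up U D X x y < 0 := by
  have := sound _ T hL hc
  rwa [face_run, face_A hU hD, face_B] at this

theorem face (lo up : Bool) {U D X x x2 y y2 : ℝ} (hU : U ∈ Icc (dLo up lo) (dHi up lo))
    (hX : |X - qx (U / (U + D))| ≤ 1 / 1000) (hx : Fc lo x x2) (hy : Fc up y y2) :
    (D = dLo lo up → smain U D X x x2 y y2 + serr lo up U D X x y < 0) ∧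
    (D = dHi lo up → 0 < smain U D X x x2 y y2 - serr lo up U D X x y) := by
  obtain ⟨hX1, hX2⟩ := abs_le.1 hX
  have key : ∀ {s : ℝ} {T : FaceX.Tr} {u u' a a' b b' c c' d d' e f f' g g' i : ℤ}, 0.1 ≤ U →
      0.1 ≤ D → FaceX.check (FaceX.progA ++ FaceX.progB) T [.mil u u', .mil (-1) 1, .mil a a',
        .mil b b', .mil c c', .mil d d', .mil e e, .mil f f, .mil f' f', .mil g g, .mil g' g',
        .mil i i] = true →
      ((u : ℝ) / 1000 ≤ U ∧ U ≤ u' / 1000) ∧ ((a : ℝ) / 1000 ≤ x ∧ x ≤ a' / 1000) ∧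
        ((b : ℝ) / 1000 ≤ x2 ∧ x2 ≤ b' / 1000) ∧ ((c : ℝ) / 1000 ≤ y ∧ y ≤ c' / 1000) ∧
        ((d : ℝ) / 1000 ≤ y2 ∧ y2 ≤ d' / 1000) ∧ D = e / 1000 ∧ h2 lo = f / 1000 ∧
        h3 lo = f' / 1000 ∧ h2 up = g / 1000 ∧ h3 up = g' / 1000 ∧ s = i / 1000 →
      s * smain U D X x x2 y y2 + serr lo up U D X x y < 0 := by
    rintro s T u u' a a' b b' c c' d d' e f f' g g' i k1 k2 hc ⟨h1, h2, h3, h4, h5, h6, h7, h8, h9,
      h10, h11⟩
    exact face_chk k1 k2 hc (.cons (FaceX.mem_mil h1.1 h1.2) <|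
      .cons (FaceX.mem_mil (by push_cast; linarith) (by push_cast; linarith)) <|
      .cons (FaceX.mem_mil h2.1 h2.2) <| .cons (FaceX.mem_mil h3.1 h3.2) <|
      .cons (FaceX.mem_mil h4.1 h4.2) <| .cons (FaceX.mem_mil h5.1 h5.2) <|
      .cons (FaceX.mem_mil h6.ge h6.le) <| .cons (FaceX.mem_mil h7.ge h7.le) <|
      .cons (FaceX.mem_mil h8.ge h8.le) <| .cons (FaceX.mem_mil h9.ge h9.le) <|
      .cons (FaceX.mem_mil h10.ge h10.le) <| .cons (FaceX.mem_mil h11.ge h11.le) .nil)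
  suffices H : (D = dLo lo up → 1 * smain U D X x x2 y y2 + serr lo up U D X x y < 0) ∧
      (D = dHi lo up → -1 * smain U D X x x2 y y2 + serr lo up U D X x y < 0) from
    ⟨fun h => by linarith [H.1 h], fun h => by linarith [H.2 h]⟩
  cases lo <;> cases up <;> simp only [dLo, dHi, Fc, mem_Icc] at hU hx hy ⊢ <;>
    obtain ⟨hU1, hU2⟩ := hU <;> obtain ⟨hx1, hx2⟩ := hx <;> obtain ⟨hy1, hy2⟩ := hy <;>
    refine ⟨fun hD => ?_, fun hD => ?_⟩
  · refine key (by linarith) (by linarith) FaceX.chk000 ?_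
    clear key hX hX1 hX2
    norm_num [h2, h3] at *
    simp only [*, and_self, le_refl]
  · refine key (by linarith) (by linarith) FaceX.chk001 ?_
    clear key hX hX1 hX2
    norm_num [h2, h3] at *
    simp only [*, and_self, le_refl]
  · refine key (by linarith) (by linarith) FaceX.chk010 ?_
    clear key hX hX1 hX2
    norm_num [h2, h3] at *
    simp only [*, and_self, le_refl]
  · refine key (by linarith) (by linarith) FaceX.chk011 ?_
    clear key hX hX1 hX2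
    norm_num [h2, h3] at *
    simp only [*, and_self, le_refl]
  · refine key (by linarith) (by linarith) FaceX.chk100 ?_
    clear key hX hX1 hX2
    norm_num [h2, h3] at *
    simp only [*, and_self, le_refl]
  · refine key (by linarith) (by linarith) FaceX.chk101 ?_
    clear key hX hX1 hX2
    norm_num [h2, h3] at *
    simp only [*, and_self, le_refl]
  · refine key (by linarith) (by linarith) FaceX.chk110 ?_
    clear key hX hX1 hX2
    norm_num [h2, h3] at *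
    simp only [*, and_self]
  · refine key (by linarith) (by linarith) FaceX.chk111 ?_
    clear key hX hX1 hX2
    norm_num [h2, h3] at *
    simp only [*, and_self]

end Pool.Agent.MP_92463a_gt

end
end

section

open Set Complex Filter Metric
open scoped Topology ComplexConjugate ContDiff Manifold

noncomputable section

namespace Pool.Agent.MP_92463a_gt

theorem InBox.symm {lo up : Bool} {U D : ℝ} (h : InBox lo up U D) : InBox up lo D U := ⟨h.2, h.1⟩

theorem InBox.bd {lo up : Bool} {U D : ℝ} (h : InBox lo up U D) :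
    0.128 ≤ U ∧ U ≤ 0.31 ∧ 0.128 ≤ D ∧ D ≤ 0.31 ∧ 0.29 ≤ U / (U + D) ∧ U / (U + D) ≤ 0.71 := by
  obtain ⟨⟨h1, h2⟩, h3, h4⟩ := h
  have key : 0.128 ≤ U ∧ U ≤ 0.31 ∧ 0.128 ≤ D ∧ D ≤ 0.31 ∧ 0.29 * (U + D) ≤ U ∧
      U ≤ 0.71 * (U + D) := by
    cases lo <;> cases up <;> simp only [dLo, dHi] at h1 h2 h3 h4 <;>
      refine ⟨?_, ?_, ?_, ?_, ?_, ?_⟩ <;> linarith
  obtain ⟨a, b, c, d, e, f⟩ := key
  have hs : 0 < U + D := by linarith
  exact ⟨a, b, c, d, (le_div_iff₀ hs).2 e, (div_le_iff₀ hs).2 f⟩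

theorem App_le {ν U c r : ℝ} (hU : 0 < U) (hr : 0 ≤ r) (h : ν ^ 2 * U ≤ c * U)
    (hc : c ≤ r ^ 2) : ν ≤ r :=
  (abs_le_of_sq_le_sq' ((le_of_mul_le_mul_right h hU).trans hc) hr).2

theorem InBox.arg {lo up : Bool} {U D : ℝ} (h : InBox lo up U D) (θ : ℝ) :
    ‖((D ^ 2 / U : ℝ) : ℂ) / sc (U / (U + D)) θ‖ ≤ 1 ∧
      (up = true → ‖((U ^ 2 / D : ℝ) : ℂ) * sc (U / (U + D)) θ‖ ≤ 1) := by
  obtain ⟨a, b, c, d, e, f⟩ := h.bd
  have hU : 0 < U := by linarith
  have hD : 0 < D := by linarith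
  have h0 : 0 < U / (U + D) := by linarith
  have h1 : U / (U + D) < 1 := by linarith
  obtain ⟨n1, n2, -⟩ := sc_norm h0 h1 θ
  have hs := norm_pos_iff.2 (sc_ne h0 h1 θ).1
  have ν0 : 0 < 1 / √(U / (U + D)) := by positivity
  have ν2 : (1 / √(U / (U + D))) ^ 2 * U = U + D := by
    rw [div_pow, Real.sq_sqrt h0.le]
    field_simp
  generalize 1 / √(U / (U + D)) = ν at n1 n2 ν0 ν2
  generalize sc (U / (U + D)) θ = s at n1 n2 hs
  have hle : 0.29 * (U + D) ≤ U := (le_div_iff₀ (by linarith)).1 e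
  have ν3 : ν ≤ 1.86 := App_le (c := 3.45) hU (by norm_num) (by linarith) (by norm_num)
  constructor
  · rw [norm_div, norm_real, Real.norm_of_nonneg (by positivity), div_le_one hs, div_le_iff₀ hU]
    have h2 : D * (ν + 1) ≤ 1 := by nlinarith
    have h3 : D = (ν - 1) * U * (ν + 1) := by linarith
    have h4 : 0 ≤ (ν - 1) * U := by
      by_contra h5
      nlinarith
    calc D ^ 2 = (ν - 1) * U * (D * (ν + 1)) := by linear_combination D * h3
      _ ≤ (ν - 1) * U * 1 := mul_le_mul_of_nonneg_left h2 h4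
      _ ≤ ‖s‖ * U := by rw [mul_one]; exact mul_le_mul_of_nonneg_right n1 hU.le
  · rintro rfl
    rw [norm_mul, norm_real, Real.norm_of_nonneg (by positivity), div_mul_eq_mul_div,
      div_le_one hD]
    refine (mul_le_mul_of_nonneg_left n2 (sq_nonneg U)).trans ?_
    obtain ⟨⟨h1, h2⟩, h3, h4⟩ := h
    cases lo <;> simp only [dLo, dHi] at h1 h2 h3 h4
    · have : U ^ 2 ≤ 0.035 := by nlinarith
      nlinarith
    · have ν4 : ν ≤ 1.61 := App_le (c := 2.57) hU (by norm_num) (by linarith) (by norm_num)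
      have : U ^ 2 ≤ 0.0553 := by nlinarith
      nlinarith

theorem App_cls {b : Bool} {Λ : ℂ → ℂ} {x x2 : ℝ} (h : Cls b Λ x x2) {v : ℂ}
    (hv : b = true → ‖v‖ ≤ 1) :
    ‖Λ v + x * v - x2 * v ^ 2‖ ≤ h3 b * ‖v‖ ^ 3 ∧ ‖Λ v + x * v‖ ≤ h2 b * ‖v‖ ^ 2 ∧
      ‖Λ v‖ ≤ (x + h2 b) * ‖v‖ ∧ ‖(x : ℂ) * v‖ ≤ (x + h2 b) * ‖v‖ ∧ x + h2 b ≤ 0.582 ∧
      (b = false → x + h2 b = 0) := by
  have h1 := h.2 v hv
  have h0 := h.1
  have hn := norm_nonneg v
  cases b
  · obtain ⟨rfl, rfl⟩ := h0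
    simp only [h3, h2] at h1 ⊢
    have h4 : Λ v = 0 := by simpa using h1
    simp only [h4]
    norm_num
  · obtain ⟨⟨a, b⟩, c, d⟩ := h0
    have hv := hv rfl
    simp only [h3, h2] at h1 ⊢
    have e1 : ‖(x : ℂ) * v‖ = x * ‖v‖ := by
      rw [norm_mul, norm_real, Real.norm_of_nonneg (by linarith)]
    have e2 : ‖(x2 : ℂ) * v ^ 2‖ = x2 * ‖v‖ ^ 2 := by
      rw [norm_mul, norm_real, Real.norm_of_nonneg (by linarith), norm_pow]
    have p2 : ‖v‖ ^ 2 ≤ ‖v‖ := by nlinarith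
    have p3 : ‖v‖ ^ 3 ≤ ‖v‖ ^ 2 := by nlinarith [sq_nonneg ‖v‖]
    have h4 : ‖Λ v + x * v‖ ≤ 0.05 * ‖v‖ ^ 2 := by
      have := norm_add_le (Λ v + x * v - x2 * v ^ 2) (x2 * v ^ 2)
      rw [sub_add_cancel, e2] at this
      nlinarith [sq_nonneg ‖v‖]
    refine ⟨h1, h4, ?_, ?_, by linarith, by simp⟩
    · have := norm_sub_le (Λ v + x * v) (x * v)
      rw [add_sub_cancel_right, e1] at this
      linarith
    · rw [e1]
      linarith

theorem per_face {lo up : Bool} {U D x x2 y y2 : ℝ} {Λ M L : ℂ → ℂ} (h : InBox lo up U D)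
    (hΛ : Cls lo Λ x x2) (hM : Cls up M y y2)
    (hL : ∀ s, L s = Λ (((D ^ 2 / U : ℝ) : ℂ) / s) + M (((U ^ 2 / D : ℝ) : ℂ) * s))
    (hc : ContinuousOn (fun θ => L (sc (U / (U + D)) θ)) (Icc 0 Real.pi)) :
    (D = dLo lo up → Per U D L < 0) ∧ (D = dHi lo up → 0 < Per U D L) := by
  obtain ⟨a, b, c, d, e, f⟩ := h.bd
  have hU : 0 < U := by linarith
  have hD : 0 < D := by linarith
  have h0 : 0 < U / (U + D) := by linarith
  have h1 : U / (U + D) < 1 := by linarith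
  have est := per_est hU hD (k := -x * (D ^ 2 / U)) (m := -y * (U ^ 2 / D))
    (l := x2 * (D ^ 2 / U) ^ 2) (n := y2 * (U ^ 2 / D) ^ 2) (X1 := (x + h2 lo) * (D ^ 2 / U))
    (X2 := h2 lo * (D ^ 2 / U) ^ 2) (X3 := h3 lo * (D ^ 2 / U) ^ 3)
    (Y1 := (y + h2 up) * (U ^ 2 / D)) (Y2 := h2 up * (U ^ 2 / D) ^ 2)
    (Y3 := h3 up * (U ^ 2 / D) ^ 3) hc (by
      intro θ _ s hs
      obtain ⟨v1, v2⟩ := h.arg θ
      have s0 : s ≠ 0 := hs ▸ (sc_ne h0 h1 θ).1
      rw [← hs] at v1 v2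
      obtain ⟨a1, a2, a3, a4, a5, a6⟩ := App_cls hΛ fun _ => v1
      obtain ⟨b1, b2, b3, b4, b5, b6⟩ := App_cls hM v2
      have hα : 0 < D ^ 2 / U := by positivity
      have hβ : 0 < U ^ 2 / D := by positivity
      have hαβ : D ^ 2 / U * (U ^ 2 / D) = U * D := by field_simp
      have hLs := hL s
      generalize D ^ 2 / U = α at *
      generalize U ^ 2 / D = β at *
      have n0 := norm_pos_iff.2 s0
      have e1 : ‖(α : ℂ) / s‖ = α / ‖s‖ := by rw [norm_div, norm_real, Real.norm_of_nonneg hα.le]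
      have e2 : ‖(β : ℂ) * s‖ = β * ‖s‖ := by rw [norm_mul, norm_real, Real.norm_of_nonneg hβ.le]
      rw [e1] at a1 a2 a3 a4 v1
      rw [e2] at b1 b2 b3 b4 v2
      rw [hLs, mul_div_assoc, mul_div_assoc, mul_div_assoc, ← div_pow, ← div_pow, mul_assoc,
        mul_assoc, mul_assoc, ← mul_pow, ← mul_pow]
      refine ⟨le_trans (le_of_eq_of_le ?_ (norm_add_le _ _)) (add_le_add a1 b1),
        le_trans (le_of_eq_of_le ?_ (norm_add_le _ _)) (add_le_add a2 b2),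
        le_trans (norm_add_le _ _) (add_le_add a3 b3),
        le_trans (le_of_eq_of_le ?_ (norm_add_le _ _)) (add_le_add a4 b4), ?_⟩
      · congr 1
        push_cast
        ring
      · congr 1
        push_cast
        ring
      · rw [← norm_neg]
        congr 1
        push_cast
        ring
      · have p1 : 0 < α / ‖s‖ := by positivity
        have p2 : 0 < β * ‖s‖ := by positivity
        have p3 : α / ‖s‖ * (β * ‖s‖) = U * D := by rw [← hαβ]; field_simp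
        have q1 := mul_le_mul_of_nonneg_right a5 p1.le
        have q2 := mul_le_mul_of_nonneg_right b5 p2.le
        cases up
        · rw [b6 rfl]
          linarith
        · have v2 := v2 rfl
          have q3 : U * D ≤ 0.1 := by nlinarith
          nlinarith [mul_nonneg (sub_nonneg.2 v1) (sub_nonneg.2 v2)])
  obtain ⟨f1, f2⟩ := face lo up h.2 (xb_bd e f) hΛ.1 hM.1
  have e0p := e0_pos h0 h1
  change |Per U D L - e0 (U / (U + D)) * smain U D (xb (U / (U + D))) x x2 y y2| ≤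
    e0 (U / (U + D)) * serr lo up U D (xb (U / (U + D))) x y at est
  obtain ⟨g1, g2⟩ := abs_le.1 est
  constructor
  · intro hD'
    have := mul_pos e0p (neg_pos.2 (f1 hD'))
    linarith
  · intro hD'
    have := mul_pos e0p (f2 hD')
    linarith

end Pool.Agent.MP_92463a_gt

end
end

section

open Set Complex Filter Metric
open scoped Topology ComplexConjugate ContDiff Manifold

noncomputable section

namespace Pool.Agent.MP_92463a_gt

variable {g j : ℕ} {U D : ℕ → ℝ}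

theorem Link0_bd (h : Box g U D) {i : ℕ} (hi : i < g) :
    0.128 ≤ U i ∧ U i ≤ 0.31 ∧ 0.128 ≤ D i ∧ D i ≤ 0.31 := by
  obtain ⟨a, b, c, d, -⟩ := (h i hi).bd
  exact ⟨a, b, c, d⟩

theorem Link0_pos (h : Box g U D) {i : ℕ} (hi : i < g) : 0 < U i ∧ 0 < D i := by
  obtain ⟨a, -, c, -⟩ := Link0_bd h hi
  constructor <;> linarith

theorem Link0_W (h : Box g U D) : ∀ i ≤ g, 0 < tW U D i := by
  intro i
  induction i with
  | zero => exact fun _ => one_pos
  | succ i ih =>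
    intro hi
    obtain ⟨a, b⟩ := Link0_pos h (i := i) hi
    exact div_pos (ih (by omega)) (mul_pos a b)

theorem Link0_eq (h : Box g U D) {i : ℕ} (hi : i < g) :
    tW U D i = tW U D (i + 1) * (U i * D i) ∧ tB U D i = tW U D (i + 1) * U i ∧
      tA U D i = tW U D (i + 1) * (U i ^ 2 / D i) := by
  obtain ⟨a, b⟩ := Link0_pos h hi
  simp only [tW, tA, tB]
  refine ⟨?_, ?_, ?_⟩ <;> field_simp

theorem Link0_mono (h : Box g U D) {i k : ℕ} (hik : i ≤ k) (hk : k ≤ g) :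
    tW U D i ≤ tW U D k := by
  induction k, hik using Nat.le_induction with
  | base => exact le_rfl
  | succ k _ ih =>
    refine (ih (by omega)).trans ?_
    obtain ⟨a, b, c, d⟩ := Link0_bd h (i := k) hk
    rw [(Link0_eq h (i := k) hk).1]
    exact mul_le_of_le_one_right (Link0_W h _ hk).le (by nlinarith)

theorem Link0_lt (h : Box g U D) {i k : ℕ} (hik : i < k) (hk : k ≤ g) :
    tA U D i < tW U D k ∧ tB U D i ≤ 0.31 * tW U D k := by
  have hi : i < g := by omega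
  obtain ⟨a, b, c, d⟩ := Link0_bd h hi
  obtain ⟨-, e2, e3⟩ := Link0_eq h hi
  have h1 := Link0_mono h (i := i + 1) hik hk
  have h2 := Link0_W h (i + 1) hi
  have h3 : U i ^ 2 / D i < 1 := (div_lt_one (by linarith)).2 (by nlinarith)
  constructor
  · rw [e3]
    exact (mul_lt_of_lt_one_right h2 h3).trans_le h1
  · rw [e2]
    nlinarith

theorem Link0_gt (h : Box g U D) {i k : ℕ} (hik : k ≤ i) (hi : i < g) :
    tW U D k < tA U D i ∧ 3 * tW U D k < tB U D i := by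
  obtain ⟨a, b, c, d⟩ := Link0_bd h hi
  have h1 := Link0_mono h hik hi.le
  have h2 := Link0_W h i hi.le
  have hD : 0 < D i := by linarith
  constructor
  · refine h1.trans_lt ?_
    rw [tA, lt_div_iff₀ (by positivity)]
    exact mul_lt_mul_of_pos_left (by nlinarith) h2
  · rw [tB, lt_div_iff₀ hD]
    nlinarith [Link0_W h k (by omega)]

theorem Link0_ab (h : Box g U D) {i : ℕ} (hi : i < g) : 0 < tA U D i ∧ 0 < tB U D i := by
  obtain ⟨a, b⟩ := Link0_gt h le_rfl hi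
  have := Link0_W h i hi.le
  constructor <;> linarith

theorem Link0_a_le (h : Box g U D) {i k : ℕ} (hik : i ≤ k) (hk : k < g) :
    tA U D i ≤ tA U D k ∧ tB U D i ≤ tB U D k := by
  rcases hik.eq_or_lt with rfl | hlt
  · exact ⟨le_rfl, le_rfl⟩
  · obtain ⟨a, b⟩ := Link0_lt h hlt hk.le
    obtain ⟨c, d⟩ := Link0_gt h le_rfl hk
    have := Link0_W h k hk.le
    constructor <;> linarith

theorem Box.ok (h : Box g U D) (hg : 0 < g) : (tw g U D).Ok where
  p_pos := hg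
  par := ⟨g, rfl⟩
  ρ_pos := Real.exp_pos _
  a_pos _ hi := (Link0_ab h hi).1
  a_lt _ _ hik hk := (Link0_lt h hik (le_of_lt hk)).1.trans (Link0_gt h le_rfl hk).1
  b_pos _ hi := (Link0_ab h hi).2
  b_gap i k hik hk := by
    have a := (Link0_lt h hik (le_of_lt hk)).2
    have b := (Link0_gt h le_rfl hk).2
    have := Link0_W h k (le_of_lt hk)
    change 5 * tB U D i < tB U D k
    linarith

/-- `z` or its inverse, according to the parity of `i` -/
def Link0_pw (i : ℕ) (z : ℂ) : ℂ := if Even i then z else z⁻¹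

theorem Link0_pw_mul (i : ℕ) (z w : ℂ) : Link0_pw i (z * w) = Link0_pw i z * Link0_pw i w := by
  unfold Link0_pw
  split_ifs
  · rfl
  · exact mul_inv _ _

theorem Link0_pw_succ (i : ℕ) (z : ℂ) : Link0_pw (i + 1) z⁻¹ = Link0_pw i z := by
  unfold Link0_pw
  by_cases h : Even i <;> simp [Nat.even_add_one, h]

theorem Link0_pw_exp (i : ℕ) (z : ℂ) : exp (sg i * z) = Link0_pw i (exp z) := by
  unfold Link0_pw sg
  split_ifs with h
  · simp [h.neg_one_pow]
  · simp [(Nat.not_even_iff_odd.1 h).neg_one_pow, exp_neg]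

theorem Link0_step (U D : ℕ → ℝ) (j : ℕ) (v : ℂ) (h1 : 1 + (U j : ℂ) * v ≠ 0)
    (h2 : 1 - ((U j ^ 2 / D j : ℝ) : ℂ) * v ≠ 0) :
    exp (fld U D (j + 1) v) ^ 2 = ((1 + (U j : ℂ) * v) ^ 3 / (1 - ((U j ^ 2 / D j : ℝ) : ℂ) * v) *
      exp (fld U D j (((U j * D j : ℝ) : ℂ) * v)) ^ 2)⁻¹ := by
  have e : ∀ x y z : ℂ, ((2 : ℕ) : ℂ) * (-(3 / 2 * x - 1 / 2 * y) - z) =
      -(((3 : ℕ) : ℂ) * x - y + ((2 : ℕ) : ℂ) * z) := fun x y z => by push_cast; ring
  rw [fld, ← exp_nat_mul, e, exp_neg, exp_add, exp_sub, exp_nat_mul, exp_nat_mul, exp_log h1,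
    exp_log h2]

/-- the factor of `G ^ 2` coming from level `i` -/
def Link0_H (U D : ℕ → ℝ) (t : ℂ) (i : ℕ) : ℂ :=
  tA U D i / tB U D i ^ 3 * ((t + tB U D i) ^ 3 / (tA U D i - t))

theorem Link0_ne {t : ℂ} (hP : (tw g U D).P t ≠ 0) :
    t ≠ 0 ∧ ∀ i < g, t + tB U D i ≠ 0 ∧ tA U D i - t ≠ 0 := by
  obtain ⟨h1, h2⟩ := mul_ne_zero_iff.1 hP
  obtain ⟨h0, h1⟩ := mul_ne_zero_iff.1 h1
  exact ⟨h0, fun i hi => ⟨Finset.prod_ne_zero_iff.1 h1 i (Finset.mem_range.2 hi),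
    Finset.prod_ne_zero_iff.1 h2 i (Finset.mem_range.2 hi)⟩⟩

theorem Link0_G (h : Box g U D) {t : ℂ} (hP : (tw g U D).P t ≠ 0) :
    (tw g U D).G t ^ 2 = t⁻¹ * ∏ i ∈ Finset.range g, Link0_pw i (Link0_H U D t i) := by
  obtain ⟨h0, hn⟩ := Link0_ne hP
  have e : ((2 : ℕ) : ℂ) * (tw g U D).LG t = -log t + ∑ i ∈ Finset.range g,
      sg i * (((Real.log (tA U D i) : ℂ) - ((3 : ℕ) : ℂ) * Real.log (tB U D i)) +
        (((3 : ℕ) : ℂ) * log (t + tB U D i) - lm (tA U D i) t)) := by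
    simp only [Dat.LG, tw, Real.log_exp]
    push_cast
    rw [add_sub_assoc, ← Finset.sum_sub_distrib, sub_add_eq_add_sub, ← Finset.sum_add_distrib,
      mul_sub, Finset.mul_sum, sub_eq_neg_add]
    congr 1
    · ring
    · exact Finset.sum_congr rfl fun i _ => by ring
  rw [Dat.G, ← exp_nat_mul, e, exp_add, exp_neg, exp_log h0, exp_sum]
  congr 1
  refine Finset.prod_congr rfl fun i hi => ?_
  have hi := Finset.mem_range.1 hi
  obtain ⟨a, b⟩ := Link0_ab h hi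
  have c : t - tA U D i ≠ 0 := fun c => (hn i hi).2 (by linear_combination -c)
  rw [Link0_pw_exp, exp_add, exp_sub, exp_sub, exp_nat_mul, exp_nat_mul, exp_log (hn i hi).1,
    ← ofReal_exp, ← ofReal_exp, Real.exp_log a, Real.exp_log b, lm, exp_sub, exp_log c,
    exp_pi_mul_I, div_neg, div_one, neg_sub, Link0_H]

theorem Link0_low (h : Box g U D) {t : ℂ} (hP : (tw g U D).P t ≠ 0) : ∀ j ≤ g,
    ∏ i ∈ Finset.range j, Link0_pw i (Link0_H U D t i) =
      (if Even j then (tW U D j : ℂ) else -t ^ 2 / tW U D j) *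
        Link0_pw j (exp (fld U D j (tW U D j / t)) ^ 2) := by
  obtain ⟨h0, hn⟩ := Link0_ne hP
  intro j
  induction j with
  | zero => intro _; simp [tW, fld, Link0_pw]
  | succ j ih =>
    intro hj
    obtain ⟨e1, e2, e3⟩ := Link0_eq h (i := j) hj
    obtain ⟨n1, n2⟩ := hn j hj
    obtain ⟨pU, pD⟩ := Link0_pos h (i := j) hj
    have pW : (tW U D (j + 1) : ℂ) ≠ 0 := ofReal_ne_zero.2 (Link0_W h _ hj).ne'
    have cU : (U j : ℂ) ≠ 0 := ofReal_ne_zero.2 pU.ne'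
    have cD : (D j : ℂ) ≠ 0 := ofReal_ne_zero.2 pD.ne'
    have f1 : 1 + (U j : ℂ) * (tW U D (j + 1) / t) = (t + tB U D j) / t := by
      rw [e2]; push_cast; field_simp
    have f2 : 1 - ((U j ^ 2 / D j : ℝ) : ℂ) * (tW U D (j + 1) / t) = -(tA U D j - t) / t := by
      rw [e3]; push_cast; field_simp; ring
    have f3 : ((U j * D j : ℝ) : ℂ) * (tW U D (j + 1) / t) = tW U D j / t := by
      rw [e1]; push_cast; ring
    have f4 : Link0_H U D t j = -t ^ 2 / (tW U D j * tW U D (j + 1)) *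
        (((t + tB U D j) / t) ^ 3 / (-(tA U D j - t) / t)) := by
      rw [Link0_H]
      generalize t + tB U D j = x at n1
      generalize tA U D j - t = y at n2
      rw [e1, e2, e3]
      push_cast
      field_simp
    rw [Finset.prod_range_succ, ih (by omega), Link0_step U D j _
      (by rw [f1]; exact div_ne_zero n1 h0) (by rw [f2]; exact div_ne_zero (neg_ne_zero.2 n2) h0),
      Link0_pw_succ, f1, f2, f3, f4, Link0_pw_mul, Link0_pw_mul]
    have pW' : (tW U D j : ℂ) ≠ 0 := ofReal_ne_zero.2 (Link0_W h j (by omega)).ne'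
    have f5 : (if Even j then (tW U D j : ℂ) else -t ^ 2 / tW U D j) *
        Link0_pw j (-t ^ 2 / (tW U D j * tW U D (j + 1))) =
        if Even (j + 1) then (tW U D (j + 1) : ℂ) else -t ^ 2 / tW U D (j + 1) := by
      unfold Link0_pw
      by_cases hj : Even j
      · rw [if_pos hj, if_pos hj, if_neg (by simpa [Nat.even_add_one] using hj)]
        field_simp
      · rw [if_neg hj, if_neg hj, if_pos (Nat.even_add_one.2 hj)]
        field_simp
    rw [← f5]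
    ring

theorem Link0_upp (h : Box g U D) {t : ℂ} (hP : (tw g U D).P t ≠ 0) : ∀ k m, m + k = g →
    ∏ i ∈ Finset.Ico m g, Link0_pw i (Link0_H U D t i) =
      Link0_pw (m + 1) (exp (fld (rev g D) (rev g U) k (t / tW U D m)) ^ 2) := by
  obtain ⟨h0, hn⟩ := Link0_ne hP
  intro k
  induction k with
  | zero =>
    rintro m rfl
    simp [fld, Link0_pw]
  | succ k ih =>
    intro m hm
    have hj : m < g := by omega
    obtain ⟨n1, n2⟩ := hn m hj
    obtain ⟨pU, pD⟩ := Link0_pos h hj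
    obtain ⟨pA, pB⟩ := Link0_ab h hj
    have pW : (tW U D m : ℂ) ≠ 0 := ofReal_ne_zero.2 (Link0_W h _ hj.le).ne'
    have cU : (U m : ℂ) ≠ 0 := ofReal_ne_zero.2 pU.ne'
    have cD : (D m : ℂ) ≠ 0 := ofReal_ne_zero.2 pD.ne'
    have cA : (tA U D m : ℂ) ≠ 0 := ofReal_ne_zero.2 pA.ne'
    have cB : (tB U D m : ℂ) ≠ 0 := ofReal_ne_zero.2 pB.ne'
    have r1 : rev g D k = D m := congrArg D (by omega)
    have r2 : rev g U k = U m := congrArg U (by omega)
    have f1 : 1 + (rev g D k : ℂ) * (t / tW U D m) = (t + tB U D m) / tB U D m := by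
      rw [r1, tB]; push_cast; field_simp; ring
    have f2 : 1 - ((rev g D k ^ 2 / rev g U k : ℝ) : ℂ) * (t / tW U D m) =
        (tA U D m - t) / tA U D m := by
      rw [r1, r2, tA]; push_cast; field_simp
    have f3 : ((rev g D k * rev g U k : ℝ) : ℂ) * (t / tW U D m) = t / tW U D (m + 1) := by
      rw [r1, r2, tW]; push_cast; field_simp
    have f4 : Link0_H U D t m = ((t + tB U D m) / tB U D m) ^ 3 /
        ((tA U D m - t) / tA U D m) := by
      rw [Link0_H]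
      field_simp
    have f5 : ∀ z, Link0_pw (m + 1 + 1) z = Link0_pw m z := fun z => by
      simp [Link0_pw, Nat.even_add_one]
    rw [Finset.prod_eq_prod_Ico_succ_bot hj, ih (m + 1) (by omega), Link0_step _ _ k _
      (by rw [f1]; exact div_ne_zero n1 cB) (by rw [f2]; exact div_ne_zero n2 cA),
      Link0_pw_succ, f1, f2, f3, f4, f5, Link0_pw_mul]

theorem Box.G_sq (h : Box g U D) (hj : j < g) {s Γ : ℂ} (hP : (tw g U D).P (tA U D j * s) ≠ 0)
    (hΓ : Γ ^ 2 = ((U j ^ 2 / D j : ℝ) : ℂ) * ((s + (D j / U j : ℝ)) ^ 3 / (s * (s - 1))) *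
      exp (Ld g U D j s) ^ 2) :
    (tw g U D).G (tA U D j * s) ^ 2 = if Even j then -Γ ^ 2 else (Γ ^ 2)⁻¹ := by
  obtain ⟨h0, hn⟩ := Link0_ne hP
  obtain ⟨n1, n2⟩ := hn j hj
  obtain ⟨pU, pD⟩ := Link0_pos h hj
  have pW : (tW U D j : ℂ) ≠ 0 := ofReal_ne_zero.2 (Link0_W h _ hj.le).ne'
  have cU : (U j : ℂ) ≠ 0 := ofReal_ne_zero.2 pU.ne'
  have cD : (D j : ℂ) ≠ 0 := ofReal_ne_zero.2 pD.ne'
  obtain ⟨cA, cs⟩ := mul_ne_zero_iff.1 h0
  have cs1 : 1 - s ≠ 0 := fun c => n2 (by linear_combination (tA U D j : ℂ) * c)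
  have cs2 : s - 1 ≠ 0 := fun c => cs1 (by linear_combination -c)
  have f1 : (tW U D j : ℂ) / (tA U D j * s) = ((D j ^ 2 / U j : ℝ) : ℂ) / s := by
    rw [tA]; push_cast; field_simp
  have f2 : (tA U D j : ℂ) * s / tW U D (j + 1) = ((U j ^ 2 / D j : ℝ) : ℂ) * s := by
    rw [tA, tW]; push_cast; field_simp
  have f3 : ((U j ^ 2 / D j : ℝ) : ℂ) * ((s + (D j / U j : ℝ)) ^ 3 / (s * (s - 1))) =
      -(tW U D j / (tA U D j * s) * Link0_H U D (tA U D j * s) j) := by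
    have g1 : (tA U D j : ℂ) * s + tB U D j = tA U D j * (s + (D j / U j : ℝ)) := by
      rw [tA, tB]; push_cast; field_simp
    have g2 : (tA U D j : ℂ) - tA U D j * s = -(tA U D j * (s - 1)) := by ring
    rw [Link0_H, g1, g2]
    generalize s + (D j / U j : ℝ) = x
    generalize s - 1 = y at cs2
    rw [tA, tB]
    push_cast
    field_simp
  have f5 : ∀ z, Link0_pw (j + 1 + 1) z = Link0_pw j z := fun z => by
    simp [Link0_pw, Nat.even_add_one]
  rw [Link0_G h hP, ← Finset.prod_range_mul_prod_Ico _ (show j + 1 ≤ g from hj),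
    Finset.prod_range_succ, Link0_low h hP j hj.le, Link0_upp h hP (g - 1 - j) (j + 1) (by omega),
    f5, hΓ, f3, Ld, exp_add, mul_pow (exp _), f2]
  conv_lhs => rw [f1]
  unfold Link0_pw
  split_ifs
  · ring
  · generalize (tA U D j : ℂ) * s = t at h0 ⊢
    simp only [mul_inv, inv_neg, inv_div]
    field_simp

theorem Link0_nu {lo up : Bool} {U D : ℝ} (h : InBox lo up U D) :
    1 < 1 / √(U / (U + D)) ∧ (1 / √(U / (U + D)) - 1) * U < D ∧
      D ^ 2 ≤ (1 / √(U / (U + D)) - 1) * U ∧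
      (up = true → U ^ 2 * (1 + 1 / √(U / (U + D))) ≤ D) := by
  obtain ⟨a, b, c, d, e, f⟩ := h.bd
  have hU : 0 < U := by linarith
  have hD : 0 < D := by linarith
  have h0 : 0 < U / (U + D) := by linarith
  have ν0 : 0 < 1 / √(U / (U + D)) := by positivity
  have ν2 : (1 / √(U / (U + D))) ^ 2 * U = U + D := by
    rw [div_pow, Real.sq_sqrt h0.le]
    field_simp
  generalize 1 / √(U / (U + D)) = ν at ν0 ν2
  have hle : 0.29 * (U + D) ≤ U := (le_div_iff₀ (by linarith)).1 e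
  have ν3 : ν ≤ 1.86 := App_le (c := 3.45) hU (by norm_num) (by linarith) (by norm_num)
  have h3 : D = (ν - 1) * U * (ν + 1) := by linarith
  have h4 : 0 < (ν - 1) * U := by
    by_contra h5
    nlinarith
  have h5 : 1 < ν := sub_pos.1 ((mul_pos_iff_of_pos_right hU).1 h4)
  refine ⟨h5, by nlinarith, ?_, ?_⟩
  · have h2 : D * (ν + 1) ≤ 1 := by nlinarith
    calc D ^ 2 = (ν - 1) * U * (D * (ν + 1)) := by linear_combination D * h3
      _ ≤ (ν - 1) * U * 1 := mul_le_mul_of_nonneg_left h2 h4.le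
      _ = _ := mul_one _
  · rintro rfl
    obtain ⟨⟨h1, h2⟩, h3, h4⟩ := h
    cases lo <;> simp only [dLo, dHi] at h1 h2 h3 h4
    · have : U ^ 2 ≤ 0.035 := by nlinarith
      nlinarith
    · have ν4 : ν ≤ 1.61 := App_le (c := 2.57) hU (by norm_num) (by linarith) (by norm_num)
      have : U ^ 2 ≤ 0.0553 := by nlinarith
      nlinarith

theorem Box.in_down (h : Box g U D) (hj : j < g) :
    (tw g U D).InA (j + 1) (tA U D j * (1 + 1 / √(U j / (U j + D j)))) ∧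
      (tw g U D).InB j (tA U D j * (1 - 1 / √(U j / (U j + D j)))) := by
  obtain ⟨n1, n2, n3, n4⟩ := Link0_nu (h j hj)
  generalize 1 / √(U j / (U j + D j)) = ν at n1 n2 n3 n4
  obtain ⟨pU, pD⟩ := Link0_pos h hj
  obtain ⟨pA, pB⟩ := Link0_ab h hj
  have pW := Link0_W h j hj.le
  have pW' := Link0_W h (j + 1) hj
  refine ⟨⟨by positivity, fun i hi => ?_, fun i hi hi' => ?_⟩, by nlinarith, fun i hi => ?_,
    fun i hi hi' => ?_⟩
  · exact (Link0_a_le h (i := i) (by omega) hj).1.trans_lt (by nlinarith)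
  · have hi' : i < g := hi'
    refine lt_of_le_of_lt ?_ (Link0_gt h hi hi').1
    rw [(Link0_eq h hj).2.2, mul_assoc, div_mul_eq_mul_div]
    exact mul_le_of_le_one_right pW'.le
      ((div_le_one pD).2 (n4 (decide_eq_true (by omega))))
  · have e : tW U D j ≤ -(tA U D j * (1 - ν)) := by
      rw [tA, ← mul_neg, neg_sub, div_mul_eq_mul_div, le_div_iff₀ (by positivity), mul_assoc]
      exact mul_le_mul_of_nonneg_left (by linarith) pW.le
    have := (Link0_lt h hi hj.le).2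
    change tB U D i < _
    linarith
  · refine lt_of_lt_of_le ?_ (Link0_a_le h hi hi').2
    have e : tA U D j = tB U D j * (U j / D j) := by
      rw [tA, tB]; field_simp
    rw [e, ← mul_neg, neg_sub, mul_assoc, div_mul_eq_mul_div]
    exact mul_lt_of_lt_one_right pB ((div_lt_one pD).2 (by linarith))

theorem Box.in_up (h : Box g U D) (hj : j < g) :
    (tw g U D).InA j (tA U D j / (1 + 1 / √(D j / (D j + U j)))) ∧
      (tw g U D).InB (j + 1) (tA U D j / (1 - 1 / √(D j / (D j + U j)))) := by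
  obtain ⟨n1, n2, n3, n4⟩ := Link0_nu (h j hj).symm
  generalize 1 / √(D j / (D j + U j)) = ν at n1 n2 n3 n4
  obtain ⟨pU, pD⟩ := Link0_pos h hj
  obtain ⟨pA, pB⟩ := Link0_ab h hj
  have pW := Link0_W h j hj.le
  have pW' := Link0_W h (j + 1) hj
  have pν : 0 < ν - 1 := by linarith
  have e0 : -(tA U D j / (1 - ν)) = tA U D j / (ν - 1) := by rw [← div_neg, neg_sub]
  refine ⟨⟨by positivity, fun i hi => ?_, fun i hi hi' => ?_⟩,
    div_neg_of_pos_of_neg pA (by linarith), fun i hi => ?_, fun i hi hi' => ?_⟩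
  · refine (Link0_lt h hi hj.le).1.trans_le ?_
    rw [le_div_iff₀ (by linarith), tA, le_div_iff₀ (by positivity), mul_assoc]
    have := n4 (decide_eq_true (by omega))
    exact mul_le_mul_of_nonneg_left (by linarith) pW.le
  · exact (div_lt_self pA (by linarith)).trans_le (Link0_a_le h hi hi').1
  · refine (Link0_a_le h (i := i) (by omega) hj).2.trans_lt ?_
    have e : tA U D j = tB U D j * (U j / D j) := by
      rw [tA, tB]; field_simp
    rw [e0, lt_div_iff₀ pν, e]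
    exact mul_lt_mul_of_pos_left ((lt_div_iff₀ pD).2 n2) pB
  · have e : tA U D j / (ν - 1) ≤ tW U D (j + 1) := by
      rw [div_le_iff₀ pν, (Link0_eq h hj).2.2]
      exact mul_le_mul_of_nonneg_left ((div_le_iff₀ pD).2 n3) pW'.le
    have := (Link0_gt h hi hi').2
    change _ < tB U D i
    rw [e0]
    linarith

end Pool.Agent.MP_92463a_gt

end
end

section

open Set Complex Filter Metric
open scoped Topology ComplexConjugate ContDiff Manifold

noncomputable section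

namespace Pool.Agent.MP_92463a_gt

variable {U D : ℕ → ℝ} {j : ℕ}

theorem Fld_box {b : Bool} {U D : ℝ} (h : InBox b true U D) :
    0 < D ∧ |U| ≤ 0.235 ∧ |U ^ 2 / D| ≤ 0.3682 ∧ |U * D| ≤ 0.058 := by
  have key : 0 < D ∧ 0 ≤ U ∧ U ≤ 0.235 ∧ U ^ 2 ≤ 0.3682 * D ∧ U * D ≤ 0.058 := by
    obtain ⟨⟨h1, h2⟩, h3, h4⟩ := h
    cases b <;> simp only [dLo, dHi] at h1 h2 h3 h4 <;>
      exact ⟨by linarith, by linarith, by linarith, by nlinarith, by nlinarith⟩
  obtain ⟨h1, h2, h3, h4, h5⟩ := key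
  refine ⟨h1, by rwa [abs_of_nonneg h2], ?_, by rwa [abs_of_nonneg (by positivity)]⟩
  rwa [abs_of_nonneg (by positivity), div_le_iff₀ h1]

theorem Fld_num {b : Bool} {U D x x2 : ℝ} (h : InBox b true U D) (hx : Fc b x x2) :
    Fc true ((3 * U + U ^ 2 / D) / 2 - U * D * x)
      ((3 * U ^ 2 - (U ^ 2 / D) ^ 2) / 4 - (U * D) ^ 2 * x2) := by
  obtain ⟨⟨h1, h2⟩, h3, h4⟩ := h
  have hD := (Fld_box ⟨⟨h1, h2⟩, h3, h4⟩).1
  have hl : 0 < dLo b true := by cases b <;> norm_num [dLo]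
  have hA : 0 ≤ U ^ 2 / D := div_nonneg (sq_nonneg U) hD.le
  have a1 : U ^ 2 ≤ U ^ 2 / D * dHi b true :=
    (div_mul_cancel₀ _ hD.ne').ge.trans (mul_le_mul_of_nonneg_left h2 hA)
  have a2 : U ^ 2 / D * dLo b true ≤ U ^ 2 :=
    (mul_le_mul_of_nonneg_left h1 hA).trans (div_mul_cancel₀ _ hD.ne').le
  have a3 := pow_le_pow_left₀ (sq_nonneg U) a1 2
  have a4 := pow_le_pow_left₀ (mul_nonneg hA hl.le) a2 2
  have w1 : dLo true b ^ 2 ≤ U ^ 2 :=
    pow_le_pow_left₀ (by cases b <;> norm_num [dLo]) h3 2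
  have w2 : U ^ 2 ≤ dHi true b ^ 2 :=
    pow_le_pow_left₀ (le_trans (by cases b <;> norm_num [dLo]) h3) h4 2
  generalize U ^ 2 / D = A at *
  generalize U ^ 2 = w at *
  cases b
  · obtain ⟨rfl, rfl⟩ := hx
    simp only [dLo, dHi] at h1 h2 h3 h4 a1 a2 a3 a4 w1 w2
    refine ⟨⟨?_, ?_⟩, ?_, ?_⟩
    · linarith
    · linarith
    · nlinarith [mul_nonneg (sub_nonneg.2 w1) (sub_nonneg.2 w2)]
    · nlinarith [sq_nonneg A]
  · obtain ⟨⟨x1, x3⟩, y1, y3⟩ := hx
    simp only [dLo, dHi] at h1 h2 h3 h4 a1 a2 a3 a4 w1 w2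
    have q1 : 0.0225 ≤ U * D := by nlinarith
    have q2 : U * D ≤ 0.0553 := by nlinarith
    generalize U * D = q at *
    have q3 : 0.0049 ≤ q * x := by nlinarith
    have q4 : q * x ≤ 0.03 := by nlinarith
    have q5 : 0 ≤ q ^ 2 * x2 := mul_nonneg (sq_nonneg q) (by linarith)
    have q6 : q ^ 2 ≤ 0.0031 := by nlinarith
    have q7 : q ^ 2 * x2 ≤ 0.0001 := by nlinarith [sq_nonneg q]
    refine ⟨⟨?_, ?_⟩, ?_, ?_⟩
    · linarith
    · linarith
    · nlinarith [mul_nonneg (sub_nonneg.2 w1) (sub_nonneg.2 w2)]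
    · nlinarith [mul_nonneg (sub_nonneg.2 w2) (sub_nonneg.2 (w2.trans
        (by norm_num : (0.235 : ℝ) ^ 2 ≤ 2 * 0.235 ^ 2)))]

theorem Fld_norm {B c : ℝ} {v : ℂ} (hB : |B| ≤ c) : ‖(B : ℂ) * v‖ ≤ c * ‖v‖ := by
  rw [norm_mul, norm_real, Real.norm_eq_abs]
  gcongr

theorem Fld_le {B c : ℝ} {v : ℂ} (hB : |B| ≤ c) (hv : ‖v‖ ≤ 1) : ‖(B : ℂ) * v‖ ≤ c :=
  (Fld_norm hB).trans (mul_le_of_le_one_right ((abs_nonneg B).trans hB) hv)

theorem Fld_log {B c : ℝ} {v : ℂ} (hB : |B| ≤ c) (hc : c < 1) (hv : ‖v‖ ≤ 1) :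
    ‖log (1 + B * v) - (B * v - (B * v) ^ 2 / 2)‖ ≤ c ^ 3 * (1 - c)⁻¹ / 3 * ‖v‖ ^ 3 := by
  have h1 := Fld_le hB hv
  have h2 := Complex.norm_log_sub_logTaylor_le 2 (h1.trans_lt hc)
  have e : logTaylor (2 + 1) ((B : ℂ) * v) = B * v - (B * v) ^ 2 / 2 := by
    simp only [logTaylor, Finset.sum_range_succ, Finset.range_zero, Finset.sum_empty]
    push_cast
    ring
  rw [e] at h2
  refine h2.trans ?_
  have h3 : (1 - ‖(B : ℂ) * v‖)⁻¹ ≤ (1 - c)⁻¹ := inv_anti₀ (by linarith) (by linarith)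
  have h4 := pow_le_pow_left₀ (norm_nonneg _) (Fld_norm (v := v) hB) 3
  have h5 := mul_le_mul h4 h3 (inv_nonneg.2 (by linarith)) ((by positivity : (0 : ℝ) ≤ _).trans h4)
  calc _ = ‖(B : ℂ) * v‖ ^ 3 * (1 - ‖(B : ℂ) * v‖)⁻¹ / 3 := by norm_num
    _ ≤ (c * ‖v‖) ^ 3 * (1 - c)⁻¹ / 3 := by gcongr
    _ = _ := by ring

theorem fld_cls (h : ∀ i < j, InBox (decide (0 < i)) true (U i) (D i)) :
    ∃ x x2, Cls (decide (0 < j)) (fld U D j) x x2 := by
  induction j with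
  | zero => exact ⟨0, 0, ⟨rfl, rfl⟩, fun v _ => by simp [fld, h3]⟩
  | succ j ih =>
    obtain ⟨x, x2, hx, hr⟩ := ih fun i hi => h i (by omega)
    have hj := h j (Nat.lt_succ_self j)
    obtain ⟨-, b1, b2, b3⟩ := Fld_box hj
    rw [show decide (0 < j + 1) = true from decide_eq_true (Nat.succ_pos j)]
    refine ⟨_, _, Fld_num hj hx, fun v hv => ?_⟩
    have hv := hv rfl
    have r1 := Fld_log b1 (by norm_num) hv
    have r2 := Fld_log ((abs_neg _).trans_le b2) (by norm_num) hv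
    have r3 := hr _ fun _ => (Fld_le b3 hv).trans (by norm_num)
    have r4 := pow_le_pow_left₀ (norm_nonneg _) (Fld_norm (v := v) b3) 3
    have r5 : h3 (decide (0 < j)) * ‖((U j * D j : ℝ) : ℂ) * v‖ ^ 3 ≤
        0.022 * (0.058 * ‖v‖) ^ 3 :=
      mul_le_mul (by cases decide (0 < j) <;> norm_num [h3]) r4 (by positivity) (by norm_num)
    rw [ofReal_neg, neg_mul, ← sub_eq_add_neg] at r2
    rw [fld, h3]
    beta_reduce
    generalize U j ^ 2 / D j = A at *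
    generalize U j * D j = q at *
    generalize fld U D j (q * v) = F at *
    generalize log (1 + U j * v) = L₁ at *
    generalize log (1 - A * v) = L₂ at *
    have e : -(3 / 2 * L₁ - 1 / 2 * L₂) - F + (((3 * U j + A) / 2 - q * x : ℝ) : ℂ) * v -
        (((3 * U j ^ 2 - A ^ 2) / 4 - q ^ 2 * x2 : ℝ) : ℂ) * v ^ 2 =
        (-(3 / 2) : ℝ) * (L₁ - (U j * v - (U j * v) ^ 2 / 2)) +
          (1 / 2 : ℝ) * (L₂ - (-(A * v) - (-(A * v)) ^ 2 / 2)) -
          (F + x * (q * v) - x2 * (q * v) ^ 2) := by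
      push_cast
      ring
    rw [e]
    refine (norm_sub_le _ _).trans ((add_le_add (norm_add_le _ _) (r3.trans r5)).trans ?_)
    rw [norm_mul, norm_mul, norm_real, norm_real, Real.norm_eq_abs, Real.norm_eq_abs, abs_neg,
      abs_of_pos (by norm_num : (0 : ℝ) < 3 / 2), abs_of_pos (by norm_num : (0 : ℝ) < 1 / 2),
      mul_pow (0.058 : ℝ)]
    have := pow_nonneg (norm_nonneg v) 3
    norm_num at r1 r2 ⊢
    linarith

theorem Fld_slit {b : Bool} {U D : ℝ} (h : InBox b true U D) {v : ℂ} (hv : ‖v‖ ≤ 1) :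
    1 + (U : ℂ) * v ∈ slitPlane ∧ 1 - ((U ^ 2 / D : ℝ) : ℂ) * v ∈ slitPlane ∧
      ‖((U * D : ℝ) : ℂ) * v‖ ≤ 1 := by
  obtain ⟨-, b1, b2, b3⟩ := Fld_box h
  refine ⟨mem_slitPlane_of_norm_lt_one ((Fld_le b1 hv).trans_lt (by norm_num)), ?_,
    (Fld_le b3 hv).trans (by norm_num)⟩
  rw [sub_eq_add_neg]
  exact mem_slitPlane_of_norm_lt_one
    ((norm_neg _).trans_lt ((Fld_le b2 hv).trans_lt (by norm_num)))

theorem fld_conj (h : ∀ i < j, InBox (decide (0 < i)) true (U i) (D i)) {v : ℂ}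
    (hv : 0 < j → ‖v‖ ≤ 1) : fld U D j (conj v) = conj (fld U D j v) := by
  induction j generalizing v with
  | zero => simp [fld]
  | succ j ih =>
    obtain ⟨s1, s2, s3⟩ := Fld_slit (h j (Nat.lt_succ_self j)) (hv (Nat.succ_pos j))
    have e1 := log_conj _ (slitPlane_arg_ne_pi s1)
    have e2 := log_conj _ (slitPlane_arg_ne_pi s2)
    have e3 := ih (fun i hi => h i (by omega)) fun _ => s3
    simp only [map_add, map_sub, map_mul, map_one, conj_ofReal] at e1 e2 e3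
    simp only [fld, e1, e2, e3, map_sub, map_neg, map_mul, map_div₀, map_ofNat, map_one]

theorem fld_cont {α : Type} [TopologicalSpace α] {U D : α → ℕ → ℝ} {v : α → ℂ} {s : Set α}
    (h : ∀ a ∈ s, ∀ i < j, InBox (decide (0 < i)) true (U a i) (D a i))
    (hU : ∀ i < j, ContinuousOn (fun a => U a i) s) (hD : ∀ i < j, ContinuousOn (fun a => D a i) s)
    (hv : ContinuousOn v s) (hn : ∀ a ∈ s, 0 < j → ‖v a‖ ≤ 1) :
    ContinuousOn (fun a => fld (U a) (D a) j (v a)) s := by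
  induction j generalizing v with
  | zero => exact continuousOn_const
  | succ j ih =>
    have hj := fun a ha => h a ha j (Nat.lt_succ_self j)
    have hs := fun a ha => Fld_slit (hj a ha) (hn a ha (Nat.succ_pos j))
    have cU := hU j (Nat.lt_succ_self j)
    have cD := hD j (Nat.lt_succ_self j)
    have c1 := (continuousOn_const.add ((continuous_ofReal.comp_continuousOn cU).mul hv)).clog
      fun a ha => (hs a ha).1
    have c2 := (continuousOn_const.sub ((continuous_ofReal.comp_continuousOn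
      ((cU.pow 2).div cD fun a ha => (Fld_box (hj a ha)).1.ne')).mul hv)).clog
      fun a ha => (hs a ha).2.1
    have c3 := ih (fun a ha i hi => h a ha i (by omega)) (fun i hi => hU i (by omega))
      (fun i hi => hD i (by omega)) ((continuous_ofReal.comp_continuousOn (cU.mul cD)).mul hv)
      fun a ha _ => (hs a ha).2.2
    exact ((continuousOn_const.mul c1).sub (continuousOn_const.mul c2)).neg.sub c3

theorem Box.low {g : ℕ} (h : Box g U D) (hj : j < g) :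
    ∀ i < j, InBox (decide (0 < i)) true (U i) (D i) := by
  intro i hi
  have := h i (hi.trans hj)
  rwa [show decide (i + 1 < g) = true from decide_eq_true (by omega)] at this

theorem Box.upp {g : ℕ} (h : Box g U D) (hj : j < g) :
    ∀ i < g - 1 - j, InBox (decide (0 < i)) true (rev g D i) (rev g U i) := by
  intro i hi
  have := h (g - 1 - i) (by omega)
  rw [show decide (0 < g - 1 - i) = true from decide_eq_true (by omega),
    show decide (g - 1 - i + 1 < g) = decide (0 < i) from decide_eq_decide.2 (by omega)] at this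
  exact ⟨this.2, this.1⟩

end Pool.Agent.MP_92463a_gt

end
end

section

open Set Complex Filter Metric
open scoped Topology ComplexConjugate ContDiff Manifold

noncomputable section

namespace Pool.Agent.MP_92463a_gt

section Aux

variable {α : Type} [TopologicalSpace α] {lo up : Bool} {u d θ : α → ℝ}

theorem Cont_p {u d : ℝ} (h : InBox lo up u d) :
    0 < u ∧ 0 < d ∧ 0 < u / (u + d) ∧ u / (u + d) < 1 ∧
      (1 - u / (u + d)) / (u / (u + d)) = d / u := by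
  obtain ⟨h1, -, h2, -, h3, h4⟩ := h.bd
  have hu : 0 < u := by linarith
  have hd : 0 < d := by linarith
  refine ⟨hu, hd, by linarith, by linarith, ?_⟩
  field_simp
  ring

theorem Cont_pc (h : ∀ a, InBox lo up (u a) (d a)) (hu : Continuous u) (hd : Continuous d) :
    Continuous fun a => u a / (u a + d a) :=
  hu.div (hu.add hd) fun a => (add_pos (Cont_p (h a)).1 (Cont_p (h a)).2.1).ne'

theorem Cont_sc (h : ∀ a, InBox lo up (u a) (d a)) (hu : Continuous u) (hd : Continuous d)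
    (hθ : Continuous θ) : Continuous fun a => sc (u a / (u a + d a)) (θ a) := by
  have h1 : Continuous fun a => (u a / (u a + d a), θ a) := (Cont_pc h hu hd).prodMk hθ
  have h2 := ContinuousOn.comp_continuous sc_cont h1 fun a =>
    mk_mem_prod ⟨(Cont_p (h a)).2.2.1, (Cont_p (h a)).2.2.2.1⟩ (mem_univ _)
  simpa only [Function.comp_def] using h2

theorem Cont_two {U₁ D₁ U₂ D₂ : α → ℕ → ℝ} {j₁ j₂ : ℕ} (h : ∀ a, InBox lo up (u a) (d a))
    (hu : Continuous u) (hd : Continuous d) (hθ : Continuous θ)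
    (h₁ : ∀ a, ∀ i < j₁, InBox (decide (0 < i)) true (U₁ a i) (D₁ a i))
    (h₂ : ∀ a, ∀ i < j₂, InBox (decide (0 < i)) true (U₂ a i) (D₂ a i))
    (cU₁ : ∀ i, Continuous fun a => U₁ a i) (cD₁ : ∀ i, Continuous fun a => D₁ a i)
    (cU₂ : ∀ i, Continuous fun a => U₂ a i) (cD₂ : ∀ i, Continuous fun a => D₂ a i)
    (hup : 0 < j₂ → up = true) :
    Continuous fun a =>
      fld (U₁ a) (D₁ a) j₁ (((d a ^ 2 / u a : ℝ) : ℂ) / sc (u a / (u a + d a)) (θ a)) +
        fld (U₂ a) (D₂ a) j₂ (((u a ^ 2 / d a : ℝ) : ℂ) * sc (u a / (u a + d a)) (θ a)) := by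
  have hs := Cont_sc h hu hd hθ
  refine Continuous.add (continuousOn_univ.1 ?_) (continuousOn_univ.1 ?_)
  · refine fld_cont (fun a _ => h₁ a) (fun i _ => (cU₁ i).continuousOn)
      (fun i _ => (cD₁ i).continuousOn) (Continuous.continuousOn ?_)
      fun a _ _ => ((h a).arg (θ a)).1
    exact (continuous_ofReal.comp ((hd.pow 2).div hu fun a => (Cont_p (h a)).1.ne')).div hs
      fun a => (sc_ne (Cont_p (h a)).2.2.1 (Cont_p (h a)).2.2.2.1 _).1
  · refine fld_cont (fun a _ => h₂ a) (fun i _ => (cU₂ i).continuousOn)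
      (fun i _ => (cD₂ i).continuousOn) (Continuous.continuousOn ?_)
      fun a _ hj => ((h a).arg (θ a)).2 (hup hj)
    exact (continuous_ofReal.comp ((hu.pow 2).div hd fun a => (Cont_p (h a)).2.1.ne')).mul hs

theorem Cont_Ld {g j : ℕ} {U D : α → ℕ → ℝ} (h : ∀ a, Box g (U a) (D a)) (hj : j < g)
    (cU : ∀ i, Continuous fun a => U a i) (cD : ∀ i, Continuous fun a => D a i)
    (hθ : Continuous θ) :
    Continuous fun a => Ld g (U a) (D a) j (sc (U a j / (U a j + D a j)) (θ a)) :=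
  Cont_two (U₂ := fun a => rev g (D a)) (D₂ := fun a => rev g (U a)) (fun a => h a j hj) (cU j)
    (cD j) hθ (fun a => (h a).low hj) (fun a => (h a).upp hj) cU cD (fun _ => cD _)
    (fun _ => cU _) fun h0 => decide_eq_true (by omega)

theorem Cont_Lu {g j : ℕ} {U D : α → ℕ → ℝ} (h : ∀ a, Box g (U a) (D a)) (hj : j < g)
    (cU : ∀ i, Continuous fun a => U a i) (cD : ∀ i, Continuous fun a => D a i)
    (hθ : Continuous θ) :
    Continuous fun a => Lu g (U a) (D a) j (sc (D a j / (D a j + U a j)) (θ a)) :=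
  Cont_two (U₁ := fun a => rev g (D a)) (D₁ := fun a => rev g (U a)) (fun a => (h a j hj).symm)
    (cD j) (cU j) hθ (fun a => (h a).upp hj) (fun a => (h a).low hj) (fun _ => cD _)
    (fun _ => cU _) cU cD fun h0 => decide_eq_true h0

theorem Cont_per {L : α → ℂ → ℂ} (h : ∀ a, InBox lo up (u a) (d a)) (hu : Continuous u)
    (hd : Continuous d)
    (hL : Continuous fun z : α × ℝ => L z.1 (sc (u z.1 / (u z.1 + d z.1)) z.2)) :
    Continuous fun a => Per (u a) (d a) (L a) := by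
  unfold Per Av
  refine intervalIntegral.continuous_parametric_intervalIntegral_of_continuous' ?_ _ _
  have hu' : Continuous fun z : α × ℝ => u z.1 := hu.comp continuous_fst
  have hd' : Continuous fun z : α × ℝ => d z.1 := hd.comp continuous_fst
  have hs := Cont_sc (fun z : α × ℝ => h z.1) hu' hd' continuous_snd
  have hp := Cont_pc (fun z : α × ℝ => h z.1) hu' hd'
  have hb : Continuous fun z : α × ℝ => ((d z.1 / u z.1 : ℝ) : ℂ) :=
    continuous_ofReal.comp (hd'.div hu' fun z => (Cont_p (h z.1)).1.ne')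
  have hn := fun z : α × ℝ => sc_ne (Cont_p (h z.1)).2.2.1 (Cont_p (h z.1)).2.2.2.1 z.2
  refine Continuous.div (continuous_re.comp (Continuous.add ?_ ?_))
    (Dl_cont.comp (hp.prodMk continuous_snd))
    fun z => (Dl_pos (Cont_p (h z.1)).2.2.1 (Cont_p (h z.1)).2.2.2.1 z.2).ne'
  · exact ((continuous_ofReal.comp hu').pow 2).mul
      ((((hs.add hb).pow 2).div hs fun z => (hn z).1).mul hL.cexp)
  · refine (continuous_ofReal.comp hd').mul
      (((hs.sub continuous_const).div (hs.add hb) fun z => ?_).mul hL.neg.cexp)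
    have h3 := (hn z).2.2.1
    rwa [(Cont_p (h z.1)).2.2.2.2] at h3

end Aux

variable {g j : ℕ}

theorem Ld_cont {U D : ℕ → ℝ} (h : Box g U D) (hj : j < g) :
    ContinuousOn (fun θ => Ld g U D j (sc (U j / (U j + D j)) θ)) (Icc 0 Real.pi) :=
  (Cont_Ld (U := fun _ => U) (D := fun _ => D) (fun _ => h) hj (fun _ => continuous_const)
    (fun _ => continuous_const) continuous_id).continuousOn

theorem Lu_cont {U D : ℕ → ℝ} (h : Box g U D) (hj : j < g) :
    ContinuousOn (fun θ => Lu g U D j (sc (D j / (D j + U j)) θ)) (Icc 0 Real.pi) :=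
  (Cont_Lu (U := fun _ => U) (D := fun _ => D) (fun _ => h) hj (fun _ => continuous_const)
    (fun _ => continuous_const) continuous_id).continuousOn

theorem perd_cont (hj : j < g) :
    ContinuousOn (fun z : (ℕ → ℝ) × (ℕ → ℝ) => Per (z.1 j) (z.2 j) (Ld g z.1 z.2 j))
      {z | Box g z.1 z.2} := by
  refine continuousOn_iff_continuous_domRestrict.2 ?_
  exact Cont_per (α := {z : (ℕ → ℝ) × (ℕ → ℝ) | Box g z.1 z.2}) (u := fun a => a.1.1 j)
    (d := fun a => a.1.2 j) (L := fun a => Ld g a.1.1 a.1.2 j) (fun a => a.2 j hj) (by fun_prop)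
    (by fun_prop) (Cont_Ld (fun z => z.1.2) hj (fun _ => by fun_prop) (fun _ => by fun_prop)
      continuous_snd)

theorem peru_cont (hj : j < g) :
    ContinuousOn (fun z : (ℕ → ℝ) × (ℕ → ℝ) => Per (z.2 j) (z.1 j) (Lu g z.1 z.2 j))
      {z | Box g z.1 z.2} := by
  refine continuousOn_iff_continuous_domRestrict.2 ?_
  exact Cont_per (α := {z : (ℕ → ℝ) × (ℕ → ℝ) | Box g z.1 z.2}) (u := fun a => a.1.2 j)
    (d := fun a => a.1.1 j) (L := fun a => Lu g a.1.1 a.1.2 j) (fun a => (a.2 j hj).symm)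
    (by fun_prop) (by fun_prop) (Cont_Lu (fun z => z.1.2) hj (fun _ => by fun_prop)
      (fun _ => by fun_prop) continuous_snd)

end Pool.Agent.MP_92463a_gt

end
end

section

open Set Complex Filter Metric
open scoped Topology ComplexConjugate ContDiff Manifold

noncomputable section

namespace Pool.Agent.MP_92463a_gt

theorem Link1_int {f : ℝ → ℂ} (ℓ : ℂ →L[ℝ] ℝ) {φ : ℝ → ℝ} (k : ℝ)
    (h : ∀ θ ∈ Icc 0 Real.pi, ℓ (f θ) = k * φ θ) (h0 : ∫ θ in (0 : ℝ)..Real.pi, φ θ = 0) :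
    ℓ (∫ θ in (0 : ℝ)..Real.pi, f θ) = 0 := by
  by_cases hf : IntervalIntegrable f MeasureTheory.volume 0 Real.pi
  · rw [← ℓ.intervalIntegral_comp_comm hf,
      intervalIntegral.integral_congr (g := fun θ => k * φ θ)
        (fun θ hθ => h θ (by rwa [uIcc_of_le Real.pi_pos.le] at hθ)),
      intervalIntegral.integral_const_mul, h0, mul_zero]
  · rw [intervalIntegral.integral_undef hf, map_zero]

theorem Link1_pos {g j : ℕ} {U D : ℕ → ℝ} (h : Box g U D) (hj : j < g) : 0 < U j ∧ 0 < D j := by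
  obtain ⟨⟨h1, -⟩, h2, -⟩ := h j hj
  have key : ∀ a b, 0 < dLo a b := fun a b => by
    cases a <;> cases b <;> norm_num [dLo]
  exact ⟨(key _ _).trans_le h2, (key _ _).trans_le h1⟩

theorem Link1_even {G Γ w T s s' : ℂ} {ε : ℝ} (hε : ε = 1 ∨ ε = -1) (hT : T ≠ 0) (hs : s ≠ 0)
    (hΓ : Γ ≠ 0) (hw : w = s' / s) (hG : G = ε * (I * Γ)) :
    (G / (T * s) * (T * s') - conj ((G * (T * s))⁻¹ * (T * s'))).re =
      -ε * (Γ * w + Γ⁻¹ * w).im := by
  have h1 : G / (T * s) * (T * s') = ε * (I * (Γ * w)) := by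
    rw [hG, hw]
    field_simp
  have h2 : (G * (T * s))⁻¹ * (T * s') = ε * (-I * (Γ⁻¹ * w)) := by
    rw [hG, hw]
    rcases hε with rfl | rfl
    · push_cast
      field_simp
      rw [I_sq]
      ring
    · push_cast
      field_simp
      rw [I_sq]
      ring
  rw [h1, h2]
  generalize Γ * w = A
  generalize Γ⁻¹ * w = B
  simp
  ring

theorem Link1_odd {G Γ w T s s' : ℂ} {ε : ℝ} (hε : ε = 1 ∨ ε = -1) (hT : T ≠ 0) (hs : s ≠ 0)
    (hΓ : Γ ≠ 0) (hw : w = s' / s) (hG : G = ε * Γ⁻¹) :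
    (G / (T * s) * (T * s') - conj ((G * (T * s))⁻¹ * (T * s'))).im =
      ε * (Γ * w + Γ⁻¹ * w).im := by
  have h1 : G / (T * s) * (T * s') = ε * (Γ⁻¹ * w) := by
    rw [hG, hw]
    field_simp
  have h2 : (G * (T * s))⁻¹ * (T * s') = ε * (Γ * w) := by
    rw [hG, hw]
    rcases hε with rfl | rfl
    · push_cast
      field_simp
    · push_cast
      field_simp
  rw [h1, h2]
  generalize Γ * w = A
  generalize Γ⁻¹ * w = B
  simp
  ring

theorem Link1_im {s Y L β : ℂ} {u d l r δ : ℝ} (hd : d ≠ 0) (hl : l ≠ 0) (hδ : δ ≠ 0)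
    (hll : l ^ 2 = u ^ 2 / d) (hs : s ≠ 0) (hb : s + β ≠ 0) (hY0 : Y ≠ 0)
    (hY : Y ^ 2 = s * (s - 1) * (s + β)) :
    (l * (s + β) ^ 2 / Y * exp L * (I * ((r / δ : ℝ) : ℂ) * Y / s) +
      (l * (s + β) ^ 2 / Y * exp L)⁻¹ * (I * ((r / δ : ℝ) : ℂ) * Y / s)).im =
      r / (l * d) * (((u : ℂ) ^ 2 * ((s + β) ^ 2 / s * exp L) +
        (d : ℂ) * ((s - 1) / (s + β) * exp (-L))).re / δ) := by
  have hd' : (d : ℂ) ≠ 0 := by exact_mod_cast hd
  have hl' : (l : ℂ) ≠ 0 := by exact_mod_cast hl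
  have hδ' : (δ : ℂ) ≠ 0 := by exact_mod_cast hδ
  have he : exp L ≠ 0 := exp_ne_zero L
  have hu : (u : ℂ) ^ 2 = (l : ℂ) ^ 2 * d := by
    have : u ^ 2 = l ^ 2 * d := by rw [hll, div_mul_cancel₀ _ hd]
    exact_mod_cast this
  have h1 : l * (s + β) ^ 2 / Y * exp L * (I * ((r / δ : ℝ) : ℂ) * Y / s) +
      (l * (s + β) ^ 2 / Y * exp L)⁻¹ * (I * ((r / δ : ℝ) : ℂ) * Y / s) =
      ((r / (l * d) / δ : ℝ) : ℂ) * (I * ((u : ℂ) ^ 2 * ((s + β) ^ 2 / s * exp L) +
        (d : ℂ) * ((s - 1) / (s + β) * exp (-L)))) := by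
    rw [hu, exp_neg]
    push_cast
    field_simp
    rw [hY]
    ring
  rw [h1, im_ofReal_mul, I_mul_im]
  ring

theorem Link1_sq {s Y L β : ℂ} {l : ℝ} (hs : s ≠ 0) (hs1 : s - 1 ≠ 0) (hb : s + β ≠ 0)
    (hY : Y ^ 2 = s * (s - 1) * (s + β)) :
    (l * (s + β) ^ 2 / Y * exp L) ^ 2 =
      ((l ^ 2 : ℝ) : ℂ) * ((s + β) ^ 3 / (s * (s - 1))) * exp L ^ 2 := by
  rw [mul_pow, div_pow, hY]
  push_cast
  field_simp

theorem Link1_sign {G V : ℝ → ℂ} (hG : ContinuousOn G (Icc 0 Real.pi))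
    (hV : ContinuousOn V (Icc 0 Real.pi)) (hne : ∀ θ ∈ Icc 0 Real.pi, V θ ≠ 0)
    (hsq : ∀ θ ∈ Icc 0 Real.pi, G θ ^ 2 = V θ ^ 2) :
    ∃ ε : ℝ, (ε = 1 ∨ ε = -1) ∧ ∀ θ ∈ Icc 0 Real.pi, G θ = ε * V θ := by
  rcases sign_const isPreconnected_Icc hG hV hne hsq with h | h
  · exact ⟨1, Or.inl rfl, fun θ hθ => by rw [h θ hθ]; simp⟩
  · exact ⟨-1, Or.inr rfl, fun θ hθ => by rw [h θ hθ]; simp⟩

theorem Box.link_down {g j : ℕ} {U D : ℕ → ℝ} {X : ℂ → ℂ} (h : Box g U D) (hj : j < g)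
    (hX : (tw g U D).Pre X) (h0 : Per (U j) (D j) (Ld g U D j) = 0) :
    ∃ x x', (tw g U D).InA (j + 1) x ∧ (tw g U D).InB j x' ∧
      (tw g U D).cst X x = (tw g U D).cst X x' := by
  obtain ⟨hu, hd⟩ := Link1_pos h hj
  have hok := h.ok (Nat.zero_lt_of_lt hj)
  obtain ⟨hA, hB⟩ := h.in_down hj
  have hL := Ld_cont h hj
  have hT : 0 < tA U D j := hok.a_pos j hj
  have hT' : (tA U D j : ℂ) ≠ 0 := by exact_mod_cast hT.ne'
  have hp0 : 0 < U j / (U j + D j) := by positivity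
  have hp1 : U j / (U j + D j) < 1 := by
    rw [div_lt_one (by positivity)]
    linarith
  have hβ : (1 - U j / (U j + D j)) / (U j / (U j + D j)) = D j / U j := by
    field_simp
    ring
  unfold Per Av at h0
  generalize U j / (U j + D j) = p at *
  have sA := (hok.sign_pos (k := j + 1) hA.1 hj hA.2.1 hA.2.2).1
  have sB := (hok.sign_neg hB.1 hj.le hB.2.1 hB.2.2).1
  refine ⟨_, _, hA, hB, ?_⟩
  have e0 : (tA U D j : ℂ) * sc p 0 = ((tA U D j * (1 + 1 / √p) : ℝ) : ℂ) := by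
    rw [sc_zero hp0 hp1, ofReal_mul]
  have e1 : (tA U D j : ℂ) * sc p Real.pi = ((tA U D j * (1 - 1 / √p) : ℝ) : ℂ) := by
    rw [sc_pi hp0 hp1, ofReal_mul]
  generalize tA U D j * (1 + 1 / √p) = x at *
  generalize tA U D j * (1 - 1 / √p) = x' at *
  have hin : ∀ θ ∈ Ioo 0 Real.pi, 0 < ((tA U D j : ℂ) * sc p θ).im := fun θ hθ => by
    rw [im_ofReal_mul]
    exact mul_pos hT (sc_im hp0 hp1 hθ)
  have hP : ∀ θ ∈ Icc 0 Real.pi, 0 ≤ ((tA U D j : ℂ) * sc p θ).im ∧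
      (tw g U D).P ((tA U D j : ℂ) * sc p θ) ≠ 0 := by
    intro θ hθ
    rcases hθ.1.eq_or_lt with rfl | h1
    · rw [e0]
      refine ⟨(ofReal_im _).ge, fun h2 => ?_⟩
      rw [h2, zero_re, mul_zero] at sA
      exact lt_irrefl _ sA
    rcases hθ.2.eq_or_lt with rfl | h2
    · rw [e1]
      refine ⟨(ofReal_im _).ge, fun h2 => ?_⟩
      rw [h2, zero_re, mul_zero] at sB
      exact lt_irrefl _ sB
    · exact ⟨(hin θ ⟨h1, h2⟩).le, Dat.ne_of_im (hin θ ⟨h1, h2⟩).ne'⟩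
  have cs : Continuous (sc p) :=
    continuous_iff_continuousAt.2 fun θ => (sc_der hp0 hp1 θ).continuousAt
  have cY : Continuous (Yc p) :=
    continuous_iff_continuousAt.2 fun θ => (Yc_der hp0 hp1 θ).continuousAt
  have cD : Continuous (Dl p) := Dl_cont.comp (continuous_const.prodMk continuous_id)
  have cc : Continuous fun θ => √p / Dl p θ :=
    continuous_const.div cD fun θ => (Dl_pos hp0 hp1 θ).ne'
  have hpath := hX.path hok (γ := fun θ => (tA U D j : ℂ) * sc p θ)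
    (γ' := fun θ => (tA U D j : ℂ) * (I * ((√p / Dl p θ : ℝ) : ℂ) * Yc p θ))
    (fun θ _ => (sc_der hp0 hp1 θ).const_mul _)
    (continuous_const.mul ((continuous_const.mul (continuous_ofReal.comp cc)).mul cY)).continuousOn
    hin hP
  simp only [e0, e1] at hpath
  have hl : 0 < √(U j ^ 2 / D j) := Real.sqrt_pos.2 (by positivity)
  have hll : √(U j ^ 2 / D j) ^ 2 = U j ^ 2 / D j := Real.sq_sqrt (by positivity)
  generalize √(U j ^ 2 / D j) = l at *
  have hne := sc_ne hp0 hp1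
  have hY := Yc_sq hp0 hp1
  rw [hβ] at hne hY
  set Γ : ℝ → ℂ := fun θ => l * (sc p θ + (D j / U j : ℝ)) ^ 2 / Yc p θ * exp (Ld g U D j (sc p θ))
    with hΓ
  have Γ0 : ∀ θ, Γ θ ≠ 0 := fun θ =>
    mul_ne_zero (div_ne_zero (mul_ne_zero (by exact_mod_cast hl.ne')
      (pow_ne_zero _ (hne θ).2.2.1)) (hne θ).2.2.2) (exp_ne_zero _)
  have cΓ : ContinuousOn Γ (Icc 0 Real.pi) :=
    (((continuous_const.mul ((cs.add continuous_const).pow 2)).div cY
      fun θ => (hne θ).2.2.2).continuousOn).mul hL.cexp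
  have cG : ContinuousOn (fun θ => (tw g U D).G ((tA U D j : ℂ) * sc p θ)) (Icc 0 Real.pi) :=
    Dat.G_cont.comp (continuous_const.mul cs).continuousOn hP
  have hsq : ∀ θ ∈ Icc 0 Real.pi, (tw g U D).G ((tA U D j : ℂ) * sc p θ) ^ 2 =
      if Even j then -Γ θ ^ 2 else (Γ θ ^ 2)⁻¹ := fun θ hθ =>
    h.G_sq hj (hP θ hθ).2 (by
      rw [← hll]
      exact Link1_sq (hne θ).1 (hne θ).2.1 (hne θ).2.2.1 (hY θ))
  have him := fun θ => Link1_im (L := Ld g U D j (sc p θ)) (r := √p) hd.ne' hl.ne'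
    (Dl_pos hp0 hp1 θ).ne' hll (hne θ).1 (hne θ).2.2.1 (hne θ).2.2.2 (hY θ)
  unfold Dat.cst
  by_cases hev : Even j
  · obtain ⟨ε, hε, hG⟩ := Link1_sign cG (V := fun θ => I * Γ θ) (continuousOn_const.mul cΓ)
      (fun θ _ => mul_ne_zero I_ne_zero (Γ0 θ)) fun θ hθ => by
        rw [hsq θ hθ, if_pos hev, mul_pow I, I_sq, neg_one_mul]
    rw [sg, hev.add_one.neg_one_pow] at sA
    rw [sg, hev.neg_one_pow] at sB
    rw [if_neg (by linarith), if_neg (by linarith)]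
    have key := Link1_int (f := fun θ => _ - conj _) reCLM (-ε * (√p / (l * D j))) (fun θ hθ => by
      rw [reCLM_apply, Link1_even hε hT' (hne θ).1 (Γ0 θ) rfl (hG θ hθ), him θ, mul_assoc]) h0
    rw [← hpath, reCLM_apply, sub_re] at key
    linarith
  · obtain ⟨ε, hε, hG⟩ := Link1_sign cG (V := fun θ => (Γ θ)⁻¹) (cΓ.inv₀ fun θ _ => Γ0 θ)
      (fun θ _ => inv_ne_zero (Γ0 θ)) fun θ hθ => by
        rw [hsq θ hθ, if_neg hev, inv_pow]
    have hod : Odd j := Nat.not_even_iff_odd.1 hev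
    rw [sg, hod.add_one.neg_one_pow] at sA
    rw [sg, hod.neg_one_pow] at sB
    rw [if_pos (by linarith), if_pos (by linarith)]
    have key := Link1_int (f := fun θ => _ - conj _) imCLM (ε * (√p / (l * D j))) (fun θ hθ => by
      rw [imCLM_apply, Link1_odd hε hT' (hne θ).1 (Γ0 θ) rfl (hG θ hθ), him θ, mul_assoc]) h0
    rw [← hpath, imCLM_apply, sub_im] at key
    linarith

end Pool.Agent.MP_92463a_gt

end
end

section

open Set Complex Filter Metric
open scoped Topology ComplexConjugate ContDiff Manifold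

noncomputable section

namespace Pool.Agent.MP_92463a_gt

theorem Link2_int (f : ℝ → ℂ) (ℓ : ℂ →L[ℝ] ℝ) {a b : ℝ} (h : ∫ θ in a..b, ℓ (f θ) = 0) :
    ℓ (∫ θ in a..b, f θ) = 0 := by
  by_cases hf : IntervalIntegrable f MeasureTheory.volume a b
  · rw [← ℓ.intervalIntegral_comp_comm hf, h]
  · rw [intervalIntegral.integral_undef hf, map_zero]

theorem Link2_even {Γ w γ : ℂ} (ε : ℝ) (hε : ε * ε = 1) (hγ : γ ≠ 0) :
    ((ε * conj Γ) / γ * -(γ * conj w) - conj (((ε * conj Γ) * γ)⁻¹ * -(γ * conj w))).im =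
      ε * (Γ * w + w / Γ).im := by
  have h1 : (ε : ℂ)⁻¹ = ε := inv_eq_of_mul_eq_one_left (by exact_mod_cast hε)
  have e1 : (ε * conj Γ) / γ * -(γ * conj w) = -(ε * conj (Γ * w)) := by
    rw [map_mul]
    field_simp
  have e2 : ((ε * conj Γ) * γ)⁻¹ * -(γ * conj w) = -(ε * conj (w / Γ)) := by
    rw [mul_inv, mul_inv, h1, map_div₀, div_eq_mul_inv]
    generalize (conj Γ)⁻¹ = c
    field_simp
  rw [e1, e2]
  generalize w / Γ = z
  generalize Γ * w = z'
  simp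
  ring

theorem Link2_odd {Γ w γ : ℂ} (ε : ℝ) (hε : ε * ε = 1) (hγ : γ ≠ 0) :
    ((ε * (I / conj Γ)) / γ * -(γ * conj w) -
      conj (((ε * (I / conj Γ)) * γ)⁻¹ * -(γ * conj w))).re = -ε * (Γ * w + w / Γ).im := by
  have h1 : (ε : ℂ)⁻¹ = ε := inv_eq_of_mul_eq_one_left (by exact_mod_cast hε)
  have e1 : (ε * (I / conj Γ)) / γ * -(γ * conj w) = -(ε * (I * conj (w / Γ))) := by
    rw [map_div₀, div_eq_mul_inv I, div_eq_mul_inv (conj w)]
    generalize (conj Γ)⁻¹ = c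
    field_simp
  have e2 : ((ε * (I / conj Γ)) * γ)⁻¹ * -(γ * conj w) = ε * (I * conj (Γ * w)) := by
    rw [mul_inv, mul_inv, h1, inv_div, div_eq_mul_inv, inv_I, map_mul]
    field_simp
  rw [e1, e2]
  generalize w / Γ = z
  generalize Γ * w = z'
  simp
  ring

theorem Link2_main {T : Dat} {X : ℂ → ℂ} (hT : T.Ok) (hX : T.Pre X) {γ w Γ : ℝ → ℂ}
    (hγ : ∀ θ, HasDerivAt γ (-(γ θ * conj (w θ))) θ) (hw : Continuous w) (hγ0 : ∀ θ, γ θ ≠ 0)
    (hin : ∀ θ ∈ Ioo 0 Real.pi, 0 < (γ θ).im)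
    (hP : ∀ θ ∈ Icc 0 Real.pi, 0 ≤ (γ θ).im ∧ T.P (γ θ) ≠ 0)
    (hΓ : ContinuousOn Γ (Icc 0 Real.pi)) (hne : ∀ θ, Γ θ ≠ 0)
    (h0 : ∫ θ in (0 : ℝ)..Real.pi, (Γ θ * w θ + w θ / Γ θ).im = 0) :
    ((∀ θ ∈ Icc 0 Real.pi, T.G (γ θ) ^ 2 = conj (Γ θ) ^ 2) →
      (X (γ 0)).im = (X (γ Real.pi)).im) ∧
    ((∀ θ ∈ Icc 0 Real.pi, T.G (γ θ) ^ 2 = (I / conj (Γ θ)) ^ 2) →
      (X (γ 0)).re = (X (γ Real.pi)).re) := by
  have cγ : Continuous γ := continuous_iff_continuousAt.mpr fun θ => (hγ θ).continuousAt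
  have path := hX.path hT (fun θ _ => hγ θ)
    (cγ.mul (continuous_conj.comp hw)).neg.continuousOn hin hP
  have cG : ContinuousOn (fun θ => T.G (γ θ)) (Icc 0 Real.pi) :=
    Dat.G_cont.comp cγ.continuousOn hP
  have cΓ : ContinuousOn (fun θ => conj (Γ θ)) (Icc 0 Real.pi) :=
    continuous_conj.comp_continuousOn hΓ
  have hne' : ∀ θ, conj (Γ θ) ≠ 0 := fun θ => (map_ne_zero _).mpr (hne θ)
  have sgn : ∀ v : ℝ → ℂ, ContinuousOn v (Icc 0 Real.pi) → (∀ θ, v θ ≠ 0) →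
      (∀ θ ∈ Icc 0 Real.pi, T.G (γ θ) ^ 2 = v θ ^ 2) →
      ∃ ε : ℝ, ε * ε = 1 ∧ ∀ θ ∈ uIcc 0 Real.pi, T.G (γ θ) = ε * v θ := fun v hv h1 h2 => by
    rw [uIcc_of_le Real.pi_pos.le]
    rcases sign_const isPreconnected_Icc cG hv (fun θ _ => h1 θ) h2 with h | h
    · exact ⟨1, by norm_num, fun θ hθ => by rw [h θ hθ]; simp⟩
    · exact ⟨-1, by norm_num, fun θ hθ => by rw [h θ hθ]; simp⟩
  constructor
  · intro h
    obtain ⟨ε, hε, he⟩ := sgn _ cΓ hne' h
    have := Link2_int imCLM (a := 0) (b := Real.pi) (f := fun θ =>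
      T.G (γ θ) / γ θ * -(γ θ * conj (w θ)) -
        conj ((T.G (γ θ) * γ θ)⁻¹ * -(γ θ * conj (w θ)))) (by
      rw [intervalIntegral.integral_congr (g := fun θ => ε * (Γ θ * w θ + w θ / Γ θ).im)
        fun θ hθ => by
          beta_reduce
          rw [imCLM_apply, he θ hθ, Link2_even ε hε (hγ0 θ)],
        intervalIntegral.integral_const_mul, h0, mul_zero])
    rw [← path, imCLM_apply, sub_im] at this
    linarith
  · intro h
    obtain ⟨ε, hε, he⟩ := sgn (fun θ => I / conj (Γ θ))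
      (continuousOn_const.div cΓ fun θ _ => hne' θ)
      (fun θ => div_ne_zero I_ne_zero (hne' θ)) h
    have := Link2_int reCLM (a := 0) (b := Real.pi) (f := fun θ =>
      T.G (γ θ) / γ θ * -(γ θ * conj (w θ)) -
        conj ((T.G (γ θ) * γ θ)⁻¹ * -(γ θ * conj (w θ)))) (by
      rw [intervalIntegral.integral_congr (g := fun θ => -ε * (Γ θ * w θ + w θ / Γ θ).im)
        fun θ hθ => by
          beta_reduce
          rw [reCLM_apply, he θ hθ, Link2_odd ε hε (hγ0 θ)],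
        intervalIntegral.integral_const_mul, h0, mul_zero])
    rw [← path, reCLM_apply, sub_re] at this
    linarith

theorem Link2_alg {σ Y L β : ℂ} {κ l u d : ℝ} (hu : u ≠ 0) (hl : l ≠ 0) (hl2 : l ^ 2 * u = d ^ 2)
    (h1 : σ ≠ 0) (h2 : σ + β ≠ 0) (h3 : Y ≠ 0) (hY : Y ^ 2 = σ * (σ - 1) * (σ + β)) :
    (l * (σ + β) ^ 2 / Y * exp L * (I * κ * Y / σ) +
      I * κ * Y / σ / (l * (σ + β) ^ 2 / Y * exp L)).im =
      κ / (l * u) * ((d : ℂ) ^ 2 * ((σ + β) ^ 2 / σ * exp L) +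
        (u : ℂ) * ((σ - 1) / (σ + β) * exp (-L))).re := by
  have hu' : (u : ℂ) ≠ 0 := ofReal_ne_zero.mpr hu
  have hl' : (l : ℂ) ≠ 0 := ofReal_ne_zero.mpr hl
  have hd : (d : ℂ) ^ 2 = l ^ 2 * u := by exact_mod_cast hl2.symm
  have hE := exp_ne_zero L
  have e : l * (σ + β) ^ 2 / Y * exp L * (I * κ * Y / σ) +
      I * κ * Y / σ / (l * (σ + β) ^ 2 / Y * exp L) =
      I * (((κ / (l * u) : ℝ) : ℂ) * ((d : ℂ) ^ 2 * ((σ + β) ^ 2 / σ * exp L) +
        (u : ℂ) * ((σ - 1) / (σ + β) * exp (-L)))) := by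
    rw [exp_neg, hd]
    push_cast
    field_simp
    rw [hY]
    ring
  rw [e, I_mul_im, re_ofReal_mul]

theorem Link2_sq {τ Y E : ℂ} {l u d : ℝ} (hu : u ≠ 0) (hd : d ≠ 0) (hl2 : l ^ 2 * u = d ^ 2)
    (h1 : τ ≠ 0) (h2 : τ + (u / d : ℝ) ≠ 0) (h3 : τ - 1 ≠ 0)
    (hY : Y ^ 2 = τ * (τ - 1) * (τ + (u / d : ℝ))) :
    (-I * (l * (τ + (u / d : ℝ)) ^ 2 / Y * E)) ^ 2 =
      ((u ^ 2 / d : ℝ) : ℂ) * ((τ⁻¹ + (d / u : ℝ)) ^ 3 / (τ⁻¹ * (τ⁻¹ - 1))) * E ^ 2 := by
  have hu' : (u : ℂ) ≠ 0 := ofReal_ne_zero.mpr hu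
  have hd' : (d : ℂ) ≠ 0 := ofReal_ne_zero.mpr hd
  have hl : (l : ℂ) ^ 2 = d ^ 2 / u := by
    rw [eq_div_iff hu']
    exact_mod_cast hl2
  have e1 : τ⁻¹ + (d / u : ℝ) = d / u * (τ + (u / d : ℝ)) / τ := by
    push_cast
    field_simp
    ring
  have e2 : τ⁻¹ * (τ⁻¹ - 1) = -(τ - 1) / τ ^ 2 := by
    field_simp
    ring
  rw [e1, e2, mul_pow, mul_pow, div_pow, mul_pow, hY, hl, neg_sq, I_sq]
  generalize τ + (u / d : ℝ) = z at h2
  generalize τ - 1 = y at h3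
  push_cast
  field_simp

theorem Box.link_up {g j : ℕ} {U D : ℕ → ℝ} {X : ℂ → ℂ} (h : Box g U D) (hj : j < g)
    (hX : (tw g U D).Pre X) (h0 : Per (D j) (U j) (Lu g U D j) = 0) :
    ∃ x x', (tw g U D).InA j x ∧ (tw g U D).InB (j + 1) x' ∧
      (tw g U D).cst X x = (tw g U D).cst X x' := by
  have hb := (h j hj).symm
  obtain ⟨b1, -, b2, -, b3, b4⟩ := hb.bd
  have harg := hb.arg
  obtain ⟨hA, hB⟩ := h.in_up hj
  have hT := h.ok (by omega)
  have cL := Lu_cont h hj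
  have hsq := fun {s Γ : ℂ} => h.G_sq hj (s := s) (Γ := Γ)
  have hLd : ∀ θ, Ld g U D j (conj (sc (D j / (D j + U j)) θ))⁻¹ =
      conj (Lu g U D j (sc (D j / (D j + U j)) θ)) := fun θ => by
    rw [Ld, Lu, map_add, ← fld_conj (h.upp hj) fun _ => (harg θ).1,
      ← fld_conj (h.low hj) fun h0 => (harg θ).2 (decide_eq_true h0), add_comm, map_mul, map_div₀,
      conj_ofReal, conj_ofReal, div_inv_eq_mul, div_eq_mul_inv ((U j ^ 2 / D j : ℝ) : ℂ)]
  have ha : 0 < tA U D j := hT.a_pos j hj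
  rw [Per, Av] at h0
  generalize Ld g U D j = L₁ at hsq hLd
  generalize Lu g U D j = L at h0 cL hLd
  generalize tA U D j = a at hA hB hsq ha
  generalize U j = u at *
  generalize D j = d at *
  have hu : 0 < u := by linarith
  have hd : 0 < d := by linarith
  have hβ : (1 - d / (d + u)) / (d / (d + u)) = u / d := by
    field_simp
    ring
  have p0 : 0 < d / (d + u) := by linarith
  have p1 : d / (d + u) < 1 := by linarith
  generalize d / (d + u) = p at *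
  obtain ⟨l, hl, hl2⟩ : ∃ l : ℝ, 0 < l ∧ l ^ 2 * u = d ^ 2 :=
    ⟨√(d ^ 2 / u), by positivity, by rw [Real.sq_sqrt (by positivity)]; field_simp⟩
  have hne := sc_ne p0 p1
  have hY := Yc_sq p0 p1
  rw [hβ] at hne hY
  have cs : Continuous (sc p) := continuous_iff_continuousAt.mpr fun θ =>
    (sc_der p0 p1 θ).continuousAt
  have cY : Continuous (Yc p) := continuous_iff_continuousAt.mpr fun θ =>
    (Yc_der p0 p1 θ).continuousAt
  have cD : Continuous (Dl p) := Dl_cont.comp (continuous_const.prodMk continuous_id)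
  have hc : ∀ θ, conj (sc p θ) ≠ 0 := fun θ => (map_ne_zero _).mpr (hne θ).1
  have a0 : (a : ℂ) ≠ 0 := ofReal_ne_zero.mpr ha.ne'
  have e0 : (a : ℂ) * (conj (sc p 0))⁻¹ = ((a / (1 + 1 / √p) : ℝ) : ℂ) := by
    rw [sc_zero p0 p1, conj_ofReal, ofReal_div a, div_eq_mul_inv (a : ℂ)]
  have e1 : (a : ℂ) * (conj (sc p Real.pi))⁻¹ = ((a / (1 - 1 / √p) : ℝ) : ℂ) := by
    rw [sc_pi p0 p1, conj_ofReal, ofReal_div a, div_eq_mul_inv (a : ℂ)]
  have sA := (hT.sign_pos hA.1 hj.le hA.2.1 hA.2.2).1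
  have sB := (hT.sign_neg hB.1 hj hB.2.1 hB.2.2).1
  have hin : ∀ θ ∈ Ioo 0 Real.pi, 0 < ((a : ℂ) * (conj (sc p θ))⁻¹).im := fun θ hθ => by
    rw [im_ofReal_mul, inv_im, conj_im, neg_neg]
    exact mul_pos ha (div_pos (sc_im p0 p1 hθ) (normSq_pos.mpr (hc θ)))
  have hP : ∀ θ ∈ Icc 0 Real.pi, 0 ≤ ((a : ℂ) * (conj (sc p θ))⁻¹).im ∧
      (tw g U D).P ((a : ℂ) * (conj (sc p θ))⁻¹) ≠ 0 := fun θ hθ => by
    rcases hθ.1.eq_or_lt with rfl | h1
    · rw [e0]
      exact ⟨(ofReal_im _).ge, fun h2 => by rw [h2] at sA; simp at sA⟩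
    rcases hθ.2.eq_or_lt with rfl | h2
    · rw [e1]
      exact ⟨(ofReal_im _).ge, fun h2 => by rw [h2] at sB; simp at sB⟩
    exact ⟨(hin θ ⟨h1, h2⟩).le, Dat.ne_of_im (hin θ ⟨h1, h2⟩).ne'⟩
  have hΓ : ∀ θ, (l : ℂ) * (sc p θ + (u / d : ℝ)) ^ 2 / Yc p θ * exp (L (sc p θ)) ≠ 0 := fun θ =>
    mul_ne_zero (div_ne_zero (mul_ne_zero (ofReal_ne_zero.mpr hl.ne')
      (pow_ne_zero _ (hne θ).2.2.1)) (hne θ).2.2.2) (exp_ne_zero _)
  obtain ⟨m1, m2⟩ := Link2_main hT hX (γ := fun θ => (a : ℂ) * (conj (sc p θ))⁻¹)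
    (w := fun θ => I * ((√p / Dl p θ : ℝ) : ℂ) * Yc p θ / sc p θ)
    (Γ := fun θ => (l : ℂ) * (sc p θ + (u / d : ℝ)) ^ 2 / Yc p θ * exp (L (sc p θ)))
    (fun θ => by
      refine (((sc_der p0 p1 θ).star.fun_inv (hc θ)).const_mul (a : ℂ)).congr_deriv ?_
      have := hc θ
      rw [map_div₀]
      simp only [star_def]
      field_simp)
    (((continuous_const.mul (continuous_ofReal.comp
      (continuous_const.div cD fun θ => (Dl_pos p0 p1 θ).ne'))).mul cY).div cs fun θ => (hne θ).1)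
    (fun θ => mul_ne_zero a0 (inv_ne_zero (hc θ))) hin hP
    ((((continuous_const.mul ((cs.add continuous_const).pow 2)).div cY
      fun θ => (hne θ).2.2.2).continuousOn).mul cL.cexp) hΓ (by
      rw [intervalIntegral.integral_congr (g := fun θ => √p / (l * u) *
        (((d : ℂ) ^ 2 * ((sc p θ + (u / d : ℝ)) ^ 2 / sc p θ * exp (L (sc p θ))) +
          (u : ℂ) * ((sc p θ - 1) / (sc p θ + (u / d : ℝ)) * exp (-L (sc p θ)))).re / Dl p θ))
        fun θ _ => by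
          beta_reduce
          rw [Link2_alg hu.ne' hl.ne' hl2 (hne θ).1 (hne θ).2.2.1 (hne θ).2.2.2 (hY θ)]
          ring,
        intervalIntegral.integral_const_mul, h0, mul_zero])
  have hG : ∀ θ ∈ Icc 0 Real.pi, (tw g U D).G ((a : ℂ) * (conj (sc p θ))⁻¹) ^ 2 =
      if Even j then -(-I * conj ((l : ℂ) * (sc p θ + (u / d : ℝ)) ^ 2 / Yc p θ *
        exp (L (sc p θ)))) ^ 2 else ((-I * conj ((l : ℂ) * (sc p θ + (u / d : ℝ)) ^ 2 / Yc p θ *
        exp (L (sc p θ)))) ^ 2)⁻¹ := fun θ hθ => by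
    refine hsq (hP θ hθ).2 ?_
    have q1 : conj (sc p θ + (u / d : ℝ)) = conj (sc p θ) + (u / d : ℝ) := by
      rw [map_add, conj_ofReal]
    have q2 : conj (sc p θ - 1) = conj (sc p θ) - 1 := by rw [map_sub, map_one]
    rw [hLd, exp_conj, map_mul, map_div₀, map_mul, map_pow, conj_ofReal, q1]
    refine Link2_sq hu.ne' hd.ne' hl2 (hc θ) ?_ ?_ ?_
    · rw [← q1]
      exact (map_ne_zero _).mpr (hne θ).2.2.1
    · rw [← q2]
      exact (map_ne_zero _).mpr (hne θ).2.1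
    · rw [← map_pow, hY, map_mul, map_mul, q1, q2]
  refine ⟨_, _, hA, hB, ?_⟩
  rw [e0, e1] at m1 m2
  rw [sg, pow_succ] at sB
  rw [sg] at sA
  rcases Nat.even_or_odd j with hj' | hj'
  · rw [hj'.neg_one_pow] at sA sB
    rw [Dat.cst, Dat.cst, if_pos (by linarith), if_pos (by linarith)]
    refine m1 fun θ hθ => ?_
    rw [hG θ hθ, if_pos hj', mul_pow, neg_sq, I_sq, neg_one_mul, neg_neg]
  · rw [hj'.neg_one_pow] at sA sB
    rw [Dat.cst, Dat.cst, if_neg (by linarith), if_neg (by linarith)]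
    refine m2 fun θ hθ => ?_
    rw [hG θ hθ, if_neg (Nat.not_even_iff_odd.mpr hj'), mul_pow, neg_sq, div_pow, I_sq,
      neg_one_mul, inv_neg, neg_div, one_div]

end Pool.Agent.MP_92463a_gt

end
end
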