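import Pool.Agent.Mg.F92463a.Gc0a48f
import Pool.Agent.Mg.F92463a.G2abf78
import Pool.Agent.Mg.F92463a.G6119f0
import Pool.Agent.Mg.F92463a.G8dda1b
import Pool.Agent.Mg.F92463a.G156f76
import Pool.Agent.MP_efb2da_gt.Contract
import Pool.Agent.Mg.F92463a.Gea0143
import Pool.Agent.Mg.F92463a.Gb52e16

section

open Set Complex Filter Metric
open scoped Topology ComplexConjugate ContDiff Manifold

noncomputable section

namespace Pool.Agent.MP_92463a_gt

theorem WPre_comp {X g : ℂ → ℂ} {a b g' w : ℂ} (hX : HasFDerivAt X (wl a b) (g w))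
    (hg : HasDerivAt g g' w) : HasFDerivAt (fun z => X (g z)) (wl (a * g') (b * g')) w := by
  refine (hX.comp w (hg.hasFDerivAt.restrictScalars ℝ)).congr_fderiv ?_
  ext v
  simp [wl_apply, mul_comm, mul_left_comm]

theorem WPre_core {U φ₁ φ₂ : ℂ → ℂ} {δ : ℝ} (hδ : 0 < δ) {s : Set ℂ} (hs : IsOpen s)
    (hc : Convex ℝ s) (h₁ : DifferentiableOn ℂ φ₁ (ball 0 δ))
    (h₂ : DifferentiableOn ℂ φ₂ (ball 0 δ))
    (hU : ∀ w ∈ ball (0 : ℂ) δ, w ∈ s → HasFDerivAt U (wl (φ₁ w) (φ₂ w)) w) :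
    ∃ y, Tendsto U (𝓝[s] 0) (𝓝 y) := by
  obtain ⟨Φ₁, hΦ₁⟩ := h₁.isExactOn_ball
  obtain ⟨Φ₂, hΦ₂⟩ := h₂.isExactOn_ball
  have hΦ : ∀ w ∈ ball (0 : ℂ) δ,
      HasFDerivAt (fun w => Φ₁ w - conj (Φ₂ w)) (wl (φ₁ w) (φ₂ w)) w :=
    fun w hw => hasFDerivAt_wl (hΦ₁ w hw) (hΦ₂ w hw)
  have ho : IsOpen (ball (0 : ℂ) δ ∩ s) := isOpen_ball.inter hs
  have hp : IsPreconnected (ball (0 : ℂ) δ ∩ s) :=
    ((convex_ball (0 : ℂ) δ).inter hc).isPreconnected
  obtain ⟨k, hk⟩ := ho.exists_eq_add_of_fderiv_eq (𝕜 := ℝ) (f := U)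
    (g := fun w => Φ₁ w - conj (Φ₂ w)) hp
    (fun w hw => (hU w hw.1 hw.2).differentiableAt.differentiableWithinAt)
    (fun w hw => (hΦ w hw.1).differentiableAt.differentiableWithinAt)
    (fun w hw => by rw [(hU w hw.1 hw.2).fderiv, (hΦ w hw.1).fderiv])
  refine ⟨Φ₁ 0 - conj (Φ₂ 0) + k, ?_⟩
  have h1 : Tendsto (fun w => Φ₁ w - conj (Φ₂ w) + k) (𝓝[s] 0) (𝓝 (Φ₁ 0 - conj (Φ₂ 0) + k)) :=
    (((hΦ 0 (mem_ball_self hδ)).continuousAt.tendsto).add_const k).mono_left nhdsWithin_le_nhds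
  refine h1.congr' ?_
  filter_upwards [self_mem_nhdsWithin, mem_nhdsWithin_of_mem_nhds (ball_mem_nhds (0 : ℂ) hδ)]
    with w h1 h2
  exact (hk ⟨h2, h1⟩).symm

theorem WPre_one {X φ₁ φ₂ : ℂ → ℂ} {x : ℂ} (hx : x.im = 0) {δ : ℝ} (hδ : 0 < δ)
    (h₁ : DifferentiableOn ℂ φ₁ (ball 0 δ)) (h₂ : DifferentiableOn ℂ φ₂ (ball 0 δ))
    (he : ∀ w ∈ ball (0 : ℂ) δ, 0 < w.im → HasFDerivAt X (wl (φ₁ w) (φ₂ w)) (x + w)) :
    ∃ y, Tendsto X (𝓝[{t : ℂ | 0 < t.im}] x) (𝓝 y) := by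
  obtain ⟨y, hy⟩ := WPre_core (U := fun w => X (x + w)) hδ
    (isOpen_lt continuous_const continuous_im) (convex_halfSpace_im_gt 0) h₁ h₂ (fun w hw hs => by
      simpa using WPre_comp (g := fun z => x + z) (he w hw hs) ((hasDerivAt_id w).const_add x))
  refine ⟨y, ?_⟩
  have h2 : Tendsto (fun t : ℂ => t - x) (𝓝[{t : ℂ | 0 < t.im}] x)
      (𝓝[{t : ℂ | 0 < t.im}] 0) := by
    refine tendsto_nhdsWithin_iff.2 ⟨?_, ?_⟩
    · have : Tendsto (fun t : ℂ => t - x) (𝓝 x) (𝓝 (x - x)) :=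
        (continuous_id.sub continuous_const).tendsto x
      rw [sub_self] at this
      exact this.mono_left nhdsWithin_le_nhds
    · filter_upwards [self_mem_nhdsWithin] with t ht
      have : 0 < t.im := ht
      simpa [hx] using this
  refine (hy.comp h2).congr fun t => ?_
  simp

theorem WPre_two {X φ₁ φ₂ f₁ f₂ : ℂ → ℂ} {x : ℂ} (hx : x.im = 0) {δ : ℝ} (hδ : 0 < δ)
    (h₁ : DifferentiableOn ℂ φ₁ (ball 0 δ)) (h₂ : DifferentiableOn ℂ φ₂ (ball 0 δ))
    (he : ∀ w ∈ ball (0 : ℂ) δ, 0 < w.re → 0 < w.im →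
      HasFDerivAt X (wl (f₁ w) (f₂ w)) (x + w ^ 2) ∧ φ₁ w = f₁ w * (2 * w) ∧
        φ₂ w = f₂ w * (2 * w)) :
    ∃ y, Tendsto X (𝓝[{t : ℂ | 0 < t.im}] x) (𝓝 y) := by
  obtain ⟨y, hy⟩ := WPre_core (U := fun w => X (x + w ^ 2))
    (s := {w : ℂ | 0 < w.re} ∩ {w : ℂ | 0 < w.im}) hδ
    ((isOpen_lt continuous_const continuous_re).inter (isOpen_lt continuous_const continuous_im))
    ((convex_halfSpace_re_gt 0).inter (convex_halfSpace_im_gt 0)) h₁ h₂ (fun w hw hs => by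
      obtain ⟨a1, a2, a3⟩ := he w hw hs.1 hs.2
      have h2 : HasDerivAt (fun w : ℂ => x + w ^ 2) (2 * w) w := by
        simpa using (hasDerivAt_pow 2 w).const_add x
      rw [a2, a3]
      exact WPre_comp (g := fun z => x + z ^ 2) a1 h2)
  refine ⟨y, ?_⟩
  choose σ hσ hσ' using PreEx_root
  have h2 : Tendsto (fun t : ℂ => σ (t - x)) (𝓝[{t : ℂ | 0 < t.im}] x)
      (𝓝[{w : ℂ | 0 < w.re} ∩ {w : ℂ | 0 < w.im}] 0) := by
    refine tendsto_nhdsWithin_iff.2 ⟨?_, ?_⟩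
    · rw [tendsto_zero_iff_norm_tendsto_zero]
      have h3 : Tendsto (fun t : ℂ => √‖t - x‖) (𝓝 x) (𝓝 (√‖x - x‖)) :=
        ((continuous_id.sub continuous_const).norm.sqrt).tendsto x
      rw [sub_self, norm_zero, Real.sqrt_zero] at h3
      refine (h3.mono_left nhdsWithin_le_nhds).congr fun t => ?_
      rw [← hσ (t - x), norm_pow, Real.sqrt_sq (norm_nonneg _), hσ]
    · filter_upwards [self_mem_nhdsWithin] with t ht
      have : 0 < t.im := ht
      exact hσ' (t - x) (by simpa [hx] using this)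
  refine (hy.comp h2).congr fun t => ?_
  simp [hσ]

theorem WPre_log {a b c t : ℂ} (h : t - c ∈ slitPlane ∨ (t - c ≠ 0 ∧ a + conj b = 0)) :
    HasFDerivAt (fun z => a * log (z - c) - conj (b * log (z - c)))
      (wl (a / (t - c)) (b / (t - c))) t := by
  by_cases hs : t - c ∈ slitPlane
  · have h1 : HasDerivAt (fun z => log (z - c)) (1 / (t - c)) t :=
      ((hasDerivAt_id t).sub_const c).clog hs
    have := hasFDerivAt_wl (h1.const_mul a) (h1.const_mul b)
    simpa [div_eq_mul_inv] using this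
  · obtain ⟨h0, hab⟩ := h.resolve_left hs
    have hs' : -(t - c) ∈ slitPlane := (mem_slitPlane_or_neg_mem_slitPlane h0).resolve_left hs
    have h1 : HasDerivAt (fun z => log (-(z - c))) (-1 / -(t - c)) t :=
      ((hasDerivAt_id t).sub_const c).neg.clog hs'
    rw [neg_div_neg_eq] at h1
    have h2 := hasFDerivAt_wl (h1.const_mul a) (h1.const_mul b)
    have hb : conj b = -a := by linear_combination hab
    have h3 : (fun z => a * log (z - c) - conj (b * log (z - c))) =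
        fun z => a * log (-(z - c)) - conj (b * log (-(z - c))) := by
      funext z
      rw [map_mul, map_mul, hb]
      have e1 := add_conj (log (z - c))
      have e2 := add_conj (log (-(z - c)))
      rw [log_re] at e1 e2
      rw [norm_neg] at e2
      linear_combination a * e1 - a * e2
    rw [h3]
    simpa [div_eq_mul_inv] using h2

theorem WPre_int {ι : Type} [Fintype ι] {W : Wd ι} (h : W.Ok1)
    (hA : ∀ k, W.Up k → W.rs W.f1 (k, false) + conj (W.rs W.f2 (k, false)) = 0) :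
    ∃ X : ℂ → ℂ, ∀ t ∈ W.Om, 0 < t.im → HasFDerivAt X (wl (W.F1 t) (W.F2 t)) t := by
  have hop : IsOpen {t : ℂ | 0 < t.im} := isOpen_lt continuous_const continuous_im
  obtain ⟨k₁, hk₁, e₁⟩ := h.m1.decomp h.pl hop (f := W.F1)
    (fun t ht => (h.F_diff ht.2 ht.1).1.differentiableWithinAt)
    (fun e v hv ht => (h.toOk0.f_eq hv.2 (le_of_lt ht)).1.symm)
  obtain ⟨k₂, hk₂, e₂⟩ := h.m2.decomp h.pl hop (f := W.F2)
    (fun t ht => (h.F_diff ht.2 ht.1).2.differentiableWithinAt)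
    (fun e v hv ht => (h.toOk0.f_eq hv.2 (le_of_lt ht)).2.symm)
  obtain ⟨K₁, hK₁⟩ := prim_upper hk₁
  obtain ⟨K₂, hK₂⟩ := prim_upper hk₂
  have hA' : ∀ e : ι × Bool, W.Up e.1 → W.rs W.f1 e + conj (W.rs W.f2 e) = 0 := by
    rintro ⟨k, _ | _⟩ hk
    · exact hA k hk
    · have a1 := h.m1.rs_op h.pl (k, false)
      have a2 := h.m2.rs_op h.pl (k, false)
      have a3 : op (k, false) = (k, true) := rfl
      rw [a3] at a1 a2
      rw [a1, a2, map_neg]
      linear_combination -hA k hk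
  refine ⟨fun t => (K₁ t + ∑ e, W.th W.f1 e (t - W.c e)) -
    conj (K₂ t + ∑ e, W.th W.f2 e (t - W.c e)) +
    ∑ e, (W.rs W.f1 e * log (t - W.c e) - conj (W.rs W.f2 e * log (t - W.c e))),
    fun t ht hi => ?_⟩
  have d₁ : HasDerivAt (fun t => K₁ t + ∑ e, W.th W.f1 e (t - W.c e))
      (k₁ t + ∑ e, (W.pf W.f1 e (t - W.c e) - W.rs W.f1 e / (t - W.c e))) t :=
    (hK₁ t hi).add (HasDerivAt.fun_sum fun e _ =>
      (h.m1.th_der h.pl e (ht e)).comp_sub_const t (W.c e))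
  have d₂ : HasDerivAt (fun t => K₂ t + ∑ e, W.th W.f2 e (t - W.c e))
      (k₂ t + ∑ e, (W.pf W.f2 e (t - W.c e) - W.rs W.f2 e / (t - W.c e))) t :=
    (hK₂ t hi).add (HasDerivAt.fun_sum fun e _ =>
      (h.m2.th_der h.pl e (ht e)).comp_sub_const t (W.c e))
  have d₃ : HasFDerivAt
      (fun t => ∑ e, (W.rs W.f1 e * log (t - W.c e) - conj (W.rs W.f2 e * log (t - W.c e))))
      (∑ e, wl (W.rs W.f1 e / (t - W.c e)) (W.rs W.f2 e / (t - W.c e))) t := by
    refine HasFDerivAt.fun_sum fun e _ => WPre_log ?_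
    have hρ := h.pl.ρ_pos e
    rcases h.pos e.1 with a | a | a
    · have b : (W.c e).im = 0 := a.2.1 e.2
      exact Or.inl (Or.inr (by rw [sub_im, b, sub_zero]; exact hi.ne'))
    · exact Or.inr ⟨norm_pos_iff.1 ((h.pl.rin_pos e).trans (ht e)), hA' e a⟩
    · have b : (W.c e).im ≤ -(2 * W.ρ e) := a e.2
      exact Or.inl (Or.inr (by rw [sub_im]; linarith))
  refine ((hasFDerivAt_wl d₁ d₂).add d₃).congr_fderiv ?_
  ext v
  rw [e₁ t ⟨hi, ht⟩, e₂ t ⟨hi, ht⟩]
  simp only [ContinuousLinearMap.add_apply, ContinuousLinearMap.sum_apply, wl_apply,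
    Finset.sum_sub_distrib, add_mul, sub_mul, Finset.sum_mul, map_add, map_sub, map_sum]
  ring

theorem Wd.Ok1.exists_pre {ι : Type} [Fintype ι] {W : Wd ι} (h : W.Ok1)
    (hA : ∀ k, W.Up k → W.rs W.f1 (k, false) + conj (W.rs W.f2 (k, false)) = 0) :
    ∃ X, W.Pre X := by
  obtain ⟨X, hX⟩ := WPre_int h hA
  have hD := h.d
  have hop : IsOpen {t : ℂ | 0 < t.im} := isOpen_lt continuous_const continuous_im
  have hom : IsOpen W.Om := Pl.isOpen_om
  have hlim : ∀ x ∈ W.Q, ∃ y, Tendsto X (𝓝[{t : ℂ | 0 < t.im}] x) (𝓝 y) := by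
    intro x hx
    rcases hx.1.1.lt_or_eq with a | a
    · exact ⟨_, (hX x hx.2 a).continuousAt.tendsto.mono_left nhdsWithin_le_nhds⟩
    have h' : x.im = 0 := a.symm
    by_cases hP : W.D.P x = 0
    · have ha : W.D.IsA x := (Dat.P_eq_zero.1 hP).resolve_left hx.1.2
      obtain ⟨δ, g, H, hg⟩ := hD.par2 hP
      obtain ⟨δ', p, le, φ₁, φ₂, d₁, d₂, -, m, e⟩ := h.formA H ha
      refine WPre_two (f₁ := fun w => W.F1 (x + w ^ 2)) (f₂ := fun w => W.F2 (x + w ^ 2))
        h' p d₁ d₂ fun w hw a1 a2 => ?_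
      have h0 : w ≠ 0 := fun b => by simp [b] at a2
      have hw' := ball_subset_ball le hw
      have h1 : 0 < (x + w ^ 2).im := by
        rw [add_im, h', pow_two, mul_im]
        positivity
      have key : w * g (w ^ 2) * W.D.R (x + w ^ 2) = W.D.G (x + w ^ 2) := by
        rw [hg w hw' h0 a1.le a2.le, hD.G_eq ((H.on hw').2 h0)]
      refine ⟨hX _ (m w hw).1 h1, ?_, ?_⟩
      · rw [(e w hw h0).1, key, Wd.F1]
      · rw [(e w hw h0).2, key, Wd.F2]
    · have hxr : x = (x.re : ℂ) := by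
        apply Complex.ext <;> simp [h']
      obtain ⟨δ, g, H, hg, -⟩ := Dat.par1_Y (D := W.D) (x₀ := x.re) (by rwa [← hxr])
      rw [← hxr] at H hg
      obtain ⟨d₁, d₂, e⟩ := H.form hD
      obtain ⟨ε, hε, hb⟩ := Metric.isOpen_iff.1 hom x hx.2
      have p : 0 < min δ ε := lt_min H.pos hε
      have s₁ : ball (0 : ℂ) (min δ ε) ⊆ ball 0 δ := ball_subset_ball (min_le_left _ _)
      have s₂ : ∀ w ∈ ball (0 : ℂ) (min δ ε), x + w ∈ W.Om := fun w hw => hb (by
        have := ball_subset_ball (min_le_right δ ε) hw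
        simpa using this)
      have hadd : ∀ w : ℂ, DifferentiableAt ℂ (fun w => x + w) w := fun w => by fun_prop
      refine WPre_one (φ₁ := fun w => W.ψ₁ (x + w) ^ 2 * (g w * W.D.R (x + w) / (x + w)))
        (φ₂ := fun w => W.ψ₂ (x + w) ^ 2 * (g w * W.D.R (x + w) * (x + w))⁻¹) h' p
        (DifferentiableOn.mul (fun w hw => ?_) (d₁.mono s₁))
        (DifferentiableOn.mul (fun w hw => ?_) (d₂.mono s₁)) fun w hw a2 => ?_
      · have b := (h.toOk0.b0 fun c => (e w (s₁ hw)).1 (Dat.P_eq_zero.2 (Or.inl c))).1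
        exact (((h.ψ₁_diff (s₂ w hw) b).comp w (hadd w)).pow 2).differentiableWithinAt
      · exact (((h.ψ₂_diff (s₂ w hw)).comp w (hadd w)).pow 2).differentiableWithinAt
      · have key : g w * W.D.R (x + w) = W.D.G (x + w) := by
          rw [hg w (s₁ hw) a2.le, hD.G_eq (e w (s₁ hw)).1]
        have h1 : 0 < (x + w).im := by simpa [h'] using a2
        simp only [key]
        exact hX _ (s₂ w hw) h1
  have hcl : W.Q ⊆ closure {t : ℂ | 0 < t.im} := by
    intro x hx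
    rw [closure_setOfPred_lt_im]
    exact hx.1.1
  refine ⟨extendFrom {t : ℂ | 0 < t.im} X, continuousOn_extendFrom hcl hlim, ?_⟩
  intro t ht hi
  refine (hX t ht hi).congr_of_eventuallyEq ?_
  filter_upwards [hop.mem_nhds hi, hom.mem_nhds ht] with w hw hw'
  exact extendFrom_eq (subset_closure hw)
    ((hX w hw' hw).continuousAt.tendsto.mono_left nhdsWithin_le_nhds)

end Pool.Agent.MP_92463a_gt

end
end

section

open Set Complex Filter Metric
open scoped Topology ComplexConjugate ContDiff Manifold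

noncomputable section

namespace Pool.Agent.MP_92463a_gt

theorem WSeg_ne {D : Dat} (hD : D.Ok) {s : Sg} {x x' : ℝ} (hx : D.InS s x) (hx' : D.InS s x') :
    ∀ y ∈ Icc x x', D.P y ≠ 0 := by
  rcases s with ⟨_ | _, k⟩
  · have h : D.InA k x := by simpa [Dat.InS] using hx
    have h' : D.InA k x' := by simpa [Dat.InS] using hx'
    exact hD.seg_pos h.1 h.2.1 h'.2.2
  · have h : D.InB k x := by simpa [Dat.InS] using hx
    have h' : D.InB k x' := by simpa [Dat.InS] using hx'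
    exact hD.seg_neg h'.1 h'.2.1 h.2.2

theorem Dat.Ok.inS_sign {D : Dat} (hD : D.Ok) {s : Sg} (hs : s.Val D.p D.q) {x : ℝ}
    (hx : D.InS s x) : D.P x ≠ 0 ∧ (0 < (D.P x).re ↔ s.ty = true) := by
  refine ⟨WSeg_ne hD hx hx x ⟨le_rfl, le_rfl⟩, ?_⟩
  rcases s with ⟨_ | _, k⟩
  · have h : D.InA k x := by simpa [Dat.InS] using hx
    have hk : k ≤ D.p := by simpa [Sg.Val] using hs
    have h3 := (hD.sign_pos h.1 hk h.2.1 h.2.2).1
    rcases Chain_sg k with ⟨h4, h5⟩ | ⟨h4, h5⟩ <;> rw [h5] at h3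
    · exact iff_of_true (by linarith) (by simpa [Sg.ty] using h4)
    · exact iff_of_false (by linarith) (by simpa [Sg.ty] using h4)
  · have h : D.InB k x := by simpa [Dat.InS] using hx
    have hk : k ≤ D.q := by simpa [Sg.Val] using hs
    have h3 := (hD.sign_neg h.1 hk h.2.1 h.2.2).1
    rcases Chain_sg k with ⟨h4, h5⟩ | ⟨h4, h5⟩ <;> rw [h5] at h3
    · exact iff_of_false (by linarith) (by simpa [Sg.ty] using h4)
    · exact iff_of_true (by linarith) (by simpa [Sg.ty] using h4)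

theorem Dat.Ok.exists_inS {D : Dat} (hD : D.Ok) {x : ℝ} (hx : D.P x ≠ 0) :
    ∃ s : Sg, s.Val D.p D.q ∧ D.InS s x := by
  have h0 : x ≠ 0 := fun h => Dat.Seg_ne hx (by rw [h, ofReal_zero])
  rcases lt_or_gt_of_ne h0 with h | h
  · obtain ⟨k, hk, h1, h2⟩ := hD.exists_neg h hx
    exact ⟨(true, k), by simpa [Sg.Val] using hk, by
      simp only [Dat.InS, if_true]; exact ⟨h, h1, h2⟩⟩
  · obtain ⟨k, hk, h1, h2⟩ := hD.exists_pos h hx
    exact ⟨(false, k), by simpa [Sg.Val] using hk, by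
      simp only [Dat.InS, Bool.false_eq_true, if_false]; exact ⟨h, h1, h2⟩⟩

theorem WSeg_chain {D : Dat} (hD : D.Ok) {X : ℂ → ℂ} {O : ℝ → Prop}
    (seg : ∀ s x x', D.InS s x → D.InS s x' → O x → O x' → D.cst X x = D.cst X x') {J : Type}
    {su sv : J → Sg} {u v : J → ℝ}
    (val : ∀ i, (su i).Val D.p D.q ∧ (sv i).Val D.p D.q ∧ (sv i).ty = (su i).ty)
    (mem : ∀ i, D.InS (su i) (u i) ∧ D.InS (sv i) (v i) ∧ v i < u i)
    (chain : ∀ α : Sg → ℝ, (∀ i, α (su i) = α (sv i)) →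
      ∀ s s' : Sg, s.Val D.p D.q → s'.Val D.p D.q → s.ty = s'.ty → α s = α s')
    (hO : ∀ i, O (u i) ∧ O (v i))
    (hL : ∀ i, (if (su i).ty then im else re) (X (v i) - X (u i)) = 0) :
    ∃ c : ℂ, (∀ x : ℝ, O x → 0 < (D.P x).re → (X x - c).im = 0) ∧
      ∀ x : ℝ, O x → (D.P x).re < 0 → (X x - c).re = 0 := by
  classical
  let α : Sg → ℝ := fun s => if h : ∃ x, D.InS s x ∧ O x then D.cst X h.choose else 0
  have hα : ∀ s x, D.InS s x → O x → α s = D.cst X x := fun s x h1 h2 => by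
    have h : ∃ x, D.InS s x ∧ O x := ⟨x, h1, h2⟩
    simp only [α, dif_pos h]
    exact seg s _ _ h.choose_spec.1 h1 h.choose_spec.2 h2
  have key := chain α fun i => by
    rw [hα _ _ (mem i).1 (hO i).1, hα _ _ (mem i).2.1 (hO i).2]
    have h1 := (hD.inS_sign (val i).1 (mem i).1).2
    have h2 := (hD.inS_sign (val i).2.1 (mem i).2.1).2
    rw [(val i).2.2] at h2
    have h3 := hL i
    by_cases h : (su i).ty = true
    · rw [if_pos h, sub_im] at h3
      rw [Dat.cst, Dat.cst, if_pos (h1.2 h), if_pos (h2.2 h)]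
      linarith
    · rw [if_neg h, sub_re] at h3
      rw [Dat.cst, Dat.cst, if_neg (fun h' => h (h1.1 h')), if_neg (fun h' => h (h2.1 h'))]
      linarith
  have hne : ∀ x : ℝ, (D.P x).re ≠ 0 → D.P x ≠ 0 := fun x h h0 => h (by rw [h0, zero_re])
  have hc : ∀ x x' : ℝ, O x → O x' → (D.P x).re ≠ 0 → (D.P x').re ≠ 0 →
      (0 < (D.P x).re ↔ 0 < (D.P x').re) → D.cst X x = D.cst X x' := by
    intro x x' o o' h h' hi
    obtain ⟨s, a, b⟩ := hD.exists_inS (hne x h)
    obtain ⟨s', a', b'⟩ := hD.exists_inS (hne x' h')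
    rw [← hα s x b o, ← hα s' x' b' o']
    refine key s s' a a' (Bool.eq_iff_iff.2 ?_)
    rw [← (hD.inS_sign a b).2, ← (hD.inS_sign a' b').2]
    exact hi
  have h2 : ∃ c₂ : ℝ, ∀ x : ℝ, O x → 0 < (D.P x).re → (X x).im = c₂ := by
    by_cases h : ∃ x : ℝ, O x ∧ 0 < (D.P x).re
    · obtain ⟨x₀, o₀, h₀⟩ := h
      refine ⟨(X x₀).im, fun x o hx => ?_⟩
      have := hc x x₀ o o₀ hx.ne' h₀.ne' (iff_of_true hx h₀)
      rwa [Dat.cst, Dat.cst, if_pos hx, if_pos h₀] at this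
    · exact ⟨0, fun x o hx => absurd ⟨x, o, hx⟩ h⟩
  have h1 : ∃ c₁ : ℝ, ∀ x : ℝ, O x → (D.P x).re < 0 → (X x).re = c₁ := by
    by_cases h : ∃ x : ℝ, O x ∧ (D.P x).re < 0
    · obtain ⟨x₀, o₀, h₀⟩ := h
      refine ⟨(X x₀).re, fun x o hx => ?_⟩
      have := hc x x₀ o o₀ hx.ne h₀.ne (iff_of_false hx.le.not_gt h₀.le.not_gt)
      rwa [Dat.cst, Dat.cst, if_neg hx.le.not_gt, if_neg h₀.le.not_gt] at this
    · exact ⟨0, fun x o hx => absurd ⟨x, o, hx⟩ h⟩
  obtain ⟨c₁, h1⟩ := h1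
  obtain ⟨c₂, h2⟩ := h2
  exact ⟨(c₁ : ℂ) + c₂ * I, fun x o hx => by simp [h2 x o hx], fun x o hx => by simp [h1 x o hx]⟩

theorem WSeg_half {g : ℝ → ℂ} (hg : Continuous g) (hs : ∀ θ, g (-θ) = conj (g θ))
    (h0 : ∫ θ in (-Real.pi)..Real.pi, g θ = 0) : (∫ θ in (0 : ℝ)..Real.pi, g θ).re = 0 := by
  have h1 := intervalIntegral.integral_add_adjacent_intervals (μ := MeasureTheory.volume)
    (hg.intervalIntegrable (-Real.pi) 0) (hg.intervalIntegrable 0 Real.pi)
  have h2 : ∫ θ in (-Real.pi)..0, g θ = conj (∫ θ in (0 : ℝ)..Real.pi, g θ) := by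
    have := intervalIntegral.integral_comp_neg (a := 0) (b := Real.pi) g
    rw [neg_zero] at this
    rw [← this]
    simp only [hs]
    exact (conjCLE : ℂ →L[ℝ] ℂ).intervalIntegral_comp_comm (hg.intervalIntegrable 0 Real.pi)
  rw [h0, h2] at h1
  have h3 := congrArg re h1
  simp only [add_re, conj_re, zero_re] at h3
  linarith

namespace Wd

variable {ι : Type} [Fintype ι] {W : Wd ι} {X : ℂ → ℂ}

theorem WSeg_lin (h : W.Ok1) (hX : W.Pre X) {x x' : ℝ} (hle : x ≤ x')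
    (hP : ∀ s ∈ Icc x x', W.D.P s ≠ 0) (hO : ∀ s ∈ Icc x x', (s : ℂ) ∈ W.Om) :
    W.D.cst X x = W.D.cst X x' := by
  have hp := hX.pathP h
  have hm : ∀ s ∈ uIcc x x', (s : ℂ) ∈ W.Qr := fun s hs => by
    rw [uIcc_of_le hle] at hs
    exact ⟨by simp, hP s hs, hO s hs⟩
  have h1 := hp.ftc (fun s : ℝ => (s : ℂ)) (fun _ => 1) x x'
    (fun s _ => ofRealCLM.hasDerivAt (x := s)) continuousOn_const hm
  have hi : IntervalIntegrable (fun s : ℝ => W.F1 s * 1 - conj (W.F2 s * 1))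
      MeasureTheory.volume x x' := by
    refine ContinuousOn.intervalIntegrable ?_
    exact ((hp.c₁.comp continuous_ofReal.continuousOn hm).mul continuousOn_const).sub
      (continuous_conj.comp_continuousOn
        ((hp.c₂.comp continuous_ofReal.continuousOn hm).mul continuousOn_const))
  have key : ∀ L : ℂ →L[ℝ] ℝ, (∀ s ∈ Icc x x', L (W.F1 s * 1 - conj (W.F2 s * 1)) = 0) →
      L (X x) = L (X x') := fun L hL => by
    have h2 := L.intervalIntegral_comp_comm hi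
    rw [← h1, map_sub, intervalIntegral.integral_congr (g := fun _ => 0)] at h2
    · simp only [intervalIntegral.integral_zero] at h2
      linarith
    · intro s hs
      rw [uIcc_of_le hle] at hs
      exact hL s hs
  have hψ : ∀ s ∈ Icc x x', (W.ψ₁ s).im = 0 ∧ (W.ψ₂ s).im = 0 := fun s hs => by
    have a := h.ψ₁_conj (hO s hs)
    have b := h.ψconj _ (hO s hs)
    rw [conj_ofReal] at a b
    exact ⟨conj_eq_iff_im.1 a.symm, conj_eq_iff_im.1 b.symm⟩
  have hx : x ∈ Icc x x' := ⟨le_rfl, hle⟩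
  have hx' : x' ∈ Icc x x' := ⟨hle, le_rfl⟩
  by_cases h0 : 0 < (W.D.P x).re
  · rw [Dat.cst, Dat.cst, if_pos h0, if_pos (Dat.Seg_sign hP hx hx' h0)]
    refine key imCLM fun s hs => ?_
    have h1 : (W.D.G s).im = 0 := by
      rw [h.d.G_eq (hP s hs), mul_im, Dat.Y_im (Dat.Seg_sign hP hx hs h0), Dat.R_im]
      simp
    simp [F1, F2, div_im, inv_im, h1, pow_two, (hψ s hs).1, (hψ s hs).2]
  · rw [Dat.cst, Dat.cst, if_neg h0, if_neg fun h' => h0 (Dat.Seg_sign hP hx' hx h')]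
    refine key reCLM fun s hs => ?_
    have h2 : (W.D.P s).re < 0 := lt_of_le_of_ne
      (not_lt.1 fun h' => h0 (Dat.Seg_sign hP hs hx h')) (Dat.Seg_re_ne (hP s hs))
    have h1 : (W.D.G s).re = 0 := by
      rw [h.d.G_eq (hP s hs), mul_re, Dat.Y_re h2, Dat.R_im]
      simp
    simp [F1, F2, div_re, inv_re, h1, pow_two, (hψ s hs).1, (hψ s hs).2]

theorem WSeg_cross (h : W.Ok1) (hX : W.Pre X) {e : ι × Bool} (he : W.Mid e.1)
    (hA : W.rs W.f1 e + conj (W.rs W.f2 e) = 0) {R : ℝ} (h1 : W.rin e < R)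
    (h2 : R < 2 * W.ρ e) : (X (W.c e - R)).re = (X (W.c e + R)).re := by
  have hr := h.pl.rin_pos e
  have hR : 0 < R := hr.trans h1
  have hn : ∀ θ : ℝ, ‖(R : ℂ) * exp (θ * I)‖ = R := fun θ => by
    rw [norm_mul, norm_exp_ofReal_mul_I, norm_real, Real.norm_of_nonneg hR.le, mul_one]
  have ha : ∀ θ : ℝ, (R : ℂ) * exp (θ * I) ∈ W.Ann2 e := fun θ =>
    ⟨by rw [hn]; exact h1, by rw [hn]; exact h2⟩
  have hc : (W.c e).im = 0 := he.2.1 e.2
  have hi : ∀ θ ∈ uIcc 0 Real.pi, 0 ≤ (W.c e + R * exp (θ * I)).im := fun θ hθ => by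
    rw [uIcc_of_le Real.pi_pos.le] at hθ
    rw [add_im, hc, zero_add, im_ofReal_mul, exp_ofReal_mul_I_im]
    exact mul_nonneg hR.le (Real.sin_nonneg_of_nonneg_of_le_pi hθ.1 hθ.2)
  have h3 := (hX.pathP h).arc (x₀ := W.c e) (R := R) (a := 0) (b := Real.pi) fun θ hθ =>
    ⟨hi θ hθ, h.free e _ (mem_ball_zero_iff.2 (ha θ).2), h.pl.ann2_mem (ha θ)⟩
  have hcv : Continuous fun θ : ℝ => (R : ℂ) * exp (θ * I) := by fun_prop
  have hcf : ∀ {φ}, W.MF φ → Continuous fun θ : ℝ =>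
      φ e (R * exp (θ * I)) * (R * exp (θ * I)) := fun hφ =>
    ((hφ.hol e).continuousOn.comp_continuous hcv ha).mul hcv
  have hav : ∀ {φ}, W.MF φ → ∫ θ in (-Real.pi)..Real.pi,
      φ e (R * exp (θ * I)) * (R * exp (θ * I)) = 2 * Real.pi * W.rs φ e := fun {φ} hφ => by
    have hρ := h.pl.ρ_pos e
    rw [av_eq_integral (f := fun v => φ e v * v), Pl.rs,
      av_radius (f := fun v => φ e v * v) (R' := W.ρ e) hr.le
        ((hφ.hol e).mul differentiableOn_id) h1 h2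
        (by linarith [h.pl.rin_mu e, h.pl.mu_ρ e]) (by linarith)]
  have c1 : Continuous fun θ : ℝ => W.f1 e (R * exp (θ * I)) * (R * exp (θ * I)) * I :=
    (hcf h.m1).mul continuous_const
  have c2 : Continuous fun θ : ℝ => W.f2 e (R * exp (θ * I)) * (R * exp (θ * I)) * I :=
    (hcf h.m2).mul continuous_const
  have c3 : Continuous fun θ : ℝ => conj (W.f2 e (R * exp (θ * I)) * (R * exp (θ * I)) * I) :=
    continuous_conj.comp c2
  have h4 := WSeg_half (g := fun θ : ℝ => W.f1 e (R * exp (θ * I)) * (R * exp (θ * I)) * I -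
      conj (W.f2 e (R * exp (θ * I)) * (R * exp (θ * I)) * I)) (c1.sub c3)
    (fun θ => by
      have a := h.f_conj (ha θ)
      have b : conj ((R : ℂ) * exp (θ * I)) = R * exp ((-θ : ℝ) * I) := by
        rw [map_mul, conj_ofReal, ← exp_conj]
        simp
      rw [he.1] at a
      have a1 : W.f1 e _ = _ := a.1
      have a2 : W.f2 e _ = _ := a.2.1
      simp only [← b]
      rw [a1, a2]
      simp only [map_sub, map_mul, map_neg, conj_conj, conj_I]
      ring)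
    (by
      rw [intervalIntegral.integral_sub (c1.intervalIntegrable _ _) (c3.intervalIntegrable _ _)]
      have a := (conjCLE : ℂ →L[ℝ] ℂ).intervalIntegral_comp_comm (μ := MeasureTheory.volume)
        (c2.intervalIntegrable (-Real.pi) Real.pi)
      simp only [ContinuousLinearEquiv.coe_coe, conjCLE_apply] at a
      rw [a, intervalIntegral.integral_mul_const, intervalIntegral.integral_mul_const,
        hav h.m1, hav h.m2]
      simp only [map_mul, conj_ofReal, conj_I, map_ofNat]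
      linear_combination 2 * Real.pi * I * hA)
  have h5 : arcI W.F1 W.F2 (W.c e) R 0 Real.pi = ∫ θ in (0 : ℝ)..Real.pi,
      (W.f1 e (R * exp (θ * I)) * (R * exp (θ * I)) * I -
        conj (W.f2 e (R * exp (θ * I)) * (R * exp (θ * I)) * I)) := by
    refine intervalIntegral.integral_congr fun θ hθ => ?_
    have a := h.f_eq (ha θ).2 (hi θ hθ)
    simp only [a.1, a.2, mul_assoc]
  rw [← h5, ← h3, exp_pi_mul_I, sub_re] at h4
  simp only [ofReal_zero, zero_mul, exp_zero, mul_one, mul_neg, ← sub_eq_add_neg] at h4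
  linarith

theorem WSeg_ind (h : W.Ok1) (hX : W.Pre X)
    (hA : ∀ k, W.Mid k → W.rs W.f1 (k, false) + conj (W.rs W.f2 (k, false)) = 0)
    (T : Finset (ι × Bool)) : ∀ x x' : ℝ, x ≤ x' → (∀ s ∈ Icc x x', W.D.P s ≠ 0) →
      (x : ℂ) ∈ W.Om → (x' : ℂ) ∈ W.Om →
      (∀ e, W.Mid e.1 → x < (W.c e).re → (W.c e).re < x' → e ∈ T) →
      W.D.cst X x = W.D.cst X x' := by
  classical
  induction T using Finset.induction_on with
  | empty =>
    intro x x' hle hP hO hO' hT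
    refine WSeg_lin h hX hle hP fun s hs e => ?_
    have hρ := h.pl.ρ_pos e
    have hr : W.rin e < 2 * W.ρ e := by linarith [h.pl.rin_mu e, h.pl.mu_ρ e, h.pl.rin_pos e]
    have hi := abs_im_le_norm ((s : ℂ) - W.c e)
    rw [sub_im, ofReal_im, zero_sub, abs_neg] at hi
    rcases h.pos e.1 with hm | hm | hm
    · have hc : W.c e = ((W.c e).re : ℂ) := Complex.ext rfl (hm.2.1 e.2)
      have a := hO e
      have b := hO' e
      rw [hc, ← ofReal_sub, norm_real, Real.norm_eq_abs] at a b ⊢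
      by_cases h1 : x < (W.c e).re
      · have h2 : x' ≤ (W.c e).re := not_lt.1 fun h2 => Finset.notMem_empty _ (hT e hm h1 h2)
        rw [abs_of_nonpos (by linarith)] at b
        rw [abs_of_nonpos (by linarith [hs.2])]
        linarith [hs.2]
      · rw [abs_of_nonneg (by linarith)] at a
        rw [abs_of_nonneg (by linarith [hs.1])]
        linarith [hs.1]
    · exact hr.trans_le ((hm e.2).trans ((le_abs_self _).trans hi))
    · have := hm e.2
      exact hr.trans_le (le_trans (by linarith) ((neg_le_abs _).trans hi))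
  | insert e T _ ih =>
    intro x x' hle hP hO hO' hT
    by_cases he : W.Mid e.1 ∧ x < (W.c e).re ∧ (W.c e).re < x'
    · obtain ⟨hm, h1, h2⟩ := he
      have hρ := h.pl.ρ_pos e
      have hr0 := h.pl.rin_pos e
      have hr : W.rin e < W.ρ e := by linarith [h.pl.rin_mu e, h.pl.mu_ρ e]
      have hc : W.c e = ((W.c e).re : ℂ) := Complex.ext rfl (hm.2.1 e.2)
      have a := hO e
      have b := hO' e
      rw [hc, ← ofReal_sub, norm_real, Real.norm_eq_abs] at a b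
      rw [abs_of_nonpos (by linarith)] at a
      rw [abs_of_nonneg (by linarith)] at b
      obtain ⟨R, r1, r2, r3, r4⟩ : ∃ R, W.rin e < R ∧ R ≤ W.ρ e ∧ R ≤ (W.c e).re - x ∧
          R ≤ x' - (W.c e).re :=
        ⟨min (W.ρ e) (min ((W.c e).re - x) (x' - (W.c e).re)), lt_min hr (lt_min (by linarith) b),
          min_le_left _ _, (min_le_right _ _).trans (min_le_left _ _),
          (min_le_right _ _).trans (min_le_right _ _)⟩
      have hn : ‖(R : ℂ)‖ = R := by rw [norm_real, Real.norm_of_nonneg (by linarith)]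
      have e1 : (((W.c e).re - R : ℝ) : ℂ) = W.c e - R := by rw [ofReal_sub, ← hc]
      have e2 : (((W.c e).re + R : ℝ) : ℂ) = W.c e + R := by rw [ofReal_add, ← hc]
      have o1 : (((W.c e).re - R : ℝ) : ℂ) ∈ W.Om := by
        rw [e1, sub_eq_add_neg]
        exact h.pl.ann2_mem ⟨by rw [norm_neg, hn]; exact r1, by rw [norm_neg, hn]; linarith⟩
      have o2 : (((W.c e).re + R : ℝ) : ℂ) ∈ W.Om := by
        rw [e2]
        exact h.pl.ann2_mem ⟨by rw [hn]; exact r1, by rw [hn]; linarith⟩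
      have n1 := h.mid_neg hm (x := (W.c e).re - R)
        (by rw [e1, sub_sub_cancel_left, norm_neg, hn]; linarith)
      have n2 := h.mid_neg hm (x := (W.c e).re + R)
        (by rw [e2, add_sub_cancel_left, hn]; linarith)
      have hA' : W.rs W.f1 e + conj (W.rs W.f2 e) = 0 := by
        rcases e with ⟨k, _ | _⟩
        · exact hA k hm
        · have p1 := h.m1.rs_op h.pl (k, false)
          have p2 := h.m2.rs_op h.pl (k, false)
          simp only [op, Bool.not_false] at p1 p2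
          rw [p1, p2, map_neg]
          linear_combination -hA k hm
      rw [ih x _ (by linarith) (fun s hs => hP s ⟨hs.1, by linarith [hs.2]⟩) hO o1
          fun e' m l1 l2 => (Finset.mem_insert.1 (hT e' m l1 (by linarith))).resolve_left
            fun hh => by rw [hh] at l2; linarith,
        ← ih _ x' (by linarith) (fun s hs => hP s ⟨by linarith [hs.1], hs.2⟩) o2 hO'
          fun e' m l1 l2 => (Finset.mem_insert.1 (hT e' m (by linarith) l2)).resolve_left
            fun hh => by rw [hh] at l1; linarith,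
        Dat.cst, Dat.cst, if_neg n1.le.not_gt, if_neg n2.le.not_gt, e1, e2]
      exact WSeg_cross h hX hm hA' r1 (by linarith)
    · exact ih x x' hle hP hO hO' fun e' m l1 l2 =>
        (Finset.mem_insert.1 (hT e' m l1 l2)).resolve_left fun hh => he (hh ▸ ⟨m, l1, l2⟩)

theorem Pre.seg (h : W.Ok1) (hX : W.Pre X)
    (hA : ∀ k, W.Mid k → W.rs W.f1 (k, false) + conj (W.rs W.f2 (k, false)) = 0) {s : Sg}
    {x x' : ℝ} (hx : W.D.InS s x) (hx' : W.D.InS s x') (hO : (x : ℂ) ∈ W.Om)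
    (hO' : (x' : ℂ) ∈ W.Om) : W.D.cst X x = W.D.cst X x' := by
  rcases le_total x x' with hle | hle
  · exact WSeg_ind h hX hA Finset.univ x x' hle (WSeg_ne h.d hx hx') hO hO'
      fun _ _ _ _ => Finset.mem_univ _
  · exact (WSeg_ind h hX hA Finset.univ x' x hle (WSeg_ne h.d hx' hx) hO' hO
      fun _ _ _ _ => Finset.mem_univ _).symm

theorem Ok1.solX (h : W.Ok1)
    (hA : ∀ k, ¬ W.Low k → W.rs W.f1 (k, false) + conj (W.rs W.f2 (k, false)) = 0) {J : Type}
    {su sv : J → Sg} {u v : J → ℝ}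
    (val : ∀ i, (su i).Val W.D.p W.D.q ∧ (sv i).Val W.D.p W.D.q ∧ (sv i).ty = (su i).ty)
    (mem : ∀ i, W.D.InS (su i) (u i) ∧ W.D.InS (sv i) (v i) ∧ v i < u i)
    (chain : ∀ α : Sg → ℝ, (∀ i, α (su i) = α (sv i)) →
      ∀ s s' : Sg, s.Val W.D.p W.D.q → s'.Val W.D.p W.D.q → s.ty = s'.ty → α s = α s')
    (hO : ∀ i, ∀ θ ∈ Icc 0 Real.pi, ((u i + v i) / 2 + (u i - v i) / 2 * exp (θ * I) : ℂ) ∈ W.Om)
    (hL : ∀ i, Lk W.F1 W.F2 (su i).ty (u i) (v i) = 0) : ∃ X, W.SolX X := by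
  obtain ⟨X, hX⟩ := h.exists_pre fun k hk => hA k fun hl => by
    linarith [hk false, hl false, h.pl.ρ_pos (k, false)]
  have hM : ∀ k, W.Mid k → W.rs W.f1 (k, false) + conj (W.rs W.f2 (k, false)) = 0 :=
    fun k hk => hA k fun hl => by linarith [hk.2.1 false, hl false, h.pl.ρ_pos (k, false)]
  obtain ⟨c, h1, h2⟩ := WSeg_chain h.d (X := X) (O := fun x => (x : ℂ) ∈ W.Om)
    (fun s x x' a b o o' => hX.seg h hM a b o o') val mem chain (fun i => by
      have a := hO i 0 ⟨le_rfl, Real.pi_pos.le⟩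
      have b := hO i Real.pi ⟨Real.pi_pos.le, le_rfl⟩
      rw [exp_pi_mul_I] at b
      simp only [ofReal_zero, zero_mul, exp_zero] at a
      exact ⟨by convert a using 1; ring, by convert b using 1; ring⟩) fun i => by
      rw [← (hX.pathP h).lk (su i).ty fun θ hθ => ?_, hL i]
      have a := Dat.Ok.semi (h.d.inS_ne (mem i).1) (h.d.inS_ne (mem i).2.1) (mem i).2.2 hθ
      exact ⟨a.1, a.2, hO i θ hθ⟩
  exact ⟨fun t => X t - c, ⟨hX.cont.sub continuousOn_const,
    fun t ht hi => (hX.der t ht hi).sub_const _⟩, h1, h2⟩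

end Wd

theorem Fam.realized {J : Type} [Fintype J] {p q : ℕ} (F : Fam J p q) :
    Realized ((p + q) / 2) (q + 2) := by
  obtain ⟨x, hx, h0⟩ := MP_efb2da_gt.miranda
    (fun x i => ∑ j, F.A x i j * Lk (F.D x).F1 (F.D x).F2 (F.su j).ty (F.u j x) (F.v j x))
    (continuousOn_pi.2 fun i => continuousOn_finsetSum _ fun j _ =>
      (F.cA i j).mul (F.lk_cont j)) F.face
  have hL := F.inj x hx _ fun i => congrFun h0 i
  obtain ⟨hD, hp, hq⟩ := F.ok x hx
  obtain ⟨X, hX⟩ := hD.exists_pre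
  obtain ⟨c, h1, h2⟩ := WSeg_chain hD (X := X) (O := fun _ => True) (su := F.su) (sv := F.sv)
    (u := fun i => F.u i x) (v := fun i => F.v i x)
    (fun s y y' a b _ _ => (le_total y y').elim (fun hle => hX.seg hD hle (WSeg_ne hD a b))
      fun hle => (hX.seg hD hle (WSeg_ne hD b a)).symm) (by rw [hp, hq]; exact F.val)
    (fun i => F.mem i x hx) (by rw [hp, hq]; exact F.chain) (fun _ => ⟨trivial, trivial⟩)
    fun i => by
      have m := F.mem i x hx
      rw [← (hX.pathP hD).lk (F.su i).ty fun θ hθ =>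
        Dat.Ok.semi (hD.inS_ne m.1) (hD.inS_ne m.2.1) m.2.2 hθ]
      exact congrFun hL i
  have hS : (F.D x).Sol fun t => X t - c := ⟨⟨hX.cont.sub continuousOn_const,
    fun t ht => (hX.der t ht).sub_const _⟩, fun y => h1 y trivial, fun y => h2 y trivial⟩
  have := hS.realized hD
  rwa [hp, hq] at this

end Pool.Agent.MP_92463a_gt

end
end

section

open Set Complex Filter Metric
open scoped Topology ComplexConjugate ContDiff Manifold

noncomputable section

namespace Pool.Agent.MP_92463a_gt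

variable {M N : Type} [TopologicalSpace M] [ChartedSpace ℂ M] [TopologicalSpace N]
  [ChartedSpace ℂ N] {U O Cp : Set M} {g : M → M} {π : M → N} {σ : N → M}

/-- changes of charts of `M` are analytic -/
theorem trans_an [IsManifold 𝓘(ℂ) ω M] {x y z : M} (hx : z ∈ (chartAt ℂ x).source)
    (hy : z ∈ (chartAt ℂ y).source) :
    AnalyticAt ℂ (chartAt ℂ y ∘ (chartAt ℂ x).symm) (chartAt ℂ x z) := by
  have h1 : ContMDiffAt 𝓘(ℂ) 𝓘(ℂ) ω (chartAt ℂ x).symm (chartAt ℂ x z) :=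
    contMDiffOn_chart_symm.contMDiffAt
      ((chartAt ℂ x).open_target.mem_nhds ((chartAt ℂ x).map_source hx))
  have h2 : ContMDiffAt 𝓘(ℂ) 𝓘(ℂ) ω (chartAt ℂ y) ((chartAt ℂ x).symm (chartAt ℂ x z)) := by
    rw [(chartAt ℂ x).left_inv hx]
    exact contMDiffOn_chart.contMDiffAt ((chartAt ℂ y).open_source.mem_nhds hy)
  exact (contMDiffAt_iff_contDiffAt.1 (h2.comp _ h1)).analyticAt

/-- near a point of the target, the chart of `N` at `n` is the chart of `M` at `σ n` -/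
theorem Plumbed.chart (h : Plumbed U O g π σ) (n : N) {w : ℂ} (hw : w ∈ (chartAt ℂ n).target) :
    ∀ᶠ z in 𝓝 ((chartAt ℂ (σ n)).symm w), z ∈ U ∧ π z ∈ (chartAt ℂ n).source ∧
      chartAt ℂ n (π z) = chartAt ℂ (σ n) z := by
  have h0 := (h.tgt n w hw).1
  have h1 := (chartAt ℂ (σ n)).map_target h0
  have h2 : ContinuousAt (chartAt ℂ (σ n)) ((chartAt ℂ (σ n)).symm w) :=
    (chartAt ℂ (σ n)).continuousAt h1
  have h3 : (chartAt ℂ n).target ∈ 𝓝 (chartAt ℂ (σ n) ((chartAt ℂ (σ n)).symm w)) := by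
    rw [(chartAt ℂ (σ n)).right_inv h0]
    exact (chartAt ℂ n).open_target.mem_nhds hw
  filter_upwards [h2 h3, (chartAt ℂ (σ n)).open_source.mem_nhds h1] with z hz hs
  obtain ⟨-, a, b⟩ := h.tgt n _ hz
  rw [(chartAt ℂ (σ n)).left_inv hs] at a b
  exact ⟨a, b ▸ (chartAt ℂ n).map_target hz, b ▸ (chartAt ℂ n).right_inv hz⟩

/-- the gluing map is analytic in any pair of charts -/
theorem Pb2_glue_an [IsManifold 𝓘(ℂ) ω M] (hg : Glue U O g Cp) {x y z : M} (hz : z ∈ O)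
    (hx : z ∈ (chartAt ℂ x).source) (hy : g z ∈ (chartAt ℂ y).source) :
    AnalyticAt ℂ (chartAt ℂ y ∘ g ∘ (chartAt ℂ x).symm) (chartAt ℂ x z) := by
  have e0 := (chartAt ℂ x).left_inv hx
  have a1 := trans_an hx (mem_chart_source ℂ z)
  have a2 := hg.hol z hz
  have a3 := trans_an (mem_chart_source ℂ (g z)) hy
  have a4 : AnalyticAt ℂ ((chartAt ℂ (g z) ∘ g ∘ (chartAt ℂ z).symm) ∘
      (chartAt ℂ z ∘ (chartAt ℂ x).symm)) (chartAt ℂ x z) :=
    AnalyticAt.comp (by simpa only [Function.comp_apply, e0] using a2) a1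
  have a5 := AnalyticAt.comp (g := chartAt ℂ y ∘ (chartAt ℂ (g z)).symm) (by
    simpa only [Function.comp_apply, e0, (chartAt ℂ z).left_inv (mem_chart_source ℂ z)] using a3) a4
  refine a5.congr ?_
  have c1 : Tendsto (chartAt ℂ x).symm (𝓝 (chartAt ℂ x z)) (𝓝 z) := by
    have := (chartAt ℂ x).continuousAt_symm ((chartAt ℂ x).map_source hx)
    rwa [ContinuousAt, e0] at this
  have c2 : ContinuousAt g z := hg.cont.continuousAt (hg.oO.mem_nhds hz)
  filter_upwards [c1 (chart_source_mem_nhds ℂ z), c1 (c2 (chart_source_mem_nhds ℂ (g z)))]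
    with v h1 h2
  simp only [Function.comp_apply]
  rw [(chartAt ℂ z).left_inv h1, (chartAt ℂ (g z)).left_inv h2]

/-- changes of preferred charts of `N` are analytic -/
theorem Pb2_trans [IsManifold 𝓘(ℂ) ω M] (h : Plumbed U O g π σ) (hg : Glue U O g Cp) (n n' : N)
    {w : ℂ} (hw : w ∈ (chartAt ℂ n).target) (hs : (chartAt ℂ n).symm w ∈ (chartAt ℂ n').source) :
    AnalyticAt ℂ (chartAt ℂ n' ∘ (chartAt ℂ n).symm) w := by
  obtain ⟨t1, u1, e1⟩ := h.tgt n w hw
  have hw' := (chartAt ℂ n').map_source hs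
  obtain ⟨t2, u2, e2⟩ := h.tgt n' _ hw'
  rw [(chartAt ℂ n').left_inv hs] at e2
  have ch := h.chart n' hw'
  set z := (chartAt ℂ (σ n)).symm w with hz
  set z' := (chartAt ℂ (σ n')).symm (chartAt ℂ n' ((chartAt ℂ n).symm w)) with hz'
  have s1 : z ∈ (chartAt ℂ (σ n)).source := (chartAt ℂ (σ n)).map_target t1
  have s2 : z' ∈ (chartAt ℂ (σ n')).source := (chartAt ℂ (σ n')).map_target t2
  have ew : chartAt ℂ (σ n) z = w := (chartAt ℂ (σ n)).right_inv t1
  have c1 : Tendsto (chartAt ℂ (σ n)).symm (𝓝 w) (𝓝 z) := (chartAt ℂ (σ n)).continuousAt_symm t1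
  have ev : ∀ᶠ v in 𝓝 w, (chartAt ℂ n).symm v = π ((chartAt ℂ (σ n)).symm v) := by
    filter_upwards [(chartAt ℂ n).open_target.mem_nhds hw] with v hv using (h.tgt n v hv).2.2
  rcases (h.eq z u1 z' u2).1 (e1.symm.trans e2) with e | ⟨o, e⟩
  · rw [← e] at ch s2
    have a := trans_an s1 s2
    rw [ew] at a
    refine a.congr ?_
    filter_upwards [ev, c1 ch] with v h1 h2
    simp only [Function.comp_apply]
    rw [h1, h2.2.2]
  · rw [e] at ch s2
    have a := Pb2_glue_an hg o s1 s2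
    rw [ew] at a
    refine a.congr ?_
    have c2 : ContinuousAt g z := hg.cont.continuousAt (hg.oO.mem_nhds o)
    filter_upwards [ev, c1 (c2 ch), c1 (hg.oO.mem_nhds o)] with v h1 h2 h3
    simp only [Function.comp_apply]
    rw [h1, (h.eq _ (hg.sub h3) _ (hg.sub (hg.maps h3))).2 (Or.inr ⟨h3, rfl⟩)]
    exact h2.2.2.symm

theorem Plumbed.isManifold [IsManifold 𝓘(ℂ) ω M] (h : Plumbed U O g π σ) (hg : Glue U O g Cp) :
    IsManifold 𝓘(ℂ) ω N := by
  refine isManifold_of_contDiffOn _ _ _ fun e e' he he' => ?_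
  obtain ⟨n, rfl⟩ := h.atl e he
  obtain ⟨n', rfl⟩ := h.atl e' he'
  refine AnalyticOnNhd.contDiffOn_of_completeSpace fun w hw => ?_
  simp only [modelWithCornersSelf_coe, modelWithCornersSelf_coe_symm, preimage_id_eq, id_eq,
    range_id, inter_univ, OpenPartialHomeomorph.trans_source, OpenPartialHomeomorph.symm_source,
    mem_inter_iff, mem_preimage] at hw
  exact Pb2_trans h hg n n' hw.1 hw.2

end Pool.Agent.MP_92463a_gt

end
end

section

open Set Complex Filter Metric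
open scoped Topology ComplexConjugate ContDiff Manifold

noncomputable section

namespace Pool.Agent.MP_92463a_gt

section
variable {A B C : Type} [TopologicalSpace A] [ChartedSpace ℂ A] [TopologicalSpace B]
  [ChartedSpace ℂ B] [TopologicalSpace C] [ChartedSpace ℂ C]

/-- the map `F` read in the charts at `x` and `y` -/
def pb3L (F : A → B) (x : A) (y : B) : ℂ → ℂ := chartAt ℂ y ∘ F ∘ (chartAt ℂ x).symm

/-- the derivative at `z` of `F` read in the charts at `x` and `y` -/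
def pb3D (F : A → B) (x : A) (y : B) (z : A) : ℂ := deriv (pb3L F x y) (chartAt ℂ x z)

/-- `F` is analytic at `z` in the charts at `x` and `y` -/
def pb3A (F : A → B) (x : A) (y : B) (z : A) : Prop := AnalyticAt ℂ (pb3L F x y) (chartAt ℂ x z)

theorem pb3_tend {x z : A} (hx : z ∈ (chartAt ℂ x).source) :
    Tendsto (chartAt ℂ x).symm (𝓝 (chartAt ℂ x z)) (𝓝 z) := by
  have h := (chartAt ℂ x).continuousAt_symm ((chartAt ℂ x).map_source hx)
  rwa [ContinuousAt, (chartAt ℂ x).left_inv hx] at h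

theorem pb3L_congr {F F' : A → B} {x z : A} {y y' : B} (hx : z ∈ (chartAt ℂ x).source)
    (h : ∀ᶠ z' in 𝓝 z, chartAt ℂ y (F z') = chartAt ℂ y' (F' z')) :
    pb3L F x y =ᶠ[𝓝 (chartAt ℂ x z)] pb3L F' x y' :=
  (pb3_tend hx).eventually h

theorem pb3L_congr' {F : A → B} {F' : A → C} {x z : A} {y : B} {y' : C}
    (hx : z ∈ (chartAt ℂ x).source)
    (h : ∀ᶠ z' in 𝓝 z, chartAt ℂ y (F z') = chartAt ℂ y' (F' z')) :
    pb3L F x y =ᶠ[𝓝 (chartAt ℂ x z)] pb3L F' x y' :=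
  (pb3_tend hx).eventually h

theorem pb3L_comp {F : A → B} (G : B → C) {x z : A} {y : B} (w : C)
    (hx : z ∈ (chartAt ℂ x).source) (hF : ContinuousAt F z) (hy : F z ∈ (chartAt ℂ y).source) :
    pb3L (G ∘ F) x w =ᶠ[𝓝 (chartAt ℂ x z)] pb3L G y w ∘ pb3L F x y := by
  have h1 : ∀ᶠ z' in 𝓝 z, F z' ∈ (chartAt ℂ y).source :=
    hF.eventually ((chartAt ℂ y).open_source.mem_nhds hy)
  filter_upwards [(pb3_tend hx).eventually h1] with u hu
  simp only [pb3L, Function.comp_apply, (chartAt ℂ y).left_inv hu]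

theorem pb3L_apply (F : A → B) {x z : A} (y : B) (hx : z ∈ (chartAt ℂ x).source) :
    pb3L F x y (chartAt ℂ x z) = chartAt ℂ y (F z) := by
  simp only [pb3L, Function.comp_apply, (chartAt ℂ x).left_inv hx]

theorem pb3A_comp {F : A → B} {G : B → C} {x z : A} {y : B} {w : C}
    (hx : z ∈ (chartAt ℂ x).source) (hF : ContinuousAt F z) (hy : F z ∈ (chartAt ℂ y).source)
    (h1 : pb3A F x y z) (h2 : pb3A G y w (F z)) : pb3A (G ∘ F) x w z := by
  refine AnalyticAt.congr ?_ (pb3L_comp G w hx hF hy).symm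
  exact AnalyticAt.comp_of_eq h2 h1 (pb3L_apply F y hx)

theorem pb3D_comp {F : A → B} {G : B → C} {x z : A} {y : B} {w : C}
    (hx : z ∈ (chartAt ℂ x).source) (hF : ContinuousAt F z) (hy : F z ∈ (chartAt ℂ y).source)
    (h1 : pb3A F x y z) (h2 : pb3A G y w (F z)) :
    pb3D (G ∘ F) x w z = pb3D G y w (F z) * pb3D F x y z := by
  unfold pb3D
  rw [(pb3L_comp G w hx hF hy).deriv_eq, deriv_comp, pb3L_apply F y hx]
  · rw [pb3L_apply F y hx]
    exact h2.differentiableAt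
  · exact h1.differentiableAt

theorem pb3D_id {x z : A} (hx : z ∈ (chartAt ℂ x).source) : pb3D id x x z = 1 := by
  have h : pb3L id x x =ᶠ[𝓝 (chartAt ℂ x z)] id := by
    filter_upwards [(chartAt ℂ x).open_target.mem_nhds ((chartAt ℂ x).map_source hx)] with u hu
    simp only [pb3L, Function.comp_apply, id, (chartAt ℂ x).right_inv hu]
  rw [pb3D, h.deriv_eq, deriv_id]

theorem pb3A_id [IsManifold 𝓘(ℂ) ω A] {x y z : A} (hx : z ∈ (chartAt ℂ x).source)
    (hy : z ∈ (chartAt ℂ y).source) : pb3A id x y z :=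
  trans_an hx hy

theorem pb3D_trans [IsManifold 𝓘(ℂ) ω A] {x y w z : A} (hx : z ∈ (chartAt ℂ x).source)
    (hy : z ∈ (chartAt ℂ y).source) (hw : z ∈ (chartAt ℂ w).source) :
    pb3D id y w z * pb3D id x y z = pb3D id x w z :=
  (pb3D_comp (F := id) (G := id) hx continuousAt_id hy (pb3A_id hx hy) (pb3A_id hy hw)).symm

theorem pb3D_inv [IsManifold 𝓘(ℂ) ω A] {x y z : A} (hx : z ∈ (chartAt ℂ x).source)
    (hy : z ∈ (chartAt ℂ y).source) : pb3D id y x z * pb3D id x y z = 1 := by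
  rw [pb3D_trans hx hy hx, pb3D_id hx]

end

variable {M N : Type} [TopologicalSpace M] [ChartedSpace ℂ M] [TopologicalSpace N]
  [ChartedSpace ℂ N] {U O Cp : Set M} {g : M → M} {π : M → N} {σ : N → M}

theorem Plumbed.pb3_cont (h : Plumbed U O g π σ) (hg : Glue U O g Cp) {z : M} (hz : z ∈ U) :
    ContinuousAt π z :=
  h.cont.continuousAt (hg.oU.mem_nhds hz)

theorem Plumbed.pb3_glue (h : Plumbed U O g π σ) (hg : Glue U O g Cp) {z : M} (hz : z ∈ O) :
    π (g z) = π z :=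
  ((h.eq z (hg.sub hz) (g z) (hg.sub (hg.maps hz))).2 (Or.inr ⟨hz, rfl⟩)).symm

theorem Plumbed.pb3_glue_ev (h : Plumbed U O g π σ) (hg : Glue U O g Cp) {z x : M} (hz : z ∈ O)
    (hx : z ∈ (chartAt ℂ x).source) (n : N) :
    pb3L (π ∘ g) x n =ᶠ[𝓝 (chartAt ℂ x z)] pb3L π x n := by
  refine pb3L_congr hx ?_
  filter_upwards [hg.oO.mem_nhds hz] with z' hz'
  rw [Function.comp_apply, h.pb3_glue hg hz']

/-- the preferred lift of a point of a chart -/
theorem Plumbed.pb3_lift (h : Plumbed U O g π σ) {n q : N} (hq : q ∈ (chartAt ℂ n).source) :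
    (chartAt ℂ (σ n)).symm (chartAt ℂ n q) ∈ U ∧
      (chartAt ℂ (σ n)).symm (chartAt ℂ n q) ∈ (chartAt ℂ (σ n)).source ∧
      π ((chartAt ℂ (σ n)).symm (chartAt ℂ n q)) = q := by
  obtain ⟨h1, h2, h3⟩ := h.tgt n _ ((chartAt ℂ n).map_source hq)
  exact ⟨h2, (chartAt ℂ (σ n)).map_target h1, by rw [← h3, (chartAt ℂ n).left_inv hq]⟩

theorem Plumbed.pb3_lift_ev (h : Plumbed U O g π σ) {n : N} {w : ℂ}
    (hw : w ∈ (chartAt ℂ n).target) {x : M}
    (hx : (chartAt ℂ (σ n)).symm w ∈ (chartAt ℂ x).source) :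
    pb3L π x n =ᶠ[𝓝 (chartAt ℂ x ((chartAt ℂ (σ n)).symm w))] pb3L id x (σ n) := by
  refine pb3L_congr' hx ?_
  filter_upwards [h.chart n hw] with z' hz'
  exact hz'.2.2

theorem Plumbed.pb3_an [IsManifold 𝓘(ℂ) ω M] (h : Plumbed U O g π σ) (hg : Glue U O g Cp)
    {z x : M} {n : N} (hz : z ∈ U) (hx : z ∈ (chartAt ℂ x).source)
    (hn : π z ∈ (chartAt ℂ n).source) : pb3A π x n z := by
  obtain ⟨h1, h2, h3⟩ := h.pb3_lift hn
  have hw := (chartAt ℂ n).map_source hn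
  have key : ∀ y, (chartAt ℂ (σ n)).symm (chartAt ℂ n (π z)) ∈ (chartAt ℂ y).source →
      pb3A π y n ((chartAt ℂ (σ n)).symm (chartAt ℂ n (π z))) := fun y hy =>
    AnalyticAt.congr (pb3A_id hy h2) (h.pb3_lift_ev hw hy).symm
  rcases (h.eq z hz _ h1).1 h3.symm with e | ⟨ho, e⟩
  · rw [← e] at key
    exact key x hx
  · rw [e] at key
    have hc : ContinuousAt g z := hg.cont.continuousAt (hg.oO.mem_nhds ho)
    have a1 : pb3A (π ∘ g) z n z :=
      pb3A_comp (mem_chart_source ℂ z) hc (mem_chart_source ℂ (g z)) (hg.hol z ho)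
        (key _ (mem_chart_source ℂ (g z)))
    have a2 : pb3A π z n z := AnalyticAt.congr a1 (h.pb3_glue_ev hg ho (mem_chart_source ℂ z) n)
    exact pb3A_comp (F := id) hx continuousAt_id (mem_chart_source ℂ z)
      (pb3A_id hx (mem_chart_source ℂ z)) a2

theorem Plumbed.pb3_glueD [IsManifold 𝓘(ℂ) ω M] (h : Plumbed U O g π σ) (hg : Glue U O g Cp)
    {z : M} {n : N} (hz : z ∈ O) (hn : π z ∈ (chartAt ℂ n).source) :
    pb3D π z n z = pb3D π (g z) n (g z) * tr g z (g z) := by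
  have hc : ContinuousAt g z := hg.cont.continuousAt (hg.oO.mem_nhds hz)
  have e := pb3D_comp (G := π) (w := n) (mem_chart_source ℂ z) hc (mem_chart_source ℂ (g z))
    (hg.hol z hz) (h.pb3_an hg (hg.sub (hg.maps hz)) (mem_chart_source ℂ (g z))
      (by rwa [h.pb3_glue hg hz]))
  rw [pb3D, (h.pb3_glue_ev hg hz (mem_chart_source ℂ z) n).deriv_eq] at e
  exact e

theorem Plumbed.pb3_liftD (h : Plumbed U O g π σ) {n : N} {w : ℂ}
    (hw : w ∈ (chartAt ℂ n).target) {x : M}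
    (hx : (chartAt ℂ (σ n)).symm w ∈ (chartAt ℂ x).source) :
    pb3D π x n ((chartAt ℂ (σ n)).symm w) = pb3D id x (σ n) ((chartAt ℂ (σ n)).symm w) :=
  (h.pb3_lift_ev hw hx).deriv_eq

end Pool.Agent.MP_92463a_gt

end
end

section

open Set Complex Filter Metric
open scoped Topology ComplexConjugate ContDiff Manifold

noncomputable section

namespace Pool.Agent.MP_92463a_gt

section
variable {M N : Type} [TopologicalSpace M] [ChartedSpace ℂ M] [TopologicalSpace N]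
  [ChartedSpace ℂ N] {U O Cp : Set M} {g : M → M} {π : M → N} {σ : N → M}

open Classical in
/-- the pull-back of a form -/
def pb3Fw (U : Set M) (π : M → N) (f : N → ℂ → ℂ) (z : M) : ℂ :=
  if z ∈ U then f (π z) (chartAt ℂ (π z) (π z)) * pb3D π z (π z) z else 0

open Classical in
/-- the push-forward of an invariant form -/
def pb3Bw (σ : N → M) (om : M → ℂ) (n : N) (w : ℂ) : ℂ :=
  if w ∈ (chartAt ℂ n).target then
    om ((chartAt ℂ (σ n)).symm w) *
      pb3D id (σ n) ((chartAt ℂ (σ n)).symm w) ((chartAt ℂ (σ n)).symm w)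
  else 0

theorem Plumbed.pb3_fw [IsManifold 𝓘(ℂ) ω M] (h : Plumbed U O g π σ) (hg : Glue U O g Cp)
    {f : N → ℂ → ℂ} (hf : f ∈ holForms N) {z x : M} {n : N} (hz : z ∈ U)
    (hx : z ∈ (chartAt ℂ x).source) (hn : π z ∈ (chartAt ℂ n).source) :
    pb3Fw U π f z = f n (chartAt ℂ n (π z)) * pb3D π x n z * pb3D id z x z := by
  have := h.isManifold hg
  have e1 : f (π z) (chartAt ℂ (π z) (π z)) = f n (chartAt ℂ n (π z)) * pb3D id (π z) n (π z) :=
    hf.2.2 (π z) n (π z) ⟨mem_chart_source ℂ _, hn⟩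
  have e2 : pb3D π z n z = pb3D id (π z) n (π z) * pb3D π z (π z) z :=
    pb3D_comp (G := id) (mem_chart_source ℂ z) (h.pb3_cont hg hz) (mem_chart_source ℂ _)
      (h.pb3_an hg hz (mem_chart_source ℂ z) (mem_chart_source ℂ _))
      (pb3A_id (mem_chart_source ℂ _) hn)
  have e3 : pb3D π z n z = pb3D π x n z * pb3D id z x z :=
    pb3D_comp (F := id) (mem_chart_source ℂ z) continuousAt_id hx
      (pb3A_id (mem_chart_source ℂ z) hx) (h.pb3_an hg hz hx hn)
  rw [pb3Fw, if_pos hz, e1, mul_assoc, ← e2, e3, mul_assoc]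

theorem Plumbed.pb3_fw_mem [IsManifold 𝓘(ℂ) ω M] (h : Plumbed U O g π σ) (hg : Glue U O g Cp)
    {f : N → ℂ → ℂ} (hf : f ∈ holForms N) : pb3Fw U π f ∈ formsU U O g := by
  refine ⟨fun z hz => if_neg hz, fun z hz => ?_, fun z hz => ?_⟩
  · have a1 : pb3A π z (π z) z := h.pb3_an hg hz (mem_chart_source ℂ z) (mem_chart_source ℂ _)
    have a2 : AnalyticAt ℂ (f (π z)) (chartAt ℂ (π z) (π z)) :=
      (hf.1 (π z)).analyticAt ((chartAt ℂ (π z)).open_target.mem_nhds (mem_chart_target ℂ _))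
    refine ⟨fun w => f (π z) (pb3L π z (π z) w) * deriv (pb3L π z (π z)) w,
      (AnalyticAt.comp_of_eq a2 a1 (pb3L_apply π _ (mem_chart_source ℂ z))).mul a1.deriv, ?_⟩
    filter_upwards [hg.oU.mem_nhds hz, (chartAt ℂ z).open_source.mem_nhds (mem_chart_source ℂ z),
      (h.pb3_cont hg hz).eventually
        ((chartAt ℂ (π z)).open_source.mem_nhds (mem_chart_source ℂ (π z)))] with z' h1 h2 h3
    rw [h.pb3_fw hg hf h1 h2 h3, pb3L_apply π _ h2]
    rfl
  · have e := h.pb3_glue hg hz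
    rw [pb3Fw, pb3Fw, if_pos (hg.sub hz), if_pos (hg.sub (hg.maps hz)), e,
      h.pb3_glueD hg hz (mem_chart_source ℂ _), mul_assoc]

theorem Plumbed.pb3_fw_inj [IsManifold 𝓘(ℂ) ω M] (h : Plumbed U O g π σ) (hg : Glue U O g Cp)
    {f : N → ℂ → ℂ} (hf : f ∈ holForms N) (h0 : pb3Fw U π f = 0) : f = 0 := by
  funext n w
  by_cases hw : w ∈ (chartAt ℂ n).target
  · have hq := (chartAt ℂ n).map_target hw
    obtain ⟨h1, h2, h3⟩ := h.pb3_lift hq
    rw [(chartAt ℂ n).right_inv hw] at h1 h2 h3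
    have e := h.pb3_fw hg hf h1 h2 (h3 ▸ hq)
    rw [h0, h3, (chartAt ℂ n).right_inv hw, h.pb3_liftD hw h2, pb3D_id h2, mul_one] at e
    have e' := pb3D_inv h2 (mem_chart_source ℂ _)
    exact (mul_eq_zero.1 e.symm).resolve_right (left_ne_zero_of_mul_eq_one e')
  · exact hf.2.1 n w hw

theorem Plumbed.pb3_bw [IsManifold 𝓘(ℂ) ω M] (h : Plumbed U O g π σ) (hg : Glue U O g Cp)
    {om : M → ℂ} (ho : om ∈ formsU U O g) {z : M} {n : N} (hz : z ∈ U)
    (hn : π z ∈ (chartAt ℂ n).source) :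
    om z = pb3Bw σ om n (chartAt ℂ n (π z)) * pb3D π z n z := by
  obtain ⟨h1, h2, h3⟩ := h.pb3_lift hn
  have hw := (chartAt ℂ n).map_source hn
  have key := h.pb3_liftD hw (mem_chart_source ℂ _)
  have e' := pb3D_inv (mem_chart_source ℂ _) h2
  rw [pb3Bw, if_pos hw]
  rcases (h.eq z hz _ h1).1 h3.symm with e | ⟨hO, e⟩
  · rw [← e] at key e' ⊢
    rw [key, mul_assoc, e', mul_one]
  · rw [e] at key e' ⊢
    rw [h.pb3_glueD hg hO hn, key, ho.2.2 z hO]
    linear_combination (-(om (g z) * tr g z (g z))) * e'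

theorem Plumbed.pb3_bw_mem [IsManifold 𝓘(ℂ) ω M] (h : Plumbed U O g π σ) (hg : Glue U O g Cp)
    {om : M → ℂ} (ho : om ∈ formsU U O g) : pb3Bw σ om ∈ holForms N := by
  have := h.isManifold hg
  refine ⟨fun n w hw => ?_, fun n w hw => if_neg hw, fun x y q hq => ?_⟩
  · obtain ⟨h1, h2, -⟩ := h.tgt n w hw
    have h3 := (chartAt ℂ (σ n)).map_target h1
    obtain ⟨φ, a1, a2⟩ := ho.2.1 _ h2
    have a3 : pb3A id (σ n) ((chartAt ℂ (σ n)).symm w) ((chartAt ℂ (σ n)).symm w) :=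
      pb3A_id h3 (mem_chart_source ℂ _)
    have a4 := pb3L_apply id ((chartAt ℂ (σ n)).symm w) h3
    have t := pb3_tend h3
    rw [pb3A] at a3
    rw [(chartAt ℂ (σ n)).right_inv h1] at a3 a4 t
    have a5 := (AnalyticAt.comp_of_eq a1 a3 a4).mul a3.deriv
    refine (a5.differentiableAt.congr_of_eventuallyEq ?_).differentiableWithinAt
    filter_upwards [(chartAt ℂ n).open_target.mem_nhds hw, t.eventually a2,
      t.eventually ((chartAt ℂ _).open_source.mem_nhds (mem_chart_source ℂ _))] with u b1 b2 b3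
    have b4 := (h.tgt n u b1).1
    have b5 := pb3D_trans ((chartAt ℂ (σ n)).map_target b4) (mem_chart_source ℂ _) b3
    rw [pb3Bw, if_pos b1, b2, mul_assoc]
    erw [b5]
    rw [pb3D, (chartAt ℂ (σ n)).right_inv b4]
    rfl
  · obtain ⟨h1, h2, h3⟩ := h.pb3_lift hq.1
    have e1 := h.pb3_bw hg ho h1 (h3.symm ▸ hq.1)
    have e2 := h.pb3_bw hg ho h1 (h3.symm ▸ hq.2)
    have e3 := pb3D_comp (G := id) (w := y) (mem_chart_source ℂ _) (h.pb3_cont hg h1)
      (h3.symm ▸ hq.1) (h.pb3_an hg h1 (mem_chart_source ℂ _) (h3.symm ▸ hq.1))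
      (pb3A_id (h3.symm ▸ hq.1) (h3.symm ▸ hq.2))
    have e4 := h.pb3_liftD ((chartAt ℂ x).map_source hq.1) (mem_chart_source ℂ _)
    have e5 := left_ne_zero_of_mul_eq_one (pb3D_inv h2 (mem_chart_source ℂ _))
    rw [Function.id_comp, h3] at e3
    rw [h3] at e1 e2
    rw [← e4] at e5
    refine mul_right_cancel₀ e5 ?_
    rw [← e1, e2, e3, mul_assoc]
    rfl

end

theorem Plumbed.genus_eq {M N : Type} [TopologicalSpace M] [ChartedSpace ℂ M] [TopologicalSpace N]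
    [ChartedSpace ℂ N] [IsManifold 𝓘(ℂ) ω M] {U O Cp : Set M} {g : M → M} {π : M → N} {σ : N → M}
    (h : Plumbed U O g π σ) (hg : Glue U O g Cp) :
    genus N = Module.finrank ℂ (formsU U O g) := by
  let Φ : holForms N →ₗ[ℂ] formsU U O g :=
    { toFun := fun f => ⟨pb3Fw U π f.1, h.pb3_fw_mem hg f.2⟩
      map_add' := fun f f' => by
        ext z
        by_cases hz : z ∈ U <;> simp [pb3Fw, hz, add_mul]
      map_smul' := fun c f => by
        ext z
        by_cases hz : z ∈ U <;> simp [pb3Fw, hz, mul_assoc] }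
  refine (LinearEquiv.ofBijective Φ ⟨?_, fun om => ?_⟩).finrank_eq
  · rw [injective_iff_map_eq_zero]
    intro f hf
    exact Subtype.ext (h.pb3_fw_inj hg f.2 (congrArg Subtype.val hf))
  · refine ⟨⟨pb3Bw σ om.1, h.pb3_bw_mem hg om.2⟩, Subtype.ext (funext fun z => ?_)⟩
    change pb3Fw U π (pb3Bw σ om.1) z = om.1 z
    by_cases hz : z ∈ U
    · rw [pb3Fw, if_pos hz, ← h.pb3_bw hg om.2 hz (mem_chart_source ℂ _)]
    · rw [pb3Fw, if_neg hz, om.2.1 z hz]

end Pool.Agent.MP_92463a_gt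

end
end

section

open Set Complex Filter Metric
open scoped Topology ComplexConjugate ContDiff Manifold

noncomputable section

namespace Pool.Agent.MP_92463a_gt

/-- the affine map of `[-1, 1]` onto `[dLo, dHi]` -/
def Zero_aff (lo up : Bool) (t : ℝ) : ℝ :=
  (dLo lo up + dHi lo up) / 2 + (dHi lo up - dLo lo up) / 2 * t

theorem Zero_le (lo up : Bool) : dLo lo up ≤ dHi lo up := by
  cases lo <;> cases up <;> simp only [dLo, dHi] <;> norm_num

theorem Zero_mem (lo up : Bool) {t : ℝ} (ht : |t| ≤ 1) :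
    Zero_aff lo up t ∈ Icc (dLo lo up) (dHi lo up) := by
  have h := Zero_le lo up
  obtain ⟨h1, h2⟩ := abs_le.mp ht
  unfold Zero_aff
  constructor <;> nlinarith

theorem Zero_one (lo up : Bool) : Zero_aff lo up 1 = dHi lo up := by
  unfold Zero_aff
  ring

theorem Zero_neg (lo up : Bool) : Zero_aff lo up (-1) = dLo lo up := by
  unfold Zero_aff
  ring

def Zero_D (g : ℕ) (z : Fin g × Bool → ℝ) (i : ℕ) : ℝ :=
  if h : i < g then Zero_aff (decide (0 < i)) (decide (i + 1 < g)) (z (⟨i, h⟩, false)) else 0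

def Zero_U (g : ℕ) (z : Fin g × Bool → ℝ) (i : ℕ) : ℝ :=
  if h : i < g then Zero_aff (decide (i + 1 < g)) (decide (0 < i)) (z (⟨i, h⟩, true)) else 0

theorem Zero_box (g : ℕ) {z : Fin g × Bool → ℝ} (hz : ∀ i, |z i| ≤ 1) :
    Box g (Zero_U g z) (Zero_D g z) := by
  intro i hi
  unfold Zero_U Zero_D
  rw [dif_pos hi, dif_pos hi]
  exact ⟨Zero_mem _ _ (hz _), Zero_mem _ _ (hz _)⟩

theorem Zero_cont (g : ℕ) :
    Continuous fun z : Fin g × Bool → ℝ => (Zero_U g z, Zero_D g z) := by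
  refine Continuous.prodMk (continuous_pi fun i => ?_) (continuous_pi fun i => ?_)
  · unfold Zero_U
    by_cases hi : i < g
    · simp only [dif_pos hi, Zero_aff]
      fun_prop
    · simp only [dif_neg hi]
      exact continuous_const
  · unfold Zero_D
    by_cases hi : i < g
    · simp only [dif_pos hi, Zero_aff]
      fun_prop
    · simp only [dif_neg hi]
      exact continuous_const

theorem Zero_face {g j : ℕ} {U D : ℕ → ℝ} (h : Box g U D) (hj : j < g) :
    ((D j = dLo (decide (0 < j)) (decide (j + 1 < g)) → Per (U j) (D j) (Ld g U D j) < 0) ∧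
      (D j = dHi (decide (0 < j)) (decide (j + 1 < g)) → 0 < Per (U j) (D j) (Ld g U D j))) ∧
    ((U j = dLo (decide (j + 1 < g)) (decide (0 < j)) → Per (D j) (U j) (Lu g U D j) < 0) ∧
      (U j = dHi (decide (j + 1 < g)) (decide (0 < j)) → 0 < Per (D j) (U j) (Lu g U D j))) := by
  obtain ⟨x, x2, hx⟩ := fld_cls (h.low hj)
  obtain ⟨y, y2, hy⟩ := fld_cls (h.upp hj)
  have e : decide (0 < g - 1 - j) = decide (j + 1 < g) := by
    rw [decide_eq_decide]
    omega
  rw [e] at hy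
  exact ⟨per_face (h j hj) hx hy (fun _ => rfl) (Ld_cont h hj),
    per_face (h j hj).symm hy hx (fun _ => rfl) (Lu_cont h hj)⟩

theorem Zero_comp {g : ℕ} {F : (ℕ → ℝ) × (ℕ → ℝ) → ℝ} (hF : ContinuousOn F {z | Box g z.1 z.2}) :
    ContinuousOn (fun z : Fin g × Bool → ℝ => F (Zero_U g z, Zero_D g z)) {z | ∀ i, |z i| ≤ 1} :=
  hF.comp (Zero_cont g).continuousOn fun _ hz => Zero_box g hz

/-- the two periods of level `j` -/
def Zero_per (g j : ℕ) (z : (ℕ → ℝ) × (ℕ → ℝ)) : Bool → ℝ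
  | false => Per (z.1 j) (z.2 j) (Ld g z.1 z.2 j)
  | true => Per (z.2 j) (z.1 j) (Lu g z.1 z.2 j)

theorem Zero_per_cont {g j : ℕ} (hj : j < g) (b : Bool) :
    ContinuousOn (fun z => Zero_per g j z b) {z | Box g z.1 z.2} := by
  cases b
  · exact perd_cont hj
  · exact peru_cont hj

theorem exists_zero (g : ℕ) : ∃ U D : ℕ → ℝ, Box g U D ∧
    ∀ j < g, Per (U j) (D j) (Ld g U D j) = 0 ∧ Per (D j) (U j) (Lu g U D j) = 0 := by
  obtain ⟨z, hz, h0⟩ := Pool.Agent.MP_efb2da_gt.miranda (ι := Fin g × Bool)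
    (fun z i => Zero_per g i.1 (Zero_U g z, Zero_D g z) i.2)
    (continuousOn_pi.mpr fun i => Zero_comp (Zero_per_cont i.1.2 i.2))
    (by
      rintro z hz ⟨j, b⟩
      have hf := Zero_face (Zero_box g hz) j.2
      cases b
      · constructor
        · intro h1
          refine hf.1.2 ?_
          unfold Zero_D
          rw [dif_pos j.2, h1, Zero_one]
        · intro h1
          refine hf.1.1 ?_
          unfold Zero_D
          rw [dif_pos j.2, h1, Zero_neg]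
      · constructor
        · intro h1
          refine hf.2.2 ?_
          unfold Zero_U
          rw [dif_pos j.2, h1, Zero_one]
        · intro h1
          refine hf.2.1 ?_
          unfold Zero_U
          rw [dif_pos j.2, h1, Zero_neg])
  exact ⟨Zero_U g z, Zero_D g z, Zero_box g hz, fun j hj =>
    ⟨congrFun h0 (⟨j, hj⟩, false), congrFun h0 (⟨j, hj⟩, true)⟩⟩

end Pool.Agent.MP_92463a_gt

end
end

section

open Set Complex Filter Metric
open scoped Topology ComplexConjugate ContDiff Manifold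

noncomputable section

namespace Pool.Agent.MP_92463a_gt

theorem Tow1_path {T : Dat} {X : ℂ → ℂ} (hT : T.Ok) (hX : T.Pre X) {γ γ' : ℝ → ℂ}
    (hγ : ∀ θ ∈ Icc 0 Real.pi, HasDerivAt γ (γ' θ) θ) (hγ' : ContinuousOn γ' (Icc 0 Real.pi))
    (hin : ∀ θ ∈ Ioo 0 Real.pi, 0 < (γ θ).im)
    (hP : ∀ θ ∈ Icc 0 Real.pi, 0 ≤ (γ θ).im ∧ T.P (γ θ) ≠ 0) (ℓ : ℂ →L[ℝ] ℝ) {φ : ℝ → ℝ} (k : ℝ)
    (h : ∀ θ ∈ Icc 0 Real.pi,
      ℓ (T.G (γ θ) / γ θ * γ' θ - conj ((T.G (γ θ) * γ θ)⁻¹ * γ' θ)) = k * φ θ) :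
    ℓ (X (γ Real.pi) - X (γ 0)) = k * ∫ θ in (0 : ℝ)..Real.pi, φ θ := by
  have cγ : ContinuousOn γ (Icc 0 Real.pi) := fun θ hθ =>
    (hγ θ hθ).continuousAt.continuousWithinAt
  have cG : ContinuousOn (fun θ => T.G (γ θ)) (Icc 0 Real.pi) := Dat.G_cont.comp cγ hP
  have hn : ∀ θ ∈ Icc 0 Real.pi, γ θ ≠ 0 := fun θ hθ h0 =>
    (hP θ hθ).2 (Dat.P_eq_zero.2 (Or.inl (Or.inl h0)))
  have hf : IntervalIntegrable (fun θ => T.G (γ θ) / γ θ * γ' θ -
      conj ((T.G (γ θ) * γ θ)⁻¹ * γ' θ)) MeasureTheory.volume 0 Real.pi :=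
    (((cG.div cγ hn).mul hγ').sub (continuous_conj.comp_continuousOn
      (((cG.mul cγ).inv₀ fun θ hθ => mul_ne_zero (Dat.G_ne _) (hn θ hθ)).mul
        hγ'))).intervalIntegrable_of_Icc Real.pi_pos.le
  rw [hX.path hT hγ hγ' hin hP, ← ℓ.intervalIntegral_comp_comm hf,
    intervalIntegral.integral_congr (g := fun θ => k * φ θ)
      (fun θ hθ => h θ (by rwa [uIcc_of_le Real.pi_pos.le] at hθ)),
    intervalIntegral.integral_const_mul]

theorem Tow1_pos {p l β : ℝ} {L : ℂ} (p0 : 0 < p) (p1 : p < 1) (hl : 0 < l) (hβ : 0 < β)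
    (hL : conj L = L) : ∃ r : ℝ, 0 < r ∧ (l : ℂ) * (sc p 0 + β) ^ 2 / Yc p 0 * exp L = r := by
  have hs : 0 < √p := Real.sqrt_pos.2 p0
  have hY : Yc p 0 = ((1 / √p * ‖sc p 0‖ : ℝ) : ℂ) := by
    rw [Yc, ← Circ_sub_one, ofReal_mul]
    congr 1
    rw [sc_zero p0 p1]
    push_cast
    ring
  have hn : 0 < ‖sc p 0‖ := norm_pos_iff.2 (sc_ne p0 p1 0).1
  obtain ⟨t, rfl⟩ := conj_eq_iff_real.1 hL
  refine ⟨l * (1 + 1 / √p + β) ^ 2 / (1 / √p * ‖sc p 0‖) * Real.exp t, by positivity, ?_⟩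
  rw [hY]
  generalize ‖sc p 0‖ = y
  rw [sc_zero p0 p1]
  push_cast
  ring

theorem Tow1_eps {G c : ℂ} {ε r : ℝ} (hε : ε = 1 ∨ ε = -1) (hr : 0 < r) (hc : c ≠ 0)
    (h1 : G = c * (‖G‖ : ℂ)) (h2 : G = ε * (c * r)) : ε = 1 := by
  refine hε.resolve_right fun h => ?_
  have h3 : ((‖G‖ : ℝ) : ℂ) = ((ε * r : ℝ) : ℂ) := by
    refine mul_left_cancel₀ hc ?_
    rw [← h1, h2]
    push_cast
    ring
  have h4 := ofReal_injective h3
  have := norm_nonneg G
  rw [h] at h4
  linarith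

theorem Tow1_fld {g j : ℕ} {U D : ℕ → ℝ} (h : Box g U D) (hj : j < g) :
    conj (Ld g U D j (sc (U j / (U j + D j)) 0)) = Ld g U D j (sc (U j / (U j + D j)) 0) ∧
    conj (Lu g U D j (sc (D j / (D j + U j)) 0)) = Lu g U D j (sc (D j / (D j + U j)) 0) := by
  obtain ⟨-, -, -, -, b3, b4⟩ := (h j hj).bd
  obtain ⟨-, -, -, -, c3, c4⟩ := (h j hj).symm.bd
  have a1 := (h j hj).arg 0
  have a2 := (h j hj).symm.arg 0
  constructor
  · rw [Ld, map_add, ← fld_conj (h.low hj) fun _ => a1.1,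
      ← fld_conj (h.upp hj) fun h0 => a1.2 (decide_eq_true (by omega)), map_mul, map_div₀,
      sc_zero (by linarith) (by linarith), conj_ofReal, conj_ofReal, conj_ofReal]
  · rw [Lu, map_add, ← fld_conj (h.upp hj) fun _ => a2.1,
      ← fld_conj (h.low hj) fun h0 => a2.2 (decide_eq_true h0), map_mul, map_div₀,
      sc_zero (by linarith) (by linarith), conj_ofReal, conj_ofReal, conj_ofReal]

theorem Tow1_sqrt {u d : ℝ} (hu : 0 < u) (hd : 0 < d) : √(u ^ 2 / d) * d = u * √d := by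
  have h1 : 0 < √d := Real.sqrt_pos.2 hd
  rw [Real.sqrt_div (by positivity), Real.sqrt_sq hu.le]
  nth_rw 2 [← Real.mul_self_sqrt hd.le]
  field_simp

/-- signed versions of `Box.link_down` and `Box.link_up` -/
theorem Box.lk_down {g j : ℕ} {U D : ℕ → ℝ} (h : Box g U D) (hj : j < g) :
    Lk (tw g U D).F1 (tw g U D).F2 (Sg.ty (false, j + 1))
        (tA U D j * (1 + 1 / √(U j / (U j + D j)))) (tA U D j * (1 - 1 / √(U j / (U j + D j)))) =
      -(sg j * (√(U j / (U j + D j)) / (U j * √(D j)))) * Per (U j) (D j) (Ld g U D j) := by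
  obtain ⟨hu, hd⟩ := Link1_pos h hj
  have hok := h.ok (Nat.zero_lt_of_lt hj)
  obtain ⟨X, hX⟩ := hok.exists_pre
  obtain ⟨hA, hB⟩ := h.in_down hj
  have hL := Ld_cont h hj
  have hL0 := (Tow1_fld h hj).1
  have hT : 0 < tA U D j := hok.a_pos j hj
  have hT' : (tA U D j : ℂ) ≠ 0 := by exact_mod_cast hT.ne'
  have hp0 : 0 < U j / (U j + D j) := by positivity
  have hp1 : U j / (U j + D j) < 1 := by
    rw [div_lt_one (by positivity)]
    linarith
  have hβ : (1 - U j / (U j + D j)) / (U j / (U j + D j)) = D j / U j := by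
    field_simp
    ring
  unfold Per Av
  generalize U j / (U j + D j) = p at *
  obtain ⟨sA, tA'⟩ := hok.sign_pos (k := j + 1) hA.1 hj hA.2.1 hA.2.2
  have sB := (hok.sign_neg hB.1 hj.le hB.2.1 hB.2.2).1
  have e0 : (tA U D j : ℂ) * sc p 0 = ((tA U D j * (1 + 1 / √p) : ℝ) : ℂ) := by
    rw [sc_zero hp0 hp1, ofReal_mul]
  have e1 : (tA U D j : ℂ) * sc p Real.pi = ((tA U D j * (1 - 1 / √p) : ℝ) : ℂ) := by
    rw [sc_pi hp0 hp1, ofReal_mul]
  generalize tA U D j * (1 + 1 / √p) = x at *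
  generalize tA U D j * (1 - 1 / √p) = x' at *
  have nA : (tw g U D).P x ≠ 0 := fun h2 => by
    rw [h2, zero_re, mul_zero] at sA
    exact lt_irrefl _ sA
  have nB : (tw g U D).P x' ≠ 0 := fun h2 => by
    rw [h2, zero_re, mul_zero] at sB
    exact lt_irrefl _ sB
  rw [(hX.pathP hok).lk _ fun θ hθ => Dat.Ok.semi nA nB (hB.1.trans hA.1) hθ]
  have hin : ∀ θ ∈ Ioo 0 Real.pi, 0 < ((tA U D j : ℂ) * sc p θ).im := fun θ hθ => by
    rw [im_ofReal_mul]
    exact mul_pos hT (sc_im hp0 hp1 hθ)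
  have hP : ∀ θ ∈ Icc 0 Real.pi, 0 ≤ ((tA U D j : ℂ) * sc p θ).im ∧
      (tw g U D).P ((tA U D j : ℂ) * sc p θ) ≠ 0 := by
    intro θ hθ
    rcases hθ.1.eq_or_lt with rfl | h1
    · rw [e0]
      exact ⟨(ofReal_im _).ge, nA⟩
    rcases hθ.2.eq_or_lt with rfl | h2
    · rw [e1]
      exact ⟨(ofReal_im _).ge, nB⟩
    · exact ⟨(hin θ ⟨h1, h2⟩).le, Dat.ne_of_im (hin θ ⟨h1, h2⟩).ne'⟩
  have cs : Continuous (sc p) :=
    continuous_iff_continuousAt.2 fun θ => (sc_der hp0 hp1 θ).continuousAt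
  have cY : Continuous (Yc p) :=
    continuous_iff_continuousAt.2 fun θ => (Yc_der hp0 hp1 θ).continuousAt
  have cD : Continuous (Dl p) := Dl_cont.comp (continuous_const.prodMk continuous_id)
  have cc : Continuous fun θ => √p / Dl p θ :=
    continuous_const.div cD fun θ => (Dl_pos hp0 hp1 θ).ne'
  have hpath := @Tow1_path _ _ hok hX (fun θ => (tA U D j : ℂ) * sc p θ)
    (fun θ => (tA U D j : ℂ) * (I * ((√p / Dl p θ : ℝ) : ℂ) * Yc p θ))
    (fun θ _ => (sc_der hp0 hp1 θ).const_mul _)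
    (continuous_const.mul ((continuous_const.mul (continuous_ofReal.comp cc)).mul cY)).continuousOn
    hin hP
  simp only [e0, e1] at hpath
  have hl : 0 < √(U j ^ 2 / D j) := Real.sqrt_pos.2 (by positivity)
  have hll : √(U j ^ 2 / D j) ^ 2 = U j ^ 2 / D j := Real.sq_sqrt (by positivity)
  rw [← Tow1_sqrt hu hd]
  generalize √(U j ^ 2 / D j) = l at *
  have hne := sc_ne hp0 hp1
  have hY := Yc_sq hp0 hp1
  rw [hβ] at hne hY
  obtain ⟨r, hr, hr0⟩ := Tow1_pos hp0 hp1 hl (div_pos hd hu) hL0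
  set Γ : ℝ → ℂ := fun θ => l * (sc p θ + (D j / U j : ℝ)) ^ 2 / Yc p θ * exp (Ld g U D j (sc p θ))
    with hΓ
  have hr1 : Γ 0 = r := hr0
  have Γ0 : ∀ θ, Γ θ ≠ 0 := fun θ =>
    mul_ne_zero (div_ne_zero (mul_ne_zero (by exact_mod_cast hl.ne')
      (pow_ne_zero _ (hne θ).2.2.1)) (hne θ).2.2.2) (exp_ne_zero _)
  have cΓ : ContinuousOn Γ (Icc 0 Real.pi) :=
    (((continuous_const.mul ((cs.add continuous_const).pow 2)).div cY
      fun θ => (hne θ).2.2.2).continuousOn).mul hL.cexp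
  have cG : ContinuousOn (fun θ => (tw g U D).G ((tA U D j : ℂ) * sc p θ)) (Icc 0 Real.pi) :=
    Dat.G_cont.comp (continuous_const.mul cs).continuousOn hP
  have hsq : ∀ θ ∈ Icc 0 Real.pi, (tw g U D).G ((tA U D j : ℂ) * sc p θ) ^ 2 =
      if Even j then -Γ θ ^ 2 else (Γ θ ^ 2)⁻¹ := fun θ hθ =>
    h.G_sq hj (hP θ hθ).2 (by
      rw [← hll]
      exact Link1_sq (hne θ).1 (hne θ).2.1 (hne θ).2.2.1 (hY θ))
  have him := fun θ => Link1_im (L := Ld g U D j (sc p θ)) (r := √p) hd.ne' hl.ne'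
    (Dl_pos hp0 hp1 θ).ne' hll (hne θ).1 (hne θ).2.2.1 (hne θ).2.2.2 (hY θ)
  have h0 : (0 : ℝ) ∈ Icc 0 Real.pi := ⟨le_rfl, Real.pi_pos.le⟩
  by_cases hev : Even j
  · obtain ⟨ε, hε, hG⟩ := Link1_sign cG (V := fun θ => I * Γ θ) (continuousOn_const.mul cΓ)
      (fun θ _ => mul_ne_zero I_ne_zero (Γ0 θ)) fun θ hθ => by
        rw [hsq θ hθ, if_pos hev, mul_pow I, I_sq, neg_one_mul]
    have hod : ¬ Even (j + 1) := Nat.not_even_iff_odd.2 hev.add_one
    rw [if_neg hod] at tA'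
    obtain rfl : ε = 1 := Tow1_eps hε hr I_ne_zero tA' (by rw [← e0, ← hr1]; exact hG 0 h0)
    have key := hpath reCLM (-(1 : ℝ) * (√p / (l * D j))) (fun θ hθ => by
      rw [reCLM_apply, Link1_even hε hT' (hne θ).1 (Γ0 θ) rfl (hG θ hθ), him θ, mul_assoc])
    rw [reCLM_apply] at key
    have ty : Sg.ty (false, j + 1) = false := by simp [Sg.ty, hod]
    simp only [ty, Bool.false_eq_true, if_false]
    rw [key, sg, hev.neg_one_pow]
    ring
  · obtain ⟨ε, hε, hG⟩ := Link1_sign cG (V := fun θ => (Γ θ)⁻¹) (cΓ.inv₀ fun θ _ => Γ0 θ)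
      (fun θ _ => inv_ne_zero (Γ0 θ)) fun θ hθ => by
        rw [hsq θ hθ, if_neg hev, inv_pow]
    have hod : Odd j := Nat.not_even_iff_odd.1 hev
    rw [if_pos hod.add_one] at tA'
    obtain rfl : ε = 1 := Tow1_eps hε (inv_pos.2 hr) one_ne_zero tA' (by
      rw [← e0, one_mul, ofReal_inv, ← hr1]; exact hG 0 h0)
    have key := hpath imCLM ((1 : ℝ) * (√p / (l * D j))) (fun θ hθ => by
      rw [imCLM_apply, Link1_odd hε hT' (hne θ).1 (Γ0 θ) rfl (hG θ hθ), him θ, mul_assoc])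
    rw [imCLM_apply] at key
    have ty : Sg.ty (false, j + 1) = true := by simp [Sg.ty, hod.add_one]
    simp only [ty, if_true]
    rw [key, sg, hod.neg_one_pow]
    ring

theorem Box.lk_up {g j : ℕ} {U D : ℕ → ℝ} (h : Box g U D) (hj : j < g) :
    Lk (tw g U D).F1 (tw g U D).F2 (Sg.ty (false, j))
        (tA U D j / (1 + 1 / √(D j / (D j + U j)))) (tA U D j / (1 - 1 / √(D j / (D j + U j)))) =
      sg j * (√(D j / (D j + U j)) / (D j * √(U j))) * Per (D j) (U j) (Lu g U D j) := by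
  have hb := (h j hj).symm
  obtain ⟨b1, -, b2, -, b3, b4⟩ := hb.bd
  have harg := hb.arg
  obtain ⟨hA, hB⟩ := h.in_up hj
  have hT := h.ok (by omega)
  obtain ⟨X, hX⟩ := hT.exists_pre
  have cL := Lu_cont h hj
  have hL0 := (Tow1_fld h hj).2
  have hsq := fun {s Γ : ℂ} => h.G_sq hj (s := s) (Γ := Γ)
  have hLd : ∀ θ, Ld g U D j (conj (sc (D j / (D j + U j)) θ))⁻¹ =
      conj (Lu g U D j (sc (D j / (D j + U j)) θ)) := fun θ => by
    rw [Ld, Lu, map_add, ← fld_conj (h.upp hj) fun _ => (harg θ).1,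
      ← fld_conj (h.low hj) fun h0 => (harg θ).2 (decide_eq_true h0), add_comm, map_mul, map_div₀,
      conj_ofReal, conj_ofReal, div_inv_eq_mul, div_eq_mul_inv ((U j ^ 2 / D j : ℝ) : ℂ)]
  have ha : 0 < tA U D j := hT.a_pos j hj
  rw [Per, Av]
  generalize Ld g U D j = L₁ at hsq hLd
  generalize Lu g U D j = L at cL hLd hL0 ⊢
  generalize tA U D j = a at hA hB hsq ha ⊢
  generalize U j = u at *
  generalize D j = d at *
  have hu : 0 < u := by linarith
  have hd : 0 < d := by linarith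
  have hβ : (1 - d / (d + u)) / (d / (d + u)) = u / d := by
    field_simp
    ring
  have p0 : 0 < d / (d + u) := by linarith
  have p1 : d / (d + u) < 1 := by linarith
  generalize d / (d + u) = p at *
  have hl : 0 < √(d ^ 2 / u) := by positivity
  have hl2 : √(d ^ 2 / u) ^ 2 * u = d ^ 2 := by
    rw [Real.sq_sqrt (by positivity)]
    field_simp
  rw [← Tow1_sqrt hd hu]
  generalize √(d ^ 2 / u) = l at *
  have hne := sc_ne p0 p1
  have hY := Yc_sq p0 p1
  rw [hβ] at hne hY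
  have cs : Continuous (sc p) := continuous_iff_continuousAt.mpr fun θ =>
    (sc_der p0 p1 θ).continuousAt
  have cY : Continuous (Yc p) := continuous_iff_continuousAt.mpr fun θ =>
    (Yc_der p0 p1 θ).continuousAt
  have cD : Continuous (Dl p) := Dl_cont.comp (continuous_const.prodMk continuous_id)
  have hc : ∀ θ, conj (sc p θ) ≠ 0 := fun θ => (map_ne_zero _).mpr (hne θ).1
  have a0 : (a : ℂ) ≠ 0 := ofReal_ne_zero.mpr ha.ne'
  have e0 : (a : ℂ) * (conj (sc p 0))⁻¹ = ((a / (1 + 1 / √p) : ℝ) : ℂ) := by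
    rw [sc_zero p0 p1, conj_ofReal, ofReal_div a, div_eq_mul_inv (a : ℂ)]
  have e1 : (a : ℂ) * (conj (sc p Real.pi))⁻¹ = ((a / (1 - 1 / √p) : ℝ) : ℂ) := by
    rw [sc_pi p0 p1, conj_ofReal, ofReal_div a, div_eq_mul_inv (a : ℂ)]
  obtain ⟨sA, tA'⟩ := hT.sign_pos hA.1 hj.le hA.2.1 hA.2.2
  have sB := (hT.sign_neg hB.1 hj hB.2.1 hB.2.2).1
  generalize a / (1 + 1 / √p) = x at *
  generalize a / (1 - 1 / √p) = x' at *
  have nA : (tw g U D).P x ≠ 0 := fun h2 => by rw [h2] at sA; simp at sA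
  have nB : (tw g U D).P x' ≠ 0 := fun h2 => by rw [h2] at sB; simp at sB
  rw [(hX.pathP hT).lk _ fun θ hθ => Dat.Ok.semi nA nB (hB.1.trans hA.1) hθ]
  have hin : ∀ θ ∈ Ioo 0 Real.pi, 0 < ((a : ℂ) * (conj (sc p θ))⁻¹).im := fun θ hθ => by
    rw [im_ofReal_mul, inv_im, conj_im, neg_neg]
    exact mul_pos ha (div_pos (sc_im p0 p1 hθ) (normSq_pos.mpr (hc θ)))
  have hP : ∀ θ ∈ Icc 0 Real.pi, 0 ≤ ((a : ℂ) * (conj (sc p θ))⁻¹).im ∧
      (tw g U D).P ((a : ℂ) * (conj (sc p θ))⁻¹) ≠ 0 := fun θ hθ => by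
    rcases hθ.1.eq_or_lt with rfl | h1
    · rw [e0]
      exact ⟨(ofReal_im _).ge, nA⟩
    rcases hθ.2.eq_or_lt with rfl | h2
    · rw [e1]
      exact ⟨(ofReal_im _).ge, nB⟩
    exact ⟨(hin θ ⟨h1, h2⟩).le, Dat.ne_of_im (hin θ ⟨h1, h2⟩).ne'⟩
  obtain ⟨r, hr, hr0⟩ := Tow1_pos p0 p1 hl (div_pos hu hd) hL0
  set Γ : ℝ → ℂ := fun θ => (l : ℂ) * (sc p θ + (u / d : ℝ)) ^ 2 / Yc p θ * exp (L (sc p θ))
    with hΓd
  have hr1 : conj (Γ 0) = r := by rw [← conj_ofReal, ← hr0]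
  have hΓ : ∀ θ, conj (Γ θ) ≠ 0 := fun θ => (map_ne_zero _).mpr
    (mul_ne_zero (div_ne_zero (mul_ne_zero (ofReal_ne_zero.mpr hl.ne')
      (pow_ne_zero _ (hne θ).2.2.1)) (hne θ).2.2.2) (exp_ne_zero _))
  have cΓ : ContinuousOn (fun θ => conj (Γ θ)) (Icc 0 Real.pi) :=
    continuous_conj.comp_continuousOn ((((continuous_const.mul ((cs.add continuous_const).pow 2)).div
      cY fun θ => (hne θ).2.2.2).continuousOn).mul cL.cexp)
  have cγ : Continuous fun θ => (a : ℂ) * (conj (sc p θ))⁻¹ :=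
    continuous_const.mul ((continuous_conj.comp cs).inv₀ hc)
  have cG : ContinuousOn (fun θ => (tw g U D).G ((a : ℂ) * (conj (sc p θ))⁻¹)) (Icc 0 Real.pi) :=
    Dat.G_cont.comp cγ.continuousOn hP
  have hγ0 : ∀ θ, (a : ℂ) * (conj (sc p θ))⁻¹ ≠ 0 := fun θ => mul_ne_zero a0 (inv_ne_zero (hc θ))
  have hpath := @Tow1_path _ _ hT hX (fun θ => (a : ℂ) * (conj (sc p θ))⁻¹)
    (fun θ => -((a : ℂ) * (conj (sc p θ))⁻¹ *
      conj (I * ((√p / Dl p θ : ℝ) : ℂ) * Yc p θ / sc p θ)))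
    (fun θ _ => by
      refine (((sc_der p0 p1 θ).star.fun_inv (hc θ)).const_mul (a : ℂ)).congr_deriv ?_
      have := hc θ
      rw [map_div₀]
      simp only [star_def]
      field_simp)
    (cγ.mul (continuous_conj.comp (((continuous_const.mul (continuous_ofReal.comp
      (continuous_const.div cD fun θ => (Dl_pos p0 p1 θ).ne'))).mul cY).div cs
        fun θ => (hne θ).1))).neg.continuousOn hin hP
  simp only [e0, e1] at hpath
  have him : ∀ θ, (Γ θ * (I * ((√p / Dl p θ : ℝ) : ℂ) * Yc p θ / sc p θ) +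
      I * ((√p / Dl p θ : ℝ) : ℂ) * Yc p θ / sc p θ / Γ θ).im = √p / (l * u) *
        (((d : ℂ) ^ 2 * ((sc p θ + (u / d : ℝ)) ^ 2 / sc p θ * exp (L (sc p θ))) +
          (u : ℂ) * ((sc p θ - 1) / (sc p θ + (u / d : ℝ)) * exp (-L (sc p θ)))).re / Dl p θ) :=
    fun θ => by
      rw [hΓd]
      beta_reduce
      rw [Link2_alg hu.ne' hl.ne' hl2 (hne θ).1 (hne θ).2.2.1 (hne θ).2.2.2 (hY θ)]
      ring
  have hG : ∀ θ ∈ Icc 0 Real.pi, (tw g U D).G ((a : ℂ) * (conj (sc p θ))⁻¹) ^ 2 =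
      if Even j then -(-I * conj (Γ θ)) ^ 2 else ((-I * conj (Γ θ)) ^ 2)⁻¹ := fun θ hθ => by
    refine hsq (hP θ hθ).2 ?_
    have q1 : conj (sc p θ + (u / d : ℝ)) = conj (sc p θ) + (u / d : ℝ) := by
      rw [map_add, conj_ofReal]
    have q2 : conj (sc p θ - 1) = conj (sc p θ) - 1 := by rw [map_sub, map_one]
    rw [hΓd]
    beta_reduce
    rw [hLd, exp_conj, map_mul, map_div₀, map_mul, map_pow, conj_ofReal, q1]
    refine Link2_sq hu.ne' hd.ne' hl2 (hc θ) ?_ ?_ ?_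
    · rw [← q1]
      exact (map_ne_zero _).mpr (hne θ).2.2.1
    · rw [← q2]
      exact (map_ne_zero _).mpr (hne θ).2.1
    · rw [← map_pow, hY, map_mul, map_mul, q1, q2]
  have h0 : (0 : ℝ) ∈ Icc 0 Real.pi := ⟨le_rfl, Real.pi_pos.le⟩
  rcases Nat.even_or_odd j with hj' | hj'
  · obtain ⟨ε, hε, he⟩ := Link1_sign cG cΓ (fun θ _ => hΓ θ) fun θ hθ => by
      rw [hG θ hθ, if_pos hj', mul_pow, neg_sq, I_sq, neg_one_mul, neg_neg]
    rw [if_pos hj'] at tA'
    obtain rfl : ε = 1 := Tow1_eps hε hr one_ne_zero tA' (by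
      rw [← e0, one_mul, ← hr1]; exact he 0 h0)
    have key := hpath imCLM ((1 : ℝ) * (√p / (l * u))) (fun θ hθ => by
      rw [imCLM_apply, he θ hθ, Link2_even 1 (one_mul 1) (hγ0 θ), him θ, mul_assoc])
    rw [imCLM_apply] at key
    have ty : Sg.ty (false, j) = true := by simp [Sg.ty, hj']
    simp only [ty, if_true]
    rw [key, sg, hj'.neg_one_pow]
  · have hod := Nat.not_even_iff_odd.mpr hj'
    obtain ⟨ε, hε, he⟩ := Link1_sign cG (V := fun θ => I / conj (Γ θ))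
      (continuousOn_const.div cΓ fun θ _ => hΓ θ) (fun θ _ => div_ne_zero I_ne_zero (hΓ θ))
      fun θ hθ => by
        rw [hG θ hθ, if_neg hod, mul_pow, neg_sq, div_pow, I_sq, neg_one_mul, inv_neg, neg_div,
          one_div]
    rw [if_neg hod] at tA'
    obtain rfl : ε = 1 := Tow1_eps hε (inv_pos.2 hr) I_ne_zero tA' (by
      rw [← e0, ofReal_inv, ← hr1, ← div_eq_mul_inv]; exact he 0 h0)
    have key := hpath reCLM (-(1 : ℝ) * (√p / (l * u))) (fun θ hθ => by
      rw [reCLM_apply, he θ hθ, Link2_odd 1 (one_mul 1) (hγ0 θ), him θ, mul_assoc])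
    rw [reCLM_apply] at key
    have ty : Sg.ty (false, j) = false := by simp [Sg.ty, hod]
    simp only [ty, Bool.false_eq_true, if_false]
    rw [key, sg, hj'.neg_one_pow]

end Pool.Agent.MP_92463a_gt

end
end

section

open Set Complex Filter Metric
open scoped Topology ComplexConjugate ContDiff Manifold

noncomputable section

namespace Pool.Agent.MP_92463a_gt

section

variable {g : ℕ}

theorem Tow2_U (g i : ℕ) : ContinuousOn (fun x => Zero_U g x i) (cube (Fin g × Bool)) :=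
  ((continuous_apply i).comp (Zero_cont g).fst).continuousOn

theorem Tow2_D (g i : ℕ) : ContinuousOn (fun x => Zero_D g x i) (cube (Fin g × Bool)) :=
  ((continuous_apply i).comp (Zero_cont g).snd).continuousOn

theorem Tow2_W : ∀ i ≤ g,
    ContinuousOn (fun x => tW (Zero_U g x) (Zero_D g x) i) (cube (Fin g × Bool)) := by
  intro i
  induction i with
  | zero => exact fun _ => continuousOn_const
  | succ i ih =>
    intro hi
    refine (ih (by omega)).div ((Tow2_U g i).mul (Tow2_D g i)) fun x hx => ?_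
    obtain ⟨a, b⟩ := Link0_pos (Zero_box g hx) hi
    exact (mul_pos a b).ne'

theorem Tow2_A {i : ℕ} (hi : i < g) :
    ContinuousOn (fun x => tA (Zero_U g x) (Zero_D g x) i) (cube (Fin g × Bool)) :=
  ((Tow2_W i hi.le).mul (Tow2_U g i)).div ((Tow2_D g i).pow 2) fun _ hx =>
    pow_ne_zero 2 (Link0_pos (Zero_box g hx) hi).2.ne'

theorem Tow2_B {i : ℕ} (hi : i < g) :
    ContinuousOn (fun x => tB (Zero_U g x) (Zero_D g x) i) (cube (Fin g × Bool)) :=
  (Tow2_W i hi.le).div (Tow2_D g i) fun _ hx => (Link0_pos (Zero_box g hx) hi).2.ne'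

theorem Tow2_nu {α : Type} [TopologicalSpace α] {S : Set α} {u d : α → ℝ} (hu : ContinuousOn u S)
    (hd : ContinuousOn d S) (h : ∀ x ∈ S, 0 < u x ∧ 0 < d x) :
    ContinuousOn (fun x => 1 / √(u x / (u x + d x))) S :=
  continuousOn_const.div (hu.div (hu.add hd) fun x hx => (add_pos (h x hx).1 (h x hx).2).ne').sqrt
    fun x hx => (Real.sqrt_pos.2 (div_pos (h x hx).1 (add_pos (h x hx).1 (h x hx).2))).ne'

theorem Tow2_chain (α : Sg → ℝ) (hd : ∀ j < g, α (false, j + 1) = α (true, j))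
    (hu : ∀ j < g, α (false, j) = α (true, j + 1)) (s : Sg) (hs : s.Val g g) :
    α s = if s.ty then α (false, 0) else α (true, 0) := by
  have key : ∀ k ≤ g, α (false, k) = (if Even k then α (false, 0) else α (true, 0)) ∧
      α (true, k) = if Even k then α (true, 0) else α (false, 0) := by
    intro k
    induction k with
    | zero => simp
    | succ k ih =>
      intro hk
      obtain ⟨a, b⟩ := ih (by omega)
      rw [hd k hk, ← hu k hk, a, b]
      by_cases h : Even k <;> simp [Nat.even_add_one, h]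
  obtain ⟨b, k⟩ := s
  cases b
  · rw [(key k (by simpa [Sg.Val] using hs)).1]
    simp [Sg.ty]
  · rw [(key k (by simpa [Sg.Val] using hs)).2]
    by_cases h : Even k <;> simp [Sg.ty, ← Nat.not_even_iff_odd, h]

theorem Tow2_sq (j : ℕ) : sg j * sg j = 1 := by
  rcases Chain_sg j with ⟨-, h⟩ | ⟨-, h⟩ <;> rw [h] <;> norm_num

def Tow2_su : Fin g × Bool → Sg
  | (j, false) => (false, j + 1)
  | (j, true) => (false, j)

def Tow2_sv : Fin g × Bool → Sg
  | (j, false) => (true, j)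
  | (j, true) => (true, j + 1)

def Tow2_u (U D : ℕ → ℝ) : Fin g × Bool → ℝ
  | (j, false) => tA U D j * (1 + 1 / √(U j / (U j + D j)))
  | (j, true) => tA U D j / (1 + 1 / √(D j / (D j + U j)))

def Tow2_v (U D : ℕ → ℝ) : Fin g × Bool → ℝ
  | (j, false) => tA U D j * (1 - 1 / √(U j / (U j + D j)))
  | (j, true) => tA U D j / (1 - 1 / √(D j / (D j + U j)))

def Tow2_s : Fin g × Bool → ℝ
  | (j, false) => -sg j
  | (j, true) => sg j

theorem Tow2_lk {U D : ℕ → ℝ} (h : Box g U D) (i : Fin g × Bool) : ∃ c > 0,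
    Tow2_s i * Lk (tw g U D).F1 (tw g U D).F2 (Tow2_su i).ty (Tow2_u U D i) (Tow2_v U D i) =
      c * Zero_per g i.1 (U, D) i.2 := by
  obtain ⟨j, b⟩ := i
  obtain ⟨a, d⟩ := Link0_pos h j.2
  cases b
  · refine ⟨√(U j / (U j + D j)) / (U j * √(D j)), by positivity, ?_⟩
    simp only [Tow2_s, Tow2_su, Tow2_u, Tow2_v, Zero_per]
    rw [h.lk_down j.2]
    linear_combination (√(U j / (U j + D j)) / (U j * √(D j)) *
      Per (U j) (D j) (Ld g U D j)) * Tow2_sq j
  · refine ⟨√(D j / (D j + U j)) / (D j * √(U j)), by positivity, ?_⟩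
    simp only [Tow2_s, Tow2_su, Tow2_u, Tow2_v, Zero_per]
    rw [h.lk_up j.2]
    linear_combination (√(D j / (D j + U j)) / (D j * √(U j)) *
      Per (D j) (U j) (Lu g U D j)) * Tow2_sq j

theorem Tow2_face {z : Fin g × Bool → ℝ} (hz : z ∈ cube (Fin g × Bool)) (i : Fin g × Bool) :
    (z i = 1 → 0 < Zero_per g i.1 (Zero_U g z, Zero_D g z) i.2) ∧
      (z i = -1 → Zero_per g i.1 (Zero_U g z, Zero_D g z) i.2 < 0) := by
  obtain ⟨j, b⟩ := i
  have hf := Zero_face (Zero_box g hz) j.2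
  cases b
  · constructor
    · intro h1
      refine hf.1.2 ?_
      unfold Zero_D
      rw [dif_pos j.2, h1, Zero_one]
    · intro h1
      refine hf.1.1 ?_
      unfold Zero_D
      rw [dif_pos j.2, h1, Zero_neg]
  · constructor
    · intro h1
      refine hf.2.2 ?_
      unfold Zero_U
      rw [dif_pos j.2, h1, Zero_one]
    · intro h1
      refine hf.2.1 ?_
      unfold Zero_U
      rw [dif_pos j.2, h1, Zero_neg]

end

theorem tower_fam {g : ℕ} (hg : 0 < g) : Nonempty (Fam (Fin g × Bool) g g) := by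
  classical
  have hp : ∀ j : Fin g, ∀ x ∈ cube (Fin g × Bool), 0 < Zero_U g x j ∧ 0 < Zero_D g x j :=
    fun j x hx => Link0_pos (Zero_box g hx) j.2
  have n1 := fun j : Fin g => Tow2_nu (Tow2_U g j) (Tow2_D g j) (hp j)
  have n2 := fun j : Fin g => Tow2_nu (Tow2_D g j) (Tow2_U g j) fun x hx => (hp j x hx).symm
  have n3 : ∀ j : Fin g, ∀ x ∈ cube (Fin g × Bool),
      1 < 1 / √(Zero_D g x j / (Zero_D g x j + Zero_U g x j)) :=
    fun j x hx => (Link0_nu (Zero_box g hx j j.2).symm).1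
  refine ⟨{
    D := fun x => tw g (Zero_U g x) (Zero_D g x)
    su := Tow2_su
    sv := Tow2_sv
    u := fun i x => Tow2_u (Zero_U g x) (Zero_D g x) i
    v := fun i x => Tow2_v (Zero_U g x) (Zero_D g x) i
    A := fun _ i j => if i = j then Tow2_s j else 0
    ok := fun x hx => ⟨(Zero_box g hx).ok hg, rfl, rfl⟩
    ca := fun i hi => Tow2_A hi
    cb := fun i hi => Tow2_B hi
    cρ := ?_
    cu := ?_
    cv := ?_
    cA := fun _ _ => continuousOn_const
    val := ?_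
    mem := ?_
    chain := fun α h s s' hs hs' e => ?_
    inj := fun x _ w h => funext fun i => ?_
    face := fun x hx i => ?_ }⟩
  · refine ContinuousOn.rexp (continuousOn_finsetSum _ fun i hi => ?_)
    have hi' := Finset.mem_range.1 hi
    exact (continuousOn_const.mul (((Tow2_A hi').log fun x hx =>
      (Link0_ab (Zero_box g hx) hi').1.ne').sub (continuousOn_const.mul ((Tow2_B hi').log
        fun x hx => (Link0_ab (Zero_box g hx) hi').2.ne')))).div_const 2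
  · rintro ⟨j, _ | _⟩
    · exact (Tow2_A j.2).mul (continuousOn_const.add (n1 j))
    · exact (Tow2_A j.2).div (continuousOn_const.add (n2 j)) fun x hx => by
        have := n3 j x hx
        positivity
  · rintro ⟨j, _ | _⟩
    · exact (Tow2_A j.2).mul (continuousOn_const.sub (n1 j))
    · exact (Tow2_A j.2).div (continuousOn_const.sub (n2 j)) fun x hx =>
        (sub_neg.2 (n3 j x hx)).ne
  · rintro ⟨j, _ | _⟩
    · simp [Tow2_su, Tow2_sv, Sg.Val, Sg.ty, Nat.even_add_one]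
    · simp [Tow2_su, Tow2_sv, Sg.Val, Sg.ty, Nat.odd_add_one]
  · rintro ⟨j, _ | _⟩ x hx
    · obtain ⟨a, b⟩ := (Zero_box g hx).in_down j.2
      exact ⟨a, b, b.1.trans a.1⟩
    · obtain ⟨a, b⟩ := (Zero_box g hx).in_up j.2
      exact ⟨a, b, b.1.trans a.1⟩
  · have hd : ∀ j < g, α (false, j + 1) = α (true, j) := fun j hj => h (⟨j, hj⟩, false)
    have hu : ∀ j < g, α (false, j) = α (true, j + 1) := fun j hj => h (⟨j, hj⟩, true)
    rw [Tow2_chain α hd hu s hs, Tow2_chain α hd hu s' hs', e]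
  · have h1 := h i
    simp only [ite_mul, zero_mul, Finset.sum_ite_eq, Finset.mem_univ, if_true] at h1
    refine (mul_eq_zero.1 h1).resolve_left ?_
    obtain ⟨j, _ | _⟩ := i <;> simp [Tow2_s, sg]
  · simp only [ite_mul, zero_mul, Finset.sum_ite_eq, Finset.mem_univ, if_true]
    obtain ⟨c, hc, e⟩ := Tow2_lk (Zero_box g hx) i
    rw [e]
    exact ⟨fun h => mul_pos hc ((Tow2_face hx i).1 h),
      fun h => mul_neg_of_pos_of_neg hc ((Tow2_face hx i).2 h)⟩

end Pool.Agent.MP_92463a_gt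

end
end
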