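import Pool.Agent.Mg.F92463a.Gf77392
import Pool.Agent.Mg.F92463a.G8de453
import Pool.Agent.Mg.F92463a.Gf3992e
import Pool.Agent.Mg.F92463a.G34dd3a
import Pool.Agent.Mg.F92463a.G6a2742
import Pool.Agent.Mg.F92463a.Gc176c8
import Pool.Agent.Mg.F92463a.Gc0e07a
import Pool.Agent.Mg.F92463a.G156f76
import Pool.Agent.Mg.F92463a.Gea0143
import Pool.Agent.Mg.F92463a.Gcdf21e
import Pool.Agent.Mg.F92463a.Gc71b18
import Pool.Agent.Mg.F92463a.G205f83
import Pool.Agent.Mg.F92463a.G0b3a5c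

section

open Set Complex Filter Metric
open scoped Topology ComplexConjugate ContDiff Manifold

noncomputable section

namespace Pool.Agent.MP_92463a_gt

theorem CfL2_sign {D : Dat} (hD : D.Ok) {j : ℕ} (hj : j < D.q) {R : ℝ} (h0 : 0 < R)
    (hR : R < D.b 0) : sg j * (D.P ((-D.b j + R : ℝ) : ℂ)).re < 0 ∧
      sg (j + 1) * (D.P ((-D.b j - R : ℝ) : ℂ)).re < 0 := by
  have hb := hD.b0_le hj
  have hp : ∀ i < D.q, 0 < D.b i := hD.b_pos
  have h00 := hp 0 (by omega)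
  refine ⟨(hD.sign_neg (by linarith) hj.le (fun i hi => ?_) fun i h1 h2 => ?_).1,
    (hD.sign_neg (by linarith) hj (fun i hi => ?_) fun i h1 h2 => ?_).1⟩
  · linarith [hD.b_gap i j hi hj, hp i (hi.trans hj), hD.b0_le (hi.trans hj)]
  · rcases h1.eq_or_lt with h | h
    · subst h; linarith
    · linarith [hD.b_gap j i h h2]
  · rcases (Nat.lt_succ_iff.1 hi).eq_or_lt with h | h
    · subst h; linarith
    · linarith [hD.b_gap i j h hj, hp i (h.trans hj)]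
  · linarith [hD.b_gap j i h1 h2]

namespace Cfg

variable {γ : ℕ} {C : Cfg γ}

theorem Fine.XM_eq (h : C.Fine) {X : ℂ → ℂ} (hX : C.wd.SolX X) {k : Fin γ}
    (hk : γ ≤ 2 * (k : ℕ) + 1) (b : Bool) : X (C.wp (k, b)) = C.XM (k, b) := by
  have g := h.toGood.g0
  have hP := hX.toPre.pathP h.toGood.ok1
  have hb := (g.toAdm.bb b).1
  have hτ := g.τ (k, b)
  have h0 : 0 < ‖C.τ (k, b)‖ := norm_pos_iff.2 (τ_ne _)
  have hδ : 2 * ‖C.τ (k, b)‖ < C.D.b 0 / 2 := by linarith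
  have hS : ∀ θ ∈ Icc 0 Real.pi,
      (-C.bb b + ((2 * ‖C.τ (k, b)‖ : ℝ) : ℂ) * exp (θ * I) : ℂ) ∈ C.wd.Qr :=
    fun θ hθ => (g.ss le_rfl (g.arc (e := (k, b)) hδ hθ)).1
  have hφ := (g.toAdm.lg_im hk b).1
  have e0 : (0 : ℝ) ∈ Icc 0 Real.pi := ⟨le_rfl, Real.pi_pos.le⟩
  have eπ : Real.pi ∈ Icc 0 Real.pi := ⟨Real.pi_pos.le, le_rfl⟩
  have A1 := hP.arc fun θ hθ => hS θ (uIcc_subset_Icc e0 hφ hθ)
  have A2 := hP.arc fun θ hθ => hS θ (uIcc_subset_Icc eπ hφ hθ)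
  have p1 : (-C.bb b + ((2 * ‖C.τ (k, b)‖ : ℝ) : ℂ) * exp ((C.lg (k, b)).im * I) : ℂ) =
      -C.bb b + 2 * C.τ (k, b) := by
    rw [ofReal_mul, mul_assoc, ← polar, ofReal_ofNat]
  have p2 : (-C.bb b + ((2 * ‖C.τ (k, b)‖ : ℝ) : ℂ) * exp ((0 : ℝ) * I) : ℂ) =
      ((-C.bb b + 2 * ‖C.τ (k, b)‖ : ℝ) : ℂ) := by simp
  have p3 : (-C.bb b + ((2 * ‖C.τ (k, b)‖ : ℝ) : ℂ) * exp (Real.pi * I) : ℂ) =
      ((-C.bb b - 2 * ‖C.τ (k, b)‖ : ℝ) : ℂ) := by
    rw [exp_pi_mul_I]; push_cast; ring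
  have o2 := (hS 0 e0).2.2
  have o3 := (hS _ eπ).2.2
  rw [p2] at o2 A1
  rw [p3] at o3 A2
  rw [p1] at A1 A2
  have A3 := hP.seg (t₀ := -C.bb b + 2 * C.τ (k, b)) (t₁ := C.wp (k, b)) fun x hx => by
    have := (g.ss le_rfl (h.seg hk hδ hx)).1
    convert this using 1
    simp only [wp, c]
    ring
  obtain ⟨s1, s2⟩ := CfL2_sign g.d (g.toAdm.jj_lt b) (R := 2 * ‖C.τ (k, b)‖) (by linarith)
    (by linarith)
  cases b
  · have r1 := hX.re0 _ o2 (by simpa [sg, jj, bb, wd] using s1)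
    have r2 := hX.im0 _ o3 (by simpa [sg, jj, bb, wd] using s2)
    simp only [XM, Bool.false_eq_true, if_false]
    rw [← A1, ← A2, ← A3, sub_re, sub_im, r1, r2, sub_zero, sub_zero, re_add_im]
    ring
  · have r1 := hX.im0 _ o2 (by simpa [sg, jj, bb, wd] using s1)
    have r2 := hX.re0 _ o3 (by simpa [sg, jj, bb, wd] using s2)
    simp only [XM, if_true]
    rw [← A1, ← A2, ← A3, sub_re, sub_im, r1, r2, sub_zero, sub_zero, re_add_im]
    ring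

theorem Fine.sol (h : C.Fine) (he : C.eq = 0) {J : Type} {su sv : J → Sg} {u v : J → ℝ}
    (val : ∀ i, (su i).Val C.D.p C.D.q ∧ (sv i).Val C.D.p C.D.q ∧ (sv i).ty = (su i).ty)
    (mem : ∀ i, C.D.InS (su i) (u i) ∧ C.D.InS (sv i) (v i) ∧ v i < u i)
    (chain : ∀ α : Sg → ℝ, (∀ i, α (su i) = α (sv i)) →
      ∀ s s' : Sg, s.Val C.D.p C.D.q → s'.Val C.D.p C.D.q → s.ty = s'.ty → α s = α s')
    (hO : ∀ i, ∀ θ ∈ Icc 0 Real.pi,
      ((u i + v i) / 2 + (u i - v i) / 2 * exp (θ * I) : ℂ) ∈ C.wd.Om)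
    (hL : ∀ i, Lk C.wd.F1 C.wd.F2 (su i).ty (u i) (v i) = 0) : ∃ X, C.wd.Sol X C.wd.hh := by
  have g := h.toGood.g0
  have o := h.toGood.ok1
  have hE := g.toAdm.E_pos
  have hL' : 0 < C.L := by linarith [g.L]
  have hb := (g.toAdm.bb false).1
  have hθ : ∀ k, C.θ0 k ≠ 0 := fun k => mul_ne_zero (mul_ne_zero I_ne_zero
    (ofReal_ne_zero.2 (mul_pos hb (Real.exp_pos _)).ne')) (exp_ne_zero _)
  have hF : ∀ k, C.eF k = 0 := fun k => congrFun (congrArg Prod.fst he) k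
  have hV : ∀ k, C.eV k = 0 := fun k => congrFun (congrArg (fun z => z.2.1) he) k
  have hA : ∀ k, C.eA k = 0 := fun k => congrFun (congrArg (fun z => z.2.2.1) he) k
  have hB : ∀ k, sy C.eB k = 0 := fun k => congrFun (congrArg (fun z => z.2.2.2) he) k
  have w : ∀ k, C.wd.c (k, true) + C.wd.s k / (C.τ (k, false) * C.vs k) = C.wp (k, true) :=
    fun k => congrArg (C.c (k, true) + ·) (g.s_div (k, false)).1
  obtain ⟨X, hX⟩ := o.solX (fun k _ => by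
    have a := (div_eq_zero_iff.1 (hF k)).resolve_right (mul_ne_zero (mul_ne_zero two_ne_zero (hθ k))
      (pow_ne_zero _ (ofReal_ne_zero.2 (div_pos hE hL').ne')))
    have r : C.pl.rs C.wd.f2 (k, true) = -C.pl.rs C.wd.f2 (k, false) :=
      o.m2.rs_op o.pl (k, false)
    rw [r, map_neg, sub_neg_eq_add] at a
    exact a) val mem chain hO hL
  refine ⟨X, hX.sol o (fun k => ?_) (fun k => ⟨_, (g.s_div (k, false)).2, ?_⟩)
    fun k hk => ⟨_, (g.s_div (k, false)).2, ?_, ?_⟩⟩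
  · exact (mul_eq_zero.1 (hA k)).resolve_left (neg_ne_zero.2 (div_pos hL' hE).ne')
  · rw [w]
    exact (sub_eq_zero.1 ((div_eq_zero_iff.1 (hV k)).resolve_right (by positivity))).symm
  · have := g.wp_im (not_lt.1 (mt (g.place k).2.2.2 hk)) false
    simpa [wd, pl, c] using this
  · have hk' : γ ≤ 2 * (k : ℕ) + 1 := not_lt.1 (mt (g.place k).2.2.2 hk)
    have a := hB k
    rw [sy, if_pos hk'] at a
    rw [w, h.XM_eq hX hk' true]
    refine (h.XM_eq hX hk' false).trans (sub_eq_zero.1 ((div_eq_zero_iff.1 a).resolve_right ?_)).symm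
    exact (map_ne_zero _).2 (div_ne_zero two_ne_zero (hθ k))

end Cfg

end Pool.Agent.MP_92463a_gt

end
end

section

open Set Complex Filter Metric
open scoped Topology ComplexConjugate ContDiff Manifold

noncomputable section

namespace Pool.Agent.MP_92463a_gt

variable {γ : ℕ} {α : Type} {l : Filter α} {C : α → Cfg γ} {D₀ : Dat} {z₀ : Zs γ}

theorem CfN_sum {r y : Fin γ → ℝ} {L A B : ℝ} (hL : 0 < L) (hA : 0 ≤ A)
    (hr : ∀ k, 0 ≤ L * r k ∧ L * r k ≤ A) (hy : ∀ k, 0 ≤ y k) (hs : ∑ k, y k ≤ B * L) :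
    0 ≤ ∑ k, r k * y k ∧ ∑ k, r k * y k ≤ A * B := by
  refine ⟨Finset.sum_nonneg fun k _ =>
    mul_nonneg (nonneg_of_mul_nonneg_right (hr k).1 hL) (hy k), le_of_mul_le_mul_left ?_ hL⟩
  calc L * ∑ k, r k * y k = ∑ k, L * r k * y k := by simp only [Finset.mul_sum, mul_assoc]
    _ ≤ ∑ k, A * y k := Finset.sum_le_sum fun k _ => mul_le_mul_of_nonneg_right (hr k).2 (hy k)
    _ = A * ∑ k, y k := by rw [Finset.mul_sum]
    _ ≤ A * (B * L) := mul_le_mul_of_nonneg_left hs hA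
    _ = L * (A * B) := by ring

/-- at most one port is close to a given point -/
theorem CfN_one {C : Cfg γ} (h : C.Adm) (b : Bool) (τ : ℂ) :
    ∃ k₀, ∀ k, k ≠ k₀ → ‖C.τ (k, b)‖ / γ ≤ ‖τ - C.τ (k, b)‖ := by
  by_cases h1 : ∃ k₀, ‖τ - C.τ (k₀, b)‖ < ‖C.τ (k₀, b)‖ / γ
  · obtain ⟨k₀, h1⟩ := h1
    refine ⟨k₀, fun k hk => not_lt.1 fun h2 => ?_⟩
    have h3 := (h.sep hk b).2
    have h4 := (h.sep hk.symm b).2
    have h5 := norm_sub_le_norm_sub_add_norm_sub (C.τ (k, b)) τ (C.τ (k₀, b))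
    rw [norm_sub_rev] at h2 h4
    have e1 : 2 / (γ : ℝ) * ‖C.τ (k₀, b)‖ = 2 * (‖C.τ (k₀, b)‖ / γ) := by ring
    have e2 : 2 / (γ : ℝ) * ‖C.τ (k, b)‖ = 2 * (‖C.τ (k, b)‖ / γ) := by ring
    linarith
  · exact ⟨⟨0, h.pos⟩, fun k _ => not_lt.1 fun h2 => h1 ⟨k, h2⟩⟩

theorem CfN_y (h : Lim l C D₀ z₀) {η : ℝ} (hη : 0 < η) : ∀ᶠ x in l, ∀ b, ∀ τ : ℂ, ‖τ‖ ≤ 1 / 2 →
    (∀ k, (C x).mm b k ≤ ‖τ - (C x).τ (k, b)‖) →
    (∀ k, 0 ≤ -Real.log ‖τ - (C x).τ (k, b)‖) ∧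
      ∑ k, -Real.log ‖τ - (C x).τ (k, b)‖ ≤ (γ * (2 + η) + 1) * (C x).L := by
  obtain ⟨K, hK⟩ := h.log_tau
  have h1 : ∀ᶠ x in l, ∀ e, ‖(C x).τ e‖ ≤ 1 / 2 := eventually_all.2 fun e =>
    (h.tau0 e).1.norm.eventually_le_const (by simp)
  have h2 : ∀ᶠ x in l, ∀ k, -1 - η / 2 ≤ Real.log ‖(C x).vs k‖ / (C x).L :=
    eventually_all.2 fun k => (h.vs0 k).2.eventually_const_le (by linarith)
  have h3 := (h.L.const_mul_atTop (half_pos hη)).eventually_ge_atTop (|K| + |Real.log γ|)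
  filter_upwards [hK, h1, h2, h3, h.g0] with x hK h1 h2 h3 ⟨g, _⟩ b τ hτ hm
  have hL : 0 < (C x).L := by linarith [g.L]
  have hγ : (0 : ℝ) < γ := Nat.cast_pos.2 g.pos
  have hT := fun k => norm_pos_iff.2 (Cfg.τ_ne (C := C x) (k, b))
  have hv := fun k => norm_pos_iff.2 (g.vs_ne k)
  have hm' : ∀ k, ‖(C x).τ (k, b)‖ * ‖(C x).vs k‖ ≤ ‖τ - (C x).τ (k, b)‖ := fun k =>
    (g.mu_eq (k, b)).symm.trans_le (hm k)
  refine ⟨fun k => neg_nonneg.2 (Real.log_nonpos (norm_nonneg _) ?_), ?_⟩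
  · linarith [norm_sub_le τ ((C x).τ (k, b)), h1 (k, b)]
  obtain ⟨k₀, h4⟩ := CfN_one g.toAdm b τ
  have h5 : ∀ k, -Real.log ‖τ - (C x).τ (k, b)‖ ≤
      (2 + η) * (C x).L + if k = k₀ then (C x).L else 0 := by
    intro k
    have a1 := (abs_le.1 (hK (k, b))).1
    have a2 := le_abs_self K
    have a3 := le_abs_self (Real.log γ)
    have a4 := abs_nonneg (Real.log γ)
    have a5 := mul_pos hη hL
    split_ifs with hk
    · have a6 := Real.log_le_log (mul_pos (hT k) (hv k)) (hm' k)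
      rw [Real.log_mul (hT k).ne' (hv k).ne'] at a6
      have a7 := (le_div_iff₀ hL).1 (h2 k)
      linarith
    · have a6 := Real.log_le_log (div_pos (hT k) hγ) (h4 k hk)
      rw [Real.log_div (hT k).ne' hγ.ne'] at a6
      linarith
  refine (Finset.sum_le_sum fun k _ => h5 k).trans_eq ?_
  rw [Finset.sum_add_distrib, Finset.sum_ite_eq', Finset.sum_const, Finset.card_univ,
    Fintype.card_fin, if_pos (Finset.mem_univ _), nsmul_eq_mul]
  ring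

theorem Lim.size (h : Lim l C D₀ z₀) : ∃ m > 0, ∀ᶠ δ in 𝓝[>] (0 : ℝ), ∀ᶠ x in l, ∀ X,
    (C x).wd.SolX X → ∀ b, ∀ τ ∈ SS ((C x).TT b) ((C x).mm b) δ,
      m * ‖τ‖ ^ (-1 / 2 : ℝ) ≤ ‖X (-(C x).bb b + τ)‖ := by
  obtain ⟨K, hK⟩ := h.sheet
  have h1 : ∀ᶠ ε in 𝓝[>] (0 : ℝ), 100 * K * ε ≤ 1 :=
    nhdsWithin_le_nhds (((continuous_const.mul continuous_id).tendsto' (0 : ℝ) 0
      (by simp)).eventually_le_const one_pos)
  obtain ⟨ε, h2, h3⟩ := (hK.and h1).exists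
  obtain ⟨m, hm, M, h4⟩ := h.bds
  refine ⟨m, hm, ?_⟩
  filter_upwards [h2] with δ hδ
  filter_upwards [hδ, h4, h.adm] with x h5 h6 h7 X hX b τ hτ
  have a1 := (h5 X hX b).model hτ
  have a2 : m ≤ ‖(C x).cm b‖ := (h6.2 (⟨0, h7.pos⟩, b)).2.2.2.2.1.1
  have a3 : ‖(C x).Xh X b τ‖ = ‖X (-(C x).bb b + τ)‖ := by cases b <;> simp [Cfg.Xh]
  have a4 : ‖2 * (C x).cm b * pw (-1 / 2) τ‖ = 2 * (‖(C x).cm b‖ * ‖τ‖ ^ (-1 / 2 : ℝ)) := by
    rw [norm_mul, norm_mul, norm_pw _ hτ.2.1, mul_assoc, Complex.norm_two]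
  have a5 := norm_le_add_norm_add' ((C x).Xh X b τ) (2 * (C x).cm b * pw (-1 / 2) τ)
  have a6 : 0 ≤ ‖τ‖ ^ (-1 / 2 : ℝ) := by positivity
  have a7 := mul_le_mul_of_nonneg_right a2 a6
  have a8 := mul_le_mul_of_nonneg_right h3 (mul_nonneg (norm_nonneg ((C x).cm b)) a6)
  linarith

theorem Lim.s1 (h : Lim l C D₀ z₀) {X : α → ℂ → ℂ} (hX : ∀ᶠ x in l, (C x).wd.SolX (X x)) (M : ℝ) :
    ∃ δ > 0, ∀ᶠ x in l, ∀ t, (C x).wd.OnS δ t → M ≤ ‖X x t‖ := by
  obtain ⟨m, hm, h1⟩ := h.size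
  have h2 := ((tendsto_rpow_neg_nhdsGT_zero (y := -1 / 2) (by norm_num)).const_mul_atTop
    hm).eventually_ge_atTop M
  obtain ⟨δ, ⟨h3, h4⟩, h5⟩ := ((h1.and h2).and self_mem_nhdsWithin).exists
  refine ⟨δ, h5, ?_⟩
  filter_upwards [h3, hX, h.adm] with x a1 a2 a3 t ht
  obtain ⟨b, τ, hτ, rfl⟩ := a3.onS ht
  refine (h4.trans (mul_le_mul_of_nonneg_left ?_ hm.le)).trans (a1 _ a2 b τ hτ)
  exact Real.rpow_le_rpow_of_nonpos (norm_pos_iff.2 hτ.2.1) hτ.2.2.1.le (by norm_num)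

theorem Lim.hs_bd (h : Lim l C D₀ 0) : ∀ ε > 0, ∀ᶠ δ in 𝓝[>] (0 : ℝ), ∀ᶠ x in l,
    (∀ τ ∈ SS ((C x).TT false) ((C x).mm false) δ, Real.log ‖τ‖ / 2 ≤ (C x).hs false τ ∧
      (C x).hs false τ ≤ 2 * Real.log (D₀.b 1 / D₀.b 0) + ε) ∧
    ∀ τ ∈ SS ((C x).TT true) ((C x).mm true) δ,
      -(6 * γ * (cf D₀ (0 : Zs γ)).E + ε) ≤ (C x).hs true τ ∧ (C x).hs true τ ≤ 0 := by
  intro ε hε
  rcases l.eq_or_neBot with rfl | hl
  · simp
  have hE := h.adm₀.E_pos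
  have hγ : (1 : ℝ) ≤ γ := Nat.one_le_cast.2 h.adm₀.pos
  have hE' : Real.log (D₀.b 1 / D₀.b 0) = (2 * γ + 1) * (cf D₀ (0 : Zs γ)).E := by
    change _ = _ * (Real.log (D₀.b 1 / D₀.b 0) / (2 * γ + 1))
    field_simp
  have hq := h.q0
  have hr := fun e => (continuous_re.tendsto _).comp (h.rs3 e)
  rw [hE']
  generalize (cf D₀ (0 : Zs γ)).E = E at hE hq hr ⊢
  have h1 : ∀ᶠ η in 𝓝[>] (0 : ℝ),
      2 * ((E + η) * (γ * (2 + η) + 1)) ≤ 2 * ((2 * γ + 1) * E) + ε :=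
    nhdsWithin_le_nhds ((Continuous.tendsto' (by fun_prop) (0 : ℝ) (2 * ((2 * γ + 1) * E))
      (by ring)).eventually_le_const (by linarith))
  obtain ⟨η, h2, hη⟩ := (h1.and self_mem_nhdsWithin).exists
  replace hη : 0 < η := hη
  have h3 : ∀ᶠ x in l, ∀ k, 0 ≤ (C x).L * ((C x).pl.rs (C x).wd.f3 (k, true)).re ∧
      (C x).L * ((C x).pl.rs (C x).wd.f3 (k, true)).re ≤ E + η := by
    refine eventually_all.2 fun k => ?_
    have a1 : Tendsto (fun x => (C x).L * ((C x).pl.rs (C x).wd.f3 (k, true)).re) l (𝓝 E) := by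
      simpa [ZsB_eh_zero, Function.comp_def] using hr (k, true)
    exact (a1.eventually_const_le hE).and (a1.eventually_le_const (by linarith))
  have h4 : ∀ᶠ x in l, ∀ k, 0 ≤ (C x).L * -((C x).pl.rs (C x).wd.f3 (k, false)).re ∧
      (C x).L * -((C x).pl.rs (C x).wd.f3 (k, false)).re ≤ E + η := by
    refine eventually_all.2 fun k => ?_
    have a1 : Tendsto (fun x => (C x).L * -((C x).pl.rs (C x).wd.f3 (k, false)).re) l (𝓝 E) := by
      simpa [ZsB_eh_zero, Function.comp_def] using (hr (k, false)).neg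
    exact (a1.eventually_const_le hE).and (a1.eventually_le_const (by linarith))
  rw [ZsB_mean_zero, zero_re, add_zero] at hq
  have h5 := hq.eventually_const_le (u := 0) (by positivity)
  have h6 := hq.eventually_le_const (lt_add_one _)
  have h7 := h.L.eventually_ge_atTop (4 * (E * (γ + 1 / 2) + 1))
  filter_upwards [Ioc_mem_nhdsGT (one_half_pos (α := ℝ))] with δ hδ
  filter_upwards [h3, h4, h5, h6, h7, CfN_y h hη] with x h3 h4 h5 h6 h7 h8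
  have hL : 0 < (C x).L := lt_of_lt_of_le (by positivity) h7
  have q1 : 0 ≤ (C x).wd.q0 := nonneg_of_mul_nonneg_right h5 hL
  have q2 : (C x).wd.q0 ≤ 1 / 4 := le_of_mul_le_mul_left (by linarith) hL
  refine ⟨fun τ hτ => ?_, fun τ hτ => ?_⟩
  · have a1 : ‖τ‖ ≤ 1 / 2 := hτ.2.2.1.le.trans hδ.2
    obtain ⟨a2, a3⟩ := h8 false τ a1 hτ.2.2.2
    obtain ⟨a4, a5⟩ := CfN_sum hL (by linarith) h4 a2 a3
    have a6 : Real.log ‖τ‖ ≤ 0 := Real.log_nonpos (norm_nonneg _) (by linarith)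
    have a7 := mul_le_mul_of_nonpos_right q2 a6
    have a8 := mul_nonpos_of_nonneg_of_nonpos q1 a6
    simp only [neg_mul_neg] at a4 a5
    simp only [Cfg.hs, Bool.false_eq_true, if_false]
    constructor <;> linarith
  · obtain ⟨a2, a3⟩ := h8 true τ (hτ.2.2.1.le.trans hδ.2) hτ.2.2.2
    obtain ⟨a4, a5⟩ := CfN_sum hL (by linarith) h3 a2 a3
    have a6 := mul_le_mul_of_nonneg_right hγ hE.le
    simp only [mul_neg, Finset.sum_neg_distrib] at a4 a5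
    simp only [Cfg.hs, if_true]
    constructor <;> linarith

theorem Lim.s2 (h : Lim l C D₀ 0) {X : α → ℂ → ℂ} (hX : ∀ᶠ x in l, (C x).wd.SolX (X x)) :
    ∃ δ > 0, ∃ K : ℝ, ∀ᶠ x in l, ∀ t, (C x).wd.OnS δ t →
      -K - Real.log ‖X x t‖ ≤ (C x).wd.hh t ∧ (C x).wd.hh t ≤ 2 * Real.log (D₀.b 1) + 1 := by
  obtain ⟨m, hm, h1⟩ := h.size
  obtain ⟨δ, ⟨⟨h1, h2⟩, h3⟩, hδ⟩ := (((h1.and (h.hs_bd _ one_half_pos)).and
    (h.hh_sheet _ one_half_pos)).and (Ioc_mem_nhdsGT (one_pos (α := ℝ)))).exists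
  have b0 := h.D.ok₀.b_pos 0 (by linarith [h.q])
  have b1 := h.D.ok₀.b_pos 1 (by linarith [h.q])
  rw [Real.log_div b1.ne' b0.ne'] at h2
  refine ⟨δ, hδ.1, 2 * |Real.log (D₀.b 0)| + 2 * |Real.log (D₀.b 1)| + |Real.log m| +
    |6 * γ * (cf D₀ (0 : Zs γ)).E| + 1, ?_⟩
  filter_upwards [h1, h2, h3, hX, h.adm] with x a1 a2 a3 a4 a5 t ht
  obtain ⟨b, τ, hτ, rfl⟩ := a5.onS ht
  have hn := norm_pos_iff.2 hτ.2.1
  have c1 := Real.log_le_log (by positivity) (a1 _ a4 b τ hτ)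
  rw [Real.log_mul hm.ne' (by positivity), Real.log_rpow hn] at c1
  have c2 := abs_le.1 (a3 b τ hτ.2.2.1 ht.2.1)
  have c3 : Real.log ‖τ‖ ≤ 0 := Real.log_nonpos hn.le (hτ.2.2.1.le.trans hδ.2)
  have d1 := neg_abs_le (Real.log (D₀.b 0))
  have d2 := neg_abs_le (Real.log (D₀.b 1))
  have d3 := neg_abs_le (Real.log m)
  have d4 := le_abs_self (6 * γ * (cf D₀ (0 : Zs γ)).E)
  have d5 := abs_nonneg (Real.log (D₀.b 0))
  have d6 := abs_nonneg (Real.log (D₀.b 1))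
  have d7 := abs_nonneg (6 * γ * (cf D₀ (0 : Zs γ)).E)
  cases b
  · have c4 := a2.1 τ hτ
    rw [show jj false = 0 from rfl] at c2
    constructor <;> linarith [c2.1, c2.2, c4.1, c4.2]
  · have c4 := a2.2 τ hτ
    rw [show jj true = 1 from rfl] at c2
    constructor <;> linarith [c2.1, c2.2, c4.1, c4.2]

end Pool.Agent.MP_92463a_gt

end
end

section

open Set Complex Filter Metric
open scoped Topology ComplexConjugate ContDiff Manifold

noncomputable section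

namespace Pool.Agent.MP_92463a_gt

namespace Wd

variable {ι : Type} [Fintype ι] {W : Wd ι} {X : ℂ → ℂ} {H : ℂ → ℝ}

theorem WMin_prim (hW : W.Ok1) (hX : W.Sol X H) {T T' : ℂ → ℂ} {δ : ℝ} (hδ : 0 < δ)
    (hT : ∀ w ∈ ball (0 : ℂ) δ, HasDerivAt T (T' w) w ∧ T w ∈ W.Om ∧ ¬ W.D.IsE (T w))
    (hT' : DifferentiableOn ℂ T' (ball 0 δ)) :
    ∃ Φ : ℂ → ℂ, ∀ w ∈ ball (0 : ℂ) δ,
      HasDerivAt Φ (W.F3 (T w) * T' w) w ∧ H (T w) = 2 * (Φ w).re := by
  have h1 : DifferentiableOn ℂ (fun w => W.F3 (T w) * T' w) (ball 0 δ) := fun w hw =>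
    (((hW.F3_diff (hT w hw).2.1 (hT w hw).2.2).comp w
      (hT w hw).1.differentiableAt).differentiableWithinAt).mul (hT' w hw)
  obtain ⟨Φ, h0, hΦ⟩ := h1.isExactOn_ball.with_val_at 0 ((H (T 0) / 2 : ℝ) : ℂ)
  have h2 : ∀ w ∈ ball (0 : ℂ) δ,
      HasFDerivAt (fun w => H (T w) - 2 * (Φ w).re) (0 : ℂ →L[ℝ] ℝ) w := fun w hw => by
    have a := (hX.derH _ (hT w hw).2.1 (hT w hw).2.2).comp w
      ((hT w hw).1.hasFDerivAt.restrictScalars ℝ)
    have b := (reCLM.hasFDerivAt.comp w ((hΦ w hw).hasFDerivAt.restrictScalars ℝ)).const_mul 2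
    refine (a.sub b).congr_fderiv (ContinuousLinearMap.ext fun v => ?_)
    simp [hl_apply]
    ring
  refine ⟨Φ, fun w hw => ⟨hΦ w hw, ?_⟩⟩
  have h3 := isOpen_ball.is_const_of_fderiv_eq_zero (𝕜 := ℝ) (convex_ball (0 : ℂ) δ).isPreconnected
    (fun w hw => (h2 w hw).differentiableAt.differentiableWithinAt)
    (fun w hw => (h2 w hw).fderiv) hw (mem_ball_self hδ)
  simp only [h0, ofReal_re] at h3
  linarith

theorem Sol.minimal (hW : W.Ok) (hX : W.Sol X H) (A : W.D.Atl) :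
    letI := A.charted
    ∀ z ∈ W.U, z ∉ W.D.S → IsMinimalAt (W.ff X H) z := by
  letI := A.charted
  intro z hU hz
  have hD := hW.d
  have hc : chartAt ℂ z z = 0 := A.ctr z
  have hz0 : (A.ch z).symm 0 = z := by
    rw [← A.ctr z]
    exact (A.ch z).left_inv (A.mem z)
  have hl : ∀ w, loc (W.ff X H) z w = W.ff X H ((A.ch z).symm w) := fun _ => rfl
  rcases A.kind z with ⟨t₀, h, H₀, he⟩ | ⟨x₀, h, H₀, he⟩ | ⟨h, H₀, he, -⟩
  · have h0 : (0 : ℂ) ∈ ball (0 : ℂ) (A.δ z) := mem_ball_self H₀.pos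
    have ht : W.D.tt z = t₀ := by
      rw [← hz0, he 0 h0, Dat.tt_pt (H₀.sq 0 h0), add_zero]
    have hO : t₀ ∈ W.Om := ht ▸ hU
    obtain ⟨ε, hε, hb⟩ := Metric.isOpen_iff.1 Pl.isOpen_om t₀ hO
    have hδ : 0 < min ε (A.δ z) := lt_min hε H₀.pos
    have H₁ := H₀.mono hδ (min_le_right _ _)
    have hO' : ∀ w ∈ ball (0 : ℂ) (min ε (A.δ z)), t₀ + w ∈ W.Om := fun w hw => hb (by
      rw [mem_ball_iff_norm, add_sub_cancel_left]
      exact (mem_ball_zero_iff.1 hw).trans_le (min_le_left _ _))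
    obtain ⟨Φ₁, Φ₂, hΦ⟩ := hX.toSolX.lf1 hW.toOk1 H₁ hO'
    have hf := (H₁.form hD).2.2
    obtain ⟨Φ₃, h3⟩ := WMin_prim hW.toOk1 hX (T := fun w => t₀ + w) (T' := fun _ => 1) hδ
      (fun w hw => ⟨(hasDerivAt_id w).const_add t₀, hO' w hw,
        fun hE => (hf w hw).1 (Dat.P_eq_zero.2 (Or.inl hE))⟩) (differentiableOn_const 1)
    have h1 := mem_ball_self (x := (0 : ℂ)) hδ
    refine minimal_of_loc (Φ₁ := Φ₁) (Φ₂ := Φ₂) (Φ₃ := Φ₃)
      (φ₁ := fun w => W.ψ₁ (t₀ + w) ^ 2 * (h w * W.D.R (t₀ + w) / (t₀ + w)))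
      (φ₂ := fun w => W.ψ₂ (t₀ + w) ^ 2 * (h w * W.D.R (t₀ + w) * (t₀ + w))⁻¹)
      (φ₃ := fun w => W.F3 (t₀ + w) * 1) ?_ ?_
    · rw [hc]
      filter_upwards [ball_mem_nhds (0 : ℂ) hδ] with w hw
      refine ⟨(hΦ w hw).1, (hΦ w hw).2.1, (h3 w hw).1, ?_, ?_⟩
      · have a1 := H₁.ne w hw
        have a2 := (hf w hw).2.1
        have a3 := (hf w hw).2.2
        rw [F3]
        field_simp
      · rw [hl, he w (ball_subset_ball (min_le_right _ _) hw), ff, Dat.tt_pt (H₁.sq w hw),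
          Dat.yy_pt (H₁.sq w hw), (hΦ w hw).2.2, (h3 w hw).2]
    · rw [hc]
      have a1 := mul_ne_zero (H₁.ne 0 h1) (hf 0 h1).2.2
      exact (hW.ne _ (hO' 0 h1) (hf 0 h1).1).imp
        (fun a => mul_ne_zero (pow_ne_zero 2 a) (div_ne_zero a1 (hf 0 h1).2.1))
        fun a => mul_ne_zero (pow_ne_zero 2 a) (inv_ne_zero (mul_ne_zero a1 (hf 0 h1).2.1))
  · have h0 : (0 : ℂ) ∈ ball (0 : ℂ) (A.δ z) := mem_ball_self H₀.pos
    have ht : W.D.tt z = x₀ := by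
      rw [← hz0, he 0 h0, Dat.tt_pt (H₀.on h0).1]
      simp
    have ha : W.D.IsA x₀ := (Dat.P_eq_zero.1 H₀.br).resolve_left fun hE =>
      hz (Dat.mem_S.2 (ht ▸ hE))
    obtain ⟨δ', hδ, Φ₁, Φ₂, φ₁, φ₂, hne, hΦ⟩ := hX.toSolX.lfA hW H₀ ha
    obtain ⟨Φ₃, h3⟩ := WMin_prim hW.toOk1 hX (T := fun w => x₀ + w ^ 2) (T' := fun w => 2 * w) hδ
      (fun w hw => ⟨by simpa using (hasDerivAt_pow 2 w).const_add x₀, (hΦ w hw).2.2.1,
        (hΦ w hw).2.2.2.1⟩) (by fun_prop)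
    refine minimal_of_loc (Φ₁ := Φ₁) (Φ₂ := Φ₂) (Φ₃ := Φ₃) (φ₁ := φ₁) (φ₂ := φ₂)
      (φ₃ := fun w => W.F3 (x₀ + w ^ 2) * (2 * w)) ?_ ?_
    · rw [hc]
      filter_upwards [ball_mem_nhds (0 : ℂ) H₀.pos, ball_mem_nhds (0 : ℂ) hδ] with w hw hw'
      refine ⟨(hΦ w hw').1, (hΦ w hw').2.1, (h3 w hw').1, (hΦ w hw').2.2.2.2.1, ?_⟩
      rw [hl, he w hw, ff, Dat.tt_pt (H₀.on hw).1, Dat.yy_pt (H₀.on hw).1,
        (hΦ w hw').2.2.2.2.2, (h3 w hw').2]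
    · rw [hc]
      exact hne
  · refine absurd (Dat.mem_S.2 ?_) hz
    rw [← hz0, he]
    exact Or.inl rfl

theorem Sol.ff_glue (hW : W.Ok) (hX : W.Sol X H) : ∀ z ∈ W.O, W.ff X H (W.g z) = W.ff X H z := by
  intro z hz
  obtain ⟨e, v, hv, ε, hε, rfl⟩ := hW.toOk0.mem_O hz
  have h1 := hW.toOk0.sq_pt (hW.pl.ann_sub e hv).2 hε
  have h2 := hW.toOk0.sq_pt (hW.pl.ann_sub _ (hW.pl.ann_op hv)).2 hε
  have h3 := hX.XA_glue hW.toOk1 e v hv
  rw [(hW.toOk0.g_pt hv hε).2, ff, ff, Dat.tt_pt h1, Dat.yy_pt h1, Dat.tt_pt h2, Dat.yy_pt h2,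
    hX.glueH e v hv]
  rw [XA, XA] at h3
  rcases hε with rfl | rfl
  · rw [one_mul, one_mul, h3]
  · rw [neg_one_mul, neg_one_mul, Dat.Xg_neg, Dat.Xg_neg, h3]

theorem Sol.ff_big (hW : W.Ok) (hX : W.Sol X H) :
    ∀ z ∈ W.D.S, Tendsto (fun x => ‖W.ff X H x‖) (𝓝[≠] z) atTop := by
  intro z hz
  by_cases h : z = OnePoint.infty
  · subst h
    exact tendsto_atTop_mono (fun w => Proper_le2 _ _)
      (hX.top.comp (tendsto_norm_atTop_iff_cobounded.1 Dat.tt_tendsto))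
  · classical
    have := Dat.t2 (D := W.D)
    have hE := Dat.mem_S.1 hz
    have hS : ∀ᶠ w in 𝓝[≠] z, ¬ W.D.IsE (W.D.tt w) := by
      have h1 : ((W.D.S.erase z : Finset W.D.N) : Set W.D.N)ᶜ ∈ 𝓝 z :=
        (Finset.finite_toSet _).isClosed.isOpen_compl.mem_nhds (by simp)
      filter_upwards [self_mem_nhdsWithin, nhdsWithin_le_nhds h1] with w h2 h3 h4
      exact h3 (Finset.mem_coe.2 (Finset.mem_erase.2 ⟨h2, Dat.mem_S.2 h4⟩))
    have hU : ∀ᶠ w in 𝓝[≠] z, W.D.tt w ∈ W.Om :=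
      nhdsWithin_le_nhds (hW.toOk0.isOpen_U.mem_nhds (hW.toOk0.S_mem hz).1)
    have ht : Tendsto W.D.tt (𝓝[≠] z) (𝓝 (W.D.tt z)) :=
      ((Dat.tt_cont z h).continuousAt (isOpen_compl_singleton.mem_nhds h)).tendsto.mono_left
        nhdsWithin_le_nhds
    have h1 : Tendsto (fun w => if 0 ≤ (W.D.tt w).im then W.D.tt w else conj (W.D.tt w))
        (𝓝[≠] z) (𝓝[W.Q] (W.D.tt z)) := by
      refine tendsto_nhdsWithin_iff.2 ⟨?_, ?_⟩
      · refine ht.if' ?_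
        have := (continuous_conj.tendsto _).comp ht
        rwa [Proper_conj hE] at this
      · filter_upwards [hS, hU] with w hw hw'
        split_ifs with hi
        · exact ⟨⟨hi, hw⟩, hw'⟩
        · exact ⟨⟨by rw [conj_im]; linarith, fun h => hw (Dat.Xg_isE h)⟩, hW.sy.om hw'⟩
    refine tendsto_atTop_mono' _ ?_ ((hX.toSolX.end_big hW hE).comp h1)
    filter_upwards [hS] with w hw
    rw [Function.comp, ← hX.toSolX.Xg_norm hW.toOk1 (Dat.yy_sq w) hw]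
    exact Proper_le1 _ _

end Wd

end Pool.Agent.MP_92463a_gt

end
end

section

open Set Complex Filter Metric
open scoped Topology ComplexConjugate ContDiff Manifold

noncomputable section

namespace Pool.Agent.MP_92463a_gt

theorem Pb4_congr {M N : Type} [TopologicalSpace M] [ChartedSpace ℂ M] [TopologicalSpace N]
    [ChartedSpace ℂ N] {f : M → E3} {f' : N → E3} {p : M} {n : N}
    (hc : chartAt ℂ n n = chartAt ℂ p p) (he : loc f' n =ᶠ[𝓝 (chartAt ℂ p p)] loc f p)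
    (h : IsMinimalAt f p) : IsMinimalAt f' n := by
  have h1 : ∀ v, d1 f' n v = d1 f p v := fun v => by
    unfold d1
    rw [hc, he.fderiv_eq]
  have h2 : ∀ v w, d2 f' n v w = d2 f p v w := fun v w => by
    unfold d2
    have : (fun z => fderiv ℝ (loc f' n) z v) =ᶠ[𝓝 (chartAt ℂ p p)]
        fun z => fderiv ℝ (loc f p) z v := by
      filter_upwards [he.fderiv (𝕜 := ℝ)] with z hz
      rw [hz]
    rw [hc, this.fderiv_eq]
  refine ⟨?_, ?_, ?_⟩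
  · rw [hc]
    exact h.smooth.congr_of_eventuallyEq he
  · rw [h1, h1]
    exact h.immersion
  · simp only [h1, h2]
    exact h.mean

theorem Pb4_cont {N : Type} [TopologicalSpace N] [ChartedSpace ℂ N] {f : N → E3} {n : N}
    (h : IsMinimalAt f n) : ContinuousAt f n := by
  have h1 : ContinuousAt (loc f n ∘ chartAt ℂ n) n :=
    h.smooth.continuousAt.comp ((chartAt ℂ n).continuousAt (mem_chart_source ℂ n))
  refine h1.congr ?_
  filter_upwards [chart_source_mem_nhds ℂ n] with x hx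
  simp only [loc, Function.comp_apply, (chartAt ℂ n).left_inv hx]

theorem Pb4_proper {N : Type} [TopologicalSpace N] [CompactSpace N] (S : Finset N) {f : N → E3}
    (hc : ContinuousOn f {z | z ∉ S})
    (hb : ∀ z ∈ S, Tendsto (fun w => ‖f w‖) (𝓝[{w | w ∉ S}] z) atTop) :
    IsProperMap (fun z : {z // z ∉ S} => f z) := by
  refine isProperMap_iff_isCompact_preimage.2 ⟨hc.domRestrict, fun K hK => ?_⟩
  rw [Subtype.isCompact_iff]
  refine IsClosed.isCompact (isClosed_of_closure_subset fun z hz => ?_)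
  have hB : ∀ w ∈ Subtype.val '' ((fun z : {z // z ∉ S} => f z) ⁻¹' K), w ∉ S ∧ f w ∈ K := by
    rintro _ ⟨w, hw, rfl⟩
    exact ⟨w.2, hw⟩
  have := mem_closure_iff_nhdsWithin_neBot.1 hz
  have hle := nhdsWithin_mono z (show _ ⊆ {w | w ∉ S} from fun w hw => (hB w hw).1)
  have hev : ∀ᶠ w in 𝓝[Subtype.val '' ((fun z : {z // z ∉ S} => f z) ⁻¹' K)] z, f w ∈ K := by
    filter_upwards [self_mem_nhdsWithin] with w hw using (hB w hw).2
  by_cases h : z ∈ S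
  · obtain ⟨r, hr⟩ := hK.isBounded.exists_norm_le
    have h1 := ((hb z h).mono_left hle).eventually (eventually_gt_atTop r)
    obtain ⟨w, a, b⟩ := (h1.and hev).exists
    exact absurd (hr _ b) (not_le.2 a)
  · exact ⟨⟨z, h⟩, hK.isClosed.mem_of_tendsto ((hc z h).tendsto.mono_left hle) hev, rfl⟩

theorem Glue.realized {M : Type} [TopologicalSpace M] [ChartedSpace ℂ M] [T2Space M]
    [IsManifold 𝓘(ℂ) ω M] {U O Cp : Set M} {g : M → M} (h : Glue U O g Cp) (S : Finset M)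
    (hS : ∀ z ∈ S, z ∈ U ∧ z ∉ O) {f : M → E3} (hg : ∀ z ∈ O, f (g z) = f z)
    (hm : ∀ z ∈ U, z ∉ S → IsMinimalAt f z)
    (hi : ∀ z ∈ U, z ∉ S → ∀ z' ∈ U, z' ∉ S → f z = f z' → z = z' ∨ (z ∈ O ∧ z' = g z))
    (hb : ∀ z ∈ S, Tendsto (fun x => ‖f x‖) (𝓝[≠] z) atTop) :
    Realized (Module.finrank ℂ (formsU U O g)) S.card := by
  classical
  obtain ⟨N, _, _, π, σ, h2, hc, hcon, hP⟩ := h.exists_plumbed
  have e1 : ∀ z ∈ U, f (σ (π z)) = f z := fun z hz => by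
    rcases (hP.eq _ (hP.mem (π z)) z hz).1 (hP.sec _) with e | ⟨a, b⟩
    · rw [e]
    · rw [← hg _ a, ← b]
  have e2 : ∀ s ∈ S, ∀ z ∈ U, π s = π z → s = z := fun s hs z hz e =>
    ((hP.eq s (hS s hs).1 z hz).1 e).resolve_right fun a => (hS s hs).2 a.1
  have e3 : ∀ n, n ∉ S.image π → σ n ∉ S := fun n hn hs =>
    hn (Finset.mem_image.2 ⟨σ n, hs, hP.sec n⟩)
  have hmin : ∀ n, n ∉ S.image π → IsMinimalAt (fun n => f (σ n)) n := fun n hn => by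
    refine Pb4_congr (hP.ctr n) ?_ (hm _ (hP.mem n) (e3 n hn))
    rw [← hP.ctr n]
    filter_upwards [(chartAt ℂ n).open_target.mem_nhds (mem_chart_target ℂ n)] with w hw
    obtain ⟨-, a, b⟩ := hP.tgt n w hw
    simp only [loc, Function.comp_apply]
    rw [b, e1 _ a]
  have hp := Pb4_proper (S.image π) (f := fun n => f (σ n))
    (fun n hn => (Pb4_cont (hmin n hn)).continuousWithinAt) fun n hn => by
      obtain ⟨z, hz, rfl⟩ := Finset.mem_image.1 hn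
      refine tendsto_atTop.2 fun r => ?_
      obtain ⟨V, hV1, hV2, hV3⟩ := mem_nhdsWithin.1 (tendsto_atTop.1 (hb z hz) r)
      refine mem_nhdsWithin.2 ⟨π '' (V ∩ U), hP.opn _ inter_subset_right (hV1.inter h.oU),
        ⟨z, ⟨hV2, (hS z hz).1⟩, rfl⟩, ?_⟩
      rintro _ ⟨⟨x, hx, rfl⟩, hx'⟩
      have : x ≠ z := by
        rintro rfl
        exact hx' hn
      have a := hV3 ⟨hx.1, this⟩
      rw [mem_ofPred_eq, e1 x hx.2]
      exact a
  have hinj : Function.Injective fun n : {n // n ∉ S.image π} => f (σ n) := fun n n' e => by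
    have := (hP.eq _ (hP.mem n) _ (hP.mem n')).2
      (hi _ (hP.mem n) (e3 _ n.2) _ (hP.mem n') (e3 _ n'.2) e)
    rw [hP.sec, hP.sec] at this
    exact Subtype.ext this
  exact ⟨N, inferInstance, inferInstance, h2, hc, hcon, hP.isManifold h, hP.genus_eq h,
    S.image π, fun n => f (σ n),
    Finset.card_image_of_injOn fun s hs z hz e => e2 s hs z (hS z hz).1 e, hmin,
    (Topology.IsClosedEmbedding.of_continuous_injective_isClosedMap hp.continuous hinj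
      hp.isClosedMap).isEmbedding, hp⟩

end Pool.Agent.MP_92463a_gt

end
end

section

open Set Complex Filter Metric
open scoped Topology ComplexConjugate ContDiff Manifold

noncomputable section

namespace Pool.Agent.MP_92463a_gt

theorem Wd.Sol.realized {ι : Type} [Fintype ι] {W : Wd ι} {X : ℂ → ℂ} {H : ℂ → ℝ} (hW : W.Ok)
    (hX : W.Sol X H) (hQ : W.QInj X H) :
    Realized ((W.D.p + W.D.q) / 2 + 2 * Fintype.card ι) (W.D.q + 2) := by
  obtain ⟨A⟩ := hW.d.atl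
  letI := A.charted
  have : T2Space W.D.N := Dat.t2
  have := A.isManifold hW.d
  have h := (hW.toOk0.glue A).realized W.D.S (fun z hz => hW.toOk0.S_mem hz) (hX.ff_glue hW)
    (hX.minimal hW A) (hX.inj hW hQ) (hX.ff_big hW)
  rwa [hW.toOk0.finrank_forms A, hW.d.card_S] at h

end Pool.Agent.MP_92463a_gt

end
end

section

open Set Complex Filter Metric
open scoped Topology ComplexConjugate ContDiff Manifold

noncomputable section

namespace Pool.Agent.MP_92463a_gt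

theorem Fam.ring {J : Type} [Fintype J] {p q γ : ℕ} (F : Fam J p q) (hq : 2 ≤ q) (hγ : 0 < γ) :
    Realized ((p + q) / 2 + 2 * γ) (q + 2) := by
  classical
  have hg : (0 : ℝ) < 1 / (100 * γ) := by positivity
  have key : ∀ n : ℕ, ∃ L : ℝ, (n : ℝ) ≤ L ∧ ∃ x ∈ cube J, ∃ z : Zs γ, z.rf = z ∧
      ‖z‖ ≤ 1 / ((n : ℝ) + 1) ∧ ‖z‖ ≤ 1 / (100 * γ) ∧ (⟨F.D x, L, z⟩ : Cfg γ).eq = 0 ∧
      ∀ i, Lk (⟨F.D x, L, z⟩ : Cfg γ).wd.F1 (⟨F.D x, L, z⟩ : Cfg γ).wd.F2 (F.su i).ty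
        (F.u i x) (F.v i x) = 0 := by
    intro n
    have hm : (0 : ℝ) < min (1 / ((n : ℝ) + 1)) (1 / (100 * γ)) := lt_min (by positivity) hg
    obtain ⟨r, hr, hr'⟩ := ((F.solve hq hγ).and (Ioc_mem_nhdsGT hm)).exists
    obtain ⟨L, ⟨x, hx, z, h1, h2, h3⟩, hL⟩ := (hr.and (eventually_ge_atTop (n : ℝ))).exists
    exact ⟨L, hL, x, hx, z, h1, h2.trans (hr'.2.trans (min_le_left _ _)),
      h2.trans (hr'.2.trans (min_le_right _ _)), h3⟩
  choose L hL x hx z hs hz hz' he hk using key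
  obtain ⟨x₀, h₀, φ, hφ, hx₀⟩ := isCompact_cube.tendsto_subseq hx
  have hxw : Tendsto (fun n => x (φ n)) atTop (𝓝[cube J] x₀) :=
    tendsto_nhdsWithin_iff.2 ⟨hx₀, .of_forall fun n => hx _⟩
  have hLt : Tendsto (fun n => L (φ n)) atTop atTop :=
    (tendsto_atTop_mono hL tendsto_natCast_atTop_atTop).comp hφ.tendsto_atTop
  have hzt : Tendsto (fun n => z (φ n)) atTop (𝓝 0) :=
    (squeeze_zero_norm hz tendsto_one_div_add_atTop_nhds_zero_nat).comp hφ.tendsto_atTop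
  have h := F.lim hq hγ h₀ hxw hLt hzt (.of_forall fun n => ⟨hs _, hz' _⟩)
  have hO := eventually_all.2 fun i => (F.lim_lk h₀ hxw h.wlim (fun _ => rfl) i).1
  obtain ⟨C, hC⟩ : ∃ C : ℕ → Cfg γ, C = fun n => ⟨F.D (x (φ n)), L (φ n), z (φ n)⟩ := ⟨_, rfl⟩
  have hp : ∀ n, (C n).D.p = p ∧ (C n).D.q = q := fun n => hC ▸ (F.ok _ (hx (φ n))).2
  have hS : ∀ᶠ n in atTop, ∃ X, (C n).wd.Sol X (C n).wd.hh := by
    filter_upwards [h.fine, hO] with n hf hO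
    have h1 := hp n
    subst hC
    refine hf.sol (he _) ?_ (fun i => F.mem i _ (hx _)) ?_ (fun i θ hθ => (hO i θ hθ).2.2) (hk _)
    · rw [h1.1, h1.2]
      exact F.val
    · rw [h1.1, h1.2]
      exact F.chain
  rw [← hC] at h
  obtain ⟨X, hX⟩ := hS.choice
  have hSL : SLim atTop (fun n => (C n).wd) (F.D x₀) X fun n => (C n).wd.hh :=
    ⟨h.wlim, hX, h.hh_far⟩
  have hX' := hX.mono fun n hn => hn.toSolX
  obtain ⟨n, ⟨h1, h2⟩, h3⟩ :=
    ((h.ok.and hX).and (hSL.qinj (h.s1 hX') (h.s2 hX') (h.s3 hX))).exists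
  have h4 := h2.realized h1 h3
  rwa [Fintype.card_fin, show (C n).wd.D.p = p from (hp n).1,
    show (C n).wd.D.q = q from (hp n).2] at h4

theorem Fam.ring' {J : Type} [Fintype J] {p q : ℕ} (F : Fam J p q) (hq : 2 ≤ q) (γ : ℕ) :
    Realized ((p + q) / 2 + 2 * γ) (q + 2) := by
  rcases Nat.eq_zero_or_pos γ with rfl | hγ
  · simpa using F.realized
  · exact F.ring hq hγ

theorem realized_even {g r : ℕ} (hr : 4 ≤ r) (hg : r ≤ g + 2) (he : Even (g + r)) :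
    Realized g r := by
  obtain ⟨q, rfl⟩ : ∃ q, r = q + 2 := ⟨r - 2, by omega⟩
  obtain ⟨F⟩ := tower_fam (g := q) (by omega)
  obtain ⟨m, hm⟩ := he
  have h := F.ring' (by omega) (m - q - 1)
  rwa [show (q + q) / 2 + 2 * (m - q - 1) = g by omega] at h

end Pool.Agent.MP_92463a_gt

end
end

section

open Set Complex Filter Metric
open scoped Topology ComplexConjugate ContDiff Manifold

noncomputable section

namespace Pool.Agent.MP_92463a_gt

theorem real_of {J : Type} [Fintype J] {p q : ℕ} (h : Nonempty (Fam J p q)) {q' : ℕ} (hp : p = q' + 2)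
    (hq : q = q') (h2 : 2 ≤ q') (γ : ℕ) : Realized (q' + 1 + 2 * γ) (q' + 2) := by
  obtain ⟨F⟩ := h
  subst hp hq
  have h := F.ring' h2 γ
  rwa [show (q + 2 + q) / 2 = q + 1 by omega] at h

theorem realized_handle {q : ℕ} (hq : 2 ≤ q) (γ : ℕ) : Realized (q + 1 + 2 * γ) (q + 2) := by
  rcases le_or_gt 11 q with h | h
  · exact real_of (cert_gen (n := q + 1) (by omega)).fam (gen_cnt (by omega)).1
      (gen_cnt (by omega)).2 hq γ
  · interval_cases q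
    · exact real_of (q' := 2) (fam_fin okF2 rfl rfl (by decide) finF2) rfl rfl hq γ
    · exact real_of (q' := 3) (fam_fin okF3 rfl rfl (by decide) finF3) rfl rfl hq γ
    · exact real_of (q' := 4) (fam_fin okF4 rfl rfl (by decide) finF4) rfl rfl hq γ
    · exact real_of (q' := 5) (fam_fin okF5 rfl rfl (by decide) finF5) rfl rfl hq γ
    · exact real_of (q' := 6) (fam_fin okF6 rfl rfl (by decide) finF6) rfl rfl hq γ
    · exact real_of (q' := 7) (fam_fin okF7 rfl rfl (by decide) finF7) rfl rfl hq γ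
    · exact real_of (q' := 8) (fam_fin okF8 rfl rfl (by decide) finF8) rfl rfl hq γ
    · exact real_of (q' := 9) (fam_fin okF9 rfl rfl (by decide) finF9) rfl rfl hq γ
    · exact real_of (q' := 10) (fam_fin okF10 rfl rfl (by decide) finF10) rfl rfl hq γ

theorem realized_four {g r : ℕ} (hr : 4 ≤ r) (hg : r ≤ g + 2) : Realized g r := by
  rcases Nat.even_or_odd (g + r) with he | ⟨m, hm⟩
  · exact realized_even hr hg he
  · obtain ⟨q, rfl⟩ : ∃ q, r = q + 2 := ⟨r - 2, by omega⟩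
    have h := realized_handle (q := q) (by omega) (m - q - 1)
    rwa [show q + 1 + 2 * (m - q - 1) = g by omega] at h

end Pool.Agent.MP_92463a_gt

end
end
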